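import Pool.Agent.DLM.Defs

/-!
# DLM/ADefs: definitions for part A (the Brownian queue)

`stepM κ s`: law of a step `± s` with mean `κ s^2`.  `geoM κ s`: geometric law on `s ℕ` (stationary for the reflected walk).  `sumM κ s n`: law of the sum of `n` steps.
`rmax S N = max (S 0) .. (S N)`.  `psi j x`: one step of the discrete Pitman transform: old queue `j`, step `x`, new step and new queue.
`que f B t = sup_{s ≤ t} (f s + B t - B s)` (written with a countable supremum: `min q t`, `q` rational).  `dq B n f`: the lines `n-1, .., 0` applied to `f`.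
`past X t`, `fut X t`: increments from `t` to the past and to the future.  `rmx X t = sup_{s ≤ t} X s`.
-/

set_option autoImplicit false

open MeasureTheory ProbabilityTheory Filter Topology

namespace Pool.Agent.DLM

/-- steps `± s` with mean `κ s ^ 2` -/
noncomputable def stepM (κ s : ℝ) : Measure ℝ :=
  ENNReal.ofReal ((1 + κ * s) / 2) • Measure.dirac s + ENNReal.ofReal ((1 - κ * s) / 2) • Measure.dirac (-s)

/-- geometric law on the multiples of `s` -/
noncomputable def geoM (κ s : ℝ) : Measure ℝ :=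
  Measure.sum fun n : ℕ =>
    ENNReal.ofReal ((1 - (1 - κ * s) / (1 + κ * s)) * ((1 - κ * s) / (1 + κ * s)) ^ n) • Measure.dirac ((n : ℝ) * s)

/-- law of the sum of `n` independent steps -/
noncomputable def sumM (κ s : ℝ) (n : ℕ) : Measure ℝ :=
  (Measure.pi fun _ : Fin n => stepM κ s).map fun x => ∑ i, x i

/-- running maximum of a sequence -/
noncomputable def rmax (S : ℕ → ℝ) : ℕ → ℝ
  | 0 => S 0
  | n + 1 => max (rmax S n) (S (n + 1))

/-- one step of the Pitman transform -/
noncomputable def psi (j x : ℝ) : ℝ × ℝ := (2 * (max j x - j) - x, max j x - x)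

/-- running maximum of a path (over `s ≤ t`) -/
noncomputable def rmx (X : ℝ → ℝ) (t : ℝ) : ℝ := ⨆ q : ℚ, X (min (q : ℝ) t)

/-- the Pitman transform of a path, normalised to vanish at `0` -/
noncomputable def pit (X : ℝ → ℝ) (t : ℝ) : ℝ := 2 * (rmx X t - rmx X 0) - (X t - X 0)

/-- the queue operator `t ↦ sup_{s ≤ t} (f s + B t - B s)` -/
noncomputable def que (f B : ℝ → ℝ) (t : ℝ) : ℝ := B t + rmx (fun s => f s - B s) t

/-- the lines `n - 1, ..., 0` applied to `f` -/
noncomputable def dq (B : ℕ → ℝ → ℝ) : ℕ → (ℝ → ℝ) → (ℝ → ℝ)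
  | 0, f => f
  | n + 1, f => dq B n (que f (B n))

/-- boundedness of all suprema in `dq B n f` -/
def DBdd (B : ℕ → ℝ → ℝ) : ℕ → (ℝ → ℝ) → Prop
  | 0, _ => True
  | n + 1, f => (∀ t : ℝ, BddAbove (Set.range fun q : ℚ => f (min (q : ℝ) t) - B n (min (q : ℝ) t))) ∧
      DBdd B n (que f (B n))

/-- increments to the past of `t` -/
def past (X : ℝ → ℝ) (t : ℝ) : ℝ → ℝ := fun s => X (min s t) - X t

/-- increments to the future of `t` -/
def fut (X : ℝ → ℝ) (t : ℝ) : ℝ → ℝ := fun s => X (max s t) - X t

end Pool.Agent.DLM
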