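import Pool.Agent.DLM.Defs

/-!
# DLM/BMN: reflection of Brownian motion on the rationals (30-60 lines)

Increments of `f(-x)` over `[s, t]` are minus the increments of `f` over `[-t, -s]`: law `-N(b (t-s), v (t-s)) = N(-b (t-s), v (t-s))` (`gaussianReal_map_neg`).  Independence: for a monotone `t : ℕ → ℚ` and a finite set of indices `i < n` apply `IsBML.indep` to the monotone sequence
`j ↦ -(t (n - j))` (natural subtraction) and reindex `i = n - 1 - j` (`iIndepFun.precomp`, `iIndepFun.comp` with negation).
-/

set_option autoImplicit false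

open MeasureTheory ProbabilityTheory Filter Topology

namespace Pool.Agent.DLM

theorem bml_map_neg {β : Measure Ini} {v b : ℝ} (h : IsBML β v b) :
    IsBML (β.map (fun f x => f (-x))) v (-b) := by
  have hp := h.prob
  have hT : Measurable (fun (f : Ini) (x : ℚ) => f (-x)) :=
    measurable_pi_lambda _ fun x => measurable_pi_apply (-x)
  have hinc : ∀ s t : ℚ, Measurable (fun f : Ini => f t - f s) := fun s t =>
    (measurable_pi_apply t).sub (measurable_pi_apply s)
  refine ⟨Measure.isProbabilityMeasure_map hT.aemeasurable, ?_, ?_, ?_⟩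
  · rw [ae_map_iff hT.aemeasurable (measurableSet_eq_fun (measurable_pi_apply 0) measurable_const)]
    filter_upwards [h.zero] with f hf
    rw [neg_zero]
    exact hf
  · intro s t hst
    rw [Measure.map_map (hinc s t) hT]
    have e : ((fun f : Ini => f t - f s) ∘ fun (f : Ini) (x : ℚ) => f (-x)) =
        (fun y : ℝ => -y) ∘ fun f : Ini => f (-s) - f (-t) := by
      funext f
      show f (-t) - f (-s) = -(f (-s) - f (-t))
      ring
    rw [e, ← Measure.map_map measurable_neg (hinc (-t) (-s)), h.gauss (-t) (-s) (neg_le_neg hst)]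
    rw [gaussianReal_map_neg]
    have e1 : ((-s : ℚ) : ℝ) - ((-t : ℚ) : ℝ) = t - s := by
      push_cast
      ring
    rw [e1]
    congr 1
    ring
  · intro t ht
    rw [iIndepFun_iff_measure_inter_preimage_eq_mul]
    intro S A hA
    have hm : ∀ i ∈ S, MeasurableSet ((fun f : Ini => f (t (i + 1)) - f (t i)) ⁻¹' A i) :=
      fun i hi => hinc (t i) (t (i + 1)) (hA i hi)
    rw [Measure.map_apply hT (Finset.measurableSet_biInter _ hm)]
    rw [Finset.prod_congr rfl fun i hi => Measure.map_apply hT (hm i hi)]
    obtain ⟨n, hn⟩ : ∃ n, ∀ i ∈ S, i < n := ⟨S.sup id + 1, fun i hi =>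
      Nat.lt_succ_of_le (Finset.le_sup (f := id) hi)⟩
    let g : ℕ → ℕ := fun i => if i < n then n - 1 - i else i
    have hg : Function.Injective g := by
      intro i j hij
      have hij' : (if i < n then n - 1 - i else i) = (if j < n then n - 1 - j else j) := hij
      split_ifs at hij' <;> omega
    have hmono : Monotone fun j : ℕ => -(t (n - j)) := by
      intro i j hij
      exact neg_le_neg (ht (Nat.sub_le_sub_left hij n))
    have h1 := (h.indep _ hmono).precomp hg
    have h2 := h1.comp (fun _ y => -y) (fun _ => measurable_neg)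
    have h3 := (iIndepFun_iff_measure_inter_preimage_eq_mul.1 h2) S hA
    have e : ∀ i ∈ S, (fun (f : Ini) (x : ℚ) => f (-x)) ⁻¹' ((fun f : Ini => f (t (i + 1)) - f (t i)) ⁻¹' A i) =
        ((fun y : ℝ => -y) ∘ fun f : Ini => f (-(t (n - (g i + 1)))) - f (-(t (n - g i)))) ⁻¹' A i := by
      intro i hi
      have hi' := hn i hi
      have hgi : g i = n - 1 - i := if_pos hi'
      have e1 : n - (g i + 1) = i := by omega
      have e2 : n - g i = i + 1 := by omega
      rw [e1, e2]
      ext f
      show f (-(t (i + 1))) - f (-(t i)) ∈ A i ↔ -(f (-(t i)) - f (-(t (i + 1)))) ∈ A i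
      rw [neg_sub]
    rw [Set.preimage_iInter₂]
    rw [Set.iInter₂_congr e, Finset.prod_congr rfl fun i hi => congrArg β (e i hi)]
    exact h3

end Pool.Agent.DLM
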