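import Pool.Agent.DLM.Defs

/-!
# DLM/BMU: laws of Brownian motion on the rationals (120-180 lines)

`bml_unique`: both measures are probability measures on `ℚ → ℝ`; equality of all finite dimensional marginals suffices (`IsProjectiveLimit.unique`, or the π-system of measurable cylinders
`generateFrom_measurableCylinders`, `isPiSystem_measurableCylinders`, `ext_of_generate_finite`).  For a finite set `I` choose a monotone sequence `t : ℕ → ℚ` (eventually constant) whose range contains
`I ∪ {0}`, say `t j = 0`; the law of the increments `(f (t (i+1)) - f (t i))_{i < n}` is the product of the Gaussians (`iIndepFun_iff_map_fun_eq_pi_map`), the same for both measures, and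
`f x - f 0` for `x ∈ I` is a (measurable, linear) function of the increments; `f 0 = 0` a.s.
`bml_map_add`, `bml_map_shift`, `bml_map_scale`: check the fields (increments of the new process are affine functions of increments of the old process over the transformed times; `Measure.map_map`,
`iIndepFun.comp`, `gaussianReal_map_const_add`, `gaussianReal_map_const_mul`).  `iIndepFun` for a mapped measure: `iIndepFun_map_iff`-like lemma or unfold through `iIndepFun_iff_map_fun_eq_pi_map`.
`bml_law`: a process with `IsPre` restricted to rational times has a law with `IsBML`.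
-/

set_option autoImplicit false

open MeasureTheory ProbabilityTheory Filter Topology

namespace Pool.Agent.DLM

private theorem bmu_indep_map {Ω Ω' : Type*} [MeasurableSpace Ω] [MeasurableSpace Ω'] {P : Measure Ω} {ι : Type*}
    {T : Ω → Ω'} (hT : Measurable T) {g : ι → Ω' → ℝ} (hg : ∀ i, Measurable (g i))
    (h : iIndepFun (fun i ω => g i (T ω)) P) : iIndepFun g (P.map T) := by
  rw [iIndepFun_iff_measure_inter_preimage_eq_mul] at h ⊢
  intro S sets hs
  have h1 := h S (sets := sets) hs
  have e1 : ∀ i ∈ S, MeasurableSet (g i ⁻¹' sets i) := fun i hi => hg i (hs i hi)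
  rw [Measure.map_apply hT (Finset.measurableSet_biInter S e1)]
  have e2 : T ⁻¹' (⋂ i ∈ S, g i ⁻¹' sets i) = ⋂ i ∈ S, (fun ω => g i (T ω)) ⁻¹' sets i := by
    ext ω; simp
  rw [e2, h1]
  refine Finset.prod_congr rfl fun i hi => ?_
  rw [Measure.map_apply hT (e1 i hi)]
  rfl

private theorem bmu_ae0 {Ω : Type*} [MeasurableSpace Ω] {P : Measure Ω} {T : Ω → Ini} (hT : Measurable T)
    (h : ∀ᵐ ω ∂P, T ω 0 = 0) : ∀ᵐ f ∂P.map T, f 0 = 0 := by
  have hs : MeasurableSet {f : Ini | f 0 = 0} := measurableSet_eq_fun (measurable_pi_apply (0 : ℚ)) measurable_const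
  exact (ae_map_iff hT.aemeasurable hs).mpr h

private theorem bmu_enum (I : Finset ℚ) : ∃ (n : ℕ) (t : ℕ → ℚ), Monotone t ∧
    (∃ k0 : Fin (n + 1), t k0 = 0) ∧ ∀ x ∈ I, ∃ k : Fin (n + 1), t k = x := by
  classical
  set J : Finset ℚ := insert 0 I with hJ
  have h0 : (0 : ℚ) ∈ J := Finset.mem_insert_self _ _
  have hc : 0 < J.card := Finset.card_pos.mpr ⟨0, h0⟩
  obtain ⟨n, hn⟩ : ∃ n, J.card = n + 1 := ⟨J.card - 1, by omega⟩
  have hlt : ∀ i : ℕ, min i n < n + 1 := fun i => by omega
  refine ⟨n, fun i => J.orderEmbOfFin hn ⟨min i n, hlt i⟩, ?_, ?_, ?_⟩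
  · intro i j hij
    apply (J.orderEmbOfFin hn).monotone
    show min i n ≤ min j n
    omega
  · have h1 : (0 : ℚ) ∈ Set.range (J.orderEmbOfFin hn) := by
      rw [Finset.range_orderEmbOfFin]; exact h0
    obtain ⟨k, hk⟩ := h1
    refine ⟨k, ?_⟩
    have e : (⟨min (k : ℕ) n, hlt k⟩ : Fin (n + 1)) = k := by
      apply Fin.ext
      show min (k : ℕ) n = k
      have := k.2
      omega
    show J.orderEmbOfFin hn ⟨min (k : ℕ) n, hlt k⟩ = _
    rw [e, hk]
  · intro x hx
    have h1 : x ∈ Set.range (J.orderEmbOfFin hn) := by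
      rw [Finset.range_orderEmbOfFin]; exact Finset.mem_insert_of_mem hx
    obtain ⟨k, hk⟩ := h1
    refine ⟨k, ?_⟩
    have e : (⟨min (k : ℕ) n, hlt k⟩ : Fin (n + 1)) = k := by
      apply Fin.ext
      show min (k : ℕ) n = k
      have := k.2
      omega
    show J.orderEmbOfFin hn ⟨min (k : ℕ) n, hlt k⟩ = _
    rw [e, hk]

private noncomputable def bmuPhi (n : ℕ) (k0 : ℕ) {I : Finset ℚ} (k : I → ℕ) (v : Fin n → ℝ) : I → ℝ :=
  fun x => (∑ i : Fin n, if (i : ℕ) < k x then v i else 0) - ∑ i : Fin n, if (i : ℕ) < k0 then v i else 0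

private theorem bmu_meas_phi (n : ℕ) (k0 : ℕ) {I : Finset ℚ} (k : I → ℕ) : Measurable (bmuPhi n k0 k) := by
  refine measurable_pi_iff.mpr fun x => ?_
  unfold bmuPhi
  refine Measurable.sub ?_ ?_ <;>
  · refine Finset.measurable_sum _ fun i _ => ?_
    split_ifs
    · exact measurable_pi_apply i
    · exact measurable_const

private theorem bmu_tele (f : ℚ → ℝ) (t : ℕ → ℚ) (n k : ℕ) (hk : k ≤ n) :
    (∑ i : Fin n, if (i : ℕ) < k then f (t (i + 1)) - f (t i) else 0) = f (t k) - f (t 0) := by
  have h1 : (∑ i : Fin n, if (i : ℕ) < k then f (t (i + 1)) - f (t i) else 0) =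
      ∑ i ∈ Finset.range n, if i < k then f (t (i + 1)) - f (t i) else 0 :=
    Fin.sum_univ_eq_sum_range (fun i => if i < k then f (t (i + 1)) - f (t i) else 0) n
  rw [h1, ← Finset.sum_filter]
  have h2 : (Finset.range n).filter (fun i => i < k) = Finset.range k := by
    ext i; simp only [Finset.mem_filter, Finset.mem_range]; omega
  rw [h2, Finset.sum_range_sub (fun i => f (t i))]

private theorem bmu_marg {β : Measure Ini} {v b : ℝ} (h : IsBML β v b) (I : Finset ℚ) (n : ℕ) (t : ℕ → ℚ)
    (ht : Monotone t) (k0 : Fin (n + 1)) (hk0 : t k0 = 0) (k : I → Fin (n + 1)) (hk : ∀ x : I, t (k x) = x) :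
    β.map I.restrict = (Measure.pi fun i : Fin n =>
      gaussianReal (b * ((t (i + 1) : ℝ) - t i)) (Real.toNNReal (v * ((t (i + 1) : ℝ) - t i)))).map
        (bmuPhi n k0 (fun x => (k x : ℕ))) := by
  have := h.prob
  have hm : ∀ i : ℕ, Measurable (fun f : Ini => f (t (i + 1)) - f (t i)) := fun i =>
    (measurable_pi_apply _).sub (measurable_pi_apply _)
  have h1 : iIndepFun (fun (i : Fin n) (f : Ini) => f (t ((i : ℕ) + 1)) - f (t (i : ℕ))) β :=
    (h.indep t ht).precomp (g := fun i : Fin n => (i : ℕ)) Fin.val_injective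
  rw [iIndepFun_iff_map_fun_eq_pi_map (fun i : Fin n => (hm (i : ℕ)).aemeasurable)] at h1
  have h2 : (Measure.pi fun i : Fin n => β.map (fun f : Ini => f (t ((i : ℕ) + 1)) - f (t (i : ℕ)))) =
      Measure.pi fun i : Fin n =>
      gaussianReal (b * ((t (i + 1) : ℝ) - t i)) (Real.toNNReal (v * ((t (i + 1) : ℝ) - t i))) := by
    congr 1
    funext i
    exact h.gauss _ _ (ht (Nat.le_succ _))
  rw [h2] at h1
  rw [← h1, Measure.map_map (bmu_meas_phi _ _ _) (measurable_pi_iff.mpr fun i => hm i)]
  apply Measure.map_congr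
  filter_upwards [h.zero] with f hf
  funext x
  show f x = bmuPhi n k0 (fun x => (k x : ℕ)) (fun i : Fin n => f (t ((i : ℕ) + 1)) - f (t (i : ℕ))) x
  unfold bmuPhi
  rw [bmu_tele f t n (k x) (by have := (k x).2; omega), bmu_tele f t n k0 (by have := k0.2; omega), hk, hk0, hf]
  ring

theorem bml_unique {β β' : Measure Ini} {v b : ℝ} (h : IsBML β v b) (h' : IsBML β' v b) : β = β' := by
  have := h.prob
  have := h'.prob
  have key : ∀ I : Finset ℚ, β'.map I.restrict = β.map I.restrict := by
    intro I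
    obtain ⟨n, t, ht, ⟨k0, hk0⟩, hI⟩ := bmu_enum I
    choose k hk using hI
    rw [bmu_marg h I n t ht k0 hk0 (fun x => k x x.2) (fun x => hk x x.2),
      bmu_marg h' I n t ht k0 hk0 (fun x => k x x.2) (fun x => hk x x.2)]
  have : ∀ I : Finset ℚ, IsFiniteMeasure (β.map I.restrict) := fun I => inferInstance
  exact IsProjectiveLimit.unique (P := fun I => β.map I.restrict) (fun I => rfl) key

/-- adding a drift -/
theorem bml_map_add {β : Measure Ini} {v b : ℝ} (h : IsBML β v b) (c : ℝ) :
    IsBML (β.map (fun f x => f x + c * (x : ℝ))) v (b + c) := by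
  have := h.prob
  have hT : Measurable (fun (f : Ini) (x : ℚ) => f x + c * (x : ℝ)) :=
    measurable_pi_iff.mpr fun x => (measurable_pi_apply x).add_const _
  have hm : ∀ s t : ℚ, Measurable (fun f : Ini => f t - f s) := fun s t =>
    (measurable_pi_apply _).sub (measurable_pi_apply _)
  refine ⟨Measure.isProbabilityMeasure_map hT.aemeasurable, ?_, ?_, ?_⟩
  · refine bmu_ae0 hT ?_
    filter_upwards [h.zero] with f hf
    simp [hf]
  · intro s t hst
    rw [Measure.map_map (hm s t) hT]
    have e : ((fun f : Ini => f t - f s) ∘ fun (f : Ini) (x : ℚ) => f x + c * (x : ℝ)) =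
        (fun y : ℝ => y + c * ((t : ℝ) - s)) ∘ fun f : Ini => f t - f s := by
      funext f; simp only [Function.comp]; ring
    rw [e, ← Measure.map_map (by fun_prop) (hm s t), h.gauss s t hst, gaussianReal_map_add_const]
    congr 1
    ring
  · intro t ht
    refine bmu_indep_map hT (g := fun (i : ℕ) (f : Ini) => f (t (i + 1)) - f (t i)) (fun i => hm _ _) ?_
    have h1 := (h.indep t ht).comp (fun (i : ℕ) (y : ℝ) => y + c * ((t (i + 1) : ℝ) - t i)) (fun i => by fun_prop)
    refine Eq.mp ?_ h1
    congr 1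
    funext i f
    simp only [Function.comp]
    ring

theorem bml_map_shift {β : Measure Ini} {v b : ℝ} (h : IsBML β v b) (a : ℚ) :
    IsBML (β.map (fun f x => f (x + a) - f a)) v b := by
  have := h.prob
  have hT : Measurable (fun (f : Ini) (x : ℚ) => f (x + a) - f a) :=
    measurable_pi_iff.mpr fun x => (measurable_pi_apply (x + a)).sub (measurable_pi_apply a)
  have hm : ∀ s t : ℚ, Measurable (fun f : Ini => f t - f s) := fun s t =>
    (measurable_pi_apply _).sub (measurable_pi_apply _)
  refine ⟨Measure.isProbabilityMeasure_map hT.aemeasurable, ?_, ?_, ?_⟩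
  · refine bmu_ae0 hT ?_
    exact Eventually.of_forall fun f => by simp
  · intro s t hst
    rw [Measure.map_map (hm s t) hT]
    have e : ((fun f : Ini => f t - f s) ∘ fun (f : Ini) (x : ℚ) => f (x + a) - f a) =
        fun f : Ini => f (t + a) - f (s + a) := by
      funext f; simp only [Function.comp]; ring
    rw [e, h.gauss (s + a) (t + a) (by linarith)]
    push_cast
    congr 2 <;> ring
  · intro t ht
    refine bmu_indep_map hT (g := fun (i : ℕ) (f : Ini) => f (t (i + 1)) - f (t i)) (fun i => hm _ _) ?_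
    have h1 := h.indep (fun i => t i + a) (fun i j hij => by have := ht hij; simp only; linarith)
    refine Eq.mp ?_ h1
    congr 1
    funext i f
    ring

theorem bml_map_scale {β : Measure Ini} {v b : ℝ} (h : IsBML β v b) (r : ℚ) (hr : 0 < r) :
    IsBML (β.map (fun f x => (r : ℝ) * f (x / r ^ 2))) v (b / r) := by
  have := h.prob
  have hr' : (0 : ℝ) < (r : ℝ) := by exact_mod_cast hr
  have hT : Measurable (fun (f : Ini) (x : ℚ) => (r : ℝ) * f (x / r ^ 2)) :=
    measurable_pi_iff.mpr fun x => (measurable_pi_apply (x / r ^ 2)).const_mul _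
  have hm : ∀ s t : ℚ, Measurable (fun f : Ini => f t - f s) := fun s t =>
    (measurable_pi_apply _).sub (measurable_pi_apply _)
  refine ⟨Measure.isProbabilityMeasure_map hT.aemeasurable, ?_, ?_, ?_⟩
  · refine bmu_ae0 hT ?_
    filter_upwards [h.zero] with f hf
    simp [hf]
  · intro s t hst
    rw [Measure.map_map (hm s t) hT]
    have e : ((fun f : Ini => f t - f s) ∘ fun (f : Ini) (x : ℚ) => (r : ℝ) * f (x / r ^ 2)) =
        (fun y : ℝ => (r : ℝ) * y) ∘ fun f : Ini => f (t / r ^ 2) - f (s / r ^ 2) := by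
      funext f; simp only [Function.comp]; ring
    rw [e, ← Measure.map_map (by fun_prop) (hm _ _),
      h.gauss (s / r ^ 2) (t / r ^ 2) (by gcongr), gaussianReal_map_const_mul]
    have e1 : (r : ℝ) * (b * (((t / r ^ 2 : ℚ) : ℝ) - ((s / r ^ 2 : ℚ) : ℝ))) = b / r * ((t : ℝ) - s) := by
      push_cast; field_simp
    have e2 : (NNReal.mk ((r : ℝ) ^ 2) (sq_nonneg _)) * Real.toNNReal (v * (((t / r ^ 2 : ℚ) : ℝ) - ((s / r ^ 2 : ℚ) : ℝ))) =
        Real.toNNReal (v * ((t : ℝ) - s)) := by
      have e3 : NNReal.mk ((r : ℝ) ^ 2) (sq_nonneg _) = Real.toNNReal ((r : ℝ) ^ 2) :=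
        (Real.toNNReal_of_nonneg (sq_nonneg _)).symm
      rw [e3, ← Real.toNNReal_mul (sq_nonneg _)]
      congr 1
      push_cast; field_simp
    rw [e1, e2]
  · intro t ht
    refine bmu_indep_map hT (g := fun (i : ℕ) (f : Ini) => f (t (i + 1)) - f (t i)) (fun i => hm _ _) ?_
    have h0 := h.indep (fun i => t i / r ^ 2) (fun i j hij => by have := ht hij; simp only; gcongr)
    have h1 := h0.comp (fun (_ : ℕ) (y : ℝ) => (r : ℝ) * y) (fun i => by fun_prop)
    refine Eq.mp ?_ h1
    congr 1
    funext i f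
    simp only [Function.comp]
    ring

theorem bml_law {Ω : Type*} [MeasurableSpace Ω] {P : Measure Ω} [IsProbabilityMeasure P] {X : ℝ → Ω → ℝ} {v b : ℝ}
    (h : IsPre P X v b) : IsBML (P.map (fun ω (x : ℚ) => X (x : ℝ) ω)) v b := by
  have hT : Measurable (fun (ω : Ω) (x : ℚ) => X (x : ℝ) ω) := measurable_pi_iff.mpr fun x => h.meas x
  have hm : ∀ s t : ℚ, Measurable (fun f : Ini => f t - f s) := fun s t =>
    (measurable_pi_apply _).sub (measurable_pi_apply _)
  refine ⟨Measure.isProbabilityMeasure_map hT.aemeasurable, ?_, ?_, ?_⟩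
  · refine bmu_ae0 hT ?_
    filter_upwards [h.zero] with ω hω
    simpa using hω
  · intro s t hst
    rw [Measure.map_map (hm s t) hT]
    exact h.gauss s t (by exact_mod_cast hst)
  · intro t ht
    refine bmu_indep_map hT (g := fun (i : ℕ) (f : Ini) => f (t (i + 1)) - f (t i)) (fun i => hm _ _) ?_
    exact h.indep (fun i => (t i : ℝ)) (fun i j hij => Rat.cast_le.mpr (ht hij))

end Pool.Agent.DLM
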