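import Mathlib

/-!
# DLM/GAU: Gaussian tails and moments (40-80 lines, Mathlib only)

`gau_tail`: `E exp(c |X - m|) ≤ E exp(c (X-m)) + E exp(-c (X-m)) = 2 exp(c^2 v/2)` (`mgf_gaussianReal`), Markov with `c = l/v` (for `v = 0` the left side
is `0` as `0 < l`); or the sub-Gaussian bounds of Mathlib.
`gau_exp`: `mgf_gaussianReal` written with `∫⁻` (`ofReal_integral_eq_lintegral_ofReal`).
`gau_abs`: `exp(c|x|) ≤ exp(c x) + exp(-c x)`.
-/

set_option autoImplicit false

open MeasureTheory ProbabilityTheory Filter Topology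

namespace Pool.Agent.DLM

theorem gau_tail (m : ℝ) (v : NNReal) (l : ℝ) (hl : 0 < l) :
    gaussianReal m v {x | l < |x - m|} ≤ ENNReal.ofReal (2 * Real.exp (-(l ^ 2) / (2 * v))) := by
  rcases eq_or_ne v 0 with hv | hv
  · subst hv
    rw [gaussianReal_zero_var, Measure.dirac_apply' _ (by measurability)]
    have h1 : m ∉ {x : ℝ | l < |x - m|} := by
      simp only [Set.mem_ofPred_eq, sub_self, abs_zero, not_lt]
      exact hl.le
    rw [Set.indicator_of_notMem h1]
    exact bot_le
  · have hv' : (0 : ℝ) < v := by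
      have : 0 < v := pos_iff_ne_zero.2 hv
      exact_mod_cast this
    have hup := measure_ge_le_exp_mul_mgf (μ := gaussianReal m v) (X := fun x => x) (t := l / v)
      (m + l) (by positivity) (integrable_exp_mul_gaussianReal _)
    have hlo := measure_le_le_exp_mul_mgf (μ := gaussianReal m v) (X := fun x => x) (t := -(l / v))
      (m - l) (by have : 0 ≤ l / v := by positivity
                  linarith) (integrable_exp_mul_gaussianReal _)
    rw [mgf_fun_id_gaussianReal] at hup hlo
    simp only at hup hlo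
    rw [← Real.exp_add] at hup hlo
    have e1 : -(l / v) * (m + l) + (m * (l / v) + v * (l / v) ^ 2 / 2) = -(l ^ 2) / (2 * v) := by
      field_simp; ring
    have e2 : -(-(l / v)) * (m - l) + (m * (-(l / v)) + v * (-(l / v)) ^ 2 / 2) =
        -(l ^ 2) / (2 * v) := by
      field_simp; ring
    rw [e1] at hup
    rw [e2] at hlo
    have hsub : {x : ℝ | l < |x - m|} ⊆ {x | m + l ≤ x} ∪ {x | x ≤ m - l} := by
      intro x hx
      have hx' : l < |x - m| := hx
      rcases lt_abs.1 hx' with h | h
      · left; show m + l ≤ x; linarith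
      · right; show x ≤ m - l; linarith
    calc gaussianReal m v {x | l < |x - m|}
        ≤ gaussianReal m v ({x | m + l ≤ x} ∪ {x | x ≤ m - l}) := measure_mono hsub
      _ ≤ gaussianReal m v {x | m + l ≤ x} + gaussianReal m v {x | x ≤ m - l} :=
          measure_union_le _ _
      _ = ENNReal.ofReal ((gaussianReal m v).real {x | m + l ≤ x}) +
          ENNReal.ofReal ((gaussianReal m v).real {x | x ≤ m - l}) := by
          rw [ofReal_measureReal, ofReal_measureReal]
      _ ≤ ENNReal.ofReal (Real.exp (-(l ^ 2) / (2 * v))) +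
          ENNReal.ofReal (Real.exp (-(l ^ 2) / (2 * v))) :=
          add_le_add (ENNReal.ofReal_le_ofReal hup) (ENNReal.ofReal_le_ofReal hlo)
      _ = ENNReal.ofReal (2 * Real.exp (-(l ^ 2) / (2 * v))) := by
          rw [← ENNReal.ofReal_add (Real.exp_pos _).le (Real.exp_pos _).le, ← two_mul]

theorem gau_exp (m : ℝ) (v : NNReal) (c : ℝ) :
    ∫⁻ x, ENNReal.ofReal (Real.exp (c * x)) ∂(gaussianReal m v) = ENNReal.ofReal (Real.exp (m * c + v * c ^ 2 / 2)) := by
  rw [← ofReal_integral_eq_lintegral_ofReal (integrable_exp_mul_gaussianReal c)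
    (Eventually.of_forall fun x => (Real.exp_pos _).le)]
  congr 1
  have h := congrFun (mgf_fun_id_gaussianReal (μ := m) (v := v)) c
  exact h

theorem gau_abs (v : NNReal) (c : ℝ) :
    ∫⁻ x, ENNReal.ofReal (Real.exp (c * |x|)) ∂(gaussianReal 0 v) ≤ ENNReal.ofReal (2 * Real.exp (v * c ^ 2 / 2)) := by
  have h1 : ∀ x : ℝ, ENNReal.ofReal (Real.exp (c * |x|)) ≤
      ENNReal.ofReal (Real.exp (c * x)) + ENNReal.ofReal (Real.exp ((-c) * x)) := by
    intro x
    rw [← ENNReal.ofReal_add (Real.exp_pos _).le (Real.exp_pos _).le]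
    refine ENNReal.ofReal_le_ofReal ?_
    rcases abs_cases x with ⟨h, _⟩ | ⟨h, _⟩
    · rw [h]; have := Real.exp_pos ((-c) * x); linarith
    · rw [h]
      have e : c * -x = (-c) * x := by ring
      rw [e]; have := Real.exp_pos (c * x); linarith
  calc ∫⁻ x, ENNReal.ofReal (Real.exp (c * |x|)) ∂(gaussianReal 0 v)
      ≤ ∫⁻ x, (ENNReal.ofReal (Real.exp (c * x)) + ENNReal.ofReal (Real.exp ((-c) * x)))
          ∂(gaussianReal 0 v) := lintegral_mono h1
    _ = ENNReal.ofReal (Real.exp (0 * c + v * c ^ 2 / 2)) +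
        ENNReal.ofReal (Real.exp (0 * (-c) + v * (-c) ^ 2 / 2)) := by
        rw [lintegral_add_left (by fun_prop), gau_exp, gau_exp]
    _ = ENNReal.ofReal (2 * Real.exp (v * c ^ 2 / 2)) := by
        rw [← ENNReal.ofReal_add (Real.exp_pos _).le (Real.exp_pos _).le, neg_sq, zero_mul,
          zero_mul, zero_add, two_mul]

end Pool.Agent.DLM
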