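import Mathlib

/-!
# DLM/OTV: Ottaviani's inequality (60-100 lines, Mathlib only)

Let `S_k = ∑ i < k, ξ i`.  If `P(|S_n - S_k| > y) ≤ 1/2` for all `k ≤ n` then `P(∃ k ≤ n, |S_k| > x + y) ≤ 2 P(|S_n| > x)`.
PROOF.  `A_k = {|S_k| > x + y} ∩ ⋂ j < k {|S_j| ≤ x + y}` (k ≤ n) are disjoint, `A_k` depends on `ξ 0 .. ξ (k-1)`, and
`{|S_n - S_k| ≤ y}` depends on `ξ k .. ξ (n-1)`, so they are independent (`iIndepFun.indepFun_finset` for `range k` and `Ico k n`).
`A_k ∩ {|S_n - S_k| ≤ y} ⊆ A_k ∩ {|S_n| > x}`, hence `P(A_k)/2 ≤ P(A_k ∩ {|S_n| > x})` (`P(|S_n - S_k| ≤ y) ≥ 1/2`), sum over `k`.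
-/

set_option autoImplicit false

open MeasureTheory ProbabilityTheory Filter Topology

namespace Pool.Agent.DLM

theorem ottaviani {Ω : Type*} [MeasurableSpace Ω] (P : Measure Ω) [IsProbabilityMeasure P] (ξ : ℕ → Ω → ℝ)
    (hm : ∀ i, Measurable (ξ i)) (hind : iIndepFun ξ P) (n : ℕ) (x y : ℝ)
    (h : ∀ k ≤ n, P {ω | y < |∑ i ∈ Finset.Ico k n, ξ i ω|} ≤ 1 / 2) :
    P {ω | ∃ k ≤ n, x + y < |∑ i ∈ Finset.range k, ξ i ω|} ≤ 2 * P {ω | x < |∑ i ∈ Finset.range n, ξ i ω|} := by
  classical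
  have hSm : ∀ k, Measurable (fun ω => ∑ i ∈ Finset.range k, ξ i ω) :=
    fun k => Finset.measurable_sum _ (fun i _ => hm i)
  let A : ℕ → Set Ω := fun k => {ω | x + y < |∑ i ∈ Finset.range k, ξ i ω| ∧
    ∀ j < k, |∑ i ∈ Finset.range j, ξ i ω| ≤ x + y}
  let B : Set Ω := {ω | x < |∑ i ∈ Finset.range n, ξ i ω|}
  have hA : ∀ k, MeasurableSet (A k) := by
    intro k
    have h1 : A k = {ω | x + y < |∑ i ∈ Finset.range k, ξ i ω|} ∩
        ⋂ j ∈ Finset.range k, {ω | |∑ i ∈ Finset.range j, ξ i ω| ≤ x + y} := by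
      ext ω; simp [A]
    rw [h1]
    exact (measurableSet_lt measurable_const (hSm k).abs).inter
      (Finset.measurableSet_biInter _ (fun j _ => measurableSet_le (hSm j).abs measurable_const))
  have hB : MeasurableSet B := measurableSet_lt measurable_const (hSm n).abs
  have hdisj : ∀ i j, i < j → Disjoint (A i) (A j) := by
    intro i j hij
    rw [Set.disjoint_left]
    rintro ω ⟨h1, _⟩ ⟨_, h2⟩
    have := h2 i hij
    linarith
  have hpd : Set.PairwiseDisjoint (↑(Finset.range (n + 1))) A := by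
    intro i _ j _ hij
    rcases lt_or_gt_of_ne hij with h | h
    · exact hdisj i j h
    · exact (hdisj j i h).symm
  have hpd' : Set.PairwiseDisjoint (↑(Finset.range (n + 1))) (fun k => A k ∩ B) := by
    intro i hi j hj hij
    exact (hpd hi hj hij).mono Set.inter_subset_left Set.inter_subset_left
  have hunion : {ω | ∃ k ≤ n, x + y < |∑ i ∈ Finset.range k, ξ i ω|} =
      ⋃ k ∈ Finset.range (n + 1), A k := by
    ext ω
    simp only [Set.mem_iUnion, Finset.mem_range, exists_prop]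
    constructor
    · rintro ⟨k, hk, hx⟩
      have hex : ∃ k, x + y < |∑ i ∈ Finset.range k, ξ i ω| := ⟨k, hx⟩
      refine ⟨Nat.find hex, ?_, Nat.find_spec hex, fun j hj => not_lt.1 (Nat.find_min hex hj)⟩
      have := Nat.find_min' hex hx
      omega
    · rintro ⟨k, hk, hx, _⟩
      exact ⟨k, by omega, hx⟩
  have hkey : ∀ k ∈ Finset.range (n + 1), P (A k) ≤ 2 * P (A k ∩ B) := by
    intro k hk
    have hkn : k ≤ n := Nat.lt_succ_iff.1 (Finset.mem_range.1 hk)
    have hdj : Disjoint (Finset.range k) (Finset.Ico k n) := by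
      rw [Finset.disjoint_left]
      intro i hi hi'
      rw [Finset.mem_range] at hi
      rw [Finset.mem_Ico] at hi'
      omega
    have hI := hind.indepFun_finset _ _ hdj hm
    let φ : (↥(Finset.range k) → ℝ) → ℕ → ℝ := fun g i =>
      if h : i ∈ Finset.range k then g ⟨i, h⟩ else 0
    have hφ : ∀ i, Measurable (fun g => φ g i) := by
      intro i
      by_cases h : i ∈ Finset.range k
      · simp only [φ, dif_pos h]; exact measurable_pi_apply _
      · simp only [φ, dif_neg h]; exact measurable_const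
    have hφs : ∀ j ≤ k, ∀ ω, ∑ i ∈ Finset.range j, φ (fun i => ξ i ω) i =
        ∑ i ∈ Finset.range j, ξ i ω := by
      intro j hj ω
      refine Finset.sum_congr rfl fun i hi => ?_
      have h : i ∈ Finset.range k := Finset.mem_range.2 (lt_of_lt_of_le (Finset.mem_range.1 hi) hj)
      simp only [φ, dif_pos h]
    have hφm : ∀ j, Measurable (fun g => ∑ i ∈ Finset.range j, φ g i) :=
      fun j => Finset.measurable_sum _ (fun i _ => hφ i)
    let U : Set (↥(Finset.range k) → ℝ) := {g | x + y < |∑ i ∈ Finset.range k, φ g i|} ∩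
      ⋂ j ∈ Finset.range k, {g | |∑ i ∈ Finset.range j, φ g i| ≤ x + y}
    have hU : MeasurableSet U := (measurableSet_lt measurable_const (hφm k).abs).inter
      (Finset.measurableSet_biInter _ (fun j _ => measurableSet_le (hφm j).abs measurable_const))
    let W : Set (↥(Finset.Ico k n) → ℝ) := {g | |∑ i, g i| ≤ y}
    have hW : MeasurableSet W := measurableSet_le
      (Finset.measurable_sum _ (fun i _ => measurable_pi_apply i)).abs measurable_const
    have h1 := hI.measure_inter_preimage_eq_mul U W hU hW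
    have hAU : (fun ω (i : ↥(Finset.range k)) => ξ i ω) ⁻¹' U = A k := by
      ext ω
      simp only [U, Set.mem_preimage, Set.mem_inter_iff, Set.mem_ofPred_eq, Set.mem_iInter, A]
      rw [hφs k le_rfl]
      refine and_congr_right fun _ => forall_congr' fun j => ?_
      constructor
      · intro h hj
        have := h (Finset.mem_range.2 hj)
        rwa [hφs j hj.le] at this
      · intro h hj
        have hj' := Finset.mem_range.1 hj
        rw [hφs j hj'.le]
        exact h hj'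
    have hWT : (fun ω (i : ↥(Finset.Ico k n)) => ξ i ω) ⁻¹' W =
        {ω | |∑ i ∈ Finset.Ico k n, ξ i ω| ≤ y} := by
      ext ω
      simp only [W, Set.mem_preimage, Set.mem_ofPred_eq]
      rw [← Finset.sum_coe_sort (Finset.Ico k n) (fun i => ξ i ω)]
    rw [hAU, hWT] at h1
    have hTm : Measurable (fun ω => ∑ i ∈ Finset.Ico k n, ξ i ω) :=
      Finset.measurable_sum _ (fun i _ => hm i)
    have h2 : (1 : ENNReal) / 2 ≤ P {ω | |∑ i ∈ Finset.Ico k n, ξ i ω| ≤ y} := by
      have h3 : {ω | |∑ i ∈ Finset.Ico k n, ξ i ω| ≤ y} =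
          {ω | y < |∑ i ∈ Finset.Ico k n, ξ i ω|}ᶜ := by
        ext ω; simp
      rw [h3, prob_compl_eq_one_sub (measurableSet_lt measurable_const hTm.abs)]
      have h4 := h k hkn
      rw [ENNReal.le_sub_iff_add_le_left (by finiteness) prob_le_one]
      calc P {ω | y < |∑ i ∈ Finset.Ico k n, ξ i ω|} + 1 / 2 ≤ 1 / 2 + 1 / 2 :=
            add_le_add_left h4 _
        _ = 1 := ENNReal.add_halves 1
    have h5 : A k ∩ {ω | |∑ i ∈ Finset.Ico k n, ξ i ω| ≤ y} ⊆ A k ∩ B := by
      rintro ω ⟨hω1, hω2⟩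
      refine ⟨hω1, ?_⟩
      have h6 : ∑ i ∈ Finset.range n, ξ i ω =
          ∑ i ∈ Finset.range k, ξ i ω + ∑ i ∈ Finset.Ico k n, ξ i ω :=
        (Finset.sum_range_add_sum_Ico (fun i => ξ i ω) hkn).symm
      show x < |∑ i ∈ Finset.range n, ξ i ω|
      have h7 : x + y < |∑ i ∈ Finset.range k, ξ i ω| := hω1.1
      have h8 : |∑ i ∈ Finset.Ico k n, ξ i ω| ≤ y := hω2
      rw [h6]
      have h9 := abs_sub_abs_le_abs_sub (∑ i ∈ Finset.range k, ξ i ω)
        (-(∑ i ∈ Finset.Ico k n, ξ i ω))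
      rw [abs_neg, sub_neg_eq_add] at h9
      linarith
    calc P (A k) = 2 * (P (A k) * (1 / 2)) := by
          rw [mul_comm (P (A k)), ← mul_assoc, ENNReal.mul_div_cancel (by norm_num) (by norm_num),
            one_mul]
      _ ≤ 2 * (P (A k) * P {ω | |∑ i ∈ Finset.Ico k n, ξ i ω| ≤ y}) := by gcongr
      _ = 2 * P (A k ∩ {ω | |∑ i ∈ Finset.Ico k n, ξ i ω| ≤ y}) := by rw [h1]
      _ ≤ 2 * P (A k ∩ B) := by gcongr
  calc P {ω | ∃ k ≤ n, x + y < |∑ i ∈ Finset.range k, ξ i ω|}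
      = ∑ k ∈ Finset.range (n + 1), P (A k) := by
        rw [hunion, measure_biUnion_finset hpd (fun k _ => hA k)]
    _ ≤ ∑ k ∈ Finset.range (n + 1), 2 * P (A k ∩ B) := Finset.sum_le_sum hkey
    _ = 2 * P (⋃ k ∈ Finset.range (n + 1), (A k ∩ B)) := by
        rw [measure_biUnion_finset hpd' (fun k _ => (hA k).inter hB), Finset.mul_sum]
    _ ≤ 2 * P B := by
        gcongr
        exact Set.iUnion₂_subset fun k _ => Set.inter_subset_right

end Pool.Agent.DLM
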