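import Pool.Agent.DLM.Defs
import Pool.Agent.DLM.OTV
import Pool.Agent.DLM.GAU

/-!
# DLM/BMX: maximal inequality for Brownian motion on the rationals (80-120 lines)

CLAIM (`bmx`): `v = 2`; if `4 |b| (t - s) ≤ l`, `s < t`, `0 < l`, then `β(∃ x ∈ [s,t] ∩ ℚ, |f x - f s| > l) ≤ 16 exp(-l^2/(64 (t-s)))`.
PROOF.  Put `τ = t - s`.  If `l^2 < 64 τ log 4` the right side is `≥ 1` (`l^2/(64 τ) ≤ log 4`, `16/4 = 4`).  Otherwise: it suffices to consider finite subsets of `[s,t] ∩ ℚ`
(the set is a countable union; `measure_iUnion_eq_iSup` for the increasing finite sets of an enumeration, or `exists` over a countable set as a directed supremum).  For a finite set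
take a monotone sequence `u 0 = s ≤ u 1 ≤ ... ≤ u n = t` containing it (sort, then constant), `ξ i = f (u (i+1)) - f (u i)` are independent (`IsBML.indep`), and the sums telescope
(`Finset.sum_range_sub`, `Finset.sum_Ico..`).  `f t - f (u k)` is `N(b (t - u k), 2 (t - u k))`, so `P(|f t - f (u k)| > l/2) ≤ P(|N - mean| > l/4) ≤ 2 exp(-(l/4)^2/(2 · 2 τ)) = 2 exp(-l^2/(64 τ)) ≤ 1/2`
(`|mean| ≤ |b| τ ≤ l/4`; for `u k = t` the probability is `0`).  `ottaviani` with `x = y = l/2`: `P(∃ k, |f (u k) - f s| > l) ≤ 2 P(|f t - f s| > l/2) ≤ 4 exp(-l^2/(64 τ))`.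
`bmx_left`: the same for `|f x - f t|` (interval seen from the right end): `|f x - f t| ≤ |f x - f s| + |f s - f t|`, so `> 2 l` implies `|f x - f s| > l` or `|f t - f s| > l`: both in the event of `bmx`.
-/

set_option autoImplicit false

open MeasureTheory ProbabilityTheory Filter Topology

namespace Pool.Agent.DLM

/-- A finite set of rationals in `[s, t]` is contained in the range of a monotone sequence. -/
private theorem BMX_seq {s t : ℚ} (hst : s < t) (F : Finset ℚ) (hF : ∀ x ∈ F, s ≤ x ∧ x ≤ t) :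
    ∃ (n : ℕ) (u : ℕ → ℚ), Monotone u ∧ u 0 = s ∧ u n = t ∧ (∀ k, s ≤ u k ∧ u k ≤ t) ∧
      ∀ x ∈ F, ∃ k ≤ n, u k = x := by
  classical
  let F' : Finset ℚ := insert s (insert t F)
  have hF' : ∀ x ∈ F', s ≤ x ∧ x ≤ t := by
    intro x hx
    rcases Finset.mem_insert.1 hx with rfl | hx
    · exact ⟨le_rfl, hst.le⟩
    · rcases Finset.mem_insert.1 hx with rfl | hx
      · exact ⟨hst.le, le_rfl⟩
      · exact hF x hx
  let e : Fin F'.card ↪o ℚ := F'.orderEmbOfFin rfl
  have he : ∀ i, e i ∈ F' := fun i => F'.orderEmbOfFin_mem rfl i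
  have hsurj : ∀ x ∈ F', ∃ i, e i = x := by
    intro x hx
    have h1 : x ∈ Set.range e := by
      rw [Finset.range_orderEmbOfFin]; exact hx
    exact h1
  let u : ℕ → ℚ := fun k => if h : k < F'.card then e ⟨k, h⟩ else t
  have hu : ∀ k, s ≤ u k ∧ u k ≤ t := by
    intro k
    by_cases h : k < F'.card
    · simp only [u, dif_pos h]; exact hF' _ (he _)
    · simp only [u, dif_neg h]; exact ⟨hst.le, le_rfl⟩
  have hmono : Monotone u := by
    intro i j hij
    by_cases hj : j < F'.card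
    · have hi : i < F'.card := lt_of_le_of_lt hij hj
      simp only [u, dif_pos hi, dif_pos hj]
      exact e.monotone (by simpa using hij)
    · have h1 : u j = t := by simp only [u, dif_neg hj]
      rw [h1]; exact (hu i).2
  have hval : ∀ x ∈ F', ∃ k < F'.card, u k = x := by
    intro x hx
    obtain ⟨i, hi⟩ := hsurj x hx
    refine ⟨i, i.2, ?_⟩
    simp only [u, dif_pos i.2]
    exact hi
  refine ⟨F'.card, u, hmono, ?_, ?_, hu, ?_⟩
  · obtain ⟨k, _, hk⟩ := hval s (Finset.mem_insert_self _ _)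
    exact le_antisymm (hk ▸ hmono (Nat.zero_le k)) (hu 0).1
  · simp only [u, dif_neg (lt_irrefl _)]
  · intro x hx
    obtain ⟨k, h1, h2⟩ := hval x (Finset.mem_insert_of_mem (Finset.mem_insert_of_mem hx))
    exact ⟨k, h1.le, h2⟩

private theorem BMX_tail {β : Measure Ini} {b : ℝ} (hβ : IsBML β 2 b) (s t : ℚ) (l : ℝ)
    (hl : 0 < l) (hb : 4 * |b| * (t - s) ≤ l) (r : ℚ) (hsr : s ≤ r) (hrt : r ≤ t) :
    β {f | l / 2 < |f t - f r|} ≤
      ENNReal.ofReal (2 * Real.exp (-(l ^ 2) / (64 * (t - s)))) := by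
  rcases eq_or_lt_of_le hrt with hrt' | hrt'
  · subst hrt'
    have h1 : {f : Ini | l / 2 < |f r - f r|} = ∅ := by
      ext f
      simp only [sub_self, abs_zero, Set.mem_ofPred_eq, Set.mem_empty_iff_false, iff_false, not_lt]
      linarith
    rw [h1, measure_empty]
    exact bot_le
  · have hsr' : (s : ℝ) ≤ r := by exact_mod_cast hsr
    have hrt'' : (r : ℝ) < t := by exact_mod_cast hrt'
    have hm : Measurable (fun f : Ini => f t - f r) :=
      (measurable_pi_apply t).sub (measurable_pi_apply r)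
    have hset : MeasurableSet {z : ℝ | l / 2 < |z|} :=
      measurableSet_lt measurable_const measurable_id.abs
    have h1 : β {f | l / 2 < |f t - f r|} = (β.map (fun f => f t - f r)) {z | l / 2 < |z|} := by
      rw [Measure.map_apply hm hset]; rfl
    rw [h1, hβ.gauss r t hrt]
    have hmean : |b * ((t : ℝ) - r)| ≤ l / 4 := by
      rw [abs_mul, abs_of_pos (by linarith : (0 : ℝ) < t - r)]
      have h2 : |b| * ((t : ℝ) - r) ≤ |b| * (t - s) :=
        mul_le_mul_of_nonneg_left (by linarith) (abs_nonneg b)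
      linarith
    calc gaussianReal (b * ((t : ℝ) - r)) (Real.toNNReal (2 * ((t : ℝ) - r))) {z | l / 2 < |z|}
        ≤ gaussianReal (b * ((t : ℝ) - r)) (Real.toNNReal (2 * ((t : ℝ) - r)))
            {z | l / 4 < |z - b * ((t : ℝ) - r)|} := by
          refine measure_mono fun z hz => ?_
          have hz' : l / 2 < |z| := hz
          show l / 4 < |z - b * ((t : ℝ) - r)|
          have h3 := abs_sub_abs_le_abs_sub z (b * ((t : ℝ) - r))
          linarith
      _ ≤ ENNReal.ofReal (2 * Real.exp (-((l / 4) ^ 2) /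
            (2 * (Real.toNNReal (2 * ((t : ℝ) - r)) : ℝ)))) := gau_tail _ _ _ (by linarith)
      _ ≤ ENNReal.ofReal (2 * Real.exp (-(l ^ 2) / (64 * (t - s)))) := by
          refine ENNReal.ofReal_le_ofReal ?_
          have h4 : (Real.toNNReal (2 * ((t : ℝ) - r)) : ℝ) = 2 * (t - r) :=
            Real.coe_toNNReal _ (by linarith)
          rw [h4]
          have h5 : -((l / 4) ^ 2) / (2 * (2 * ((t : ℝ) - r))) ≤ -(l ^ 2) / (64 * (t - s)) := by
            rw [neg_div, neg_div, neg_le_neg_iff, div_le_div_iff₀ (by nlinarith) (by nlinarith)]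
            have h6 : (0 : ℝ) ≤ l ^ 2 := sq_nonneg l
            nlinarith
          have := Real.exp_le_exp.2 h5
          linarith

theorem bmx {β : Measure Ini} {b : ℝ} (hβ : IsBML β 2 b) (s t : ℚ) (hst : s < t) (l : ℝ) (hl : 0 < l)
    (hb : 4 * |b| * (t - s) ≤ l) :
    β {f | ∃ x, s ≤ x ∧ x ≤ t ∧ l < |f x - f s|} ≤ ENNReal.ofReal (16 * Real.exp (-(l ^ 2) / (64 * (t - s)))) := by
  classical
  have := hβ.prob
  have hst' : (s : ℝ) < t := by exact_mod_cast hst
  set E := Real.exp (-(l ^ 2) / (64 * ((t : ℝ) - s))) with hE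
  have hEp : 0 < E := Real.exp_pos _
  by_cases hE4 : 1 / 4 < E
  · calc β {f | ∃ x, s ≤ x ∧ x ≤ t ∧ l < |f x - f s|} ≤ 1 := prob_le_one
      _ = ENNReal.ofReal 1 := ENNReal.ofReal_one.symm
      _ ≤ ENNReal.ofReal (16 * E) := ENNReal.ofReal_le_ofReal (by linarith)
  have hE4' : E ≤ 1 / 4 := not_lt.1 hE4
  have hfin : ∀ F : Finset ℚ, β {f | ∃ x ∈ F, s ≤ x ∧ x ≤ t ∧ l < |f x - f s|} ≤
      ENNReal.ofReal (16 * E) := by
    intro F
    obtain ⟨n, u, hmono, hu0, hun, hu, huF⟩ := BMX_seq hst (F.filter fun x => s ≤ x ∧ x ≤ t)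
      (fun x hx => (Finset.mem_filter.1 hx).2)
    have hsum : ∀ k, ∀ f : Ini, ∑ i ∈ Finset.range k, (f (u (i + 1)) - f (u i)) = f (u k) - f s := by
      intro k f
      rw [Finset.sum_range_sub (fun i => f (u i)), hu0]
    have hsum' : ∀ k ≤ n, ∀ f : Ini, ∑ i ∈ Finset.Ico k n, (f (u (i + 1)) - f (u i)) =
        f t - f (u k) := by
      intro k hk f
      rw [Finset.sum_Ico_eq_sub _ hk, hsum, hsum, hun]
      ring
    have hot := ottaviani β (fun (i : ℕ) (f : Ini) => f (u (i + 1)) - f (u i))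
      (fun i => (measurable_pi_apply _).sub (measurable_pi_apply _)) (hβ.indep u hmono) n
      (l / 2) (l / 2) (by
        intro k hk
        simp only [hsum' k hk]
        refine (BMX_tail hβ s t l hl hb (u k) (hu k).1 (hu k).2).trans ?_
        calc ENNReal.ofReal (2 * E) ≤ ENNReal.ofReal (1 / 2) :=
              ENNReal.ofReal_le_ofReal (by linarith)
          _ = 1 / 2 := by
              rw [ENNReal.ofReal_div_of_pos (by norm_num), ENNReal.ofReal_one,
                ENNReal.ofReal_ofNat])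
    simp only [hsum, hun] at hot
    calc β {f | ∃ x ∈ F, s ≤ x ∧ x ≤ t ∧ l < |f x - f s|}
        ≤ β {f | ∃ k ≤ n, l / 2 + l / 2 < |f (u k) - f s|} := by
          refine measure_mono ?_
          rintro f ⟨x, hxF, h1, h2, h3⟩
          obtain ⟨k, hk, hkx⟩ := huF x (Finset.mem_filter.2 ⟨hxF, h1, h2⟩)
          exact ⟨k, hk, by rw [hkx]; linarith⟩
      _ ≤ 2 * β {f | l / 2 < |f t - f s|} := hot
      _ ≤ 2 * ENNReal.ofReal (2 * E) := by
          gcongr
          exact BMX_tail hβ s t l hl hb s le_rfl hst.le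
      _ = ENNReal.ofReal (4 * E) := by
          rw [← ENNReal.ofReal_ofNat 2, ← ENNReal.ofReal_mul (by norm_num)]
          congr 1; ring
      _ ≤ ENNReal.ofReal (16 * E) := ENNReal.ofReal_le_ofReal (by linarith)
  have hU : {f : Ini | ∃ x, s ≤ x ∧ x ≤ t ∧ l < |f x - f s|} =
      ⋃ F : Finset ℚ, {f : Ini | ∃ x ∈ F, s ≤ x ∧ x ≤ t ∧ l < |f x - f s|} := by
    ext f
    simp only [Set.mem_iUnion, Set.mem_ofPred_eq]
    constructor
    · rintro ⟨x, hx⟩
      exact ⟨{x}, x, Finset.mem_singleton_self x, hx⟩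
    · rintro ⟨F, x, _, hx⟩
      exact ⟨x, hx⟩
  have hdir : Directed (· ⊆ ·)
      (fun F : Finset ℚ => {f : Ini | ∃ x ∈ F, s ≤ x ∧ x ≤ t ∧ l < |f x - f s|}) := by
    intro F G
    refine ⟨F ∪ G, ?_, ?_⟩
    · rintro f ⟨x, hx, h⟩
      exact ⟨x, Finset.mem_union_left _ hx, h⟩
    · rintro f ⟨x, hx, h⟩
      exact ⟨x, Finset.mem_union_right _ hx, h⟩
  rw [hU, hdir.measure_iUnion]
  exact iSup_le hfin

theorem bmx_left {β : Measure Ini} {b : ℝ} (hβ : IsBML β 2 b) (s t : ℚ) (hst : s < t) (l : ℝ) (hl : 0 < l)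
    (hb : 4 * |b| * (t - s) ≤ l) :
    β {f | ∃ x, s ≤ x ∧ x ≤ t ∧ 2 * l < |f x - f t|} ≤ ENNReal.ofReal (16 * Real.exp (-(l ^ 2) / (64 * (t - s)))) := by
  refine (measure_mono ?_).trans (bmx hβ s t hst l hl hb)
  rintro f ⟨x, h1, h2, h3⟩
  by_cases h : l < |f x - f s|
  · exact ⟨x, h1, h2, h⟩
  · refine ⟨t, hst.le, le_rfl, ?_⟩
    have h4 : |f x - f t| ≤ |f x - f s| + |f t - f s| := by
      have h5 : f x - f t = (f x - f s) - (f t - f s) := by ring
      rw [h5]; exact abs_sub _ _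
    linarith [not_lt.1 h]

end Pool.Agent.DLM
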