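import Pool.Agent.DLM.ADefs

/-!
# DLM/SEG: independence of past and future (100-150 lines)

`bm_seg`: the product σ-algebra on `ℝ → ℝ` is generated by the finite dimensional cylinders, so it suffices that for finite sets of times `s_1 ≤ .. ≤ s_m ≤ t` and `t ≤ u_1 ≤ .. ≤ u_k` the vectors `(X s_i - X t)` and `(X u_j - X t)` are independent (Mathlib: `Probability/Independence/Process`, or
`indepFun_iff_..` with `IsPiSystem` and `MeasurableSpace.pi`); these are sums of increments of one monotone sequence of times (`IsBM.indep`, `iIndepFun.indepFun_finset`, `IndepFun.comp`).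
`indep_three`: `J ⟂ (U, V)` and `U ⟂ V` imply `(J, U) ⟂ V` (the law of `(J, (U, V))` is a product).
`bm_fut`: if `J ⟂ fut X t₀` and `t₀ ≤ t₁` then `(J, increments on [t₀, t₁]) ⟂ fut X t₁`: `U = (s ↦ X (max t₀ (min s t₁)) - X t₀)` and `V = fut X t₁` are functions of `fut X t₀` and independent (`U` is a function of `past X t₁`: `X (max t₀ (min s t₁)) - X t₀ = past (max t₀ (min s t₁)) - past t₀`).
-/

set_option autoImplicit false

open MeasureTheory ProbabilityTheory Filter Topology

namespace Pool.Agent.DLM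

private theorem seg_enum (C : Finset ℝ) (hC : C.Nonempty) :
    ∃ τ : ℕ → ℝ, Monotone τ ∧ ∀ c ∈ C, ∃ k, τ k = c := by
  have hcard : 0 < C.card := Finset.card_pos.2 hC
  refine ⟨fun k => C.orderEmbOfFin rfl ⟨min k (C.card - 1), by omega⟩, ?_, ?_⟩
  · intro a b hab
    apply (C.orderEmbOfFin rfl).monotone
    show min a (C.card - 1) ≤ min b (C.card - 1)
    omega
  · intro c hc
    have h1 : c ∈ Set.range (C.orderEmbOfFin rfl) := by
      rw [Finset.range_orderEmbOfFin]
      exact hc
    obtain ⟨i, hi⟩ := h1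
    refine ⟨i, ?_⟩
    rw [← hi]
    show C.orderEmbOfFin rfl ⟨min (i : ℕ) (C.card - 1), by omega⟩ = C.orderEmbOfFin rfl i
    congr 1
    apply Fin.ext
    show min (i : ℕ) (C.card - 1) = i
    have := i.2
    omega

private theorem seg_sum1 (x : ℕ → ℝ) (a m : ℕ) (h : a ≤ m) :
    ∑ k : Finset.range m, (if a ≤ (k : ℕ) then x ((k : ℕ) + 1) - x k else 0) = x m - x a := by
  rw [Finset.sum_coe_sort (Finset.range m) (fun k => if a ≤ k then x (k + 1) - x k else 0)]
  induction m, h using Nat.le_induction with
  | base =>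
    rw [sub_self]
    refine Finset.sum_eq_zero fun k hk => ?_
    rw [Finset.mem_range] at hk
    rw [if_neg (by omega)]
  | succ m hm ih =>
    rw [Finset.sum_range_succ, ih, if_pos hm]
    ring

private theorem seg_sum2 (x : ℕ → ℝ) (m b n : ℕ) (h : m ≤ b) (hn : b ≤ n) :
    ∑ k : Finset.Ico m n, (if (k : ℕ) < b then x ((k : ℕ) + 1) - x k else 0) = x b - x m := by
  rw [Finset.sum_coe_sort (Finset.Ico m n) (fun k => if k < b then x (k + 1) - x k else 0)]
  induction n, hn using Nat.le_induction with
  | base =>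
    rw [← Finset.sum_Ico_sub x h]
    refine Finset.sum_congr rfl fun k hk => ?_
    rw [Finset.mem_Ico] at hk
    rw [if_pos hk.2]
  | succ n hn ih =>
    rw [Finset.sum_Ico_succ_top (by omega), ih, if_neg (by omega)]
    ring

theorem bm_seg {Ω : Type*} [MeasurableSpace Ω] {P : Measure Ω} [IsProbabilityMeasure P] {X : ℝ → Ω → ℝ} {v b : ℝ}
    (hX : IsBM P X v b) (t : ℝ) :
    IndepFun (fun ω => past (fun s => X s ω) t) (fun ω => fut (fun s => X s ω) t) P := by
  refine IndepFun.process_indepFun_process (X := fun s ω => past (fun s => X s ω) t s)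
    (Y := fun s ω => fut (fun s => X s ω) t s) (fun s => (hX.meas _).sub (hX.meas _))
    (fun s => (hX.meas _).sub (hX.meas _)) fun I J => ?_
  obtain ⟨τ, hτ, hτ'⟩ := seg_enum (insert t (I ∪ J)) (Finset.insert_nonempty _ _)
  obtain ⟨m, hm⟩ := hτ' t (Finset.mem_insert_self _ _)
  have hI : ∀ i : I, ∃ k, τ k = i := fun i => hτ' i (by simp)
  have hJ : ∀ j : J, ∃ k, τ k = j := fun j => hτ' j (by simp)
  choose a ha using hI
  choose b' hb using hJ
  set n := (Finset.univ.sup b') + m with hn
  have hbn : ∀ j : J, max (b' j) m ≤ n := by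
    intro j
    have : b' j ≤ Finset.univ.sup b' := Finset.le_sup (Finset.mem_univ j)
    omega
  have key := (hX.indep τ hτ).indepFun_finset (Finset.range m) (Finset.Ico m n)
    (by
      rw [Finset.disjoint_left]
      intro k hk hk'
      rw [Finset.mem_range] at hk
      rw [Finset.mem_Ico] at hk'
      omega)
    (fun k => (hX.meas _).sub (hX.meas _))
  have m1 : Measurable fun (d : Finset.range m → ℝ) (i : I) =>
      -∑ k : Finset.range m, (if min (a i) m ≤ (k : ℕ) then d k else 0) := by
    refine measurable_pi_lambda _ fun i => ?_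
    refine (Finset.measurable_sum _ fun k _ => ?_).neg
    split_ifs
    · exact measurable_pi_apply k
    · exact measurable_const
  have m2 : Measurable fun (d : Finset.Ico m n → ℝ) (j : J) =>
      ∑ k : Finset.Ico m n, (if (k : ℕ) < max (b' j) m then d k else 0) := by
    refine measurable_pi_lambda _ fun j => ?_
    refine Finset.measurable_sum _ fun k _ => ?_
    split_ifs
    · exact measurable_pi_apply k
    · exact measurable_const
  have h2 := key.comp m1 m2
  convert h2 using 1
  · funext ω i
    show X (min (i : ℝ) t) ω - X t ω = -∑ k : Finset.range m,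
      (if min (a i) m ≤ (k : ℕ) then X (τ ((k : ℕ) + 1)) ω - X (τ k) ω else 0)
    rw [seg_sum1 (fun k => X (τ k) ω) _ m (min_le_right _ _), hτ.map_min, ha, hm]
    ring
  · funext ω j
    show X (max (j : ℝ) t) ω - X t ω = ∑ k : Finset.Ico m n,
      (if (k : ℕ) < max (b' j) m then X (τ ((k : ℕ) + 1)) ω - X (τ k) ω else 0)
    rw [seg_sum2 (fun k => X (τ k) ω) m _ n (le_max_right _ _) (hbn j), hτ.map_max, hb, hm]

theorem indep_three {Ω α β γ : Type*} [MeasurableSpace Ω] [MeasurableSpace α] [MeasurableSpace β] [MeasurableSpace γ]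
    {P : Measure Ω} [IsProbabilityMeasure P] {J : Ω → α} {U : Ω → β} {V : Ω → γ} (hJ : Measurable J)
    (hU : Measurable U) (hV : Measurable V) (h : IndepFun J (fun ω => (U ω, V ω)) P) (h' : IndepFun U V P) :
    IndepFun (fun ω => (J ω, U ω)) V P := by
  have hJU : IndepFun J U P := h.comp measurable_id measurable_fst
  rw [indepFun_iff_map_prod_eq_prod_map_map hJ.aemeasurable (hU.prodMk hV).aemeasurable] at h
  rw [indepFun_iff_map_prod_eq_prod_map_map hU.aemeasurable hV.aemeasurable] at h'
  rw [indepFun_iff_map_prod_eq_prod_map_map hJ.aemeasurable hU.aemeasurable] at hJU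
  rw [indepFun_iff_map_prod_eq_prod_map_map (hJ.prodMk hU).aemeasurable hV.aemeasurable]
  have : IsProbabilityMeasure (P.map J) := Measure.isProbabilityMeasure_map hJ.aemeasurable
  have : IsProbabilityMeasure (P.map U) := Measure.isProbabilityMeasure_map hU.aemeasurable
  have : IsProbabilityMeasure (P.map V) := Measure.isProbabilityMeasure_map hV.aemeasurable
  rw [hJU]
  apply (MeasurableEquiv.prodAssoc (α := α) (β := β) (γ := γ)).map_measurableEquiv_injective
  rw [Measure.prodAssoc_prod, ← h', ← h, Measure.map_map (MeasurableEquiv.measurable _)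
    ((hJ.prodMk hU).prodMk hV)]
  rfl

theorem bm_fut {Ω α : Type*} [MeasurableSpace Ω] [MeasurableSpace α] {P : Measure Ω} [IsProbabilityMeasure P]
    {X : ℝ → Ω → ℝ} {v b : ℝ} (hX : IsBM P X v b) {J : Ω → α} (hJ : Measurable J) (t₀ t₁ : ℝ) (ht : t₀ ≤ t₁)
    (hi : IndepFun J (fun ω => fut (fun s => X s ω) t₀) P) :
    IndepFun (fun ω => (J ω, fun s => X (max t₀ (min s t₁)) ω - X t₀ ω)) (fun ω => fut (fun s => X s ω) t₁) P := by
  have mU : Measurable fun ω => (fun s => X (max t₀ (min s t₁)) ω - X t₀ ω) :=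
    measurable_pi_lambda _ fun s => (hX.meas _).sub (hX.meas _)
  have mV : Measurable fun ω => fut (fun s => X s ω) t₁ :=
    measurable_pi_lambda _ fun s => (hX.meas _).sub (hX.meas _)
  refine indep_three hJ mU mV ?_ ?_
  · have m1 : Measurable fun f : ℝ → ℝ =>
        ((fun s => f (min s t₁) : ℝ → ℝ), (fun s => f (max s t₁) - f t₁ : ℝ → ℝ)) := by
      refine Measurable.prodMk (measurable_pi_lambda _ fun s => measurable_pi_apply _)
        (measurable_pi_lambda _ fun s => (measurable_pi_apply _).sub (measurable_pi_apply _))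
    have h1 := hi.comp (measurable_id (α := α)) m1
    refine h1.congr (Filter.EventuallyEq.refl _ _) (Filter.Eventually.of_forall fun ω => ?_)
    refine Prod.ext ?_ ?_
    · funext s
      show X (max (min s t₁) t₀) ω - X t₀ ω = X (max t₀ (min s t₁)) ω - X t₀ ω
      rw [max_comm]
    · funext s
      show (X (max (max s t₁) t₀) ω - X t₀ ω) - (X (max t₁ t₀) ω - X t₀ ω) =
        X (max s t₁) ω - X t₁ ω
      rw [max_eq_left (ht.trans (le_max_right s t₁)), max_eq_left ht]
      ring
  · have m1 : Measurable fun f : ℝ → ℝ => (fun s => f (max t₀ (min s t₁)) - f t₀ : ℝ → ℝ) :=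
      measurable_pi_lambda _ fun s => (measurable_pi_apply _).sub (measurable_pi_apply _)
    have h1 := (bm_seg hX t₁).comp m1 (measurable_id (α := ℝ → ℝ))
    refine h1.congr (Filter.Eventually.of_forall fun ω => ?_) (Filter.EventuallyEq.refl _ _)
    funext s
    show (X (min (max t₀ (min s t₁)) t₁) ω - X t₁ ω) - (X (min t₀ t₁) ω - X t₁ ω) =
      X (max t₀ (min s t₁)) ω - X t₀ ω
    rw [min_eq_left (max_le ht (min_le_right s t₁)), min_eq_left ht]
    ring

end Pool.Agent.DLM
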