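import Pool.Agent.DLM.SMG
import Pool.Agent.DLM.BMX
import Pool.Agent.DLM.BMU
import Pool.Agent.DLM.BMN
import Pool.Agent.DLM.SEG

/-!
# DLM/SPO: the Airy sheet is positive with positive probability (100-150 lines)

Suppose `P(S 0 0 > 0) = 0`.  By `hone` `S x 0 ≤ - x^2` a.s. for every rational `x`, so `Hs 200 (-200) 0 ≤ sup_x (W x - 400 |x| - x^2)` (`dft (400) (-400) W x = W x - 400|x|`) a.s.
The supremum over `|x| ∈ [j, j+1]` is at most `(W (± j) - 400 j - j^2) + sup |W x - W (± j)|`; the two terms are independent (`bm_seg`), and the second one has a Gaussian tail (`bmx`).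
-/

set_option autoImplicit false

open MeasureTheory ProbabilityTheory Filter Topology

namespace Pool.Agent.DLM

private theorem SPO_geom : ∑' l : ℕ, ENNReal.ofReal (Real.exp (-(l : ℝ))) ≤ 2 := by
  have h1 : ∀ l : ℕ, ENNReal.ofReal (Real.exp (-(l : ℝ))) = ENNReal.ofReal (Real.exp (-1)) ^ l := by
    intro l
    rw [← ENNReal.ofReal_pow (Real.exp_pos _).le, ← Real.exp_nat_mul]
    congr 2
    ring
  simp_rw [h1]
  rw [ENNReal.tsum_geometric]
  have h2 : ENNReal.ofReal (Real.exp (-1)) ≤ 2⁻¹ := by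
    have h3 : Real.exp (-1) ≤ 2⁻¹ := by
      rw [Real.exp_neg]
      apply inv_anti₀ (by norm_num)
      have := Real.add_one_le_exp (1 : ℝ)
      linarith
    calc ENNReal.ofReal (Real.exp (-1)) ≤ ENNReal.ofReal (2⁻¹) := ENNReal.ofReal_le_ofReal h3
      _ = 2⁻¹ := by
        rw [ENNReal.ofReal_inv_of_pos (by norm_num)]
        norm_num
  have h4 : (2⁻¹ : ENNReal) ≤ 1 - ENNReal.ofReal (Real.exp (-1)) := by
    refine ENNReal.le_sub_of_add_le_right ENNReal.ofReal_ne_top ?_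
    calc (2⁻¹ : ENNReal) + ENNReal.ofReal (Real.exp (-1)) ≤ 2⁻¹ + 2⁻¹ := by gcongr
      _ = 1 := ENNReal.inv_two_add_inv_two
  calc (1 - ENNReal.ofReal (Real.exp (-1)))⁻¹ ≤ (2⁻¹ : ENNReal)⁻¹ := ENNReal.inv_le_inv' h4
    _ = 2 := inv_inv _

private theorem SPO_exp {Ω ι : Type*} [MeasurableSpace Ω] {P : Measure Ω} [IsProbabilityMeasure P] [Countable ι]
    {Δ : ι → Ω → ℝ} (hm : ∀ i, Measurable (Δ i))
    (ht : ∀ l : ℝ, 0 < l → P {ω | ∃ i, l < |Δ i ω|} ≤ ENNReal.ofReal (16 * Real.exp (-(l ^ 2) / 64))) :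
    ∫⁻ ω, (⨆ i, ENNReal.ofReal (Real.exp (400 * |Δ i ω|))) ∂P ≤ 1 + ENNReal.ofReal (32 * Real.exp 2573216) := by
  have hset : ∀ l : ℕ, MeasurableSet {ω | ∃ i, (l : ℝ) < |Δ i ω|} := by
    intro l
    have : {ω | ∃ i, (l : ℝ) < |Δ i ω|} = ⋃ i, {ω | (l : ℝ) < |Δ i ω|} := by
      ext ω; simp
    rw [this]
    exact MeasurableSet.iUnion fun i => measurableSet_lt measurable_const (hm i).abs
  have hpt : ∀ ω, (⨆ i, ENNReal.ofReal (Real.exp (400 * |Δ i ω|))) ≤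
      1 + ∑' l : ℕ, ({ω | ∃ i, (l : ℝ) < |Δ i ω|} : Set Ω).indicator
        (fun _ => ENNReal.ofReal (Real.exp (400 * ((l : ℝ) + 1)))) ω := by
    intro ω
    refine iSup_le fun i => ?_
    rcases eq_or_lt_of_le (abs_nonneg (Δ i ω)) with h0 | h0
    · rw [← h0]
      simp
    · obtain ⟨l, hl, hl'⟩ : ∃ l : ℕ, (l : ℝ) < |Δ i ω| ∧ |Δ i ω| ≤ l + 1 := by
        refine ⟨⌈|Δ i ω|⌉₊ - 1, ?_, ?_⟩
        · have h1 : 0 < ⌈|Δ i ω|⌉₊ := Nat.ceil_pos.2 h0
          have h2 := Nat.ceil_lt_add_one h0.le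
          have h3 : ((⌈|Δ i ω|⌉₊ - 1 : ℕ) : ℝ) = (⌈|Δ i ω|⌉₊ : ℝ) - 1 := by
            rw [Nat.cast_sub h1]; simp
          rw [h3]; linarith
        · have h1 : 0 < ⌈|Δ i ω|⌉₊ := Nat.ceil_pos.2 h0
          have h2 := Nat.le_ceil (|Δ i ω|)
          have h3 : ((⌈|Δ i ω|⌉₊ - 1 : ℕ) : ℝ) = (⌈|Δ i ω|⌉₊ : ℝ) - 1 := by
            rw [Nat.cast_sub h1]; simp
          rw [h3]; linarith
      calc ENNReal.ofReal (Real.exp (400 * |Δ i ω|)) ≤ ENNReal.ofReal (Real.exp (400 * ((l : ℝ) + 1))) := by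
            apply ENNReal.ofReal_le_ofReal
            apply Real.exp_le_exp.2
            linarith
        _ = ({ω | ∃ i, (l : ℝ) < |Δ i ω|} : Set Ω).indicator
              (fun _ => ENNReal.ofReal (Real.exp (400 * ((l : ℝ) + 1)))) ω := by
            rw [Set.indicator_of_mem]
            exact ⟨i, hl⟩
        _ ≤ ∑' l : ℕ, ({ω | ∃ i, (l : ℝ) < |Δ i ω|} : Set Ω).indicator
              (fun _ => ENNReal.ofReal (Real.exp (400 * ((l : ℝ) + 1)))) ω := ENNReal.le_tsum l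
        _ ≤ _ := le_add_self
  have hterm : ∀ l : ℕ, ENNReal.ofReal (Real.exp (400 * ((l : ℝ) + 1))) * P {ω | ∃ i, (l : ℝ) < |Δ i ω|} ≤
      ENNReal.ofReal (16 * Real.exp 2573216) * ENNReal.ofReal (Real.exp (-(l : ℝ))) := by
    intro l
    have h1 : P {ω | ∃ i, (l : ℝ) < |Δ i ω|} ≤ ENNReal.ofReal (16 * Real.exp (-((l : ℝ) ^ 2) / 64)) := by
      rcases Nat.eq_zero_or_pos l with rfl | hl
      · refine prob_le_one.trans ?_
        rw [← ENNReal.ofReal_one]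
        apply ENNReal.ofReal_le_ofReal
        norm_num
      · exact ht l (by exact_mod_cast hl)
    calc _ ≤ ENNReal.ofReal (Real.exp (400 * ((l : ℝ) + 1))) * ENNReal.ofReal (16 * Real.exp (-((l : ℝ) ^ 2) / 64)) := by
          gcongr
      _ = ENNReal.ofReal (16 * Real.exp (400 * ((l : ℝ) + 1) + -((l : ℝ) ^ 2) / 64)) := by
          rw [← ENNReal.ofReal_mul (Real.exp_pos _).le, Real.exp_add]
          congr 1; ring
      _ ≤ ENNReal.ofReal (16 * Real.exp (2573216 + -(l : ℝ))) := by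
          apply ENNReal.ofReal_le_ofReal
          have : 400 * ((l : ℝ) + 1) + -((l : ℝ) ^ 2) / 64 ≤ 2573216 + -(l : ℝ) := by
            nlinarith [sq_nonneg ((l : ℝ) - 12832)]
          have := Real.exp_le_exp.2 this
          linarith
      _ = _ := by
          rw [Real.exp_add, ← mul_assoc, ENNReal.ofReal_mul (by positivity)]
  calc ∫⁻ ω, (⨆ i, ENNReal.ofReal (Real.exp (400 * |Δ i ω|))) ∂P ≤
        ∫⁻ ω, (1 + ∑' l : ℕ, ({ω | ∃ i, (l : ℝ) < |Δ i ω|} : Set Ω).indicator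
          (fun _ => ENNReal.ofReal (Real.exp (400 * ((l : ℝ) + 1)))) ω) ∂P := lintegral_mono hpt
    _ = 1 + ∑' l : ℕ, ENNReal.ofReal (Real.exp (400 * ((l : ℝ) + 1))) * P {ω | ∃ i, (l : ℝ) < |Δ i ω|} := by
        rw [lintegral_add_left measurable_const]
        congr 1
        · simp
        · rw [lintegral_tsum fun l => (measurable_const.indicator (hset l)).aemeasurable]
          refine tsum_congr fun l => ?_
          rw [lintegral_indicator_const (hset l)]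
    _ ≤ 1 + ∑' l : ℕ, ENNReal.ofReal (16 * Real.exp 2573216) * ENNReal.ofReal (Real.exp (-(l : ℝ))) :=
        add_le_add le_rfl (ENNReal.tsum_le_tsum hterm)
    _ = 1 + ENNReal.ofReal (16 * Real.exp 2573216) * ∑' l : ℕ, ENNReal.ofReal (Real.exp (-(l : ℝ))) := by
        rw [ENNReal.tsum_mul_left]
    _ ≤ 1 + ENNReal.ofReal (16 * Real.exp 2573216) * 2 := by
        gcongr
        exact SPO_geom
    _ = 1 + ENNReal.ofReal (32 * Real.exp 2573216) := by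
        have h2 : (2 : ENNReal) = ENNReal.ofReal 2 := by norm_num
        rw [h2, ← ENNReal.ofReal_mul (by positivity)]
        congr 2
        ring

private theorem SPO_half {Ω : Type*} [MeasurableSpace Ω] {P : Measure Ω} [IsProbabilityMeasure P] {W : ℝ → Ω → ℝ}
    (hm : ∀ t, Measurable (W t)) (σ : ℝ) (j : ℕ)
    (hg : P.map (fun ω => W (σ * j) ω) = gaussianReal 0 (Real.toNNReal (2 * j)))
    (hi : IndepFun (fun ω => W (σ * j) ω)
      (fun ω (y : {y : ℚ // (j : ℚ) ≤ y ∧ y ≤ j + 1}) => W (σ * ((y : ℚ) : ℝ)) ω - W (σ * j) ω) P)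
    (ht : ∀ l : ℝ, 0 < l → P {ω | ∃ y : {y : ℚ // (j : ℚ) ≤ y ∧ y ≤ j + 1}, l < |W (σ * ((y : ℚ) : ℝ)) ω - W (σ * j) ω|} ≤
      ENNReal.ofReal (16 * Real.exp (-(l ^ 2) / 64))) :
    ∫⁻ ω, (⨆ y : {y : ℚ // (j : ℚ) ≤ y ∧ y ≤ j + 1},
      ENNReal.ofReal (Real.exp (400 * (W (σ * ((y : ℚ) : ℝ)) ω - 400 * ((y : ℚ) : ℝ) - ((y : ℚ) : ℝ) ^ 2)))) ∂P ≤
      ENNReal.ofReal (Real.exp (-400 * (j : ℝ) ^ 2)) * (1 + ENNReal.ofReal (32 * Real.exp 2573216)) := by
  have hpt : ∀ ω, (⨆ y : {y : ℚ // (j : ℚ) ≤ y ∧ y ≤ j + 1},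
      ENNReal.ofReal (Real.exp (400 * (W (σ * ((y : ℚ) : ℝ)) ω - 400 * ((y : ℚ) : ℝ) - ((y : ℚ) : ℝ) ^ 2)))) ≤
      ENNReal.ofReal (Real.exp (-160000 * (j : ℝ) - 400 * (j : ℝ) ^ 2)) *
        (ENNReal.ofReal (Real.exp (400 * W (σ * j) ω)) *
          ⨆ y : {y : ℚ // (j : ℚ) ≤ y ∧ y ≤ j + 1},
            ENNReal.ofReal (Real.exp (400 * |W (σ * ((y : ℚ) : ℝ)) ω - W (σ * j) ω|))) := by
    intro ω
    refine iSup_le fun y => ?_
    have hy1 : (j : ℝ) ≤ ((y : ℚ) : ℝ) := by exact_mod_cast y.2.1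
    have hj : (0 : ℝ) ≤ j := Nat.cast_nonneg j
    calc ENNReal.ofReal (Real.exp (400 * (W (σ * ((y : ℚ) : ℝ)) ω - 400 * ((y : ℚ) : ℝ) - ((y : ℚ) : ℝ) ^ 2))) ≤
          ENNReal.ofReal (Real.exp (-160000 * (j : ℝ) - 400 * (j : ℝ) ^ 2) * (Real.exp (400 * W (σ * j) ω) *
            Real.exp (400 * |W (σ * ((y : ℚ) : ℝ)) ω - W (σ * j) ω|))) := by
            apply ENNReal.ofReal_le_ofReal
            rw [← Real.exp_add, ← Real.exp_add]
            apply Real.exp_le_exp.2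
            have h1 := le_abs_self (W (σ * ((y : ℚ) : ℝ)) ω - W (σ * j) ω)
            nlinarith
      _ = ENNReal.ofReal (Real.exp (-160000 * (j : ℝ) - 400 * (j : ℝ) ^ 2)) *
            (ENNReal.ofReal (Real.exp (400 * W (σ * j) ω)) *
              ENNReal.ofReal (Real.exp (400 * |W (σ * ((y : ℚ) : ℝ)) ω - W (σ * j) ω|))) := by
            rw [ENNReal.ofReal_mul (Real.exp_pos _).le, ENNReal.ofReal_mul (Real.exp_pos _).le]
      _ ≤ _ := by
            gcongr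
            exact le_iSup (fun y : {y : ℚ // (j : ℚ) ≤ y ∧ y ≤ j + 1} =>
              ENNReal.ofReal (Real.exp (400 * |W (σ * ((y : ℚ) : ℝ)) ω - W (σ * j) ω|))) y
  have mF : Measurable fun x : ℝ => ENNReal.ofReal (Real.exp (400 * x)) :=
    (Real.measurable_exp.comp (measurable_const.mul measurable_id)).ennreal_ofReal
  have mG : Measurable fun f : ({y : ℚ // (j : ℚ) ≤ y ∧ y ≤ j + 1} → ℝ) =>
      ⨆ y : {y : ℚ // (j : ℚ) ≤ y ∧ y ≤ j + 1}, ENNReal.ofReal (Real.exp (400 * |f y|)) :=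
    Measurable.iSup fun y => mF.comp (measurable_pi_apply y).abs
  have hind := hi.comp mF mG
  have m1 : Measurable fun ω => ENNReal.ofReal (Real.exp (400 * W (σ * j) ω)) := mF.comp (hm _)
  have m2 : Measurable fun ω => ⨆ y : {y : ℚ // (j : ℚ) ≤ y ∧ y ≤ j + 1},
      ENNReal.ofReal (Real.exp (400 * |W (σ * ((y : ℚ) : ℝ)) ω - W (σ * j) ω|)) :=
    Measurable.iSup fun y => mF.comp ((hm _).sub (hm _)).abs
  have m12 : Measurable fun ω => ENNReal.ofReal (Real.exp (400 * W (σ * j) ω)) *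
      ⨆ y : {y : ℚ // (j : ℚ) ≤ y ∧ y ≤ j + 1},
        ENNReal.ofReal (Real.exp (400 * |W (σ * ((y : ℚ) : ℝ)) ω - W (σ * j) ω|)) := m1.mul m2
  have hprod := lintegral_mul_eq_lintegral_mul_lintegral_of_indepFun (μ := P) m1 m2 hind
  have hE : ∫⁻ ω, ENNReal.ofReal (Real.exp (400 * W (σ * j) ω)) ∂P = ENNReal.ofReal (Real.exp (160000 * j)) := by
    rw [← lintegral_map (f := fun x : ℝ => ENNReal.ofReal (Real.exp (400 * x))) mF (hm _), hg, gau_exp]
    congr 2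
    have : ((Real.toNNReal (2 * (j : ℝ)) : NNReal) : ℝ) = 2 * j := Real.coe_toNNReal _ (by positivity)
    rw [this]
    ring
  calc _ ≤ ∫⁻ ω, ENNReal.ofReal (Real.exp (-160000 * (j : ℝ) - 400 * (j : ℝ) ^ 2)) *
        (ENNReal.ofReal (Real.exp (400 * W (σ * j) ω)) *
          ⨆ y : {y : ℚ // (j : ℚ) ≤ y ∧ y ≤ j + 1},
            ENNReal.ofReal (Real.exp (400 * |W (σ * ((y : ℚ) : ℝ)) ω - W (σ * j) ω|))) ∂P := lintegral_mono hpt
    _ = ENNReal.ofReal (Real.exp (-160000 * (j : ℝ) - 400 * (j : ℝ) ^ 2)) *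
        (ENNReal.ofReal (Real.exp (160000 * j)) *
          ∫⁻ ω, (⨆ y : {y : ℚ // (j : ℚ) ≤ y ∧ y ≤ j + 1},
            ENNReal.ofReal (Real.exp (400 * |W (σ * ((y : ℚ) : ℝ)) ω - W (σ * j) ω|))) ∂P) := by
        rw [lintegral_const_mul _ m12]
        congr 1
        rw [← hE]
        exact hprod
    _ ≤ ENNReal.ofReal (Real.exp (-160000 * (j : ℝ) - 400 * (j : ℝ) ^ 2)) *
        (ENNReal.ofReal (Real.exp (160000 * j)) * (1 + ENNReal.ofReal (32 * Real.exp 2573216))) := by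
        gcongr
        exact SPO_exp (fun y => (hm _).sub (hm _)) ht
    _ = _ := by
        rw [← mul_assoc, ← ENNReal.ofReal_mul (Real.exp_pos _).le, ← Real.exp_add]
        congr 3
        ring

theorem s_pos {Ω : Type*} [MeasurableSpace Ω] {P : Measure Ω} [IsProbabilityMeasure P] {S : ℝ → ℝ → Ω → ℝ}
    {B : ℕ → ℕ → ℝ → Ω → ℝ} {W : ℝ → Ω → ℝ} (h : Cpl P S B W)
    (hone : ∀ x y : ℝ, P.map (fun ω => S x y ω) = P.map (fun ω => S 0 0 ω - (x - y) ^ 2)) :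
    0 < P {ω | 0 < S 0 0 ω} := by
  by_contra hcon
  have hzero : P {ω | 0 < S 0 0 ω} = 0 := by
    rcases eq_or_ne (P {ω | 0 < S 0 0 ω}) 0 with h0 | h0
    · exact h0
    · exact absurd (pos_iff_ne_zero.2 h0) hcon
  have hW := h.wbm
  -- the sheet is below the parabola
  have hS : ∀ᵐ ω ∂P, ∀ x : ℚ, S (x : ℝ) 0 ω ≤ -(x : ℝ) ^ 2 := by
    rw [ae_all_iff]
    intro x
    have h1 : P {ω | -(x : ℝ) ^ 2 < S (x : ℝ) 0 ω} = 0 := by
      have h2 := congrArg (fun μ : Measure ℝ => μ (Set.Ioi (-(x : ℝ) ^ 2))) (hone x 0)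
      rw [Measure.map_apply (h.meas _ _) measurableSet_Ioi,
        Measure.map_apply (show Measurable fun ω => S 0 0 ω - ((x : ℝ) - 0) ^ 2 from
          (h.meas _ _).sub measurable_const) measurableSet_Ioi] at h2
      have h3 : (fun ω => S (x : ℝ) 0 ω) ⁻¹' Set.Ioi (-(x : ℝ) ^ 2) = {ω | -(x : ℝ) ^ 2 < S (x : ℝ) 0 ω} := rfl
      have h4 : (fun ω => S 0 0 ω - ((x : ℝ) - 0) ^ 2) ⁻¹' Set.Ioi (-(x : ℝ) ^ 2) = {ω | 0 < S 0 0 ω} := by
        ext ω
        simp only [Set.mem_preimage, Set.mem_Ioi, Set.mem_ofPred_eq, sub_zero]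
        constructor <;> intro h5 <;> linarith
      rw [h3, h4] at h2
      rw [h2]
      exact hzero
    rw [ae_iff]
    convert h1 using 2
    ext ω
    simp
  -- the two halves
  have hβ : IsBML (P.map (fun ω (x : ℚ) => W (x : ℝ) ω)) 2 0 := bml_law hW.pre
  have mβ : Measurable (fun ω (x : ℚ) => W (x : ℝ) ω) := measurable_pi_lambda _ fun x => hW.meas _
  have hβ' := bml_map_neg hβ
  rw [neg_zero, Measure.map_map (measurable_pi_lambda _ fun x => measurable_pi_apply _) mβ] at hβ'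
  have htail : ∀ (γ : Measure Ini) (_ : IsBML γ 2 0) (j : ℕ) (l : ℝ), 0 < l →
      γ {f | ∃ y : {y : ℚ // (j : ℚ) ≤ y ∧ y ≤ j + 1}, l < |f y - f j|} ≤
        ENNReal.ofReal (16 * Real.exp (-(l ^ 2) / 64)) := by
    intro γ hγ j l hl
    have h1 := bmx hγ (j : ℚ) (j + 1) (by linarith) l hl (by simp; exact hl.le)
    have h2 : (64 * (((j + 1 : ℚ) : ℝ) - ((j : ℚ) : ℝ))) = 64 := by
      push_cast; ring
    rw [h2] at h1
    refine (measure_mono ?_).trans h1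
    rintro f ⟨y, hy⟩
    exact ⟨y, y.2.1, y.2.2, hy⟩
  have hmset : ∀ (j : ℕ) (l : ℝ), MeasurableSet {f : Ini | ∃ y : {y : ℚ // (j : ℚ) ≤ y ∧ y ≤ j + 1}, l < |f y - f j|} := by
    intro j l
    have : {f : Ini | ∃ y : {y : ℚ // (j : ℚ) ≤ y ∧ y ≤ j + 1}, l < |f y - f j|} =
        ⋃ y : {y : ℚ // (j : ℚ) ≤ y ∧ y ≤ j + 1}, {f : Ini | l < |f y - f j|} := by
      ext f; simp
    rw [this]
    refine MeasurableSet.iUnion fun i => ?_
    have h1 : Measurable fun f : Ini => |f (i : ℚ) - f (j : ℚ)| :=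
      (show Measurable fun f : Ini => f (i : ℚ) - f (j : ℚ) from
        (measurable_pi_apply (i : ℚ)).sub (measurable_pi_apply (j : ℚ))).abs
    exact measurableSet_lt measurable_const h1
  have hplus : ∀ j : ℕ, ∫⁻ ω, (⨆ y : {y : ℚ // (j : ℚ) ≤ y ∧ y ≤ j + 1},
      ENNReal.ofReal (Real.exp (400 * (W (1 * ((y : ℚ) : ℝ)) ω - 400 * ((y : ℚ) : ℝ) - ((y : ℚ) : ℝ) ^ 2)))) ∂P ≤
      ENNReal.ofReal (Real.exp (-400 * (j : ℝ) ^ 2)) * (1 + ENNReal.ofReal (32 * Real.exp 2573216)) := by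
    intro j
    have hj : (0 : ℝ) ≤ j := Nat.cast_nonneg j
    refine SPO_half hW.meas 1 j ?_ ?_ ?_
    · have h1 := hW.gauss 0 j hj
      rw [zero_mul, sub_zero] at h1
      rw [← h1]
      refine Measure.map_congr ?_
      filter_upwards [hW.zero] with ω hω
      rw [hω, one_mul, sub_zero]
    · have h1 := (bm_seg hW (j : ℝ)).comp
        (φ := fun f : ℝ → ℝ => -f 0)
        (ψ := fun (f : ℝ → ℝ) (y : {y : ℚ // (j : ℚ) ≤ y ∧ y ≤ j + 1}) => f ((y : ℚ) : ℝ))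
        (show Measurable fun f : ℝ → ℝ => -f 0 from (measurable_pi_apply (0 : ℝ)).neg)
        (measurable_pi_lambda _ fun y => measurable_pi_apply _)
      refine h1.congr ?_ ?_
      · filter_upwards [hW.zero] with ω hω
        simp only [Function.comp, past]
        rw [min_eq_left hj, hω, one_mul]
        ring
      · refine Filter.Eventually.of_forall fun ω => ?_
        funext y
        have hy1 : (j : ℝ) ≤ ((y : ℚ) : ℝ) := by exact_mod_cast y.2.1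
        simp only [Function.comp, fut]
        rw [max_eq_left hy1, one_mul, one_mul]
    · intro l hl
      have h1 := htail _ hβ j l hl
      rw [Measure.map_apply mβ (hmset j l)] at h1
      refine le_trans (le_of_eq ?_) h1
      congr 1
      ext ω
      simp
  have hminus : ∀ j : ℕ, ∫⁻ ω, (⨆ y : {y : ℚ // (j : ℚ) ≤ y ∧ y ≤ j + 1},
      ENNReal.ofReal (Real.exp (400 * (W (-1 * ((y : ℚ) : ℝ)) ω - 400 * ((y : ℚ) : ℝ) - ((y : ℚ) : ℝ) ^ 2)))) ∂P ≤
      ENNReal.ofReal (Real.exp (-400 * (j : ℝ) ^ 2)) * (1 + ENNReal.ofReal (32 * Real.exp 2573216)) := by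
    intro j
    have hj : (0 : ℝ) ≤ j := Nat.cast_nonneg j
    have hgneg : P.map (fun ω => -(W 0 ω - W (-(j : ℝ)) ω)) = gaussianReal 0 (Real.toNNReal (2 * j)) := by
      have h1 := hW.gauss (-(j : ℝ)) 0 (by linarith)
      rw [zero_mul, sub_neg_eq_add, zero_add] at h1
      have h2 : P.map (fun ω => -(W 0 ω - W (-(j : ℝ)) ω)) =
          (P.map (fun ω => W 0 ω - W (-(j : ℝ)) ω)).map (fun x => -x) := by
        rw [Measure.map_map (show Measurable fun x : ℝ => -x from measurable_neg)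
          (show Measurable fun ω => W 0 ω - W (-(j : ℝ)) ω from (hW.meas _).sub (hW.meas _))]
        rfl
      rw [h2, h1, gaussianReal_map_neg, neg_zero]
    refine SPO_half hW.meas (-1) j ?_ ?_ ?_
    · rw [← hgneg]
      refine Measure.map_congr ?_
      filter_upwards [hW.zero] with ω hω
      rw [hω, neg_one_mul]
      ring
    · have h1 := (bm_seg hW (-(j : ℝ))).symm.comp
        (φ := fun f : ℝ → ℝ => -f 0)
        (ψ := fun (f : ℝ → ℝ) (y : {y : ℚ // (j : ℚ) ≤ y ∧ y ≤ j + 1}) => f (-((y : ℚ) : ℝ)))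
        (show Measurable fun f : ℝ → ℝ => -f 0 from (measurable_pi_apply (0 : ℝ)).neg)
        (measurable_pi_lambda _ fun y => measurable_pi_apply _)
      refine h1.congr ?_ ?_
      · filter_upwards [hW.zero] with ω hω
        simp only [Function.comp, fut]
        rw [max_eq_left (by linarith), hω, neg_one_mul]
        ring
      · refine Filter.Eventually.of_forall fun ω => ?_
        funext y
        have hy1 : (j : ℝ) ≤ ((y : ℚ) : ℝ) := by exact_mod_cast y.2.1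
        simp only [Function.comp, past]
        rw [min_eq_left (by linarith), neg_one_mul, neg_one_mul]
    · intro l hl
      have h1 := htail _ hβ' j l hl
      rw [Measure.map_apply ((measurable_pi_lambda _ fun x => measurable_pi_apply _).comp mβ) (hmset j l)] at h1
      refine le_trans (le_of_eq ?_) h1
      congr 1
      ext ω
      simp
  -- pointwise bound
  have hpt : ∀ᵐ ω ∂P, ENNReal.ofReal (Real.exp (400 * Hs 200 (-200) (fun x y => S x y ω) (fun t => W t ω) 0)) ≤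
      ∑' j : ℕ, ((⨆ y : {y : ℚ // (j : ℚ) ≤ y ∧ y ≤ j + 1},
        ENNReal.ofReal (Real.exp (400 * (W (1 * ((y : ℚ) : ℝ)) ω - 400 * ((y : ℚ) : ℝ) - ((y : ℚ) : ℝ) ^ 2)))) +
        (⨆ y : {y : ℚ // (j : ℚ) ≤ y ∧ y ≤ j + 1},
        ENNReal.ofReal (Real.exp (400 * (W (-1 * ((y : ℚ) : ℝ)) ω - 400 * ((y : ℚ) : ℝ) - ((y : ℚ) : ℝ) ^ 2))))) := by
    filter_upwards [hS] with ω hω
    set T := ∑' j : ℕ, ((⨆ y : {y : ℚ // (j : ℚ) ≤ y ∧ y ≤ j + 1},
        ENNReal.ofReal (Real.exp (400 * (W (1 * ((y : ℚ) : ℝ)) ω - 400 * ((y : ℚ) : ℝ) - ((y : ℚ) : ℝ) ^ 2)))) +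
        (⨆ y : {y : ℚ // (j : ℚ) ≤ y ∧ y ≤ j + 1},
        ENNReal.ofReal (Real.exp (400 * (W (-1 * ((y : ℚ) : ℝ)) ω - 400 * ((y : ℚ) : ℝ) - ((y : ℚ) : ℝ) ^ 2))))) with hT
    have hx : ∀ x : ℚ, ENNReal.ofReal (Real.exp (400 *
        (dft (2 * 200) (2 * (-200)) (fun t => W t ω) x + S x 0 ω))) ≤ T := by
      intro x
      have h1 : dft (2 * 200) (2 * (-200)) (fun t => W t ω) x + S x 0 ω ≤ W x ω - 400 * |(x : ℝ)| - (x : ℝ) ^ 2 := by
        have h2 := hω x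
        have h3 : dft (2 * 200) (2 * (-200)) (fun t => W t ω) x = W x ω - 400 * |(x : ℝ)| := by
          unfold dft
          split_ifs with h4
          · rw [abs_of_neg h4]; ring
          · rw [abs_of_nonneg (not_lt.1 h4)]; ring
        rw [h3]; linarith
      have hfl : ∀ y : ℚ, 0 ≤ y → ((⌊y⌋₊ : ℕ) : ℚ) ≤ y ∧ y ≤ ((⌊y⌋₊ : ℕ) : ℚ) + 1 := fun y hy =>
        ⟨Nat.floor_le hy, (Nat.lt_floor_add_one y).le⟩
      rcases le_total 0 x with hx0 | hx0
      · have hx0' : (0 : ℝ) ≤ x := by exact_mod_cast hx0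
        rw [abs_of_nonneg hx0'] at h1
        calc _ ≤ ENNReal.ofReal (Real.exp (400 * (W (1 * (x : ℝ)) ω - 400 * (x : ℝ) - (x : ℝ) ^ 2))) := by
              apply ENNReal.ofReal_le_ofReal
              apply Real.exp_le_exp.2
              rw [one_mul]
              linarith
          _ ≤ ⨆ y : {y : ℚ // ((⌊x⌋₊ : ℕ) : ℚ) ≤ y ∧ y ≤ ((⌊x⌋₊ : ℕ) : ℚ) + 1},
              ENNReal.ofReal (Real.exp (400 * (W (1 * ((y : ℚ) : ℝ)) ω - 400 * ((y : ℚ) : ℝ) - ((y : ℚ) : ℝ) ^ 2))) :=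
              le_iSup (fun y : {y : ℚ // ((⌊x⌋₊ : ℕ) : ℚ) ≤ y ∧ y ≤ ((⌊x⌋₊ : ℕ) : ℚ) + 1} =>
                ENNReal.ofReal (Real.exp (400 * (W (1 * ((y : ℚ) : ℝ)) ω - 400 * ((y : ℚ) : ℝ) - ((y : ℚ) : ℝ) ^ 2))))
                ⟨x, hfl x hx0⟩
          _ ≤ _ := le_self_add
          _ ≤ T := ENNReal.le_tsum (f := fun j : ℕ => ((⨆ y : {y : ℚ // (j : ℚ) ≤ y ∧ y ≤ j + 1},
              ENNReal.ofReal (Real.exp (400 * (W (1 * ((y : ℚ) : ℝ)) ω - 400 * ((y : ℚ) : ℝ) - ((y : ℚ) : ℝ) ^ 2)))) +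
              (⨆ y : {y : ℚ // (j : ℚ) ≤ y ∧ y ≤ j + 1},
              ENNReal.ofReal (Real.exp (400 * (W (-1 * ((y : ℚ) : ℝ)) ω - 400 * ((y : ℚ) : ℝ) - ((y : ℚ) : ℝ) ^ 2))))))
              ⌊x⌋₊
      · have hx0' : (x : ℝ) ≤ 0 := by exact_mod_cast hx0
        rw [abs_of_nonpos hx0'] at h1
        calc _ ≤ ENNReal.ofReal (Real.exp (400 * (W (-1 * ((-x : ℚ) : ℝ)) ω - 400 * ((-x : ℚ) : ℝ) - ((-x : ℚ) : ℝ) ^ 2))) := by
              apply ENNReal.ofReal_le_ofReal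
              apply Real.exp_le_exp.2
              push_cast
              rw [neg_one_mul, neg_neg]
              linarith [neg_sq (x : ℝ)]
          _ ≤ ⨆ y : {y : ℚ // ((⌊-x⌋₊ : ℕ) : ℚ) ≤ y ∧ y ≤ ((⌊-x⌋₊ : ℕ) : ℚ) + 1},
              ENNReal.ofReal (Real.exp (400 * (W (-1 * ((y : ℚ) : ℝ)) ω - 400 * ((y : ℚ) : ℝ) - ((y : ℚ) : ℝ) ^ 2))) :=
              le_iSup (fun y : {y : ℚ // ((⌊-x⌋₊ : ℕ) : ℚ) ≤ y ∧ y ≤ ((⌊-x⌋₊ : ℕ) : ℚ) + 1} =>
                ENNReal.ofReal (Real.exp (400 * (W (-1 * ((y : ℚ) : ℝ)) ω - 400 * ((y : ℚ) : ℝ) - ((y : ℚ) : ℝ) ^ 2))))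
                ⟨-x, hfl (-x) (by linarith)⟩
          _ ≤ _ := le_add_self
          _ ≤ T := ENNReal.le_tsum (f := fun j : ℕ => ((⨆ y : {y : ℚ // (j : ℚ) ≤ y ∧ y ≤ j + 1},
              ENNReal.ofReal (Real.exp (400 * (W (1 * ((y : ℚ) : ℝ)) ω - 400 * ((y : ℚ) : ℝ) - ((y : ℚ) : ℝ) ^ 2)))) +
              (⨆ y : {y : ℚ // (j : ℚ) ≤ y ∧ y ≤ j + 1},
              ENNReal.ofReal (Real.exp (400 * (W (-1 * ((y : ℚ) : ℝ)) ω - 400 * ((y : ℚ) : ℝ) - ((y : ℚ) : ℝ) ^ 2))))))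
              ⌊-x⌋₊
    rcases eq_or_ne T ⊤ with hTt | hTt
    · rw [hTt]; exact le_top
    · have h1 : ∀ x : ℚ, dft (2 * 200) (2 * (-200)) (fun t => W t ω) x + S x 0 ω ≤ Real.log T.toReal / 400 := by
        intro x
        have h2 := hx x
        rw [ENNReal.ofReal_le_iff_le_toReal hTt] at h2
        have h3 := (Real.exp_pos _).trans_le h2
        rw [← Real.le_log_iff_exp_le h3] at h2
        rw [le_div_iff₀' (by norm_num : (0 : ℝ) < 400)]
        exact h2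
      have h2 : Hs 200 (-200) (fun x y => S x y ω) (fun t => W t ω) 0 ≤ Real.log T.toReal / 400 := ciSup_le h1
      have h3 : 0 < T.toReal := by
        have h4 := hx 0
        rw [ENNReal.ofReal_le_iff_le_toReal hTt] at h4
        exact (Real.exp_pos _).trans_le h4
      rw [ENNReal.ofReal_le_iff_le_toReal hTt, ← Real.le_log_iff_exp_le h3]
      exact (le_div_iff₀' (by norm_num : (0 : ℝ) < 400)).1 h2
  have mH : ∀ (σ : ℝ) (j : ℕ), Measurable fun ω => (⨆ y : {y : ℚ // (j : ℚ) ≤ y ∧ y ≤ j + 1},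
      ENNReal.ofReal (Real.exp (400 * (W (σ * ((y : ℚ) : ℝ)) ω - 400 * ((y : ℚ) : ℝ) - ((y : ℚ) : ℝ) ^ 2)))) := by
    intro σ j
    refine Measurable.iSup fun y => ?_
    exact (Real.measurable_exp.comp (measurable_const.mul (((hW.meas _).sub measurable_const).sub
      measurable_const))).ennreal_ofReal
  have mH12 : ∀ j : ℕ, Measurable fun ω => ((⨆ y : {y : ℚ // (j : ℚ) ≤ y ∧ y ≤ j + 1},
      ENNReal.ofReal (Real.exp (400 * (W (1 * ((y : ℚ) : ℝ)) ω - 400 * ((y : ℚ) : ℝ) - ((y : ℚ) : ℝ) ^ 2)))) +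
      (⨆ y : {y : ℚ // (j : ℚ) ≤ y ∧ y ≤ j + 1},
      ENNReal.ofReal (Real.exp (400 * (W (-1 * ((y : ℚ) : ℝ)) ω - 400 * ((y : ℚ) : ℝ) - ((y : ℚ) : ℝ) ^ 2))))) :=
    fun j => (mH 1 j).add (mH (-1) j)
  have hle : ENNReal.ofReal (Real.exp (2 / 3 * 200 ^ 3)) ≤ 4 * (1 + ENNReal.ofReal (32 * Real.exp 2573216)) := by
    calc _ ≤ _ := s_up h
      _ ≤ _ := lintegral_mono_ae hpt
      _ = ∑' j : ℕ, (∫⁻ ω, (⨆ y : {y : ℚ // (j : ℚ) ≤ y ∧ y ≤ j + 1},
        ENNReal.ofReal (Real.exp (400 * (W (1 * ((y : ℚ) : ℝ)) ω - 400 * ((y : ℚ) : ℝ) - ((y : ℚ) : ℝ) ^ 2)))) ∂P +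
        ∫⁻ ω, (⨆ y : {y : ℚ // (j : ℚ) ≤ y ∧ y ≤ j + 1},
        ENNReal.ofReal (Real.exp (400 * (W (-1 * ((y : ℚ) : ℝ)) ω - 400 * ((y : ℚ) : ℝ) - ((y : ℚ) : ℝ) ^ 2)))) ∂P) := by
          rw [lintegral_tsum fun j => (mH12 j).aemeasurable]
          refine tsum_congr fun j => ?_
          exact lintegral_add_left (mH 1 j) _
      _ ≤ ∑' j : ℕ, (2 * (1 + ENNReal.ofReal (32 * Real.exp 2573216))) * ENNReal.ofReal (Real.exp (-(j : ℝ))) := by
          refine ENNReal.tsum_le_tsum fun j => ?_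
          calc _ ≤ ENNReal.ofReal (Real.exp (-400 * (j : ℝ) ^ 2)) * (1 + ENNReal.ofReal (32 * Real.exp 2573216)) +
                ENNReal.ofReal (Real.exp (-400 * (j : ℝ) ^ 2)) * (1 + ENNReal.ofReal (32 * Real.exp 2573216)) :=
                add_le_add (hplus j) (hminus j)
            _ = 2 * (1 + ENNReal.ofReal (32 * Real.exp 2573216)) * ENNReal.ofReal (Real.exp (-400 * (j : ℝ) ^ 2)) := by
                ring
            _ ≤ _ := by
                gcongr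
                have hj : (0 : ℝ) ≤ j := Nat.cast_nonneg j
                have : (j : ℝ) ≤ (j : ℝ) ^ 2 := by
                  have h1 : j ≤ j ^ 2 := Nat.le_self_pow (by norm_num) j
                  exact_mod_cast h1
                nlinarith
      _ = (2 * (1 + ENNReal.ofReal (32 * Real.exp 2573216))) * ∑' j : ℕ, ENNReal.ofReal (Real.exp (-(j : ℝ))) := by
          rw [ENNReal.tsum_mul_left]
      _ ≤ (2 * (1 + ENNReal.ofReal (32 * Real.exp 2573216))) * 2 := by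
          gcongr
          exact SPO_geom
      _ = _ := by ring
  have hlt : 4 * (1 + ENNReal.ofReal (32 * Real.exp 2573216)) < ENNReal.ofReal (Real.exp (2 / 3 * 200 ^ 3)) := by
    have h4 : (4 : ENNReal) = ENNReal.ofReal 4 := by norm_num
    rw [h4, ← ENNReal.ofReal_one, ← ENNReal.ofReal_add (by norm_num) (by positivity),
      ← ENNReal.ofReal_mul (by norm_num)]
    rw [ENNReal.ofReal_lt_ofReal_iff (Real.exp_pos _)]
    have h5 : (1 : ℝ) ≤ Real.exp 2573216 := Real.one_le_exp (by norm_num)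
    have h6 : (4 * (1 + 32 * Real.exp 2573216) : ℝ) ≤ 132 * Real.exp 2573216 := by linarith
    have h7 : (132 : ℝ) < Real.exp 132 := by
      have := Real.add_one_le_exp (132 : ℝ)
      linarith
    have h8 : (132 : ℝ) * Real.exp 2573216 < Real.exp (132 + 2573216) := by
      rw [Real.exp_add]
      exact mul_lt_mul_of_pos_right h7 (Real.exp_pos _)
    have h9 : Real.exp (132 + 2573216) ≤ Real.exp (2 / 3 * 200 ^ 3) := Real.exp_le_exp.2 (by norm_num)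
    exact (h6.trans_lt h8).trans_le h9
  exact absurd hle (not_le.2 hlt)

end Pool.Agent.DLM
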