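import Pool.Agent.DLM.NUX
import Pool.Agent.DLM.SPO

/-!
# DLM/NUP: the one point law has unbounded support

`P(S 0 0 ≥ ε) > 0` for some `ε > 0`; by superadditivity `P(S_k 0 0 ≥ k ε) > 0` for the sheet of duration `k`, and by
scaling `P(S 0 0 ≥ k^(2/3) ε) > 0`.
-/

set_option autoImplicit false

open MeasureTheory ProbabilityTheory Filter Topology

namespace Pool.Agent.DLM

variable {Ω₀ Ω : Type*} [MeasurableSpace Ω₀] [MeasurableSpace Ω] {P₀ : Measure Ω₀} [IsProbabilityMeasure P₀]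
  {S₀ : ℝ → ℝ → Ω₀ → ℝ} {P : Measure Ω} [IsProbabilityMeasure P] {L : ℝ → ℝ → ℝ → ℝ → Ω → ℝ}

private lemma kern_ev (x y : ℚ) : Measurable fun S : Kern => S x y :=
  (measurable_pi_apply y).comp (measurable_pi_apply x)

private lemma pos_zero (hS : IsAirySheet P₀ S₀) : 0 < P₀ {ω | 0 < S₀ 0 0 ω} := by
  obtain ⟨B, W₀, -, hC⟩ := cpl_exists hS
  have hp : MeasurePreserving (Prod.fst : Ω₀ × Ω₀ → Ω₀) (P₀.prod P₀) P₀ := measurePreserving_fst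
  have hmap : ∀ {g : Ω₀ → ℝ}, Measurable g → (P₀.prod P₀).map (fun ω => g ω.1) = P₀.map g := by
    intro g hg
    conv_rhs => rw [← hp.map_eq, Measure.map_map hg measurable_fst]
    rfl
  have h1 := s_pos hC (fun x y => by
    rw [hmap (hS.meas x y), hmap (g := fun ω => S₀ 0 0 ω - (x - y) ^ 2) ((hS.meas 0 0).sub_const _), s_one hS x y])
  have hm : MeasurableSet {ω | 0 < S₀ 0 0 ω} := measurableSet_lt measurable_const (hS.meas 0 0)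
  rw [← hp.measure_preimage hm.nullMeasurableSet]
  exact h1

private lemma pos_eps (hS : IsAirySheet P₀ S₀) : ∃ ε : ℝ, 0 < ε ∧ 0 < P₀ {ω | ε ≤ S₀ 0 0 ω} := by
  by_contra hcon
  push Not at hcon
  have h1 : {ω | 0 < S₀ 0 0 ω} ⊆ ⋃ k : ℕ, {ω | 1 / ((k : ℝ) + 1) ≤ S₀ 0 0 ω} := by
    intro ω hω
    obtain ⟨k, hk⟩ := exists_nat_one_div_lt (show 0 < S₀ 0 0 ω from hω)
    exact Set.mem_iUnion.2 ⟨k, hk.le⟩
  have h2 : P₀ {ω | 0 < S₀ 0 0 ω} ≤ 0 := by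
    refine (measure_mono h1).trans ?_
    rw [nonpos_iff_eq_zero, measure_iUnion_null_iff]
    intro k
    exact nonpos_iff_eq_zero.1 (hcon _ (by positivity))
  exact absurd (pos_zero hS) (not_lt.2 h2)

private lemma pos_iter (hS : IsAirySheet P₀ S₀) (hL : IsDL P₀ S₀ P L) {ε : ℝ} (hε : 0 < P₀ {ω | ε ≤ S₀ 0 0 ω}) (k : ℕ) :
    0 < (nuS P₀ S₀ ((k : ℝ) + 1)) {S | ((k : ℝ) + 1) * ε ≤ S 0 0} := by
  have hm : ∀ c : ℝ, MeasurableSet {S : Kern | c ≤ S 0 0} := fun c => measurableSet_le measurable_const (kern_ev 0 0)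
  have h0 : 0 < (nuS P₀ S₀ 1) {S | ε ≤ S 0 0} := by
    have h1 := nuS_one hS 1 0 0 one_pos
    have h2 : (nuS P₀ S₀ 1) {S | ε ≤ S 0 0} = ((nuS P₀ S₀ 1).map (fun S => S 0 0)) (Set.Ici ε) := by
      rw [Measure.map_apply (kern_ev 0 0) measurableSet_Ici]; rfl
    have h3 : (fun t : ℝ => (1 : ℝ) ^ (1 / 3 : ℝ) * t - (((0 : ℚ) : ℝ) - ((0 : ℚ) : ℝ)) ^ 2 / 1) = fun t => t := by
      funext t; simp
    rw [h2, h1, h3, Measure.map_id', Measure.map_apply (hS.meas 0 0) measurableSet_Ici]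
    exact hε
  induction k with
  | zero => simpa using h0
  | succ k ih =>
    have hk : (0 : ℝ) < (k : ℝ) + 1 := by positivity
    have := nuS_prob hS ((k : ℝ) + 1)
    have := nuS_prob hS 1
    have e1 : ((k + 1 : ℕ) : ℝ) + 1 = ((k : ℝ) + 1) + 1 := by push_cast; ring
    rw [e1, ← nuS_comp hS hL ((k : ℝ) + 1) 1 hk one_pos, Measure.map_apply kcomp_meas (hm _)]
    have h2 : 0 < ((nuS P₀ S₀ ((k : ℝ) + 1)).prod (nuS P₀ S₀ 1))
        ({S | ((k : ℝ) + 1) * ε ≤ S 0 0} ×ˢ {S | ε ≤ S 0 0}) := by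
      rw [Measure.prod_prod]
      exact ENNReal.mul_pos ih.ne' h0.ne'
    refine lt_of_lt_of_le h2 (measure_mono_ae ?_)
    filter_upwards [nuS_comp_bdd hS hL ((k : ℝ) + 1) 1 hk one_pos] with p hp hmem
    obtain ⟨q1, q2⟩ := hmem
    change ((k : ℝ) + 1) * ε ≤ p.1 0 0 at q1
    change ε ≤ p.2 0 0 at q2
    change ((k : ℝ) + 1 + 1) * ε ≤ kcomp p.1 p.2 0 0
    have h3 : p.1 0 0 + p.2 0 0 ≤ kcomp p.1 p.2 0 0 := le_ciSup (hp 0 0) 0
    linarith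

theorem nuS_pos (hS : IsAirySheet P₀ S₀) (hL : IsDL P₀ S₀ P L) (a : ℝ) : 0 < (P₀.map (S₀ 0 0)) (Set.Ici a) := by
  obtain ⟨ε, hε0, hε⟩ := pos_eps hS
  have ht : Tendsto (fun k : ℕ => ((k : ℝ) + 1) ^ (2 / 3 : ℝ)) atTop atTop :=
    (tendsto_rpow_atTop (by norm_num : (0 : ℝ) < 2 / 3)).comp
      (tendsto_atTop_add_const_right _ _ tendsto_natCast_atTop_atTop)
  obtain ⟨k, hk⟩ := (ht.eventually_ge_atTop (a / ε)).exists
  have hk0 : (0 : ℝ) < (k : ℝ) + 1 := by positivity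
  have h1 := pos_iter hS hL hε k
  have h2 : (nuS P₀ S₀ ((k : ℝ) + 1)) {S | ((k : ℝ) + 1) * ε ≤ S 0 0} =
      ((nuS P₀ S₀ ((k : ℝ) + 1)).map (fun S => S 0 0)) (Set.Ici (((k : ℝ) + 1) * ε)) := by
    rw [Measure.map_apply (kern_ev 0 0) measurableSet_Ici]; rfl
  rw [h2, nuS_one hS _ 0 0 hk0, Measure.map_apply (by fun_prop) measurableSet_Ici] at h1
  refine lt_of_lt_of_le h1 (measure_mono ?_)
  intro t ht
  simp only [Set.mem_preimage, Set.mem_Ici, sub_self, ne_eq, OfNat.ofNat_ne_zero, not_false_eq_true, zero_pow,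
    zero_div, sub_zero] at ht
  rw [Set.mem_Ici]
  have e1 : ((k : ℝ) + 1) = ((k : ℝ) + 1) ^ (1 / 3 : ℝ) * ((k : ℝ) + 1) ^ (2 / 3 : ℝ) := by
    rw [← Real.rpow_add hk0]; norm_num
  have hp : 0 < ((k : ℝ) + 1) ^ (1 / 3 : ℝ) := Real.rpow_pos_of_pos hk0 _
  have h3 : ((k : ℝ) + 1) ^ (1 / 3 : ℝ) * (((k : ℝ) + 1) ^ (2 / 3 : ℝ) * ε) ≤ ((k : ℝ) + 1) ^ (1 / 3 : ℝ) * t := by
    rw [← mul_assoc, ← e1]; exact ht
  have h4 := le_of_mul_le_mul_left h3 hp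
  rw [div_le_iff₀ hε0] at hk
  linarith

end Pool.Agent.DLM
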