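import Pool.Agent.DLM.NUN
import Pool.Agent.DLM.NUP

/-!
# DLM/BAS: the laws of the sheets of a directed landscape satisfy `Base` (30-60 lines)

Collect the fields from NUA, NUX, NUP, NUH, NUN with `β b = betS P₀ W₀ b`, the coupling and `W₀` from `cpl_exists`.
-/

set_option autoImplicit false

open MeasureTheory ProbabilityTheory Filter Topology

namespace Pool.Agent.DLM

theorem base_of_dl {Ω₀ Ω : Type*} [MeasurableSpace Ω₀] [MeasurableSpace Ω] {P₀ : Measure Ω₀} [IsProbabilityMeasure P₀]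
    {S₀ : ℝ → ℝ → Ω₀ → ℝ} {P : Measure Ω} [IsProbabilityMeasure P] {L : ℝ → ℝ → ℝ → ℝ → Ω → ℝ}
    (hS : IsAirySheet P₀ S₀) (hL : IsDL P₀ S₀ P L) : ∃ β, Base (nuS P₀ S₀) (P₀.map (S₀ 0 0)) β := by
  obtain ⟨B, W₀, hW, hc⟩ := cpl_exists hS
  exact ⟨betS P₀ W₀,
    { prob := fun θ _ => nuS_prob hS θ
      twprob := Measure.isProbabilityMeasure_map (hS.meas 0 0).aemeasurable
      bm := fun b => betS_bml hW b
      comp_bdd := fun θ θ' h h' => nuS_comp_bdd hS hL θ θ' h h'
      comp := fun θ θ' h h' => nuS_comp hS hL θ θ' h h'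
      scal := fun θ r h hr => nuS_scal hS θ r h hr
      shift := fun θ a h => nuS_shift hS θ a h
      quad := fun θ h => nuS_quad hS θ h
      one := fun θ x y h => nuS_one hS θ x y h
      mgf := fun c hc => tw_mgf hS c hc
      pos := fun a => nuS_pos hS hL a
      stat_bdd := fun b θ h => nuS_stat_bdd hS hW hc b θ h
      stat := fun b θ h => nuS_stat hS hW hc b θ h
      neg_bdd := nuS_neg_bdd hS hW hc
      neg := nuS_neg hS hW hc
      bk := fun v F a c => nuS_bk hS v F a c }⟩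

end Pool.Agent.DLM
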