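import Pool.Agent.DLM.GIR

/-!
# DLM/BDefs: definitions for part B (scaling limit with Brownian initial data)

`Cpl P S B W`: `S` is an Airy sheet coupled with the lines `B n i`, `W` is a Brownian motion with variance `2`, independent of `(S, B)`.
`Vn W n`: standard Brownian motion.  `mun a n`: drifts.  `Hn a c B W n y = sup_x (dft (2a) (2c) W x + Sn x y)`, `Hs a c S W y = sup_x (dft (2a) (2c) W x + S x y)`.
-/

set_option autoImplicit false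

open MeasureTheory ProbabilityTheory Filter Topology

namespace Pool.Agent.DLM

/-- `S` is coupled with the lines `B n`, `W` is independent of everything. -/
structure Cpl {Ω : Type*} [MeasurableSpace Ω] (P : Measure Ω) (S : ℝ → ℝ → Ω → ℝ) (B : ℕ → ℕ → ℝ → Ω → ℝ)
    (W : ℝ → Ω → ℝ) : Prop where
  meas : ∀ x y, Measurable (S x y)
  cont : ∀ᵐ ω ∂P, Continuous fun p : ℝ × ℝ => S p.1 p.2 ω
  bm : ∀ n i, IsBM P (B n i) 1 0
  lines : ∀ n, iIndepFun (fun (i : ℕ) (ω : Ω) (t : ℝ) => B n i t ω) P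
  lim : ∀ K ε : ℝ, 0 < ε → Tendsto (fun n : ℕ => P {ω | ∃ x y : ℝ, |x| ≤ K ∧ |y| ≤ K ∧
    ε < |Sn (fun i t => B n i t ω) n x y - S x y ω|}) atTop (𝓝 0)
  wbm : IsBM P W 2 0
  indep : IndepFun (fun ω t => W t ω)
    (fun ω => ((fun x y => S x y ω : ℝ → ℝ → ℝ), (fun n i t => B n i t ω : ℕ → ℕ → ℝ → ℝ))) P

/-- standard Brownian motion in the coordinates of the lines -/
noncomputable def Vn (W : ℝ → ℝ) (n : ℕ) : ℝ → ℝ :=
  fun s => (n : ℝ) ^ (-(1 / 6) : ℝ) * W (s * (n : ℝ) ^ (1 / 3 : ℝ) / 2)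

/-- drifts -/
noncomputable def mun (a : ℝ) (n : ℕ) : ℝ := √(n : ℝ) + a * (n : ℝ) ^ (1 / 6 : ℝ)

/-- the rescaled value with Brownian initial data (drift `2a` on the left, `2c` on the right) -/
noncomputable def Hn (a c : ℝ) (B : ℕ → ℕ → ℝ → ℝ) (W : ℝ → ℝ) (n : ℕ) (y : ℝ) : ℝ :=
  (n : ℝ) ^ (1 / 6 : ℝ) *
    (dq (B n) n (dft (mun a n) (mun c n) (Vn W n)) (1 + 2 * y * (n : ℝ) ^ (-(1 / 3) : ℝ)) -
      2 * √(n : ℝ) - 2 * y * (n : ℝ) ^ (1 / 6 : ℝ))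

/-- the same for the sheet -/
noncomputable def Hs (a c : ℝ) (S : ℝ → ℝ → ℝ) (W : ℝ → ℝ) (y : ℝ) : ℝ :=
  ⨆ x : ℚ, (dft (2 * a) (2 * c) W x + S x y)

end Pool.Agent.DLM
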