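import Mathlib

/-!
# DLM/BKA: BK inequality for sums over finite sets (120-180 lines, Mathlib only)

For `K ⊆ E` let `D_K(ω, ω')` = there are `A ∈ 𝒜`, `B ∈ ℬ` with `A.1 ∩ B.1 ⊆ K`, `A.2 ≤ ∑_{A.1} ω`, `B.2 ≤ ∑_{e ∈ B.1} (if e ∈ K then ω' e else ω e)`.  Then `P⊗P(D_∅)` is the left side and `P⊗P(D_univ)` the right side (product).
CLAIM: `P⊗P(D_K) ≤ P⊗P(D_{insert e K})` for `e ∉ K`.  Fix all coordinates except `u = ω e` and `u' = ω' e`.  `D_K` does not depend on `u'`; as a subset of `u ∈ ℝ`: `D_K = U ∪ I ∪ I'`, `U` (all or nothing): some pair satisfied with `e ∉ A ∪ B`;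
`I = {u | some pair with e ∈ A, e ∉ B is satisfied}`, `I' = {u | some pair with e ∈ B, e ∉ A}`: both are upper sets in `ℝ` (increasing in `u`), so one contains the other: `I ∪ I' = I` or `= I'`.  `D_{insert e K} ⊇ U ∪ {u ∈ I} ∪ {u' ∈ I'}` (the same pairs; `e ∈ B` now uses `u'`).
So `μ_e(I ∪ I') = max(μ_e I, μ_e I') ≤ (μ_e ⊗ μ_e)(u ∈ I or u' ∈ I')`.  Integrate over the other coordinates (Tonelli).  In Lean: it is convenient to resample one coordinate: the measure `P⊗P` on `(ω, ω')` is invariant under independent resampling of `ω e, ω' e`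
(`Function.update`; `lmarginal`/`MeasureTheory.lintegral_pi...`, or `MeasurableEquiv.piEquivPiSubtypeProd`), so `P⊗P(D) = ∫ (μ_e ⊗ μ_e){(u,u') | D(update ω e u, update ω' e u')} dP⊗P`.
Induction over the finite set `K` (`Finset.induction_on`).
-/

set_option autoImplicit false

open MeasureTheory ProbabilityTheory Filter Topology

namespace Pool.Agent.DLM

/-- the duplicated coordinates -/
private def bkD {E : Type*} [DecidableEq E] (𝒜 ℬ : Finset (Finset E × ℝ)) (K : Finset E) : Set (E → ℝ × ℝ) :=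
  {z | ∃ A ∈ 𝒜, ∃ B ∈ ℬ, A.1 ∩ B.1 ⊆ K ∧ A.2 ≤ ∑ x ∈ A.1, (z x).1 ∧
    B.2 ≤ ∑ x ∈ B.1, (if x ∈ K then (z x).2 else (z x).1)}

private theorem bkD_meas {E : Type*} [Fintype E] [DecidableEq E] (𝒜 ℬ : Finset (Finset E × ℝ)) (K : Finset E) :
    MeasurableSet (bkD 𝒜 ℬ K) := by
  have e : bkD 𝒜 ℬ K = ⋃ A ∈ 𝒜, ⋃ B ∈ ℬ, ({_z : E → ℝ × ℝ | A.1 ∩ B.1 ⊆ K} ∩
      {z | A.2 ≤ ∑ x ∈ A.1, (z x).1}) ∩
      {z | B.2 ≤ ∑ x ∈ B.1, (if x ∈ K then (z x).2 else (z x).1)} := by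
    ext z
    simp only [bkD, Set.mem_ofPred_eq, Set.mem_iUnion, Set.mem_inter_iff, exists_prop, and_assoc]
  rw [e]
  refine Finset.measurableSet_biUnion _ fun A _ => Finset.measurableSet_biUnion _ fun B _ => ?_
  refine ((MeasurableSet.const _).inter (measurableSet_le measurable_const ?_)).inter
    (measurableSet_le measurable_const ?_)
  · exact Finset.measurable_sum _ fun x _ => (measurable_pi_apply x).fst
  · refine Finset.measurable_sum _ fun x _ => ?_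
    split_ifs
    · exact (measurable_pi_apply x).snd
    · exact (measurable_pi_apply x).fst

private theorem bk_one (ν : Measure ℝ) [IsProbabilityMeasure ν] (T : ℝ → ℝ → Prop) (I J : Set ℝ)
    (hI : IsUpperSet I) (hJ : IsUpperSet J) (h1 : ∀ u, T u u → u ∈ I ∨ u ∈ J)
    (h2 : ∀ u ∈ I, ∀ v, T u v) (h3 : ∀ v ∈ J, ∀ u, T u v) :
    (ν.prod ν) {w | T w.1 w.1} ≤ (ν.prod ν) {w | T w.1 w.2} := by
  rcases hI.total hJ with h | h
  · have e1 : (ν.prod ν) {w : ℝ × ℝ | T w.1 w.1} ≤ (ν.prod ν) {w : ℝ × ℝ | w.1 ∈ J} := by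
      refine measure_mono fun w hw => ?_
      rcases h1 w.1 hw with h4 | h4
      · exact h h4
      · exact h4
    have e2 : (ν.prod ν) {w : ℝ × ℝ | w.1 ∈ J} = (ν.prod ν) {w : ℝ × ℝ | w.2 ∈ J} := by
      have hp : MeasurePreserving (MeasurableEquiv.prodComm : ℝ × ℝ ≃ᵐ ℝ × ℝ) (ν.prod ν) (ν.prod ν) :=
        Measure.measurePreserving_swap
      exact (hp.measure_preimage_equiv {w : ℝ × ℝ | w.1 ∈ J}).symm
    rw [e2] at e1
    exact e1.trans (measure_mono fun w hw => h3 w.2 hw w.1)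
  · refine measure_mono fun w hw => ?_
    rcases h1 w.1 hw with h4 | h4
    · exact h2 w.1 h4 w.2
    · exact h2 w.1 (h h4) w.2

private theorem bkD_step {E : Type*} [Fintype E] [DecidableEq E] (μ : E → Measure ℝ)
    [∀ e, IsProbabilityMeasure (μ e)] (𝒜 ℬ : Finset (Finset E × ℝ)) {K : Finset E} {e : E} (he : e ∉ K) :
    Measure.pi (fun x => (μ x).prod (μ x)) (bkD 𝒜 ℬ K) ≤
      Measure.pi (fun x => (μ x).prod (μ x)) (bkD 𝒜 ℬ (insert e K)) := by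
  have hm := bkD_meas 𝒜 ℬ K
  have hm' := bkD_meas 𝒜 ℬ (insert e K)
  rw [← lintegral_indicator_one hm, ← lintegral_indicator_one hm']
  refine lintegral_le_of_lmarginal_le {e} (measurable_one.indicator hm) (measurable_one.indicator hm') ?_
  intro z
  rw [lmarginal_singleton, lmarginal_singleton]
  have hu : Measurable (fun w : ℝ × ℝ => Function.update z e w) := measurable_update z
  have e1 : ∀ D : Set (E → ℝ × ℝ), MeasurableSet D →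
      ∫⁻ w, D.indicator (1 : (E → ℝ × ℝ) → ENNReal) (Function.update z e w) ∂(μ e).prod (μ e) =
        ((μ e).prod (μ e)) {w | Function.update z e w ∈ D} := by
    intro D hD
    exact lintegral_indicator_one (hu hD)
  show ∫⁻ w, (bkD 𝒜 ℬ K).indicator 1 (Function.update z e w) ∂(μ e).prod (μ e) ≤
    ∫⁻ w, (bkD 𝒜 ℬ (insert e K)).indicator 1 (Function.update z e w) ∂(μ e).prod (μ e)
  rw [e1 _ hm, e1 _ hm']
  let b : E → ℝ := fun x => if x ∈ K then (z x).2 else (z x).1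
  let C : Finset E × ℝ → Finset E × ℝ → ℝ → ℝ → Prop := fun A B u v =>
    A.2 ≤ ∑ x ∈ A.1, (if x = e then u else (z x).1) ∧ B.2 ≤ ∑ x ∈ B.1, (if x = e then v else b x)
  let T : ℝ → ℝ → Prop := fun u v => ∃ A ∈ 𝒜, ∃ B ∈ ℬ, A.1 ∩ B.1 ⊆ K ∧ C A B u v
  let I : Set ℝ := {u | ∃ A ∈ 𝒜, ∃ B ∈ ℬ, A.1 ∩ B.1 ⊆ K ∧ e ∉ B.1 ∧ C A B u 0}
  let J : Set ℝ := {v | ∃ A ∈ 𝒜, ∃ B ∈ ℬ, A.1 ∩ B.1 ⊆ K ∧ e ∉ A.1 ∧ C A B 0 v}
  have hA : ∀ (A : Finset E) (f : E → ℝ), e ∉ A → ∀ u v : ℝ,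
      ∑ x ∈ A, (if x = e then u else f x) = ∑ x ∈ A, (if x = e then v else f x) := by
    intro A f hA u v
    refine Finset.sum_congr rfl fun x hx => ?_
    have : x ≠ e := fun h => hA (h ▸ hx)
    rw [if_neg this, if_neg this]
  have hAm : ∀ (A : Finset E) (f : E → ℝ) (u v : ℝ), u ≤ v →
      ∑ x ∈ A, (if x = e then u else f x) ≤ ∑ x ∈ A, (if x = e then v else f x) := by
    intro A f u v huv
    refine Finset.sum_le_sum fun x _ => ?_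
    split_ifs
    · exact huv
    · exact le_rfl
  have hI : IsUpperSet I := by
    rintro u v huv ⟨A, hA1, B, hB1, h1, h2, h3, h4⟩
    exact ⟨A, hA1, B, hB1, h1, h2, h3.trans (hAm _ _ _ _ huv), h4⟩
  have hJ : IsUpperSet J := by
    rintro u v huv ⟨A, hA1, B, hB1, h1, h2, h3, h4⟩
    exact ⟨A, hA1, B, hB1, h1, h2, h3, h4.trans (hAm _ _ _ _ huv)⟩
  have h1 : ∀ u, T u u → u ∈ I ∨ u ∈ J := by
    rintro u ⟨A, hA1, B, hB1, h1, h2, h3⟩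
    by_cases hB : e ∈ B.1
    · have hA2 : e ∉ A.1 := fun h => he (h1 (Finset.mem_inter.2 ⟨h, hB⟩))
      exact Or.inr ⟨A, hA1, B, hB1, h1, hA2, by rw [hA _ _ hA2 0 u]; exact h2, h3⟩
    · exact Or.inl ⟨A, hA1, B, hB1, h1, hB, h2, by rw [hA _ _ hB 0 u]; exact h3⟩
  have h2 : ∀ u ∈ I, ∀ v, T u v := by
    rintro u ⟨A, hA1, B, hB1, h1, h2, h3, h4⟩ v
    exact ⟨A, hA1, B, hB1, h1, h3, by rw [hA _ _ h2 v 0]; exact h4⟩
  have h3 : ∀ v ∈ J, ∀ u, T u v := by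
    rintro v ⟨A, hA1, B, hB1, h1, h2, h3, h4⟩ u
    exact ⟨A, hA1, B, hB1, h1, by rw [hA _ _ h2 u 0]; exact h3, h4⟩
  have key := bk_one (μ e) T I J hI hJ h1 h2 h3
  have e2 : {w | Function.update z e w ∈ bkD 𝒜 ℬ K} = {w : ℝ × ℝ | T w.1 w.1} := by
    ext w
    show (∃ A ∈ 𝒜, ∃ B ∈ ℬ, A.1 ∩ B.1 ⊆ K ∧ A.2 ≤ ∑ x ∈ A.1, (Function.update z e w x).1 ∧
      B.2 ≤ ∑ x ∈ B.1, (if x ∈ K then (Function.update z e w x).2 else (Function.update z e w x).1)) ↔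
      ∃ A ∈ 𝒜, ∃ B ∈ ℬ, A.1 ∩ B.1 ⊆ K ∧ A.2 ≤ ∑ x ∈ A.1, (if x = e then w.1 else (z x).1) ∧
        B.2 ≤ ∑ x ∈ B.1, (if x = e then w.1 else if x ∈ K then (z x).2 else (z x).1)
    have f1 : ∀ x, (Function.update z e w x).1 = if x = e then w.1 else (z x).1 := by
      intro x
      rw [Function.update_apply]
      split_ifs <;> rfl
    have f2 : ∀ x, (if x ∈ K then (Function.update z e w x).2 else (Function.update z e w x).1) =
        if x = e then w.1 else if x ∈ K then (z x).2 else (z x).1 := by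
      intro x
      rw [Function.update_apply]
      by_cases hx : x = e
      · rw [if_pos hx, if_pos hx, if_neg (hx ▸ he)]
      · rw [if_neg hx, if_neg hx]
    simp only [f2]
    simp only [f1]
  have e3 : {w : ℝ × ℝ | T w.1 w.2} ⊆ {w | Function.update z e w ∈ bkD 𝒜 ℬ (insert e K)} := by
    rintro w ⟨A, hA1, B, hB1, h1, h2, h3⟩
    refine ⟨A, hA1, B, hB1, h1.trans (Finset.subset_insert _ _), ?_, ?_⟩
    · refine h2.trans_eq (Finset.sum_congr rfl fun x _ => ?_)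
      rw [Function.update_apply]
      split_ifs <;> rfl
    · refine h3.trans_eq (Finset.sum_congr rfl fun x _ => ?_)
      rw [Function.update_apply]
      by_cases hx : x = e
      · rw [if_pos hx, if_pos hx, if_pos (Finset.mem_insert.2 (Or.inl hx))]
      · rw [if_neg hx, if_neg hx]
        show (if x ∈ K then (z x).2 else (z x).1) = _
        by_cases hk : x ∈ K
        · rw [if_pos hk, if_pos (Finset.mem_insert_of_mem hk)]
        · rw [if_neg hk, if_neg (fun h => (Finset.mem_insert.1 h).elim hx hk)]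
  rw [e2]
  exact key.trans (measure_mono e3)

theorem bk_fin {E : Type*} [Fintype E] [DecidableEq E] (μ : E → Measure ℝ) [∀ e, IsProbabilityMeasure (μ e)]
    (𝒜 ℬ : Finset (Finset E × ℝ)) :
    Measure.pi μ {ω | ∃ A ∈ 𝒜, ∃ B ∈ ℬ, Disjoint A.1 B.1 ∧ A.2 ≤ ∑ e ∈ A.1, ω e ∧ B.2 ≤ ∑ e ∈ B.1, ω e} ≤
      Measure.pi μ {ω | ∃ A ∈ 𝒜, A.2 ≤ ∑ e ∈ A.1, ω e} * Measure.pi μ {ω | ∃ B ∈ ℬ, B.2 ≤ ∑ e ∈ B.1, ω e} := by
  have hstep : ∀ K : Finset E, Measure.pi (fun x => (μ x).prod (μ x)) (bkD 𝒜 ℬ ∅) ≤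
      Measure.pi (fun x => (μ x).prod (μ x)) (bkD 𝒜 ℬ K) := by
    intro K
    induction K using Finset.induction_on with
    | empty => exact le_rfl
    | insert e K he ih => exact ih.trans (bkD_step μ 𝒜 ℬ he)
  have hp := measurePreserving_arrowProdEquivProdArrow ℝ ℝ E μ μ
  have h0 : Measure.pi (fun x => (μ x).prod (μ x)) (bkD 𝒜 ℬ ∅) = Measure.pi μ {ω | ∃ A ∈ 𝒜, ∃ B ∈ ℬ,
      Disjoint A.1 B.1 ∧ A.2 ≤ ∑ e ∈ A.1, ω e ∧ B.2 ≤ ∑ e ∈ B.1, ω e} := by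
    have e1 : bkD 𝒜 ℬ ∅ = (MeasurableEquiv.arrowProdEquivProdArrow ℝ ℝ E) ⁻¹'
        ({ω | ∃ A ∈ 𝒜, ∃ B ∈ ℬ, Disjoint A.1 B.1 ∧ A.2 ≤ ∑ e ∈ A.1, ω e ∧
          B.2 ≤ ∑ e ∈ B.1, ω e} ×ˢ Set.univ) := by
      ext z
      rw [Set.mem_preimage, Set.mem_prod]
      show (∃ A ∈ 𝒜, ∃ B ∈ ℬ, A.1 ∩ B.1 ⊆ ∅ ∧ A.2 ≤ ∑ x ∈ A.1, (z x).1 ∧
        B.2 ≤ ∑ x ∈ B.1, (if x ∈ (∅ : Finset E) then (z x).2 else (z x).1)) ↔
        (∃ A ∈ 𝒜, ∃ B ∈ ℬ, Disjoint A.1 B.1 ∧ A.2 ≤ ∑ e ∈ A.1, (z e).1 ∧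
          B.2 ≤ ∑ e ∈ B.1, (z e).1) ∧ _ ∈ Set.univ
      simp only [Finset.notMem_empty, if_false, Finset.subset_empty, Finset.disjoint_iff_inter_eq_empty,
        Set.mem_univ, and_true]
    rw [e1, hp.measure_preimage_equiv, Measure.prod_prod, measure_univ, mul_one]
  have hU : Measure.pi (fun x => (μ x).prod (μ x)) (bkD 𝒜 ℬ Finset.univ) =
      Measure.pi μ {ω | ∃ A ∈ 𝒜, A.2 ≤ ∑ e ∈ A.1, ω e} * Measure.pi μ {ω | ∃ B ∈ ℬ, B.2 ≤ ∑ e ∈ B.1, ω e} := by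
    have e1 : bkD 𝒜 ℬ Finset.univ = (MeasurableEquiv.arrowProdEquivProdArrow ℝ ℝ E) ⁻¹'
        ({ω | ∃ A ∈ 𝒜, A.2 ≤ ∑ e ∈ A.1, ω e} ×ˢ {ω | ∃ B ∈ ℬ, B.2 ≤ ∑ e ∈ B.1, ω e}) := by
      ext z
      rw [Set.mem_preimage, Set.mem_prod]
      show (∃ A ∈ 𝒜, ∃ B ∈ ℬ, A.1 ∩ B.1 ⊆ Finset.univ ∧ A.2 ≤ ∑ x ∈ A.1, (z x).1 ∧
        B.2 ≤ ∑ x ∈ B.1, (if x ∈ (Finset.univ : Finset E) then (z x).2 else (z x).1)) ↔
        (∃ A ∈ 𝒜, A.2 ≤ ∑ e ∈ A.1, (z e).1) ∧ ∃ B ∈ ℬ, B.2 ≤ ∑ e ∈ B.1, (z e).2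
      simp only [Finset.mem_univ, if_true, Finset.subset_univ, true_and]
      constructor
      · rintro ⟨A, hA, B, hB, h1, h2⟩
        exact ⟨⟨A, hA, h1⟩, B, hB, h2⟩
      · rintro ⟨⟨A, hA, h1⟩, B, hB, h2⟩
        exact ⟨A, hA, B, hB, h1, h2⟩
    rw [e1, hp.measure_preimage_equiv, Measure.prod_prod]
  rw [← h0, ← hU]
  exact hstep Finset.univ

end Pool.Agent.DLM
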