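import Pool.Agent.DLM.BKA

/-!
# DLM/BKG: BK inequality for last passage percolation on a grid (120-180 lines)

`gpath n a c r`: in the column `j ∈ [a, c)` the path is in row `r j < n`, rows are nonincreasing.  `gswap`: if two paths share the cell `(r j, j)`, exchange the parts after `j`: `s i = if i ≤ j then r i else r' i` (path from `a` to `c'`), `s' i = if i ≤ j then r' i else r i` (path from `a'` to `c`);
monotone since `r i ≥ r j = r' j ≥ r' i'` for `i ≤ j ≤ i'`; the sum of the weights is the same (split the sums over `Ico` at `j + 1`).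
`bk_grid`: on the event on the left the two paths either share a cell (`gswap` gives the second term) or their sets of cells `{(r i, i) | i ∈ Ico a c}`, `{(r' i, i) | i ∈ Ico a' c'}` are disjoint: apply `bk_fin` with `E = Fin n × Fin M` to the law of the weights
(`iIndepFun_iff_map_fun_eq_pi_map`; only the restriction of `r` to `[a, c)` matters, so the sets of paths are finite: `𝒜` = all subsets of `E` of the form {cells of a path from `a` to `c`} with threshold `α`, `ℬ` similarly with `γ q`).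
-/

set_option autoImplicit false

open MeasureTheory ProbabilityTheory Filter Topology

namespace Pool.Agent.DLM

/-- `r` is a path from column `a` to column `c` with rows `< n` -/
def gpath (n a c : ℕ) (r : ℕ → ℕ) : Prop :=
  (∀ j, a ≤ j → j < c → r j < n) ∧ ∀ j j', a ≤ j → j ≤ j' → j' < c → r j' ≤ r j

/-- weight of a path -/
def gw (x : ℕ → ℕ → ℝ) (a c : ℕ) (r : ℕ → ℕ) : ℝ := ∑ j ∈ Finset.Ico a c, x (r j) j

theorem gswap {n a c a' c' : ℕ} {r r' : ℕ → ℕ} (hr : gpath n a c r) (hr' : gpath n a' c' r') (x : ℕ → ℕ → ℝ) (j : ℕ)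
    (h1 : a ≤ j) (h2 : j < c) (h3 : a' ≤ j) (h4 : j < c') (h : r j = r' j) :
    ∃ s s' : ℕ → ℕ, gpath n a c' s ∧ gpath n a' c s' ∧ gw x a c' s + gw x a' c s' = gw x a c r + gw x a' c' r' := by
  have hpath : ∀ {a c a' c' : ℕ} {r r' : ℕ → ℕ}, gpath n a c r → gpath n a' c' r' → a ≤ j → j < c → a' ≤ j →
      j < c' → r j = r' j → gpath n a c' (fun i => if i ≤ j then r i else r' i) := by
    intro a c a' c' r r' hr hr' h1 h2 h3 h4 h
    constructor
    · intro i h5 h6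
      by_cases hi : i ≤ j
      · simp only [hi, if_true]
        exact hr.1 i h5 (by omega)
      · simp only [hi, if_false]
        exact hr'.1 i (by omega) h6
    · intro i i' h5 h6 h7
      by_cases hi : i' ≤ j
      · have hi2 : i ≤ j := by omega
        simp only [hi, hi2, if_true]
        exact hr.2 i i' h5 h6 (by omega)
      · by_cases hi2 : i ≤ j
        · simp only [hi, hi2, if_true, if_false]
          have e1 := hr.2 i j h5 hi2 h2
          have e2 := hr'.2 j i' h3 (by omega) h7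
          omega
        · simp only [hi, hi2, if_false]
          exact hr'.2 i i' (by omega) h6 h7
  have hsum : ∀ {a c : ℕ} {r r' : ℕ → ℕ}, a ≤ j → j < c →
      gw x a c (fun i => if i ≤ j then r i else r' i) =
        ∑ i ∈ Finset.Ico a (j + 1), x (r i) i + ∑ i ∈ Finset.Ico (j + 1) c, x (r' i) i := by
    intro a c r r' h1 h2
    unfold gw
    rw [← Finset.sum_Ico_consecutive _ (show a ≤ j + 1 by omega) (show j + 1 ≤ c by omega)]
    congr 1
    · refine Finset.sum_congr rfl fun i hi => ?_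
      rw [Finset.mem_Ico] at hi
      show x (if i ≤ j then r i else r' i) i = x (r i) i
      rw [if_pos (show i ≤ j by omega)]
    · refine Finset.sum_congr rfl fun i hi => ?_
      rw [Finset.mem_Ico] at hi
      show x (if i ≤ j then r i else r' i) i = x (r' i) i
      rw [if_neg (show ¬ i ≤ j by omega)]
  have hself : ∀ {a c : ℕ} {r : ℕ → ℕ}, a ≤ j → j < c →
      gw x a c r =
        ∑ i ∈ Finset.Ico a (j + 1), x (r i) i + ∑ i ∈ Finset.Ico (j + 1) c, x (r i) i := by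
    intro a c r h1 h2
    unfold gw
    rw [← Finset.sum_Ico_consecutive _ (show a ≤ j + 1 by omega) (show j + 1 ≤ c by omega)]
  refine ⟨fun i => if i ≤ j then r i else r' i, fun i => if i ≤ j then r' i else r i,
    hpath hr hr' h1 h2 h3 h4 h, hpath hr' hr h3 h4 h1 h2 h.symm, ?_⟩
  rw [hsum h1 h4, hsum h3 h2, hself h1 h2, hself h3 h4]
  ring

/-- the cells of a path -/
private def bkgC (n M a c : ℕ) (r : ℕ → ℕ) : Finset (Fin n × Fin M) :=
  Finset.univ.filter fun e => a ≤ (e.2 : ℕ) ∧ (e.2 : ℕ) < c ∧ r e.2 = e.1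

private lemma bkg_sum {n M a c : ℕ} {r : ℕ → ℕ} (hr : gpath n a c r) (hc : c ≤ M) (x : ℕ → ℕ → ℝ) :
    ∑ e ∈ bkgC n M a c r, x e.1 e.2 = gw x a c r := by
  unfold gw
  refine Finset.sum_bij (fun e _ => (e.2 : ℕ)) ?_ ?_ ?_ ?_
  · intro e he
    rw [bkgC, Finset.mem_filter] at he
    rw [Finset.mem_Ico]
    exact ⟨he.2.1, he.2.2.1⟩
  · intro e he e' he' hee
    rw [bkgC, Finset.mem_filter] at he he'
    have h2 : e.2 = e'.2 := Fin.ext hee
    have h1 : e.1 = e'.1 := by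
      apply Fin.ext
      rw [← he.2.2.2, ← he'.2.2.2, h2]
    exact Prod.ext h1 h2
  · intro j hj
    rw [Finset.mem_Ico] at hj
    refine ⟨(⟨r j, hr.1 j hj.1 hj.2⟩, ⟨j, lt_of_lt_of_le hj.2 hc⟩), ?_, rfl⟩
    rw [bkgC, Finset.mem_filter]
    exact ⟨Finset.mem_univ _, hj.1, hj.2, rfl⟩
  · intro e he
    rw [bkgC, Finset.mem_filter] at he
    show x e.1 e.2 = x (r e.2) e.2
    rw [he.2.2.2]

private lemma bkg_disj {n M a c a' c' : ℕ} {r r' : ℕ → ℕ}
    (h : ∀ j, a ≤ j → j < c → a' ≤ j → j < c' → r j ≠ r' j) :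
    Disjoint (bkgC n M a c r) (bkgC n M a' c' r') := by
  rw [Finset.disjoint_left]
  intro e he he'
  rw [bkgC, Finset.mem_filter] at he he'
  exact h e.2 he.2.1 he.2.2.1 he'.2.1 he'.2.2.1 (he.2.2.2.trans he'.2.2.2.symm)

private lemma bkg_meas {E : Type*} [Fintype E] (𝒜 : Finset (Finset E × ℝ)) :
    MeasurableSet {w : E → ℝ | ∃ A ∈ 𝒜, A.2 ≤ ∑ e ∈ A.1, w e} := by
  have e : {w : E → ℝ | ∃ A ∈ 𝒜, A.2 ≤ ∑ e ∈ A.1, w e} = ⋃ A ∈ 𝒜, {w : E → ℝ | A.2 ≤ ∑ e ∈ A.1, w e} := by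
    ext w
    simp only [Set.mem_iUnion, exists_prop]
    rfl
  rw [e]
  exact Finset.measurableSet_biUnion _ fun A _ => measurableSet_le measurable_const
    (Finset.measurable_sum _ fun x _ => measurable_pi_apply x)

private lemma bkg_meas2 {E : Type*} [Fintype E] [DecidableEq E] (𝒜 ℬ : Finset (Finset E × ℝ)) :
    MeasurableSet {w : E → ℝ | ∃ A ∈ 𝒜, ∃ B ∈ ℬ, Disjoint A.1 B.1 ∧ A.2 ≤ ∑ e ∈ A.1, w e ∧
      B.2 ≤ ∑ e ∈ B.1, w e} := by
  have e : {w : E → ℝ | ∃ A ∈ 𝒜, ∃ B ∈ ℬ, Disjoint A.1 B.1 ∧ A.2 ≤ ∑ e ∈ A.1, w e ∧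
      B.2 ≤ ∑ e ∈ B.1, w e} = ⋃ A ∈ 𝒜, ⋃ B ∈ ℬ, {_w : E → ℝ | Disjoint A.1 B.1} ∩
        ({w : E → ℝ | A.2 ≤ ∑ e ∈ A.1, w e} ∩ {w : E → ℝ | B.2 ≤ ∑ e ∈ B.1, w e}) := by
    ext w
    simp only [Set.mem_iUnion, exists_prop]
    rfl
  rw [e]
  refine Finset.measurableSet_biUnion _ fun A _ => Finset.measurableSet_biUnion _ fun B _ => ?_
  exact (MeasurableSet.const _).inter ((measurableSet_le measurable_const
    (Finset.measurable_sum _ fun x _ => measurable_pi_apply x)).inter (measurableSet_le measurable_const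
    (Finset.measurable_sum _ fun x _ => measurable_pi_apply x)))

theorem bk_grid {Ω : Type*} [MeasurableSpace Ω] {P : Measure Ω} [IsProbabilityMeasure P] (ξ : ℕ → ℕ → Ω → ℝ)
    (hm : ∀ i j, Measurable (ξ i j)) (hi : iIndepFun (fun (p : ℕ × ℕ) ω => ξ p.1 p.2 ω) P) (n M a c : ℕ) (hc : c ≤ M)
    (F : Finset (ℕ × ℕ)) (hF : ∀ q ∈ F, q.2 ≤ M) (α : ℝ) (γ : ℕ × ℕ → ℝ) :
    P {ω | (∃ r, gpath n a c r ∧ α ≤ gw (fun i j => ξ i j ω) a c r) ∧
        ∃ q ∈ F, ∃ r, gpath n q.1 q.2 r ∧ γ q ≤ gw (fun i j => ξ i j ω) q.1 q.2 r} ≤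
      P {ω | ∃ r, gpath n a c r ∧ α ≤ gw (fun i j => ξ i j ω) a c r} *
        P {ω | ∃ q ∈ F, ∃ r, gpath n q.1 q.2 r ∧ γ q ≤ gw (fun i j => ξ i j ω) q.1 q.2 r} +
      P {ω | ∃ q ∈ F, ∃ s s', gpath n a q.2 s ∧ gpath n q.1 c s' ∧
        α + γ q ≤ gw (fun i j => ξ i j ω) a q.2 s + gw (fun i j => ξ i j ω) q.1 c s'} := by
  classical
  let E := Fin n × Fin M
  let Z : Ω → E → ℝ := fun ω e => ξ e.1 e.2 ω
  have hZ : Measurable Z := measurable_pi_iff.2 fun e => hm _ _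
  let μ : E → Measure ℝ := fun e => P.map (ξ e.1 e.2)
  have : ∀ e, IsProbabilityMeasure (μ e) := fun e =>
    Measure.isProbabilityMeasure_map (hm _ _).aemeasurable
  have hlaw : P.map Z = Measure.pi μ := by
    have hinj : Function.Injective (fun e : E => ((e.1 : ℕ), (e.2 : ℕ))) := by
      intro e e' hee
      have h1 := congrArg Prod.fst hee
      have h2 := congrArg Prod.snd hee
      exact Prod.ext (Fin.ext h1) (Fin.ext h2)
    have h1 := hi.precomp hinj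
    exact (iIndepFun_iff_map_fun_eq_pi_map (fun e => (hm _ _).aemeasurable)).1 h1
  let 𝒜 : Finset (Finset E × ℝ) :=
    (Finset.univ.filter fun A : Finset E => ∃ r, gpath n a c r ∧ A = bkgC n M a c r).image fun A => (A, α)
  let ℬ : Finset (Finset E × ℝ) := F.biUnion fun q =>
    (Finset.univ.filter fun A : Finset E => ∃ r, gpath n q.1 q.2 r ∧ A = bkgC n M q.1 q.2 r).image fun A => (A, γ q)
  have hA1 : ∀ A : Finset E × ℝ, A ∈ 𝒜 ↔ ∃ r, gpath n a c r ∧ A = (bkgC n M a c r, α) := by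
    intro A
    simp only [𝒜, Finset.mem_image, Finset.mem_filter, Finset.mem_univ, true_and]
    constructor
    · rintro ⟨A', ⟨r, hr, rfl⟩, rfl⟩
      exact ⟨r, hr, rfl⟩
    · rintro ⟨r, hr, rfl⟩
      exact ⟨_, ⟨r, hr, rfl⟩, rfl⟩
  have hB1 : ∀ A : Finset E × ℝ, A ∈ ℬ ↔ ∃ q ∈ F, ∃ r, gpath n q.1 q.2 r ∧ A = (bkgC n M q.1 q.2 r, γ q) := by
    intro A
    simp only [ℬ, Finset.mem_biUnion, Finset.mem_image, Finset.mem_filter, Finset.mem_univ, true_and]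
    constructor
    · rintro ⟨q, hq, A', ⟨r, hr, rfl⟩, rfl⟩
      exact ⟨q, hq, r, hr, rfl⟩
    · rintro ⟨q, hq, r, hr, rfl⟩
      exact ⟨q, hq, _, ⟨r, hr, rfl⟩, rfl⟩
  have hsum : ∀ (ω : Ω) (a c : ℕ) (r : ℕ → ℕ), gpath n a c r → c ≤ M →
      ∑ e ∈ bkgC n M a c r, Z ω e = gw (fun i j => ξ i j ω) a c r := fun ω a c r hr hc =>
    bkg_sum hr hc (fun i j => ξ i j ω)
  have eA : {ω | ∃ r, gpath n a c r ∧ α ≤ gw (fun i j => ξ i j ω) a c r} =
      Z ⁻¹' {w | ∃ A ∈ 𝒜, A.2 ≤ ∑ e ∈ A.1, w e} := by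
    ext ω
    constructor
    · rintro ⟨r, hr, h⟩
      refine ⟨_, (hA1 _).2 ⟨r, hr, rfl⟩, ?_⟩
      show α ≤ ∑ e ∈ bkgC n M a c r, Z ω e
      rw [hsum ω a c r hr hc]
      exact h
    · rintro ⟨A, hA, h⟩
      obtain ⟨r, hr, rfl⟩ := (hA1 _).1 hA
      refine ⟨r, hr, ?_⟩
      rw [← hsum ω a c r hr hc]
      exact h
  have eB : {ω | ∃ q ∈ F, ∃ r, gpath n q.1 q.2 r ∧ γ q ≤ gw (fun i j => ξ i j ω) q.1 q.2 r} =
      Z ⁻¹' {w | ∃ B ∈ ℬ, B.2 ≤ ∑ e ∈ B.1, w e} := by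
    ext ω
    constructor
    · rintro ⟨q, hq, r, hr, h⟩
      refine ⟨_, (hB1 _).2 ⟨q, hq, r, hr, rfl⟩, ?_⟩
      show γ q ≤ ∑ e ∈ bkgC n M q.1 q.2 r, Z ω e
      rw [hsum ω _ _ r hr (hF q hq)]
      exact h
    · rintro ⟨A, hA, h⟩
      obtain ⟨q, hq, r, hr, rfl⟩ := (hB1 _).1 hA
      refine ⟨q, hq, r, hr, ?_⟩
      rw [← hsum ω _ _ r hr (hF q hq)]
      exact h
  have hbk := bk_fin μ 𝒜 ℬ
  rw [← hlaw, Measure.map_apply hZ (bkg_meas2 𝒜 ℬ), Measure.map_apply hZ (bkg_meas 𝒜),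
    Measure.map_apply hZ (bkg_meas ℬ), ← eA, ← eB] at hbk
  refine le_trans ?_ (add_le_add_left hbk _)
  refine le_trans (measure_mono ?_) (measure_union_le _ _)
  rintro ω ⟨⟨r, hr, h1⟩, q, hq, r', hr', h2⟩
  by_cases hsh : ∃ j, a ≤ j ∧ j < c ∧ q.1 ≤ j ∧ j < q.2 ∧ r j = r' j
  · right
    obtain ⟨j, j1, j2, j3, j4, j5⟩ := hsh
    obtain ⟨s, s', hs, hs', hss⟩ := gswap hr hr' (fun i j => ξ i j ω) j j1 j2 j3 j4 j5
    exact ⟨q, hq, s, s', hs, hs', by rw [hss]; exact add_le_add h1 h2⟩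
  · left
    refine ⟨_, (hA1 _).2 ⟨r, hr, rfl⟩, _, (hB1 _).2 ⟨q, hq, r', hr', rfl⟩, ?_, ?_, ?_⟩
    · exact bkg_disj fun j j1 j2 j3 j4 j5 => hsh ⟨j, j1, j2, j3, j4, j5⟩
    · show α ≤ ∑ e ∈ bkgC n M a c r, Z ω e
      rw [hsum ω a c r hr hc]
      exact h1
    · show γ q ≤ ∑ e ∈ bkgC n M q.1 q.2 r', Z ω e
      rw [hsum ω _ _ r' hr' (hF q hq)]
      exact h2

end Pool.Agent.DLM
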