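import Pool.Agent.DLM.GRA

/-!
# DLM/BKL: BK inequality for Brownian last passage percolation (100-150 lines)

Let `E` be the finite set of all endpoints (`x₀, y₀`, `q.1, q.2` for `q ∈ F`).  For a fine grid `τ_0 < .. < τ_M` containing `E` and `δ > 0` small (`(5 n + 1) δ' ≤ δ`), the event `G` that all lines `i < n` oscillate by at most `δ'` in all cells has probability `≥ 1 - η` (continuity of the paths on a compact interval).
Weights `ξ i j = B i (τ (j+1)) - B i (τ j)` are independent (independence of the lines and `IsBM.indep`).  On `G`: `lpp ≥ α` implies a grid path of weight `≥ α - δ` (`gra_ge`), and grid weights are `≤ lpp` (`gra_le`).  So by `bk_grid` with thresholds `α - δ`, `γ q - δ`: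
`P(LHS) ≤ P(grid event) + η ≤ .. ≤ RHS + η`.  Let `η → 0` (δ fixed).  The grid indices: choose the sequence `τ : ℕ → ℝ` monotone, containing `E` (e.g. sort the finite set `E ∪ {uniform grid}`, constant after the end), `F` is mapped to pairs of indices; several `q` may give the same pair of indices
only if they are equal.
-/

set_option autoImplicit false

open MeasureTheory ProbabilityTheory Filter Topology

namespace Pool.Agent.DLM

private theorem bkl_enum (E : Finset ℝ) (hE : E.Nonempty) : ∃ (e : ℕ → ℝ) (idx : ℝ → ℕ), Monotone e ∧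
    (∀ x ∈ E, e (idx x) = x) ∧ (∀ x ∈ E, ∀ y ∈ E, x ≤ y → idx x ≤ idx y) ∧ (∀ x, idx x ≤ E.card) ∧ ∀ j, e j ∈ E := by
  classical
  have hc : 0 < E.card := Finset.card_pos.mpr hE
  set φ := E.orderIsoOfFin rfl with hφ
  refine ⟨fun j => (φ ⟨min j (E.card - 1), by omega⟩ : ℝ), fun x => if h : x ∈ E then (φ.symm ⟨x, h⟩ : ℕ) else 0,
    ?_, ?_, ?_, ?_, ?_⟩
  · intro i j hij
    simp only [Subtype.coe_le_coe, OrderIso.le_iff_le, Fin.mk_le_mk]
    exact min_le_min hij le_rfl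
  · intro x hx
    simp only [hx, dif_pos]
    have h1 : (⟨min ((φ.symm ⟨x, hx⟩ : Fin E.card) : ℕ) (E.card - 1), by omega⟩ : Fin E.card) = φ.symm ⟨x, hx⟩ := by
      apply Fin.ext
      have := (φ.symm ⟨x, hx⟩).2
      simp only
      omega
    rw [h1, OrderIso.apply_symm_apply]
  · intro x hx y hy hxy
    simp only [hx, hy, dif_pos, Fin.val_fin_le, OrderIso.le_iff_le, Subtype.mk_le_mk]
    exact hxy
  · intro x
    by_cases h : x ∈ E
    · simp only [h, dif_pos]
      exact (φ.symm ⟨x, h⟩).2.le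
    · simp [h]
  · intro j
    exact (φ _).2

private noncomputable def tg (e : ℕ → ℝ) (N : ℕ) (j : ℕ) : ℝ :=
  e (j / N) + ((j % N : ℕ) : ℝ) / N * (e (j / N + 1) - e (j / N))

private theorem tg_step (e : ℕ → ℝ) {N : ℕ} (hN : 0 < N) (j : ℕ) :
    tg e N (j + 1) = tg e N j + (e (j / N + 1) - e (j / N)) / N := by
  have hN' : (N : ℝ) ≠ 0 := by exact_mod_cast hN.ne'
  have h1 := Nat.div_add_mod j N
  have h2 := Nat.mod_lt j hN
  unfold tg
  by_cases h : j % N + 1 < N
  · have e1 : (j + 1) / N = j / N := by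
      rw [Nat.div_eq_iff hN]
      have : N * (j / N) = j / N * N := mul_comm _ _
      constructor <;> omega
    have e2 : (j + 1) % N = j % N + 1 := by
      have := Nat.div_add_mod (j + 1) N
      rw [e1] at this
      omega
    rw [e1, e2]
    push_cast
    field_simp
    ring
  · have h3 : j % N + 1 = N := by omega
    have e0 : j + 1 = N * (j / N + 1) := by
      rw [mul_add, mul_one]
      omega
    have e1 : (j + 1) / N = j / N + 1 := by
      rw [e0, Nat.mul_div_cancel_left _ hN]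
    have e2 : (j + 1) % N = 0 := by
      rw [e0]
      exact Nat.mul_mod_right _ _
    have e3 : ((j % N : ℕ) : ℝ) = N - 1 := by
      rw [eq_sub_iff_add_eq]
      exact_mod_cast h3
    rw [e1, e2, e3]
    push_cast
    field_simp
    ring

private theorem tg_mono {e : ℕ → ℝ} (he : Monotone e) {N : ℕ} (hN : 0 < N) : Monotone (tg e N) := by
  refine monotone_nat_of_le_succ fun j => ?_
  rw [tg_step e hN]
  have h1 : 0 ≤ (e (j / N + 1) - e (j / N)) / N := div_nonneg (sub_nonneg.mpr (he (Nat.le_succ _))) (Nat.cast_nonneg _)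
  linarith

private theorem tg_mul (e : ℕ → ℝ) {N : ℕ} (hN : 0 < N) (k : ℕ) : tg e N (N * k) = e k := by
  unfold tg
  rw [Nat.mul_div_cancel_left _ hN, Nat.mul_mod_right]
  simp

private theorem bkl_osc {Ω : Type*} [MeasurableSpace Ω] {P : Measure Ω} [IsProbabilityMeasure P] {X : ℝ → Ω → ℝ}
    (hX : IsBM P X 1 0) (lo hi δ : ℝ) (η : ENNReal) (hη : 0 < η) : ∃ h : ℝ, 0 < h ∧
    P {ω | ¬ ∀ s s', lo ≤ s → s ≤ hi → lo ≤ s' → s' ≤ hi → |s - s'| < h → |X s ω - X s' ω| ≤ δ} ≤ η ∨ ¬ 0 < δ := by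
  by_cases hδ : 0 < δ
  swap
  · exact ⟨1, Or.inr hδ⟩
  set A : ℕ → Set Ω := fun m => {ω | ∀ s s' : ℚ, lo - 1 < s → (s : ℝ) < hi + 1 → lo - 1 < s' → (s' : ℝ) < hi + 1 →
    |(s : ℝ) - s'| < 1 / ((m : ℝ) + 1) → |X s ω - X s' ω| ≤ δ} with hA
  have hAm : ∀ m, MeasurableSet (A m) := by
    intro m
    simp only [hA, Set.ofPred_forall]
    refine MeasurableSet.iInter fun s => MeasurableSet.iInter fun s' => MeasurableSet.iInter fun _ =>
      MeasurableSet.iInter fun _ => MeasurableSet.iInter fun _ => MeasurableSet.iInter fun _ =>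
      MeasurableSet.iInter fun _ => ?_
    exact measurableSet_le (((hX.meas s).sub (hX.meas s')).abs) measurable_const
  have hanti : Antitone fun m => (A m)ᶜ := by
    intro m m' hmm
    refine Set.compl_subset_compl.mpr ?_
    intro ω hω s s' h1 h2 h3 h4 h5
    refine hω s s' h1 h2 h3 h4 (h5.trans_le ?_)
    apply one_div_le_one_div_of_le (by positivity)
    have : (m : ℝ) ≤ m' := by exact_mod_cast hmm
    linarith
  have hnull : P (⋂ m, (A m)ᶜ) = 0 := by
    refine measure_mono_null ?_ (ae_iff.mp hX.cont)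
    intro ω hω hc
    simp only [Set.mem_iInter, Set.mem_compl_iff] at hω
    have huc : UniformContinuousOn (fun t => X t ω) (Set.Icc (lo - 1) (hi + 1)) :=
      isCompact_Icc.uniformContinuousOn_of_continuous hc.continuousOn
    rw [Metric.uniformContinuousOn_iff] at huc
    obtain ⟨d, hd, hd'⟩ := huc δ hδ
    obtain ⟨m, hm⟩ := exists_nat_one_div_lt hd
    refine hω m ?_
    intro s s' h1 h2 h3 h4 h5
    have := hd' s ⟨h1.le, h2.le⟩ s' ⟨h3.le, h4.le⟩ (by rw [Real.dist_eq]; exact h5.trans hm)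
    rw [Real.dist_eq] at this
    exact this.le
  have hlim := tendsto_measure_iInter_atTop (μ := P) (fun m => (hAm m).compl.nullMeasurableSet) hanti
    ⟨0, measure_ne_top _ _⟩
  rw [hnull] at hlim
  obtain ⟨m, hm⟩ := (hlim.eventually (gt_mem_nhds hη)).exists
  refine ⟨1 / ((m : ℝ) + 1), Or.inl ⟨by positivity, ?_⟩⟩
  refine (measure_mono_ae ?_).trans hm.le
  filter_upwards [hX.cont] with ω hc hbad
  intro hω
  apply hbad
  intro s s' h1 h2 h3 h4 h5
  by_contra hcon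
  rw [not_le] at hcon
  set U : Set (ℝ × ℝ) := {p | lo - 1 < p.1 ∧ p.1 < hi + 1 ∧ lo - 1 < p.2 ∧ p.2 < hi + 1 ∧
    |p.1 - p.2| < 1 / ((m : ℝ) + 1) ∧ δ < |X p.1 ω - X p.2 ω|} with hU
  have hUo : IsOpen U := by
    have c1 : Continuous fun p : ℝ × ℝ => X p.1 ω := hc.comp continuous_fst
    have c2 : Continuous fun p : ℝ × ℝ => X p.2 ω := hc.comp continuous_snd
    simp only [hU, Set.ofPred_and]
    exact (isOpen_lt continuous_const continuous_fst).inter ((isOpen_lt continuous_fst continuous_const).inter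
      ((isOpen_lt continuous_const continuous_snd).inter ((isOpen_lt continuous_snd continuous_const).inter
      ((isOpen_lt (continuous_fst.sub continuous_snd).abs continuous_const).inter
        (isOpen_lt continuous_const (c1.sub c2).abs)))))
  have hUn : U.Nonempty := ⟨(s, s'), by linarith, by linarith, by linarith, by linarith, h5, hcon⟩
  have hdense : DenseRange (Prod.map (Rat.cast : ℚ → ℝ) (Rat.cast : ℚ → ℝ)) :=
    Rat.denseRange_cast.prodMap Rat.denseRange_cast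
  obtain ⟨⟨p, q⟩, hp⟩ := hdense.exists_mem_open hUo hUn
  obtain ⟨g1, g2, g3, g4, g5, g6⟩ := hp
  have := hω p q g1 g2 g3 g4 g5
  simp only [Prod.map_apply] at g6
  linarith

private theorem bkl_indep {Ω : Type*} [MeasurableSpace Ω] {P : Measure Ω} [IsProbabilityMeasure P] {B : ℕ → ℝ → Ω → ℝ}
    (hB : ∀ i, IsBM P (B i) 1 0) (hi : iIndepFun (fun (i : ℕ) (ω : Ω) (t : ℝ) => B i t ω) P) (τ : ℕ → ℝ)
    (hτ : Monotone τ) :
    iIndepFun (fun (p : ℕ × ℕ) ω => B p.1 (τ (p.2 + 1)) ω - B p.1 (τ p.2) ω) P := by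
  refine iIndepFun_uncurry' (X := fun i j ω => B i (τ (j + 1)) ω - B i (τ j) ω)
    (fun i j => ((hB i).meas _).sub ((hB i).meas _)) ?_ ?_
  · refine hi.comp (fun _ (f : ℝ → ℝ) (j : ℕ) => f (τ (j + 1)) - f (τ j)) (fun _ => ?_)
    refine measurable_pi_lambda _ fun j => ?_
    exact (measurable_pi_apply _).sub (measurable_pi_apply _)
  · intro i
    exact (hB i).indep τ hτ

theorem bk_lpp {Ω : Type*} [MeasurableSpace Ω] {P : Measure Ω} [IsProbabilityMeasure P] {B : ℕ → ℝ → Ω → ℝ}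
    (hB : ∀ i, IsBM P (B i) 1 0) (hi : iIndepFun (fun (i : ℕ) (ω : Ω) (t : ℝ) => B i t ω) P) (n : ℕ) (hn : 1 ≤ n)
    (x₀ y₀ : ℝ) (h₀ : x₀ ≤ y₀) (F : Finset (ℝ × ℝ)) (hF : ∀ q ∈ F, q.1 ≤ q.2 ∧ x₀ ≤ q.2 ∧ q.1 ≤ y₀) (α : ℝ)
    (γ : ℝ × ℝ → ℝ) (δ : ℝ) (hδ : 0 < δ) :
    P {ω | α ≤ lpp (fun i t => B i t ω) n x₀ y₀ ∧ ∃ q ∈ F, γ q ≤ lpp (fun i t => B i t ω) n q.1 q.2} ≤
      P {ω | α - δ ≤ lpp (fun i t => B i t ω) n x₀ y₀} *
        P {ω | ∃ q ∈ F, γ q - δ ≤ lpp (fun i t => B i t ω) n q.1 q.2} +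
      P {ω | ∃ q ∈ F, α + γ q - 2 * δ ≤ lpp (fun i t => B i t ω) n x₀ q.2 + lpp (fun i t => B i t ω) n q.1 y₀} := by
  classical
  set E : Finset ℝ := insert x₀ (insert y₀ (F.image Prod.fst ∪ F.image Prod.snd)) with hE
  have hx0 : x₀ ∈ E := by simp [hE]
  have hy0 : y₀ ∈ E := by simp [hE]
  have hq1 : ∀ q ∈ F, q.1 ∈ E := fun q hq => by
    simp only [hE, Finset.mem_insert, Finset.mem_union, Finset.mem_image]
    exact Or.inr (Or.inr (Or.inl ⟨q, hq, rfl⟩))
  have hq2 : ∀ q ∈ F, q.2 ∈ E := fun q hq => by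
    simp only [hE, Finset.mem_insert, Finset.mem_union, Finset.mem_image]
    exact Or.inr (Or.inr (Or.inr ⟨q, hq, rfl⟩))
  have hEne : E.Nonempty := ⟨x₀, hx0⟩
  obtain ⟨e, idx, he, hidx, hmon, hcard, hmem⟩ := bkl_enum E hEne
  set lo := E.min' hEne with hlo
  set hh := E.max' hEne with hhh
  have hlo' : ∀ j, lo ≤ e j := fun j => E.min'_le _ (hmem j)
  have hhi' : ∀ j, e j ≤ hh := fun j => E.le_max' _ (hmem j)
  refine ENNReal.le_of_forall_pos_le_add fun η hη _ => ?_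
  have hn0 : (0 : ℝ) < n := by exact_mod_cast hn
  set δ' : ℝ := δ / (5 * n + 1) with hδ'
  have hδ'0 : 0 < δ' := by positivity
  have hδ'' : 5 * n * δ' + δ' = δ := by
    rw [hδ']
    field_simp
  have hηn : (0 : ENNReal) < (η : ENNReal) / n :=
    ENNReal.div_pos (by exact_mod_cast hη.ne') (ENNReal.natCast_ne_top n)
  have hosc : ∀ i, ∃ h : ℝ, 0 < h ∧
      P {ω | ¬ ∀ s s', lo ≤ s → s ≤ hh → lo ≤ s' → s' ≤ hh → |s - s'| < h → |B i s ω - B i s' ω| ≤ δ'} ≤
        (η : ENNReal) / n := by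
    intro i
    obtain ⟨h, h1 | h1⟩ := bkl_osc (hB i) lo hh δ' _ hηn
    · exact ⟨h, h1⟩
    · exact absurd hδ'0 h1
  choose h hh0 hhP using hosc
  obtain ⟨N, hNh, hN⟩ : ∃ N : ℕ, (∀ i ∈ Finset.range n, (hh - lo) / N < h i) ∧ 0 < N := by
    have h1 : ∀ i ∈ Finset.range n, ∀ᶠ N : ℕ in atTop, (hh - lo) / (N : ℝ) < h i := by
      intro i _
      exact (tendsto_const_div_atTop_nhds_zero_nat (hh - lo)).eventually (gt_mem_nhds (hh0 i))
    have h2 := (Filter.eventually_all_finset (Finset.range n)).mpr h1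
    exact (h2.and (eventually_gt_atTop 0)).exists
  set τ : ℕ → ℝ := tg e N with hτ
  have hτm : Monotone τ := tg_mono he hN
  have hτi : ∀ x ∈ E, τ (N * idx x) = x := fun x hx => by rw [hτ, tg_mul e hN, hidx x hx]
  have hN0 : (0 : ℝ) < N := by exact_mod_cast hN
  have hτlo : ∀ j, lo ≤ τ j := by
    intro j
    have h1 : τ (N * 0) ≤ τ j := hτm (by omega)
    rw [hτ, tg_mul e hN] at h1
    exact (hlo' 0).trans h1
  have hτhi : ∀ j, τ j ≤ hh := by
    intro j
    have h1 : τ j ≤ τ (N * (j / N + 1)) := hτm (by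
      have := Nat.div_add_mod j N
      have := Nat.mod_lt j hN
      rw [mul_add]
      omega)
    rw [hτ, tg_mul e hN] at h1
    exact h1.trans (hhi' _)
  have hτmesh : ∀ i < n, ∀ j, τ (j + 1) - τ j < h i := by
    intro i hi j
    have h1 := tg_step e hN j
    have h2 := hNh i (Finset.mem_range.mpr hi)
    have h3 : (e (j / N + 1) - e (j / N)) / (N : ℝ) ≤ (hh - lo) / N := by
      gcongr
      · exact hhi' _
      · exact hlo' _
    rw [← hτ] at h1
    linarith
  set bad : Set Ω := ⋃ i ∈ Finset.range n, {ω | ¬ ∀ s s', lo ≤ s → s ≤ hh → lo ≤ s' → s' ≤ hh → |s - s'| < h i →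
    |B i s ω - B i s' ω| ≤ δ'} with hbad
  have hbadP : P bad ≤ η := by
    refine (measure_biUnion_finset_le _ _).trans ?_
    refine (Finset.sum_le_sum fun i _ => hhP i).trans ?_
    rw [Finset.sum_const, Finset.card_range, nsmul_eq_mul]
    rw [ENNReal.mul_div_cancel (by exact_mod_cast (show n ≠ 0 by omega)) (ENNReal.natCast_ne_top n)]
  have hcont : ∀ᵐ ω ∂P, ∀ i, Continuous fun t => B i t ω := ae_all_iff.mpr fun i => (hB i).cont
  set M : ℕ := N * E.card with hM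
  have hMi : ∀ x, N * idx x ≤ M := fun x => Nat.mul_le_mul le_rfl (hcard x)
  set F' : Finset (ℕ × ℕ) := F.image (fun q => (N * idx q.1, N * idx q.2)) with hF'
  set γ' : ℕ × ℕ → ℝ := fun p => γ (τ p.1, τ p.2) - δ with hγ'
  have hγq : ∀ q ∈ F, γ' (N * idx q.1, N * idx q.2) = γ q - δ := by
    intro q hq
    simp only [hγ', hτi _ (hq1 q hq), hτi _ (hq2 q hq)]
  have hgrid := bk_grid (fun i j ω => B i (τ (j + 1)) ω - B i (τ j) ω)
    (fun i j => ((hB i).meas _).sub ((hB i).meas _)) (bkl_indep hB hi τ hτm) n M (N * idx x₀) (N * idx y₀) (hMi _)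
    F' (by
      intro q hq
      rw [hF', Finset.mem_image] at hq
      obtain ⟨q', _, rfl⟩ := hq
      exact hMi _) (α - δ) γ'
  -- good event: approximation from below
  have hlow : ∀ ω, (∀ i, Continuous fun t => B i t ω) → ω ∉ bad → ∀ x ∈ E, ∀ y ∈ E, x ≤ y →
      ∃ r, gpath n (N * idx x) (N * idx y) r ∧ lpp (fun i t => B i t ω) n x y - δ ≤
        gw (fun i j => B i (τ (j + 1)) ω - B i (τ j) ω) (N * idx x) (N * idx y) r := by
    intro ω hc hω x hx y hy hxy
    obtain ⟨r, hr, hr'⟩ := gra_ge (B := fun i t => B i t ω) hc n hn τ hτm (a := N * idx x) (c := N * idx y)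
      (Nat.mul_le_mul le_rfl (hmon x hx y hy hxy)) δ' (by
        intro i hi j _ _ s hs1 hs2
        simp only [hbad, Set.mem_iUnion, not_exists, Finset.mem_range, Set.mem_ofPred_eq, not_not] at hω
        refine hω i hi s (τ j) ((hτlo j).trans hs1) (hs2.trans (hτhi _)) (hτlo j) (hτhi j) ?_
        rw [abs_of_nonneg (by linarith)]
        have := hτmesh i hi j
        linarith) hδ'0.le
    rw [hτi x hx, hτi y hy] at hr'
    refine ⟨r, hr, ?_⟩
    linarith
  have hup : ∀ ω, (∀ i, Continuous fun t => B i t ω) → ∀ x ∈ E, ∀ y ∈ E, x ≤ y → ∀ r,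
      gpath n (N * idx x) (N * idx y) r →
        gw (fun i j => B i (τ (j + 1)) ω - B i (τ j) ω) (N * idx x) (N * idx y) r ≤
          lpp (fun i t => B i t ω) n x y := by
    intro ω hc x hx y hy hxy r hr
    have := gra_le (B := fun i t => B i t ω) hc n hn τ hτm (a := N * idx x) (c := N * idx y)
      (Nat.mul_le_mul le_rfl (hmon x hx y hy hxy)) r hr
    rwa [hτi x hx, hτi y hy] at this
  have h1 : P {ω | α ≤ lpp (fun i t => B i t ω) n x₀ y₀ ∧ ∃ q ∈ F, γ q ≤ lpp (fun i t => B i t ω) n q.1 q.2} ≤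
      P {ω | (∃ r, gpath n (N * idx x₀) (N * idx y₀) r ∧ α - δ ≤
          gw (fun i j => (fun i j ω => B i (τ (j + 1)) ω - B i (τ j) ω) i j ω) (N * idx x₀) (N * idx y₀) r) ∧
        ∃ q ∈ F', ∃ r, gpath n q.1 q.2 r ∧ γ' q ≤
          gw (fun i j => (fun i j ω => B i (τ (j + 1)) ω - B i (τ j) ω) i j ω) q.1 q.2 r} + η := by
    refine (measure_mono_ae ?_).trans ((measure_union_le _ bad).trans (add_le_add le_rfl hbadP))
    filter_upwards [hcont] with ω hc hω
    by_cases hb : ω ∈ bad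
    · exact Or.inr hb
    · refine Or.inl ⟨?_, ?_⟩
      · obtain ⟨r, hr, hr'⟩ := hlow ω hc hb x₀ hx0 y₀ hy0 h₀
        have h5 : α ≤ lpp (fun i t => B i t ω) n x₀ y₀ := hω.1
        exact ⟨r, hr, by linarith⟩
      · obtain ⟨q, hq, hq'⟩ := hω.2
        obtain ⟨r, hr, hr'⟩ := hlow ω hc hb q.1 (hq1 q hq) q.2 (hq2 q hq) (hF q hq).1
        refine ⟨(N * idx q.1, N * idx q.2), Finset.mem_image_of_mem _ hq, r, hr, ?_⟩
        rw [hγq q hq]
        linarith
  have h2 : P {ω | ∃ r, gpath n (N * idx x₀) (N * idx y₀) r ∧ α - δ ≤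
      gw (fun i j => (fun i j ω => B i (τ (j + 1)) ω - B i (τ j) ω) i j ω) (N * idx x₀) (N * idx y₀) r} ≤
      P {ω | α - δ ≤ lpp (fun i t => B i t ω) n x₀ y₀} := by
    refine measure_mono_ae ?_
    filter_upwards [hcont] with ω hc hω
    obtain ⟨r, hr, hr'⟩ := hω
    exact hr'.trans (hup ω hc x₀ hx0 y₀ hy0 h₀ r hr)
  have h3 : P {ω | ∃ q ∈ F', ∃ r, gpath n q.1 q.2 r ∧ γ' q ≤
      gw (fun i j => (fun i j ω => B i (τ (j + 1)) ω - B i (τ j) ω) i j ω) q.1 q.2 r} ≤
      P {ω | ∃ q ∈ F, γ q - δ ≤ lpp (fun i t => B i t ω) n q.1 q.2} := by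
    refine measure_mono_ae ?_
    filter_upwards [hcont] with ω hc hω
    obtain ⟨q', hq', r, hr, hr'⟩ := hω
    rw [hF', Finset.mem_image] at hq'
    obtain ⟨q, hq, rfl⟩ := hq'
    rw [hγq q hq] at hr'
    exact ⟨q, hq, hr'.trans (hup ω hc q.1 (hq1 q hq) q.2 (hq2 q hq) (hF q hq).1 r hr)⟩
  have h4 : P {ω | ∃ q ∈ F', ∃ s s', gpath n (N * idx x₀) q.2 s ∧ gpath n q.1 (N * idx y₀) s' ∧
      α - δ + γ' q ≤ gw (fun i j => (fun i j ω => B i (τ (j + 1)) ω - B i (τ j) ω) i j ω) (N * idx x₀) q.2 s +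
        gw (fun i j => (fun i j ω => B i (τ (j + 1)) ω - B i (τ j) ω) i j ω) q.1 (N * idx y₀) s'} ≤
      P {ω | ∃ q ∈ F, α + γ q - 2 * δ ≤ lpp (fun i t => B i t ω) n x₀ q.2 +
        lpp (fun i t => B i t ω) n q.1 y₀} := by
    refine measure_mono_ae ?_
    filter_upwards [hcont] with ω hc hω
    obtain ⟨q', hq', s, s', hs, hs', hr'⟩ := hω
    rw [hF', Finset.mem_image] at hq'
    obtain ⟨q, hq, rfl⟩ := hq'
    rw [hγq q hq] at hr'
    have g1 := hup ω hc x₀ hx0 q.2 (hq2 q hq) (hF q hq).2.1 s hs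
    have g2 := hup ω hc q.1 (hq1 q hq) y₀ hy0 (hF q hq).2.2 s' hs'
    refine ⟨q, hq, ?_⟩
    simp only at hr'
    linarith
  exact h1.trans (add_le_add (hgrid.trans (add_le_add (mul_le_mul' h2 h3) h4)) le_rfl)

end Pool.Agent.DLM
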