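import Pool.Agent.DLM.BKL

/-!
# DLM/BKS: BK inequality for the Airy sheet (80-120 lines)

For `n` large all endpoints `2 x n^(-1/3)`, `1 + 2 y n^(-1/3)` are in order.  `Sn x y ≥ u` iff `lpp .. ≥ u n^(-1/6) + 2 √n + 2 (y - x) n^(1/6)`; the thresholds satisfy: threshold(0,v; a) + threshold(q; c) = threshold(0, q.2) + threshold(q.1, v) for `a + c`.  `bk_lpp` with `δ n^(-1/6)` instead of `δ`, for every `ε > 0`:
`P(S 0 v ≥ a, ∃ q, S q ≥ c) ≤ P(Sn 0 v ≥ a - ε, ∃ q, Sn q ≥ c - ε) + P(error)`, `≤ P(Sn 0 v ≥ a - 2ε) P(∃ q, Sn q ≥ c - 2ε) + P(∃ q, Sn 0 q.2 + Sn q.1 v ≥ a + c - 4 ε) + o(1) ≤ P(S 0 v ≥ a - 3ε) P(∃ q, S q ≥ c - 3ε) + P(∃ q, S 0 q.2 + S q.1 v ≥ a + c - 6ε) + o(1)`.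
Let `n → ∞`, then `ε → 0` along `1/k`: continuity from above (`tendsto_measure_iInter`).
-/

set_option autoImplicit false

open MeasureTheory ProbabilityTheory Filter Topology

namespace Pool.Agent.DLM


/-- continuity from above -/
private theorem bks_lim {Ω ι : Type*} [MeasurableSpace Ω] {P : Measure Ω} [IsProbabilityMeasure P]
    (F : Finset ι) (f : ι → Ω → ℝ) (hf : ∀ q, Measurable (f q)) (c κ : ℝ) (hκ : 0 < κ) :
    Tendsto (fun k : ℕ => P {ω | ∃ q ∈ F, c - κ / ((k : ℝ) + 1) ≤ f q ω}) atTop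
      (𝓝 (P {ω | ∃ q ∈ F, c ≤ f q ω})) := by
  have hm : ∀ b : ℝ, MeasurableSet {ω | ∃ q ∈ F, b ≤ f q ω} := by
    intro b
    have h : {ω | ∃ q ∈ F, b ≤ f q ω} = ⋃ q ∈ F, {ω | b ≤ f q ω} := by
      ext ω; simp
    rw [h]
    exact Finset.measurableSet_biUnion F fun q _ => measurableSet_le measurable_const (hf q)
  have hanti : Antitone fun k : ℕ => {ω | ∃ q ∈ F, c - κ / ((k : ℝ) + 1) ≤ f q ω} := by
    intro k l hkl ω hω
    obtain ⟨q, hq, h⟩ := hω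
    refine ⟨q, hq, le_trans ?_ h⟩
    have h1 : κ / ((l : ℝ) + 1) ≤ κ / ((k : ℝ) + 1) := by
      apply div_le_div_of_nonneg_left hκ.le (by positivity)
      have : (k : ℝ) ≤ l := by exact_mod_cast hkl
      linarith
    linarith
  have hinter : (⋂ k : ℕ, {ω | ∃ q ∈ F, c - κ / ((k : ℝ) + 1) ≤ f q ω}) = {ω | ∃ q ∈ F, c ≤ f q ω} := by
    ext ω
    simp only [Set.mem_iInter, Set.mem_setOf_eq]
    constructor
    · intro h
      by_contra hno
      push Not at hno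
      have hev : ∀ᶠ k : ℕ in atTop, ∀ q ∈ F, κ / ((k : ℝ) + 1) < c - f q ω := by
        rw [Filter.eventually_all_finset]
        intro q hq
        have ht : Tendsto (fun k : ℕ => κ / ((k : ℝ) + 1)) atTop (𝓝 0) :=
          tendsto_const_div_atTop_nhds_zero_nat κ |>.comp (tendsto_add_atTop_nat 1) |>.congr
            (fun k => by simp [Function.comp])
        exact ht.eventually_lt_const (by linarith [hno q hq])
      obtain ⟨k, hk⟩ := hev.exists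
      obtain ⟨q, hq, hq2⟩ := h k
      have := hk q hq
      linarith
    · rintro ⟨q, hq, h⟩ k
      refine ⟨q, hq, ?_⟩
      have : 0 < κ / ((k : ℝ) + 1) := by positivity
      linarith
  have := tendsto_measure_iInter_atTop (μ := P) (s := fun k : ℕ => {ω | ∃ q ∈ F, c - κ / ((k : ℝ) + 1) ≤ f q ω})
    (fun k => (hm _).nullMeasurableSet) hanti ⟨0, measure_ne_top _ _⟩
  rw [hinter] at this
  exact this

private theorem bks_iff {s L m b : ℝ} (hs : 0 < s) : b ≤ s * (L - m) ↔ b / s + m ≤ L := by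
  rw [← sub_nonneg, ← sub_nonneg (b := b / s + m)]
  have h : s * (L - m) - b = s * (L - (b / s + m)) := by
    field_simp
    ring
  rw [h, mul_nonneg_iff_of_pos_left hs]

/-- the inequality for the rescaled last passage values -/
private theorem bks_n {Ω : Type*} [MeasurableSpace Ω] {P : Measure Ω} [IsProbabilityMeasure P] {B : ℕ → ℝ → Ω → ℝ}
    (hB : ∀ i, IsBM P (B i) 1 0) (hi : iIndepFun (fun (i : ℕ) (ω : Ω) (t : ℝ) => B i t ω) P) (n : ℕ) (hn : 1 ≤ n)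
    (v : ℝ) (F : Finset (ℝ × ℝ)) (K : ℝ) (hv : |v| ≤ K) (hF : ∀ q ∈ F, |q.1| ≤ K ∧ |q.2| ≤ K)
    (hK : 4 * K * (n : ℝ) ^ (-(1 / 3) : ℝ) ≤ 1) (a c ε : ℝ) (hε : 0 < ε) :
    P {ω | a ≤ Sn (fun i t => B i t ω) n 0 v ∧ ∃ q ∈ F, c ≤ Sn (fun i t => B i t ω) n q.1 q.2} ≤
      P {ω | a - ε ≤ Sn (fun i t => B i t ω) n 0 v} *
        P {ω | ∃ q ∈ F, c - ε ≤ Sn (fun i t => B i t ω) n q.1 q.2} +
      P {ω | ∃ q ∈ F, a + c - 2 * ε ≤ Sn (fun i t => B i t ω) n 0 q.2 + Sn (fun i t => B i t ω) n q.1 v} := by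
  classical
  have hn0 : (0 : ℝ) < n := by exact_mod_cast hn
  set r : ℝ := (n : ℝ) ^ (-(1 / 3) : ℝ) with hr
  set s : ℝ := (n : ℝ) ^ (1 / 6 : ℝ) with hs
  have hr0 : 0 < r := Real.rpow_pos_of_pos hn0 _
  have hs0 : 0 < s := Real.rpow_pos_of_pos hn0 _
  have hK0 : 0 ≤ K := (abs_nonneg v).trans hv
  have hord : ∀ x y : ℝ, |x| ≤ K → |y| ≤ K → 2 * x * r ≤ 1 + 2 * y * r := by
    intro x y hx hy
    obtain ⟨x1, x2⟩ := abs_le.1 hx
    obtain ⟨y1, y2⟩ := abs_le.1 hy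
    have h1 : x * r ≤ K * r := mul_le_mul_of_nonneg_right x2 hr0.le
    have h2 : -K * r ≤ y * r := mul_le_mul_of_nonneg_right y1 hr0.le
    nlinarith
  let g : ℝ × ℝ → ℝ × ℝ := fun q => (2 * q.1 * r, 1 + 2 * q.2 * r)
  let γ : ℝ × ℝ → ℝ := fun p => c / s + (2 * √(n : ℝ) + 2 * ((p.2 - 1) / (2 * r) - p.1 / (2 * r)) * s)
  have hγ : ∀ q : ℝ × ℝ, γ (g q) = c / s + (2 * √(n : ℝ) + 2 * (q.2 - q.1) * s) := by
    intro q
    show c / s + (2 * √(n : ℝ) + 2 * ((1 + 2 * q.2 * r - 1) / (2 * r) - 2 * q.1 * r / (2 * r)) * s) = _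
    have e1 : (1 + 2 * q.2 * r - 1) / (2 * r) = q.2 := by field_simp; ring
    have e2 : 2 * q.1 * r / (2 * r) = q.1 := by field_simp
    rw [e1, e2]
  have hS : ∀ (ω : Ω) (x y b : ℝ), b ≤ Sn (fun i t => B i t ω) n x y ↔
      b / s + (2 * √(n : ℝ) + 2 * (y - x) * s) ≤ lpp (fun i t => B i t ω) n (2 * x * r) (1 + 2 * y * r) := by
    intro ω x y b
    unfold Sn
    rw [← hr, ← hs, sub_sub]
    exact bks_iff hs0
  have h0 : |(0 : ℝ)| ≤ K := by rw [abs_zero]; exact hK0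
  have key := bk_lpp hB hi n hn (2 * 0 * r) (1 + 2 * v * r) (hord 0 v h0 hv) (F.image g)
    (by
      intro p hp
      obtain ⟨q, hq, rfl⟩ := Finset.mem_image.1 hp
      exact ⟨hord _ _ (hF q hq).1 (hF q hq).2, hord _ _ h0 (hF q hq).2, hord _ _ (hF q hq).1 hv⟩)
    (a / s + (2 * √(n : ℝ) + 2 * (v - 0) * s)) γ (ε / s) (by positivity)
  have e1 : {ω | a / s + (2 * √(n : ℝ) + 2 * (v - 0) * s) ≤ lpp (fun i t => B i t ω) n (2 * 0 * r) (1 + 2 * v * r) ∧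
      ∃ q ∈ F.image g, γ q ≤ lpp (fun i t => B i t ω) n q.1 q.2} =
      {ω | a ≤ Sn (fun i t => B i t ω) n 0 v ∧ ∃ q ∈ F, c ≤ Sn (fun i t => B i t ω) n q.1 q.2} := by
    ext ω
    simp only [Set.mem_setOf_eq, hS, Finset.exists_mem_image, hγ]
    exact Iff.rfl
  have e2 : {ω | a / s + (2 * √(n : ℝ) + 2 * (v - 0) * s) - ε / s ≤
      lpp (fun i t => B i t ω) n (2 * 0 * r) (1 + 2 * v * r)} =
      {ω | a - ε ≤ Sn (fun i t => B i t ω) n 0 v} := by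
    ext ω
    simp only [Set.mem_setOf_eq, hS]
    rw [show (a - ε) / s + (2 * √(n : ℝ) + 2 * (v - 0) * s) =
      a / s + (2 * √(n : ℝ) + 2 * (v - 0) * s) - ε / s by ring]
  have e3 : {ω | ∃ q ∈ F.image g, γ q - ε / s ≤ lpp (fun i t => B i t ω) n q.1 q.2} =
      {ω | ∃ q ∈ F, c - ε ≤ Sn (fun i t => B i t ω) n q.1 q.2} := by
    ext ω
    simp only [Set.mem_setOf_eq, hS, Finset.exists_mem_image, hγ]
    constructor
    · rintro ⟨q, hq, h⟩
      refine ⟨q, hq, le_trans (le_of_eq ?_) h⟩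
      ring
    · rintro ⟨q, hq, h⟩
      refine ⟨q, hq, le_trans (le_of_eq ?_) h⟩
      ring
  have e4 : {ω | ∃ q ∈ F.image g, a / s + (2 * √(n : ℝ) + 2 * (v - 0) * s) + γ q - 2 * (ε / s) ≤
      lpp (fun i t => B i t ω) n (2 * 0 * r) q.2 + lpp (fun i t => B i t ω) n q.1 (1 + 2 * v * r)} =
      {ω | ∃ q ∈ F, a + c - 2 * ε ≤ Sn (fun i t => B i t ω) n 0 q.2 + Sn (fun i t => B i t ω) n q.1 v} := by
    ext ω
    simp only [Set.mem_setOf_eq, Finset.exists_mem_image, hγ]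
    have hh : ∀ q : ℝ × ℝ, (a / s + (2 * √(n : ℝ) + 2 * (v - 0) * s) +
        (c / s + (2 * √(n : ℝ) + 2 * (q.2 - q.1) * s)) - 2 * (ε / s) ≤
        lpp (fun i t => B i t ω) n (2 * 0 * r) (g q).2 + lpp (fun i t => B i t ω) n (g q).1 (1 + 2 * v * r)) ↔
        a + c - 2 * ε ≤ Sn (fun i t => B i t ω) n 0 q.2 + Sn (fun i t => B i t ω) n q.1 v := by
      intro q
      have h1 : Sn (fun i t => B i t ω) n 0 q.2 + Sn (fun i t => B i t ω) n q.1 v =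
          s * ((lpp (fun i t => B i t ω) n (2 * 0 * r) (g q).2 + lpp (fun i t => B i t ω) n (g q).1 (1 + 2 * v * r)) -
            (4 * √(n : ℝ) + 2 * (q.2 + v - q.1) * s)) := by
        unfold Sn
        rw [← hr, ← hs]
        show _ = s * ((lpp (fun i t => B i t ω) n (2 * 0 * r) (1 + 2 * q.2 * r) +
          lpp (fun i t => B i t ω) n (2 * q.1 * r) (1 + 2 * v * r)) - (4 * √(n : ℝ) + 2 * (q.2 + v - q.1) * s))
        ring
      rw [h1, bks_iff hs0]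
      rw [show (a + c - 2 * ε) / s + (4 * √(n : ℝ) + 2 * (q.2 + v - q.1) * s) =
        a / s + (2 * √(n : ℝ) + 2 * (v - 0) * s) +
        (c / s + (2 * √(n : ℝ) + 2 * (q.2 - q.1) * s)) - 2 * (ε / s) by ring]
    constructor
    · rintro ⟨q, hq, h⟩
      exact ⟨q, hq, (hh q).1 h⟩
    · rintro ⟨q, hq, h⟩
      exact ⟨q, hq, (hh q).2 h⟩
  rw [e1, e2, e3, e4] at key
  exact key

private theorem bks_eps {Ω : Type*} [MeasurableSpace Ω] {P : Measure Ω} [IsProbabilityMeasure P] {S : ℝ → ℝ → Ω → ℝ}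
    (hS : IsAirySheet P S) (v : ℝ) (F : Finset (ℝ × ℝ)) (a c ε : ℝ) (hε : 0 < ε) :
    P {ω | a ≤ S 0 v ω ∧ ∃ q ∈ F, c ≤ S q.1 q.2 ω} ≤
      P {ω | a - 3 * ε ≤ S 0 v ω} * P {ω | ∃ q ∈ F, c - 3 * ε ≤ S q.1 q.2 ω} +
      P {ω | ∃ q ∈ F, a + c - 6 * ε ≤ S 0 q.2 ω + S q.1 v ω} := by
  obtain ⟨B, hB, hi, hlim⟩ := hS.lim
  obtain ⟨K, hv, hF⟩ : ∃ K : ℝ, |v| ≤ K ∧ ∀ q ∈ F, |q.1| ≤ K ∧ |q.2| ≤ K := by
    refine ⟨|v| + ∑ q ∈ F, (|q.1| + |q.2|), ?_, ?_⟩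
    · have : 0 ≤ ∑ q ∈ F, (|q.1| + |q.2|) := Finset.sum_nonneg fun q _ => by positivity
      linarith
    · intro q hq
      have h1 : |q.1| + |q.2| ≤ ∑ q ∈ F, (|q.1| + |q.2|) :=
        Finset.single_le_sum (f := fun q : ℝ × ℝ => |q.1| + |q.2|) (fun q _ => by positivity) hq
      have := abs_nonneg v
      have := abs_nonneg q.1
      have := abs_nonneg q.2
      constructor <;> linarith
  have hK0 : 0 ≤ K := (abs_nonneg v).trans hv
  set e : ℕ → ENNReal := fun n => P {ω | ∃ x y : ℝ, |x| ≤ K ∧ |y| ≤ K ∧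
      ε < |Sn (fun i t => B n i t ω) n x y - S x y ω|} with he
  have hlim' : Tendsto e atTop (𝓝 0) := hlim K ε hε
  have hr : Tendsto (fun n : ℕ => 4 * K * (n : ℝ) ^ (-(1 / 3) : ℝ)) atTop (𝓝 0) := by
    have := ((tendsto_rpow_neg_atTop (y := 1 / 3) (by norm_num)).comp tendsto_natCast_atTop_atTop).const_mul (4 * K)
    rw [mul_zero] at this
    exact this
  have hev : ∀ᶠ n : ℕ in atTop, P {ω | a ≤ S 0 v ω ∧ ∃ q ∈ F, c ≤ S q.1 q.2 ω} ≤
      e n + ((P {ω | a - 3 * ε ≤ S 0 v ω} + e n) * (P {ω | ∃ q ∈ F, c - 3 * ε ≤ S q.1 q.2 ω} + e n) +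
      (P {ω | ∃ q ∈ F, a + c - 6 * ε ≤ S 0 q.2 ω + S q.1 v ω} + e n)) := by
    filter_upwards [hr.eventually_le_const (show (0 : ℝ) < 1 by norm_num), eventually_ge_atTop 1] with n hn1 hn2
    have key := bks_n (hB n) (hi n) n hn2 v F K hv hF hn1 (a - ε) (c - ε) ε hε
    set Er : Set Ω := {ω | ∃ x y : ℝ, |x| ≤ K ∧ |y| ≤ K ∧
      ε < |Sn (fun i t => B n i t ω) n x y - S x y ω|} with hEr
    have hEr' : P Er = e n := rfl
    have hgood : ∀ ω, ω ∉ Er → ∀ x y : ℝ, |x| ≤ K → |y| ≤ K →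
        |Sn (fun i t => B n i t ω) n x y - S x y ω| ≤ ε := by
      intro ω hω x y hx hy
      by_contra h
      exact hω ⟨x, y, hx, hy, not_le.1 h⟩
    have h0 : |(0 : ℝ)| ≤ K := by rw [abs_zero]; exact hK0
    have s1 : P {ω | a ≤ S 0 v ω ∧ ∃ q ∈ F, c ≤ S q.1 q.2 ω} ≤
        e n + P {ω | a - ε ≤ Sn (fun i t => B n i t ω) n 0 v ∧
          ∃ q ∈ F, c - ε ≤ Sn (fun i t => B n i t ω) n q.1 q.2} := by
      rw [← hEr']
      refine (measure_mono ?_).trans (measure_union_le _ _)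
      rintro ω ⟨h1, q, hq, h2⟩
      by_cases hω : ω ∈ Er
      · exact Or.inl hω
      · right
        have g1 := abs_le.1 (hgood ω hω 0 v h0 hv)
        have g2 := abs_le.1 (hgood ω hω q.1 q.2 (hF q hq).1 (hF q hq).2)
        exact ⟨by linarith [g1.1], q, hq, by linarith [g2.1]⟩
    have s2 : P {ω | a - ε - ε ≤ Sn (fun i t => B n i t ω) n 0 v} ≤ P {ω | a - 3 * ε ≤ S 0 v ω} + e n := by
      rw [← hEr']
      refine (measure_mono ?_).trans (measure_union_le _ _)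
      intro ω h1
      by_cases hω : ω ∈ Er
      · exact Or.inr hω
      · left
        have g1 := abs_le.1 (hgood ω hω 0 v h0 hv)
        have h1' : a - ε - ε ≤ Sn (fun i t => B n i t ω) n 0 v := h1
        show a - 3 * ε ≤ S 0 v ω
        linarith [g1.2]
    have s3 : P {ω | ∃ q ∈ F, c - ε - ε ≤ Sn (fun i t => B n i t ω) n q.1 q.2} ≤
        P {ω | ∃ q ∈ F, c - 3 * ε ≤ S q.1 q.2 ω} + e n := by
      rw [← hEr']
      refine (measure_mono ?_).trans (measure_union_le _ _)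
      rintro ω ⟨q, hq, h1⟩
      by_cases hω : ω ∈ Er
      · exact Or.inr hω
      · left
        have g1 := abs_le.1 (hgood ω hω q.1 q.2 (hF q hq).1 (hF q hq).2)
        exact ⟨q, hq, by linarith [g1.2]⟩
    have s4 : P {ω | ∃ q ∈ F, a - ε + (c - ε) - 2 * ε ≤
        Sn (fun i t => B n i t ω) n 0 q.2 + Sn (fun i t => B n i t ω) n q.1 v} ≤
        P {ω | ∃ q ∈ F, a + c - 6 * ε ≤ S 0 q.2 ω + S q.1 v ω} + e n := by
      rw [← hEr']
      refine (measure_mono ?_).trans (measure_union_le _ _)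
      rintro ω ⟨q, hq, h1⟩
      by_cases hω : ω ∈ Er
      · exact Or.inr hω
      · left
        have g1 := abs_le.1 (hgood ω hω 0 q.2 h0 (hF q hq).2)
        have g2 := abs_le.1 (hgood ω hω q.1 v (hF q hq).1 hv)
        exact ⟨q, hq, by linarith [g1.2, g2.2]⟩
    exact s1.trans (add_le_add le_rfl (key.trans (add_le_add (mul_le_mul' s2 s3) s4)))
  have hA : ∀ A : ENNReal, A ≠ ⊤ → Tendsto (fun n => A + e n) atTop (𝓝 A) := by
    intro A hA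
    have := (tendsto_const_nhds (x := A)).add hlim'
    rwa [add_zero] at this
  have hlimit : Tendsto (fun n => e n + ((P {ω | a - 3 * ε ≤ S 0 v ω} + e n) *
      (P {ω | ∃ q ∈ F, c - 3 * ε ≤ S q.1 q.2 ω} + e n) +
      (P {ω | ∃ q ∈ F, a + c - 6 * ε ≤ S 0 q.2 ω + S q.1 v ω} + e n))) atTop
      (𝓝 (0 + (P {ω | a - 3 * ε ≤ S 0 v ω} * P {ω | ∃ q ∈ F, c - 3 * ε ≤ S q.1 q.2 ω} +
      P {ω | ∃ q ∈ F, a + c - 6 * ε ≤ S 0 q.2 ω + S q.1 v ω}))) := by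
    refine hlim'.add (Tendsto.add ?_ (hA _ (measure_ne_top _ _)))
    exact ENNReal.Tendsto.mul (hA _ (measure_ne_top _ _)) (Or.inr (measure_ne_top _ _))
      (hA _ (measure_ne_top _ _)) (Or.inr (measure_ne_top _ _))
  rw [zero_add] at hlimit
  exact ge_of_tendsto hlimit hev

theorem bk_sheet {Ω : Type*} [MeasurableSpace Ω] {P : Measure Ω} [IsProbabilityMeasure P] {S : ℝ → ℝ → Ω → ℝ}
    (hS : IsAirySheet P S) (v : ℝ) (F : Finset (ℝ × ℝ)) (a c : ℝ) :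
    P {ω | a ≤ S 0 v ω ∧ ∃ q ∈ F, c ≤ S q.1 q.2 ω} ≤
      P {ω | a ≤ S 0 v ω} * P {ω | ∃ q ∈ F, c ≤ S q.1 q.2 ω} +
      P {ω | ∃ q ∈ F, a + c ≤ S 0 q.2 ω + S q.1 v ω} := by
  have t1 := bks_lim (P := P) ({(0, v)} : Finset (ℝ × ℝ)) (fun q => S q.1 q.2) (fun q => hS.meas q.1 q.2) a 3
    (by norm_num)
  have t2 := bks_lim (P := P) F (fun q => S q.1 q.2) (fun q => hS.meas q.1 q.2) c 3 (by norm_num)
  have t3 := bks_lim (P := P) F (fun q ω => S 0 q.2 ω + S q.1 v ω)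
    (fun q => (hS.meas 0 q.2).add (hS.meas q.1 v)) (a + c) 6 (by norm_num)
  simp only [Finset.mem_singleton, exists_eq_left] at t1
  have hlim := (ENNReal.Tendsto.mul t1 (Or.inr (measure_ne_top _ _)) t2 (Or.inr (measure_ne_top _ _))).add t3
  refine ge_of_tendsto' hlim fun k => ?_
  have := bks_eps hS v F a c (1 / ((k : ℝ) + 1)) (by positivity)
  rw [show 3 * (1 / ((k : ℝ) + 1)) = 3 / ((k : ℝ) + 1) by ring,
    show 6 * (1 / ((k : ℝ) + 1)) = 6 / ((k : ℝ) + 1) by ring] at this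
  exact this

end Pool.Agent.DLM
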