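import Pool.Agent.DLM.Defs

/-!
# DLM/EDefs: definitions for part E (paths in an environment)

`pre f S s = f * S 0 * .. * S (s-1)`, `kc n S = S 0 * .. * S n` (`n + 1` sheets), `wt S z a c`: weight of the path `z` in the sheets `a, .., c - 1`, `sfx S K s x`: best weight from `(x, s)` to `(0, K)`.
`Near f S K ε z`: `z` ends at `0` and is optimal up to `ε`.  `SOsc b k Λ z`: small oscillation in the block `b, .., b + k`.  `envM`: law of the environment.  Parameters: `w` large, `m = w^100`; `k ≤ w` sub-blocks of duration `m^-3` in each of the `w^2` blocks, preceded by three gaps of duration `1/(3 w^2)`.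
-/

set_option autoImplicit false

open MeasureTheory ProbabilityTheory Filter Topology

namespace Pool.Agent.DLM

/-- shifted sequence -/
def shf (S : ℕ → Kern) (s : ℕ) : ℕ → Kern := fun l => S (s + l)

/-- the initial data `f` after `s` sheets -/
noncomputable def pre (f : Ini) (S : ℕ → Kern) : ℕ → Ini
  | 0 => f
  | s + 1 => act (pre f S s) (S s)

/-- composition of the first `n + 1` sheets -/
noncomputable def kc : ℕ → (ℕ → Kern) → Kern
  | 0, S => S 0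
  | n + 1, S => kcomp (S 0) (kc n (shf S 1))

/-- weight of the path `z` in the sheets `a, ..., c - 1` -/
def wt (S : ℕ → Kern) (z : ℕ → ℚ) (a c : ℕ) : ℝ := ∑ l ∈ Finset.Ico a c, S l (z l) (z (l + 1))

/-- best weight from `(x, s)` to `(0, K)` -/
noncomputable def sfx (S : ℕ → Kern) (K s : ℕ) : Ini := fun x => kc (K - 1 - s) (shf S s) x 0

/-- all suprema are suprema of bounded sets -/
structure EBdd (f : Ini) (S : ℕ → Kern) : Prop where
  a : ∀ s, ABdd (pre f S s) (S s)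
  c : ∀ s n, CBdd (S s) (kc n (shf S (s + 1)))
  p : ∀ s n y, BddAbove (Set.range fun x => pre f S s x + kc n (shf S s) x y)

/-- `z` ends at `0` and is optimal up to `ε` -/
def Near (f : Ini) (S : ℕ → Kern) (K : ℕ) (ε : ℝ) (z : ℕ → ℚ) : Prop :=
  z K = 0 ∧ pre f S K 0 ≤ f (z 0) + wt S z 0 K + ε

/-- small oscillation in a block -/
def SOsc (b k : ℕ) (Λ : ℝ) (z : ℕ → ℚ) : Prop :=
  ∀ l l', b ≤ l → l ≤ b + k → b ≤ l' → l' ≤ b + k → |(z l : ℝ) - z l'| < Λ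

/-- normalisation -/
def nrm (f : Ini) : Ini := fun x => f x - f 0

/-- law of the sheets -/
noncomputable def piM (ν : ℝ → Measure Kern) (dur : ℕ → ℝ) : Measure (ℕ → Kern) :=
  Measure.infinitePi fun l => ν (dur l)

/-- law of the environment -/
noncomputable def envM (ν : ℝ → Measure Kern) (β : ℝ → Measure Ini) (dur : ℕ → ℝ) (b : ℝ) :
    Measure (Ini × (ℕ → Kern)) := (β b).prod (piM ν dur)

/-- the sheets of a block are replaced -/
def mixS (b k : ℕ) (S S' : ℕ → Kern) : ℕ → Kern := fun l => if b ≤ l ∧ l < b + k then S' l else S l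

/-- number of sheets -/
def KW (w k : ℕ) : ℕ := w ^ 2 * (k + 3) + 2

/-- first index of the block `i` -/
def bW (k i : ℕ) : ℕ := i * (k + 3) + 4

/-- durations -/
noncomputable def durW (w k l : ℕ) : ℝ :=
  if l = 0 ∨ w ^ 2 * (k + 3) < l then 1 else if (l - 1) % (k + 3) < 3 then 1 / (3 * (w : ℝ) ^ 2) else 1 / (w : ℝ) ^ 300

/-- near optimal paths are confined at the time `s` -/
def Conf (w : ℕ) (F g : Ini) : Prop := ∀ x : ℚ, (w : ℝ) < |(x : ℝ)| → F x + g x < F 0 + g 0 - 2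

/-- modulus of continuity of the data at the scale `m^-2` -/
def Modu (w : ℕ) (F : Ini) : Prop :=
  ∀ x y : ℚ, |(x : ℝ)| ≤ w → |(y : ℝ)| ≤ w → |F x - F y| ≤ (w : ℝ) / w ^ 100 * (1 + |(x : ℝ) - y| * w ^ 200)

/-- parabolic estimate for the sheets of duration `m^-3` -/
def PEst (w : ℕ) (S : Kern) : Prop :=
  ∀ x y : ℚ, |(x : ℝ)| ≤ w → |(y : ℝ)| ≤ w →
    |S x y + ((x : ℝ) - y) ^ 2 * w ^ 300| ≤ (w : ℝ) / w ^ 100 * (1 + |(x : ℝ) - y| * w ^ 200)

/-- no near ties -/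
def NoTie (w : ℕ) (F g : Ini) : Prop :=
  ∀ y y' : ℚ, |(y : ℝ)| ≤ w → |(y' : ℝ)| ≤ w →
    (∀ x : ℚ, |(x : ℝ)| ≤ w → F x + g x ≤ F y + g y + 22 * (w : ℝ) ^ 3 / w ^ 100) →
    (∀ x : ℚ, |(x : ℝ)| ≤ w → F x + g x ≤ F y' + g y' + 22 * (w : ℝ) ^ 3 / w ^ 100) →
    |(y : ℝ) - y'| < (w : ℝ) ^ 20 / w ^ 200

/-- two paths which stay close in the three gaps have a small quadrangle defect in one of them -/
def Chain3 (w : ℕ) (T : ℕ → Kern) : Prop :=
  ∀ y y' : ℕ → ℚ, (∀ r < 4, |(y r : ℝ)| ≤ w ∧ |(y' r : ℝ)| ≤ w ∧ |(y r : ℝ) - y' r| < (w : ℝ) ^ 20 / w ^ 200) →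
    ∃ r < 3, |T r (y r) (y (r + 1)) + T r (y' r) (y' (r + 1)) - T r (y r) (y' (r + 1)) - T r (y' r) (y (r + 1))| ≤
      1 / (w : ℝ) ^ 100

/-- regular environments -/
structure Reg (w k b K : ℕ) (f : Ini) (S : ℕ → Kern) : Prop where
  bdd : EBdd f S
  conf : ∀ s, b ≤ s + 3 → s ≤ b + k → Conf w (pre f S s) (sfx S K s)
  modu : ∀ l, b ≤ l → l < b + k → Modu w (pre f S l)
  pest : ∀ l, b ≤ l → l < b + k → PEst w (S l)
  tie : ∀ s, b ≤ s + 3 → s ≤ b → NoTie w (pre f S s) (sfx S K s)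
  chain : Chain3 w (shf S (b - 3))

/-- the block (in its own coordinates) is good: there is a channel with large weights, paths with small oscillation have small weight, no path has a very large weight -/
def Good (k : ℕ) (v : ℚ) (a Λ A C₂ : ℝ) (U : ℕ → Kern) : Prop :=
  (∀ l < k, a ≤ U l (-(v * ((k : ℚ) - l))) (-(v * ((k : ℚ) - (l + 1))))) ∧
  (∀ z : ℕ → ℚ, |(z k : ℝ)| ≤ Real.exp k → SOsc 0 k Λ z → wt U z 0 k ≤ a / 2 * k) ∧
  ∀ z : ℕ → ℚ, |(z k : ℝ)| ≤ A → wt U z 0 k ≤ C₂ * k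

/-- the sheets of a block in the coordinates of the block -/
def blkS (w b : ℕ) (x₀ : ℚ) (S : ℕ → Kern) : ℕ → Kern :=
  fun j x y => (w : ℝ) ^ 100 * S (b + j) (x₀ + x / (w : ℚ) ^ 200) (x₀ + y / (w : ℚ) ^ 200)

/-- the data around a block are nice: `F` before the block, `g` after the block -/
structure NiceAt (w k : ℕ) (Cf C₁ : ℝ) (F g : Ini) (x₀ : ℚ) : Prop where
  dom : |(x₀ : ℝ)| ≤ w
  max : ∀ x : ℚ, |(x : ℝ)| ≤ w → F x + g x ≤ F x₀ + g x₀ + 1 / (w : ℝ) ^ 100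
  loc : ∀ x : ℚ, |(x : ℝ)| ≤ w → F x₀ + g x₀ ≤ F x + g x + C₁ * k / (w : ℝ) ^ 100 →
    |(x : ℝ) - x₀| ≤ Real.exp k / (w : ℝ) ^ 200
  osc : ∀ x y : ℚ, |(x : ℝ)| ≤ w + 1 → |(y : ℝ)| ≤ w + 1 → |(x : ℝ) - y| * w ^ 200 ≤ k →
    |F x - F y| ≤ Cf / (w : ℝ) ^ 100 * √(k * (|(x : ℝ) - y| * w ^ 200 + 1))

/-- number of sub-blocks -/
noncomputable def kW (c₉ : ℝ) (w : ℕ) : ℕ := ⌊c₉ * Real.log w⌋₊

end Pool.Agent.DLM
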