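import Pool.Agent.DLM.CST

/-!
# DLM/FRA: exponential moments of cell suprema (60-100 lines)

`Zc S c c' = sup over the cell [c,c+1] × [c',c'+1] of exp(S x y)` (as an extended nonnegative number).  `zc_pow`: `∫ Zc^p ≤ C exp(-p (c'-c)^2 · 3/4)` for `p = 1, 2`: layer cake with `cell_sup` (`c = 3`): `Zc^p > exp(p(-D^2 + C|D| + C + s))` has probability `≤ C exp(-3 s)`; `∫ Zc^p ≤ exp(p(-D^2 + C|D| + C)) (1 + ∑_k exp(p (k+1)) C exp(-3k))`,
and `-D^2 + C|D| ≤ -3/4 D^2 + C^2`.
-/

set_option autoImplicit false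

open MeasureTheory ProbabilityTheory Filter Topology

namespace Pool.Agent.DLM

variable {ν : ℝ → Measure Kern} {tw : Measure ℝ} {β : ℝ → Measure Ini}

/-- supremum of `exp S` over the cell -/
noncomputable def Zc (S : Kern) (c c' : ℚ) : ENNReal :=
  ⨆ (x : ℚ) (y : ℚ) (_ : c ≤ x ∧ x ≤ c + 1 ∧ c' ≤ y ∧ y ≤ c' + 1), ENNReal.ofReal (Real.exp (S x y))

theorem zc_meas (c c' : ℚ) : Measurable fun S : Kern => Zc S c c' := by
  unfold Zc
  refine Measurable.iSup fun x => Measurable.iSup fun y => Measurable.iSup fun _ => ?_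
  have h : Measurable fun S : Kern => S x y := (measurable_pi_apply y).comp (measurable_pi_apply x)
  exact (Real.measurable_exp.comp h).ennreal_ofReal

private theorem meas_ev (c c' : ℚ) (u : ℝ) : MeasurableSet {S : Kern | ∃ x y : ℚ, c ≤ x ∧ x ≤ c + 1 ∧
    c' ≤ y ∧ y ≤ c' + 1 ∧ u < S x y} := by
  simp only [Set.ofPred_exists, Set.ofPred_and]
  refine MeasurableSet.iUnion fun x => MeasurableSet.iUnion fun y => ?_
  have h : Measurable fun S : Kern => S x y := (measurable_pi_apply y).comp (measurable_pi_apply x)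
  refine (MeasurableSet.const _).inter ((MeasurableSet.const _).inter ((MeasurableSet.const _).inter
    ((MeasurableSet.const _).inter ?_)))
  exact measurableSet_lt measurable_const h

private theorem zc_le (S : Kern) (c c' : ℚ) (u : ℝ) (p : ℕ)
    (hS : ¬ ∃ x y : ℚ, c ≤ x ∧ x ≤ c + 1 ∧ c' ≤ y ∧ y ≤ c' + 1 ∧ u < S x y) :
    Zc S c c' ^ p ≤ ENNReal.ofReal (Real.exp (p * u)) := by
  have h1 : Zc S c c' ≤ ENNReal.ofReal (Real.exp u) := by
    unfold Zc
    refine iSup_le fun x => iSup_le fun y => iSup_le fun hxy => ?_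
    apply ENNReal.ofReal_le_ofReal
    apply Real.exp_le_exp.2
    by_contra hlt
    push Not at hlt
    exact hS ⟨x, y, hxy.1, hxy.2.1, hxy.2.2.1, hxy.2.2.2, hlt⟩
  calc Zc S c c' ^ p ≤ ENNReal.ofReal (Real.exp u) ^ p := by gcongr
    _ = ENNReal.ofReal (Real.exp (p * u)) := by
      rw [← ENNReal.ofReal_pow (Real.exp_pos u).le, Real.exp_nat_mul]

private theorem tsum_bd : ∑' k : ℕ, ENNReal.ofReal (Real.exp (-(k : ℝ))) ≤ 2 := by
  have h1 : ∀ k : ℕ, ENNReal.ofReal (Real.exp (-(k : ℝ))) ≤ (2⁻¹ : ENNReal) ^ k := by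
    intro k
    have : Real.exp (-(k : ℝ)) = (Real.exp (-1)) ^ k := by
      rw [← Real.exp_nat_mul]; ring_nf
    rw [this, ENNReal.ofReal_pow (Real.exp_pos _).le]
    gcongr
    have h2 : Real.exp (-1) ≤ 2⁻¹ := by
      rw [Real.exp_neg]
      apply inv_anti₀ (by norm_num)
      have := Real.add_one_le_exp (1 : ℝ)
      linarith
    calc ENNReal.ofReal (Real.exp (-1)) ≤ ENNReal.ofReal (2⁻¹) := ENNReal.ofReal_le_ofReal h2
      _ = 2⁻¹ := by rw [ENNReal.ofReal_inv_of_pos (by norm_num)]; norm_num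
  calc ∑' k : ℕ, ENNReal.ofReal (Real.exp (-(k : ℝ))) ≤ ∑' k : ℕ, (2⁻¹ : ENNReal) ^ k :=
        ENNReal.tsum_le_tsum h1
    _ = 2 := ENNReal.tsum_geometric_two

theorem zc_pow (h : Base ν tw β) : ∃ C : ℝ, 1 ≤ C ∧ ∀ (p : ℕ), 1 ≤ p → p ≤ 2 → ∀ c c' : ℚ,
    ∫⁻ S, Zc S c c' ^ p ∂(ν 1) ≤ ENNReal.ofReal (C * Real.exp (-(3 / 4) * p * ((c' : ℝ) - c) ^ 2)) := by
  obtain ⟨C, hC1, hC⟩ := cell_sup h 3 (by norm_num)
  have hpr : IsProbabilityMeasure (ν 1) := h.prob 1 one_pos
  refine ⟨Real.exp (2 * (C ^ 2 + C)) * (1 + 2 * C * Real.exp 2), ?_, ?_⟩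
  · have h1 : (1 : ℝ) ≤ Real.exp (2 * (C ^ 2 + C)) := Real.one_le_exp (by positivity)
    have h2 : (0 : ℝ) ≤ 2 * C * Real.exp 2 := by positivity
    nlinarith
  intro p hp1 hp2 c c'
  set D : ℝ := (c' : ℝ) - c with hD
  set T : ℝ := -D ^ 2 / 1 + C * |D| + C with hT
  set A : ℕ → Set Kern := fun k => {S : Kern | ∃ x y : ℚ, c ≤ x ∧ x ≤ c + 1 ∧
    c' ≤ y ∧ y ≤ c' + 1 ∧ T + k < S x y} with hA
  have hAm : ∀ k, MeasurableSet (A k) := fun k => meas_ev c c' (T + k)
  have hAν : ∀ k, ν 1 (A k) ≤ ENNReal.ofReal (C * Real.exp (-3 * k)) := by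
    intro k
    exact hC 1 (by norm_num) (by norm_num) c c' k (by positivity)
  -- pointwise bound
  have hpt : ∀ S : Kern, Zc S c c' ^ p ≤ ENNReal.ofReal (Real.exp (p * T)) +
      ∑' k : ℕ, (A k).indicator (fun _ => ENNReal.ofReal (Real.exp (p * (T + (k + 1))))) S := by
    intro S
    by_cases hall : ∀ k, S ∈ A k
    · have : ∑' k : ℕ, (A k).indicator (fun _ => ENNReal.ofReal (Real.exp (p * (T + (k + 1))))) S = ⊤ := by
        rw [eq_top_iff, ← ENNReal.tsum_const_eq_top_of_ne_zero (α := ℕ)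
          (c := ENNReal.ofReal (Real.exp (p * T)))
          (by simpa using Real.exp_pos _)]
        apply ENNReal.tsum_le_tsum
        intro k
        rw [Set.indicator_of_mem (hall k)]
        apply ENNReal.ofReal_le_ofReal
        apply Real.exp_le_exp.2
        have hk : (0 : ℝ) ≤ (k : ℝ) + 1 := by positivity
        have hp0 : (0 : ℝ) ≤ p := by positivity
        nlinarith
      rw [this]
      simp
    · push Not at hall
      classical
      set k := Nat.find hall with hk
      have hkn : S ∉ A k := Nat.find_spec hall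
      rcases Nat.eq_zero_or_pos k with h0 | h0
      · have := zc_le S c c' (T + k) p hkn
        rw [h0, Nat.cast_zero, add_zero] at this
        exact this.trans le_self_add
      · obtain ⟨j, hj⟩ : ∃ j, k = j + 1 := ⟨k - 1, by omega⟩
        have hjm : S ∈ A j := by
          by_contra hjn
          have := Nat.find_min' hall hjn
          omega
        have h1 := zc_le S c c' (T + k) p hkn
        rw [hj] at h1
        push_cast at h1
        refine h1.trans (le_trans ?_ le_add_self)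
        have h2 := ENNReal.le_tsum (f := fun k : ℕ => (A k).indicator
          (fun _ => ENNReal.ofReal (Real.exp (p * (T + (k + 1))))) S) j
        refine le_trans ?_ h2
        rw [Set.indicator_of_mem hjm]
  have hp2' : (p : ℝ) ≤ 2 := by exact_mod_cast hp2
  have hp0 : (0 : ℝ) ≤ p := by positivity
  have hterm : ∀ k : ℕ, ∫⁻ S, (A k).indicator
      (fun _ => ENNReal.ofReal (Real.exp (p * (T + (k + 1))))) S ∂(ν 1) ≤
      ENNReal.ofReal (Real.exp (p * T) * (C * Real.exp 2)) * ENNReal.ofReal (Real.exp (-(k : ℝ))) := by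
    intro k
    refine (lintegral_indicator_const_le _ _).trans ?_
    calc ENNReal.ofReal (Real.exp (p * (T + (k + 1)))) * ν 1 (A k)
        ≤ ENNReal.ofReal (Real.exp (p * (T + (k + 1)))) * ENNReal.ofReal (C * Real.exp (-3 * k)) := by
          gcongr; exact hAν k
      _ = ENNReal.ofReal (Real.exp (p * (T + (k + 1))) * (C * Real.exp (-3 * k))) := by
          rw [ENNReal.ofReal_mul (Real.exp_pos _).le]
      _ ≤ ENNReal.ofReal ((Real.exp (p * T) * (C * Real.exp 2)) * Real.exp (-(k : ℝ))) := by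
          apply ENNReal.ofReal_le_ofReal
          have e1 : Real.exp (p * (T + (k + 1))) * (C * Real.exp (-3 * k)) =
              C * Real.exp (p * T) * Real.exp (p * (k + 1) + -3 * k) := by
            rw [mul_add, Real.exp_add, Real.exp_add]; ring
          have e2 : (Real.exp (p * T) * (C * Real.exp 2)) * Real.exp (-(k : ℝ)) =
              C * Real.exp (p * T) * Real.exp (2 + -(k : ℝ)) := by
            rw [Real.exp_add]; ring
          rw [e1, e2]
          have hk : (0 : ℝ) ≤ (k : ℝ) := by positivity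
          have e3 : (p : ℝ) * (k + 1) + -3 * k ≤ 2 + -(k : ℝ) := by nlinarith
          exact mul_le_mul_of_nonneg_left (Real.exp_le_exp.2 e3) (by positivity)
      _ = _ := by rw [ENNReal.ofReal_mul (by positivity)]
  have hTle : (p : ℝ) * T ≤ 2 * (C ^ 2 + C) + -(3 / 4) * p * D ^ 2 := by
    have h1 : T ≤ -(3 / 4) * D ^ 2 + (C ^ 2 + C) := by
      have h2 : |D| ^ 2 = D ^ 2 := sq_abs D
      have h3 := sq_nonneg (|D| / 2 - C)
      rw [hT]
      nlinarith
    have h4 : (0 : ℝ) ≤ C ^ 2 + C := by positivity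
    nlinarith [mul_le_mul_of_nonneg_left h1 hp0]
  calc ∫⁻ S, Zc S c c' ^ p ∂(ν 1)
      ≤ ∫⁻ S, (ENNReal.ofReal (Real.exp (p * T)) +
      ∑' k : ℕ, (A k).indicator (fun _ => ENNReal.ofReal (Real.exp (p * (T + (k + 1))))) S) ∂(ν 1) :=
        lintegral_mono hpt
    _ = ENNReal.ofReal (Real.exp (p * T)) + ∑' k : ℕ, ∫⁻ S, (A k).indicator
          (fun _ => ENNReal.ofReal (Real.exp (p * (T + (k + 1))))) S ∂(ν 1) := by
        rw [lintegral_add_left measurable_const, lintegral_const, measure_univ, mul_one,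
          lintegral_tsum]
        intro k
        exact (measurable_const.indicator (hAm k)).aemeasurable
    _ ≤ ENNReal.ofReal (Real.exp (p * T)) + ∑' k : ℕ, ENNReal.ofReal (Real.exp (p * T) * (C * Real.exp 2)) *
          ENNReal.ofReal (Real.exp (-(k : ℝ))) := by
        gcongr with k
        exact hterm k
    _ ≤ ENNReal.ofReal (Real.exp (p * T)) + ENNReal.ofReal (Real.exp (p * T) * (C * Real.exp 2)) * 2 := by
        rw [ENNReal.tsum_mul_left]
        gcongr
        exact tsum_bd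
    _ = ENNReal.ofReal (Real.exp (p * T) * (1 + 2 * C * Real.exp 2)) := by
        rw [show (2 : ENNReal) = ENNReal.ofReal 2 by norm_num, ← ENNReal.ofReal_mul (by positivity),
          ← ENNReal.ofReal_add (by positivity) (by positivity)]
        congr 1
        ring
    _ ≤ ENNReal.ofReal (Real.exp (2 * (C ^ 2 + C)) * (1 + 2 * C * Real.exp 2) *
          Real.exp (-(3 / 4) * p * D ^ 2)) := by
        apply ENNReal.ofReal_le_ofReal
        have h1 : Real.exp (p * T) ≤ Real.exp (2 * (C ^ 2 + C)) * Real.exp (-(3 / 4) * p * D ^ 2) := by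
          rw [← Real.exp_add]
          exact Real.exp_le_exp.2 hTle
        have h2 : (0 : ℝ) ≤ 1 + 2 * C * Real.exp 2 := by positivity
        calc Real.exp (p * T) * (1 + 2 * C * Real.exp 2) ≤
            (Real.exp (2 * (C ^ 2 + C)) * Real.exp (-(3 / 4) * p * D ^ 2)) * (1 + 2 * C * Real.exp 2) :=
              mul_le_mul_of_nonneg_right h1 h2
          _ = _ := by ring

end Pool.Agent.DLM
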