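import Pool.Agent.DLM.CHX
import Pool.Agent.DLM.FRA
import Pool.Agent.DLM.EDefs

/-!
# DLM/BLA: no path in a block has a very large weight (60-90 lines)

`φ l c c' S = Zc S c c'`: by `zc_pow` (`p = 1`) `∑_c ∫ φ ≤ ∑_c C₀ exp(-(3/4)(c'-c)^2) = C''` (finite, does not depend on `c'`), so `E TT k c' ≤ C''^k` (`tt_bound`).  If `|z k| ≤ A` and `wt U z 0 k > C₂ k`, put `c l = ⌊z l⌋`: `exp(U l (z l) (z (l+1))) ≤ Zc (U l) (c l) (c (l+1))`, so `exp(C₂ k) ≤ TT k (c k)` (`tt_ge`), `c k` is an integer in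
`[-A-1, A]` (at most `2A + 3` values).  Markov (`mul_meas_ge_le_lintegral`), `C = max 1 (log C'')`.
-/

set_option autoImplicit false

open MeasureTheory ProbabilityTheory Filter Topology

namespace Pool.Agent.DLM

variable {ν : ℝ → Measure Kern} {tw : Measure ℝ} {β : ℝ → Measure Ini}

private theorem bla_gs {δ : ℝ} (hδ : 0 < δ) : ∃ M : ℝ, 0 ≤ M ∧ ∀ c' : ℤ,
    ∑' c : ℤ, ENNReal.ofReal (Real.exp (-δ * ((c' : ℝ) - c) ^ 2)) ≤ ENNReal.ofReal M := by
  have hgeo : Summable fun n : ℕ => Real.exp (-δ * (n : ℝ)) := by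
    have h1 : ∀ n : ℕ, Real.exp (-δ * (n : ℝ)) = Real.exp (-δ) ^ n := by
      intro n
      rw [← Real.exp_nat_mul]; ring_nf
    simp only [h1]
    exact summable_geometric_of_lt_one (Real.exp_pos _).le (by rw [Real.exp_lt_one_iff]; linarith)
  have habs : Summable fun c : ℤ => Real.exp (-δ * |(c : ℝ)|) := by
    refine Summable.of_nat_of_neg ?_ ?_
    · simpa using hgeo
    · simpa using hgeo
  have hs : Summable fun c : ℤ => Real.exp (-δ * (c : ℝ) ^ 2) := by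
    refine Summable.of_nonneg_of_le (fun c => (Real.exp_pos _).le) (fun c => ?_) habs
    apply Real.exp_le_exp.2
    have h1 : |(c : ℝ)| ≤ (c : ℝ) ^ 2 := by
      rw [← Int.cast_abs]
      have h2 : |c| ≤ c ^ 2 := by
        rw [← sq_abs]
        rcases eq_or_ne c 0 with rfl | h0
        · simp
        · have := Int.one_le_abs h0
          nlinarith
      exact_mod_cast h2
    nlinarith
  refine ⟨∑' c : ℤ, Real.exp (-δ * (c : ℝ) ^ 2), tsum_nonneg fun c => (Real.exp_pos _).le, fun c' => ?_⟩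
  rw [ENNReal.ofReal_tsum_of_nonneg (fun c => (Real.exp_pos _).le) hs]
  refine le_of_eq ?_
  rw [← (Equiv.subLeft c').tsum_eq (fun c : ℤ => ENNReal.ofReal (Real.exp (-δ * (c : ℝ) ^ 2)))]
  refine tsum_congr fun c => ?_
  simp [Equiv.subLeft]

private theorem bla_zc (S : Kern) (x y : ℚ) :
    ENNReal.ofReal (Real.exp (S x y)) ≤ Zc S ((⌊x⌋ : ℤ) : ℚ) ((⌊y⌋ : ℤ) : ℚ) := by
  unfold Zc
  refine le_iSup_of_le x (le_iSup_of_le y (le_iSup_of_le ⟨?_, ?_, ?_, ?_⟩ le_rfl))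
  · exact Int.floor_le x
  · exact (Int.lt_floor_add_one x).le
  · exact Int.floor_le y
  · exact (Int.lt_floor_add_one y).le

theorem blk_up (h : Base ν tw β) : ∃ C : ℝ, 1 ≤ C ∧ ∀ (k : ℕ) (A C₂ : ℝ), 0 ≤ A → ∀ ρ : ℕ → Measure Kern,
    (∀ j, IsProbabilityMeasure (ρ j)) → (∀ j < k, ρ j = ν 1) →
    Measure.infinitePi ρ {U | ∃ z : ℕ → ℚ, |(z k : ℝ)| ≤ A ∧ C₂ * k < wt U z 0 k} ≤
      ENNReal.ofReal ((2 * A + 3) * Real.exp ((C - C₂) * k)) := by
  obtain ⟨C₀, hC₀, hz⟩ := zc_pow h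
  obtain ⟨M, hM0, hM⟩ := bla_gs (δ := 3 / 4) (by norm_num)
  refine ⟨max 1 (C₀ * M), le_max_left _ _, ?_⟩
  intro k A C₂ hA ρ hρ hk
  set C : ℝ := max 1 (C₀ * M) with hC
  set φ : ℕ → ℤ → ℤ → Kern → ENNReal := fun _ c c' S => Zc S (c : ℚ) (c' : ℚ) with hφ
  have hφm : ∀ l c c', Measurable (φ l c c') := fun l c c' => zc_meas _ _
  have hq : ∀ l < k, ∀ c', ∑' c, ∫⁻ S, φ l c c' S ∂(ρ l) ≤ ENNReal.ofReal (Real.exp C) := by
    intro l hl c'
    rw [hk l hl]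
    calc ∑' c, ∫⁻ S, φ l c c' S ∂(ν 1)
        ≤ ∑' c : ℤ, ENNReal.ofReal C₀ * ENNReal.ofReal (Real.exp (-(3 / 4) * ((c' : ℝ) - c) ^ 2)) := by
          refine ENNReal.tsum_le_tsum fun c => ?_
          have h1 := hz 1 le_rfl (by norm_num) (c : ℚ) (c' : ℚ)
          simp only [pow_one, Nat.cast_one, mul_one] at h1
          rw [← ENNReal.ofReal_mul (by linarith)]
          simpa [hφ] using h1
      _ = ENNReal.ofReal C₀ * ∑' c : ℤ, ENNReal.ofReal (Real.exp (-(3 / 4) * ((c' : ℝ) - c) ^ 2)) :=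
          ENNReal.tsum_mul_left
      _ ≤ ENNReal.ofReal C₀ * ENNReal.ofReal M := by gcongr; exact hM c'
      _ = ENNReal.ofReal (C₀ * M) := (ENNReal.ofReal_mul (by linarith)).symm
      _ ≤ ENNReal.ofReal (Real.exp C) := by
          apply ENNReal.ofReal_le_ofReal
          have h1 : C₀ * M ≤ C := le_max_right _ _
          have h2 := Real.add_one_le_exp C
          linarith
  set I : Finset ℤ := Finset.Icc (-(⌊A⌋ + 1)) ⌊A⌋ with hI
  have hcard : (I.card : ℝ) ≤ 2 * A + 3 := by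
    have h0 : 0 ≤ ⌊A⌋ := Int.floor_nonneg.2 hA
    have h1 : (I.card : ℤ) = 2 * ⌊A⌋ + 2 := by
      rw [hI, Int.card_Icc, Int.toNat_of_nonneg (by omega)]; ring
    have h2 : (I.card : ℝ) = 2 * (⌊A⌋ : ℝ) + 2 := by exact_mod_cast h1
    have h3 := Int.floor_le A
    linarith
  have hsub : {U : ℕ → Kern | ∃ z : ℕ → ℚ, |(z k : ℝ)| ≤ A ∧ C₂ * k < wt U z 0 k} ⊆
      ⋃ c ∈ I, {U | ENNReal.ofReal (Real.exp (C₂ * k)) ≤ TT φ U k c} := by
    rintro U ⟨z, hzA, hw⟩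
    simp only [Set.mem_iUnion, exists_prop]
    refine ⟨⌊z k⌋, ?_, ?_⟩
    · rw [hI, Finset.mem_Icc]
      obtain ⟨h1, h2⟩ := abs_le.1 hzA
      constructor
      · rw [Int.le_floor]
        have h3 := Int.lt_floor_add_one A
        have h4 : ((-(⌊A⌋ + 1) : ℤ) : ℝ) ≤ (z k : ℝ) := by push_cast; linarith
        exact_mod_cast h4
      · rw [Int.le_floor]
        have h3 : ((⌊z k⌋ : ℤ) : ℝ) ≤ (z k : ℝ) := by exact_mod_cast Int.floor_le (z k)
        linarith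
    · change ENNReal.ofReal (Real.exp (C₂ * k)) ≤ TT φ U k ⌊z k⌋
      refine le_trans ?_ (tt_ge φ U k fun l => ⌊z l⌋)
      calc ENNReal.ofReal (Real.exp (C₂ * k)) ≤ ENNReal.ofReal (Real.exp (wt U z 0 k)) :=
            ENNReal.ofReal_le_ofReal (Real.exp_le_exp.2 hw.le)
        _ = ∏ l ∈ Finset.range k, ENNReal.ofReal (Real.exp (U l (z l) (z (l + 1)))) := by
            rw [wt, Real.exp_sum, Nat.Ico_zero_eq_range, ENNReal.ofReal_prod_of_nonneg fun l _ => (Real.exp_pos _).le]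
        _ ≤ ∏ l ∈ Finset.range k, φ l ⌊z l⌋ ⌊z (l + 1)⌋ (U l) := by
            refine Finset.prod_le_prod' fun l _ => ?_
            exact bla_zc (U l) (z l) (z (l + 1))
  refine (measure_mono hsub).trans ((measure_biUnion_finset_le _ _).trans ?_)
  have hpos : ENNReal.ofReal (Real.exp (C₂ * k)) ≠ 0 := by
    simp [Real.exp_pos]
  have hmk : ∀ c ∈ I, Measure.infinitePi ρ {U | ENNReal.ofReal (Real.exp (C₂ * k)) ≤ TT φ U k c} ≤
      ENNReal.ofReal (Real.exp ((C - C₂) * k)) := by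
    intro c _
    refine (meas_ge_le_lintegral_div (tt_meas φ hφm k c).aemeasurable hpos ENNReal.ofReal_ne_top).trans ?_
    calc (∫⁻ U, TT φ U k c ∂(Measure.infinitePi ρ)) / ENNReal.ofReal (Real.exp (C₂ * k))
        ≤ (ENNReal.ofReal (Real.exp C)) ^ k / ENNReal.ofReal (Real.exp (C₂ * k)) := by
          gcongr
          exact tt_bound ρ hρ φ hφm _ k hq c
      _ = ENNReal.ofReal (Real.exp ((C - C₂) * k)) := by
          rw [← ENNReal.ofReal_pow (Real.exp_pos _).le, ← ENNReal.ofReal_div_of_pos (Real.exp_pos _),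
            ← Real.exp_nat_mul, ← Real.exp_sub]
          congr 2
          ring
  refine (Finset.sum_le_sum hmk).trans ?_
  rw [Finset.sum_const, nsmul_eq_mul, ENNReal.ofReal_mul (by linarith)]
  gcongr
  rw [← ENNReal.ofReal_natCast]
  exact ENNReal.ofReal_le_ofReal hcard

end Pool.Agent.DLM
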