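import Pool.Agent.DLM.FRA

/-!
# DLM/FRB: far cells are not affected by the conditioning on the channel (100-140 lines)

`A = {a ≤ S 0 v}`.  BK for the whole cell: for `t ∈ ℝ` (`Base.bk` for finite subsets of the cell, monotone limits): `ν 1 (A ∩ {∃ (x,y) ∈ cell, t ≤ S x y}) ≤ ν 1 A · ν 1 {∃ .. t ≤ S x y} + ν 1 {∃ (x,y) ∈ cell, a + t ≤ S 0 y + S x v}`.  Layer cake for `exp` (multiply by `exp t` and integrate in `t`):
`∫_A Zc ≤ ν 1 A ∫ Zc + ∫ sup_{(x,y)} exp(S 0 y + S x v) dν 1`, and the last integral is `≤ ∫ Zc S 0 c' · Zc S c v ≤ (∫ (Zc S 0 c')^2)^(1/2) (∫ (Zc S c v)^2)^(1/2) ≤ C exp(-(3/4)(c'^2 + (c - v)^2))` (`zc_pow` with `p = 2`; the point `0` is in the cell `[0,1]`, `v` in `[v, v+1]`).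
For `|c| ≥ R` (`R` large depending on `a, v` through `ν 1 A > 0`) this is `≤ ν 1 A · C exp(-(c'-c)^2/4)`: `(3/4)(c'^2 + (c-v)^2) ≥ (1/4)(c'-c)^2 + c^2/8 - 5` (`|v| ≤ 1`).
-/

set_option autoImplicit false

open MeasureTheory ProbabilityTheory Filter Topology

namespace Pool.Agent.DLM

variable {ν : ℝ → Measure Kern} {tw : Measure ℝ} {β : ℝ → Measure Ini}

/-- the measure `exp t dt` -/
private noncomputable def em : Measure ℝ := volume.withDensity fun t => ENNReal.ofReal (Real.exp t)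

private theorem em_Iic (m : ℝ) : em (Set.Iic m) = ENNReal.ofReal (Real.exp m) := by
  unfold em
  rw [withDensity_apply _ measurableSet_Iic,
    ← ofReal_integral_eq_lintegral_ofReal (integrableOn_exp_Iic m)
      (Eventually.of_forall fun t => (Real.exp_pos t).le), integral_exp_Iic]

private instance em_sf : SigmaFinite em := by
  unfold em
  infer_instance

private theorem em_sup {ι : Type} [Countable ι] (g : ι → ℝ) :
    em {t | ∃ i, t ≤ g i} = ⨆ i, ENNReal.ofReal (Real.exp (g i)) := by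
  have h1 : {t | ∃ i, t ≤ g i} = ⋃ i, Set.Iic (g i) := by
    ext t; simp
  rw [h1, Directed.measure_iUnion]
  · simp only [em_Iic]
  · intro i j
    rcases le_total (g i) (g j) with h | h
    · exact ⟨j, Set.Iic_subset_Iic.2 h, le_refl _⟩
    · exact ⟨i, le_refl _, Set.Iic_subset_Iic.2 h⟩

/-- layer cake -/
private theorem layer {ι : Type} [Countable ι] (μ : Measure Kern) [SigmaFinite μ] (g : ι → Kern → ℝ)
    (hg : ∀ i, Measurable (g i)) (A : Set Kern) :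
    ∫⁻ S in A, ⨆ i, ENNReal.ofReal (Real.exp (g i S)) ∂μ =
      ∫⁻ t, μ (A ∩ {S | ∃ i, t ≤ g i S}) ∂em := by
  have hm : MeasurableSet {q : Kern × ℝ | ∃ i, q.2 ≤ g i q.1} := by
    have : {q : Kern × ℝ | ∃ i, q.2 ≤ g i q.1} = ⋃ i, {q : Kern × ℝ | q.2 ≤ g i q.1} := by
      ext q; simp
    rw [this]
    exact MeasurableSet.iUnion fun i => measurableSet_le measurable_snd ((hg i).comp measurable_fst)
  have h1 : ∀ S : Kern, ⨆ i, ENNReal.ofReal (Real.exp (g i S)) =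
      ∫⁻ t, {q : Kern × ℝ | ∃ i, q.2 ≤ g i q.1}.indicator (fun _ => (1 : ENNReal)) (S, t) ∂em := by
    intro S
    rw [← em_sup]
    have : (fun t => {q : Kern × ℝ | ∃ i, q.2 ≤ g i q.1}.indicator (fun _ => (1 : ENNReal)) (S, t)) =
        {t | ∃ i, t ≤ g i S}.indicator (fun _ => (1 : ENNReal)) := by
      ext t
      simp only [Set.indicator, Set.mem_ofPred_eq]
    rw [this, lintegral_indicator_const, one_mul]
    have : {t | ∃ i, t ≤ g i S} = ⋃ i, Set.Iic (g i S) := by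
      ext t; simp
    rw [this]
    exact MeasurableSet.iUnion fun i => measurableSet_Iic
  simp only [h1]
  rw [lintegral_lintegral_swap]
  · congr 1
    ext t
    have : (fun S => {q : Kern × ℝ | ∃ i, q.2 ≤ g i q.1}.indicator (fun _ => (1 : ENNReal)) (S, t)) =
        {S | ∃ i, t ≤ g i S}.indicator (fun _ => (1 : ENNReal)) := by
      ext S
      simp only [Set.indicator, Set.mem_ofPred_eq]
    have hm' : MeasurableSet {S | ∃ i, t ≤ g i S} := by
      have : {S | ∃ i, t ≤ g i S} = ⋃ i, {S | t ≤ g i S} := by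
        ext S; simp
      rw [this]
      exact MeasurableSet.iUnion fun i => measurableSet_le measurable_const (hg i)
    rw [this, lintegral_indicator_const hm', one_mul, Measure.restrict_apply hm', Set.inter_comm]
  · exact (measurable_const.indicator hm).aemeasurable

/-- the rational points of the cell -/
private abbrev Cell (c c' : ℚ) : Type := {q : ℚ × ℚ // c ≤ q.1 ∧ q.1 ≤ c + 1 ∧ c' ≤ q.2 ∧ q.2 ≤ c' + 1}

private theorem zc_eq (S : Kern) (c c' : ℚ) :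
    Zc S c c' = ⨆ q : Cell c c', ENNReal.ofReal (Real.exp (S q.1.1 q.1.2)) := by
  unfold Zc
  apply le_antisymm
  · refine iSup_le fun x => iSup_le fun y => iSup_le fun hxy => ?_
    exact le_iSup (fun q : Cell c c' => ENNReal.ofReal (Real.exp (S q.1.1 q.1.2))) ⟨(x, y), hxy⟩
  · refine iSup_le fun q => ?_
    exact le_iSup_of_le q.1.1 (le_iSup_of_le q.1.2 (le_iSup_of_le q.2 le_rfl))

private theorem le_zc (S : Kern) (c c' x y : ℚ) (h1 : c ≤ x) (h2 : x ≤ c + 1) (h3 : c' ≤ y)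
    (h4 : y ≤ c' + 1) : ENNReal.ofReal (Real.exp (S x y)) ≤ Zc S c c' :=
  le_iSup_of_le x (le_iSup_of_le y (le_iSup_of_le ⟨h1, h2, h3, h4⟩ le_rfl))

private theorem bk_cell (h : Base ν tw β) (a : ℝ) (v c c' : ℚ) (t : ℝ) :
    ν 1 ({S | a ≤ S 0 v} ∩ {S | ∃ q : Cell c c', t ≤ S q.1.1 q.1.2}) ≤
      ν 1 {S | a ≤ S 0 v} * ν 1 {S | ∃ q : Cell c c', t ≤ S q.1.1 q.1.2} +
      ν 1 {S | ∃ q : Cell c c', t ≤ S 0 q.1.2 + S q.1.1 v - a} := by
  classical
  have _ : Nonempty (Cell c c') := ⟨⟨(c, c'), le_refl _, by linarith, le_refl _, by linarith⟩⟩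
  obtain ⟨e, he⟩ := exists_surjective_nat (Cell c c')
  set F : ℕ → Finset (ℚ × ℚ) := fun n => (Finset.range n).image fun i => (e i).1 with hF
  set L : ℕ → Set Kern := fun n => {S | a ≤ S 0 v ∧ ∃ q ∈ F n, t ≤ S q.1 q.2} with hL
  have hmono : Monotone L := by
    intro n m hnm S hS
    obtain ⟨h1, q, hq, h2⟩ := hS
    refine ⟨h1, q, ?_, h2⟩
    exact Finset.image_subset_image (Finset.range_mono hnm) hq
  have hU : {S | a ≤ S 0 v} ∩ {S | ∃ q : Cell c c', t ≤ S q.1.1 q.1.2} = ⋃ n, L n := by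
    ext S
    simp only [Set.mem_inter_iff, Set.mem_ofPred_eq, Set.mem_iUnion, hL, hF]
    constructor
    · rintro ⟨h1, q, h2⟩
      obtain ⟨i, rfl⟩ := he q
      exact ⟨i + 1, h1, (e i).1, Finset.mem_image.2 ⟨i, by simp, rfl⟩, h2⟩
    · rintro ⟨n, h1, q, hq, h2⟩
      obtain ⟨i, -, rfl⟩ := Finset.mem_image.1 hq
      exact ⟨h1, e i, h2⟩
  rw [hU, hmono.measure_iUnion]
  refine iSup_le fun n => ?_
  refine (h.bk v (F n) a t).trans ?_
  gcongr
  · rintro ⟨q, hq, h2⟩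
    obtain ⟨i, -, rfl⟩ := Finset.mem_image.1 hq
    exact ⟨e i, h2⟩
  · rintro ⟨q, hq, h2⟩
    obtain ⟨i, -, rfl⟩ := Finset.mem_image.1 hq
    exact ⟨e i, by linarith⟩

private theorem mS (x y : ℚ) : Measurable fun S : Kern => S x y :=
  (measurable_pi_apply y).comp (measurable_pi_apply x)

private theorem pos_A (h : Base ν tw β) (a : ℝ) (v : ℚ) : 0 < ν 1 {S | a ≤ S 0 v} := by
  have h1 := h.one 1 0 v one_pos
  have h2 : ν 1 {S | a ≤ S 0 v} = (ν 1).map (fun S => S 0 v) (Set.Ici a) := by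
    rw [Measure.map_apply (mS 0 v) measurableSet_Ici]; rfl
  rw [h2, h1, Measure.map_apply (by fun_prop) measurableSet_Ici]
  refine lt_of_lt_of_le (h.pos (a + (((0 : ℚ) : ℝ) - v) ^ 2)) (measure_mono ?_)
  intro t ht
  simp only [Set.mem_Ici, Set.mem_preimage, Real.one_rpow, one_mul, div_one] at ht ⊢
  linarith

private theorem cs {C : ℝ} (hC1 : 1 ≤ C)
    (hC : ∀ c c' : ℚ, ∫⁻ S, Zc S c c' ^ 2 ∂(ν 1) ≤
      ENNReal.ofReal (C * Real.exp (-(3 / 4) * (2 : ℕ) * ((c' : ℝ) - c) ^ 2))) (v c c' : ℚ) :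
    ∫⁻ S, Zc S 0 c' * Zc S c v ∂(ν 1) ≤
      ENNReal.ofReal (C * Real.exp (-(3 / 4) * ((c' : ℝ) ^ 2 + ((v : ℝ) - c) ^ 2))) := by
  have hh := ENNReal.lintegral_mul_le_Lp_mul_Lq (ν 1) Real.HolderConjugate.two_two
    (zc_meas 0 c').aemeasurable (zc_meas c v).aemeasurable
  simp only [Pi.mul_apply, ENNReal.rpow_ofNat] at hh
  refine hh.trans ?_
  have h1 := hC 0 c'
  have h2 := hC c v
  rw [Rat.cast_zero, sub_zero] at h1
  calc (∫⁻ S, Zc S 0 c' ^ 2 ∂(ν 1)) ^ ((1 : ℝ) / 2) * (∫⁻ S, Zc S c v ^ 2 ∂(ν 1)) ^ ((1 : ℝ) / 2)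
      ≤ (ENNReal.ofReal (C * Real.exp (-(3 / 4) * (2 : ℕ) * (c' : ℝ) ^ 2))) ^ ((1 : ℝ) / 2) *
        (ENNReal.ofReal (C * Real.exp (-(3 / 4) * (2 : ℕ) * ((v : ℝ) - c) ^ 2))) ^ ((1 : ℝ) / 2) := by
        gcongr
    _ = (ENNReal.ofReal ((C * Real.exp (-(3 / 4) * ((c' : ℝ) ^ 2 + ((v : ℝ) - c) ^ 2))) ^ 2)) ^ ((1 : ℝ) / 2) := by
        rw [← ENNReal.mul_rpow_of_nonneg _ _ (by norm_num), ← ENNReal.ofReal_mul (by positivity)]
        congr 2
        have e1 : Real.exp (-(3 / 4) * ((c' : ℝ) ^ 2 + ((v : ℝ) - c) ^ 2)) ^ 2 =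
            Real.exp (-(3 / 4) * (2 : ℕ) * (c' : ℝ) ^ 2) *
              Real.exp (-(3 / 4) * (2 : ℕ) * ((v : ℝ) - c) ^ 2) := by
          rw [← Real.exp_nat_mul, ← Real.exp_add]
          congr 1
          push_cast
          ring
        rw [mul_pow, e1]
        ring
    _ = _ := by
        rw [ENNReal.ofReal_pow (by positivity), ← ENNReal.rpow_natCast, ← ENNReal.rpow_mul]
        norm_num

theorem far_cell (h : Base ν tw β) : ∃ C : ℝ, 1 ≤ C ∧ ∀ (a : ℝ) (v : ℚ), 0 ≤ a → |v| ≤ 1 → ∃ R : ℝ, 0 < R ∧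
    ∀ c c' : ℚ, R ≤ |(c : ℝ)| →
    ∫⁻ S in {S | a ≤ S 0 v}, Zc S c c' ∂(ν 1) ≤
      ν 1 {S | a ≤ S 0 v} * ENNReal.ofReal (C * Real.exp (-((c' : ℝ) - c) ^ 2 / 4)) := by
  obtain ⟨C, hC1, hC⟩ := zc_pow h
  have hpr : IsProbabilityMeasure (ν 1) := h.prob 1 one_pos
  refine ⟨2 * C, by linarith, ?_⟩
  intro a v ha hv
  have hv' : |(v : ℝ)| ≤ 1 := by exact_mod_cast hv
  have hApos := pos_A h a v
  have hAfin : ν 1 {S | a ≤ S 0 v} ≠ ⊤ := measure_ne_top _ _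
  set m : ℝ := (ν 1 {S | a ≤ S 0 v}).toReal with hm
  have hmpos : 0 < m := ENNReal.toReal_pos hApos.ne' hAfin
  have hmA : ν 1 {S | a ≤ S 0 v} = ENNReal.ofReal m := (ENNReal.ofReal_toReal hAfin).symm
  refine ⟨8 * (1 + |5 - Real.log m|), by positivity, ?_⟩
  intro c c' hc
  have hcell : ∫⁻ S in {S | a ≤ S 0 v}, Zc S c c' ∂(ν 1) ≤
      ν 1 {S | a ≤ S 0 v} * ∫⁻ S, Zc S c c' ∂(ν 1) + ∫⁻ S, Zc S 0 c' * Zc S c v ∂(ν 1) := by
    have g1 : ∀ q : Cell c c', Measurable fun S : Kern => S q.1.1 q.1.2 := fun q => mS _ _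
    have g2 : ∀ q : Cell c c', Measurable fun S : Kern => S 0 q.1.2 + S q.1.1 v - a := fun q =>
      ((mS _ _).add (mS _ _)).sub_const a
    have l1 := layer (ν 1) (fun (q : Cell c c') (S : Kern) => S q.1.1 q.1.2) g1 {S | a ≤ S 0 v}
    have l2 := layer (ν 1) (fun (q : Cell c c') (S : Kern) => S q.1.1 q.1.2) g1 Set.univ
    have l3 := layer (ν 1) (fun (q : Cell c c') (S : Kern) => S 0 q.1.2 + S q.1.1 v - a) g2 Set.univ
    simp only [Set.univ_inter, Measure.restrict_univ] at l2 l3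
    have i1 : ∫⁻ S in {S | a ≤ S 0 v}, Zc S c c' ∂(ν 1) =
        ∫⁻ t, ν 1 ({S | a ≤ S 0 v} ∩ {S | ∃ q : Cell c c', t ≤ S q.1.1 q.1.2}) ∂em := by
      simp only [zc_eq]; exact l1
    have i2 : ∫⁻ S, Zc S c c' ∂(ν 1) = ∫⁻ t, ν 1 {S | ∃ q : Cell c c', t ≤ S q.1.1 q.1.2} ∂em := by
      simp only [zc_eq]; exact l2
    have i3 : ∫⁻ t, ν 1 {S | ∃ q : Cell c c', t ≤ S 0 q.1.2 + S q.1.1 v - a} ∂em ≤
        ∫⁻ S, Zc S 0 c' * Zc S c v ∂(ν 1) := by
      rw [← l3]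
      apply lintegral_mono
      intro S
      refine iSup_le fun q => ?_
      calc ENNReal.ofReal (Real.exp (S 0 q.1.2 + S q.1.1 v - a))
          ≤ ENNReal.ofReal (Real.exp (S 0 q.1.2) * Real.exp (S q.1.1 v)) := by
            apply ENNReal.ofReal_le_ofReal
            rw [← Real.exp_add]
            apply Real.exp_le_exp.2
            linarith
        _ = ENNReal.ofReal (Real.exp (S 0 q.1.2)) * ENNReal.ofReal (Real.exp (S q.1.1 v)) :=
            ENNReal.ofReal_mul (Real.exp_pos _).le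
        _ ≤ Zc S 0 c' * Zc S c v := by
            gcongr
            · exact le_zc S 0 c' 0 q.1.2 le_rfl (by norm_num) q.2.2.2.1 q.2.2.2.2
            · exact le_zc S c v q.1.1 v q.2.1 q.2.2.1 le_rfl (by linarith)
    calc ∫⁻ S in {S | a ≤ S 0 v}, Zc S c c' ∂(ν 1)
        = ∫⁻ t, ν 1 ({S | a ≤ S 0 v} ∩ {S | ∃ q : Cell c c', t ≤ S q.1.1 q.1.2}) ∂em := i1
      _ ≤ ∫⁻ t, (ν 1 {S | a ≤ S 0 v} * ν 1 {S | ∃ q : Cell c c', t ≤ S q.1.1 q.1.2} +
          ν 1 {S | ∃ q : Cell c c', t ≤ S 0 q.1.2 + S q.1.1 v - a}) ∂em :=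
          lintegral_mono fun t => bk_cell h a v c c' t
      _ ≤ ν 1 {S | a ≤ S 0 v} * ∫⁻ t, ν 1 {S | ∃ q : Cell c c', t ≤ S q.1.1 q.1.2} ∂em +
          ∫⁻ t, ν 1 {S | ∃ q : Cell c c', t ≤ S 0 q.1.2 + S q.1.1 v - a} ∂em := by
          rw [lintegral_add_left', lintegral_const_mul' _ _ hAfin]
          refine Measurable.aemeasurable ?_
          refine Measurable.const_mul ?_ _
          -- antitone in `t`
          have : Antitone fun t : ℝ => ν 1 {S : Kern | ∃ q : Cell c c', t ≤ S q.1.1 q.1.2} := by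
            intro s t hst
            apply measure_mono
            rintro S ⟨q, hq⟩
            exact ⟨q, hst.trans hq⟩
          exact this.measurable
      _ ≤ _ := by
          rw [← i2]
          gcongr
  refine hcell.trans ?_
  have b1 : ∫⁻ S, Zc S c c' ∂(ν 1) ≤ ENNReal.ofReal (C * Real.exp (-((c' : ℝ) - c) ^ 2 / 4)) := by
    have := hC 1 le_rfl (by norm_num) c c'
    simp only [pow_one] at this
    refine this.trans (ENNReal.ofReal_le_ofReal ?_)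
    have hle : -(3 / 4) * ((1 : ℕ) : ℝ) * ((c' : ℝ) - c) ^ 2 ≤ -((c' : ℝ) - c) ^ 2 / 4 := by
      push_cast
      nlinarith [sq_nonneg ((c' : ℝ) - c)]
    exact mul_le_mul_of_nonneg_left (Real.exp_le_exp.2 hle) (by linarith)
  have b2 : ∫⁻ S, Zc S 0 c' * Zc S c v ∂(ν 1) ≤
      ENNReal.ofReal (m * (C * Real.exp (-((c' : ℝ) - c) ^ 2 / 4))) := by
    refine (cs hC1 (fun c c' => hC 2 (by norm_num) le_rfl c c') v c c').trans ?_
    apply ENNReal.ofReal_le_ofReal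
    have k1 : (c : ℝ) ^ 2 = |(c : ℝ)| ^ 2 := (sq_abs _).symm
    have k2 : 5 - Real.log m ≤ (c : ℝ) ^ 2 / 8 := by
      have k3 : 5 - Real.log m ≤ |5 - Real.log m| := le_abs_self _
      have k4 : 0 ≤ |5 - Real.log m| := abs_nonneg _
      rw [k1]
      nlinarith [mul_self_le_mul_self (by positivity : (0 : ℝ) ≤ 8 * (1 + |5 - Real.log m|)) hc]
    have k5 : -(3 / 4) * ((c' : ℝ) ^ 2 + ((v : ℝ) - c) ^ 2) ≤ Real.log m + -((c' : ℝ) - c) ^ 2 / 4 := by
      have k6 : (v : ℝ) * c ≤ |(c : ℝ)| := by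
        calc (v : ℝ) * c ≤ |(v : ℝ) * c| := le_abs_self _
          _ = |(v : ℝ)| * |(c : ℝ)| := abs_mul _ _
          _ ≤ 1 * |(c : ℝ)| := by gcongr
          _ = |(c : ℝ)| := one_mul _
      have k7 := sq_nonneg (|(c : ℝ)| - 6)
      nlinarith [sq_nonneg ((c' : ℝ) + c), sq_nonneg (v : ℝ), sq_nonneg (c' : ℝ)]
    calc C * Real.exp (-(3 / 4) * ((c' : ℝ) ^ 2 + ((v : ℝ) - c) ^ 2))
        ≤ C * Real.exp (Real.log m + -((c' : ℝ) - c) ^ 2 / 4) :=
          mul_le_mul_of_nonneg_left (Real.exp_le_exp.2 k5) (by linarith)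
      _ = m * (C * Real.exp (-((c' : ℝ) - c) ^ 2 / 4)) := by
          rw [Real.exp_add, Real.exp_log hmpos]; ring
  calc ν 1 {S | a ≤ S 0 v} * ∫⁻ S, Zc S c c' ∂(ν 1) + ∫⁻ S, Zc S 0 c' * Zc S c v ∂(ν 1)
      ≤ ENNReal.ofReal m * ENNReal.ofReal (C * Real.exp (-((c' : ℝ) - c) ^ 2 / 4)) +
        ENNReal.ofReal (m * (C * Real.exp (-((c' : ℝ) - c) ^ 2 / 4))) := by
        rw [hmA]; gcongr
    _ = ENNReal.ofReal m * ENNReal.ofReal (2 * C * Real.exp (-((c' : ℝ) - c) ^ 2 / 4)) := by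
        rw [← ENNReal.ofReal_mul hmpos.le, ← ENNReal.ofReal_mul hmpos.le,
          ← ENNReal.ofReal_add (by positivity) (by positivity)]
        congr 1
        ring
    _ = _ := by rw [hmA]

end Pool.Agent.DLM
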