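import Pool.Agent.DLM.CHX
import Pool.Agent.DLM.FRB
import Pool.Agent.DLM.EDefs

/-!
# DLM/BLB: paths with small oscillation do not use the channel (120-160 lines)

`A l = {a ≤ S (x l) (x (l+1))}`, `x l = -v (k-l)`, `p₁ = ν 1 {a ≤ S 0 v} = ν 1 (A l)` (`Base.shift`) `≥ p₀ = tw (Ici (a+1))` (`one_up`, `v^2 ≤ 1`), `p₀ > 0` (`Base.pos`).  `R` from `far_cell` (for `a, v`).  `κ l c = p₀` if `|c - x l| < R`, else `1`.  `φ l c c' S = κ l c · 1_{A l}(S) · Zc S c c'`: by `far_cell` (shifted by `x l`: cells `c - x l`, `c' - x l`; `Base.shift`)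
for `|c - x l| ≥ R`, and by `zc_pow` for `|c - x l| < R` (`p₀ ∫_A Zc ≤ p₁ ∫ Zc`): `∫ φ ≤ p₁ C₀ exp(-(c'-c)^2/4)`, `∑_c ∫ φ ≤ p₁ C''`, `E TT k c' ≤ (p₁ C'')^k`.
If `z` has `|z k| ≤ exp k`, `SOsc 0 k (v k/C₄) z`, `wt U z 0 k > (a/2) k` and `U` is in all `A l`: `c l = ⌊z l⌋`; the number of `l < k` with `|c l - x l| < R` is at most `2k/C₄` for `k ≥ k₀`: for such `l` `x l` is in an interval of length `v k/C₄ + 2R + 2` (`z l` varies by at most `v k/C₄`) and the `x l` are spaced by `v`: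
at most `k/C₄ + (2R+2)/v + 1 ≤ 2k/C₄`.  So `exp((a/2) k) ≤ ∏ Zc ≤ (1/p₀)^(2k/C₄) ∏ φ ≤ exp((2k/C₄) log(1/p₀)) TT k (c k)`, `c k` takes at most `2 exp k + 3` values.  Markov.
-/

set_option autoImplicit false

open MeasureTheory ProbabilityTheory Filter Topology

namespace Pool.Agent.DLM

variable {ν : ℝ → Measure Kern} {tw : Measure ℝ} {β : ℝ → Measure Ini}

private theorem blb_gs {δ : ℝ} (hδ : 0 < δ) : ∃ M : ℝ, 0 ≤ M ∧ ∀ c' : ℤ,
    ∑' c : ℤ, ENNReal.ofReal (Real.exp (-δ * ((c' : ℝ) - c) ^ 2)) ≤ ENNReal.ofReal M := by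
  have hgeo : Summable fun n : ℕ => Real.exp (-δ * (n : ℝ)) := by
    have h1 : ∀ n : ℕ, Real.exp (-δ * (n : ℝ)) = Real.exp (-δ) ^ n := by
      intro n
      rw [← Real.exp_nat_mul]; ring_nf
    simp only [h1]
    exact summable_geometric_of_lt_one (Real.exp_pos _).le (by rw [Real.exp_lt_one_iff]; linarith)
  have habs : Summable fun c : ℤ => Real.exp (-δ * |(c : ℝ)|) := by
    refine Summable.of_nat_of_neg ?_ ?_
    · simpa using hgeo
    · simpa using hgeo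
  have hs : Summable fun c : ℤ => Real.exp (-δ * (c : ℝ) ^ 2) := by
    refine Summable.of_nonneg_of_le (fun c => (Real.exp_pos _).le) (fun c => ?_) habs
    apply Real.exp_le_exp.2
    have h1 : |(c : ℝ)| ≤ (c : ℝ) ^ 2 := by
      rw [← Int.cast_abs]
      have h2 : |c| ≤ c ^ 2 := by
        rw [← sq_abs]
        rcases eq_or_ne c 0 with rfl | h0
        · simp
        · have := Int.one_le_abs h0
          nlinarith
      exact_mod_cast h2
    nlinarith
  refine ⟨∑' c : ℤ, Real.exp (-δ * (c : ℝ) ^ 2), tsum_nonneg fun c => (Real.exp_pos _).le, fun c' => ?_⟩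
  rw [ENNReal.ofReal_tsum_of_nonneg (fun c => (Real.exp_pos _).le) hs]
  refine le_of_eq ?_
  rw [← (Equiv.subLeft c').tsum_eq (fun c : ℤ => ENNReal.ofReal (Real.exp (-δ * (c : ℝ) ^ 2)))]
  refine tsum_congr fun c => ?_
  simp [Equiv.subLeft]

private theorem blb_zc (S : Kern) (x y : ℚ) :
    ENNReal.ofReal (Real.exp (S x y)) ≤ Zc S ((⌊x⌋ : ℤ) : ℚ) ((⌊y⌋ : ℤ) : ℚ) := by
  unfold Zc
  refine le_iSup_of_le x (le_iSup_of_le y (le_iSup_of_le ⟨?_, ?_, ?_, ?_⟩ le_rfl))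
  · exact Int.floor_le x
  · exact (Int.lt_floor_add_one x).le
  · exact Int.floor_le y
  · exact (Int.lt_floor_add_one y).le

private theorem blb_mS (x y : ℚ) : Measurable fun S : Kern => S x y :=
  (measurable_pi_apply y).comp (measurable_pi_apply x)

private theorem blb_shift (h : Base ν tw β) (a : ℝ) (v x c c' : ℚ) :
    ∫⁻ S in {S : Kern | a ≤ S x (x + v)}, Zc S c c' ∂(ν 1) ≤
      ∫⁻ S in {S : Kern | a ≤ S 0 v}, Zc S (c - x) (c' - x) ∂(ν 1) := by
  have hsh := h.shift 1 x one_pos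
  have hg : Measurable fun (S : Kern) (x' y' : ℚ) => S (x' + x) (y' + x) :=
    measurable_pi_lambda _ fun x' => measurable_pi_lambda _ fun y' => blb_mS _ _
  have hA : MeasurableSet {S : Kern | a ≤ S 0 v} := measurableSet_le measurable_const (blb_mS 0 v)
  conv_rhs => rw [← hsh]
  rw [setLIntegral_map hA (zc_meas _ _) hg]
  have e1 : (fun (S : Kern) (x' y' : ℚ) => S (x' + x) (y' + x)) ⁻¹' {S : Kern | a ≤ S 0 v} =
      {S : Kern | a ≤ S x (x + v)} := by
    ext S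
    change a ≤ S (0 + x) (v + x) ↔ a ≤ S x (x + v)
    rw [zero_add, add_comm v x]
  rw [e1]
  refine lintegral_mono fun S => ?_
  unfold Zc
  refine iSup_le fun x' => iSup_le fun y' => iSup_le fun hxy => ?_
  refine le_iSup_of_le (x' - x) (le_iSup_of_le (y' - x) (le_iSup_of_le ⟨?_, ?_, ?_, ?_⟩ ?_))
  · linarith [hxy.1]
  · linarith [hxy.2.1]
  · linarith [hxy.2.2.1]
  · linarith [hxy.2.2.2]
  · change _ ≤ ENNReal.ofReal (Real.exp (S (x' - x + x) (y' - x + x)))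
    rw [sub_add_cancel, sub_add_cancel]

private theorem blb_p0 (h : Base ν tw β) (a : ℝ) (v : ℚ) (hv : 0 < v) (hv1 : v ≤ 1) :
    tw (Set.Ici (a + 1)) ≤ ν 1 {S | a ≤ S 0 v} := by
  have h1 := h.one 1 0 v one_pos
  have h2 : ν 1 {S | a ≤ S 0 v} = (ν 1).map (fun S => S 0 v) (Set.Ici a) := by
    rw [Measure.map_apply (blb_mS 0 v) measurableSet_Ici]; rfl
  rw [h2, h1, Measure.map_apply (by fun_prop) measurableSet_Ici]
  refine measure_mono ?_
  intro t ht
  have hv' : (v : ℝ) ≤ 1 := by exact_mod_cast hv1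
  have hv0 : (0 : ℝ) < v := by exact_mod_cast hv
  simp only [Set.mem_Ici, Set.mem_preimage, Real.one_rpow, one_mul, div_one, Rat.cast_zero, zero_sub, neg_sq] at ht ⊢
  nlinarith

/-- the number of times at which the path is near the channel -/
private theorem blb_cnt {k : ℕ} {v : ℚ} (hv : 0 < v) {C₄ R : ℝ} (hC : 1 ≤ C₄)
    (hk : C₄ * (2 * (R + 1) / v + 1) ≤ k) (z : ℕ → ℚ) (hz : SOsc 0 k (v * k / C₄) z) :
    ((((Finset.range k).filter fun l : ℕ =>
      |((⌊z l⌋ : ℤ) : ℝ) - ((-(v * ((k : ℚ) - l)) : ℚ) : ℝ)| < R).card : ℕ) : ℝ) ≤ 2 * k / C₄ := by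
  set T := (Finset.range k).filter fun l : ℕ =>
      |((⌊z l⌋ : ℤ) : ℝ) - ((-(v * ((k : ℚ) - l)) : ℚ) : ℝ)| < R with hT
  have hv' : (0 : ℝ) < v := by exact_mod_cast hv
  rcases T.eq_empty_or_nonempty with h0 | h0
  · rw [h0]; simp; positivity
  have hmem : ∀ l ∈ T, l < k ∧ |(z l : ℝ) - (-(v * ((k : ℝ) - l)))| < R + 1 := by
    intro l hl
    rw [hT, Finset.mem_filter, Finset.mem_range] at hl
    refine ⟨hl.1, ?_⟩
    have h1 := hl.2
    have h2 : ((⌊z l⌋ : ℤ) : ℝ) ≤ (z l : ℝ) := by exact_mod_cast Int.floor_le (z l)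
    have h3 : (z l : ℝ) < ((⌊z l⌋ : ℤ) : ℝ) + 1 := by exact_mod_cast Int.lt_floor_add_one (z l)
    push_cast at h1
    rw [abs_lt] at h1 ⊢
    constructor <;> linarith [h1.1, h1.2]
  have hmin := hmem _ (T.min'_mem h0)
  have hmax := hmem _ (T.max'_mem h0)
  set l1 := T.min' h0
  set l2 := T.max' h0
  have hle : l1 ≤ l2 := T.min'_le _ (T.max'_mem h0)
  have hsub : T ⊆ Finset.Icc l1 l2 := by
    intro l hl
    rw [Finset.mem_Icc]
    exact ⟨T.min'_le _ hl, T.le_max' _ hl⟩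
  have hcard : T.card ≤ l2 + 1 - l1 := by
    have := Finset.card_le_card hsub
    rwa [Nat.card_Icc] at this
  have hcard' : (T.card : ℝ) ≤ (l2 : ℝ) - l1 + 1 := by
    have h1 : ((l2 + 1 - l1 : ℕ) : ℝ) = (l2 : ℝ) - l1 + 1 := by
      rw [Nat.cast_sub (by omega)]; push_cast; ring
    rw [← h1]
    exact_mod_cast hcard
  have hosc := hz l2 l1 (Nat.zero_le _) (by omega) (Nat.zero_le _) (by omega)
  rw [abs_lt] at hosc
  have h1 := abs_lt.1 hmin.2
  have h2 := abs_lt.1 hmax.2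
  have h3 : (v : ℝ) * ((l2 : ℝ) - l1) ≤ v * k / C₄ + 2 * (R + 1) := by nlinarith [h1.1, h1.2, h2.1, h2.2, hosc.1, hosc.2]
  have h4 : (l2 : ℝ) - l1 ≤ k / C₄ + 2 * (R + 1) / v := by
    have h5 : (l2 : ℝ) - l1 ≤ (v * k / C₄ + 2 * (R + 1)) / v := by
      rw [le_div_iff₀ hv']; linarith
    refine h5.trans (le_of_eq ?_)
    field_simp
  have h6 : 2 * (R + 1) / v + 1 ≤ k / C₄ := by
    rw [le_div_iff₀ (by linarith)]; linarith
  have h7 : (2 : ℝ) * k / C₄ = k / C₄ + k / C₄ := by ring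
  rw [h7]
  linarith

theorem blk_osc (h : Base ν tw β) : ∃ C : ℝ, 1 ≤ C ∧ ∀ (a C₄ : ℝ) (v : ℚ), 0 ≤ a → 1 ≤ C₄ → 0 < v → v ≤ 1 →
    ∃ k₀ : ℕ, ∀ k : ℕ, k₀ ≤ k → ∀ ρ : ℕ → Measure Kern, (∀ j, IsProbabilityMeasure (ρ j)) → (∀ j < k, ρ j = ν 1) →
    Measure.infinitePi ρ {U | (∀ l < k, a ≤ U l (-(v * ((k : ℚ) - l))) (-(v * ((k : ℚ) - (l + 1))))) ∧
        ∃ z : ℕ → ℚ, |(z k : ℝ)| ≤ Real.exp k ∧ SOsc 0 k (v * k / C₄) z ∧ a / 2 * k < wt U z 0 k} ≤
      (ν 1 {S | a ≤ S 0 v}) ^ k * ENNReal.ofReal ((2 * Real.exp k + 3) * Real.exp ((C - a / 2) * k) *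
        Real.exp (2 * k / C₄ * Real.log (1 / (tw (Set.Ici (a + 1))).toReal))) := by
  obtain ⟨C₀, hC₀, hz⟩ := zc_pow h
  obtain ⟨C₁, hC₁, hf⟩ := far_cell h
  obtain ⟨M, hM0, hM⟩ := blb_gs (δ := 1 / 4) (by norm_num)
  have hprob := h.prob 1 one_pos
  have htw := h.twprob
  refine ⟨max 1 (max C₀ C₁ * M), le_max_left _ _, ?_⟩
  intro a C₄ v ha hC₄ hv hv1
  obtain ⟨R, hR, hfar⟩ := hf a v ha (by rw [abs_of_pos hv]; exact hv1)
  refine ⟨⌈C₄ * (2 * (R + 1) / v + 1)⌉₊, ?_⟩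
  intro k hk0 ρ hρ hk
  have hkr : C₄ * (2 * (R + 1) / v + 1) ≤ k := (Nat.le_ceil _).trans (by exact_mod_cast hk0)
  set C : ℝ := max 1 (max C₀ C₁ * M) with hC
  set p₁ : ENNReal := ν 1 {S | a ≤ S 0 v} with hp₁
  set p₀ : ℝ := (tw (Set.Ici (a + 1))).toReal with hp₀
  have hp0pos : 0 < p₀ := ENNReal.toReal_pos (h.pos (a + 1)).ne' (measure_ne_top _ _)
  have hp0le : p₀ ≤ 1 := by
    rw [hp₀]
    have : tw (Set.Ici (a + 1)) ≤ 1 := prob_le_one
    simpa using ENNReal.toReal_mono ENNReal.one_ne_top this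
  have hp01 : ENNReal.ofReal p₀ ≤ p₁ := by
    rw [hp₀, ENNReal.ofReal_toReal (measure_ne_top _ _)]
    exact blb_p0 h a v hv hv1
  set x : ℕ → ℚ := fun l => -(v * ((k : ℚ) - l)) with hx
  have hx1 : ∀ l : ℕ, -(v * ((k : ℚ) - (l + 1))) = x l + v := by
    intro l; simp only [hx]; ring
  set A : ℕ → Set Kern := fun l => {S | a ≤ S (x l) (x l + v)} with hAd
  have hAm : ∀ l, MeasurableSet (A l) := fun l => measurableSet_le measurable_const (blb_mS _ _)
  classical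
  set κ : ℕ → ℤ → ENNReal := fun l c => if |(c : ℝ) - (x l : ℝ)| < R then ENNReal.ofReal p₀ else 1 with hκ
  set φ : ℕ → ℤ → ℤ → Kern → ENNReal := fun l c c' S => κ l c * (A l).indicator (fun S => Zc S (c : ℚ) (c' : ℚ)) S
    with hφ
  have hφm : ∀ l c c', Measurable (φ l c c') := fun l c c' => ((zc_meas _ _).indicator (hAm l)).const_mul _
  have hone : ∀ (l : ℕ) (c c' : ℤ), ∫⁻ S, φ l c c' S ∂(ν 1) ≤
      p₁ * ENNReal.ofReal (max C₀ C₁ * Real.exp (-(1 / 4) * ((c' : ℝ) - c) ^ 2)) := by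
    intro l c c'
    simp only [hφ]
    rw [lintegral_const_mul _ ((zc_meas _ _).indicator (hAm l)), lintegral_indicator (hAm l)]
    have hsh := blb_shift h a v (x l) (c : ℚ) (c' : ℚ)
    by_cases hc : |(c : ℝ) - (x l : ℝ)| < R
    · simp only [hκ, if_pos hc]
      have h1 : ∫⁻ S in A l, Zc S (c : ℚ) (c' : ℚ) ∂(ν 1) ≤
          ENNReal.ofReal (max C₀ C₁ * Real.exp (-(1 / 4) * ((c' : ℝ) - c) ^ 2)) := by
        refine (setLIntegral_le_lintegral _ _).trans ?_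
        have h2 := hz 1 le_rfl (by norm_num) (c : ℚ) (c' : ℚ)
        simp only [pow_one, Nat.cast_one, mul_one, Rat.cast_intCast] at h2
        refine h2.trans (ENNReal.ofReal_le_ofReal ?_)
        have h3 : Real.exp (-(3 / 4) * ((c' : ℝ) - c) ^ 2) ≤ Real.exp (-(1 / 4) * ((c' : ℝ) - c) ^ 2) := by
          apply Real.exp_le_exp.2
          nlinarith [sq_nonneg ((c' : ℝ) - c)]
        exact mul_le_mul (le_max_left _ _) h3 (Real.exp_pos _).le (by positivity)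
      exact mul_le_mul' hp01 h1
    · simp only [hκ, if_neg hc, one_mul]
      refine hsh.trans ?_
      have h2 := hfar ((c : ℚ) - x l) ((c' : ℚ) - x l) (by push_cast; exact not_lt.1 hc)
      refine h2.trans ?_
      gcongr
      · exact le_max_right _ _
      · push_cast
        apply le_of_eq
        ring
  have hq : ∀ l < k, ∀ c', ∑' c, ∫⁻ S, φ l c c' S ∂(ρ l) ≤ p₁ * ENNReal.ofReal (Real.exp C) := by
    intro l hl c'
    rw [hk l hl]
    calc ∑' c, ∫⁻ S, φ l c c' S ∂(ν 1)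
        ≤ ∑' c : ℤ, (p₁ * ENNReal.ofReal (max C₀ C₁)) * ENNReal.ofReal (Real.exp (-(1 / 4) * ((c' : ℝ) - c) ^ 2)) := by
          refine ENNReal.tsum_le_tsum fun c => ?_
          refine (hone l c c').trans (le_of_eq ?_)
          rw [ENNReal.ofReal_mul (by positivity), mul_assoc]
      _ = (p₁ * ENNReal.ofReal (max C₀ C₁)) * ∑' c : ℤ, ENNReal.ofReal (Real.exp (-(1 / 4) * ((c' : ℝ) - c) ^ 2)) :=
          ENNReal.tsum_mul_left
      _ ≤ (p₁ * ENNReal.ofReal (max C₀ C₁)) * ENNReal.ofReal M := by gcongr; exact hM c'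
      _ = p₁ * ENNReal.ofReal (max C₀ C₁ * M) := by rw [mul_assoc, ← ENNReal.ofReal_mul (by positivity)]
      _ ≤ p₁ * ENNReal.ofReal (Real.exp C) := by
          gcongr
          have h1 : max C₀ C₁ * M ≤ C := le_max_right _ _
          have h2 := Real.add_one_le_exp C
          linarith
  set I : Finset ℤ := Finset.Icc (-(⌊Real.exp k⌋ + 1)) ⌊Real.exp k⌋ with hI
  have hcard : (I.card : ℝ) ≤ 2 * Real.exp k + 3 := by
    have h0 : 0 ≤ ⌊Real.exp (k : ℝ)⌋ := Int.floor_nonneg.2 (Real.exp_pos _).le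
    have h1 : (I.card : ℤ) = 2 * ⌊Real.exp (k : ℝ)⌋ + 2 := by
      rw [hI, Int.card_Icc, Int.toNat_of_nonneg (by omega)]; ring
    have h2 : (I.card : ℝ) = 2 * (⌊Real.exp (k : ℝ)⌋ : ℝ) + 2 := by exact_mod_cast h1
    have h3 := Int.floor_le (Real.exp (k : ℝ))
    linarith
  set thr : ℝ := Real.exp (2 * k / C₄ * Real.log p₀) * Real.exp (a / 2 * k) with hthr
  have hthr0 : 0 < thr := by positivity
  have hsub : {U : ℕ → Kern | (∀ l < k, a ≤ U l (-(v * ((k : ℚ) - l))) (-(v * ((k : ℚ) - (l + 1))))) ∧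
        ∃ z : ℕ → ℚ, |(z k : ℝ)| ≤ Real.exp k ∧ SOsc 0 k (v * k / C₄) z ∧ a / 2 * k < wt U z 0 k} ⊆
      ⋃ c ∈ I, {U | ENNReal.ofReal thr ≤ TT φ U k c} := by
    rintro U ⟨hU, z, hzA, hosc, hw⟩
    simp only [Set.mem_iUnion, exists_prop]
    refine ⟨⌊z k⌋, ?_, ?_⟩
    · rw [hI, Finset.mem_Icc]
      obtain ⟨h1, h2⟩ := abs_le.1 hzA
      constructor
      · rw [Int.le_floor]
        have h3 := Int.lt_floor_add_one (Real.exp (k : ℝ))
        have h4 : ((-(⌊Real.exp (k : ℝ)⌋ + 1) : ℤ) : ℝ) ≤ (z k : ℝ) := by push_cast; linarith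
        exact_mod_cast h4
      · rw [Int.le_floor]
        have h3 : ((⌊z k⌋ : ℤ) : ℝ) ≤ (z k : ℝ) := by exact_mod_cast Int.floor_le (z k)
        linarith
    · change ENNReal.ofReal thr ≤ TT φ U k ⌊z k⌋
      refine le_trans ?_ (tt_ge φ U k fun l => ⌊z l⌋)
      have hcnt := blb_cnt hv hC₄ hkr z hosc
      have e1 : ∏ l ∈ Finset.range k, φ l ⌊z l⌋ ⌊z (l + 1)⌋ (U l) =
          (∏ l ∈ Finset.range k, κ l ⌊z l⌋) *
            ∏ l ∈ Finset.range k, Zc (U l) ((⌊z l⌋ : ℤ) : ℚ) ((⌊z (l + 1)⌋ : ℤ) : ℚ) := by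
        rw [← Finset.prod_mul_distrib]
        refine Finset.prod_congr rfl fun l hl => ?_
        simp only [hφ]
        rw [Set.indicator_of_mem]
        have h1 := hU l (Finset.mem_range.1 hl)
        rw [hx1 l] at h1
        exact h1
      have e2 : ∏ l ∈ Finset.range k, κ l ⌊z l⌋ = ENNReal.ofReal p₀ ^
          ((Finset.range k).filter fun l : ℕ =>
            |((⌊z l⌋ : ℤ) : ℝ) - ((-(v * ((k : ℚ) - l)) : ℚ) : ℝ)| < R).card := by
        simp only [hκ, hx]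
        rw [Finset.prod_ite, Finset.prod_const, Finset.prod_const_one, mul_one]
      rw [e1, e2, hthr, ENNReal.ofReal_mul (Real.exp_pos _).le]
      refine mul_le_mul' ?_ ?_
      · rw [← ENNReal.ofReal_pow hp0pos.le]
        apply ENNReal.ofReal_le_ofReal
        rw [← Real.rpow_natCast, Real.rpow_def_of_pos hp0pos]
        apply Real.exp_le_exp.2
        rw [mul_comm]
        exact mul_le_mul_of_nonpos_left hcnt (Real.log_nonpos hp0pos.le hp0le)
      · calc ENNReal.ofReal (Real.exp (a / 2 * k)) ≤ ENNReal.ofReal (Real.exp (wt U z 0 k)) :=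
              ENNReal.ofReal_le_ofReal (Real.exp_le_exp.2 hw.le)
          _ = ∏ l ∈ Finset.range k, ENNReal.ofReal (Real.exp (U l (z l) (z (l + 1)))) := by
              rw [wt, Real.exp_sum, Nat.Ico_zero_eq_range,
                ENNReal.ofReal_prod_of_nonneg fun l _ => (Real.exp_pos _).le]
          _ ≤ _ := by
              refine Finset.prod_le_prod' fun l _ => ?_
              exact blb_zc (U l) (z l) (z (l + 1))
  refine (measure_mono hsub).trans ((measure_biUnion_finset_le _ _).trans ?_)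
  have hpos : ENNReal.ofReal thr ≠ 0 := by
    simp only [ne_eq, ENNReal.ofReal_eq_zero, not_le]
    exact hthr0
  have hmk : ∀ c ∈ I, Measure.infinitePi ρ {U | ENNReal.ofReal thr ≤ TT φ U k c} ≤
      p₁ ^ k * ENNReal.ofReal (Real.exp ((C - a / 2) * k) * Real.exp (2 * k / C₄ * Real.log (1 / p₀))) := by
    intro c _
    refine (meas_ge_le_lintegral_div (tt_meas φ hφm k c).aemeasurable hpos ENNReal.ofReal_ne_top).trans ?_
    calc (∫⁻ U, TT φ U k c ∂(Measure.infinitePi ρ)) / ENNReal.ofReal thr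
        ≤ (p₁ * ENNReal.ofReal (Real.exp C)) ^ k / ENNReal.ofReal thr := by
          gcongr
          exact tt_bound ρ hρ φ hφm _ k hq c
      _ = p₁ ^ k * (ENNReal.ofReal (Real.exp C) ^ k / ENNReal.ofReal thr) := by rw [mul_pow, mul_div_assoc]
      _ = _ := by
          rw [← ENNReal.ofReal_pow (Real.exp_pos _).le, ← ENNReal.ofReal_div_of_pos hthr0,
            ← Real.exp_nat_mul, hthr, ← Real.exp_add, ← Real.exp_sub, ← Real.exp_add, one_div, Real.log_inv]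
          congr 3
          ring
  refine (Finset.sum_le_sum hmk).trans ?_
  rw [Finset.sum_const, nsmul_eq_mul]
  calc (I.card : ENNReal) * (p₁ ^ k * ENNReal.ofReal (Real.exp ((C - a / 2) * k) *
        Real.exp (2 * k / C₄ * Real.log (1 / p₀))))
      = p₁ ^ k * ((I.card : ENNReal) * ENNReal.ofReal (Real.exp ((C - a / 2) * k) *
        Real.exp (2 * k / C₄ * Real.log (1 / p₀)))) := by ring
    _ ≤ p₁ ^ k * (ENNReal.ofReal (2 * Real.exp k + 3) * ENNReal.ofReal (Real.exp ((C - a / 2) * k) *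
        Real.exp (2 * k / C₄ * Real.log (1 / p₀)))) := by
        gcongr
        rw [← ENNReal.ofReal_natCast]
        exact ENNReal.ofReal_le_ofReal hcard
    _ = _ := by rw [← ENNReal.ofReal_mul (by positivity), mul_assoc]

end Pool.Agent.DLM
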