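import Pool.Agent.DLM.BLA
import Pool.Agent.DLM.BLB

/-!
# DLM/BLC: a block is good with probability at least `1/w` (100-140 lines)

`C` = maximum of the constants of `blk_up`, `blk_osc`; `a = 2C + 6`; `p₀ = (tw (Ici (a+1))).toReal ∈ (0, 1]`, `L = log(1/p₀) ≥ 0`; `C₄ = 3 L + 1`; `c₉ = 1/(2 L + 2)` (`≤ 1`); `C₂ = C + L + 1 + 210/c₉`.  `k = kW c₉ w ≤ c₉ log w`, `k ≥ c₉ log w - 1`, `k → ∞`.  `G1` (the channel) has probability `p₁^k`, `p₁ = ν 1 {a ≤ S 0 v} ≥ p₀` (independence; `Base.shift`).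
`G1 ⊆ Good ∪ (G1 ∩ event of blk_osc) ∪ (event of blk_up with A = w^202)`.  `blk_osc`: `≤ p₁^k (2 e^k + 3) e^(-3k) e^((2k/C₄) L) ≤ p₁^k · 5 e^(-4k/3) ≤ p₁^k/4`.  `blk_up`: `≤ (2 w^202 + 3) exp((C - C₂) k) = (2 w^202 + 3) p₀^k e^(-k) e^(-210 k/c₉) ≤ p₁^k (2 w^202 + 3) e^(210/c₉) w^(-210) ≤ p₁^k/4` for `w` large.
So `P(Good) ≥ p₁^k/2 ≥ p₀^k/2 ≥ exp(-c₉ L log w)/2 ≥ w^(-1/2)/2 ≥ 1/w` for `w ≥ 4`.
`good_env`: `blkS w b x₀` maps `piM ν dur` to `infinitePi ρ`, `ρ j` = law of `w^100 S (x₀ + x/w^200) (x₀ + y/w^200)`, `S ~ ν (dur (b + j))`, which is `ν 1` if `dur (b+j) = 1/w^300` (`Base.scal` with `r = w^100`, `Base.shift`); `Measure.infinitePi_map_pi`, `Measure.map_infinitePi_infinitePi_of_inj`; the event `Good` may be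
replaced by the complement of a measurable superset (or: `Good` is measurable: the paths `z` only matter at `0, .., k`; simplest: `measure_preimage`-type inequality for non-measurable sets holds in the form `μ.map T A ≥ ..` only for measurable sets, so prove measurability of `{U | Good ..}` as a countable intersection over `Fin (k+1) → ℚ`).
-/

set_option autoImplicit false

open MeasureTheory ProbabilityTheory Filter Topology

namespace Pool.Agent.DLM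

variable {ν : ℝ → Measure Kern} {tw : Measure ℝ} {β : ℝ → Measure Ini}

private theorem blc_wtm (z : ℕ → ℚ) (a c : ℕ) : Measurable fun U : ℕ → Kern => wt U z a c := by
  unfold wt
  refine Finset.measurable_sum _ fun l _ => ?_
  fun_prop

private theorem blc_pm (k : ℕ) (P : (ℕ → ℚ) → Prop) (hP : ∀ z z' : ℕ → ℚ, (∀ l ≤ k, z l = z' l) → P z → P z')
    (c : ℝ) : MeasurableSet {U : ℕ → Kern | ∀ z, P z → wt U z 0 k ≤ c} := by
  have e : {U : ℕ → Kern | ∀ z, P z → wt U z 0 k ≤ c} = ⋂ y : Fin (k + 1) → ℚ,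
      {U : ℕ → Kern | P (fun l => if h : l < k + 1 then y ⟨l, h⟩ else 0) →
        wt U (fun l => if h : l < k + 1 then y ⟨l, h⟩ else 0) 0 k ≤ c} := by
    ext U
    rw [Set.mem_iInter]
    constructor
    · intro hU y
      exact hU _
    · intro hU z hz
      have e1 : ∀ l ≤ k, z l = (fun l => if h : l < k + 1 then (fun i : Fin (k + 1) => z i) ⟨l, h⟩ else 0) l := by
        intro l hl
        have : l < k + 1 := by omega
        simp only [this, dite_true]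
      have h2 := hU (fun i => z i) (hP _ _ e1 hz)
      have e2 : wt U z 0 k = wt U (fun l => if h : l < k + 1 then (fun i : Fin (k + 1) => z i) ⟨l, h⟩ else 0) 0 k := by
        unfold wt
        refine Finset.sum_congr rfl fun l hl => ?_
        have hl' := (Finset.mem_Ico.1 hl).2
        rw [← e1 l hl'.le, ← e1 (l + 1) hl']
      rw [e2]
      exact h2
  rw [e]
  refine MeasurableSet.iInter fun y => ?_
  by_cases hy : P (fun l => if h : l < k + 1 then y ⟨l, h⟩ else 0)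
  · simp only [hy, true_implies]
    exact measurableSet_le (blc_wtm _ _ _) measurable_const
  · simp only [hy, false_implies]
    exact MeasurableSet.univ

theorem good_meas (k : ℕ) (v : ℚ) (a Λ A C₂ : ℝ) : MeasurableSet {U : ℕ → Kern | Good k v a Λ A C₂ U} := by
  have e : {U : ℕ → Kern | Good k v a Λ A C₂ U} =
      (⋂ l : ℕ, ⋂ _ : l < k, {U : ℕ → Kern | a ≤ U l (-(v * ((k : ℚ) - l))) (-(v * ((k : ℚ) - (l + 1))))}) ∩
      ({U : ℕ → Kern | ∀ z : ℕ → ℚ, (|(z k : ℝ)| ≤ Real.exp k ∧ SOsc 0 k Λ z) → wt U z 0 k ≤ a / 2 * k} ∩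
      {U : ℕ → Kern | ∀ z : ℕ → ℚ, |(z k : ℝ)| ≤ A → wt U z 0 k ≤ C₂ * k}) := by
    ext U
    constructor
    · rintro ⟨h1, h2, h3⟩
      refine ⟨?_, fun z hz => h2 z hz.1 hz.2, h3⟩
      rw [Set.mem_iInter₂]
      exact h1
    · rintro ⟨h1, h2, h3⟩
      rw [Set.mem_iInter₂] at h1
      exact ⟨h1, fun z hz hz' => h2 z ⟨hz, hz'⟩, h3⟩
  rw [e]
  refine MeasurableSet.inter ?_ (MeasurableSet.inter ?_ ?_)
  · refine MeasurableSet.iInter fun l => MeasurableSet.iInter fun _ => ?_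
    exact measurableSet_le measurable_const (by fun_prop)
  · refine blc_pm k _ ?_ _
    intro z z' hz hP
    refine ⟨by rw [← hz k le_rfl]; exact hP.1, fun l l' h1 h2 h3 h4 => ?_⟩
    rw [← hz l (by omega), ← hz l' (by omega)]
    exact hP.2 l l' h1 h2 h3 h4
  · refine blc_pm k _ ?_ _
    intro z z' hz hP
    rw [← hz k le_rfl]
    exact hP

private theorem blc_r1 (C L : ℝ) (k : ℕ) (hL : 0 ≤ L) (hk : 15 ≤ k) :
    (2 * Real.exp k + 3) * Real.exp ((C - (2 * C + 6) / 2) * k) * Real.exp (2 * k / (3 * L + 1) * L) ≤ 1 / 4 := by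
  have hk' : (15 : ℝ) ≤ k := by exact_mod_cast hk
  have h1 : (1 : ℝ) ≤ Real.exp k := Real.one_le_exp (by positivity)
  have h2 : 2 * Real.exp k + 3 ≤ 5 * Real.exp k := by linarith
  have h3 : 2 * (k : ℝ) / (3 * L + 1) * L ≤ 2 / 3 * k := by
    rw [div_mul_eq_mul_div, div_le_iff₀ (by linarith)]
    nlinarith
  have h4 : (C - (2 * C + 6) / 2) * (k : ℝ) = -3 * k := by ring
  rw [h4]
  have h5 : (2 * Real.exp k + 3) * Real.exp (-3 * k) * Real.exp (2 * k / (3 * L + 1) * L) ≤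
      5 * Real.exp k * Real.exp (-3 * k) * Real.exp (2 / 3 * k) :=
    mul_le_mul (mul_le_mul_of_nonneg_right h2 (Real.exp_pos _).le) (Real.exp_le_exp.2 h3) (Real.exp_pos _).le (by positivity)
  have h6 : 5 * Real.exp k * Real.exp (-3 * k) * Real.exp (2 / 3 * k) = 5 * Real.exp (-(4 / 3 * k)) := by
    rw [mul_assoc, mul_assoc, ← Real.exp_add, ← Real.exp_add]
    congr 2
    ring
  have h7 : (20 : ℝ) ≤ Real.exp (4 / 3 * k) := by
    have := Real.add_one_le_exp (4 / 3 * (k : ℝ))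
    linarith
  rw [h6, Real.exp_neg] at h5
  have h8 : (Real.exp (4 / 3 * k))⁻¹ ≤ 20⁻¹ := inv_anti₀ (by norm_num) h7
  linarith

private theorem blc_r2 (C L c w : ℝ) (k : ℕ) (hc : 0 < c)
    (hk : c * Real.log w - 1 ≤ k) (hw : 20 * Real.exp (210 / c) ≤ w) :
    (2 * w ^ 202 + 3) * Real.exp ((C - (C + L + 1 + 210 / c)) * k) ≤ Real.exp (-(L * k)) / 4 := by
  have he : (1 : ℝ) ≤ Real.exp (210 / c) := Real.one_le_exp (by positivity)
  have hw1 : 1 ≤ w := by linarith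
  have hw0 : 0 < w := by linarith
  have h1 : (C - (C + L + 1 + 210 / c)) * (k : ℝ) = -(L * k) + (-(k : ℝ) + -(210 / c * k)) := by ring
  have h2 : -(210 / c * (k : ℝ)) ≤ -(210 * Real.log w) + 210 / c := by
    have h3 : 210 / c * (c * Real.log w - 1) ≤ 210 / c * (k : ℝ) := mul_le_mul_of_nonneg_left hk (by positivity)
    have h4 : 210 / c * (c * Real.log w - 1) = 210 * Real.log w - 210 / c := by
      field_simp
    linarith
  have h3 : Real.exp (-(k : ℝ) + -(210 / c * k)) ≤ Real.exp (210 / c) / w ^ 210 := by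
    have h5 : Real.exp (210 / c) / w ^ 210 = Real.exp (-(210 * Real.log w) + 210 / c) := by
      rw [Real.exp_add, Real.exp_neg]
      have : Real.exp (210 * Real.log w) = w ^ 210 := by
        rw [show (210 : ℝ) * Real.log w = ((210 : ℕ) : ℝ) * Real.log w by norm_num, Real.exp_nat_mul, Real.exp_log hw0]
      rw [this]
      ring
    rw [h5]
    refine Real.exp_le_exp.2 ?_
    have : (0 : ℝ) ≤ k := Nat.cast_nonneg k
    linarith
  have h4 : 2 * w ^ 202 + 3 ≤ 5 * w ^ 202 := by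
    have : 1 ≤ w ^ 202 := one_le_pow₀ hw1
    linarith
  rw [h1, Real.exp_add]
  have h5 : 5 * w ^ 202 * (Real.exp (210 / c) / w ^ 210) ≤ 1 / 4 := by
    rw [mul_div_assoc', div_le_iff₀ (by positivity)]
    have h6 : w ^ 210 = w ^ 202 * w * w ^ 7 := by ring
    have h7 : 1 ≤ w ^ 7 := one_le_pow₀ hw1
    have h8 : 0 < w ^ 202 := by positivity
    rw [h6]
    have h9 : w ^ 202 * (20 * Real.exp (210 / c)) * 1 ≤ w ^ 202 * w * w ^ 7 :=
      mul_le_mul (mul_le_mul_of_nonneg_left hw h8.le) h7 (by norm_num) (by positivity)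
    linarith
  calc (2 * w ^ 202 + 3) * (Real.exp (-(L * k)) * Real.exp (-(k : ℝ) + -(210 / c * k)))
      ≤ 5 * w ^ 202 * (Real.exp (-(L * k)) * (Real.exp (210 / c) / w ^ 210)) :=
        mul_le_mul h4 (mul_le_mul_of_nonneg_left h3 (Real.exp_pos _).le) (by positivity) (by positivity)
    _ = Real.exp (-(L * k)) * (5 * w ^ 202 * (Real.exp (210 / c) / w ^ 210)) := by ring
    _ ≤ Real.exp (-(L * k)) * (1 / 4) := mul_le_mul_of_nonneg_left h5 (Real.exp_pos _).le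
    _ = Real.exp (-(L * k)) / 4 := by ring

private theorem blc_r3 (L w : ℝ) (k : ℕ) (hL : 0 ≤ L) (hw : 4 ≤ w)
    (hk : (k : ℝ) ≤ 1 / (2 * L + 2) * Real.log w) : 1 / w ≤ Real.exp (-(L * k)) / 2 := by
  have hw0 : 0 < w := by linarith
  have hlog : 0 ≤ Real.log w := Real.log_nonneg (by linarith)
  have h1 : L * (k : ℝ) ≤ 1 / 2 * Real.log w := by
    have h2 : L * (k : ℝ) ≤ L * (1 / (2 * L + 2) * Real.log w) := mul_le_mul_of_nonneg_left hk hL
    have h3 : L * (1 / (2 * L + 2)) ≤ 1 / 2 := by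
      rw [mul_one_div, div_le_div_iff₀ (by linarith) (by norm_num)]
      linarith
    have h4 : L * (1 / (2 * L + 2) * Real.log w) ≤ 1 / 2 * Real.log w := by
      rw [← mul_assoc]
      exact mul_le_mul_of_nonneg_right h3 hlog
    exact h2.trans h4
  have h5 : Real.exp (-(1 / 2 * Real.log w)) ≤ Real.exp (-(L * k)) := Real.exp_le_exp.2 (by linarith)
  have h6 : Real.exp (-(1 / 2 * Real.log w)) = 1 / √w := by
    have h61 : Real.exp (1 / 2 * Real.log w) = √w := by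
      rw [Real.sqrt_eq_rpow, Real.rpow_def_of_pos hw0, mul_comm]
    rw [Real.exp_neg, h61, one_div]
  rw [h6] at h5
  have h7 : 2 ≤ √w := by
    rw [show (2 : ℝ) = √4 by rw [show (4 : ℝ) = 2 ^ 2 by norm_num, Real.sqrt_sq (by norm_num)]]
    exact Real.sqrt_le_sqrt hw
  have h8 : 1 / w ≤ 1 / √w / 2 := by
    rw [div_div, div_le_div_iff₀ hw0 (by positivity), one_mul, one_mul]
    nlinarith [Real.mul_self_sqrt hw0.le]
  linarith

private theorem blc_kW {c : ℝ} (hc : 0 < c) (n : ℕ) : ∀ᶠ w : ℕ in atTop, n ≤ kW c w := by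
  have h1 : Tendsto (fun w : ℕ => c * Real.log w) atTop atTop :=
    (Real.tendsto_log_atTop.comp tendsto_natCast_atTop_atTop).const_mul_atTop hc
  filter_upwards [h1.eventually_ge_atTop (n : ℝ)] with w hw
  exact Nat.le_floor hw

private theorem blc_ch (h : Base ν tw β) (a : ℝ) (v : ℚ) (k : ℕ) (ρ : ℕ → Measure Kern)
    (hρ : ∀ j, IsProbabilityMeasure (ρ j)) (hk : ∀ j < k, ρ j = ν 1) :
    Measure.infinitePi ρ {U | ∀ l < k, a ≤ U l (-(v * ((k : ℚ) - l))) (-(v * ((k : ℚ) - (l + 1))))} =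
      (ν 1 {S | a ≤ S 0 v}) ^ k := by
  have e : {U : ℕ → Kern | ∀ l < k, a ≤ U l (-(v * ((k : ℚ) - l))) (-(v * ((k : ℚ) - (l + 1))))} =
      Set.pi (Finset.range k) (fun l : ℕ => {S : Kern | a ≤ S (-(v * ((k : ℚ) - l))) (-(v * ((k : ℚ) - (l + 1))))}) := by
    ext U
    rw [Set.mem_pi]
    constructor
    · intro hU l hl
      exact hU l (by simpa using hl)
    · intro hU l hl
      exact hU l (by simpa using hl)
  rw [e, Measure.infinitePi_pi ρ (fun l _ => measurableSet_le measurable_const (by fun_prop))]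
  have e2 : ∀ l ∈ Finset.range k, ρ l {S : Kern | a ≤ S (-(v * ((k : ℚ) - l))) (-(v * ((k : ℚ) - (l + 1))))} =
      ν 1 {S | a ≤ S 0 v} := by
    intro l hl
    rw [hk l (Finset.mem_range.1 hl)]
    have h1 := h.shift 1 (-(v * ((k : ℚ) - l))) one_pos
    have hm : Measurable fun (S : Kern) (x y : ℚ) => S (x + -(v * ((k : ℚ) - l))) (y + -(v * ((k : ℚ) - l))) := by
      fun_prop
    have hs : MeasurableSet {S : Kern | a ≤ S 0 v} := measurableSet_le measurable_const (by fun_prop)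
    conv_rhs => rw [← h1, Measure.map_apply hm hs]
    congr 1
    ext S
    show a ≤ S _ _ ↔ a ≤ S (0 + -(v * ((k : ℚ) - l))) (v + -(v * ((k : ℚ) - l)))
    rw [zero_add, show v + -(v * ((k : ℚ) - l)) = -(v * ((k : ℚ) - (l + 1))) by ring]
  rw [Finset.prod_congr rfl e2, Finset.prod_const, Finset.card_range]

private theorem blc_half (p q : ENNReal) (hp : p ≠ ⊤) (h : p ≤ q + p * ENNReal.ofReal (1 / 4) + p * ENNReal.ofReal (1 / 4)) :
    p * ENNReal.ofReal (1 / 2) ≤ q := by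
  by_contra hq
  push Not at hq
  have hq' : q ≠ ⊤ := ne_top_of_lt hq
  lift p to NNReal using hp
  lift q to NNReal using hq'
  have e4 : ENNReal.ofReal (1 / 4) = ((1 / 4 : NNReal) : ENNReal) := by
    rw [← ENNReal.ofReal_coe_nnreal]; norm_num
  have e2 : ENNReal.ofReal (1 / 2) = ((1 / 2 : NNReal) : ENNReal) := by
    rw [← ENNReal.ofReal_coe_nnreal]; norm_num
  rw [e4] at h
  rw [e2] at hq
  have h' : p ≤ q + p * (1 / 4) + p * (1 / 4) := by exact_mod_cast h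
  have hq2 : q < p * (1 / 2) := by exact_mod_cast hq
  have h1 : (p : ℝ) ≤ q + p * (1 / 4) + p * (1 / 4) := by exact_mod_cast h'
  have h2 : (q : ℝ) < p * (1 / 2) := by exact_mod_cast hq2
  linarith

theorem block_good (h : Base ν tw β) : ∃ a C₄ c₉ C₂ : ℝ, 1 ≤ a ∧ 1 ≤ C₄ ∧ 0 < c₉ ∧ c₉ ≤ 1 ∧ 1 ≤ C₂ ∧
    ∀ v : ℚ, 0 < v → v ≤ 1 → ∀ᶠ w : ℕ in atTop, ∀ ρ : ℕ → Measure Kern, (∀ j, IsProbabilityMeasure (ρ j)) →
    (∀ j < kW c₉ w, ρ j = ν 1) → ENNReal.ofReal (1 / (w : ℝ)) ≤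
      Measure.infinitePi ρ {U | Good (kW c₉ w) v a (v * kW c₉ w / C₄) ((w : ℝ) ^ 202) C₂ U} := by
  obtain ⟨Ca, hCa, hup⟩ := blk_up h
  obtain ⟨Cb, hCb, hosc⟩ := blk_osc h
  obtain ⟨C, hC, hCCa, hCCb⟩ : ∃ C : ℝ, 1 ≤ C ∧ Ca ≤ C ∧ Cb ≤ C :=
    ⟨max Ca Cb, hCa.trans (le_max_left _ _), le_max_left _ _, le_max_right _ _⟩
  have := h.twprob
  obtain ⟨a, ha⟩ : ∃ a : ℝ, a = 2 * C + 6 := ⟨_, rfl⟩
  obtain ⟨p₀, hp₀⟩ : ∃ p₀ : ℝ, p₀ = (tw (Set.Ici (a + 1))).toReal := ⟨_, rfl⟩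
  have hp1 : p₀ ≤ 1 := by
    rw [hp₀]
    exact ENNReal.toReal_le_of_le_ofReal zero_le_one (by rw [ENNReal.ofReal_one]; exact prob_le_one)
  have hp0 : 0 < p₀ := by
    rw [hp₀]
    exact ENNReal.toReal_pos (h.pos _).ne' (measure_ne_top _ _)
  obtain ⟨L, hL⟩ : ∃ L : ℝ, L = Real.log (1 / p₀) := ⟨_, rfl⟩
  have hL0 : 0 ≤ L := by
    rw [hL]
    exact Real.log_nonneg (by rw [le_div_iff₀ hp0]; linarith)
  have hpL : p₀ = Real.exp (-L) := by
    rw [hL, Real.log_div one_ne_zero hp0.ne', Real.log_one, zero_sub, neg_neg, Real.exp_log hp0]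
  have hc0 : 0 < 1 / (2 * L + 2) := by positivity
  have hc1 : 1 / (2 * L + 2) ≤ 1 := by
    rw [div_le_one (by linarith)]; linarith
  have hcc : 0 ≤ 210 / (1 / (2 * L + 2)) := by positivity
  refine ⟨a, 3 * L + 1, 1 / (2 * L + 2), C + L + 1 + 210 / (1 / (2 * L + 2)), by linarith, by linarith, hc0, hc1,
    by linarith, ?_⟩
  generalize hcdef : 1 / (2 * L + 2) = c at hc0 hc1 hcc
  intro v hv hv1
  obtain ⟨k₀, hk₀⟩ := hosc a (3 * L + 1) v (by linarith) (by linarith) hv hv1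
  have hwr : ∀ᶠ w : ℕ in atTop, 20 * Real.exp (210 / c) ≤ (w : ℝ) :=
    tendsto_natCast_atTop_atTop.eventually_ge_atTop _
  filter_upwards [blc_kW hc0 k₀, blc_kW hc0 15, hwr] with w hw1 hw2 hw3 ρ hρ hρk
  have hek : (1 : ℝ) ≤ Real.exp (210 / c) := Real.one_le_exp hcc
  have hw4 : (4 : ℝ) ≤ w := by linarith
  have hlog : 0 ≤ Real.log (w : ℝ) := Real.log_nonneg (by linarith)
  have hk1 : ((kW c w : ℕ) : ℝ) ≤ c * Real.log w := Nat.floor_le (by positivity)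
  have hk2 : c * Real.log w - 1 ≤ ((kW c w : ℕ) : ℝ) := (Nat.sub_one_lt_floor _).le
  generalize kW c w = k at *
  have hchan := blc_ch h a v k ρ hρ hρk
  have hoscb := hk₀ k hw1 ρ hρ hρk
  have hupb := hup k ((w : ℝ) ^ 202) (C + L + 1 + 210 / c) (by positivity) ρ hρ hρk
  have hsub : {U : ℕ → Kern | ∀ l < k, a ≤ U l (-(v * ((k : ℚ) - l))) (-(v * ((k : ℚ) - (l + 1))))} ⊆
      ({U | Good k v a (v * k / (3 * L + 1)) ((w : ℝ) ^ 202) (C + L + 1 + 210 / c) U} ∪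
      {U | (∀ l < k, a ≤ U l (-(v * ((k : ℚ) - l))) (-(v * ((k : ℚ) - (l + 1))))) ∧
        ∃ z : ℕ → ℚ, |(z k : ℝ)| ≤ Real.exp k ∧ SOsc 0 k (v * k / (3 * L + 1)) z ∧ a / 2 * k < wt U z 0 k}) ∪
      {U | ∃ z : ℕ → ℚ, |(z k : ℝ)| ≤ (w : ℝ) ^ 202 ∧ (C + L + 1 + 210 / c) * k < wt U z 0 k} := by
    intro U hU
    by_cases h1 : ∃ z : ℕ → ℚ, |(z k : ℝ)| ≤ (w : ℝ) ^ 202 ∧ (C + L + 1 + 210 / c) * k < wt U z 0 k
    · exact Or.inr h1
    by_cases h2 : ∃ z : ℕ → ℚ, |(z k : ℝ)| ≤ Real.exp k ∧ SOsc 0 k (v * k / (3 * L + 1)) z ∧ a / 2 * k < wt U z 0 k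
    · exact Or.inl (Or.inr ⟨hU, h2⟩)
    refine Or.inl (Or.inl ⟨hU, fun z hz hz' => ?_, fun z hz => ?_⟩)
    · by_contra hcon
      exact h2 ⟨z, hz, hz', not_le.1 hcon⟩
    · by_contra hcon
      exact h1 ⟨z, hz, not_le.1 hcon⟩
  have hprob : IsProbabilityMeasure (Measure.infinitePi ρ) := inferInstance
  have hpne : (ν 1 {S : Kern | a ≤ S 0 v}) ^ k ≠ ⊤ := by
    rw [← hchan]
    exact measure_ne_top _ _
  have hb1 : Measure.infinitePi ρ {U | (∀ l < k, a ≤ U l (-(v * ((k : ℚ) - l))) (-(v * ((k : ℚ) - (l + 1))))) ∧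
        ∃ z : ℕ → ℚ, |(z k : ℝ)| ≤ Real.exp k ∧ SOsc 0 k (v * k / (3 * L + 1)) z ∧ a / 2 * k < wt U z 0 k} ≤
      (ν 1 {S : Kern | a ≤ S 0 v}) ^ k * ENNReal.ofReal (1 / 4) := by
    refine hoscb.trans (mul_le_mul' le_rfl (ENNReal.ofReal_le_ofReal ?_))
    refine le_trans ?_ (blc_r1 C L k hL0 hw2)
    rw [← hp₀, ← hL, ha]
    refine mul_le_mul_of_nonneg_right (mul_le_mul_of_nonneg_left ?_ (by positivity)) (Real.exp_pos _).le
    refine Real.exp_le_exp.2 (mul_le_mul_of_nonneg_right ?_ (Nat.cast_nonneg k))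
    linarith
  have hpk : ENNReal.ofReal (Real.exp (-(L * k))) ≤ (ν 1 {S : Kern | a ≤ S 0 v}) ^ k := by
    have h1 : ENNReal.ofReal (Real.exp (-(L * k))) = (ENNReal.ofReal p₀) ^ k := by
      rw [hpL, ← ENNReal.ofReal_pow (Real.exp_pos _).le, ← Real.exp_nat_mul]
      congr 2
      ring
    rw [h1]
    refine pow_le_pow_left' ?_ k
    rw [hp₀, ENNReal.ofReal_toReal (measure_ne_top _ _)]
    have h2 := one_up h 1 one_pos 0 v (a + 1)
    rw [Real.one_rpow] at h2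
    simp only [div_one] at h2
    rw [← h2]
    refine measure_mono fun S hS => ?_
    have hS' : a + 1 ≤ S 0 v + (((0 : ℚ) : ℝ) - (v : ℝ)) ^ 2 := hS
    show a ≤ S 0 v
    have hv' : (v : ℝ) ≤ 1 := by exact_mod_cast hv1
    have hv0 : (0 : ℝ) < v := by exact_mod_cast hv
    have : (((0 : ℚ) : ℝ) - (v : ℝ)) ^ 2 ≤ 1 := by
      rw [Rat.cast_zero, zero_sub, neg_sq]
      exact pow_le_one₀ hv0.le hv'
    linarith
  have hb2 : Measure.infinitePi ρ {U | ∃ z : ℕ → ℚ, |(z k : ℝ)| ≤ (w : ℝ) ^ 202 ∧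
      (C + L + 1 + 210 / c) * k < wt U z 0 k} ≤ (ν 1 {S : Kern | a ≤ S 0 v}) ^ k * ENNReal.ofReal (1 / 4) := by
    refine hupb.trans ?_
    refine le_trans ?_ (mul_le_mul' hpk le_rfl)
    rw [← ENNReal.ofReal_mul (Real.exp_pos _).le]
    refine ENNReal.ofReal_le_ofReal ?_
    have h1 := blc_r2 C L c w k hc0 hk2 hw3
    have h2 : (2 * (w : ℝ) ^ 202 + 3) * Real.exp ((Ca - (C + L + 1 + 210 / c)) * k) ≤
        (2 * (w : ℝ) ^ 202 + 3) * Real.exp ((C - (C + L + 1 + 210 / c)) * k) := by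
      refine mul_le_mul_of_nonneg_left ?_ (by positivity)
      refine Real.exp_le_exp.2 (mul_le_mul_of_nonneg_right ?_ (Nat.cast_nonneg k))
      linarith
    linarith
  have hfin := blc_half _ (Measure.infinitePi ρ {U | Good k v a (v * k / (3 * L + 1)) ((w : ℝ) ^ 202) (C + L + 1 + 210 / c) U})
    hpne (by
      calc (ν 1 {S : Kern | a ≤ S 0 v}) ^ k
          = Measure.infinitePi ρ {U : ℕ → Kern | ∀ l < k, a ≤ U l (-(v * ((k : ℚ) - l))) (-(v * ((k : ℚ) - (l + 1))))} := hchan.symm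
        _ ≤ _ := measure_mono hsub
        _ ≤ _ := (measure_union_le _ _).trans (add_le_add (measure_union_le _ _) le_rfl)
        _ ≤ _ := add_le_add (add_le_add le_rfl hb1) hb2)
  refine le_trans ?_ hfin
  refine le_trans ?_ (mul_le_mul' hpk le_rfl)
  rw [← ENNReal.ofReal_mul (Real.exp_pos _).le]
  refine ENNReal.ofReal_le_ofReal ?_
  have h1 := blc_r3 L w k hL0 hw4 (by rw [hcdef]; exact hk1)
  linarith

private theorem blc_map (h : Base ν tw β) {dur : ℕ → ℝ} (hd : ∀ l, 0 < dur l) (w b : ℕ) (x₀ : ℚ) :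
    (piM ν dur).map (blkS w b x₀) = Measure.infinitePi fun j => (ν (dur (b + j))).map
      (fun (S : Kern) (x y : ℚ) => (w : ℝ) ^ 100 * S (x₀ + x / (w : ℚ) ^ 200) (x₀ + y / (w : ℚ) ^ 200)) := by
  have hp : ∀ l, IsProbabilityMeasure (ν (dur l)) := fun l => h.prob _ (hd l)
  have hg : Measurable (fun (S : Kern) (x y : ℚ) =>
      (w : ℝ) ^ 100 * S (x₀ + x / (w : ℚ) ^ 200) (x₀ + y / (w : ℚ) ^ 200)) := by
    fun_prop
  have hinj : Function.Injective (fun j : ℕ => b + j) := fun i j hij => Nat.add_left_cancel hij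
  have h1 := Measure.map_infinitePi_infinitePi_of_inj (P := fun l => ν (dur l)) hinj
  have h2 := Measure.infinitePi_map_pi (μ := fun j => ν (dur (b + j)))
    (f := fun _ (S : Kern) (x y : ℚ) => (w : ℝ) ^ 100 * S (x₀ + x / (w : ℚ) ^ 200) (x₀ + y / (w : ℚ) ^ 200))
    (fun _ => hg)
  rw [← h2, ← h1, Measure.map_map (by fun_prop) (by fun_prop)]
  rfl

private theorem blc_one (h : Base ν tw β) {w : ℕ} (hw : 0 < w) (x₀ : ℚ) :
    (ν (1 / (w : ℝ) ^ 300)).map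
      (fun (S : Kern) (x y : ℚ) => (w : ℝ) ^ 100 * S (x₀ + x / (w : ℚ) ^ 200) (x₀ + y / (w : ℚ) ^ 200)) = ν 1 := by
  have hw' : (0 : ℝ) < w := by exact_mod_cast hw
  have hwq : (0 : ℚ) < w := by exact_mod_cast hw
  have hθ : 0 < 1 / (w : ℝ) ^ 300 := by positivity
  have h1 := h.shift (1 / (w : ℝ) ^ 300) x₀ hθ
  have h2 := h.scal (1 / (w : ℝ) ^ 300) ((w : ℚ) ^ 100) hθ (by positivity)
  have e1 : (((w : ℚ) ^ 100 : ℚ) : ℝ) ^ 3 * (1 / (w : ℝ) ^ 300) = 1 := by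
    push_cast
    rw [← pow_mul]
    field_simp
  rw [e1] at h2
  have hm1 : Measurable (fun (S : Kern) (x y : ℚ) => S (x + x₀) (y + x₀)) := by fun_prop
  have hm2 : Measurable (fun (S : Kern) (x y : ℚ) =>
      (((w : ℚ) ^ 100 : ℚ) : ℝ) * S (x / ((w : ℚ) ^ 100) ^ 2) (y / ((w : ℚ) ^ 100) ^ 2)) := by fun_prop
  rw [← h2]
  conv_rhs => rw [← h1, Measure.map_map hm2 hm1]
  congr 1
  funext S x y
  show (w : ℝ) ^ 100 * S (x₀ + x / (w : ℚ) ^ 200) (x₀ + y / (w : ℚ) ^ 200) =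
    (((w : ℚ) ^ 100 : ℚ) : ℝ) * S (x / ((w : ℚ) ^ 100) ^ 2 + x₀) (y / ((w : ℚ) ^ 100) ^ 2 + x₀)
  rw [← pow_mul, add_comm x₀, add_comm x₀]
  push_cast
  rfl

theorem good_env (h : Base ν tw β) : ∃ a C₄ c₉ C₂ : ℝ, 1 ≤ a ∧ 1 ≤ C₄ ∧ 0 < c₉ ∧ c₉ ≤ 1 ∧ 1 ≤ C₂ ∧
    ∀ v : ℚ, 0 < v → v ≤ 1 → ∀ᶠ w : ℕ in atTop, ∀ dur : ℕ → ℝ, (∀ l, 0 < dur l) → ∀ b : ℕ,
    (∀ j < kW c₉ w, dur (b + j) = 1 / (w : ℝ) ^ 300) → ∀ x₀ : ℚ, ENNReal.ofReal (1 / (w : ℝ)) ≤
      piM ν dur {S | Good (kW c₉ w) v a (v * kW c₉ w / C₄) ((w : ℝ) ^ 202) C₂ (blkS w b x₀ S)} := by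
  obtain ⟨a, C₄, c₉, C₂, h1, h2, h3, h4, h5, hb⟩ := block_good h
  refine ⟨a, C₄, c₉, C₂, h1, h2, h3, h4, h5, fun v hv hv1 => ?_⟩
  filter_upwards [hb v hv hv1, eventually_gt_atTop 0] with w hw hw0 dur hd b hdur x₀
  have hg : Measurable (fun (S : Kern) (x y : ℚ) =>
      (w : ℝ) ^ 100 * S (x₀ + x / (w : ℚ) ^ 200) (x₀ + y / (w : ℚ) ^ 200)) := by
    fun_prop
  have hm : Measurable (blkS w b x₀) := by
    unfold blkS
    fun_prop
  have h6 := hw (fun j => (ν (dur (b + j))).map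
      (fun (S : Kern) (x y : ℚ) => (w : ℝ) ^ 100 * S (x₀ + x / (w : ℚ) ^ 200) (x₀ + y / (w : ℚ) ^ 200)))
    (fun j => by
      have := h.prob _ (hd (b + j))
      exact Measure.isProbabilityMeasure_map hg.aemeasurable)
    (fun j hj => by
      rw [hdur j hj]
      exact blc_one h hw0 x₀)
  rw [← blc_map h hd w b x₀, Measure.map_apply hm (good_meas _ _ _ _ _ _)] at h6
  exact h6

end Pool.Agent.DLM
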