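import Pool.Agent.DLM.Defs

/-!
# DLM/BMT: scaling and shifting Brownian motions (60-100 lines)

`bm_scale`: `X' t = r (X (c t + d) - X d)`: increments over `[s, t]` are `r` times increments over `[c s + d, c t + d]`: variance `r^2 v c`, drift `r b c`.  `bm_addd`: adding a drift.  Check the fields (`gaussianReal_map_const_mul`, `iIndepFun.comp`).  The same for `IsPre` (`pre_scale`).
`lines_scale`: transformed lines stay independent (`iIndepFun.comp`; the map `(ℝ → ℝ) → (ℝ → ℝ)`, `x ↦ (t ↦ r (x (c t + d) - x d))` is measurable).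
-/

set_option autoImplicit false

open MeasureTheory ProbabilityTheory Filter Topology

namespace Pool.Agent.DLM

variable {Ω : Type*} [MeasurableSpace Ω] {P : Measure Ω} [IsProbabilityMeasure P]

omit [IsProbabilityMeasure P] in
private theorem bmt_gauss {Y : Ω → ℝ} {m s v : ℝ} (hY : Measurable Y) (r : ℝ)
    (h : P.map Y = gaussianReal m (Real.toNNReal (v * s))) :
    P.map (fun ω => r * Y ω) = gaussianReal (r * m) (Real.toNNReal (r ^ 2 * (v * s))) := by
  have e : (fun ω => r * Y ω) = (fun x => r * x) ∘ Y := rfl
  rw [e, ← Measure.map_map (measurable_const_mul r) hY, h, gaussianReal_map_const_mul]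
  congr 1
  rw [Real.toNNReal_mul (sq_nonneg r)]
  congr 1
  apply NNReal.eq
  rw [Real.coe_toNNReal _ (sq_nonneg r)]
  rfl

theorem bm_scale {X : ℝ → Ω → ℝ} {v b : ℝ} (hX : IsBM P X v b) (r c d : ℝ) (hc : 0 < c) :
    IsBM P (fun t ω => r * (X (c * t + d) ω - X d ω)) (r ^ 2 * v * c) (r * b * c) where
  meas t := ((hX.meas _).sub (hX.meas _)).const_mul r
  cont := by
    filter_upwards [hX.cont] with ω hω
    have h1 : Continuous fun t : ℝ => X (c * t + d) ω := hω.comp (by fun_prop : Continuous fun t : ℝ => c * t + d)
    exact continuous_const.mul (h1.sub continuous_const)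
  zero := Filter.Eventually.of_forall fun ω => by simp
  gauss s t hst := by
    have h1 := hX.gauss (c * s + d) (c * t + d) (by nlinarith)
    have h2 := bmt_gauss ((hX.meas _).sub (hX.meas _)) r h1
    have e : (fun ω => r * (X (c * t + d) ω - X d ω) - r * (X (c * s + d) ω - X d ω)) =
        fun ω => r * ((fun ω => X (c * t + d) ω - X (c * s + d) ω) ω) := by
      funext ω
      ring
    show P.map (fun ω => r * (X (c * t + d) ω - X d ω) - r * (X (c * s + d) ω - X d ω)) = _
    rw [e]
    refine h2.trans ?_
    rw [show r * (b * (c * t + d - (c * s + d))) = r * b * c * (t - s) by ring,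
      show r ^ 2 * (v * (c * t + d - (c * s + d))) = r ^ 2 * v * c * (t - s) by ring]
  indep t ht := by
    have h1 := hX.indep (fun i => c * t i + d) (fun i j hij => by
      show c * t i + d ≤ c * t j + d
      have := ht hij
      nlinarith)
    have h2 := h1.comp (fun _ x => r * x) (fun _ => measurable_const_mul r)
    convert h2 using 2
    funext ω
    show r * (X (c * t (_ + 1) + d) ω - X d ω) - r * (X (c * t _ + d) ω - X d ω) =
      r * (X (c * t (_ + 1) + d) ω - X (c * t _ + d) ω)
    ring

theorem bm_addd {X : ℝ → Ω → ℝ} {v b : ℝ} (hX : IsBM P X v b) (e : ℝ) :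
    IsBM P (fun t ω => X t ω + e * t) v (b + e) where
  meas t := (hX.meas _).add_const _
  cont := by
    filter_upwards [hX.cont] with ω hω
    exact hω.add (by fun_prop)
  zero := by
    filter_upwards [hX.zero] with ω hω
    simp [hω]
  gauss s t hst := by
    have h1 := hX.gauss s t hst
    have e1 : (fun ω => X t ω + e * t - (X s ω + e * s)) =
        (fun x => x + e * (t - s)) ∘ fun ω => X t ω - X s ω := by
      funext ω
      show X t ω + e * t - (X s ω + e * s) = (X t ω - X s ω) + e * (t - s)
      ring
    have hm : Measurable fun ω => X t ω - X s ω := (hX.meas _).sub (hX.meas _)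
    show P.map (fun ω => X t ω + e * t - (X s ω + e * s)) = _
    rw [e1, ← Measure.map_map (measurable_add_const _) hm, h1, gaussianReal_map_add_const]
    congr 1
    ring
  indep t ht := by
    have h1 := hX.indep t ht
    have h2 := h1.comp (fun i x => x + e * (t (i + 1) - t i)) (fun _ => measurable_add_const _)
    convert h2 using 2
    funext ω
    show X (t (_ + 1)) ω + e * t (_ + 1) - (X (t _) ω + e * t _) =
      (X (t (_ + 1)) ω - X (t _) ω) + e * (t (_ + 1) - t _)
    ring

theorem pre_scale {X : ℝ → Ω → ℝ} {v b : ℝ} (hX : IsPre P X v b) (r c : ℝ) (hc : 0 < c) :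
    IsPre P (fun t ω => r * X (c * t) ω) (r ^ 2 * v * c) (r * b * c) where
  meas t := (hX.meas _).const_mul r
  zero := by
    filter_upwards [hX.zero] with ω hω
    simp [hω]
  gauss s t hst := by
    have h1 := hX.gauss (c * s) (c * t) (by nlinarith)
    have h2 := bmt_gauss ((hX.meas _).sub (hX.meas _)) r h1
    have e : (fun ω => r * X (c * t) ω - r * X (c * s) ω) =
        fun ω => r * ((fun ω => X (c * t) ω - X (c * s) ω) ω) := by
      funext ω
      ring
    show P.map (fun ω => r * X (c * t) ω - r * X (c * s) ω) = _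
    rw [e]
    refine h2.trans ?_
    rw [show r * (b * (c * t - c * s)) = r * b * c * (t - s) by ring,
      show r ^ 2 * (v * (c * t - c * s)) = r ^ 2 * v * c * (t - s) by ring]
  indep t ht := by
    have h1 := hX.indep (fun i => c * t i) (fun i j hij => by
      show c * t i ≤ c * t j
      have := ht hij
      nlinarith)
    have h2 := h1.comp (fun _ x => r * x) (fun _ => measurable_const_mul r)
    convert h2 using 2
    funext ω
    show r * X (c * t (_ + 1)) ω - r * X (c * t _) ω =
      r * (X (c * t (_ + 1)) ω - X (c * t _) ω)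
    ring

theorem lines_scale {B : ℕ → ℝ → Ω → ℝ} (hi : iIndepFun (fun (i : ℕ) (ω : Ω) (t : ℝ) => B i t ω) P) (r c d : ℝ) :
    iIndepFun (fun (i : ℕ) (ω : Ω) (t : ℝ) => r * (B i (c * t + d) ω - B i d ω)) P := by
  have m1 : Measurable fun f : ℝ → ℝ => (fun t => r * (f (c * t + d) - f d) : ℝ → ℝ) :=
    measurable_pi_lambda _ fun t => measurable_const.mul
      ((measurable_pi_apply (c * t + d)).sub (measurable_pi_apply d))
  exact hi.comp (fun _ f => (fun t => r * (f (c * t + d) - f d) : ℝ → ℝ)) (fun _ => m1)

end Pool.Agent.DLM
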