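import Pool.Agent.DLM.LTB

/-!
# DLM/VDE: the mean of the quadrangle defect (60-90 lines)

`t` is integrable under `tw` (`|t| ≤ exp t + exp(-t/C')..`: upper tail `mgf`, lower tail `low_tail`, layer cake; e.g. `t⁻` has `P(t⁻ > m) ≤ C exp(-m/C)`).  So `S x y` is integrable under `ν θ` with mean `θ^(1/3) e - (x-y)^2/θ` (`Base.one`), and the mean of the defect is
`[-(x₀-y₀)^2 - (x₁-y₁)^2 + (x₀-y₁)^2 + (x₁-y₀)^2]/θ = 2 (x₁-x₀)(y₁-y₀)/θ`.  The defect is nonnegative a.s. (`quad`), `vd_markov` is Markov's inequality.  `quad_mono`: for `Quad S` the defect of a sub-rectangle is at most the defect of the rectangle, and `|S x y + S x' y' - S x y' - S x' y| ≤` the defect of `[x₀,x₁] × [y₀,y₁]` for `x, x' ∈ [x₀, x₁]`,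
`y, y' ∈ [y₀, y₁]` (additivity of the defect).
-/

set_option autoImplicit false

open MeasureTheory ProbabilityTheory Filter Topology

namespace Pool.Agent.DLM

variable {ν : ℝ → Measure Kern} {tw : Measure ℝ} {β : ℝ → Measure Ini}

/-- quadrangle defect -/
def vdef (S : Kern) (x₀ x₁ y₀ y₁ : ℚ) : ℝ := S x₀ y₀ + S x₁ y₁ - S x₀ y₁ - S x₁ y₀

private lemma vde_sub {S : Kern} (hS : Quad S) {x₀ x₁ y₀ y₁ a b c d : ℚ} (h1 : x₀ ≤ a) (h2 : a ≤ b) (h3 : b ≤ x₁)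
    (h4 : y₀ ≤ c) (h5 : c ≤ d) (h6 : d ≤ y₁) :
    0 ≤ vdef S a b c d ∧ vdef S a b c d ≤ vdef S x₀ x₁ y₀ y₁ := by
  have e0 := hS a b c d h2 h5
  have e1 := hS x₀ a y₀ y₁ h1 (h4.trans (h5.trans h6))
  have e2 := hS b x₁ y₀ y₁ h3 (h4.trans (h5.trans h6))
  have e3 := hS a b y₀ c h2 h4
  have e4 := hS a b d y₁ h2 h6
  unfold vdef
  constructor
  · linarith
  · linarith

theorem quad_mono {S : Kern} (hS : Quad S) {x₀ x₁ y₀ y₁ x x' y y' : ℚ} (h1 : x₀ ≤ x) (h2 : x ≤ x₁) (h3 : x₀ ≤ x')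
    (h4 : x' ≤ x₁) (h5 : y₀ ≤ y) (h6 : y ≤ y₁) (h7 : y₀ ≤ y') (h8 : y' ≤ y₁) :
    |S x y + S x' y' - S x y' - S x' y| ≤ vdef S x₀ x₁ y₀ y₁ := by
  rcases le_total x x' with hx | hx <;> rcases le_total y y' with hy | hy
  · obtain ⟨k1, k2⟩ := vde_sub hS h1 hx h4 h5 hy h8
    unfold vdef at k1 k2 ⊢
    rw [abs_le]
    constructor <;> linarith
  · obtain ⟨k1, k2⟩ := vde_sub hS h1 hx h4 h7 hy h6
    unfold vdef at k1 k2 ⊢
    rw [abs_le]
    constructor <;> linarith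
  · obtain ⟨k1, k2⟩ := vde_sub hS h3 hx h2 h5 hy h8
    unfold vdef at k1 k2 ⊢
    rw [abs_le]
    constructor <;> linarith
  · obtain ⟨k1, k2⟩ := vde_sub hS h3 hx h2 h7 hy h6
    unfold vdef at k1 k2 ⊢
    rw [abs_le]
    constructor <;> linarith

theorem tw_integrable (h : Base ν tw β) : Integrable (fun t : ℝ => t) tw := by
  have := h.twprob
  refine ⟨measurable_id.aestronglyMeasurable, ?_⟩
  obtain ⟨C, hC, hlow⟩ := low_tail h
  have hC0 : 0 < C := by linarith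
  have h1 : ∫⁻ t, ENNReal.ofReal (Real.exp t) ∂tw < ⊤ := by
    have := h.mgf 1 one_pos
    simp only [one_mul] at this
    exact lt_of_le_of_lt this ENNReal.ofReal_lt_top
  have h2 : ∫⁻ t, ENNReal.ofReal (max (-t) 0) ∂tw < ⊤ := by
    have hmm : Measurable fun t : ℝ => max (-t) 0 := measurable_neg.max measurable_const
    have hnn : 0 ≤ᵐ[tw] fun t : ℝ => max (-t) 0 := Filter.Eventually.of_forall fun t => le_max_right _ _
    rw [lintegral_eq_lintegral_meas_lt tw hnn hmm.aemeasurable]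
    have h3 : ∫⁻ s in Set.Ioi (0 : ℝ), tw {a : ℝ | s < max (-a) 0} ≤
        ∫⁻ s in Set.Ioi (0 : ℝ), ENNReal.ofReal (C * Real.exp (-(1 / C) * s)) := by
      refine setLIntegral_mono' measurableSet_Ioi fun s hs => ?_
      have hs' : (0 : ℝ) < s := hs
      refine le_trans (measure_mono ?_) ((hlow s hs'.le).trans (ENNReal.ofReal_le_ofReal (le_of_eq ?_)))
      · intro a ha
        have ha' : s < max (-a) 0 := ha
        rcases lt_max_iff.1 ha' with h5 | h5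
        · show a < -s
          linarith
        · linarith
      · congr 2
        ring
    refine lt_of_le_of_lt h3 ?_
    have h4 : IntegrableOn (fun s : ℝ => C * Real.exp (-(1 / C) * s)) (Set.Ioi 0) :=
      (exp_neg_integrableOn_Ioi 0 (by positivity)).const_mul C
    exact (hasFiniteIntegral_iff_ofReal (Filter.Eventually.of_forall fun s => by positivity)).1 h4.2
  have h3 : ∀ t : ℝ, ‖t‖ₑ ≤ ENNReal.ofReal (Real.exp t) + ENNReal.ofReal (max (-t) 0) := by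
    intro t
    rw [← ENNReal.ofReal_add (Real.exp_pos t).le (le_max_right _ _), ← ofReal_norm,
      Real.norm_eq_abs]
    apply ENNReal.ofReal_le_ofReal
    rcases le_total 0 t with h0 | h0
    · rw [abs_of_nonneg h0]
      have := Real.add_one_le_exp t
      have := le_max_right (-t) 0
      linarith
    · rw [abs_of_nonpos h0]
      have := Real.exp_pos t
      have := le_max_left (-t) 0
      linarith
  calc ∫⁻ t, ‖t‖ₑ ∂tw ≤ ∫⁻ t, (ENNReal.ofReal (Real.exp t) + ENNReal.ofReal (max (-t) 0)) ∂tw :=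
        lintegral_mono h3
    _ = ∫⁻ t, ENNReal.ofReal (Real.exp t) ∂tw + ∫⁻ t, ENNReal.ofReal (max (-t) 0) ∂tw :=
        lintegral_add_left (Real.measurable_exp.ennreal_ofReal) _
    _ < ⊤ := ENNReal.add_lt_top.2 ⟨h1, h2⟩

private lemma vde_one (h : Base ν tw β) (θ : ℝ) (hθ : 0 < θ) (x y : ℚ) :
    Integrable (fun S : Kern => S x y) (ν θ) ∧
      ∫ S, S x y ∂(ν θ) = θ ^ (1 / 3 : ℝ) * ∫ t, t ∂tw - ((x : ℝ) - y) ^ 2 / θ := by
  have := h.twprob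
  have hm : Measurable fun S : Kern => S x y := (measurable_pi_apply y).comp (measurable_pi_apply x)
  have hg : Measurable fun t : ℝ => θ ^ (1 / 3 : ℝ) * t - ((x : ℝ) - y) ^ 2 / θ :=
    (measurable_id.const_mul _).sub_const _
  have hone := h.one θ x y hθ
  have hint : Integrable (fun t : ℝ => θ ^ (1 / 3 : ℝ) * t - ((x : ℝ) - y) ^ 2 / θ) tw :=
    ((tw_integrable h).const_mul _).sub (integrable_const _)
  have hid : Measurable (fun u : ℝ => u) := measurable_id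
  constructor
  · have h1 : Integrable (fun u : ℝ => u) ((ν θ).map fun S => S x y) := by
      rw [hone, integrable_map_measure hid.aestronglyMeasurable hg.aemeasurable]
      exact hint
    rw [integrable_map_measure hid.aestronglyMeasurable hm.aemeasurable] at h1
    exact h1
  · have h1 : ∫ S, S x y ∂(ν θ) = ∫ u, u ∂((ν θ).map fun S => S x y) :=
      (integral_map hm.aemeasurable hid.aestronglyMeasurable).symm
    rw [h1, hone, integral_map hg.aemeasurable hid.aestronglyMeasurable,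
      integral_sub ((tw_integrable h).const_mul _) (integrable_const _), integral_const_mul, integral_const]
    simp

private lemma vde_int (h : Base ν tw β) (θ : ℝ) (hθ : 0 < θ) (x₀ x₁ y₀ y₁ : ℚ) :
    Integrable (fun S => vdef S x₀ x₁ y₀ y₁) (ν θ) := by
  unfold vdef
  exact ((((vde_one h θ hθ x₀ y₀).1).add ((vde_one h θ hθ x₁ y₁).1)).sub ((vde_one h θ hθ x₀ y₁).1)).sub
    ((vde_one h θ hθ x₁ y₀).1)

theorem vd_mean (h : Base ν tw β) (θ : ℝ) (hθ : 0 < θ) (x₀ x₁ y₀ y₁ : ℚ) :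
    ∫ S, vdef S x₀ x₁ y₀ y₁ ∂(ν θ) = 2 * ((x₁ : ℝ) - x₀) * (y₁ - y₀) / θ := by
  have e00 := vde_one h θ hθ x₀ y₀
  have e11 := vde_one h θ hθ x₁ y₁
  have e01 := vde_one h θ hθ x₀ y₁
  have e10 := vde_one h θ hθ x₁ y₀
  have h1 : ∫ S, vdef S x₀ x₁ y₀ y₁ ∂(ν θ) =
      ((∫ S, S x₀ y₀ ∂(ν θ) + ∫ S, S x₁ y₁ ∂(ν θ)) - ∫ S, S x₀ y₁ ∂(ν θ)) - ∫ S, S x₁ y₀ ∂(ν θ) := by
    have i1 : ∫ S, (S x₀ y₀ + S x₁ y₁) ∂(ν θ) = ∫ S, S x₀ y₀ ∂(ν θ) + ∫ S, S x₁ y₁ ∂(ν θ) :=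
      integral_add e00.1 e11.1
    have i2 : ∫ S, ((S x₀ y₀ + S x₁ y₁) - S x₀ y₁) ∂(ν θ) =
        ∫ S, (S x₀ y₀ + S x₁ y₁) ∂(ν θ) - ∫ S, S x₀ y₁ ∂(ν θ) :=
      integral_sub (e00.1.add e11.1) e01.1
    have i3 : ∫ S, (((S x₀ y₀ + S x₁ y₁) - S x₀ y₁) - S x₁ y₀) ∂(ν θ) =
        ∫ S, ((S x₀ y₀ + S x₁ y₁) - S x₀ y₁) ∂(ν θ) - ∫ S, S x₁ y₀ ∂(ν θ) :=
      integral_sub ((e00.1.add e11.1).sub e01.1) e10.1
    rw [← i1, ← i2, ← i3]
    rfl
  rw [h1, e00.2, e11.2, e01.2, e10.2]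
  field_simp
  ring

theorem vd_markov (h : Base ν tw β) (θ : ℝ) (hθ : 0 < θ) (x₀ x₁ y₀ y₁ : ℚ) (hx : x₀ ≤ x₁) (hy : y₀ ≤ y₁) (η : ℝ)
    (hη : 0 < η) :
    ν θ {S | η ≤ vdef S x₀ x₁ y₀ y₁} ≤ ENNReal.ofReal (2 * ((x₁ : ℝ) - x₀) * (y₁ - y₀) / (θ * η)) := by
  have := h.prob θ hθ
  have hnn : 0 ≤ᵐ[ν θ] fun S => vdef S x₀ x₁ y₀ y₁ := by
    filter_upwards [h.quad θ hθ] with S hS
    exact (vde_sub hS le_rfl hx le_rfl le_rfl hy le_rfl).1
  have h1 := mul_meas_ge_le_integral_of_nonneg hnn (vde_int h θ hθ x₀ x₁ y₀ y₁) η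
  rw [vd_mean h θ hθ] at h1
  have h2 : ν θ {S | η ≤ vdef S x₀ x₁ y₀ y₁} =
      ENNReal.ofReal ((ν θ).real {S | η ≤ vdef S x₀ x₁ y₀ y₁}) := by
    rw [Measure.real, ENNReal.ofReal_toReal (measure_ne_top _ _)]
  rw [h2]
  apply ENNReal.ofReal_le_ofReal
  rw [← div_div, le_div_iff₀ hη]
  linarith

end Pool.Agent.DLM
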