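import Pool.Agent.DLM.SPL
import Pool.Agent.DLM.VDE

/-!
# DLM/CHP: quadrangle defects along chains of windows (100-140 lines)

`d = w^20/w^200 = w^(-180)`, `m = w^100`.  Windows `I q = [q d, (q+2) d]`, `q ∈ ℤ`, `|q| ≤ w^181 + 1` (at most `2 w^181 + 3` of them).  If `|y r|, |y' r| ≤ w`, `|y r - y' r| < d`, then with `q r = ⌊min (y r) (y' r)/d⌋` both are in `I (q r)`.  If all three defects are `> 1/m` then (`quad_mono`; `Quad (T r)` a.s.) `vdef (T r) (I (q r)) (I (q (r+1))) > 1/m`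
for `r < 3`.  For fixed `q` the three events are independent (`piM_indep`) with probability `≤ 2 (2d)(2d) · 3 w^2 · m = 24 w^(-258)` each (`vd_markov`, `θ = 1/(3 w^2)`, `η = 1/m`).  Union bound: `(2 w^181 + 3)^4 24^3 w^(-774) ≤ 625 · 13824 · w^(-50) ≤ 1/w^10`.
-/

set_option autoImplicit false

open MeasureTheory ProbabilityTheory Filter Topology

namespace Pool.Agent.DLM

variable {ν : ℝ → Measure Kern} {tw : Measure ℝ} {β : ℝ → Measure Ini}

/-- the window width -/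
private def CHPd (w : ℕ) : ℚ := (w : ℚ) ^ 20 / (w : ℚ) ^ 200

/-- the bad event of a sheet and two windows -/
private def CHPA (w : ℕ) (p q : ℤ) : Set Kern :=
  {S | 1 / (w : ℝ) ^ 100 ≤ vdef S ((p : ℚ) * CHPd w) (((p : ℚ) + 2) * CHPd w) ((q : ℚ) * CHPd w)
    (((q : ℚ) + 2) * CHPd w)}

private theorem CHP_mA (w : ℕ) (p q : ℤ) : MeasurableSet (CHPA w p q) := by
  have h1 : ∀ x y : ℚ, Measurable fun S : Kern => S x y := fun x y =>
    (measurable_pi_apply y).comp (measurable_pi_apply x)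
  exact measurableSet_le measurable_const ((((h1 _ _).add (h1 _ _)).sub (h1 _ _)).sub (h1 _ _))

private theorem CHP_pA (h : Base ν tw β) {w : ℕ} (hw : 1 ≤ w) (p q : ℤ) :
    ν (1 / (3 * (w : ℝ) ^ 2)) (CHPA w p q) ≤ ENNReal.ofReal (24 * (w : ℝ) ^ 102 / (w : ℝ) ^ 360) := by
  have hw0 : (0 : ℝ) < w := by exact_mod_cast hw
  have hd0 : 0 < CHPd w := by
    have : (0 : ℚ) < w := by exact_mod_cast hw
    unfold CHPd
    positivity
  refine (vd_markov h (1 / (3 * (w : ℝ) ^ 2)) (by positivity) _ _ _ _ ?_ ?_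
    (1 / (w : ℝ) ^ 100) (by positivity)).trans (ENNReal.ofReal_le_ofReal (le_of_eq ?_))
  · exact mul_le_mul_of_nonneg_right (by linarith) hd0.le
  · exact mul_le_mul_of_nonneg_right (by linarith) hd0.le
  · have e : ((CHPd w : ℚ) : ℝ) = (w : ℝ) ^ 20 / (w : ℝ) ^ 200 := by
      unfold CHPd
      push_cast
      ring
    push_cast
    rw [e]
    field_simp
    ring

/-- the windows of two close points -/
private theorem CHP_win {w : ℕ} (hw : 1 ≤ w) {y y' : ℚ} (h1 : |(y : ℝ)| ≤ w) (h2 : |(y' : ℝ)| ≤ w)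
    (h3 : |(y : ℝ) - y'| < (w : ℝ) ^ 20 / (w : ℝ) ^ 200) :
    ⌊min y y' / CHPd w⌋ ∈ Finset.Icc (-((w : ℤ) ^ 181 + 1)) ((w : ℤ) ^ 181 + 1) ∧
    ((⌊min y y' / CHPd w⌋ : ℤ) : ℚ) * CHPd w ≤ y ∧ y ≤ (((⌊min y y' / CHPd w⌋ : ℤ) : ℚ) + 2) * CHPd w ∧
    ((⌊min y y' / CHPd w⌋ : ℤ) : ℚ) * CHPd w ≤ y' ∧ y' ≤ (((⌊min y y' / CHPd w⌋ : ℤ) : ℚ) + 2) * CHPd w := by
  have hwq : (0 : ℚ) < w := by exact_mod_cast hw
  have hd0 : 0 < CHPd w := by
    unfold CHPd
    positivity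
  have h1' : |y| ≤ (w : ℚ) := by
    have : ((|y| : ℚ) : ℝ) ≤ ((w : ℚ) : ℝ) := by
      rw [Rat.cast_abs]
      push_cast
      exact h1
    exact_mod_cast this
  have h2' : |y'| ≤ (w : ℚ) := by
    have : ((|y'| : ℚ) : ℝ) ≤ ((w : ℚ) : ℝ) := by
      rw [Rat.cast_abs]
      push_cast
      exact h2
    exact_mod_cast this
  have h3' : |y - y'| < CHPd w := by
    have : ((|y - y'| : ℚ) : ℝ) < ((CHPd w : ℚ) : ℝ) := by
      rw [Rat.cast_abs]
      unfold CHPd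
      push_cast
      exact h3
    exact_mod_cast this
  set q := ⌊min y y' / CHPd w⌋ with hq
  have hq1 : (q : ℚ) ≤ min y y' / CHPd w := Int.floor_le _
  have hq2 : min y y' / CHPd w < (q : ℚ) + 1 := Int.lt_floor_add_one _
  rw [le_div_iff₀ hd0] at hq1
  rw [div_lt_iff₀ hd0] at hq2
  rw [abs_le] at h1' h2'
  rw [abs_lt] at h3'
  have hmax : max y y' < min y y' + CHPd w := by
    rcases le_total y y' with hh | hh
    · rw [max_eq_right hh, min_eq_left hh]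
      linarith
    · rw [max_eq_left hh, min_eq_right hh]
      linarith
  have e1 : (q : ℚ) * CHPd w ≤ y := hq1.trans (min_le_left _ _)
  have e2 : (q : ℚ) * CHPd w ≤ y' := hq1.trans (min_le_right _ _)
  have e3 : y ≤ ((q : ℚ) + 2) * CHPd w := by
    have := le_max_left y y'
    linarith
  have e4 : y' ≤ ((q : ℚ) + 2) * CHPd w := by
    have := le_max_right y y'
    linarith
  refine ⟨?_, e1, e3, e2, e4⟩
  have hwd : (w : ℚ) ^ 181 * CHPd w = w := by
    unfold CHPd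
    field_simp
  rw [Finset.mem_Icc]
  constructor
  · have a1 : -((w : ℚ) ^ 181 + 1) * CHPd w < (q : ℚ) * CHPd w := by
      have a2 : -(w : ℚ) ≤ min y y' := le_min h1'.1 h2'.1
      have a3 : -((w : ℚ) ^ 181 + 1) * CHPd w = -(w : ℚ) - CHPd w := by
        rw [neg_mul, add_mul, hwd, one_mul]
        ring
      rw [a3]
      linarith
    have a4 : -((w : ℚ) ^ 181 + 1) < (q : ℚ) := lt_of_mul_lt_mul_right a1 hd0.le
    have a5 : ((-((w : ℤ) ^ 181 + 1) : ℤ) : ℚ) < (q : ℚ) := by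
      push_cast
      exact a4
    exact (Int.cast_lt.1 a5).le
  · have a1 : (q : ℚ) * CHPd w ≤ ((w : ℚ) ^ 181 + 1) * CHPd w := by
      rw [add_mul, hwd, one_mul]
      linarith
    have a4 : (q : ℚ) ≤ (w : ℚ) ^ 181 + 1 := le_of_mul_le_mul_right a1 hd0
    have a5 : (q : ℚ) ≤ (((w : ℤ) ^ 181 + 1 : ℤ) : ℚ) := by
      push_cast
      exact a4
    exact Int.cast_le.1 a5

theorem chain_prob (h : Base ν tw β) : ∀ᶠ w : ℕ in atTop, ∀ dur : ℕ → ℝ, (∀ l, 0 < dur l) →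
    (∀ r < 3, dur r = 1 / (3 * (w : ℝ) ^ 2)) → piM ν dur {T | ¬ Chain3 w T} ≤ ENNReal.ofReal (1 / (w : ℝ) ^ 10) := by
  filter_upwards [eventually_ge_atTop 2] with w hw2 dur hdur hr
  have hw : 1 ≤ w := by omega
  have hw0 : (0 : ℝ) < w := by exact_mod_cast hw
  have pm := piM_prob h hdur
  have hev : ∀ l : ℕ, Measurable fun S : ℕ → Kern => S l := fun l => measurable_pi_apply l
  let W : Finset (Fin 4 → ℤ) :=
    Fintype.piFinset fun _ => Finset.Icc (-((w : ℤ) ^ 181 + 1)) ((w : ℤ) ^ 181 + 1)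
  let B : (Fin 4 → ℤ) → Set (ℕ → Kern) := fun q =>
    ⋂ r ∈ Finset.range 3, (fun S : ℕ → Kern => S r) ⁻¹' CHPA w (q (Fin.ofNat 4 r)) (q (Fin.ofNat 4 (r + 1)))
  have hB : ∀ q, piM ν dur (B q) ≤ ENNReal.ofReal ((24 * (w : ℝ) ^ 102 / (w : ℝ) ^ 360) ^ 3) := by
    intro q
    have h1 := (piM_indep h hdur).measure_inter_preimage_eq_mul (Finset.range 3)
      (sets := fun r => CHPA w (q (Fin.ofNat 4 r)) (q (Fin.ofNat 4 (r + 1)))) (fun r _ => CHP_mA w _ _)
    show piM ν dur (⋂ r ∈ Finset.range 3, (fun S : ℕ → Kern => S r) ⁻¹'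
      CHPA w (q (Fin.ofNat 4 r)) (q (Fin.ofNat 4 (r + 1)))) ≤ _
    rw [h1, ENNReal.ofReal_pow (by positivity)]
    have h2 : ∀ r ∈ Finset.range 3, piM ν dur ((fun S : ℕ → Kern => S r) ⁻¹'
        CHPA w (q (Fin.ofNat 4 r)) (q (Fin.ofNat 4 (r + 1)))) ≤
        ENNReal.ofReal (24 * (w : ℝ) ^ 102 / (w : ℝ) ^ 360) := by
      intro r hr'
      rw [← Measure.map_apply (hev r) (CHP_mA w _ _), piM_eval h hdur,
        hr r (Finset.mem_range.1 hr')]
      exact CHP_pA h hw _ _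
    refine (Finset.prod_le_prod' h2).trans ?_
    rw [Finset.prod_const, Finset.card_range]
  have hquad : ∀ᵐ T ∂(piM ν dur), ∀ r : ℕ, Quad (T r) := by
    rw [ae_all_iff]
    intro r
    refine ae_of_ae_map (hev r).aemeasurable ?_
    rw [piM_eval h hdur]
    exact h.quad _ (hdur r)
  have hsub : piM ν dur {T | ¬ Chain3 w T} ≤ piM ν dur (⋃ q ∈ W, B q) := by
    refine measure_mono_ae ?_
    filter_upwards [hquad] with T hT hcon
    have hcon' : ¬ Chain3 w T := hcon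
    unfold Chain3 at hcon'
    push Not at hcon'
    obtain ⟨y, y', h1, h2⟩ := hcon'
    let q : Fin 4 → ℤ := fun i => ⌊min (y i) (y' i) / CHPd w⌋
    have hwin := fun r (hr' : r < 4) => CHP_win hw (h1 r hr').1 (h1 r hr').2.1 (h1 r hr').2.2
    refine Set.mem_iUnion₂.2 ⟨q, Fintype.mem_piFinset.2 fun i => (hwin i i.2).1, ?_⟩
    refine Set.mem_iInter₂.2 fun r hr' => ?_
    have hr3 : r < 3 := Finset.mem_range.1 hr'
    have e1 : q (Fin.ofNat 4 r) = ⌊min (y r) (y' r) / CHPd w⌋ := by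
      have : ((Fin.ofNat 4 r : Fin 4) : ℕ) = r := by
        rw [Fin.val_ofNat]
        omega
      simp only [q, this]
    have e2 : q (Fin.ofNat 4 (r + 1)) = ⌊min (y (r + 1)) (y' (r + 1)) / CHPd w⌋ := by
      have : ((Fin.ofNat 4 (r + 1) : Fin 4) : ℕ) = r + 1 := by
        rw [Fin.val_ofNat]
        omega
      simp only [q, this]
    show T r ∈ CHPA w (q (Fin.ofNat 4 r)) (q (Fin.ofNat 4 (r + 1)))
    rw [e1, e2]
    obtain ⟨_, a1, a2, a3, a4⟩ := hwin r (by omega)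
    obtain ⟨_, b1, b2, b3, b4⟩ := hwin (r + 1) (by omega)
    exact (h2 r hr3).le.trans (quad_mono (hT r) a1 a2 a3 a4 b1 b2 b3 b4)
  refine hsub.trans ((measure_biUnion_finset_le _ _).trans ((Finset.sum_le_sum fun q _ => hB q).trans ?_))
  rw [Finset.sum_const, nsmul_eq_mul, ← ENNReal.ofReal_natCast, ← ENNReal.ofReal_mul (by positivity)]
  refine ENNReal.ofReal_le_ofReal ?_
  have hcard : (W.card : ℝ) = (2 * (w : ℝ) ^ 181 + 3) ^ 4 := by
    have h1 : W.card = (2 * w ^ 181 + 3) ^ 4 := by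
      rw [Fintype.card_piFinset]
      rw [Finset.prod_const, Finset.card_univ, Fintype.card_fin, Int.card_Icc]
      congr 1
      have : ((w : ℤ) ^ 181 + 1 + 1 - -((w : ℤ) ^ 181 + 1)) = ((2 * w ^ 181 + 3 : ℕ) : ℤ) := by
        push_cast
        ring
      rw [this, Int.toNat_natCast]
    rw [h1]
    push_cast
    ring
  rw [hcard]
  have h5 : (2 * (w : ℝ) ^ 181 + 3) ^ 4 ≤ (5 * (w : ℝ) ^ 181) ^ 4 := by
    have : (1 : ℝ) ≤ (w : ℝ) ^ 181 := one_le_pow₀ (by exact_mod_cast hw)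
    exact pow_le_pow_left₀ (by positivity) (by linarith) 4
  refine (mul_le_mul_of_nonneg_right h5 (by positivity)).trans ?_
  have h6 : (5 * (w : ℝ) ^ 181) ^ 4 * (24 * (w : ℝ) ^ 102 / (w : ℝ) ^ 360) ^ 3 =
      8640000 / (w : ℝ) ^ 50 := by
    field_simp
    norm_num
  rw [h6, div_le_div_iff₀ (by positivity) (by positivity), one_mul]
  have h7 : (2 : ℝ) ^ 40 ≤ (w : ℝ) ^ 40 := pow_le_pow_left₀ (by norm_num) (by exact_mod_cast hw2) 40
  have h8 : (w : ℝ) ^ 50 = (w : ℝ) ^ 40 * (w : ℝ) ^ 10 := by rw [← pow_add]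
  rw [h8]
  exact mul_le_mul_of_nonneg_right (by linarith [h7, (by norm_num : (8640000 : ℝ) ≤ 2 ^ 40)]) (by positivity)

end Pool.Agent.DLM
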