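import Pool.Agent.DLM.Defs

/-!
# DLM/CHX: sums over chains of cells (60-90 lines)

`tt_bound`: induction: `TT φ U l c` depends on `U 0, .., U (l-1)` only, so it is independent of `U l` (`iIndepFun_infinitePi`, `iIndepFun.indepFun_finset` with `range l` and `{l}`; `lintegral_mul_eq_lintegral_mul_lintegral_of_indepFun`): `∫ TT (l+1) c' = ∑_c (∫ TT l c)(∫ φ l c c') ≤ q^l q`.  `lintegral_tsum`.
`tt_ge`: induction, one term of the sum (`ENNReal.le_tsum`).
-/

set_option autoImplicit false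

open MeasureTheory ProbabilityTheory Filter Topology

namespace Pool.Agent.DLM

/-- sums over chains of cells -/
noncomputable def TT (φ : ℕ → ℤ → ℤ → Kern → ENNReal) (U : ℕ → Kern) : ℕ → ℤ → ENNReal
  | 0, _ => 1
  | l + 1, c' => ∑' c : ℤ, TT φ U l c * φ l c c' (U l)

theorem tt_meas (φ : ℕ → ℤ → ℤ → Kern → ENNReal) (hφ : ∀ l c c', Measurable (φ l c c')) (n : ℕ) (c : ℤ) :
    Measurable fun U : ℕ → Kern => TT φ U n c := by
  induction n generalizing c with
  | zero => simp only [TT]; exact measurable_const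
  | succ n ih =>
    simp only [TT]
    exact Measurable.ennreal_tsum fun c' => (ih c').mul ((hφ n c' c).comp (measurable_pi_apply n))

private theorem tt_congr (φ : ℕ → ℤ → ℤ → Kern → ENNReal) {U U' : ℕ → Kern} (n : ℕ) (c : ℤ)
    (h : ∀ l < n, U l = U' l) : TT φ U n c = TT φ U' n c := by
  induction n generalizing c with
  | zero => simp only [TT]
  | succ n ih =>
    simp only [TT]
    congr 1
    funext c'
    rw [ih c' fun l hl => h l (by omega), h n (by omega)]

private theorem tt_step (ρ : ℕ → Measure Kern) (hρ : ∀ l, IsProbabilityMeasure (ρ l))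
    (φ : ℕ → ℤ → ℤ → Kern → ENNReal) (hφ : ∀ l c c', Measurable (φ l c c')) (n : ℕ) (c c' : ℤ) :
    ∫⁻ U, TT φ U n c * φ n c c' (U n) ∂(Measure.infinitePi ρ) =
      (∫⁻ U, TT φ U n c ∂(Measure.infinitePi ρ)) * ∫⁻ S, φ n c c' S ∂(ρ n) := by
  classical
  have hind : iIndepFun (fun (i : ℕ) (U : ℕ → Kern) => U i) (Measure.infinitePi ρ) :=
    iIndepFun_infinitePi (P := ρ) (X := fun _ S => S) fun _ => measurable_id
  have h1 := hind.indepFun_finset (Finset.range n) {n} (by simp) fun i => measurable_pi_apply i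
  let ext : (Finset.range n → Kern) → ℕ → Kern := fun V i => if h : i ∈ Finset.range n then V ⟨i, h⟩ else fun _ _ => 0
  have hext : Measurable ext := by
    refine measurable_pi_lambda _ fun i => ?_
    by_cases h : i ∈ Finset.range n
    · simp only [ext, h, dif_pos]
      exact measurable_pi_apply _
    · simp only [ext, h, dif_neg, not_false_iff]
      exact measurable_const
  have h2 := h1.comp ((tt_meas φ hφ n c).comp hext)
    ((hφ n c c').comp (measurable_pi_apply (⟨n, by simp⟩ : ({n} : Finset ℕ))))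
  have e1 : ((fun U : ℕ → Kern => TT φ U n c) ∘ ext) ∘ (fun (U : ℕ → Kern) (i : Finset.range n) => U i) =
      fun U : ℕ → Kern => TT φ U n c := by
    funext U
    simp only [Function.comp]
    refine tt_congr φ n c fun l hl => ?_
    simp only [ext, Finset.mem_range.mpr hl, dif_pos]
  rw [e1] at h2
  have h3 := lintegral_mul_eq_lintegral_mul_lintegral_of_indepFun (tt_meas φ hφ n c)
    ((hφ n c c').comp (measurable_pi_apply n)) h2
  simp only [Pi.mul_apply, Function.comp] at h3
  rw [h3]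
  congr 1
  conv_rhs => rw [← Measure.infinitePi_map_eval ρ n]
  rw [lintegral_map (hφ n c c') (measurable_pi_apply n)]

theorem tt_bound (ρ : ℕ → Measure Kern) (hρ : ∀ l, IsProbabilityMeasure (ρ l)) (φ : ℕ → ℤ → ℤ → Kern → ENNReal)
    (hφ : ∀ l c c', Measurable (φ l c c')) (q : ENNReal) (n : ℕ)
    (hq : ∀ l < n, ∀ c', ∑' c, ∫⁻ S, φ l c c' S ∂(ρ l) ≤ q) (c' : ℤ) :
    ∫⁻ U, TT φ U n c' ∂(Measure.infinitePi ρ) ≤ q ^ n := by
  induction n generalizing c' with
  | zero => simp [TT]
  | succ n ih =>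
    simp only [TT]
    have hmeas : ∀ c : ℤ, AEMeasurable (fun U : ℕ → Kern => TT φ U n c * φ n c c' (U n)) (Measure.infinitePi ρ) :=
      fun c => ((tt_meas φ hφ n c).mul ((hφ n c c').comp (measurable_pi_apply n))).aemeasurable
    rw [lintegral_tsum hmeas]
    calc ∑' c, ∫⁻ U, TT φ U n c * φ n c c' (U n) ∂(Measure.infinitePi ρ)
        = ∑' c, (∫⁻ U, TT φ U n c ∂(Measure.infinitePi ρ)) * ∫⁻ S, φ n c c' S ∂(ρ n) := by
          congr 1; funext c; exact tt_step ρ hρ φ hφ n c c'
      _ ≤ ∑' c, q ^ n * ∫⁻ S, φ n c c' S ∂(ρ n) :=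
          ENNReal.tsum_le_tsum fun c => mul_le_mul_left (ih (fun l hl => hq l (by omega)) c) _
      _ = q ^ n * ∑' c, ∫⁻ S, φ n c c' S ∂(ρ n) := ENNReal.tsum_mul_left
      _ ≤ q ^ n * q := mul_le_mul_right (hq n (by omega) c') _
      _ = q ^ (n + 1) := (pow_succ _ _).symm

theorem tt_ge (φ : ℕ → ℤ → ℤ → Kern → ENNReal) (U : ℕ → Kern) (n : ℕ) (c : ℕ → ℤ) :
    ∏ l ∈ Finset.range n, φ l (c l) (c (l + 1)) (U l) ≤ TT φ U n (c n) := by
  induction n with
  | zero => simp [TT]
  | succ n ih =>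
    rw [Finset.prod_range_succ]
    simp only [TT]
    calc (∏ l ∈ Finset.range n, φ l (c l) (c (l + 1)) (U l)) * φ n (c n) (c (n + 1)) (U n)
        ≤ TT φ U n (c n) * φ n (c n) (c (n + 1)) (U n) := mul_le_mul_left ih _
      _ ≤ ∑' c', TT φ U n c' * φ n c' (c (n + 1)) (U n) := ENNReal.le_tsum (f := fun c' => TT φ U n c' * φ n c' (c (n + 1)) (U n)) (c n)

end Pool.Agent.DLM
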