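import Mathlib

/-!
# DLM/CMH: Cameron-Martin and Hoelder in finite dimension (100-150 lines, Mathlib only)

`μ = ⊗ N(c i, v i)`, `ν` = law of `x + h` = `⊗ N(c i + h i, v i)`.  `μ = ν.withDensity w` with `w x = ∏ w_i (x i)`, `w_i y = exp((-2 (y - c i) h i + h i ^2)/(2 v i))` (quotient of the two densities;
`gaussianReal_of_var_ne_zero`, `gaussianPDF`).  Hoelder (`ENNReal.lintegral_mul_le_Lp_mul_Lq`, exponents `p` and `q = p/(p-1)`): `μ A = ∫ 1_A w dν ≤ ν(A)^(1 - 1/p) (∫ w^p dν)^(1/p)`, and
`∫ w^p dν = ∏ ∫ w_i^p dN(c i + h i, v i) = ∏ exp(p (p-1) h i^2/(2 v i))` (product: `lintegral_pi_prod`-like lemma, or induction on `n` with `measurePreserving_piFinSuccAbove`; one dimension: with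
`y = c + h + z`, `z ~ N(0,v)`, exponent `p(-h^2 - 2 z h)/(2v)`, `mgf_gaussianReal`: `exp(-p h^2/(2v) + p^2 h^2/(2v))`).  `ν(A) = μ {x | x + h ∈ A}`.
An alternative: induction on `n` is not needed, the translation by `h` can also be treated for the product measure at once.
-/

set_option autoImplicit false

open MeasureTheory ProbabilityTheory Filter Topology

namespace Pool.Agent.DLM

private theorem cmh_one (c v h : ℝ) (hv : 0 < v) (p : ℝ) (hp : 1 < p) (f : ℝ → ENNReal)
    (hf : Measurable f) :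
    ∫⁻ x, f x ∂(gaussianReal c (Real.toNNReal v)) ≤
      ENNReal.ofReal (Real.exp ((p - 1) * (h ^ 2 / (2 * v)))) *
        (∫⁻ x, f (x + h) ^ (p / (p - 1)) ∂(gaussianReal c (Real.toNNReal v))) ^ (1 - 1 / p) := by
  have hVv : ((Real.toNNReal v : NNReal) : ℝ) = v := Real.coe_toNNReal _ hv.le
  have hV0 : Real.toNNReal v ≠ 0 := by
    intro h0
    rw [h0] at hVv
    simp at hVv
    linarith
  generalize Real.toNNReal v = V at hVv hV0 ⊢
  subst hVv
  have hfm : Measurable fun x : ℝ => f (x + h) := hf.comp (measurable_id.add_const h)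
  have hwm : Measurable fun x : ℝ =>
      ENNReal.ofReal (Real.exp (-(2 * (x - c) * h + h ^ 2) / (2 * (V : ℝ)))) := by fun_prop
  have h1 : ∫⁻ x, f x ∂(gaussianReal c V) = ∫⁻ x, ((fun x => f (x + h)) * fun x =>
      ENNReal.ofReal (Real.exp (-(2 * (x - c) * h + h ^ 2) / (2 * (V : ℝ))))) x ∂(gaussianReal c V) := by
    rw [gaussianReal_of_var_ne_zero _ hV0,
      lintegral_withDensity_eq_lintegral_mul _ (measurable_gaussianPDF c V) hf,
      lintegral_withDensity_eq_lintegral_mul _ (measurable_gaussianPDF c V) (hfm.mul hwm),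
      ← lintegral_add_right_eq_self (fun x => (gaussianPDF c V * f) x) h]
    refine lintegral_congr fun x => ?_
    have h2 : gaussianPDF c V (x + h) = gaussianPDF c V x *
        ENNReal.ofReal (Real.exp (-(2 * (x - c) * h + h ^ 2) / (2 * (V : ℝ)))) := by
      rw [gaussianPDF, gaussianPDF, ← ENNReal.ofReal_mul (gaussianPDFReal_nonneg _ _ _)]
      congr 1
      rw [gaussianPDFReal, gaussianPDFReal, mul_assoc (√(2 * Real.pi * (V : ℝ)))⁻¹, ← Real.exp_add]
      congr 2
      rw [← add_div]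
      congr 1
      ring
    simp only [Pi.mul_apply]
    rw [h2]
    ring
  rw [h1]
  have hpq : (p / (p - 1)).HolderConjugate p := (Real.HolderConjugate.conjExponent hp).symm
  refine (ENNReal.lintegral_mul_le_Lp_mul_Lq _ hpq hfm.aemeasurable hwm.aemeasurable).trans ?_
  have hp1 : p - 1 ≠ 0 := by linarith
  have hp0 : p ≠ 0 := by linarith
  have e1 : 1 / (p / (p - 1)) = 1 - 1 / p := by field_simp
  have hV : (0 : ℝ) < V := hv
  have h3 : ∫⁻ x, ENNReal.ofReal (Real.exp (-(2 * (x - c) * h + h ^ 2) / (2 * (V : ℝ)))) ^ p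
      ∂(gaussianReal c V) = ENNReal.ofReal (Real.exp (p * (p - 1) * (h ^ 2 / (2 * V)))) := by
    have e2 : ∀ x : ℝ, ENNReal.ofReal (Real.exp (-(2 * (x - c) * h + h ^ 2) / (2 * (V : ℝ)))) ^ p =
        ENNReal.ofReal (Real.exp (p * (2 * c * h - h ^ 2) / (2 * V)) * Real.exp ((-(p * h / V)) * x)) := by
      intro x
      rw [ENNReal.ofReal_rpow_of_pos (Real.exp_pos _), ← Real.exp_mul, ← Real.exp_add]
      congr 2
      field_simp
      ring
    simp only [e2]
    have hint : Integrable (fun x : ℝ => Real.exp (p * (2 * c * h - h ^ 2) / (2 * V)) *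
        Real.exp ((-(p * h / V)) * x)) (gaussianReal c V) :=
      (integrable_exp_mul_gaussianReal _).const_mul _
    rw [← ofReal_integral_eq_lintegral_ofReal hint (Filter.Eventually.of_forall fun x => by positivity),
      integral_const_mul]
    have hm := mgf_gaussianReal (μ := c) (v := V) (p := gaussianReal c V) (X := id) (Measure.map_id) (-(p * h / V))
    have hm2 : ∫ x : ℝ, Real.exp ((-(p * h / V)) * x) ∂(gaussianReal c V) =
        Real.exp (c * (-(p * h / V)) + V * (-(p * h / V)) ^ 2 / 2) := hm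
    rw [hm2, ← Real.exp_add]
    congr 2
    field_simp
    ring
  rw [h3, e1, mul_comm]
  refine mul_le_mul' (le_of_eq ?_) le_rfl
  rw [ENNReal.ofReal_rpow_of_pos (Real.exp_pos _), ← Real.exp_mul]
  congr 2
  field_simp

private theorem cmh_fun (p : ℝ) (hp : 1 < p) : ∀ (n : ℕ) (c v h : Fin n → ℝ), (∀ i, 0 < v i) →
    ∀ f : (Fin n → ℝ) → ENNReal, Measurable f →
    ∫⁻ x, f x ∂(Measure.pi fun i => gaussianReal (c i) (Real.toNNReal (v i))) ≤
      ENNReal.ofReal (Real.exp ((p - 1) * ∑ i, h i ^ 2 / (2 * v i))) *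
        (∫⁻ x, f (x + h) ^ (p / (p - 1)) ∂(Measure.pi fun i => gaussianReal (c i) (Real.toNNReal (v i)))) ^
          (1 - 1 / p) := by
  have hp1 : p - 1 ≠ 0 := by linarith
  have hp0 : p ≠ 0 := by linarith
  have e1 : (p / (p - 1)) * (1 - 1 / p) = 1 := by field_simp
  have e2 : (1 - 1 / p) * (p / (p - 1)) = 1 := by rw [mul_comm, e1]
  intro n
  induction n with
  | zero =>
    intro c v h hv f hf
    have hc : ∀ x : Fin 0 → ℝ, f (x + h) = f x := fun x => congrArg f (Subsingleton.elim _ _)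
    simp only [hc]
    rw [lintegral_unique, lintegral_unique]
    rw [measure_univ, mul_one, mul_one, ← ENNReal.rpow_mul, e1, ENNReal.rpow_one]
    simp
  | succ n ih =>
    intro c v h hv f hf
    have mp := measurePreserving_piFinSuccAbove
      (fun i : Fin (n + 1) => gaussianReal (c i) (Real.toNNReal (v i))) 0
    set e := MeasurableEquiv.piFinSuccAbove (fun _ : Fin (n + 1) => ℝ) 0 with he
    have mps := MeasurePreserving.symm e mp
    have hsum : ∀ (x1 : ℝ) (x2 : Fin n → ℝ),
        e.symm (x1 + h 0, x2 + fun j => h j.succ) = e.symm (x1, x2) + h := by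
      intro x1 x2
      funext i
      refine Fin.cases ?_ (fun j => ?_) i
      · rfl
      · rfl
    have key : ∀ g : (Fin (n + 1) → ℝ) → ENNReal, Measurable g →
        ∫⁻ x, g x ∂(Measure.pi fun i => gaussianReal (c i) (Real.toNNReal (v i))) =
          ∫⁻ x2, ∫⁻ x1, g (e.symm (x1, x2)) ∂(gaussianReal (c 0) (Real.toNNReal (v 0)))
            ∂(Measure.pi fun j : Fin n => gaussianReal (c j.succ) (Real.toNNReal (v j.succ))) := by
      intro g hg
      rw [← mps.lintegral_comp hg]
      exact lintegral_prod_symm' _ (hg.comp e.symm.measurable)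
    have hfq : Measurable fun x => f (x + h) ^ (p / (p - 1)) :=
      (hf.comp (measurable_id.add_const h)).pow_const _
    rw [key f hf, key _ hfq]
    have hG : Measurable fun x2 : Fin n → ℝ =>
        ∫⁻ x1, f (e.symm (x1 + h 0, x2)) ^ (p / (p - 1)) ∂(gaussianReal (c 0) (Real.toNNReal (v 0))) := by
      refine Measurable.lintegral_prod_left' (f := fun z : ℝ × (Fin n → ℝ) =>
        f (e.symm (z.1 + h 0, z.2)) ^ (p / (p - 1))) ?_
      refine (hf.comp (e.symm.measurable.comp ?_)).pow_const _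
      exact ((measurable_fst.add_const _).prodMk measurable_snd)
    have step1 : ∀ x2 : Fin n → ℝ,
        ∫⁻ x1, f (e.symm (x1, x2)) ∂(gaussianReal (c 0) (Real.toNNReal (v 0))) ≤
          ENNReal.ofReal (Real.exp ((p - 1) * (h 0 ^ 2 / (2 * v 0)))) *
          (∫⁻ x1, f (e.symm (x1 + h 0, x2)) ^ (p / (p - 1))
            ∂(gaussianReal (c 0) (Real.toNNReal (v 0)))) ^ (1 - 1 / p) := by
      intro x2
      exact cmh_one (c 0) (v 0) (h 0) (hv 0) p hp (fun x1 => f (e.symm (x1, x2)))
        (hf.comp (e.symm.measurable.comp (measurable_id.prodMk measurable_const)))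
    refine (lintegral_mono step1).trans ?_
    rw [lintegral_const_mul _ (hG.pow_const _)]
    have step2 := ih (fun j => c j.succ) (fun j => v j.succ) (fun j => h j.succ) (fun j => hv j.succ)
      (fun x2 => (∫⁻ x1, f (e.symm (x1 + h 0, x2)) ^ (p / (p - 1))
            ∂(gaussianReal (c 0) (Real.toNNReal (v 0)))) ^ (1 - 1 / p)) (hG.pow_const _)
    refine (mul_le_mul' le_rfl step2).trans ?_
    rw [← mul_assoc, ← ENNReal.ofReal_mul (Real.exp_pos _).le, ← Real.exp_add, ← mul_add,
      Fin.sum_univ_succ]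
    refine mul_le_mul' le_rfl (le_of_eq ?_)
    congr 1
    refine lintegral_congr fun x2 => ?_
    rw [← ENNReal.rpow_mul, e2, ENNReal.rpow_one]
    refine lintegral_congr fun x1 => ?_
    rw [hsum]

theorem cmh (n : ℕ) (c v h : Fin n → ℝ) (hv : ∀ i, 0 < v i) (p : ℝ) (hp : 1 < p) (A : Set (Fin n → ℝ))
    (hA : MeasurableSet A) :
    Measure.pi (fun i => gaussianReal (c i) (Real.toNNReal (v i))) A ≤
      ENNReal.ofReal (Real.exp ((p - 1) * ∑ i, h i ^ 2 / (2 * v i))) *
        (Measure.pi (fun i => gaussianReal (c i) (Real.toNNReal (v i))) {x | x + h ∈ A}) ^ (1 - 1 / p) := by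
  have hp1 : p - 1 ≠ 0 := by linarith
  have hq : (0 : ℝ) < p / (p - 1) := div_pos (by linarith) (by linarith)
  have h1 := cmh_fun p hp n c v h hv (A.indicator fun _ => 1) (measurable_const.indicator hA)
  rw [lintegral_indicator_const hA, one_mul] at h1
  refine h1.trans (mul_le_mul' le_rfl (le_of_eq ?_))
  congr 1
  have hB : MeasurableSet {x : Fin n → ℝ | x + h ∈ A} := (measurable_id.add_const h) hA
  have e : ∀ x : Fin n → ℝ, (A.indicator (fun _ => (1 : ENNReal)) (x + h)) ^ (p / (p - 1)) =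
      {x : Fin n → ℝ | x + h ∈ A}.indicator (fun _ => 1) x := by
    intro x
    by_cases hx : x + h ∈ A
    · rw [Set.indicator_of_mem hx, Set.indicator_of_mem (show x ∈ {x | x + h ∈ A} from hx), ENNReal.one_rpow]
    · rw [Set.indicator_of_notMem hx, Set.indicator_of_notMem (show x ∉ {x | x + h ∈ A} from hx),
        ENNReal.zero_rpow_of_pos hq]
  simp only [e]
  rw [lintegral_indicator_const hB, one_mul]

end Pool.Agent.DLM
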