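import Pool.Agent.DLM.NTDefs
import Pool.Agent.DLM.CMH

/-!
# DLM/CMB: Cameron-Martin and Hoelder for Brownian motion on the rationals (100-150 lines)

PROOF.  Let `G = F ∪ {0}`, sorted: a strictly increasing `t : ℕ → ℚ` with `G ⊆ {t 0, .., t n}` (continue with `t n + 1, t n + 2, ..`), `0 = t j`.  The increments `ξ i = f (t (i+1)) - f (t i)`, `i < n`, have under `β`
the law `⊗ N(b Δ i, 2 Δ i)`, `Δ i = t (i+1) - t i` (`IsBML.gauss`, `IsBML.indep`, `iIndepFun_iff_map_fun_eq_pi_map`).  As `f 0 = 0` a.s., `f x = R x ξ` for `x ∈ G` with `R x` a linear (measurable) function (sum of the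
increments between `0` and `x`, with sign), so `f ∈ A ↔ ξ ∈ A'` a.s. with `A' = {ξ | extension of R · ξ ∈ A}`, (extend by `0` off `G`; measurable).  The increments of `f + h` are `ξ + η`, `η i = h (t (i+1)) - h (t i)`, and
`(f + h) 0 = 0`.  Apply `cmh` to `A'`, `c i = b Δ i`, `v i = 2 Δ i`, `h = η`: `∑ η i^2/(2 · 2 Δ i) ≤ e/4`.
-/

set_option autoImplicit false

open MeasureTheory ProbabilityTheory Filter Topology

namespace Pool.Agent.DLM

private theorem cmb_seq (G : Finset ℚ) (hG : G.Nonempty) :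
    ∃ (t : ℕ → ℚ) (n : ℕ), StrictMono t ∧ ∀ x ∈ G, ∃ i ≤ n, t i = x := by
  obtain ⟨k, hk⟩ : ∃ k, G.card = k + 1 := ⟨G.card - 1, by have := hG.card_pos; omega⟩
  refine ⟨fun i => if h : i < k + 1 then G.orderEmbOfFin hk ⟨i, h⟩ else
    G.orderEmbOfFin hk ⟨k, Nat.lt_succ_self k⟩ + ((i : ℚ) - k), k, ?_, ?_⟩
  · refine strictMono_nat_of_lt_succ fun i => ?_
    rcases lt_trichotomy i k with h | h | h
    · rw [dif_pos (show i < k + 1 by omega), dif_pos (show i + 1 < k + 1 by omega)]
      exact (G.orderEmbOfFin hk).strictMono (by simp)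
    · subst h
      rw [dif_pos (Nat.lt_succ_self i), dif_neg (lt_irrefl _)]
      push_cast
      linarith
    · rw [dif_neg (show ¬ i < k + 1 by omega), dif_neg (show ¬ i + 1 < k + 1 by omega)]
      push_cast
      linarith
  · intro x hx
    have hr : x ∈ Set.range (G.orderEmbOfFin hk) := by
      rw [Finset.range_orderEmbOfFin]
      exact hx
    obtain ⟨⟨i, hi⟩, rfl⟩ := hr
    refine ⟨i, by omega, ?_⟩
    simp only
    rw [dif_pos hi]

/-- increments -/
private def cmbX (t : ℕ → ℚ) (n : ℕ) (f : Ini) : Fin n → ℝ := fun i => f (t (i + 1)) - f (t i)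

/-- reconstruction -/
private noncomputable def cmbR (n j : ℕ) (idx : ℚ → ℕ) (ξ : Fin n → ℝ) : Ini := fun x =>
  ∑ i : Fin n, ((if (i : ℕ) < idx x then ξ i else 0) - (if (i : ℕ) < j then ξ i else 0))

private theorem cmbX_meas (t : ℕ → ℚ) (n : ℕ) : Measurable (cmbX t n) := by
  refine measurable_pi_lambda _ fun i => ?_
  exact (measurable_pi_apply _).sub (measurable_pi_apply _)

private theorem cmbR_meas (n j : ℕ) (idx : ℚ → ℕ) : Measurable (cmbR n j idx) := by
  refine measurable_pi_lambda _ fun x => ?_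
  refine Finset.measurable_sum _ fun i _ => ?_
  refine Measurable.sub ?_ ?_
  · by_cases h : (i : ℕ) < idx x
    · simp only [if_pos h]
      exact measurable_pi_apply _
    · simp only [if_neg h]
      exact measurable_const
  · by_cases h : (i : ℕ) < j
    · simp only [if_pos h]
      exact measurable_pi_apply _
    · simp only [if_neg h]
      exact measurable_const

private theorem cmb_tele (g : ℕ → ℝ) (n m : ℕ) (hm : m ≤ n) :
    ∑ i : Fin n, (if (i : ℕ) < m then g (i + 1) - g i else 0) = g m - g 0 := by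
  rw [Fin.sum_univ_eq_sum_range (fun i => if i < m then g (i + 1) - g i else 0) n, ← Finset.sum_filter]
  have : (Finset.range n).filter (fun i => i < m) = Finset.range m := by
    ext i
    simp only [Finset.mem_filter, Finset.mem_range]
    omega
  rw [this, Finset.sum_range_sub]

private theorem cmb_rec (t : ℕ → ℚ) (n j : ℕ) (hj : j ≤ n) (idx : ℚ → ℕ) (F : Finset ℚ)
    (hidx : ∀ x ∈ F, idx x ≤ n ∧ t (idx x) = x) (f : Ini) (hf : f (t j) = 0) :
    ∀ x ∈ F, cmbR n j idx (cmbX t n f) x = f x := by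
  intro x hx
  obtain ⟨h1, h2⟩ := hidx x hx
  unfold cmbR cmbX
  rw [Finset.sum_sub_distrib, cmb_tele (fun i => f (t i)) n (idx x) h1, cmb_tele (fun i => f (t i)) n j hj, h2, hf]
  ring

private theorem cmb_law {β : Measure Ini} {b : ℝ} (hβ : IsBML β 2 b) (t : ℕ → ℚ) (ht : StrictMono t) (n : ℕ) :
    β.map (cmbX t n) = Measure.pi (fun i : Fin n => gaussianReal (b * ((t (i + 1) : ℝ) - t i))
      (Real.toNNReal (2 * ((t (i + 1) : ℝ) - t i)))) := by
  have := hβ.prob
  have h1 := hβ.indep t ht.monotone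
  have h2 : iIndepFun (fun (i : Fin n) (f : Ini) => f (t (i + 1)) - f (t i)) β :=
    h1.precomp (g := fun i : Fin n => (i : ℕ)) Fin.val_injective
  have hm : ∀ i : Fin n, Measurable (fun f : Ini => f (t (i + 1)) - f (t i)) := fun i =>
    Measurable.sub (measurable_pi_apply _) (measurable_pi_apply _)
  have h3 := (iIndepFun_iff_map_fun_eq_pi_map (fun i : Fin n => (hm i).aemeasurable)).mp h2
  change β.map (fun (f : Ini) (i : Fin n) => f (t ((i : ℕ) + 1)) - f (t (i : ℕ))) = _
  rw [h3]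
  congr 1
  funext i
  exact hβ.gauss _ _ (ht (Nat.lt_succ_self _)).le

theorem cmb {β : Measure Ini} {b : ℝ} (hβ : IsBML β 2 b) (h : ℚ → ℝ) (h0 : h 0 = 0) (e : ℝ) (he : Energy h e)
    (p : ℝ) (hp : 1 < p) (F : Finset ℚ) (A : Set Ini) (hA : MeasurableSet A)
    (hF : ∀ f f' : Ini, (∀ x ∈ F, f x = f' x) → (f ∈ A ↔ f' ∈ A)) :
    β A ≤ ENNReal.ofReal (Real.exp ((p - 1) * (e / 4))) * (β {f | (fun x => f x + h x) ∈ A}) ^ (1 - 1 / p) := by
  obtain ⟨t, n, ht, hcov⟩ := cmb_seq (insert 0 F) ⟨0, Finset.mem_insert_self _ _⟩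
  obtain ⟨j, hj, hj0⟩ := hcov 0 (Finset.mem_insert_self _ _)
  have hex : ∀ x : ℚ, ∃ i : ℕ, x ∈ F → i ≤ n ∧ t i = x := by
    intro x
    by_cases hx : x ∈ F
    · obtain ⟨i, hi, hi'⟩ := hcov x (Finset.mem_insert_of_mem hx)
      exact ⟨i, fun _ => ⟨hi, hi'⟩⟩
    · exact ⟨0, fun hx' => absurd hx' hx⟩
  choose idx hidx using hex
  set A' : Set (Fin n → ℝ) := cmbR n j idx ⁻¹' A with hA'
  have hA'm : MeasurableSet A' := cmbR_meas n j idx hA
  set η : Fin n → ℝ := fun i => h (t (i + 1)) - h (t i) with hη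
  have hpos : ∀ i : Fin n, 0 < 2 * ((t (i + 1) : ℝ) - t i) := by
    intro i
    have h1 : t i < t (i + 1) := ht (Nat.lt_succ_self _)
    have h2 : (t i : ℝ) < (t (i + 1) : ℝ) := by exact_mod_cast h1
    linarith
  have hz := hβ.zero
  have e1 : β A = β.map (cmbX t n) A' := by
    rw [Measure.map_apply (cmbX_meas t n) hA'm]
    refine measure_congr ?_
    filter_upwards [hz] with f hf
    have h1 := cmb_rec t n j hj idx F (fun x hx => hidx x hx) f (by rw [hj0]; exact hf)
    exact propext (hF f (cmbR n j idx (cmbX t n f)) fun x hx => (h1 x hx).symm)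
  have e2 : β.map (cmbX t n) {x | x + η ∈ A'} = β {f | (fun x => f x + h x) ∈ A} := by
    have hm : MeasurableSet {x : Fin n → ℝ | x + η ∈ A'} := (measurable_id.add_const η) hA'm
    rw [Measure.map_apply (cmbX_meas t n) hm]
    refine measure_congr ?_
    filter_upwards [hz] with f hf
    have h1 := cmb_rec t n j hj idx F (fun x hx => hidx x hx) (fun x => f x + h x) (by
      rw [hj0, hf, h0, add_zero])
    have h2 : cmbX t n (fun x => f x + h x) = cmbX t n f + η := by
      funext i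
      simp only [cmbX, hη, Pi.add_apply]
      ring
    rw [h2] at h1
    exact propext (hF (cmbR n j idx (cmbX t n f + η)) (fun x => f x + h x) h1)
  have hcm := cmh n (fun i : Fin n => b * ((t (i + 1) : ℝ) - t i)) (fun i : Fin n => 2 * ((t (i + 1) : ℝ) - t i)) η
    hpos p hp A' hA'm
  rw [← cmb_law hβ t ht n, ← e1, e2] at hcm
  refine hcm.trans ?_
  gcongr
  have h3 := he t ht n
  rw [← Fin.sum_univ_eq_sum_range (fun i => (h (t (i + 1)) - h (t i)) ^ 2 / ((t (i + 1) : ℝ) - t i)) n] at h3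
  have h4 : ∑ i : Fin n, η i ^ 2 / (2 * (2 * ((t (i + 1) : ℝ) - t i))) =
      (∑ i : Fin n, (h (t (i + 1)) - h (t i)) ^ 2 / ((t (i + 1) : ℝ) - t i)) / 4 := by
    rw [Finset.sum_div]
    refine Finset.sum_congr rfl fun i _ => ?_
    rw [hη, div_div]
    congr 1
    ring
  rw [h4]
  linarith

/-- the same for sets invariant under addition of constants, without `h 0 = 0` -/
theorem cmb' {β : Measure Ini} {b : ℝ} (hβ : IsBML β 2 b) (h : ℚ → ℝ) (e : ℝ) (he : Energy h e)
    (p : ℝ) (hp : 1 < p) (F : Finset ℚ) (A : Set Ini) (hA : MeasurableSet A)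
    (hF : ∀ f f' : Ini, (∀ x ∈ F, f x = f' x) → (f ∈ A ↔ f' ∈ A))
    (hc : ∀ (f : Ini) (c : ℝ), f ∈ A ↔ (fun x => f x + c) ∈ A) :
    β A ≤ ENNReal.ofReal (Real.exp ((p - 1) * (e / 4))) * (β {f | (fun x => f x + h x) ∈ A}) ^ (1 - 1 / p) := by
  have he' : Energy (fun x => h x - h 0) e := by
    intro t ht n
    have h1 := he t ht n
    simp only [sub_sub_sub_cancel_right]
    exact h1
  have h1 := cmb hβ (fun x => h x - h 0) (sub_self _) e he' p hp F A hA hF
  have h2 : {f : Ini | (fun x => f x + (h x - h 0)) ∈ A} = {f : Ini | (fun x => f x + h x) ∈ A} := by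
    ext f
    simp only [Set.mem_ofPred_eq]
    rw [hc (fun x => f x + (h x - h 0)) (h 0)]
    simp only [add_assoc, sub_add_cancel]
  rw [h2] at h1
  exact h1

end Pool.Agent.DLM
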