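import Mathlib

/-!
# DLM/EXT: extension lemma (30-60 lines, Mathlib only)

For fixed `a ∈ ⋃ i ∈ F, E i` pick `i` with `a ∈ E i`; the section of the set on the right contains `G i`, of measure `≥ q`.  Integrate (`Measure.prod_apply`, `lintegral` over `⋃ i ∈ F, E i`; `mul_meas_ge_le_lintegral`-like).  `ext_lemma'`: if each `G i` has measure `≤ q`... the event that for all `i ∈ F` not (`E i` and `G i`)
has measure at most `μ (⋃ E i)ᶜ + q'` where `q'` bounds the measure of each complement of `G i`.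
-/

set_option autoImplicit false

open MeasureTheory ProbabilityTheory Filter Topology

namespace Pool.Agent.DLM

theorem ext_lemma {α γ ι : Type*} [MeasurableSpace α] [MeasurableSpace γ] (μ : Measure α) [IsProbabilityMeasure μ]
    (ν : Measure γ) [IsProbabilityMeasure ν] (F : Finset ι) (E : ι → Set α) (G : ι → Set γ)
    (hE : ∀ i ∈ F, MeasurableSet (E i)) (hG : ∀ i ∈ F, MeasurableSet (G i)) (q : ENNReal) (hq : ∀ i ∈ F, q ≤ ν (G i)) :
    q * μ (⋃ i ∈ F, E i) ≤ (μ.prod ν) {p | ∃ i ∈ F, p.1 ∈ E i ∧ p.2 ∈ G i} := by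
  have hU : MeasurableSet (⋃ i ∈ F, E i) := Finset.measurableSet_biUnion _ hE
  have hB : MeasurableSet {p : α × γ | ∃ i ∈ F, p.1 ∈ E i ∧ p.2 ∈ G i} := by
    have h1 : {p : α × γ | ∃ i ∈ F, p.1 ∈ E i ∧ p.2 ∈ G i} = ⋃ i ∈ F, E i ×ˢ G i := by
      ext p
      rw [Set.mem_iUnion₂]
      exact ⟨fun ⟨i, hi, h⟩ => ⟨i, hi, h⟩, fun ⟨i, hi, h⟩ => ⟨i, hi, h⟩⟩
    rw [h1]
    exact Finset.measurableSet_biUnion _ fun i hi => (hE i hi).prod (hG i hi)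
  rw [Measure.prod_apply hB, ← lintegral_indicator_const hU]
  refine lintegral_mono fun a => ?_
  by_cases ha : a ∈ ⋃ i ∈ F, E i
  · rw [Set.indicator_of_mem ha]
    obtain ⟨i, hi, hai⟩ := Set.mem_iUnion₂.1 ha
    exact (hq i hi).trans (measure_mono fun c hc => ⟨i, hi, hai, hc⟩)
  · rw [Set.indicator_of_notMem ha]
    exact zero_le

theorem ext_lemma' {α γ ι : Type*} [MeasurableSpace α] [MeasurableSpace γ] (μ : Measure α) [IsProbabilityMeasure μ]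
    (ν : Measure γ) [IsProbabilityMeasure ν] (F : Finset ι) (E : ι → Set α) (G : ι → Set γ)
    (hE : ∀ i ∈ F, MeasurableSet (E i)) (hG : ∀ i ∈ F, MeasurableSet (G i)) (q : ENNReal) (hq : ∀ i ∈ F, ν (G i)ᶜ ≤ q) :
    (μ.prod ν) {p | ∀ i ∈ F, ¬ (p.1 ∈ E i ∧ p.2 ∈ G i)} ≤ μ (⋃ i ∈ F, E i)ᶜ + q := by
  have hU : MeasurableSet (⋃ i ∈ F, E i) := Finset.measurableSet_biUnion _ hE
  have hB : MeasurableSet {p : α × γ | ∃ i ∈ F, p.1 ∈ E i ∧ p.2 ∈ G i} := by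
    have h1 : {p : α × γ | ∃ i ∈ F, p.1 ∈ E i ∧ p.2 ∈ G i} = ⋃ i ∈ F, E i ×ˢ G i := by
      ext p
      rw [Set.mem_iUnion₂]
      exact ⟨fun ⟨i, hi, h⟩ => ⟨i, hi, h⟩, fun ⟨i, hi, h⟩ => ⟨i, hi, h⟩⟩
    rw [h1]
    exact Finset.measurableSet_biUnion _ fun i hi => (hE i hi).prod (hG i hi)
  have hC : {p : α × γ | ∀ i ∈ F, ¬ (p.1 ∈ E i ∧ p.2 ∈ G i)} = {p : α × γ | ∃ i ∈ F, p.1 ∈ E i ∧ p.2 ∈ G i}ᶜ := by
    ext p
    exact ⟨fun h ⟨i, hi, h1⟩ => h i hi h1, fun h i hi h1 => h ⟨i, hi, h1⟩⟩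
  have hCm : MeasurableSet {p : α × γ | ∀ i ∈ F, ¬ (p.1 ∈ E i ∧ p.2 ∈ G i)} := by
    rw [hC]
    exact hB.compl
  rw [Measure.prod_apply hCm]
  have h2 : μ (⋃ i ∈ F, E i)ᶜ + q = ∫⁻ a, ((⋃ i ∈ F, E i)ᶜ.indicator (fun _ => (1 : ENNReal)) a + q) ∂μ := by
    rw [lintegral_add_right _ measurable_const, lintegral_indicator_const hU.compl, one_mul, lintegral_const,
      measure_univ, mul_one]
  rw [h2]
  refine lintegral_mono fun a => ?_
  by_cases ha : a ∈ ⋃ i ∈ F, E i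
  · obtain ⟨i, hi, hai⟩ := Set.mem_iUnion₂.1 ha
    refine le_trans (le_trans (measure_mono fun c hc => ?_) (hq i hi)) le_add_self
    exact fun hcG => hc i hi ⟨hai, hcG⟩
  · rw [Set.indicator_of_mem (show a ∈ (⋃ i ∈ F, E i)ᶜ from ha)]
    exact le_trans prob_le_one le_self_add

end Pool.Agent.DLM
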