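import Pool.Agent.DLM.TWF
import Pool.Agent.DLM.EXT

/-!
# DLM/CST: suprema over cells (120-160 lines)

PROOF (extension trick).  `m₀` with `tw (Iio (-m₀)) ≤ 1/4` (`tw_low`).  Let `D = α' - α`, `x₁ = α - D`, `y₁ = α' + D`.  `ν (3θ)` is the law of the composition of independent `S₁, S₂, S₃ ~ ν θ`.  Let `F` be a finite set of pairs `(x, y)` in the cell, `E_(x,y) = {S₂ x y > t}`, `t = -D^2/θ + C|D| + C + s`, and
`G_(x,y) = {S₁ x₁ x + (x - x₁)^2/θ ≥ -m₀ θ^(1/3)} ∩ {S₃ y y₁ + (y₁ - y)^2/θ ≥ -m₀ θ^(1/3)}` of probability `≥ 9/16 ≥ 1/2` (`one_low`).  On `E ∩ G`: `S (3θ) x₁ y₁ ≥ t - 2 (D^2 + 2|D| + 1)/θ - 2 m₀ θ^(1/3)` (`(x - x₁)^2 = (D + u)^2`, `0 ≤ u ≤ 1`), i.e.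
`S (3θ) x₁ y₁ + 9 D^2/(3θ) ≥ C|D| + C + s - (4|D| + 2)/θ - 2 m₀ θ^(1/3) ≥ s` if `C ≥ 8 + 4 m₀` (`1/2 ≤ θ ≤ 4`).  By `ext_lemma` `(1/2) P(⋃ E) ≤ tw (Ici (s/(3θ)^(1/3))) ≤ exp(c'^3/12 - c' s/(3θ)^(1/3)) ≤ exp(c'^3/12 - c s)` with `c' = 3 c` (`(3θ)^(1/3) ≤ 3`).  Let `F` increase to all rational points of the cell (countable union).
-/

set_option autoImplicit false

open MeasureTheory ProbabilityTheory Filter Topology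

namespace Pool.Agent.DLM

variable {ν : ℝ → Measure Kern} {tw : Measure ℝ} {β : ℝ → Measure Ini}

theorem half_le (h : Base ν tw β) (θ : ℝ) (hθ : 0 < θ) (m : ℝ) (hm : tw (Set.Iio (-m)) ≤ 1 / 2) (x y : ℚ) :
    (1 / 2 : ENNReal) ≤ ν θ {S | -m * θ ^ (1 / 3 : ℝ) ≤ S x y + ((x : ℝ) - y) ^ 2 / θ} := by
  have := h.prob θ hθ
  have h3 : 0 < θ ^ (1 / 3 : ℝ) := Real.rpow_pos_of_pos hθ _
  have h1 := one_low h θ hθ x y (-m * θ ^ (1 / 3 : ℝ))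
  rw [mul_div_assoc, div_self h3.ne', mul_one] at h1
  have h2 : {S : Kern | -m * θ ^ (1 / 3 : ℝ) ≤ S x y + ((x : ℝ) - y) ^ 2 / θ} =
      {S : Kern | S x y + ((x : ℝ) - y) ^ 2 / θ < -m * θ ^ (1 / 3 : ℝ)}ᶜ := by
    ext S
    show -m * θ ^ (1 / 3 : ℝ) ≤ S x y + ((x : ℝ) - y) ^ 2 / θ ↔ ¬ (S x y + ((x : ℝ) - y) ^ 2 / θ < -m * θ ^ (1 / 3 : ℝ))
    exact not_lt.symm
  have h4 : MeasurableSet {S : Kern | S x y + ((x : ℝ) - y) ^ 2 / θ < -m * θ ^ (1 / 3 : ℝ)} :=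
    measurableSet_lt (by fun_prop) measurable_const
  rw [h2, prob_compl_eq_one_sub h4, h1]
  calc (1 / 2 : ENNReal) = 1 - 1 / 2 := by
        rw [one_div, ENNReal.one_sub_inv_two]
    _ ≤ 1 - tw (Set.Iio (-m)) := tsub_le_tsub_left hm 1

theorem ms_G (θ m : ℝ) (x y : ℚ) :
    MeasurableSet {S : Kern | -m * θ ^ (1 / 3 : ℝ) ≤ S x y + ((x : ℝ) - y) ^ 2 / θ} :=
  measurableSet_le measurable_const (by fun_prop)

theorem ms_E {ι : Type*} (F : Finset ι) (x y : ι → ℚ) (t : ℝ) :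
    MeasurableSet {S : Kern | ∃ i ∈ F, t < S (x i) (y i)} := by
  have h1 : {S : Kern | ∃ i ∈ F, t < S (x i) (y i)} = ⋃ i ∈ F, {S : Kern | t < S (x i) (y i)} := by
    ext S
    rw [Set.mem_iUnion₂]
    exact ⟨fun ⟨i, hi, h⟩ => ⟨i, hi, h⟩, fun ⟨i, hi, h⟩ => ⟨i, hi, h⟩⟩
  rw [h1]
  exact Finset.measurableSet_biUnion _ fun i _ => measurableSet_lt measurable_const (by fun_prop)

theorem eq_U {ι : Type*} (F : Finset ι) (x y : ι → ℚ) (t : ℝ) :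
    {S : Kern | ∃ i ∈ F, t < S (x i) (y i)} = ⋃ i ∈ F, {S : Kern | t < S (x i) (y i)} := by
  ext S
  rw [Set.mem_iUnion₂]
  exact ⟨fun ⟨i, hi, h⟩ => ⟨i, hi, h⟩, fun ⟨i, hi, h⟩ => ⟨i, hi, h⟩⟩

theorem ext_right (h : Base ν tw β) (θ θ' : ℝ) (hθ : 0 < θ) (hθ' : 0 < θ') (m : ℝ) (hm : tw (Set.Iio (-m)) ≤ 1 / 2)
    {ι : Type*} (F : Finset ι) (x y : ι → ℚ) (y₁ : ℚ) (t R : ℝ) (hR : ∀ i ∈ F, ((y i : ℝ) - y₁) ^ 2 / θ' ≤ R) :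
    (1 / 2) * ν θ {S | ∃ i ∈ F, t < S (x i) (y i)} ≤
      ν (θ + θ') {S | ∃ i ∈ F, t - m * θ' ^ (1 / 3 : ℝ) - R < S (x i) y₁} := by
  have := h.prob θ hθ
  have := h.prob θ' hθ'
  rw [comp_meas h θ θ' hθ hθ' _ (ms_E F x (fun _ => y₁) _), eq_U]
  have h1 := ext_lemma (ν θ) (ν θ') F (fun i => {S : Kern | t < S (x i) (y i)})
    (fun i => {S : Kern | -m * θ' ^ (1 / 3 : ℝ) ≤ S (y i) y₁ + ((y i : ℝ) - y₁) ^ 2 / θ'})
    (fun i _ => measurableSet_lt measurable_const (by fun_prop)) (fun i _ => ms_G θ' m (y i) y₁) (1 / 2)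
    (fun i _ => half_le h θ' hθ' m hm (y i) y₁)
  refine h1.trans (measure_mono_ae ?_)
  filter_upwards [comp_ge h θ θ' hθ hθ'] with p hp hp2
  obtain ⟨i, hi, ha, hb⟩ := hp2
  refine ⟨i, hi, ?_⟩
  have ha' : t < p.1 (x i) (y i) := ha
  have hb' : -m * θ' ^ (1 / 3 : ℝ) ≤ p.2 (y i) y₁ + ((y i : ℝ) - y₁) ^ 2 / θ' := hb
  have h4 := hp (x i) (y i) y₁
  have h5 := hR i hi
  show t - m * θ' ^ (1 / 3 : ℝ) - R < kcomp p.1 p.2 (x i) y₁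
  linarith

theorem ext_left (h : Base ν tw β) (θ θ' : ℝ) (hθ : 0 < θ) (hθ' : 0 < θ') (m : ℝ) (hm : tw (Set.Iio (-m)) ≤ 1 / 2)
    {ι : Type*} (F : Finset ι) (x y : ι → ℚ) (x₁ : ℚ) (t R : ℝ) (hR : ∀ i ∈ F, ((x₁ : ℝ) - x i) ^ 2 / θ' ≤ R) :
    (1 / 2) * ν θ {S | ∃ i ∈ F, t < S (x i) (y i)} ≤
      ν (θ' + θ) {S | ∃ i ∈ F, t - m * θ' ^ (1 / 3 : ℝ) - R < S x₁ (y i)} := by
  have := h.prob θ hθ
  have := h.prob θ' hθ'
  rw [comp_meas h θ' θ hθ' hθ _ (ms_E F (fun _ => x₁) y _), eq_U]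
  have h1 := ext_lemma (ν θ) (ν θ') F (fun i => {S : Kern | t < S (x i) (y i)})
    (fun i => {S : Kern | -m * θ' ^ (1 / 3 : ℝ) ≤ S x₁ (x i) + ((x₁ : ℝ) - x i) ^ 2 / θ'})
    (fun i _ => measurableSet_lt measurable_const (by fun_prop)) (fun i _ => ms_G θ' m x₁ (x i)) (1 / 2)
    (fun i _ => half_le h θ' hθ' m hm x₁ (x i))
  refine h1.trans ?_
  rw [← Measure.prod_swap, Measure.map_apply measurable_swap]
  · refine measure_mono_ae ?_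
    filter_upwards [comp_ge h θ' θ hθ' hθ] with p hp hp2
    obtain ⟨i, hi, ha, hb⟩ := hp2
    refine ⟨i, hi, ?_⟩
    have ha' : t < p.2 (x i) (y i) := ha
    have hb' : -m * θ' ^ (1 / 3 : ℝ) ≤ p.1 x₁ (x i) + ((x₁ : ℝ) - x i) ^ 2 / θ' := hb
    have h4 := hp x₁ (x i) (y i)
    have h5 := hR i hi
    show t - m * θ' ^ (1 / 3 : ℝ) - R < kcomp p.1 p.2 x₁ (y i)
    linarith
  · have h2 : {p : Kern × Kern | ∃ i ∈ F, p.1 ∈ {S : Kern | t < S (x i) (y i)} ∧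
        p.2 ∈ {S : Kern | -m * θ' ^ (1 / 3 : ℝ) ≤ S x₁ (x i) + ((x₁ : ℝ) - x i) ^ 2 / θ'}} =
        ⋃ i ∈ F, {S : Kern | t < S (x i) (y i)} ×ˢ
          {S : Kern | -m * θ' ^ (1 / 3 : ℝ) ≤ S x₁ (x i) + ((x₁ : ℝ) - x i) ^ 2 / θ'} := by
      ext p
      rw [Set.mem_iUnion₂]
      exact ⟨fun ⟨i, hi, h⟩ => ⟨i, hi, h⟩, fun ⟨i, hi, h⟩ => ⟨i, hi, h⟩⟩
    rw [h2]
    exact Finset.measurableSet_biUnion _ fun i _ =>
      (measurableSet_lt measurable_const (by fun_prop)).prod (ms_G θ' m x₁ (x i))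

/-- the bound for finitely many points of the cell -/
theorem cell_fin (h : Base ν tw β) (c : ℝ) (hc : 0 < c) (m : ℝ) (hm0 : 0 ≤ m) (hm : tw (Set.Iio (-m)) ≤ 1 / 2)
    (C : ℝ) (hC : 8 + 4 * m ≤ C) (θ : ℝ) (h1 : 1 / 2 ≤ θ) (h2 : θ ≤ 4) (α α' : ℚ) (s : ℝ) (hs : 0 ≤ s)
    (F : Finset (ℚ × ℚ)) (hF : ∀ p ∈ F, α ≤ p.1 ∧ p.1 ≤ α + 1 ∧ α' ≤ p.2 ∧ p.2 ≤ α' + 1) :
    ν θ {S | ∃ p ∈ F, -((α' : ℝ) - α) ^ 2 / θ + C * |(α' : ℝ) - α| + C + s < S p.1 p.2} ≤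
      4 * ENNReal.ofReal (Real.exp ((3 * c) ^ 3 / 12 - c * s)) := by
  have hθ : 0 < θ := by linarith
  set D : ℝ := (α' : ℝ) - α with hD
  set t : ℝ := -D ^ 2 / θ + C * |D| + C + s with ht
  set R : ℝ := (|D| + 1) ^ 2 / θ with hRd
  have hsq : ∀ u : ℝ, 0 ≤ u → u ≤ 1 → (D + u) ^ 2 ≤ (|D| + 1) ^ 2 := by
    intro u hu0 hu1
    apply sq_le_sq'
    · have := neg_abs_le D
      linarith
    · have := le_abs_self D
      linarith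
  have e1 := ext_left h θ θ hθ hθ m hm F Prod.fst Prod.snd (α - (α' - α)) t R (by
    intro p hp
    obtain ⟨ha, hb, -, -⟩ := hF p hp
    have ha' : (α : ℝ) ≤ p.1 := by exact_mod_cast ha
    have hb' : (p.1 : ℝ) ≤ α + 1 := by exact_mod_cast hb
    apply div_le_div_of_nonneg_right _ hθ.le
    have h5 := hsq ((p.1 : ℝ) - α) (by linarith) (by linarith)
    push_cast
    calc ((α : ℝ) - (α' - α) - p.1) ^ 2 = (D + ((p.1 : ℝ) - α)) ^ 2 := by rw [hD]; ring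
      _ ≤ _ := h5)
  have e2 := ext_right h (θ + θ) θ (by linarith) hθ m hm F (fun _ => α - (α' - α)) Prod.snd (α' + (α' - α))
    (t - m * θ ^ (1 / 3 : ℝ) - R) R (by
    intro p hp
    obtain ⟨-, -, ha, hb⟩ := hF p hp
    have ha' : (α' : ℝ) ≤ p.2 := by exact_mod_cast ha
    have hb' : (p.2 : ℝ) ≤ α' + 1 := by exact_mod_cast hb
    apply div_le_div_of_nonneg_right _ hθ.le
    have h5 : (D + (-((p.2 : ℝ) - α'))) ^ 2 ≤ (|D| + 1) ^ 2 := by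
      apply sq_le_sq'
      · have := neg_abs_le D
        linarith
      · have := le_abs_self D
        linarith
    push_cast
    calc ((p.2 : ℝ) - (α' + (α' - α))) ^ 2 = (D + (-((p.2 : ℝ) - α'))) ^ 2 := by rw [hD]; ring
      _ ≤ _ := h5)
  have e3 : (θ + θ + θ) = 3 * θ := by ring
  rw [e3] at e2
  set x₁ : ℚ := α - (α' - α) with hx₁
  set y₁ : ℚ := α' + (α' - α) with hy₁
  have h3θ : 0 < 3 * θ := by linarith
  have hxy : ((x₁ : ℝ) - y₁) ^ 2 / (3 * θ) = 3 * D ^ 2 / θ := by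
    rw [hx₁, hy₁]
    push_cast
    rw [hD]
    field_simp
    ring
  have hq1 : θ ^ (1 / 3 : ℝ) ≤ 2 := by
    have h8 : (2 : ℝ) = (8 : ℝ) ^ (1 / 3 : ℝ) := by
      rw [show (8 : ℝ) = (2 : ℝ) ^ (3 : ℝ) by norm_num, ← Real.rpow_mul (by norm_num)]
      norm_num
    rw [h8]
    exact Real.rpow_le_rpow hθ.le (by linarith) (by norm_num)
  have hq2 : (3 * θ) ^ (1 / 3 : ℝ) ≤ 3 := by
    have h8 : (3 : ℝ) = (27 : ℝ) ^ (1 / 3 : ℝ) := by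
      rw [show (27 : ℝ) = (3 : ℝ) ^ (3 : ℝ) by norm_num, ← Real.rpow_mul (by norm_num)]
      norm_num
    calc (3 * θ) ^ (1 / 3 : ℝ) ≤ (27 : ℝ) ^ (1 / 3 : ℝ) := Real.rpow_le_rpow h3θ.le (by linarith) (by norm_num)
      _ = 3 := h8.symm
  have hq3 : 0 < (3 * θ) ^ (1 / 3 : ℝ) := Real.rpow_pos_of_pos h3θ _
  have hq4 : 0 ≤ θ ^ (1 / 3 : ℝ) := Real.rpow_nonneg hθ.le _
  have hinv : 1 / θ ≤ 2 := by
    rw [div_le_iff₀ hθ]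
    linarith
  have hinv0 : 0 < 1 / θ := by positivity
  -- the level at the corner
  have hlev : s ≤ t - m * θ ^ (1 / 3 : ℝ) - R - m * θ ^ (1 / 3 : ℝ) - R + 3 * D ^ 2 / θ := by
    have hA : (0 : ℝ) ≤ |D| := abs_nonneg D
    have hDD : |D| ^ 2 = D ^ 2 := sq_abs D
    have k1 : t - m * θ ^ (1 / 3 : ℝ) - R - m * θ ^ (1 / 3 : ℝ) - R + 3 * D ^ 2 / θ =
        C * |D| + C + s - 2 * (m * θ ^ (1 / 3 : ℝ)) - (4 * |D| + 2) * (1 / θ) := by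
      rw [ht, hRd, ← hDD]
      field_simp
      ring
    have k2 : m * θ ^ (1 / 3 : ℝ) ≤ m * 2 := mul_le_mul_of_nonneg_left hq1 hm0
    have k3 : (4 * |D| + 2) * (1 / θ) ≤ (4 * |D| + 2) * 2 := mul_le_mul_of_nonneg_left hinv (by linarith)
    have k4 : (8 : ℝ) * |D| ≤ C * |D| := mul_le_mul_of_nonneg_right (by linarith) hA
    rw [k1]
    linarith
  have e4 : ν (3 * θ) {S | ∃ p ∈ F, t - m * θ ^ (1 / 3 : ℝ) - R - m * θ ^ (1 / 3 : ℝ) - R < S x₁ y₁} ≤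
      ENNReal.ofReal (Real.exp ((3 * c) ^ 3 / 12 - c * s)) := by
    calc ν (3 * θ) {S | ∃ p ∈ F, t - m * θ ^ (1 / 3 : ℝ) - R - m * θ ^ (1 / 3 : ℝ) - R < S x₁ y₁}
        ≤ ν (3 * θ) {S | s ≤ S x₁ y₁ + ((x₁ : ℝ) - y₁) ^ 2 / (3 * θ)} := by
          refine measure_mono fun S hS => ?_
          obtain ⟨p, -, hp⟩ := hS
          show s ≤ S x₁ y₁ + ((x₁ : ℝ) - y₁) ^ 2 / (3 * θ)
          rw [hxy]
          linarith
      _ = tw (Set.Ici (s / (3 * θ) ^ (1 / 3 : ℝ))) := one_up h (3 * θ) h3θ x₁ y₁ s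
      _ ≤ ENNReal.ofReal (Real.exp ((3 * c) ^ 3 / 12 - 3 * c * (s / (3 * θ) ^ (1 / 3 : ℝ)))) :=
          tw_up h (3 * c) _ (by linarith)
      _ ≤ _ := by
          refine ENNReal.ofReal_le_ofReal (Real.exp_le_exp.2 ?_)
          have k5 : s / 3 ≤ s / (3 * θ) ^ (1 / 3 : ℝ) := div_le_div_of_nonneg_left hs hq3 hq2
          have k6 : 3 * c * (s / 3) ≤ 3 * c * (s / (3 * θ) ^ (1 / 3 : ℝ)) :=
            mul_le_mul_of_nonneg_left k5 (by linarith)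
          linarith
  have e5 : (1 / 2 : ENNReal) * ((1 / 2) * ν θ {S | ∃ p ∈ F, t < S p.1 p.2}) ≤
      ENNReal.ofReal (Real.exp ((3 * c) ^ 3 / 12 - c * s)) :=
    (mul_le_mul' le_rfl e1).trans (e2.trans e4)
  have e6 : ν θ {S | ∃ p ∈ F, t < S p.1 p.2} =
      4 * ((1 / 2 : ENNReal) * ((1 / 2) * ν θ {S | ∃ p ∈ F, t < S p.1 p.2})) := by
    rw [← mul_assoc, ← mul_assoc]
    have : (4 : ENNReal) * (1 / 2) * (1 / 2) = 1 := by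
      rw [one_div, show (4 : ENNReal) = 2 * 2 by norm_num, mul_assoc 2 2, ENNReal.mul_inv_cancel (by norm_num) (by norm_num),
        mul_one, ENNReal.mul_inv_cancel (by norm_num) (by norm_num)]
    rw [this, one_mul]
  rw [e6]
  exact mul_le_mul' le_rfl e5

theorem cell_sup (h : Base ν tw β) (c : ℝ) (hc : 0 < c) : ∃ C : ℝ, 1 ≤ C ∧ ∀ θ : ℝ, 1 / 2 ≤ θ → θ ≤ 4 →
    ∀ (α α' : ℚ) (s : ℝ), 0 ≤ s →
    ν θ {S | ∃ x y : ℚ, α ≤ x ∧ x ≤ α + 1 ∧ α' ≤ y ∧ y ≤ α' + 1 ∧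
      -((α' : ℝ) - α) ^ 2 / θ + C * |(α' : ℝ) - α| + C + s < S x y} ≤ ENNReal.ofReal (C * Real.exp (-c * s)) := by
  obtain ⟨m, hm0, hm⟩ := tw_low h (1 / 2) (by norm_num)
  set K : ℝ := 4 * Real.exp ((3 * c) ^ 3 / 12) with hK
  have hKpos : 0 < K := by positivity
  refine ⟨8 + 4 * m + K, by linarith, ?_⟩
  intro θ h1 h2 α α' s hs
  set C : ℝ := 8 + 4 * m + K with hC
  set t : ℝ := -((α' : ℝ) - α) ^ 2 / θ + C * |(α' : ℝ) - α| + C + s with ht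
  have e1 : {S : Kern | ∃ x y : ℚ, α ≤ x ∧ x ≤ α + 1 ∧ α' ≤ y ∧ y ≤ α' + 1 ∧ t < S x y} =
      ⋃ F : Finset (ℚ × ℚ), {S : Kern | ∃ p ∈ F.filter (fun p : ℚ × ℚ => α ≤ p.1 ∧ p.1 ≤ α + 1 ∧ α' ≤ p.2 ∧ p.2 ≤ α' + 1),
        t < S p.1 p.2} := by
    ext S
    rw [Set.mem_iUnion]
    constructor
    · rintro ⟨x, y, ha, hb, hc', hd, he⟩
      exact ⟨{(x, y)}, (x, y), Finset.mem_filter.2 ⟨Finset.mem_singleton_self _, ha, hb, hc', hd⟩, he⟩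
    · rintro ⟨F, p, hp, he⟩
      obtain ⟨-, ha, hb, hc', hd⟩ := Finset.mem_filter.1 hp
      exact ⟨p.1, p.2, ha, hb, hc', hd, he⟩
  have e2 : Directed (· ⊆ ·) (fun F : Finset (ℚ × ℚ) => {S : Kern | ∃ p ∈ F.filter (fun p : ℚ × ℚ =>
      α ≤ p.1 ∧ p.1 ≤ α + 1 ∧ α' ≤ p.2 ∧ p.2 ≤ α' + 1), t < S p.1 p.2}) := by
    refine Monotone.directed_le ?_
    intro F F' hFF S hS
    obtain ⟨p, hp, he⟩ := hS
    exact ⟨p, Finset.filter_subset_filter _ hFF hp, he⟩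
  show ν θ {S : Kern | ∃ x y : ℚ, α ≤ x ∧ x ≤ α + 1 ∧ α' ≤ y ∧ y ≤ α' + 1 ∧ t < S x y} ≤ _
  rw [e1, e2.measure_iUnion]
  refine iSup_le fun F => ?_
  refine (cell_fin h c hc m hm0 hm C (by linarith) θ h1 h2 α α' s hs _ ?_).trans ?_
  · intro p hp
    exact (Finset.mem_filter.1 hp).2
  · rw [show (4 : ENNReal) = ENNReal.ofReal 4 by norm_num, ← ENNReal.ofReal_mul (by norm_num)]
    refine ENNReal.ofReal_le_ofReal ?_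
    have e3 : 4 * Real.exp ((3 * c) ^ 3 / 12 - c * s) = K * Real.exp (-c * s) := by
      rw [hK, mul_assoc, ← Real.exp_add]
      congr 2
      ring
    rw [e3]
    exact mul_le_mul_of_nonneg_right (by linarith) (Real.exp_pos _).le

end Pool.Agent.DLM
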