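import Pool.Agent.DLM.LTA
import Pool.Agent.DLM.EXT

/-!
# DLM/LTB: lower tail of the one point law (80-120 lines)

`l m = tw (Iio (-m))`.  CLAIM: `l m ≤ C exp(-m/1100) + l (2m)` for `m ≥ m₁`.  `η = 1/64`, `ν (η + 1)` is the law of `kcomp S_η S_1`; `l m = ν (1+η) {S 0 0 < -(1+η)^(1/3) m}` (`one_low`) `≤ ν (1+η) {S 0 0 < -m}`.  Let `m' = m/1100`, `r = 2 √m' + C`, `F` finite `⊆ [-r, r] ∩ ℚ`.  `{kcomp S_η S_1 0 0 < -m} ⊆ {∀ x ∈ F, ¬ (S_1 x 0 ≥ -3m' ∧ S_η 0 x ≥ -m + 3m')}`: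
by `ext_lemma'` (with the factors exchanged) the probability is at most `ν 1 {∀ x ∈ F, S x 0 < -3 m'} + max_x ν η {S 0 x < -m + 3m'}`, and `ν η {S 0 x < -m + 3 m'} = tw (Iio (4 (-m + 3m' + 64 x^2)))` (`η^(1/3) = 1/4`), `64 x^2 ≤ 64 (8 m' + 2 C^2)`, so `4(-m + 3m' + 512 m' + 128 C^2) ≤ -2m` for `m ≥ m₁`.  Let `F` increase: first term `→ ν 1 {∀ x ..} ≤ C exp(-m')` (`low_sup`).
ITERATE: `l m ≤ ∑_{i<k} C exp(-2^i m/1100) + l (2^k m)`, `l → 0`: `l m ≤ C' exp(-m/1100)`.
-/

set_option autoImplicit false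

open MeasureTheory ProbabilityTheory Filter Topology

namespace Pool.Agent.DLM

variable {ν : ℝ → Measure Kern} {tw : Measure ℝ} {β : ℝ → Measure Ini}

private theorem LTB_lim {Ω : Type*} [MeasurableSpace Ω] (μ : Measure Ω) [IsFiniteMeasure μ]
    (A : ℚ → Set Ω) (hA : ∀ x, MeasurableSet (A x)) (c : ENNReal)
    (hc : ∀ F : Finset ℚ, c ≤ μ (⋂ x ∈ F, A x)) : c ≤ μ (⋂ x, A x) := by
  obtain ⟨f, hf⟩ := exists_surjective_nat ℚ
  let B : ℕ → Set Ω := fun k => ⋂ x ∈ (Finset.range k).image f, A x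
  have hB : ∀ k, MeasurableSet (B k) := fun k => Finset.measurableSet_biInter _ fun x _ => hA x
  have anti : Antitone B := by
    intro k l hkl a ha
    simp only [B, Set.mem_iInter] at ha ⊢
    intro x hx
    refine ha x ?_
    rw [Finset.mem_image] at hx ⊢
    obtain ⟨i, hi, rfl⟩ := hx
    exact ⟨i, Finset.mem_range.2 (lt_of_lt_of_le (Finset.mem_range.1 hi) hkl), rfl⟩
  have hI : ⋂ x, A x = ⋂ k, B k := by
    ext a
    simp only [B, Set.mem_iInter]
    constructor
    · intro ha k x _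
      exact ha x
    · intro ha x
      obtain ⟨i, rfl⟩ := hf x
      exact ha (i + 1) (f i) (Finset.mem_image.2 ⟨i, Finset.mem_range.2 (Nat.lt_succ_self i), rfl⟩)
  have ht := tendsto_measure_iInter_atTop (μ := μ) (fun k => (hB k).nullMeasurableSet) anti
    ⟨0, measure_ne_top _ _⟩
  rw [hI]
  exact ge_of_tendsto' ht fun k => hc _

private theorem LTB_cb : ((1 : ℝ) / 64) ^ (1 / 3 : ℝ) = 1 / 4 := by
  rw [show (1 : ℝ) / 64 = (1 / 4) ^ (3 : ℕ) by norm_num, ← Real.rpow_natCast,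
    ← Real.rpow_mul (by norm_num)]
  norm_num

private theorem LTB_ms (x y : ℚ) (u : ℝ) : MeasurableSet {S : Kern | S x y < u} :=
  measurableSet_lt ((measurable_pi_apply y).comp (measurable_pi_apply x)) measurable_const

private theorem LTB_ge (x y : ℚ) (u : ℝ) : MeasurableSet {S : Kern | u ≤ S x y} :=
  measurableSet_le measurable_const ((measurable_pi_apply y).comp (measurable_pi_apply x))

private theorem LTB_step (h : Base ν tw β) {C : ℝ} (hC : 1 ≤ C)
    (hs : ∀ m : ℝ, 0 ≤ m → ν 1 {S | ∀ x : ℚ, |(x : ℝ)| ≤ 2 * √m + C → S x 0 < -3 * m} ≤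
      ENNReal.ofReal (C * Real.exp (-m))) {m : ℝ} (hm : 5000 * C ^ 2 ≤ m) :
    tw (Set.Iio (-m)) ≤ ENNReal.ofReal (C * Real.exp (-m / 1100)) + tw (Set.Iio (-(2 * m))) := by
  have hC2 : 1 ≤ C ^ 2 := by nlinarith
  have hm0 : 0 ≤ m := by linarith
  have p1 : IsProbabilityMeasure (ν 1) := h.prob 1 one_pos
  have pη : IsProbabilityMeasure (ν (1 / 64)) := h.prob _ (by norm_num)
  set r : ℝ := 2 * √(m / 1100) + C with hr
  have hr2 : r ^ 2 ≤ 8 * (m / 1100) + 2 * C ^ 2 := by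
    have e : √(m / 1100) ^ 2 = m / 1100 := Real.sq_sqrt (by positivity)
    have := sq_nonneg (2 * √(m / 1100) - C)
    rw [hr]
    nlinarith
  -- the left side as the probability of an event of the composition
  have e1 : tw (Set.Iio (-m)) ≤ ((ν (1 / 64)).prod (ν 1)) {p | kcomp p.1 p.2 0 0 < -m} := by
    have h1 := one_low h (1 / 64 + 1) (by norm_num) 0 0 (-((1 / 64 + 1 : ℝ) ^ (1 / 3 : ℝ)) * m)
    have hpos : (0 : ℝ) < (1 / 64 + 1 : ℝ) ^ (1 / 3 : ℝ) := by positivity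
    have hge : (1 : ℝ) ≤ (1 / 64 + 1 : ℝ) ^ (1 / 3 : ℝ) :=
      Real.one_le_rpow (by norm_num) (by norm_num)
    have e2 : -((1 / 64 + 1 : ℝ) ^ (1 / 3 : ℝ)) * m / (1 / 64 + 1 : ℝ) ^ (1 / 3 : ℝ) = -m := by
      field_simp
    rw [e2] at h1
    rw [← h1]
    refine (measure_mono ?_).trans (comp_meas h (1 / 64) 1 (by norm_num) one_pos
      {S | S 0 0 < -m} (LTB_ms 0 0 (-m))).le
    intro S hS
    have hS' : S 0 0 + (((0 : ℚ) : ℝ) - ((0 : ℚ) : ℝ)) ^ 2 / (1 / 64 + 1) <
      -((1 / 64 + 1 : ℝ) ^ (1 / 3 : ℝ)) * m := hS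
    show S 0 0 < -m
    have h3 : m ≤ (1 / 64 + 1 : ℝ) ^ (1 / 3 : ℝ) * m := le_mul_of_one_le_left hm0 hge
    simp only [sub_self, ne_eq, OfNat.ofNat_ne_zero, not_false_eq_true, zero_pow, zero_div,
      add_zero] at hS'
    linarith
  -- finitely many intermediate points
  let A : ℚ → Set Kern := fun x => {S | |(x : ℝ)| ≤ r → S x 0 < -3 * (m / 1100)}
  have hA : ∀ x, MeasurableSet (A x) := by
    intro x
    by_cases hx : |(x : ℝ)| ≤ r
    · have : A x = {S | S x 0 < -3 * (m / 1100)} := by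
        ext S
        exact ⟨fun hS => hS hx, fun hS _ => hS⟩
      rw [this]
      exact LTB_ms x 0 _
    · have : A x = Set.univ := by
        ext S
        exact ⟨fun _ => trivial, fun _ hx' => absurd hx' hx⟩
      rw [this]
      exact MeasurableSet.univ
  have key : ∀ F : Finset ℚ, tw (Set.Iio (-m)) - tw (Set.Iio (-(2 * m))) ≤ ν 1 (⋂ x ∈ F, A x) := by
    intro F
    rw [tsub_le_iff_right]
    refine e1.trans ?_
    let F' : Finset ℚ := F.filter fun x => |(x : ℝ)| ≤ r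
    let E : ℚ → Set Kern := fun x => {S | -3 * (m / 1100) ≤ S x 0}
    let G : ℚ → Set Kern := fun x => {S | -m + 3 * (m / 1100) ≤ S 0 x}
    have hx := ext_lemma' (ν 1) (ν (1 / 64)) F' E G (fun x _ => LTB_ge x 0 _)
      (fun x _ => LTB_ge 0 x _) (tw (Set.Iio (-(2 * m)))) (by
        intro x hx
        have hx' : |(x : ℝ)| ≤ r := (Finset.mem_filter.1 hx).2
        have hx2 : (x : ℝ) ^ 2 ≤ r ^ 2 := by
          rw [← sq_abs]
          exact pow_le_pow_left₀ (abs_nonneg _) hx' 2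
        have h1 := one_low h (1 / 64) (by norm_num) 0 x (-m + 3 * (m / 1100) + 64 * (x : ℝ) ^ 2)
        rw [LTB_cb] at h1
        have h2 : (G x)ᶜ = {S : Kern | S 0 x + (((0 : ℚ) : ℝ) - x) ^ 2 / (1 / 64) <
            -m + 3 * (m / 1100) + 64 * (x : ℝ) ^ 2} := by
          ext S
          show ¬ (-m + 3 * (m / 1100) ≤ S 0 x) ↔ S 0 x + (((0 : ℚ) : ℝ) - x) ^ 2 / (1 / 64) <
            -m + 3 * (m / 1100) + 64 * (x : ℝ) ^ 2
          rw [not_le]
          have e : (((0 : ℚ) : ℝ) - x) ^ 2 / (1 / 64) = 64 * (x : ℝ) ^ 2 := by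
            push_cast
            ring
          rw [e]
          constructor <;> intro hh <;> linarith
        rw [h2, h1]
        refine measure_mono (Set.Iio_subset_Iio ?_)
        rw [div_le_iff₀ (by norm_num)]
        nlinarith)
    have hsw : ((ν (1 / 64)).prod (ν 1)) {p | kcomp p.1 p.2 0 0 < -m} ≤
        ((ν 1).prod (ν (1 / 64))) {p | ∀ i ∈ F', ¬ (p.1 ∈ E i ∧ p.2 ∈ G i)} := by
      have m1 : MeasurableSet {p : Kern × Kern | ∀ i ∈ F', ¬ (p.1 ∈ E i ∧ p.2 ∈ G i)} := by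
        have : {p : Kern × Kern | ∀ i ∈ F', ¬ (p.1 ∈ E i ∧ p.2 ∈ G i)} =
            ⋂ i ∈ F', (E i ×ˢ G i)ᶜ := by
          ext p
          simp [Set.mem_prod]
        rw [this]
        exact Finset.measurableSet_biInter _ fun x _ =>
          ((LTB_ge x 0 _).prod (LTB_ge 0 x _)).compl
      have hsw0 : (ν 1).prod (ν (1 / 64)) = ((ν (1 / 64)).prod (ν 1)).map Prod.swap :=
        Measure.prod_swap.symm
      rw [hsw0, Measure.map_apply measurable_swap m1]
      refine measure_mono_ae ?_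
      filter_upwards [comp_ge h (1 / 64) 1 (by norm_num) one_pos] with p hp hp'
      intro i _ hi
      have h1 := hp 0 i 0
      have h2 : kcomp p.1 p.2 0 0 < -m := hp'
      have h3 : -3 * (m / 1100) ≤ p.2 i 0 := hi.1
      have h4 : -m + 3 * (m / 1100) ≤ p.1 0 i := hi.2
      linarith
    refine hsw.trans (hx.trans (add_le_add ?_ le_rfl))
    refine measure_mono ?_
    intro S hS
    simp only [Set.mem_iInter]
    intro x hx hxr
    by_contra hcon
    rw [not_lt] at hcon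
    exact hS (Set.mem_biUnion (Finset.mem_filter.2 ⟨hx, hxr⟩) hcon)
  have h2 := LTB_lim (ν 1) A hA _ key
  have h3 : (⋂ x, A x) = {S | ∀ x : ℚ, |(x : ℝ)| ≤ 2 * √(m / 1100) + C → S x 0 < -3 * (m / 1100)} := by
    ext S
    simp only [Set.mem_iInter]
    rfl
  rw [h3] at h2
  have h4 := h2.trans (hs (m / 1100) (by positivity))
  rw [tsub_le_iff_right, show -(m / 1100) = -m / 1100 by ring] at h4
  exact h4

theorem low_tail (h : Base ν tw β) : ∃ C : ℝ, 1 ≤ C ∧ ∀ m : ℝ, 0 ≤ m →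
    tw (Set.Iio (-m)) ≤ ENNReal.ofReal (C * Real.exp (-m / C)) := by
  obtain ⟨C, hC, hs⟩ := low_sup h
  have ptw : IsProbabilityMeasure tw := h.twprob
  have hC2 : 1 ≤ C ^ 2 := by nlinarith
  have iter : ∀ k : ℕ, ∀ m : ℝ, 5000 * C ^ 2 ≤ m → tw (Set.Iio (-m)) ≤
      ENNReal.ofReal (2 * C * Real.exp (-m / 1100)) + tw (Set.Iio (-(2 ^ k * m))) := by
    intro k
    induction k with
    | zero =>
      intro m hm
      rw [pow_zero, one_mul]
      exact le_add_self
    | succ k ih =>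
      intro m hm
      refine (LTB_step h hC hs hm).trans ?_
      have h1 := ih (2 * m) (by nlinarith)
      refine (add_le_add le_rfl h1).trans ?_
      rw [← add_assoc, ← ENNReal.ofReal_add (by positivity) (by positivity), ← mul_assoc,
        ← pow_succ]
      refine add_le_add (ENNReal.ofReal_le_ofReal ?_) le_rfl
      have e1 : Real.exp (-(2 * m) / 1100) = Real.exp (-m / 1100) * Real.exp (-m / 1100) := by
        rw [← Real.exp_add]
        congr 1
        ring
      have e2 : Real.exp (-m / 1100) ≤ 1 / 2 := by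
        have h3 : Real.exp (-m / 1100) ≤ Real.exp (-1) := Real.exp_le_exp.2 (by nlinarith)
        have h4 : Real.exp (-1) ≤ 1 / 2 := by
          rw [Real.exp_neg, inv_eq_one_div]
          have h5 := Real.add_one_le_exp (1 : ℝ)
          exact one_div_le_one_div_of_le (by norm_num) (by linarith)
        exact h3.trans h4
      rw [e1]
      have e3 : 0 < Real.exp (-m / 1100) := Real.exp_pos _
      have e4 : Real.exp (-m / 1100) * Real.exp (-m / 1100) ≤ 1 / 2 * Real.exp (-m / 1100) :=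
        mul_le_mul_of_nonneg_right e2 e3.le
      nlinarith
  have large : ∀ m : ℝ, 5000 * C ^ 2 ≤ m →
      tw (Set.Iio (-m)) ≤ ENNReal.ofReal (2 * C * Real.exp (-m / 1100)) := by
    intro m hm
    refine ENNReal.le_of_forall_pos_le_add fun ε hε _ => ?_
    obtain ⟨m₀, hm₀, hm₁⟩ := tw_low h ε (by exact_mod_cast hε)
    obtain ⟨k, hk⟩ := pow_unbounded_of_one_lt m₀ (by norm_num : (1 : ℝ) < 2)
    refine (iter k m hm).trans (add_le_add le_rfl ?_)
    refine (measure_mono (Set.Iio_subset_Iio ?_)).trans hm₁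
    have : (2 : ℝ) ^ k ≤ 2 ^ k * m := le_mul_of_one_le_right (by positivity) (by linarith)
    linarith
  refine ⟨5000 * C ^ 2, by linarith, fun m hm => ?_⟩
  rcases le_or_gt (5000 * C ^ 2) m with hm' | hm'
  · refine (large m hm').trans (ENNReal.ofReal_le_ofReal ?_)
    have h1 : Real.exp (-m / 1100) ≤ Real.exp (-m / (5000 * C ^ 2)) := by
      apply Real.exp_le_exp.2
      rw [neg_div, neg_div, neg_le_neg_iff]
      exact div_le_div_of_nonneg_left hm (by norm_num) (by linarith)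
    have h2 : 2 * C ≤ 5000 * C ^ 2 := by nlinarith
    exact mul_le_mul h2 h1 (Real.exp_pos _).le (by positivity)
  · have h1 : tw (Set.Iio (-m)) ≤ 1 := prob_le_one
    refine h1.trans ?_
    rw [← ENNReal.ofReal_one]
    refine ENNReal.ofReal_le_ofReal ?_
    have h2 : Real.exp (-1) ≤ Real.exp (-m / (5000 * C ^ 2)) := by
      apply Real.exp_le_exp.2
      rw [neg_div, neg_le_neg_iff, div_le_one (by positivity)]
      exact hm'.le
    have h3 : (1 : ℝ) / 3 ≤ Real.exp (-1) := by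
      rw [Real.exp_neg, inv_eq_one_div]
      exact one_div_le_one_div_of_le (Real.exp_pos _) Real.exp_one_lt_three.le
    have h4 : (5000 : ℝ) * 1 * (1 / 3) ≤ 5000 * C ^ 2 * Real.exp (-m / (5000 * C ^ 2)) :=
      mul_le_mul (by nlinarith) (h3.trans h2) (by norm_num) (by positivity)
    linarith

end Pool.Agent.DLM
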