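import Pool.Agent.DLM.EDefs
import Pool.Agent.DLM.CST
import Pool.Agent.DLM.LTB
import Pool.Agent.DLM.BMX

/-!
# DLM/CNP: confinement (120-160 lines)

Outside an event of probability `≤ 1/w^10` (all errors are `≤ C exp(-w/C)`): (a) `|f x - f 0| ≤ x^2/16` for all rational `|x| > w`: for `j ≥ w` (`j ∈ ℕ`) and `x ∈ [j, j+1]`: `bmx` on `[0, j+1]` with `l = j^2/32`: `16 exp(-j^4/(64 · 1024 (j+1))) ≤ exp(-j)` for `j` large (`4 |b| (j+1) ≤ l`); left: `bmx_left` on `[-(j+1), 0]` with the same `l`.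
(b) `S x 0 ≤ -x^2/8` for all rational `|x| > w`: `cell_sup` (`c = 1`) for the cells `[j, j+1] × [0, 1]` and `[-j-1, -j] × [0, 1]` with `s = j^2/16`: `-j^2/θ + C (j+1) + C + j^2/16 ≤ -(j+1)^2/8` for `j` large (`θ ≤ 4`), probability `C exp(-j^2/16)`.
(c) `S 0 0 ≥ -w`: `one_low`, `low_tail`: `tw (Iio (-w/θ^(1/3))) ≤ C exp(-w/(2C))` (`θ^(1/3) ≤ 2`).  Then for `|x| > w`: `f x + S x 0 ≤ f 0 + x^2/16 - x^2/8 < f 0 + S 0 0 - 2` as `w^2/16 > w + 2` for `w ≥ 20`.  Sum over `j ≥ w`: geometric.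
-/

set_option autoImplicit false

open MeasureTheory ProbabilityTheory Filter Topology

namespace Pool.Agent.DLM

variable {ν : ℝ → Measure Kern} {tw : Measure ℝ} {β : ℝ → Measure Ini}

private theorem exp_pow (A B : ℝ) (hA : 0 < A) (hB : 0 < B) :
    ∀ᶠ w : ℕ in atTop, A * Real.exp (-(w : ℝ) / B) ≤ 1 / 2 * (1 / (w : ℝ) ^ 10) := by
  have h1 := Real.tendsto_pow_mul_exp_neg_atTop_nhds_zero 10
  have h2 : Tendsto (fun w : ℕ => (w : ℝ) / B) atTop atTop :=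
    tendsto_natCast_atTop_atTop.atTop_div_const hB
  have h3 := h1.comp h2
  have h4 : ∀ᶠ w : ℕ in atTop, ((w : ℝ) / B) ^ 10 * Real.exp (-((w : ℝ) / B)) < 1 / (2 * A * B ^ 10) :=
    h3.eventually (gt_mem_nhds (by positivity))
  filter_upwards [h4, eventually_gt_atTop 0] with w hw hw0
  have hw' : (0 : ℝ) < w := by exact_mod_cast hw0
  rw [lt_div_iff₀ (by positivity)] at hw
  rw [mul_one_div, le_div_iff₀ (by positivity), neg_div]
  have h5 : ((w : ℝ) / B) ^ 10 * Real.exp (-((w : ℝ) / B)) * (2 * A * B ^ 10) =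
      2 * (A * Real.exp (-((w : ℝ) / B)) * (w : ℝ) ^ 10) := by
    rw [div_pow]
    field_simp
  rw [h5] at hw
  linarith

private def Aj (j : ℕ) : Set Ini :=
  {f | ∃ x : ℚ, 0 ≤ x ∧ x ≤ (j : ℚ) + 1 ∧ (j : ℝ) ^ 2 / 32 < |f x - f 0|}

private def Bj (j : ℕ) : Set Ini :=
  {f | ∃ x : ℚ, -((j : ℚ) + 1) ≤ x ∧ x ≤ 0 ∧ 2 * ((j : ℝ) ^ 2 / 32) < |f x - f 0|}

private def Cj (C θ : ℝ) (j : ℕ) : Set Kern :=
  {S | ∃ x y : ℚ, (j : ℚ) ≤ x ∧ x ≤ (j : ℚ) + 1 ∧ 0 ≤ y ∧ y ≤ 0 + 1 ∧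
    -(((0 : ℚ) : ℝ) - ((j : ℚ) : ℝ)) ^ 2 / θ + C * |((0 : ℚ) : ℝ) - ((j : ℚ) : ℝ)| + C + (j : ℝ) ^ 2 / 16 < S x y}

private def Dj (C θ : ℝ) (j : ℕ) : Set Kern :=
  {S | ∃ x y : ℚ, -((j : ℚ) + 1) ≤ x ∧ x ≤ -((j : ℚ) + 1) + 1 ∧ 0 ≤ y ∧ y ≤ 0 + 1 ∧
    -(((0 : ℚ) : ℝ) - ((-((j : ℚ) + 1) : ℚ) : ℝ)) ^ 2 / θ + C * |((0 : ℚ) : ℝ) - ((-((j : ℚ) + 1) : ℚ) : ℝ)| + C +
      (j : ℝ) ^ 2 / 16 < S x y}

private theorem exp_le1 {j : ℕ} (hj : 300 ≤ j) :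
    16 * Real.exp (-(((j : ℝ) ^ 2 / 32) ^ 2) / (64 * ((j : ℝ) + 1))) ≤ 16 * Real.exp (-(j : ℝ)) := by
  have h1 : (300 : ℝ) ≤ j := by exact_mod_cast hj
  have h2 : (j : ℝ) ≤ ((j : ℝ) ^ 2 / 32) ^ 2 / (64 * ((j : ℝ) + 1)) := by
    rw [le_div_iff₀ (by positivity)]
    have h3 : (90000 : ℝ) ≤ (j : ℝ) ^ 2 := by nlinarith
    have h4 : 65536 * ((j : ℝ) + 1) ≤ (j : ℝ) ^ 3 := by nlinarith
    nlinarith
  have h3 : -(((j : ℝ) ^ 2 / 32) ^ 2) / (64 * ((j : ℝ) + 1)) ≤ -(j : ℝ) := by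
    rw [neg_div]
    linarith
  have := Real.exp_le_exp.2 h3
  linarith

private theorem A_le {β : Measure Ini} {b : ℝ} (hβ : IsBML β 2 b) (hb : |b| ≤ 1) {j : ℕ} (hj : 300 ≤ j) :
    β (Aj j) ≤ ENNReal.ofReal (16 * Real.exp (-(j : ℝ))) := by
  have h1 : (300 : ℝ) ≤ j := by exact_mod_cast hj
  have hb0 := abs_nonneg b
  have h2 := bmx hβ 0 ((j : ℚ) + 1) (by positivity) ((j : ℝ) ^ 2 / 32) (by positivity)
    (by push_cast; nlinarith)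
  refine (le_trans h2 ?_)
  refine ENNReal.ofReal_le_ofReal ?_
  push_cast
  rw [sub_zero]
  exact exp_le1 hj

private theorem B_le {β : Measure Ini} {b : ℝ} (hβ : IsBML β 2 b) (hb : |b| ≤ 1) {j : ℕ} (hj : 300 ≤ j) :
    β (Bj j) ≤ ENNReal.ofReal (16 * Real.exp (-(j : ℝ))) := by
  have h1 : (300 : ℝ) ≤ j := by exact_mod_cast hj
  have hb0 := abs_nonneg b
  have h0 : -((j : ℚ) + 1) < 0 := by
    have : (0 : ℚ) ≤ j := Nat.cast_nonneg j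
    linarith
  have h2 := bmx_left hβ (-((j : ℚ) + 1)) 0 h0 ((j : ℝ) ^ 2 / 32) (by positivity)
    (by push_cast; nlinarith)
  refine (le_trans h2 ?_)
  refine ENNReal.ofReal_le_ofReal ?_
  push_cast
  rw [show (0 : ℝ) - -((j : ℝ) + 1) = (j : ℝ) + 1 by ring]
  exact exp_le1 hj

private theorem exp_le2 {C : ℝ} (hC : 1 ≤ C) {j : ℕ} (hj : 300 ≤ j) :
    C * Real.exp (-1 * ((j : ℝ) ^ 2 / 16)) ≤ C * Real.exp (-(j : ℝ)) := by
  have h1 : (300 : ℝ) ≤ j := by exact_mod_cast hj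
  have h3 : -1 * ((j : ℝ) ^ 2 / 16) ≤ -(j : ℝ) := by nlinarith
  have := Real.exp_le_exp.2 h3
  nlinarith

private theorem conf_of {w : ℕ} (hw : 300 ≤ w) {C θ : ℝ} (hC : 1 ≤ C) (hCw : 100 * C ≤ w) (h1 : 1 ≤ θ)
    (h4 : θ ≤ 4) {f : Ini} {S : Kern} (hA : ∀ j, w ≤ j → f ∉ Aj j) (hB : ∀ j, w ≤ j → f ∉ Bj j)
    (hC' : ∀ j, w ≤ j → S ∉ Cj C θ j) (hD : ∀ j, w ≤ j → S ∉ Dj C θ j) (hE : -(w : ℝ) ≤ S 0 0) :
    Conf w f (fun x => S x 0) := by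
  have hw' : (300 : ℝ) ≤ w := by exact_mod_cast hw
  have hθ : 0 < θ := by linarith
  intro x hx
  show f x + S x 0 < f 0 + S 0 0 - 2
  have key : f x ≤ f 0 + (x : ℝ) ^ 2 / 16 ∧ S x 0 ≤ -(x : ℝ) ^ 2 / 8 := by
    rcases le_total 0 x with h0 | h0
    · have hxr : (0 : ℝ) ≤ x := by exact_mod_cast h0
      rw [abs_of_nonneg hxr] at hx
      set j := ⌊x⌋₊ with hj
      have hj1 : (j : ℚ) ≤ x := Nat.floor_le h0
      have hj2 : x ≤ (j : ℚ) + 1 := (Nat.lt_floor_add_one x).le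
      have hwj : w ≤ j := by
        rw [hj]
        refine Nat.le_floor ?_
        exact_mod_cast hx.le
      have hj1r : (j : ℝ) ≤ x := by exact_mod_cast hj1
      have hj2r : (x : ℝ) ≤ (j : ℝ) + 1 := by exact_mod_cast hj2
      have hwjr : (w : ℝ) ≤ j := by exact_mod_cast hwj
      constructor
      · have h5 : ¬ ((j : ℝ) ^ 2 / 32 < |f x - f 0|) := fun h => hA j hwj ⟨x, h0, hj2, h⟩
        have h6 := le_abs_self (f x - f 0)
        nlinarith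
      · have h5 : ¬ (-(((0 : ℚ) : ℝ) - ((j : ℚ) : ℝ)) ^ 2 / θ + C * |((0 : ℚ) : ℝ) - ((j : ℚ) : ℝ)| + C +
            (j : ℝ) ^ 2 / 16 < S x 0) := fun h => hC' j hwj ⟨x, 0, hj1, hj2, le_rfl, by norm_num, h⟩
        push_cast at h5
        rw [zero_sub, abs_neg, abs_of_nonneg (by linarith : (0 : ℝ) ≤ j)] at h5
        have h6 : (j : ℝ) ^ 2 / 4 ≤ (j : ℝ) ^ 2 / θ := by gcongr
        have h7 : -(-(j : ℝ)) ^ 2 / θ = -((j : ℝ) ^ 2 / θ) := by ring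
        rw [h7] at h5
        have h8 : C * (j : ℝ) ≤ (j : ℝ) / 100 * j := by nlinarith
        have h9 : C ≤ (j : ℝ) / 100 := by linarith
        nlinarith
    · have hxr : (x : ℝ) ≤ 0 := by exact_mod_cast h0
      rw [abs_of_nonpos hxr] at hx
      set j := ⌊-x⌋₊ with hj
      have hj1 : (j : ℚ) ≤ -x := Nat.floor_le (by linarith)
      have hj2 : -x ≤ (j : ℚ) + 1 := (Nat.lt_floor_add_one (-x)).le
      have hwj : w ≤ j := by
        rw [hj]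
        refine Nat.le_floor ?_
        exact_mod_cast hx.le
      have hj1r : (j : ℝ) ≤ -x := by exact_mod_cast hj1
      have hj2r : -(x : ℝ) ≤ (j : ℝ) + 1 := by exact_mod_cast hj2
      have hwjr : (w : ℝ) ≤ j := by exact_mod_cast hwj
      constructor
      · have h5 : ¬ (2 * ((j : ℝ) ^ 2 / 32) < |f x - f 0|) :=
          fun h => hB j hwj ⟨x, by linarith, h0, h⟩
        have h6 := le_abs_self (f x - f 0)
        nlinarith
      · have h5 : ¬ (-(((0 : ℚ) : ℝ) - ((-((j : ℚ) + 1) : ℚ) : ℝ)) ^ 2 / θ +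
            C * |((0 : ℚ) : ℝ) - ((-((j : ℚ) + 1) : ℚ) : ℝ)| + C + (j : ℝ) ^ 2 / 16 < S x 0) :=
          fun h => hD j hwj ⟨x, 0, by linarith, by linarith, le_rfl, by norm_num, h⟩
        push_cast at h5
        rw [zero_sub, neg_neg, abs_of_nonneg (by linarith : (0 : ℝ) ≤ (j : ℝ) + 1)] at h5
        have h6 : ((j : ℝ) + 1) ^ 2 / 4 ≤ ((j : ℝ) + 1) ^ 2 / θ := by gcongr
        have h7 : -((j : ℝ) + 1) ^ 2 / θ = -(((j : ℝ) + 1) ^ 2 / θ) := by ring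
        rw [h7] at h5
        have h8 : C * ((j : ℝ) + 1) ≤ (j : ℝ) / 100 * (j + 1) := by nlinarith
        have h9 : C ≤ (j : ℝ) / 100 := by linarith
        nlinarith
  have hx2 : (w : ℝ) ^ 2 ≤ (x : ℝ) ^ 2 := by
    rw [← sq_abs (x : ℝ)]
    gcongr
  nlinarith [key.1, key.2]

theorem conf_prob (h : Base ν tw β) : ∀ᶠ w : ℕ in atTop, ∀ b θ : ℝ, |b| ≤ 1 → 1 ≤ θ → θ ≤ 4 →
    ((β b).prod (ν θ)) {p | ¬ Conf w p.1 (fun x => p.2 x 0)} ≤ ENNReal.ofReal (1 / (w : ℝ) ^ 10) := by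
  obtain ⟨C, hC1, hC⟩ := cell_sup h 1 one_pos
  obtain ⟨C₂, hC₂, hlow⟩ := low_tail h
  have hK : (0 : ℝ) < 2 * (32 + 2 * C) := by linarith
  filter_upwards [eventually_ge_atTop 300, eventually_ge_atTop ⌈100 * C⌉₊, exp_pow _ 1 hK one_pos,
    exp_pow C₂ (2 * C₂) (by linarith) (by linarith)] with w hw hwC he1 he2 b θ hb h1 h4
  have hCw : 100 * C ≤ w := Nat.ceil_le.1 hwC
  have hθ : 0 < θ := by linarith
  have i1 : IsProbabilityMeasure (β b) := (h.bm b).prob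
  have i2 : IsProbabilityMeasure (ν θ) := h.prob θ hθ
  set μ := (β b).prod (ν θ) with hμ
  have hsub : {p : Ini × Kern | ¬ Conf w p.1 (fun x => p.2 x 0)} ⊆
      (⋃ i : ℕ, ((Aj (w + i) ∪ Bj (w + i)) ×ˢ Set.univ ∪
        Set.univ ×ˢ (Cj C θ (w + i) ∪ Dj C θ (w + i)))) ∪ Set.univ ×ˢ {S : Kern | S 0 0 + (((0 : ℚ) : ℝ) - ((0 : ℚ) : ℝ)) ^ 2 / θ < -(w : ℝ)} := by
    intro p hp
    by_contra hn
    apply hp
    rw [Set.mem_union, not_or, Set.mem_iUnion, not_exists] at hn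
    obtain ⟨hn1, hn2⟩ := hn
    have hj : ∀ j, w ≤ j → p.1 ∉ Aj j ∧ p.1 ∉ Bj j ∧ p.2 ∉ Cj C θ j ∧ p.2 ∉ Dj C θ j := by
      intro j hj
      obtain ⟨i, rfl⟩ := Nat.exists_eq_add_of_le hj
      have h5 := hn1 i
      refine ⟨fun h => h5 (Or.inl ⟨Or.inl h, trivial⟩), fun h => h5 (Or.inl ⟨Or.inr h, trivial⟩),
        fun h => h5 (Or.inr ⟨trivial, Or.inl h⟩), fun h => h5 (Or.inr ⟨trivial, Or.inr h⟩)⟩
    refine conf_of hw hC1 hCw h1 h4 (fun j hj' => (hj j hj').1) (fun j hj' => (hj j hj').2.1)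
      (fun j hj' => (hj j hj').2.2.1) (fun j hj' => (hj j hj').2.2.2) ?_
    by_contra hE
    apply hn2
    refine ⟨trivial, ?_⟩
    show p.2 0 0 + (((0 : ℚ) : ℝ) - ((0 : ℚ) : ℝ)) ^ 2 / θ < -(w : ℝ)
    rw [sub_self]
    simp only [ne_eq, OfNat.ofNat_ne_zero, not_false_eq_true, zero_pow, zero_div, add_zero]
    linarith
  have hstep : ∀ i : ℕ, μ ((Aj (w + i) ∪ Bj (w + i)) ×ˢ Set.univ ∪
      Set.univ ×ˢ (Cj C θ (w + i) ∪ Dj C θ (w + i))) ≤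
      ENNReal.ofReal ((32 + 2 * C) * Real.exp (-(w : ℝ))) * 2⁻¹ ^ i := by
    intro i
    have hj : 300 ≤ w + i := by omega
    have a1 := A_le (h.bm b) hb hj
    have a2 := B_le (h.bm b) hb hj
    have hpow : (0 : ℝ) ≤ ((w + i : ℕ) : ℝ) ^ 2 / 16 := by positivity
    have a3 : ν θ (Cj C θ (w + i)) ≤ ENNReal.ofReal (C * Real.exp (-(((w + i : ℕ) : ℝ)))) :=
      (hC θ (by linarith) h4 ((w + i : ℕ) : ℚ) 0 _ hpow).trans
        (ENNReal.ofReal_le_ofReal (exp_le2 hC1 hj))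
    have a4 : ν θ (Dj C θ (w + i)) ≤ ENNReal.ofReal (C * Real.exp (-(((w + i : ℕ) : ℝ)))) :=
      (hC θ (by linarith) h4 (-(((w + i : ℕ) : ℚ) + 1)) 0 _ hpow).trans
        (ENNReal.ofReal_le_ofReal (exp_le2 hC1 hj))
    have e1 : ∀ A : Set Ini, μ (A ×ˢ Set.univ) = β b A := by
      intro A
      rw [hμ, Measure.prod_prod, measure_univ, mul_one]
    have e2 : ∀ A : Set Kern, μ (Set.univ ×ˢ A) = ν θ A := by
      intro A
      rw [hμ, Measure.prod_prod, measure_univ, one_mul]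
    have hE : Real.exp (-(((w + i : ℕ) : ℝ))) ≤ Real.exp (-(w : ℝ)) * (1 / 2) ^ i := by
      push_cast
      rw [neg_add, Real.exp_add]
      gcongr
      have h5 : Real.exp (-(i : ℝ)) = Real.exp (-1) ^ i := by
        rw [← Real.exp_nat_mul]
        congr 1
        ring
      rw [h5]
      gcongr
      rw [Real.exp_neg, one_div]
      gcongr
      have := Real.add_one_le_exp (1 : ℝ)
      linarith
    calc μ ((Aj (w + i) ∪ Bj (w + i)) ×ˢ Set.univ ∪ Set.univ ×ˢ (Cj C θ (w + i) ∪ Dj C θ (w + i)))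
        ≤ μ ((Aj (w + i) ∪ Bj (w + i)) ×ˢ Set.univ) + μ (Set.univ ×ˢ (Cj C θ (w + i) ∪ Dj C θ (w + i))) :=
          measure_union_le _ _
      _ = β b (Aj (w + i) ∪ Bj (w + i)) + ν θ (Cj C θ (w + i) ∪ Dj C θ (w + i)) := by rw [e1, e2]
      _ ≤ (β b (Aj (w + i)) + β b (Bj (w + i))) + (ν θ (Cj C θ (w + i)) + ν θ (Dj C θ (w + i))) :=
          add_le_add (measure_union_le _ _) (measure_union_le _ _)
      _ ≤ (ENNReal.ofReal (16 * Real.exp (-((w + i : ℕ) : ℝ))) + ENNReal.ofReal (16 * Real.exp (-((w + i : ℕ) : ℝ)))) +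
          (ENNReal.ofReal (C * Real.exp (-(((w + i : ℕ) : ℝ)))) + ENNReal.ofReal (C * Real.exp (-(((w + i : ℕ) : ℝ))))) :=
          add_le_add (add_le_add a1 a2) (add_le_add a3 a4)
      _ = ENNReal.ofReal ((32 + 2 * C) * Real.exp (-((w + i : ℕ) : ℝ))) := by
          rw [← ENNReal.ofReal_add (by positivity) (by positivity),
            ← ENNReal.ofReal_add (by positivity) (by positivity),
            ← ENNReal.ofReal_add (by positivity) (by positivity)]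
          congr 1
          ring
      _ ≤ ENNReal.ofReal ((32 + 2 * C) * Real.exp (-(w : ℝ)) * (1 / 2) ^ i) := by
          refine ENNReal.ofReal_le_ofReal ?_
          rw [mul_assoc]
          exact mul_le_mul_of_nonneg_left hE (by linarith)
      _ = ENNReal.ofReal ((32 + 2 * C) * Real.exp (-(w : ℝ))) * 2⁻¹ ^ i := by
          rw [ENNReal.ofReal_mul (by positivity), ENNReal.ofReal_pow (by norm_num), one_div,
            ENNReal.ofReal_inv_of_pos (by norm_num), ENNReal.ofReal_ofNat]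
  have hlast : μ (Set.univ ×ˢ {S : Kern | S 0 0 + (((0 : ℚ) : ℝ) - ((0 : ℚ) : ℝ)) ^ 2 / θ < -(w : ℝ)}) ≤
      ENNReal.ofReal (C₂ * Real.exp (-(w : ℝ) / (2 * C₂))) := by
    rw [hμ, Measure.prod_prod, measure_univ, one_mul, one_low h θ hθ 0 0 (-(w : ℝ))]
    have hr0 : 0 < θ ^ (1 / 3 : ℝ) := Real.rpow_pos_of_pos hθ _
    have hr : θ ^ (1 / 3 : ℝ) ≤ 2 := by
      calc θ ^ (1 / 3 : ℝ) ≤ (8 : ℝ) ^ (1 / 3 : ℝ) := by gcongr; linarith
        _ = 2 := by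
          rw [show (8 : ℝ) = 2 ^ (3 : ℝ) by norm_num, ← Real.rpow_mul (by norm_num)]
          norm_num
    have h5 := hlow ((w : ℝ) / θ ^ (1 / 3 : ℝ)) (by positivity)
    rw [neg_div]
    refine h5.trans (ENNReal.ofReal_le_ofReal ?_)
    have h6 : -((w : ℝ) / θ ^ (1 / 3 : ℝ)) / C₂ ≤ -(w : ℝ) / (2 * C₂) := by
      rw [neg_div, neg_div, neg_le_neg_iff, div_div]
      gcongr
    exact mul_le_mul_of_nonneg_left (Real.exp_le_exp.2 h6) (by linarith)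
  calc μ {p : Ini × Kern | ¬ Conf w p.1 (fun x => p.2 x 0)}
      ≤ μ ((⋃ i : ℕ, ((Aj (w + i) ∪ Bj (w + i)) ×ˢ Set.univ ∪
        Set.univ ×ˢ (Cj C θ (w + i) ∪ Dj C θ (w + i)))) ∪ Set.univ ×ˢ {S : Kern | S 0 0 + (((0 : ℚ) : ℝ) - ((0 : ℚ) : ℝ)) ^ 2 / θ < -(w : ℝ)}) :=
        measure_mono hsub
    _ ≤ μ (⋃ i : ℕ, ((Aj (w + i) ∪ Bj (w + i)) ×ˢ Set.univ ∪
        Set.univ ×ˢ (Cj C θ (w + i) ∪ Dj C θ (w + i)))) +
        μ (Set.univ ×ˢ {S : Kern | S 0 0 + (((0 : ℚ) : ℝ) - ((0 : ℚ) : ℝ)) ^ 2 / θ < -(w : ℝ)}) := measure_union_le _ _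
    _ ≤ (∑' i : ℕ, ENNReal.ofReal ((32 + 2 * C) * Real.exp (-(w : ℝ))) * 2⁻¹ ^ i) +
        ENNReal.ofReal (C₂ * Real.exp (-(w : ℝ) / (2 * C₂))) := by
        refine add_le_add ?_ hlast
        exact (measure_iUnion_le _).trans (ENNReal.tsum_le_tsum hstep)
    _ = ENNReal.ofReal ((32 + 2 * C) * Real.exp (-(w : ℝ))) * 2 +
        ENNReal.ofReal (C₂ * Real.exp (-(w : ℝ) / (2 * C₂))) := by
        rw [ENNReal.tsum_mul_left, ENNReal.tsum_geometric, ENNReal.one_sub_inv_two, inv_inv]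
    _ = ENNReal.ofReal (2 * (32 + 2 * C) * Real.exp (-(w : ℝ) / 1) + C₂ * Real.exp (-(w : ℝ) / (2 * C₂))) := by
        rw [ENNReal.ofReal_add (by positivity) (by positivity), div_one]
        congr 1
        rw [mul_assoc 2, ENNReal.ofReal_mul (p := 2) (by norm_num), ENNReal.ofReal_ofNat, mul_comm]
    _ ≤ ENNReal.ofReal (1 / (w : ℝ) ^ 10) := by
        refine ENNReal.ofReal_le_ofReal ?_
        linarith

end Pool.Agent.DLM
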