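import Pool.Agent.DLM.NTS
import Pool.Agent.DLM.BMN

/-!
# DLM/NTF: the near tie lemma (120-160 lines)

STEP 1 (finite sets).  For a finite `F ⊆ [-M, M]` the event `E_F = {∃ y y' ∈ F, d ≤ |y - y'|, both maximise f + g over F up to ε}` has probability `≤ K`.  Take a maximiser `y₀ ∈ F`.  One of `y, y'` has distance `≥ d/2` from `y₀`, call it `z`; `f y₀ + g y₀ ≤ f z + g z + ε`.
With `D i = 2^i d/4` there is `i` with `2 D i ≤ |z - y₀| < 4 D i`; and `2 D i ≤ 2 M`.  If `z > y₀` this is the event of `nts` for `D i`; if `z < y₀` it is the event of `nts` for the reflected process `f(-x)`, `g(-x)`, `-F` (`bml_map_neg` of module BMN: law with drift `-b`).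
Sum over `i` (only `i` with `D i ≤ M`; `measure_iUnion_le`): `2 · 12 exp(6p) (ε/√(D i))^(1-1/p) (M/D i)^(2/p) ≤ 24 exp(6p) 2 (ε/√d)^(1-1/p) 4 (M/d)^(2/p) 2^(-i/4)` (`√(D i) = 2^(i/2) √d/2`, `1 - 1/p ≥ 1/2`), and `∑ 2^(-i/4) ≤ 7`: total `≤ 1344 exp(6p) ..`.
STEP 2.  Let `F_n` be increasing finite sets with union `ℚ ∩ [-M, M]`.  The event `E` is contained in `⋃ N, ⋂ n ≥ N, E_{F_n}`, an increasing union, so `β E ≤ sup_N β(⋂ n ≥ N ..) ≤ K`.
-/

set_option autoImplicit false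

open MeasureTheory ProbabilityTheory Filter Topology

namespace Pool.Agent.DLM

private theorem NTF_pow (α : ℝ) (h0 : 1 / 2 ≤ α) (i : ℕ) : (1 / √((2 : ℝ) ^ i)) ^ α ≤ (6 / 7 : ℝ) ^ i := by
  have h1 : √((2 : ℝ) ^ i) = √2 ^ i := by
    rw [← Real.sqrt_sq (by positivity : (0 : ℝ) ≤ √2 ^ i)]
    congr 1
    rw [← pow_mul, mul_comm, pow_mul, Real.sq_sqrt (by norm_num)]
  have h2 : (1 / √((2 : ℝ) ^ i)) ^ α = ((1 / √2) ^ α) ^ i := by
    rw [h1, ← one_div_pow, ← Real.rpow_natCast, ← Real.rpow_mul (by positivity), mul_comm, Real.rpow_mul (by positivity),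
      Real.rpow_natCast]
  rw [h2]
  refine pow_le_pow_left₀ (by positivity) ?_ i
  have hs2 : (1 : ℝ) ≤ √2 := by
    rw [Real.le_sqrt (by norm_num) (by norm_num)]
    norm_num
  have h3 : (1 / √2) ^ α ≤ (1 / √2) ^ (1 / 2 : ℝ) :=
    Real.rpow_le_rpow_of_exponent_ge (by positivity) (by rw [div_le_one (by positivity)]; exact hs2) h0
  refine h3.trans ?_
  rw [← Real.sqrt_eq_rpow, Real.sqrt_le_left (by norm_num), div_le_iff₀ (by positivity)]
  have h4 : (49 / 36 : ℝ) ≤ √2 := by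
    rw [Real.le_sqrt (by norm_num) (by norm_num)]
    norm_num
  nlinarith

private theorem NTF_geom (n : ℕ) : ∑ i ∈ Finset.range n, (6 / 7 : ℝ) ^ i ≤ 7 := by
  have h : ∑ i ∈ Finset.range n, (6 / 7 : ℝ) ^ i = 7 - 7 * (6 / 7) ^ n := by
    induction n with
    | zero => norm_num
    | succ n ih => rw [Finset.sum_range_succ, ih, pow_succ]; ring
  rw [h]
  have : (0 : ℝ) ≤ (6 / 7) ^ n := by positivity
  linarith

private theorem NTF_term (M d : ℚ) (hd : 0 < d) (hdM : d ≤ M) (ε : ℝ) (hε : 0 < ε) (p : ℝ) (hp : 2 ≤ p) (i : ℕ) :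
    12 * Real.exp (6 * p) * (ε / √(((2 ^ i * d / 4 : ℚ)) : ℝ)) ^ (1 - 1 / p) *
      ((M : ℝ) / ((2 ^ i * d / 4 : ℚ) : ℝ)) ^ (2 / p) ≤
    (96 * Real.exp (6 * p) * (ε / √(d : ℝ)) ^ (1 - 1 / p) * ((M : ℝ) / d) ^ (2 / p)) * (6 / 7) ^ i := by
  have hdR : (0 : ℝ) < d := by exact_mod_cast hd
  have hMR : (0 : ℝ) < M := by exact_mod_cast hd.trans_le hdM
  have hpp : 1 / p ≤ 1 / 2 := one_div_le_one_div_of_le (by norm_num) hp
  have hpp0 : 0 < 1 / p := by positivity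
  set α : ℝ := 1 - 1 / p with hα
  have hα0 : 1 / 2 ≤ α := by rw [hα]; linarith
  have hα1 : α ≤ 1 := by rw [hα]; linarith
  have h2i : (0 : ℝ) < 2 ^ i := by positivity
  have e1 : √(((2 ^ i * d / 4 : ℚ)) : ℝ) = √((2 : ℝ) ^ i) * √(d : ℝ) / 2 := by
    have h4 : √(4 : ℝ) = 2 := by
      rw [show (4 : ℝ) = 2 ^ 2 by norm_num, Real.sqrt_sq (by norm_num)]
    push_cast
    rw [Real.sqrt_div' _ (by norm_num), Real.sqrt_mul h2i.le, h4]
  have hs1 : 0 < √((2 : ℝ) ^ i) := Real.sqrt_pos.2 h2i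
  have hs2 : 0 < √(d : ℝ) := Real.sqrt_pos.2 hdR
  have e2 : ε / √(((2 ^ i * d / 4 : ℚ)) : ℝ) = (2 * (ε / √(d : ℝ))) * (1 / √((2 : ℝ) ^ i)) := by
    rw [e1]
    field_simp
  have e3 : (ε / √(((2 ^ i * d / 4 : ℚ)) : ℝ)) ^ α ≤ 2 * (ε / √(d : ℝ)) ^ α * (6 / 7) ^ i := by
    rw [e2, Real.mul_rpow (by positivity) (by positivity), Real.mul_rpow (by norm_num) (by positivity)]
    have h5 : (2 : ℝ) ^ α ≤ 2 := by
      calc (2 : ℝ) ^ α ≤ 2 ^ (1 : ℝ) := Real.rpow_le_rpow_of_exponent_le (by norm_num) hα1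
        _ = 2 := Real.rpow_one 2
    have h6 := NTF_pow α hα0 i
    have h7 : (0 : ℝ) ≤ (ε / √(d : ℝ)) ^ α := by positivity
    gcongr
  have e4 : (M : ℝ) / ((2 ^ i * d / 4 : ℚ) : ℝ) ≤ 4 * ((M : ℝ) / d) := by
    push_cast
    rw [div_le_iff₀ (by positivity)]
    have h8 : 4 * ((M : ℝ) / d) * (2 ^ i * d / 4) = M * 2 ^ i := by field_simp
    rw [h8]
    have h9 : (1 : ℝ) ≤ 2 ^ i := one_le_pow₀ (by norm_num)
    nlinarith
  have e5 : ((M : ℝ) / ((2 ^ i * d / 4 : ℚ) : ℝ)) ^ (2 / p) ≤ 4 * ((M : ℝ) / d) ^ (2 / p) := by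
    have h10 : (0 : ℝ) ≤ (M : ℝ) / ((2 ^ i * d / 4 : ℚ) : ℝ) := by
      push_cast
      positivity
    refine (Real.rpow_le_rpow h10 e4 (by positivity)).trans ?_
    rw [Real.mul_rpow (by norm_num) (by positivity)]
    have h11 : (4 : ℝ) ^ (2 / p) ≤ 4 := by
      calc (4 : ℝ) ^ (2 / p) ≤ 4 ^ (1 : ℝ) := Real.rpow_le_rpow_of_exponent_le (by norm_num)
              (by rw [div_le_one (by linarith)]; exact hp)
        _ = 4 := Real.rpow_one 4
    gcongr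
  calc 12 * Real.exp (6 * p) * (ε / √(((2 ^ i * d / 4 : ℚ)) : ℝ)) ^ α *
      ((M : ℝ) / ((2 ^ i * d / 4 : ℚ) : ℝ)) ^ (2 / p) ≤
      12 * Real.exp (6 * p) * (2 * (ε / √(d : ℝ)) ^ α * (6 / 7) ^ i) * (4 * ((M : ℝ) / d) ^ (2 / p)) := by
        gcongr
    _ = _ := by ring

/-- the event for a finite set -/
private def NTFE (g : ℚ → ℝ) (d : ℚ) (ε : ℝ) (F : Finset ℚ) : Set Ini :=
  {f | ∃ y ∈ F, ∃ y' ∈ F, d ≤ |y - y'| ∧ (∀ x ∈ F, f x + g x ≤ f y + g y + ε) ∧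
    (∀ x ∈ F, f x + g x ≤ f y' + g y' + ε)}

private theorem NTF_fin {β : Measure Ini} {b : ℝ} (hβ : IsBML β 2 b) (g : ℚ → ℝ) (M : ℚ) (d : ℚ) (hd : 0 < d)
    (hdM : d ≤ M) (ε : ℝ) (hε : 0 < ε) (p : ℝ) (hp : 2 ≤ p) (F : Finset ℚ) (hF : ∀ x ∈ F, |x| ≤ M) :
    β (NTFE g d ε F) ≤
      ENNReal.ofReal (1400 * Real.exp (6 * p) * (ε / √(d : ℝ)) ^ (1 - 1 / p) * ((M : ℝ) / d) ^ (2 / p)) := by
  classical
  have hM : 0 < M := hd.trans_le hdM
  obtain ⟨n, hn⟩ : ∃ n : ℕ, 4 * M / d < 2 ^ n := by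
    obtain ⟨n, hn⟩ := pow_unbounded_of_one_lt (4 * M / d) (one_lt_two : (1 : ℚ) < 2)
    exact ⟨n, hn⟩
  set K : ℝ := 96 * Real.exp (6 * p) * (ε / √(d : ℝ)) ^ (1 - 1 / p) * ((M : ℝ) / d) ^ (2 / p) with hK
  have hdR : (0 : ℝ) < d := by exact_mod_cast hd
  have hMR : (0 : ℝ) < M := by exact_mod_cast hM
  have hK0 : 0 ≤ K := by positivity
  -- the events of one scale
  let R : ℕ → Set Ini := fun i => {f | ∃ y ∈ F, ∃ y' ∈ F, (∀ x ∈ F, f x + g x ≤ f y + g y) ∧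
    y + 2 * (2 ^ i * d / 4) ≤ y' ∧ y' < y + 4 * (2 ^ i * d / 4) ∧ f y + g y ≤ f y' + g y' + ε}
  let F' : Finset ℚ := F.image fun x => -x
  let L : ℕ → Set Ini := fun i => {f | ∃ y ∈ F', ∃ y' ∈ F', (∀ x ∈ F', f x + g (-x) ≤ f y + g (-y)) ∧
    y + 2 * (2 ^ i * d / 4) ≤ y' ∧ y' < y + 4 * (2 ^ i * d / 4) ∧ f y + g (-y) ≤ f y' + g (-y') + ε}
  have hF' : ∀ x ∈ F', |x| ≤ M := by
    intro x hx
    obtain ⟨z, hz, rfl⟩ := Finset.mem_image.1 hx
    rw [abs_neg]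
    exact hF z hz
  let I : Finset ℕ := (Finset.range n).filter fun i => (2 ^ i * d / 4 : ℚ) ≤ M
  have hD : ∀ i : ℕ, (0 : ℚ) < 2 ^ i * d / 4 := fun i => by positivity
  have hR : ∀ i ∈ I, β (R i) ≤ ENNReal.ofReal (K * (6 / 7) ^ i) := by
    intro i hi
    refine (nts hβ g F M hF _ (hD i) (Finset.mem_filter.1 hi).2 ε hε p hp).trans ?_
    exact ENNReal.ofReal_le_ofReal (NTF_term M d hd hdM ε hε p hp i)
  have hmn : Measurable fun (f : Ini) (x : ℚ) => f (-x) :=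
    measurable_pi_lambda _ fun x => measurable_pi_apply (-x)
  have hL : ∀ i ∈ I, β ((fun (f : Ini) (x : ℚ) => f (-x)) ⁻¹' (L i)) ≤ ENNReal.ofReal (K * (6 / 7) ^ i) := by
    intro i hi
    refine (Measure.le_map_apply hmn.aemeasurable (L i)).trans ?_
    refine (nts (bml_map_neg hβ) (fun x => g (-x)) F' M hF' _ (hD i) (Finset.mem_filter.1 hi).2 ε hε p hp).trans ?_
    exact ENNReal.ofReal_le_ofReal (NTF_term M d hd hdM ε hε p hp i)
  have hcov : NTFE g d ε F ⊆ ⋃ i ∈ I, (R i ∪ (fun (f : Ini) (x : ℚ) => f (-x)) ⁻¹' (L i)) := by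
    rintro f ⟨y, hy, y', hy', hd1, hn1, hn2⟩
    obtain ⟨y0, hy0, hm⟩ := Finset.exists_max_image F (fun x => f x + g x) ⟨y, hy⟩
    obtain ⟨z, hz, hz1, hz2⟩ : ∃ z ∈ F, d / 2 ≤ |z - y0| ∧ f y0 + g y0 ≤ f z + g z + ε := by
      by_cases h : d / 2 ≤ |y - y0|
      · exact ⟨y, hy, h, hn1 y0 hy0⟩
      · refine ⟨y', hy', ?_, hn2 y0 hy0⟩
        push Not at h
        have h1 : |y - y'| ≤ |y - y0| + |y' - y0| := by
          have h2 := abs_sub_le y y0 y'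
          rw [abs_sub_comm y0 y'] at h2
          exact h2
        linarith
    have hz0 := abs_le.1 (hF z hz)
    have hy00 := abs_le.1 (hF y0 hy0)
    have hzM : |z - y0| ≤ 2 * M := by
      rw [abs_le]
      constructor <;> linarith [hz0.1, hz0.2, hy00.1, hy00.2]
    obtain ⟨i, hi1, hi2⟩ : ∃ i : ℕ, 2 ^ i * d / 2 ≤ |z - y0| ∧ |z - y0| < 2 ^ (i + 1) * d / 2 := by
      have hex : ∃ j : ℕ, |z - y0| < 2 ^ j * d / 2 := by
        refine ⟨n, ?_⟩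
        have h3 : 4 * M < 2 ^ n * d := by rwa [div_lt_iff₀ hd] at hn
        linarith
      have hj := Nat.find_spec hex
      have hj0 : Nat.find hex ≠ 0 := by
        intro h0
        rw [h0, pow_zero, one_mul] at hj
        linarith
      obtain ⟨i, hi⟩ := Nat.exists_eq_succ_of_ne_zero hj0
      refine ⟨i, ?_, ?_⟩
      · have := Nat.find_min hex (m := i) (by omega)
        push Not at this
        exact this
      · rw [hi] at hj
        exact hj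
    have hiM : (2 ^ i * d / 4 : ℚ) ≤ M := by linarith
    have hin : i < n := by
      by_contra hcon
      push Not at hcon
      have h3 : 4 * M < 2 ^ n * d := by rwa [div_lt_iff₀ hd] at hn
      have h4 : (2 : ℚ) ^ n ≤ 2 ^ i := pow_le_pow_right₀ (by norm_num) hcon
      have h5 : (2 : ℚ) ^ n * d ≤ 2 ^ i * d := mul_le_mul_of_nonneg_right h4 hd.le
      linarith
    refine Set.mem_iUnion₂.2 ⟨i, Finset.mem_filter.2 ⟨Finset.mem_range.2 hin, hiM⟩, ?_⟩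
    rw [pow_succ] at hi2
    rcases le_total y0 z with hle | hle
    · left
      rw [abs_of_nonneg (by linarith)] at hi1 hi2
      exact ⟨y0, hy0, z, hz, hm, by linarith, by linarith, hz2⟩
    · right
      rw [abs_of_nonpos (by linarith)] at hi1 hi2
      refine ⟨-y0, Finset.mem_image.2 ⟨y0, hy0, rfl⟩, -z, Finset.mem_image.2 ⟨z, hz, rfl⟩, ?_, by linarith, by linarith, ?_⟩
      · intro x hx
        obtain ⟨w, hw, rfl⟩ := Finset.mem_image.1 hx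
        simp only [neg_neg]
        exact hm w hw
      · simp only [neg_neg]
        exact hz2
  calc β (NTFE g d ε F) ≤ β (⋃ i ∈ I, (R i ∪ (fun (f : Ini) (x : ℚ) => f (-x)) ⁻¹' (L i))) := measure_mono hcov
    _ ≤ ∑ i ∈ I, β (R i ∪ (fun (f : Ini) (x : ℚ) => f (-x)) ⁻¹' (L i)) := measure_biUnion_finset_le _ _
    _ ≤ ∑ i ∈ I, (ENNReal.ofReal (K * (6 / 7) ^ i) + ENNReal.ofReal (K * (6 / 7) ^ i)) :=
        Finset.sum_le_sum fun i hi => (measure_union_le _ _).trans (add_le_add (hR i hi) (hL i hi))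
    _ ≤ ∑ i ∈ Finset.range n, (ENNReal.ofReal (K * (6 / 7) ^ i) + ENNReal.ofReal (K * (6 / 7) ^ i)) :=
        Finset.sum_le_sum_of_subset (Finset.filter_subset _ _)
    _ = ENNReal.ofReal (∑ i ∈ Finset.range n, (K * (6 / 7) ^ i + K * (6 / 7) ^ i)) := by
        rw [ENNReal.ofReal_sum_of_nonneg fun i _ => by positivity]
        refine Finset.sum_congr rfl fun i _ => ?_
        rw [ENNReal.ofReal_add (by positivity) (by positivity)]
    _ ≤ _ := by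
        refine ENNReal.ofReal_le_ofReal ?_
        have h6 : ∑ i ∈ Finset.range n, (K * (6 / 7) ^ i + K * (6 / 7) ^ i) =
            (2 * K) * ∑ i ∈ Finset.range n, (6 / 7 : ℝ) ^ i := by
          rw [Finset.mul_sum]
          refine Finset.sum_congr rfl fun i _ => ?_
          ring
        rw [h6]
        have h7 := mul_le_mul_of_nonneg_left (NTF_geom n) (by positivity : (0 : ℝ) ≤ 2 * K)
        refine h7.trans ?_
        have h8 : 0 ≤ Real.exp (6 * p) * (ε / √(d : ℝ)) ^ (1 - 1 / p) * ((M : ℝ) / d) ^ (2 / p) := by positivity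
        rw [hK]
        nlinarith

theorem near_ties {β : Measure Ini} {b : ℝ} (hβ : IsBML β 2 b) (g : ℚ → ℝ) (M : ℚ) (d : ℚ) (hd : 0 < d) (hdM : d ≤ M)
    (ε : ℝ) (hε : 0 < ε) (p : ℝ) (hp : 2 ≤ p) :
    β {f | ∃ y y' : ℚ, |y| ≤ M ∧ |y'| ≤ M ∧ d ≤ |y - y'| ∧ (∀ x, |x| ≤ M → f x + g x ≤ f y + g y + ε) ∧
        (∀ x, |x| ≤ M → f x + g x ≤ f y' + g y' + ε)} ≤
      ENNReal.ofReal (1400 * Real.exp (6 * p) * (ε / √(d : ℝ)) ^ (1 - 1 / p) * ((M : ℝ) / d) ^ (2 / p)) := by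
  classical
  let F : ℕ → Finset ℚ := fun n => ((Finset.range n).image (Denumerable.eqv ℚ).symm).filter fun x => |x| ≤ M
  have hF : ∀ n, ∀ x ∈ F n, |x| ≤ M := fun n x hx => (Finset.mem_filter.1 hx).2
  have hmem : ∀ x : ℚ, |x| ≤ M → ∀ n, Denumerable.eqv ℚ x < n → x ∈ F n := by
    intro x hx n hn
    exact Finset.mem_filter.2 ⟨Finset.mem_image.2 ⟨Denumerable.eqv ℚ x, Finset.mem_range.2 hn,
      (Denumerable.eqv ℚ).symm_apply_apply x⟩, hx⟩
  let G : ℕ → Set Ini := fun N => ⋂ n ∈ Set.Ici N, NTFE g d ε (F n)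
  have hG : Monotone G := by
    intro a b hab f hf
    simp only [G, Set.mem_iInter] at hf ⊢
    exact fun n hn => hf n (le_trans hab hn)
  have hcov : {f : Ini | ∃ y y' : ℚ, |y| ≤ M ∧ |y'| ≤ M ∧ d ≤ |y - y'| ∧ (∀ x, |x| ≤ M → f x + g x ≤ f y + g y + ε) ∧
        (∀ x, |x| ≤ M → f x + g x ≤ f y' + g y' + ε)} ⊆ ⋃ N, G N := by
    rintro f ⟨y, y', h1, h2, h3, h4, h5⟩
    refine Set.mem_iUnion.2 ⟨Denumerable.eqv ℚ y + Denumerable.eqv ℚ y' + 1, ?_⟩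
    simp only [G, Set.mem_iInter]
    intro n hn
    have hn' : Denumerable.eqv ℚ y + Denumerable.eqv ℚ y' + 1 ≤ n := hn
    exact ⟨y, hmem y h1 n (by omega), y', hmem y' h2 n (by omega), h3, fun x hx => h4 x (hF n x hx),
      fun x hx => h5 x (hF n x hx)⟩
  refine (measure_mono hcov).trans ?_
  rw [hG.measure_iUnion]
  refine iSup_le fun N => ?_
  refine (measure_mono (?_ : G N ⊆ NTFE g d ε (F N))).trans (NTF_fin hβ g M d hd hdM ε hε p hp (F N) (hF N))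
  intro f hf
  simp only [G, Set.mem_iInter] at hf
  exact hf N (Set.mem_Ici.2 le_rfl)

end Pool.Agent.DLM
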