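import Pool.Agent.DLM.MDP
import Pool.Agent.DLM.NTF

/-!
# DLM/NIC: the data around a block are nice (100-140 lines)

`Cf` from `osc_prob`.  `k = kW c₉ w → ∞`, `k ≥ c₉ log w - 1`, `m = w^100`.  EXISTENCE OF `x₀`: `f x + S x 0` is bounded above a.s. (`Base.stat_bdd`), choose `x₀` in `[-w, w]` maximal up to `1/m`.  LOCALISATION: let `d` be a rational number with `exp k/(2 w^200) ≤ d ≤ exp k/w^200`, `ε = (C₁ k + 1)/m`: outside the event of `near_ties` (`M = w`, for fixed `g = S · 0`),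
any `x ∈ [-w, w]` with `f x + g x ≥ f x₀ + g x₀ - C₁ k/m` satisfies `|x - x₀| < d` (both points are maximal up to `ε`).  PROBABILITY: with `p ≥ max 2 (3300/c₉)`: `(ε/√d)^(1 - 1/p) ≤ (√2 (C₁ k + 1) exp(-k/2) + ..)^(1/2)` if the base is `≤ 1` (true for `w` large), `(M/d)^(2/p) ≤ (2 w^201)^(2/p) ≤ 2 w^(c₉/8)`,
`exp(-k/4) ≤ exp(1/4) w^(-c₉/4)`: the product is `≤ C √(C₁ k + 1) w^(-c₉/8) → 0`.  (Need `d ≤ M`: true for `w` large.)  Measurability as in NTP.  OSCILLATION: `osc_prob`.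
-/

set_option autoImplicit false

open MeasureTheory ProbabilityTheory Filter Topology

namespace Pool.Agent.DLM

variable {ν : ℝ → Measure Kern} {tw : Measure ℝ} {β : ℝ → Measure Ini}

private def NIC_tie (M d : ℚ) (ε : ℝ) (f g : ℚ → ℝ) : Prop :=
  ∃ y y' : ℚ, |y| ≤ M ∧ |y'| ≤ M ∧ d ≤ |y - y'| ∧ (∀ x, |x| ≤ M → f x + g x ≤ f y + g y + ε) ∧
    (∀ x, |x| ≤ M → f x + g x ≤ f y' + g y' + ε)

private theorem NIC_meas (M d : ℚ) (ε : ℝ) :
    Measurable fun p : Ini × Kern => NIC_tie M d ε p.1 (fun x => p.2 x 0) := by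
  have h1 : ∀ x : ℚ, Measurable fun p : Ini × Kern => p.1 x + p.2 x 0 := fun x =>
    ((measurable_pi_apply x).comp measurable_fst).add
      ((measurable_pi_apply 0).comp ((measurable_pi_apply x).comp measurable_snd))
  have h2 : ∀ y : ℚ, Measurable fun p : Ini × Kern =>
      (∀ x : ℚ, |x| ≤ M → p.1 x + p.2 x 0 ≤ p.1 y + p.2 y 0 + ε) := fun y =>
    Measurable.forall fun x => measurable_const.imp
      (measurableSet_setOfPred.1 (measurableSet_le (h1 x) ((h1 y).add_const _)))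
  unfold NIC_tie
  exact Measurable.exists fun y => Measurable.exists fun y' => measurable_const.and
    (measurable_const.and (measurable_const.and ((h2 y).and (h2 y'))))

private theorem NIC_tend (c₉ C₁ : ℝ) (hc : 0 < c₉) :
    Tendsto (fun w : ℕ => (C₁ * Real.log w + 1) * Real.exp (-(c₉ / 8) * Real.log w)) atTop (𝓝 0) := by
  have h1 := tendsto_rpow_mul_exp_neg_mul_atTop_nhds_zero 1 (c₉ / 8) (by positivity)
  have h0 := tendsto_rpow_mul_exp_neg_mul_atTop_nhds_zero 0 (c₉ / 8) (by positivity)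
  have hl : Tendsto (fun w : ℕ => Real.log w) atTop atTop :=
    Real.tendsto_log_atTop.comp tendsto_natCast_atTop_atTop
  have h2 := ((h1.const_mul C₁).add h0).comp hl
  rw [mul_zero, add_zero] at h2
  refine h2.congr fun w => ?_
  simp only [Function.comp_apply, Real.rpow_one, Real.rpow_zero]
  ring

private theorem NIC_num (c₉ C₁ δ : ℝ) (hc : 0 < c₉) (hc' : c₉ ≤ 1) (hC : 1 ≤ C₁) (hδ : 0 < δ) :
    ∀ᶠ w : ℕ in atTop, ∀ d : ℝ, Real.exp (kW c₉ w) / (2 * (w : ℝ) ^ 200) ≤ d →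
    1400 * Real.exp (6 * (3300 / c₉)) * ((C₁ * kW c₉ w + 1) / (w : ℝ) ^ 100 / √d) ^ (1 - 1 / (3300 / c₉)) *
      ((w : ℝ) / d) ^ (2 / (3300 / c₉)) ≤ δ / 2 := by
  have hη : (0 : ℝ) < min (1 / (2 * Real.exp (1 / 2))) (δ / (5600 * Real.exp (6 * (3300 / c₉) + 5 / 4))) :=
    lt_min (by positivity) (by positivity)
  filter_upwards [(NIC_tend c₉ C₁ hc).eventually (gt_mem_nhds hη), eventually_ge_atTop 1] with w hw hw1 d hd
  have hw1' : (1 : ℝ) ≤ w := by exact_mod_cast hw1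
  have hw0 : (0 : ℝ) < w := by linarith
  obtain ⟨L, hL⟩ : ∃ L, L = Real.log w := ⟨_, rfl⟩
  obtain ⟨k, hk⟩ : ∃ k : ℝ, k = kW c₉ w := ⟨_, rfl⟩
  rw [← hL] at hw
  rw [← hk] at hd ⊢
  have hL0 : 0 ≤ L := hL ▸ Real.log_nonneg hw1'
  have hk1 : k ≤ c₉ * L := by
    rw [hk, hL]
    exact Nat.floor_le (mul_nonneg hc.le (Real.log_nonneg hw1'))
  have hk2 : c₉ * L - 1 < k := by
    rw [hk, hL]
    have := Nat.lt_floor_add_one (c₉ * Real.log w)
    unfold kW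
    linarith
  have hk0 : 0 ≤ k := hk ▸ Nat.cast_nonneg _
  obtain ⟨E, hE⟩ : ∃ E, E = C₁ * L + 1 := ⟨_, rfl⟩
  rw [← hE] at hw
  have hE1 : 1 ≤ E := by
    have := mul_nonneg (zero_le_one.trans hC) hL0
    linarith
  have hkL : k ≤ L := hk1.trans (mul_le_of_le_one_left hL0 hc')
  have hkE : C₁ * k + 1 ≤ E := by
    have := mul_le_mul_of_nonneg_left hkL (zero_le_one.trans hC)
    linarith
  have hkp : 0 < C₁ * k + 1 := by
    have := mul_nonneg (zero_le_one.trans hC) hk0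
    linarith
  have hwp : (0 : ℝ) < (w : ℝ) ^ 100 := by positivity
  have hd0 : 0 < d := lt_of_lt_of_le (by positivity) hd
  have hwe : (w : ℝ) = Real.exp L := by rw [hL, Real.exp_log hw0]
  -- the square root
  have hsq : Real.exp (k / 2) / (2 * (w : ℝ) ^ 100) ≤ √d := by
    refine Real.le_sqrt_of_sq_le (le_trans ?_ hd)
    have e1 : Real.exp (k / 2) ^ 2 = Real.exp k := by
      rw [← Real.exp_nat_mul]
      congr 1
      push_cast
      ring
    have e2 : (Real.exp (k / 2) / (2 * (w : ℝ) ^ 100)) ^ 2 = Real.exp k / (2 * (w : ℝ) ^ 200) / 2 := by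
      rw [div_pow, e1]
      field_simp
    rw [e2]
    have : 0 ≤ Real.exp k / (2 * (w : ℝ) ^ 200) := by positivity
    linarith
  have hb1 : (C₁ * k + 1) / (w : ℝ) ^ 100 / √d ≤ 2 * E * Real.exp (-(k / 2)) := by
    rw [div_le_iff₀ (Real.sqrt_pos.2 hd0)]
    have e1 : 2 * E * Real.exp (-(k / 2)) * (Real.exp (k / 2) / (2 * (w : ℝ) ^ 100)) = E / (w : ℝ) ^ 100 := by
      rw [Real.exp_neg]
      field_simp
    calc (C₁ * k + 1) / (w : ℝ) ^ 100 ≤ E / (w : ℝ) ^ 100 := div_le_div_of_nonneg_right hkE hwp.le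
      _ = 2 * E * Real.exp (-(k / 2)) * (Real.exp (k / 2) / (2 * (w : ℝ) ^ 100)) := e1.symm
      _ ≤ _ := mul_le_mul_of_nonneg_left hsq (by positivity)
  obtain ⟨B, hB⟩ : ∃ B, B = 2 * E * Real.exp (1 / 2 - c₉ * L / 2) := ⟨_, rfl⟩
  have hB0 : 0 < B := by rw [hB]; positivity
  have hb2 : (C₁ * k + 1) / (w : ℝ) ^ 100 / √d ≤ B := by
    refine hb1.trans ?_
    rw [hB]
    refine mul_le_mul_of_nonneg_left (Real.exp_le_exp.2 (by linarith)) (by positivity)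
  have hG0 : 0 ≤ E * Real.exp (-(c₉ / 8) * L) := by positivity
  have hG1 := hw.le.trans (min_le_left _ _)
  have hG2 := hw.le.trans (min_le_right _ _)
  have hB1 : B ≤ 1 := by
    have e1 : B = 2 * Real.exp (1 / 2) * (E * Real.exp (-(c₉ / 8) * L)) * Real.exp (-(3 * c₉ / 8 * L)) := by
      rw [hB]
      have e2 : (1 : ℝ) / 2 - c₉ * L / 2 = 1 / 2 + (-(c₉ / 8) * L) + -(3 * c₉ / 8 * L) := by ring
      rw [e2, Real.exp_add, Real.exp_add]
      ring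
    have e3 : Real.exp (-(3 * c₉ / 8 * L)) ≤ 1 := Real.exp_le_one_iff.2 (by
      have : 0 ≤ 3 * c₉ / 8 * L := by positivity
      linarith)
    have e4 : 2 * Real.exp (1 / 2) * (E * Real.exp (-(c₉ / 8) * L)) ≤ 1 := by
      rw [le_div_iff₀ (by positivity)] at hG1
      linarith
    rw [e1]
    exact mul_le_one₀ e4 (Real.exp_pos _).le e3
  have hp1 : 1 / (3300 / c₉) = c₉ / 3300 := by rw [one_div_div]
  have hp2 : 2 / (3300 / c₉) = c₉ / 1650 := by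
    field_simp
    norm_num
  have hx0 : 0 ≤ (C₁ * k + 1) / (w : ℝ) ^ 100 / √d := by positivity
  have s1 : ((C₁ * k + 1) / (w : ℝ) ^ 100 / √d) ^ (1 - 1 / (3300 / c₉)) ≤ 2 * E * Real.exp (1 / 4 - c₉ * L / 4) := by
    rw [hp1]
    calc ((C₁ * k + 1) / (w : ℝ) ^ 100 / √d) ^ (1 - c₉ / 3300) ≤ B ^ (1 - c₉ / 3300) :=
          Real.rpow_le_rpow hx0 hb2 (by linarith)
      _ ≤ B ^ (1 / 2 : ℝ) := Real.rpow_le_rpow_of_exponent_ge hB0 hB1 (by linarith)
      _ = √B := (Real.sqrt_eq_rpow B).symm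
      _ ≤ 2 * E * Real.exp (1 / 4 - c₉ * L / 4) := by
          rw [Real.sqrt_le_left (by positivity)]
          have e1 : (2 * E * Real.exp (1 / 4 - c₉ * L / 4)) ^ 2 = 2 * E * B := by
            have e2 : Real.exp (1 / 4 - c₉ * L / 4) ^ 2 = Real.exp (1 / 2 - c₉ * L / 2) := by
              rw [← Real.exp_nat_mul]
              congr 1
              push_cast
              ring
            rw [mul_pow, e2, hB]
            ring
          rw [e1]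
          have : 1 ≤ 2 * E := by linarith
          exact le_mul_of_one_le_left hB0.le this
  have s2 : ((w : ℝ) / d) ^ (2 / (3300 / c₉)) ≤ Real.exp (1 + c₉ * L / 8) := by
    rw [hp2]
    have e1 : (w : ℝ) / d ≤ Real.exp (1 + 201 * L) := by
      rw [div_le_iff₀ hd0]
      have e2 : Real.exp (1 + 201 * L) = Real.exp 1 * (w : ℝ) ^ 201 := by
        rw [Real.exp_add, hwe, ← Real.exp_nat_mul]
        norm_num
      have e3 : (2 : ℝ) ≤ Real.exp 1 := by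
        have := Real.add_one_le_exp (1 : ℝ)
        linarith
      have e4 : 1 ≤ Real.exp k := Real.one_le_exp hk0
      have e5 : (w : ℝ) ≤ 2 * (w : ℝ) ^ 201 * (Real.exp k / (2 * (w : ℝ) ^ 200)) := by
        have e6 : 2 * (w : ℝ) ^ 201 * (Real.exp k / (2 * (w : ℝ) ^ 200)) = w * Real.exp k := by field_simp
        rw [e6]
        exact le_mul_of_one_le_right hw0.le e4
      calc (w : ℝ) ≤ 2 * (w : ℝ) ^ 201 * (Real.exp k / (2 * (w : ℝ) ^ 200)) := e5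
        _ ≤ 2 * (w : ℝ) ^ 201 * d := mul_le_mul_of_nonneg_left hd (by positivity)
        _ ≤ Real.exp 1 * (w : ℝ) ^ 201 * d := by gcongr
        _ = _ := by rw [e2]
    calc ((w : ℝ) / d) ^ (c₉ / 1650) ≤ Real.exp (1 + 201 * L) ^ (c₉ / 1650) :=
          Real.rpow_le_rpow (by positivity) e1 (by positivity)
      _ = Real.exp ((1 + 201 * L) * (c₉ / 1650)) := (Real.exp_mul _ _).symm
      _ ≤ _ := Real.exp_le_exp.2 (by
          have := mul_nonneg hc.le hL0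
          nlinarith)
  have s3 : 0 ≤ ((w : ℝ) / d) ^ (2 / (3300 / c₉)) := by positivity
  calc 1400 * Real.exp (6 * (3300 / c₉)) * ((C₁ * k + 1) / (w : ℝ) ^ 100 / √d) ^ (1 - 1 / (3300 / c₉)) *
        ((w : ℝ) / d) ^ (2 / (3300 / c₉))
      ≤ 1400 * Real.exp (6 * (3300 / c₉)) * (2 * E * Real.exp (1 / 4 - c₉ * L / 4)) * Real.exp (1 + c₉ * L / 8) := by
        refine mul_le_mul (mul_le_mul_of_nonneg_left s1 (by positivity)) s2 s3 (by positivity)
    _ = 2800 * Real.exp (6 * (3300 / c₉) + 5 / 4) * (E * Real.exp (-(c₉ / 8) * L)) := by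
        have e1 : Real.exp (1 / 4 - c₉ * L / 4) * Real.exp (1 + c₉ * L / 8) =
            Real.exp (5 / 4) * Real.exp (-(c₉ / 8) * L) := by
          rw [← Real.exp_add, ← Real.exp_add]
          congr 1
          ring
        rw [Real.exp_add (6 * (3300 / c₉))]
        calc _ = 2800 * Real.exp (6 * (3300 / c₉)) * E *
              (Real.exp (1 / 4 - c₉ * L / 4) * Real.exp (1 + c₉ * L / 8)) := by ring
          _ = _ := by
            rw [e1]
            ring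
    _ ≤ δ / 2 := by
        rw [le_div_iff₀ (by positivity)] at hG2
        linarith

private theorem NIC_max {F g : ℚ → ℝ} (w : ℕ) (hw : 1 ≤ w) (hb : BddAbove (Set.range fun x : ℚ => F x + g x)) :
    ∃ x₀ : ℚ, |(x₀ : ℝ)| ≤ w ∧ ∀ x : ℚ, |(x : ℝ)| ≤ w → F x + g x ≤ F x₀ + g x₀ + 1 / (w : ℝ) ^ 100 := by
  have hw0 : (0 : ℝ) < w := by exact_mod_cast hw
  have hne : ((fun x : ℚ => F x + g x) '' {x : ℚ | |(x : ℝ)| ≤ w}).Nonempty :=
    ⟨_, 0, by simp, rfl⟩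
  have hbd : BddAbove ((fun x : ℚ => F x + g x) '' {x : ℚ | |(x : ℝ)| ≤ w}) :=
    hb.mono (Set.image_subset_range _ _)
  have hp : (0 : ℝ) < 1 / (w : ℝ) ^ 100 := by positivity
  obtain ⟨_, ⟨x₀, hx₀, rfl⟩, hlt⟩ := exists_lt_of_lt_csSup hne
    (sub_lt_self (sSup ((fun x : ℚ => F x + g x) '' {x : ℚ | |(x : ℝ)| ≤ w})) hp)
  refine ⟨x₀, hx₀, fun x hx => ?_⟩
  have h1 := le_csSup hbd (Set.mem_image_of_mem (fun x : ℚ => F x + g x) (show x ∈ {x : ℚ | |(x : ℝ)| ≤ w} from hx))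
  simp only at h1 hlt
  linarith

theorem nice_prob (h : Base ν tw β) (c₉ : ℝ) (hc : 0 < c₉) (hc' : c₉ ≤ 1) : ∃ Cf : ℝ, 1 ≤ Cf ∧ ∀ C₁ δ : ℝ, 1 ≤ C₁ → 0 < δ →
    ∀ᶠ w : ℕ in atTop, ∀ b θ : ℝ, |b| ≤ 1 → 0 < θ →
    ((β b).prod (ν θ)) {p | ¬ ∃ x₀, NiceAt w (kW c₉ w) Cf C₁ p.1 (fun x => p.2 x 0) x₀} ≤ ENNReal.ofReal δ := by
  obtain ⟨Cf, hCf, hosc⟩ := osc_prob h c₉ hc
  refine ⟨Cf, hCf, fun C₁ δ hC hδ => ?_⟩
  have hpow : ∀ᶠ w : ℕ in atTop, 2 / δ ≤ (w : ℝ) ^ 10 :=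
    ((tendsto_pow_atTop (by norm_num)).comp tendsto_natCast_atTop_atTop).eventually_ge_atTop (2 / δ)
  filter_upwards [hosc, NIC_num c₉ C₁ δ hc hc' hC hδ, hpow, eventually_ge_atTop 1]
    with w hosc hnum hpow hw1 b θ hb hθ
  haveI := (h.bm b).prob
  haveI := h.prob θ hθ
  have hw1' : (1 : ℝ) ≤ w := by exact_mod_cast hw1
  have hw0 : (0 : ℝ) < w := by linarith
  have hwp : (0 : ℝ) < (w : ℝ) ^ 200 := by positivity
  have hp100 : (0 : ℝ) < (w : ℝ) ^ 100 := by positivity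
  have hlt : Real.exp (kW c₉ w) / (2 * (w : ℝ) ^ 200) < Real.exp (kW c₉ w) / (w : ℝ) ^ 200 :=
    div_lt_div_of_pos_left (Real.exp_pos _) hwp (by linarith)
  obtain ⟨d, hd1, hd2⟩ := exists_rat_btwn hlt
  have hd0' : (0 : ℝ) < d := lt_trans (by positivity) hd1
  have hd0 : 0 < d := by exact_mod_cast hd0'
  have hkL : Real.exp (kW c₉ w) ≤ w := by
    have h1 : (kW c₉ w : ℝ) ≤ Real.log w :=
      (Nat.floor_le (mul_nonneg hc.le (Real.log_nonneg hw1'))).trans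
        (mul_le_of_le_one_left (Real.log_nonneg hw1') hc')
    calc Real.exp (kW c₉ w) ≤ Real.exp (Real.log w) := Real.exp_le_exp.2 h1
      _ = w := Real.exp_log hw0
  have hdM : d ≤ (w : ℚ) := by
    have h1 : (d : ℝ) ≤ (w : ℝ) := by
      refine hd2.le.trans ((div_le_self (Real.exp_pos _).le ?_).trans hkL)
      exact one_le_pow₀ hw1'
    exact_mod_cast h1
  have hC0 : 0 ≤ C₁ * kW c₉ w := by positivity
  have hε : 0 < (C₁ * kW c₉ w + 1) / (w : ℝ) ^ 100 := by positivity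
  have hp : 2 ≤ 3300 / c₉ := by
    rw [le_div_iff₀ hc]
    linarith
  have hcast : ∀ x : ℚ, |x| ≤ (w : ℚ) ↔ |(x : ℝ)| ≤ w := by
    intro x
    rw [← Rat.cast_abs, ← Rat.cast_natCast (α := ℝ) w, Rat.cast_le]
  have hsub : {p : Ini × Kern | ¬ ∃ x₀, NiceAt w (kW c₉ w) Cf C₁ p.1 (fun x => p.2 x 0) x₀} ⊆
      {p | ¬ ABdd p.1 p.2} ∪ ({p | NIC_tie (w : ℚ) d ((C₁ * kW c₉ w + 1) / (w : ℝ) ^ 100) p.1 (fun x => p.2 x 0)} ∪
      {f : Ini | ¬ ∀ x y : ℚ, |(x : ℝ)| ≤ w + 1 → |(y : ℝ)| ≤ w + 1 → |(x : ℝ) - y| * w ^ 200 ≤ kW c₉ w →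
      |f x - f y| ≤ Cf / (w : ℝ) ^ 100 * √(kW c₉ w * (|(x : ℝ) - y| * w ^ 200 + 1))} ×ˢ Set.univ) := by
    intro p hp
    by_contra hcon
    rw [Set.mem_union, Set.mem_union, not_or, not_or] at hcon
    obtain ⟨q1, q2, q3⟩ := hcon
    have q1' : ABdd p.1 p.2 := not_not.1 q1
    have q3' : ∀ x y : ℚ, |(x : ℝ)| ≤ w + 1 → |(y : ℝ)| ≤ w + 1 → |(x : ℝ) - y| * w ^ 200 ≤ kW c₉ w →
        |p.1 x - p.1 y| ≤ Cf / (w : ℝ) ^ 100 * √(kW c₉ w * (|(x : ℝ) - y| * w ^ 200 + 1)) := by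
      by_contra hq
      exact q3 ⟨hq, Set.mem_univ _⟩
    obtain ⟨x₀, hx₀, hmax⟩ := NIC_max (F := p.1) (g := fun x => p.2 x 0) w hw1 (q1' 0)
    refine hp ⟨x₀, hx₀, hmax, fun x hx hx' => ?_, q3'⟩
    by_contra hfar
    rw [not_le] at hfar
    refine q2 ⟨x, x₀, (hcast x).2 hx, (hcast x₀).2 hx₀, ?_, fun x' hx'' => ?_, fun x' hx'' => ?_⟩
    · have h1 : (d : ℝ) ≤ ((|x - x₀| : ℚ) : ℝ) := by
        rw [Rat.cast_abs, Rat.cast_sub]
        exact (hd2.trans hfar).le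
      exact_mod_cast h1
    · have h1 := hmax x' ((hcast x').1 hx'')
      have h2 : (C₁ * kW c₉ w + 1) / (w : ℝ) ^ 100 = C₁ * kW c₉ w / (w : ℝ) ^ 100 + 1 / (w : ℝ) ^ 100 := add_div _ _ _
      simp only at h1 hx' ⊢
      linarith
    · have h1 := hmax x' ((hcast x').1 hx'')
      have h2 : (C₁ * kW c₉ w + 1) / (w : ℝ) ^ 100 = C₁ * kW c₉ w / (w : ℝ) ^ 100 + 1 / (w : ℝ) ^ 100 := add_div _ _ _
      have h3 : 0 ≤ C₁ * kW c₉ w / (w : ℝ) ^ 100 := by positivity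
      simp only at h1 ⊢
      linarith
  have m0 : ((β b).prod (ν θ)) {p | ¬ ABdd p.1 p.2} = 0 := h.stat_bdd b θ hθ
  have m1 : ((β b).prod (ν θ)) {p | NIC_tie (w : ℚ) d ((C₁ * kW c₉ w + 1) / (w : ℝ) ^ 100) p.1 (fun x => p.2 x 0)} ≤
      ENNReal.ofReal (δ / 2) := by
    have hmeas : MeasurableSet {p : Ini × Kern |
        NIC_tie (w : ℚ) d ((C₁ * kW c₉ w + 1) / (w : ℝ) ^ 100) p.1 (fun x => p.2 x 0)} :=
      measurableSet_setOfPred.2 (NIC_meas _ _ _)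
    rw [Measure.prod_apply_symm hmeas]
    have hsec : ∀ T : Kern, β b ((fun f : Ini => (f, T)) ⁻¹' {p : Ini × Kern |
        NIC_tie (w : ℚ) d ((C₁ * kW c₉ w + 1) / (w : ℝ) ^ 100) p.1 (fun x => p.2 x 0)}) ≤
        ENNReal.ofReal (δ / 2) := by
      intro T
      have hn := near_ties (h.bm b) (fun x => T x 0) (w : ℚ) d hd0 hdM
        ((C₁ * kW c₉ w + 1) / (w : ℝ) ^ 100) hε (3300 / c₉) hp
      refine (measure_mono ?_).trans (hn.trans (ENNReal.ofReal_le_ofReal ?_))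
      · intro f hf
        exact hf
      · rw [Rat.cast_natCast]
        exact hnum d hd1.le
    calc ∫⁻ T, β b ((fun f : Ini => (f, T)) ⁻¹' {p : Ini × Kern |
          NIC_tie (w : ℚ) d ((C₁ * kW c₉ w + 1) / (w : ℝ) ^ 100) p.1 (fun x => p.2 x 0)}) ∂(ν θ)
        ≤ ∫⁻ _, ENNReal.ofReal (δ / 2) ∂(ν θ) := lintegral_mono hsec
      _ = ENNReal.ofReal (δ / 2) := by rw [lintegral_const, measure_univ, mul_one]
  have hp10 : 1 / (w : ℝ) ^ 10 ≤ δ / 2 := by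
    rw [div_le_iff₀ (by positivity)]
    rw [div_le_iff₀ hδ] at hpow
    linarith
  refine (measure_mono hsub).trans ((measure_union_le _ _).trans ?_)
  rw [m0, zero_add]
  refine (measure_union_le _ _).trans ?_
  rw [Measure.prod_prod, measure_univ, mul_one]
  calc _ ≤ ENNReal.ofReal (δ / 2) + ENNReal.ofReal (1 / (w : ℝ) ^ 10) := add_le_add m1 (hosc b hb)
    _ ≤ ENNReal.ofReal (δ / 2) + ENNReal.ofReal (δ / 2) := by
        gcongr
    _ = ENNReal.ofReal δ := by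
        rw [← ENNReal.ofReal_add (by positivity) (by positivity), add_halves]

end Pool.Agent.DLM
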