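import Pool.Agent.DLM.EDefs
import Pool.Agent.DLM.BMX

/-!
# DLM/MDP: modulus of continuity at the scale `m^-2` (100-140 lines)

`m = w^100`.  `modu_prob`: `E = w`; cells `[j/m^2, (j+1)/m^2]`, `|j| ≤ w^201 + 1`; `bmx` with `l = E/(4m)`: `16 exp(-E^2/1024)` each (`4|b|/m^2 ≤ l`), total `≤ (2 w^201 + 3) 16 exp(-w^2/1024) ≤ 1/w^10` for `w` large.  On the complement for `x ≤ y` in `[-w, w]`, `j = ⌊x m^2⌋`, `j' = ⌊y m^2⌋`: telescoping over the cells: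
`|f x - f y| ≤ (E/4m)(2 + (j' - j)) ≤ (E/4m)(3 + (y-x) m^2) ≤ (E/m)(1 + (y-x) m^2)`.
`osc_prob`: `k = kW c₉ w`; `Cf = 1 + 500/√c₉`.  For integers `|j| ≤ (w+1) w^200 + 1` and `1 ≤ u ≤ k + 2`: `bmx` on `[j/m^2, (j+u)/m^2]` with `l = (Cf/(2m)) √(k u/2)`: exponent `l^2 m^2/(64 u) = Cf^2 k/512`, `k ≥ c₉ log w - 1`: `exp(-Cf^2 k/512) ≤ C w^(-Cf^2 c₉/512) ≤ C w^(-480)`; the number of pairs is `≤ w^203`.
For `x ≤ y`, `(y-x) m^2 ≤ k`: `j = ⌊x m^2⌋`, `u = ⌈(y-x) m^2⌉ + 1 ≤ (y-x) m^2 + 2` : both points are in the interval, `|f x - f y| ≤ 2 l = (Cf/m) √(k u/2) ≤ (Cf/m) √(k ((y-x) m^2 + 1))`.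
-/

set_option autoImplicit false

open MeasureTheory ProbabilityTheory Filter Topology

namespace Pool.Agent.DLM

variable {ν : ℝ → Measure Kern} {tw : Measure ℝ} {β : ℝ → Measure Ini}

private theorem MDP_union {ι : Type} (μ : Measure Ini) (F : Finset ι) (s : ι → Set Ini) (c : ℝ)
    (h : ∀ i ∈ F, μ (s i) ≤ ENNReal.ofReal c) (E : Set Ini) (hE : ∀ f ∈ E, ∃ i ∈ F, f ∈ s i) :
    μ E ≤ ENNReal.ofReal ((F.card : ℝ) * c) := by
  calc μ E ≤ μ (⋃ i ∈ F, s i) := measure_mono (fun f hf => by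
        obtain ⟨i, hi, hf⟩ := hE f hf
        exact Set.mem_biUnion hi hf)
    _ ≤ ∑ i ∈ F, μ (s i) := measure_biUnion_finset_le F s
    _ ≤ ∑ i ∈ F, ENNReal.ofReal c := Finset.sum_le_sum h
    _ = ENNReal.ofReal ((F.card : ℝ) * c) := by
        rw [Finset.sum_const, nsmul_eq_mul, ENNReal.ofReal_mul (by positivity),
          ENNReal.ofReal_natCast]

private theorem MDP_tel (f : Ini) (q : ℚ) (l : ℝ) (B : ℤ) (hq : 0 < q)
    (hf : ∀ j : ℤ, |j| ≤ B → ∀ x : ℚ, (j : ℚ) / q ≤ x → x ≤ ((j : ℚ) + 1) / q →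
      |f x - f ((j : ℚ) / q)| ≤ l) (j : ℤ) (n : ℕ) (h1 : |j| ≤ B) (h2 : |j + n| ≤ B) :
    |f (((j + n : ℤ) : ℚ) / q) - f ((j : ℚ) / q)| ≤ n * l := by
  induction n with
  | zero => simp
  | succ n ih =>
    have h3 : |j + n| ≤ B := by
      rw [abs_le] at h1 h2 ⊢
      push_cast at h2
      constructor <;> linarith [h1.1, h1.2, h2.1, h2.2, (Nat.cast_nonneg n : (0 : ℤ) ≤ n)]
    have h4 := ih h3
    have h5 := hf (j + n) h3 ((((j + n : ℤ) : ℚ) + 1) / q) (by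
      apply div_le_div_of_nonneg_right _ hq.le
      linarith) le_rfl
    have h6 : (((j + (n + 1 : ℕ) : ℤ) : ℚ)) = ((j + n : ℤ) : ℚ) + 1 := by
      push_cast; ring
    rw [h6]
    have h7 := abs_sub_le (f ((((j + n : ℤ) : ℚ) + 1) / q)) (f (((j + n : ℤ) : ℚ) / q)) (f ((j : ℚ) / q))
    have h8 : ((n + 1 : ℕ) : ℝ) * l = n * l + l := by push_cast; ring
    rw [h8]
    linarith

private theorem MDP_floor {q x : ℚ} (hq : 0 < q) :
    ((⌊x * q⌋ : ℤ) : ℚ) / q ≤ x ∧ x ≤ (((⌊x * q⌋ : ℤ) : ℚ) + 1) / q := by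
  constructor
  · rw [div_le_iff₀ hq]; exact Int.floor_le _
  · rw [le_div_iff₀ hq]; exact (Int.lt_floor_add_one _).le

private theorem MDP_abs {q x : ℚ} {w n : ℕ} (hq : q = (n : ℚ)) (hx : |(x : ℝ)| ≤ w) :
    |⌊x * q⌋| ≤ (w : ℤ) * n := by
  have hx' : |x| ≤ w := by exact_mod_cast hx
  rw [abs_le] at hx' ⊢
  have hn : (0 : ℚ) ≤ n := Nat.cast_nonneg n
  constructor
  · rw [Int.le_floor]
    push_cast
    rw [hq]
    nlinarith [hx'.1]
  · have h1 : ((⌊x * q⌋ : ℤ) : ℚ) ≤ (((w : ℤ) * n : ℤ) : ℚ) := by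
      refine (Int.floor_le _).trans ?_
      push_cast
      rw [hq]
      nlinarith [hx'.2]
    exact_mod_cast h1

private theorem MDP_det (w : ℕ) (hw : 1 ≤ w) (f : Ini)
    (hf : ∀ j : ℤ, |j| ≤ (w : ℤ) * (w ^ 200 : ℕ) + 1 → ∀ x : ℚ, (j : ℚ) / (w : ℚ) ^ 200 ≤ x →
      x ≤ ((j : ℚ) + 1) / (w : ℚ) ^ 200 →
      |f x - f ((j : ℚ) / (w : ℚ) ^ 200)| ≤ (w : ℝ) / (4 * (w : ℝ) ^ 100)) : Modu w f := by
  have hw' : (0 : ℝ) < w := by exact_mod_cast hw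
  have hwq : (0 : ℚ) < w := by exact_mod_cast hw
  have hq : (0 : ℚ) < (w : ℚ) ^ 200 := by positivity
  set l : ℝ := (w : ℝ) / (4 * (w : ℝ) ^ 100) with hl
  have hlp : 0 < l := by positivity
  have key : ∀ x y : ℚ, |(x : ℝ)| ≤ w → |(y : ℝ)| ≤ w → x ≤ y →
      |f x - f y| ≤ (w : ℝ) / w ^ 100 * (1 + |(x : ℝ) - y| * w ^ 200) := by
    intro x y hx hy hxy
    have hqn : (w : ℚ) ^ 200 = ((w ^ 200 : ℕ) : ℚ) := by push_cast; ring
    have hjx := MDP_abs hqn hx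
    have hjy := MDP_abs hqn hy
    have hx1 := MDP_floor (x := x) hq
    have hy1 := MDP_floor (x := y) hq
    have hjj : ⌊x * (w : ℚ) ^ 200⌋ ≤ ⌊y * (w : ℚ) ^ 200⌋ :=
      Int.floor_le_floor (mul_le_mul_of_nonneg_right hxy hq.le)
    obtain ⟨n, hn⟩ := Int.le.dest hjj
    have h1 := hf _ (by linarith) x hx1.1 hx1.2
    have h2 := hf _ (by linarith) y hy1.1 hy1.2
    have h3 := MDP_tel f ((w : ℚ) ^ 200) l _ hq hf ⌊x * (w : ℚ) ^ 200⌋ n (by linarith)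
      (by rw [hn]; linarith)
    rw [hn] at h3
    have hn2 : (n : ℚ) ≤ (y - x) * (w : ℚ) ^ 200 + 1 := by
      have h4 : ((⌊x * (w : ℚ) ^ 200⌋ : ℤ) : ℚ) + n = ((⌊y * (w : ℚ) ^ 200⌋ : ℤ) : ℚ) := by
        exact_mod_cast hn
      have h5 := Int.floor_le (y * (w : ℚ) ^ 200)
      have h6 := Int.lt_floor_add_one (x * (w : ℚ) ^ 200)
      linarith
    have hn3 : (n : ℝ) ≤ ((y : ℝ) - x) * (w : ℝ) ^ 200 + 1 := by exact_mod_cast hn2
    have hab : |(x : ℝ) - y| = y - x := by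
      rw [abs_sub_comm, abs_of_nonneg]
      have : (x : ℝ) ≤ y := by exact_mod_cast hxy
      linarith
    rw [hab]
    have h7 : |f x - f y| ≤ l + n * l + l := by
      have h8 := abs_sub_le (f x) (f ((⌊x * (w : ℚ) ^ 200⌋ : ℤ) / (w : ℚ) ^ 200)) (f y)
      have h9 := abs_sub_le (f ((⌊x * (w : ℚ) ^ 200⌋ : ℤ) / (w : ℚ) ^ 200))
        (f ((⌊y * (w : ℚ) ^ 200⌋ : ℤ) / (w : ℚ) ^ 200)) (f y)
      rw [abs_sub_comm] at h3 h2
      linarith
    have h10 : (w : ℝ) / w ^ 100 = 4 * l := by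
      rw [hl]; field_simp
    rw [h10]
    have h11 : (0 : ℝ) ≤ ((y : ℝ) - x) * (w : ℝ) ^ 200 := by
      have : (x : ℝ) ≤ y := by exact_mod_cast hxy
      have h12 : (0 : ℝ) < (w : ℝ) ^ 200 := by positivity
      nlinarith
    nlinarith
  intro x y hx hy
  rcases le_total x y with h | h
  · exact key x y hx hy h
  · rw [abs_sub_comm, abs_sub_comm (x : ℝ)]
    exact key y x hy hx h

theorem modu_prob (h : Base ν tw β) : ∀ᶠ w : ℕ in atTop, ∀ b : ℝ, |b| ≤ 1 →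
    (β b) {f | ¬ Modu w f} ≤ ENNReal.ofReal (1 / (w : ℝ) ^ 10) := by
  have hlim : Tendsto (fun x : ℝ => x ^ 212 * Real.exp (-x)) atTop (𝓝 0) :=
    Real.tendsto_pow_mul_exp_neg_atTop_nhds_zero 212
  have hlim2 : ∀ᶠ x : ℝ in atTop, x ^ 212 * Real.exp (-x) < 1 := hlim.eventually_lt_const one_pos
  have hlim3 : ∀ᶠ w : ℕ in atTop, (w : ℝ) ^ 212 * Real.exp (-(w : ℝ)) < 1 :=
    tendsto_natCast_atTop_atTop.eventually hlim2
  filter_upwards [hlim3, eventually_ge_atTop 1024] with w hw1 hw2 b hb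
  have hw' : (1024 : ℝ) ≤ w := by exact_mod_cast hw2
  have hwq : (1024 : ℚ) ≤ w := by exact_mod_cast hw2
  have hq : (0 : ℚ) < (w : ℚ) ^ 200 := by positivity
  have hqr : (0 : ℝ) < (w : ℝ) ^ 200 := by positivity
  have hm : (0 : ℝ) < (w : ℝ) ^ 100 := by positivity
  have h1m : (1 : ℝ) ≤ (w : ℝ) ^ 100 := one_le_pow₀ (by linarith)
  have hmm : (w : ℝ) ^ 200 = (w : ℝ) ^ 100 * (w : ℝ) ^ 100 := by rw [← pow_add]
  set B : ℤ := (w : ℤ) * (w ^ 200 : ℕ) + 1 with hB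
  have hU := MDP_union (β b) (Finset.Icc (-B) B)
    (fun j => {f : Ini | ∃ x, (j : ℚ) / (w : ℚ) ^ 200 ≤ x ∧ x ≤ ((j : ℚ) + 1) / (w : ℚ) ^ 200 ∧
      (w : ℝ) / (4 * (w : ℝ) ^ 100) < |f x - f ((j : ℚ) / (w : ℚ) ^ 200)|})
    (16 * Real.exp (-(w : ℝ))) (by
      intro j _
      have h1 : (j : ℚ) / (w : ℚ) ^ 200 < ((j : ℚ) + 1) / (w : ℚ) ^ 200 := by
        apply div_lt_div_of_pos_right _ hq
        linarith
      have h2 : ((((j : ℚ) + 1) / (w : ℚ) ^ 200 : ℚ) : ℝ) - (((j : ℚ) / (w : ℚ) ^ 200 : ℚ) : ℝ)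
          = 1 / (w : ℝ) ^ 200 := by
        push_cast
        field_simp
        ring
      have h3 := bmx (h.bm b) _ _ h1 ((w : ℝ) / (4 * (w : ℝ) ^ 100)) (by positivity) (by
        rw [h2, mul_one_div, div_le_div_iff₀ hqr (by positivity), hmm]
        have h4 : 4 * |b| * (4 * (w : ℝ) ^ 100) ≤ 16 * (w : ℝ) ^ 100 := by nlinarith
        have h5 : 16 * (w : ℝ) ^ 100 ≤ (w : ℝ) * ((w : ℝ) ^ 100 * (w : ℝ) ^ 100) := by
          have : (16 : ℝ) ≤ (w : ℝ) * (w : ℝ) ^ 100 := by nlinarith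
          nlinarith
        linarith)
      refine h3.trans (ENNReal.ofReal_le_ofReal ?_)
      rw [h2]
      have h6 : -((w : ℝ) / (4 * (w : ℝ) ^ 100)) ^ 2 / (64 * (1 / (w : ℝ) ^ 200)) ≤ -(w : ℝ) := by
        have h7 : -((w : ℝ) / (4 * (w : ℝ) ^ 100)) ^ 2 / (64 * (1 / (w : ℝ) ^ 200)) =
            -((w : ℝ) ^ 2 / 1024) := by
          rw [hmm]
          field_simp
          ring
        rw [h7]
        nlinarith
      have := Real.exp_le_exp.2 h6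
      linarith) {f | ¬ Modu w f} (by
      intro f hf
      by_contra hcon
      push Not at hcon
      apply hf
      refine MDP_det w (by linarith) f ?_
      intro j hj x hx1 hx2
      have h1 := hcon j (by
        rw [Finset.mem_Icc]
        exact abs_le.1 hj)
      simp only [Set.mem_ofPred_eq, not_exists, not_and, not_lt] at h1
      exact h1 x hx1 hx2)
  refine hU.trans (ENNReal.ofReal_le_ofReal ?_)
  have hBpos : 0 ≤ B := by positivity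
  have hcard : ((Finset.Icc (-B) B).card : ℝ) = 2 * ((w : ℝ) * (w : ℝ) ^ 200 + 1) + 1 := by
    rw [Int.card_Icc]
    have h1 : ((B + 1 - -B).toNat : ℤ) = 2 * B + 1 := by
      rw [Int.toNat_of_nonneg (by linarith)]; ring
    have h2 : (((B + 1 - -B).toNat : ℤ) : ℝ) = 2 * (B : ℝ) + 1 := by
      rw [h1]; push_cast; ring
    rw [Int.cast_natCast] at h2
    rw [h2, hB]
    push_cast
    ring
  rw [hcard, le_div_iff₀ (by positivity)]
  have hp : (0 : ℝ) < Real.exp (-(w : ℝ)) := Real.exp_pos _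
  have h201 : (1 : ℝ) ≤ (w : ℝ) * (w : ℝ) ^ 200 := by
    have : (1 : ℝ) ≤ (w : ℝ) ^ 200 := one_le_pow₀ (by linarith)
    nlinarith
  have h3 : (2 * ((w : ℝ) * (w : ℝ) ^ 200 + 1) + 1) * (16 * Real.exp (-(w : ℝ))) * (w : ℝ) ^ 10 ≤
      80 * ((w : ℝ) * (w : ℝ) ^ 200) * Real.exp (-(w : ℝ)) * (w : ℝ) ^ 10 := by
    have h4 : (2 * ((w : ℝ) * (w : ℝ) ^ 200 + 1) + 1) ≤ 5 * ((w : ℝ) * (w : ℝ) ^ 200) := by
      linarith
    have h5 : (2 * ((w : ℝ) * (w : ℝ) ^ 200 + 1) + 1) * (16 * Real.exp (-(w : ℝ))) ≤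
        80 * ((w : ℝ) * (w : ℝ) ^ 200) * Real.exp (-(w : ℝ)) := by
      nlinarith
    exact mul_le_mul_of_nonneg_right h5 (by positivity)
  have h6 : 80 * ((w : ℝ) * (w : ℝ) ^ 200) * Real.exp (-(w : ℝ)) * (w : ℝ) ^ 10 =
      80 * ((w : ℝ) ^ 211 * Real.exp (-(w : ℝ))) := by ring
  have h7 : 80 * ((w : ℝ) ^ 211 * Real.exp (-(w : ℝ))) ≤ (w : ℝ) ^ 212 * Real.exp (-(w : ℝ)) := by
    have h8 : (w : ℝ) ^ 212 = w * (w : ℝ) ^ 211 := by ring
    have h9 : (0 : ℝ) < (w : ℝ) ^ 211 * Real.exp (-(w : ℝ)) := by positivity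
    rw [h8]
    nlinarith
  linarith

private theorem MDP_oscdet (w k : ℕ) (hw : 1 ≤ w) (Cf : ℝ) (hCf : 1 ≤ Cf) (f : Ini)
    (hf : ∀ j : ℤ, |j| ≤ ((w + 1 : ℕ) : ℤ) * (w ^ 200 : ℕ) → ∀ u : ℕ, u < k + 2 → ∀ x : ℚ,
      (j : ℚ) / (w : ℚ) ^ 200 ≤ x → x ≤ ((j : ℚ) + (u + 1)) / (w : ℚ) ^ 200 →
      |f x - f ((j : ℚ) / (w : ℚ) ^ 200)| ≤ Cf / (2 * (w : ℝ) ^ 100) * √(k * (u + 1) / 2)) :
    ∀ x y : ℚ, |(x : ℝ)| ≤ w + 1 → |(y : ℝ)| ≤ w + 1 → |(x : ℝ) - y| * w ^ 200 ≤ k →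
      |f x - f y| ≤ Cf / (w : ℝ) ^ 100 * √(k * (|(x : ℝ) - y| * w ^ 200 + 1)) := by
  have hw' : (0 : ℝ) < w := by exact_mod_cast hw
  have hwq : (0 : ℚ) < w := by exact_mod_cast hw
  have hq : (0 : ℚ) < (w : ℚ) ^ 200 := by positivity
  have key : ∀ x y : ℚ, |(x : ℝ)| ≤ w + 1 → |(y : ℝ)| ≤ w + 1 → |(x : ℝ) - y| * w ^ 200 ≤ k →
      x ≤ y → |f x - f y| ≤ Cf / (w : ℝ) ^ 100 * √(k * (|(x : ℝ) - y| * w ^ 200 + 1)) := by
    intro x y hx hy hk hxy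
    have hqn : (w : ℚ) ^ 200 = ((w ^ 200 : ℕ) : ℚ) := by push_cast; ring
    have hx0 : |(x : ℝ)| ≤ ((w + 1 : ℕ) : ℝ) := by push_cast; exact hx
    have hjx := MDP_abs hqn hx0
    have hx1 := MDP_floor (x := x) hq
    have hxy' : (x : ℝ) ≤ y := by exact_mod_cast hxy
    have hab : |(x : ℝ) - y| = y - x := by
      rw [abs_sub_comm, abs_of_nonneg]
      linarith
    rw [hab] at hk ⊢
    have hk' : (y - x) * (w : ℚ) ^ 200 ≤ k := by exact_mod_cast hk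
    have h0 : 0 ≤ (y - x) * (w : ℚ) ^ 200 := mul_nonneg (by linarith) hq.le
    set u := ⌈(y - x) * (w : ℚ) ^ 200⌉₊ with hu
    have hu1 : (y - x) * (w : ℚ) ^ 200 ≤ u := Nat.le_ceil _
    have hu2 : (u : ℚ) < (y - x) * (w : ℚ) ^ 200 + 1 := Nat.ceil_lt_add_one h0
    have hu3 : u ≤ k := Nat.ceil_le.2 hk'
    have h6 := Int.lt_floor_add_one (x * (w : ℚ) ^ 200)
    have hyu : y ≤ (((⌊x * (w : ℚ) ^ 200⌋ : ℤ) : ℚ) + (u + 1)) / (w : ℚ) ^ 200 := by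
      rw [le_div_iff₀ hq]
      linarith
    have hxu : x ≤ (((⌊x * (w : ℚ) ^ 200⌋ : ℤ) : ℚ) + (u + 1)) / (w : ℚ) ^ 200 :=
      hxy.trans hyu
    have h1 := hf _ hjx u (by omega) x hx1.1 hxu
    have h2 := hf _ hjx u (by omega) y (hx1.1.trans hxy) hyu
    have h3 : |f x - f y| ≤ 2 * (Cf / (2 * (w : ℝ) ^ 100) * √(k * (u + 1) / 2)) := by
      have h8 := abs_sub_le (f x) (f ((⌊x * (w : ℚ) ^ 200⌋ : ℤ) / (w : ℚ) ^ 200)) (f y)
      rw [abs_sub_comm (f y)] at h2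
      linarith
    have h4 : 2 * (Cf / (2 * (w : ℝ) ^ 100) * √(k * (u + 1) / 2)) =
        Cf / (w : ℝ) ^ 100 * √(k * (u + 1) / 2) := by
      field_simp
    rw [h4] at h3
    refine h3.trans (mul_le_mul_of_nonneg_left (Real.sqrt_le_sqrt ?_) (by positivity))
    have hu4 : (u : ℝ) < ((y : ℝ) - x) * (w : ℝ) ^ 200 + 1 := by exact_mod_cast hu2
    have h0' : 0 ≤ ((y : ℝ) - x) * (w : ℝ) ^ 200 := by exact_mod_cast h0
    have hkn : (0 : ℝ) ≤ k := Nat.cast_nonneg k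
    nlinarith
  intro x y hx hy hk
  rcases le_total x y with h | h
  · exact key x y hx hy hk h
  · rw [abs_sub_comm, abs_sub_comm (x : ℝ)]
    rw [abs_sub_comm (x : ℝ)] at hk
    exact key y x hy hx hk h

theorem osc_prob (h : Base ν tw β) (c₉ : ℝ) (hc : 0 < c₉) : ∃ Cf : ℝ, 1 ≤ Cf ∧ ∀ᶠ w : ℕ in atTop, ∀ b : ℝ, |b| ≤ 1 →
    (β b) {f | ¬ ∀ x y : ℚ, |(x : ℝ)| ≤ w + 1 → |(y : ℝ)| ≤ w + 1 → |(x : ℝ) - y| * w ^ 200 ≤ kW c₉ w →
      |f x - f y| ≤ Cf / (w : ℝ) ^ 100 * √(kW c₉ w * (|(x : ℝ) - y| * w ^ 200 + 1))} ≤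
      ENNReal.ofReal (1 / (w : ℝ) ^ 10) := by
  have hsc : 0 < √c₉ := Real.sqrt_pos.2 hc
  have hCf1 : 1 ≤ 1 + 500 / √c₉ := by
    have : 0 < 500 / √c₉ := by positivity
    linarith
  refine ⟨1 + 500 / √c₉, hCf1, ?_⟩
  set Cf := 1 + 500 / √c₉ with hCf
  have hCf2 : 250000 / c₉ ≤ Cf ^ 2 := by
    have h1 : 250000 / c₉ = (500 / √c₉) ^ 2 := by
      rw [div_pow, Real.sq_sqrt hc.le]; norm_num
    rw [h1]
    have : 0 < 500 / √c₉ := by positivity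
    rw [hCf]
    nlinarith
  have hlog : Tendsto (fun w : ℕ => c₉ * Real.log (w : ℝ)) atTop atTop :=
    (Real.tendsto_log_atTop.comp tendsto_natCast_atTop_atTop).const_mul_atTop hc
  filter_upwards [hlog.eventually_ge_atTop 2, eventually_ge_atTop 1024,
    (tendsto_natCast_atTop_atTop (R := ℝ)).eventually_ge_atTop c₉] with w hlw hw2 hwc b hb
  have hw' : (1024 : ℝ) ≤ w := by exact_mod_cast hw2
  have hwq : (1024 : ℚ) ≤ w := by exact_mod_cast hw2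
  have hwp : (0 : ℝ) < w := by linarith
  have hq : (0 : ℚ) < (w : ℚ) ^ 200 := by positivity
  have hqr : (0 : ℝ) < (w : ℝ) ^ 200 := by positivity
  have hm : (0 : ℝ) < (w : ℝ) ^ 100 := by positivity
  have h1m : (1 : ℝ) ≤ (w : ℝ) ^ 100 := one_le_pow₀ (by linarith)
  have hmm : (w : ℝ) ^ 200 = (w : ℝ) ^ 100 * (w : ℝ) ^ 100 := by rw [← pow_add]
  have hkl : c₉ * Real.log w < kW c₉ w + 1 := Nat.lt_floor_add_one _
  have hku : (kW c₉ w : ℝ) ≤ c₉ * Real.log w := Nat.floor_le (by linarith)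
  set k := kW c₉ w with hk
  have hk1 : (1 : ℝ) ≤ k := by
    have h1 : 1 < k + 1 := by
      have : (1 : ℝ) < k + 1 := by linarith
      exact_mod_cast this
    have : 1 ≤ k := by omega
    exact_mod_cast this
  have hk2 : c₉ * Real.log w / 2 ≤ k := by linarith
  have hlogw : Real.log w ≤ w := (Real.log_le_sub_one_of_pos hwp).trans (by linarith)
  have hlogp : 0 < Real.log w := Real.log_pos (by linarith)
  have hkw : (k : ℝ) ≤ (w : ℝ) ^ 2 := by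
    calc (k : ℝ) ≤ c₉ * Real.log w := hku
      _ ≤ w * w := mul_le_mul hwc hlogw hlogp.le hwp.le
      _ = (w : ℝ) ^ 2 := by ring
  have hw2' : (4 : ℝ) ≤ (w : ℝ) ^ 2 := by nlinarith
  have hexp : Real.exp (-(Cf ^ 2 * k / 512)) ≤ 1 / (w : ℝ) ^ 244 := by
    have h1 : 244 * Real.log w ≤ Cf ^ 2 * k / 512 := by
      have h2 : 250000 / c₉ * (c₉ * Real.log w / 2) ≤ Cf ^ 2 * k :=
        mul_le_mul hCf2 hk2 (by positivity) (by positivity)
      have h3 : 250000 / c₉ * (c₉ * Real.log w / 2) = 125000 * Real.log w := by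
        field_simp
        ring
      rw [h3] at h2
      linarith
    have h4 : Real.exp (-(Cf ^ 2 * k / 512)) ≤ Real.exp (-(244 * Real.log w)) :=
      Real.exp_le_exp.2 (by linarith)
    have h5 : Real.exp (-(244 * Real.log w)) = 1 / (w : ℝ) ^ 244 := by
      rw [Real.exp_neg, one_div]
      congr 1
      have h6 : (244 : ℝ) * Real.log w = ((244 : ℕ) : ℝ) * Real.log w := by norm_num
      rw [h6, Real.exp_nat_mul, Real.exp_log hwp]
    rw [← h5]; exact h4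
  set B : ℤ := ((w + 1 : ℕ) : ℤ) * (w ^ 200 : ℕ) with hB
  have hU := MDP_union (β b) (Finset.Icc (-B) B ×ˢ Finset.range (k + 2))
    (fun p => {f : Ini | ∃ x, (p.1 : ℚ) / (w : ℚ) ^ 200 ≤ x ∧
      x ≤ ((p.1 : ℚ) + (p.2 + 1)) / (w : ℚ) ^ 200 ∧
      Cf / (2 * (w : ℝ) ^ 100) * √(k * (p.2 + 1) / 2) < |f x - f ((p.1 : ℚ) / (w : ℚ) ^ 200)|})
    (16 * Real.exp (-(Cf ^ 2 * k / 512))) (by
      rintro ⟨j, u⟩ hju
      simp only [Finset.mem_product, Finset.mem_range] at hju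
      have huk : (u : ℝ) + 1 ≤ k + 2 := by
        have : u + 1 ≤ k + 2 := by omega
        exact_mod_cast this
      have hu0 : (0 : ℝ) ≤ u := Nat.cast_nonneg u
      have h1 : (j : ℚ) / (w : ℚ) ^ 200 < ((j : ℚ) + (u + 1)) / (w : ℚ) ^ 200 := by
        apply div_lt_div_of_pos_right _ hq
        have : (0 : ℚ) ≤ u := Nat.cast_nonneg u
        linarith
      have h2 : ((((j : ℚ) + (u + 1)) / (w : ℚ) ^ 200 : ℚ) : ℝ) -
          (((j : ℚ) / (w : ℚ) ^ 200 : ℚ) : ℝ) = ((u : ℝ) + 1) / (w : ℝ) ^ 200 := by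
        push_cast
        field_simp
        ring
      have hsq : 0 < √((k : ℝ) * (u + 1) / 2) := Real.sqrt_pos.2 (by positivity)
      have hss : √((k : ℝ) * (u + 1) / 2) ^ 2 = (k : ℝ) * (u + 1) / 2 :=
        Real.sq_sqrt (by positivity)
      have h3 := bmx (h.bm b) _ _ h1 (Cf / (2 * (w : ℝ) ^ 100) * √(k * (u + 1) / 2))
        (by positivity) (by
        rw [h2]
        have e1 : 4 * |b| * (((u : ℝ) + 1) / (w : ℝ) ^ 200) ≤
            4 * (((u : ℝ) + 1) / (w : ℝ) ^ 200) := by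
          have : (0 : ℝ) ≤ ((u : ℝ) + 1) / (w : ℝ) ^ 200 := by positivity
          nlinarith
        have e2 : 4 * (((u : ℝ) + 1) / (w : ℝ) ^ 200) ≤
            1 / (2 * (w : ℝ) ^ 100) * √(k * (u + 1) / 2) := by
          have e3 : 1 / (2 * (w : ℝ) ^ 100) * √(k * (u + 1) / 2) =
              (w : ℝ) ^ 100 * √(k * (u + 1) / 2) / 2 / (w : ℝ) ^ 200 := by
            rw [hmm]; field_simp
          rw [e3, ← mul_div_assoc]
          apply div_le_div_of_nonneg_right _ hqr.le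
          have e4 : ((u : ℝ) + 1) / 2 ≤ √(k * (u + 1) / 2) ^ 2 := by
            rw [hss]
            nlinarith
          have e5 : (u : ℝ) + 1 ≤ (w : ℝ) ^ 3 := by
            have : (w : ℝ) ^ 3 = w * (w : ℝ) ^ 2 := by ring
            nlinarith
          have e6 : 1 / 2 ≤ √((k : ℝ) * (u + 1) / 2) := by
            rw [Real.le_sqrt (by norm_num) (by positivity)]
            nlinarith
          have e7 : (w : ℝ) ^ 5 ≤ (w : ℝ) ^ 100 := pow_le_pow_right₀ (by linarith) (by norm_num)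
          have e8 : (w : ℝ) ^ 5 * (1 / 2) / 2 ≤ (w : ℝ) ^ 100 * √((k : ℝ) * (u + 1) / 2) / 2 := by
            have : (w : ℝ) ^ 5 * (1 / 2) ≤ (w : ℝ) ^ 100 * √((k : ℝ) * (u + 1) / 2) :=
              mul_le_mul e7 e6 (by norm_num) (by positivity)
            linarith
          have e9 : 16 * (w : ℝ) ^ 3 ≤ (w : ℝ) ^ 5 := by
            have : (w : ℝ) ^ 5 = (w : ℝ) ^ 2 * (w : ℝ) ^ 3 := by ring
            rw [this]
            have e10 : (16 : ℝ) ≤ (w : ℝ) ^ 2 := by nlinarith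
            have e11 : (0 : ℝ) < (w : ℝ) ^ 3 := by positivity
            nlinarith
          linarith
        have e12 : 1 / (2 * (w : ℝ) ^ 100) * √((k : ℝ) * (u + 1) / 2) ≤
            Cf / (2 * (w : ℝ) ^ 100) * √((k : ℝ) * (u + 1) / 2) := by
          apply mul_le_mul_of_nonneg_right _ hsq.le
          exact div_le_div_of_nonneg_right hCf1 (by positivity)
        linarith)
      refine h3.trans (ENNReal.ofReal_le_ofReal ?_)
      rw [h2]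
      have h7 : -(Cf / (2 * (w : ℝ) ^ 100) * √(k * (u + 1) / 2)) ^ 2 /
          (64 * (((u : ℝ) + 1) / (w : ℝ) ^ 200)) = -(Cf ^ 2 * k / 512) := by
        rw [mul_pow, hss, hmm]
        field_simp
        ring
      rw [h7])
    {f | ¬ ∀ x y : ℚ, |(x : ℝ)| ≤ w + 1 → |(y : ℝ)| ≤ w + 1 → |(x : ℝ) - y| * w ^ 200 ≤ k →
      |f x - f y| ≤ Cf / (w : ℝ) ^ 100 * √(k * (|(x : ℝ) - y| * w ^ 200 + 1))} (by
      intro f hf
      by_contra hcon
      push Not at hcon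
      apply hf
      refine MDP_oscdet w k (by linarith) Cf hCf1 f ?_
      intro j hj u hu x hx1 hx2
      have h1 := hcon (j, u) (by
        rw [Finset.mem_product, Finset.mem_Icc, Finset.mem_range]
        exact ⟨abs_le.1 hj, hu⟩)
      simp only [Set.mem_ofPred_eq, not_exists, not_and, not_lt] at h1
      exact h1 x hx1 hx2)
  refine hU.trans (ENNReal.ofReal_le_ofReal ?_)
  have hBpos : 0 ≤ B := by positivity
  have hcard : ((Finset.Icc (-B) B ×ˢ Finset.range (k + 2)).card : ℝ) =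
      (2 * (((w : ℝ) + 1) * (w : ℝ) ^ 200) + 1) * ((k : ℝ) + 2) := by
    rw [Finset.card_product, Int.card_Icc, Finset.card_range]
    have h1 : ((B + 1 - -B).toNat : ℤ) = 2 * B + 1 := by
      rw [Int.toNat_of_nonneg (by linarith)]; ring
    have h2 : (((B + 1 - -B).toNat : ℤ) : ℝ) = 2 * (B : ℝ) + 1 := by
      rw [h1]; push_cast; ring
    rw [Int.cast_natCast] at h2
    rw [Nat.cast_mul, h2, hB]
    push_cast
    ring
  rw [hcard, le_div_iff₀ (by positivity)]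
  have h200 : (1 : ℝ) ≤ (w : ℝ) ^ 200 := one_le_pow₀ (by linarith)
  have hA : 2 * (((w : ℝ) + 1) * (w : ℝ) ^ 200) + 1 ≤ (w : ℝ) ^ 202 := by
    have e1 : (w : ℝ) ^ 202 = (w : ℝ) ^ 2 * (w : ℝ) ^ 200 := by ring
    rw [e1]
    have e2 : 2 * ((w : ℝ) + 1) + 1 ≤ (w : ℝ) ^ 2 := by nlinarith
    nlinarith
  have hK : (k : ℝ) + 2 ≤ (w : ℝ) ^ 3 := by
    have e1 : (w : ℝ) ^ 3 = w * (w : ℝ) ^ 2 := by ring
    nlinarith
  have hAK : (2 * (((w : ℝ) + 1) * (w : ℝ) ^ 200) + 1) * ((k : ℝ) + 2) ≤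
      (w : ℝ) ^ 202 * (w : ℝ) ^ 3 := mul_le_mul hA hK (by positivity) (by positivity)
  have hE : 16 * Real.exp (-(Cf ^ 2 * k / 512)) ≤ (w : ℝ) * (1 / (w : ℝ) ^ 244) := by
    have : 16 * Real.exp (-(Cf ^ 2 * k / 512)) ≤ 16 * (1 / (w : ℝ) ^ 244) := by linarith
    refine this.trans (mul_le_mul_of_nonneg_right (by linarith) (by positivity))
  calc (2 * (((w : ℝ) + 1) * (w : ℝ) ^ 200) + 1) * ((k : ℝ) + 2) *
        (16 * Real.exp (-(Cf ^ 2 * k / 512))) * (w : ℝ) ^ 10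
      ≤ (w : ℝ) ^ 202 * (w : ℝ) ^ 3 * ((w : ℝ) * (1 / (w : ℝ) ^ 244)) * (w : ℝ) ^ 10 := by
        apply mul_le_mul_of_nonneg_right _ (by positivity)
        exact mul_le_mul hAK hE (by positivity) (by positivity)
    _ = (w : ℝ) ^ 216 / (w : ℝ) ^ 244 := by ring
    _ ≤ 1 := by
        rw [div_le_one (by positivity)]
        exact pow_le_pow_right₀ (by linarith) (by norm_num)

end Pool.Agent.DLM
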