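import Pool.Agent.DLM.EDefs
import Pool.Agent.DLM.NTF

/-!
# DLM/NTP: no near ties (60-90 lines)

For fixed `g = p.2`: `near_ties` with `M = w`, `d = w^20/w^200`, `ε = 22 w^3/w^100`, `p = 200`: `(ε/√d)^(1 - 1/200) (M/d)^(1/100) = (22 w^(-7))^(199/200) w^(181/100) ≤ 22 w^(-5.15)`; with the constant `1400 exp(1200)` this is `≤ 1/w^5` for `w` large.  The set is measurable (quantifiers over `ℚ`; or use the general
inequality `Measure.prod_apply` for the measurable set `{(f, g) | ∃ y y', ..}`), integrate over `g` (`Measure.prod_apply_symm`).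
-/

set_option autoImplicit false

open MeasureTheory ProbabilityTheory Filter Topology

namespace Pool.Agent.DLM

variable {ν : ℝ → Measure Kern} {tw : Measure ℝ} {β : ℝ → Measure Ini}

private theorem NTP_meas (w : ℕ) : Measurable fun p : Ini × Ini => NoTie w p.1 p.2 := by
  have h1 : ∀ x : ℚ, Measurable fun p : Ini × Ini => p.1 x + p.2 x := fun x =>
    ((measurable_pi_apply x).comp measurable_fst).add ((measurable_pi_apply x).comp measurable_snd)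
  have h2 : ∀ y : ℚ, Measurable fun p : Ini × Ini => (∀ x : ℚ, |(x : ℝ)| ≤ w →
      p.1 x + p.2 x ≤ p.1 y + p.2 y + 22 * (w : ℝ) ^ 3 / w ^ 100) := fun y =>
    Measurable.forall fun x => measurable_const.imp
      (measurableSet_setOfPred.1 (measurableSet_le (h1 x) ((h1 y).add_const _)))
  unfold NoTie
  exact Measurable.forall fun y => Measurable.forall fun y' => measurable_const.imp
    (measurable_const.imp ((h2 y).imp ((h2 y').imp measurable_const)))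

private theorem NTP_num : ∀ᶠ w : ℕ in atTop, 1400 * Real.exp (6 * 200) *
    (22 * (w : ℝ) ^ 3 / w ^ 100 / √(((w : ℚ) ^ 20 / (w : ℚ) ^ 200 : ℚ) : ℝ)) ^ (1 - 1 / 200 : ℝ) *
    (((w : ℚ) : ℝ) / (((w : ℚ) ^ 20 / (w : ℚ) ^ 200 : ℚ) : ℝ)) ^ (2 / 200 : ℝ) ≤ 1 / (w : ℝ) ^ 5 := by
  have ht : Tendsto (fun w : ℕ => (w : ℝ) ^ (31 / 200 : ℝ)) atTop atTop :=
    (tendsto_rpow_atTop (by norm_num)).comp tendsto_natCast_atTop_atTop
  filter_upwards [ht.eventually_ge_atTop (22 * (1400 * Real.exp (6 * 200))), eventually_ge_atTop 1]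
    with w hw hw1
  have hw0 : (0 : ℝ) < w := by exact_mod_cast hw1
  have e1 : (((w : ℚ) ^ 20 / (w : ℚ) ^ 200 : ℚ) : ℝ) = (1 / (w : ℝ) ^ 90) ^ 2 := by
    push_cast
    field_simp
  have e2 : √(((w : ℚ) ^ 20 / (w : ℚ) ^ 200 : ℚ) : ℝ) = 1 / (w : ℝ) ^ 90 := by
    rw [e1, Real.sqrt_sq (by positivity)]
  have e3 : 22 * (w : ℝ) ^ 3 / w ^ 100 / (1 / (w : ℝ) ^ 90) = 22 / (w : ℝ) ^ 7 := by
    field_simp
  have e4 : ((w : ℚ) : ℝ) / (((w : ℚ) ^ 20 / (w : ℚ) ^ 200 : ℚ) : ℝ) = (w : ℝ) ^ 181 := by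
    rw [e1]
    push_cast
    field_simp
  rw [e2, e3, e4]
  have e5 : (22 / (w : ℝ) ^ 7) ^ (1 - 1 / 200 : ℝ) ≤ 22 / (w : ℝ) ^ (1393 / 200 : ℝ) := by
    rw [Real.div_rpow (by norm_num) (by positivity)]
    have a1 : (22 : ℝ) ^ (1 - 1 / 200 : ℝ) ≤ 22 := by
      calc (22 : ℝ) ^ (1 - 1 / 200 : ℝ) ≤ 22 ^ (1 : ℝ) :=
            Real.rpow_le_rpow_of_exponent_le (by norm_num) (by norm_num)
        _ = 22 := Real.rpow_one 22
    have a2 : ((w : ℝ) ^ 7) ^ (1 - 1 / 200 : ℝ) = (w : ℝ) ^ (1393 / 200 : ℝ) := by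
      rw [← Real.rpow_natCast, ← Real.rpow_mul hw0.le]
      norm_num
    rw [a2]
    exact div_le_div_of_nonneg_right a1 (by positivity)
  have e6 : ((w : ℝ) ^ 181) ^ (2 / 200 : ℝ) = (w : ℝ) ^ (181 / 100 : ℝ) := by
    rw [← Real.rpow_natCast, ← Real.rpow_mul hw0.le]
    norm_num
  rw [e6]
  have e7 : (w : ℝ) ^ (181 / 100 : ℝ) / (w : ℝ) ^ (1393 / 200 : ℝ) * (w : ℝ) ^ (31 / 200 : ℝ) =
      1 / (w : ℝ) ^ 5 := by
    rw [← Real.rpow_sub hw0, ← Real.rpow_add hw0, one_div, ← Real.rpow_natCast, ← Real.rpow_neg hw0.le]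
    norm_num
  have e8 : (0 : ℝ) < (w : ℝ) ^ (181 / 100 : ℝ) := Real.rpow_pos_of_pos hw0 _
  have e9 : (0 : ℝ) < (w : ℝ) ^ (1393 / 200 : ℝ) := Real.rpow_pos_of_pos hw0 _
  calc 1400 * Real.exp (6 * 200) * (22 / (w : ℝ) ^ 7) ^ (1 - 1 / 200 : ℝ) * (w : ℝ) ^ (181 / 100 : ℝ)
      ≤ 1400 * Real.exp (6 * 200) * (22 / (w : ℝ) ^ (1393 / 200 : ℝ)) * (w : ℝ) ^ (181 / 100 : ℝ) := by
        refine mul_le_mul_of_nonneg_right (mul_le_mul_of_nonneg_left e5 (by positivity)) e8.le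
    _ = (w : ℝ) ^ (181 / 100 : ℝ) / (w : ℝ) ^ (1393 / 200 : ℝ) * (22 * (1400 * Real.exp (6 * 200))) := by
        ring
    _ ≤ (w : ℝ) ^ (181 / 100 : ℝ) / (w : ℝ) ^ (1393 / 200 : ℝ) * (w : ℝ) ^ (31 / 200 : ℝ) :=
        mul_le_mul_of_nonneg_left hw (by positivity)
    _ = 1 / (w : ℝ) ^ 5 := e7

theorem notie_prob (h : Base ν tw β) : ∀ᶠ w : ℕ in atTop, ∀ b : ℝ, ∀ ρ : Measure Ini, IsProbabilityMeasure ρ →
    ((β b).prod ρ) {p | ¬ NoTie w p.1 p.2} ≤ ENNReal.ofReal (1 / (w : ℝ) ^ 5) := by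
  filter_upwards [NTP_num, eventually_ge_atTop 1] with w hw hw1 b ρ hρ
  have hw0 : (0 : ℝ) < w := by exact_mod_cast hw1
  have hw0q : (0 : ℚ) < w := by exact_mod_cast hw1
  have pb : IsProbabilityMeasure (β b) := (h.bm b).prob
  have hmeas : MeasurableSet {p : Ini × Ini | ¬ NoTie w p.1 p.2} :=
    (measurableSet_setOfPred.2 (NTP_meas w)).compl
  rw [Measure.prod_apply_symm hmeas]
  have hsec : ∀ g : Ini, β b ((fun f : Ini => (f, g)) ⁻¹' {p : Ini × Ini | ¬ NoTie w p.1 p.2}) ≤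
      ENNReal.ofReal (1 / (w : ℝ) ^ 5) := by
    intro g
    have hd : (0 : ℚ) < (w : ℚ) ^ 20 / (w : ℚ) ^ 200 := by positivity
    have hdM : (w : ℚ) ^ 20 / (w : ℚ) ^ 200 ≤ (w : ℚ) := by
      rw [div_le_iff₀ (by positivity), ← pow_succ']
      exact pow_le_pow_right₀ (by exact_mod_cast hw1) (by norm_num)
    have hn := near_ties (h.bm b) g (w : ℚ) ((w : ℚ) ^ 20 / (w : ℚ) ^ 200) hd hdM
      (22 * (w : ℝ) ^ 3 / w ^ 100) (by positivity) 200 (by norm_num)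
    refine (measure_mono ?_).trans (hn.trans (ENNReal.ofReal_le_ofReal hw))
    intro f hf
    have hf' : ¬ NoTie w f g := hf
    unfold NoTie at hf'
    push Not at hf'
    obtain ⟨y, y', h1, h2, h3, h4, h5⟩ := hf'
    have hc : ∀ x : ℚ, |x| ≤ (w : ℚ) ↔ |(x : ℝ)| ≤ w := by
      intro x
      rw [← Rat.cast_abs, ← Rat.cast_natCast (α := ℝ) w, Rat.cast_le]
    refine ⟨y, y', (hc y).2 h1, (hc y').2 h2, ?_, fun x hx => h3 x ((hc x).1 hx),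
      fun x hx => h4 x ((hc x).1 hx)⟩
    have h6 : (((w : ℚ) ^ 20 / (w : ℚ) ^ 200 : ℚ) : ℝ) ≤ ((|y - y'| : ℚ) : ℝ) := by
      rw [Rat.cast_abs]
      push_cast
      exact h5
    exact_mod_cast h6
  calc ∫⁻ g, β b ((fun f : Ini => (f, g)) ⁻¹' {p : Ini × Ini | ¬ NoTie w p.1 p.2}) ∂ρ
      ≤ ∫⁻ _, ENNReal.ofReal (1 / (w : ℝ) ^ 5) ∂ρ := lintegral_mono hsec
    _ = ENNReal.ofReal (1 / (w : ℝ) ^ 5) := by rw [lintegral_const, measure_univ, mul_one]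

end Pool.Agent.DLM
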