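import Pool.Agent.DLM.LTB

/-!
# DLM/INA: infimum over a cell in the first variable (120-180 lines)

Fix `θ ∈ [1/4, 4]`.  For `k ∈ ℕ` let `ι k m` = supremum over `α, s ∈ ℚ` and finite `F ⊆ [α, α+1] ∩ ℚ` with `|F| ≤ k` of `ν θ {∃ x ∈ F, S x s + (x-s)^2/θ < -m}`.  (A) `ι k m ≤ k tw (Iio (-m/θ^(1/3)))` (`one_low`).  (B) `ι k m ≤ 4 ι k (3m/2) + 4 l' (m/4 - 1)`, `l' u = tw (Iio (-u/(7θ/8)^(1/3)))`: `ν θ` is the law of `kcomp S₁ S₂`,
`S₁ ~ ν (θ/8)`, `S₂ ~ ν (7θ/8)`.  Split `[α, α+1]` into four cells `[x_c, x_c + 1/4]`, `x_c = α + c/4`; for `x ∈ F` in the cell `c` use the midpoint `p = x_c + (s - x_c)/8`: `S x s ≥ S₁ x p + S₂ p s`, and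
`(x-p)^2/(θ/8) + (s-p)^2/(7θ/8) = (s-x)^2/θ + 7 (x_c-x)^2/θ ≤ (s-x)^2/θ + 7/(16 θ) ≤ (s-x)^2/θ + 2`.  `ν (θ/8)` is the law of `½ S' (4x) (4p)`, `S' ~ ν θ` (`scal` with `r = 1/2`), so `S₁ x p + 8 (x-p)^2/θ = ½ (S' (4x) (4p) + (4x-4p)^2/θ)` and `4x ∈ [4x_c, 4x_c+1]`.  If `S x s + (x-s)^2/θ < -m` then
`S' (4x)(4p) + .. < -3m/2` or `S₂ p s + (p-s)^2/(7θ/8) < -m/4 + 2`.  [So with `m/4 - 2` in (B).]  (C) iterate: `ι k m ≤ ∑_{i<J} 4^(i+1) l'((3/2)^i m/4 - 2) + 4^J k tw(Iio (-(3/2)^J m/θ^(1/3)))`, let `J → ∞` (`low_tail`: exponential tails; `m ≥ 1`): `≤ C exp(-m/C)`, uniformly in `k`.  Let `F` increase to `[α, α+1] ∩ ℚ`.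
-/

set_option autoImplicit false

open MeasureTheory ProbabilityTheory Filter Topology

namespace Pool.Agent.DLM

variable {ν : ℝ → Measure Kern} {tw : Measure ℝ} {β : ℝ → Measure Ini}

private def inaE (θ : ℝ) (F : Finset ℚ) (s : ℚ) (m : ℝ) : Set Kern :=
  {S | ∃ x ∈ F, S x s + ((x : ℝ) - s) ^ 2 / θ < -m}

private theorem ina_meas1 (x y : ℚ) : Measurable fun S : Kern => S x y :=
  (measurable_pi_apply y).comp (measurable_pi_apply x)

private theorem inaE_meas (θ : ℝ) (F : Finset ℚ) (s : ℚ) (m : ℝ) : MeasurableSet (inaE θ F s m) := by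
  have e : inaE θ F s m = ⋃ x ∈ F, {S : Kern | S x s + ((x : ℝ) - s) ^ 2 / θ < -m} := by
    ext S
    rw [Set.mem_iUnion₂]
    exact ⟨fun ⟨x, hx, h⟩ => ⟨x, hx, h⟩, fun ⟨x, hx, h⟩ => ⟨x, hx, h⟩⟩
  rw [e]
  exact Finset.measurableSet_biUnion _ fun x _ =>
    measurableSet_lt ((ina_meas1 x s).add measurable_const) measurable_const

/-- scaling -/
private theorem ina_scal (h : Base ν tw β) {θ : ℝ} (hθ : 0 < θ) (F : Finset ℚ) (p : ℚ) (m : ℝ) :
    ν (θ / 8) (inaE (θ / 8) F p (3 * m / 4)) = ν θ (inaE θ (F.image fun x => 4 * x) (4 * p) (3 * m / 2)) := by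
  have e1 : ((1 / 2 : ℚ) : ℝ) ^ 3 * θ = θ / 8 := by
    push_cast
    ring
  have h1 := h.scal θ (1 / 2) hθ (by norm_num)
  rw [e1] at h1
  have hm : Measurable fun (S : Kern) (x y : ℚ) => ((1 / 2 : ℚ) : ℝ) * S (x / (1 / 2) ^ 2) (y / (1 / 2) ^ 2) :=
    measurable_pi_lambda _ fun x => measurable_pi_lambda _ fun y => (ina_meas1 _ _).const_mul _
  rw [← h1, Measure.map_apply hm (inaE_meas _ _ _ _)]
  congr 1
  ext S
  have e2 : ∀ x : ℚ, x / (1 / 2) ^ 2 = 4 * x := fun x => by ring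
  have e3 : ∀ x : ℚ, (((1 / 2 : ℚ) : ℝ) * S (x / (1 / 2) ^ 2) (p / (1 / 2) ^ 2) + ((x : ℝ) - p) ^ 2 / (θ / 8) <
      -(3 * m / 4)) ↔ S (4 * x) (4 * p) + (((4 * x : ℚ) : ℝ) - ((4 * p : ℚ) : ℝ)) ^ 2 / θ < -(3 * m / 2) := by
    intro x
    rw [e2, e2]
    push_cast
    have e4 : ((x : ℝ) - p) ^ 2 / (θ / 8) = ((4 * (x : ℝ) - 4 * p) ^ 2 / θ) / 2 := by
      field_simp
      ring
    rw [e4]
    constructor <;> intro h2 <;> linarith
  constructor
  · rintro ⟨x, hx, h2⟩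
    exact ⟨4 * x, Finset.mem_image_of_mem _ hx, (e3 x).1 h2⟩
  · rintro ⟨x', hx', h2⟩
    obtain ⟨x, hx, rfl⟩ := Finset.mem_image.1 hx'
    exact ⟨x, hx, (e3 x).2 h2⟩

private theorem ina_geo {θ x s xc : ℝ} (hθ : 1 / 4 ≤ θ) (h1 : xc ≤ x) (h2 : x ≤ xc + 1 / 4) :
    (x - (xc + (s - xc) / 8)) ^ 2 / (θ / 8) + ((xc + (s - xc) / 8) - s) ^ 2 / (7 * θ / 8) ≤
      (x - s) ^ 2 / θ + 2 := by
  have hθ0 : 0 < θ := by linarith
  have e1 : (x - (xc + (s - xc) / 8)) ^ 2 / (θ / 8) + ((xc + (s - xc) / 8) - s) ^ 2 / (7 * θ / 8) =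
      (x - s) ^ 2 / θ + 7 * (x - xc) ^ 2 / θ := by
    field_simp
    ring
  rw [e1]
  have h3 : 7 * (x - xc) ^ 2 / θ ≤ 2 := by
    rw [div_le_iff₀ hθ0]
    nlinarith
  linarith

/-- the recursion -/
private theorem ina_step (h : Base ν tw β) {θ : ℝ} (hθ : 1 / 4 ≤ θ) (α s : ℚ) (m : ℝ) (F : Finset ℚ)
    (hF : ∀ x ∈ F, α ≤ x ∧ x ≤ α + 1) : ν θ (inaE θ F s m) ≤ ∑ c ∈ Finset.range 4,
      (ν θ (inaE θ ((F.filter fun x => α + (c : ℚ) / 4 ≤ x ∧ x ≤ α + (c : ℚ) / 4 + 1 / 4).image fun x => 4 * x)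
        (4 * (α + (c : ℚ) / 4 + (s - (α + (c : ℚ) / 4)) / 8)) (3 * m / 2)) +
        tw (Set.Iio ((-m / 4 + 2) / (7 * θ / 8) ^ (1 / 3 : ℝ)))) := by
  have hθ0 : 0 < θ := by linarith
  have ha : 0 < θ / 8 := by linarith
  have hb : 0 < 7 * θ / 8 := by linarith
  have hp1 := h.prob _ ha
  have hp2 := h.prob _ hb
  have e1 : θ / 8 + 7 * θ / 8 = θ := by ring
  have h1 := comp_meas h (θ / 8) (7 * θ / 8) ha hb (inaE θ F s m) (inaE_meas _ _ _ _)
  rw [e1] at h1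
  rw [h1]
  set pc : ℕ → ℚ := fun c => α + (c : ℚ) / 4 + (s - (α + (c : ℚ) / 4)) / 8 with hpc
  set Fc : ℕ → Finset ℚ := fun c => F.filter fun x => α + (c : ℚ) / 4 ≤ x ∧ x ≤ α + (c : ℚ) / 4 + 1 / 4 with hFc
  have hsub : ({p : Kern × Kern | kcomp p.1 p.2 ∈ inaE θ F s m} : Set (Kern × Kern))
      ≤ᵐ[(ν (θ / 8)).prod (ν (7 * θ / 8))]
      (⋃ c ∈ Finset.range 4, (inaE (θ / 8) (Fc c) (pc c) (3 * m / 4) ×ˢ Set.univ) ∪
        (Set.univ ×ˢ {S : Kern | S (pc c) s + ((pc c : ℝ) - s) ^ 2 / (7 * θ / 8) < -m / 4 + 2}) :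
        Set (Kern × Kern)) := by
    filter_upwards [comp_ge h (θ / 8) (7 * θ / 8) ha hb] with p hp hk
    obtain ⟨x, hx, hk2⟩ := hk
    obtain ⟨c, hc, hc1, hc2⟩ : ∃ c ∈ Finset.range 4, α + (c : ℚ) / 4 ≤ x ∧ x ≤ α + (c : ℚ) / 4 + 1 / 4 := by
      obtain ⟨h2, h3⟩ := hF x hx
      rcases le_total x (α + 1 / 4) with h4 | h4
      · exact ⟨0, by simp, by simpa using h2, by simpa using h4⟩
      · rcases le_total x (α + 1 / 2) with h5 | h5
        · exact ⟨1, by simp, by push_cast; linarith, by push_cast; linarith⟩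
        · rcases le_total x (α + 3 / 4) with h6 | h6
          · exact ⟨2, by simp, by push_cast; linarith, by push_cast; linarith⟩
          · exact ⟨3, by simp, by push_cast; linarith, by push_cast; linarith⟩
    refine Set.mem_iUnion₂.2 ⟨c, hc, ?_⟩
    by_contra hbad
    rw [Set.mem_union, not_or] at hbad
    obtain ⟨hb1, hb2⟩ := hbad
    have hxc : x ∈ Fc c := Finset.mem_filter.2 ⟨hx, hc1, hc2⟩
    have g1 : -(3 * m / 4) ≤ p.1 x (pc c) + ((x : ℝ) - (pc c : ℝ)) ^ 2 / (θ / 8) := by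
      by_contra h2
      exact hb1 ⟨⟨x, hxc, not_le.1 h2⟩, Set.mem_univ _⟩
    have g2 : -m / 4 + 2 ≤ p.2 (pc c) s + ((pc c : ℝ) - s) ^ 2 / (7 * θ / 8) := by
      by_contra h2
      exact hb2 ⟨Set.mem_univ _, not_le.1 h2⟩
    have g3 := hp x (pc c) s
    have g4 : (pc c : ℝ) = ((α : ℝ) + (c : ℝ) / 4) + ((s : ℝ) - ((α : ℝ) + (c : ℝ) / 4)) / 8 := by
      rw [hpc]
      push_cast
      ring
    have c1 : (α : ℝ) + (c : ℝ) / 4 ≤ x := by
      have := (Rat.cast_le (K := ℝ)).2 hc1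
      push_cast at this
      exact this
    have c2 : (x : ℝ) ≤ (α : ℝ) + (c : ℝ) / 4 + 1 / 4 := by
      have := (Rat.cast_le (K := ℝ)).2 hc2
      push_cast at this
      exact this
    have g5 := ina_geo (s := (s : ℝ)) hθ c1 c2
    rw [← g4] at g5
    have hk3 : kcomp p.1 p.2 x s + ((x : ℝ) - s) ^ 2 / θ < -m := hk2
    linarith
  refine (measure_mono_ae hsub).trans ((measure_biUnion_finset_le _ _).trans ?_)
  refine Finset.sum_le_sum fun c _ => (measure_union_le _ _).trans (add_le_add ?_ ?_)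
  · rw [Measure.prod_prod, measure_univ, mul_one, ina_scal h hθ0]
  · rw [Measure.prod_prod, measure_univ, one_mul, one_low h (7 * θ / 8) hb]

private theorem ina_cube {t : ℝ} (h0 : 0 < t) (h : t ≤ 4) : t ^ (1 / 3 : ℝ) ≤ 2 ∧ 0 < t ^ (1 / 3 : ℝ) := by
  refine ⟨?_, Real.rpow_pos_of_pos h0 _⟩
  have h1 : t ^ (1 / 3 : ℝ) ≤ (8 : ℝ) ^ (1 / 3 : ℝ) :=
    Real.rpow_le_rpow h0.le (by linarith) (by norm_num)
  have h2 : (8 : ℝ) ^ (1 / 3 : ℝ) = 2 := by
    rw [show (8 : ℝ) = 2 ^ (3 : ℝ) by norm_num, ← Real.rpow_mul (by norm_num)]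
    norm_num
  rwa [h2] at h1

/-- tails for all arguments -/
private theorem ina_tail [IsProbabilityMeasure tw] {C : ℝ} (hC : 1 ≤ C)
    (hl : ∀ m : ℝ, 0 ≤ m → tw (Set.Iio (-m)) ≤ ENNReal.ofReal (C * Real.exp (-m / C))) {κ u : ℝ} (h0 : 0 < κ)
    (h2 : κ ≤ 2) : tw (Set.Iio (-u / κ)) ≤ ENNReal.ofReal (C * Real.exp (-u / (2 * C))) := by
  have hC0 : 0 < C := by linarith
  rcases le_total 0 u with hu | hu
  · have h3 := hl (u / κ) (div_nonneg hu h0.le)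
    rw [← neg_div] at h3
    refine h3.trans (ENNReal.ofReal_le_ofReal ?_)
    have h4 : u / 2 ≤ u / κ := div_le_div_of_nonneg_left hu h0 h2
    have h5 : -u / κ / C ≤ -u / (2 * C) := by
      rw [neg_div, neg_div, neg_div, neg_le_neg_iff, ← div_div]
      exact div_le_div_of_nonneg_right h4 hC0.le
    exact mul_le_mul_of_nonneg_left (Real.exp_le_exp.2 (by rw [neg_div] at h5 ⊢; exact h5)) hC0.le
  · refine prob_le_one.trans ?_
    rw [← ENNReal.ofReal_one]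
    refine ENNReal.ofReal_le_ofReal ?_
    have h3 : 1 ≤ Real.exp (-u / (2 * C)) := Real.one_le_exp (div_nonneg (by linarith) (by linarith))
    nlinarith

theorem inf_left (h : Base ν tw β) : ∃ C : ℝ, 1 ≤ C ∧ ∀ θ : ℝ, 1 / 4 ≤ θ → θ ≤ 4 → ∀ (α s : ℚ) (m : ℝ), 0 ≤ m →
    ν θ {S | ∃ x : ℚ, α ≤ x ∧ x ≤ α + 1 ∧ S x s + ((x : ℝ) - s) ^ 2 / θ < -m} ≤
      ENNReal.ofReal (C * Real.exp (-m / C)) := by
  have htw := h.twprob
  obtain ⟨C, hC, hl⟩ := low_tail h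
  have hC0 : 0 < C := by linarith
  set D : ℝ := C * Real.exp (1 / C) with hD
  have hDC : C ≤ D := by
    have := Real.one_le_exp (x := 1 / C) (by positivity)
    rw [hD]
    nlinarith
  have hD0 : 0 < D := by linarith
  -- the bound for finite sets
  have hfin : ∀ θ : ℝ, 1 / 4 ≤ θ → θ ≤ 4 → ∀ k J : ℕ, ∀ (F : Finset ℚ) (α s : ℚ) (m : ℝ), F.card ≤ k →
      (∀ x ∈ F, α ≤ x ∧ x ≤ α + 1) → 48 * C ≤ m →
      ν θ (inaE θ F s m) ≤ ENNReal.ofReal ((1 + (k : ℝ) / 2 ^ J) * (8 * D * Real.exp (-m / (8 * C)))) := by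
    intro θ hθ hθ4 k J
    have hθ0 : 0 < θ := by linarith
    induction J with
    | zero =>
      intro F α s m hk hF hm
      have hm0 : 0 ≤ m := by nlinarith
      obtain ⟨q1, q2⟩ := ina_cube hθ0 hθ4
      have h1 : ν θ (inaE θ F s m) ≤ ∑ x ∈ F, ENNReal.ofReal (C * Real.exp (-m / (2 * C))) := by
        have e : inaE θ F s m = ⋃ x ∈ F, {S : Kern | S x s + ((x : ℝ) - s) ^ 2 / θ < -m} := by
          ext S
          rw [Set.mem_iUnion₂]
          exact ⟨fun ⟨x, hx, h⟩ => ⟨x, hx, h⟩, fun ⟨x, hx, h⟩ => ⟨x, hx, h⟩⟩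
        rw [e]
        refine (measure_biUnion_finset_le _ _).trans (Finset.sum_le_sum fun x _ => ?_)
        rw [one_low h θ hθ0]
        exact ina_tail hC hl q2 q1
      refine h1.trans ?_
      rw [Finset.sum_const, nsmul_eq_mul, ← ENNReal.ofReal_natCast, ← ENNReal.ofReal_mul (Nat.cast_nonneg _)]
      refine ENNReal.ofReal_le_ofReal ?_
      have h2 : Real.exp (-m / (2 * C)) ≤ Real.exp (-m / (8 * C)) := by
        refine Real.exp_le_exp.2 ?_
        rw [neg_div, neg_div, neg_le_neg_iff]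
        exact div_le_div_of_nonneg_left hm0 (by positivity) (by linarith)
      have h3 : (F.card : ℝ) ≤ k := Nat.cast_le.2 hk
      have h4 : C * Real.exp (-m / (2 * C)) ≤ 8 * D * Real.exp (-m / (8 * C)) :=
        mul_le_mul (by linarith) h2 (Real.exp_nonneg _) (by positivity)
      have h5 : 0 ≤ C * Real.exp (-m / (2 * C)) := by positivity
      rw [pow_zero, div_one]
      have hk0 : (0 : ℝ) ≤ k := Nat.cast_nonneg _
      nlinarith [mul_le_mul h3 h4 h5 hk0]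
    | succ J ih =>
      intro F α s m hk hF hm
      have hm0 : 0 ≤ m := by nlinarith
      obtain ⟨q1, q2⟩ := ina_cube (t := 7 * θ / 8) (by linarith) (by linarith)
      refine (ina_step h hθ α s m F hF).trans ?_
      have hA : ∀ c ∈ Finset.range 4, ν θ (inaE θ ((F.filter fun x => α + (c : ℚ) / 4 ≤ x ∧
          x ≤ α + (c : ℚ) / 4 + 1 / 4).image fun x => 4 * x) (4 * (α + (c : ℚ) / 4 +
          (s - (α + (c : ℚ) / 4)) / 8)) (3 * m / 2)) + tw (Set.Iio ((-m / 4 + 2) / (7 * θ / 8) ^ (1 / 3 : ℝ))) ≤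
          ENNReal.ofReal ((1 + (k : ℝ) / 2 ^ J) * (8 * D * Real.exp (-(3 * m / 2) / (8 * C))) +
            D * Real.exp (-m / (8 * C))) := by
        intro c _
        rw [ENNReal.ofReal_add (by positivity) (by positivity)]
        refine add_le_add ?_ ?_
        · refine ih _ (4 * (α + (c : ℚ) / 4)) _ _ ?_ ?_ (by linarith)
          · exact (Finset.card_image_le.trans (Finset.card_filter_le _ _)).trans hk
          · intro x hx
            obtain ⟨x', hx', rfl⟩ := Finset.mem_image.1 hx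
            obtain ⟨-, h3, h4⟩ := Finset.mem_filter.1 hx'
            constructor <;> linarith
        · have h3 := ina_tail (tw := tw) hC hl (u := m / 4 - 2) q2 q1
          have e1 : -(m / 4 - 2) / (7 * θ / 8) ^ (1 / 3 : ℝ) = (-m / 4 + 2) / (7 * θ / 8) ^ (1 / 3 : ℝ) := by
            congr 1
            ring
          rw [e1] at h3
          refine h3.trans (ENNReal.ofReal_le_ofReal (le_of_eq ?_))
          rw [hD, mul_assoc, ← Real.exp_add]
          congr 2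
          field_simp
          ring
      refine (Finset.sum_le_sum hA).trans ?_
      rw [Finset.sum_const, Finset.card_range, nsmul_eq_mul, ← ENNReal.ofReal_natCast,
        ← ENNReal.ofReal_mul (Nat.cast_nonneg _)]
      refine ENNReal.ofReal_le_ofReal ?_
      have h3 : Real.exp (-(3 * m / 2) / (8 * C)) ≤ 1 / 8 * Real.exp (-m / (8 * C)) := by
        have e1 : -(3 * m / 2) / (8 * C) = -(m / (16 * C)) + -m / (8 * C) := by
          field_simp
          ring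
        rw [e1, Real.exp_add]
        refine mul_le_mul_of_nonneg_right ?_ (Real.exp_nonneg _)
        have h4 : 3 ≤ m / (16 * C) := by
          rw [le_div_iff₀ (by positivity)]
          linarith
        have h5 : (8 : ℝ) ≤ Real.exp (m / (16 * C)) := by
          have h6 : (2 : ℝ) ≤ Real.exp 1 := by
            have := Real.add_one_le_exp (1 : ℝ)
            linarith
          calc (8 : ℝ) = 2 ^ 3 := by norm_num
            _ ≤ Real.exp 1 ^ 3 := by gcongr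
            _ = Real.exp 3 := by rw [← Real.exp_nat_mul]; norm_num
            _ ≤ Real.exp (m / (16 * C)) := Real.exp_le_exp.2 h4
        rw [Real.exp_neg]
        rw [one_div]
        exact inv_anti₀ (by norm_num) h5
      have h6 : (0 : ℝ) ≤ (k : ℝ) / 2 ^ J := by positivity
      have h7 : (k : ℝ) / 2 ^ (J + 1) = (k : ℝ) / 2 ^ J / 2 := by
        rw [pow_succ]
        field_simp
      rw [h7]
      have h8 : 0 < D * Real.exp (-m / (8 * C)) := by positivity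
      have h9 : D * Real.exp (-(3 * m / 2) / (8 * C)) ≤ 1 / 8 * (D * Real.exp (-m / (8 * C))) := by
        nlinarith
      have h10 := mul_le_mul_of_nonneg_left h9 (show 0 ≤ 1 + (k : ℝ) / 2 ^ J by linarith)
      push_cast
      nlinarith
  have hfin2 : ∀ θ : ℝ, 1 / 4 ≤ θ → θ ≤ 4 → ∀ (F : Finset ℚ) (α s : ℚ) (m : ℝ),
      (∀ x ∈ F, α ≤ x ∧ x ≤ α + 1) → 48 * C ≤ m →
      ν θ (inaE θ F s m) ≤ ENNReal.ofReal (8 * D * Real.exp (-m / (8 * C))) := by
    intro θ hθ hθ4 F α s m hF hm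
    have h1 : Tendsto (fun J : ℕ => ENNReal.ofReal ((1 + (F.card : ℝ) / 2 ^ J) *
        (8 * D * Real.exp (-m / (8 * C))))) atTop
        (𝓝 (ENNReal.ofReal ((1 + 0) * (8 * D * Real.exp (-m / (8 * C)))))) := by
      refine ENNReal.tendsto_ofReal (Tendsto.mul_const _ (Tendsto.const_add _ ?_))
      exact Tendsto.div_atTop tendsto_const_nhds (tendsto_pow_atTop_atTop_of_one_lt (by norm_num))
    rw [add_zero, one_mul] at h1
    exact ge_of_tendsto' h1 fun J => hfin θ hθ hθ4 F.card J F α s m le_rfl hF hm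
  have hall : ∀ θ : ℝ, 1 / 4 ≤ θ → θ ≤ 4 → ∀ (α s : ℚ) (m : ℝ), 48 * C ≤ m →
      ν θ {S | ∃ x : ℚ, α ≤ x ∧ x ≤ α + 1 ∧ S x s + ((x : ℝ) - s) ^ 2 / θ < -m} ≤
      ENNReal.ofReal (8 * D * Real.exp (-m / (8 * C))) := by
    intro θ hθ hθ4 α s m hm
    have e1 : {S : Kern | ∃ x : ℚ, α ≤ x ∧ x ≤ α + 1 ∧ S x s + ((x : ℝ) - s) ^ 2 / θ < -m} =
        ⋃ G : Finset {x : ℚ // α ≤ x ∧ x ≤ α + 1}, inaE θ (G.image Subtype.val) s m := by
      ext S
      rw [Set.mem_iUnion]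
      constructor
      · rintro ⟨x, h1, h2, h3⟩
        exact ⟨{⟨x, h1, h2⟩}, x, by simp, h3⟩
      · rintro ⟨G, x, hx, h3⟩
        obtain ⟨y, -, rfl⟩ := Finset.mem_image.1 hx
        exact ⟨y.1, y.2.1, y.2.2, h3⟩
    have hdir : Directed (· ⊆ ·) fun G : Finset {x : ℚ // α ≤ x ∧ x ≤ α + 1} =>
        inaE θ (G.image Subtype.val) s m := by
      refine Monotone.directed_le ?_
      intro G G' hG S hS
      obtain ⟨x, hx, h3⟩ := hS
      exact ⟨x, Finset.image_subset_image hG hx, h3⟩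
    rw [e1, hdir.measure_iUnion]
    refine iSup_le fun G => hfin2 θ hθ hθ4 _ α s m ?_ hm
    intro x hx
    obtain ⟨y, -, rfl⟩ := Finset.mem_image.1 hx
    exact y.2
  refine ⟨8 * D + 48 * C + 3, by linarith, ?_⟩
  intro θ hθ hθ4 α s m hm
  have hθ0 : 0 < θ := by linarith
  have hp := h.prob θ hθ0
  have hK : 0 < 8 * D + 48 * C + 3 := by linarith
  rcases le_total (48 * C) m with h1 | h1
  · refine (hall θ hθ hθ4 α s m h1).trans (ENNReal.ofReal_le_ofReal ?_)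
    refine mul_le_mul (by linarith) (Real.exp_le_exp.2 ?_) (Real.exp_nonneg _) hK.le
    rw [neg_div, neg_div, neg_le_neg_iff]
    exact div_le_div_of_nonneg_left hm (by positivity) (by linarith)
  · refine prob_le_one.trans ?_
    rw [← ENNReal.ofReal_one]
    refine ENNReal.ofReal_le_ofReal ?_
    have h2 : Real.exp (-1) ≤ Real.exp (-m / (8 * D + 48 * C + 3)) := by
      refine Real.exp_le_exp.2 ?_
      rw [neg_div, neg_le_neg_iff, div_le_one hK]
      linarith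
    have h3 : (1 : ℝ) / 3 ≤ Real.exp (-1) := by
      rw [Real.exp_neg, one_div]
      exact inv_anti₀ (Real.exp_pos _) (by have := Real.exp_one_lt_d9; linarith)
    nlinarith
end Pool.Agent.DLM
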