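import Pool.Agent.DLM.LTB

/-!
# DLM/INB: infimum over a cell in the second variable (120-180 lines)

Mirror image of module INA (same proof, times `7θ/8` then `θ/8`): `ν θ` is the law of `kcomp S₁ S₂`, `S₁ ~ ν (7θ/8)`, `S₂ ~ ν (θ/8)`; for `y` in the cell `[y_c, y_c + 1/4]` use the midpoint `p = y_c + (s - y_c)/8`: `S s y ≥ S₁ s p + S₂ p y`, `S₂ p y = ½ S' (4p) (4y)`.  See the header of INA for all details (constants, iteration).
-/

set_option autoImplicit false

open MeasureTheory ProbabilityTheory Filter Topology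

namespace Pool.Agent.DLM

variable {ν : ℝ → Measure Kern} {tw : Measure ℝ} {β : ℝ → Measure Ini}

private theorem INB_lim {Ω : Type*} [MeasurableSpace Ω] (μ : Measure Ω)
    (A : ℚ → Set Ω) (c : ENNReal)
    (hc : ∀ F : Finset ℚ, μ (⋃ x ∈ F, A x) ≤ c) : μ (⋃ x, A x) ≤ c := by
  obtain ⟨f, hf⟩ := exists_surjective_nat ℚ
  let B : ℕ → Set Ω := fun k => ⋃ x ∈ (Finset.range k).image f, A x
  have mono : Monotone B := by
    intro k l hkl a ha
    simp only [B, Set.mem_iUnion] at ha ⊢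
    obtain ⟨x, hx, ha⟩ := ha
    refine ⟨x, ?_, ha⟩
    rw [Finset.mem_image] at hx ⊢
    obtain ⟨i, hi, rfl⟩ := hx
    exact ⟨i, Finset.mem_range.2 (lt_of_lt_of_le (Finset.mem_range.1 hi) hkl), rfl⟩
  have hI : ⋃ x, A x = ⋃ k, B k := by
    ext a
    simp only [B, Set.mem_iUnion]
    constructor
    · rintro ⟨x, hx⟩
      obtain ⟨i, rfl⟩ := hf x
      exact ⟨i + 1, f i, Finset.mem_image.2 ⟨i, Finset.mem_range.2 (Nat.lt_succ_self i), rfl⟩, hx⟩
    · rintro ⟨k, x, _, hx⟩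
      exact ⟨x, hx⟩
  rw [hI, mono.measure_iUnion]
  exact iSup_le fun k => hc _

private theorem INB_me (x y : ℚ) : Measurable fun S : Kern => S x y :=
  (measurable_pi_apply y).comp (measurable_pi_apply x)

private theorem INB_ms (x y : ℚ) (a u : ℝ) : MeasurableSet {S : Kern | S x y + a < u} :=
  measurableSet_lt ((INB_me x y).add_const a) measurable_const

/-- exponential tails on the whole line -/
private theorem INB_tail {C₀ : ℝ} (h1 : 1 ≤ C₀) (h : ∀ m : ℝ, 0 ≤ m →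
    tw (Set.Iio (-m)) ≤ ENNReal.ofReal (C₀ * Real.exp (-m / C₀))) [IsProbabilityMeasure tw]
    {a : ℝ} (ha : 0 < a) (ha2 : a ≤ 4) (u : ℝ) :
    tw (Set.Iio (-u / a ^ (1 / 3 : ℝ))) ≤ ENNReal.ofReal (2 * C₀ * Real.exp (-u / (2 * C₀))) := by
  have hp : 0 < a ^ (1 / 3 : ℝ) := Real.rpow_pos_of_pos ha _
  have hp2 : a ^ (1 / 3 : ℝ) ≤ 2 := by
    have e1 : a ^ (1 / 3 : ℝ) ≤ (8 : ℝ) ^ (1 / 3 : ℝ) :=
      Real.rpow_le_rpow ha.le (by linarith) (by norm_num)
    have e2 : (8 : ℝ) ^ (1 / 3 : ℝ) = 2 := by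
      rw [show (8 : ℝ) = 2 ^ (3 : ℕ) by norm_num, ← Real.rpow_natCast, ← Real.rpow_mul (by norm_num)]
      norm_num
    linarith
  rcases le_or_gt 0 u with hu | hu
  · rw [neg_div]
    refine (h _ (by positivity)).trans (ENNReal.ofReal_le_ofReal ?_)
    have e3 : Real.exp (-(u / a ^ (1 / 3 : ℝ)) / C₀) ≤ Real.exp (-u / (2 * C₀)) := by
      apply Real.exp_le_exp.2
      rw [neg_div, neg_div, neg_le_neg_iff, div_div]
      exact div_le_div_of_nonneg_left hu (by positivity) (mul_le_mul_of_nonneg_right hp2 (by linarith))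
    exact mul_le_mul (by linarith) e3 (Real.exp_pos _).le (by positivity)
  · refine prob_le_one.trans ?_
    rw [← ENNReal.ofReal_one]
    refine ENNReal.ofReal_le_ofReal ?_
    have e3 : 1 ≤ Real.exp (-u / (2 * C₀)) := Real.one_le_exp (div_nonneg (by linarith) (by linarith))
    nlinarith

/-- one step: halving -/
private theorem INB_step (h : Base ν tw β) {C₂ θ : ℝ}
    (hT : ∀ a : ℝ, 0 < a → a ≤ 4 → ∀ u : ℝ, tw (Set.Iio (-u / a ^ (1 / 3 : ℝ))) ≤
      ENNReal.ofReal (C₂ * Real.exp (-u / C₂)))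
    (hθ : 1 / 4 ≤ θ) (hθ' : θ ≤ 4) (yc s : ℚ) (m : ℝ) (F : Finset ℚ)
    (hF : ∀ y ∈ F, yc ≤ y ∧ y ≤ yc + 1 / 4) :
    ν θ (⋃ y ∈ F, {S | S s y + ((s : ℝ) - y) ^ 2 / θ < -m}) ≤
      ν θ (⋃ y ∈ F.image (fun y => 4 * y), {S | S (4 * (yc + (s - yc) / 8)) y +
        (((4 * (yc + (s - yc) / 8) : ℚ) : ℝ) - y) ^ 2 / θ < -(3 / 2 * m)}) +
      ENNReal.ofReal (C₂ * Real.exp (-(m / 4 - 2) / C₂)) := by
  have hθ0 : 0 < θ := by linarith
  set p : ℚ := yc + (s - yc) / 8 with hp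
  have m1 : MeasurableSet (⋃ y ∈ F, {S : Kern | S s y + ((s : ℝ) - y) ^ 2 / θ < -m}) :=
    Finset.measurableSet_biUnion _ fun y _ => INB_ms s y _ _
  have P1 : IsProbabilityMeasure (ν (7 / 8 * θ)) := h.prob _ (by linarith)
  have P2 : IsProbabilityMeasure (ν (1 / 8 * θ)) := h.prob _ (by linarith)
  have e1 := comp_meas h (7 / 8 * θ) (1 / 8 * θ) (by linarith) (by linarith) _ m1
  rw [show 7 / 8 * θ + 1 / 8 * θ = θ by ring] at e1
  rw [e1]
  let A : Set Kern := ⋃ y ∈ F, {S | S p y + ((p : ℝ) - y) ^ 2 / (1 / 8 * θ) < -(3 / 4 * m)}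
  let B : Set Kern := {S | S s p + ((s : ℝ) - p) ^ 2 / (7 / 8 * θ) < -(m / 4 - 2)}
  have mA : MeasurableSet A := Finset.measurableSet_biUnion _ fun y _ => INB_ms p y _ _
  have mB : MeasurableSet B := INB_ms s p _ _
  have hsub : ((ν (7 / 8 * θ)).prod (ν (1 / 8 * θ)))
      {q | kcomp q.1 q.2 ∈ ⋃ y ∈ F, {S : Kern | S s y + ((s : ℝ) - y) ^ 2 / θ < -m}} ≤
      ((ν (7 / 8 * θ)).prod (ν (1 / 8 * θ))) (Set.univ ×ˢ A ∪ B ×ˢ Set.univ) := by
    refine measure_mono_ae ?_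
    filter_upwards [comp_ge h (7 / 8 * θ) (1 / 8 * θ) (by linarith) (by linarith)] with q hq hq'
    have hq1 : kcomp q.1 q.2 ∈ ⋃ y ∈ F, {S : Kern | S s y + ((s : ℝ) - y) ^ 2 / θ < -m} := hq'
    rw [Set.mem_iUnion₂] at hq1
    obtain ⟨y, hy, hq2⟩ := hq1
    have hq3 : kcomp q.1 q.2 s y + ((s : ℝ) - y) ^ 2 / θ < -m := hq2
    have hq4 := hq s p y
    obtain ⟨hy1, hy2⟩ := hF y hy
    have hy1' : (yc : ℝ) ≤ y := by exact_mod_cast hy1
    have hy2' : (y : ℝ) ≤ yc + 1 / 4 := by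
      have : ((y : ℚ) : ℝ) ≤ ((yc + 1 / 4 : ℚ) : ℝ) := by exact_mod_cast hy2
      push_cast at this
      exact this
    have hp' : (p : ℝ) = yc + (s - yc) / 8 := by rw [hp]; push_cast; ring
    have hid : ((s : ℝ) - p) ^ 2 / (7 / 8 * θ) + ((p : ℝ) - y) ^ 2 / (1 / 8 * θ) =
        ((s : ℝ) - y) ^ 2 / θ + 7 * ((y : ℝ) - yc) ^ 2 / θ := by
      rw [hp']
      field_simp
      ring
    have hsm : 7 * ((y : ℝ) - yc) ^ 2 / θ ≤ 2 := by
      rw [div_le_iff₀ hθ0]
      have : ((y : ℝ) - yc) ^ 2 ≤ (1 / 4) ^ 2 := pow_le_pow_left₀ (by linarith) (by linarith) 2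
      linarith
    by_cases hB : q.1 s p + ((s : ℝ) - p) ^ 2 / (7 / 8 * θ) < -(m / 4 - 2)
    · exact Or.inr ⟨hB, trivial⟩
    · refine Or.inl ⟨trivial, ?_⟩
      refine Set.mem_biUnion hy ?_
      rw [not_lt] at hB
      show q.2 p y + ((p : ℝ) - y) ^ 2 / (1 / 8 * θ) < -(3 / 4 * m)
      linarith
  refine hsub.trans ((measure_union_le _ _).trans ?_)
  rw [Measure.prod_prod, Measure.prod_prod, measure_univ, measure_univ, one_mul, mul_one]
  refine add_le_add ?_ ?_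
  · -- scaling
    have hsc := h.scal θ (1 / 2) hθ0 (by norm_num)
    rw [show (((1 / 2 : ℚ) : ℝ) ^ 3 * θ) = 1 / 8 * θ by push_cast; ring] at hsc
    have mS : Measurable fun (S : Kern) (x y : ℚ) =>
        ((1 / 2 : ℚ) : ℝ) * S (x / (1 / 2) ^ 2) (y / (1 / 2) ^ 2) :=
      measurable_pi_lambda _ fun x => measurable_pi_lambda _ fun y =>
        (INB_me (x / (1 / 2) ^ 2) (y / (1 / 2) ^ 2)).const_mul _
    rw [← hsc, Measure.map_apply mS mA]
    refine measure_mono ?_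
    intro S hS
    have hS1 : (fun (x y : ℚ) => ((1 / 2 : ℚ) : ℝ) * S (x / (1 / 2) ^ 2) (y / (1 / 2) ^ 2)) ∈ A := hS
    rw [Set.mem_iUnion₂] at hS1
    obtain ⟨y, hy, hS2⟩ := hS1
    refine Set.mem_biUnion (Finset.mem_image.2 ⟨y, hy, rfl⟩ : 4 * y ∈ F.image (fun y => 4 * y)) ?_
    have hS3 : ((1 / 2 : ℚ) : ℝ) * S (p / (1 / 2) ^ 2) (y / (1 / 2) ^ 2) +
      ((p : ℝ) - y) ^ 2 / (1 / 8 * θ) < -(3 / 4 * m) := hS2
    show S (4 * p) (4 * y) + (((4 * p : ℚ) : ℝ) - ((4 * y : ℚ) : ℝ)) ^ 2 / θ < -(3 / 2 * m)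
    rw [show p / (1 / 2) ^ 2 = 4 * p by ring, show y / (1 / 2) ^ 2 = 4 * y by ring] at hS3
    have e3 : (((4 * p : ℚ) : ℝ) - ((4 * y : ℚ) : ℝ)) ^ 2 / θ =
        2 * (((p : ℝ) - y) ^ 2 / (1 / 8 * θ)) := by
      push_cast
      field_simp
      ring
    rw [e3]
    push_cast at hS3
    linarith
  · have h1 := one_low h (7 / 8 * θ) (by linarith) s p (-(m / 4 - 2))
    have h2 := hT (7 / 8 * θ) (by linarith) (by linarith) (m / 4 - 2)
    rw [← h1] at h2
    exact h2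

theorem inf_right (h : Base ν tw β) : ∃ C : ℝ, 1 ≤ C ∧ ∀ θ : ℝ, 1 / 4 ≤ θ → θ ≤ 4 → ∀ (α s : ℚ) (m : ℝ), 0 ≤ m →
    ν θ {S | ∃ y : ℚ, α ≤ y ∧ y ≤ α + 1 ∧ S s y + ((s : ℝ) - y) ^ 2 / θ < -m} ≤
      ENNReal.ofReal (C * Real.exp (-m / C)) := by
  obtain ⟨C₀, hC₀, hlow⟩ := low_tail h
  have ptw : IsProbabilityMeasure tw := h.twprob
  set C₂ : ℝ := 2 * C₀ with hC₂
  have hC₂1 : 2 ≤ C₂ := by linarith
  have hT : ∀ a : ℝ, 0 < a → a ≤ 4 → ∀ u : ℝ, tw (Set.Iio (-u / a ^ (1 / 3 : ℝ))) ≤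
      ENNReal.ofReal (C₂ * Real.exp (-u / C₂)) := fun a ha ha2 u => INB_tail hC₀ hlow ha ha2 u
  set D : ℝ := 8 * C₂ * Real.exp (2 / C₂) with hD
  have hexp1 : 1 ≤ Real.exp (2 / C₂) := Real.one_le_exp (by positivity)
  have hDC : 8 * C₂ ≤ D := by rw [hD]; nlinarith
  have hD0 : 0 < D := by linarith
  -- the recursion for the bounds
  have hrec : ∀ m : ℝ, 5 * D ≤ m → 4 * (C₂ * Real.exp (-(m / 4 - 2) / C₂)) +
      4 * (D * Real.exp (-(3 / 2 * m) / D)) ≤ D * Real.exp (-m / D) := by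
    intro m hm
    have hm0 : 0 ≤ m := by linarith
    have a1 : Real.exp (-(m / 4 - 2) / C₂) = Real.exp (2 / C₂) * Real.exp (-m / (4 * C₂)) := by
      rw [← Real.exp_add]
      congr 1
      field_simp
      ring
    have a2 : Real.exp (-m / (4 * C₂)) ≤ Real.exp (-m / D) := by
      apply Real.exp_le_exp.2
      rw [neg_div, neg_div, neg_le_neg_iff]
      exact div_le_div_of_nonneg_left hm0 (by positivity) (by linarith)
    have a3 : Real.exp (-(3 / 2 * m) / D) = Real.exp (-m / D) * Real.exp (-(m / (2 * D))) := by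
      rw [← Real.exp_add]
      congr 1
      field_simp
      ring
    have a4 : Real.exp (-(m / (2 * D))) ≤ 1 / 8 := by
      have b1 : Real.exp (-(m / (2 * D))) ≤ Real.exp (-(5 / 2)) := by
        apply Real.exp_le_exp.2
        rw [neg_le_neg_iff, le_div_iff₀ (by positivity)]
        linarith
      have b2 : Real.exp (-(5 / 2)) ≤ 1 / 8 := by
        rw [Real.exp_neg, inv_eq_one_div]
        refine one_div_le_one_div_of_le (by norm_num) ?_
        have b3 : (2.7182818283 : ℝ) < Real.exp 1 := Real.exp_one_gt_d9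
        have b4 : Real.exp (5 / 2) = Real.exp 1 * Real.exp 1 * Real.exp (1 / 2) := by
          rw [← Real.exp_add, ← Real.exp_add]
          norm_num
        have b5 : (1 : ℝ) + 1 / 2 ≤ Real.exp (1 / 2) := by
          have := Real.add_one_le_exp (1 / 2 : ℝ)
          linarith
        have b6 : (7 : ℝ) ≤ Real.exp 1 * Real.exp 1 := by nlinarith
        rw [b4]
        nlinarith
      exact b1.trans b2
    have e0 : 0 < Real.exp (-m / D) := Real.exp_pos _
    have c1 : 4 * (C₂ * Real.exp (-(m / 4 - 2) / C₂)) ≤ D / 2 * Real.exp (-m / D) := by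
      rw [a1, hD]
      have : Real.exp (2 / C₂) * Real.exp (-m / (4 * C₂)) ≤ Real.exp (2 / C₂) * Real.exp (-m / D) :=
        mul_le_mul_of_nonneg_left a2 (Real.exp_pos _).le
      have h5 : C₂ * (Real.exp (2 / C₂) * Real.exp (-m / (4 * C₂))) ≤
          C₂ * (Real.exp (2 / C₂) * Real.exp (-m / D)) :=
        mul_le_mul_of_nonneg_left this (by linarith)
      calc 4 * (C₂ * (Real.exp (2 / C₂) * Real.exp (-m / (4 * C₂))))
          ≤ 4 * (C₂ * (Real.exp (2 / C₂) * Real.exp (-m / D))) := by linarith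
        _ = 8 * C₂ * Real.exp (2 / C₂) / 2 * Real.exp (-m / D) := by ring
    have c2 : 4 * (D * Real.exp (-(3 / 2 * m) / D)) ≤ D / 2 * Real.exp (-m / D) := by
      rw [a3]
      have : Real.exp (-m / D) * Real.exp (-(m / (2 * D))) ≤ Real.exp (-m / D) * (1 / 8) :=
        mul_le_mul_of_nonneg_left a4 e0.le
      have h5 : D * (Real.exp (-m / D) * Real.exp (-(m / (2 * D)))) ≤
          D * (Real.exp (-m / D) * (1 / 8)) := mul_le_mul_of_nonneg_left this hD0.le
      calc 4 * (D * (Real.exp (-m / D) * Real.exp (-(m / (2 * D)))))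
          ≤ 4 * (D * (Real.exp (-m / D) * (1 / 8))) := by linarith
        _ = D / 2 * Real.exp (-m / D) := by ring
    linarith
  refine ⟨5 * D, by linarith, fun θ hθ hθ' α s m hm => ?_⟩
  have hθ0 : 0 < θ := by linarith
  have pθ : IsProbabilityMeasure (ν θ) := h.prob θ hθ0
  -- iteration
  have iter : ∀ J : ℕ, ∀ (m : ℝ), 5 * D ≤ m → ∀ (α s : ℚ) (F : Finset ℚ),
      (∀ y ∈ F, α ≤ y ∧ y ≤ α + 1) →
      ν θ (⋃ y ∈ F, {S | S s y + ((s : ℝ) - y) ^ 2 / θ < -m}) ≤
        ENNReal.ofReal (D * Real.exp (-m / D) +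
          4 ^ J * (F.card * (C₂ * Real.exp (-((3 / 2) ^ J * m) / C₂)))) := by
    intro J
    induction J with
    | zero =>
      intro m hm α s F hF
      refine (measure_biUnion_finset_le F _).trans ?_
      have h1 : ∀ y ∈ F, ν θ {S | S s y + ((s : ℝ) - y) ^ 2 / θ < -m} ≤
          ENNReal.ofReal (C₂ * Real.exp (-m / C₂)) := by
        intro y _
        rw [one_low h θ hθ0 s y (-m)]
        exact hT θ hθ0 hθ' m
      refine (Finset.sum_le_sum h1).trans ?_
      rw [Finset.sum_const, nsmul_eq_mul, ← ENNReal.ofReal_natCast, ← ENNReal.ofReal_mul (by positivity)]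
      refine ENNReal.ofReal_le_ofReal ?_
      rw [pow_zero, pow_zero, one_mul, one_mul]
      have : 0 ≤ D * Real.exp (-m / D) := by positivity
      linarith
    | succ J ih =>
      intro m hm α s F hF
      -- the four cells
      let Fc : Fin 4 → Finset ℚ := fun c =>
        F.filter fun y => α + (c : ℚ) / 4 ≤ y ∧ y ≤ α + (c : ℚ) / 4 + 1 / 4
      have hcov : (⋃ y ∈ F, {S : Kern | S s y + ((s : ℝ) - y) ^ 2 / θ < -m}) ⊆
          ⋃ c : Fin 4, ⋃ y ∈ Fc c, {S : Kern | S s y + ((s : ℝ) - y) ^ 2 / θ < -m} := by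
        intro S hS
        rw [Set.mem_iUnion₂] at hS
        obtain ⟨y, hy, hS⟩ := hS
        obtain ⟨h1, h2⟩ := hF y hy
        have hc : ∃ c : Fin 4, y ∈ Fc c := by
          rcases le_or_gt y (α + 1 / 4) with a1 | a1
          · exact ⟨0, Finset.mem_filter.2 ⟨hy, by norm_num; exact ⟨h1, by linarith⟩⟩⟩
          rcases le_or_gt y (α + 2 / 4) with a2 | a2
          · exact ⟨1, Finset.mem_filter.2 ⟨hy, by norm_num; exact ⟨by linarith, by linarith⟩⟩⟩
          rcases le_or_gt y (α + 3 / 4) with a3 | a3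
          · refine ⟨2, Finset.mem_filter.2 ⟨hy, ?_⟩⟩
            have e : (((2 : Fin 4) : ℕ) : ℚ) = 2 := by norm_num
            show α + (((2 : Fin 4) : ℕ) : ℚ) / 4 ≤ y ∧ y ≤ α + (((2 : Fin 4) : ℕ) : ℚ) / 4 + 1 / 4
            rw [e]
            exact ⟨by linarith, by linarith⟩
          · refine ⟨3, Finset.mem_filter.2 ⟨hy, ?_⟩⟩
            have e : (((3 : Fin 4) : ℕ) : ℚ) = 3 := by norm_num
            show α + (((3 : Fin 4) : ℕ) : ℚ) / 4 ≤ y ∧ y ≤ α + (((3 : Fin 4) : ℕ) : ℚ) / 4 + 1 / 4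
            rw [e]
            exact ⟨by linarith, by linarith⟩
        obtain ⟨c, hc⟩ := hc
        exact Set.mem_iUnion.2 ⟨c, Set.mem_biUnion hc hS⟩
      refine (measure_mono hcov).trans ((measure_iUnion_le _).trans ?_)
      rw [tsum_fintype]
      have hcell : ∀ c : Fin 4, ν θ (⋃ y ∈ Fc c, {S : Kern | S s y + ((s : ℝ) - y) ^ 2 / θ < -m}) ≤
          ENNReal.ofReal ((D * Real.exp (-(3 / 2 * m) / D) +
          4 ^ J * (F.card * (C₂ * Real.exp (-((3 / 2) ^ J * (3 / 2 * m)) / C₂)))) +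
            C₂ * Real.exp (-(m / 4 - 2) / C₂)) := by
        intro c
        have h1 := INB_step h hT hθ hθ' (α + (c : ℚ) / 4) s m (Fc c)
          (fun y hy => (Finset.mem_filter.1 hy).2)
        refine h1.trans ?_
        rw [ENNReal.ofReal_add (by positivity) (by positivity)]
        refine add_le_add ?_ le_rfl
        refine (ih (3 / 2 * m) (by linarith) (4 * (α + (c : ℚ) / 4)) _ _ ?_).trans
          (ENNReal.ofReal_le_ofReal ?_)
        · intro y hy
          rw [Finset.mem_image] at hy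
          obtain ⟨z, hz, rfl⟩ := hy
          have := (Finset.mem_filter.1 hz).2
          exact ⟨by linarith [this.1], by linarith [this.2]⟩
        · have h2 : ((((Fc c).image fun y => 4 * y).card : ℕ) : ℝ) ≤ F.card := by
            have h3 : ((Fc c).image fun y => 4 * y).card ≤ F.card :=
              Finset.card_image_le.trans (Finset.card_le_card (Finset.filter_subset _ _))
            exact_mod_cast h3
          have h4 : (0 : ℝ) ≤ C₂ * Real.exp (-((3 / 2) ^ J * (3 / 2 * m)) / C₂) := by positivity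
          have h5 := mul_le_mul_of_nonneg_right h2 h4
          have h6 := mul_le_mul_of_nonneg_left h5 (by positivity : (0 : ℝ) ≤ 4 ^ J)
          linarith
      refine (Finset.sum_le_sum fun c _ => hcell c).trans ?_
      rw [Finset.sum_const, Finset.card_univ, Fintype.card_fin, nsmul_eq_mul,
        ← ENNReal.ofReal_natCast, ← ENNReal.ofReal_mul (by positivity)]
      refine ENNReal.ofReal_le_ofReal ?_
      have h1 := hrec m hm
      have e1 : (3 / 2 : ℝ) ^ J * (3 / 2 * m) = (3 / 2) ^ (J + 1) * m := by rw [pow_succ]; ring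
      rw [e1, pow_succ 4 J]
      push_cast
      linarith
  rcases le_or_gt (5 * D) m with hm' | hm'
  · -- large `m`
    have hset : {S : Kern | ∃ y : ℚ, α ≤ y ∧ y ≤ α + 1 ∧ S s y + ((s : ℝ) - y) ^ 2 / θ < -m} =
        ⋃ y : ℚ, {S : Kern | α ≤ y ∧ y ≤ α + 1 ∧ S s y + ((s : ℝ) - y) ^ 2 / θ < -m} := by
      ext S
      simp
    rw [hset]
    refine INB_lim _ _ _ fun F => ?_
    have hsub : (⋃ y ∈ F, {S : Kern | α ≤ y ∧ y ≤ α + 1 ∧ S s y + ((s : ℝ) - y) ^ 2 / θ < -m}) ⊆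
        ⋃ y ∈ F.filter (fun y => α ≤ y ∧ y ≤ α + 1), {S : Kern | S s y + ((s : ℝ) - y) ^ 2 / θ < -m} := by
      intro S hS
      rw [Set.mem_iUnion₂] at hS
      obtain ⟨y, hy, h1, h2, h3⟩ := hS
      exact Set.mem_biUnion (Finset.mem_filter.2 ⟨hy, h1, h2⟩ : y ∈ F.filter (fun y => α ≤ y ∧ y ≤ α + 1)) h3
    refine (measure_mono hsub).trans ?_
    set F' := F.filter (fun y => α ≤ y ∧ y ≤ α + 1) with hF'
    have hb := fun J => iter J m hm' α s F' (fun y hy => (Finset.mem_filter.1 hy).2)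
    have hm0 : 0 < m := by linarith
    have hlim : Tendsto (fun J : ℕ => ENNReal.ofReal (D * Real.exp (-m / D) +
        4 ^ J * (F'.card * (C₂ * Real.exp (-((3 / 2) ^ J * m) / C₂))))) atTop
        (𝓝 (ENNReal.ofReal (D * Real.exp (-m / D) + 0))) := by
      refine ENNReal.tendsto_ofReal (tendsto_const_nhds.add ?_)
      -- `4^J exp(-a (3/2)^J) → 0`
      have g1 : Tendsto (fun x : ℝ => x ^ 4 * Real.exp (-(m / C₂) * x)) atTop (𝓝 0) := by
        have := Real.tendsto_pow_mul_exp_neg_atTop_nhds_zero 4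
        have hk : 0 < m / C₂ := by positivity
        have h2 := (this.comp (tendsto_id.const_mul_atTop hk)).const_mul ((m / C₂) ^ 4)⁻¹
        rw [mul_zero] at h2
        refine h2.congr fun x => ?_
        show ((m / C₂) ^ 4)⁻¹ * ((m / C₂ * x) ^ 4 * Real.exp (-(m / C₂ * x))) = _
        have : (m / C₂) ^ 4 ≠ 0 := by positivity
        rw [mul_pow, ← neg_mul]
        field_simp
      have g2 : Tendsto (fun J : ℕ => ((3 / 2 : ℝ)) ^ J) atTop atTop :=
        tendsto_pow_atTop_atTop_of_one_lt (by norm_num)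
      have g3 := (g1.comp g2).const_mul ((F'.card : ℝ) * C₂)
      rw [mul_zero] at g3
      refine squeeze_zero (fun J => by positivity) (fun J => ?_) g3
      show (4 : ℝ) ^ J * (F'.card * (C₂ * Real.exp (-((3 / 2) ^ J * m) / C₂))) ≤
        (F'.card : ℝ) * C₂ * ((((3 / 2 : ℝ)) ^ J) ^ 4 * Real.exp (-(m / C₂) * (3 / 2) ^ J))
      have e1 : -((3 / 2 : ℝ) ^ J * m) / C₂ = -(m / C₂) * (3 / 2) ^ J := by ring
      rw [e1]
      have e2 : (4 : ℝ) ^ J ≤ ((3 / 2 : ℝ) ^ J) ^ 4 := by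
        rw [← pow_mul, mul_comm J 4, pow_mul]
        exact pow_le_pow_left₀ (by norm_num) (by norm_num) J
      have e3 : (0 : ℝ) ≤ (F'.card : ℝ) * C₂ * Real.exp (-(m / C₂) * (3 / 2) ^ J) := by positivity
      have e4 := mul_le_mul_of_nonneg_left e2 e3
      linarith
    rw [add_zero] at hlim
    refine (ge_of_tendsto' hlim hb).trans (ENNReal.ofReal_le_ofReal ?_)
    have h1 : Real.exp (-m / D) ≤ Real.exp (-m / (5 * D)) := by
      apply Real.exp_le_exp.2
      rw [neg_div, neg_div, neg_le_neg_iff]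
      exact div_le_div_of_nonneg_left hm hD0 (by linarith)
    exact mul_le_mul (by linarith) h1 (Real.exp_pos _).le (by positivity)
  · refine prob_le_one.trans ?_
    rw [← ENNReal.ofReal_one]
    refine ENNReal.ofReal_le_ofReal ?_
    have h2 : Real.exp (-1) ≤ Real.exp (-m / (5 * D)) := by
      apply Real.exp_le_exp.2
      rw [neg_div, neg_le_neg_iff, div_le_one (by positivity)]
      exact hm'.le
    have h3 : (1 : ℝ) / 3 ≤ Real.exp (-1) := by
      rw [Real.exp_neg, inv_eq_one_div]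
      exact one_div_le_one_div_of_le (Real.exp_pos _) Real.exp_one_lt_three.le
    have h4 : (3 : ℝ) * (1 / 3) ≤ 5 * D * Real.exp (-m / (5 * D)) :=
      mul_le_mul (by linarith) (h3.trans h2) (by norm_num) (by positivity)
    linarith

end Pool.Agent.DLM
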