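import Pool.Agent.DLM.CST
import Pool.Agent.DLM.INA
import Pool.Agent.DLM.INB

/-!
# DLM/PEC: two-sided parabolic estimate (80-120 lines)

UPPER: `cell_sup` (`c = 1`): `S x y ≤ -(α'-α)^2/θ + C|α'-α| + C + s`, `(x-y)^2 ≤ (α'-α)^2 + 2|α'-α| + 1`, `θ ≥ 1/2`: `S x y + (x-y)^2/θ ≤ (C+4)(|α'-α| + 1) + s ≤ (C+4)(|x-y| + 2) + s ≤ E (1 + |x-y|)` with `s = E/2` if `E ≥ 4 (C + 4)`.
LOWER: `ν θ` is the law of `kcomp S₁ S₂` with `S₁, S₂ ~ ν (θ/2)`, `q = (α + α' + 1)/2`: `S x y ≥ S₁ x q + S₂ q y`, `2((x-q)^2 + (y-q)^2)/θ = ((x-y)^2 + (x+y-2q)^2)/θ ≤ (x-y)^2/θ + 2` (`|x + y - 2q| ≤ 1`).  `inf_left`, `inf_right` with `m = (E - 2)/2`.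
-/

set_option autoImplicit false

open MeasureTheory ProbabilityTheory Filter Topology

namespace Pool.Agent.DLM

variable {ν : ℝ → Measure Kern} {tw : Measure ℝ} {β : ℝ → Measure Ini}

private theorem pec_ev (x y : ℚ) : Measurable fun S : Kern => S x y :=
  (measurable_pi_apply y).comp (measurable_pi_apply x)

private theorem pec_kcomp : Measurable fun p : Kern × Kern => kcomp p.1 p.2 := by
  refine measurable_pi_lambda _ fun x => measurable_pi_lambda _ fun y => ?_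
  show Measurable fun p : Kern × Kern => ⨆ z : ℚ, (p.1 x z + p.2 z y)
  refine Measurable.iSup fun z => ?_
  exact ((pec_ev x z).comp measurable_fst).add ((pec_ev z y).comp measurable_snd)

private theorem pec_up {D w θ C E : ℝ} (hθ : 1 / 2 ≤ θ) (hC : 0 ≤ C) (hw : |w| ≤ 1) (hE : 4 * (C + 4) ≤ E) :
    -D ^ 2 / θ + C * |D| + C + E / 2 ≤ E * (1 + |D + w|) - (D + w) ^ 2 / θ := by
  have hθ0 : 0 < θ := by linarith
  have h1 : (D + w) ^ 2 / θ ≤ D ^ 2 / θ + 2 * (2 * |D| + 1) := by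
    rw [div_le_iff₀ hθ0, add_mul, div_mul_cancel₀ _ hθ0.ne']
    have h2 : D * w ≤ |D| := by
      calc D * w ≤ |D * w| := le_abs_self _
        _ = |D| * |w| := abs_mul _ _
        _ ≤ |D| * 1 := mul_le_mul_of_nonneg_left hw (abs_nonneg _)
        _ = |D| := mul_one _
    have h3 : w ^ 2 ≤ 1 := by
      rw [← sq_abs]
      nlinarith [abs_nonneg w]
    have h4 : (2 * |D| + 1) * 1 ≤ (2 * |D| + 1) * (2 * θ) :=
      mul_le_mul_of_nonneg_left (by linarith) (by positivity)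
    nlinarith
  have h2 : |D| ≤ |D + w| + 1 := by
    have : D = (D + w) - w := by ring
    calc |D| = |(D + w) - w| := by rw [← this]
      _ ≤ |D + w| + |w| := abs_sub _ _
      _ ≤ |D + w| + 1 := by linarith
  have h3 : (C + 4) * (|D| + 1) ≤ E / 2 * (1 + |D + w|) := by
    have h4 : |D| + 1 ≤ 2 * (1 + |D + w|) := by linarith [abs_nonneg (D + w)]
    calc (C + 4) * (|D| + 1) ≤ (C + 4) * (2 * (1 + |D + w|)) := mul_le_mul_of_nonneg_left h4 (by linarith)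
      _ = (2 * (C + 4)) * (1 + |D + w|) := by ring
      _ ≤ E / 2 * (1 + |D + w|) := mul_le_mul_of_nonneg_right (by linarith) (by positivity)
  have h4 : E / 2 ≤ E / 2 * (1 + |D + w|) := by
    have : 0 ≤ E / 2 * |D + w| := mul_nonneg (by linarith) (abs_nonneg _)
    linarith
  have h5 : -D ^ 2 / θ = -(D ^ 2 / θ) := by ring
  rw [h5]
  have h6 : 0 ≤ C * |D| := mul_nonneg hC (abs_nonneg _)
  nlinarith [abs_nonneg D]

private theorem pec_low {a b θ : ℝ} (hθ : 1 / 2 ≤ θ) (h : |a + b| ≤ 1) :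
    a ^ 2 / (θ / 2) + b ^ 2 / (θ / 2) ≤ (a - b) ^ 2 / θ + 2 := by
  have hθ0 : 0 < θ := by linarith
  have h1 : a ^ 2 / (θ / 2) + b ^ 2 / (θ / 2) = (a - b) ^ 2 / θ + (a + b) ^ 2 / θ := by
    field_simp
    ring
  rw [h1]
  have h2 : (a + b) ^ 2 ≤ 1 := by
    rw [← sq_abs]
    nlinarith [abs_nonneg (a + b)]
  have h3 : (a + b) ^ 2 / θ ≤ 2 := by
    rw [div_le_iff₀ hθ0]
    linarith
  linarith

private theorem pec_exp {c E : ℝ} (hc : 1 ≤ c) : c * Real.exp (-((E - 2) / 2) / c) ≤ 3 * c * Real.exp (-E / (2 * c)) := by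
  have hc0 : 0 < c := by linarith
  have h1 : -((E - 2) / 2) / c = -E / (2 * c) + 1 / c := by
    field_simp
    ring
  rw [h1, Real.exp_add]
  have h2 : Real.exp (1 / c) ≤ 3 := by
    calc Real.exp (1 / c) ≤ Real.exp 1 := Real.exp_le_exp.2 (by rw [div_le_one hc0]; exact hc)
      _ ≤ 3 := by linarith [Real.exp_one_lt_d9]
  calc c * (Real.exp (-E / (2 * c)) * Real.exp (1 / c)) = c * Real.exp (-E / (2 * c)) * Real.exp (1 / c) := by ring
    _ ≤ c * Real.exp (-E / (2 * c)) * 3 := mul_le_mul_of_nonneg_left h2 (by positivity)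
    _ = 3 * c * Real.exp (-E / (2 * c)) := by ring

private theorem pec_exp' {c C E : ℝ} (hc : 0 < c) (hC : c ≤ C) (hE : 0 ≤ E) : Real.exp (-E / c) ≤ Real.exp (-E / C) := by
  apply Real.exp_le_exp.2
  rw [neg_div, neg_div]
  exact neg_le_neg (div_le_div_of_nonneg_left hE hc hC)

theorem par_est (h : Base ν tw β) : ∃ C : ℝ, 1 ≤ C ∧ ∀ θ : ℝ, 1 / 2 ≤ θ → θ ≤ 4 → ∀ (α α' : ℚ) (E : ℝ), C ≤ E →
    ν θ {S | ∃ x y : ℚ, α ≤ x ∧ x ≤ α + 1 ∧ α' ≤ y ∧ y ≤ α' + 1 ∧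
      E * (1 + |(x : ℝ) - y|) < |S x y + ((x : ℝ) - y) ^ 2 / θ|} ≤ ENNReal.ofReal (C * Real.exp (-E / C)) := by
  obtain ⟨C₁, hC₁, H₁⟩ := cell_sup h 1 one_pos
  obtain ⟨C₂, hC₂, H₂⟩ := inf_left h
  obtain ⟨C₃, hC₃, H₃⟩ := inf_right h
  refine ⟨4 * (C₁ + 4) + 3 * C₂ + 3 * C₃, by linarith, ?_⟩
  intro θ hθ hθ4 α α' E hE
  have hθ0 : 0 < θ := by linarith
  have hθ2 : 0 < θ / 2 := by linarith
  have hP : IsProbabilityMeasure (ν (θ / 2)) := h.prob _ hθ2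
  set C := 4 * (C₁ + 4) + 3 * C₂ + 3 * C₃ with hCdef
  have hE0 : 0 ≤ E := by linarith
  let q : ℚ := (α + α' + 1) / 2
  let m : ℝ := (E - 2) / 2
  have hm : 0 ≤ m := by
    show 0 ≤ (E - 2) / 2
    linarith
  let U : Set Kern := {S | ∃ x y : ℚ, α ≤ x ∧ x ≤ α + 1 ∧ α' ≤ y ∧ y ≤ α' + 1 ∧
      -((α' : ℝ) - α) ^ 2 / θ + C₁ * |(α' : ℝ) - α| + C₁ + E / 2 < S x y}
  let A : Set Kern := {S | ∃ x y : ℚ, α ≤ x ∧ x ≤ α + 1 ∧ α' ≤ y ∧ y ≤ α' + 1 ∧
      S x y + ((x : ℝ) - y) ^ 2 / θ < -E}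
  let L₁ : Set Kern := {S | ∃ x : ℚ, α ≤ x ∧ x ≤ α + 1 ∧ S x q + ((x : ℝ) - q) ^ 2 / (θ / 2) < -m}
  let L₂ : Set Kern := {S | ∃ y : ℚ, α' ≤ y ∧ y ≤ α' + 1 ∧ S q y + ((q : ℝ) - y) ^ 2 / (θ / 2) < -m}
  have hA : MeasurableSet A := by
    have : A = ⋃ (x : ℚ) (y : ℚ), {S : Kern | α ≤ x ∧ x ≤ α + 1 ∧ α' ≤ y ∧ y ≤ α' + 1 ∧
        S x y + ((x : ℝ) - y) ^ 2 / θ < -E} := by
      ext S
      simp only [A, Set.mem_ofPred_eq, Set.mem_iUnion]
    rw [this]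
    refine MeasurableSet.iUnion fun x => MeasurableSet.iUnion fun y => ?_
    refine (MeasurableSet.const _).inter ((MeasurableSet.const _).inter ((MeasurableSet.const _).inter
      ((MeasurableSet.const _).inter ?_)))
    exact measurableSet_lt ((pec_ev x y).add_const _) measurable_const
  have h1 : ν θ U ≤ ENNReal.ofReal (C₁ * Real.exp (-1 * (E / 2))) := H₁ θ hθ hθ4 α α' (E / 2) (by linarith)
  have h2 : ν (θ / 2) L₁ ≤ ENNReal.ofReal (C₂ * Real.exp (-m / C₂)) :=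
    H₂ (θ / 2) (by linarith) (by linarith) α q m hm
  have h3 : ν (θ / 2) L₂ ≤ ENNReal.ofReal (C₃ * Real.exp (-m / C₃)) :=
    H₃ (θ / 2) (by linarith) (by linarith) α' q m hm
  have h4 : ν θ A ≤ ν (θ / 2) L₁ + ν (θ / 2) L₂ := by
    have e1 : ν θ = ((ν (θ / 2)).prod (ν (θ / 2))).map (fun p => kcomp p.1 p.2) := by
      rw [h.comp _ _ hθ2 hθ2]
      congr 1
      ring
    rw [e1, Measure.map_apply pec_kcomp hA]
    have hsub : ((fun p : Kern × Kern => kcomp p.1 p.2) ⁻¹' A : Set (Kern × Kern)) ≤ᵐ[(ν (θ / 2)).prod (ν (θ / 2))]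
        ((L₁ ×ˢ Set.univ) ∪ (Set.univ ×ˢ L₂) : Set (Kern × Kern)) := by
      filter_upwards [h.comp_bdd _ _ hθ2 hθ2] with p hp hpA
      obtain ⟨x, y, hx1, hx2, hy1, hy2, hlt⟩ := hpA
      by_contra hn
      have hn' : p ∉ ((L₁ ×ˢ Set.univ) ∪ (Set.univ ×ˢ L₂) : Set (Kern × Kern)) := hn
      rw [Set.mem_union, not_or] at hn'
      obtain ⟨n1, n2⟩ := hn'
      have k1 : -m ≤ p.1 x q + ((x : ℝ) - q) ^ 2 / (θ / 2) := by
        by_contra hc
        exact n1 ⟨⟨x, hx1, hx2, not_le.1 hc⟩, Set.mem_univ _⟩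
      have k2 : -m ≤ p.2 q y + ((q : ℝ) - y) ^ 2 / (θ / 2) := by
        by_contra hc
        exact n2 ⟨Set.mem_univ _, ⟨y, hy1, hy2, not_le.1 hc⟩⟩
      have k3 : p.1 x q + p.2 q y ≤ kcomp p.1 p.2 x y := le_ciSup (hp x y) q
      have hq : (q : ℝ) = ((α : ℝ) + α' + 1) / 2 := by
        show (((α + α' + 1) / 2 : ℚ) : ℝ) = _
        push_cast
        ring
      have hx1' : (α : ℝ) ≤ x := by exact_mod_cast hx1
      have hx2' : (x : ℝ) ≤ α + 1 := by exact_mod_cast hx2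
      have hy1' : (α' : ℝ) ≤ y := by exact_mod_cast hy1
      have hy2' : (y : ℝ) ≤ α' + 1 := by exact_mod_cast hy2
      have k4 : |((x : ℝ) - q) + ((y : ℝ) - q)| ≤ 1 := by
        rw [hq, abs_le]
        constructor <;> linarith
      have k5 := pec_low hθ k4
      have k6 : ((x : ℝ) - q) - ((y : ℝ) - q) = (x : ℝ) - y := by ring
      have k7 : ((q : ℝ) - y) ^ 2 = ((y : ℝ) - q) ^ 2 := by ring
      rw [k6] at k5
      rw [k7] at k2
      have k8 : m = (E - 2) / 2 := rfl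
      have k9 : kcomp p.1 p.2 x y + ((x : ℝ) - y) ^ 2 / θ < -E := hlt
      linarith
    calc ((ν (θ / 2)).prod (ν (θ / 2))) ((fun p : Kern × Kern => kcomp p.1 p.2) ⁻¹' A)
        ≤ ((ν (θ / 2)).prod (ν (θ / 2))) ((L₁ ×ˢ Set.univ) ∪ (Set.univ ×ˢ L₂)) := measure_mono_ae hsub
      _ ≤ ((ν (θ / 2)).prod (ν (θ / 2))) (L₁ ×ˢ Set.univ) + ((ν (θ / 2)).prod (ν (θ / 2))) (Set.univ ×ˢ L₂) :=
        measure_union_le _ _
      _ = ν (θ / 2) L₁ + ν (θ / 2) L₂ := by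
        rw [Measure.prod_prod, Measure.prod_prod, measure_univ, mul_one, one_mul]
  have hsub : {S : Kern | ∃ x y : ℚ, α ≤ x ∧ x ≤ α + 1 ∧ α' ≤ y ∧ y ≤ α' + 1 ∧
      E * (1 + |(x : ℝ) - y|) < |S x y + ((x : ℝ) - y) ^ 2 / θ|} ⊆ U ∪ A := by
    rintro S ⟨x, y, hx1, hx2, hy1, hy2, hlt⟩
    have hx1' : (α : ℝ) ≤ x := by exact_mod_cast hx1
    have hx2' : (x : ℝ) ≤ α + 1 := by exact_mod_cast hx2
    have hy1' : (α' : ℝ) ≤ y := by exact_mod_cast hy1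
    have hy2' : (y : ℝ) ≤ α' + 1 := by exact_mod_cast hy2
    rcases lt_abs.1 hlt with hl | hl
    · left
      refine ⟨x, y, hx1, hx2, hy1, hy2, ?_⟩
      have k1 : |((y : ℝ) - α') - ((x : ℝ) - α)| ≤ 1 := by
        rw [abs_le]
        constructor <;> linarith
      have k2 := pec_up (D := (α' : ℝ) - α) hθ (by linarith : (0 : ℝ) ≤ C₁) k1 (by linarith : 4 * (C₁ + 4) ≤ E)
      have k3 : (α' : ℝ) - α + (((y : ℝ) - α') - ((x : ℝ) - α)) = y - x := by ring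
      rw [k3] at k2
      have k4 : |(y : ℝ) - x| = |(x : ℝ) - y| := abs_sub_comm _ _
      have k5 : ((y : ℝ) - x) ^ 2 = ((x : ℝ) - y) ^ 2 := by ring
      rw [k4, k5] at k2
      linarith
    · right
      refine ⟨x, y, hx1, hx2, hy1, hy2, ?_⟩
      have k1 : 0 ≤ E * |(x : ℝ) - y| := mul_nonneg hE0 (abs_nonneg _)
      linarith
  have e1 : Real.exp (-1 * (E / 2)) ≤ Real.exp (-E / C) := by
    have := pec_exp' (c := 2) (C := C) two_pos (by linarith) hE0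
    have e : -1 * (E / 2) = -E / 2 := by ring
    rw [e]
    exact this
  have e2 : C₂ * Real.exp (-m / C₂) ≤ 3 * C₂ * Real.exp (-E / C) :=
    (pec_exp hC₂).trans (mul_le_mul_of_nonneg_left (pec_exp' (by linarith) (by linarith) hE0) (by linarith))
  have e3 : C₃ * Real.exp (-m / C₃) ≤ 3 * C₃ * Real.exp (-E / C) :=
    (pec_exp hC₃).trans (mul_le_mul_of_nonneg_left (pec_exp' (by linarith) (by linarith) hE0) (by linarith))
  calc ν θ _ ≤ ν θ (U ∪ A) := measure_mono hsub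
    _ ≤ ν θ U + ν θ A := measure_union_le _ _
    _ ≤ ENNReal.ofReal (C₁ * Real.exp (-1 * (E / 2))) +
        (ENNReal.ofReal (C₂ * Real.exp (-m / C₂)) + ENNReal.ofReal (C₃ * Real.exp (-m / C₃))) :=
      add_le_add h1 (h4.trans (add_le_add h2 h3))
    _ = ENNReal.ofReal (C₁ * Real.exp (-1 * (E / 2)) + (C₂ * Real.exp (-m / C₂) + C₃ * Real.exp (-m / C₃))) := by
      rw [ENNReal.ofReal_add (by positivity) (by positivity), ENNReal.ofReal_add (by positivity) (by positivity)]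
    _ ≤ ENNReal.ofReal (C * Real.exp (-E / C)) := by
      apply ENNReal.ofReal_le_ofReal
      have k1 : C₁ * Real.exp (-1 * (E / 2)) ≤ C₁ * Real.exp (-E / C) := mul_le_mul_of_nonneg_left e1 (by linarith)
      have k2 : 0 ≤ Real.exp (-E / C) := (Real.exp_pos _).le
      have k3 : (C₁ + 3 * C₂ + 3 * C₃) * Real.exp (-E / C) ≤ C * Real.exp (-E / C) :=
        mul_le_mul_of_nonneg_right (by linarith) k2
      linarith

end Pool.Agent.DLM
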