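import Pool.Agent.DLM.EDefs
import Pool.Agent.DLM.PEC

/-!
# DLM/PEP: parabolic estimate for the short sheets (60-90 lines)

`ν (1/w^300)` is the law of `(1/m) U (x m^2) (y m^2)`, `U ~ ν 1`, `m = w^100` (`Base.scal` with `r = 1/w^100`, `θ = 1`).  `(x-y)^2 w^300 = (1/m) (x m^2 - y m^2)^2`, so `PEst` says `|U u v + (u-v)^2| ≤ w (1 + |u - v|)` for `|u|, |v| ≤ w^201`.  `par_est` with `θ = 1`, `E = w` for the cells `α, α'` integers of absolute value `≤ w^201 + 1`: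
total `≤ (2 w^201 + 3)^2 C exp(-w/C) ≤ 1/w^10` for `w` large.
-/

set_option autoImplicit false

open MeasureTheory ProbabilityTheory Filter Topology

namespace Pool.Agent.DLM

variable {ν : ℝ → Measure Kern} {tw : Measure ℝ} {β : ℝ → Measure Ini}

private theorem pep_lim {C : ℝ} (hC : 0 < C) :
    ∀ᶠ w : ℕ in atTop, 25 * C * (w : ℝ) ^ 412 * Real.exp (-(w : ℝ) / C) ≤ 1 := by
  have h1 : Tendsto (fun w : ℕ => (w : ℝ) / C) atTop atTop :=
    Tendsto.atTop_div_const hC tendsto_natCast_atTop_atTop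
  have h2 : Tendsto (fun w : ℕ => 25 * C ^ 413 * (((w : ℝ) / C) ^ 412 * Real.exp (-((w : ℝ) / C)))) atTop
      (𝓝 (25 * C ^ 413 * 0)) :=
    ((Real.tendsto_pow_mul_exp_neg_atTop_nhds_zero 412).comp h1).const_mul _
  rw [mul_zero] at h2
  filter_upwards [h2.eventually_le_const one_pos] with w hw
  have e : 25 * C * (w : ℝ) ^ 412 * Real.exp (-(w : ℝ) / C) =
      25 * C ^ 413 * (((w : ℝ) / C) ^ 412 * Real.exp (-((w : ℝ) / C))) := by
    rw [neg_div, div_pow]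
    field_simp
  rw [e]
  exact hw

private theorem pep_meas (w : ℕ) : MeasurableSet {S : Kern | ¬ PEst w S} := by
  have h1 : {S : Kern | ¬ PEst w S} = ⋃ (x : ℚ) (y : ℚ), {S : Kern | |(x : ℝ)| ≤ w ∧ |(y : ℝ)| ≤ w ∧
      (w : ℝ) / w ^ 100 * (1 + |(x : ℝ) - y| * w ^ 200) < |S x y + ((x : ℝ) - y) ^ 2 * w ^ 300|} := by
    ext S
    simp only [PEst, Set.mem_ofPred_eq, Set.mem_iUnion]
    push Not
    rfl
  rw [h1]
  refine MeasurableSet.iUnion fun x => MeasurableSet.iUnion fun y => ?_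
  refine (MeasurableSet.const _).inter ((MeasurableSet.const _).inter ?_)
  have h2 : Measurable fun S : Kern => S x y := (measurable_pi_apply y).comp (measurable_pi_apply x)
  have h3 : Measurable fun S : Kern => |S x y + ((x : ℝ) - y) ^ 2 * w ^ 300| := (h2.add_const _).norm
  exact measurableSet_lt measurable_const h3

private theorem pep_map (r : ℚ) : Measurable fun (S : Kern) (x y : ℚ) => (r : ℝ) * S (x / r ^ 2) (y / r ^ 2) := by
  refine measurable_pi_lambda _ fun x => measurable_pi_lambda _ fun y => ?_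
  have h2 : Measurable fun S : Kern => S (x / r ^ 2) (y / r ^ 2) :=
    (measurable_pi_apply (y / r ^ 2)).comp (measurable_pi_apply (x / r ^ 2))
  exact h2.const_mul _

private theorem pep_scale {w A u v : ℝ} (hw : 0 < w)
    (h : w / w ^ 100 * (1 + |u - v| * w ^ 200) < |1 / w ^ 100 * A + (u - v) ^ 2 * w ^ 300|) :
    w * (1 + |u * w ^ 200 - v * w ^ 200|) < |A + (u * w ^ 200 - v * w ^ 200) ^ 2 / 1| := by
  have h1 : u * w ^ 200 - v * w ^ 200 = (u - v) * w ^ 200 := by ring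
  have h2 : 1 / w ^ 100 * A + (u - v) ^ 2 * w ^ 300 = 1 / w ^ 100 * (A + ((u - v) * w ^ 200) ^ 2 / 1) := by
    field_simp
  have h3 : 0 < w ^ 100 := by positivity
  rw [h1, abs_mul, abs_of_pos (by positivity : 0 < w ^ 200)]
  rw [h2, abs_mul, abs_of_pos (by positivity : 0 < 1 / w ^ 100)] at h
  have h4 : w / w ^ 100 * (1 + |u - v| * w ^ 200) = 1 / w ^ 100 * (w * (1 + |u - v| * w ^ 200)) := by ring
  rw [h4] at h
  exact lt_of_mul_lt_mul_left h (by positivity)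

private theorem pep_cell {x : ℚ} {M : ℤ} (h : |(x : ℝ)| ≤ M) :
    ⌊x⌋ ∈ Finset.Icc (-(M + 1)) (M + 1) ∧ ((⌊x⌋ : ℤ) : ℚ) ≤ x ∧ x ≤ ((⌊x⌋ : ℤ) : ℚ) + 1 := by
  have h0 : |x| ≤ (M : ℚ) := by exact_mod_cast h
  obtain ⟨h1, h2⟩ := abs_le.1 h0
  refine ⟨Finset.mem_Icc.2 ⟨?_, ?_⟩, Int.floor_le x, (Int.lt_floor_add_one x).le⟩
  · refine Int.le_floor.2 ?_
    push_cast
    linarith
  · have h3 : ((⌊x⌋ : ℤ) : ℚ) ≤ ((M + 1 : ℤ) : ℚ) := by
      have := Int.floor_le x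
      push_cast
      linarith
    exact_mod_cast h3

theorem pest_prob (h : Base ν tw β) : ∀ᶠ w : ℕ in atTop,
    ν (1 / (w : ℝ) ^ 300) {S | ¬ PEst w S} ≤ ENNReal.ofReal (1 / (w : ℝ) ^ 10) := by
  obtain ⟨C, hC, H⟩ := par_est h
  have hC0 : 0 < C := by linarith
  filter_upwards [pep_lim hC0, eventually_ge_atTop 1,
    tendsto_natCast_atTop_atTop.eventually_ge_atTop C] with w h1 hw1 hwC
  have hw : (1 : ℝ) ≤ w := by exact_mod_cast hw1
  have hw0 : (0 : ℝ) < w := by linarith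
  have hwq : (0 : ℚ) < w := by exact_mod_cast hw1
  let r : ℚ := 1 / (w : ℚ) ^ 100
  have hr : 0 < r := by positivity
  have hrR : (r : ℝ) = 1 / (w : ℝ) ^ 100 := by
    show ((1 / (w : ℚ) ^ 100 : ℚ) : ℝ) = _
    push_cast
    rfl
  have e1 : ν (1 / (w : ℝ) ^ 300) =
      (ν 1).map fun (S : Kern) (x y : ℚ) => (r : ℝ) * S (x / r ^ 2) (y / r ^ 2) := by
    rw [h.scal 1 r one_pos hr, hrR]
    congr 1
    rw [mul_one, div_pow, one_pow, ← pow_mul]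
  rw [e1, Measure.map_apply (pep_map r) (pep_meas w)]
  let I : Finset ℤ := Finset.Icc (-((w : ℤ) ^ 201 + 1)) ((w : ℤ) ^ 201 + 1)
  let Bad : ℤ × ℤ → Set Kern := fun a => {S | ∃ x y : ℚ, ((a.1 : ℤ) : ℚ) ≤ x ∧ x ≤ ((a.1 : ℤ) : ℚ) + 1 ∧
    ((a.2 : ℤ) : ℚ) ≤ y ∧ y ≤ ((a.2 : ℤ) : ℚ) + 1 ∧
      (w : ℝ) * (1 + |(x : ℝ) - y|) < |S x y + ((x : ℝ) - y) ^ 2 / 1|}
  have hsub : ((fun (S : Kern) (x y : ℚ) => (r : ℝ) * S (x / r ^ 2) (y / r ^ 2)) ⁻¹' {S | ¬ PEst w S}) ⊆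
      ⋃ a ∈ I ×ˢ I, Bad a := by
    intro S hS
    have hS' : ¬ PEst w (fun x y : ℚ => (r : ℝ) * S (x / r ^ 2) (y / r ^ 2)) := hS
    unfold PEst at hS'
    push Not at hS'
    obtain ⟨x, y, hx, hy, hlt⟩ := hS'
    have hdiv : ∀ z : ℚ, z / r ^ 2 = z * (w : ℚ) ^ 200 := by
      intro z
      show z / (1 / (w : ℚ) ^ 100) ^ 2 = _
      rw [div_pow, one_pow, ← pow_mul, div_div_eq_mul_div, div_one]
    rw [hdiv, hdiv, hrR] at hlt
    have h2 := pep_scale hw0 hlt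
    have hbd : ∀ z : ℚ, |(z : ℝ)| ≤ w → |((z * (w : ℚ) ^ 200 : ℚ) : ℝ)| ≤ (((w : ℤ) ^ 201 : ℤ) : ℝ) := by
      intro z hz
      push_cast
      rw [abs_mul, abs_of_pos (by positivity : (0 : ℝ) < (w : ℝ) ^ 200)]
      calc |(z : ℝ)| * (w : ℝ) ^ 200 ≤ w * (w : ℝ) ^ 200 := mul_le_mul_of_nonneg_right hz (by positivity)
        _ = (w : ℝ) ^ 201 := by ring
    obtain ⟨a1, a2, a3⟩ := pep_cell (hbd x hx)
    obtain ⟨b1, b2, b3⟩ := pep_cell (hbd y hy)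
    refine Set.mem_iUnion₂.2 ⟨(⌊x * (w : ℚ) ^ 200⌋, ⌊y * (w : ℚ) ^ 200⌋), Finset.mem_product.2 ⟨a1, b1⟩, ?_⟩
    refine ⟨x * (w : ℚ) ^ 200, y * (w : ℚ) ^ 200, a2, a3, b2, b3, ?_⟩
    push_cast
    exact h2
  have hcard : (((I ×ˢ I).card : ℕ) : ℝ) ≤ 25 * (w : ℝ) ^ 402 := by
    have hI : I.card = 2 * w ^ 201 + 3 := by
      show (Finset.Icc _ _).card = _
      rw [Int.card_Icc]
      have : ((w : ℤ) ^ 201 + 1 + 1 - -((w : ℤ) ^ 201 + 1)) = ((2 * w ^ 201 + 3 : ℕ) : ℤ) := by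
        push_cast
        ring
      rw [this, Int.toNat_natCast]
    rw [Finset.card_product, hI]
    push_cast
    have h2 : (1 : ℝ) ≤ (w : ℝ) ^ 201 := one_le_pow₀ hw
    calc (2 * (w : ℝ) ^ 201 + 3) * (2 * (w : ℝ) ^ 201 + 3) ≤ (5 * (w : ℝ) ^ 201) * (5 * (w : ℝ) ^ 201) :=
          mul_le_mul (by linarith) (by linarith) (by positivity) (by positivity)
      _ = 25 * (w : ℝ) ^ 402 := by ring
  calc ν 1 _ ≤ ν 1 (⋃ a ∈ I ×ˢ I, Bad a) := measure_mono hsub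
    _ ≤ ∑ a ∈ I ×ˢ I, ν 1 (Bad a) := measure_biUnion_finset_le _ _
    _ ≤ ∑ _a ∈ I ×ˢ I, ENNReal.ofReal (C * Real.exp (-(w : ℝ) / C)) :=
      Finset.sum_le_sum fun a _ => H 1 (by norm_num) (by norm_num) _ _ _ hwC
    _ = ENNReal.ofReal (((I ×ˢ I).card : ℕ) * (C * Real.exp (-(w : ℝ) / C))) := by
      rw [Finset.sum_const, nsmul_eq_mul, ENNReal.ofReal_mul (Nat.cast_nonneg _), ENNReal.ofReal_natCast]
    _ ≤ ENNReal.ofReal (1 / (w : ℝ) ^ 10) := by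
      apply ENNReal.ofReal_le_ofReal
      have h2 : 0 ≤ C * Real.exp (-(w : ℝ) / C) := by positivity
      rw [le_div_iff₀ (by positivity)]
      calc ((I ×ˢ I).card : ℕ) * (C * Real.exp (-(w : ℝ) / C)) * (w : ℝ) ^ 10
          ≤ 25 * (w : ℝ) ^ 402 * (C * Real.exp (-(w : ℝ) / C)) * (w : ℝ) ^ 10 :=
            mul_le_mul_of_nonneg_right (mul_le_mul_of_nonneg_right hcard h2) (by positivity)
        _ = 25 * C * (w : ℝ) ^ 412 * Real.exp (-(w : ℝ) / C) := by ring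
        _ ≤ 1 := h1

end Pool.Agent.DLM
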