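import Pool.Agent.DLM.EDefs

/-!
# DLM/PRA: paths and suprema (100-150 lines, deterministic)

`pre_ge`: induction on `s` (`le_ciSup (h.a s _)`).  `pre_near`: induction on `s` with `ε/2` (`exists_lt_of_lt_ciSup`; the index type is `ℚ`, nonempty), then change the path at the point `s` (`Function.update` or `if l ≤ s ..`; `wt` only depends on the values `z a, .., z c`).  `kc_ge`, `kc_near`: induction on `n` for all `s`
(`kc (n+1) (shf S s) = kcomp (S s) (kc n (shf S (s+1)))`: `shf (shf S s) 1 = shf S (s + 1)`).  `pre_kc_le`: induction on `n`: `kc (n+1) (shf S s) x y` is the supremum of `S s x z + kc n (shf S (s+1)) z y`, and `pre s x + S s x z ≤ pre (s+1) z`, then the induction hypothesis; `ciSup_le`.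
`near_at`: `pre s x + sfx s x ≤ pre K 0 ≤ weight(z) + ε`, and `weight(z) ≤ pre s (z s) + sfx s (z s)` (`wt` splits at `s`; `z K = 0`; `K = s + (K-1-s) + 1`).  `near_step`: see the same with the sheet `l` kept: `pre l x + S l x (z (l+1)) ≤ pre (l+1) (z (l+1))`.  For `l + 1 = K` there is no suffix.
-/

set_option autoImplicit false

open MeasureTheory ProbabilityTheory Filter Topology

namespace Pool.Agent.DLM

variable {f : Ini} {S : ℕ → Kern}

theorem wt_congr {S S' : ℕ → Kern} {z z' : ℕ → ℚ} {a c : ℕ} (hS : ∀ l, a ≤ l → l < c → S l = S' l)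
    (hz : ∀ l, a ≤ l → l ≤ c → z l = z' l) : wt S z a c = wt S' z' a c := by
  unfold wt
  refine Finset.sum_congr rfl fun l hl => ?_
  obtain ⟨h1, h2⟩ := Finset.mem_Ico.1 hl
  rw [hS l h1 h2, hz l h1 h2.le, hz (l + 1) (by omega) (by omega)]

theorem wt_split (S : ℕ → Kern) (z : ℕ → ℚ) {a b c : ℕ} (h : a ≤ b) (h' : b ≤ c) :
    wt S z a c = wt S z a b + wt S z b c := by
  unfold wt
  exact (Finset.sum_Ico_consecutive _ h h').symm

private theorem shf_shf (S : ℕ → Kern) (s : ℕ) : shf (shf S s) 1 = shf S (s + 1) := by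
  funext l
  show S (s + (1 + l)) = S (s + 1 + l)
  rw [Nat.add_assoc]

private theorem kc_succ (S : ℕ → Kern) (s n : ℕ) : kc (n + 1) (shf S s) = kcomp (S s) (kc n (shf S (s + 1))) := by
  show kcomp (S (s + 0)) (kc n (shf (shf S s) 1)) = _
  rw [shf_shf, Nat.add_zero]

private theorem kc_zero (S : ℕ → Kern) (s : ℕ) : kc 0 (shf S s) = S s := rfl

private theorem wt_self (S : ℕ → Kern) (z : ℕ → ℚ) (a : ℕ) : wt S z a a = 0 := by
  unfold wt
  rw [Finset.Ico_self, Finset.sum_empty]

private theorem wt_one (S : ℕ → Kern) (z : ℕ → ℚ) (a : ℕ) : wt S z a (a + 1) = S a (z a) (z (a + 1)) := by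
  unfold wt
  rw [Finset.sum_Ico_succ_top le_rfl, Finset.Ico_self, Finset.sum_empty, zero_add]

private theorem pre_step (h : EBdd f S) (s : ℕ) (x y : ℚ) : pre f S s x + S s x y ≤ pre f S (s + 1) y :=
  le_ciSup (h.a s y) x

private theorem pre_wt (h : EBdd f S) (z : ℕ → ℚ) {s t : ℕ} (hst : s ≤ t) :
    pre f S s (z s) + wt S z s t ≤ pre f S t (z t) := by
  induction t, hst using Nat.le_induction with
  | base => rw [wt_self, add_zero]
  | succ t hst ih =>
    have h1 := wt_split S z hst (Nat.le_succ t)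
    rw [Nat.succ_eq_add_one, wt_one] at h1
    have h2 := pre_step h t (z t) (z (t + 1))
    linarith

theorem pre_ge (h : EBdd f S) (z : ℕ → ℚ) (s : ℕ) : f (z 0) + wt S z 0 s ≤ pre f S s (z s) := by
  exact pre_wt h z (Nat.zero_le s)

theorem pre_near (h : EBdd f S) (s : ℕ) (x : ℚ) (ε : ℝ) (hε : 0 < ε) :
    ∃ z : ℕ → ℚ, z s = x ∧ pre f S s x ≤ f (z 0) + wt S z 0 s + ε := by
  induction s generalizing x ε with
  | zero =>
    refine ⟨fun _ => x, rfl, ?_⟩
    rw [wt_self]
    show f x ≤ f x + 0 + ε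
    linarith
  | succ s ih =>
    have h1 : (⨆ i, (pre f S s i + S s i x)) - ε / 2 < ⨆ i, (pre f S s i + S s i x) := by linarith
    obtain ⟨i, hi⟩ := exists_lt_of_lt_ciSup h1
    obtain ⟨z, hz, hz2⟩ := ih i (ε / 2) (by linarith)
    refine ⟨fun l => if l ≤ s then z l else x, if_neg (by omega), ?_⟩
    have e1 : wt S (fun l => if l ≤ s then z l else x) 0 s = wt S z 0 s :=
      wt_congr (fun _ _ _ => rfl) fun l _ hl => if_pos hl
    have e2 := wt_split S (fun l => if l ≤ s then z l else x) (Nat.zero_le s) (Nat.le_succ s)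
    rw [Nat.succ_eq_add_one, wt_one, e1] at e2
    rw [e2]
    have e3 : (if s ≤ s then z s else x) = i := by rw [if_pos le_rfl, hz]
    have e4 : (if s + 1 ≤ s then z (s + 1) else x) = x := if_neg (by omega)
    simp only [e3, e4, Nat.zero_le, if_true]
    have e5 : pre f S (s + 1) x = ⨆ i, (pre f S s i + S s i x) := rfl
    rw [e5]
    linarith

theorem kc_ge (h : EBdd f S) (z : ℕ → ℚ) (s n : ℕ) :
    wt S z s (s + n + 1) ≤ kc n (shf S s) (z s) (z (s + n + 1)) := by
  induction n generalizing s with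
  | zero =>
    rw [kc_zero, Nat.add_zero, wt_one]
  | succ n ih =>
    rw [kc_succ]
    have h1 := le_ciSup (h.c s n (z s) (z (s + (n + 1) + 1))) (z (s + 1))
    have h2 := ih (s + 1)
    have h3 := wt_split S z (Nat.le_succ s) (show s + 1 ≤ s + (n + 1) + 1 by omega)
    rw [Nat.succ_eq_add_one, wt_one] at h3
    have e1 : s + 1 + n + 1 = s + (n + 1) + 1 := by omega
    rw [e1] at h2
    have h1' : S s (z s) (z (s + 1)) + kc n (shf S (s + 1)) (z (s + 1)) (z (s + (n + 1) + 1)) ≤
      kcomp (S s) (kc n (shf S (s + 1))) (z s) (z (s + (n + 1) + 1)) := h1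
    linarith

theorem kc_near (h : EBdd f S) (s n : ℕ) (x y : ℚ) (ε : ℝ) (hε : 0 < ε) :
    ∃ z : ℕ → ℚ, z s = x ∧ z (s + n + 1) = y ∧ kc n (shf S s) x y ≤ wt S z s (s + n + 1) + ε := by
  induction n generalizing s x ε with
  | zero =>
    refine ⟨fun l => if l ≤ s then x else y, if_pos le_rfl, if_neg (by omega), ?_⟩
    rw [kc_zero, Nat.add_zero, wt_one]
    have e1 : (if s ≤ s then x else y) = x := if_pos le_rfl
    have e2 : (if s + 1 ≤ s then x else y) = y := if_neg (by omega)
    simp only [e1, e2]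
    linarith
  | succ n ih =>
    have h1 : (⨆ i, (S s x i + kc n (shf S (s + 1)) i y)) - ε / 2 < ⨆ i, (S s x i + kc n (shf S (s + 1)) i y) := by
      linarith
    obtain ⟨i, hi⟩ := exists_lt_of_lt_ciSup h1
    obtain ⟨z, hz, hz1, hz2⟩ := ih (s + 1) i (ε / 2) (by linarith)
    have e0 : s + 1 + n + 1 = s + (n + 1) + 1 := by omega
    rw [e0] at hz1 hz2
    refine ⟨fun l => if l ≤ s then x else z l, if_pos le_rfl, ?_, ?_⟩
    · show (if s + (n + 1) + 1 ≤ s then x else z (s + (n + 1) + 1)) = y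
      rw [if_neg (by omega), hz1]
    · have e1 : wt S (fun l => if l ≤ s then x else z l) (s + 1) (s + (n + 1) + 1) = wt S z (s + 1) (s + (n + 1) + 1) :=
        wt_congr (fun _ _ _ => rfl) fun l hl _ => if_neg (by omega)
      have e2 := wt_split S (fun l => if l ≤ s then x else z l) (Nat.le_succ s) (show s + 1 ≤ s + (n + 1) + 1 by omega)
      rw [Nat.succ_eq_add_one, wt_one, e1] at e2
      rw [e2]
      have e3 : (if s ≤ s then x else z s) = x := if_pos le_rfl
      have e4 : (if s + 1 ≤ s then x else z (s + 1)) = i := by rw [if_neg (by omega), hz]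
      simp only [e3, e4]
      rw [kc_succ]
      have e5 : kcomp (S s) (kc n (shf S (s + 1))) x y = ⨆ i, (S s x i + kc n (shf S (s + 1)) i y) := rfl
      rw [e5]
      linarith

theorem pre_kc_le (h : EBdd f S) (s n : ℕ) (x y : ℚ) :
    pre f S s x + kc n (shf S s) x y ≤ pre f S (s + n + 1) y := by
  induction n generalizing s x with
  | zero =>
    rw [kc_zero]
    exact pre_step h s x y
  | succ n ih =>
    rw [kc_succ]
    have h1 : kcomp (S s) (kc n (shf S (s + 1))) x y ≤ pre f S (s + (n + 1) + 1) y - pre f S s x := by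
      refine ciSup_le fun z => ?_
      have h2 := ih (s + 1) z
      have e0 : s + 1 + n + 1 = s + (n + 1) + 1 := by omega
      rw [e0] at h2
      have h3 := pre_step h s x z
      linarith
    linarith

private theorem pre_sfx (h : EBdd f S) {K s : ℕ} (hs : s < K) (x : ℚ) : pre f S s x + sfx S K s x ≤ pre f S K 0 := by
  have h1 := pre_kc_le h s (K - 1 - s) x 0
  have e1 : s + (K - 1 - s) + 1 = K := by omega
  rw [e1] at h1
  exact h1

private theorem wt_sfx (h : EBdd f S) {K s : ℕ} (hs : s < K) {z : ℕ → ℚ} (hz : z K = 0) :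
    wt S z s K ≤ sfx S K s (z s) := by
  have h1 := kc_ge h z s (K - 1 - s)
  have e1 : s + (K - 1 - s) + 1 = K := by omega
  rw [e1, hz] at h1
  exact h1

theorem near_exists (h : EBdd f S) (K : ℕ) (ε : ℝ) (hε : 0 < ε) : ∃ z, Near f S K ε z := by
  obtain ⟨z, hz, hz2⟩ := pre_near h K 0 ε hε
  exact ⟨z, hz, hz2⟩

theorem near_at (h : EBdd f S) {K : ℕ} {ε : ℝ} {z : ℕ → ℚ} (hz : Near f S K ε z) (s : ℕ) (hs : s < K) (x : ℚ) :
    pre f S s x + sfx S K s x ≤ pre f S s (z s) + sfx S K s (z s) + ε := by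
  obtain ⟨h1, h2⟩ := hz
  have h3 := pre_sfx h hs x
  have h4 := wt_sfx h hs h1
  have h5 := pre_ge h z s
  have h6 := wt_split S z (Nat.zero_le s) hs.le
  linarith

theorem near_step (h : EBdd f S) {K : ℕ} {ε : ℝ} {z : ℕ → ℚ} (hz : Near f S K ε z) (l : ℕ) (hl : l < K) (x : ℚ) :
    pre f S l x + S l x (z (l + 1)) ≤ pre f S l (z l) + S l (z l) (z (l + 1)) + ε := by
  obtain ⟨h1, h2⟩ := hz
  have h3 := pre_step h l x (z (l + 1))
  have h5 := pre_ge h z l
  have h6 := wt_split S z (Nat.zero_le l) hl.le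
  have h7 := wt_split S z (Nat.le_succ l) hl
  rw [Nat.succ_eq_add_one, wt_one] at h7
  rcases Nat.lt_or_ge (l + 1) K with hc | hc
  · have h8 := pre_sfx h hc (z (l + 1))
    have h4 := wt_sfx h hc h1
    linarith
  · obtain rfl : K = l + 1 := by omega
    rw [wt_self] at h7
    rw [h1] at h3 h7 ⊢
    linarith

/-- a path through the point `x` at the time `s` and the sheets `s, ..., s + n` along `z` -/
theorem pre_through (h : EBdd f S) {K : ℕ} (z : ℕ → ℚ) (s t : ℕ) (hst : s ≤ t) (ht : t < K) :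
    pre f S s (z s) + wt S z s t + sfx S K t (z t) ≤ pre f S K 0 := by
  have h1 := pre_wt h z hst
  have h2 := pre_sfx h ht (z t)
  linarith

/-- upper bound for the weight of a path ending at `0` -/
theorem weight_le (h : EBdd f S) {K : ℕ} (z : ℕ → ℚ) (hz : z K = 0) (s t : ℕ) (hst : s ≤ t) (ht : t < K) :
    f (z 0) + wt S z 0 K ≤ pre f S s (z s) + wt S z s t + sfx S K t (z t) := by
  have h1 := pre_ge h z s
  have h2 := wt_sfx h ht hz
  have h3 := wt_split S z (Nat.zero_le s) (hst.trans ht.le)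
  have h4 := wt_split S z hst ht.le
  linarith

end Pool.Agent.DLM
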