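import Pool.Agent.DLM.SPL
import Pool.Agent.DLM.PRA

/-!
# DLM/PRL: laws of `pre` and `kc` (120-160 lines)

`kc_law`: induction on `n` (for all `dur`): `kc (n+1) S = kcomp (S 0) (kc n (shf S 1))`, by `piM_cons` and the induction hypothesis the pair has the law `ν (dur 0) ⊗ ν (∑ ..)`, then `Base.comp`.
`pre_law`: induction on `s`: `(nrm (pre s), shf S s)` has the law `envM (dur (s + ·)) b = β b ⊗ ν (dur s) ⊗ piM (dur (s+1+·))` (`piM_cons`); `nrm (pre (s+1)) = nrm (act (nrm (pre s)) (S s))` a.s. (`act (g + c) T = act g T + c` if `ABdd g T`: `Base.stat_bdd` for the law `β b ⊗ ν (dur s)`), and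
`Base.stat` (the new data are independent of the remaining sheets).  Case `s = 0`: `nrm f = f` a.s. (`IsBML.zero`).  `pre_kc_law`: apply the measurable map `kc n (shf · j)` to the second component (`piM_shf`, `kc_law`).
`ebdd_ae`: countably many properties: `ABdd (pre s) (S s)` (law `β b ⊗ ν (dur s)`, `stat_bdd`; adding a constant to `pre s` does not matter), `CBdd (S s) (kc n (shf S (s+1)))` (law `ν ⊗ ν`, `comp_bdd`), third: law `β b ⊗ ν (∑ ..)`, `stat_bdd`.
Measurability of `kcomp`, `act`: countable suprema of measurable real functions (`Measurable.iSup`-like lemma for conditionally complete linear orders).  They are also proved in module NUX (`kcomp_meas`, `act_meas`): do not import NUX; here they are called `kcomp_meas'`, `act_meas'`.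
-/

set_option autoImplicit false

open MeasureTheory ProbabilityTheory Filter Topology

namespace Pool.Agent.DLM

variable {ν : ℝ → Measure Kern} {tw : Measure ℝ} {β : ℝ → Measure Ini}

theorem kcomp_meas' : Measurable fun p : Kern × Kern => kcomp p.1 p.2 := by
  refine measurable_pi_iff.2 fun x => measurable_pi_iff.2 fun y => ?_
  show Measurable fun p : Kern × Kern => ⨆ z, (p.1 x z + p.2 z y)
  refine Measurable.iSup fun z => ?_
  fun_prop

theorem act_meas' : Measurable fun p : Ini × Kern => act p.1 p.2 := by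
  refine measurable_pi_iff.2 fun y => ?_
  show Measurable fun p : Ini × Kern => ⨆ x, (p.1 x + p.2 x y)
  refine Measurable.iSup fun x => ?_
  exact ((measurable_pi_apply x).comp measurable_fst).add
    ((measurable_pi_apply y).comp ((measurable_pi_apply x).comp measurable_snd))

theorem nrm_meas : Measurable nrm := by
  refine measurable_pi_iff.2 fun x => ?_
  exact (measurable_pi_apply x).sub (measurable_pi_apply 0)

theorem kc_meas (n : ℕ) : Measurable fun S : ℕ → Kern => kc n S := by
  induction n with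
  | zero => exact measurable_pi_apply 0
  | succ n ih => exact kcomp_meas'.comp ((measurable_pi_apply 0).prodMk (ih.comp (shf_meas 1)))

theorem pre_meas (s : ℕ) : Measurable fun p : Ini × (ℕ → Kern) => pre p.1 p.2 s := by
  induction s with
  | zero => exact measurable_fst
  | succ s ih => exact act_meas'.comp (ih.prodMk ((measurable_pi_apply s).comp measurable_snd))

private theorem shf_shf (S : ℕ → Kern) (s j : ℕ) : shf (shf S s) j = shf S (s + j) := by
  funext l
  show S (s + (j + l)) = S (s + j + l)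
  rw [add_assoc]

private theorem act_sub {f : Ini} {T : Kern} {c : ℝ} (h : ABdd (fun x => f x - c) T) (y : ℚ) :
    act (fun x => f x - c) T y = act f T y - c := by
  have h1 : BddAbove (Set.range fun x => f x + T x y) := by
    obtain ⟨M, hM⟩ := h y
    refine ⟨M + c, ?_⟩
    rintro _ ⟨x, rfl⟩
    have h2 := hM ⟨x, rfl⟩
    simp only at h2 ⊢
    linarith
  unfold act
  rw [ciSup_sub h1]
  congr 1
  funext x
  ring

private theorem abdd_nrm {f : Ini} {T : Kern} : ABdd (nrm f) T ↔ ABdd f T := by
  constructor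
  · intro h y
    obtain ⟨M, hM⟩ := h y
    refine ⟨M + f 0, ?_⟩
    rintro _ ⟨x, rfl⟩
    have h2 := hM ⟨x, rfl⟩
    simp only [nrm] at h2 ⊢
    linarith
  · intro h y
    obtain ⟨M, hM⟩ := h y
    refine ⟨M - f 0, ?_⟩
    rintro _ ⟨x, rfl⟩
    have h2 := hM ⟨x, rfl⟩
    simp only [nrm] at h2 ⊢
    linarith

private theorem nrm_act {f : Ini} {T : Kern} (h : ABdd (nrm f) T) : nrm (act (nrm f) T) = nrm (act f T) := by
  funext y
  have h1 : ∀ y, act (nrm f) T y = act f T y - f 0 := fun y => act_sub (f := f) (c := f 0) h y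
  show act (nrm f) T y - act (nrm f) T 0 = act f T y - act f T 0
  rw [h1, h1]
  ring

private theorem mp_cons (h : Base ν tw β) {dur : ℕ → ℝ} (hd : ∀ l, 0 < dur l) :
    MeasurePreserving (fun S : ℕ → Kern => (S 0, shf S 1)) (piM ν dur)
      ((ν (dur 0)).prod (piM ν (fun l => dur (1 + l)))) :=
  ⟨(measurable_pi_apply 0).prodMk (shf_meas 1), piM_cons h hd⟩

private theorem step_law (h : Base ν tw β) {dur : ℕ → ℝ} (hd : ∀ l, 0 < dur l) (b : ℝ) :
    (envM ν β dur b).map (fun p => (nrm (act p.1 (p.2 0)), shf p.2 1)) =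
      envM ν β (fun l => dur (1 + l)) b := by
  have i1 : IsProbabilityMeasure (β b) := (h.bm b).prob
  have i2 : IsProbabilityMeasure (ν (dur 0)) := h.prob _ (hd 0)
  have i3 : IsProbabilityMeasure (piM ν dur) := piM_prob h hd
  have i4 : IsProbabilityMeasure (piM ν (fun l => dur (1 + l))) := piM_prob h fun l => hd _
  have hB : MeasurePreserving (Prod.map id fun S : ℕ → Kern => (S 0, shf S 1)) ((β b).prod (piM ν dur))
      ((β b).prod ((ν (dur 0)).prod (piM ν (fun l => dur (1 + l))))) :=
    (MeasurePreserving.id _).prod (mp_cons h hd)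
  have hC := (measurePreserving_prodAssoc (β b) (ν (dur 0)) (piM ν (fun l => dur (1 + l)))).symm
  have hD : MeasurePreserving (fun p : Ini × Kern => nrm (act p.1 p.2)) ((β b).prod (ν (dur 0))) (β b) :=
    ⟨nrm_meas.comp act_meas', h.stat b (dur 0) (hd 0)⟩
  have hE : MeasurePreserving (Prod.map (fun p : Ini × Kern => nrm (act p.1 p.2)) id)
      (((β b).prod (ν (dur 0))).prod (piM ν (fun l => dur (1 + l))))
      ((β b).prod (piM ν (fun l => dur (1 + l)))) := hD.prod (MeasurePreserving.id _)
  exact (hE.comp (hC.comp hB)).map_eq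

theorem kc_law (h : Base ν tw β) {dur : ℕ → ℝ} (hd : ∀ l, 0 < dur l) (n : ℕ) :
    (piM ν dur).map (fun S => kc n S) = ν (∑ l ∈ Finset.range (n + 1), dur l) := by
  induction n generalizing dur with
  | zero =>
    rw [Finset.sum_range_one]
    exact piM_eval h hd 0
  | succ n ih =>
    have i2 : IsProbabilityMeasure (ν (dur 0)) := h.prob _ (hd 0)
    have i4 : IsProbabilityMeasure (piM ν (fun l => dur (1 + l))) := piM_prob h fun l => hd _
    have h0 : 0 < ∑ l ∈ Finset.range (n + 1), dur (1 + l) :=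
      Finset.sum_pos (fun l _ => hd _) ⟨0, Finset.mem_range.2 (Nat.succ_pos n)⟩
    have hA : MeasurePreserving (fun S : ℕ → Kern => kc n S) (piM ν (fun l => dur (1 + l)))
        (ν (∑ l ∈ Finset.range (n + 1), dur (1 + l))) :=
      ⟨kc_meas n, ih (dur := fun l => dur (1 + l)) fun l => hd _⟩
    have i5 : IsProbabilityMeasure (ν (∑ l ∈ Finset.range (n + 1), dur (1 + l))) := h.prob _ h0
    have hB : MeasurePreserving (Prod.map id fun S : ℕ → Kern => kc n S)
        ((ν (dur 0)).prod (piM ν (fun l => dur (1 + l))))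
        ((ν (dur 0)).prod (ν (∑ l ∈ Finset.range (n + 1), dur (1 + l)))) :=
      (MeasurePreserving.id _).prod hA
    have hC : MeasurePreserving (fun p : Kern × Kern => kcomp p.1 p.2)
        ((ν (dur 0)).prod (ν (∑ l ∈ Finset.range (n + 1), dur (1 + l))))
        (ν (dur 0 + ∑ l ∈ Finset.range (n + 1), dur (1 + l))) :=
      ⟨kcomp_meas', h.comp _ _ (hd 0) h0⟩
    have h1 := (hC.comp (hB.comp (mp_cons h hd))).map_eq
    have h2 : ∑ l ∈ Finset.range (n + 1 + 1), dur l =
        dur 0 + ∑ l ∈ Finset.range (n + 1), dur (1 + l) := by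
      rw [Finset.sum_range_succ', add_comm]
      congr 1
      exact Finset.sum_congr rfl fun l _ => by rw [add_comm]
    rw [h2]
    exact h1

theorem pre_law (h : Base ν tw β) {dur : ℕ → ℝ} (hd : ∀ l, 0 < dur l) (b : ℝ) (s : ℕ) :
    (envM ν β dur b).map (fun p => (nrm (pre p.1 p.2 s), shf p.2 s)) = envM ν β (fun l => dur (s + l)) b := by
  induction s with
  | zero =>
    have i1 : IsProbabilityMeasure (envM ν β dur b) := envM_prob h hd b
    have h1 : (fun p : Ini × (ℕ → Kern) => (nrm (pre p.1 p.2 0), shf p.2 0)) =ᵐ[envM ν β dur b] id := by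
      have i2 : IsProbabilityMeasure (β b) := (h.bm b).prob
      have i3 : IsProbabilityMeasure (piM ν dur) := piM_prob h hd
      have h2 : ∀ᵐ p ∂(envM ν β dur b), p.1 0 = 0 :=
        (Measure.quasiMeasurePreserving_fst (μ := β b) (ν := piM ν dur)).ae (h.bm b).zero
      filter_upwards [h2] with p hp
      refine Prod.ext ?_ ?_
      · funext x
        show p.1 x - p.1 0 = p.1 x
        rw [hp, sub_zero]
      · funext l
        show p.2 (0 + l) = p.2 l
        rw [zero_add]
    rw [Measure.map_congr h1, Measure.map_id]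
    congr 1
    funext l
    rw [zero_add]
  | succ s ih =>
    have hd' : ∀ l, 0 < dur (s + l) := fun l => hd _
    have i1 : IsProbabilityMeasure (β b) := (h.bm b).prob
    have hms : Measurable fun p : Ini × (ℕ → Kern) => (nrm (pre p.1 p.2 s), shf p.2 s) :=
      (nrm_meas.comp (pre_meas s)).prodMk ((shf_meas s).comp measurable_snd)
    have hmΦ : Measurable fun p : Ini × (ℕ → Kern) => (nrm (act p.1 (p.2 0)), shf p.2 1) :=
      (nrm_meas.comp (act_meas'.comp (measurable_fst.prodMk
        ((measurable_pi_apply 0).comp measurable_snd)))).prodMk ((shf_meas 1).comp measurable_snd)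
    have hb : ∀ᵐ p ∂(envM ν β dur b), ABdd (nrm (pre p.1 p.2 s)) (p.2 s) := by
      have i3 : IsProbabilityMeasure (piM ν fun l => dur (s + l)) := piM_prob h hd'
      have i4 : IsProbabilityMeasure (ν (dur (s + 0))) := h.prob _ (hd' 0)
      have hev : MeasurePreserving (fun S : ℕ → Kern => S 0) (piM ν fun l => dur (s + l))
          (ν (dur (s + 0))) := ⟨measurable_pi_apply 0, piM_eval h hd' 0⟩
      have h3 := ((MeasurePreserving.id (β b)).prod hev).quasiMeasurePreserving.ae
        (h.stat_bdd b _ (hd' 0))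
      have h4 : ∀ᵐ q ∂((envM ν β dur b).map fun p => (nrm (pre p.1 p.2 s), shf p.2 s)),
          ABdd q.1 (q.2 0) := by
        rw [ih]
        exact h3
      exact ae_of_ae_map hms.aemeasurable h4
    have h1 : (fun p : Ini × (ℕ → Kern) => (nrm (pre p.1 p.2 (s + 1)), shf p.2 (s + 1))) =ᵐ[envM ν β dur b]
        (fun p : Ini × (ℕ → Kern) => (nrm (act p.1 (p.2 0)), shf p.2 1)) ∘
          fun p => (nrm (pre p.1 p.2 s), shf p.2 s) := by
      filter_upwards [hb] with p hp
      refine Prod.ext ?_ ?_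
      · exact (nrm_act hp).symm
      · exact (shf_shf p.2 s 1).symm
    rw [Measure.map_congr h1, ← Measure.map_map hmΦ hms, ih, step_law h hd' b]
    congr 1
    funext l
    rw [← add_assoc]

theorem pre_kc_law (h : Base ν tw β) {dur : ℕ → ℝ} (hd : ∀ l, 0 < dur l) (b : ℝ) (s j n : ℕ) :
    (envM ν β dur b).map (fun p => (nrm (pre p.1 p.2 s), kc n (shf p.2 (s + j)))) =
      (β b).prod (ν (∑ l ∈ Finset.range (n + 1), dur (s + j + l))) := by
  have hd' : ∀ l, 0 < dur (s + l) := fun l => hd _
  have i1 : IsProbabilityMeasure (β b) := (h.bm b).prob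
  have i3 : IsProbabilityMeasure (piM ν fun l => dur (s + l)) := piM_prob h hd'
  have i4 : IsProbabilityMeasure (piM ν fun l => dur (s + (j + l))) := piM_prob h fun l => hd _
  have hms : Measurable fun p : Ini × (ℕ → Kern) => (nrm (pre p.1 p.2 s), shf p.2 s) :=
    (nrm_meas.comp (pre_meas s)).prodMk ((shf_meas s).comp measurable_snd)
  have hA : MeasurePreserving (fun S : ℕ → Kern => shf S j) (piM ν fun l => dur (s + l))
      (piM ν fun l => dur (s + (j + l))) := ⟨shf_meas j, piM_shf h hd' j⟩
  have hB : MeasurePreserving (fun S : ℕ → Kern => kc n S) (piM ν fun l => dur (s + (j + l)))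
      (ν (∑ l ∈ Finset.range (n + 1), dur (s + (j + l)))) :=
    ⟨kc_meas n, kc_law (dur := fun l => dur (s + (j + l))) h (fun l => hd _) n⟩
  have h0 : 0 < ∑ l ∈ Finset.range (n + 1), dur (s + (j + l)) :=
    Finset.sum_pos (fun l _ => hd _) ⟨0, Finset.mem_range.2 (Nat.succ_pos n)⟩
  have i5 : IsProbabilityMeasure (ν (∑ l ∈ Finset.range (n + 1), dur (s + (j + l)))) := h.prob _ h0
  have hC : MeasurePreserving (Prod.map id fun S : ℕ → Kern => kc n (shf S j))
      ((β b).prod (piM ν fun l => dur (s + l)))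
      ((β b).prod (ν (∑ l ∈ Finset.range (n + 1), dur (s + (j + l))))) :=
    (MeasurePreserving.id _).prod (hB.comp hA)
  have h1 : (fun p : Ini × (ℕ → Kern) => (nrm (pre p.1 p.2 s), kc n (shf p.2 (s + j)))) =
      (Prod.map id fun S : ℕ → Kern => kc n (shf S j)) ∘
        fun p => (nrm (pre p.1 p.2 s), shf p.2 s) := by
    funext p
    simp only [Function.comp, Prod.map, id, shf_shf]
  rw [h1, ← Measure.map_map hC.measurable hms, pre_law h hd b s]
  have h2 := hC.map_eq
  have h3 : ∑ l ∈ Finset.range (n + 1), dur (s + (j + l)) = ∑ l ∈ Finset.range (n + 1), dur (s + j + l) :=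
    Finset.sum_congr rfl fun l _ => by rw [add_assoc]
  rw [← h3]
  exact h2

theorem ebdd_ae (h : Base ν tw β) {dur : ℕ → ℝ} (hd : ∀ l, 0 < dur l) (b : ℝ) :
    ∀ᵐ p ∂(envM ν β dur b), EBdd p.1 p.2 := by
  have i1 : IsProbabilityMeasure (β b) := (h.bm b).prob
  have i2 : IsProbabilityMeasure (piM ν dur) := piM_prob h hd
  have hP : ∀ s n, ∀ᵐ p ∂(envM ν β dur b), ABdd (pre p.1 p.2 s) (kc n (shf p.2 s)) := by
    intro s n
    have hm : Measurable fun p : Ini × (ℕ → Kern) => (nrm (pre p.1 p.2 s), kc n (shf p.2 (s + 0))) :=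
      (nrm_meas.comp (pre_meas s)).prodMk ((kc_meas n).comp ((shf_meas (s + 0)).comp measurable_snd))
    have h0 : 0 < ∑ l ∈ Finset.range (n + 1), dur (s + 0 + l) :=
      Finset.sum_pos (fun l _ => hd _) ⟨0, Finset.mem_range.2 (Nat.succ_pos n)⟩
    have h1 : ∀ᵐ q ∂((envM ν β dur b).map
        fun p => (nrm (pre p.1 p.2 s), kc n (shf p.2 (s + 0)))), ABdd q.1 q.2 := by
      rw [pre_kc_law h hd b s 0 n]
      exact h.stat_bdd b _ h0
    have h2 := ae_of_ae_map hm.aemeasurable h1
    filter_upwards [h2] with p hp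
    exact abdd_nrm.1 hp
  have hC : ∀ s n, ∀ᵐ p ∂(envM ν β dur b), CBdd (p.2 s) (kc n (shf p.2 (s + 1))) := by
    intro s n
    have i4 : IsProbabilityMeasure (ν (dur (s + 0))) := h.prob _ (hd _)
    have i3 : IsProbabilityMeasure (piM ν fun l => dur (s + l)) := piM_prob h fun l => hd _
    have i5 : IsProbabilityMeasure (piM ν fun l => dur (s + (1 + l))) := piM_prob h fun l => hd _
    have h0 : 0 < ∑ l ∈ Finset.range (n + 1), dur (s + (1 + l)) :=
      Finset.sum_pos (fun l _ => hd _) ⟨0, Finset.mem_range.2 (Nat.succ_pos n)⟩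
    have i6 : IsProbabilityMeasure (ν (∑ l ∈ Finset.range (n + 1), dur (s + (1 + l)))) := h.prob _ h0
    have hA : MeasurePreserving (fun S : ℕ → Kern => shf S s) (piM ν dur)
        (piM ν fun l => dur (s + l)) := ⟨shf_meas s, piM_shf h hd s⟩
    have hB := mp_cons h (dur := fun l => dur (s + l)) fun l => hd _
    have hK : MeasurePreserving (fun S : ℕ → Kern => kc n S) (piM ν fun l => dur (s + (1 + l)))
        (ν (∑ l ∈ Finset.range (n + 1), dur (s + (1 + l)))) :=
      ⟨kc_meas n, kc_law (dur := fun l => dur (s + (1 + l))) h (fun l => hd _) n⟩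
    have hD := (MeasurePreserving.id (ν (dur (s + 0)))).prod hK
    have hE := hD.comp (hB.comp hA)
    have hF := hE.quasiMeasurePreserving.ae (h.comp_bdd _ _ (hd (s + 0)) h0)
    have hG := (Measure.quasiMeasurePreserving_snd (μ := β b) (ν := piM ν dur)).ae hF
    filter_upwards [hG] with p hp
    have h3 : shf (shf p.2 s) 1 = shf p.2 (s + 1) := shf_shf p.2 s 1
    have h4 : CBdd (shf p.2 s 0) (kc n (shf (shf p.2 s) 1)) := hp
    rw [h3] at h4
    exact h4
  have h1 : ∀ᵐ p ∂(envM ν β dur b), ∀ s n, ABdd (pre p.1 p.2 s) (kc n (shf p.2 s)) :=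
    ae_all_iff.2 fun s => ae_all_iff.2 fun n => hP s n
  have h2 : ∀ᵐ p ∂(envM ν β dur b), ∀ s n, CBdd (p.2 s) (kc n (shf p.2 (s + 1))) :=
    ae_all_iff.2 fun s => ae_all_iff.2 fun n => hC s n
  filter_upwards [h1, h2] with p hp1 hp2
  exact ⟨fun s => hp1 s 0, hp2, fun s n y => hp1 s n y⟩

end Pool.Agent.DLM
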