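import Pool.Agent.DLM.DUR
import Pool.Agent.DLM.PRL
import Pool.Agent.DLM.CNP
import Pool.Agent.DLM.MDP
import Pool.Agent.DLM.PEP
import Pool.Agent.DLM.NTP
import Pool.Agent.DLM.CHP

/-!
# DLM/REG: the environment is regular around a block (100-140 lines)

`Conf`, `Modu`, `NoTie` do not change if `pre f S s` is replaced by `nrm (pre f S s)`.  `b = bW k i`, `K = KW w k`, `dur = durW w k`.  Laws: `pre_kc_law` with `j = 0`, `n = K - 1 - s`, `θ = ∑ ∈ [1, 4]` (`durW_tail`): `Conf` for `s ∈ [b-3, b+k]`: `(k + 4)/w^10`; `Modu`: `nrm (pre l)` has the law `β b` (marginal): `k/w^10`; `PEst`: `S l ~ ν (1/w^300)`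
(`durW_blk`, `piM_eval`): `k/w^10`; `NoTie` for the four times `s ∈ [b-3, b]`: `ρ` = law of `x ↦ S x 0`, `4/w^5`; `Chain3`: `shf S (b-3) ~ piM (dur (b - 3 + ·))` (`piM_shf`, `durW_gap`): `1/w^10`; `EBdd` a.s. (`ebdd_ae`).  Total `≤ 1/w^3` for `w` large (`k ≤ w`).
-/

set_option autoImplicit false

open MeasureTheory ProbabilityTheory Filter Topology

namespace Pool.Agent.DLM

variable {ν : ℝ → Measure Kern} {tw : Measure ℝ} {β : ℝ → Measure Ini}

private theorem REG_conf {w : ℕ} {F g : Ini} (h : Conf w (nrm F) g) : Conf w F g := by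
  intro x hx
  have h1 := h x hx
  simp only [nrm] at h1
  linarith

private theorem REG_modu {w : ℕ} {F : Ini} (h : Modu w (nrm F)) : Modu w F := by
  intro x y hx hy
  have h1 := h x y hx hy
  simp only [nrm, sub_sub_sub_cancel_right] at h1
  exact h1

private theorem REG_tie {w : ℕ} {F g : Ini} (h : NoTie w (nrm F) g) : NoTie w F g := by
  intro y y' hy hy' h1 h2
  refine h y y' hy hy' (fun x hx => ?_) (fun x hx => ?_)
  · have h3 := h1 x hx
    simp only [nrm]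
    linarith
  · have h3 := h2 x hx
    simp only [nrm]
    linarith

private theorem REG_law (h : Base ν tw β) {dur : ℕ → ℝ} (hd : ∀ l, 0 < dur l) (b : ℝ) (s n : ℕ)
    (A : Set (Ini × Kern)) :
    envM ν β dur b {p | (nrm (pre p.1 p.2 s), kc n (shf p.2 s)) ∈ A} ≤
      ((β b).prod (ν (∑ l ∈ Finset.range (n + 1), dur (s + l)))) A := by
  have hm : Measurable fun p : Ini × (ℕ → Kern) => (nrm (pre p.1 p.2 s), kc n (shf p.2 s)) :=
    (nrm_meas.comp (pre_meas s)).prodMk ((kc_meas n).comp ((shf_meas s).comp measurable_snd))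
  have h1 := pre_kc_law h hd b s 0 n
  simp only [add_zero] at h1
  rw [← h1]
  exact Measure.le_map_apply hm.aemeasurable A

private theorem REG_union {α : Type*} [MeasurableSpace α] (μ : Measure α) (F : Finset ℕ) (E : ℕ → Set α) (c : ℝ)
    (N : ℕ) (hc : 0 ≤ c) (hN : F.card ≤ N) (hE : ∀ s ∈ F, μ (E s) ≤ ENNReal.ofReal c) :
    μ (⋃ s ∈ F, E s) ≤ ENNReal.ofReal (N * c) := by
  refine (measure_biUnion_finset_le F E).trans ((Finset.sum_le_card_nsmul F _ _ hE).trans ?_)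
  rw [← ENNReal.ofReal_nsmul, nsmul_eq_mul]
  refine ENNReal.ofReal_le_ofReal (mul_le_mul_of_nonneg_right ?_ hc)
  exact_mod_cast hN

private theorem REG_snd (h : Base ν tw β) {dur : ℕ → ℝ} (hd : ∀ l, 0 < dur l) (b : ℝ) (A : Set (ℕ → Kern)) :
    envM ν β dur b {p | p.2 ∈ A} = piM ν dur A := by
  haveI := (h.bm b).prob
  haveI := piM_prob h hd
  have h1 : {p : Ini × (ℕ → Kern) | p.2 ∈ A} = Set.univ ×ˢ A := by
    ext p
    simp
  rw [h1, envM, Measure.prod_prod, measure_univ, one_mul]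

private theorem REG_num {w : ℕ} (hw : 4 ≤ w) {k : ℕ} (hk : k ≤ w) :
    ((k + 4 : ℕ) : ℝ) * (1 / (w : ℝ) ^ 10) + ((k : ℕ) * (1 / (w : ℝ) ^ 10) + ((k : ℕ) * (1 / (w : ℝ) ^ 10) +
      (((4 : ℕ) : ℝ) * (1 / (w : ℝ) ^ 5) + 1 / (w : ℝ) ^ 10))) ≤ 1 / (w : ℝ) ^ 3 := by
  have hw4 : (4 : ℝ) ≤ w := by exact_mod_cast hw
  have hkw : (k : ℝ) ≤ w := by exact_mod_cast hk
  have hw0 : (0 : ℝ) < w := by linarith
  have e1 : 1 / (w : ℝ) ^ 10 = 1 / (w : ℝ) ^ 3 * (1 / (w : ℝ) ^ 7) := by field_simp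
  have e2 : 1 / (w : ℝ) ^ 5 = 1 / (w : ℝ) ^ 3 * (1 / (w : ℝ) ^ 2) := by field_simp
  have e3 : (0 : ℝ) < 1 / (w : ℝ) ^ 3 := by positivity
  have e4 : (1 : ℝ) / (w : ℝ) ^ 7 ≤ 1 / (256 * (w : ℝ) * 4 ^ 2) := by
    refine one_div_le_one_div_of_le (by positivity) ?_
    have h1 : (4 : ℝ) ^ 6 ≤ (w : ℝ) ^ 6 := pow_le_pow_left₀ (by norm_num) hw4 6
    nlinarith
  have e5 : (1 : ℝ) / (w : ℝ) ^ 2 ≤ 1 / 4 ^ 2 :=
    one_div_le_one_div_of_le (by positivity) (pow_le_pow_left₀ (by norm_num) hw4 2)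
  have e6 : (1 : ℝ) / (256 * (w : ℝ) * 4 ^ 2) * w = 1 / 4096 := by
    field_simp
    norm_num
  have e7 : (0 : ℝ) < 1 / (w : ℝ) ^ 7 := by positivity
  have e8 : (3 * (k : ℝ) + 5) * (1 / (w : ℝ) ^ 7) ≤ 1 / 2 := by
    have h1 : (3 * (k : ℝ) + 5) ≤ 5 * w := by linarith
    calc (3 * (k : ℝ) + 5) * (1 / (w : ℝ) ^ 7) ≤ (5 * w) * (1 / (256 * (w : ℝ) * 4 ^ 2)) := by
          refine mul_le_mul h1 e4 e7.le (by positivity)
      _ = 5 * (1 / (256 * (w : ℝ) * 4 ^ 2) * w) := by ring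
      _ ≤ 1 / 2 := by rw [e6]; norm_num
  rw [e1, e2]
  push_cast
  nlinarith

theorem reg_prob (h : Base ν tw β) : ∀ᶠ w : ℕ in atTop, ∀ k : ℕ, k ≤ w → ∀ i < w ^ 2, ∀ b : ℝ, |b| ≤ 1 →
    envM ν β (durW w k) b {p | ¬ Reg w k (bW k i) (KW w k) p.1 p.2} ≤ ENNReal.ofReal (1 / (w : ℝ) ^ 3) := by
  filter_upwards [conf_prob h, modu_prob h, pest_prob h, notie_prob h, chain_prob h, eventually_ge_atTop 4]
    with w hconf hmodu hpest htie hchain hw k hk i hi b hb
  have hw1 : 1 ≤ w := by omega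
  have hd : ∀ l, 0 < durW w k l := fun l => durW_pos w k l hw1
  have hB4 : 4 ≤ bW k i := Nat.le_add_left 4 _
  have hBK : bW k i + k < KW w k := bW_lt w k i hi
  haveI := (h.bm b).prob
  haveI := piM_prob h hd
  set B := bW k i with hBdef
  set K := KW w k with hKdef
  set μ := envM ν β (durW w k) b with hμ
  -- events
  have c0 : μ {p | ¬ EBdd p.1 p.2} = 0 := ebdd_ae h hd b
  have c1 : ∀ s ∈ Finset.Icc (B - 3) (B + k), μ {p | ¬ Conf w (pre p.1 p.2 s) (sfx p.2 K s)} ≤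
      ENNReal.ofReal (1 / (w : ℝ) ^ 10) := by
    intro s hs
    rw [Finset.mem_Icc] at hs
    have hsK : s < K := by omega
    obtain ⟨t1, t2⟩ := durW_tail w k s hw1 hk hsK
    refine le_trans (le_trans (measure_mono ?_) (REG_law h hd b s (K - 1 - s)
      {q | ¬ Conf w q.1 (fun x => q.2 x 0)})) (hconf b _ hb t1 t2)
    intro p hp hp'
    exact hp (REG_conf hp')
  have c2 : ∀ l ∈ Finset.Ico B (B + k), μ {p | ¬ Modu w (pre p.1 p.2 l)} ≤ ENNReal.ofReal (1 / (w : ℝ) ^ 10) := by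
    intro l hl
    rw [Finset.mem_Ico] at hl
    have hlK : l < K := by omega
    obtain ⟨t1, -⟩ := durW_tail w k l hw1 hk hlK
    haveI := h.prob _ (lt_of_lt_of_le one_pos t1)
    refine le_trans (le_trans (measure_mono ?_) (REG_law h hd b l (K - 1 - l) {q | ¬ Modu w q.1})) ?_
    · intro p hp hp'
      exact hp (REG_modu hp')
    · have h1 : {q : Ini × Kern | ¬ Modu w q.1} = {f | ¬ Modu w f} ×ˢ Set.univ := by
        ext p
        simp
      rw [h1, Measure.prod_prod, measure_univ, mul_one]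
      exact hmodu b hb
  have c3 : ∀ l ∈ Finset.Ico B (B + k), μ {p | ¬ PEst w (p.2 l)} ≤ ENNReal.ofReal (1 / (w : ℝ) ^ 10) := by
    intro l hl
    rw [Finset.mem_Ico] at hl
    have h1 : μ {p | ¬ PEst w (p.2 l)} = piM ν (durW w k) {S | ¬ PEst w (S l)} :=
      REG_snd h hd b {S | ¬ PEst w (S l)}
    rw [h1]
    have h2 : durW w k l = 1 / (w : ℝ) ^ 300 := by
      have h3 := durW_blk w k i (l - B) hi (by omega)
      rwa [← hBdef, Nat.add_sub_cancel' hl.1] at h3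
    refine le_trans ?_ hpest
    rw [← h2, ← piM_eval h hd l]
    exact Measure.le_map_apply (show Measurable fun S : ℕ → Kern => S l from measurable_pi_apply l).aemeasurable
      {S | ¬ PEst w S}
  have c4 : ∀ s ∈ Finset.Icc (B - 3) B, μ {p | ¬ NoTie w (pre p.1 p.2 s) (sfx p.2 K s)} ≤
      ENNReal.ofReal (1 / (w : ℝ) ^ 5) := by
    intro s hs
    rw [Finset.mem_Icc] at hs
    have hsK : s < K := by omega
    obtain ⟨t1, -⟩ := durW_tail w k s hw1 hk hsK
    haveI := h.prob _ (lt_of_lt_of_le one_pos t1)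
    have hm : Measurable fun (T : Kern) (x : ℚ) => T x 0 :=
      measurable_pi_iff.2 fun x => (measurable_pi_apply 0).comp (measurable_pi_apply x)
    haveI := Measure.isProbabilityMeasure_map (μ := ν (∑ l ∈ Finset.range (K - 1 - s + 1), durW w k (s + l)))
      hm.aemeasurable
    refine le_trans (le_trans (measure_mono ?_) (REG_law h hd b s (K - 1 - s)
      {q | ¬ NoTie w q.1 (fun x => q.2 x 0)})) (le_trans ?_ (htie b _ this))
    · intro p hp hp'
      exact hp (REG_tie hp')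
    · have h1 : ((β b).prod (ν (∑ l ∈ Finset.range (K - 1 - s + 1), durW w k (s + l)))).map
          (Prod.map id fun (T : Kern) (x : ℚ) => T x 0) =
          (β b).prod ((ν (∑ l ∈ Finset.range (K - 1 - s + 1), durW w k (s + l))).map
            fun (T : Kern) (x : ℚ) => T x 0) := by
        rw [← Measure.map_prod_map _ _ measurable_id hm, Measure.map_id]
      rw [← h1]
      exact Measure.le_map_apply (measurable_id.prodMap hm).aemeasurable {p | ¬ NoTie w p.1 p.2}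
  have c5 : μ {p | ¬ Chain3 w (shf p.2 (B - 3))} ≤ ENNReal.ofReal (1 / (w : ℝ) ^ 10) := by
    have h1 : μ {p | ¬ Chain3 w (shf p.2 (B - 3))} = piM ν (durW w k) {S | ¬ Chain3 w (shf S (B - 3))} :=
      REG_snd h hd b {S | ¬ Chain3 w (shf S (B - 3))}
    rw [h1]
    refine le_trans ?_ (hchain (fun l => durW w k (B - 3 + l)) (fun l => hd _)
      (fun r hr => durW_gap w k i r hi hr))
    rw [← piM_shf h hd (B - 3)]
    exact Measure.le_map_apply (shf_meas (B - 3)).aemeasurable {T | ¬ Chain3 w T}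
  have hsub : {p : Ini × (ℕ → Kern) | ¬ Reg w k B K p.1 p.2} ⊆ {p | ¬ EBdd p.1 p.2} ∪
      ((⋃ s ∈ Finset.Icc (B - 3) (B + k), {p | ¬ Conf w (pre p.1 p.2 s) (sfx p.2 K s)}) ∪
      ((⋃ l ∈ Finset.Ico B (B + k), {p | ¬ Modu w (pre p.1 p.2 l)}) ∪
      ((⋃ l ∈ Finset.Ico B (B + k), {p | ¬ PEst w (p.2 l)}) ∪
      ((⋃ s ∈ Finset.Icc (B - 3) B, {p | ¬ NoTie w (pre p.1 p.2 s) (sfx p.2 K s)}) ∪
      {p | ¬ Chain3 w (shf p.2 (B - 3))})))) := by
    intro p hp
    by_contra hcon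
    simp only [Set.mem_union, Set.mem_iUnion, Finset.mem_Icc, Finset.mem_Ico, Set.mem_ofPred_eq, not_or,
      not_exists, not_not] at hcon
    obtain ⟨d0, d1, d2, d3, d4, d5⟩ := hcon
    exact hp ⟨d0, fun s h1 h2 => d1 s ⟨by omega, h2⟩, fun l h1 h2 => d2 l ⟨h1, h2⟩, fun l h1 h2 => d3 l ⟨h1, h2⟩,
      fun s h1 h2 => d4 s ⟨by omega, h2⟩, d5⟩
  have hp10 : (0 : ℝ) ≤ 1 / (w : ℝ) ^ 10 := by positivity
  have hp5 : (0 : ℝ) ≤ 1 / (w : ℝ) ^ 5 := by positivity
  refine (measure_mono hsub).trans ((measure_union_le _ _).trans ?_)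
  rw [c0, zero_add]
  refine le_trans (measure_union_le _ _) (le_trans (add_le_add
    (REG_union μ _ _ _ (k + 4) hp10 (by simp only [Nat.card_Icc]; omega) c1) (le_trans (measure_union_le _ _)
    (add_le_add (REG_union μ _ _ _ k hp10 (by simp only [Nat.card_Ico]; omega) c2)
    (le_trans (measure_union_le _ _) (add_le_add (REG_union μ _ _ _ k hp10 (by simp only [Nat.card_Ico]; omega) c3)
    (le_trans (measure_union_le _ _) (add_le_add
      (REG_union μ _ _ _ 4 hp5 (by simp only [Nat.card_Icc]; omega) c4) c5)))))))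
    ?_)
  rw [← ENNReal.ofReal_add (by positivity) (by positivity), ← ENNReal.ofReal_add (by positivity) (by positivity),
    ← ENNReal.ofReal_add (by positivity) (by positivity), ← ENNReal.ofReal_add (by positivity) (by positivity)]
  exact ENNReal.ofReal_le_ofReal (REG_num hw hk)

end Pool.Agent.DLM
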