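import Pool.Agent.DLM.DSP

/-!
# DLM/STB: stability of near optimal paths when a block is replaced (120-160 lines, deterministic)

`m = w^100`, `E = w`.  `det2`: `x'` is `1/m`-near for `(f, S')`.  In the block `|x' l - x' (l+1)| m^2 ≤ 4 E` (`disp_le` for `S'`) and `|x' l| ≤ w`, so by `PEst` for `S l` and `S' l`: `|S l - S' l| ≤ 2 (E/m)(1 + 4E) ≤ 10 E^2/m` at the points of `x'`; the weights of `x'` in the two environments differ by at most `10 k E^2/m`
(`wt_split` in three parts, outside of the block the sheets agree).  The same for a `1/m`-near path `x*` of `(f, S)` (`near_exists`, `disp_le` for `S`).  So `pre f S K 0 ≤ W(x*) + 1/m ≤ W'(x*) + 10kE^2/m + 1/m ≤ pre f S' K 0 + .. ≤ W'(x') + 10 k E^2/m + 2/m ≤ W(x') + 20 k E^2/m + 2/m`, and `20 k E^2 + 2 ≤ 22 w^3` (`k ≤ w`).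
`hyb`: `z l = if l ≤ s then y l else x' l`, `zt l = if l ≤ s then x' l else y l`: `W'(z) + W(zt) ≥ W(y) + W'(x') - η` (only the sheet `s`, which is the same for `S` and `S'`, contributes the defect; the sheets `< s` are the same, the sheets `> s` are `S'` along `x'` and `S` along `y`), `W(zt) ≤ pre f S K 0 ≤ W(y) + ε₁` (`pre_ge`).
`stab`: `y` is near for `S`, `x'` a `1/m`-near path for `S'` (`near_exists`); by `det2` and `conf_near` both are in `[-w, w]` at the times `b - 3, .., b` and by `Reg.tie` at distance `< w^20/w^200`; `Reg.chain` gives the gap `s = b - 3 + r`; `hyb` with `ε₁ = η = η' = 1/m`.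
-/

set_option autoImplicit false

open MeasureTheory ProbabilityTheory Filter Topology

namespace Pool.Agent.DLM

variable {f : Ini} {S S' : ℕ → Kern}

private theorem blk_diff {w k b K : ℕ} (hw : 1 ≤ w) (hk : k ≤ w) (hK : b + k < K) {T : ℕ → Kern}
    (hr : Reg w k b K f T) (hp : ∀ l, b ≤ l → l < b + k → PEst w (S l)) (hp' : ∀ l, b ≤ l → l < b + k → PEst w (S' l))
    (hS : ∀ l, ¬ (b ≤ l ∧ l < b + k) → S l = S' l) {z : ℕ → ℚ} (hz : Near f T K (1 / (w : ℝ) ^ 100) z) :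
    |wt S z 0 K - wt S' z 0 K| ≤ 10 * (w : ℝ) ^ 3 / w ^ 100 := by
  have hw1 : (1 : ℝ) ≤ w := by exact_mod_cast hw
  have hw0 : (0 : ℝ) < w := by linarith
  have hmp : (1 : ℝ) ≤ (w : ℝ) ^ 100 := one_le_pow₀ hw1
  have hm0 : (0 : ℝ) < (w : ℝ) ^ 100 := by linarith
  have hε : 1 / (w : ℝ) ^ 100 ≤ 2 := by
    rw [div_le_iff₀ hm0]
    linarith
  have e1 := wt_split S z (Nat.zero_le b) (show b ≤ K by omega)
  have e2 := wt_split S z (show b ≤ b + k by omega) hK.le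
  have e1' := wt_split S' z (Nat.zero_le b) (show b ≤ K by omega)
  have e2' := wt_split S' z (show b ≤ b + k by omega) hK.le
  have e3 : wt S z 0 b = wt S' z 0 b := wt_congr (fun l _ hl => hS l (by omega)) fun _ _ _ => rfl
  have e4 : wt S z (b + k) K = wt S' z (b + k) K := wt_congr (fun l hl _ => hS l (by omega)) fun _ _ _ => rfl
  have e5 : wt S z 0 K - wt S' z 0 K = ∑ l ∈ Finset.Ico b (b + k), (S l (z l) (z (l + 1)) - S' l (z l) (z (l + 1))) := by
    rw [Finset.sum_sub_distrib]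
    show _ = wt S z b (b + k) - wt S' z b (b + k)
    linarith
  rw [e5]
  have e6 : ∀ l ∈ Finset.Ico b (b + k), |S l (z l) (z (l + 1)) - S' l (z l) (z (l + 1))| ≤ 10 * (w : ℝ) ^ 2 / w ^ 100 := by
    intro l hl
    obtain ⟨h1, h2⟩ := Finset.mem_Ico.1 hl
    have c1 := hr.conf l (by omega) (by omega)
    have c2 := hr.conf (l + 1) (by omega) (by omega)
    have a1 := conf_near hr.bdd (show l < K by omega) c1 hε hz
    have a2 := conf_near hr.bdd (show l + 1 < K by omega) c2 hε hz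
    have d1 := disp_le hr.bdd hw (show l + 1 < K by omega) c1 c2 (hr.modu l h1 h2) (hr.pest l h1 h2) hz
    have p1 := abs_le.1 (hp l h1 h2 (z l) (z (l + 1)) a1 a2)
    have p2 := abs_le.1 (hp' l h1 h2 (z l) (z (l + 1)) a1 a2)
    have q1 : (w : ℝ) / w ^ 100 * (1 + |(z l : ℝ) - z (l + 1)| * w ^ 200) ≤ (w : ℝ) / w ^ 100 * (1 + 4 * w) :=
      mul_le_mul_of_nonneg_left (by linarith) (by positivity)
    have q2 : 2 * ((w : ℝ) / w ^ 100 * (1 + 4 * w)) ≤ 10 * (w : ℝ) ^ 2 / w ^ 100 := by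
      have : 2 * ((w : ℝ) / w ^ 100 * (1 + 4 * w)) = (2 * w + 8 * w ^ 2) / w ^ 100 := by
        field_simp
        ring
      rw [this, div_le_div_iff_of_pos_right hm0]
      nlinarith
    rw [abs_le]
    constructor <;> linarith [p1.1, p1.2, p2.1, p2.2]
  calc |∑ l ∈ Finset.Ico b (b + k), (S l (z l) (z (l + 1)) - S' l (z l) (z (l + 1)))|
      ≤ ∑ l ∈ Finset.Ico b (b + k), |S l (z l) (z (l + 1)) - S' l (z l) (z (l + 1))| := Finset.abs_sum_le_sum_abs _ _
    _ ≤ ∑ _l ∈ Finset.Ico b (b + k), 10 * (w : ℝ) ^ 2 / w ^ 100 := Finset.sum_le_sum e6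
    _ = k * (10 * (w : ℝ) ^ 2 / w ^ 100) := by
        rw [Finset.sum_const, Nat.card_Ico, Nat.add_sub_cancel_left, nsmul_eq_mul]
    _ ≤ w * (10 * (w : ℝ) ^ 2 / w ^ 100) := by
        have hk' : (k : ℝ) ≤ w := by exact_mod_cast hk
        exact mul_le_mul_of_nonneg_right hk' (by positivity)
    _ = 10 * (w : ℝ) ^ 3 / w ^ 100 := by ring

theorem det2 {w k b K : ℕ} (hw : 1 ≤ w) (hk : k ≤ w) (hb : 3 ≤ b) (hK : b + k < K) (hr : Reg w k b K f S)
    (hr' : Reg w k b K f S') (hS : ∀ l, ¬ (b ≤ l ∧ l < b + k) → S l = S' l) {z : ℕ → ℚ}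
    (hz : Near f S' K (1 / (w : ℝ) ^ 100) z) : Near f S K (22 * (w : ℝ) ^ 3 / w ^ 100) z := by
  have hw1 : (1 : ℝ) ≤ w := by exact_mod_cast hw
  have hmp : (1 : ℝ) ≤ (w : ℝ) ^ 100 := one_le_pow₀ hw1
  have hm0 : (0 : ℝ) < (w : ℝ) ^ 100 := by linarith
  obtain ⟨x, hx⟩ := near_exists hr.bdd K (1 / (w : ℝ) ^ 100) (by positivity)
  have d1 := abs_le.1 (blk_diff hw hk hK hr hr.pest hr'.pest hS hx)
  have d2 := abs_le.1 (blk_diff hw hk hK hr' hr.pest hr'.pest hS hz)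
  have g1 := pre_ge hr'.bdd x K
  rw [hx.1] at g1
  refine ⟨hz.1, ?_⟩
  have e1 : 22 * (w : ℝ) ^ 3 / w ^ 100 = 10 * (w : ℝ) ^ 3 / w ^ 100 + 10 * (w : ℝ) ^ 3 / w ^ 100 + 2 * (w : ℝ) ^ 3 / w ^ 100 := by
    ring
  have e2 : 2 / (w : ℝ) ^ 100 ≤ 2 * (w : ℝ) ^ 3 / w ^ 100 := by
    rw [div_le_div_iff_of_pos_right hm0]
    have : (1 : ℝ) ≤ (w : ℝ) ^ 3 := one_le_pow₀ hw1
    linarith
  have e3 : 2 / (w : ℝ) ^ 100 = 1 / (w : ℝ) ^ 100 + 1 / (w : ℝ) ^ 100 := by ring
  have h1 := hx.2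
  have h2 := hz.2
  linarith [d1.1, d1.2, d2.1, d2.2]

theorem hyb (h : EBdd f S) {K s : ℕ} (hs : s < K) (hS : ∀ l, l ≤ s → S l = S' l) {ε₁ η η' : ℝ}
    {y x : ℕ → ℚ} (hy : Near f S K ε₁ y) (hx : Near f S' K η' x)
    (hd : |S s (y s) (y (s + 1)) + S s (x s) (x (s + 1)) - S s (y s) (x (s + 1)) - S s (x s) (y (s + 1))| ≤ η) :
    Near f S' K (ε₁ + η + η') (fun l => if l ≤ s then y l else x l) := by
  have hzK : (if K ≤ s then y K else x K) = 0 := by rw [if_neg (by omega), hx.1]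
  refine ⟨hzK, ?_⟩
  have hS0 : S s = S' s := hS s le_rfl
  -- the hybrid path
  have e1 := wt_split S' (fun l => if l ≤ s then y l else x l) (Nat.zero_le s) hs.le
  have e2 := wt_split S' (fun l => if l ≤ s then y l else x l) (Nat.le_succ s) hs
  have e3 : wt S' (fun l => if l ≤ s then y l else x l) 0 s = wt S y 0 s :=
    wt_congr (fun l _ hl => (hS l hl.le).symm) fun l _ hl => if_pos hl
  have e4 : wt S' (fun l => if l ≤ s then y l else x l) (s + 1) K = wt S' x (s + 1) K :=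
    wt_congr (fun _ _ _ => rfl) fun l hl _ => if_neg (by omega)
  have e5 : wt S' (fun l => if l ≤ s then y l else x l) s (s + 1) = S s (y s) (x (s + 1)) := by
    unfold wt
    rw [Finset.sum_Ico_succ_top le_rfl, Finset.Ico_self, Finset.sum_empty, zero_add, hS0]
    show S' s (if s ≤ s then y s else x s) (if s + 1 ≤ s then y (s + 1) else x (s + 1)) = _
    rw [if_pos le_rfl, if_neg (by omega)]
  -- the other hybrid path
  have f1 := wt_split S (fun l => if l ≤ s then x l else y l) (Nat.zero_le s) hs.le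
  have f2 := wt_split S (fun l => if l ≤ s then x l else y l) (Nat.le_succ s) hs
  have f3 : wt S (fun l => if l ≤ s then x l else y l) 0 s = wt S' x 0 s :=
    wt_congr (fun l _ hl => hS l hl.le) fun l _ hl => if_pos hl
  have f4 : wt S (fun l => if l ≤ s then x l else y l) (s + 1) K = wt S y (s + 1) K :=
    wt_congr (fun _ _ _ => rfl) fun l hl _ => if_neg (by omega)
  have f5 : wt S (fun l => if l ≤ s then x l else y l) s (s + 1) = S s (x s) (y (s + 1)) := by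
    unfold wt
    rw [Finset.sum_Ico_succ_top le_rfl, Finset.Ico_self, Finset.sum_empty, zero_add]
    show S s (if s ≤ s then x s else y s) (if s + 1 ≤ s then x (s + 1) else y (s + 1)) = _
    rw [if_pos le_rfl, if_neg (by omega)]
  have g1 := pre_ge h (fun l => if l ≤ s then x l else y l) K
  have g2 : (if K ≤ s then x K else y K) = 0 := by rw [if_neg (by omega), hy.1]
  -- the two paths
  have k1 := wt_split S y (Nat.zero_le s) hs.le
  have k2 := wt_split S y (Nat.le_succ s) hs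
  have k3 : wt S y s (s + 1) = S s (y s) (y (s + 1)) := by
    unfold wt
    rw [Finset.sum_Ico_succ_top le_rfl, Finset.Ico_self, Finset.sum_empty, zero_add]
  have l1 := wt_split S' x (Nat.zero_le s) hs.le
  have l2 := wt_split S' x (Nat.le_succ s) hs
  have l3 : wt S' x s (s + 1) = S s (x s) (x (s + 1)) := by
    unfold wt
    rw [Finset.sum_Ico_succ_top le_rfl, Finset.Ico_self, Finset.sum_empty, zero_add, hS0]
  have h1 := hy.2
  have h2 := hx.2
  have h3 := (abs_le.1 hd).2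
  simp only [Nat.succ_eq_add_one] at *
  simp only [g2, Nat.zero_le, if_true] at g1
  simp only [Nat.zero_le, if_true]
  linarith

theorem stab {w k b K : ℕ} (hw : 30 ≤ w) (hk : k ≤ w) (hb : 3 ≤ b) (hK : b + k < K) (hr : Reg w k b K f S)
    (hr' : Reg w k b K f S') (hS : ∀ l, ¬ (b ≤ l ∧ l < b + k) → S l = S' l) {y : ℕ → ℚ}
    (hy : Near f S K (1 / (w : ℝ) ^ 100) y) :
    ∃ z, Near f S' K (3 / (w : ℝ) ^ 100) z ∧ ∀ l, l + 3 ≤ b → z l = y l := by
  have hw1 : 1 ≤ w := by omega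
  have hwr : (30 : ℝ) ≤ w := by exact_mod_cast hw
  have hw1r : (1 : ℝ) ≤ w := by linarith
  have hmp : (1 : ℝ) ≤ (w : ℝ) ^ 100 := one_le_pow₀ hw1r
  have hm0 : (0 : ℝ) < (w : ℝ) ^ 100 := by linarith
  have hε : 1 / (w : ℝ) ^ 100 ≤ 2 := by
    rw [div_le_iff₀ hm0]
    linarith
  have hε2 : 22 * (w : ℝ) ^ 3 / w ^ 100 ≤ 2 := by
    rw [div_le_iff₀ hm0]
    have h1 : (w : ℝ) ^ 100 = w ^ 3 * w ^ 97 := by rw [← pow_add]
    have h2 : (w : ℝ) ^ 1 ≤ (w : ℝ) ^ 97 := pow_le_pow_right₀ hw1r (by norm_num)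
    rw [pow_one] at h2
    have h3 : (0 : ℝ) < (w : ℝ) ^ 3 := by positivity
    rw [h1]
    nlinarith
  have hle : 1 / (w : ℝ) ^ 100 ≤ 22 * (w : ℝ) ^ 3 / w ^ 100 := by
    rw [div_le_div_iff_of_pos_right hm0]
    have : (1 : ℝ) ≤ (w : ℝ) ^ 3 := one_le_pow₀ hw1r
    linarith
  obtain ⟨x, hx⟩ := near_exists hr'.bdd K (1 / (w : ℝ) ^ 100) (by positivity)
  have hx2 := det2 hw1 hk hb hK hr hr' hS hx
  have key : ∀ s, b ≤ s + 3 → s ≤ b → |(y s : ℝ)| ≤ w ∧ |(x s : ℝ)| ≤ w ∧ |(y s : ℝ) - x s| < (w : ℝ) ^ 20 / w ^ 200 := by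
    intro s h1 h2
    have hsK : s < K := by omega
    have c1 := hr.conf s h1 (by omega)
    have a1 := conf_near hr.bdd hsK c1 hε hy
    have a2 := conf_near hr.bdd hsK c1 hε2 hx2
    refine ⟨a1, a2, hr.tie s h1 h2 (y s) (x s) a1 a2 ?_ ?_⟩
    · intro x₀ _
      have := near_at hr.bdd hy s hsK x₀
      linarith
    · intro x₀ _
      exact near_at hr.bdd hx2 s hsK x₀
  obtain ⟨r, hr3, hd⟩ := hr.chain (fun r => y (b - 3 + r)) (fun r => x (b - 3 + r)) fun r hr4 =>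
    key (b - 3 + r) (by omega) (by omega)
  have hd' : |S (b - 3 + r) (y (b - 3 + r)) (y (b - 3 + r + 1)) + S (b - 3 + r) (x (b - 3 + r)) (x (b - 3 + r + 1)) -
      S (b - 3 + r) (y (b - 3 + r)) (x (b - 3 + r + 1)) - S (b - 3 + r) (x (b - 3 + r)) (y (b - 3 + r + 1))| ≤
      1 / (w : ℝ) ^ 100 := hd
  have hh := hyb hr.bdd (show b - 3 + r < K by omega) (fun l hl => hS l (by omega)) hy hx hd'
  refine ⟨fun l => if l ≤ b - 3 + r then y l else x l, ?_, fun l hl => if_pos (by omega)⟩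
  have e1 : 3 / (w : ℝ) ^ 100 = 1 / (w : ℝ) ^ 100 + 1 / (w : ℝ) ^ 100 + 1 / (w : ℝ) ^ 100 := by ring
  rw [e1]
  exact hh

end Pool.Agent.DLM
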