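import Pool.Agent.DLM.DSP

/-!
# DLM/SUC: in a good block near optimal paths have large oscillation (120-160 lines, deterministic)

Notation: `m = w^100`, `F = pre f S b`, `g = sfx S K (b+k)`, `u j = (z (b+j) - x₀) m^2`, `U = blkS w b x₀ S`: `wt S z b (b+k) = (1/m) wt U u 0 k` (as `x₀ + u j/m^2 = z (b+j)`).  Suppose `z` is `3/m`-near with `SOsc b k (v k/(C₄ m^2)) z`; then `SOsc 0 k (v k/C₄) u`, `|z b - z (b+k)| m^2 ≤ v k/C₄ ≤ k`.
CHANNEL: `x j = x₀ - v (k-j)/m^2` (as a path `l ↦ x (l - b)`): `pre_through`: `F(x 0) + (1/m) a k + g(x₀) ≤ pre f S K 0`, and `F(x 0) ≥ F(x₀) - (Cf/m) √(k (v k + 1))` (`osc`; `|x 0| ≤ w + 1` since `v k/m^2 ≤ 1`).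
NEAR: `pre f S K 0 ≤ weight(z) + 3/m ≤ F(z b) + wt S z b (b+k) + g(z (b+k)) + 3/m` (`weight_le`), `F(z b) ≤ F(z (b+k)) + (Cf/m) √(k (v k/C₄ + 1))` (`|z b|, |z (b+k)| ≤ w` by `conf_near`).
STEP 1: `wt S z b (b+k) ≤ C₂ k/m` (third part of `Good`: `|u k| ≤ 2 w · w^200 ≤ w^202`).  So `F x₀ + g x₀ ≤ F(z (b+k)) + g(z (b+k)) + (1/m)(C₂ k + 2 Cf √(k (k+1)) + 3 - a k) ≤ .. + C₁ k/m` (`√(k(k+1)) ≤ 2 k`).  `NiceAt.loc`: `|u k| ≤ exp k`.
STEP 2: second part of `Good`: `wt S z b (b+k) ≤ (a/2) k/m`.  With `NiceAt.max`: `a k ≤ (a/2) k + 2 Cf √(k (v k + 1)) + 4`, `√(k (v k + 1)) ≤ √v k + √k`, `2 Cf √v k ≤ (a/8) k`: contradiction to `hk2`.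
-/

set_option autoImplicit false

open MeasureTheory ProbabilityTheory Filter Topology

namespace Pool.Agent.DLM

private theorem suc_wt {w b k : ℕ} (hw : 2 ≤ w) (S : ℕ → Kern) (x₀ : ℚ) (z : ℕ → ℚ) :
    wt (blkS w b x₀ S) (fun j => (z (b + j) - x₀) * (w : ℚ) ^ 200) 0 k = (w : ℝ) ^ 100 * wt S z b (b + k) := by
  have hw0 : (w : ℚ) ^ 200 ≠ 0 := by
    have : (w : ℚ) ≠ 0 := by
      have : 0 < w := by omega
      exact_mod_cast this.ne'
    exact pow_ne_zero _ this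
  unfold wt blkS
  rw [Finset.mul_sum, Finset.sum_Ico_eq_sum_range, Finset.sum_Ico_eq_sum_range]
  have e : b + k - b = k - 0 := by omega
  rw [e]
  refine Finset.sum_congr rfl fun j _ => ?_
  have e1 : x₀ + (z (b + (0 + j)) - x₀) * (w : ℚ) ^ 200 / (w : ℚ) ^ 200 = z (b + j) := by
    rw [mul_div_assoc, div_self hw0]; simp
  have e2 : x₀ + (z (b + (0 + j + 1)) - x₀) * (w : ℚ) ^ 200 / (w : ℚ) ^ 200 = z (b + j + 1) := by
    rw [mul_div_assoc, div_self hw0]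
    have : b + (0 + j + 1) = b + j + 1 := by omega
    rw [this]; ring
  show (w : ℝ) ^ 100 * S (b + (0 + j)) (x₀ + (z (b + (0 + j)) - x₀) * (w : ℚ) ^ 200 / (w : ℚ) ^ 200)
    (x₀ + (z (b + (0 + j + 1)) - x₀) * (w : ℚ) ^ 200 / (w : ℚ) ^ 200) = _
  rw [e1, e2]
  simp

private theorem suc_sq {k : ℕ} (hk0 : 1 ≤ k) {t : ℝ} (ht : t ≤ k) : √((k : ℝ) * (t + 1)) ≤ 2 * k := by
  have hk : (1 : ℝ) ≤ k := by exact_mod_cast hk0
  apply Real.sqrt_le_iff.2
  constructor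
  · positivity
  · nlinarith

theorem success {f : Ini} {S : ℕ → Kern} {w k b K : ℕ} {v x₀ : ℚ} {a C₂ C₄ Cf C₁ : ℝ} (h : EBdd f S) (hw : 2 ≤ w)
    (hk0 : 1 ≤ k) (hk : k ≤ w) (hK : b + k < K) (hv : 0 < v) (hv1 : v ≤ 1) (ha : 0 < a) (hC4 : 1 ≤ C₄) (hCf : 0 ≤ Cf)
    (hC1 : C₂ + 4 * Cf + 3 ≤ C₁) (hva : 16 * Cf * √(v : ℝ) ≤ a) (hk2 : 2 * Cf * √(k : ℝ) + 4 < a / 8 * k)
    (hc : Conf w (pre f S b) (sfx S K b)) (hc' : Conf w (pre f S (b + k)) (sfx S K (b + k)))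
    (hn : NiceAt w k Cf C₁ (pre f S b) (sfx S K (b + k)) x₀)
    (hg : Good k v a (v * k / C₄) ((w : ℝ) ^ 202) C₂ (blkS w b x₀ S)) {z : ℕ → ℚ}
    (hz : Near f S K (3 / (w : ℝ) ^ 100) z) : ¬ SOsc b k (v * k / C₄ / (w : ℝ) ^ 200) z := by
  intro hs
  have hwr : (2 : ℝ) ≤ w := by exact_mod_cast hw
  have hkr : (1 : ℝ) ≤ k := by exact_mod_cast hk0
  have hkw : (k : ℝ) ≤ w := by exact_mod_cast hk
  have hw0 : (0 : ℝ) < w := by linarith
  set m : ℝ := (w : ℝ) ^ 100 with hm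
  have hm2 : (2 : ℝ) ≤ m := by
    calc (2 : ℝ) ≤ w := hwr
      _ = (w : ℝ) ^ 1 := (pow_one _).symm
      _ ≤ (w : ℝ) ^ 100 := pow_le_pow_right₀ (by linarith) (by norm_num)
  have hm0 : 0 < m := by linarith
  have hM0 : (0 : ℝ) < (w : ℝ) ^ 200 := by positivity
  have hMw : (w : ℝ) ≤ (w : ℝ) ^ 200 := by
    calc (w : ℝ) = (w : ℝ) ^ 1 := (pow_one _).symm
      _ ≤ (w : ℝ) ^ 200 := pow_le_pow_right₀ (by linarith) (by norm_num)
  have hvr : (0 : ℝ) < (v : ℝ) := by exact_mod_cast hv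
  have hv1r : (v : ℝ) ≤ 1 := by exact_mod_cast hv1
  have hvk : (v : ℝ) * k ≤ k := by nlinarith
  have hvk0 : 0 < (v : ℝ) * k := by positivity
  have hvC : (v : ℝ) * k / C₄ ≤ v * k := div_le_self hvk0.le hC4
  have hC40 : 0 < C₄ := by linarith
  -- the channel
  set F := pre f S b with hF
  set g := sfx S K (b + k) with hgd
  let y : ℕ → ℚ := fun l => x₀ + (-(v * ((k : ℚ) - ((l : ℚ) - b)))) / (w : ℚ) ^ 200
  have hyk : y (b + k) = x₀ := by
    show x₀ + (-(v * ((k : ℚ) - (((b + k : ℕ) : ℚ) - b)))) / (w : ℚ) ^ 200 = x₀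
    push_cast; ring_nf
  have hyb : y b = x₀ + (-(v * (k : ℚ))) / (w : ℚ) ^ 200 := by
    show x₀ + (-(v * ((k : ℚ) - ((b : ℚ) - b)))) / (w : ℚ) ^ 200 = _
    ring_nf
  have hybr : (y b : ℝ) = x₀ - v * k / (w : ℝ) ^ 200 := by
    rw [hyb]; push_cast; ring
  have hch : k * a / m ≤ wt S y b (b + k) := by
    have hterm : ∀ j ∈ Finset.range k, a / m ≤ S (b + j) (y (b + j)) (y (b + j + 1)) := by
      intro j hj
      have h1 := hg.1 j (Finset.mem_range.1 hj)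
      unfold blkS at h1
      have e1 : x₀ + (-(v * ((k : ℚ) - (j : ℚ)))) / (w : ℚ) ^ 200 = y (b + j) := by
        show _ = x₀ + (-(v * ((k : ℚ) - (((b + j : ℕ) : ℚ) - b)))) / (w : ℚ) ^ 200
        push_cast; ring_nf
      have e2 : x₀ + (-(v * ((k : ℚ) - ((j : ℚ) + 1)))) / (w : ℚ) ^ 200 = y (b + j + 1) := by
        show _ = x₀ + (-(v * ((k : ℚ) - (((b + j + 1 : ℕ) : ℚ) - b)))) / (w : ℚ) ^ 200
        push_cast; ring_nf
      rw [e1, e2] at h1
      rw [div_le_iff₀ hm0, mul_comm]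
      exact h1
    unfold wt
    rw [Finset.sum_Ico_eq_sum_range]
    have e : b + k - b = k := by omega
    rw [e]
    calc k * a / m = ∑ j ∈ Finset.range k, a / m := by
          rw [Finset.sum_const, Finset.card_range, nsmul_eq_mul]; ring
      _ ≤ _ := Finset.sum_le_sum hterm
  have hthr := pre_through h y b (b + k) (by omega) hK
  rw [hyk] at hthr
  change F (y b) + wt S y b (b + k) + g x₀ ≤ pre f S K 0 at hthr
  have hx0 := hn.dom
  have hvkM : (v : ℝ) * k / (w : ℝ) ^ 200 ≤ 1 := by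
    rw [div_le_one hM0]; linarith
  have hvkM0 : 0 < (v : ℝ) * k / (w : ℝ) ^ 200 := by positivity
  have hyb1 : |(y b : ℝ)| ≤ w + 1 := by
    rw [hybr, abs_le]
    have := abs_le.1 hx0
    constructor <;> linarith [this.1, this.2]
  have hdiff : |(y b : ℝ) - x₀| * (w : ℝ) ^ 200 = v * k := by
    rw [hybr]
    have : (x₀ : ℝ) - v * k / (w : ℝ) ^ 200 - x₀ = -(v * k / (w : ℝ) ^ 200) := by ring
    rw [this, abs_neg, abs_of_pos hvkM0, div_mul_cancel₀ _ hM0.ne']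
  have hosc1 := hn.osc (y b) x₀ hyb1 (by linarith) (by rw [hdiff]; exact hvk)
  rw [hdiff] at hosc1
  change |F (y b) - F x₀| ≤ Cf / m * √(k * (v * k + 1)) at hosc1
  -- the near optimal path
  have h3m : 3 / m ≤ 2 := by rw [div_le_iff₀ hm0]; linarith
  have hzb : |(z b : ℝ)| ≤ w := conf_near h (by omega) hc h3m hz
  have hzk : |(z (b + k) : ℝ)| ≤ w := conf_near h hK hc' h3m hz
  have hwl := weight_le h z hz.1 b (b + k) (by omega) hK
  have hz2 := hz.2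
  change pre f S K 0 ≤ f (z 0) + wt S z 0 K + 3 / m at hz2
  change f (z 0) + wt S z 0 K ≤ F (z b) + wt S z b (b + k) + g (z (b + k)) at hwl
  have hsb : |(z b : ℝ) - z (b + k)| * (w : ℝ) ^ 200 ≤ v * k := by
    have h1 := hs b (b + k) le_rfl (by omega) (by omega) le_rfl
    have h2 := mul_lt_mul_of_pos_right h1 hM0
    rw [div_mul_cancel₀ _ hM0.ne'] at h2
    linarith
  have hosc2 := hn.osc (z b) (z (b + k)) (by linarith) (by linarith) (by linarith)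
  have hosc2' : |F (z b) - F (z (b + k))| ≤ Cf / m * √(k * (v * k + 1)) := by
    refine hosc2.trans ?_
    have : 0 ≤ Cf / m := by positivity
    apply mul_le_mul_of_nonneg_left _ this
    apply Real.sqrt_le_sqrt
    apply mul_le_mul_of_nonneg_left _ (by linarith)
    linarith
  set Q : ℝ := √((k : ℝ) * (v * k + 1)) with hQ
  have hQ2 : Q ≤ 2 * k := suc_sq hk0 hvk
  have hQ0 : 0 ≤ Q := Real.sqrt_nonneg _
  have hkey : F x₀ + g x₀ + k * a / m ≤
      F (z (b + k)) + g (z (b + k)) + wt S z b (b + k) + 2 * (Cf / m * Q) + 3 / m := by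
    have h1 := (abs_le.1 hosc1).1
    have h2 := (abs_le.1 hosc2').2
    linarith
  -- the block
  let u : ℕ → ℚ := fun j => (z (b + j) - x₀) * (w : ℚ) ^ 200
  have huw : wt (blkS w b x₀ S) u 0 k = m * wt S z b (b + k) := suc_wt hw S x₀ z
  have hur : ∀ j, (u j : ℝ) = ((z (b + j) : ℝ) - x₀) * (w : ℝ) ^ 200 := by
    intro j
    show (((z (b + j) - x₀) * (w : ℚ) ^ 200 : ℚ) : ℝ) = _
    push_cast; ring
  have hstep1 : wt S z b (b + k) ≤ C₂ * k / m := by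
    have h1 : |(u k : ℝ)| ≤ (w : ℝ) ^ 202 := by
      rw [hur, abs_mul, abs_of_pos hM0]
      have h2 : |(z (b + k) : ℝ) - x₀| ≤ 2 * w := by
        have := abs_sub (z (b + k) : ℝ) x₀
        linarith
      have e : (w : ℝ) ^ 202 = ((w : ℝ) * w) * (w : ℝ) ^ 200 := by ring
      rw [e]
      apply mul_le_mul_of_nonneg_right _ hM0.le
      nlinarith
    have h2 := hg.2.2 u h1
    rw [huw] at h2
    rw [le_div_iff₀ hm0, mul_comm]
    exact h2
  have huk : |(u k : ℝ)| ≤ Real.exp k := by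
    have h1 : F x₀ + g x₀ ≤ F (z (b + k)) + g (z (b + k)) + C₁ * k / m := by
      have h2 : C₂ * k / m + 2 * (Cf / m * Q) + 3 / m ≤ C₁ * k / m := by
        have e : C₂ * k / m + 2 * (Cf / m * Q) + 3 / m = (C₂ * k + 2 * Cf * Q + 3) / m := by
          field_simp
        rw [e]
        apply div_le_div_of_nonneg_right _ hm0.le
        have h3 : 2 * Cf * Q ≤ 2 * Cf * (2 * k) := mul_le_mul_of_nonneg_left hQ2 (by linarith)
        have h4 : (C₂ + 4 * Cf + 3) * k ≤ C₁ * k := mul_le_mul_of_nonneg_right hC1 (by linarith)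
        nlinarith
      have h5 : 0 ≤ k * a / m := by positivity
      linarith
    have h2 := hn.loc (z (b + k)) hzk h1
    rw [hur, abs_mul, abs_of_pos hM0]
    rwa [le_div_iff₀ hM0] at h2
  have huo : SOsc 0 k (v * k / C₄) u := by
    intro l l' _ hl _ hl'
    have h1 := hs (b + l) (b + l') (by omega) (by omega) (by omega) (by omega)
    have h2 := mul_lt_mul_of_pos_right h1 hM0
    rw [div_mul_cancel₀ _ hM0.ne'] at h2
    rw [hur, hur]
    have e : ((z (b + l) : ℝ) - x₀) * (w : ℝ) ^ 200 - ((z (b + l') : ℝ) - x₀) * (w : ℝ) ^ 200 =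
        ((z (b + l) : ℝ) - z (b + l')) * (w : ℝ) ^ 200 := by ring
    rw [e, abs_mul, abs_of_pos hM0]
    exact h2
  have hstep2 : wt S z b (b + k) ≤ a / 2 * k / m := by
    have h2 := hg.2.1 u huk huo
    rw [huw] at h2
    rw [le_div_iff₀ hm0, mul_comm]
    exact h2
  have hmax := hn.max (z (b + k)) hzk
  change F (z (b + k)) + g (z (b + k)) ≤ F x₀ + g x₀ + 1 / m at hmax
  have hfin : k * a / m ≤ a / 2 * k / m + 2 * (Cf / m * Q) + 4 / m := by
    have : (4 : ℝ) / m = 3 / m + 1 / m := by ring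
    rw [this]; linarith
  have hfin2 : k * a ≤ a / 2 * k + 2 * Cf * Q + 4 := by
    have e : a / 2 * k / m + 2 * (Cf / m * Q) + 4 / m = (a / 2 * k + 2 * Cf * Q + 4) / m := by
      field_simp
    rw [e] at hfin
    exact (div_le_div_iff_of_pos_right hm0).1 hfin
  have hQs : Q ≤ √(v : ℝ) * k + √(k : ℝ) := by
    have e : (k : ℝ) * (v * k + 1) = v * (k * k) + k := by ring
    rw [hQ, e]
    apply Real.sqrt_le_iff.2
    have h1 : √(v : ℝ) * √(v : ℝ) = v := Real.mul_self_sqrt hvr.le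
    have h2 : √(k : ℝ) * √(k : ℝ) = k := Real.mul_self_sqrt (by linarith)
    have h3 : 0 ≤ √(v : ℝ) * k * √(k : ℝ) := by positivity
    refine ⟨by positivity, ?_⟩
    have e2 : (√(v : ℝ) * k + √(k : ℝ)) ^ 2 =
        (√(v : ℝ) * √(v : ℝ)) * (k * k) + 2 * (√(v : ℝ) * k * √(k : ℝ)) + √(k : ℝ) * √(k : ℝ) := by ring
    rw [e2, h1, h2]
    linarith
  have h6 : 2 * Cf * Q ≤ 2 * Cf * (√(v : ℝ) * k + √(k : ℝ)) := mul_le_mul_of_nonneg_left hQs (by linarith)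
  have h7 : 16 * Cf * √(v : ℝ) * k ≤ a * k := mul_le_mul_of_nonneg_right hva (by linarith)
  have h8 : 0 < a * k := by positivity
  nlinarith

end Pool.Agent.DLM
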