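import Pool.Agent.DLM.MIX
import Pool.Agent.DLM.STB
import Pool.Agent.DLM.SUC
import Pool.Agent.DLM.REG
import Pool.Agent.DLM.NIC
import Pool.Agent.DLM.BLC

/-!
# DLM/COI: the core inequality for one block (120-160 lines)

DETERMINISTIC PART (`core_det`): `S'' = mixS b k S S'` with `b = bW k i`.  `(f, S'') ∈ DSet i`: (1) no `3/m`-near path of `(f, S'')` has small oscillation in the block `i`: `success` (the data `pre f S'' b = pre f S b`, `sfx S'' K (b+k) = sfx S K (b+k)`, `Good` by `good_congr`, `blkS_mix`; `Conf` from `Reg` for `S''`).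
(2) for `j < i`: a `1/m`-near path `y` of `(f, S)` with `SOsc (bW k j) k Λ y` gives by `stab` a `3/m`-near path `z` of `(f, S'')` with `z l = y l` for `l + 3 ≤ b`, and `bW k j + k + 3 ≤ b` (`bW_lt'`).
PROBABILISTIC PART (`core_block`): let `B` be a measurable superset of `{(p, S') | (p.1, mixS ..) ∈ DSet i} ∪ {(p, S') | ¬ Reg (p.1, mixS ..)}` with the same measure, which is `≤ envM (DSet i) + envM {¬ Reg}` (`mix_law`; for the second set use a measurable superset of `{¬ Reg}`).  If `p ∈ ⋂ BSet`, `Reg p`, and `NiceAt p x₀` then the section of `B` at `p` contains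
`{S' | Good (blkS S')}`, of measure `≥ 1/w`.  `h(p) = piM (section of B)` is measurable, `∫ h = measure of B`, Markov: `envM {h ≥ 1/w} ≤ w · measure of B`, and `⋂ BSet ⊆ {¬ Reg} ∪ {¬ nice} ∪ {h ≥ 1/w}`.
-/

set_option autoImplicit false

open MeasureTheory ProbabilityTheory Filter Topology

namespace Pool.Agent.DLM

variable {ν : ℝ → Measure Kern} {tw : Measure ℝ} {β : ℝ → Measure Ini}

/-- there is a near optimal path with small oscillation in the block `i` -/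
def BSet (w k : ℕ) (Λ ε : ℝ) (i : ℕ) : Set (Ini × (ℕ → Kern)) :=
  {p | ∃ z, Near p.1 p.2 (KW w k) ε z ∧ SOsc (bW k i) k Λ z}

/-- the block `i` is the first one where all near optimal paths have large oscillation -/
def DSet (w k : ℕ) (Λ ε : ℝ) (i : ℕ) : Set (Ini × (ℕ → Kern)) := {p | p ∉ BSet w k Λ ε i ∧ ∀ j < i, p ∈ BSet w k Λ ε j}

theorem core_det {w k i : ℕ} {v x₀ : ℚ} {a C₂ C₄ Cf C₁ : ℝ} {f : Ini} {S S' : ℕ → Kern} (hw : 30 ≤ w) (hk0 : 1 ≤ k)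
    (hk : k ≤ w) (hi : i < w ^ 2) (hv : 0 < v) (hv1 : v ≤ 1) (ha : 0 < a) (hC4 : 1 ≤ C₄) (hCf : 0 ≤ Cf)
    (hC1 : C₂ + 4 * Cf + 3 ≤ C₁) (hva : 16 * Cf * √(v : ℝ) ≤ a) (hk2 : 2 * Cf * √(k : ℝ) + 4 < a / 8 * k)
    (hr : Reg w k (bW k i) (KW w k) f S) (hr' : Reg w k (bW k i) (KW w k) f (mixS (bW k i) k S S'))
    (hn : NiceAt w k Cf C₁ (pre f S (bW k i)) (sfx S (KW w k) (bW k i + k)) x₀)
    (hg : Good k v a (v * k / C₄) ((w : ℝ) ^ 202) C₂ (blkS w (bW k i) x₀ S'))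
    (hB : ∀ j < w ^ 2, (f, S) ∈ BSet w k (v * k / C₄ / (w : ℝ) ^ 200) (1 / (w : ℝ) ^ 100) j) :
    (f, mixS (bW k i) k S S') ∈ DSet w k (v * k / C₄ / (w : ℝ) ^ 200) (3 / (w : ℝ) ^ 100) i := by
  have hK : bW k i + k < KW w k := bW_lt w k i hi
  have hb3 : 3 ≤ bW k i := by
    unfold bW
    omega
  have hS : ∀ l, ¬ (bW k i ≤ l ∧ l < bW k i + k) → S l = mixS (bW k i) k S S' l := by
    intro l hl
    unfold mixS
    rw [if_neg hl]
  refine ⟨?_, ?_⟩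
  · rintro ⟨z, hz, hosc⟩
    refine success (x₀ := x₀) hr'.bdd (by omega) hk0 hk hK hv hv1 ha hC4 hCf hC1 hva hk2
      (hr'.conf _ (by omega) (by omega)) (hr'.conf _ (by omega) le_rfl) ?_ ?_ hz hosc
    · rw [pre_mix f S S' (bW k i) k (bW k i) le_rfl, sfx_mix S S' (bW k i) k (KW w k) (bW k i + k) le_rfl]
      exact hn
    · exact good_congr (fun j hj => (blkS_mix S S' w (bW k i) k j x₀ hj).symm) hg
  · intro j hj
    obtain ⟨z, hz, hosc⟩ := hB j (lt_trans hj hi)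
    obtain ⟨z', hz', he⟩ := stab hw hk hb3 hK hr hr' hS hz
    refine ⟨z', hz', ?_⟩
    have hlt := bW_lt' k i j hj
    intro l l' h1 h2 h3 h4
    rw [he l (by omega), he l' (by omega)]
    exact hosc l l' h1 h2 h3 h4

theorem core_block (h : Base ν tw β) {w k i : ℕ} {v : ℚ} {a C₂ C₄ Cf C₁ : ℝ} (hw : 30 ≤ w) (hk0 : 1 ≤ k)
    (hk : k ≤ w) (hi : i < w ^ 2) (hv : 0 < v) (hv1 : v ≤ 1) (ha : 0 < a) (hC4 : 1 ≤ C₄) (hCf : 0 ≤ Cf)
    (hC1 : C₂ + 4 * Cf + 3 ≤ C₁) (hva : 16 * Cf * √(v : ℝ) ≤ a) (hk2 : 2 * Cf * √(k : ℝ) + 4 < a / 8 * k) (b : ℝ)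
    (hgood : ∀ x₀ : ℚ, ENNReal.ofReal (1 / (w : ℝ)) ≤
      piM ν (durW w k) {S | Good k v a (v * k / C₄) ((w : ℝ) ^ 202) C₂ (blkS w (bW k i) x₀ S)}) :
    envM ν β (durW w k) b {p | ∀ j < w ^ 2, p ∈ BSet w k (v * k / C₄ / (w : ℝ) ^ 200) (1 / (w : ℝ) ^ 100) j} ≤
      envM ν β (durW w k) b {p | ¬ Reg w k (bW k i) (KW w k) p.1 p.2} +
      envM ν β (durW w k) b {p | ¬ ∃ x₀, NiceAt w k Cf C₁ (pre p.1 p.2 (bW k i)) (sfx p.2 (KW w k) (bW k i + k)) x₀} +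
      ENNReal.ofReal w * (envM ν β (durW w k) b (DSet w k (v * k / C₄ / (w : ℝ) ^ 200) (3 / (w : ℝ) ^ 100) i) +
        envM ν β (durW w k) b {p | ¬ Reg w k (bW k i) (KW w k) p.1 p.2}) := by
  have hw1 : 1 ≤ w := by omega
  have hd : ∀ l, 0 < durW w k l := fun l => durW_pos w k l hw1
  haveI := envM_prob h hd b
  haveI := piM_prob h hd
  obtain ⟨μ, hμ⟩ : ∃ μ, μ = envM ν β (durW w k) b := ⟨_, rfl⟩
  obtain ⟨π, hπ⟩ : ∃ π, π = piM ν (durW w k) := ⟨_, rfl⟩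
  haveI : IsProbabilityMeasure μ := by rw [hμ]; infer_instance
  haveI : IsProbabilityMeasure π := by rw [hπ]; infer_instance
  obtain ⟨Rg, hRg⟩ : ∃ Rg : Set (Ini × (ℕ → Kern)), Rg = {p | ¬ Reg w k (bW k i) (KW w k) p.1 p.2} := ⟨_, rfl⟩
  obtain ⟨D, hD⟩ : ∃ D : Set (Ini × (ℕ → Kern)),
    D = DSet w k (v * k / C₄ / (w : ℝ) ^ 200) (3 / (w : ℝ) ^ 100) i := ⟨_, rfl⟩
  obtain ⟨Nn, hNn⟩ : ∃ Nn : Set (Ini × (ℕ → Kern)), Nn = {p | ¬ ∃ x₀, NiceAt w k Cf C₁ (pre p.1 p.2 (bW k i))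
    (sfx p.2 (KW w k) (bW k i + k)) x₀} := ⟨_, rfl⟩
  obtain ⟨T, hT⟩ : ∃ T : (Ini × (ℕ → Kern)) × (ℕ → Kern) → Ini × (ℕ → Kern),
    T = fun q => (q.1.1, mixS (bW k i) k q.1.2 q.2) := ⟨_, rfl⟩
  have hTm : Measurable T := by
    rw [hT]
    exact mix_meas (bW k i) k
  have hTl : (μ.prod π).map T = μ := by
    rw [hT, hμ, hπ]
    exact mix_law h hd b (bW k i) k
  have hmu : ∀ A : Set (Ini × (ℕ → Kern)), MeasurableSet A → (μ.prod π) (T ⁻¹' A) = μ A := by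
    intro A hA
    rw [← Measure.map_apply hTm hA, hTl]
  obtain ⟨B, hB⟩ : ∃ B : Set ((Ini × (ℕ → Kern)) × (ℕ → Kern)),
    B = T ⁻¹' (toMeasurable μ D ∪ toMeasurable μ Rg) := ⟨_, rfl⟩
  have hBm : MeasurableSet B := by
    rw [hB]
    exact hTm ((measurableSet_toMeasurable _ _).union (measurableSet_toMeasurable _ _))
  have hBl : (μ.prod π) B ≤ μ D + μ Rg := by
    rw [hB, hmu _ ((measurableSet_toMeasurable _ _).union (measurableSet_toMeasurable _ _))]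
    refine le_trans (measure_union_le _ _) ?_
    rw [measure_toMeasurable, measure_toMeasurable]
  have hhm : Measurable fun p => π (Prod.mk p ⁻¹' B) := measurable_measure_prodMk_left hBm
  have hint : ∫⁻ p, π (Prod.mk p ⁻¹' B) ∂μ = (μ.prod π) B := (Measure.prod_apply hBm).symm
  have hmk : ENNReal.ofReal (1 / (w : ℝ)) * μ {p | ENNReal.ofReal (1 / (w : ℝ)) ≤ π (Prod.mk p ⁻¹' B)} ≤
      μ D + μ Rg := by
    refine le_trans (mul_meas_ge_le_lintegral hhm _) ?_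
    rw [hint]
    exact hBl
  have hmk2 : μ {p | ENNReal.ofReal (1 / (w : ℝ)) ≤ π (Prod.mk p ⁻¹' B)} ≤
      ENNReal.ofReal w * (μ D + μ Rg) := by
    have hw0 : (0 : ℝ) < w := by exact_mod_cast hw1
    calc μ {p | ENNReal.ofReal (1 / (w : ℝ)) ≤ π (Prod.mk p ⁻¹' B)}
        = ENNReal.ofReal w * (ENNReal.ofReal (1 / (w : ℝ)) *
            μ {p | ENNReal.ofReal (1 / (w : ℝ)) ≤ π (Prod.mk p ⁻¹' B)}) := by
          rw [← mul_assoc, ← ENNReal.ofReal_mul hw0.le, mul_one_div_cancel hw0.ne', ENNReal.ofReal_one, one_mul]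
      _ ≤ ENNReal.ofReal w * (μ D + μ Rg) := mul_le_mul_right hmk _
  have hsub : {p | ∀ j < w ^ 2, p ∈ BSet w k (v * k / C₄ / (w : ℝ) ^ 200) (1 / (w : ℝ) ^ 100) j} ⊆
      (Rg ∪ Nn) ∪ {p | ENNReal.ofReal (1 / (w : ℝ)) ≤ π (Prod.mk p ⁻¹' B)} := by
    intro p hp
    by_cases hr : p ∈ Rg
    · exact Or.inl (Or.inl hr)
    by_cases hn : p ∈ Nn
    · exact Or.inl (Or.inr hn)
    refine Or.inr ?_
    rw [hRg] at hr
    rw [hNn] at hn
    have hr1 : Reg w k (bW k i) (KW w k) p.1 p.2 := not_not.1 hr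
    obtain ⟨x₀, hx⟩ : ∃ x₀, NiceAt w k Cf C₁ (pre p.1 p.2 (bW k i))
      (sfx p.2 (KW w k) (bW k i + k)) x₀ := not_not.1 hn
    have h1 := hgood x₀
    rw [← hπ] at h1
    refine le_trans h1 (measure_mono ?_)
    intro S' hS'
    rw [Set.mem_preimage, hB]
    show T (p, S') ∈ toMeasurable μ D ∪ toMeasurable μ Rg
    by_cases hr2 : T (p, S') ∈ Rg
    · exact Or.inr (subset_toMeasurable _ _ hr2)
    · refine Or.inl (subset_toMeasurable _ _ ?_)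
      have hr3 : Reg w k (bW k i) (KW w k) p.1 (mixS (bW k i) k p.2 S') := by
        rw [hT, hRg] at hr2
        exact not_not.1 hr2
      rw [hT, hD]
      exact core_det hw hk0 hk hi hv hv1 ha hC4 hCf hC1 hva hk2 hr1 hr3 hx hS' hp
  rw [← hμ, ← hRg, ← hNn, ← hD]
  calc μ {p | ∀ j < w ^ 2, p ∈ BSet w k (v * k / C₄ / (w : ℝ) ^ 200) (1 / (w : ℝ) ^ 100) j}
      ≤ μ ((Rg ∪ Nn) ∪ {p | ENNReal.ofReal (1 / (w : ℝ)) ≤ π (Prod.mk p ⁻¹' B)}) := measure_mono hsub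
    _ ≤ μ (Rg ∪ Nn) + μ {p | ENNReal.ofReal (1 / (w : ℝ)) ≤ π (Prod.mk p ⁻¹' B)} := measure_union_le _ _
    _ ≤ (μ Rg + μ Nn) + ENNReal.ofReal w * (μ D + μ Rg) := add_le_add (measure_union_le _ _) hmk2

end Pool.Agent.DLM
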