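import Pool.Agent.DLM.COI

/-!
# DLM/COR: the core estimate (80-120 lines)

Constants: `a, C₄, c₉, C₂` from `good_env`, `Cf` from `nice_prob`, `C₁ = C₂ + 4 Cf + 3`, `v` rational with `0 < v ≤ 1`, `16 Cf √v ≤ a`; `c₀ = v/C₄`.  `k = kW c₉ w`: `k ≤ w`, `k → ∞` (so `2 Cf √k + 4 < a k/8`, `1 ≤ k`).  For `i < w^2` `core_block` (`hgood` from `good_env`, `durW_blk`), `reg_prob`: `≤ 1/w^3`, nice: the law of `(nrm (pre b), kc (K-1-(b+k)) (shf S (b+k)))` is
`β b ⊗ ν θ` (`pre_kc_law` with `j = k`; `NiceAt` does not change when a constant is added to `F`), so `≤ δ/3` (`nice_prob`).  Sum over `i < w^2`: the sets `DSet i` are disjoint and measurable (`osc_meas`), so `∑ envM (DSet i) ≤ 1`: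
`w^2 P ≤ w^2 (1/w^3 + δ/3) + w (1 + w^2/w^3)`, `P ≤ 1/w^3 + δ/3 + 2/w ≤ δ` for `w` large.
-/

set_option autoImplicit false

open MeasureTheory ProbabilityTheory Filter Topology

namespace Pool.Agent.DLM

variable {ν : ℝ → Measure Kern} {tw : Measure ℝ} {β : ℝ → Measure Ini}

private theorem COR_nice {w k : ℕ} {Cf C₁ : ℝ} {F g : Ini} {x₀ : ℚ} (h : NiceAt w k Cf C₁ (nrm F) g x₀) :
    NiceAt w k Cf C₁ F g x₀ := by
  refine ⟨h.dom, fun x hx => ?_, fun x hx hx' => ?_, fun x y hx hy hxy => ?_⟩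
  · have := h.max x hx
    simp only [nrm] at this
    linarith
  · refine h.loc x hx ?_
    simp only [nrm]
    linarith
  · have := h.osc x y hx hy hxy
    simp only [nrm] at this
    rwa [show F x - F 0 - (F y - F 0) = F x - F y by ring] at this

private theorem COR_tend {c : ℝ} (hc : 0 < c) : Tendsto (fun w : ℕ => kW c w) atTop atTop := by
  unfold kW
  exact tendsto_nat_floor_atTop.comp
    ((Real.tendsto_log_atTop.comp tendsto_natCast_atTop_atTop).const_mul_atTop hc)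

private theorem COR_kle {c : ℝ} (hc1 : c ≤ 1) {w : ℕ} (hw : 1 ≤ w) : kW c w ≤ w := by
  unfold kW
  have hw' : (1 : ℝ) ≤ w := by exact_mod_cast hw
  have h1 : Real.log w ≤ w := (Real.log_le_sub_one_of_pos (by linarith)).trans (by linarith)
  have h0 : 0 ≤ Real.log w := Real.log_nonneg hw'
  have h2 : c * Real.log w ≤ (w : ℝ) := by nlinarith
  exact Nat.floor_le_of_le h2

private theorem COR_sqrt {a Cf : ℝ} (ha : 0 < a) (hCf : 0 ≤ Cf) :
    ∀ᶠ k : ℕ in atTop, 2 * Cf * √(k : ℝ) + 4 < a / 8 * k := by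
  have h1 : Tendsto (fun k : ℕ => √(k : ℝ)) atTop atTop :=
    Real.tendsto_sqrt_atTop.comp tendsto_natCast_atTop_atTop
  filter_upwards [h1.eventually_ge_atTop 1, h1.eventually_ge_atTop (8 * (2 * Cf + 4) / a + 1)] with k hk1 hk2
  have h2 : (k : ℝ) = √(k : ℝ) * √(k : ℝ) := (Real.mul_self_sqrt (Nat.cast_nonneg k)).symm
  have h3 : 2 * Cf + 4 < a / 8 * √(k : ℝ) := by
    have : 8 * (2 * Cf + 4) / a < √(k : ℝ) := by linarith
    rw [div_lt_iff₀ ha] at this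
    linarith
  calc 2 * Cf * √(k : ℝ) + 4 ≤ (2 * Cf + 4) * √(k : ℝ) := by nlinarith
    _ < a / 8 * √(k : ℝ) * √(k : ℝ) := by
        apply mul_lt_mul_of_pos_right h3
        linarith
    _ = a / 8 * k := by rw [mul_assoc, ← h2]

private theorem COR_disj (w k : ℕ) (Λ ε : ℝ) (s : Set ℕ) : s.PairwiseDisjoint (DSet w k Λ ε) := by
  intro i _ j _ hij
  rw [Function.onFun, Set.disjoint_left]
  rintro p ⟨h1, h2⟩ ⟨h3, h4⟩
  rcases lt_or_gt_of_ne hij with h | h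
  · exact h1 (h4 i h)
  · exact h3 (h2 j h)

private theorem COR_meas (w k : ℕ) (Λ ε : ℝ) (i : ℕ) (hi : i < w ^ 2) : MeasurableSet (DSet w k Λ ε i) := by
  have hB : ∀ j < w ^ 2, MeasurableSet (BSet w k Λ ε j) := fun j hj =>
    osc_meas (KW w k) (bW k j) k Λ ε (bW_lt w k j hj).le
  have e : DSet w k Λ ε i = (BSet w k Λ ε i)ᶜ ∩ ⋂ j ∈ Finset.range i, BSet w k Λ ε j := by
    ext p
    simp only [DSet, Set.mem_setOf_eq, Set.mem_inter_iff, Set.mem_compl_iff, Set.mem_iInter, Finset.mem_range]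
  rw [e]
  refine (hB i hi).compl.inter ?_
  exact Finset.measurableSet_biInter _ fun j hj => hB j ((Finset.mem_range.1 hj).trans hi)

theorem core (h : Base ν tw β) : ∃ c₉ c₀ : ℝ, 0 < c₉ ∧ c₉ ≤ 1 ∧ 0 < c₀ ∧ ∀ δ : ℝ, 0 < δ → ∀ᶠ w : ℕ in atTop, ∀ b : ℝ, |b| ≤ 1 →
    envM ν β (durW w (kW c₉ w)) b {p | ∀ i < w ^ 2, ∃ z, Near p.1 p.2 (KW w (kW c₉ w)) (1 / (w : ℝ) ^ 100) z ∧
      SOsc (bW (kW c₉ w) i) (kW c₉ w) (c₀ * kW c₉ w / (w : ℝ) ^ 200) z} ≤ ENNReal.ofReal δ := by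
  obtain ⟨a, C₄, c₉, C₂, ha, hC4, hc, hc1, hC2, hgood⟩ := good_env h
  obtain ⟨Cf, hCf, hnice⟩ := nice_prob h c₉ hc hc1
  have ha0 : 0 < a := by linarith
  have hCf0 : 0 < Cf := by linarith
  obtain ⟨v, hv0, hv1⟩ : ∃ v : ℚ, (0 : ℝ) < v ∧ (v : ℝ) < min 1 ((a / (16 * Cf)) ^ 2) :=
    exists_rat_btwn (lt_min one_pos (by positivity))
  have hv1' : (v : ℝ) < 1 := hv1.trans_le (min_le_left _ _)
  have hva : 16 * Cf * √(v : ℝ) ≤ a := by
    have h1 : √(v : ℝ) ≤ a / (16 * Cf) := by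
      rw [Real.sqrt_le_left (by positivity)]
      exact (hv1.trans_le (min_le_right _ _)).le
    rw [le_div_iff₀ (by positivity)] at h1
    linarith
  have hvq : (0 : ℚ) < v := by exact_mod_cast hv0
  have hvq1 : v ≤ (1 : ℚ) := by exact_mod_cast hv1'.le
  refine ⟨c₉, v / C₄, hc, hc1, by positivity, fun δ hδ => ?_⟩
  set C₁ : ℝ := C₂ + 4 * Cf + 3 with hC1
  have hT := COR_tend hc
  have hlim : Tendsto (fun w : ℕ => 1 / (w : ℝ) + 1 / (w : ℝ) ^ 2 + 1 / (w : ℝ) ^ 3) atTop (𝓝 0) := by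
    have hw : Tendsto (fun w : ℕ => 1 / (w : ℝ)) atTop (𝓝 0) := tendsto_one_div_atTop_nhds_zero_nat
    have h2 : Tendsto (fun w : ℕ => 1 / (w : ℝ) ^ 2) atTop (𝓝 0) := by
      have := hw.pow 2
      simpa [div_pow] using this
    have h3 : Tendsto (fun w : ℕ => 1 / (w : ℝ) ^ 3) atTop (𝓝 0) := by
      have := hw.pow 3
      simpa [div_pow] using this
    simpa using (hw.add h2).add h3
  filter_upwards [eventually_ge_atTop 30, hT.eventually_ge_atTop 1, hT.eventually (COR_sqrt ha0 hCf0.le),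
    hgood v hvq hvq1, reg_prob h, hnice C₁ (δ / 3) (by rw [hC1]; linarith) (by linarith),
    hlim.eventually (gt_mem_nhds (show (0 : ℝ) < 2 * δ / 3 by linarith))] with w hw hk0 hk2 hg hr hn hl b hb
  set k := kW c₉ w with hk
  have hw1 : 1 ≤ w := by omega
  have hwr : (1 : ℝ) ≤ w := by exact_mod_cast hw1
  have hw0 : (0 : ℝ) < w := by linarith
  have hkw : k ≤ w := COR_kle hc1 hw1
  have hd : ∀ l, 0 < durW w k l := fun l => durW_pos w k l hw1
  haveI hprob : IsProbabilityMeasure (envM ν β (durW w k) b) := envM_prob h hd b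
  have hset : {p : Ini × (ℕ → Kern) | ∀ i < w ^ 2, ∃ z, Near p.1 p.2 (KW w k) (1 / (w : ℝ) ^ 100) z ∧
      SOsc (bW k i) k ((v : ℝ) / C₄ * k / (w : ℝ) ^ 200) z} =
      {p | ∀ j < w ^ 2, p ∈ BSet w k (v * k / C₄ / (w : ℝ) ^ 200) (1 / (w : ℝ) ^ 100) j} := by
    rw [show (v : ℝ) / C₄ * k / (w : ℝ) ^ 200 = v * k / C₄ / (w : ℝ) ^ 200 by ring]
    rfl
  rw [hset]
  set P := envM ν β (durW w k) b {p | ∀ j < w ^ 2, p ∈ BSet w k (v * k / C₄ / (w : ℝ) ^ 200) (1 / (w : ℝ) ^ 100) j}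
    with hP
  set D : ℕ → ENNReal := fun i => envM ν β (durW w k) b (DSet w k (v * k / C₄ / (w : ℝ) ^ 200) (3 / (w : ℝ) ^ 100) i)
    with hD
  have hblock : ∀ i < w ^ 2, P.toReal ≤ 1 / (w : ℝ) ^ 3 + δ / 3 + w * ((D i).toReal + 1 / (w : ℝ) ^ 3) := by
    intro i hi
    have hN : envM ν β (durW w k) b {p | ¬ ∃ x₀, NiceAt w k Cf C₁ (pre p.1 p.2 (bW k i))
        (sfx p.2 (KW w k) (bW k i + k)) x₀} ≤ ENNReal.ofReal (δ / 3) := by
      have hTm : Measurable fun p : Ini × (ℕ → Kern) =>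
          (nrm (pre p.1 p.2 (bW k i)), kc (KW w k - 1 - (bW k i + k)) (shf p.2 (bW k i + k))) :=
        (nrm_meas.comp (pre_meas (bW k i))).prodMk ((kc_meas _).comp ((shf_meas _).comp measurable_snd))
      have hsub : {p : Ini × (ℕ → Kern) | ¬ ∃ x₀, NiceAt w k Cf C₁ (pre p.1 p.2 (bW k i))
          (sfx p.2 (KW w k) (bW k i + k)) x₀} ⊆
          (fun p : Ini × (ℕ → Kern) =>
            (nrm (pre p.1 p.2 (bW k i)), kc (KW w k - 1 - (bW k i + k)) (shf p.2 (bW k i + k)))) ⁻¹'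
            {q | ¬ ∃ x₀, NiceAt w k Cf C₁ q.1 (fun x => q.2 x 0) x₀} := by
        intro p hp hq
        obtain ⟨x₀, hx⟩ := hq
        exact hp ⟨x₀, COR_nice hx⟩
      refine (measure_mono hsub).trans ((Measure.le_map_apply hTm.aemeasurable _).trans ?_)
      rw [pre_kc_law h hd b (bW k i) k (KW w k - 1 - (bW k i + k))]
      exact hn b _ hb (Finset.sum_pos (fun l _ => hd _) ⟨0, Finset.mem_range.2 (Nat.succ_pos _)⟩)
    have hR := hr k hkw i hi b hb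
    have hcb := core_block h hw hk0 hkw hi hvq hvq1 ha0 hC4 hCf0.le (le_of_eq hC1.symm) hva hk2 b
      (fun x₀ => hg (durW w k) hd (bW k i) (fun j hj => durW_blk w k i j hi hj) x₀)
    have h1 : P ≤ ENNReal.ofReal (1 / (w : ℝ) ^ 3) + ENNReal.ofReal (δ / 3) +
        ENNReal.ofReal w * (D i + ENNReal.ofReal (1 / (w : ℝ) ^ 3)) := by
      refine hcb.trans ?_
      gcongr
    have hDi : D i ≠ ⊤ := measure_ne_top _ _
    have h2 := ENNReal.toReal_mono (by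
      refine ENNReal.add_ne_top.2 ⟨ENNReal.add_ne_top.2 ⟨ENNReal.ofReal_ne_top, ENNReal.ofReal_ne_top⟩, ?_⟩
      exact ENNReal.mul_ne_top ENNReal.ofReal_ne_top (ENNReal.add_ne_top.2 ⟨hDi, ENNReal.ofReal_ne_top⟩)) h1
    rw [ENNReal.toReal_add (ENNReal.add_ne_top.2 ⟨ENNReal.ofReal_ne_top, ENNReal.ofReal_ne_top⟩)
      (ENNReal.mul_ne_top ENNReal.ofReal_ne_top (ENNReal.add_ne_top.2 ⟨hDi, ENNReal.ofReal_ne_top⟩)),
      ENNReal.toReal_add ENNReal.ofReal_ne_top ENNReal.ofReal_ne_top, ENNReal.toReal_mul,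
      ENNReal.toReal_add hDi ENNReal.ofReal_ne_top, ENNReal.toReal_ofReal (by positivity),
      ENNReal.toReal_ofReal (by positivity), ENNReal.toReal_ofReal (by positivity)] at h2
    exact h2
  have hsumD : ∑ i ∈ Finset.range (w ^ 2), (D i).toReal ≤ 1 := by
    rw [← ENNReal.toReal_sum (fun i _ => measure_ne_top _ _)]
    have h1 : ∑ i ∈ Finset.range (w ^ 2), D i ≤ 1 := by
      rw [hD, ← measure_biUnion_finset (COR_disj w k _ _ _)
        (fun i hi => COR_meas w k _ _ i (Finset.mem_range.1 hi))]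
      exact prob_le_one
    exact ENNReal.toReal_le_of_le_ofReal zero_le_one (by rwa [ENNReal.ofReal_one])
  have hsum : (w : ℝ) ^ 2 * P.toReal ≤ (w : ℝ) ^ 2 * (1 / (w : ℝ) ^ 3 + δ / 3) + w * (1 + (w : ℝ) ^ 2 * (1 / (w : ℝ) ^ 3)) := by
    have h1 := Finset.sum_le_sum fun i hi => hblock i (Finset.mem_range.1 hi)
    rw [Finset.sum_const, Finset.card_range, Finset.sum_add_distrib, Finset.sum_const, Finset.card_range,
      ← Finset.mul_sum, Finset.sum_add_distrib, Finset.sum_const, Finset.card_range] at h1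
    simp only [nsmul_eq_mul] at h1
    push_cast at h1
    refine h1.trans ?_
    gcongr
  have hfin : P.toReal ≤ δ := by
    have h3 : P.toReal ≤ (1 / (w : ℝ) ^ 3 + δ / 3) + (1 / (w : ℝ) + 1 / (w : ℝ) ^ 2) := by
      have hw2 : (0 : ℝ) < (w : ℝ) ^ 2 := by positivity
      have h4 : (w : ℝ) ^ 2 * (1 / (w : ℝ) ^ 3 + δ / 3) + w * (1 + (w : ℝ) ^ 2 * (1 / (w : ℝ) ^ 3)) =
          (w : ℝ) ^ 2 * ((1 / (w : ℝ) ^ 3 + δ / 3) + (1 / (w : ℝ) + 1 / (w : ℝ) ^ 2)) := by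
        field_simp
      rw [h4] at hsum
      exact le_of_mul_le_mul_left hsum hw2
    linarith
  have hPt : P ≠ ⊤ := measure_ne_top _ _
  rw [← ENNReal.ofReal_toReal hPt]
  exact ENNReal.ofReal_le_ofReal hfin

end Pool.Agent.DLM
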