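import Pool.Agent.DLM.BDefs
import Pool.Agent.DLM.BMT

/-!
# DLM/CPL: existence of the coupling with an independent Brownian motion

On `Ω₀ × Ω₀` with `P₀ ⊗ P₀`: `S` and the lines are functions of the first coordinate, `W` is a function of the second one.
-/

set_option autoImplicit false

open MeasureTheory ProbabilityTheory Filter Topology

namespace Pool.Agent.DLM

private lemma mp_iindep {Ω Ω' ι β : Type*} [MeasurableSpace Ω] [MeasurableSpace Ω'] [MeasurableSpace β] {P : Measure Ω}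
    {Q : Measure Ω'} {g : Ω' → Ω} (hg : MeasurePreserving g Q P) {f : ι → Ω → β} (hf : ∀ i, Measurable (f i))
    (h : iIndepFun f P) : iIndepFun (fun i ω => f i (g ω)) Q := by
  rw [iIndepFun_iff_measure_inter_preimage_eq_mul] at h ⊢
  intro S sets hS
  have h1 := h S hS
  have hm : ∀ i ∈ S, MeasurableSet (f i ⁻¹' sets i) := fun i hi => (hf i) (hS i hi)
  have e1 : (⋂ i ∈ S, (fun ω => f i (g ω)) ⁻¹' sets i) = g ⁻¹' (⋂ i ∈ S, f i ⁻¹' sets i) := by
    ext ω; simp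
  rw [e1, hg.measure_preimage (Finset.measurableSet_biInter S hm).nullMeasurableSet, h1]
  refine Finset.prod_congr rfl fun i hi => ?_
  rw [← hg.measure_preimage (hm i hi).nullMeasurableSet]
  rfl

private lemma mp_bm {Ω Ω' : Type*} [MeasurableSpace Ω] [MeasurableSpace Ω'] {P : Measure Ω} {Q : Measure Ω'}
    {g : Ω' → Ω} (hg : MeasurePreserving g Q P) {X : ℝ → Ω → ℝ} {v b : ℝ} (hX : IsBM P X v b) :
    IsBM Q (fun t ω => X t (g ω)) v b := by
  refine ⟨fun t => (hX.meas t).comp hg.measurable, hg.quasiMeasurePreserving.ae hX.cont,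
    hg.quasiMeasurePreserving.ae hX.zero, fun s t hst => ?_, fun t ht => ?_⟩
  · have hm : Measurable (fun ω => X t ω - X s ω) := (hX.meas t).sub (hX.meas s)
    rw [← hX.gauss s t hst, ← hg.map_eq, Measure.map_map hm hg.measurable]
    rfl
  · exact mp_iindep hg (f := fun (i : ℕ) ω => X (t (i + 1)) ω - X (t i) ω) (fun i => (hX.meas _).sub (hX.meas _))
      (hX.indep t ht)

theorem bm_fst {Ω Ω' : Type*} [MeasurableSpace Ω] [MeasurableSpace Ω'] {P : Measure Ω} [IsProbabilityMeasure P]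
    {P' : Measure Ω'} [IsProbabilityMeasure P'] {X : ℝ → Ω → ℝ} {v b : ℝ} (hX : IsBM P X v b) :
    IsBM (P.prod P') (fun t ω => X t ω.1) v b :=
  mp_bm (g := Prod.fst) measurePreserving_fst hX

theorem bm_snd {Ω Ω' : Type*} [MeasurableSpace Ω] [MeasurableSpace Ω'] {P : Measure Ω} [IsProbabilityMeasure P]
    {P' : Measure Ω'} [IsProbabilityMeasure P'] {X : ℝ → Ω' → ℝ} {v b : ℝ} (hX : IsBM P' X v b) :
    IsBM (P.prod P') (fun t ω => X t ω.2) v b :=
  mp_bm (g := Prod.snd) measurePreserving_snd hX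

theorem cpl_exists {Ω₀ : Type*} [MeasurableSpace Ω₀] {P₀ : Measure Ω₀} [IsProbabilityMeasure P₀] {S₀ : ℝ → ℝ → Ω₀ → ℝ}
    (hS : IsAirySheet P₀ S₀) :
    ∃ (B : ℕ → ℕ → ℝ → Ω₀ × Ω₀ → ℝ) (W₀ : ℝ → Ω₀ → ℝ), IsBM P₀ W₀ 2 0 ∧
      Cpl (P₀.prod P₀) (fun x y ω => S₀ x y ω.1) B (fun t ω => W₀ t ω.2) := by
  obtain ⟨B₀, hB1, hB2, hB3⟩ := hS.lim
  have hW := bm_scale (hB1 1 0) (√2) 1 0 one_pos
  have e1 : √(2 : ℝ) ^ 2 * 1 * 1 = 2 := by rw [Real.sq_sqrt (by norm_num)]; norm_num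
  have e2 : √(2 : ℝ) * 0 * 1 = 0 := by simp
  rw [e1, e2] at hW
  have hBm : ∀ n i, Measurable fun ω => (fun t => B₀ n i t ω : ℝ → ℝ) := fun n i =>
    measurable_pi_lambda _ fun t => (hB1 n i).meas t
  have hp : MeasurePreserving (Prod.fst : Ω₀ × Ω₀ → Ω₀) (P₀.prod P₀) P₀ := measurePreserving_fst
  refine ⟨fun n i t ω => B₀ n i t ω.1, fun t ω => √2 * (B₀ 1 0 (1 * t + 0) ω - B₀ 1 0 0 ω), hW,
    fun x y => (hS.meas x y).comp measurable_fst, hp.quasiMeasurePreserving.ae hS.cont, fun n i => bm_fst (hB1 n i),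
    fun n => mp_iindep hp (f := fun (i : ℕ) ω => (fun t => B₀ n i t ω : ℝ → ℝ)) (hBm n) (hB2 n), fun K ε hε => ?_,
    bm_snd hW, ?_⟩
  · refine (hB3 K ε hε).congr fun n => ?_
    have h1 : {ω : Ω₀ × Ω₀ | ∃ x y : ℝ, |x| ≤ K ∧ |y| ≤ K ∧
        ε < |Sn (fun i t => B₀ n i t ω.1) n x y - S₀ x y ω.1|} =
        {ω | ∃ x y : ℝ, |x| ≤ K ∧ |y| ≤ K ∧ ε < |Sn (fun i t => B₀ n i t ω) n x y - S₀ x y ω|} ×ˢ
          (Set.univ : Set Ω₀) := by
      ext ω; simp
    rw [h1, Measure.prod_prod, measure_univ, mul_one]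
  · have hm1 : Measurable fun ω => (fun t => √2 * (B₀ 1 0 (1 * t + 0) ω - B₀ 1 0 0 ω) : ℝ → ℝ) :=
      measurable_pi_lambda _ fun t => hW.meas t
    have hm2 : Measurable fun ω => ((fun x y => S₀ x y ω : ℝ → ℝ → ℝ), (fun n i t => B₀ n i t ω : ℕ → ℕ → ℝ → ℝ)) :=
      Measurable.prodMk (measurable_pi_lambda _ fun x => measurable_pi_lambda _ fun y => hS.meas x y)
        (measurable_pi_lambda _ fun n => measurable_pi_lambda _ fun i => hBm n i)
    exact (indepFun_prod hm2 hm1).symm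

end Pool.Agent.DLM
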