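import Pool.Agent.DLM.PRA

/-!
# DLM/DSP: displacement of near optimal paths in a sub-block (60-90 lines, deterministic)

`conf_near`: `near_at` with `x = 0` contradicts `Conf` if `|z s| > w` (`ε ≤ 2`).  `disp_le`: `E = w`, `m = w^100`, `D = |z l - z (l+1)| m^2`.  By `near_step` with `x = z (l+1)`: `pre l (z (l+1)) + S l (z (l+1)) (z (l+1)) ≤ pre l (z l) + S l (z l) (z (l+1)) + ε`.  `Modu` and `PEst` (the points are in `[-w, w]` by `conf_near`):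
`(x-y)^2 m^3 = D^2/m`, so `D^2/m ≤ (E/m)(1+D) + (E/m)(1+D) + E/m + 1/m`, i.e. `D^2 ≤ 2 E D + 3 E + 1`.  If `D > 4 E` then `D^2 > 4 E D ≥ 2 E D + 8 E^2 ≥ 2 E D + 3 E + 1` (`E ≥ 1`), contradiction.
-/

set_option autoImplicit false

open MeasureTheory ProbabilityTheory Filter Topology

namespace Pool.Agent.DLM

variable {f : Ini} {S : ℕ → Kern}

theorem conf_near (h : EBdd f S) {w K s : ℕ} (hs : s < K) (hc : Conf w (pre f S s) (sfx S K s)) {ε : ℝ} (hε : ε ≤ 2)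
    {z : ℕ → ℚ} (hz : Near f S K ε z) : |(z s : ℝ)| ≤ w := by
  by_contra hcon
  have h1 := hc (z s) (not_le.1 hcon)
  have h2 := near_at h hz s hs 0
  linarith

theorem disp_le (h : EBdd f S) {w K l : ℕ} (hw : 1 ≤ w) (hl : l + 1 < K) (hc : Conf w (pre f S l) (sfx S K l))
    (hc' : Conf w (pre f S (l + 1)) (sfx S K (l + 1))) (hm : Modu w (pre f S l)) (hp : PEst w (S l))
    {z : ℕ → ℚ} (hz : Near f S K (1 / (w : ℝ) ^ 100) z) : |(z l : ℝ) - z (l + 1)| * w ^ 200 ≤ 4 * w := by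
  have hw1 : (1 : ℝ) ≤ w := by exact_mod_cast hw
  have hw0 : (0 : ℝ) < w := by linarith
  have hmp : (1 : ℝ) ≤ (w : ℝ) ^ 100 := one_le_pow₀ hw1
  have hm0 : (0 : ℝ) < (w : ℝ) ^ 100 := by linarith
  have hε : 1 / (w : ℝ) ^ 100 ≤ 2 := by
    rw [div_le_iff₀ hm0]
    linarith
  have a1 := conf_near h (show l < K by omega) hc hε hz
  have a2 := conf_near h hl hc' hε hz
  have h1 := near_step h hz l (by omega) (z (l + 1))
  have h2 := abs_le.1 (hm (z l) (z (l + 1)) a1 a2)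
  have h3 := abs_le.1 (hp (z l) (z (l + 1)) a1 a2)
  have h4 := abs_le.1 (hp (z (l + 1)) (z (l + 1)) a2 a2)
  rw [sub_self, abs_zero] at h4
  set D : ℝ := |(z l : ℝ) - z (l + 1)| * w ^ 200 with hD
  have hD0 : 0 ≤ D := by positivity
  have e1 : D ^ 2 / (w : ℝ) ^ 100 = ((z l : ℝ) - z (l + 1)) ^ 2 * w ^ 300 := by
    rw [hD, mul_pow, sq_abs, div_eq_iff hm0.ne', mul_assoc, ← pow_mul, ← pow_add]
  have e2 : D ^ 2 / (w : ℝ) ^ 100 ≤ (w : ℝ) / w ^ 100 * (1 + D) + (w : ℝ) / w ^ 100 * (1 + D) + (w : ℝ) / w ^ 100 * (1 + 0 * w ^ 200) +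
      1 / (w : ℝ) ^ 100 := by
    rw [e1]
    linarith [h2.1, h2.2, h3.1, h3.2, h4.1, h4.2]
  have e3 : (w : ℝ) / w ^ 100 * (1 + D) + (w : ℝ) / w ^ 100 * (1 + D) + (w : ℝ) / w ^ 100 * (1 + 0 * w ^ 200) +
      1 / (w : ℝ) ^ 100 = (2 * w * D + 3 * w + 1) / (w : ℝ) ^ 100 := by
    field_simp
    ring
  rw [e3, div_le_div_iff_of_pos_right hm0] at e2
  by_contra hcon
  have h5 : 4 * (w : ℝ) < D := not_le.1 hcon
  nlinarith

end Pool.Agent.DLM
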