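import Pool.Agent.DLM.EDefs

/-!
# DLM/DUR: durations (50-90 lines, arithmetic)

`durW_gap`: `l = i (k+3) + 1 + r` with `i < w^2`, `r < 3`: `l - 1 = i (k+3) + r`, so `(l-1) % (k+3) = r < 3` and `l ≤ w^2 (k+3)`.  `durW_blk`: `l - 1 = i(k+3) + 3 + j`, `(l-1) % (k+3) = 3 + j`.  `durW_total`: the sheets `1, .., w^2 (k+3)` are grouped in `w^2` blocks with total duration `1/w^2 + k/w^300` each (`Finset.sum_range`, or `Finset.sum_mul_..`,
induction on the number of blocks).  `durW_tail`: between `durW (K-1) = 1` and the total `3 + w^2 k/w^300 ≤ 4`.  `bW_lt`: indices.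
-/

set_option autoImplicit false

open MeasureTheory ProbabilityTheory Filter Topology

namespace Pool.Agent.DLM

private theorem blk_le {w k i : ℕ} (hi : i < w ^ 2) : i * (k + 3) + (k + 3) ≤ w ^ 2 * (k + 3) := by
  have h : (i + 1) * (k + 3) ≤ w ^ 2 * (k + 3) := Nat.mul_le_mul_right _ hi
  rw [Nat.succ_mul] at h
  exact h

private theorem durW_mid {w k i r : ℕ} (hi : i < w ^ 2) (hr : r < k + 3) :
    durW w k (i * (k + 3) + 1 + r) = if r < 3 then 1 / (3 * (w : ℝ) ^ 2) else 1 / (w : ℝ) ^ 300 := by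
  have h1 := blk_le (k := k) hi
  have h2 : ¬ (i * (k + 3) + 1 + r = 0 ∨ w ^ 2 * (k + 3) < i * (k + 3) + 1 + r) := by
    rintro (h | h)
    · omega
    · omega
  have h3 : i * (k + 3) + 1 + r - 1 = r + (k + 3) * i := by
    rw [Nat.mul_comm i (k + 3)]
    omega
  unfold durW
  rw [if_neg h2, h3, Nat.add_mul_mod_self_left, Nat.mod_eq_of_lt hr]

private theorem blk_sum {w k : ℕ} (hw : 1 ≤ w) (n : ℕ) (hn : n ≤ w ^ 2) :
    ∑ l ∈ Finset.range (n * (k + 3)), durW w k (l + 1) =
      n * (1 / (w : ℝ) ^ 2 + k / (w : ℝ) ^ 300) := by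
  induction n with
  | zero => simp
  | succ n ih =>
    have hw0 : (w : ℝ) ≠ 0 := by
      have : (1 : ℝ) ≤ w := by exact_mod_cast hw
      positivity
    rw [Nat.succ_mul, Finset.sum_range_add, ih (by omega)]
    have h1 : ∑ x ∈ Finset.range (k + 3), durW w k (n * (k + 3) + x + 1) =
        1 / (w : ℝ) ^ 2 + k / (w : ℝ) ^ 300 := by
      have h2 : ∀ x ∈ Finset.range (k + 3), durW w k (n * (k + 3) + x + 1) =
          if x < 3 then 1 / (3 * (w : ℝ) ^ 2) else 1 / (w : ℝ) ^ 300 := by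
        intro x hx
        rw [← durW_mid (w := w) (k := k) (i := n) (r := x) (by omega) (Finset.mem_range.1 hx)]
        congr 1
        omega
      rw [Finset.sum_congr rfl h2, Nat.add_comm k 3, Finset.sum_range_add]
      have h3 : ∑ x ∈ Finset.range k, (if 3 + x < 3 then 1 / (3 * (w : ℝ) ^ 2) else 1 / (w : ℝ) ^ 300) =
          k / (w : ℝ) ^ 300 := by
        rw [Finset.sum_congr rfl (g := fun _ => 1 / (w : ℝ) ^ 300) (fun x _ => if_neg (by omega))]
        rw [Finset.sum_const, Finset.card_range, nsmul_eq_mul]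
        ring
      rw [h3]
      congr 1
      rw [Finset.sum_range_succ, Finset.sum_range_succ, Finset.sum_range_one]
      norm_num
      field_simp
      norm_num
    rw [h1]
    push_cast
    ring

theorem durW_pos (w k l : ℕ) (hw : 1 ≤ w) : 0 < durW w k l := by
  have h : (0 : ℝ) < w := by exact_mod_cast hw
  unfold durW
  split_ifs <;> positivity

theorem durW_gap (w k i r : ℕ) (hi : i < w ^ 2) (hr : r < 3) : durW w k (bW k i - 3 + r) = 1 / (3 * (w : ℝ) ^ 2) := by
  have h : bW k i - 3 + r = i * (k + 3) + 1 + r := by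
    unfold bW
    omega
  rw [h, durW_mid hi (by omega), if_pos hr]

theorem durW_blk (w k i j : ℕ) (hi : i < w ^ 2) (hj : j < k) : durW w k (bW k i + j) = 1 / (w : ℝ) ^ 300 := by
  have h : bW k i + j = i * (k + 3) + 1 + (3 + j) := by
    unfold bW
    omega
  rw [h, durW_mid hi (by omega), if_neg (by omega)]

theorem durW_total (w k : ℕ) (hw : 1 ≤ w) :
    ∑ l ∈ Finset.range (KW w k), durW w k l = 3 + (w : ℝ) ^ 2 * (k / (w : ℝ) ^ 300) := by
  have hw0 : (w : ℝ) ≠ 0 := by
    have : (1 : ℝ) ≤ w := by exact_mod_cast hw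
    positivity
  unfold KW
  rw [Finset.sum_range_succ, Finset.sum_range_succ', blk_sum hw _ le_rfl]
  have h1 : durW w k 0 = 1 := by
    unfold durW
    rw [if_pos (Or.inl rfl)]
  have h2 : durW w k (w ^ 2 * (k + 3) + 1) = 1 := by
    unfold durW
    rw [if_pos (Or.inr (by omega))]
  rw [h1, h2]
  push_cast
  field_simp
  ring

theorem durW_tail (w k s : ℕ) (hw : 1 ≤ w) (hk : k ≤ w) (hs : s < KW w k) :
    1 ≤ ∑ l ∈ Finset.range (KW w k - 1 - s + 1), durW w k (s + l) ∧
      ∑ l ∈ Finset.range (KW w k - 1 - s + 1), durW w k (s + l) ≤ 4 := by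
  have hpos : ∀ l, 0 < durW w k l := fun l => durW_pos w k l hw
  have hw1 : (1 : ℝ) ≤ w := by exact_mod_cast hw
  have e1 : KW w k - 1 - s + 1 = KW w k - s := by omega
  rw [e1]
  constructor
  · have h1 : durW w k (s + (KW w k - 1 - s)) = 1 := by
      have h2 : s + (KW w k - 1 - s) = w ^ 2 * (k + 3) + 1 := by
        unfold KW at hs ⊢
        omega
      rw [h2]
      unfold durW
      rw [if_pos (Or.inr (by omega))]
    rw [← h1]
    exact Finset.single_le_sum (f := fun l => durW w k (s + l)) (fun l _ => (hpos _).le)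
      (Finset.mem_range.2 (by omega))
  · have h1 : ∑ l ∈ Finset.range (KW w k), durW w k l =
        ∑ l ∈ Finset.range s, durW w k l + ∑ l ∈ Finset.range (KW w k - s), durW w k (s + l) := by
      rw [← Finset.sum_range_add]
      congr 2
      omega
    have h2 : 0 ≤ ∑ l ∈ Finset.range s, durW w k l := Finset.sum_nonneg fun l _ => (hpos l).le
    have h3 := durW_total w k hw
    have h4 : (w : ℝ) ^ 2 * (k / (w : ℝ) ^ 300) ≤ 1 := by
      have hk' : (k : ℝ) ≤ w := by exact_mod_cast hk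
      rw [← mul_div_assoc, div_le_one (by positivity)]
      calc (w : ℝ) ^ 2 * k ≤ (w : ℝ) ^ 2 * w := by gcongr
        _ = (w : ℝ) ^ 3 := by ring
        _ ≤ (w : ℝ) ^ 300 := pow_le_pow_right₀ hw1 (by norm_num)
    linarith

theorem bW_lt (w k i : ℕ) (hi : i < w ^ 2) : bW k i + k < KW w k := by
  have h := blk_le (k := k) hi
  unfold bW KW
  omega

theorem bW_lt' (k i j : ℕ) (hj : j < i) : bW k j + k + 3 ≤ bW k i := by
  have h : (j + 1) * (k + 3) ≤ i * (k + 3) := Nat.mul_le_mul_right _ hj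
  rw [Nat.succ_mul] at h
  unfold bW
  omega

end Pool.Agent.DLM
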