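import Mathlib

/-!
# DLM (MP_7ec1bf_pr): definitions

* `IsBM P X v b`: `X` is a two-sided Brownian motion with variance `v` and drift `b` (`X 0 = 0`, continuous paths,
  independent Gaussian increments).
* `lpp B n x y`: last passage value of Brownian last passage percolation from `(x, line n-1)` to `(y, line 0)`.
* `Sn B n`: the rescaled last passage values of Dauvergne, Ortmann and Virag.
* `IsAirySheet P S`: `S` is the limit of `Sn` (uniformly on compact sets, in probability, in a coupling).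
* `IsDL P₀ S₀ P L`: `L` is a directed landscape; `S₀` is the Airy sheet on its own probability space.
* `IsGeod`: directed geodesics from `(0,0)` to `(0,1)`.
* `gg`, `Meps`, `M0`: the modulus of continuity `g`, `M_ε` and `M_0` of the problem.
-/

set_option autoImplicit false

open MeasureTheory ProbabilityTheory Filter Topology

namespace Pool.Agent.DLM

/-- Two-sided Brownian motion with variance `v` and drift `b`. -/
structure IsBM {Ω : Type*} [MeasurableSpace Ω] (P : Measure Ω) (X : ℝ → Ω → ℝ) (v b : ℝ) : Prop where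
  meas : ∀ t, Measurable (X t)
  cont : ∀ᵐ ω ∂P, Continuous fun t => X t ω
  zero : ∀ᵐ ω ∂P, X 0 ω = 0
  gauss : ∀ s t : ℝ, s ≤ t →
    P.map (fun ω => X t ω - X s ω) = gaussianReal (b * (t - s)) (Real.toNNReal (v * (t - s)))
  indep : ∀ t : ℕ → ℝ, Monotone t → iIndepFun (fun (i : ℕ) (ω : Ω) => X (t (i + 1)) ω - X (t i) ω) P

/-- Brownian last passage value from `(x, line n - 1)` to `(y, line 0)`: the supremum over all
`x = t n ≤ t (n - 1) ≤ ... ≤ t 0 = y` of the sum of the increments of the line `i` over `[t (i + 1), t i]`. -/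
noncomputable def lpp (B : ℕ → ℝ → ℝ) (n : ℕ) (x y : ℝ) : ℝ :=
  sSup {w | ∃ t : ℕ → ℝ, t n = x ∧ t 0 = y ∧ (∀ i < n, t (i + 1) ≤ t i) ∧
    w = ∑ i ∈ Finset.range n, (B i (t i) - B i (t (i + 1)))}

/-- The rescaled last passage values:
`lpp (2 x n^(-1/3)) (1 + 2 y n^(-1/3)) = 2 √n + 2 (y - x) n^(1/6) + n^(-1/6) Sn x y`. -/
noncomputable def Sn (B : ℕ → ℝ → ℝ) (n : ℕ) (x y : ℝ) : ℝ :=
  (n : ℝ) ^ (1 / 6 : ℝ) *
    (lpp B n (2 * x * (n : ℝ) ^ (-(1 / 3) : ℝ)) (1 + 2 * y * (n : ℝ) ^ (-(1 / 3) : ℝ)) -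
      2 * √(n : ℝ) - 2 * (y - x) * (n : ℝ) ^ (1 / 6 : ℝ))

/-- `S` is an Airy sheet: a random continuous function which is, in a coupling, the limit of the rescaled last
passage values of Brownian last passage percolation, uniformly on compact sets in probability. -/
structure IsAirySheet {Ω : Type*} [MeasurableSpace Ω] (P : Measure Ω) (S : ℝ → ℝ → Ω → ℝ) : Prop where
  meas : ∀ x y, Measurable (S x y)
  cont : ∀ᵐ ω ∂P, Continuous fun p : ℝ × ℝ => S p.1 p.2 ω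
  lim : ∃ B : ℕ → ℕ → ℝ → Ω → ℝ,
    (∀ n i, IsBM P (B n i) 1 0) ∧
    (∀ n, iIndepFun (fun (i : ℕ) (ω : Ω) (t : ℝ) => B n i t ω) P) ∧
    ∀ K ε : ℝ, 0 < ε → Tendsto (fun n : ℕ => P {ω | ∃ x y : ℝ, |x| ≤ K ∧ |y| ≤ K ∧
      ε < |Sn (fun i t => B n i t ω) n x y - S x y ω|}) atTop (𝓝 0)

/-- `L` (with `L x s y t` the value from `(x, s)` to `(y, t)`) is a directed landscape, where `S₀` is the Airy sheet. -/
structure IsDL {Ω₀ : Type*} [MeasurableSpace Ω₀] (P₀ : Measure Ω₀) (S₀ : ℝ → ℝ → Ω₀ → ℝ)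
    {Ω : Type*} [MeasurableSpace Ω] (P : Measure Ω) (L : ℝ → ℝ → ℝ → ℝ → Ω → ℝ) : Prop where
  meas : ∀ x s y t, Measurable (L x s y t)
  cont : ∀ᵐ ω ∂P, ContinuousOn (fun p : (ℝ × ℝ) × ℝ × ℝ => L p.1.1 p.1.2 p.2.1 p.2.2 ω) {p | p.1.2 < p.2.2}
  /-- Airy sheet marginals: `L(·, s; ·, s + θ³)` has the law of `θ S₀(·/θ², ·/θ²)`. -/
  sheet : ∀ (s θ : ℝ), 0 < θ → ∀ (k : ℕ) (x y : Fin k → ℝ),
    P.map (fun ω i => L (θ ^ 2 * x i) s (θ ^ 2 * y i) (s + θ ^ 3) ω) = P₀.map (fun ω i => θ * S₀ (x i) (y i) ω)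
  /-- independent increments -/
  indep : ∀ t : ℕ → ℝ, StrictMono t →
    iIndepFun (fun (i : ℕ) (ω : Ω) (p : ℝ × ℝ) => L p.1 (t i) p.2 (t (i + 1)) ω) P
  /-- metric composition law -/
  comp : ∀ r s t : ℝ, r < s → s < t → ∀ᵐ ω ∂P, ∀ x y,
    IsGreatest (Set.range fun z => L x r z s ω + L z s y t ω) (L x r y t ω)

/-- `p` is a directed geodesic from `(0, 0)` to `(0, 1)` of the directed metric `l`. -/
structure IsGeod (l : ℝ → ℝ → ℝ → ℝ → ℝ) (p : ℝ → ℝ) : Prop where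
  cont : ContinuousOn p (Set.Icc 0 1)
  left : p 0 = 0
  right : p 1 = 0
  /-- the length of `p` (infimum over all partitions) is the value of `l` between the endpoints -/
  length : IsGLB {w | ∃ (k : ℕ) (τ : ℕ → ℝ), τ 0 = 0 ∧ τ (k + 1) = 1 ∧ (∀ i ≤ k, τ i < τ (i + 1)) ∧
    w = ∑ i ∈ Finset.range (k + 1), l (p (τ i)) (τ i) (p (τ (i + 1))) (τ (i + 1))} (l 0 0 0 1)

/-- the modulus of continuity `g(h) = h^(2/3) (log (2/h))^(1/3)` -/
noncomputable def gg (h : ℝ) : ℝ := h ^ (2 / 3 : ℝ) * Real.log (2 / h) ^ (1 / 3 : ℝ)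

/-- `M_ε` of the problem -/
noncomputable def Meps (p : ℝ → ℝ) (ε : ℝ) : ENNReal :=
  ⨆ (s : ℝ) (t : ℝ) (_ : s ∈ Set.Icc (0 : ℝ) 1 ∧ t ∈ Set.Icc (0 : ℝ) 1 ∧ 0 < |t - s| ∧ |t - s| < ε),
    ENNReal.ofReal (|p t - p s| / gg |t - s|)

/-- `M_0` of the problem -/
noncomputable def M0 (p : ℝ → ℝ) : ENNReal := ⨅ (ε : ℝ) (_ : 0 < ε), Meps p ε

/-- Brownian motion without continuity of the paths. -/
structure IsPre {Ω : Type*} [MeasurableSpace Ω] (P : Measure Ω) (X : ℝ → Ω → ℝ) (v b : ℝ) : Prop where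
  meas : ∀ t, Measurable (X t)
  zero : ∀ᵐ ω ∂P, X 0 ω = 0
  gauss : ∀ s t : ℝ, s ≤ t →
    P.map (fun ω => X t ω - X s ω) = gaussianReal (b * (t - s)) (Real.toNNReal (v * (t - s)))
  indep : ∀ t : ℕ → ℝ, Monotone t → iIndepFun (fun (i : ℕ) (ω : Ω) => X (t (i + 1)) ω - X (t i) ω) P

theorem IsBM.pre {Ω : Type*} [MeasurableSpace Ω] {P : Measure Ω} {X : ℝ → Ω → ℝ} {v b : ℝ} (h : IsBM P X v b) :
    IsPre P X v b := ⟨h.meas, h.zero, h.gauss, h.indep⟩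

/-! ### laws on countable index sets -/

/-- Initial data (restricted to rational points). -/
abbrev Ini : Type := ℚ → ℝ

/-- Kernels (restricted to rational points). -/
abbrev Kern : Type := ℚ → ℚ → ℝ

/-- `β` is the law of a two-sided Brownian motion with variance `v` and drift `b`, restricted to the rationals. -/
structure IsBML (β : Measure Ini) (v b : ℝ) : Prop where
  prob : IsProbabilityMeasure β
  zero : ∀ᵐ f ∂β, f 0 = 0
  gauss : ∀ s t : ℚ, s ≤ t →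
    β.map (fun f => f t - f s) = gaussianReal (b * (t - s)) (Real.toNNReal (v * (t - s)))
  indep : ∀ t : ℕ → ℚ, Monotone t → iIndepFun (fun (i : ℕ) (f : Ini) => f (t (i + 1)) - f (t i)) β

/-- max-plus action of a kernel on initial data -/
noncomputable def act (f : Ini) (S : Kern) : Ini := fun y => ⨆ x, (f x + S x y)

/-- max-plus composition of kernels -/
noncomputable def kcomp (S T : Kern) : Kern := fun x y => ⨆ z, (S x z + T z y)

/-- `act f S` is a supremum of bounded sets -/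
def ABdd (f : Ini) (S : Kern) : Prop := ∀ y, BddAbove (Set.range fun x => f x + S x y)

/-- `kcomp S T` is a supremum of bounded sets -/
def CBdd (S T : Kern) : Prop := ∀ x y, BddAbove (Set.range fun z => S x z + T z y)

/-- quadrangle inequality -/
def Quad (S : Kern) : Prop := ∀ x x' y y', x ≤ x' → y ≤ y' → S x y' + S x' y ≤ S x y + S x' y'

/-- The properties of the sheets of the directed landscape used in the proof: `ν θ` is the law of
`L(·, 0; ·, θ)` on rational points, `tw` is the law of `L(0, 0; 0, 1)`, `β b` is the law of Brownian motion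
with variance `2` and drift `b`. -/
structure Base (ν : ℝ → Measure Kern) (tw : Measure ℝ) (β : ℝ → Measure Ini) : Prop where
  prob : ∀ θ, 0 < θ → IsProbabilityMeasure (ν θ)
  twprob : IsProbabilityMeasure tw
  bm : ∀ b, IsBML (β b) 2 b
  comp_bdd : ∀ θ θ', 0 < θ → 0 < θ' → ∀ᵐ p ∂((ν θ).prod (ν θ')), CBdd p.1 p.2
  comp : ∀ θ θ', 0 < θ → 0 < θ' → ((ν θ).prod (ν θ')).map (fun p => kcomp p.1 p.2) = ν (θ + θ')
  scal : ∀ (θ : ℝ) (r : ℚ), 0 < θ → 0 < r →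
    (ν θ).map (fun S x y => (r : ℝ) * S (x / r ^ 2) (y / r ^ 2)) = ν ((r : ℝ) ^ 3 * θ)
  shift : ∀ (θ : ℝ) (a : ℚ), 0 < θ → (ν θ).map (fun S x y => S (x + a) (y + a)) = ν θ
  quad : ∀ θ, 0 < θ → ∀ᵐ S ∂(ν θ), Quad S
  one : ∀ (θ : ℝ) (x y : ℚ), 0 < θ → (ν θ).map (fun S => S x y) =
    tw.map (fun t => θ ^ (1 / 3 : ℝ) * t - ((x : ℝ) - y) ^ 2 / θ)
  mgf : ∀ c : ℝ, 0 < c → ∫⁻ t, ENNReal.ofReal (Real.exp (c * t)) ∂tw ≤ ENNReal.ofReal (Real.exp (c ^ 3 / 12))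
  pos : ∀ a : ℝ, 0 < tw (Set.Ici a)
  stat_bdd : ∀ b θ, 0 < θ → ∀ᵐ p ∂((β b).prod (ν θ)), ABdd p.1 p.2
  stat : ∀ b θ, 0 < θ → ((β b).prod (ν θ)).map (fun p y => act p.1 p.2 y - act p.1 p.2 0) = β b
  neg_bdd : ∀ᵐ p ∂((β 0).prod (ν 1)), BddAbove (Set.range fun x : ℚ => p.1 x + 2 * |(x : ℝ)| + p.2 x 0)
  neg : ∫⁻ p, ENNReal.ofReal (Real.exp (-2 * ⨆ x : ℚ, (p.1 x + 2 * |(x : ℝ)| + p.2 x 0))) ∂((β 0).prod (ν 1)) ≤ 1
  bk : ∀ (v : ℚ) (F : Finset (ℚ × ℚ)) (a c : ℝ),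
    ν 1 {S | a ≤ S 0 v ∧ ∃ q ∈ F, c ≤ S q.1 q.2} ≤
      ν 1 {S | a ≤ S 0 v} * ν 1 {S | ∃ q ∈ F, c ≤ S q.1 q.2} +
      ν 1 {S | ∃ q ∈ F, a + c ≤ S 0 q.2 + S q.1 v}

end Pool.Agent.DLM
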