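import Pool.Agent.DLM.TIM
import Pool.Agent.DLM.PRL
import Pool.Agent.DLM.BMU
import Pool.Agent.DLM.BMT
import Pool.Agent.DLM.CPL

/-!
# DLM/ENL: the law of the environment inside the landscape (100-140 lines)

`t 0 = 0`, `t (j+1) = tauW j` is strictly increasing; by `shL_indep`, `shL_law` and `iIndepFun_iff_map_fun_eq_infinitePi_map` the law of `(shL (t j) (t (j+1)))_j` is `piM ν dur'` with `dur' 0 = tauW 0`, `dur' (j+1) = durW j/w^900`.  The law of `gB W e` is `β e`: `bm_addd` (drift), `bml_law` (`IsBM.pre`), `bml_unique` (`Base.bm`).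
`gB` depends on `ω.2`, the sheets on `ω.1`: joint law `envM ν β dur' e`.  `pre_law` with `s = 1` (`pre f S 1 = act f (S 0)`): `(nrm (act gB S_0), (S_(1+l))_l)` has the law `envM ν β (durW/w^900) e`.  Scaling: `f ↦ w^300 f(x/w^600)` maps `β e` to `β (e/w^300)` (`bml_map_scale` with `r = w^300`, `bml_unique`), `S ↦ w^300 S(x/w^600, y/w^600)` maps
`ν (durW l/w^900)` to `ν (durW l)` (`Base.scal`, `r = w^300`); `Measure.infinitePi_map_pi`.
-/

set_option autoImplicit false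

open MeasureTheory ProbabilityTheory Filter Topology

namespace Pool.Agent.DLM

private noncomputable def ENLt (w k : ℕ) : ℕ → ℝ
  | 0 => 0
  | n + 1 => tauW w k n

private noncomputable def ENLd (w k : ℕ) : ℕ → ℝ
  | 0 => tauW w k 0
  | n + 1 => durW w k n / (w : ℝ) ^ 900

private theorem ENL_t1 (w k l : ℕ) : ENLt w k (1 + l) = tauW w k l := by
  rw [Nat.add_comm]; rfl

private theorem ENL_d1 (w k l : ℕ) : ENLd w k (1 + l) = durW w k l / (w : ℝ) ^ 900 := by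
  rw [Nat.add_comm]; rfl

private theorem ENL_mono {w k : ℕ} (hw : 2 ≤ w) (hk : k ≤ w) : StrictMono (ENLt w k) := by
  refine strictMono_nat_of_lt_succ fun n => ?_
  match n with
  | 0 =>
    have := tauW_zero_ge w k hw hk
    show (0 : ℝ) < tauW w k 0
    linarith
  | n + 1 => exact tauW_mono w k (by omega) (Nat.lt_succ_self n)

private theorem ENL_diff {w k : ℕ} (hw : 1 ≤ w) (i : ℕ) : ENLt w k (i + 1) - ENLt w k i = ENLd w k i := by
  match i with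
  | 0 =>
    show tauW w k 0 - 0 = tauW w k 0
    rw [sub_zero]
  | n + 1 => exact tauW_succ w k n hw

private theorem ENL_dpos {w k : ℕ} (hw : 2 ≤ w) (hk : k ≤ w) (i : ℕ) : 0 < ENLd w k i := by
  rw [← ENL_diff (by omega) i]
  exact sub_pos.2 (ENL_mono hw hk (Nat.lt_succ_self i))

section

variable {Ω₀ Ω : Type*} [MeasurableSpace Ω₀] [MeasurableSpace Ω] {P₀ : Measure Ω₀} [IsProbabilityMeasure P₀]
    {S₀ : ℝ → ℝ → Ω₀ → ℝ} {P : Measure Ω} [IsProbabilityMeasure P] {L : ℝ → ℝ → ℝ → ℝ → Ω → ℝ} {tw : Measure ℝ}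
    {β : ℝ → Measure Ini} {W : ℝ → Ω₀ → ℝ}

private theorem ENL_G_meas (hW : IsBM P₀ W 2 0) (e : ℝ) : Measurable fun (ω : Ω₀) (x : ℚ) => W x ω + e * (x : ℝ) :=
  measurable_pi_lambda _ fun x => (hW.meas x).add_const _

private theorem ENL_G (h : Base (nuS P₀ S₀) tw β) (hW : IsBM P₀ W 2 0) (e : ℝ) :
    MeasurePreserving (fun (ω : Ω₀) (x : ℚ) => W x ω + e * (x : ℝ)) P₀ (β e) := by
  refine ⟨ENL_G_meas hW e, ?_⟩
  have h1 := bml_law (bm_addd hW e).pre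
  rw [zero_add] at h1
  exact bml_unique h1 (h.bm e)

private theorem ENL_S (hS : IsAirySheet P₀ S₀) (hL : IsDL P₀ S₀ P L) {w k : ℕ} (hw : 2 ≤ w) (hk : k ≤ w) :
    MeasurePreserving (fun ω (i : ℕ) => shL L (ENLt w k i) (ENLt w k (i + 1)) ω) P (piM (nuS P₀ S₀) (ENLd w k)) := by
  refine ⟨measurable_pi_lambda _ fun i => shL_meas hL _ _, ?_⟩
  have h1 := shL_indep hL (ENLt w k) (ENL_mono hw hk)
  rw [iIndepFun_iff_map_fun_eq_infinitePi_map (fun i => shL_meas hL _ _)] at h1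
  rw [h1]
  unfold piM
  congr 1
  funext i
  rw [← ENL_diff (w := w) (k := k) (by omega) i]
  exact shL_law hS hL (ENL_mono hw hk (Nat.lt_succ_self i))

private theorem ENL_joint (h : Base (nuS P₀ S₀) tw β) (hS : IsAirySheet P₀ S₀) (hL : IsDL P₀ S₀ P L)
    (hW : IsBM P₀ W 2 0) {w k : ℕ} (hw : 2 ≤ w) (hk : k ≤ w) (e : ℝ) :
    MeasurePreserving (fun ω : Ω × Ω₀ => (gB W e ω, fun i : ℕ => shL L (ENLt w k i) (ENLt w k (i + 1)) ω.1))
      (P.prod P₀) (envM (nuS P₀ S₀) β (ENLd w k) e) := by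
  have i1 : IsProbabilityMeasure (β e) := (h.bm e).prob
  have i2 : IsProbabilityMeasure (piM (nuS P₀ S₀) (ENLd w k)) := piM_prob h (ENL_dpos hw hk)
  have h1 := (ENL_G h hW e).prod (ENL_S hS hL hw hk)
  exact h1.comp (Measure.measurePreserving_swap (μ := P) (ν := P₀))

theorem env_law {Ω₀ Ω : Type*} [MeasurableSpace Ω₀] [MeasurableSpace Ω] {P₀ : Measure Ω₀} [IsProbabilityMeasure P₀]
    {S₀ : ℝ → ℝ → Ω₀ → ℝ} {P : Measure Ω} [IsProbabilityMeasure P] {L : ℝ → ℝ → ℝ → ℝ → Ω → ℝ} {tw : Measure ℝ}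
    {β : ℝ → Measure Ini} {W : ℝ → Ω₀ → ℝ} (h : Base (nuS P₀ S₀) tw β) (hS : IsAirySheet P₀ S₀) (hL : IsDL P₀ S₀ P L)
    (hW : IsBM P₀ W 2 0) (w k : ℕ) (hw : 2 ≤ w) (hk : k ≤ w) (e : ℝ) :
    (P.prod P₀).map (fun ω => (fB L W w k e ω, shW L w k ω.1)) = envM (nuS P₀ S₀) β (durW w k) (e / (w : ℝ) ^ 300) := by
  have hw0 : (0 : ℝ) < w := by
    have : (2 : ℝ) ≤ w := by exact_mod_cast hw
    linarith
  have hwq : (0 : ℚ) < (w : ℚ) ^ 300 := by
    have : (2 : ℚ) ≤ w := by exact_mod_cast hw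
    positivity
  have hd := ENL_dpos (w := w) (k := k) hw hk
  have hd1 : ∀ l, 0 < ENLd w k (1 + l) := fun l => hd _
  have i1 : IsProbabilityMeasure (β e) := (h.bm e).prob
  have i1' : IsProbabilityMeasure (β (e / (w : ℝ) ^ 300)) := (h.bm _).prob
  have hJ := ENL_joint h hS hL hW hw hk e
  have hP : MeasurePreserving (fun p : Ini × (ℕ → Kern) => (nrm (pre p.1 p.2 1), shf p.2 1))
      (envM (nuS P₀ S₀) β (ENLd w k) e) (envM (nuS P₀ S₀) β (fun l => ENLd w k (1 + l)) e) :=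
    ⟨(nrm_meas.comp (pre_meas 1)).prodMk ((shf_meas 1).comp measurable_snd), pre_law h hd e 1⟩
  have hT1 : MeasurePreserving (fun (f : Ini) (x : ℚ) => (((w : ℚ) ^ 300 : ℚ) : ℝ) * f (x / ((w : ℚ) ^ 300) ^ 2))
      (β e) (β (e / (w : ℝ) ^ 300)) := by
    refine ⟨measurable_pi_lambda _ fun x => (measurable_pi_apply _).const_mul _, ?_⟩
    have h1 := bml_map_scale (h.bm e) ((w : ℚ) ^ 300) hwq
    have h2 : e / (((w : ℚ) ^ 300 : ℚ) : ℝ) = e / (w : ℝ) ^ 300 := by push_cast; rfl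
    rw [h2] at h1
    exact bml_unique h1 (h.bm _)
  have hT2m : Measurable fun (S : Kern) => (fun x y =>
      (((w : ℚ) ^ 300 : ℚ) : ℝ) * S (x / ((w : ℚ) ^ 300) ^ 2) (y / ((w : ℚ) ^ 300) ^ 2) : Kern) :=
    measurable_pi_lambda _ fun x => measurable_pi_lambda _ fun y =>
      Measurable.const_mul (f := fun S : Kern => S (x / ((w : ℚ) ^ 300) ^ 2) (y / ((w : ℚ) ^ 300) ^ 2))
        ((measurable_pi_apply (y / ((w : ℚ) ^ 300) ^ 2)).comp (measurable_pi_apply (x / ((w : ℚ) ^ 300) ^ 2))) _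
  have hT2 : ∀ l, (nuS P₀ S₀ (ENLd w k (1 + l))).map (fun (S : Kern) => (fun x y =>
      (((w : ℚ) ^ 300 : ℚ) : ℝ) * S (x / ((w : ℚ) ^ 300) ^ 2) (y / ((w : ℚ) ^ 300) ^ 2) : Kern)) =
      nuS P₀ S₀ (durW w k l) := by
    intro l
    rw [h.scal (ENLd w k (1 + l)) ((w : ℚ) ^ 300) (hd1 l) hwq, ENL_d1]
    congr 1
    push_cast
    field_simp
  have i4 : ∀ l, IsProbabilityMeasure (nuS P₀ S₀ (ENLd w k (1 + l))) := fun l => h.prob _ (hd1 l)
  have i2 : IsProbabilityMeasure (piM (nuS P₀ S₀) (fun l => ENLd w k (1 + l))) := piM_prob h hd1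
  have hwd : ∀ l, 0 < durW w k l := fun l => durW_pos w k l (by omega)
  have i3 : IsProbabilityMeasure (piM (nuS P₀ S₀) (durW w k)) := piM_prob h hwd
  have hT3 : MeasurePreserving (fun (S : ℕ → Kern) (l : ℕ) => (fun x y =>
      (((w : ℚ) ^ 300 : ℚ) : ℝ) * S l (x / ((w : ℚ) ^ 300) ^ 2) (y / ((w : ℚ) ^ 300) ^ 2) : Kern))
      (piM (nuS P₀ S₀) (fun l => ENLd w k (1 + l))) (piM (nuS P₀ S₀) (durW w k)) := by
    refine ⟨measurable_pi_lambda _ fun l => hT2m.comp (measurable_pi_apply l), ?_⟩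
    unfold piM
    have h1 := Measure.infinitePi_map_pi (μ := fun l => nuS P₀ S₀ (ENLd w k (1 + l)))
      (f := fun _ (S : Kern) => (fun x y =>
        (((w : ℚ) ^ 300 : ℚ) : ℝ) * S (x / ((w : ℚ) ^ 300) ^ 2) (y / ((w : ℚ) ^ 300) ^ 2) : Kern))
      (fun _ => hT2m)
    rw [show (fun l => nuS P₀ S₀ (durW w k l)) = fun l => (nuS P₀ S₀ (ENLd w k (1 + l))).map (fun (S : Kern) =>
      (fun x y => (((w : ℚ) ^ 300 : ℚ) : ℝ) * S (x / ((w : ℚ) ^ 300) ^ 2) (y / ((w : ℚ) ^ 300) ^ 2) : Kern)) from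
      funext fun l => (hT2 l).symm]
    exact h1
  have hall := ((hT1.prod hT3).comp (hP.comp hJ)).map_eq
  refine Eq.trans ?_ hall
  congr 1
  funext ω
  have e6 : ((w : ℚ) ^ 300) ^ 2 = (w : ℚ) ^ 600 := by rw [← pow_mul]
  refine Prod.ext ?_ ?_
  · funext x
    show (w : ℝ) ^ 300 * (act (gB W e ω) (shL L 0 (tauW w k 0) ω.1) (x / (w : ℚ) ^ 600) -
      act (gB W e ω) (shL L 0 (tauW w k 0) ω.1) 0) =
      (((w : ℚ) ^ 300 : ℚ) : ℝ) * (act (gB W e ω) (shL L 0 (tauW w k 0) ω.1) (x / ((w : ℚ) ^ 300) ^ 2) -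
      act (gB W e ω) (shL L 0 (tauW w k 0) ω.1) 0)
    rw [e6]
    push_cast
    rfl
  · funext l x y
    show (w : ℝ) ^ 300 * shL L (tauW w k l) (tauW w k (l + 1)) ω.1 (x / (w : ℚ) ^ 600) (y / (w : ℚ) ^ 600) =
      (((w : ℚ) ^ 300 : ℚ) : ℝ) * shL L (ENLt w k (1 + l)) (ENLt w k (1 + l + 1)) ω.1
        (x / ((w : ℚ) ^ 300) ^ 2) (y / ((w : ℚ) ^ 300) ^ 2)
    rw [e6, ENL_t1, Nat.add_assoc, ENL_t1]
    push_cast
    rfl

theorem gB_law {Ω₀ Ω : Type*} [MeasurableSpace Ω₀] [MeasurableSpace Ω] {P₀ : Measure Ω₀} [IsProbabilityMeasure P₀]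
    {S₀ : ℝ → ℝ → Ω₀ → ℝ} {P : Measure Ω} [IsProbabilityMeasure P] {L : ℝ → ℝ → ℝ → ℝ → Ω → ℝ} {tw : Measure ℝ}
    {β : ℝ → Measure Ini} {W : ℝ → Ω₀ → ℝ} (h : Base (nuS P₀ S₀) tw β) (hS : IsAirySheet P₀ S₀) (hL : IsDL P₀ S₀ P L)
    (hW : IsBM P₀ W 2 0) (w k : ℕ) (hw : 2 ≤ w) (hk : k ≤ w) (e : ℝ) :
    (P.prod P₀).map (fun ω => (gB W e ω, shL L 0 (tauW w k 0) ω.1)) = (β e).prod (nuS P₀ S₀ (tauW w k 0)) := by
  have h0 : 0 < tauW w k 0 := by linarith [tauW_zero_ge w k hw hk]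
  have i1 : IsProbabilityMeasure (β e) := (h.bm e).prob
  have i2 : IsProbabilityMeasure (nuS P₀ S₀ (tauW w k 0)) := h.prob _ h0
  have hS1 : MeasurePreserving (shL L 0 (tauW w k 0)) P (nuS P₀ S₀ (tauW w k 0)) := by
    refine ⟨shL_meas hL _ _, ?_⟩
    rw [shL_law hS hL h0, sub_zero]
  have h1 := (ENL_G h hW e).prod hS1
  exact (h1.comp (Measure.measurePreserving_swap (μ := P) (ν := P₀))).map_eq

theorem fB_meas {Ω₀ Ω : Type*} [MeasurableSpace Ω₀] [MeasurableSpace Ω] {P₀ : Measure Ω₀} [IsProbabilityMeasure P₀]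
    {S₀ : ℝ → ℝ → Ω₀ → ℝ} {P : Measure Ω} [IsProbabilityMeasure P] {L : ℝ → ℝ → ℝ → ℝ → Ω → ℝ}
    {W : ℝ → Ω₀ → ℝ} (hL : IsDL P₀ S₀ P L) (hW : IsBM P₀ W 2 0) (w k : ℕ) (e : ℝ) :
    Measurable fun ω : Ω × Ω₀ => (fB L W w k e ω, shW L w k ω.1) := by
  have hg : Measurable fun ω : Ω × Ω₀ => gB W e ω := (ENL_G_meas hW e).comp measurable_snd
  have hA : Measurable fun ω : Ω × Ω₀ => act (gB W e ω) (shL L 0 (tauW w k 0) ω.1) :=
    act_meas.comp (hg.prodMk ((shL_meas hL _ _).comp measurable_fst))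
  refine Measurable.prodMk ?_ ?_
  · refine measurable_pi_lambda _ fun x => ?_
    exact (((measurable_pi_apply _).comp hA).sub ((measurable_pi_apply _).comp hA)).const_mul _
  · refine measurable_pi_lambda _ fun l => measurable_pi_lambda _ fun x => measurable_pi_lambda _ fun y => ?_
    exact ((hL.meas _ _ _ _).comp measurable_fst).const_mul _

end

end Pool.Agent.DLM
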