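import Pool.Agent.DLM.NUA

/-!
# DLM/NUX: the sheets of a directed landscape

The restriction of the directed landscape to rational points: laws, independence and composition.
-/

set_option autoImplicit false

open MeasureTheory ProbabilityTheory Filter Topology

namespace Pool.Agent.DLM

variable {Ω₀ Ω : Type*} [MeasurableSpace Ω₀] [MeasurableSpace Ω] {P₀ : Measure Ω₀} [IsProbabilityMeasure P₀]
  {S₀ : ℝ → ℝ → Ω₀ → ℝ} {P : Measure Ω} [IsProbabilityMeasure P] {L : ℝ → ℝ → ℝ → ℝ → Ω → ℝ}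

/-- the sheet from time `s` to time `t` on rational points -/
def shL (L : ℝ → ℝ → ℝ → ℝ → Ω → ℝ) (s t : ℝ) (ω : Ω) : Kern := fun x y => L x s y t ω

theorem shL_meas (hL : IsDL P₀ S₀ P L) (s t : ℝ) : Measurable (shL L s t) :=
  measurable_pi_lambda _ fun x => measurable_pi_lambda _ fun y => hL.meas x s y t

private lemma kern_eval (x y : ℚ) : Measurable fun S : Kern => S x y :=
  (measurable_pi_apply y).comp (measurable_pi_apply x)

theorem kcomp_meas : Measurable fun p : Kern × Kern => kcomp p.1 p.2 := by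
  refine measurable_pi_lambda _ fun x => measurable_pi_lambda _ fun y => ?_
  exact Measurable.iSup fun z => ((kern_eval x z).comp measurable_fst).add ((kern_eval z y).comp measurable_snd)

theorem act_meas : Measurable fun p : Ini × Kern => act p.1 p.2 := by
  refine measurable_pi_lambda _ fun y => ?_
  exact Measurable.iSup fun x => ((measurable_pi_apply x).comp measurable_fst).add ((kern_eval x y).comp measurable_snd)

theorem shL_law (hS : IsAirySheet P₀ S₀) (hL : IsDL P₀ S₀ P L) {s t : ℝ} (h : s < t) :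
    P.map (shL L s t) = nuS P₀ S₀ (t - s) := by
  have hθ : 0 < t - s := sub_pos.2 h
  set τ : ℝ := (t - s) ^ (1 / 3 : ℝ) with hτ
  have hτ0 : 0 < τ := Real.rpow_pos_of_pos hθ _
  have e3 : τ ^ 3 = t - s := by
    rw [hτ, ← Real.rpow_natCast, ← Real.rpow_mul hθ.le]; norm_num
  have e2 : (t - s) ^ (2 / 3 : ℝ) = τ ^ 2 := by
    rw [hτ, ← Real.rpow_natCast, ← Real.rpow_mul hθ.le]; norm_num
  rw [nuS, ← hτ, e2]
  refine kern_law_ext (X := fun x y ω => L x s y t ω) (Y := fun x y ω => τ * S₀ ((x : ℝ) / τ ^ 2) ((y : ℝ) / τ ^ 2) ω)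
    (fun x y => hL.meas x s y t) (fun x y => (hS.meas _ _).const_mul τ) fun k x y => ?_
  have h1 := hL.sheet s τ hτ0 k (fun i => (x i : ℝ) / τ ^ 2) (fun i => (y i : ℝ) / τ ^ 2)
  have e4 : ∀ a : ℝ, τ ^ 2 * (a / τ ^ 2) = a := fun a => by field_simp
  simp only [e4, e3, add_sub_cancel] at h1
  exact h1

theorem shL_indep (hL : IsDL P₀ S₀ P L) (t : ℕ → ℝ) (ht : StrictMono t) :
    iIndepFun (fun (i : ℕ) ω => shL L (t i) (t (i + 1)) ω) P := by
  have h1 := (hL.indep t ht).comp (fun _ (f : ℝ × ℝ → ℝ) => (fun (x y : ℚ) => f ((x : ℝ), (y : ℝ)) : Kern))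
    (fun _ => measurable_pi_lambda _ fun x => measurable_pi_lambda _ fun y => measurable_pi_apply _)
  exact h1

theorem shL_comp (hL : IsDL P₀ S₀ P L) {r s t : ℝ} (h1 : r < s) (h2 : s < t) :
    ∀ᵐ ω ∂P, CBdd (shL L r s ω) (shL L s t ω) ∧ kcomp (shL L r s ω) (shL L s t ω) = shL L r t ω := by
  filter_upwards [hL.comp r s t h1 h2, hL.cont] with ω hω hc
  have hb : CBdd (shL L r s ω) (shL L s t ω) := by
    intro x y
    refine ⟨L x r y t ω, ?_⟩
    rintro _ ⟨z, rfl⟩
    exact (hω x y).2 ⟨(z : ℝ), rfl⟩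
  refine ⟨hb, ?_⟩
  funext x y
  refine le_antisymm (ciSup_le fun z => (hω x y).2 ⟨(z : ℝ), rfl⟩) ?_
  obtain ⟨z₀, hz₀⟩ := (hω x y).1
  change L x r z₀ s ω + L z₀ s y t ω = L x r y t ω at hz₀
  change L x r y t ω ≤ _
  have hg : Continuous fun z : ℝ => L x r z s ω + L z s y t ω := by
    have c1 : Continuous fun z : ℝ => (((x : ℝ), r), (z, s)) := by fun_prop
    have c2 : Continuous fun z : ℝ => ((z, s), ((y : ℝ), t)) := by fun_prop
    exact (hc.comp_continuous c1 fun z => h1).add (hc.comp_continuous c2 fun z => h2)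
  have hcl : IsClosed {z : ℝ | L x r z s ω + L z s y t ω ≤ kcomp (shL L r s ω) (shL L s t ω) x y} :=
    isClosed_le hg continuous_const
  have hd := (Rat.denseRange_cast (𝕜 := ℝ)).closure_range
  have h3 : (z₀ : ℝ) ∈ closure (Set.range ((↑) : ℚ → ℝ)) := by rw [hd]; trivial
  have h4 := closure_minimal (s := Set.range ((↑) : ℚ → ℝ)) (by
    rintro _ ⟨z, rfl⟩
    exact le_ciSup (hb x y) z) hcl h3
  rw [← hz₀]
  exact h4

private lemma pair_law (hS : IsAirySheet P₀ S₀) (hL : IsDL P₀ S₀ P L) (θ θ' : ℝ) (h : 0 < θ) (h' : 0 < θ') :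
    P.map (fun ω => (shL L 0 θ ω, shL L θ (θ + θ') ω)) = (nuS P₀ S₀ θ).prod (nuS P₀ S₀ θ') := by
  let τ : ℕ → ℝ := fun n => match n with
    | 0 => 0
    | 1 => θ
    | n + 2 => θ + θ' + n
  have hτ : StrictMono τ := by
    refine strictMono_nat_of_lt_succ fun n => ?_
    match n with
    | 0 => exact h
    | 1 => simp only [τ]; push_cast; linarith
    | n + 2 => simp only [τ]; push_cast; linarith
  have h1 := (shL_indep hL τ hτ).indepFun (by norm_num : (0 : ℕ) ≠ 1)
  have e1 : τ 0 = 0 := rfl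
  have e2 : τ 1 = θ := rfl
  have e3 : τ 2 = θ + θ' := by simp [τ]
  simp only [zero_add, one_add_one_eq_two, e1, e2, e3] at h1
  rw [indepFun_iff_map_prod_eq_prod_map_map (shL_meas hL _ _).aemeasurable (shL_meas hL _ _).aemeasurable] at h1
  rw [h1, shL_law hS hL h, shL_law hS hL (by linarith : θ < θ + θ'), sub_zero, add_sub_cancel_left]

theorem nuS_comp_bdd (hS : IsAirySheet P₀ S₀) (hL : IsDL P₀ S₀ P L) (θ θ' : ℝ) (h : 0 < θ) (h' : 0 < θ') :
    ∀ᵐ p ∂((nuS P₀ S₀ θ).prod (nuS P₀ S₀ θ')), CBdd p.1 p.2 := by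
  rw [← pair_law hS hL θ θ' h h', ae_map_iff ((shL_meas hL _ _).prodMk (shL_meas hL _ _)).aemeasurable]
  · filter_upwards [shL_comp hL h (by linarith : θ < θ + θ')] with ω hω using hω.1
  · have e : {p : Kern × Kern | CBdd p.1 p.2} =
        ⋂ x : ℚ, ⋂ y : ℚ, {p : Kern × Kern | BddAbove (Set.range fun z => p.1 x z + p.2 z y)} := by
      ext p; simp [CBdd]
    rw [e]
    refine MeasurableSet.iInter fun x => MeasurableSet.iInter fun y => ?_
    exact measurableSet_bddAbove_range fun z =>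
      ((kern_eval x z).comp measurable_fst).add ((kern_eval z y).comp measurable_snd)

theorem nuS_comp (hS : IsAirySheet P₀ S₀) (hL : IsDL P₀ S₀ P L) (θ θ' : ℝ) (h : 0 < θ) (h' : 0 < θ') :
    ((nuS P₀ S₀ θ).prod (nuS P₀ S₀ θ')).map (fun p => kcomp p.1 p.2) = nuS P₀ S₀ (θ + θ') := by
  rw [← pair_law hS hL θ θ' h h', Measure.map_map kcomp_meas ((shL_meas hL _ _).prodMk (shL_meas hL _ _))]
  have h1 := shL_law hS hL (by linarith : (0 : ℝ) < θ + θ')
  rw [sub_zero] at h1
  rw [← h1]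
  refine Measure.map_congr ?_
  filter_upwards [shL_comp hL h (by linarith : θ < θ + θ')] with ω hω using hω.2

end Pool.Agent.DLM
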