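import Pool.Agent.DLM.EDefs
import Pool.Agent.DLM.NUX

/-!
# DLM/FDefs: definitions for part F (the environment inside the directed landscape)

`sgW`: elapsed time before the sheet `l`; `tauW`: the times `1 - (total - elapsed)/w^900` (the last one is `1`); `shW`: the sheets of the landscape scaled by `w^300` (space by `w^600`); `fT`: the profile from the origin at the time `tauW 0`; `gB`: Brownian motion with slope `e`; `fB`: the normalised profile at the time `tauW 0`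
started from `gB` at the time `0`.  `SandOK`: the Brownian data with slope `2w` (`-2w`) are only felt from the right (left) of `0`.  `GW`: the good event.
-/

set_option autoImplicit false

open MeasureTheory ProbabilityTheory Filter Topology

namespace Pool.Agent.DLM

/-- elapsed time before the sheet `l` -/
noncomputable def sgW (w k l : ℕ) : ℝ := ∑ j ∈ Finset.range l, durW w k j

/-- the times of the sheets -/
noncomputable def tauW (w k l : ℕ) : ℝ := 1 - (sgW w k (KW w k) - sgW w k l) / (w : ℝ) ^ 900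

/-- the sheets of the landscape in the scale of the environment -/
noncomputable def shW {Ω : Type*} (L : ℝ → ℝ → ℝ → ℝ → Ω → ℝ) (w k : ℕ) (ω : Ω) : ℕ → Kern :=
  fun l x y => (w : ℝ) ^ 300 * shL L (tauW w k l) (tauW w k (l + 1)) ω (x / (w : ℚ) ^ 600) (y / (w : ℚ) ^ 600)

/-- the profile from the origin -/
noncomputable def fT {Ω : Type*} (L : ℝ → ℝ → ℝ → ℝ → Ω → ℝ) (w k : ℕ) (ω : Ω) : Ini :=
  fun x => (w : ℝ) ^ 300 * shL L 0 (tauW w k 0) ω 0 (x / (w : ℚ) ^ 600)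

/-- Brownian motion with slope `e` -/
def gB {Ω Ω₀ : Type*} (W : ℝ → Ω₀ → ℝ) (e : ℝ) (ω : Ω × Ω₀) : Ini := fun x => W x ω.2 + e * (x : ℝ)

/-- the normalised profile from the Brownian data -/
noncomputable def fB {Ω Ω₀ : Type*} (L : ℝ → ℝ → ℝ → ℝ → Ω → ℝ) (W : ℝ → Ω₀ → ℝ) (w k : ℕ) (e : ℝ) (ω : Ω × Ω₀) : Ini :=
  fun x => (w : ℝ) ^ 300 * (act (gB W e ω) (shL L 0 (tauW w k 0) ω.1) (x / (w : ℚ) ^ 600) -
    act (gB W e ω) (shL L 0 (tauW w k 0) ω.1) 0)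

/-- the data with slope `2 w` are only felt from the right, the data with slope `-2 w` from the left -/
def SandOK (w : ℕ) (f : Ini) (S : Kern) : Prop :=
  (∀ y z : ℚ, |(y : ℝ)| ≤ 1 → z ≤ 0 → f z + 2 * w * (z : ℝ) + S z y < f 1 + 2 * w + S 1 y) ∧
  ∀ y z : ℚ, |(y : ℝ)| ≤ 1 → 0 ≤ z → f z - 2 * w * (z : ℝ) + S z y < f (-1) + 2 * w + S (-1) y

/-- the good event -/
structure GW {Ω Ω₀ : Type*} (L : ℝ → ℝ → ℝ → ℝ → Ω → ℝ) (W : ℝ → Ω₀ → ℝ) (w k : ℕ) (c₀ : ℝ) (ω : Ω × Ω₀) : Prop where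
  quad : Quad (shL L 0 (tauW w k 0) ω.1)
  bdd : ABdd (gB W (2 * w) ω) (shL L 0 (tauW w k 0) ω.1)
  bdd' : ABdd (gB W (-(2 * w)) ω) (shL L 0 (tauW w k 0) ω.1)
  sand : SandOK w (gB W 0 ω) (shL L 0 (tauW w k 0) ω.1)
  env : EBdd (fB L W w k (2 * w) ω) (shW L w k ω.1)
  conf : Conf w (fB L W w k (2 * w) ω) (sfx (shW L w k ω.1) (KW w k) 0)
  conf' : Conf w (fB L W w k (-(2 * w)) ω) (sfx (shW L w k ω.1) (KW w k) 0)
  diff : fB L W w k (2 * w) ω w - fB L W w k (-(2 * w)) ω w -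
    (fB L W w k (2 * w) ω (-w) - fB L W w k (-(2 * w)) ω (-w)) ≤ 1 / (2 * (w : ℝ) ^ 100)
  comp : ∀ x : ℚ, fT L w k ω.1 x + sfx (shW L w k ω.1) (KW w k) 0 x ≤ (w : ℝ) ^ 300 * L 0 0 0 1 ω.1
  core : ∃ i < w ^ 2, ∀ z, Near (fB L W w k (2 * w) ω) (shW L w k ω.1) (KW w k) (1 / (w : ℝ) ^ 100) z →
    ¬ SOsc (bW k i) k (c₀ * k / (w : ℝ) ^ 200) z

end Pool.Agent.DLM
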