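import Pool.Agent.DLM.TIM

/-!
# DLM/GDN: geodesics give near optimal rational paths (80-120 lines)

`geo_path`: the partition `0, tauW 0, .., tauW K = 1` (`τ 0 = 0`, `τ (i+1) = tauW i`, `k = K`) in `IsGeod.length` (the value `L 0 0 0 1` is a lower bound): `L 0 0 0 1 ≤ L 0 0 (p τ_0) τ_0 + ∑_{l < K} L (p τ_l) τ_l (p τ_(l+1)) τ_(l+1)` (`p 0 = 0`, `Finset.sum_range_succ'`).  By continuity of `L` at the points `((x, s), (y, t))`, `s < t`,
there is `η' ≤ η` such that changing the space coordinates by at most `η'` changes the right side by at most `δ/w^300`; choose `q l` rational with `|q l/w^600 - p τ_l| ≤ η'` for `l < K` and `q K = 0` (`p 1 = 0`), `Rat.denseRange_cast`/`exists_rat_btwn`.  `shW`, `fT` at rational points are values of `L` (`shL`, casts `((x/w^600 : ℚ) : ℝ) = x/w^600`).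
`sfx_comp`: a.s. for all `s, n` (countable): `kc n (shf (shW) s) x y = w^300 shL (tauW s) (tauW (s+n+1)) (x/w^600) (y/w^600)`: induction on `n` with `shL_comp` (`kcomp` of scaled kernels: the supremum over `z/w^600`, `z ∈ ℚ`, is the supremum over `ℚ`: `Equiv.mulRight`-type reindexing, `Real.mul_iSup_of_nonneg`), then `s = 0`, `n = K - 1`,
and `shL_comp` for `0 < tauW 0 < 1` with `CBdd` (`le_ciSup`).
-/

set_option autoImplicit false

open MeasureTheory ProbabilityTheory Filter Topology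

namespace Pool.Agent.DLM

private theorem gdn_K (w k : ℕ) : 1 ≤ KW w k := by
  unfold KW
  omega

private theorem gdn_len {Ω : Type*} {L : ℝ → ℝ → ℝ → ℝ → Ω → ℝ} {ω : Ω} {p : ℝ → ℝ}
    (hg : IsGeod (fun x s y t => L x s y t ω) p) {w k : ℕ} (hw : 2 ≤ w) (hk : k ≤ w) :
    L 0 0 0 1 ω ≤ L 0 0 (p (tauW w k 0)) (tauW w k 0) ω + ∑ l ∈ Finset.range (KW w k),
      L (p (tauW w k l)) (tauW w k l) (p (tauW w k (l + 1))) (tauW w k (l + 1)) ω := by
  refine hg.length.1 ?_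
  have ht0 := tauW_zero_ge w k hw hk
  have hm := tauW_mono w k (by omega)
  refine ⟨KW w k, fun i => match i with
    | 0 => 0
    | i + 1 => tauW w k i, rfl, tauW_last w k, ?_, ?_⟩
  · intro i _
    match i with
    | 0 => show (0 : ℝ) < tauW w k 0; linarith
    | i + 1 => show tauW w k i < tauW w k (i + 1); exact hm (Nat.lt_succ_self i)
  · rw [Finset.sum_range_succ', add_comm]
    show _ = _ + L (p 0) 0 (p (tauW w k 0)) (tauW w k 0) ω
    rw [hg.left, add_comm]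

theorem geo_path {Ω : Type*} {L : ℝ → ℝ → ℝ → ℝ → Ω → ℝ} {ω : Ω}
    (hc : ContinuousOn (fun p : (ℝ × ℝ) × ℝ × ℝ => L p.1.1 p.1.2 p.2.1 p.2.2 ω) {p | p.1.2 < p.2.2}) {p : ℝ → ℝ}
    (hg : IsGeod (fun x s y t => L x s y t ω) p) {w k : ℕ} (hw : 2 ≤ w) (hk : k ≤ w) (δ η : ℝ) (hδ : 0 < δ) (hη : 0 < η) :
    ∃ q : ℕ → ℚ, q (KW w k) = 0 ∧ (∀ l ≤ KW w k, |(q l : ℝ) / (w : ℝ) ^ 600 - p (tauW w k l)| ≤ η) ∧
      (w : ℝ) ^ 300 * L 0 0 0 1 ω ≤ fT L w k ω (q 0) + wt (shW L w k ω) q 0 (KW w k) + δ := by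
  have hlen := gdn_len hg hw hk
  have ht0 := tauW_zero_ge w k hw hk
  have hm := tauW_mono w k (by omega)
  have hw0 : (0 : ℝ) < w := by
    have : 0 < w := by omega
    exact_mod_cast this
  have hwq : (w : ℚ) ≠ 0 := by
    have : w ≠ 0 := by omega
    exact_mod_cast this
  set K := KW w k with hK
  set a : ℕ → ℝ := fun l => p (tauW w k l) with ha
  have haK : a K = 0 := by
    rw [ha]
    show p (tauW w k (KW w k)) = 0
    rw [tauW_last]
    exact hg.right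
  -- continuity of the length of a path in its points
  have cont : Continuous fun y : ℕ → ℝ => L 0 0 (y 0) (tauW w k 0) ω + ∑ l ∈ Finset.range K,
      L (y l) (tauW w k l) (y (l + 1)) (tauW w k (l + 1)) ω := by
    refine Continuous.add ?_ ?_
    · have c1 : Continuous fun y : ℕ → ℝ => (((0 : ℝ), (0 : ℝ)), (y 0, tauW w k 0)) := by fun_prop
      refine hc.comp_continuous c1 fun y => ?_
      show (0 : ℝ) < tauW w k 0
      linarith
    · refine continuous_finsetSum _ fun l _ => ?_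
      have c1 : Continuous fun y : ℕ → ℝ => ((y l, tauW w k l), (y (l + 1), tauW w k (l + 1))) := by fun_prop
      refine hc.comp_continuous c1 fun y => ?_
      show tauW w k l < tauW w k (l + 1)
      exact hm (Nat.lt_succ_self l)
  -- rational approximations
  have hr : ∀ (n l : ℕ), ∃ r : ℚ, |a l - r| < 1 / ((n : ℝ) + 1) ∧ (l = K → r = 0) := by
    intro n l
    have hn : (0 : ℝ) < 1 / ((n : ℝ) + 1) := by positivity
    by_cases hl : l = K
    · refine ⟨0, ?_, fun _ => rfl⟩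
      rw [hl, haK]
      simpa using hn
    · obtain ⟨r, hr⟩ := exists_rat_near (a l) hn
      exact ⟨r, hr, fun h => absurd h hl⟩
  choose r hr1 hr2 using hr
  have hlim : Tendsto (fun (n : ℕ) (l : ℕ) => ((r n l : ℚ) : ℝ)) atTop (𝓝 a) := by
    rw [tendsto_pi_nhds]
    intro l
    rw [tendsto_iff_norm_sub_tendsto_zero]
    refine squeeze_zero (fun n => norm_nonneg _) (fun n => ?_) tendsto_one_div_add_atTop_nhds_zero_nat
    rw [Real.norm_eq_abs, abs_sub_comm]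
    exact (hr1 n l).le
  have e1 := ((cont.tendsto a).comp hlim).eventually (lt_mem_nhds (show
    (L 0 0 (a 0) (tauW w k 0) ω + ∑ l ∈ Finset.range K, L (a l) (tauW w k l) (a (l + 1)) (tauW w k (l + 1)) ω) -
      δ / (w : ℝ) ^ 300 < _ from sub_lt_self _ (by positivity)))
  have e2 : ∀ᶠ n : ℕ in atTop, 1 / ((n : ℝ) + 1) < η :=
    tendsto_one_div_add_atTop_nhds_zero_nat.eventually (gt_mem_nhds hη)
  obtain ⟨n, hn1, hn2⟩ := (e1.and e2).exists
  have hn1' : (L 0 0 (a 0) (tauW w k 0) ω + ∑ l ∈ Finset.range K, L (a l) (tauW w k l) (a (l + 1)) (tauW w k (l + 1)) ω) -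
      δ / (w : ℝ) ^ 300 < L 0 0 (r n 0 : ℚ) (tauW w k 0) ω + ∑ l ∈ Finset.range K,
      L (r n l : ℚ) (tauW w k l) (r n (l + 1) : ℚ) (tauW w k (l + 1)) ω := hn1
  refine ⟨fun l => r n l * (w : ℚ) ^ 600, ?_, ?_, ?_⟩
  · show r n K * (w : ℚ) ^ 600 = 0
    rw [hr2 n K rfl, zero_mul]
  · intro l _
    show |((r n l * (w : ℚ) ^ 600 : ℚ) : ℝ) / (w : ℝ) ^ 600 - a l| ≤ η
    have : ((r n l * (w : ℚ) ^ 600 : ℚ) : ℝ) / (w : ℝ) ^ 600 = r n l := by
      push_cast
      field_simp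
    rw [this, abs_sub_comm]
    exact ((hr1 n l).trans hn2).le
  · have hq : ∀ l, (r n l * (w : ℚ) ^ 600) / (w : ℚ) ^ 600 = r n l := fun l => by field_simp
    have f1 : fT L w k ω (r n 0 * (w : ℚ) ^ 600) = (w : ℝ) ^ 300 * L 0 0 (r n 0 : ℚ) (tauW w k 0) ω := by
      unfold fT shL
      rw [hq, Rat.cast_zero]
    have f2 : wt (shW L w k ω) (fun l => r n l * (w : ℚ) ^ 600) 0 K = ∑ l ∈ Finset.range K,
        (w : ℝ) ^ 300 * L (r n l : ℚ) (tauW w k l) (r n (l + 1) : ℚ) (tauW w k (l + 1)) ω := by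
      unfold wt shW shL
      rw [← Finset.range_eq_Ico]
      refine Finset.sum_congr rfl fun l _ => ?_
      simp only [hq]
    show (w : ℝ) ^ 300 * L 0 0 0 1 ω ≤ fT L w k ω (r n 0 * (w : ℚ) ^ 600) + _ + δ
    rw [f1, f2, ← Finset.mul_sum, ← mul_add]
    have hwp : (0 : ℝ) < (w : ℝ) ^ 300 := by positivity
    have h3 : L 0 0 0 1 ω - δ / (w : ℝ) ^ 300 ≤ L 0 0 (r n 0 : ℚ) (tauW w k 0) ω + ∑ l ∈ Finset.range K,
        L (r n l : ℚ) (tauW w k l) (r n (l + 1) : ℚ) (tauW w k (l + 1)) ω := (sub_le_sub_right hlen _).trans hn1'.le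
    have h4 := mul_le_mul_of_nonneg_left h3 hwp.le
    rw [mul_sub, mul_div_cancel₀ _ hwp.ne'] at h4
    linarith

private theorem gdn_scale {c : ℝ} (hc : 0 ≤ c) {W : ℚ} (hW : W ≠ 0) (A B : Kern) (x y : ℚ) :
    kcomp (fun x y => c * A (x / W) (y / W)) (fun x y => c * B (x / W) (y / W)) x y =
      c * kcomp A B (x / W) (y / W) := by
  unfold kcomp
  rw [Real.mul_iSup_of_nonneg hc]
  have hs : Function.Surjective fun z : ℚ => z / W := fun z => ⟨z * W, by field_simp⟩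
  rw [← hs.iSup_comp (g := fun z => c * (A (x / W) z + B z (y / W)))]
  refine iSup_congr fun z => ?_
  ring

private theorem gdn_kc {Ω : Type*} {L : ℝ → ℝ → ℝ → ℝ → Ω → ℝ} (w k : ℕ) (hw : 2 ≤ w) (ω : Ω)
    (hω : ∀ s n : ℕ, kcomp (shL L (tauW w k s) (tauW w k (s + 1)) ω) (shL L (tauW w k (s + 1)) (tauW w k (s + n + 2)) ω) =
      shL L (tauW w k s) (tauW w k (s + n + 2)) ω) :
    ∀ n s : ℕ, kc n (shf (shW L w k ω) s) = fun x y =>
      (w : ℝ) ^ 300 * shL L (tauW w k s) (tauW w k (s + n + 1)) ω (x / (w : ℚ) ^ 600) (y / (w : ℚ) ^ 600) := by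
  have hwq : (w : ℚ) ≠ 0 := by
    have : w ≠ 0 := by omega
    exact_mod_cast this
  intro n
  induction n with
  | zero =>
    intro s
    rfl
  | succ n ih =>
    intro s
    have e1 : shf (shf (shW L w k ω) s) 1 = shf (shW L w k ω) (s + 1) := by
      funext l
      show shW L w k ω (s + (1 + l)) = shW L w k ω (s + 1 + l)
      rw [add_assoc]
    have e2 : kc (n + 1) (shf (shW L w k ω) s) =
        kcomp (shf (shW L w k ω) s 0) (kc n (shf (shf (shW L w k ω) s) 1)) := rfl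
    rw [e2, e1, ih (s + 1)]
    funext x y
    have e3 : s + 1 + n + 1 = s + n + 2 := by ring
    have e4 : s + (n + 1) + 1 = s + n + 2 := by ring
    rw [e3, e4]
    have e5 := gdn_scale (show (0 : ℝ) ≤ (w : ℝ) ^ 300 by positivity) (pow_ne_zero 600 hwq)
      (shL L (tauW w k s) (tauW w k (s + 1)) ω) (shL L (tauW w k (s + 1)) (tauW w k (s + n + 2)) ω) x y
    rw [hω s n] at e5
    exact e5

theorem sfx_comp {Ω₀ Ω : Type*} [MeasurableSpace Ω₀] [MeasurableSpace Ω] {P₀ : Measure Ω₀} [IsProbabilityMeasure P₀]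
    {S₀ : ℝ → ℝ → Ω₀ → ℝ} {P : Measure Ω} [IsProbabilityMeasure P] {L : ℝ → ℝ → ℝ → ℝ → Ω → ℝ} (hL : IsDL P₀ S₀ P L)
    (w k : ℕ) (hw : 2 ≤ w) (hk : k ≤ w) :
    ∀ᵐ ω ∂P, ∀ x : ℚ, fT L w k ω x + sfx (shW L w k ω) (KW w k) 0 x ≤ (w : ℝ) ^ 300 * L 0 0 0 1 ω := by
  have hm := tauW_mono w k (by omega)
  have ht0 := tauW_zero_ge w k hw hk
  have hK := gdn_K w k
  have ht1 : tauW w k 0 < 1 := by
    have := hm (show 0 < KW w k by omega)
    rwa [tauW_last] at this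
  have h1 : ∀ᵐ ω ∂P, ∀ s n : ℕ,
      kcomp (shL L (tauW w k s) (tauW w k (s + 1)) ω) (shL L (tauW w k (s + 1)) (tauW w k (s + n + 2)) ω) =
      shL L (tauW w k s) (tauW w k (s + n + 2)) ω := by
    rw [ae_all_iff]
    intro s
    rw [ae_all_iff]
    intro n
    filter_upwards [shL_comp hL (hm (Nat.lt_succ_self s)) (hm (show s + 1 < s + n + 2 by omega))] with ω hω
    exact hω.2
  filter_upwards [h1, shL_comp hL (show (0 : ℝ) < tauW w k 0 by linarith) ht1] with ω hω hω2 x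
  have h2 := gdn_kc w k hw ω hω (KW w k - 1) 0
  have h3 : sfx (shW L w k ω) (KW w k) 0 x =
      (w : ℝ) ^ 300 * shL L (tauW w k 0) 1 ω (x / (w : ℚ) ^ 600) 0 := by
    unfold sfx
    rw [show KW w k - 1 - 0 = KW w k - 1 by omega, h2]
    show (w : ℝ) ^ 300 * shL L (tauW w k 0) (tauW w k (0 + (KW w k - 1) + 1)) ω (x / (w : ℚ) ^ 600) (0 / (w : ℚ) ^ 600) = _
    rw [show 0 + (KW w k - 1) + 1 = KW w k by omega, tauW_last, zero_div]
  rw [h3]
  have h4 : shL L 0 (tauW w k 0) ω 0 (x / (w : ℚ) ^ 600) + shL L (tauW w k 0) 1 ω (x / (w : ℚ) ^ 600) 0 ≤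
      kcomp (shL L 0 (tauW w k 0) ω) (shL L (tauW w k 0) 1 ω) 0 0 := le_ciSup (hω2.1 0 0) (x / (w : ℚ) ^ 600)
  rw [hω2.2] at h4
  have h5 : shL L 0 1 ω 0 0 = L 0 0 0 1 ω := by
    unfold shL
    rw [Rat.cast_zero]
  rw [h5] at h4
  have hwp : (0 : ℝ) ≤ (w : ℝ) ^ 300 := by positivity
  have h6 := mul_le_mul_of_nonneg_left h4 hwp
  rw [mul_add] at h6
  exact h6

end Pool.Agent.DLM
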