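import Pool.Agent.DLM.FDefs

/-!
# DLM/SWD: comparison of profiles (80-120 lines, deterministic)

`act_mono`: for every `ε > 0` let `z` with `act g S x ≤ g z + S z x + ε`, `z'` with `act g' S y ≤ g' z' + S z' y + ε` (`exists_lt_of_lt_ciSup`).  If `z ≤ z'`: `act g S y ≥ g z' + S z' y`, `act g' S x ≥ g' z + S z x`, and `g z - g' z ≤ g z' - g' z'`.  If `z' ≤ z`: `act g S y ≥ g z + S z y`, `act g' S x ≥ g' z' + S z' x`, and `Quad` for `z' ≤ z`, `x ≤ y`:
`S z' y + S z x ≤ S z' x + S z y`.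
`sand_inc`: right inequality: `act g⁺ S x ≤ g⁺ z + S z x + ε` with `z ≥ 0` (if `z ≤ 0` replace `z` by `1`, by `SandOK`), `act g⁺ S y ≥ g⁺ z + S z y`, `Quad` for `0 ≤ z`, `x ≤ y`: `S 0 y + S z x ≤ S 0 x + S z y`.  Left inequality: `act g⁻ S y ≤ g⁻ z + S z y + ε` with `z ≤ 0` (else replace `z` by `-1`), `act g⁻ S x ≥ g⁻ z + S z x`, `Quad` for `z ≤ 0`.
-/

set_option autoImplicit false

open MeasureTheory ProbabilityTheory Filter Topology

namespace Pool.Agent.DLM

private theorem act_ge {g : Ini} {S : Kern} (hb : ABdd g S) (z y : ℚ) : g z + S z y ≤ act g S y := le_ciSup (hb y) z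

private theorem act_near (g : Ini) (S : Kern) (y : ℚ) {ε : ℝ} (hε : 0 < ε) : ∃ z, act g S y - ε < g z + S z y := by
  have h1 : (⨆ z, (g z + S z y)) - ε < ⨆ z, (g z + S z y) := by linarith
  exact exists_lt_of_lt_ciSup h1

theorem act_mono {g g' : Ini} {S : Kern} (hq : Quad S) (hb : ABdd g S) (hb' : ABdd g' S)
    (hm : ∀ x y, x ≤ y → g x - g' x ≤ g y - g' y) {x y : ℚ} (hxy : x ≤ y) :
    act g S x - act g' S x ≤ act g S y - act g' S y := by
  refine le_of_forall_pos_le_add fun ε hε => ?_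
  obtain ⟨z, hz⟩ := act_near g S x (half_pos hε)
  obtain ⟨z', hz'⟩ := act_near g' S y (half_pos hε)
  rcases le_total z z' with h | h
  · have h1 := act_ge hb z' y
    have h2 := act_ge hb' z x
    have h3 := hm z z' h
    linarith
  · have h1 := act_ge hb z y
    have h2 := act_ge hb' z' x
    have h3 := hq z' z x y h hxy
    linarith

theorem sand_inc {w : ℕ} {f : Ini} {S : Kern} (hq : Quad S) (hb : ABdd (fun x => f x + 2 * w * (x : ℝ)) S)
    (hb' : ABdd (fun x => f x - 2 * w * (x : ℝ)) S) (hs : SandOK w f S) {x y : ℚ} (hx : |(x : ℝ)| ≤ 1)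
    (hy : |(y : ℝ)| ≤ 1) (hxy : x ≤ y) :
    act (fun x => f x - 2 * w * (x : ℝ)) S y - act (fun x => f x - 2 * w * (x : ℝ)) S x ≤ S 0 y - S 0 x ∧
      S 0 y - S 0 x ≤ act (fun x => f x + 2 * w * (x : ℝ)) S y - act (fun x => f x + 2 * w * (x : ℝ)) S x := by
  have c1 : ((1 : ℚ) : ℝ) = 1 := Rat.cast_one
  have c2 : ((-1 : ℚ) : ℝ) = -1 := by rw [Rat.cast_neg, Rat.cast_one]
  constructor
  · refine le_of_forall_pos_le_add fun ε hε => ?_
    have hz : ∃ z : ℚ, z ≤ 0 ∧ act (fun x => f x - 2 * w * (x : ℝ)) S y - ε < (f z - 2 * w * (z : ℝ)) + S z y := by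
      obtain ⟨z, hz⟩ := act_near (fun x => f x - 2 * w * (x : ℝ)) S y hε
      rcases le_total z 0 with h | h
      · exact ⟨z, h, hz⟩
      · refine ⟨-1, by norm_num, ?_⟩
        have h1 := hs.2 y z hy h
        rw [c2]
        linarith
    obtain ⟨z, hz0, hz⟩ := hz
    have h1 : (f z - 2 * w * (z : ℝ)) + S z x ≤ act (fun x => f x - 2 * w * (x : ℝ)) S x := act_ge hb' z x
    have h3 := hq z 0 x y hz0 hxy
    linarith
  · refine le_of_forall_pos_le_add fun ε hε => ?_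
    have hz : ∃ z : ℚ, 0 ≤ z ∧ act (fun x => f x + 2 * w * (x : ℝ)) S x - ε < (f z + 2 * w * (z : ℝ)) + S z x := by
      obtain ⟨z, hz⟩ := act_near (fun x => f x + 2 * w * (x : ℝ)) S x hε
      rcases le_total z 0 with h | h
      · refine ⟨1, by norm_num, ?_⟩
        have h1 := hs.1 x z hx h
        rw [c1]
        linarith
      · exact ⟨z, h, hz⟩
    obtain ⟨z, hz0, hz⟩ := hz
    have h1 : (f z + 2 * w * (z : ℝ)) + S z y ≤ act (fun x => f x + 2 * w * (x : ℝ)) S y := act_ge hb z y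
    have h3 := hq 0 z x y hz0 hxy
    linarith

end Pool.Agent.DLM
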