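import Pool.Agent.DLM.TRA
import Pool.Agent.DLM.GDN
import Pool.Agent.DLM.SWD

/-!
# DLM/GWO: on the good event every geodesic oscillates (80-120 lines, deterministic)

`geo_path` with `δ = 1/(4 w^100)` and `η ≤ 1/2` so small that `2 η w^600 < c₀ k/(2 w^200)`.  `f = fB (2w)`, `f' = fB (-2w)`, `F = fT`: the hypothesis `hs` of `transfer` is `sand_inc` at the points `x/w^600`, `y/w^600 ∈ [-1, 1]` multiplied by `w^300` (`gB W (2w) = gB W 0 + 2 w x`, `gB W (-2w) = gB W 0 - 2 w x` as functions).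
`|q 0| ≤ w^600 (|p τ_0| + η) ≤ w^600`.  `hz`: `GW.comp` and `geo_path`.  So `q` is `1/w^100`-near and for the block `i` of `GW.core` `SOsc` fails: there are `l, l'` in the block with `|q l - q l'| ≥ c₀ k/w^200`, hence `|p τ_l - p τ_l'| ≥ c₀ k/w^800 - 2η ≥ c₀ k/(2 w^800)`; `tauW_blk`.
-/

set_option autoImplicit false

open MeasureTheory ProbabilityTheory Filter Topology

namespace Pool.Agent.DLM

theorem gw_osc {Ω Ω₀ : Type*} {L : ℝ → ℝ → ℝ → ℝ → Ω → ℝ} {W : ℝ → Ω₀ → ℝ} {w k : ℕ} {c₀ : ℝ} {ω : Ω × Ω₀}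
    (hw : 2 ≤ w) (hk0 : 1 ≤ k) (hk : k ≤ w) (h0 : 0 < c₀) (h : GW L W w k c₀ ω)
    (hc : ContinuousOn (fun p : (ℝ × ℝ) × ℝ × ℝ => L p.1.1 p.1.2 p.2.1 p.2.2 ω.1) {p | p.1.2 < p.2.2}) {p : ℝ → ℝ}
    (hg : IsGeod (fun x s y t => L x s y t ω.1) p) (hp : |p (tauW w k 0)| ≤ 1 / 2) :
    ∃ s t : ℝ, s ∈ Set.Icc (0 : ℝ) 1 ∧ t ∈ Set.Icc (0 : ℝ) 1 ∧ |t - s| ≤ k / (w : ℝ) ^ 1200 ∧
      c₀ * k / (2 * (w : ℝ) ^ 800) ≤ |p t - p s| := by
  have hw0 : (0 : ℝ) < w := by exact_mod_cast (by omega : 0 < w)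
  have hwq : (0 : ℚ) < w := by exact_mod_cast (by omega : 0 < w)
  have hkr : (0 : ℝ) < k := by exact_mod_cast hk0
  have h600 : (0 : ℝ) < (w : ℝ) ^ 600 := by positivity
  obtain ⟨η, hη0, hη1, hη2⟩ : ∃ η > 0, η ≤ 1 / 2 ∧ 2 * η ≤ c₀ * k / (2 * (w : ℝ) ^ 800) := by
    refine ⟨min (1 / 2) (c₀ * k / (4 * (w : ℝ) ^ 800)), by positivity, min_le_left _ _, ?_⟩
    have h1 := min_le_right (1 / 2) (c₀ * k / (4 * (w : ℝ) ^ 800))
    have h2 : c₀ * k / (2 * (w : ℝ) ^ 800) = 2 * (c₀ * k / (4 * (w : ℝ) ^ 800)) := by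
      field_simp
      ring
    rw [h2]
    linarith
  obtain ⟨q, hqK, hqn, hql⟩ := geo_path hc hg hw hk (1 / (4 * (w : ℝ) ^ 100)) η (by positivity) hη0
  have hq0 : |(q 0 : ℝ)| ≤ (w : ℝ) ^ 600 := by
    have h1 := hqn 0 (Nat.zero_le _)
    have h2 : |(q 0 : ℝ) / (w : ℝ) ^ 600| ≤ 1 := by
      have h3 := abs_sub_abs_le_abs_sub ((q 0 : ℝ) / (w : ℝ) ^ 600) (p (tauW w k 0))
      linarith
    rw [abs_div, abs_of_pos h600, div_le_one h600] at h2
    exact h2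
  have hgp : (fun x : ℚ => gB W 0 ω x + 2 * w * (x : ℝ)) = gB W (2 * w) ω := by
    funext x
    simp only [gB]
    ring
  have hgm : (fun x : ℚ => gB W 0 ω x - 2 * w * (x : ℝ)) = gB W (-(2 * w)) ω := by
    funext x
    simp only [gB]
    ring
  have hsc : ∀ x : ℚ, |(x : ℝ)| ≤ (w : ℝ) ^ 600 → |((x / (w : ℚ) ^ 600 : ℚ) : ℝ)| ≤ 1 := by
    intro x hx
    push_cast
    rw [abs_div, abs_of_pos h600, div_le_one h600]
    exact hx
  have hnear : Near (fB L W w k (2 * w) ω) (shW L w k ω.1) (KW w k) (1 / (w : ℝ) ^ 100) q := by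
    refine transfer (f' := fB L W w k (-(2 * w)) ω) (F := fT L w k ω.1) hw (by unfold KW; omega) h.env ?_
      h.conf h.conf' h.diff hqK hq0 ?_
    · intro x y hx hy hxy
      have hxy' : x / (w : ℚ) ^ 600 ≤ y / (w : ℚ) ^ 600 := by
        have : (0 : ℚ) < (w : ℚ) ^ 600 := by positivity
        exact div_le_div_of_nonneg_right hxy this.le
      have h1 := sand_inc (w := w) (f := gB W 0 ω) h.quad (by rw [hgp]; exact h.bdd) (by rw [hgm]; exact h.bdd')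
        h.sand (hsc x hx) (hsc y hy) hxy'
      rw [hgp, hgm] at h1
      have h300 : (0 : ℝ) ≤ (w : ℝ) ^ 300 := by positivity
      have h2 := mul_le_mul_of_nonneg_left h1.1 h300
      have h3 := mul_le_mul_of_nonneg_left h1.2 h300
      simp only [fB, fT]
      constructor
      · linarith
      · linarith
    · intro x
      have h1 := h.comp x
      linarith
  obtain ⟨i, hi, hcore⟩ := h.core
  have h1 := hcore q hnear
  unfold SOsc at h1
  push Not at h1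
  obtain ⟨l, l', a1, a2, a3, a4, a5⟩ := h1
  have hKb : bW k i + k ≤ KW w k := by
    unfold bW KW
    have h2 : (i + 1) * (k + 3) ≤ w ^ 2 * (k + 3) := Nat.mul_le_mul_right _ hi
    rw [Nat.add_mul, one_mul] at h2
    omega
  have hmem : ∀ j, j ≤ KW w k → tauW w k j ∈ Set.Icc (0 : ℝ) 1 := by
    intro j hj
    refine ⟨?_, tauW_le_one w k j (by omega) hj⟩
    have h2 := tauW_zero_ge w k hw hk
    have h3 := (tauW_mono w k (by omega)).monotone (Nat.zero_le j)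
    linarith
  refine ⟨tauW w k l, tauW w k l', hmem l (a2.trans hKb), hmem l' (a4.trans hKb),
    tauW_blk w k i l l' (by omega) hi a1 a2 a3 a4, ?_⟩
  have b1 := hqn l (a2.trans hKb)
  have b2 := hqn l' (a4.trans hKb)
  have b3 : c₀ * k / (w : ℝ) ^ 800 ≤ |(q l : ℝ) / (w : ℝ) ^ 600 - (q l' : ℝ) / (w : ℝ) ^ 600| := by
    rw [← sub_div, abs_div, abs_of_pos h600, le_div_iff₀ h600]
    refine le_trans (le_of_eq ?_) a5
    have h8 : (w : ℝ) ^ 800 = (w : ℝ) ^ 200 * (w : ℝ) ^ 600 := by rw [← pow_add]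
    rw [h8]
    field_simp
  have b4 : c₀ * k / (2 * (w : ℝ) ^ 800) = c₀ * k / (w : ℝ) ^ 800 / 2 := by
    rw [div_div]
    ring
  have b5 : |(q l : ℝ) / (w : ℝ) ^ 600 - (q l' : ℝ) / (w : ℝ) ^ 600| ≤
      |p (tauW w k l') - p (tauW w k l)| + 2 * η := by
    have c1 := abs_le.1 b1
    have c2 := abs_le.1 b2
    rcases abs_cases ((q l : ℝ) / (w : ℝ) ^ 600 - (q l' : ℝ) / (w : ℝ) ^ 600) with ⟨c3, _⟩ | ⟨c3, _⟩
    · rw [c3]
      have c4 := neg_abs_le (p (tauW w k l') - p (tauW w k l))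
      linarith [c1.1, c1.2, c2.1, c2.2]
    · rw [c3]
      have c4 := le_abs_self (p (tauW w k l') - p (tauW w k l))
      linarith [c1.1, c1.2, c2.1, c2.2]
  rw [b4] at hη2 ⊢
  linarith

end Pool.Agent.DLM
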