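import Pool.Agent.DLM.FDefs
import Pool.Agent.DLM.CST
import Pool.Agent.DLM.PEC
import Pool.Agent.DLM.BMX

/-!
# DLM/SAN: the sandwich event (120-160 lines)

`1/2 ≤ θ ≤ 1`, `f ~ β 0` (`f 0 = 0` a.s.).  Outside an event of probability `→ 0` (all errors `≤ C exp(-w/C)`): (a) for all `j ∈ ℕ` and `|x| ≤ j + 1`: `|f x| ≤ w/8 + j^2/16`: `bmx` on `[0, j+1]`, `bmx_left` on `[-(j+1), 0]` with `l = (w/8 + j^2/16)/2`: `16 exp(-l^2/(64(j+1)))`, summable over `j` with sum `→ 0` (`l^2 ≥ w l/16`, `l/(j+1) ≥ c`).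
(b) for all `j ∈ ℕ`, `x ∈ [-j-1, -j] ∪ [j, j+1]`, `|y| ≤ 1`: `S x y ≤ -(j-1)^2 + C (j + 2) + C + w/8 + j^2/16` (`j ≥ 1`; similarly `j = 0`): `cell_sup` (`c = 1`, `s = w/8 + j^2/16`) for the cells `[-j-1,-j] × [-1,0]`, `× [0,1]`, `[j,j+1] × ..`: `|α' - α| ≥ j - 1`, `≤ j + 2`, `-D^2/θ ≤ -D^2`.
So for `z ≤ 0`, `|y| ≤ 1`: `f z + 2 w z + S z y ≤ f z + S z y ≤ w/4 + C' ≤ w/2`.  (c) `f 1 ≥ -w/4`, `f (-1) ≥ -w/4` (from (a) with `j = 0`: `|f x| ≤ w/8`); `S 1 y, S (-1) y ≥ -w/2` for `|y| ≤ 1`: `par_est` with `E = w/16` for the cells `[1,2] × [-1,0]`, `[1,2] × [0,1]`, `[-1,0] × ..`: `S 1 y ≥ -(1-y)^2/θ - E (1 + 2) ≥ -8 - 3w/16`.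
So the right side is `≥ 2 w - w/4 - w/2 > w/2`.
-/

set_option autoImplicit false

open MeasureTheory ProbabilityTheory Filter Topology

namespace Pool.Agent.DLM

variable {ν : ℝ → Measure Kern} {tw : Measure ℝ} {β : ℝ → Measure Ini}

/-- geometric union bound -/
private theorem san_sum {α : Type*} [MeasurableSpace α] (μ : Measure α) (E : ℕ → Set α) (K a : ℝ) (ha : 0 < a)
    (hK : 0 ≤ K) (w : ℕ) (hw : 1 ≤ w)
    (h : ∀ j : ℕ, μ (E j) ≤ ENNReal.ofReal (K * Real.exp (-(a * w * (j + 1))))) :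
    μ (⋃ j, E j) ≤ ENNReal.ofReal (K * (1 - Real.exp (-a))⁻¹ * Real.exp (-(a * w))) := by
  have h0 : 0 < Real.exp (-a) := Real.exp_pos _
  have h1 : Real.exp (-a) < 1 := by
    rw [Real.exp_lt_one_iff]
    linarith
  have hw' : (1 : ℝ) ≤ w := by exact_mod_cast hw
  have hs : Summable fun j : ℕ => K * Real.exp (-(a * w)) * Real.exp (-a) ^ j :=
    (summable_geometric_of_lt_one h0.le h1).mul_left _
  calc μ (⋃ j, E j) ≤ ∑' j, μ (E j) := measure_iUnion_le _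
    _ ≤ ∑' j : ℕ, ENNReal.ofReal (K * Real.exp (-(a * w)) * Real.exp (-a) ^ j) := by
        refine ENNReal.tsum_le_tsum fun j => (h j).trans (ENNReal.ofReal_le_ofReal ?_)
        rw [← Real.exp_nat_mul, mul_assoc K, ← Real.exp_add]
        refine mul_le_mul_of_nonneg_left (Real.exp_le_exp.2 ?_) hK
        have h2 : (0 : ℝ) ≤ (j : ℝ) := Nat.cast_nonneg j
        have h3 : a * (j : ℝ) * 1 ≤ a * (j : ℝ) * w := mul_le_mul_of_nonneg_left hw' (by positivity)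
        nlinarith
    _ = ENNReal.ofReal (∑' j : ℕ, K * Real.exp (-(a * w)) * Real.exp (-a) ^ j) := by
        rw [ENNReal.ofReal_tsum_of_nonneg (fun j => by positivity) hs]
    _ = _ := by
        rw [tsum_mul_left, tsum_geometric_of_lt_one h0.le h1]
        congr 1
        ring

private theorem san_tendsto (K a : ℝ) (ha : 0 < a) :
    Tendsto (fun w : ℕ => K * Real.exp (-(a * w))) atTop (𝓝 0) := by
  have h1 : Tendsto (fun w : ℕ => a * (w : ℝ)) atTop atTop :=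
    tendsto_natCast_atTop_atTop.const_mul_atTop ha
  have h2 := (Real.tendsto_exp_neg_atTop_nhds_zero.comp h1).const_mul K
  rw [mul_zero] at h2
  exact h2

/-- the deterministic part -/
private theorem san_det (w : ℕ) (C : ℝ) (hC : 0 ≤ C) (hw : 2 * C + 9 ≤ w) (f : Ini) (S : Kern)
    (hf : ∀ (j : ℕ) (x : ℚ), |(x : ℝ)| ≤ j + 1 → |f x| ≤ (w : ℝ) / 8 * (j + 1))
    (hS : ∀ (j : ℕ) (x y : ℚ), (j : ℝ) ≤ |(x : ℝ)| → |(x : ℝ)| ≤ j + 1 → |(y : ℝ)| ≤ 1 →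
      S x y ≤ C * (j + 2) + (w : ℝ) / 8 * (j + 1))
    (h1 : ∀ y : ℚ, |(y : ℝ)| ≤ 1 → -8 - 3 * ((w : ℝ) / 16) ≤ S 1 y)
    (h2 : ∀ y : ℚ, |(y : ℝ)| ≤ 1 → -8 - 3 * ((w : ℝ) / 16) ≤ S (-1) y) : SandOK w f S := by
  have key : ∀ y z : ℚ, |(y : ℝ)| ≤ 1 → f z - 2 * w * |(z : ℝ)| + S z y ≤ (w : ℝ) / 4 + 2 * C := by
    intro y z hy
    set j : ℕ := ⌊|(z : ℝ)|⌋₊ with hj
    have k1 : (j : ℝ) ≤ |(z : ℝ)| := Nat.floor_le (abs_nonneg _)
    have k2 : |(z : ℝ)| ≤ j + 1 := (Nat.lt_floor_add_one _).le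
    have k3 := (abs_le.1 (hf j z k2)).2
    have k4 := hS j z y k1 k2 hy
    have k5 : 2 * (w : ℝ) * j ≤ 2 * w * |(z : ℝ)| := mul_le_mul_of_nonneg_left k1 (by positivity)
    have k6 : (0 : ℝ) ≤ (j : ℝ) := Nat.cast_nonneg j
    have k7 : (j : ℝ) * ((w : ℝ) / 4 - 2 * w + C) ≤ 0 := by
      refine mul_nonpos_of_nonneg_of_nonpos k6 ?_
      linarith
    nlinarith
  have f1 := (abs_le.1 (hf 0 1 (by norm_num))).1
  have f2 := (abs_le.1 (hf 0 (-1) (by norm_num))).1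
  refine ⟨fun y z hy hz => ?_, fun y z hy hz => ?_⟩
  · have hz' : (z : ℝ) ≤ 0 := by exact_mod_cast hz
    have k1 := key y z hy
    rw [abs_of_nonpos hz'] at k1
    have k2 := h1 y hy
    norm_num at f1
    nlinarith
  · have hz' : (0 : ℝ) ≤ z := by exact_mod_cast hz
    have k1 := key y z hy
    rw [abs_of_nonneg hz'] at k1
    have k2 := h2 y hy
    norm_num at f2
    nlinarith

/-- the bad events for the data -/
private def sanF (w : ℕ) : Set Ini :=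
  {f | ¬ f 0 = 0} ∪
    ((⋃ j : ℕ, {f | ∃ x : ℚ, 0 ≤ x ∧ x ≤ (j : ℚ) + 1 ∧ (w : ℝ) / 8 * (j + 1) < |f x - f 0|}) ∪
      ⋃ j : ℕ, {f | ∃ x : ℚ, -((j : ℚ) + 1) ≤ x ∧ x ≤ 0 ∧ 2 * ((w : ℝ) / 16 * (j + 1)) < |f x - f 0|})

private theorem sanF_prob (h : Base ν tw β) (w : ℕ) (hw : 1 ≤ w) :
    β 0 (sanF w) ≤ ENNReal.ofReal (32 * (1 - Real.exp (-(1 / 16384)))⁻¹ * Real.exp (-(1 / 16384 * w))) := by
  have hβ := h.bm 0
  have hw' : (1 : ℝ) ≤ w := by exact_mod_cast hw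
  have h0 : β 0 {f : Ini | ¬ f 0 = 0} = 0 := hβ.zero
  have hG : 0 ≤ (1 - Real.exp (-(1 / 16384)))⁻¹ := by
    rw [inv_nonneg, sub_nonneg, Real.exp_le_one_iff]
    norm_num
  have e1 : β 0 (⋃ j : ℕ, {f : Ini | ∃ x : ℚ, 0 ≤ x ∧ x ≤ (j : ℚ) + 1 ∧ (w : ℝ) / 8 * (j + 1) < |f x - f 0|}) ≤
      ENNReal.ofReal (16 * (1 - Real.exp (-(1 / 16384)))⁻¹ * Real.exp (-(1 / 16384 * w))) := by
    refine san_sum (β 0) _ 16 (1 / 16384) (by norm_num) (by norm_num) w hw fun j => ?_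
    have hj : (0 : ℝ) ≤ (j : ℝ) := Nat.cast_nonneg j
    have k := bmx hβ 0 ((j : ℚ) + 1) (by positivity) ((w : ℝ) / 8 * (j + 1)) (by positivity) (by
      rw [abs_zero]
      push_cast
      rw [mul_zero, zero_mul]
      positivity)
    refine k.trans (ENNReal.ofReal_le_ofReal ?_)
    refine mul_le_mul_of_nonneg_left (Real.exp_le_exp.2 ?_) (by norm_num)
    push_cast
    rw [neg_div, neg_le_neg_iff, sub_zero, le_div_iff₀ (by positivity)]
    have k1 : (w : ℝ) * 1 ≤ w * w := mul_le_mul_of_nonneg_left hw' (by positivity)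
    have k2 : 0 ≤ ((j : ℝ) + 1) ^ 2 := sq_nonneg _
    nlinarith [mul_le_mul_of_nonneg_right k1 k2, mul_nonneg (by linarith : (0 : ℝ) ≤ (w : ℝ)) k2]
  have e2 : β 0 (⋃ j : ℕ, {f : Ini | ∃ x : ℚ, -((j : ℚ) + 1) ≤ x ∧ x ≤ 0 ∧
      2 * ((w : ℝ) / 16 * (j + 1)) < |f x - f 0|}) ≤
      ENNReal.ofReal (16 * (1 - Real.exp (-(1 / 16384)))⁻¹ * Real.exp (-(1 / 16384 * w))) := by
    refine san_sum (β 0) _ 16 (1 / 16384) (by norm_num) (by norm_num) w hw fun j => ?_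
    have hj : (0 : ℝ) ≤ (j : ℝ) := Nat.cast_nonneg j
    have hjq : (0 : ℚ) ≤ (j : ℚ) := Nat.cast_nonneg j
    have k := bmx_left hβ (-((j : ℚ) + 1)) 0 (by linarith) ((w : ℝ) / 16 * (j + 1)) (by positivity) (by
      rw [abs_zero]
      push_cast
      rw [mul_zero, zero_mul]
      positivity)
    refine k.trans (ENNReal.ofReal_le_ofReal ?_)
    refine mul_le_mul_of_nonneg_left (Real.exp_le_exp.2 ?_) (by norm_num)
    push_cast
    rw [neg_div, neg_le_neg_iff, zero_sub, neg_neg, le_div_iff₀ (by positivity)]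
    have k1 : (w : ℝ) * 1 ≤ w * w := mul_le_mul_of_nonneg_left hw' (by positivity)
    have k2 : 0 ≤ ((j : ℝ) + 1) ^ 2 := sq_nonneg _
    nlinarith [mul_le_mul_of_nonneg_right k1 k2, mul_nonneg (by linarith : (0 : ℝ) ≤ (w : ℝ)) k2]
  calc β 0 (sanF w) ≤ β 0 {f : Ini | ¬ f 0 = 0} + (_ + _) :=
        (measure_union_le _ _).trans (add_le_add le_rfl (measure_union_le _ _))
    _ ≤ 0 + (ENNReal.ofReal (16 * (1 - Real.exp (-(1 / 16384)))⁻¹ * Real.exp (-(1 / 16384 * w))) +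
        ENNReal.ofReal (16 * (1 - Real.exp (-(1 / 16384)))⁻¹ * Real.exp (-(1 / 16384 * w)))) :=
        add_le_add h0.le (add_le_add e1 e2)
    _ = _ := by
        rw [zero_add, ← ENNReal.ofReal_add (by positivity) (by positivity)]
        congr 1
        ring

/-- off the bad event the data are bounded -/
private theorem sanF_bd {w : ℕ} {f : Ini} (hf : f ∉ sanF w) (j : ℕ) (x : ℚ) (hx : |(x : ℝ)| ≤ j + 1) :
    |f x| ≤ (w : ℝ) / 8 * (j + 1) := by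
  have h0 : f 0 = 0 := by
    by_contra hn
    exact hf (Or.inl hn)
  rw [abs_le] at hx
  rcases le_total 0 x with hx0 | hx0
  · by_contra hn
    refine hf (Or.inr (Or.inl (Set.mem_iUnion.2 ⟨j, x, hx0, ?_, ?_⟩)))
    · have := hx.2
      exact_mod_cast this
    · rw [h0, sub_zero]
      exact not_le.1 hn
  · by_contra hn
    refine hf (Or.inr (Or.inr (Set.mem_iUnion.2 ⟨j, x, ?_, hx0, ?_⟩)))
    · have := hx.1
      exact_mod_cast this
    · rw [h0, sub_zero]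
      have := not_le.1 hn
      linarith

/-- the bad event of a cell -/
private def sanC (C θ s : ℝ) (α α' : ℚ) : Set Kern :=
  {S | ∃ x y : ℚ, α ≤ x ∧ x ≤ α + 1 ∧ α' ≤ y ∧ y ≤ α' + 1 ∧
      -((α' : ℝ) - α) ^ 2 / θ + C * |(α' : ℝ) - α| + C + s < S x y}

private theorem sanC_bd {C θ s : ℝ} {α α' : ℚ} {S : Kern} (hS : S ∉ sanC C θ s α α') (hC : 0 ≤ C) (hθ : 0 < θ)
    (x y : ℚ) (h1 : α ≤ x) (h2 : x ≤ α + 1) (h3 : α' ≤ y) (h4 : y ≤ α' + 1) (J : ℝ) (hJ : |(α' : ℝ) - α| ≤ J) :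
    S x y ≤ C * (J + 1) + s := by
  by_contra hn
  refine hS ⟨x, y, h1, h2, h3, h4, ?_⟩
  have k1 : -((α' : ℝ) - α) ^ 2 / θ ≤ 0 := by
    rw [neg_div]
    have : 0 ≤ ((α' : ℝ) - α) ^ 2 / θ := by positivity
    linarith
  have k2 : C * |(α' : ℝ) - α| ≤ C * J := mul_le_mul_of_nonneg_left hJ hC
  have k3 := not_le.1 hn
  linarith

/-- the parabolic bad event -/
private def sanP (θ E : ℝ) (α α' : ℚ) : Set Kern :=
  {S | ∃ x y : ℚ, α ≤ x ∧ x ≤ α + 1 ∧ α' ≤ y ∧ y ≤ α' + 1 ∧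
      E * (1 + |(x : ℝ) - y|) < |S x y + ((x : ℝ) - y) ^ 2 / θ|}

private theorem sanP_bd {θ E : ℝ} {α α' : ℚ} {S : Kern} (hS : S ∉ sanP θ E α α') (hE : 0 ≤ E) (hθ : 1 / 2 ≤ θ)
    (x y : ℚ) (h1 : α ≤ x) (h2 : x ≤ α + 1) (h3 : α' ≤ y) (h4 : y ≤ α' + 1) (hxy : |(x : ℝ) - y| ≤ 2) :
    -8 - 3 * E ≤ S x y := by
  have hθ0 : 0 < θ := by linarith
  by_contra hn
  refine hS ⟨x, y, h1, h2, h3, h4, ?_⟩
  have k1 : ((x : ℝ) - y) ^ 2 / θ ≤ 8 := by
    rw [div_le_iff₀ hθ0]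
    have : ((x : ℝ) - y) ^ 2 ≤ 4 := by
      rw [← sq_abs]
      nlinarith [abs_nonneg ((x : ℝ) - y)]
    linarith
  have k2 : E * (1 + |(x : ℝ) - y|) ≤ E * 3 := mul_le_mul_of_nonneg_left (by linarith) hE
  have k3 := not_le.1 hn
  rw [lt_abs]
  right
  linarith

/-- the bad events for the sheet -/
private def sanS (C θ : ℝ) (w : ℕ) : Set Kern :=
  ((⋃ j : ℕ, sanC C θ ((w : ℝ) / 8 * (j + 1)) j (-1)) ∪ (⋃ j : ℕ, sanC C θ ((w : ℝ) / 8 * (j + 1)) j 0)) ∪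
  ((⋃ j : ℕ, sanC C θ ((w : ℝ) / 8 * (j + 1)) (-((j : ℚ) + 1)) (-1)) ∪
    (⋃ j : ℕ, sanC C θ ((w : ℝ) / 8 * (j + 1)) (-((j : ℚ) + 1)) 0)) ∪
  ((sanP θ ((w : ℝ) / 16) 1 (-1) ∪ sanP θ ((w : ℝ) / 16) 1 0) ∪
    (sanP θ ((w : ℝ) / 16) (-1) (-1) ∪ sanP θ ((w : ℝ) / 16) (-1) 0))

private theorem sanS_bd {C θ : ℝ} {w : ℕ} {S : Kern} (hS : S ∉ sanS C θ w) (hC : 0 ≤ C) (hθ : 1 / 2 ≤ θ) :
    (∀ (j : ℕ) (x y : ℚ), (j : ℝ) ≤ |(x : ℝ)| → |(x : ℝ)| ≤ j + 1 → |(y : ℝ)| ≤ 1 →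
      S x y ≤ C * (j + 2) + (w : ℝ) / 8 * (j + 1)) ∧
    (∀ y : ℚ, |(y : ℝ)| ≤ 1 → -8 - 3 * ((w : ℝ) / 16) ≤ S 1 y) ∧
    (∀ y : ℚ, |(y : ℝ)| ≤ 1 → -8 - 3 * ((w : ℝ) / 16) ≤ S (-1) y) := by
  have hθ0 : 0 < θ := by linarith
  simp only [sanS, Set.mem_union, Set.mem_iUnion, not_or, not_exists] at hS
  obtain ⟨⟨⟨a1, a2⟩, a3, a4⟩, ⟨b1, b2⟩, b3, b4⟩ := hS
  refine ⟨fun j x y hx1 hx2 hy => ?_, fun y hy => ?_, fun y hy => ?_⟩
  · have hj : (0 : ℝ) ≤ (j : ℝ) := Nat.cast_nonneg j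
    have hyy := abs_le.1 hy
    have e : C * ((j : ℝ) + 2) + (w : ℝ) / 8 * (j + 1) = C * ((j : ℝ) + 1 + 1) + (w : ℝ) / 8 * (j + 1) := by ring
    rw [e]
    have y1 : (-1 : ℚ) ≤ y := by
      have := hyy.1
      exact_mod_cast this
    have y2 : y ≤ 1 := by
      have := hyy.2
      exact_mod_cast this
    rcases le_total 0 x with hx0 | hx0
    · have hx0' : (0 : ℝ) ≤ x := by exact_mod_cast hx0
      rw [abs_of_nonneg hx0'] at hx1 hx2
      have x1 : (j : ℚ) ≤ x := by exact_mod_cast hx1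
      have x2 : x ≤ (j : ℚ) + 1 := by exact_mod_cast hx2
      rcases le_total 0 y with hy0 | hy0
      · refine sanC_bd (a2 j) hC hθ0 x y x1 x2 hy0 (by linarith) _ ?_
        push_cast
        rw [zero_sub, abs_neg, abs_of_nonneg hj]
        linarith
      · refine sanC_bd (a1 j) hC hθ0 x y x1 x2 y1 (by linarith) _ ?_
        push_cast
        rw [abs_le]
        constructor <;> linarith
    · have hx0' : (x : ℝ) ≤ 0 := by exact_mod_cast hx0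
      rw [abs_of_nonpos hx0'] at hx1 hx2
      have x1 : (x : ℚ) ≤ -(j : ℚ) := by
        have : (x : ℝ) ≤ -(j : ℝ) := by linarith
        exact_mod_cast this
      have x2 : -((j : ℚ) + 1) ≤ x := by
        have : -((j : ℝ) + 1) ≤ x := by linarith
        exact_mod_cast this
      rcases le_total 0 y with hy0 | hy0
      · refine sanC_bd (a4 j) hC hθ0 x y x2 (by linarith) hy0 (by linarith) _ ?_
        push_cast
        rw [abs_le]
        constructor <;> linarith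
      · refine sanC_bd (a3 j) hC hθ0 x y x2 (by linarith) y1 (by linarith) _ ?_
        push_cast
        rw [abs_le]
        constructor <;> linarith
  · have hyy := abs_le.1 hy
    have y1 : (-1 : ℚ) ≤ y := by
      have := hyy.1
      exact_mod_cast this
    have y2 : y ≤ 1 := by
      have := hyy.2
      exact_mod_cast this
    have hd : |((1 : ℚ) : ℝ) - y| ≤ 2 := by
      push_cast
      rw [abs_le]
      constructor <;> linarith
    rcases le_total 0 y with hy0 | hy0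
    · exact sanP_bd b2 (by positivity) hθ 1 y le_rfl (by norm_num) hy0 (by linarith) hd
    · exact sanP_bd b1 (by positivity) hθ 1 y le_rfl (by norm_num) y1 (by linarith) hd
  · have hyy := abs_le.1 hy
    have y1 : (-1 : ℚ) ≤ y := by
      have := hyy.1
      exact_mod_cast this
    have y2 : y ≤ 1 := by
      have := hyy.2
      exact_mod_cast this
    have hd : |((-1 : ℚ) : ℝ) - y| ≤ 2 := by
      push_cast
      rw [abs_le]
      constructor <;> linarith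
    rcases le_total 0 y with hy0 | hy0
    · exact sanP_bd b4 (by positivity) hθ (-1) y le_rfl (by norm_num) hy0 (by linarith) hd
    · exact sanP_bd b3 (by positivity) hθ (-1) y le_rfl (by norm_num) y1 (by linarith) hd

theorem sand_prob (h : Base ν tw β) (δ : ℝ) (hδ : 0 < δ) : ∀ᶠ w : ℕ in atTop, ∀ θ : ℝ, 1 / 2 ≤ θ → θ ≤ 1 →
    ((β 0).prod (ν θ)) {p | ¬ SandOK w p.1 p.2} ≤ ENNReal.ofReal δ := by
  obtain ⟨C₁, hC₁, H₁⟩ := cell_sup h 1 one_pos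
  obtain ⟨C₂, hC₂, H₂⟩ := par_est h
  set G : ℝ := (1 - Real.exp (-(1 / 16384)))⁻¹ with hGd
  have hG : 0 ≤ G := by
    rw [hGd, inv_nonneg, sub_nonneg, Real.exp_le_one_iff]
    norm_num
  have t1 := san_tendsto ((32 + 4 * C₁) * G) (1 / 16384) (by norm_num)
  have t2 := san_tendsto (4 * C₂) (1 / (16 * C₂)) (by positivity)
  have t3 := t1.add t2
  rw [add_zero] at t3
  have hev := t3.eventually (gt_mem_nhds hδ)
  filter_upwards [hev, eventually_ge_atTop (⌈2 * C₁ + 9⌉₊ + ⌈16 * C₂⌉₊ + 1)] with w hw1 hw2 θ hθ1 hθ2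
  have hw3 : (⌈2 * C₁ + 9⌉₊ : ℝ) + ⌈16 * C₂⌉₊ + 1 ≤ w := by exact_mod_cast hw2
  have hw4 := Nat.le_ceil (2 * C₁ + 9)
  have hw5 := Nat.le_ceil (16 * C₂)
  have hw6 : 1 ≤ w := by omega
  have hw7 : (1 : ℝ) ≤ w := by exact_mod_cast hw6
  have hC1' : 2 * C₁ + 9 ≤ w := by
    have : (0 : ℝ) ≤ ⌈16 * C₂⌉₊ := Nat.cast_nonneg _
    linarith
  have hC2' : C₂ ≤ (w : ℝ) / 16 := by
    have : (0 : ℝ) ≤ ⌈2 * C₁ + 9⌉₊ := Nat.cast_nonneg _
    linarith
  have hθ0 : 0 < θ := by linarith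
  have hP1 : IsProbabilityMeasure (β 0) := (h.bm 0).prob
  have hP2 : IsProbabilityMeasure (ν θ) := h.prob θ hθ0
  have hsub : {p : Ini × Kern | ¬ SandOK w p.1 p.2} ⊆
      (sanF w ×ˢ (Set.univ : Set Kern)) ∪ ((Set.univ : Set Ini) ×ˢ sanS C₁ θ w) := by
    intro p hp
    by_contra hn
    rw [Set.mem_union, not_or] at hn
    have n1 : p.1 ∉ sanF w := fun hc => hn.1 ⟨hc, Set.mem_univ _⟩
    have n2 : p.2 ∉ sanS C₁ θ w := fun hc => hn.2 ⟨Set.mem_univ _, hc⟩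
    obtain ⟨k1, k2, k3⟩ := sanS_bd n2 (by linarith) hθ1
    exact hp (san_det w C₁ (by linarith) hC1' p.1 p.2 (sanF_bd n1) k1 k2 k3)
  have hF := sanF_prob h w hw6
  have hCell : ∀ (α : ℕ → ℚ) (α' : ℚ), ν θ (⋃ j : ℕ, sanC C₁ θ ((w : ℝ) / 8 * (j + 1)) (α j) α') ≤
      ENNReal.ofReal (C₁ * G * Real.exp (-(1 / 16384 * w))) := by
    intro α α'
    refine san_sum (ν θ) _ C₁ (1 / 16384) (by norm_num) (by linarith) w hw6 fun j => ?_
    have hj : (0 : ℝ) ≤ (j : ℝ) := Nat.cast_nonneg j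
    refine (H₁ θ hθ1 (by linarith) (α j) α' ((w : ℝ) / 8 * (j + 1)) (by positivity)).trans
      (ENNReal.ofReal_le_ofReal ?_)
    refine mul_le_mul_of_nonneg_left (Real.exp_le_exp.2 ?_) (by linarith)
    nlinarith [mul_nonneg (by linarith : (0 : ℝ) ≤ (w : ℝ)) (by linarith : (0 : ℝ) ≤ (j : ℝ) + 1)]
  have hPar : ∀ α α' : ℚ, ν θ (sanP θ ((w : ℝ) / 16) α α') ≤
      ENNReal.ofReal (C₂ * Real.exp (-(1 / (16 * C₂) * w))) := by
    intro α α'
    refine (H₂ θ hθ1 (by linarith) α α' ((w : ℝ) / 16) hC2').trans (ENNReal.ofReal_le_ofReal ?_)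
    have e : -((w : ℝ) / 16) / C₂ = -(1 / (16 * C₂) * w) := by
      have : C₂ ≠ 0 := by linarith
      field_simp
    rw [e]
  have hSp : ν θ (sanS C₁ θ w) ≤ ENNReal.ofReal (4 * C₁ * G * Real.exp (-(1 / 16384 * w)) +
      4 * C₂ * Real.exp (-(1 / (16 * C₂) * w))) := by
    set X : ℝ := C₁ * G * Real.exp (-(1 / 16384 * w)) with hX
    set Y : ℝ := C₂ * Real.exp (-(1 / (16 * C₂) * w)) with hY
    have hX0 : 0 ≤ X := by positivity
    have hY0 : 0 ≤ Y := by positivity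
    calc ν θ (sanS C₁ θ w) ≤ ((ENNReal.ofReal X + ENNReal.ofReal X) + (ENNReal.ofReal X + ENNReal.ofReal X)) +
          ((ENNReal.ofReal Y + ENNReal.ofReal Y) + (ENNReal.ofReal Y + ENNReal.ofReal Y)) := by
          refine (measure_union_le _ _).trans (add_le_add ((measure_union_le _ _).trans (add_le_add
            ((measure_union_le _ _).trans (add_le_add ?_ ?_)) ((measure_union_le _ _).trans (add_le_add ?_ ?_))))
            ((measure_union_le _ _).trans (add_le_add ((measure_union_le _ _).trans (add_le_add ?_ ?_))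
            ((measure_union_le _ _).trans (add_le_add ?_ ?_)))))
          · exact hCell (fun j => (j : ℚ)) (-1)
          · exact hCell (fun j => (j : ℚ)) 0
          · exact hCell (fun j => -((j : ℚ) + 1)) (-1)
          · exact hCell (fun j => -((j : ℚ) + 1)) 0
          · exact hPar _ _
          · exact hPar _ _
          · exact hPar _ _
          · exact hPar _ _
      _ = ENNReal.ofReal (((X + X) + (X + X)) + ((Y + Y) + (Y + Y))) := by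
          have a1 : 0 ≤ X + X := add_nonneg hX0 hX0
          have a2 : 0 ≤ Y + Y := add_nonneg hY0 hY0
          rw [ENNReal.ofReal_add (add_nonneg a1 a1) (add_nonneg a2 a2), ENNReal.ofReal_add a1 a1,
            ENNReal.ofReal_add a2 a2, ENNReal.ofReal_add hX0 hX0, ENNReal.ofReal_add hY0 hY0]
      _ = _ := by
          congr 1
          rw [hX, hY]
          ring
  calc ((β 0).prod (ν θ)) {p | ¬ SandOK w p.1 p.2}
      ≤ ((β 0).prod (ν θ)) ((sanF w ×ˢ (Set.univ : Set Kern)) ∪ ((Set.univ : Set Ini) ×ˢ sanS C₁ θ w)) :=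
        measure_mono hsub
    _ ≤ ((β 0).prod (ν θ)) (sanF w ×ˢ (Set.univ : Set Kern)) +
        ((β 0).prod (ν θ)) ((Set.univ : Set Ini) ×ˢ sanS C₁ θ w) := measure_union_le _ _
    _ = β 0 (sanF w) + ν θ (sanS C₁ θ w) := by
        rw [Measure.prod_prod, Measure.prod_prod, measure_univ, measure_univ, mul_one, one_mul]
    _ ≤ ENNReal.ofReal (32 * G * Real.exp (-(1 / 16384 * w))) +
        ENNReal.ofReal (4 * C₁ * G * Real.exp (-(1 / 16384 * w)) + 4 * C₂ * Real.exp (-(1 / (16 * C₂) * w))) :=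
        add_le_add hF hSp
    _ = ENNReal.ofReal ((32 + 4 * C₁) * G * Real.exp (-(1 / 16384 * w)) +
        4 * C₂ * Real.exp (-(1 / (16 * C₂) * w))) := by
        rw [← ENNReal.ofReal_add (by positivity) (by positivity)]
        congr 1
        ring
    _ ≤ ENNReal.ofReal δ := ENNReal.ofReal_le_ofReal hw1.le

end Pool.Agent.DLM
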