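import Pool.Agent.DLM.ENL
import Pool.Agent.DLM.SWD

/-!
# DLM/VMK: the two Brownian profiles almost agree (80-120 lines)

`V ω` = the difference in the statement.  `V ≥ 0` a.s.: `act_mono` with `g = gB (2w)`, `g' = gB (-2w)` (`g - g' = 4 w x` is nondecreasing), `Quad`, `ABdd` a.s. (`gB_law`, `Base.stat_bdd`, `Base.quad`), at the points `∓ w/w^600`.  MEAN: `fB e` has the law `β (e/w^300)` (`env_law`), its increment over `[-w, w]` is `N(2 w e/w^300, 4 w)` (`IsBML.gauss`):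
integrable with mean `2 w e/w^300`; so `V` is integrable and `E V = 2 · (2w)(2w)/w^300 = 8 w^2/w^300`.  Markov: `P(V > 1/(2 w^100)) ≤ 16 w^102/w^300 = 16/w^198`.
-/

set_option autoImplicit false

open MeasureTheory ProbabilityTheory Filter Topology

namespace Pool.Agent.DLM

private theorem aem_of_map {α γ : Type*} [MeasurableSpace α] [MeasurableSpace γ] {μ : Measure α} {f : α → γ}
    {ν' : Measure γ} [IsProbabilityMeasure ν'] (h : μ.map f = ν') : AEMeasurable f μ := by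
  by_contra hf
  rw [Measure.map_of_not_aemeasurable hf] at h
  have h1 : ν' Set.univ = 1 := measure_univ
  rw [← h] at h1
  simp at h1

theorem diff_prob {Ω₀ Ω : Type*} [MeasurableSpace Ω₀] [MeasurableSpace Ω] {P₀ : Measure Ω₀} [IsProbabilityMeasure P₀]
    {S₀ : ℝ → ℝ → Ω₀ → ℝ} {P : Measure Ω} [IsProbabilityMeasure P] {L : ℝ → ℝ → ℝ → ℝ → Ω → ℝ} {tw : Measure ℝ}
    {β : ℝ → Measure Ini} {W : ℝ → Ω₀ → ℝ} (h : Base (nuS P₀ S₀) tw β) (hS : IsAirySheet P₀ S₀) (hL : IsDL P₀ S₀ P L)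
    (hW : IsBM P₀ W 2 0) (w k : ℕ) (hw : 2 ≤ w) (hk : k ≤ w) :
    (P.prod P₀) {ω | 1 / (2 * (w : ℝ) ^ 100) < fB L W w k (2 * w) ω w - fB L W w k (-(2 * w)) ω w -
      (fB L W w k (2 * w) ω (-w) - fB L W w k (-(2 * w)) ω (-w))} ≤ ENNReal.ofReal (16 / (w : ℝ) ^ 198) := by
  have hw1 : (2 : ℝ) ≤ w := by exact_mod_cast hw
  have hw0 : (0 : ℝ) < w := by linarith
  have ht : 0 < tauW w k 0 := lt_of_lt_of_le (by norm_num) (tauW_zero_ge w k hw hk)
  have i0 : IsProbabilityMeasure (nuS P₀ S₀ (tauW w k 0)) := nuS_prob hS _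
  have hd : ∀ l, 0 < durW w k l := fun l => durW_pos w k l (by omega)
  -- the increments of the two profiles
  have hX : ∀ e : ℝ, (P.prod P₀).map (fun ω => fB L W w k e ω (w : ℚ) - fB L W w k e ω (-(w : ℚ))) =
      gaussianReal (e / (w : ℝ) ^ 300 * (2 * w)) (Real.toNNReal (2 * (2 * w))) := by
    intro e
    have i1 : IsProbabilityMeasure (β (e / (w : ℝ) ^ 300)) := (h.bm _).prob
    have i2 : IsProbabilityMeasure (piM (nuS P₀ S₀) (durW w k)) := piM_prob h hd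
    have hm : Measurable fun p : Ini × (ℕ → Kern) => p.1 (w : ℚ) - p.1 (-(w : ℚ)) := by fun_prop
    have hm1 : Measurable fun f : Ini => f (w : ℚ) - f (-(w : ℚ)) := by fun_prop
    have h1 := env_law h hS hL hW w k hw hk e
    have h2 : (P.prod P₀).map (fun ω => fB L W w k e ω (w : ℚ) - fB L W w k e ω (-(w : ℚ))) =
        ((P.prod P₀).map (fun ω => (fB L W w k e ω, shW L w k ω.1))).map
          (fun p => p.1 (w : ℚ) - p.1 (-(w : ℚ))) := by
      rw [Measure.map_map hm (fB_meas hL hW w k e)]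
      rfl
    rw [h2, h1, envM]
    have h3 : ((β (e / (w : ℝ) ^ 300)).prod (piM (nuS P₀ S₀) (durW w k))).map
        (fun p => p.1 (w : ℚ) - p.1 (-(w : ℚ))) =
        (β (e / (w : ℝ) ^ 300)).map (fun f => f (w : ℚ) - f (-(w : ℚ))) := by
      have h4 : (fun p : Ini × (ℕ → Kern) => p.1 (w : ℚ) - p.1 (-(w : ℚ))) =
          (fun f : Ini => f (w : ℚ) - f (-(w : ℚ))) ∘ Prod.fst := rfl
      rw [h4, ← Measure.map_map hm1 measurable_fst, Measure.map_fst_prod, measure_univ, one_smul]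
    rw [h3, (h.bm _).gauss (-(w : ℚ)) (w : ℚ) (by have : (0 : ℚ) ≤ w := Nat.cast_nonneg w; linarith)]
    push_cast
    rw [show (w : ℝ) - -(w : ℝ) = 2 * w by ring]
  have hInt : ∀ e : ℝ, Integrable (fun ω => fB L W w k e ω (w : ℚ) - fB L W w k e ω (-(w : ℚ))) (P.prod P₀) ∧
      ∫ ω, (fB L W w k e ω (w : ℚ) - fB L W w k e ω (-(w : ℚ))) ∂(P.prod P₀) = e / (w : ℝ) ^ 300 * (2 * w) := by
    intro e
    have ha : AEMeasurable (fun ω => fB L W w k e ω (w : ℚ) - fB L W w k e ω (-(w : ℚ))) (P.prod P₀) :=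
      aem_of_map (hX e)
    have h1 : Integrable (fun x : ℝ => x)
        ((P.prod P₀).map (fun ω => fB L W w k e ω (w : ℚ) - fB L W w k e ω (-(w : ℚ)))) := by
      rw [hX e]
      exact (memLp_id_gaussianReal 1).integrable le_rfl
    constructor
    · exact (integrable_map_measure h1.aestronglyMeasurable ha).1 h1
    · have h2 := integral_map (f := fun x : ℝ => x) ha h1.aestronglyMeasurable
      rw [← h2, hX e, integral_id_gaussianReal]
  set V : Ω × Ω₀ → ℝ := fun ω => fB L W w k (2 * w) ω (w : ℚ) - fB L W w k (-(2 * w)) ω (w : ℚ) -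
      (fB L W w k (2 * w) ω (-(w : ℚ)) - fB L W w k (-(2 * w)) ω (-(w : ℚ))) with hV
  have hVe : V = fun ω => (fB L W w k (2 * w) ω (w : ℚ) - fB L W w k (2 * w) ω (-(w : ℚ))) -
      (fB L W w k (-(2 * w)) ω (w : ℚ) - fB L W w k (-(2 * w)) ω (-(w : ℚ))) := by
    funext ω
    simp only [hV]
    ring
  have hVint : Integrable V (P.prod P₀) := by
    rw [hVe]
    exact (hInt (2 * w)).1.sub (hInt (-(2 * w))).1
  have hVmean : ∫ ω, V ω ∂(P.prod P₀) = 8 * (w : ℝ) ^ 2 / (w : ℝ) ^ 300 := by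
    rw [hVe, integral_sub (hInt (2 * w)).1 (hInt (-(2 * w))).1, (hInt (2 * w)).2, (hInt (-(2 * w))).2]
    ring
  have hV0 : 0 ≤ᵐ[P.prod P₀] V := by
    have hb : ∀ e : ℝ, ∀ᵐ ω ∂(P.prod P₀), ABdd (gB W e ω) (shL L 0 (tauW w k 0) ω.1) := by
      intro e
      have i1 : IsProbabilityMeasure (β e) := (h.bm _).prob
      have h1 := gB_law h hS hL hW w k hw hk e
      have h2 : ∀ᵐ q ∂((P.prod P₀).map (fun ω => (gB W e ω, shL L 0 (tauW w k 0) ω.1))), ABdd q.1 q.2 := by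
        rw [h1]
        exact h.stat_bdd e _ ht
      exact ae_of_ae_map (aem_of_map h1) h2
    have hq : ∀ᵐ ω ∂(P.prod P₀), Quad (shL L 0 (tauW w k 0) ω.1) := by
      have i1 : IsProbabilityMeasure (β 0) := (h.bm _).prob
      have h1 := gB_law h hS hL hW w k hw hk 0
      have h2 : ∀ᵐ q ∂((P.prod P₀).map (fun ω => (gB W 0 ω, shL L 0 (tauW w k 0) ω.1))), Quad q.2 := by
        rw [h1]
        exact Measure.quasiMeasurePreserving_snd.ae (h.quad _ ht)
      exact ae_of_ae_map (aem_of_map h1) h2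
    filter_upwards [hb (2 * w), hb (-(2 * w)), hq] with ω h1 h2 h3
    have h4 : ∀ x y : ℚ, x ≤ y → gB W (2 * (w : ℝ)) ω x - gB W (-(2 * (w : ℝ))) ω x ≤
        gB W (2 * (w : ℝ)) ω y - gB W (-(2 * (w : ℝ))) ω y := by
      intro x y hxy
      have hxy' : (x : ℝ) ≤ y := by exact_mod_cast hxy
      simp only [gB]
      nlinarith
    have hq0 : (0 : ℚ) < w := by exact_mod_cast (show 0 < w by omega)
    have h5 : -(w : ℚ) / (w : ℚ) ^ 600 ≤ (w : ℚ) / (w : ℚ) ^ 600 := by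
      have : (0 : ℚ) ≤ (w : ℚ) / (w : ℚ) ^ 600 := by positivity
      rw [neg_div]
      linarith
    have h6 := act_mono h3 h1 h2 h4 h5
    show (0 : ℝ) ≤ V ω
    simp only [hV, fB]
    have hp : (0 : ℝ) ≤ (w : ℝ) ^ 300 := by positivity
    nlinarith [mul_le_mul_of_nonneg_left h6 hp]
  have hmark := mul_meas_ge_le_integral_of_nonneg hV0 hVint (1 / (2 * (w : ℝ) ^ 100))
  rw [hVmean] at hmark
  have hreal : (P.prod P₀).real {ω | 1 / (2 * (w : ℝ) ^ 100) ≤ V ω} ≤ 16 / (w : ℝ) ^ 198 := by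
    have h1 : 16 / (w : ℝ) ^ 198 = (2 * (w : ℝ) ^ 100) * (8 * (w : ℝ) ^ 2 / (w : ℝ) ^ 300) := by
      field_simp
      norm_num
    have h2 : (P.prod P₀).real {ω | 1 / (2 * (w : ℝ) ^ 100) ≤ V ω} =
        (2 * (w : ℝ) ^ 100) * (1 / (2 * (w : ℝ) ^ 100) * (P.prod P₀).real {ω | 1 / (2 * (w : ℝ) ^ 100) ≤ V ω}) := by
      field_simp
    rw [h1, h2]
    exact mul_le_mul_of_nonneg_left hmark (by positivity)
  calc (P.prod P₀) {ω | 1 / (2 * (w : ℝ) ^ 100) < V ω}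
      ≤ (P.prod P₀) {ω | 1 / (2 * (w : ℝ) ^ 100) ≤ V ω} := measure_mono fun ω hω => by
        have h' : 1 / (2 * (w : ℝ) ^ 100) < V ω := hω
        exact h'.le
    _ = ENNReal.ofReal ((P.prod P₀).real {ω | 1 / (2 * (w : ℝ) ^ 100) ≤ V ω}) := by
        rw [Measure.real, ENNReal.ofReal_toReal (measure_ne_top _ _)]
    _ ≤ ENNReal.ofReal (16 / (w : ℝ) ^ 198) := ENNReal.ofReal_le_ofReal hreal

end Pool.Agent.DLM
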