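import Pool.Agent.DLM.ENL
import Pool.Agent.DLM.VMK
import Pool.Agent.DLM.SAN
import Pool.Agent.DLM.GDN
import Pool.Agent.DLM.COR

/-!
# DLM/GWP: the good event has probability close to one (80-120 lines)

`k = kW c₉ w ≤ w`.  Laws: `env_law` for `e = ± 2w` (`|e/w^300| ≤ 1`), `gB_law` (`tauW 0 ∈ [1/2, 1]`).  `quad`, `bdd`, `bdd'`, `env`, `comp`: almost surely (`Base.quad`, `Base.stat_bdd`, `ebdd_ae`, `sfx_comp`).  `sand`: `sand_prob` (`gB W 0` has the law `β 0`).  `conf`, `conf'`: `pre_kc_law` with `s = j = 0`, `n = K - 1` (`pre f S 0 = f`; `Conf` does not change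
under `nrm`; `durW_tail` with `s = 0`), `conf_prob`: `1/w^10` each.  `diff`: `diff_prob`.  `core`: `core` with `δ/3` (the negation of the event of `core`).  Measurability: for a non-measurable set `A` and a measurable `T`: `P (T⁻¹ A) ≤ (P.map T) A` (measurable superset).
-/

set_option autoImplicit false

open MeasureTheory ProbabilityTheory Filter Topology

namespace Pool.Agent.DLM

private theorem aem_of_map' {α γ : Type*} [MeasurableSpace α] [MeasurableSpace γ] {μ : Measure α} {f : α → γ}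
    {ν' : Measure γ} [IsProbabilityMeasure ν'] (h : μ.map f = ν') : AEMeasurable f μ := by
  by_contra hf
  rw [Measure.map_of_not_aemeasurable hf] at h
  have h1 : ν' Set.univ = 1 := measure_univ
  rw [← h] at h1
  simp at h1

private theorem conf_nrm {w : ℕ} {F g : Ini} (hc : Conf w (nrm F) g) : Conf w F g := by
  intro x hx
  have := hc x hx
  simp only [nrm] at this
  linarith

private theorem conf_env {ν : ℝ → Measure Kern} {tw : Measure ℝ} {β : ℝ → Measure Ini} (h : Base ν tw β)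
    {w k : ℕ} (hw : 1 ≤ w) (hk : k ≤ w) {ε : ENNReal}
    (hc : ∀ b θ : ℝ, |b| ≤ 1 → 1 ≤ θ → θ ≤ 4 →
      ((β b).prod (ν θ)) {p | ¬ Conf w p.1 (fun x => p.2 x 0)} ≤ ε) (b : ℝ) (hb : |b| ≤ 1) :
    envM ν β (durW w k) b {p | ¬ Conf w p.1 (sfx p.2 (KW w k) 0)} ≤ ε := by
  have hd : ∀ l, 0 < durW w k l := fun l => durW_pos w k l hw
  have hK : 0 < KW w k := by
    unfold KW
    omega
  have hTm : Measurable fun p : Ini × (ℕ → Kern) =>
      (nrm (pre p.1 p.2 0), kc (KW w k - 1 - 0) (shf p.2 (0 + 0))) :=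
    (nrm_meas.comp (pre_meas 0)).prodMk
      ((kc_meas (KW w k - 1 - 0)).comp ((shf_meas (0 + 0)).comp measurable_snd))
  have hsub : {p : Ini × (ℕ → Kern) | ¬ Conf w p.1 (sfx p.2 (KW w k) 0)} ⊆
      (fun p : Ini × (ℕ → Kern) => (nrm (pre p.1 p.2 0), kc (KW w k - 1 - 0) (shf p.2 (0 + 0)))) ⁻¹'
        {q | ¬ Conf w q.1 (fun x => q.2 x 0)} := by
    intro p hp hq
    exact hp (conf_nrm hq)
  refine (measure_mono hsub).trans ((Measure.le_map_apply hTm.aemeasurable _).trans ?_)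
  rw [pre_kc_law h hd b 0 0 (KW w k - 1 - 0)]
  have ht := durW_tail w k 0 hw hk hK
  have e1 : ∑ l ∈ Finset.range (KW w k - 1 - 0 + 1), durW w k (0 + 0 + l) =
      ∑ l ∈ Finset.range (KW w k - 1 - 0 + 1), durW w k (0 + l) := by
    simp
  rw [e1]
  exact hc b _ hb ht.1 ht.2

private theorem kW_le {c : ℝ} (hc1 : c ≤ 1) {w : ℕ} (hw : 1 ≤ w) : kW c w ≤ w := by
  unfold kW
  have hw' : (1 : ℝ) ≤ w := by exact_mod_cast hw
  have h1 : Real.log w ≤ w := (Real.log_le_sub_one_of_pos (by linarith)).trans (by linarith)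
  have h0 : 0 ≤ Real.log w := Real.log_nonneg hw'
  have h2 : c * Real.log w ≤ (w : ℝ) := by nlinarith
  exact Nat.floor_le_of_le h2

theorem gw_prob {Ω₀ Ω : Type*} [MeasurableSpace Ω₀] [MeasurableSpace Ω] {P₀ : Measure Ω₀} [IsProbabilityMeasure P₀]
    {S₀ : ℝ → ℝ → Ω₀ → ℝ} {P : Measure Ω} [IsProbabilityMeasure P] {L : ℝ → ℝ → ℝ → ℝ → Ω → ℝ} {tw : Measure ℝ}
    {β : ℝ → Measure Ini} {W : ℝ → Ω₀ → ℝ} (h : Base (nuS P₀ S₀) tw β) (hS : IsAirySheet P₀ S₀) (hL : IsDL P₀ S₀ P L)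
    (hW : IsBM P₀ W 2 0) : ∃ c₉ c₀ : ℝ, 0 < c₉ ∧ c₉ ≤ 1 ∧ 0 < c₀ ∧ ∀ δ : ℝ, 0 < δ → ∀ᶠ w : ℕ in atTop,
      (P.prod P₀) {ω | ¬ GW L W w (kW c₉ w) c₀ ω} ≤ ENNReal.ofReal δ := by
  obtain ⟨c₉, c₀, hc9, hc91, hc0, hcore⟩ := core h
  refine ⟨c₉, c₀, hc9, hc91, hc0, fun δ hδ => ?_⟩
  have hlim1 : Tendsto (fun w : ℕ => 1 / (w : ℝ) ^ 10) atTop (𝓝 0) := by
    have := (tendsto_one_div_atTop_nhds_zero_nat (𝕜 := ℝ)).pow 10
    simpa [div_pow] using this
  have hlim2 : Tendsto (fun w : ℕ => 16 / (w : ℝ) ^ 198) atTop (𝓝 0) := by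
    have := ((tendsto_one_div_atTop_nhds_zero_nat (𝕜 := ℝ)).pow 198).const_mul 16
    simpa [div_pow, div_eq_mul_inv] using this
  filter_upwards [eventually_ge_atTop 2, sand_prob h (δ / 6) (by linarith), conf_prob h,
    hcore (δ / 3) (by linarith), hlim1.eventually (gt_mem_nhds (show (0 : ℝ) < δ / 12 by linarith)),
    hlim2.eventually (gt_mem_nhds (show (0 : ℝ) < δ / 6 by linarith))] with w hw hs hcf hco h10 h198
  set k := kW c₉ w with hkdef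
  have hw1 : 1 ≤ w := by omega
  have hk : k ≤ w := kW_le hc91 hw1
  have hwr : (2 : ℝ) ≤ w := by exact_mod_cast hw
  have ht : 0 < tauW w k 0 := lt_of_lt_of_le (by norm_num) (tauW_zero_ge w k hw hk)
  have hd : ∀ l, 0 < durW w k l := fun l => durW_pos w k l hw1
  have i0 : IsProbabilityMeasure (nuS P₀ S₀ (tauW w k 0)) := nuS_prob hS _
  have hb1 : |2 * (w : ℝ) / (w : ℝ) ^ 300| ≤ 1 := by
    rw [abs_of_nonneg (by positivity), div_le_one (by positivity)]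
    calc 2 * (w : ℝ) ≤ w * w := by nlinarith
      _ = (w : ℝ) ^ 2 := by ring
      _ ≤ (w : ℝ) ^ 300 := pow_le_pow_right₀ (by linarith) (by norm_num)
  have hb2 : |-(2 * (w : ℝ)) / (w : ℝ) ^ 300| ≤ 1 := by
    rw [neg_div, abs_neg]
    exact hb1
  -- almost sure properties
  have hbdd : ∀ e : ℝ, ∀ᵐ ω ∂(P.prod P₀), ABdd (gB W e ω) (shL L 0 (tauW w k 0) ω.1) := by
    intro e
    have i1 : IsProbabilityMeasure (β e) := (h.bm _).prob
    have h1 := gB_law h hS hL hW w k hw hk e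
    have h2 : ∀ᵐ q ∂((P.prod P₀).map (fun ω => (gB W e ω, shL L 0 (tauW w k 0) ω.1))), ABdd q.1 q.2 := by
      rw [h1]
      exact h.stat_bdd e _ ht
    exact ae_of_ae_map (aem_of_map' h1) h2
  have hquad : ∀ᵐ ω ∂(P.prod P₀), Quad (shL L 0 (tauW w k 0) ω.1) := by
    have i1 : IsProbabilityMeasure (β 0) := (h.bm _).prob
    have h1 := gB_law h hS hL hW w k hw hk 0
    have h2 : ∀ᵐ q ∂((P.prod P₀).map (fun ω => (gB W 0 ω, shL L 0 (tauW w k 0) ω.1))), Quad q.2 := by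
      rw [h1]
      exact Measure.quasiMeasurePreserving_snd.ae (h.quad _ ht)
    exact ae_of_ae_map (aem_of_map' h1) h2
  have henv : ∀ᵐ ω ∂(P.prod P₀), EBdd (fB L W w k (2 * w) ω) (shW L w k ω.1) := by
    have h2 : ∀ᵐ q ∂((P.prod P₀).map (fun ω => (fB L W w k (2 * w) ω, shW L w k ω.1))), EBdd q.1 q.2 := by
      rw [env_law h hS hL hW w k hw hk (2 * w)]
      exact ebdd_ae h hd _
    exact ae_of_ae_map (fB_meas hL hW w k (2 * w)).aemeasurable h2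
  have hcomp : ∀ᵐ ω ∂(P.prod P₀), ∀ x : ℚ,
      fT L w k ω.1 x + sfx (shW L w k ω.1) (KW w k) 0 x ≤ (w : ℝ) ^ 300 * L 0 0 0 1 ω.1 :=
    Measure.quasiMeasurePreserving_fst.ae (sfx_comp hL w k hw hk)
  have hN : (P.prod P₀) {ω | ¬ (Quad (shL L 0 (tauW w k 0) ω.1) ∧
      ABdd (gB W (2 * w) ω) (shL L 0 (tauW w k 0) ω.1) ∧
      ABdd (gB W (-(2 * w)) ω) (shL L 0 (tauW w k 0) ω.1) ∧
      EBdd (fB L W w k (2 * w) ω) (shW L w k ω.1) ∧
      ∀ x : ℚ, fT L w k ω.1 x + sfx (shW L w k ω.1) (KW w k) 0 x ≤ (w : ℝ) ^ 300 * L 0 0 0 1 ω.1)} = 0 := by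
    have h1 : ∀ᵐ ω ∂(P.prod P₀), (Quad (shL L 0 (tauW w k 0) ω.1) ∧
      ABdd (gB W (2 * w) ω) (shL L 0 (tauW w k 0) ω.1) ∧
      ABdd (gB W (-(2 * w)) ω) (shL L 0 (tauW w k 0) ω.1) ∧
      EBdd (fB L W w k (2 * w) ω) (shW L w k ω.1) ∧
      ∀ x : ℚ, fT L w k ω.1 x + sfx (shW L w k ω.1) (KW w k) 0 x ≤ (w : ℝ) ^ 300 * L 0 0 0 1 ω.1) := by
      filter_upwards [hquad, hbdd (2 * w), hbdd (-(2 * w)), henv, hcomp] with ω h1 h2 h3 h4 h5
      exact ⟨h1, h2, h3, h4, h5⟩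
    exact h1
  -- the sandwich
  have hA1 : (P.prod P₀) {ω | ¬ SandOK w (gB W 0 ω) (shL L 0 (tauW w k 0) ω.1)} ≤ ENNReal.ofReal (δ / 6) := by
    have i1 : IsProbabilityMeasure (β 0) := (h.bm _).prob
    have h1 := gB_law h hS hL hW w k hw hk 0
    have h2 := Measure.le_map_apply (aem_of_map' h1) {q : Ini × Kern | ¬ SandOK w q.1 q.2}
    rw [h1] at h2
    exact h2.trans (hs _ (tauW_zero_ge w k hw hk) (tauW_le_one w k 0 hw1 (Nat.zero_le _)))
  -- confinement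
  have hA2 : ∀ e : ℝ, |e / (w : ℝ) ^ 300| ≤ 1 →
      (P.prod P₀) {ω | ¬ Conf w (fB L W w k e ω) (sfx (shW L w k ω.1) (KW w k) 0)} ≤
        ENNReal.ofReal (1 / (w : ℝ) ^ 10) := by
    intro e he
    have h1 := env_law h hS hL hW w k hw hk e
    have h2 := Measure.le_map_apply (fB_meas hL hW w k e (P₀ := P₀)).aemeasurable (μ := P.prod P₀)
      {q : Ini × (ℕ → Kern) | ¬ Conf w q.1 (sfx q.2 (KW w k) 0)}
    rw [h1] at h2
    exact h2.trans (conf_env h hw1 hk hcf _ he)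
  have hA3 := diff_prob h hS hL hW w k hw hk
  have hA4 : (P.prod P₀) {ω | ∀ i < w ^ 2, ∃ z, Near (fB L W w k (2 * w) ω) (shW L w k ω.1) (KW w k)
      (1 / (w : ℝ) ^ 100) z ∧ SOsc (bW k i) k (c₀ * k / (w : ℝ) ^ 200) z} ≤ ENNReal.ofReal (δ / 3) := by
    have h1 := env_law h hS hL hW w k hw hk (2 * w)
    have h2 := Measure.le_map_apply (fB_meas hL hW w k (2 * w) (P₀ := P₀)).aemeasurable (μ := P.prod P₀)
      {p : Ini × (ℕ → Kern) | ∀ i < w ^ 2, ∃ z, Near p.1 p.2 (KW w k) (1 / (w : ℝ) ^ 100) z ∧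
        SOsc (bW k i) k (c₀ * k / (w : ℝ) ^ 200) z}
    rw [h1] at h2
    exact h2.trans (hco _ hb1)
  have hsub : {ω | ¬ GW L W w k c₀ ω} ⊆
      ({ω | ¬ (Quad (shL L 0 (tauW w k 0) ω.1) ∧
        ABdd (gB W (2 * w) ω) (shL L 0 (tauW w k 0) ω.1) ∧
        ABdd (gB W (-(2 * w)) ω) (shL L 0 (tauW w k 0) ω.1) ∧
        EBdd (fB L W w k (2 * w) ω) (shW L w k ω.1) ∧
        ∀ x : ℚ, fT L w k ω.1 x + sfx (shW L w k ω.1) (KW w k) 0 x ≤ (w : ℝ) ^ 300 * L 0 0 0 1 ω.1)} ∪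
      {ω | ¬ SandOK w (gB W 0 ω) (shL L 0 (tauW w k 0) ω.1)}) ∪
      ({ω | ¬ Conf w (fB L W w k (2 * w) ω) (sfx (shW L w k ω.1) (KW w k) 0)} ∪
      {ω | ¬ Conf w (fB L W w k (-(2 * w)) ω) (sfx (shW L w k ω.1) (KW w k) 0)}) ∪
      ({ω | 1 / (2 * (w : ℝ) ^ 100) < fB L W w k (2 * w) ω w - fB L W w k (-(2 * w)) ω w -
        (fB L W w k (2 * w) ω (-w) - fB L W w k (-(2 * w)) ω (-w))} ∪
      {ω | ∀ i < w ^ 2, ∃ z, Near (fB L W w k (2 * w) ω) (shW L w k ω.1) (KW w k)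
        (1 / (w : ℝ) ^ 100) z ∧ SOsc (bW k i) k (c₀ * k / (w : ℝ) ^ 200) z}) := by
    intro ω hω
    by_contra hn
    simp only [Set.mem_union, not_or] at hn
    obtain ⟨⟨⟨h1, h2⟩, h3, h4⟩, h5, h6⟩ := hn
    have h1' := not_not.1 h1
    have h2' := not_not.1 h2
    have h3' := not_not.1 h3
    have h4' := not_not.1 h4
    have h5a : ¬ (1 / (2 * (w : ℝ) ^ 100) < fB L W w k (2 * w) ω w - fB L W w k (-(2 * w)) ω w -
        (fB L W w k (2 * w) ω (-w) - fB L W w k (-(2 * w)) ω (-w))) := h5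
    have h5' := not_lt.1 h5a
    apply hω
    refine ⟨h1'.1, h1'.2.1, h1'.2.2.1, h2', h1'.2.2.2.1, h3', h4', h5', h1'.2.2.2.2, ?_⟩
    by_contra hcc
    apply h6
    intro i hi
    by_contra hz
    apply hcc
    exact ⟨i, hi, fun z hz1 hz2 => hz ⟨z, hz1, hz2⟩⟩
  calc (P.prod P₀) {ω | ¬ GW L W w k c₀ ω}
      ≤ (0 + ENNReal.ofReal (δ / 6)) + (ENNReal.ofReal (1 / (w : ℝ) ^ 10) + ENNReal.ofReal (1 / (w : ℝ) ^ 10)) +
        (ENNReal.ofReal (16 / (w : ℝ) ^ 198) + ENNReal.ofReal (δ / 3)) := by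
        refine (measure_mono hsub).trans ((measure_union_le _ _).trans ?_)
        refine add_le_add ((measure_union_le _ _).trans (add_le_add ((measure_union_le _ _).trans ?_)
          ((measure_union_le _ _).trans ?_))) ((measure_union_le _ _).trans ?_)
        · exact add_le_add hN.le hA1
        · exact add_le_add (hA2 _ hb1) (hA2 _ hb2)
        · exact add_le_add hA3 hA4
    _ = ENNReal.ofReal ((δ / 6 + (1 / (w : ℝ) ^ 10 + 1 / (w : ℝ) ^ 10)) + (16 / (w : ℝ) ^ 198 + δ / 3)) := by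
        rw [zero_add, ← ENNReal.ofReal_add (by positivity) (by positivity),
          ← ENNReal.ofReal_add (by positivity) (by positivity),
          ← ENNReal.ofReal_add (by positivity) (by positivity),
          ← ENNReal.ofReal_add (by positivity) (by positivity)]
    _ ≤ ENNReal.ofReal δ := ENNReal.ofReal_le_ofReal (by linarith)

end Pool.Agent.DLM
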