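import Pool.Agent.DLM.EDefs

/-!
# DLM/MOD: lower bound for `M0` (80-120 lines, analysis)

`c = (c₀/2) (c₉/2402)^(1/3)`.  For `w` large: `k = kW c₉ w ≥ 1`, `k ≥ c₉ log w/2`, `k ≤ w`, `h = k/w^1200 < ε`, `h ≤ 1`.  `t ≠ s` since `|p t - p s| > 0`.  `gg` is nondecreasing on `(0, 1]`: `gg h = (h^2 log(2/h))^(1/3)` and `h^2 log(2/h)` has the derivative `h (2 log(2/h) - 1) > 0` (`log 2 > 1/2`); (or: for `0 < h' ≤ h ≤ 1`, `h' = h/x`:
`h'^2 log(2/h') = h^2 (log(2/h) + log x)/x^2 ≤ h^2 log(2/h)` since `log x ≤ (x^2 - 1)/2 ≤ (x^2-1) log 2`).  `gg h ≤ k^(2/3) w^(-800) (1201 log w)^(1/3)`.  So `|p t - p s|/gg |t - s| ≥ (c₀ k/(2 w^800))/(k^(2/3) w^(-800) (1201 log w)^(1/3)) = (c₀/2) (k/(1201 log w))^(1/3) ≥ c`.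
`M0` is an infimum over `ε > 0` (`le_iInf₂`), `Meps` a supremum (`le_iSup₂_of_le ..`).
-/

set_option autoImplicit false

open MeasureTheory ProbabilityTheory Filter Topology

namespace Pool.Agent.DLM

private theorem MOD_log_le (x : ℝ) (hx : 1 ≤ x) : Real.log x ≤ (x ^ 2 - 1) * Real.log 2 := by
  have h1 : Real.log (x ^ 2) ≤ x ^ 2 - 1 := Real.log_le_sub_one_of_pos (by positivity)
  have h2 : Real.log (x ^ 2) = 2 * Real.log x := by
    rw [Real.log_pow]; norm_num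
  have h3 : (1 / 2 : ℝ) < Real.log 2 := by
    have := Real.log_two_gt_d9
    linarith
  have h4 : 0 ≤ x ^ 2 - 1 := by nlinarith
  nlinarith [mul_le_mul_of_nonneg_left h3.le h4]

private theorem MOD_mono (h' h : ℝ) (h0 : 0 < h') (h1 : h' ≤ h) (h2 : h ≤ 1) :
    h' ^ 2 * Real.log (2 / h') ≤ h ^ 2 * Real.log (2 / h) := by
  have hh : 0 < h := lt_of_lt_of_le h0 h1
  have hx : 1 ≤ h / h' := by rw [le_div_iff₀ h0]; linarith
  have e1 : Real.log (2 / h') = Real.log (2 / h) + Real.log (h / h') := by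
    rw [← Real.log_mul (by positivity) (by positivity)]
    congr 1
    field_simp
  have e2 := MOD_log_le (h / h') hx
  have e3 : Real.log 2 ≤ Real.log (2 / h) := by
    apply Real.log_le_log (by norm_num)
    rw [le_div_iff₀ hh]; linarith
  have e4 : 0 ≤ (h / h') ^ 2 - 1 := by nlinarith
  have e5 : Real.log (2 / h') ≤ (h / h') ^ 2 * Real.log (2 / h) := by
    rw [e1]
    nlinarith [mul_le_mul_of_nonneg_left e3 e4]
  calc h' ^ 2 * Real.log (2 / h') ≤ h' ^ 2 * ((h / h') ^ 2 * Real.log (2 / h)) :=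
        mul_le_mul_of_nonneg_left e5 (by positivity)
    _ = h ^ 2 * Real.log (2 / h) := by field_simp

private theorem MOD_gg_cube (h : ℝ) (h0 : 0 < h) (h2 : h ≤ 1) : gg h ^ 3 = h ^ 2 * Real.log (2 / h) := by
  have hL : 0 ≤ Real.log (2 / h) := by
    apply Real.log_nonneg
    rw [le_div_iff₀ h0]; linarith
  unfold gg
  rw [mul_pow]
  congr 1
  · rw [← Real.rpow_natCast, ← Real.rpow_mul h0.le]
    norm_num
  · rw [← Real.rpow_natCast, ← Real.rpow_mul hL]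
    norm_num

private theorem MOD_gg_pos (h : ℝ) (h0 : 0 < h) (h2 : h ≤ 1) : 0 < gg h := by
  have hL : 0 < Real.log (2 / h) := by
    apply Real.log_pos
    rw [lt_div_iff₀ h0]; linarith
  unfold gg
  positivity

/-- the numerical heart: everything about one `w` -/
private theorem MOD_one (c₉ c₀ c k w L A h' : ℝ) (h9 : 0 < c₉) (h0 : 0 < c₀) (hc : 0 < c)
    (hc3 : c ^ 3 = (c₀ / 2) ^ 3 * (c₉ / 2402)) (hk1 : 1 ≤ k) (hw : 1 ≤ w) (hL : 0 < L)
    (hkL : c₉ * L / 2 ≤ k) (hpos : 0 < h') (hle : h' ≤ k / w ^ 1200) (hle1 : k / w ^ 1200 ≤ 1)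
    (hlog : Real.log (2 / (k / w ^ 1200)) ≤ 1201 * L) (hA : c₀ * k / (2 * w ^ 800) ≤ A) :
    c ≤ A / gg h' := by
  have hg := MOD_gg_pos h' hpos (hle.trans hle1)
  rw [le_div_iff₀ hg]
  refine le_trans ?_ hA
  have hr : 0 ≤ c₀ * k / (2 * w ^ 800) := by positivity
  rw [← pow_le_pow_iff_left₀ (by positivity) hr (n := 3) (by norm_num)]
  rw [mul_pow, MOD_gg_cube h' hpos (hle.trans hle1), hc3]
  have hm := MOD_mono h' (k / w ^ 1200) hpos hle hle1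
  have hwp : 0 < w ^ 800 := by positivity
  have hw12 : (w : ℝ) ^ 1200 = w ^ 800 * w ^ 400 := by rw [← pow_add]
  calc (c₀ / 2) ^ 3 * (c₉ / 2402) * (h' ^ 2 * Real.log (2 / h'))
      ≤ (c₀ / 2) ^ 3 * (c₉ / 2402) * ((k / w ^ 1200) ^ 2 * (1201 * L)) := by
        apply mul_le_mul_of_nonneg_left _ (by positivity)
        exact hm.trans (mul_le_mul_of_nonneg_left hlog (by positivity))
    _ = (c₀ / 2) ^ 3 * (c₉ * L / 2) * (k ^ 2 / (w ^ 800) ^ 3) := by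
        have : (w ^ 1200) ^ 2 = (w ^ 800) ^ 3 := by rw [← pow_mul, ← pow_mul]
        rw [div_pow k, this]
        ring
    _ ≤ (c₀ / 2) ^ 3 * k * (k ^ 2 / (w ^ 800) ^ 3) := by
        apply mul_le_mul_of_nonneg_right _ (by positivity)
        exact mul_le_mul_of_nonneg_left hkL (by positivity)
    _ = (c₀ * k / (2 * w ^ 800)) ^ 3 := by
        have e : c₀ * k / (2 * w ^ 800) = (c₀ / 2) * (k / w ^ 800) := by
          rw [div_mul_div_comm]
        rw [e, mul_pow, div_pow k]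
        ring

theorem M0_ge (c₉ c₀ : ℝ) (h9 : 0 < c₉) (h9' : c₉ ≤ 1) (h0 : 0 < c₀) : ∃ c : ℝ, 0 < c ∧ ∀ p : ℝ → ℝ,
    (∃ᶠ w : ℕ in atTop, ∃ s t : ℝ, s ∈ Set.Icc (0 : ℝ) 1 ∧ t ∈ Set.Icc (0 : ℝ) 1 ∧
      |t - s| ≤ kW c₉ w / (w : ℝ) ^ 1200 ∧ c₀ * kW c₉ w / (2 * (w : ℝ) ^ 800) ≤ |p t - p s|) →
    ENNReal.ofReal c ≤ M0 p := by
  refine ⟨(c₀ / 2) * (c₉ / 2402) ^ (1 / 3 : ℝ), by positivity, ?_⟩
  intro p hp
  set c : ℝ := (c₀ / 2) * (c₉ / 2402) ^ (1 / 3 : ℝ) with hcdef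
  have hc : 0 < c := by positivity
  have hc3 : c ^ 3 = (c₀ / 2) ^ 3 * (c₉ / 2402) := by
    rw [hcdef, mul_pow]
    congr 1
    rw [← Real.rpow_natCast, ← Real.rpow_mul (by positivity)]
    norm_num
  unfold M0
  refine le_iInf₂ ?_
  intro ε hε
  -- eventual conditions
  have hlogt : Tendsto (fun w : ℕ => Real.log (w : ℝ)) atTop atTop :=
    Real.tendsto_log_atTop.comp tendsto_natCast_atTop_atTop
  have e1 : ∀ᶠ w : ℕ in atTop, 2 / c₉ ≤ Real.log (w : ℝ) := hlogt.eventually_ge_atTop _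
  have e2 : ∀ᶠ w : ℕ in atTop, (2 : ℝ) ≤ (w : ℝ) :=
    (tendsto_natCast_atTop_atTop (R := ℝ)).eventually_ge_atTop _
  have e3 : ∀ᶠ w : ℕ in atTop, 1 / ε + 1 ≤ (w : ℝ) :=
    (tendsto_natCast_atTop_atTop (R := ℝ)).eventually_ge_atTop _
  obtain ⟨w, ⟨s, t, hs, ht, hst, hlow⟩, hw1, hw2, hw3⟩ := (hp.and_eventually (e1.and (e2.and e3))).exists
  have hwpos : (0 : ℝ) < (w : ℝ) := by linarith
  have hw1' : (1 : ℝ) ≤ (w : ℝ) := by linarith
  have hLpos : 0 < Real.log (w : ℝ) := Real.log_pos (by linarith)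
  have hcL : 2 ≤ c₉ * Real.log w := by
    rw [div_le_iff₀ h9] at hw1
    linarith
  have hkle : ((kW c₉ w : ℕ) : ℝ) ≤ c₉ * Real.log w := Nat.floor_le (by linarith)
  have hkge : c₉ * Real.log w - 1 < ((kW c₉ w : ℕ) : ℝ) := Nat.sub_one_lt_floor _
  have hk1 : (1 : ℝ) ≤ ((kW c₉ w : ℕ) : ℝ) := by linarith
  have hkL : c₉ * Real.log w / 2 ≤ ((kW c₉ w : ℕ) : ℝ) := by linarith
  have hkw : ((kW c₉ w : ℕ) : ℝ) ≤ (w : ℝ) := by
    have h5 : Real.log (w : ℝ) ≤ (w : ℝ) - 1 := Real.log_le_sub_one_of_pos hwpos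
    nlinarith
  set k : ℝ := ((kW c₉ w : ℕ) : ℝ) with hkdef
  have hkpos : 0 < k := by linarith
  -- the scale
  have hw2' : (w : ℝ) ^ 2 ≤ (w : ℝ) ^ 1200 := pow_le_pow_right₀ hw1' (by norm_num)
  have hscale : k / (w : ℝ) ^ 1200 ≤ 1 / w := by
    rw [div_le_div_iff₀ (by positivity) hwpos]
    nlinarith
  have hle1 : k / (w : ℝ) ^ 1200 ≤ 1 := by
    refine hscale.trans ?_
    rw [div_le_one hwpos]
    linarith
  have hlt : k / (w : ℝ) ^ 1200 < ε := by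
    refine lt_of_le_of_lt hscale ?_
    rw [div_lt_iff₀ hwpos]
    have : ε * (1 / ε + 1) = 1 + ε := by field_simp
    nlinarith
  have hlow' : 0 < c₀ * k / (2 * (w : ℝ) ^ 800) := by positivity
  have hpos : 0 < |t - s| := by
    rw [abs_pos, sub_ne_zero]
    intro hts
    rw [hts, sub_self, abs_zero] at hlow
    linarith
  have hlog : Real.log (2 / (k / (w : ℝ) ^ 1200)) ≤ 1201 * Real.log w := by
    have h5 : 2 / (k / (w : ℝ) ^ 1200) ≤ (w : ℝ) ^ 1201 := by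
      rw [div_div_eq_mul_div, div_le_iff₀ hkpos]
      have h6 : (w : ℝ) ^ 1201 = w * (w : ℝ) ^ 1200 := by rw [← pow_succ']
      rw [h6]
      have h7 : 0 < (w : ℝ) ^ 1200 := by positivity
      have h8 : 2 ≤ (w : ℝ) * k := by nlinarith
      nlinarith [mul_le_mul_of_nonneg_right h8 h7.le]
    have h6 := Real.log_le_log (by positivity) h5
    rwa [Real.log_pow, show ((1201 : ℕ) : ℝ) = 1201 by norm_num] at h6
  have key := MOD_one c₉ c₀ c k w (Real.log w) (|p t - p s|) (|t - s|) h9 h0 hc hc3 hk1 hw1' hLpos hkL hpos hst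
    hle1 hlog hlow
  unfold Meps
  refine le_iSup_of_le s (le_iSup_of_le t (le_iSup_of_le ⟨hs, ht, hpos, lt_of_le_of_lt hst hlt⟩ ?_))
  exact ENNReal.ofReal_le_ofReal key

end Pool.Agent.DLM
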