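import Pool.Agent.DLM.BAS
import Pool.Agent.DLM.GWP
import Pool.Agent.DLM.GWO
import Pool.Agent.DLM.MOD

/-!
# DLM/FIN: the main theorem (60-90 lines)

`base_of_dl`, `cpl_exists` (for `W`), `gw_prob`, `M0_ge`.  Choose `w n → ∞` strictly increasing with `(P ⊗ P₀)(¬ GW (w n)) ≤ 2^(-n)` and `w n` large (`1 ≤ kW ≤ w n`); Borel-Cantelli (`measure_limsup_atTop_eq_zero`, `ae_eventually_notMem`): a.e. `ω` of the product: `GW (w n) ω` for all large `n`.  For such `ω` (with `IsDL.cont`) and every geodesic `p` of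
`L ω.1`: `p` is continuous on `[0, 1]`, `p 1 = 0` and `tauW (w n) 0 → 1` (`tauW_close`), so `|p (tauW 0)| ≤ 1/2` for large `n`; `gw_osc` for infinitely many `w`, `M0_ge`.  The statement only depends on `ω.1`: `Measure.ae_ae_of_ae_prod` and `P₀ ≠ 0` (`Filter.Eventually.exists`).
-/

set_option autoImplicit false

open MeasureTheory ProbabilityTheory Filter Topology

namespace Pool.Agent.DLM

theorem dlm_main {Ω₀ Ω : Type*} [MeasurableSpace Ω₀] [MeasurableSpace Ω] {P₀ : Measure Ω₀} [IsProbabilityMeasure P₀]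
    {S₀ : ℝ → ℝ → Ω₀ → ℝ} {P : Measure Ω} [IsProbabilityMeasure P] {L : ℝ → ℝ → ℝ → ℝ → Ω → ℝ}
    (hS : IsAirySheet P₀ S₀) (hL : IsDL P₀ S₀ P L) :
    ∃ c : ℝ, 0 < c ∧ ∀ᵐ ω ∂P, ∀ p : ℝ → ℝ, IsGeod (fun x s y t => L x s y t ω) p → ENNReal.ofReal c ≤ M0 p := by
  obtain ⟨β, hB⟩ := base_of_dl hS hL
  obtain ⟨B, W, hW, -⟩ := cpl_exists hS
  obtain ⟨c₉, c₀, h9, h91, h0, hg⟩ := gw_prob hB hS hL hW
  obtain ⟨c, hc, hM⟩ := M0_ge c₉ c₀ h9 h91 h0
  refine ⟨c, hc, ?_⟩
  have hlog : Tendsto (fun w : ℕ => Real.log (w : ℝ)) atTop atTop :=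
    Real.tendsto_log_atTop.comp tendsto_natCast_atTop_atTop
  have hch : ∀ n : ℕ, ∃ w : ℕ, n ≤ w ∧ 2 ≤ w ∧ 1 ≤ kW c₉ w ∧
      (P.prod P₀) {ω | ¬ GW L W w (kW c₉ w) c₀ ω} ≤ ENNReal.ofReal ((1 / 2) ^ n) := by
    intro n
    have e1 := hg ((1 / 2) ^ n) (by positivity)
    have e2 := hlog.eventually_ge_atTop (1 / c₉)
    obtain ⟨w, h1, h2, h3⟩ := (e1.and (e2.and (eventually_ge_atTop (n + 2)))).exists
    refine ⟨w, by omega, by omega, ?_, h1⟩
    unfold kW
    rw [Nat.one_le_floor_iff]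
    rw [div_le_iff₀ h9] at h2
    linarith
  choose w hw1 hw2 hw3 hw4 using hch
  have hae : ∀ᵐ ω ∂(P.prod P₀), ∀ᶠ n in atTop, GW L W (w n) (kW c₉ (w n)) c₀ ω := by
    have hs : ∑' n, (P.prod P₀) {ω | ¬ GW L W (w n) (kW c₉ (w n)) c₀ ω} ≠ ⊤ := by
      refine ne_top_of_le_ne_top ?_ (ENNReal.tsum_le_tsum hw4)
      exact Summable.tsum_ofReal_ne_top (summable_geometric_of_lt_one (by norm_num) (by norm_num))
    have h1 := ae_eventually_notMem hs
    filter_upwards [h1] with ω h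
    filter_upwards [h] with n hn
    by_contra h2
    exact hn h2
  have hcont : ∀ᵐ ω ∂(P.prod P₀),
      ContinuousOn (fun p : (ℝ × ℝ) × ℝ × ℝ => L p.1.1 p.1.2 p.2.1 p.2.2 ω.1) {p | p.1.2 < p.2.2} :=
    Measure.quasiMeasurePreserving_fst.ae hL.cont
  have hall : ∀ᵐ ω ∂(P.prod P₀), ∀ p : ℝ → ℝ, IsGeod (fun x s y t => L x s y t ω.1) p →
      ENNReal.ofReal c ≤ M0 p := by
    filter_upwards [hae, hcont] with ω h1 h2 p hp
    apply hM
    have hwt : Tendsto w atTop atTop := tendsto_atTop_mono hw1 tendsto_id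
    have hkw : ∀ n, kW c₉ (w n) ≤ w n := by
      intro n
      have hw' : (1 : ℝ) ≤ w n := by exact_mod_cast (by have := hw2 n; omega : 1 ≤ w n)
      have l1 : Real.log (w n) ≤ w n := (Real.log_le_sub_one_of_pos (by linarith)).trans (by linarith)
      have l0 : 0 ≤ Real.log (w n) := Real.log_nonneg hw'
      have l2 : c₉ * Real.log (w n) ≤ (w n : ℝ) := by nlinarith
      exact Nat.floor_le_of_le l2
    have hp1 : Tendsto p (𝓝[Set.Icc 0 1] 1) (𝓝 0) := by
      have h3 := hp.cont 1 (by simp)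
      rw [ContinuousWithinAt, hp.right] at h3
      exact h3
    have htau : Tendsto (fun n => tauW (w n) (kW c₉ (w n)) 0) atTop (𝓝[Set.Icc 0 1] 1) := by
      rw [tendsto_nhdsWithin_iff]
      constructor
      · have hlim : Tendsto (fun n => 1 - 4 / (w n : ℝ) ^ 900) atTop (𝓝 1) := by
          have l1 : Tendsto (fun n => ((w n : ℕ) : ℝ) ^ 900) atTop atTop :=
            (tendsto_pow_atTop (by norm_num)).comp (tendsto_natCast_atTop_atTop.comp hwt)
          have l2 := (l1.const_div_atTop (4 : ℝ)).const_sub 1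
          simpa using l2
        refine tendsto_of_tendsto_of_tendsto_of_le_of_le hlim tendsto_const_nhds ?_ ?_
        · intro n
          have := tauW_close (w n) (kW c₉ (w n)) (by have := hw2 n; omega) (hkw n)
          show 1 - 4 / (w n : ℝ) ^ 900 ≤ tauW (w n) (kW c₉ (w n)) 0
          linarith
        · intro n
          exact tauW_le_one (w n) (kW c₉ (w n)) 0 (by have := hw2 n; omega) (Nat.zero_le _)
      · refine Eventually.of_forall fun n => ⟨?_, ?_⟩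
        · have := tauW_zero_ge (w n) (kW c₉ (w n)) (hw2 n) (hkw n)
          linarith
        · exact tauW_le_one (w n) (kW c₉ (w n)) 0 (by have := hw2 n; omega) (Nat.zero_le _)
    have h4 : Tendsto (fun n => |p (tauW (w n) (kW c₉ (w n)) 0)|) atTop (𝓝 |0|) := (hp1.comp htau).abs
    have h5 : ∀ᶠ n in atTop, |p (tauW (w n) (kW c₉ (w n)) 0)| ≤ 1 / 2 := by
      filter_upwards [h4.eventually (gt_mem_nhds (show |(0 : ℝ)| < 1 / 2 by norm_num))] with n hn
      exact hn.le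
    have h6 : ∀ᶠ n in atTop, ∃ s t : ℝ, s ∈ Set.Icc (0 : ℝ) 1 ∧ t ∈ Set.Icc (0 : ℝ) 1 ∧
        |t - s| ≤ kW c₉ (w n) / (w n : ℝ) ^ 1200 ∧
        c₀ * kW c₉ (w n) / (2 * (w n : ℝ) ^ 800) ≤ |p t - p s| := by
      filter_upwards [h1, h5] with n g1 g2
      exact gw_osc (hw2 n) (hw3 n) (hkw n) h0 g1 h2 hp g2
    exact hwt.frequently h6.frequently
  filter_upwards [Measure.ae_ae_of_ae_prod hall] with ω h
  exact h.exists.choose_spec

end Pool.Agent.DLM
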