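import Pool.Agent.DLM.GEO

/-!
# DLM/GEN: `N` steps of the discrete Pitman transform (80-120 lines)

Let `S k = ∑ i < k, ξ i`, `J_k = max J (rmax S k) - S k`, `X_k = 2 (max J (rmax S k) - J) - S k`.  `(X_{k+1} - X_k, J_{k+1}) = psi J_k (ξ k)` (`max J (rmax S (k+1)) = max (max J (rmax S k)) (S k + ξ k)`), and `X_0 = 0`, `J_0 = J` as `J ≥ 0` a.s. (`geoM_nonneg`).
INDUCTION on `N`: the law of `(X_N, J_N)` is `(law of S N) ⊗ geoM`.  `(X_N, J_N)` is a function of `J, ξ 0, .., ξ (N-1)`, hence independent of `ξ N`; so the law of `(X_N, J_N, ξ N)` is `law(S N) ⊗ geoM ⊗ stepM`, apply `geo_step` to the last two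
coordinates: `(X_N, ξ', J_{N+1}) ~ law(S N) ⊗ stepM ⊗ geoM`, `X_{N+1} = X_N + ξ'`, and `law(S N) * stepM = law(S (N+1))` by independence.
Independence: from `iIndepFun ξ` and `IndepFun J (ξ i)_i` the family `Option`-indexed (`none ↦ J`, `some i ↦ ξ i`) is independent; or write `(J, ξ 0, .., ξ (N-1))` against `ξ N` with `iIndepFun.indepFun_finset` and `IndepFun.prodMk`-type lemmas (or show that the law of
`(J, ξ)` on `ℝ × (ℕ → ℝ)` is the product measure `geoM ⊗ infinitePi`, and do the induction there).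
`sumM_law`: the law of `S N` is `sumM κ s N` (`iIndepFun.precomp` to `Fin N`, `iIndepFun_iff_map_fun_eq_pi_map`, `Finset.sum_range`).
-/

set_option autoImplicit false

open MeasureTheory ProbabilityTheory Filter Topology

namespace Pool.Agent.DLM

theorem sumM_law {Ω : Type*} [MeasurableSpace Ω] {P : Measure Ω} [IsProbabilityMeasure P] {κ s : ℝ} (ξ : ℕ → Ω → ℝ)
    (hm : ∀ i, Measurable (ξ i)) (hl : ∀ i, P.map (ξ i) = stepM κ s) (hi : iIndepFun ξ P) (N : ℕ) :
    P.map (fun ω => ∑ i ∈ Finset.range N, ξ i ω) = sumM κ s N := by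
  have h1 : iIndepFun (fun (i : Fin N) => ξ (i : ℕ)) P := hi.precomp Fin.val_injective
  have h2 := iIndepFun.map_fun_eq_pi_map (f := fun (i : Fin N) => ξ (i : ℕ))
    (fun i => (hm i).aemeasurable) h1
  simp only [hl] at h2
  unfold sumM
  rw [← h2, Measure.map_map]
  · congr 1
    funext ω
    exact Finset.sum_range (fun i => ξ i ω)
  · exact Finset.measurable_sum _ fun i _ => measurable_pi_apply i
  · exact measurable_pi_lambda _ fun i => hm i

private theorem gen_psi : Measurable (fun p : ℝ × ℝ => psi p.1 p.2) := by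
  unfold psi
  fun_prop

private theorem gen_assoc {Ω α β γ : Type*} [MeasurableSpace Ω] [MeasurableSpace α] [MeasurableSpace β]
    [MeasurableSpace γ] {P : Measure Ω} [IsProbabilityMeasure P] {A : Ω → α} {U : Ω → β} {Z : Ω → γ}
    (hA : Measurable A) (hU : Measurable U) (hZ : Measurable Z)
    (h1 : IndepFun A (fun ω => (U ω, Z ω)) P) (h2 : IndepFun U Z P) :
    IndepFun (fun ω => (A ω, U ω)) Z P := by
  have := Measure.isProbabilityMeasure_map (μ := P) hA.aemeasurable
  have := Measure.isProbabilityMeasure_map (μ := P) hU.aemeasurable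
  have := Measure.isProbabilityMeasure_map (μ := P) hZ.aemeasurable
  have h3 : IndepFun A U P := h1.comp measurable_id measurable_fst
  have e1 := h1.map_prod_eq_prod_map_map hA.aemeasurable (hU.prodMk hZ).aemeasurable
  have e2 := h2.map_prod_eq_prod_map_map hU.aemeasurable hZ.aemeasurable
  have e3 := h3.map_prod_eq_prod_map_map hA.aemeasurable hU.aemeasurable
  rw [indepFun_iff_map_prod_eq_prod_map_map (hA.prodMk hU).aemeasurable hZ.aemeasurable, e3]
  have e4 : P.map (fun ω => ((A ω, U ω), Z ω)) =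
      (P.map (fun ω => (A ω, (U ω, Z ω)))).map MeasurableEquiv.prodAssoc.symm := by
    rw [Measure.map_map MeasurableEquiv.prodAssoc.symm.measurable (hA.prodMk (hU.prodMk hZ))]
    rfl
  rw [e4, e1, e2, ← Measure.prodAssoc_prod,
    Measure.map_map MeasurableEquiv.prodAssoc.symm.measurable MeasurableEquiv.prodAssoc.measurable]
  simp

private theorem gen_tail {Ω : Type*} [MeasurableSpace Ω] {P : Measure Ω} [IsProbabilityMeasure P] (ξ : ℕ → Ω → ℝ)
    (hm : ∀ i, Measurable (ξ i)) (hi : iIndepFun ξ P) (N : ℕ) :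
    IndepFun (ξ N) (fun ω i => ξ (N + 1 + i) ω) P := by
  have h1 : iIndep (fun i => MeasurableSpace.comap (ξ i) inferInstance) P := hi
  have h2 := indep_iSup_of_disjoint (fun i => (hm i).comap_le) h1
    (S := {N}) (T := Set.Ioi N) (by simp)
  have h3 : MeasurableSpace.comap (ξ N) inferInstance ≤
      ⨆ i ∈ ({N} : Set ℕ), MeasurableSpace.comap (ξ i) inferInstance :=
    le_iSup₂_of_le N (Set.mem_singleton N) le_rfl
  have h4 : MeasurableSpace.comap (fun ω i => ξ (N + 1 + i) ω) inferInstance ≤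
      ⨆ i ∈ Set.Ioi N, MeasurableSpace.comap (ξ i) inferInstance := by
    rw [← measurable_iff_comap_le]
    refine @measurable_pi_lambda _ _ _ (_) _ _ fun i => ?_
    rw [measurable_iff_comap_le]
    exact le_iSup₂_of_le (N + 1 + i) (by simp only [Set.mem_Ioi]; omega) le_rfl
  exact indep_of_indep_of_le_left (indep_of_indep_of_le_right h2 h4) h3

private noncomputable def gen_step (p : (ℝ × ℝ) × ℝ) : ℝ × ℝ :=
  (p.1.1 + (psi p.1.2 p.2).1, (psi p.1.2 p.2).2)

private theorem gen_step_meas : Measurable gen_step := by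
  unfold gen_step
  have h : Measurable fun p : (ℝ × ℝ) × ℝ => psi p.1.2 p.2 :=
    gen_psi.comp ((measurable_snd.comp measurable_fst).prodMk measurable_snd)
  exact ((measurable_fst.comp measurable_fst).add (measurable_fst.comp h)).prodMk (measurable_snd.comp h)

private noncomputable def gen_st {Ω : Type*} (ξ : ℕ → Ω → ℝ) (J : Ω → ℝ) : ℕ → Ω → ℝ × ℝ
  | 0 => fun ω => (0, J ω)
  | n + 1 => fun ω => gen_step (gen_st ξ J n ω, ξ n ω)

private theorem gen_st_meas {Ω : Type*} [MeasurableSpace Ω] (ξ : ℕ → Ω → ℝ) (J : Ω → ℝ)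
    (hm : ∀ i, Measurable (ξ i)) (hJ : Measurable J) (N : ℕ) : Measurable (gen_st ξ J N) := by
  induction N with
  | zero => exact measurable_const.prodMk hJ
  | succ n ih => exact gen_step_meas.comp (ih.prodMk (hm n))

private theorem gen_indep {Ω : Type*} [MeasurableSpace Ω] {P : Measure Ω} [IsProbabilityMeasure P] (ξ : ℕ → Ω → ℝ)
    (J : Ω → ℝ) (hm : ∀ i, Measurable (ξ i)) (hJ : Measurable J) (hi : iIndepFun ξ P)
    (hJi : IndepFun J (fun ω i => ξ i ω) P) (N : ℕ) :
    IndepFun (gen_st ξ J N) (fun ω i => ξ (N + i) ω) P := by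
  induction N with
  | zero =>
    have hφ : Measurable fun j : ℝ => ((0 : ℝ), j) := measurable_const.prodMk measurable_id
    have hψ : Measurable (id : (ℕ → ℝ) → (ℕ → ℝ)) := measurable_id
    have h := hJi.comp hφ hψ
    have e : (fun ω (i : ℕ) => ξ (0 + i) ω) = id ∘ (fun ω i => ξ i ω) := by
      funext ω i
      simp
    rw [e]
    exact h
  | succ n ih =>
    have hψ : Measurable fun x : ℕ → ℝ => (x 0, fun i : ℕ => x (1 + i)) :=
      (measurable_pi_apply 0).prodMk (measurable_pi_lambda _ fun i => measurable_pi_apply _)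
    have h1 : IndepFun (gen_st ξ J n) (fun ω => (ξ n ω, fun i : ℕ => ξ (n + 1 + i) ω)) P := by
      have hφ : Measurable (id : ℝ × ℝ → ℝ × ℝ) := measurable_id
      have h := ih.comp hφ hψ
      have e : (fun ω => (ξ n ω, fun i : ℕ => ξ (n + 1 + i) ω)) =
          (fun x : ℕ → ℝ => (x 0, fun i : ℕ => x (1 + i))) ∘ (fun ω i => ξ (n + i) ω) := by
        funext ω
        simp only [Function.comp, add_zero, add_assoc]
      rw [e]
      exact h
    have h2 := gen_assoc (gen_st_meas ξ J hm hJ n) (hm n) (measurable_pi_lambda _ fun i => hm _) h1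
      (gen_tail ξ hm hi n)
    have hφ : Measurable (id : (ℕ → ℝ) → (ℕ → ℝ)) := measurable_id
    exact h2.comp gen_step_meas hφ

private theorem gen_map {μ : Measure ℝ} {κ s : ℝ} [SFinite μ] (hκ : 0 < κ) (hs : 0 < s) (h : κ * s < 1) :
    ((μ.prod (geoM κ s)).prod (stepM κ s)).map gen_step =
      ((μ.prod (stepM κ s)).map (fun p => p.1 + p.2)).prod (geoM κ s) := by
  have := stepM_prob hκ hs h
  have := geoM_prob hκ hs h
  have e0 : gen_step = (Prod.map (fun p : ℝ × ℝ => p.1 + p.2) id) ∘ MeasurableEquiv.prodAssoc.symm ∘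
      (Prod.map id (fun p : ℝ × ℝ => psi p.1 p.2)) ∘ MeasurableEquiv.prodAssoc := by
    funext p
    rfl
  have hadd : Measurable (fun p : ℝ × ℝ => p.1 + p.2) := measurable_fst.add measurable_snd
  have m1 : Measurable (Prod.map (fun p : ℝ × ℝ => p.1 + p.2) (id : ℝ → ℝ)) :=
    hadd.prodMap measurable_id
  have m2 : Measurable (Prod.map (id : ℝ → ℝ) (fun p : ℝ × ℝ => psi p.1 p.2)) :=
    measurable_id.prodMap gen_psi
  have m3 : Measurable (MeasurableEquiv.prodAssoc (α := ℝ) (β := ℝ) (γ := ℝ)) :=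
    MeasurableEquiv.prodAssoc.measurable
  have m4 : Measurable (MeasurableEquiv.prodAssoc (α := ℝ) (β := ℝ) (γ := ℝ)).symm :=
    MeasurableEquiv.prodAssoc.symm.measurable
  rw [e0, ← Measure.map_map m1 (m4.comp (m2.comp m3)), ← Measure.map_map m4 (m2.comp m3),
    ← Measure.map_map m2 m3, Measure.prodAssoc_prod, ← Measure.map_prod_map _ _ measurable_id gen_psi,
    geo_step hκ hs h, Measure.map_id, ← Measure.prodAssoc_prod, Measure.map_map m4 m3]
  have e1 : (⇑(MeasurableEquiv.prodAssoc (α := ℝ) (β := ℝ) (γ := ℝ)).symm ∘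
      ⇑(MeasurableEquiv.prodAssoc (α := ℝ) (β := ℝ) (γ := ℝ))) = id := by
    funext p
    simp
  rw [e1, Measure.map_id, ← Measure.map_prod_map _ _ hadd measurable_id, Measure.map_id]

private theorem gen_law {Ω : Type*} [MeasurableSpace Ω] {P : Measure Ω} [IsProbabilityMeasure P] {κ s : ℝ} (hκ : 0 < κ)
    (hs : 0 < s) (h : κ * s < 1) (ξ : ℕ → Ω → ℝ) (J : Ω → ℝ) (hm : ∀ i, Measurable (ξ i)) (hJ : Measurable J)
    (hl : ∀ i, P.map (ξ i) = stepM κ s) (hJl : P.map J = geoM κ s) (hi : iIndepFun ξ P)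
    (hJi : IndepFun J (fun ω i => ξ i ω) P) (N : ℕ) :
    P.map (gen_st ξ J N) = (sumM κ s N).prod (geoM κ s) := by
  have := stepM_prob hκ hs h
  have := geoM_prob hκ hs h
  induction N with
  | zero =>
    have h1 : sumM κ s 0 = Measure.dirac 0 := by
      rw [← sumM_law ξ hm hl hi 0]
      simp [Measure.map_const]
    rw [h1, Measure.dirac_prod, ← hJl, Measure.map_map measurable_prodMk_left hJ]
    rfl
  | succ n ih =>
    have h1 : IndepFun (gen_st ξ J n) (ξ n) P := by
      have hφ : Measurable (id : ℝ × ℝ → ℝ × ℝ) := measurable_id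
      have hψ : Measurable (fun x : ℕ → ℝ => x 0) := measurable_pi_apply 0
      have h2 := (gen_indep ξ J hm hJ hi hJi n).comp hφ hψ
      have e : ξ n = (fun x : ℕ → ℝ => x 0) ∘ (fun ω i => ξ (n + i) ω) := by
        funext ω
        simp
      rw [e]
      exact h2
    have h2 := h1.map_prod_eq_prod_map_map (gen_st_meas ξ J hm hJ n).aemeasurable (hm n).aemeasurable
    have h3 : P.map (gen_st ξ J (n + 1)) = (P.map (fun ω => (gen_st ξ J n ω, ξ n ω))).map gen_step := by
      rw [Measure.map_map gen_step_meas ((gen_st_meas ξ J hm hJ n).prodMk (hm n))]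
      rfl
    have : IsProbabilityMeasure (sumM κ s n) := by
      rw [← sumM_law ξ hm hl hi n]
      exact Measure.isProbabilityMeasure_map
        (Finset.measurable_sum _ fun i _ => hm i).aemeasurable
    have h4 : ((sumM κ s n).prod (stepM κ s)).map (fun p => p.1 + p.2) = sumM κ s (n + 1) := by
      have h5 := hi.indepFun_sum_range_succ hm n
      have ms : Measurable (fun ω => ∑ i ∈ Finset.range n, ξ i ω) := Finset.measurable_sum _ fun i _ => hm i
      have e1 : (∑ j ∈ Finset.range n, ξ j) = fun ω => ∑ i ∈ Finset.range n, ξ i ω := by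
        funext ω
        simp
      rw [e1] at h5
      have h6 := h5.map_prod_eq_prod_map_map ms.aemeasurable (hm n).aemeasurable
      rw [sumM_law ξ hm hl hi n, hl n] at h6
      have hadd : Measurable (fun p : ℝ × ℝ => p.1 + p.2) := measurable_fst.add measurable_snd
      rw [← h6, Measure.map_map hadd (ms.prodMk (hm n)),
        ← sumM_law ξ hm hl hi (n + 1)]
      congr 1
      funext ω
      exact (Finset.sum_range_succ _ _).symm
    rw [h3, h2, ih, hl n, gen_map hκ hs h, h4]

private theorem gen_formula {Ω : Type*} (ξ : ℕ → Ω → ℝ) (J : Ω → ℝ) (ω : Ω) (h0 : 0 ≤ J ω) (N : ℕ) :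
    (2 * (max (J ω) (rmax (fun k => ∑ i ∈ Finset.range k, ξ i ω) N) - J ω) -
        ∑ i ∈ Finset.range N, ξ i ω,
      max (J ω) (rmax (fun k => ∑ i ∈ Finset.range k, ξ i ω) N) - ∑ i ∈ Finset.range N, ξ i ω) =
    gen_st ξ J N ω := by
  induction N with
  | zero =>
    simp only [rmax, Finset.range_zero, Finset.sum_empty, max_eq_left h0, gen_st]
    simp
  | succ n ih =>
    have e1 : rmax (fun k => ∑ i ∈ Finset.range k, ξ i ω) (n + 1) =
        max (rmax (fun k => ∑ i ∈ Finset.range k, ξ i ω) n) (∑ i ∈ Finset.range n, ξ i ω + ξ n ω) := by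
      rw [rmax, Finset.sum_range_succ]
    show _ = gen_step (gen_st ξ J n ω, ξ n ω)
    rw [← ih, e1, Finset.sum_range_succ, ← max_assoc]
    generalize max (J ω) (rmax (fun k => ∑ i ∈ Finset.range k, ξ i ω) n) = M
    generalize ∑ i ∈ Finset.range n, ξ i ω = S
    unfold gen_step psi
    have e2 : max (M - S) (ξ n ω) = max M (S + ξ n ω) - S := by
      rw [← max_sub_sub_right, add_sub_cancel_left]
    simp only [e2]
    ext <;> simp only <;> ring

theorem geo_walk {Ω : Type*} [MeasurableSpace Ω] {P : Measure Ω} [IsProbabilityMeasure P] {κ s : ℝ} (hκ : 0 < κ)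
    (hs : 0 < s) (h : κ * s < 1) (ξ : ℕ → Ω → ℝ) (J : Ω → ℝ) (hm : ∀ i, Measurable (ξ i)) (hJ : Measurable J)
    (hl : ∀ i, P.map (ξ i) = stepM κ s) (hJl : P.map J = geoM κ s) (hi : iIndepFun ξ P)
    (hJi : IndepFun J (fun ω i => ξ i ω) P) (N : ℕ) :
    P.map (fun ω => (2 * (max (J ω) (rmax (fun k => ∑ i ∈ Finset.range k, ξ i ω) N) - J ω) -
        ∑ i ∈ Finset.range N, ξ i ω,
      max (J ω) (rmax (fun k => ∑ i ∈ Finset.range k, ξ i ω) N) - ∑ i ∈ Finset.range N, ξ i ω)) =
    (sumM κ s N).prod (geoM κ s) := by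
  rw [← gen_law hκ hs h ξ J hm hJ hl hJl hi hJi N]
  refine Measure.map_congr ?_
  have h1 : ∀ᵐ ω ∂P, 0 ≤ J ω := by
    have h2 := geoM_nonneg hκ hs h
    rw [← hJl] at h2
    exact ae_of_ae_map hJ.aemeasurable h2
  filter_upwards [h1] with ω hω
  exact gen_formula ξ J ω hω N

end Pool.Agent.DLM
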