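import Pool.Agent.DLM.ADefs

/-!
# DLM/GEO: one step of the discrete Pitman transform (80-120 lines)

`ρ = (1 - κ s)/(1 + κ s)`, `p = (1 + κ s)/2`, `q = (1 - κ s)/2`, so `ρ = q/p`.  For `j = n s`: step `s`: if `n = 0`: `psi = (s, 0)`, if `n = m + 1`: `psi = (-s, m s)`; step `-s`: `psi = (s, (n+1) s)`.  So the image of `geoM ⊗ stepM` is
`∑ n (1-ρ)ρ^n [p δ_{psi(n s, s)} + q δ_{psi(n s, -s)}]` and the mass of `(-s, m s)` is `(1-ρ)ρ^(m+1) p = (1-ρ) ρ^m q`; the mass of `(s, 0)` is `(1-ρ) p`; of `(s, (n+1) s)`: `(1-ρ) ρ^n q = (1-ρ) ρ^(n+1) p`.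
In Lean: extensionality (`Measure.ext` or `lintegral` of a measurable function `h`): both sides are series, `lintegral_map`, `lintegral_prod`, `lintegral_sum_measure`, `lintegral_dirac`; split the first series at `n = 0` (`tsum_eq_zero_add'`), compare.
`geoM_prob`, `stepM_prob`: probability measures (geometric series; `0 < κ`, `0 < s`, `κ s < 1`).
-/

set_option autoImplicit false

open MeasureTheory ProbabilityTheory Filter Topology

namespace Pool.Agent.DLM

private theorem GEO_rho {κ s : ℝ} (hκ : 0 < κ) (hs : 0 < s) (h : κ * s < 1) :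
    0 < (1 - κ * s) / (1 + κ * s) ∧ (1 - κ * s) / (1 + κ * s) < 1 := by
  have hk : 0 < κ * s := mul_pos hκ hs
  constructor
  · exact div_pos (by linarith) (by linarith)
  · rw [div_lt_one (by linarith)]; linarith

theorem stepM_prob {κ s : ℝ} (hκ : 0 < κ) (hs : 0 < s) (h : κ * s < 1) : IsProbabilityMeasure (stepM κ s) := by
  have hk : 0 < κ * s := mul_pos hκ hs
  refine ⟨?_⟩
  unfold stepM
  simp only [Measure.coe_add, Measure.coe_smul, Pi.add_apply, Pi.smul_apply, smul_eq_mul, measure_univ, mul_one]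
  rw [← ENNReal.ofReal_add (by linarith) (by linarith)]
  rw [show (1 + κ * s) / 2 + (1 - κ * s) / 2 = 1 by ring, ENNReal.ofReal_one]

theorem geoM_prob {κ s : ℝ} (hκ : 0 < κ) (hs : 0 < s) (h : κ * s < 1) : IsProbabilityMeasure (geoM κ s) := by
  obtain ⟨h0, h1⟩ := GEO_rho hκ hs h
  refine ⟨?_⟩
  unfold geoM
  rw [Measure.sum_apply _ MeasurableSet.univ]
  simp only [Measure.smul_apply, smul_eq_mul, measure_univ, mul_one]
  set ρ := (1 - κ * s) / (1 + κ * s) with hρ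
  have hsum : HasSum (fun n : ℕ => (1 - ρ) * ρ ^ n) ((1 - ρ) * (1 - ρ)⁻¹) :=
    (hasSum_geometric_of_lt_one h0.le h1).mul_left _
  rw [← ENNReal.ofReal_tsum_of_nonneg (fun n => mul_nonneg (by linarith) (pow_nonneg h0.le n)) hsum.summable,
    hsum.tsum_eq, mul_inv_cancel₀ (by linarith), ENNReal.ofReal_one]

theorem geoM_nonneg {κ s : ℝ} (hκ : 0 < κ) (hs : 0 < s) (h : κ * s < 1) : ∀ᵐ j ∂(geoM κ s), 0 ≤ j := by
  have hms : MeasurableSet {j : ℝ | ¬ 0 ≤ j} := by
    simp only [not_le]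
    exact measurableSet_Iio
  rw [ae_iff]
  unfold geoM
  rw [Measure.sum_apply _ hms]
  simp only [Measure.smul_apply, smul_eq_mul]
  rw [ENNReal.tsum_eq_zero]
  intro n
  rw [Measure.dirac_apply' _ hms]
  have : ((n : ℝ) * s) ∉ {j : ℝ | ¬ 0 ≤ j} := by
    simp only [Set.mem_setOf_eq, not_not]
    positivity
  rw [Set.indicator_of_notMem this, mul_zero]

private theorem GEO_lint_step {κ s : ℝ} (f : ℝ → ENNReal) :
    ∫⁻ x, f x ∂(stepM κ s) = ENNReal.ofReal ((1 + κ * s) / 2) * f s + ENNReal.ofReal ((1 - κ * s) / 2) * f (-s) := by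
  unfold stepM
  rw [lintegral_add_measure, lintegral_smul_measure, lintegral_smul_measure, lintegral_dirac, lintegral_dirac]
  rfl

private theorem GEO_lint_geo {κ s : ℝ} (f : ℝ → ENNReal) :
    ∫⁻ x, f x ∂(geoM κ s) = ∑' n : ℕ, ENNReal.ofReal ((1 - (1 - κ * s) / (1 + κ * s)) * ((1 - κ * s) / (1 + κ * s)) ^ n) * f ((n : ℝ) * s) := by
  unfold geoM
  rw [lintegral_sum_measure]
  refine tsum_congr fun n => ?_
  rw [lintegral_smul_measure, lintegral_dirac]
  rfl

private theorem GEO_meas : Measurable (fun p : ℝ × ℝ => psi p.1 p.2) := by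
  unfold psi
  fun_prop

theorem geo_step {κ s : ℝ} (hκ : 0 < κ) (hs : 0 < s) (h : κ * s < 1) :
    ((geoM κ s).prod (stepM κ s)).map (fun p => psi p.1 p.2) = (stepM κ s).prod (geoM κ s) := by
  have hk : 0 < κ * s := mul_pos hκ hs
  obtain ⟨h0, h1⟩ := GEO_rho hκ hs h
  haveI := stepM_prob hκ hs h
  haveI := geoM_prob hκ hs h
  refine Measure.ext_of_lintegral _ fun f hf => ?_
  have hfc : AEMeasurable (fun p : ℝ × ℝ => f (psi p.1 p.2)) ((geoM κ s).prod (stepM κ s)) :=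
    (hf.comp GEO_meas).aemeasurable
  rw [lintegral_map hf GEO_meas, lintegral_prod _ hfc,
    lintegral_prod _ hf.aemeasurable]
  rw [GEO_lint_geo, GEO_lint_step, GEO_lint_geo, GEO_lint_geo]
  simp only [Function.comp, GEO_lint_step]
  set ρ := (1 - κ * s) / (1 + κ * s) with hρ
  set g : ℕ → ENNReal := fun n => ENNReal.ofReal ((1 - ρ) * ρ ^ n) with hg
  set P := ENNReal.ofReal ((1 + κ * s) / 2) with hP
  set Q := ENNReal.ofReal ((1 - κ * s) / 2) with hQ
  have hgs : ∀ n, g (n + 1) * P = g n * Q := by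
    intro n
    simp only [hg, hP, hQ]
    rw [← ENNReal.ofReal_mul (mul_nonneg (by linarith) (pow_nonneg h0.le _)),
      ← ENNReal.ofReal_mul (mul_nonneg (by linarith) (pow_nonneg h0.le _))]
    congr 1
    have : ρ * (1 + κ * s) = 1 - κ * s := by
      rw [hρ]; field_simp
    rw [pow_succ]
    linear_combination ((1 - ρ) * ρ ^ n / 2) * this
  have e1 : ∀ n : ℕ, psi ((n : ℝ) * s) (-s) = (s, ((n + 1 : ℕ) : ℝ) * s) := by
    intro n
    have : max ((n : ℝ) * s) (-s) = (n : ℝ) * s := max_eq_left (by nlinarith [Nat.cast_nonneg (α := ℝ) n, mul_nonneg (Nat.cast_nonneg (α := ℝ) n) hs.le])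
    unfold psi
    rw [this]
    push_cast
    ext <;> ring
  have e2 : ∀ n : ℕ, psi (((n + 1 : ℕ) : ℝ) * s) s = (-s, (n : ℝ) * s) := by
    intro n
    have : max (((n + 1 : ℕ) : ℝ) * s) s = ((n + 1 : ℕ) : ℝ) * s := max_eq_left (by push_cast; nlinarith [mul_nonneg (Nat.cast_nonneg (α := ℝ) n) hs.le])
    unfold psi
    rw [this]
    push_cast
    ext <;> ring
  have e3 : psi (((0 : ℕ) : ℝ) * s) s = (s, ((0 : ℕ) : ℝ) * s) := by
    unfold psi
    simp only [Nat.cast_zero, zero_mul]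
    rw [max_eq_right hs.le]
    ext <;> ring
  have hL : ∑' n : ℕ, g n * (P * f (psi ((n : ℝ) * s) s) + Q * f (psi ((n : ℝ) * s) (-s))) =
      g 0 * P * f (s, ((0 : ℕ) : ℝ) * s) + ∑' n : ℕ, g n * Q * f (-s, (n : ℝ) * s) + ∑' n : ℕ, g n * Q * f (s, ((n + 1 : ℕ) : ℝ) * s) := by
    have : ∀ n : ℕ, g n * (P * f (psi ((n : ℝ) * s) s) + Q * f (psi ((n : ℝ) * s) (-s))) =
        g n * P * f (psi ((n : ℝ) * s) s) + g n * Q * f (s, ((n + 1 : ℕ) : ℝ) * s) := by
      intro n; rw [e1]; ring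
    simp_rw [this]
    rw [ENNReal.tsum_add]
    congr 1
    rw [tsum_eq_zero_add' ENNReal.summable, e3]
    congr 1
    refine tsum_congr fun n => ?_
    rw [e2, hgs]
  have hR : P * ∑' n : ℕ, g n * f (s, (n : ℝ) * s) = g 0 * P * f (s, ((0 : ℕ) : ℝ) * s) + ∑' n : ℕ, g n * Q * f (s, ((n + 1 : ℕ) : ℝ) * s) := by
    rw [← ENNReal.tsum_mul_left, tsum_eq_zero_add' ENNReal.summable]
    congr 1
    · ring
    · refine tsum_congr fun n => ?_
      rw [← hgs]; ring
  have hR2 : Q * ∑' n : ℕ, g n * f (-s, (n : ℝ) * s) = ∑' n : ℕ, g n * Q * f (-s, (n : ℝ) * s) := by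
    rw [← ENNReal.tsum_mul_left]
    refine tsum_congr fun n => ?_
    ring
  rw [hL, hR, hR2]
  ring

end Pool.Agent.DLM
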