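import Pool.Agent.DLM.ADefs

/-!
# DLM/GIR: change of the drift on `[0, T]` (100-150 lines)

Both sides are measures on `ℝ → ℝ`; it suffices to compare them on the π-system of measurable cylinders (`isPiSystem_measurableCylinders`, `generateFrom_measurableCylinders`, `ext_of_generate_finite`; the right side is finite: its mass is `E exp((c-a) f(T) - (c^2-a^2)T/2) = 1`), and one may enlarge the set of
times so that it is `{u_0 < u_1 < .. < u_r}` with `0, T` among them (if `T = 0` the density is `1` a.s. and the processes agree up to time `0`).  The times `> T` give the value at `T`.  The increments over `[u_i, u_{i+1}]` are independent Gaussian under both laws; for `u_{i+1} ≤ 0` they have the same law, for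
`0 ≤ u_i < u_{i+1} ≤ T`, `Δ = u_{i+1} - u_i`: `N(cΔ, Δ) = N(aΔ, Δ).withDensity (exp((c-a) x - (c^2-a^2)Δ/2))`; the product of these densities is `exp((c-a)(f T - f 0) - (c^2-a^2) T/2)`, `f 0 = 0` a.s.
-/

set_option autoImplicit false

open MeasureTheory ProbabilityTheory Filter Topology

namespace Pool.Agent.DLM

/-- Brownian motion with drift `a` on the negative and `c` on the positive axis -/
noncomputable def dft (a c : ℝ) (W : ℝ → ℝ) : ℝ → ℝ := fun s => W s + (if s < 0 then a else c) * s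

private theorem gir_enum (T : ℝ) (hT : 0 ≤ T) (I : Finset ℝ) : ∃ (n : ℕ) (t : ℕ → ℝ), Monotone t ∧
    (∀ i, t i ≤ T) ∧ (∀ i j : Fin (n + 1), t i ≤ t j → i ≤ j) ∧ (∃ k0 : Fin (n + 1), t k0 = 0) ∧
    (∃ kT : Fin (n + 1), t kT = T) ∧ ∀ x ∈ I, ∃ k : Fin (n + 1), t k = min x T := by
  classical
  set J : Finset ℝ := insert 0 (insert T (I.image fun x => min x T)) with hJ
  have h0 : (0 : ℝ) ∈ J := Finset.mem_insert_self _ _
  have hTJ : T ∈ J := Finset.mem_insert_of_mem (Finset.mem_insert_self _ _)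
  have hle : ∀ x ∈ J, x ≤ T := by
    intro x hx
    rw [hJ, Finset.mem_insert, Finset.mem_insert, Finset.mem_image] at hx
    rcases hx with h | h | ⟨y, _, h⟩
    · rw [h]; exact hT
    · rw [h]
    · rw [← h]; exact min_le_right _ _
  have hc : 0 < J.card := Finset.card_pos.mpr ⟨0, h0⟩
  obtain ⟨n, hn⟩ : ∃ n, J.card = n + 1 := ⟨J.card - 1, by omega⟩
  have hlt : ∀ i : ℕ, min i n < n + 1 := fun i => by omega
  have hmk : ∀ k : Fin (n + 1), (⟨min (k : ℕ) n, hlt k⟩ : Fin (n + 1)) = k := by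
    intro k
    apply Fin.ext
    show min (k : ℕ) n = k
    have := k.2
    omega
  have hex : ∀ x ∈ J, ∃ k : Fin (n + 1), J.orderEmbOfFin hn ⟨min (k : ℕ) n, hlt k⟩ = x := by
    intro x hx
    have h1 : x ∈ Set.range (J.orderEmbOfFin hn) := by
      rw [Finset.range_orderEmbOfFin]; exact hx
    obtain ⟨k, hk⟩ := h1
    exact ⟨k, by rw [hmk k, hk]⟩
  refine ⟨n, fun i => J.orderEmbOfFin hn ⟨min i n, hlt i⟩, ?_, ?_, ?_, hex 0 h0, hex T hTJ, ?_⟩
  · intro i j hij
    apply (J.orderEmbOfFin hn).monotone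
    show min i n ≤ min j n
    omega
  · intro i
    exact hle _ (Finset.orderEmbOfFin_mem J hn _)
  · intro i j hij
    simp only [hmk] at hij
    exact (J.orderEmbOfFin hn).le_iff_le.1 hij
  · intro x hx
    exact hex _ (Finset.mem_insert_of_mem (Finset.mem_insert_of_mem (Finset.mem_image_of_mem _ hx)))

private noncomputable def girPhi (n : ℕ) (k0 k : ℕ) (v : Fin n → ℝ) : ℝ :=
  (∑ i : Fin n, if (i : ℕ) < k then v i else 0) - ∑ i : Fin n, if (i : ℕ) < k0 then v i else 0

private theorem gir_meas_phi (n : ℕ) (k0 k : ℕ) : Measurable (girPhi n k0 k) := by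
  unfold girPhi
  refine Measurable.sub ?_ ?_ <;>
  · refine Finset.measurable_sum _ fun i _ => ?_
    split_ifs
    · exact measurable_pi_apply i
    · exact measurable_const

private theorem gir_tele (f : ℝ → ℝ) (t : ℕ → ℝ) (n k : ℕ) (hk : k ≤ n) :
    (∑ i : Fin n, if (i : ℕ) < k then f (t (i + 1)) - f (t i) else 0) = f (t k) - f (t 0) := by
  have h1 : (∑ i : Fin n, if (i : ℕ) < k then f (t (i + 1)) - f (t i) else 0) =
      ∑ i ∈ Finset.range n, if i < k then f (t (i + 1)) - f (t i) else 0 :=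
    Fin.sum_univ_eq_sum_range (fun i => if i < k then f (t (i + 1)) - f (t i) else 0) n
  rw [h1, ← Finset.sum_filter]
  have h2 : (Finset.range n).filter (fun i => i < k) = Finset.range k := by
    ext i; simp only [Finset.mem_filter, Finset.mem_range]; omega
  rw [h2, Finset.sum_range_sub (fun i => f (t i))]

private theorem gir_incr {Ω : Type*} [MeasurableSpace Ω] {P : Measure Ω} [IsProbabilityMeasure P] {W : ℝ → Ω → ℝ}
    (hW : IsBM P W 1 0) (n : ℕ) (t : ℕ → ℝ) (ht : Monotone t) (m : ℕ → ℝ) :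
    P.map (fun ω (i : Fin n) => W (t ((i : ℕ) + 1)) ω - W (t (i : ℕ)) ω + m (i : ℕ)) =
      Measure.pi fun i : Fin n => gaussianReal (m (i : ℕ)) (Real.toNNReal (t ((i : ℕ) + 1) - t (i : ℕ))) := by
  have hm : ∀ i : ℕ, Measurable (fun ω => W (t (i + 1)) ω - W (t i) ω) := fun i =>
    (hW.meas _).sub (hW.meas _)
  have h1 : iIndepFun (fun (i : Fin n) (ω : Ω) => W (t ((i : ℕ) + 1)) ω - W (t (i : ℕ)) ω) P :=
    (hW.indep t ht).precomp (g := fun i : Fin n => (i : ℕ)) Fin.val_injective
  have h2 : iIndepFun (fun (i : Fin n) (ω : Ω) => W (t ((i : ℕ) + 1)) ω - W (t (i : ℕ)) ω + m (i : ℕ)) P :=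
    h1.comp (fun (i : Fin n) (y : ℝ) => y + m (i : ℕ)) (fun i => measurable_id.add_const _)
  rw [iIndepFun_iff_map_fun_eq_pi_map (fun i : Fin n => ((hm (i : ℕ)).add_const _).aemeasurable)] at h2
  rw [h2]
  congr 1
  funext i
  have e : (fun ω : Ω => W (t ((i : ℕ) + 1)) ω - W (t (i : ℕ)) ω + m (i : ℕ)) =
      (fun y : ℝ => y + m (i : ℕ)) ∘ fun ω : Ω => W (t ((i : ℕ) + 1)) ω - W (t (i : ℕ)) ω := rfl
  rw [e, ← Measure.map_map (by fun_prop : Measurable fun y : ℝ => y + m (i : ℕ)) (hm i),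
    hW.gauss _ _ (ht (Nat.le_succ _)), gaussianReal_map_add_const]
  congr 1
  · ring
  · rw [one_mul]

private theorem gir_lprod (n : ℕ) (ν : Fin n → Measure ℝ) [∀ i, IsProbabilityMeasure (ν i)] (w : Fin n → ℝ → ENNReal)
    (hw : ∀ i, Measurable (w i)) :
    ∫⁻ x, ∏ i, w i (x i) ∂(Measure.pi ν) = ∏ i, ∫⁻ y, w i y ∂(ν i) := by
  have h1 : iIndepFun (fun (i : Fin n) (x : Fin n → ℝ) => w i (x i)) (Measure.pi ν) :=
    iIndepFun_pi (X := fun i => w i) fun i => (hw i).aemeasurable
  rw [lintegral_prod_eq_prod_lintegral_of_indepFun Finset.univ (fun (i : Fin n) (x : Fin n → ℝ) => w i (x i)) h1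
    fun i => (hw i).comp (measurable_pi_apply i)]
  refine Finset.prod_congr rfl fun i _ => ?_
  exact (measurePreserving_eval ν i).lintegral_comp (hw i)

private theorem gir_pi (n : ℕ) (ν : Fin n → Measure ℝ) [∀ i, IsProbabilityMeasure (ν i)] (w : Fin n → ℝ → ENNReal)
    (hw : ∀ i, Measurable (w i)) (hp : ∀ i, IsProbabilityMeasure ((ν i).withDensity (w i))) :
    (Measure.pi fun i => (ν i).withDensity (w i)) = (Measure.pi ν).withDensity (fun x => ∏ i, w i (x i)) := by
  refine Measure.pi_eq fun s hs => ?_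
  rw [withDensity_apply _ (MeasurableSet.univ_pi hs), ← lintegral_indicator (MeasurableSet.univ_pi hs)]
  have e : ∀ x : Fin n → ℝ, (Set.univ.pi s).indicator (fun x : Fin n → ℝ => ∏ i, w i (x i)) x =
      ∏ i, (s i).indicator (w i) (x i) := by
    intro x
    by_cases hx : x ∈ Set.univ.pi s
    · rw [Set.indicator_of_mem hx]
      refine Finset.prod_congr rfl fun i _ => ?_
      rw [Set.indicator_of_mem (hx i (Set.mem_univ i))]
    · rw [Set.indicator_of_notMem hx]
      rw [Set.mem_univ_pi] at hx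
      push Not at hx
      obtain ⟨i, hi⟩ := hx
      refine (Finset.prod_eq_zero (Finset.mem_univ i) ?_).symm
      rw [Set.indicator_of_notMem hi]
  simp only [e]
  rw [gir_lprod n ν (fun i => (s i).indicator (w i)) fun i => (hw i).indicator (hs i)]
  refine Finset.prod_congr rfl fun i _ => ?_
  rw [withDensity_apply _ (hs i), lintegral_indicator (hs i)]

private theorem gir_one (a c Δ : ℝ) (hΔ : 0 ≤ Δ) :
    gaussianReal (c * Δ) (Real.toNNReal Δ) = (gaussianReal (a * Δ) (Real.toNNReal Δ)).withDensity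
      (fun y => ENNReal.ofReal (Real.exp ((c - a) * y - (c ^ 2 - a ^ 2) * Δ / 2))) := by
  rcases hΔ.eq_or_lt with h | h
  · subst h
    simp only [Real.toNNReal_zero, mul_zero, gaussianReal_zero_var]
    rw [dirac_withDensity]
    simp
  · have hV : ((Real.toNNReal Δ : NNReal) : ℝ) = Δ := Real.coe_toNNReal _ h.le
    have hV0 : Real.toNNReal Δ ≠ 0 := by
      intro h0
      rw [h0] at hV
      simp at hV
      linarith
    rw [gaussianReal_of_var_ne_zero _ hV0, gaussianReal_of_var_ne_zero _ hV0,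
      ← withDensity_mul _ (measurable_gaussianPDF _ _) (by fun_prop)]
    congr 1
    funext y
    rw [Pi.mul_apply, gaussianPDF, gaussianPDF, ← ENNReal.ofReal_mul (gaussianPDFReal_nonneg _ _ _)]
    congr 1
    rw [gaussianPDFReal, gaussianPDFReal, hV, mul_assoc (√(2 * Real.pi * Δ))⁻¹, ← Real.exp_add]
    congr 2
    field_simp
    ring

private theorem gir_dens (a c T : ℝ) (n : ℕ) (t : ℕ → ℝ) (ht : Monotone t) (hle : ∀ i, t i ≤ T) (k0 kT : Fin (n + 1))
    (h0 : t k0 = 0) (h1 : t kT = T) (hk : k0 ≤ kT) (d : ℝ → ℝ) (hd : ∀ s, d s = (if s < 0 then a else c) * s) :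
    (Measure.pi fun i : Fin n => gaussianReal (d (t ((i : ℕ) + 1)) - d (t (i : ℕ)))
        (Real.toNNReal (t ((i : ℕ) + 1) - t (i : ℕ)))) =
      (Measure.pi fun i : Fin n => gaussianReal (a * t ((i : ℕ) + 1) - a * t (i : ℕ))
        (Real.toNNReal (t ((i : ℕ) + 1) - t (i : ℕ)))).withDensity
        (fun v => ENNReal.ofReal (Real.exp ((c - a) * girPhi n k0 kT v - (c ^ 2 - a ^ 2) * T / 2))) := by
  have hk' : (k0 : ℕ) ≤ kT := hk
  set w : Fin n → ℝ → ENNReal := fun i y => if (k0 : ℕ) ≤ (i : ℕ) ∧ (i : ℕ) < kT then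
    ENNReal.ofReal (Real.exp ((c - a) * y - (c ^ 2 - a ^ 2) * (t ((i : ℕ) + 1) - t (i : ℕ)) / 2)) else 1 with hw
  have hwm : ∀ i, Measurable (w i) := by
    intro i
    simp only [hw]
    split_ifs
    · fun_prop
    · exact measurable_const
  have hneg : ∀ s, s ≤ 0 → d s = a * s := by
    intro s hs
    rw [hd]
    rcases hs.eq_or_lt with h | h
    · rw [h]; simp
    · rw [if_pos h]
  have hpos : ∀ s, 0 ≤ s → d s = c * s := by
    intro s hs
    rw [hd, if_neg (not_lt.2 hs)]
  have key : ∀ i : Fin n, gaussianReal (d (t ((i : ℕ) + 1)) - d (t (i : ℕ)))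
      (Real.toNNReal (t ((i : ℕ) + 1) - t (i : ℕ))) =
      (gaussianReal (a * t ((i : ℕ) + 1) - a * t (i : ℕ))
        (Real.toNNReal (t ((i : ℕ) + 1) - t (i : ℕ)))).withDensity (w i) := by
    intro i
    by_cases hi : (k0 : ℕ) ≤ (i : ℕ) ∧ (i : ℕ) < kT
    · have e : w i = fun y => ENNReal.ofReal (Real.exp ((c - a) * y - (c ^ 2 - a ^ 2) * (t ((i : ℕ) + 1) - t (i : ℕ)) / 2)) := by
        funext y; simp only [hw]; rw [if_pos hi]
      have p1 : 0 ≤ t (i : ℕ) := by rw [← h0]; exact ht hi.1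
      have p2 : t (i : ℕ) ≤ t ((i : ℕ) + 1) := ht (Nat.le_succ _)
      rw [e, hpos _ p1, hpos _ (p1.trans p2), ← mul_sub, ← mul_sub]
      exact gir_one a c _ (by linarith)
    · have e : w i = 1 := by
        funext y; simp only [hw]; rw [if_neg hi]; rfl
      rw [e, withDensity_one]
      rw [not_and_or, not_le, not_lt] at hi
      rcases hi with hi | hi
      · have p1 : t ((i : ℕ) + 1) ≤ 0 := by rw [← h0]; exact ht hi
        have p2 : t (i : ℕ) ≤ t ((i : ℕ) + 1) := ht (Nat.le_succ _)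
        rw [hneg _ p1, hneg _ (p2.trans p1)]
      · have p1 : t (i : ℕ) = T := le_antisymm (hle _) (by rw [← h1]; exact ht hi)
        have p2 : t ((i : ℕ) + 1) = T := le_antisymm (hle _) (by rw [← h1]; exact ht (hi.trans (Nat.le_succ _)))
        rw [p1, p2, sub_self, sub_self, sub_self]
  have hfun : (fun i : Fin n => gaussianReal (d (t ((i : ℕ) + 1)) - d (t (i : ℕ)))
      (Real.toNNReal (t ((i : ℕ) + 1) - t (i : ℕ)))) = fun i : Fin n =>
      (gaussianReal (a * t ((i : ℕ) + 1) - a * t (i : ℕ))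
        (Real.toNNReal (t ((i : ℕ) + 1) - t (i : ℕ)))).withDensity (w i) := funext key
  rw [hfun, gir_pi n _ w hwm fun i => by rw [← key i]; infer_instance]
  congr 1
  funext v
  have e1 : ∀ i : Fin n, w i (v i) = ENNReal.ofReal (Real.exp (if (k0 : ℕ) ≤ (i : ℕ) ∧ (i : ℕ) < kT then
      (c - a) * v i - (c ^ 2 - a ^ 2) * (t ((i : ℕ) + 1) - t (i : ℕ)) / 2 else 0)) := by
    intro i
    simp only [hw]
    split_ifs
    · rfl
    · simp
  simp only [e1]
  rw [← ENNReal.ofReal_prod_of_nonneg fun i _ => (Real.exp_pos _).le, ← Real.exp_sum]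
  congr 2
  have e2 : ∀ u : Fin n → ℝ, (∑ i : Fin n, if (k0 : ℕ) ≤ (i : ℕ) ∧ (i : ℕ) < kT then u i else 0) = girPhi n k0 kT u := by
    intro u
    rw [girPhi, ← Finset.sum_sub_distrib]
    refine Finset.sum_congr rfl fun i _ => ?_
    by_cases q1 : (i : ℕ) < k0
    · rw [if_pos q1, if_pos (lt_of_lt_of_le q1 hk'), if_neg (by omega), sub_self]
    · rw [if_neg q1, sub_zero]
      by_cases q2 : (i : ℕ) < kT
      · rw [if_pos q2, if_pos ⟨by omega, q2⟩]
      · rw [if_neg q2, if_neg (by omega)]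
  rw [e2]
  have e3 : girPhi n k0 kT (fun i : Fin n => t ((i : ℕ) + 1) - t (i : ℕ)) = T := by
    have q1 := gir_tele (fun s => s) t n kT (by have := kT.2; omega)
    have q2 := gir_tele (fun s => s) t n k0 (by have := k0.2; omega)
    rw [girPhi]
    rw [q1, q2, h0, h1]
    ring
  have e4 : girPhi n k0 kT (fun i : Fin n => (c - a) * v i - (c ^ 2 - a ^ 2) * (t ((i : ℕ) + 1) - t (i : ℕ)) / 2) =
      (c - a) * girPhi n k0 kT v - (c ^ 2 - a ^ 2) * girPhi n k0 kT (fun i : Fin n => t ((i : ℕ) + 1) - t (i : ℕ)) / 2 := by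
    rw [← e2, ← e2, ← e2, Finset.mul_sum, mul_div_assoc, Finset.sum_div, Finset.mul_sum, ← Finset.sum_sub_distrib]
    refine Finset.sum_congr rfl fun i _ => ?_
    split_ifs <;> ring
  rw [e4, e3]

theorem gir {Ω : Type*} [MeasurableSpace Ω] {P : Measure Ω} [IsProbabilityMeasure P] {W : ℝ → Ω → ℝ}
    (hW : IsBM P W 1 0) (a c T : ℝ) (hT : 0 ≤ T) :
    P.map (fun ω s => dft a c (fun u => W u ω) (min s T)) =
      (P.map (fun ω s => dft a a (fun u => W u ω) (min s T))).withDensity
        (fun g => ENNReal.ofReal (Real.exp ((c - a) * g T - (c ^ 2 - a ^ 2) * T / 2))) := by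
  classical
  set d : ℝ → ℝ := fun s => (if s < 0 then a else c) * s with hd
  have mc : Measurable (fun (ω : Ω) (s : ℝ) => dft a c (fun u => W u ω) (min s T)) :=
    measurable_pi_iff.mpr fun s => (hW.meas _).add_const _
  have ma : Measurable (fun (ω : Ω) (s : ℝ) => dft a a (fun u => W u ω) (min s T)) :=
    measurable_pi_iff.mpr fun s => (hW.meas _).add_const _
  have hD : Measurable (fun z : ℝ => ENNReal.ofReal (Real.exp ((c - a) * z - (c ^ 2 - a ^ 2) * T / 2))) := by
    fun_prop
  have hD' : Measurable (fun g : ℝ → ℝ => ENNReal.ofReal (Real.exp ((c - a) * g T - (c ^ 2 - a ^ 2) * T / 2))) :=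
    hD.comp (measurable_pi_apply T)
  have hprob : IsProbabilityMeasure (P.map (fun ω s => dft a c (fun u => W u ω) (min s T))) :=
    Measure.isProbabilityMeasure_map mc.aemeasurable
  have key : ∀ I : Finset ℝ, ((P.map (fun ω s => dft a a (fun u => W u ω) (min s T))).withDensity
        (fun g => ENNReal.ofReal (Real.exp ((c - a) * g T - (c ^ 2 - a ^ 2) * T / 2)))).map I.restrict =
      (P.map (fun ω s => dft a c (fun u => W u ω) (min s T))).map I.restrict := by
    intro I
    obtain ⟨n, t, ht, hle, hinj, ⟨k0, hk0⟩, ⟨kT, hkT⟩, hI⟩ := gir_enum T hT I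
    choose k hk using hI
    have hk0T : k0 ≤ kT := hinj _ _ (by rw [hk0, hkT]; exact hT)
    have hdens := gir_dens a c T n t ht hle k0 kT hk0 hkT hk0T d (fun s => rfl)
    have hYc := gir_incr hW n t ht (fun i => d (t (i + 1)) - d (t i))
    have hYa := gir_incr hW n t ht (fun i => a * t (i + 1) - a * t i)
    set Yc : Ω → Fin n → ℝ := fun ω i => W (t ((i : ℕ) + 1)) ω - W (t (i : ℕ)) ω + (d (t ((i : ℕ) + 1)) - d (t (i : ℕ)))
      with hYcd
    set Ya : Ω → Fin n → ℝ := fun ω i => W (t ((i : ℕ) + 1)) ω - W (t (i : ℕ)) ω + (a * t ((i : ℕ) + 1) - a * t (i : ℕ))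
      with hYad
    have mYc : Measurable Yc := measurable_pi_iff.mpr fun i => ((hW.meas _).sub (hW.meas _)).add_const _
    have mYa : Measurable Ya := measurable_pi_iff.mpr fun i => ((hW.meas _).sub (hW.meas _)).add_const _
    have hΦ : Measurable (fun (v : Fin n → ℝ) (x : I) => girPhi n k0 (k x x.2) v) :=
      measurable_pi_iff.mpr fun x => gir_meas_phi _ _ _
    have phiC : ∀ᵐ ω ∂P, ∀ j : Fin (n + 1), girPhi n k0 j (Yc ω) = W (t j) ω + d (t j) := by
      filter_upwards [hW.zero] with ω hω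
      intro j
      have q1 := gir_tele (fun s => W s ω + d s) t n j (by have := j.2; omega)
      have q2 := gir_tele (fun s => W s ω + d s) t n k0 (by have := k0.2; omega)
      have e : Yc ω = fun i : Fin n => (W (t ((i : ℕ) + 1)) ω + d (t ((i : ℕ) + 1))) - (W (t (i : ℕ)) ω + d (t (i : ℕ))) := by
        funext i; simp only [hYcd]; ring
      have d0 : d 0 = 0 := by simp [hd]
      rw [girPhi, e, q1, q2, hk0, hω, d0]
      ring
    have phiA : ∀ᵐ ω ∂P, ∀ j : Fin (n + 1), girPhi n k0 j (Ya ω) = W (t j) ω + a * t j := by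
      filter_upwards [hW.zero] with ω hω
      intro j
      have q1 := gir_tele (fun s => W s ω + a * s) t n j (by have := j.2; omega)
      have q2 := gir_tele (fun s => W s ω + a * s) t n k0 (by have := k0.2; omega)
      have e : Ya ω = fun i : Fin n => (W (t ((i : ℕ) + 1)) ω + a * t ((i : ℕ) + 1)) - (W (t (i : ℕ)) ω + a * t (i : ℕ)) := by
        funext i; simp only [hYad]; ring
      rw [girPhi, e, q1, q2, hk0, hω]
      ring
    have hda : ∀ (ω : Ω) (s : ℝ), dft a a (fun u => W u ω) s = W s ω + a * s := by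
      intro ω s; simp [dft]
    have hdc : ∀ (ω : Ω) (s : ℝ), dft a c (fun u => W u ω) s = W s ω + d s := by
      intro ω s; simp only [dft, hd]
    -- right side
    have hR : (P.map (fun ω s => dft a c (fun u => W u ω) (min s T))).map I.restrict =
        (Measure.pi fun i : Fin n => gaussianReal (d (t ((i : ℕ) + 1)) - d (t (i : ℕ)))
        (Real.toNNReal (t ((i : ℕ) + 1) - t (i : ℕ)))).map (fun (v : Fin n → ℝ) (x : I) => girPhi n k0 (k x x.2) v) := by
      rw [← hYc, Measure.map_map hΦ mYc, Measure.map_map (Finset.measurable_restrict I) mc]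
      apply Measure.map_congr
      filter_upwards [phiC] with ω hω
      funext x
      show dft a c (fun u => W u ω) (min (x : ℝ) T) = girPhi n k0 (k x x.2) (Yc ω)
      rw [hω, hdc, hk x x.2]
    rw [hR, hdens]
    refine Measure.ext fun A hA => ?_
    have mT : Measurable (fun v : Fin n → ℝ => ENNReal.ofReal (Real.exp ((c - a) * girPhi n k0 kT v -
        (c ^ 2 - a ^ 2) * T / 2))) := hD.comp (gir_meas_phi _ _ _)
    rw [Measure.map_apply (Finset.measurable_restrict I) hA, Measure.map_apply hΦ hA,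
      withDensity_apply _ ((Finset.measurable_restrict I) hA), withDensity_apply _ (hΦ hA), ← hYa,
      setLIntegral_map ((Finset.measurable_restrict I) hA) hD' ma, setLIntegral_map (hΦ hA) mT mYa]
    rw [← lintegral_indicator (ma ((Finset.measurable_restrict I) hA)), ← lintegral_indicator (mYa (hΦ hA))]
    refine lintegral_congr_ae ?_
    filter_upwards [phiA] with ω hω
    have e1 : (I.restrict fun s : ℝ => dft a a (fun u => W u ω) (min s T)) =
        fun x : I => girPhi n k0 (k x x.2) (Ya ω) := by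
      funext x
      show dft a a (fun u => W u ω) (min (x : ℝ) T) = girPhi n k0 (k x x.2) (Ya ω)
      rw [hω, hda, hk x x.2]
    have e2 : dft a a (fun u => W u ω) (min T T) = girPhi n k0 kT (Ya ω) := by
      rw [hω, hda, hkT, min_self]
    by_cases hmem : (I.restrict fun s : ℝ => dft a a (fun u => W u ω) (min s T)) ∈ A
    · rw [Set.indicator_of_mem (show ω ∈ (fun (ω : Ω) (s : ℝ) => dft a a (fun u => W u ω) (min s T)) ⁻¹'
        (I.restrict ⁻¹' A) from hmem), Set.indicator_of_mem (show ω ∈ Ya ⁻¹'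
        ((fun (v : Fin n → ℝ) (x : I) => girPhi n k0 (k x x.2) v) ⁻¹' A) from by
          show (fun x : I => girPhi n k0 (k x x.2) (Ya ω)) ∈ A
          rw [← e1]; exact hmem)]
      rw [e2]
    · rw [Set.indicator_of_notMem (show ω ∉ (fun (ω : Ω) (s : ℝ) => dft a a (fun u => W u ω) (min s T)) ⁻¹'
        (I.restrict ⁻¹' A) from hmem), Set.indicator_of_notMem (show ω ∉ Ya ⁻¹'
        ((fun (v : Fin n → ℝ) (x : I) => girPhi n k0 (k x x.2) v) ⁻¹' A) from fun hx => hmem (by
          rw [e1]; exact hx))]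
  have hfin : ∀ I : Finset ℝ, IsFiniteMeasure
      ((P.map (fun ω s => dft a c (fun u => W u ω) (min s T))).map I.restrict) := fun I => inferInstance
  exact IsProjectiveLimit.unique (P := fun I : Finset ℝ =>
    (P.map (fun ω s => dft a c (fun u => W u ω) (min s T))).map I.restrict) (fun I => rfl) key

end Pool.Agent.DLM
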