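import Pool.Agent.DLM.Defs

/-!
# DLM/LPB: basic properties of last passage values (120-160 lines, deterministic)

`lppSet B n x y` = the set in the definition of `lpp`.  `lpp_isLUB`: for continuous lines, `1 ≤ n`, `x ≤ y` it is nonempty (`t i = x` for `i ≥ 1`, `t 0 = y`) and bounded (each increment is at most `2 sup_{[x,y]} |B i|`; note `x ≤ t i ≤ y`).
`lpp_one`.  `lpp_succ`: split off the line `n`: `t (n+1) = x`, `s = t n`, the rest is a sequence for `lpp B n s y` (`x ≤ s ≤ y`); both inequalities for least upper bounds.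
`lpp_shift`: if `B' i t = r (B i (c t + d) - B i d)`, `0 < c`, `0 < r`: the sets correspond under `t ↦ c t + d` and multiplication by `r` (`Real.sSup_smul_of_nonneg` or the least upper bound property).
-/

set_option autoImplicit false

open MeasureTheory ProbabilityTheory Filter Topology

namespace Pool.Agent.DLM

/-- the set of the weights of all paths -/
def lppSet (B : ℕ → ℝ → ℝ) (n : ℕ) (x y : ℝ) : Set ℝ :=
  {w | ∃ t : ℕ → ℝ, t n = x ∧ t 0 = y ∧ (∀ i < n, t (i + 1) ≤ t i) ∧
    w = ∑ i ∈ Finset.range n, (B i (t i) - B i (t (i + 1)))}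

private theorem lpb_le {n : ℕ} {t : ℕ → ℝ} (h : ∀ i < n, t (i + 1) ≤ t i) {i j : ℕ} (hij : i ≤ j) (hj : j ≤ n) :
    t j ≤ t i := by
  induction j, hij using Nat.le_induction with
  | base => exact le_rfl
  | succ k hk ih => exact (h k (by omega)).trans (ih (by omega))

private theorem lpb_bdd {B : ℕ → ℝ → ℝ} (hB : ∀ i, Continuous (B i)) (n : ℕ) (x y : ℝ) :
    BddAbove (lppSet B n x y) := by
  have hM : ∀ i, ∃ M : ℝ, ∀ s ∈ Set.Icc x y, |B i s| ≤ M := by
    intro i
    obtain ⟨M, hM⟩ := (isCompact_Icc (a := x) (b := y)).exists_bound_of_continuousOn (hB i).continuousOn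
    exact ⟨M, fun s hs => by simpa using hM s hs⟩
  choose M hM using hM
  refine ⟨∑ i ∈ Finset.range n, 2 * M i, ?_⟩
  rintro w ⟨t, hn, h0, ht, rfl⟩
  refine Finset.sum_le_sum fun i hi => ?_
  rw [Finset.mem_range] at hi
  have h1 : ∀ j ≤ n, t j ∈ Set.Icc x y := by
    intro j hj
    exact ⟨by rw [← hn]; exact lpb_le ht hj le_rfl, by rw [← h0]; exact lpb_le ht (Nat.zero_le j) hj⟩
  have h2 := abs_le.mp (hM i _ (h1 i hi.le))
  have h3 := abs_le.mp (hM i _ (h1 (i + 1) hi))
  linarith [h2.1, h2.2, h3.1, h3.2]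

theorem lpp_isLUB {B : ℕ → ℝ → ℝ} (hB : ∀ i, Continuous (B i)) (n : ℕ) (hn : 1 ≤ n) {x y : ℝ} (h : x ≤ y) :
    IsLUB (lppSet B n x y) (lpp B n x y) := by
  refine isLUB_csSup ?_ (lpb_bdd hB n x y)
  refine ⟨_, fun i => if i = 0 then y else x, ?_, ?_, ?_, rfl⟩
  · simp [show n ≠ 0 by omega]
  · simp
  · intro i _
    by_cases h0 : i = 0
    · simp [h0, h]
    · simp [h0]

theorem lpp_nonempty {B : ℕ → ℝ → ℝ} (n : ℕ) (hn : 1 ≤ n) {x y : ℝ} (h : x ≤ y) : (lppSet B n x y).Nonempty := by
  refine ⟨_, fun i => if i = 0 then y else x, ?_, ?_, ?_, rfl⟩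
  · simp [show n ≠ 0 by omega]
  · simp
  · intro i _
    by_cases h0 : i = 0
    · simp [h0, h]
    · simp [h0]

theorem lpp_one {B : ℕ → ℝ → ℝ} {x y : ℝ} (h : x ≤ y) : lpp B 1 x y = B 0 y - B 0 x := by
  have e : {w | ∃ t : ℕ → ℝ, t 1 = x ∧ t 0 = y ∧ (∀ i < 1, t (i + 1) ≤ t i) ∧
      w = ∑ i ∈ Finset.range 1, (B i (t i) - B i (t (i + 1)))} = {B 0 y - B 0 x} := by
    ext w
    simp only [Set.mem_ofPred_eq, Set.mem_singleton_iff, Finset.sum_range_one, zero_add]
    constructor
    · rintro ⟨t, h1, h0, -, hw⟩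
      rw [hw, h1, h0]
    · rintro rfl
      refine ⟨fun i => if i = 0 then y else x, by simp, by simp, ?_, by simp⟩
      intro i hi
      have : i = 0 := by omega
      simp [this, h]
  unfold lpp
  rw [e, csSup_singleton]

theorem lpp_succ {B : ℕ → ℝ → ℝ} (hB : ∀ i, Continuous (B i)) (n : ℕ) (hn : 1 ≤ n) {x y : ℝ} (h : x ≤ y) :
    IsLUB {w | ∃ s, x ≤ s ∧ s ≤ y ∧ w = B n s - B n x + lpp B n s y} (lpp B (n + 1) x y) := by
  constructor
  · rintro w ⟨s, hxs, hsy, rfl⟩
    have h1 : lpp B n s y ≤ lpp B (n + 1) x y - (B n s - B n x) := by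
      refine (lpp_isLUB hB n hn hsy).2 ?_
      rintro w' ⟨t, htn, ht0, ht, rfl⟩
      have h2 : ∑ i ∈ Finset.range n, (B i (t i) - B i (t (i + 1))) + (B n s - B n x) ≤
          lpp B (n + 1) x y := by
        refine (lpp_isLUB hB (n + 1) (by omega) h).1 ?_
        refine ⟨fun i => if i ≤ n then t i else x, by simp, by simp [ht0], ?_, ?_⟩
        · intro i hi
          by_cases hin : i < n
          · have h3 : i + 1 ≤ n := hin
            simp only [h3, hin.le, if_true]
            exact ht i hin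
          · have h3 : i = n := by omega
            subst h3
            simp [htn, hxs]
        · rw [Finset.sum_range_succ]
          congr 1
          · refine Finset.sum_congr rfl fun i hi => ?_
            rw [Finset.mem_range] at hi
            have h3 : i + 1 ≤ n := hi
            simp [h3, hi.le]
          · simp [htn]
      linarith
    linarith
  · intro b hb
    refine (lpp_isLUB hB (n + 1) (by omega) h).2 ?_
    rintro w ⟨t, htn, ht0, ht, rfl⟩
    have hxs : x ≤ t n := by
      rw [← htn]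
      exact ht n (by omega)
    have hsy : t n ≤ y := by
      rw [← ht0]
      exact lpb_le ht (Nat.zero_le n) (by omega)
    have h1 := hb ⟨t n, hxs, hsy, rfl⟩
    have h2 : ∑ i ∈ Finset.range n, (B i (t i) - B i (t (i + 1))) ≤ lpp B n (t n) y :=
      (lpp_isLUB hB n hn hsy).1 ⟨t, rfl, ht0, fun i hi => ht i (by omega), rfl⟩
    rw [Finset.sum_range_succ, htn]
    linarith

theorem lpp_shift {B B' : ℕ → ℝ → ℝ} (hB : ∀ i, Continuous (B i)) (r c d : ℝ) (hr : 0 < r) (hc : 0 < c)
    (h : ∀ i t, B' i t = r * (B i (c * t + d) - B i d)) (n : ℕ) (hn : 1 ≤ n) {x y : ℝ} (hxy : x ≤ y) :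
    lpp B' n x y = r * lpp B n (c * x + d) (c * y + d) := by
  have hB' : ∀ i, Continuous (B' i) := by
    intro i
    have e : B' i = fun t => r * (B i (c * t + d) - B i d) := funext (h i)
    rw [e]
    have := hB i
    fun_prop
  have hxy' : c * x + d ≤ c * y + d := by nlinarith
  refine (lpp_isLUB hB' n hn hxy).unique ⟨?_, ?_⟩
  · rintro w ⟨t, htn, ht0, ht, rfl⟩
    have h1 : ∑ i ∈ Finset.range n, (B i (c * t i + d) - B i (c * t (i + 1) + d)) ≤
        lpp B n (c * x + d) (c * y + d) := by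
      refine (lpp_isLUB hB n hn hxy').1 ⟨fun i => c * t i + d, by simp [htn], by simp [ht0], ?_, rfl⟩
      intro i hi
      have := ht i hi
      simp only
      nlinarith
    have h2 : ∑ i ∈ Finset.range n, (B' i (t i) - B' i (t (i + 1))) =
        r * ∑ i ∈ Finset.range n, (B i (c * t i + d) - B i (c * t (i + 1) + d)) := by
      rw [Finset.mul_sum]
      refine Finset.sum_congr rfl fun i _ => ?_
      rw [h, h]
      ring
    rw [h2]
    exact mul_le_mul_of_nonneg_left h1 hr.le
  · intro b hb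
    have h1 : lpp B n (c * x + d) (c * y + d) ≤ b / r := by
      refine (lpp_isLUB hB n hn hxy').2 ?_
      rintro w ⟨t, htn, ht0, ht, rfl⟩
      rw [le_div_iff₀ hr]
      have hcd : ∀ u : ℝ, c * ((u - d) / c) + d = u := by
        intro u
        field_simp
        ring
      refine hb ⟨fun i => (t i - d) / c, ?_, ?_, ?_, ?_⟩
      · simp only [htn]
        field_simp
        ring
      · simp only [ht0]
        field_simp
        ring
      · intro i hi
        have := ht i hi
        simp only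
        gcongr
      · rw [Finset.sum_mul]
        refine Finset.sum_congr rfl fun i _ => ?_
        rw [h, h, hcd, hcd]
        ring
    rw [le_div_iff₀ hr] at h1
    linarith

end Pool.Agent.DLM
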