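import Pool.Agent.DLM.BKG
import Pool.Agent.DLM.LPB

/-!
# DLM/GRA: grid paths and last passage values (100-150 lines, deterministic)

Grid `τ` (monotone), cell `j` = `[τ j, τ (j+1)]`, weights `x i j = B i (τ (j+1)) - B i (τ j)`.
`gra_le`: a grid path `r` from `a` to `c` gives the switching times `t i = τ (min c (max a (number of ... )))`: the line `i` is used exactly in the columns `j` with `r j = i`, an interval of columns; `t n = τ a`, `t 0 = τ c`, `t i = τ (first column j ≥ a with r j < i, or c)`.  The weight telescopes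
line by line, so `gw ≤ lpp`.
`gra_ge`: let `t` be a switching sequence from `τ a` to `τ c`, `a < c`.  For the column `j ∈ [a, c)` let `r j` be the least `i` with `t (i+1) ≤ τ j` (exists: `i = n - 1`), so `τ j < t i` if `i ≥ 1` ... the line in use just after `τ j`.  `r` is nonincreasing, `r j < n`.  In the column `j` the switching path collects
`B (r j)(min (t (r j)) (τ (j+1))) - B (r j)(τ j) + ∑ (pieces of lower lines inside the cell)`; if no switch happens inside the cell it equals `x (r j) j`; every `i` has its switching time `t i` in at most one cell (half open), the total difference between the two weights is at most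
`∑_j (number of switches in the cell j) · 2 δ · ..≤ 4 n δ` (each line changes by at most `2 δ` within a cell).  A convenient way: for each line `i` compare `B i (t i) - B i (t (i+1))` with `B i (τ (c_i)) - B i (τ (c_{i+1}))`, where `c_i` is the index of the first grid point `≥ t i`
(so `|B i (t i) - B i (τ (c_i))| ≤ 2 δ`), `c_n = a`, `c_0 = c`, nonincreasing in `i`, and `r j = i` for `c_{i+1} ≤ j < c_i`: the weight of the grid path is exactly `∑ (B i (τ (c_i)) - B i (τ (c_{i+1})))`, the error is `≤ 4 n δ`.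
-/

set_option autoImplicit false

open MeasureTheory ProbabilityTheory Filter Topology

namespace Pool.Agent.DLM

private theorem gra_tel (f : ℕ → ℝ) {p q : ℕ} (h : p ≤ q) : ∑ j ∈ Finset.Ico p q, (f (j + 1) - f j) = f q - f p := by
  induction q, h using Nat.le_induction with
  | base => simp
  | succ k hk ih => rw [Finset.sum_Ico_succ_top hk, ih]; ring

private theorem gra_sum (B : ℕ → ℝ → ℝ) (τ : ℕ → ℝ) (r d : ℕ → ℕ) (n : ℕ) (hd : ∀ i < n, d (i + 1) ≤ d i)
    (hr : ∀ i < n, ∀ j, d (i + 1) ≤ j → j < d i → r j = i) :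
    d n ≤ d 0 ∧ gw (fun i j => B i (τ (j + 1)) - B i (τ j)) (d n) (d 0) r =
      ∑ i ∈ Finset.range n, (B i (τ (d i)) - B i (τ (d (i + 1)))) := by
  induction n with
  | zero => simp [gw]
  | succ k ih =>
    obtain ⟨h1, h2⟩ := ih (fun i hi => hd i (by omega)) (fun i hi => hr i (by omega))
    have h3 := hd k (by omega)
    refine ⟨h3.trans h1, ?_⟩
    rw [Finset.sum_range_succ, ← h2]
    unfold gw
    rw [← Finset.sum_Ico_consecutive _ h3 h1, add_comm]
    congr 1
    rw [← gra_tel (fun j => B k (τ j)) h3]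
    refine Finset.sum_congr rfl fun j hj => ?_
    rw [Finset.mem_Ico] at hj
    simp only [hr k (by omega) j hj.1 hj.2]

theorem gra_le {B : ℕ → ℝ → ℝ} (hB : ∀ i, Continuous (B i)) (n : ℕ) (hn : 1 ≤ n) (τ : ℕ → ℝ) (hτ : Monotone τ) {a c : ℕ}
    (hac : a ≤ c) (r : ℕ → ℕ) (hr : gpath n a c r) :
    gw (fun i j => B i (τ (j + 1)) - B i (τ j)) a c r ≤ lpp B n (τ a) (τ c) := by
  classical
  have hex : ∀ i, ∃ j, a ≤ j ∧ (c ≤ j ∨ r j < i) := fun i => ⟨c, hac, Or.inl le_rfl⟩
  set d : ℕ → ℕ := fun i => Nat.find (hex i) with hd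
  have hspec : ∀ i, a ≤ d i ∧ (c ≤ d i ∨ r (d i) < i) := fun i => Nat.find_spec (hex i)
  have hmin : ∀ i j, a ≤ j → (c ≤ j ∨ r j < i) → d i ≤ j := fun i j h1 h2 => Nat.find_min' (hex i) ⟨h1, h2⟩
  have hc : ∀ i, d i ≤ c := fun i => hmin i c hac (Or.inl le_rfl)
  have h0 : d 0 = c := by
    refine le_antisymm (hc 0) ?_
    rcases (hspec 0).2 with h | h
    · exact h
    · omega
  have hdn : d n = a := by
    refine le_antisymm (hmin n a le_rfl ?_) (hspec n).1
    by_cases h : c ≤ a
    · exact Or.inl h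
    · exact Or.inr (hr.1 a le_rfl (by omega))
  have hanti : ∀ i < n, d (i + 1) ≤ d i := by
    intro i _
    refine hmin _ _ (hspec i).1 ?_
    rcases (hspec i).2 with h | h
    · exact Or.inl h
    · exact Or.inr (by omega)
  have hrow : ∀ i < n, ∀ j, d (i + 1) ≤ j → j < d i → r j = i := by
    intro i _ j h1 h2
    have ha : a ≤ j := (hspec (i + 1)).1.trans h1
    have hjc : j < c := h2.trans_le (hc i)
    have h3 : ¬ r j < i := fun h => by
      have := hmin i j ha (Or.inr h)
      omega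
    have h4 : r (d (i + 1)) < i + 1 := by
      rcases (hspec (i + 1)).2 with h | h
      · omega
      · exact h
    have h5 := hr.2 (d (i + 1)) j (hspec (i + 1)).1 h1 hjc
    omega
  have hsum := (gra_sum B τ r d n hanti hrow).2
  rw [h0, hdn] at hsum
  rw [hsum]
  refine (lpp_isLUB hB n hn (hτ hac)).1 ⟨fun i => τ (d i), ?_, ?_, ?_, rfl⟩
  · simp only [hdn]
  · simp only [h0]
  · intro i hi
    exact hτ (hanti i hi)

private theorem gra_mono {n : ℕ} {t : ℕ → ℝ} (h : ∀ i < n, t (i + 1) ≤ t i) {i j : ℕ} (hij : i ≤ j) (hj : j ≤ n) :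
    t j ≤ t i := by
  induction j, hij using Nat.le_induction with
  | base => exact le_rfl
  | succ k hk ih => exact (h k (by omega)).trans (ih (by omega))

private theorem gra_one {B : ℕ → ℝ → ℝ} (n : ℕ) (hn : 1 ≤ n) (τ : ℕ → ℝ) (hτ : Monotone τ) {a c : ℕ}
    (hac : a ≤ c) (δ : ℝ) (hδ : ∀ i < n, ∀ j, a ≤ j → j < c → ∀ s, τ j ≤ s → s ≤ τ (j + 1) → |B i s - B i (τ j)| ≤ δ)
    (h0 : 0 ≤ δ) (t : ℕ → ℝ) (htn : t n = τ a) (ht0 : t 0 = τ c) (ht : ∀ i < n, t (i + 1) ≤ t i) :
    ∃ r, gpath n a c r ∧ ∑ i ∈ Finset.range n, (B i (t i) - B i (t (i + 1))) - 4 * n * δ ≤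
      gw (fun i j => B i (τ (j + 1)) - B i (τ j)) a c r := by
  classical
  have hex : ∀ i, ∃ j, a ≤ j ∧ (c ≤ j ∨ t i ≤ τ j) := fun i => ⟨c, hac, Or.inl le_rfl⟩
  set d : ℕ → ℕ := fun i => if i = 0 then c else Nat.find (hex i) with hd
  have hspec : ∀ i, a ≤ d i ∧ (c ≤ d i ∨ t i ≤ τ (d i)) := by
    intro i
    by_cases h : i = 0
    · simp [hd, h, hac]
    · simp only [hd, h, if_false]
      exact Nat.find_spec (hex i)
  have hmin : ∀ i, i ≠ 0 → ∀ j, a ≤ j → (c ≤ j ∨ t i ≤ τ j) → d i ≤ j := by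
    intro i hi j h1 h2
    simp only [hd, hi, if_false]
    exact Nat.find_min' (hex i) ⟨h1, h2⟩
  have hd0 : d 0 = c := by simp [hd]
  have hc : ∀ i, d i ≤ c := by
    intro i
    by_cases h : i = 0
    · rw [h, hd0]
    · exact hmin i h c hac (Or.inl le_rfl)
  have hdn : d n = a := le_antisymm (hmin n (by omega) a le_rfl (Or.inr htn.le)) (hspec n).1
  have hanti : ∀ i < n, d (i + 1) ≤ d i := by
    intro i hi
    by_cases h : i = 0
    · rw [h, hd0]
      exact hc _
    · refine hmin _ (by omega) _ (hspec i).1 ?_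
      rcases (hspec i).2 with h1 | h1
      · exact Or.inl h1
      · exact Or.inr ((ht i hi).trans h1)
  have htop : ∀ i ≤ n, t i ≤ τ (d i) := by
    intro i hi
    rcases (hspec i).2 with h1 | h1
    · have h2 : d i = c := le_antisymm (hc i) h1
      rw [h2, ← ht0]
      exact gra_mono ht (Nat.zero_le i) hi
    · exact h1
  have herr : ∀ l < n, ∀ i ≤ n, |B l (t i) - B l (τ (d i))| ≤ 2 * δ := by
    intro l hl i hi
    by_cases hi0 : i = 0
    · rw [hi0, hd0, ht0, sub_self, abs_zero]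
      positivity
    by_cases ha : d i = a
    · have h1 := htop i hi
      have h2 : t n ≤ t i := gra_mono ht hi le_rfl
      rw [ha] at h1 ⊢
      rw [htn] at h2
      rw [le_antisymm h1 h2, sub_self, abs_zero]
      positivity
    · have h1 := (hspec i).1
      obtain ⟨j, hj⟩ : ∃ j, d i = j + 1 := ⟨d i - 1, by omega⟩
      have hja : a ≤ j := by omega
      have hjc : j < c := by have := hc i; omega
      have hlow : τ j < t i := by
        by_contra h2
        have := hmin i hi0 j hja (Or.inr (not_lt.mp h2))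
        omega
      have hup := htop i hi
      rw [hj] at hup ⊢
      have e1 := abs_le.mp (hδ l hl j hja hjc (t i) hlow.le hup)
      have e2 := abs_le.mp (hδ l hl j hja hjc (τ (j + 1)) (hτ (by omega)) le_rfl)
      rw [abs_le]
      constructor <;> linarith [e1.1, e1.2, e2.1, e2.2]
  have hn1 : n - 1 + 1 = n := by omega
  set r : ℕ → ℕ := fun j => sInf {i | d (i + 1) ≤ j} with hr
  have hne : ∀ j, a ≤ j → (n - 1) ∈ {i | d (i + 1) ≤ j} := by
    intro j hj
    simp only [Set.mem_ofPred_eq, hn1, hdn]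
    exact hj
  have hrow : ∀ i < n, ∀ j, d (i + 1) ≤ j → j < d i → r j = i := by
    intro i hi j h1 h2
    refine le_antisymm (Nat.sInf_le h1) ?_
    refine le_csInf ⟨i, h1⟩ ?_
    intro i' hi'
    by_contra h3
    have h4 : d i ≤ d (i' + 1) := by
      have key : ∀ p q, p ≤ q → q ≤ n → d q ≤ d p := by
        intro p q hpq hq
        induction q, hpq using Nat.le_induction with
        | base => exact le_rfl
        | succ k hk ih => exact (hanti k (by omega)).trans (ih (by omega))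
      exact key _ _ (by omega) hi.le
    have h5 : d (i' + 1) ≤ j := hi'
    omega
  refine ⟨r, ⟨?_, ?_⟩, ?_⟩
  · intro j h1 _
    have := Nat.sInf_le (hne j h1)
    simp only [hr]
    omega
  · intro j j' h1 h2 _
    refine Nat.sInf_le ?_
    have h3 : sInf {i | d (i + 1) ≤ j} ∈ {i | d (i + 1) ≤ j} := Nat.sInf_mem ⟨_, hne j h1⟩
    exact le_trans h3 h2
  · have hsum := (gra_sum B τ r d n hanti hrow).2
    rw [hd0, hdn] at hsum
    rw [hsum]
    have h5 : (4 : ℝ) * n * δ = ∑ i ∈ Finset.range n, 4 * δ := by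
      rw [Finset.sum_const, Finset.card_range, nsmul_eq_mul]
      ring
    rw [h5, ← Finset.sum_sub_distrib]
    refine Finset.sum_le_sum fun i hi => ?_
    rw [Finset.mem_range] at hi
    have e1 := abs_le.mp (herr i hi i hi.le)
    have e2 := abs_le.mp (herr i hi (i + 1) hi)
    linarith [e1.1, e1.2, e2.1, e2.2]

theorem gra_ge {B : ℕ → ℝ → ℝ} (hB : ∀ i, Continuous (B i)) (n : ℕ) (hn : 1 ≤ n) (τ : ℕ → ℝ) (hτ : Monotone τ) {a c : ℕ}
    (hac : a ≤ c) (δ : ℝ) (hδ : ∀ i < n, ∀ j, a ≤ j → j < c → ∀ s, τ j ≤ s → s ≤ τ (j + 1) → |B i s - B i (τ j)| ≤ δ)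
    (h0 : 0 ≤ δ) :
    ∃ r, gpath n a c r ∧ lpp B n (τ a) (τ c) - 5 * n * δ - δ ≤ gw (fun i j => B i (τ (j + 1)) - B i (τ j)) a c r := by
  classical
  set V : Set ℝ := {w | ∃ r, gpath n a c r ∧ w = gw (fun i j => B i (τ (j + 1)) - B i (τ j)) a c r} with hV
  have hfin : V.Finite := by
    refine (Set.finite_range (fun f : Fin c → Fin n =>
      gw (fun i j => B i (τ (j + 1)) - B i (τ j)) a c (fun j => if h : j < c then (f ⟨j, h⟩ : ℕ) else 0))).subset ?_
    rintro w ⟨r, hr, rfl⟩
    refine ⟨fun j => ⟨if a ≤ (j : ℕ) then r j else 0, ?_⟩, ?_⟩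
    · by_cases h : a ≤ (j : ℕ)
      · rw [if_pos h]
        exact hr.1 _ h j.2
      · rw [if_neg h]
        omega
    · unfold gw
      refine Finset.sum_congr rfl fun j hj => ?_
      rw [Finset.mem_Ico] at hj
      simp only [hj.1, hj.2, dif_pos, if_true]
  have hne : V.Nonempty := ⟨_, fun _ => 0, ⟨fun _ _ _ => hn, fun _ _ _ _ _ => le_rfl⟩, rfl⟩
  obtain ⟨w, ⟨r, hr, hw⟩, hmax⟩ := Set.exists_max_image V id hfin hne
  refine ⟨r, hr, ?_⟩
  have h1 : lpp B n (τ a) (τ c) ≤ w + 4 * n * δ := by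
    refine (lpp_isLUB hB n hn (hτ hac)).2 ?_
    rintro w' ⟨t, htn, ht0, ht, rfl⟩
    obtain ⟨r', hr', h2⟩ := gra_one n hn τ hτ hac δ hδ h0 t htn ht0 ht
    have h3 := hmax _ ⟨r', hr', rfl⟩
    simp only [id] at h3
    linarith
  rw [← hw]
  have h2 : (0 : ℝ) ≤ n * δ := by positivity
  linarith

end Pool.Agent.DLM
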