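import Pool.Agent.DLM.ADefs

/-!
# DLM/RMC: the running maximum of a continuous path (80-120 lines, deterministic)

`rmx X t = ⨆ q, X (min q t)`.  For continuous `X`: the values `min q t` are the rationals `< t` and `t`, dense in `Iic t`, so `BddAbove (range (q ↦ X (min q t)))` iff `BddAbove (X '' Iic t)` and the supremum is the same.
`rmx_isLUB`.  `rmx_mono`: monotone in `t` (if bounded for all `t`).  `rmx_cont`: continuous: for `t < t'`, `rmx X t ≤ rmx X t' ≤ rmx X t + sup_{[t,t']} |X - X t|`.  `rmx_split`: `rmx X t' = max (rmx X t) (sup_{[t,t']} X)` for `t ≤ t'`.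
`que_isLUB`: `que f B t` is the least upper bound of `{f s + B t - B s | s ≤ t}`.  `que_cont`.  `que_const`: `que (f + c) B = que f B + c` (`BddAbove` not needed: `Real.iSup_add`-type; if unbounded both suprema are the junk value `0`: so assume boundedness).
`dq_const`, `dq_stop`: induction on `n` (`que` at `t ≤ T` only depends on `f` on `Iic T`; for `dq_stop` compare at all `t ≤ T`).
-/

set_option autoImplicit false

open MeasureTheory ProbabilityTheory Filter Topology

namespace Pool.Agent.DLM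

private theorem mem_closure_min {t s : ℝ} (hs : s ≤ t) :
    s ∈ closure (Set.range fun q : ℚ => min (q : ℝ) t) := by
  have h1 : s ∈ closure (Set.range ((↑) : ℚ → ℝ)) := Rat.denseRange_cast s
  have hc : Continuous fun x : ℝ => min x t := by fun_prop
  have h2 := image_closure_subset_closure_image hc ⟨s, h1, rfl⟩
  rw [← Set.range_comp] at h2
  simp only [min_eq_left hs] at h2
  exact h2

private theorem le_rmx {X : ℝ → ℝ} (hX : Continuous X) {t : ℝ}
    (hb : BddAbove (Set.range fun q : ℚ => X (min (q : ℝ) t))) {s : ℝ} (hs : s ≤ t) : X s ≤ rmx X t := by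
  have hcl : IsClosed {x : ℝ | X x ≤ rmx X t} := isClosed_le hX continuous_const
  have hsub : (Set.range fun q : ℚ => min (q : ℝ) t) ⊆ {x : ℝ | X x ≤ rmx X t} := by
    rintro _ ⟨q, rfl⟩
    exact le_ciSup hb q
  exact closure_minimal hsub hcl (mem_closure_min hs)

private theorem rmx_le {X : ℝ → ℝ} {t c : ℝ} (h : ∀ s ≤ t, X s ≤ c) : rmx X t ≤ c :=
  ciSup_le fun q => h _ (min_le_right _ _)

theorem rmx_isLUB {X : ℝ → ℝ} (hX : Continuous X) {t : ℝ} (hb : BddAbove (Set.range fun q : ℚ => X (min (q : ℝ) t))) :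
    IsLUB (X '' Set.Iic t) (rmx X t) := by
  constructor
  · rintro _ ⟨s, hs, rfl⟩
    exact le_rmx hX hb hs
  · intro c hc
    exact rmx_le fun s hs => hc ⟨s, hs, rfl⟩

theorem rmx_bdd {X : ℝ → ℝ} (hX : Continuous X) {t : ℝ} (hb : BddAbove (X '' Set.Iic t)) :
    BddAbove (Set.range fun q : ℚ => X (min (q : ℝ) t)) := by
  have _h := hX
  refine hb.mono ?_
  rintro _ ⟨q, rfl⟩
  exact ⟨min (q : ℝ) t, Set.mem_Iic.2 (min_le_right _ _), rfl⟩

theorem rmx_cont {X : ℝ → ℝ} (hX : Continuous X) (hb : ∀ t : ℝ, BddAbove (Set.range fun q : ℚ => X (min (q : ℝ) t))) :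
    Continuous (rmx X) := by
  rw [Metric.continuous_iff]
  intro t0 ε hε
  obtain ⟨δ, hδ, h⟩ := Metric.continuous_iff.1 hX t0 (ε / 4) (by positivity)
  refine ⟨δ, hδ, fun t ht => ?_⟩
  have key : ∀ s, |s - t0| < δ → |X s - X t0| < ε / 4 := fun s hs => h s hs
  have ht' : |t - t0| < δ := ht
  rw [abs_lt] at ht'
  have h1 : rmx X t ≤ rmx X t0 + ε / 4 := by
    refine rmx_le fun s hs => ?_
    by_cases hst : s ≤ t0
    · have := le_rmx hX (hb t0) hst
      linarith
    · rw [not_le] at hst
      have h2 := (abs_lt.1 (key s (abs_lt.2 ⟨by linarith, by linarith⟩))).2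
      have h3 := le_rmx hX (hb t0) (le_refl t0)
      linarith
  have h2 : rmx X t0 ≤ rmx X t + ε / 2 := by
    refine rmx_le fun s hs => ?_
    by_cases hst : s ≤ t
    · have := le_rmx hX (hb t) hst
      linarith
    · rw [not_le] at hst
      have h2 := (abs_lt.1 (key s (abs_lt.2 ⟨by linarith, by linarith⟩))).2
      have h3 := (abs_lt.1 (key t (abs_lt.2 ⟨by linarith, by linarith⟩))).1
      have h4 := le_rmx hX (hb t) (le_refl t)
      linarith
  rw [Real.dist_eq, abs_lt]
  constructor <;> linarith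

theorem rmx_split {X : ℝ → ℝ} (hX : Continuous X) (hb : ∀ t : ℝ, BddAbove (Set.range fun q : ℚ => X (min (q : ℝ) t)))
    (t t' : ℝ) (h : t ≤ t') : rmx X t' = max (rmx X t) (⨆ q : ℚ, X (max t (min (q : ℝ) t'))) := by
  have hb2 : BddAbove (Set.range fun q : ℚ => X (max t (min (q : ℝ) t'))) := by
    refine ⟨rmx X t', ?_⟩
    rintro _ ⟨q, rfl⟩
    exact le_rmx hX (hb t') (max_le h (min_le_right _ _))
  apply le_antisymm
  · refine ciSup_le fun q => ?_
    by_cases hq : min (q : ℝ) t' ≤ t
    · exact le_max_of_le_left (le_rmx hX (hb t) hq)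
    · rw [not_le] at hq
      refine le_max_of_le_right ?_
      have h1 := le_ciSup hb2 q
      simp only [max_eq_right hq.le] at h1
      exact h1
  · refine max_le ?_ ?_
    · exact rmx_le fun s hs => le_rmx hX (hb t') (hs.trans h)
    · exact ciSup_le fun q => le_rmx hX (hb t') (max_le h (min_le_right _ _))

theorem que_isLUB {f B : ℝ → ℝ} (hf : Continuous f) (hB : Continuous B)
    {t : ℝ} (hb : BddAbove (Set.range fun q : ℚ => f (min (q : ℝ) t) - B (min (q : ℝ) t))) :
    IsLUB {w | ∃ s ≤ t, w = f s + B t - B s} (que f B t) := by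
  have hc : Continuous fun s => f s - B s := hf.sub hB
  constructor
  · rintro _ ⟨s, hs, rfl⟩
    have h1 : f s - B s ≤ rmx (fun s => f s - B s) t := le_rmx hc hb hs
    unfold que
    linarith
  · intro c hc'
    have h1 : rmx (fun s => f s - B s) t ≤ c - B t := by
      refine rmx_le fun s hs => ?_
      have h2 : f s + B t - B s ≤ c := hc' ⟨s, hs, rfl⟩
      show f s - B s ≤ c - B t
      linarith
    unfold que
    linarith

theorem que_cont {f B : ℝ → ℝ} (hf : Continuous f) (hB : Continuous B)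
    (hb : ∀ t : ℝ, BddAbove (Set.range fun q : ℚ => f (min (q : ℝ) t) - B (min (q : ℝ) t))) :
    Continuous (que f B) := by
  have hc : Continuous fun s => f s - B s := hf.sub hB
  have h1 : Continuous (rmx fun s => f s - B s) := rmx_cont hc hb
  exact hB.add h1

theorem dq_cont {B : ℕ → ℝ → ℝ} (hB : ∀ i, Continuous (B i)) (n : ℕ) {f : ℝ → ℝ} (hf : Continuous f)
    (hb : DBdd B n f) : Continuous (dq B n f) := by
  induction n generalizing f with
  | zero => exact hf
  | succ n ih => exact ih (que_cont hf (hB n) hb.1) hb.2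

private theorem que_const {f B : ℝ → ℝ} (c : ℝ)
    (hb : ∀ t : ℝ, BddAbove (Set.range fun q : ℚ => f (min (q : ℝ) t) - B (min (q : ℝ) t))) :
    que (fun s => f s + c) B = fun s => que f B s + c := by
  funext t
  have h1 : rmx (fun s => f s + c - B s) t = rmx (fun s => f s - B s) t + c := by
    unfold rmx
    rw [ciSup_add (hb t)]
    refine iSup_congr fun q => ?_
    ring
  unfold que
  rw [h1]
  ring

theorem dbdd_const {B : ℕ → ℝ → ℝ} (n : ℕ) {f : ℝ → ℝ} (c : ℝ) (hb : DBdd B n f) :
    DBdd B n (fun s => f s + c) := by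
  induction n generalizing f with
  | zero => trivial
  | succ n ih =>
    refine ⟨fun t => ?_, ?_⟩
    · obtain ⟨C, hC⟩ := hb.1 t
      refine ⟨C + c, ?_⟩
      rintro _ ⟨q, rfl⟩
      have := hC ⟨q, rfl⟩
      simp only at this ⊢
      linarith
    · rw [que_const c hb.1]
      exact ih hb.2

theorem dq_const {B : ℕ → ℝ → ℝ} (n : ℕ) {f : ℝ → ℝ} (c : ℝ) (hb : DBdd B n f) (t : ℝ) :
    dq B n (fun s => f s + c) t = dq B n f t + c := by
  induction n generalizing f with
  | zero => rfl
  | succ n ih =>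
    show dq B n (que (fun s => f s + c) (B n)) t = dq B n (que f (B n)) t + c
    rw [que_const c hb.1]
    exact ih hb.2

private theorem dq_stop_aux {B : ℕ → ℝ → ℝ} (n : ℕ) {f g : ℝ → ℝ} (T : ℝ) (hfg : ∀ t ≤ T, f t = g t)
    (t : ℝ) (h : t ≤ T) : dq B n f t = dq B n g t := by
  induction n generalizing f g with
  | zero => exact hfg t h
  | succ n ih =>
    refine ih (f := que f (B n)) (g := que g (B n)) fun u hu => ?_
    unfold que rmx
    congr 1
    refine iSup_congr fun q => ?_
    show f (min (q : ℝ) u) - B n (min (q : ℝ) u) = g (min (q : ℝ) u) - B n (min (q : ℝ) u)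
    rw [hfg _ ((min_le_right _ _).trans hu)]

theorem dq_stop {B : ℕ → ℝ → ℝ} (n : ℕ) {f : ℝ → ℝ} (T t : ℝ) (h : t ≤ T) :
    dq B n (fun s => f (min s T)) t = dq B n f t :=
  dq_stop_aux n T (fun u hu => by simp [min_eq_left hu]) t h

end Pool.Agent.DLM
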