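import Pool.Agent.DLM.QUE
import Pool.Agent.DLM.RMC

/-!
# DLM/TAN: queues in tandem (120-180 lines)

INDUCTION on `n`, generalising `f`.  `n = 0`: `dq B 0 f = f`.  Step: `f'' = que f (B n)`, `f' = f'' - f'' 0` is a Brownian motion (`que_bm`), a function of `(f, B n)`, hence independent of `(B i)_{i<n}` (replace the lines `i ≥ n` as they do not occur in `dq B n`: e.g. apply the induction hypothesis to the lines
`B' i = B i` for `i < n`, and `B' i = B (i+1)` for `i ≥ n`, `dq B n f = dq B' n f` by congruence; or state everything for families indexed by `i < n`).  `dq B (n+1) f = dq B n f''`, `dq_const`, `dbdd_const`: parts 1, 2.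
Part 3: `dq B n f'' T - f'' T = dq B n (past f'' T) T` (`dq_stop`, `dq_const`) is a measurable function of `(past f'' T, (B i)_{i<n})`, which is independent of `q = f'' T - f T` (`(past f'' T, q)` is a function of `(f, B n)`, independent of `(B i)_{i<n}`, and `past f'' T ⟂ q` by `que_past`).
So `E exp(c (dq B (n+1) f T - f T)) = E exp(c (dq B n f'' T - f'' T)) E exp(c q)`, the first factor is `(μ/(μ-c))^n` by induction (`dq B n f'' T - f'' T = dq B n f' T - f' T`), `E exp(c q) = μ/(μ - c)` (mgf of the exponential law).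
-/

set_option autoImplicit false

open MeasureTheory ProbabilityTheory Filter Topology

namespace Pool.Agent.DLM

variable {Ω : Type*} [MeasurableSpace Ω] {P : Measure Ω} [IsProbabilityMeasure P]

/-- the lines are independent standard Brownian motions, independent of `f` -/
structure Lines (P : Measure Ω) (f : ℝ → Ω → ℝ) (B : ℕ → ℝ → Ω → ℝ) : Prop where
  bm : ∀ i, IsBM P (B i) 1 0
  indep : iIndepFun (fun (i : ℕ) (ω : Ω) (t : ℝ) => B i t ω) P
  indep' : IndepFun (fun ω t => f t ω) (fun ω (i : ℕ) (t : ℝ) => B i t ω) P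

section aux

omit [IsProbabilityMeasure P] in
private theorem bm_congr {X Y : ℝ → Ω → ℝ} {v b : ℝ} (h : IsBM P X v b) (hY : ∀ t, Measurable (Y t))
    (he : ∀ᵐ ω ∂P, ∀ t, X t ω = Y t ω) : IsBM P Y v b := by
  refine ⟨hY, ?_, ?_, ?_, ?_⟩
  · filter_upwards [h.cont, he] with ω h1 h2
    have : (fun t => Y t ω) = fun t => X t ω := funext fun t => (h2 t).symm
    rw [this]
    exact h1
  · filter_upwards [h.zero, he] with ω h1 h2
    rw [← h2 0]
    exact h1
  · intro s t hst
    rw [← h.gauss s t hst]
    refine Measure.map_congr ?_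
    filter_upwards [he] with ω h2
    rw [h2, h2]
  · intro t ht
    refine (h.indep t ht).congr fun i => ?_
    filter_upwards [he] with ω h2
    rw [h2, h2]

private theorem assoc_indep {α β γ : Type*} [MeasurableSpace α] [MeasurableSpace β]
    [MeasurableSpace γ] {X : Ω → α} {Y : Ω → β} {Z : Ω → γ} (hX : Measurable X) (hY : Measurable Y)
    (hZ : Measurable Z) (h1 : IndepFun X (fun ω => (Y ω, Z ω)) P) (h2 : IndepFun Y Z P) :
    IndepFun (fun ω => (X ω, Y ω)) Z P := by
  have hXY : IndepFun X Y P := h1.comp measurable_id measurable_fst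
  have e1 := (indepFun_iff_map_prod_eq_prod_map_map hX.aemeasurable
    (hY.prodMk hZ).aemeasurable).1 h1
  have e2 := (indepFun_iff_map_prod_eq_prod_map_map hY.aemeasurable hZ.aemeasurable).1 h2
  have e3 := (indepFun_iff_map_prod_eq_prod_map_map hX.aemeasurable hY.aemeasurable).1 hXY
  rw [indepFun_iff_map_prod_eq_prod_map_map (hX.prodMk hY).aemeasurable hZ.aemeasurable, e3]
  haveI := Measure.isProbabilityMeasure_map (μ := P) hX.aemeasurable
  haveI := Measure.isProbabilityMeasure_map (μ := P) hY.aemeasurable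
  haveI := Measure.isProbabilityMeasure_map (μ := P) hZ.aemeasurable
  have e4 : P.map (fun ω => ((X ω, Y ω), Z ω)) =
      (P.map (fun ω => (X ω, (Y ω, Z ω)))).map MeasurableEquiv.prodAssoc.symm := by
    rw [Measure.map_map MeasurableEquiv.prodAssoc.symm.measurable (hX.prodMk (hY.prodMk hZ))]
    rfl
  rw [e4, e1, e2, ← Measure.prodAssoc_prod,
    Measure.map_map MeasurableEquiv.prodAssoc.symm.measurable MeasurableEquiv.prodAssoc.measurable]
  have e5 : (⇑(MeasurableEquiv.prodAssoc.symm : α × β × γ ≃ᵐ (α × β) × γ) ∘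
      ⇑(MeasurableEquiv.prodAssoc : (α × β) × γ ≃ᵐ α × β × γ)) = id := by
    funext x
    rfl
  rw [e5, Measure.map_id]

/-- `que` is measurable on path spaces -/
private theorem que_meas : Measurable fun p : (ℝ → ℝ) × (ℝ → ℝ) => que p.1 p.2 := by
  refine measurable_pi_lambda _ fun t => ?_
  unfold que rmx
  refine ((measurable_pi_apply t).comp measurable_snd).add (Measurable.iSup fun q => ?_)
  exact ((measurable_pi_apply _).comp measurable_fst).sub ((measurable_pi_apply _).comp measurable_snd)

private theorem dq_meas (n : ℕ) :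
    Measurable fun p : (ℕ → ℝ → ℝ) × (ℝ → ℝ) => dq p.1 n p.2 := by
  induction n with
  | zero => exact measurable_snd
  | succ n ih =>
    have h1 : Measurable fun p : (ℕ → ℝ → ℝ) × (ℝ → ℝ) => (p.1, que p.2 (p.1 n)) := by
      refine measurable_fst.prodMk ?_
      exact que_meas.comp (measurable_snd.prodMk ((measurable_pi_apply n).comp measurable_fst))
    exact ih.comp h1

private theorem dq_congr {B B' : ℕ → ℝ → ℝ} {n : ℕ} (h : ∀ i < n, B i = B' i) (f : ℝ → ℝ) :
    dq B n f = dq B' n f := by
  induction n generalizing f with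
  | zero => rfl
  | succ n ih =>
    show dq B n (que f (B n)) = dq B' n (que f (B' n))
    rw [ih (fun i hi => h i (by omega)), h n (by omega)]

private theorem dbdd_congr {B B' : ℕ → ℝ → ℝ} {n : ℕ} (h : ∀ i < n, B i = B' i) (f : ℝ → ℝ) :
    DBdd B n f ↔ DBdd B' n f := by
  induction n generalizing f with
  | zero => rfl
  | succ n ih =>
    show _ ∧ DBdd B n (que f (B n)) ↔ _ ∧ DBdd B' n (que f (B' n))
    rw [ih (fun i hi => h i (by omega)), h n (by omega)]

/-- skipping the number `n` -/
private def sk (n i : ℕ) : ℕ := if i < n then i else i + 1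

private theorem sk_inj (n : ℕ) : Function.Injective (sk n) := by
  intro i j h
  unfold sk at h
  split_ifs at h <;> omega

private theorem sk_ne (n i : ℕ) : sk n i ≠ n := by
  unfold sk
  split_ifs <;> omega

private theorem sk_lt {n i : ℕ} (h : i < n) : sk n i = i := if_pos h

omit [IsProbabilityMeasure P] in
private theorem meas_lines {f : ℝ → Ω → ℝ} {B : ℕ → ℝ → Ω → ℝ} (hB : Lines P f B) (i : ℕ) :
    Measurable fun (ω : Ω) (t : ℝ) => B i t ω :=
  measurable_pi_lambda _ fun t => (hB.bm i).meas t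

/-- the line `n` is independent of the others -/
private theorem line_indep {f : ℝ → Ω → ℝ} {B : ℕ → ℝ → Ω → ℝ} (hB : Lines P f B) (n : ℕ) :
    IndepFun (fun ω t => B n t ω) (fun ω (i : ℕ) (t : ℝ) => B (sk n i) t ω) P := by
  have h1 := indep_iSup_of_disjoint (μ := P)
    (m := fun i : ℕ => MeasurableSpace.comap (fun (ω : Ω) (t : ℝ) => B i t ω) inferInstance)
    (fun i => (meas_lines hB i).comap_le) hB.indep (S := {n}) (T := {n}ᶜ)
    (Set.disjoint_compl_right_iff_subset.2 (le_refl _))
  rw [IndepFun_iff_Indep]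
  refine indep_of_indep_of_le_left (indep_of_indep_of_le_right h1 ?_) ?_
  · rw [MeasurableSpace.pi, MeasurableSpace.comap_iSup]
    refine iSup_le fun i => ?_
    rw [MeasurableSpace.comap_comp]
    exact le_iSup₂_of_le (sk n i) (by simpa using sk_ne n i) (le_refl _)
  · exact le_iSup₂_of_le n (by simp) (le_refl _)

/-- the pair `(f, B n)` is independent of the other lines -/
private theorem pair_indep {f : ℝ → Ω → ℝ} {B : ℕ → ℝ → Ω → ℝ} (hf : ∀ t, Measurable (f t))
    (hB : Lines P f B) (n : ℕ) :
    IndepFun (fun ω => ((fun t => f t ω : ℝ → ℝ), (fun t => B n t ω : ℝ → ℝ)))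
      (fun ω (i : ℕ) (t : ℝ) => B (sk n i) t ω) P := by
  have hfm : Measurable fun (ω : Ω) (t : ℝ) => f t ω := measurable_pi_lambda _ hf
  have hbm : Measurable fun (ω : Ω) (i : ℕ) (t : ℝ) => B (sk n i) t ω :=
    measurable_pi_lambda _ fun i => meas_lines hB (sk n i)
  refine assoc_indep hfm (meas_lines hB n) hbm ?_ (line_indep hB n)
  have hm : Measurable fun b : ℕ → ℝ → ℝ => (b n, fun i => b (sk n i)) :=
    (measurable_pi_apply n).prodMk (measurable_pi_lambda _ fun i => measurable_pi_apply _)
  exact hB.indep'.comp measurable_id hm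

/-- the next queue -/
private noncomputable def nx (f : ℝ → Ω → ℝ) (b : ℝ → Ω → ℝ) (t : ℝ) (ω : Ω) : ℝ :=
  que (fun s => f s ω) (fun s => b s ω) t - que (fun s => f s ω) (fun s => b s ω) 0

private theorem nx_lines {f : ℝ → Ω → ℝ} {B : ℕ → ℝ → Ω → ℝ} (hf : ∀ t, Measurable (f t))
    (hB : Lines P f B) (n : ℕ) : Lines P (nx f (B n)) (fun i => B (sk n i)) := by
  refine ⟨fun i => hB.bm _, hB.indep.precomp (sk_inj n), ?_⟩
  have hm : Measurable fun p : (ℝ → ℝ) × (ℝ → ℝ) => fun t => que p.1 p.2 t - que p.1 p.2 0 := by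
    refine measurable_pi_lambda _ fun t => ?_
    exact ((measurable_pi_apply t).comp que_meas).sub ((measurable_pi_apply 0).comp que_meas)
  exact (pair_indep hf hB n).comp hm measurable_id

omit [IsProbabilityMeasure P] in
private theorem fB_indep {f : ℝ → Ω → ℝ} {B : ℕ → ℝ → Ω → ℝ} (hB : Lines P f B) (n : ℕ) :
    IndepFun (fun ω t => f t ω) (fun ω t => B n t ω) P :=
  hB.indep'.comp measurable_id (measurable_pi_apply n)

private theorem nx_add (f b : ℝ → Ω → ℝ) (ω : Ω) :
    (fun s => nx f b s ω + que (fun s => f s ω) (fun s => b s ω) 0) =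
      que (fun s => f s ω) (fun s => b s ω) := by
  funext s
  unfold nx
  ring

private theorem dq_succ_eq {f : ℝ → Ω → ℝ} {B : ℕ → ℝ → Ω → ℝ} (n : ℕ) (ω : Ω)
    (hb : DBdd (fun i t => B (sk n i) t ω) n (fun t => nx f (B n) t ω)) (t : ℝ) :
    dq (fun i t => B i t ω) (n + 1) (fun t => f t ω) t =
      dq (fun i t => B (sk n i) t ω) n (fun t => nx f (B n) t ω) t +
        que (fun s => f s ω) (fun s => B n s ω) 0 := by
  have h1 := dq_const n (que (fun s => f s ω) (fun s => B n s ω) 0) hb t
  rw [nx_add] at h1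
  rw [← h1]
  show dq (fun i t => B i t ω) n (que (fun t => f t ω) (fun t => B n t ω)) t = _
  rw [dq_congr (B' := fun i t => B (sk n i) t ω) fun i hi => by rw [sk_lt hi]]

private theorem exp_mgf {μ c : ℝ} (hμ : 0 < μ) (hc : c < μ) :
    ∫⁻ x, ENNReal.ofReal (Real.exp (c * x)) ∂(expMeasure μ) = ENNReal.ofReal (μ / (μ - c)) := by
  have hmc : 0 < μ - c := sub_pos.2 hc
  have hd : expMeasure μ = volume.withDensity (exponentialPDF μ) := rfl
  have hm : Measurable (exponentialPDF μ) :=
    ENNReal.measurable_ofReal.comp (measurable_exponentialPDFReal μ)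
  have hm' : Measurable (exponentialPDF (μ - c)) :=
    ENNReal.measurable_ofReal.comp (measurable_exponentialPDFReal (μ - c))
  rw [hd, lintegral_withDensity_eq_lintegral_mul _ hm (by fun_prop)]
  have h1 : ∀ x : ℝ, (exponentialPDF μ * fun x => ENNReal.ofReal (Real.exp (c * x))) x =
      ENNReal.ofReal (μ / (μ - c)) * exponentialPDF (μ - c) x := by
    intro x
    rw [Pi.mul_apply, exponentialPDF_eq, exponentialPDF_eq]
    split_ifs with hx
    · rw [← ENNReal.ofReal_mul (by positivity), ← ENNReal.ofReal_mul (by positivity)]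
      congr 1
      rw [mul_assoc, ← Real.exp_add]
      have : -(μ * x) + c * x = -((μ - c) * x) := by ring
      rw [this]
      field_simp
    · simp
  rw [lintegral_congr h1, lintegral_const_mul _ hm', lintegral_exponentialPDF_eq_one hmc, mul_one]

end aux

theorem tan_bdd {μ : ℝ} (hμ : 0 < μ) (n : ℕ) {f : ℝ → Ω → ℝ} {B : ℕ → ℝ → Ω → ℝ} (hf : IsBM P f 1 μ)
    (hB : Lines P f B) : ∀ᵐ ω ∂P, DBdd (fun i t => B i t ω) n (fun t => f t ω) := by
  induction n generalizing f B with
  | zero => exact Eventually.of_forall fun ω => trivial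
  | succ n ih =>
    have hbm : IsBM P (nx f (B n)) 1 μ := que_bm hμ hf (hB.bm n) (fB_indep hB n)
    have h1 := ih hbm (nx_lines hf.meas hB n)
    filter_upwards [que_bdd hμ hf (hB.bm n) (fB_indep hB n), h1] with ω h2 h3
    refine ⟨h2, ?_⟩
    have h4 := dbdd_const n (que (fun s => f s ω) (fun s => B n s ω) 0) h3
    rw [nx_add] at h4
    exact (dbdd_congr (fun i hi => by rw [sk_lt hi]) _).2 h4

theorem tan_bm {μ : ℝ} (hμ : 0 < μ) (n : ℕ) {f : ℝ → Ω → ℝ} {B : ℕ → ℝ → Ω → ℝ} (hf : IsBM P f 1 μ)
    (hB : Lines P f B) :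
    IsBM P (fun t ω => dq (fun i t => B i t ω) n (fun t => f t ω) t - dq (fun i t => B i t ω) n (fun t => f t ω) 0)
      1 μ := by
  have hmeas : ∀ t, Measurable fun ω => dq (fun i t => B i t ω) n (fun t => f t ω) t -
      dq (fun i t => B i t ω) n (fun t => f t ω) 0 := by
    intro t
    have h1 : Measurable fun ω => ((fun i t => B i t ω : ℕ → ℝ → ℝ), (fun t => f t ω : ℝ → ℝ)) :=
      (measurable_pi_lambda _ fun i => meas_lines hB i).prodMk (measurable_pi_lambda _ hf.meas)
    have h2 := (dq_meas n).comp h1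
    exact ((measurable_pi_apply t).comp h2).sub ((measurable_pi_apply 0).comp h2)
  induction n generalizing f B with
  | zero =>
    refine bm_congr hf hmeas ?_
    filter_upwards [hf.zero] with ω h0 t
    show f t ω = f t ω - f 0 ω
    rw [h0, sub_zero]
  | succ n ih =>
    have hbm : IsBM P (nx f (B n)) 1 μ := que_bm hμ hf (hB.bm n) (fB_indep hB n)
    have hL := nx_lines hf.meas hB n
    have hm' : ∀ t, Measurable fun ω => dq (fun i t => B (sk n i) t ω) n (fun t => nx f (B n) t ω) t -
        dq (fun i t => B (sk n i) t ω) n (fun t => nx f (B n) t ω) 0 := by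
      intro t
      have h1 : Measurable fun ω => ((fun i t => B (sk n i) t ω : ℕ → ℝ → ℝ),
          (fun t => nx f (B n) t ω : ℝ → ℝ)) :=
        (measurable_pi_lambda _ fun i => meas_lines hL i).prodMk (measurable_pi_lambda _ hbm.meas)
      have h2 := (dq_meas n).comp h1
      exact ((measurable_pi_apply t).comp h2).sub ((measurable_pi_apply 0).comp h2)
    refine bm_congr (ih hbm hL hm') hmeas ?_
    filter_upwards [tan_bdd hμ n hbm hL] with ω h1 t
    rw [dq_succ_eq n ω h1, dq_succ_eq n ω h1]
    ring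

theorem tan_mgf {μ : ℝ} (hμ : 0 < μ) (n : ℕ) {f : ℝ → Ω → ℝ} {B : ℕ → ℝ → Ω → ℝ} (hf : IsBM P f 1 μ)
    (hB : Lines P f B) (T c : ℝ) (hc : c < μ) :
    ∫⁻ ω, ENNReal.ofReal (Real.exp (c * (dq (fun i t => B i t ω) n (fun t => f t ω) T - f T ω))) ∂P =
      ENNReal.ofReal ((μ / (μ - c)) ^ n) := by
  induction n generalizing f B with
  | zero =>
    have : ∀ ω, ENNReal.ofReal (Real.exp (c * (dq (fun i t => B i t ω) 0 (fun t => f t ω) T - f T ω))) = 1 := by
      intro ω
      show ENNReal.ofReal (Real.exp (c * (f T ω - f T ω))) = 1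
      simp
    rw [lintegral_congr this]
    simp
  | succ n ih =>
    have hbm : IsBM P (nx f (B n)) 1 μ := que_bm hμ hf (hB.bm n) (fB_indep hB n)
    have hL := nx_lines hf.meas hB n
    have ih' := ih hbm hL
    have hmc : 0 < μ - c := sub_pos.2 hc
    -- the queue length at the first server
    set q : Ω → ℝ := fun ω => que (fun s => f s ω) (fun s => B n s ω) T - f T ω with hq
    -- the past of the output
    set pp : Ω → (ℝ → ℝ) := fun ω => past (que (fun s => f s ω) (fun s => B n s ω)) T with hpp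
    set BB : Ω → (ℕ → ℝ → ℝ) := fun ω i t => B (sk n i) t ω with hBB
    have hBBm : Measurable BB := measurable_pi_lambda _ fun i => meas_lines hL i
    have hfB : Measurable fun ω => ((fun t => f t ω : ℝ → ℝ), (fun t => B n t ω : ℝ → ℝ)) :=
      (measurable_pi_lambda _ hf.meas).prodMk (meas_lines hB n)
    have hF : Measurable fun p : (ℝ → ℝ) × (ℝ → ℝ) => (past (que p.1 p.2) T, que p.1 p.2 T - p.1 T) := by
      refine (measurable_pi_lambda _ fun s => ?_).prodMk ?_
      · exact ((measurable_pi_apply _).comp que_meas).sub ((measurable_pi_apply _).comp que_meas)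
      · exact ((measurable_pi_apply _).comp que_meas).sub ((measurable_pi_apply _).comp measurable_fst)
    have hpq : Measurable fun ω => (pp ω, q ω) := hF.comp hfB
    have hppm : Measurable pp := measurable_fst.comp hpq
    have hqm : Measurable q := measurable_snd.comp hpq
    have i1 : IndepFun BB (fun ω => (pp ω, q ω)) P :=
      ((pair_indep hf.meas hB n).comp hF measurable_id).symm
    have i2 : IndepFun pp q P := que_past hμ hf (hB.bm n) (fB_indep hB n) T
    have i3 : IndepFun (fun ω => (BB ω, pp ω)) q P := assoc_indep hBBm hppm hqm i1 i2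
    -- the rest
    set U : Ω → ℝ := fun ω => dq (BB ω) n (pp ω) T with hU
    have hUm : Measurable U :=
      (measurable_pi_apply T).comp ((dq_meas n).comp (hBBm.prodMk hppm))
    have i4 : IndepFun U q P := i3.comp ((measurable_pi_apply T).comp (dq_meas n)) measurable_id
    have i5 : IndepFun (fun ω => ENNReal.ofReal (Real.exp (c * U ω)))
        (fun ω => ENNReal.ofReal (Real.exp (c * q ω))) P :=
      i4.comp (φ := fun x => ENNReal.ofReal (Real.exp (c * x)))
        (ψ := fun x => ENNReal.ofReal (Real.exp (c * x))) (by fun_prop) (by fun_prop)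
    have e1 : ∀ᵐ ω ∂P, dq (fun i t => B (sk n i) t ω) n (fun t => nx f (B n) t ω) T -
        nx f (B n) T ω = U ω := by
      filter_upwards [tan_bdd hμ n hbm hL] with ω h1
      have h2 := dq_const n (-nx f (B n) T ω) h1 T
      have h3 := dq_stop (B := BB ω) n (f := fun s => nx f (B n) s ω + -nx f (B n) T ω) T T (le_refl _)
      rw [sub_eq_add_neg, ← h2]
      show dq (BB ω) n (fun s => nx f (B n) s ω + -nx f (B n) T ω) T = dq (BB ω) n (pp ω) T
      rw [← h3]
      congr 1
      congr 1
      funext s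
      simp only [hpp, past, nx]
      ring
    have e2 : ∀ᵐ ω ∂P, ENNReal.ofReal (Real.exp (c * (dq (fun i t => B i t ω) (n + 1) (fun t => f t ω) T - f T ω))) =
        ENNReal.ofReal (Real.exp (c * U ω)) * ENNReal.ofReal (Real.exp (c * q ω)) := by
      filter_upwards [tan_bdd hμ n hbm hL, e1] with ω h1 h2
      rw [dq_succ_eq n ω h1, ← h2, ← ENNReal.ofReal_mul (Real.exp_nonneg _), ← Real.exp_add]
      congr 2
      simp only [hq, nx]
      ring
    rw [lintegral_congr_ae e2]
    have e3 : ∫⁻ ω, ENNReal.ofReal (Real.exp (c * U ω)) ∂P = ENNReal.ofReal ((μ / (μ - c)) ^ n) := by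
      rw [← ih']
      refine lintegral_congr_ae ?_
      filter_upwards [e1] with ω h1
      rw [h1]
    have e4 : ∫⁻ ω, ENNReal.ofReal (Real.exp (c * q ω)) ∂P = ENNReal.ofReal (μ / (μ - c)) := by
      rw [← exp_mgf hμ hc, ← que_q hμ hf (hB.bm n) (fB_indep hB n) T,
        lintegral_map (by fun_prop) hqm]
    have e5 := lintegral_mul_eq_lintegral_mul_lintegral_of_indepFun (μ := P)
      (f := fun ω => ENNReal.ofReal (Real.exp (c * U ω)))
      (g := fun ω => ENNReal.ofReal (Real.exp (c * q ω))) (by fun_prop) (by fun_prop) i5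
    have e6 : ∫⁻ ω, ENNReal.ofReal (Real.exp (c * U ω)) * ENNReal.ofReal (Real.exp (c * q ω)) ∂P =
        (∫⁻ ω, ENNReal.ofReal (Real.exp (c * U ω)) ∂P) *
          ∫⁻ ω, ENNReal.ofReal (Real.exp (c * q ω)) ∂P := e5
    rw [e6, e3, e4, ← ENNReal.ofReal_mul (by positivity), pow_succ]

end Pool.Agent.DLM
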