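import Pool.Agent.DLM.HNC
import Pool.Agent.DLM.TAN

/-!
# DLM/HBM: stationarity of Brownian motion under the Airy sheet (80-120 lines)

For `n` large with `mun γ n > 0`: `dft (mun γ n) (mun γ n) (Vn W n)` is a Brownian motion with drift `mun γ n` (`idn_bm`), so by `tan_bm` the increments of `D = dq ..` are those of a Brownian motion with drift `mun γ n`; `Hn γ γ y - Hn γ γ y' = n^(1/6)(D(1 + 2y n^(-1/3)) - D(1 + 2y' n^(-1/3)) - 2(y - y') n^(1/6))`: for a monotone
sequence `y_0 ≤ y_1 ≤ ..` the increments are independent with laws `N(2γ Δ, 2Δ)` (variance `n^(1/3) · 2Δ n^(-1/3)`, mean `n^(1/6) mun γ n · 2Δ n^(-1/3) - 2Δ n^(1/3) = 2γΔ`).  They converge in probability to the increments of `Hs γ γ` (`hn_tendsto`), so finite vectors of increments of `Hs` have the same law (limits in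
distribution are unique: `TendstoInMeasure.tendstoInDistribution`, `tendstoInDistribution_unique`; or bounded continuous test functions).  Measurability: countable suprema.
-/

set_option autoImplicit false

open MeasureTheory ProbabilityTheory Filter Topology

namespace Pool.Agent.DLM


private theorem hbm_uniq {Ω E : Type*} [MeasurableSpace Ω] {P : Measure Ω} [IsProbabilityMeasure P] [MetricSpace E]
    [MeasurableSpace E] [BorelSpace E] {X : ℕ → Ω → E} {Z : Ω → E} {μ : Measure E} [IsProbabilityMeasure μ]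
    (hX : ∀ n, AEMeasurable (X n) P) (hl : ∀ n, P.map (X n) = μ) (h : TendstoInMeasure P X atTop Z) :
    P.map Z = μ := by
  have d1 := h.tendstoInDistribution hX
  have h3 := d1.tendsto
  have e : (fun n => (⟨P.map (X n), Measure.isProbabilityMeasure_map (hX n)⟩ : ProbabilityMeasure E)) =
      fun _ => ⟨μ, inferInstance⟩ := funext fun n => Subtype.ext (hl n)
  rw [e] at h3
  have h4 := tendsto_nhds_unique h3 tendsto_const_nhds
  exact congrArg Subtype.val h4

section aux

variable {Ω : Type*} [MeasurableSpace Ω] {P : Measure Ω} [IsProbabilityMeasure P] {S : ℝ → ℝ → Ω → ℝ}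
  {B : ℕ → ℕ → ℝ → Ω → ℝ} {W : ℝ → Ω → ℝ}

private theorem hbm_n (h : Cpl P S B W) (γ : ℝ) (n : ℕ) (hn : 1 ≤ n) (hm : 0 < mun γ n) :
    IsBM P (fun y ω => Hn γ γ (fun n i t => B n i t ω) (fun t => W t ω) n y -
      Hn γ γ (fun n i t => B n i t ω) (fun t => W t ω) n 0) 2 (2 * γ) := by
  have hn0 : (0 : ℝ) < n := by exact_mod_cast hn
  have hV := vn_bm h n hn
  have hf := idn_bm hV (mun γ n)
  have hL := vn_lines h n
  have hmeas : Measurable fun g : ℝ → ℝ => (dft (mun γ n) (mun γ n) g : ℝ → ℝ) :=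
    measurable_pi_lambda _ fun s => (measurable_pi_apply s).add_const _
  have hLf : Lines P (fun t ω => dft (mun γ n) (mun γ n) (fun u => Vn (fun t => W t ω) n u) t) (B n) :=
    ⟨hL.bm, hL.indep, hL.indep'.comp hmeas measurable_id⟩
  have hT := tan_bm hm n hf hLf
  set r : ℝ := (n : ℝ) ^ (1 / 6 : ℝ) with hr
  set q : ℝ := (n : ℝ) ^ (-(1 / 3) : ℝ) with hq
  have hr0 : 0 < r := Real.rpow_pos_of_pos hn0 _
  have hq0 : 0 < q := Real.rpow_pos_of_pos hn0 _
  have hr2 : r ^ 2 = (n : ℝ) ^ (1 / 3 : ℝ) := by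
    rw [hr, ← Real.rpow_natCast, ← Real.rpow_mul hn0.le]; norm_num
  have hrq : r ^ 2 * q = 1 := by
    rw [hr2, hq, ← Real.rpow_add hn0]; norm_num
  have hs : √(n : ℝ) = r ^ 3 := by
    rw [Real.sqrt_eq_rpow, hr, ← Real.rpow_natCast, ← Real.rpow_mul hn0.le]; norm_num
  have hmun : mun γ n = r ^ 3 + γ * r := by
    unfold mun
    rw [hs, ← hr]
  have h1 := bm_scale hT r (2 * q) 1 (by positivity)
  have h2 := bm_addd h1 (-2 * r ^ 2)
  have ev : r ^ 2 * 1 * (2 * q) = 2 := by linear_combination 2 * hrq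
  have ed : r * mun γ n * (2 * q) + -2 * r ^ 2 = 2 * γ := by
    rw [hmun]; linear_combination (2 * r ^ 2 + 2 * γ) * hrq
  rw [ev, ed] at h2
  convert h2 using 3 with y ω
  unfold Hn
  rw [← hr, ← hq]
  have e1 : 2 * q * y + 1 = 1 + 2 * y * q := by ring
  have e2 : 1 + 2 * 0 * q = 1 := by ring
  rw [e1, e2]
  have e3 : (fun t => dft (mun γ n) (mun γ n) (fun u => Vn (fun t => W t ω) n u) t) =
      dft (mun γ n) (mun γ n) (Vn (fun t => W t ω) n) := rfl
  rw [e3]
  ring

private theorem hbm_two (h : Cpl P S B W) (γ a b : ℝ) (ε : ℝ) (hε : 0 < ε) :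
    Tendsto (fun n : ℕ => P {ω | ε < |(Hn γ γ (fun n i t => B n i t ω) (fun t => W t ω) n b -
      Hn γ γ (fun n i t => B n i t ω) (fun t => W t ω) n a) -
      (Hs γ γ (fun x y => S x y ω) (fun t => W t ω) b - Hs γ γ (fun x y => S x y ω) (fun t => W t ω) a)|})
      atTop (𝓝 0) := by
  have h1 := (hn_tendsto h γ γ b (ε / 2) (by positivity)).add (hn_tendsto h γ γ a (ε / 2) (by positivity))
  rw [add_zero] at h1
  refine tendsto_of_tendsto_of_tendsto_of_le_of_le tendsto_const_nhds h1 (fun _ => zero_le) (fun n => ?_)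
  refine (measure_mono ?_).trans (measure_union_le _ _)
  intro ω hω
  by_contra hno
  simp only [Set.mem_union, Set.mem_setOf_eq, not_or, not_lt] at hno hω
  have g1 := abs_le.1 hno.1
  have g2 := abs_le.1 hno.2
  refine absurd hω (not_lt.2 (abs_le.2 ⟨?_, ?_⟩)) <;> linarith [g1.1, g1.2, g2.1, g2.2]

private theorem hbm_tim (h : Cpl P S B W) (γ : ℝ) (N : ℕ) {ι : Type*} [Fintype ι] (a b : ι → ℝ) :
    TendstoInMeasure P (fun (k : ℕ) ω (i : ι) =>
      (Hn γ γ (fun n i t => B n i t ω) (fun t => W t ω) (k + N) (b i) -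
        Hn γ γ (fun n i t => B n i t ω) (fun t => W t ω) (k + N) 0) -
      (Hn γ γ (fun n i t => B n i t ω) (fun t => W t ω) (k + N) (a i) -
        Hn γ γ (fun n i t => B n i t ω) (fun t => W t ω) (k + N) 0)) atTop
      (fun ω i => (Hs γ γ (fun x y => S x y ω) (fun t => W t ω) (b i) -
          Hs γ γ (fun x y => S x y ω) (fun t => W t ω) 0) -
        (Hs γ γ (fun x y => S x y ω) (fun t => W t ω) (a i) -
          Hs γ γ (fun x y => S x y ω) (fun t => W t ω) 0)) := by
  rw [tendstoInMeasure_iff_dist]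
  intro ε hε
  have h1 : Tendsto (fun k : ℕ => ∑ i, P {ω | ε / 2 <
      |(Hn γ γ (fun n i t => B n i t ω) (fun t => W t ω) (k + N) (b i) -
        Hn γ γ (fun n i t => B n i t ω) (fun t => W t ω) (k + N) (a i)) -
      (Hs γ γ (fun x y => S x y ω) (fun t => W t ω) (b i) - Hs γ γ (fun x y => S x y ω) (fun t => W t ω) (a i))|})
      atTop (𝓝 0) := by
    have := tendsto_finsetSum (Finset.univ : Finset ι)
      (fun i _ => (hbm_two h γ (a i) (b i) (ε / 2) (by positivity)).comp (tendsto_add_atTop_nat N))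
    rw [Finset.sum_const_zero] at this
    exact this
  refine tendsto_of_tendsto_of_tendsto_of_le_of_le tendsto_const_nhds h1 (fun _ => zero_le) (fun k => ?_)
  refine (measure_mono ?_).trans (measure_iUnion_fintype_le _ _)
  intro ω hω
  by_contra hno
  simp only [Set.mem_iUnion, Set.mem_setOf_eq, not_exists, not_lt] at hno hω
  have h2 : dist (fun i : ι => (Hn γ γ (fun n i t => B n i t ω) (fun t => W t ω) (k + N) (b i) -
        Hn γ γ (fun n i t => B n i t ω) (fun t => W t ω) (k + N) 0) -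
      (Hn γ γ (fun n i t => B n i t ω) (fun t => W t ω) (k + N) (a i) -
        Hn γ γ (fun n i t => B n i t ω) (fun t => W t ω) (k + N) 0))
      (fun i => (Hs γ γ (fun x y => S x y ω) (fun t => W t ω) (b i) -
          Hs γ γ (fun x y => S x y ω) (fun t => W t ω) 0) -
        (Hs γ γ (fun x y => S x y ω) (fun t => W t ω) (a i) -
          Hs γ γ (fun x y => S x y ω) (fun t => W t ω) 0)) ≤ ε / 2 := by
    rw [dist_pi_le_iff (by positivity)]
    intro i
    rw [Real.dist_eq]
    refine le_trans (le_of_eq ?_) (hno i)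
    congr 1
    ring
  linarith

private theorem hbm_hs (h : Cpl P S B W) (γ y : ℝ) :
    Measurable fun ω => Hs γ γ (fun x y => S x y ω) (fun t => W t ω) y := by
  unfold Hs
  refine Measurable.iSup fun x => ?_
  exact ((h.wbm.meas x).add_const _).add (h.meas x y)

end aux

theorem hs_pre {Ω : Type*} [MeasurableSpace Ω] {P : Measure Ω} [IsProbabilityMeasure P] {S : ℝ → ℝ → Ω → ℝ}
    {B : ℕ → ℕ → ℝ → Ω → ℝ} {W : ℝ → Ω → ℝ} (h : Cpl P S B W) (γ : ℝ) :
    IsPre P (fun y ω => Hs γ γ (fun x y => S x y ω) (fun t => W t ω) y -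
      Hs γ γ (fun x y => S x y ω) (fun t => W t ω) 0) 2 (2 * γ) := by
  obtain ⟨N₀, hN₀⟩ := eventually_atTop.1 (mun_pos γ)
  set N : ℕ := max N₀ 1 with hN
  have hY : ∀ k : ℕ, IsBM P (fun y ω => Hn γ γ (fun n i t => B n i t ω) (fun t => W t ω) (k + N) y -
      Hn γ γ (fun n i t => B n i t ω) (fun t => W t ω) (k + N) 0) 2 (2 * γ) := fun k =>
    hbm_n h γ (k + N) (by omega) (hN₀ _ (by omega))
  have hmeas : ∀ t, Measurable fun ω => Hs γ γ (fun x y => S x y ω) (fun t => W t ω) t -
      Hs γ γ (fun x y => S x y ω) (fun t => W t ω) 0 := fun t => (hbm_hs h γ t).sub (hbm_hs h γ 0)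
  have hgauss : ∀ s t : ℝ, s ≤ t →
      P.map (fun ω => (Hs γ γ (fun x y => S x y ω) (fun t => W t ω) t -
        Hs γ γ (fun x y => S x y ω) (fun t => W t ω) 0) -
        (Hs γ γ (fun x y => S x y ω) (fun t => W t ω) s -
        Hs γ γ (fun x y => S x y ω) (fun t => W t ω) 0)) =
      gaussianReal (2 * γ * (t - s)) (Real.toNNReal (2 * (t - s))) := by
    intro s t hst
    refine hbm_uniq (X := fun (k : ℕ) ω => (Hn γ γ (fun n i t => B n i t ω) (fun t => W t ω) (k + N) t -
        Hn γ γ (fun n i t => B n i t ω) (fun t => W t ω) (k + N) 0) -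
      (Hn γ γ (fun n i t => B n i t ω) (fun t => W t ω) (k + N) s -
        Hn γ γ (fun n i t => B n i t ω) (fun t => W t ω) (k + N) 0))
      (fun k => (((hY k).meas t).sub ((hY k).meas s)).aemeasurable) (fun k => (hY k).gauss s t hst) ?_
    have h1 := hbm_tim h γ N (ι := Fin 1) (fun _ => s) (fun _ => t)
    rw [tendstoInMeasure_iff_dist] at h1 ⊢
    intro ε hε
    refine tendsto_of_tendsto_of_tendsto_of_le_of_le tendsto_const_nhds (h1 ε hε) (fun _ => zero_le) (fun k => ?_)
    refine measure_mono fun ω hω => ?_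
    have hω' : ε ≤ dist _ _ := hω
    refine le_trans hω' ?_
    exact dist_le_pi_dist (fun _ : Fin 1 => _) (fun _ : Fin 1 => _) 0
  refine ⟨hmeas, ?_, hgauss, ?_⟩
  · exact Eventually.of_forall fun ω => sub_self _
  · intro t ht
    rw [iIndepFun_iff_finset]
    intro s
    have hm2 : ∀ i : s, AEMeasurable ((s.restrict (fun (i : ℕ) (ω : Ω) =>
        (Hs γ γ (fun x y => S x y ω) (fun t => W t ω) (t (i + 1)) -
        Hs γ γ (fun x y => S x y ω) (fun t => W t ω) 0) -
        (Hs γ γ (fun x y => S x y ω) (fun t => W t ω) (t i) -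
        Hs γ γ (fun x y => S x y ω) (fun t => W t ω) 0))) i) P := fun i =>
      ((hmeas (t (i + 1))).sub (hmeas (t i))).aemeasurable
    rw [iIndepFun_iff_map_fun_eq_pi_map hm2]
    have e1 : (fun i : s => P.map ((s.restrict (fun (i : ℕ) (ω : Ω) =>
        (Hs γ γ (fun x y => S x y ω) (fun t => W t ω) (t (i + 1)) -
        Hs γ γ (fun x y => S x y ω) (fun t => W t ω) 0) -
        (Hs γ γ (fun x y => S x y ω) (fun t => W t ω) (t i) -
        Hs γ γ (fun x y => S x y ω) (fun t => W t ω) 0))) i)) =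
        fun i : s => gaussianReal (2 * γ * (t (i + 1) - t i)) (Real.toNNReal (2 * (t (i + 1) - t i))) :=
      funext fun i => hgauss _ _ (ht (Nat.le_succ _))
    rw [e1]
    refine hbm_uniq (X := fun (k : ℕ) ω (i : s) =>
      (Hn γ γ (fun n i t => B n i t ω) (fun t => W t ω) (k + N) (t (i + 1)) -
        Hn γ γ (fun n i t => B n i t ω) (fun t => W t ω) (k + N) 0) -
      (Hn γ γ (fun n i t => B n i t ω) (fun t => W t ω) (k + N) (t i) -
        Hn γ γ (fun n i t => B n i t ω) (fun t => W t ω) (k + N) 0))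
      (fun k => (measurable_pi_lambda _ fun i => ((hY k).meas _).sub ((hY k).meas _)).aemeasurable)
      (fun k => ?_) (hbm_tim h γ N (fun i : s => t i) (fun i : s => t (i + 1)))
    have h2 := iIndepFun_iff_finset.1 ((hY k).indep t ht) s
    have hm3 : ∀ i : s, AEMeasurable ((s.restrict (fun (i : ℕ) (ω : Ω) =>
        (Hn γ γ (fun n i t => B n i t ω) (fun t => W t ω) (k + N) (t (i + 1)) -
        Hn γ γ (fun n i t => B n i t ω) (fun t => W t ω) (k + N) 0) -
      (Hn γ γ (fun n i t => B n i t ω) (fun t => W t ω) (k + N) (t i) -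
        Hn γ γ (fun n i t => B n i t ω) (fun t => W t ω) (k + N) 0))) i) P := fun i =>
      (((hY k).meas (t (i + 1))).sub ((hY k).meas (t i))).aemeasurable
    have h3 := (iIndepFun_iff_map_fun_eq_pi_map hm3).1 h2
    refine Eq.trans h3 ?_
    congr 1
    exact funext fun i => (hY k).gauss _ _ (ht (Nat.le_succ _))

end Pool.Agent.DLM
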