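import Pool.Agent.DLM.LPB
import Pool.Agent.DLM.RMC

/-!
# DLM/LPQ: queues and last passage values (60-100 lines, deterministic)

INDUCTION on `n ≥ 1`, generalising `f`.  `n = 1`: `dq B 1 f T = que f (B 0) T`, `que_isLUB`, `lpp_one`.  Step: `dq B (n+1) f T = dq B n f'' T`, `f'' = que f (B n)` continuous (`que_cont`), which is the least upper bound of `f'' s + lpp B n s T`, `s ≤ T` and `f'' s` is the least upper bound of
`f x + B n s - B n x`, `x ≤ s`; compare with `f x + lpp B (n+1) x T`, `lpp_succ`.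
-/

set_option autoImplicit false

open MeasureTheory ProbabilityTheory Filter Topology

namespace Pool.Agent.DLM

theorem dq_isLUB {B : ℕ → ℝ → ℝ} (hB : ∀ i, Continuous (B i)) (n : ℕ) (hn : 1 ≤ n) {f : ℝ → ℝ} (hf : Continuous f)
    (hb : DBdd B n f) (T : ℝ) : IsLUB {w | ∃ x ≤ T, w = f x + lpp B n x T} (dq B n f T) := by
  induction n, hn using Nat.le_induction generalizing f with
  | base =>
    have h1 := que_isLUB hf (hB 0) (hb.1 T)
    have h2 : {w | ∃ x ≤ T, w = f x + lpp B 1 x T} = {w | ∃ s ≤ T, w = f s + B 0 T - B 0 s} := by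
      ext w
      constructor
      · rintro ⟨x, hx, rfl⟩
        exact ⟨x, hx, by rw [lpp_one hx]; ring⟩
      · rintro ⟨x, hx, rfl⟩
        exact ⟨x, hx, by rw [lpp_one hx]; ring⟩
    rw [h2]
    exact h1
  | succ n hn ih =>
    obtain ⟨hb1, hb2⟩ := hb
    have hc : Continuous (que f (B n)) := que_cont hf (hB n) hb1
    have h1 := ih hc hb2
    show IsLUB {w | ∃ x ≤ T, w = f x + lpp B (n + 1) x T} (dq B n (que f (B n)) T)
    constructor
    · rintro w ⟨x, hx, rfl⟩
      have h2 := lpp_succ hB n hn hx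
      have h3 : lpp B (n + 1) x T ≤ dq B n (que f (B n)) T - f x := by
        apply h2.2
        rintro w ⟨s, hs1, hs2, rfl⟩
        have h4 := (que_isLUB hf (hB n) (hb1 s)).1 ⟨x, hs1, rfl⟩
        have h5 := h1.1 ⟨s, hs2, rfl⟩
        linarith
      linarith
    · intro M hM
      apply h1.2
      rintro w ⟨s, hs, rfl⟩
      have h4 : que f (B n) s ≤ M - lpp B n s T := by
        apply (que_isLUB hf (hB n) (hb1 s)).2
        rintro w ⟨x, hx, rfl⟩
        have h5 := (lpp_succ hB n hn (hx.trans hs)).1 ⟨s, hx, hs, rfl⟩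
        have h6 := hM ⟨x, hx.trans hs, rfl⟩
        linarith
      linarith

end Pool.Agent.DLM
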