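import Pool.Agent.DLM.VNB
import Pool.Agent.DLM.LPQ

/-!
# DLM/HNI: variational formula for `Hn`

`dq_isLUB` for `f = dft (mun a n) (mun c n) (Vn W n)` and `T = 1 + 2 y n^(-1/3)`, multiplied by `n^(1/6)`, with the
substitution `s = 2 x n^(-1/3)`.
-/

set_option autoImplicit false

open MeasureTheory ProbabilityTheory Filter Topology

namespace Pool.Agent.DLM

private lemma hni_dft_cont {V : ℝ → ℝ} (hV : Continuous V) (a c : ℝ) : Continuous (dft a c V) := by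
  have h1 : dft a c V = fun s => V s + (a * min s 0 + c * max s 0) := by
    funext s
    simp only [dft]
    split_ifs with h
    · rw [min_eq_left h.le, max_eq_right h.le]; ring
    · rw [min_eq_right (not_lt.1 h), max_eq_left (not_lt.1 h)]; ring
  rw [h1]
  fun_prop

private lemma hni_alg {n : ℕ} (hn : 1 ≤ n) (a c : ℝ) (B : ℕ → ℝ → ℝ) (W : ℝ → ℝ) (x y : ℝ) :
    (n : ℝ) ^ (1 / 6 : ℝ) * (dft (mun a n) (mun c n) (Vn W n) (2 * x * (n : ℝ) ^ (-(1 / 3) : ℝ)) +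
      lpp B n (2 * x * (n : ℝ) ^ (-(1 / 3) : ℝ)) (1 + 2 * y * (n : ℝ) ^ (-(1 / 3) : ℝ)) -
      2 * √(n : ℝ) - 2 * y * (n : ℝ) ^ (1 / 6 : ℝ)) = dft (2 * a) (2 * c) W x + Sn B n x y := by
  have hn0 : (0 : ℝ) < n := by exact_mod_cast hn
  set m : ℝ := (n : ℝ) ^ (1 / 6 : ℝ) with hm
  have hm0 : 0 < m := Real.rpow_pos_of_pos hn0 _
  have e1 : (n : ℝ) ^ (1 / 3 : ℝ) = m ^ 2 := by
    rw [hm, ← Real.rpow_natCast, ← Real.rpow_mul hn0.le]; norm_num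
  have e2 : (n : ℝ) ^ (-(1 / 3) : ℝ) = (m ^ 2)⁻¹ := by
    rw [Real.rpow_neg hn0.le, e1]
  have e3 : (n : ℝ) ^ (-(1 / 6) : ℝ) = m⁻¹ := by
    rw [Real.rpow_neg hn0.le]
  have e4 : √(n : ℝ) = m ^ 3 := by
    rw [Real.sqrt_eq_rpow, hm, ← Real.rpow_natCast, ← Real.rpow_mul hn0.le]; norm_num
  have hs : (2 * x * (m ^ 2)⁻¹ < 0) ↔ x < 0 := by
    rw [mul_neg_iff]
    have : 0 < (m ^ 2)⁻¹ := by positivity
    constructor
    · rintro (⟨_, h⟩ | ⟨h, _⟩)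
      · linarith
      · linarith
    · intro h
      exact Or.inr ⟨by linarith, this⟩
  have hx : 2 * x * (m ^ 2)⁻¹ * m ^ 2 / 2 = x := by field_simp
  simp only [dft, Vn, mun, Sn, e1, e2, e3, e4, hx, ← hm, hs]
  split_ifs with h
  · field_simp
    ring
  · field_simp
    ring

theorem hn_isLUB {Ω : Type*} [MeasurableSpace Ω] {P : Measure Ω} [IsProbabilityMeasure P] {S : ℝ → ℝ → Ω → ℝ}
    {B : ℕ → ℕ → ℝ → Ω → ℝ} {W : ℝ → Ω → ℝ} (h : Cpl P S B W) (a c : ℝ) : ∀ᶠ n : ℕ in atTop,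
    ∀ᵐ ω ∂P, ∀ y : ℝ,
      IsLUB {w | ∃ x : ℝ, 2 * x * (n : ℝ) ^ (-(1 / 3) : ℝ) ≤ 1 + 2 * y * (n : ℝ) ^ (-(1 / 3) : ℝ) ∧
        w = dft (2 * a) (2 * c) (fun t => W t ω) x + Sn (fun i t => B n i t ω) n x y}
        (Hn a c (fun n i t => B n i t ω) (fun t => W t ω) n y) := by
  filter_upwards [hn_bdd h a c, eventually_ge_atTop 1] with n hb hn
  filter_upwards [hb, h.wbm.cont, ae_all_iff.2 fun i => (h.bm n i).cont] with ω hω hW hB y
  have hn0 : (0 : ℝ) < n := by exact_mod_cast hn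
  have hm0 : 0 < (n : ℝ) ^ (1 / 6 : ℝ) := Real.rpow_pos_of_pos hn0 _
  have hm3 : 0 < (n : ℝ) ^ (-(1 / 3) : ℝ) := Real.rpow_pos_of_pos hn0 _
  have hV : Continuous (Vn (fun t => W t ω) n) := by
    have h1 : Continuous fun s : ℝ => W (s * (n : ℝ) ^ (1 / 3 : ℝ) / 2) ω := hW.comp (by fun_prop)
    exact continuous_const.mul h1
  have hL := dq_isLUB hB n hn (hni_dft_cont hV (mun a n) (mun c n)) hω (1 + 2 * y * (n : ℝ) ^ (-(1 / 3) : ℝ))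
  constructor
  · rintro w ⟨x, hx, rfl⟩
    rw [← hni_alg hn a c (fun i t => B n i t ω) (fun t => W t ω) x y, Hn]
    refine mul_le_mul_of_nonneg_left ?_ hm0.le
    have h2 := hL.1 ⟨_, hx, rfl⟩
    linarith
  · intro M hM
    rw [Hn]
    have h3 : dq (fun i t => B n i t ω) n (dft (mun a n) (mun c n) (Vn (fun t => W t ω) n))
        (1 + 2 * y * (n : ℝ) ^ (-(1 / 3) : ℝ)) ≤
        M / (n : ℝ) ^ (1 / 6 : ℝ) + 2 * √(n : ℝ) + 2 * y * (n : ℝ) ^ (1 / 6 : ℝ) := by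
      apply hL.2
      rintro w ⟨s, hs, rfl⟩
      have e : 2 * (s / (2 * (n : ℝ) ^ (-(1 / 3) : ℝ))) * (n : ℝ) ^ (-(1 / 3) : ℝ) = s := by field_simp
      have h4 := hM ⟨s / (2 * (n : ℝ) ^ (-(1 / 3) : ℝ)), by rw [e]; exact hs, rfl⟩
      rw [← hni_alg hn a c (fun i t => B n i t ω) (fun t => W t ω) _ y, e] at h4
      rw [mul_comm, ← le_div_iff₀ hm0] at h4
      linarith
    have h5 : M = (n : ℝ) ^ (1 / 6 : ℝ) * (M / (n : ℝ) ^ (1 / 6 : ℝ)) := by field_simp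
    rw [h5]
    refine mul_le_mul_of_nonneg_left ?_ hm0.le
    linarith

end Pool.Agent.DLM
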