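import Pool.Agent.DLM.HNM
import Pool.Agent.DLM.HNI

/-!
# DLM/HLO: localisation (100-150 lines)

`loc_n`: for `R ≤ |x|`, `-K ≤ dft (2a)(2c) W x + Sn x y`: if `x ≥ 0`: `dft (2a)(2c) W x = dft (2(c+2))(2(c+1)) W x - 2 x`, so `Hn (c+2) (c+1) ≥ -K + 2R` by `hn_isLUB`, and `E exp(Hn (c+2) (c+1)) → exp(..)` (`hn_moment`, `a' - c' = 1`), Markov.  If `x < 0`: `dft (2a)(2c) W x = dft (2(a-1)) (2(a-2)) W x - 2|x|`,
`Hn (a-1) (a-2) ≥ -K + 2R`.  `C` = sum of the two limits plus one (each `∫⁻ ≤ limit + 1/2` eventually).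
`loc_s`: for `R' > R`: `P(∃ x, R ≤ |x| ≤ R', -K ≤ dft W x + S x y) ≤ P(∃ x, R ≤ |x|, -K - 1 ≤ dft W x + Sn x y) + P(∃ x y, |x|, |y| ≤ max R' |y|, |Sn - S| > 1)`, let `n → ∞`: `≤ C exp(K + 1 - 2R)`; then `R' → ∞` (increasing union; countable).  `x` with `|x| ≤ R'` is admissible for `n` large.
`hs_bdd`: by `loc_s` with `K = 0`, `R → ∞`: a.s. there is `R` with `dft W x + S x y < 0` for `|x| ≥ R`; continuity on `[-R, R]`.
-/

set_option autoImplicit false

open MeasureTheory ProbabilityTheory Filter Topology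

namespace Pool.Agent.DLM

/-- measurability of the values of `dq` -/
theorem hlo_dq_meas {Ω : Type*} [MeasurableSpace Ω] (n : ℕ) {B : ℕ → ℝ → Ω → ℝ} (hB : ∀ i t, Measurable (B i t)) :
    ∀ {f : ℝ → Ω → ℝ}, (∀ t, Measurable (f t)) → ∀ t : ℝ,
      Measurable fun ω => dq (fun i s => B i s ω) n (fun s => f s ω) t := by
  induction n with
  | zero => intro f hf t; simpa [dq] using hf t
  | succ n ih =>
    intro f hf t
    have h1 : ∀ t : ℝ, Measurable fun ω => que (fun s => f s ω) (fun s => B n s ω) t := by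
      intro t
      unfold que rmx
      exact (hB n t).add (Measurable.iSup fun q : ℚ => (hf _).sub (hB n _))
    exact ih (f := fun s ω => que (fun s => f s ω) (fun s => B n s ω) s) h1 t

/-- measurability of `Hn` -/
theorem hlo_hn_meas {Ω : Type*} [MeasurableSpace Ω] {B : ℕ → ℕ → ℝ → Ω → ℝ} {W : ℝ → Ω → ℝ}
    (hB : ∀ n i t, Measurable (B n i t)) (hW : ∀ t, Measurable (W t)) (a c : ℝ) (n : ℕ) (y : ℝ) :
    Measurable fun ω => Hn a c (fun n i t => B n i t ω) (fun t => W t ω) n y := by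
  unfold Hn
  have h1 : ∀ s : ℝ, Measurable fun ω => dft (mun a n) (mun c n) (Vn (fun t => W t ω) n) s := by
    intro s
    unfold dft Vn
    exact ((hW _).const_mul _).add measurable_const
  have h2 := hlo_dq_meas n (B := B n) (hB n)
    (f := fun s ω => dft (mun a n) (mun c n) (Vn (fun t => W t ω) n) s) h1
    (1 + 2 * y * (n : ℝ) ^ (-(1 / 3) : ℝ))
  exact ((h2.sub_const _).sub_const _).const_mul _

private theorem dft_cont {f : ℝ → ℝ} (hf : Continuous f) (a c : ℝ) : Continuous (dft a c f) := by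
  unfold dft
  refine hf.add ?_
  have h : (fun s : ℝ => (if s < 0 then a else c) * s) = fun s : ℝ => a * min s 0 + c * max s 0 := by
    funext s
    split_ifs with h
    · rw [min_eq_left h.le, max_eq_right h.le]; ring
    · push Not at h
      rw [min_eq_right h, max_eq_left h]; ring
  rw [h]
  fun_prop

private theorem markov_exp {Ω : Type*} [MeasurableSpace Ω] {P : Measure Ω} {H : Ω → ℝ} (hH : Measurable H) {M : ℝ}
    (hM : ∫⁻ ω, ENNReal.ofReal (Real.exp (H ω)) ∂P ≤ ENNReal.ofReal M) (t : ℝ) :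
    P {ω | t ≤ H ω} ≤ ENNReal.ofReal (M * Real.exp (-t)) := by
  have h1 := mul_meas_ge_le_lintegral₀ (μ := P) (f := fun ω => ENNReal.ofReal (Real.exp (H ω)))
    (by fun_prop) (ENNReal.ofReal (Real.exp t))
  have h2 : {ω | ENNReal.ofReal (Real.exp t) ≤ ENNReal.ofReal (Real.exp (H ω))} = {ω | t ≤ H ω} := by
    ext ω
    simp only [Set.mem_ofPred_eq]
    rw [ENNReal.ofReal_le_ofReal_iff (Real.exp_pos _).le, Real.exp_le_exp]
  rw [h2] at h1
  have h3 : P {ω | t ≤ H ω} = ENNReal.ofReal (Real.exp (-t)) * (ENNReal.ofReal (Real.exp t) * P {ω | t ≤ H ω}) := by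
    rw [← mul_assoc, ← ENNReal.ofReal_mul (Real.exp_pos _).le, ← Real.exp_add]
    simp
  rw [h3, mul_comm M, ENNReal.ofReal_mul (Real.exp_pos _).le]
  gcongr
  exact h1.trans hM

variable {Ω : Type*} [MeasurableSpace Ω] {P : Measure Ω} [IsProbabilityMeasure P] {S : ℝ → ℝ → Ω → ℝ}
  {B : ℕ → ℕ → ℝ → Ω → ℝ} {W : ℝ → Ω → ℝ}

private theorem hn_tail (h : Cpl P S B W) (a y : ℝ) : ∃ M : ℝ, 0 ≤ M ∧ ∀ᶠ n : ℕ in atTop, ∀ t : ℝ,
    P {ω | t ≤ Hn (a + 1) a (fun n i t => B n i t ω) (fun t => W t ω) n y} ≤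
      ENNReal.ofReal (M * Real.exp (-t)) := by
  have h1 := hn_moment h (a + 1) a y
  set L : ℝ := Real.exp (((a + 1) ^ 3 - a ^ 3) / 3 + y * ((a + 1) ^ 2 - a ^ 2)) with hL
  have hLp : 0 < L := Real.exp_pos _
  refine ⟨L + 1, by positivity, ?_⟩
  have h2 : ENNReal.ofReal L < ENNReal.ofReal (L + 1) := by
    rw [ENNReal.ofReal_lt_ofReal_iff (by positivity)]; linarith
  filter_upwards [h1.eventually_lt_const h2] with n hn t
  have h3 := markov_exp (P := P)
    (hlo_hn_meas (fun n i t => (h.bm n i).meas t) (fun t => h.wbm.meas t) (a + 1) a n y) (M := L + 1) ?_ t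
  · exact h3
  · refine le_trans (le_of_eq ?_) hn.le
    congr 1
    funext ω
    congr 2
    ring

theorem loc_n (h : Cpl P S B W) (a c y : ℝ) : ∃ C : ℝ, 0 ≤ C ∧ ∀ᶠ n : ℕ in atTop, ∀ K R : ℝ, 0 ≤ R →
    P {ω | ∃ x : ℝ, R ≤ |x| ∧ 2 * x * (n : ℝ) ^ (-(1 / 3) : ℝ) ≤ 1 + 2 * y * (n : ℝ) ^ (-(1 / 3) : ℝ) ∧
      -K ≤ dft (2 * a) (2 * c) (fun t => W t ω) x + Sn (fun i t => B n i t ω) n x y} ≤
      ENNReal.ofReal (C * Real.exp (K - 2 * R)) := by
  obtain ⟨M₁, hM₁, h₁⟩ := hn_tail h (c + 1) y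
  obtain ⟨M₂, hM₂, h₂⟩ := hn_tail h (a - 2) y
  refine ⟨M₁ + M₂, by positivity, ?_⟩
  filter_upwards [h₁, h₂, hn_isLUB h (c + 1 + 1) (c + 1), hn_isLUB h (a - 2 + 1) (a - 2)] with n h₁ h₂ l₁ l₂ K R hR
  have hsub : ∀ᵐ ω ∂P, ω ∈ {ω | ∃ x : ℝ, R ≤ |x| ∧
      2 * x * (n : ℝ) ^ (-(1 / 3) : ℝ) ≤ 1 + 2 * y * (n : ℝ) ^ (-(1 / 3) : ℝ) ∧
      -K ≤ dft (2 * a) (2 * c) (fun t => W t ω) x + Sn (fun i t => B n i t ω) n x y} →
      ω ∈ ({ω | 2 * R - K ≤ Hn (c + 1 + 1) (c + 1) (fun n i t => B n i t ω) (fun t => W t ω) n y} ∪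
        {ω | 2 * R - K ≤ Hn (a - 2 + 1) (a - 2) (fun n i t => B n i t ω) (fun t => W t ω) n y}) := by
    filter_upwards [l₁, l₂] with ω l₁ l₂ hω
    obtain ⟨x, hx, hadm, hK⟩ := hω
    rcases le_or_gt 0 x with h0 | h0
    · left
      have h3 := (l₁ y).1 ⟨x, hadm, rfl⟩
      have h4 : dft (2 * a) (2 * c) (fun t => W t ω) x =
          dft (2 * (c + 1 + 1)) (2 * (c + 1)) (fun t => W t ω) x - 2 * x := by
        unfold dft
        rw [if_neg (not_lt.mpr h0), if_neg (not_lt.mpr h0)]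
        ring
      rw [h4] at hK
      rw [abs_of_nonneg h0] at hx
      simp only [Set.mem_ofPred_eq]
      linarith
    · right
      have h3 := (l₂ y).1 ⟨x, hadm, rfl⟩
      have h4 : dft (2 * a) (2 * c) (fun t => W t ω) x =
          dft (2 * (a - 2 + 1)) (2 * (a - 2)) (fun t => W t ω) x + 2 * x := by
        unfold dft
        rw [if_pos h0, if_pos h0]
        ring
      rw [h4] at hK
      rw [abs_of_neg h0] at hx
      simp only [Set.mem_ofPred_eq]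
      linarith
  refine (measure_mono_ae hsub).trans ((measure_union_le _ _).trans ?_)
  rw [add_mul, ENNReal.ofReal_add (by positivity) (by positivity)]
  refine add_le_add ((h₁ _).trans (le_of_eq ?_)) ((h₂ _).trans (le_of_eq ?_)) <;>
  · congr 3
    ring

private theorem adm_ev (R y : ℝ) : ∀ᶠ n : ℕ in atTop, ∀ x : ℝ, |x| ≤ R →
    2 * x * (n : ℝ) ^ (-(1 / 3) : ℝ) ≤ 1 + 2 * y * (n : ℝ) ^ (-(1 / 3) : ℝ) := by
  have h1 : Tendsto (fun n : ℕ => (n : ℝ) ^ (-(1 / 3) : ℝ)) atTop (𝓝 0) :=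
    (tendsto_rpow_neg_atTop (by norm_num : (0 : ℝ) < 1 / 3)).comp tendsto_natCast_atTop_atTop
  have h2 : Tendsto (fun n : ℕ => (2 * (|R| + |y|)) * (n : ℝ) ^ (-(1 / 3) : ℝ)) atTop (𝓝 (2 * (|R| + |y|) * 0)) :=
    h1.const_mul _
  rw [mul_zero] at h2
  filter_upwards [h2.eventually_lt_const one_pos] with n hn x hx
  have h3 : 0 ≤ (n : ℝ) ^ (-(1 / 3) : ℝ) := by positivity
  have h4 : x - y ≤ |R| + |y| := by
    have := le_abs_self x
    have := neg_abs_le y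
    have := le_abs_self R
    linarith
  nlinarith

theorem loc_s (h : Cpl P S B W) (a c y : ℝ) : ∃ C : ℝ, 0 ≤ C ∧ ∀ K R : ℝ, 0 ≤ R →
    P {ω | ∃ x : ℝ, R ≤ |x| ∧ -K ≤ dft (2 * a) (2 * c) (fun t => W t ω) x + S x y ω} ≤
      ENNReal.ofReal (C * Real.exp (K - 2 * R)) := by
  obtain ⟨C, hC, hn⟩ := loc_n h a c y
  refine ⟨C * Real.exp 1, by positivity, fun K R hR => ?_⟩
  have key : ∀ R' : ℝ, P {ω | ∃ x : ℝ, |x| ≤ R' ∧ R ≤ |x| ∧
      -K ≤ dft (2 * a) (2 * c) (fun t => W t ω) x + S x y ω} ≤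
      ENNReal.ofReal (C * Real.exp 1 * Real.exp (K - 2 * R)) := by
    intro R'
    have hlim := h.lim (max R' |y|) 1 one_pos
    have hev : ∀ᶠ n : ℕ in atTop, P {ω | ∃ x : ℝ, |x| ≤ R' ∧ R ≤ |x| ∧
        -K ≤ dft (2 * a) (2 * c) (fun t => W t ω) x + S x y ω} ≤
        ENNReal.ofReal (C * Real.exp 1 * Real.exp (K - 2 * R)) +
        P {ω | ∃ x y_1 : ℝ, |x| ≤ max R' |y| ∧ |y_1| ≤ max R' |y| ∧
          1 < |Sn (fun i t => B n i t ω) n x y_1 - S x y_1 ω|} := by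
      filter_upwards [hn, adm_ev R' y] with n hn hadm
      have h5 := hn (K + 1) R hR
      have h6 : C * Real.exp (K + 1 - 2 * R) = C * Real.exp 1 * Real.exp (K - 2 * R) := by
        rw [mul_assoc, ← Real.exp_add]
        congr 2
        ring
      rw [h6] at h5
      refine le_trans ?_ (add_le_add_left h5 _)
      refine le_trans (measure_mono ?_) (measure_union_le _ _)
      intro ω hω
      obtain ⟨x, hxR', hxR, hK⟩ := hω
      by_cases hb : |Sn (fun i t => B n i t ω) n x y - S x y ω| ≤ 1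
      · left
        refine ⟨x, hxR, hadm x hxR', ?_⟩
        have := (abs_le.mp hb).1
        linarith
      · right
        push Not at hb
        exact ⟨x, y, hxR'.trans (le_max_left _ _), le_max_right _ _, hb⟩
    have h7 : Tendsto (fun n : ℕ => ENNReal.ofReal (C * Real.exp 1 * Real.exp (K - 2 * R)) +
        P {ω | ∃ x y_1 : ℝ, |x| ≤ max R' |y| ∧ |y_1| ≤ max R' |y| ∧
          1 < |Sn (fun i t => B n i t ω) n x y_1 - S x y_1 ω|}) atTop
        (𝓝 (ENNReal.ofReal (C * Real.exp 1 * Real.exp (K - 2 * R)) + 0)) := hlim.const_add _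
    rw [add_zero] at h7
    exact ge_of_tendsto h7 hev
  have hU : {ω | ∃ x : ℝ, R ≤ |x| ∧ -K ≤ dft (2 * a) (2 * c) (fun t => W t ω) x + S x y ω} =
      ⋃ j : ℕ, {ω | ∃ x : ℝ, |x| ≤ (j : ℝ) ∧ R ≤ |x| ∧
        -K ≤ dft (2 * a) (2 * c) (fun t => W t ω) x + S x y ω} := by
    ext ω
    simp only [Set.mem_iUnion, Set.mem_ofPred_eq]
    constructor
    · rintro ⟨x, hx, hK⟩
      obtain ⟨j, hj⟩ := exists_nat_ge |x|
      exact ⟨j, x, hj, hx, hK⟩
    · rintro ⟨j, x, -, hx, hK⟩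
      exact ⟨x, hx, hK⟩
  rw [hU, Monotone.measure_iUnion]
  · exact iSup_le fun j => key j
  · intro i j hij ω hω
    obtain ⟨x, hx, hrest⟩ := hω
    exact ⟨x, hx.trans (by exact_mod_cast hij), hrest⟩

theorem hs_bdd (h : Cpl P S B W) (a c y : ℝ) :
    ∀ᵐ ω ∂P, BddAbove (Set.range fun x : ℝ => dft (2 * a) (2 * c) (fun t => W t ω) x + S x y ω) := by
  obtain ⟨C, hC, hs⟩ := loc_s h a c y
  have hz : P {ω | ∀ j : ℕ, ∃ x : ℝ, (j : ℝ) ≤ |x| ∧
      -0 ≤ dft (2 * a) (2 * c) (fun t => W t ω) x + S x y ω} = 0 := by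
    have h1 : ∀ j : ℕ, P {ω | ∀ j : ℕ, ∃ x : ℝ, (j : ℝ) ≤ |x| ∧
        -0 ≤ dft (2 * a) (2 * c) (fun t => W t ω) x + S x y ω} ≤
        ENNReal.ofReal (C * Real.exp (0 - 2 * (j : ℝ))) := by
      intro j
      refine (measure_mono ?_).trans (hs 0 j (Nat.cast_nonneg j))
      intro ω hω
      rw [Set.mem_ofPred_eq] at hω
      exact hω j
    have h2 : Tendsto (fun j : ℕ => ENNReal.ofReal (C * Real.exp (0 - 2 * (j : ℝ)))) atTop (𝓝 0) := by
      rw [← ENNReal.ofReal_zero]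
      refine ENNReal.tendsto_ofReal ?_
      have h3 : Tendsto (fun j : ℕ => Real.exp (0 - 2 * (j : ℝ))) atTop (𝓝 0) := by
        refine Real.tendsto_exp_atBot.comp ?_
        have h4 : Tendsto (fun j : ℕ => 2 * (j : ℝ)) atTop atTop :=
          tendsto_natCast_atTop_atTop.const_mul_atTop (by norm_num)
        have h5 := tendsto_neg_atTop_atBot.comp h4
        refine h5.congr fun j => ?_
        simp
      simpa using h3.const_mul C
    exact le_antisymm (ge_of_tendsto' h2 h1) zero_le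
  have hz' : ∀ᵐ ω ∂P, ¬ ∀ j : ℕ, ∃ x : ℝ, (j : ℝ) ≤ |x| ∧
      -0 ≤ dft (2 * a) (2 * c) (fun t => W t ω) x + S x y ω := by
    rw [ae_iff]
    simpa using hz
  filter_upwards [hz', h.cont, h.wbm.cont] with ω hω hS hW
  push Not at hω
  obtain ⟨j, hj⟩ := hω
  have hcont : Continuous fun x : ℝ => dft (2 * a) (2 * c) (fun t => W t ω) x + S x y ω := by
    refine (dft_cont hW _ _).add ?_
    exact hS.comp (f := fun x : ℝ => (x, y)) (by fun_prop)
  obtain ⟨b, hb⟩ := (isCompact_Icc (a := -(j : ℝ)) (b := (j : ℝ))).bddAbove_image hcont.continuousOn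
  refine ⟨max b 0, ?_⟩
  rintro _ ⟨x, rfl⟩
  rcases le_or_gt |x| (j : ℝ) with hx | hx
  · exact (hb ⟨x, abs_le.mp hx, rfl⟩).trans (le_max_left _ _)
  · have := hj x hx.le
    simp only [neg_zero] at this
    exact this.le.trans (le_max_right _ _)

private theorem lub_rat {f : ℝ → ℝ} (hf : Continuous f) (hb : BddAbove (Set.range f)) :
    IsLUB (Set.range f) (⨆ q : ℚ, f q) := by
  have hbq : BddAbove (Set.range fun q : ℚ => f q) := by
    refine hb.mono ?_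
    rintro _ ⟨q, rfl⟩
    exact ⟨q, rfl⟩
  constructor
  · rintro _ ⟨x, rfl⟩
    have hcl : IsClosed {x : ℝ | f x ≤ ⨆ q : ℚ, f q} := isClosed_le hf continuous_const
    have hd : Dense (Set.range ((↑) : ℚ → ℝ)) := Rat.denseRange_cast
    have hsub : Set.range ((↑) : ℚ → ℝ) ⊆ {x : ℝ | f x ≤ ⨆ q : ℚ, f q} := by
      rintro _ ⟨q, rfl⟩
      exact le_ciSup hbq q
    have := hcl.closure_subset_iff.mpr hsub
    rw [hd.closure_eq] at this
    exact this (Set.mem_univ x)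
  · intro b hb'
    exact ciSup_le fun q => hb' ⟨q, rfl⟩

/-- the supremum over the rationals is the supremum over the reals -/
theorem hs_isLUB (h : Cpl P S B W) (a c y : ℝ) :
    ∀ᵐ ω ∂P, IsLUB (Set.range fun x : ℝ => dft (2 * a) (2 * c) (fun t => W t ω) x + S x y ω)
      (Hs a c (fun x y => S x y ω) (fun t => W t ω) y) := by
  filter_upwards [hs_bdd h a c y, h.cont, h.wbm.cont] with ω hb hS hW
  have hcont : Continuous fun x : ℝ => dft (2 * a) (2 * c) (fun t => W t ω) x + S x y ω := by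
    refine (dft_cont hW _ _).add ?_
    exact hS.comp (f := fun x : ℝ => (x, y)) (by fun_prop)
  exact lub_rat hcont hb

end Pool.Agent.DLM
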