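import Pool.Agent.DLM.HLO

/-!
# DLM/HNC: convergence in probability of `Hn` to `Hs` (80-120 lines)

Fix `ε, η > 0`.  Choose `K` with `P(S 0 y < -K + 1) < η`, then `R ≥ 1` with `C exp(K - 2R) < η` for both constants (`loc_n`, `loc_s`).  For `n` large outside an event of probability `≤ 4η`: `|Sn x y - S x y| ≤ min ε 1/2` for `|x| ≤ R`; `S 0 y ≥ -K + 1` so `Sn 0 y ≥ -K + 1/2`; for `|x| ≥ R`: `dft W x + Sn x y < -K`,
`dft W x + S x y < -K`.  Hence both suprema are suprema over `|x| ≤ R` (the value at `x = 0` is larger than `-K`; `W 0 = 0` a.s.), and differ by at most `ε`.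
-/

set_option autoImplicit false

open MeasureTheory ProbabilityTheory Filter Topology

namespace Pool.Agent.DLM

private theorem hnc_exp (C K δ : ℝ) (hδ : 0 < δ) : ∀ᶠ R : ℝ in atTop, C * Real.exp (K - 2 * R) ≤ δ := by
  have h1 : Tendsto (fun R : ℝ => K - 2 * R) atTop atBot := by
    have h2 : Tendsto (fun R : ℝ => 2 * R) atTop atTop := tendsto_id.const_mul_atTop (by norm_num)
    exact tendsto_atBot_add_const_left _ _ (tendsto_neg_atTop_atBot.comp h2)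
  have h2 : Tendsto (fun R : ℝ => C * Real.exp (K - 2 * R)) atTop (𝓝 (C * 0)) :=
    (Real.tendsto_exp_atBot.comp h1).const_mul C
  rw [mul_zero] at h2
  exact (h2.eventually (Iio_mem_nhds hδ)).mono fun R hR => le_of_lt hR

private theorem hnc_K {Ω : Type*} [MeasurableSpace Ω] {P : Measure Ω} [IsProbabilityMeasure P] {X : Ω → ℝ}
    (hX : Measurable X) {δ : ENNReal} (hδ : 0 < δ) : ∃ K : ℝ, P {ω | X ω < -K + 1} ≤ δ := by
  have hm : Antitone fun k : ℕ => {ω | X ω < -(k : ℝ) + 1} := by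
    intro i j hij ω hω
    have h1 : X ω < -(j : ℝ) + 1 := hω
    have h2 : (i : ℝ) ≤ j := Nat.cast_le.2 hij
    show X ω < -(i : ℝ) + 1
    linarith
  have ht := tendsto_measure_iInter_atTop (μ := P) (s := fun k : ℕ => {ω | X ω < -(k : ℝ) + 1})
    (fun k => (measurableSet_lt hX measurable_const).nullMeasurableSet) hm ⟨0, measure_ne_top _ _⟩
  have he : (⋂ k : ℕ, {ω | X ω < -(k : ℝ) + 1}) = ∅ := by
    ext ω
    simp only [Set.mem_iInter, Set.mem_empty_iff_false, iff_false, not_forall]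
    obtain ⟨k, hk⟩ := exists_nat_gt (1 - X ω)
    refine ⟨k, fun h1 => ?_⟩
    have h2 : X ω < -(k : ℝ) + 1 := h1
    linarith
  rw [he, measure_empty] at ht
  obtain ⟨k, hk⟩ := ((ENNReal.tendsto_nhds_zero.1 ht) δ hδ).exists
  exact ⟨k, hk⟩

private theorem hnc_adm (R y : ℝ) : ∀ᶠ n : ℕ in atTop, ∀ x : ℝ, |x| ≤ R →
    2 * x * (n : ℝ) ^ (-(1 / 3) : ℝ) ≤ 1 + 2 * y * (n : ℝ) ^ (-(1 / 3) : ℝ) := by
  have h1 : Tendsto (fun n : ℕ => (n : ℝ) ^ (-(1 / 3) : ℝ)) atTop (𝓝 0) :=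
    (tendsto_rpow_neg_atTop (by norm_num)).comp tendsto_natCast_atTop_atTop
  have h2 : Tendsto (fun n : ℕ => 2 * (R + |y|) * (n : ℝ) ^ (-(1 / 3) : ℝ)) atTop (𝓝 (2 * (R + |y|) * 0)) :=
    h1.const_mul _
  rw [mul_zero] at h2
  filter_upwards [h2.eventually (Iio_mem_nhds one_pos)] with n hn x hx
  have h3 : 2 * (R + |y|) * (n : ℝ) ^ (-(1 / 3) : ℝ) < 1 := hn
  have h4 : 0 ≤ (n : ℝ) ^ (-(1 / 3) : ℝ) := Real.rpow_nonneg (Nat.cast_nonneg _) _
  have h5 : x - y ≤ R + |y| := by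
    have := (abs_le.1 hx).2
    have := neg_abs_le y
    linarith
  nlinarith [mul_le_mul_of_nonneg_right h5 h4]

theorem hn_tendsto {Ω : Type*} [MeasurableSpace Ω] {P : Measure Ω} [IsProbabilityMeasure P] {S : ℝ → ℝ → Ω → ℝ}
    {B : ℕ → ℕ → ℝ → Ω → ℝ} {W : ℝ → Ω → ℝ} (h : Cpl P S B W) (a c y : ℝ) (ε : ℝ) (hε : 0 < ε) :
    Tendsto (fun n : ℕ => P {ω | ε < |Hn a c (fun n i t => B n i t ω) (fun t => W t ω) n y -
      Hs a c (fun x y => S x y ω) (fun t => W t ω) y|}) atTop (𝓝 0) := by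
  rw [ENNReal.tendsto_nhds_zero]
  intro η hη
  have hη4 : 0 < η / 4 := ENNReal.div_pos hη.ne' (by norm_num)
  obtain ⟨δ, hδ0, hδ⟩ := ENNReal.lt_iff_exists_nnreal_btwn.1 hη4
  have hδ' : (0 : ℝ) < δ := by exact_mod_cast hδ0
  have hofδ : ENNReal.ofReal (δ : ℝ) = δ := ENNReal.ofReal_coe_nnreal
  obtain ⟨K, hK⟩ := hnc_K (P := P) (h.meas 0 y) hδ0
  obtain ⟨C1, hC1, hl1⟩ := loc_n h a c y
  obtain ⟨C2, hC2, hl2⟩ := loc_s h a c y
  obtain ⟨R, hR1, hR2, hR3, hR4⟩ := ((hnc_exp C1 K δ hδ').and ((hnc_exp C2 K δ hδ').and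
    ((eventually_ge_atTop (0 : ℝ)).and (eventually_ge_atTop |y|)))).exists
  have hε' : 0 < min ε (1 / 2) := lt_min hε (by norm_num)
  have hlim := ENNReal.tendsto_nhds_zero.1 (h.lim R (min ε (1 / 2)) hε') δ hδ0
  filter_upwards [hl1, hlim, hn_isLUB h a c, hnc_adm R y] with n hn1 hn2 hn3 hn4
  have hA : {ω | ε < |Hn a c (fun n i t => B n i t ω) (fun t => W t ω) n y -
      Hs a c (fun x y => S x y ω) (fun t => W t ω) y|} ≤ᵐ[P]
      ((({ω | S 0 y ω < -K + 1} ∪ {ω | ∃ x : ℝ, R ≤ |x| ∧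
        2 * x * (n : ℝ) ^ (-(1 / 3) : ℝ) ≤ 1 + 2 * y * (n : ℝ) ^ (-(1 / 3) : ℝ) ∧
        -K ≤ dft (2 * a) (2 * c) (fun t => W t ω) x + Sn (fun i t => B n i t ω) n x y}) ∪
        {ω | ∃ x : ℝ, R ≤ |x| ∧ -K ≤ dft (2 * a) (2 * c) (fun t => W t ω) x + S x y ω}) ∪
        {ω | ∃ x y : ℝ, |x| ≤ R ∧ |y| ≤ R ∧ min ε (1 / 2) < |Sn (fun i t => B n i t ω) n x y - S x y ω|} : Set Ω) := by
    filter_upwards [hn3, hs_isLUB h a c y, h.wbm.zero] with ω h1 h2 h3 h4
    by_contra hbad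
    have hbad' : ω ∉ ((({ω | S 0 y ω < -K + 1} ∪ {ω | ∃ x : ℝ, R ≤ |x| ∧
        2 * x * (n : ℝ) ^ (-(1 / 3) : ℝ) ≤ 1 + 2 * y * (n : ℝ) ^ (-(1 / 3) : ℝ) ∧
        -K ≤ dft (2 * a) (2 * c) (fun t => W t ω) x + Sn (fun i t => B n i t ω) n x y}) ∪
        {ω | ∃ x : ℝ, R ≤ |x| ∧ -K ≤ dft (2 * a) (2 * c) (fun t => W t ω) x + S x y ω}) ∪
        {ω | ∃ x y : ℝ, |x| ≤ R ∧ |y| ≤ R ∧ min ε (1 / 2) < |Sn (fun i t => B n i t ω) n x y - S x y ω|} : Set Ω) :=
      hbad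
    simp only [Set.mem_union, Set.mem_ofPred_eq, not_or, not_exists, not_and, not_lt, not_le] at hbad'
    obtain ⟨⟨⟨b1, b2⟩, b3⟩, b4⟩ := hbad'
    have h5 := h1 y
    have hD0 : dft (2 * a) (2 * c) (fun t => W t ω) 0 = 0 := by
      unfold dft
      rw [if_neg (lt_irrefl _), mul_zero, add_zero]
      exact h3
    have hs0 : S 0 y ω ≤ Hs a c (fun x y => S x y ω) (fun t => W t ω) y := by
      have h6 : dft (2 * a) (2 * c) (fun t => W t ω) 0 + S 0 y ω ≤
          Hs a c (fun x y => S x y ω) (fun t => W t ω) y := h2.1 ⟨0, rfl⟩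
      rw [hD0, zero_add] at h6
      exact h6
    have hn0 : Sn (fun i t => B n i t ω) n 0 y ≤ Hn a c (fun n i t => B n i t ω) (fun t => W t ω) n y := by
      have := h5.1 ⟨0, hn4 0 (by rw [abs_zero]; exact hR3), rfl⟩
      rw [hD0, zero_add] at this
      exact this
    have b5 := abs_le.1 (b4 0 y (by rw [abs_zero]; exact hR3) hR4)
    have m1 : min ε (1 / 2) ≤ ε := min_le_left _ _
    have m2 : min ε (1 / 2) ≤ 1 / 2 := min_le_right _ _
    have u1 : Hn a c (fun n i t => B n i t ω) (fun t => W t ω) n y ≤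
        Hs a c (fun x y => S x y ω) (fun t => W t ω) y + ε := by
      refine h5.2 ?_
      rintro w ⟨x, hx, rfl⟩
      rcases le_total R |x| with hxR | hxR
      · have := b2 x hxR hx
        linarith
      · have h6 := abs_le.1 (b4 x y hxR hR4)
        have h7 : dft (2 * a) (2 * c) (fun t => W t ω) x + S x y ω ≤
            Hs a c (fun x y => S x y ω) (fun t => W t ω) y := h2.1 ⟨x, rfl⟩
        linarith
    have u2 : Hs a c (fun x y => S x y ω) (fun t => W t ω) y ≤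
        Hn a c (fun n i t => B n i t ω) (fun t => W t ω) n y + ε := by
      refine h2.2 ?_
      rintro w ⟨x, rfl⟩
      show dft (2 * a) (2 * c) (fun t => W t ω) x + S x y ω ≤ _
      rcases le_total R |x| with hxR | hxR
      · have := b3 x hxR
        linarith
      · have h6 := abs_le.1 (b4 x y hxR hR4)
        have h7 : dft (2 * a) (2 * c) (fun t => W t ω) x + Sn (fun i t => B n i t ω) n x y ≤
            Hn a c (fun n i t => B n i t ω) (fun t => W t ω) n y := h5.1 ⟨x, hn4 x hxR, rfl⟩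
        linarith
    have h8 : |Hn a c (fun n i t => B n i t ω) (fun t => W t ω) n y -
      Hs a c (fun x y => S x y ω) (fun t => W t ω) y| ≤ ε := by
      rw [abs_le]
      constructor <;> linarith
    exact absurd h4 (not_lt.2 h8)
  refine (measure_mono_ae hA).trans ?_
  have c1 := (hn1 K R hR3).trans ((ENNReal.ofReal_le_ofReal hR1).trans_eq hofδ)
  have c2 := (hl2 K R hR3).trans ((ENNReal.ofReal_le_ofReal hR2).trans_eq hofδ)
  have c3 : (δ : ENNReal) + δ + δ + δ ≤ η := by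
    have h9 : (δ : ENNReal) ≤ η / 4 := hδ.le
    calc (δ : ENNReal) + δ + δ + δ ≤ η / 4 + η / 4 + η / 4 + η / 4 := by gcongr
      _ = 4 * (η / 4) := by ring
      _ = η := ENNReal.mul_div_cancel (by norm_num) (by norm_num)
  refine (measure_union_le _ _).trans (le_trans (add_le_add ?_ hn2) c3)
  refine (measure_union_le _ _).trans (add_le_add ?_ c2)
  exact (measure_union_le _ _).trans (add_le_add hK c1)

end Pool.Agent.DLM
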