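import Pool.Agent.DLM.VNB

/-!
# DLM/HNM: convergence of the moments (60-100 lines)

`mom_lim` (analysis): put `u = a n^(-1/3)`, `v = c n^(-1/3)`: `mun a n = √n (1 + u)`, and the exponent is `n (log(1+u) - log(1+v)) + n ((1+u)^2 - (1+v)^2)(1 + 2 y n^(-1/3))/2 - 2n(u - v) - 2 y n^(2/3)(u - v) = n [(log(1+u) - u + u^2/2) - (log(1+v) - v + v^2/2)] + y n^(2/3)(u^2 - v^2)`,
and `n (log(1+u) - u + u^2/2) → a^3/3` (`|log(1+u) - u + u^2/2 - u^3/3| ≤ C u^4`, or `Real.hasSum`/Taylor estimate `abs_log_sub_add_sum_range_le`), `y n^(2/3)(u^2 - v^2) = y (a^2 - c^2)`.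
`hn_moment`: combine with `hn_moment_n` (`Tendsto.congr'`).
-/

set_option autoImplicit false

open MeasureTheory ProbabilityTheory Filter Topology

namespace Pool.Agent.DLM

private theorem hnm_tend : Tendsto (fun n : ℕ => (n : ℝ) ^ (-(1 / 3) : ℝ)) atTop (𝓝 0) :=
  (tendsto_rpow_neg_atTop (by norm_num : (0 : ℝ) < 1 / 3)).comp tendsto_natCast_atTop_atTop

private theorem hnm_w {n : ℕ} (hn : 1 ≤ n) :
    (n : ℝ) ^ (-(1 / 3) : ℝ) = (((n : ℝ) ^ (1 / 6 : ℝ)) ^ 2)⁻¹ := by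
  have hn0 : (0 : ℝ) < n := by exact_mod_cast hn
  rw [Real.rpow_neg hn0.le, ← Real.rpow_natCast, ← Real.rpow_mul hn0.le]
  norm_num

private theorem hnm_n {n : ℕ} (hn : 1 ≤ n) : (n : ℝ) = ((n : ℝ) ^ (1 / 6 : ℝ)) ^ 6 := by
  have hn0 : (0 : ℝ) < n := by exact_mod_cast hn
  rw [← Real.rpow_natCast, ← Real.rpow_mul hn0.le]
  norm_num

private theorem hnm_log (a : ℝ) : Tendsto (fun n : ℕ => (n : ℝ) *
    (Real.log (1 + a * (n : ℝ) ^ (-(1 / 3) : ℝ)) - a * (n : ℝ) ^ (-(1 / 3) : ℝ) +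
      (a * (n : ℝ) ^ (-(1 / 3) : ℝ)) ^ 2 / 2)) atTop (𝓝 (a ^ 3 / 3)) := by
  have h0 : Tendsto (fun n : ℕ => a * (n : ℝ) ^ (-(1 / 3) : ℝ)) atTop (𝓝 0) := by
    simpa using hnm_tend.const_mul a
  have h1 : Tendsto (fun n : ℕ => |a * (n : ℝ) ^ (-(1 / 3) : ℝ)|) atTop (𝓝 0) := by
    simpa using h0.abs
  rw [tendsto_iff_norm_sub_tendsto_zero]
  have h2 : Tendsto (fun n : ℕ => |a| ^ 4 * (n : ℝ) ^ (-(1 / 3) : ℝ) / (1 - |a * (n : ℝ) ^ (-(1 / 3) : ℝ)|))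
      atTop (𝓝 0) := by
    have := (hnm_tend.const_mul (|a| ^ 4)).div (h1.const_sub 1) (by norm_num)
    rw [mul_zero, zero_div] at this
    exact this
  refine squeeze_zero' (Eventually.of_forall fun n => norm_nonneg _) ?_ h2
  filter_upwards [h1.eventually (gt_mem_nhds (by norm_num : (0 : ℝ) < 1)), eventually_ge_atTop 1] with n hn hn1
  have hb := Real.abs_log_sub_add_sum_range_le (x := -(a * (n : ℝ) ^ (-(1 / 3) : ℝ)))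
    (by rw [abs_neg]; exact hn) 3
  rw [abs_neg] at hb
  have hn0 : (0 : ℝ) < n := by exact_mod_cast hn1
  have hw := hnm_w hn1
  have hnn := hnm_n hn1
  have hr : (0 : ℝ) < (n : ℝ) ^ (1 / 6 : ℝ) := Real.rpow_pos_of_pos hn0 _
  have e1 : (n : ℝ) * (Real.log (1 + a * (n : ℝ) ^ (-(1 / 3) : ℝ)) - a * (n : ℝ) ^ (-(1 / 3) : ℝ) +
      (a * (n : ℝ) ^ (-(1 / 3) : ℝ)) ^ 2 / 2) - a ^ 3 / 3 =
      (n : ℝ) * (∑ i ∈ Finset.range 3, (-(a * (n : ℝ) ^ (-(1 / 3) : ℝ))) ^ (i + 1) / ((i : ℝ) + 1) +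
        Real.log (1 - -(a * (n : ℝ) ^ (-(1 / 3) : ℝ)))) := by
    have e2 : (n : ℝ) * ((n : ℝ) ^ (-(1 / 3) : ℝ)) ^ 3 = 1 := by
      rw [hw]
      generalize (n : ℝ) ^ (1 / 6 : ℝ) = r at *
      rw [hnn]
      field_simp
    simp only [Finset.sum_range_succ, Finset.sum_range_zero, sub_neg_eq_add]
    push_cast
    generalize Real.log (1 + a * (n : ℝ) ^ (-(1 / 3) : ℝ)) = L
    generalize (n : ℝ) ^ (-(1 / 3) : ℝ) = w at *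
    have : a ^ 3 / 3 = a ^ 3 / 3 * ((n : ℝ) * w ^ 3) := by rw [e2, mul_one]
    rw [this]
    ring
  rw [e1, Real.norm_eq_abs, abs_mul, abs_of_pos hn0]
  have hd : 0 < 1 - |a * (n : ℝ) ^ (-(1 / 3) : ℝ)| := by linarith
  refine (mul_le_mul_of_nonneg_left hb hn0.le).trans ?_
  rw [mul_div_assoc', div_le_div_iff_of_pos_right hd, abs_mul, mul_pow,
    abs_of_pos (Real.rpow_pos_of_pos hn0 _)]
  rw [hw]
  generalize (n : ℝ) ^ (1 / 6 : ℝ) = r at *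
  rw [hnn]
  apply le_of_eq
  have hr2 : r ≠ 0 := hr.ne'
  field_simp
  norm_num
  field_simp

private theorem hnm_eq {a c y : ℝ} {n : ℕ} (hn : 1 ≤ n) (ha : 0 < 1 + a * (n : ℝ) ^ (-(1 / 3) : ℝ))
    (hc : 0 < 1 + c * (n : ℝ) ^ (-(1 / 3) : ℝ)) :
    Real.exp (((n : ℝ) * (Real.log (1 + a * (n : ℝ) ^ (-(1 / 3) : ℝ)) - a * (n : ℝ) ^ (-(1 / 3) : ℝ) +
      (a * (n : ℝ) ^ (-(1 / 3) : ℝ)) ^ 2 / 2)) -
      ((n : ℝ) * (Real.log (1 + c * (n : ℝ) ^ (-(1 / 3) : ℝ)) - c * (n : ℝ) ^ (-(1 / 3) : ℝ) +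
      (c * (n : ℝ) ^ (-(1 / 3) : ℝ)) ^ 2 / 2)) + y * (a ^ 2 - c ^ 2)) =
    (mun a n / mun c n) ^ n *
    Real.exp ((mun a n ^ 2 - mun c n ^ 2) * (1 + 2 * y * (n : ℝ) ^ (-(1 / 3) : ℝ)) / 2 -
      (a - c) * (2 * (n : ℝ) ^ (2 / 3 : ℝ) + 2 * y * (n : ℝ) ^ (1 / 3 : ℝ))) := by
  have hn0 : (0 : ℝ) < n := by exact_mod_cast hn
  have hw := hnm_w hn
  have hnn := hnm_n hn
  have hr : (0 : ℝ) < (n : ℝ) ^ (1 / 6 : ℝ) := Real.rpow_pos_of_pos hn0 _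
  have h23 : (n : ℝ) ^ (2 / 3 : ℝ) = ((n : ℝ) ^ (1 / 6 : ℝ)) ^ 4 := by
    rw [← Real.rpow_natCast, ← Real.rpow_mul hn0.le]; norm_num
  have h13 : (n : ℝ) ^ (1 / 3 : ℝ) = ((n : ℝ) ^ (1 / 6 : ℝ)) ^ 2 := by
    rw [← Real.rpow_natCast, ← Real.rpow_mul hn0.le]; norm_num
  have hs : √(n : ℝ) = ((n : ℝ) ^ (1 / 6 : ℝ)) ^ 3 := by
    rw [Real.sqrt_eq_rpow, ← Real.rpow_natCast, ← Real.rpow_mul hn0.le]; norm_num
  have hm : ∀ b : ℝ, mun b n = ((n : ℝ) ^ (1 / 6 : ℝ)) ^ 3 * (1 + b * (n : ℝ) ^ (-(1 / 3) : ℝ)) := by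
    intro b
    unfold mun
    rw [hs, hw]
    generalize (n : ℝ) ^ (1 / 6 : ℝ) = r at *
    field_simp
  have hq : (mun a n / mun c n) ^ n = Real.exp ((n : ℝ) * (Real.log (1 + a * (n : ℝ) ^ (-(1 / 3) : ℝ)) -
      Real.log (1 + c * (n : ℝ) ^ (-(1 / 3) : ℝ)))) := by
    rw [Real.exp_nat_mul, Real.exp_sub, Real.exp_log ha, Real.exp_log hc, hm, hm]
    congr 1
    field_simp
  rw [hq, ← Real.exp_add, hm a, hm c, h23, h13]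
  congr 1
  generalize Real.log (1 + a * (n : ℝ) ^ (-(1 / 3) : ℝ)) = La
  generalize Real.log (1 + c * (n : ℝ) ^ (-(1 / 3) : ℝ)) = Lc
  rw [hw]
  generalize (n : ℝ) ^ (1 / 6 : ℝ) = r at *
  rw [hnn]
  field_simp
  ring

theorem mom_lim (a c y : ℝ) : Tendsto (fun n : ℕ => (mun a n / mun c n) ^ n *
    Real.exp ((mun a n ^ 2 - mun c n ^ 2) * (1 + 2 * y * (n : ℝ) ^ (-(1 / 3) : ℝ)) / 2 -
      (a - c) * (2 * (n : ℝ) ^ (2 / 3 : ℝ) + 2 * y * (n : ℝ) ^ (1 / 3 : ℝ)))) atTop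
    (𝓝 (Real.exp ((a ^ 3 - c ^ 3) / 3 + y * (a ^ 2 - c ^ 2)))) := by
  have h := (((hnm_log a).sub (hnm_log c)).add_const (y * (a ^ 2 - c ^ 2)))
  have h2 := (Real.continuous_exp.tendsto _).comp h
  rw [show a ^ 3 / 3 - c ^ 3 / 3 = (a ^ 3 - c ^ 3) / 3 by ring] at h2
  refine h2.congr' ?_
  have ev : ∀ b : ℝ, ∀ᶠ n : ℕ in atTop, 0 < 1 + b * (n : ℝ) ^ (-(1 / 3) : ℝ) := by
    intro b
    have h0 : Tendsto (fun n : ℕ => 1 + b * (n : ℝ) ^ (-(1 / 3) : ℝ)) atTop (𝓝 (1 + b * 0)) :=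
      (hnm_tend.const_mul b).const_add 1
    exact h0.eventually (lt_mem_nhds (by norm_num))
  filter_upwards [ev a, ev c, eventually_ge_atTop 1] with n h1 h2 h3
  exact hnm_eq h3 h1 h2

theorem hn_moment {Ω : Type*} [MeasurableSpace Ω] {P : Measure Ω} [IsProbabilityMeasure P] {S : ℝ → ℝ → Ω → ℝ}
    {B : ℕ → ℕ → ℝ → Ω → ℝ} {W : ℝ → Ω → ℝ} (h : Cpl P S B W) (a c y : ℝ) :
    Tendsto (fun n : ℕ => ∫⁻ ω, ENNReal.ofReal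
      (Real.exp ((a - c) * Hn a c (fun n i t => B n i t ω) (fun t => W t ω) n y)) ∂P) atTop
      (𝓝 (ENNReal.ofReal (Real.exp ((a ^ 3 - c ^ 3) / 3 + y * (a ^ 2 - c ^ 2))))) := by
  refine (ENNReal.tendsto_ofReal (mom_lim a c y)).congr' ?_
  filter_upwards [hn_moment_n h a c y] with n hn
  exact hn.symm

end Pool.Agent.DLM
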