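import Pool.Agent.DLM.TAN
import Pool.Agent.DLM.GIR

/-!
# DLM/IDN: the moment identity (80-120 lines)

`dft a a W = W + a s` is `IsBM 1 a` (`idn_bm`).  `idn_bdd`: `dft a c W s ≤ dft a a W s + |c - a| T` for `s ≤ T` and `dbdd_le` (below), `tan_bdd`.  `dbdd_le`: induction on `n` (`que` is monotone: if `f ≤ f' + C` on `Iic T` then `que f B ≤ que f' B + C` on `Iic T`).
`idn`: `D = dq B n (dft a c W) T = Φ(stopped path, (B i)_i)` with `Φ(g, b) = dq b n g T` measurable (countable suprema of coordinates) and `dq_stop`.  `W` is independent of the lines, so the law of (stopped path, lines) is a product and by `gir`: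
`E exp((a-c) D) = E [exp((a-c) D') exp((c-a) f T - (c^2-a^2)T/2)]`, `D' = dq B n f T`, `f = dft a a W`, `= exp((a^2-c^2)T/2) E exp((a-c)(D' - f T))`, and `tan_mgf` with `μ = a`, exponent `a - c < a`: `(a/c)^n`.
-/

set_option autoImplicit false

open MeasureTheory ProbabilityTheory Filter Topology

namespace Pool.Agent.DLM

theorem dbdd_le {B : ℕ → ℝ → ℝ} (n : ℕ) {f f' : ℝ → ℝ} (h : ∀ T : ℝ, ∃ C : ℝ, ∀ s ≤ T, f s ≤ f' s + C)
    (hb : DBdd B n f') : DBdd B n f := by
  induction n generalizing f f' with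
  | zero => trivial
  | succ n ih =>
    refine ⟨fun t => ?_, ?_⟩
    · obtain ⟨C, hC⟩ := h t
      obtain ⟨M, hM⟩ := hb.1 t
      refine ⟨M + C, ?_⟩
      rintro _ ⟨q, rfl⟩
      have h1 := hM ⟨q, rfl⟩
      have h2 := hC (min (q : ℝ) t) (min_le_right _ _)
      simp only at h1 ⊢
      linarith
    · refine ih (f := que f (B n)) (f' := que f' (B n)) (fun T => ?_) hb.2
      obtain ⟨C, hC⟩ := h T
      refine ⟨C, fun s hs => ?_⟩
      have h1 : rmx (fun u => f u - B n u) s ≤ rmx (fun u => f' u - B n u) s + C := by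
        refine ciSup_le fun q => ?_
        have h2 := le_ciSup (hb.1 s) q
        have h3 := hC (min (q : ℝ) s) ((min_le_right _ _).trans hs)
        show f (min (q : ℝ) s) - B n (min (q : ℝ) s) ≤ rmx (fun u => f' u - B n u) s + C
        have h4 : f' (min (q : ℝ) s) - B n (min (q : ℝ) s) ≤ rmx (fun u => f' u - B n u) s := h2
        linarith
      unfold que
      linarith

variable {Ω : Type*} [MeasurableSpace Ω] {P : Measure Ω} [IsProbabilityMeasure P]

private theorem dft_eq (a : ℝ) (W : ℝ → ℝ) (t : ℝ) : dft a a W t = W t + a * t := by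
  unfold dft
  rw [ite_self]

private theorem dft_meas (a c : ℝ) : Measurable fun W : ℝ → ℝ => dft a c W :=
  measurable_pi_lambda _ fun s => (measurable_pi_apply s).add_const _

theorem idn_bm {W : ℝ → Ω → ℝ} (hW : IsBM P W 1 0) (a : ℝ) : IsBM P (fun t ω => dft a a (fun u => W u ω) t) 1 a := by
  refine ⟨fun t => (hW.meas t).add_const _, ?_, ?_, ?_, ?_⟩
  · filter_upwards [hW.cont] with ω h1
    have h2 : (fun t => dft a a (fun u => W u ω) t) = fun t => W t ω + a * t :=
      funext fun t => dft_eq a _ t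
    rw [h2]
    fun_prop
  · filter_upwards [hW.zero] with ω h1
    show dft a a (fun u => W u ω) 0 = 0
    rw [dft_eq, h1]
    ring
  · intro s t hst
    have h1 : (fun ω => dft a a (fun u => W u ω) t - dft a a (fun u => W u ω) s) =
        (fun x => x + a * (t - s)) ∘ fun ω => W t ω - W s ω := by
      funext ω
      rw [dft_eq, dft_eq]
      simp only [Function.comp]
      ring
    have h2 : Measurable fun ω => W t ω - W s ω := (hW.meas t).sub (hW.meas s)
    have h3 : Measurable fun x : ℝ => x + a * (t - s) := by fun_prop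
    rw [h1, ← Measure.map_map h3 h2, hW.gauss s t hst, gaussianReal_map_add_const]
    congr 1
    ring
  · intro t ht
    have h1 := (hW.indep t ht).comp (fun (i : ℕ) (x : ℝ) => x + a * (t (i + 1) - t i))
      (fun i => by fun_prop)
    refine h1.congr fun i => Eventually.of_forall fun ω => ?_
    simp only [Function.comp, dft_eq]
    ring

omit [IsProbabilityMeasure P] in
private theorem idn_lines {W : ℝ → Ω → ℝ} {B : ℕ → ℝ → Ω → ℝ} (hB : Lines P W B) (a : ℝ) :
    Lines P (fun t ω => dft a a (fun u => W u ω) t) B :=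
  ⟨hB.bm, hB.indep, hB.indep'.comp (dft_meas a a) measurable_id⟩

theorem idn_bdd {W : ℝ → Ω → ℝ} {B : ℕ → ℝ → Ω → ℝ} (hW : IsBM P W 1 0) (hB : Lines P W B) (a c : ℝ) (ha : 0 < a)
    (n : ℕ) : ∀ᵐ ω ∂P, DBdd (fun i t => B i t ω) n (dft a c fun u => W u ω) := by
  filter_upwards [tan_bdd ha n (idn_bm hW a) (idn_lines hB a)] with ω h1
  refine dbdd_le n (fun T => ⟨|c - a| * |T|, fun s hs => ?_⟩) h1
  rw [dft_eq]
  unfold dft
  have h0 : 0 ≤ |c - a| * |T| := by positivity
  split_ifs with hs0
  · linarith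
  · rw [not_lt] at hs0
    have h2 : (c - a) * s ≤ |c - a| * |T| := by
      calc (c - a) * s ≤ |c - a| * s := mul_le_mul_of_nonneg_right (le_abs_self _) hs0
        _ ≤ |c - a| * |T| := mul_le_mul_of_nonneg_left (hs.trans (le_abs_self _)) (abs_nonneg _)
    linarith

private theorem que_meas : Measurable fun p : (ℝ → ℝ) × (ℝ → ℝ) => que p.1 p.2 := by
  refine measurable_pi_lambda _ fun t => ?_
  unfold que rmx
  refine ((measurable_pi_apply t).comp measurable_snd).add (Measurable.iSup fun q => ?_)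
  exact ((measurable_pi_apply _).comp measurable_fst).sub ((measurable_pi_apply _).comp measurable_snd)

private theorem dq_meas (n : ℕ) :
    Measurable fun p : (ℕ → ℝ → ℝ) × (ℝ → ℝ) => dq p.1 n p.2 := by
  induction n with
  | zero => exact measurable_snd
  | succ n ih =>
    have h1 : Measurable fun p : (ℕ → ℝ → ℝ) × (ℝ → ℝ) => (p.1, que p.2 (p.1 n)) := by
      refine measurable_fst.prodMk ?_
      exact que_meas.comp (measurable_snd.prodMk ((measurable_pi_apply n).comp measurable_fst))
    exact ih.comp h1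

private theorem stop_meas (a c T : ℝ) :
    Measurable fun (W : ℝ → ℝ) (s : ℝ) => dft a c W (min s T) :=
  measurable_pi_lambda _ fun s => (measurable_pi_apply (min s T)).comp (dft_meas a c)

theorem idn {W : ℝ → Ω → ℝ} {B : ℕ → ℝ → Ω → ℝ} (hW : IsBM P W 1 0) (hB : Lines P W B) (a c : ℝ) (ha : 0 < a)
    (hc : 0 < c) (n : ℕ) (T : ℝ) (hT : 0 ≤ T) :
    ∫⁻ ω, ENNReal.ofReal (Real.exp ((a - c) * dq (fun i t => B i t ω) n (dft a c fun u => W u ω) T)) ∂P =
      ENNReal.ofReal ((a / c) ^ n * Real.exp ((a ^ 2 - c ^ 2) * T / 2)) := by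
  set Xc : Ω → ℝ → ℝ := fun ω s => dft a c (fun u => W u ω) (min s T) with hXc
  set Xa : Ω → ℝ → ℝ := fun ω s => dft a a (fun u => W u ω) (min s T) with hXa
  set BB : Ω → ℕ → ℝ → ℝ := fun ω i t => B i t ω with hBB
  have hWm : Measurable fun (ω : Ω) (t : ℝ) => W t ω := measurable_pi_lambda _ hW.meas
  have hBm : Measurable BB :=
    measurable_pi_lambda _ fun i => measurable_pi_lambda _ fun t => (hB.bm i).meas t
  have hXcm : Measurable Xc := (stop_meas a c T).comp hWm
  have hXam : Measurable Xa := (stop_meas a a T).comp hWm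
  have i1 : IndepFun Xc BB P := hB.indep'.comp (stop_meas a c T) measurable_id
  have i2 : IndepFun Xa BB P := hB.indep'.comp (stop_meas a a T) measurable_id
  have e1 := (indepFun_iff_map_prod_eq_prod_map_map hXcm.aemeasurable hBm.aemeasurable).1 i1
  have e2 := (indepFun_iff_map_prod_eq_prod_map_map hXam.aemeasurable hBm.aemeasurable).1 i2
  have := Measure.isProbabilityMeasure_map (μ := P) hXcm.aemeasurable
  have := Measure.isProbabilityMeasure_map (μ := P) hXam.aemeasurable
  have := Measure.isProbabilityMeasure_map (μ := P) hBm.aemeasurable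
  -- the functional
  set F : (ℝ → ℝ) × (ℕ → ℝ → ℝ) → ENNReal := fun p => ENNReal.ofReal (Real.exp ((a - c) * dq p.2 n p.1 T)) with hF
  have hFm : Measurable F := by
    have h1 : Measurable fun p : (ℝ → ℝ) × (ℕ → ℝ → ℝ) => dq p.2 n p.1 T :=
      (measurable_pi_apply T).comp ((dq_meas n).comp measurable_swap)
    fun_prop
  set ρ : (ℝ → ℝ) → ENNReal := fun g => ENNReal.ofReal (Real.exp ((c - a) * g T - (c ^ 2 - a ^ 2) * T / 2)) with hρ
  have hρm : Measurable ρ := by
    have h1 : Measurable fun g : ℝ → ℝ => g T := measurable_pi_apply T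
    fun_prop
  have hρF : Measurable fun p : (ℝ → ℝ) × (ℕ → ℝ → ℝ) => ρ p.1 * F p := (hρm.comp measurable_fst).mul hFm
  have s1 : ∫⁻ ω, ENNReal.ofReal (Real.exp ((a - c) * dq (fun i t => B i t ω) n (dft a c fun u => W u ω) T)) ∂P =
      ∫⁻ ω, F (Xc ω, BB ω) ∂P := by
    refine lintegral_congr fun ω => ?_
    simp only [hF, hXc, hBB]
    rw [dq_stop n T T (le_refl _)]
  have s2 : ∫⁻ ω, F (Xc ω, BB ω) ∂P = ∫⁻ p, F p ∂(P.map Xc).prod (P.map BB) := by
    rw [← e1, lintegral_map hFm (hXcm.prodMk hBm)]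
  have s3 : ∫⁻ p, F p ∂(P.map Xc).prod (P.map BB) =
      ∫⁻ p, ρ p.1 * F p ∂(P.map Xa).prod (P.map BB) := by
    have g := gir hW a c T hT
    have g' : P.map Xc = (P.map Xa).withDensity ρ := g
    rw [lintegral_prod_symm _ hFm.aemeasurable,
      lintegral_prod_symm _ hρF.aemeasurable]
    refine lintegral_congr fun b => ?_
    have hFb : Measurable fun x : ℝ → ℝ => F (x, b) := hFm.comp measurable_prodMk_right
    rw [g', lintegral_withDensity_eq_lintegral_mul _ hρm hFb]
    rfl
  have s4 : ∫⁻ p, ρ p.1 * F p ∂(P.map Xa).prod (P.map BB) = ∫⁻ ω, ρ (Xa ω) * F (Xa ω, BB ω) ∂P := by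
    rw [← e2, lintegral_map hρF (hXam.prodMk hBm)]
  have s5 : ∀ ω, ρ (Xa ω) * F (Xa ω, BB ω) = ENNReal.ofReal (Real.exp ((a ^ 2 - c ^ 2) * T / 2)) *
      ENNReal.ofReal (Real.exp ((a - c) * (dq (fun i t => B i t ω) n (fun t => dft a a (fun u => W u ω) t) T -
        dft a a (fun u => W u ω) T))) := by
    intro ω
    simp only [hF, hρ, hXa, hBB]
    rw [dq_stop n T T (le_refl _), min_self, ← ENNReal.ofReal_mul (Real.exp_nonneg _),
      ← ENNReal.ofReal_mul (Real.exp_nonneg _), ← Real.exp_add, ← Real.exp_add]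
    congr 2
    ring
  have hm : Measurable fun ω => ENNReal.ofReal (Real.exp ((a - c) *
      (dq (fun i t => B i t ω) n (fun t => dft a a (fun u => W u ω) t) T - dft a a (fun u => W u ω) T))) := by
    have h1 : Measurable fun ω => dft a a (fun u => W u ω) := (dft_meas a a).comp hWm
    have h2 : Measurable fun ω => dq (fun i t => B i t ω) n (fun t => dft a a (fun u => W u ω) t) T :=
      (measurable_pi_apply T).comp ((dq_meas n).comp (hBm.prodMk h1))
    have h3 : Measurable fun ω => dft a a (fun u => W u ω) T := (measurable_pi_apply T).comp h1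
    fun_prop
  rw [s1, s2, s3, s4, lintegral_congr s5, lintegral_const_mul _ hm,
    tan_mgf ha n (idn_bm hW a) (idn_lines hB a) T (a - c) (by linarith),
    ← ENNReal.ofReal_mul (Real.exp_nonneg _), sub_sub_cancel, mul_comm]

end Pool.Agent.DLM
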