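import Pool.Agent.DLM.Defs

/-!
# DLM/KUN: laws on kernels are determined by finite dimensional laws (40-70 lines)

Same proof as `bml_unique` (module BMU, if it is landed look there): `Kern = ℚ → ℚ → ℝ` is measurably equivalent to `ℚ × ℚ → ℝ` (`MeasurableEquiv.curry`-like; or work directly): the sets `{S | (fun i => S (x i) (y i)) ∈ A}` form a π-system generating the product σ-algebra (two of them: join the index vectors with `Fin.append`,
or use `IsProjectiveLimit.unique` for `ℚ × ℚ → ℝ` after transporting with the measurable map `S ↦ fun p => S p.1 p.2`, whose inverse `f ↦ fun x y => f (x, y)` is measurable).  For a finite set `I` of pairs: enumerate it with `Fin k`.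
`kern_law_ext`: `Measure.map_map` and `kern_ext`.
-/

set_option autoImplicit false

open MeasureTheory ProbabilityTheory Filter Topology

namespace Pool.Agent.DLM

theorem kern_ext {μ μ' : Measure Kern} [IsProbabilityMeasure μ] [IsProbabilityMeasure μ']
    (h : ∀ (k : ℕ) (x y : Fin k → ℚ), μ.map (fun S i => S (x i) (y i)) = μ'.map (fun S i => S (x i) (y i))) :
    μ = μ' := by
  have he : Measurable (fun (S : Kern) (p : ℚ × ℚ) => S p.1 p.2) :=
    measurable_pi_lambda _ fun p => (measurable_pi_apply p.2).comp (measurable_pi_apply p.1)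
  have hg : Measurable (fun (f : ℚ × ℚ → ℝ) => (fun x y => f (x, y) : Kern)) :=
    measurable_pi_lambda _ fun x => measurable_pi_lambda _ fun y => measurable_pi_apply (x, y)
  have key : μ.map (fun (S : Kern) (p : ℚ × ℚ) => S p.1 p.2) = μ'.map (fun (S : Kern) (p : ℚ × ℚ) => S p.1 p.2) := by
    have := Measure.isProbabilityMeasure_map (μ := μ) he.aemeasurable
    have h1 : IsProjectiveLimit (μ'.map (fun (S : Kern) (p : ℚ × ℚ) => S p.1 p.2))
        (fun I : Finset (ℚ × ℚ) => (μ.map (fun (S : Kern) (p : ℚ × ℚ) => S p.1 p.2)).map I.restrict) := by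
      intro I
      change (μ'.map (fun (S : Kern) (p : ℚ × ℚ) => S p.1 p.2)).map I.restrict =
        (μ.map (fun (S : Kern) (p : ℚ × ℚ) => S p.1 p.2)).map I.restrict
      rw [Measure.map_map (Finset.measurable_restrict I) he, Measure.map_map (Finset.measurable_restrict I) he]
      have hm : Measurable (fun (v : Fin I.card → ℝ) (j : I) => v (I.equivFin j)) :=
        measurable_pi_lambda _ fun j => measurable_pi_apply _
      have hm2 : Measurable (fun (S : Kern) (i : Fin I.card) =>
          S ((I.equivFin.symm i : ℚ × ℚ)).1 ((I.equivFin.symm i : ℚ × ℚ)).2) :=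
        measurable_pi_lambda _ fun i => (measurable_pi_apply _).comp (measurable_pi_apply _)
      have hc : (I.restrict ∘ (fun (S : Kern) (p : ℚ × ℚ) => S p.1 p.2)) =
          (fun (v : Fin I.card → ℝ) (j : I) => v (I.equivFin j)) ∘ (fun (S : Kern) (i : Fin I.card) =>
            S ((I.equivFin.symm i : ℚ × ℚ)).1 ((I.equivFin.symm i : ℚ × ℚ)).2) := by
        funext S j
        simp [Function.comp, Finset.restrict]
      rw [hc, ← Measure.map_map hm hm2, ← Measure.map_map hm hm2,
        h I.card (fun i => ((I.equivFin.symm i : ℚ × ℚ)).1) (fun i => ((I.equivFin.symm i : ℚ × ℚ)).2)]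
    have h2 : IsProjectiveLimit (μ.map (fun (S : Kern) (p : ℚ × ℚ) => S p.1 p.2))
        (fun I : Finset (ℚ × ℚ) => (μ.map (fun (S : Kern) (p : ℚ × ℚ) => S p.1 p.2)).map I.restrict) := fun I => rfl
    have : ∀ I : Finset (ℚ × ℚ), IsFiniteMeasure
        ((μ.map (fun (S : Kern) (p : ℚ × ℚ) => S p.1 p.2)).map I.restrict) := fun I => inferInstance
    exact h2.unique h1
  have e1 : ∀ ν : Measure Kern, (ν.map (fun (S : Kern) (p : ℚ × ℚ) => S p.1 p.2)).map
      (fun (f : ℚ × ℚ → ℝ) => (fun x y => f (x, y) : Kern)) = ν := fun ν => by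
    rw [Measure.map_map hg he]
    exact Measure.map_id
  rw [← e1 μ, ← e1 μ', key]

theorem kern_law_ext {Ω Ω' : Type*} [MeasurableSpace Ω] [MeasurableSpace Ω'] {P : Measure Ω} [IsProbabilityMeasure P]
    {P' : Measure Ω'} [IsProbabilityMeasure P'] {X : ℚ → ℚ → Ω → ℝ} {Y : ℚ → ℚ → Ω' → ℝ}
    (hX : ∀ x y, Measurable (X x y)) (hY : ∀ x y, Measurable (Y x y))
    (h : ∀ (k : ℕ) (x y : Fin k → ℚ), P.map (fun ω i => X (x i) (y i) ω) = P'.map (fun ω i => Y (x i) (y i) ω)) :
    P.map (fun ω x y => X x y ω) = P'.map (fun ω x y => Y x y ω) := by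
  have hX' : Measurable (fun ω x y => X x y ω : Ω → Kern) :=
    measurable_pi_lambda _ fun x => measurable_pi_lambda _ fun y => hX x y
  have hY' : Measurable (fun ω x y => Y x y ω : Ω' → Kern) :=
    measurable_pi_lambda _ fun x => measurable_pi_lambda _ fun y => hY x y
  have := Measure.isProbabilityMeasure_map (μ := P) hX'.aemeasurable
  have := Measure.isProbabilityMeasure_map (μ := P') hY'.aemeasurable
  refine kern_ext fun k x y => ?_
  have hm : Measurable (fun (S : Kern) (i : Fin k) => S (x i) (y i)) :=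
    measurable_pi_lambda _ fun i => (measurable_pi_apply _).comp (measurable_pi_apply _)
  rw [Measure.map_map hm hX', Measure.map_map hm hY']
  exact h k x y

end Pool.Agent.DLM
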