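import Pool.Agent.DLM.LPB

/-!
# DLM/LPL: the law of last passage values only depends on the law of the lines (80-120 lines)

For continuous lines `lpp B n x y` (`x ≤ y`, `1 ≤ n`) is the supremum over switching times in a countable set: `t i ∈ ℚ ∪ {x, y}` clamped to `[x, y]`: e.g. over `r : Fin (n-1) → ℚ` nonincreasing, `t i = max x (min y (r i))`.  So `(lpp B n (x i) (y i))_i` is a.s. equal to a measurable function `Φ` (countable suprema; bounded a.s.) of the
values of the lines at rational times and at the finitely many times `x i, y i`.  The law of this countable family of random variables is the same for two families of independent standard Brownian motions (finite dimensional laws: `IsBM.gauss`, `IsBM.indep`, `IsBM.zero`, independence of the lines; uniqueness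
`IsProjectiveLimit.unique` or π-systems).  `lpp_aemeas`.
-/

set_option autoImplicit false

open MeasureTheory ProbabilityTheory Filter Topology

namespace Pool.Agent.DLM

/-! ### the supremum over rational switching times -/

/-- rational switching times -/
private noncomputable def LPLt (n : ℕ) (x y : ℝ) (q : Fin n → ℚ) (i : ℕ) : ℝ :=
  if i = 0 then y else if h : i < n then max x (min y (q ⟨i, h⟩)) else x

/-- the weight of a path with rational switching times -/
private noncomputable def LPLw (n : ℕ) (x y : ℝ) (q : Fin n → ℚ) (f : ℕ → ℝ → ℝ) : ℝ :=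
  ∑ i ∈ Finset.range n, (f i (LPLt n x y q i) - f i (LPLt n x y q (i + 1)))

/-- the supremum over rational switching times -/
private noncomputable def LPLs (n : ℕ) (x y : ℝ) (f : ℕ → ℝ → ℝ) : ℝ :=
  ⨆ q : {q : Fin n → ℚ // Antitone q}, LPLw n x y q.1 f

private theorem LPL_meas (n : ℕ) (x y : ℝ) : Measurable (LPLs n x y) := by
  refine Measurable.iSup fun q => ?_
  refine Finset.measurable_sum _ fun i _ => ?_
  have h1 : ∀ t : ℝ, Measurable fun f : ℕ → ℝ → ℝ => f i t := fun t =>
    (measurable_pi_apply t).comp (measurable_pi_apply i)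
  exact (h1 _).sub (h1 _)

private theorem LPL_zero (n : ℕ) (x y : ℝ) (q : Fin n → ℚ) : LPLt n x y q 0 = y := if_pos rfl

private theorem LPL_last (n : ℕ) (hn : 1 ≤ n) (x y : ℝ) (q : Fin n → ℚ) : LPLt n x y q n = x := by
  unfold LPLt
  rw [if_neg (by omega), dif_neg (by omega)]

private theorem LPL_mid (n : ℕ) (x y : ℝ) (q : Fin n → ℚ) (i : ℕ) (h0 : i ≠ 0) (h : i < n) :
    LPLt n x y q i = max x (min y (q ⟨i, h⟩)) := by
  unfold LPLt
  rw [if_neg h0, dif_pos h]

private theorem LPL_anti (n : ℕ) {x y : ℝ} (h : x ≤ y) (q : Fin n → ℚ) (hq : Antitone q)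
    (i : ℕ) (hi : i < n) : LPLt n x y q (i + 1) ≤ LPLt n x y q i := by
  rcases Nat.eq_zero_or_pos i with h0 | h0
  · subst h0
    rw [LPL_zero]
    rcases Nat.lt_or_ge (0 + 1) n with h1 | h1
    · rw [LPL_mid n x y q _ (by omega) h1]
      exact max_le h (min_le_left _ _)
    · have : n = 0 + 1 := by omega
      subst this
      rw [LPL_last _ (by omega)]
      exact h
  · rw [LPL_mid n x y q i (by omega) hi]
    rcases Nat.lt_or_ge (i + 1) n with h1 | h1
    · rw [LPL_mid n x y q _ (by omega) h1]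
      have : q ⟨i + 1, h1⟩ ≤ q ⟨i, hi⟩ := hq (by simp)
      have h2 : ((q ⟨i + 1, h1⟩ : ℚ) : ℝ) ≤ (q ⟨i, hi⟩ : ℚ) := by exact_mod_cast this
      exact max_le_max le_rfl (min_le_min le_rfl h2)
    · have : n = i + 1 := by omega
      subst this
      rw [LPL_last _ (by omega)]
      exact le_max_left _ _

private theorem LPL_chain {n : ℕ} {t : ℕ → ℝ} (ht : ∀ i < n, t (i + 1) ≤ t i) {i j : ℕ} (hij : i ≤ j)
    (hj : j ≤ n) : t j ≤ t i := by
  induction j, hij using Nat.le_induction with
  | base => exact le_rfl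
  | succ j hij ih => exact (ht j (by omega)).trans (ih (by omega))

private theorem LPL_fl (a : ℝ) :
    Tendsto (fun m : ℕ => (((⌊a * ((m : ℝ) + 1)⌋ : ℤ) : ℝ) / ((m : ℝ) + 1))) atTop (𝓝 a) := by
  have h1 : Tendsto (fun m : ℕ => a - 1 / ((m : ℝ) + 1)) atTop (𝓝 a) := by
    have := (tendsto_const_nhds (x := a)).sub (tendsto_one_div_add_atTop_nhds_zero_nat (𝕜 := ℝ))
    simpa using this
  refine tendsto_of_tendsto_of_tendsto_of_le_of_le h1 tendsto_const_nhds (fun m => ?_) fun m => ?_
  · have hm : (0 : ℝ) < (m : ℝ) + 1 := by positivity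
    have h2 := Int.sub_one_lt_floor (a * ((m : ℝ) + 1))
    show a - 1 / ((m : ℝ) + 1) ≤ ((⌊a * ((m : ℝ) + 1)⌋ : ℤ) : ℝ) / ((m : ℝ) + 1)
    rw [le_div_iff₀ hm, sub_mul, div_mul_cancel₀ _ hm.ne']
    exact h2.le
  · have hm : (0 : ℝ) < (m : ℝ) + 1 := by positivity
    have h2 := Int.floor_le (a * ((m : ℝ) + 1))
    show ((⌊a * ((m : ℝ) + 1)⌋ : ℤ) : ℝ) / ((m : ℝ) + 1) ≤ a
    rw [div_le_iff₀ hm]
    exact h2

private theorem LPL_eq {f : ℕ → ℝ → ℝ} (hf : ∀ i, Continuous (f i)) (n : ℕ) (hn : 1 ≤ n) {x y : ℝ}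
    (h : x ≤ y) : lpp f n x y = LPLs n x y f := by
  have hne : Nonempty {q : Fin n → ℚ // Antitone q} := ⟨⟨fun _ => 0, fun _ _ _ => le_rfl⟩⟩
  have hL := lpp_isLUB hf n hn h
  have key : IsLUB (Set.range fun q : {q : Fin n → ℚ // Antitone q} => LPLw n x y q.1 f)
      (lpp f n x y) := by
    refine ⟨?_, ?_⟩
    · rintro w ⟨q, rfl⟩
      exact hL.1 ⟨LPLt n x y q.1, LPL_last n hn x y q.1, LPL_zero n x y q.1,
        fun i hi => LPL_anti n h q.1 q.2 i hi, rfl⟩
    · intro u hu
      refine hL.2 ?_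
      rintro w ⟨t, htn, ht0, ht, rfl⟩
      -- rational approximations
      let Q : ℕ → Fin n → ℚ := fun m i => (⌊t i * ((m : ℝ) + 1)⌋ : ℤ) / ((m : ℚ) + 1)
      have hQ : ∀ m, Antitone (Q m) := by
        intro m i j hij
        have h1 : t j ≤ t i := LPL_chain ht hij j.2.le
        have hm : (0 : ℝ) ≤ (m : ℝ) + 1 := by positivity
        have h2 : ⌊t j * ((m : ℝ) + 1)⌋ ≤ ⌊t i * ((m : ℝ) + 1)⌋ :=
          Int.floor_le_floor (mul_le_mul_of_nonneg_right h1 hm)
        have h3 : ((⌊t j * ((m : ℝ) + 1)⌋ : ℤ) : ℚ) ≤ ((⌊t i * ((m : ℝ) + 1)⌋ : ℤ) : ℚ) := by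
          exact_mod_cast h2
        exact div_le_div_of_nonneg_right h3 (by positivity)
      have hlim : ∀ i ≤ n, Tendsto (fun m => LPLt n x y (Q m) i) atTop (𝓝 (t i)) := by
        intro i hi
        rcases Nat.eq_zero_or_pos i with h0 | h0
        · subst h0
          simp only [LPL_zero, ht0]
          exact tendsto_const_nhds
        · rcases hi.lt_or_eq with h1 | h1
          · have e1 : ∀ m, LPLt n x y (Q m) i =
                max x (min y (((⌊t i * ((m : ℝ) + 1)⌋ : ℤ) : ℝ) / ((m : ℝ) + 1))) := by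
              intro m
              rw [LPL_mid n x y (Q m) i (by omega) h1]
              congr 2
              simp only [Q]
              push_cast
              rfl
            simp only [e1]
            have e2 : t i = max x (min y (t i)) := by
              have a1 : t i ≤ y := ht0 ▸ LPL_chain ht (Nat.zero_le i) hi
              have a2 : x ≤ t i := htn ▸ LPL_chain ht hi le_rfl
              rw [min_eq_right a1, max_eq_right a2]
            conv_rhs => rw [e2]
            exact tendsto_const_nhds.max (tendsto_const_nhds.min (LPL_fl (t i)))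
          · subst h1
            simp only [LPL_last i hn, htn]
            exact tendsto_const_nhds
      have hw : Tendsto (fun m => LPLw n x y (Q m) f) atTop
          (𝓝 (∑ i ∈ Finset.range n, (f i (t i) - f i (t (i + 1))))) := by
        refine tendsto_finsetSum _ fun i hi => ?_
        have hi' : i < n := Finset.mem_range.1 hi
        exact (((hf i).tendsto _).comp (hlim i hi'.le)).sub (((hf i).tendsto _).comp (hlim (i + 1) hi'))
      refine le_of_tendsto' hw fun m => ?_
      exact hu ⟨⟨Q m, hQ m⟩, rfl⟩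
  exact (key.ciSup_eq).symm

/-! ### the law of Brownian motion -/

private theorem LPL_enum (C : Finset ℝ) (hC : C.Nonempty) :
    ∃ τ : ℕ → ℝ, Monotone τ ∧ ∀ c ∈ C, ∃ k, τ k = c := by
  have hcard : 0 < C.card := Finset.card_pos.2 hC
  refine ⟨fun k => C.orderEmbOfFin rfl ⟨min k (C.card - 1), by omega⟩, ?_, ?_⟩
  · intro a b hab
    apply (C.orderEmbOfFin rfl).monotone
    show min a (C.card - 1) ≤ min b (C.card - 1)
    omega
  · intro c hc
    have h1 : c ∈ Set.range (C.orderEmbOfFin rfl) := by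
      rw [Finset.range_orderEmbOfFin]
      exact hc
    obtain ⟨i, hi⟩ := h1
    refine ⟨i, ?_⟩
    rw [← hi]
    show C.orderEmbOfFin rfl ⟨min (i : ℕ) (C.card - 1), by omega⟩ = C.orderEmbOfFin rfl i
    congr 1
    apply Fin.ext
    show min (i : ℕ) (C.card - 1) = i
    have := i.2
    omega

private theorem LPL_sum (x : ℕ → ℝ) (a n : ℕ) (h : a ≤ n) :
    ∑ k : Fin n, (if (k : ℕ) < a then x ((k : ℕ) + 1) - x k else 0) = x a - x 0 := by
  rw [Fin.sum_univ_eq_sum_range (fun k => if k < a then x (k + 1) - x k else 0) n]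
  induction n, h using Nat.le_induction with
  | base =>
    rw [← Finset.sum_range_sub x a]
    refine Finset.sum_congr rfl fun k hk => ?_
    rw [if_pos (Finset.mem_range.1 hk)]
  | succ n hn ih =>
    rw [Finset.sum_range_succ, ih, if_neg (by omega), add_zero]

/-- reconstruction of the path from the increments -/
private def LPLF (n m : ℕ) {I : Finset ℝ} (a : I → ℕ) (d : Fin n → ℝ) (i : I) : ℝ :=
  (∑ k : Fin n, (if (k : ℕ) < a i then d k else 0)) - ∑ k : Fin n, (if (k : ℕ) < m then d k else 0)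

private theorem LPL_Fm (n m : ℕ) {I : Finset ℝ} (a : I → ℕ) : Measurable (LPLF n m a) := by
  refine measurable_pi_lambda _ fun i => ?_
  have h1 : ∀ c : ℕ, Measurable fun d : Fin n → ℝ => ∑ k : Fin n, (if (k : ℕ) < c then d k else 0) := by
    intro c
    refine Finset.measurable_sum _ fun k _ => ?_
    split_ifs
    · exact measurable_pi_apply k
    · exact measurable_const
  exact (h1 (a i)).sub (h1 m)

private theorem LPL_fd {Ω : Type*} [MeasurableSpace Ω] {P : Measure Ω} [IsProbabilityMeasure P]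
    {X : ℝ → Ω → ℝ} {v b : ℝ} (hX : IsBM P X v b) {I : Finset ℝ} {τ : ℕ → ℝ} (hτ : Monotone τ)
    {a : I → ℕ} (ha : ∀ i, τ (a i) = i) {m n : ℕ} (hm : τ m = 0) (hmn : m ≤ n) (han : ∀ i, a i ≤ n) :
    P.map (fun ω => I.restrict (X · ω)) = (Measure.pi fun k : Fin n =>
      gaussianReal (b * (τ (k + 1) - τ k)) (Real.toNNReal (v * (τ (k + 1) - τ k)))).map
        (LPLF n m a) := by
  have hD : ∀ k : Fin n, Measurable fun ω => X (τ (k + 1)) ω - X (τ k) ω :=
    fun k => (hX.meas _).sub (hX.meas _)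
  have hind : iIndepFun (fun (k : Fin n) ω => X (τ (k + 1)) ω - X (τ k) ω) P :=
    (hX.indep τ hτ).precomp Fin.val_injective
  rw [iIndepFun_iff_map_fun_eq_pi_map (fun k => (hD k).aemeasurable)] at hind
  have e1 : ∀ k : Fin n, P.map (fun ω => X (τ (k + 1)) ω - X (τ k) ω) =
      gaussianReal (b * (τ (k + 1) - τ k)) (Real.toNNReal (v * (τ (k + 1) - τ k))) :=
    fun k => hX.gauss _ _ (hτ (Nat.le_succ _))
  simp only [e1] at hind
  rw [← hind, Measure.map_map (LPL_Fm n m a) (measurable_pi_lambda _ hD)]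
  refine Measure.map_congr ?_
  filter_upwards [hX.zero] with ω hω
  funext i
  show X (i : ℝ) ω = (∑ k : Fin n, (if (k : ℕ) < a i then X (τ ((k : ℕ) + 1)) ω - X (τ k) ω else 0)) -
    ∑ k : Fin n, (if (k : ℕ) < m then X (τ ((k : ℕ) + 1)) ω - X (τ k) ω else 0)
  rw [LPL_sum (fun k => X (τ k) ω) (a i) n (han i), LPL_sum (fun k => X (τ k) ω) m n hmn, ha, hm, hω]
  ring

private theorem LPL_bm {Ω Ω' : Type*} [MeasurableSpace Ω] [MeasurableSpace Ω'] {P : Measure Ω}
    [IsProbabilityMeasure P] {P' : Measure Ω'} [IsProbabilityMeasure P'] {X : ℝ → Ω → ℝ}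
    {X' : ℝ → Ω' → ℝ} {v b : ℝ} (hX : IsBM P X v b) (hX' : IsBM P' X' v b) :
    P.map (fun ω t => X t ω) = P'.map (fun ω t => X' t ω) := by
  have m1 : Measurable (fun ω t => X t ω) := measurable_pi_lambda _ hX.meas
  have m2 : Measurable (fun ω t => X' t ω) := measurable_pi_lambda _ hX'.meas
  have h1 := isProjectiveLimit_map (X := X) (P := P) m1.aemeasurable
  have h2 := isProjectiveLimit_map (X := X') (P := P') m2.aemeasurable
  have h3 : (fun I : Finset ℝ => P.map (fun ω => I.restrict (X · ω))) =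
      fun I : Finset ℝ => P'.map (fun ω => I.restrict (X' · ω)) := by
    funext I
    obtain ⟨τ, hτ, hτ'⟩ := LPL_enum (insert 0 I) (Finset.insert_nonempty _ _)
    obtain ⟨m, hm⟩ := hτ' 0 (Finset.mem_insert_self _ _)
    have hI : ∀ i : I, ∃ k, τ k = i := fun i => hτ' i (by simp)
    choose a ha using hI
    have han : ∀ i : I, a i ≤ Finset.univ.sup a + m := by
      intro i
      have : a i ≤ Finset.univ.sup a := Finset.le_sup (Finset.mem_univ i)
      omega
    rw [LPL_fd hX hτ ha hm (Nat.le_add_left m (Finset.univ.sup a)) han,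
      LPL_fd hX' hτ ha hm (Nat.le_add_left m (Finset.univ.sup a)) han]
  rw [h3] at h1
  have : ∀ I : Finset ℝ, IsFiniteMeasure (P'.map (fun ω => I.restrict (X' · ω))) :=
    fun I => inferInstance
  exact h1.unique h2

theorem lpp_aemeas {Ω : Type*} [MeasurableSpace Ω] {P : Measure Ω} [IsProbabilityMeasure P] {B : ℕ → ℝ → Ω → ℝ}
    (hB : ∀ i, IsBM P (B i) 1 0) (n : ℕ) (hn : 1 ≤ n) {x y : ℝ} (h : x ≤ y) :
    AEMeasurable (fun ω => lpp (fun i t => B i t ω) n x y) P := by
  have mB : Measurable fun ω => (fun i t => B i t ω) :=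
    measurable_pi_lambda _ fun i => measurable_pi_lambda _ fun t => (hB i).meas t
  refine ⟨fun ω => LPLs n x y (fun i t => B i t ω), (LPL_meas n x y).comp mB, ?_⟩
  have hc : ∀ᵐ ω ∂P, ∀ i, Continuous fun t => B i t ω := ae_all_iff.2 fun i => (hB i).cont
  filter_upwards [hc] with ω hω
  exact LPL_eq hω n hn h

theorem lpp_law {Ω Ω' : Type*} [MeasurableSpace Ω] [MeasurableSpace Ω'] {P : Measure Ω} [IsProbabilityMeasure P]
    {P' : Measure Ω'} [IsProbabilityMeasure P'] {B : ℕ → ℝ → Ω → ℝ} {B' : ℕ → ℝ → Ω' → ℝ}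
    (hB : ∀ i, IsBM P (B i) 1 0) (hi : iIndepFun (fun (i : ℕ) (ω : Ω) (t : ℝ) => B i t ω) P)
    (hB' : ∀ i, IsBM P' (B' i) 1 0) (hi' : iIndepFun (fun (i : ℕ) (ω : Ω') (t : ℝ) => B' i t ω) P')
    (n : ℕ) (hn : 1 ≤ n) (k : ℕ) (x y : Fin k → ℝ) (hxy : ∀ i, x i ≤ y i) :
    P.map (fun ω i => lpp (fun i t => B i t ω) n (x i) (y i)) =
      P'.map (fun ω i => lpp (fun i t => B' i t ω) n (x i) (y i)) := by
  have mF : Measurable fun (f : ℕ → ℝ → ℝ) (i : Fin k) => LPLs n (x i) (y i) f :=
    measurable_pi_lambda _ fun i => LPL_meas n (x i) (y i)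
  have mB : ∀ i, Measurable fun ω t => B i t ω := fun i => measurable_pi_lambda _ fun t => (hB i).meas t
  have mB' : ∀ i, Measurable fun ω t => B' i t ω :=
    fun i => measurable_pi_lambda _ fun t => (hB' i).meas t
  have hc : ∀ᵐ ω ∂P, ∀ i, Continuous fun t => B i t ω := ae_all_iff.2 fun i => (hB i).cont
  have hc' : ∀ᵐ ω ∂P', ∀ i, Continuous fun t => B' i t ω := ae_all_iff.2 fun i => (hB' i).cont
  have h1 : P.map (fun ω i => lpp (fun i t => B i t ω) n (x i) (y i)) =
      (P.map fun ω i t => B i t ω).map fun (f : ℕ → ℝ → ℝ) (i : Fin k) => LPLs n (x i) (y i) f := by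
    rw [Measure.map_map mF (measurable_pi_lambda _ mB)]
    refine Measure.map_congr ?_
    filter_upwards [hc] with ω hω
    funext i
    exact LPL_eq hω n hn (hxy i)
  have h2 : P'.map (fun ω i => lpp (fun i t => B' i t ω) n (x i) (y i)) =
      (P'.map fun ω i t => B' i t ω).map fun (f : ℕ → ℝ → ℝ) (i : Fin k) => LPLs n (x i) (y i) f := by
    rw [Measure.map_map mF (measurable_pi_lambda _ mB')]
    refine Measure.map_congr ?_
    filter_upwards [hc'] with ω hω
    funext i
    exact LPL_eq hω n hn (hxy i)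
  rw [h1, h2, hi.map_fun_eq_infinitePi_map mB, hi'.map_fun_eq_infinitePi_map mB']
  congr 2
  funext i
  exact LPL_bm (hB i) (hB' i)

end Pool.Agent.DLM
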