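import Pool.Agent.DLM.LPB

/-!
# DLM/LPM: quadrangle inequality for last passage values (80-120 lines, deterministic)

INDUCTION on `n ≥ 1` with `lpp_succ`.  `n = 1`: equality.  Step: for `s ∈ [x, y']` and `s' ∈ [x', y]`: show `(B n s - B n x + lpp B n s y') + (B n s' - B n x' + lpp B n s' y) ≤ lpp B (n+1) x y + lpp B (n+1) x' y'`.  If `s ≤ s'`: (`x ≤ s ≤ s' ≤ y`) by the induction hypothesis
`lpp B n s y' + lpp B n s' y ≤ lpp B n s y + lpp B n s' y'` (`s' ≤ y`), use `s` for `(x, y)` and `s'` for `(x', y')`.  If `s' < s`: use `s'` for `(x, y)` (`x ≤ x' ≤ s' ≤ y`) and `s` for `(x', y')` (`x' ≤ s' < s ≤ y'`): equality of the sums of the first terms.  Take suprema over `s`, `s'`.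
-/

set_option autoImplicit false

open MeasureTheory ProbabilityTheory Filter Topology

namespace Pool.Agent.DLM

theorem lpp_quad {B : ℕ → ℝ → ℝ} (hB : ∀ i, Continuous (B i)) (n : ℕ) (hn : 1 ≤ n) {x x' y y' : ℝ} (hx : x ≤ x')
    (hy : y ≤ y') (h : x' ≤ y) : lpp B n x y' + lpp B n x' y ≤ lpp B n x y + lpp B n x' y' := by
  induction n, hn using Nat.le_induction generalizing x x' y y' with
  | base =>
    rw [lpp_one (by linarith), lpp_one (by linarith), lpp_one (by linarith), lpp_one (by linarith)]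
    linarith
  | succ n hn ih =>
    have hxy : x ≤ y := by linarith
    have hxy' : x ≤ y' := by linarith
    have hx'y' : x' ≤ y' := by linarith
    have U1 := (lpp_succ hB n hn hxy).1
    have U2 := (lpp_succ hB n hn hx'y').1
    have key : ∀ s, x ≤ s → s ≤ y' → ∀ s', x' ≤ s' → s' ≤ y →
        (B n s - B n x + lpp B n s y') + (B n s' - B n x' + lpp B n s' y) ≤
          lpp B (n + 1) x y + lpp B (n + 1) x' y' := by
      intro s hs1 hs2 s' hs1' hs2'
      rcases le_or_gt s s' with hss | hss
      · have h1 := ih hss hy hs2'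
        have h2 := U1 ⟨s, hs1, by linarith, rfl⟩
        have h3 := U2 ⟨s', hs1', by linarith, rfl⟩
        linarith
      · have h2 := U1 ⟨s', by linarith, hs2', rfl⟩
        have h3 := U2 ⟨s, by linarith, hs2, rfl⟩
        linarith
    have h1 : lpp B (n + 1) x' y ≤
        lpp B (n + 1) x y + lpp B (n + 1) x' y' - lpp B (n + 1) x y' := by
      refine (lpp_succ hB n hn h).2 ?_
      rintro w ⟨s', hs1', hs2', rfl⟩
      have h2 : lpp B (n + 1) x y' ≤ lpp B (n + 1) x y + lpp B (n + 1) x' y' -
          (B n s' - B n x' + lpp B n s' y) := by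
        refine (lpp_succ hB n hn hxy').2 ?_
        rintro w ⟨s, hs1, hs2, rfl⟩
        linarith [key s hs1 hs2 s' hs1' hs2']
      linarith
    linarith

end Pool.Agent.DLM
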