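import Pool.Agent.DLM.CST
import Pool.Agent.DLM.BMX

/-!
# DLM/LTA: the supremum of the sheet over a window is not very low (120-160 lines)

It suffices to prove the bound for `m ≥ m₁` (enlarge `C`).  Work under `(β 0) ⊗ (ν 1)`; `H = ⨆ x, f x + 2|x| + S x 0` (bounded a.s.: `neg_bdd`), `P(H ≤ -m) ≤ exp(-2m)` (`neg`, Markov).  Let `r = 2 √m + C`, `E` the event of the claim.
(1) `sup_{|x| ≤ r} (f x + 2|x|) ≤ 2m` outside probability `32 exp(-(2m - 2r)^2/(64 r))` (`bmx` on `[0, ⌈r⌉]` and `bmx_left` or `bml_map_neg` on `[-⌈r⌉, 0]`, `f 0 = 0` a.s.), which is `≤ exp(-m)` for `m` large.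
(2) With `C₁` from `cell_sup` (`c = 8`): for `j ≥ 2 √m`, `j ∈ ℕ`, cells `[j, j+1]`, `[-j-1, -j]` for `x` and `y = 0` (in `[0,1]`): `S x 0 ≤ -j^2 + C₁ (j+1) + C₁ + j^2/4` outside `C₁ exp(-2 j^2)`, and `|f x| ≤ j^2/8` for `|x| ≤ j + 1` outside `32 exp(-(j^2/8)^2/(64 (j+1)))`.  Then
`f x + 2|x| + S x 0 ≤ -(5/8) j^2 + (C₁ + 2)(j + 1) + C₁ ≤ - j^2/2 ≤ -2m < -m` for `j ≥ 2√m + C - 1` and `C` large.  The sum of the probabilities over `j ≥ 2√m` is `≤ exp(-m)` for `m` large.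
On `E` and outside these events `H ≤ -m`.
-/

set_option autoImplicit false

open MeasureTheory ProbabilityTheory Filter Topology

namespace Pool.Agent.DLM

variable {ν : ℝ → Measure Kern} {tw : Measure ℝ} {β : ℝ → Measure Ini}

private theorem LTA_far {β : Measure Ini} (hβ : IsBML β 2 0) (T : ℕ) (hT : 1 ≤ T) (l : ℝ) (hl : 0 < l) :
    β {f | ∃ x : ℚ, |(x : ℝ)| ≤ T ∧ l < |f x - f 0|} ≤
      ENNReal.ofReal (32 * Real.exp (-((l / 2) ^ 2) / (64 * T))) := by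
  have hT0 : (0 : ℝ) < T := by exact_mod_cast hT
  have hTq : (0 : ℚ) < (T : ℚ) := by exact_mod_cast hT
  have h1 := bmx hβ 0 (T : ℚ) hTq l hl (by rw [abs_zero]; linarith)
  have h2 := bmx_left hβ (-(T : ℚ)) 0 (by linarith) (l / 2) (by linarith) (by rw [abs_zero]; linarith)
  have e1 : Real.exp (-(l ^ 2) / (64 * (((T : ℚ) : ℝ) - ((0 : ℚ) : ℝ)))) ≤ Real.exp (-((l / 2) ^ 2) / (64 * T)) := by
    refine Real.exp_le_exp.mpr ?_
    push_cast
    rw [sub_zero, neg_div, neg_div, neg_le_neg_iff]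
    refine div_le_div_of_nonneg_right ?_ (by positivity)
    nlinarith
  have e2 : Real.exp (-((l / 2) ^ 2) / (64 * (((0 : ℚ) : ℝ) - ((-(T : ℚ) : ℚ) : ℝ)))) =
      Real.exp (-((l / 2) ^ 2) / (64 * T)) := by
    push_cast
    rw [zero_sub, neg_neg]
  have hsub : {f : Ini | ∃ x : ℚ, |(x : ℝ)| ≤ T ∧ l < |f x - f 0|} ⊆
      {f | ∃ x : ℚ, 0 ≤ x ∧ x ≤ (T : ℚ) ∧ l < |f x - f 0|} ∪
        {f | ∃ x : ℚ, -(T : ℚ) ≤ x ∧ x ≤ 0 ∧ 2 * (l / 2) < |f x - f 0|} := by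
    rintro f ⟨x, hx, hf⟩
    rw [abs_le] at hx
    rcases le_total 0 x with h0 | h0
    · left
      refine ⟨x, h0, ?_, hf⟩
      exact_mod_cast hx.2
    · right
      refine ⟨x, ?_, h0, by linarith⟩
      exact_mod_cast hx.1
  refine (measure_mono hsub).trans ((measure_union_le _ _).trans ?_)
  calc _ ≤ ENNReal.ofReal (16 * Real.exp (-((l / 2) ^ 2) / (64 * T))) +
        ENNReal.ofReal (16 * Real.exp (-((l / 2) ^ 2) / (64 * T))) := by
        refine add_le_add (h1.trans (ENNReal.ofReal_le_ofReal (by linarith))) ?_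
        rw [e2] at h2
        exact h2
    _ = ENNReal.ofReal (32 * Real.exp (-((l / 2) ^ 2) / (64 * T))) := by
        rw [← ENNReal.ofReal_add (by positivity) (by positivity)]
        congr 1
        ring

private theorem LTA_sum (K m : ℝ) (hK : 0 ≤ K) :
    ∑' k : ℕ, ENNReal.ofReal (K * Real.exp (-(m + k))) ≤ ENNReal.ofReal (2 * K * Real.exp (-m)) := by
  have h1 : ∀ k : ℕ, ENNReal.ofReal (K * Real.exp (-(m + k))) ≤
      ENNReal.ofReal (K * Real.exp (-m)) * (2⁻¹ : ENNReal) ^ k := by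
    intro k
    have h2 : Real.exp (-(k : ℝ)) ≤ (1 / 2 : ℝ) ^ k := by
      have h3 : Real.exp (-(k : ℝ)) = Real.exp (-1) ^ k := by
        rw [← Real.exp_nat_mul]
        congr 1
        ring
      rw [h3]
      have h4 := Real.exp_neg_one_lt_d9
      exact pow_le_pow_left₀ (Real.exp_pos _).le (by linarith) k
    have h5 : (2⁻¹ : ENNReal) ^ k = ENNReal.ofReal ((1 / 2 : ℝ) ^ k) := by
      rw [ENNReal.ofReal_pow (by norm_num), one_div, ENNReal.ofReal_inv_of_pos (by norm_num)]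
      norm_num
    rw [h5, ← ENNReal.ofReal_mul (by positivity)]
    refine ENNReal.ofReal_le_ofReal ?_
    rw [neg_add, Real.exp_add, ← mul_assoc]
    exact mul_le_mul_of_nonneg_left h2 (by positivity)
  refine (ENNReal.tsum_le_tsum h1).trans ?_
  rw [ENNReal.tsum_mul_left, ENNReal.tsum_geometric, ENNReal.one_sub_inv_two, inv_inv]
  have h6 : (2 : ENNReal) = ENNReal.ofReal 2 := by norm_num
  rw [h6, ← ENNReal.ofReal_mul (by positivity)]
  exact le_of_eq (by congr 1; ring)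

private theorem LTA_markov (h : Base ν tw β) (m : ℝ) (hm : 0 ≤ m) :
    ((β 0).prod (ν 1)) {p | (⨆ x : ℚ, (p.1 x + 2 * |(x : ℝ)| + p.2 x 0)) ≤ -m} ≤
      ENNReal.ofReal (Real.exp (-m)) := by
  have hmeas : Measurable fun p : Ini × Kern => ⨆ x : ℚ, (p.1 x + 2 * |(x : ℝ)| + p.2 x 0) := by
    refine Measurable.iSup fun x => ?_
    fun_prop
  have hf : Measurable fun p : Ini × Kern =>
      ENNReal.ofReal (Real.exp (-2 * ⨆ x : ℚ, (p.1 x + 2 * |(x : ℝ)| + p.2 x 0))) := by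
    fun_prop
  have h1 := mul_meas_ge_le_lintegral (μ := (β 0).prod (ν 1)) hf (ENNReal.ofReal (Real.exp (2 * m)))
  have h2 : {p : Ini × Kern | (⨆ x : ℚ, (p.1 x + 2 * |(x : ℝ)| + p.2 x 0)) ≤ -m} ⊆
      {p | ENNReal.ofReal (Real.exp (2 * m)) ≤
        ENNReal.ofReal (Real.exp (-2 * ⨆ x : ℚ, (p.1 x + 2 * |(x : ℝ)| + p.2 x 0)))} := by
    intro p hp
    have hp' : (⨆ x : ℚ, (p.1 x + 2 * |(x : ℝ)| + p.2 x 0)) ≤ -m := hp
    refine ENNReal.ofReal_le_ofReal (Real.exp_le_exp.mpr ?_)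
    linarith
  have h3 := (mul_le_mul_right (measure_mono h2) (ENNReal.ofReal (Real.exp (2 * m)))).trans (h1.trans h.neg)
  have h4 : ENNReal.ofReal (Real.exp (-(2 * m))) * ENNReal.ofReal (Real.exp (2 * m)) = 1 := by
    rw [← ENNReal.ofReal_mul (Real.exp_pos _).le, ← Real.exp_add, neg_add_cancel, Real.exp_zero, ENNReal.ofReal_one]
  calc ((β 0).prod (ν 1)) {p | (⨆ x : ℚ, (p.1 x + 2 * |(x : ℝ)| + p.2 x 0)) ≤ -m}
      = ENNReal.ofReal (Real.exp (-(2 * m))) * (ENNReal.ofReal (Real.exp (2 * m)) *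
        ((β 0).prod (ν 1)) {p | (⨆ x : ℚ, (p.1 x + 2 * |(x : ℝ)| + p.2 x 0)) ≤ -m}) := by
        rw [← mul_assoc, h4, one_mul]
    _ ≤ ENNReal.ofReal (Real.exp (-(2 * m))) * 1 := by gcongr
    _ ≤ ENNReal.ofReal (Real.exp (-m)) := by
        rw [mul_one]
        exact ENNReal.ofReal_le_ofReal (Real.exp_le_exp.mpr (by linarith))

theorem low_sup (h : Base ν tw β) : ∃ C : ℝ, 1 ≤ C ∧ ∀ m : ℝ, 0 ≤ m →
    ν 1 {S | ∀ x : ℚ, |(x : ℝ)| ≤ 2 * √m + C → S x 0 < -3 * m} ≤ ENNReal.ofReal (C * Real.exp (-m)) := by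
  obtain ⟨C₁, hC₁, hcell⟩ := cell_sup h 8 (by norm_num)
  set M : ℝ := max 40000 (32 * (C₁ + 2)) with hM
  have hM1 : 40000 ≤ M := le_max_left _ _
  have hM2 : 32 * (C₁ + 2) ≤ M := le_max_right _ _
  have hexp1 : 0 < Real.exp (M ^ 2) := Real.exp_pos _
  refine ⟨4 * C₁ + 200 + Real.exp (M ^ 2), by linarith, fun m hm => ?_⟩
  have hp1 := h.prob 1 one_pos
  have hb0 := h.bm 0
  have hbp := hb0.prob
  by_cases hmM : m < M ^ 2
  · refine prob_le_one.trans ?_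
    rw [← ENNReal.ofReal_one]
    refine ENNReal.ofReal_le_ofReal ?_
    have h1 : 1 ≤ Real.exp (M ^ 2) * Real.exp (-m) := by
      rw [← Real.exp_add]
      exact Real.one_le_exp (by linarith)
    have h2 : 0 ≤ (4 * C₁ + 200) * Real.exp (-m) := by positivity
    nlinarith
  · rw [not_lt] at hmM
    set w : ℝ := √m with hw
    have hw2 : w ^ 2 = m := Real.sq_sqrt hm
    have hwM : M ≤ w := by
      rw [hw]
      exact Real.le_sqrt_of_sq_le hmM
    have hw4 : 40000 ≤ w := hM1.trans hwM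
    set J : ℕ := ⌊2 * w⌋₊ with hJ
    have hJ1 : (J : ℝ) ≤ 2 * w := Nat.floor_le (by linarith)
    have hJ2 : 2 * w < J + 1 := Nat.lt_floor_add_one _
    set L : ℕ := ⌈2 * w⌉₊ with hL
    have hL1 : 2 * w ≤ L := Nat.le_ceil _
    have hL2 : (L : ℝ) < 2 * w + 1 := Nat.ceil_lt_add_one (by linarith)
    have hLn : 1 ≤ L := by
      have : (0 : ℝ) < L := by linarith
      exact_mod_cast this
    -- the events
    set E0 : Set Ini := {f | ¬ f 0 = 0} with hE0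
    set E1 : Set Ini := {f | ∃ x : ℚ, |(x : ℝ)| ≤ L ∧ m < |f x - f 0|} with hE1
    set E3 : ℕ → Set Ini := fun k => {f | ∃ x : ℚ, |(x : ℝ)| ≤ ((J + k + 1 : ℕ) : ℝ) ∧
      ((J + k : ℕ) : ℝ) ^ 2 / 8 < |f x - f 0|} with hE3
    set G1 : ℕ → Set Kern := fun k => {S | ∃ x y : ℚ, ((J + k : ℕ) : ℚ) ≤ x ∧ x ≤ ((J + k : ℕ) : ℚ) + 1 ∧ 0 ≤ y ∧
      y ≤ 0 + 1 ∧ -(((0 : ℚ) : ℝ) - (((J + k : ℕ) : ℚ) : ℝ)) ^ 2 / 1 + C₁ * |((0 : ℚ) : ℝ) - (((J + k : ℕ) : ℚ) : ℝ)| +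
        C₁ + ((J + k : ℕ) : ℝ) ^ 2 / 4 < S x y} with hG1
    set G2 : ℕ → Set Kern := fun k => {S | ∃ x y : ℚ, (-((J + k + 1 : ℕ) : ℚ)) ≤ x ∧ x ≤ (-((J + k + 1 : ℕ) : ℚ)) + 1 ∧
      0 ≤ y ∧ y ≤ 0 + 1 ∧ -(((0 : ℚ) : ℝ) - ((-((J + k + 1 : ℕ) : ℚ) : ℚ) : ℝ)) ^ 2 / 1 +
        C₁ * |((0 : ℚ) : ℝ) - ((-((J + k + 1 : ℕ) : ℚ) : ℚ) : ℝ)| + C₁ + ((J + k : ℕ) : ℝ) ^ 2 / 4 < S x y} with hG2
    have hjk : ∀ k : ℕ, w ≤ ((J + k : ℕ) : ℝ) := by
      intro k
      push_cast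
      have : (0 : ℝ) ≤ k := Nat.cast_nonneg k
      linarith
    have hjw : ∀ k : ℕ, 2 * w - 1 ≤ ((J + k : ℕ) : ℝ) := by
      intro k
      push_cast
      have : (0 : ℝ) ≤ k := Nat.cast_nonneg k
      linarith
    have hj2 : ∀ k : ℕ, m + k ≤ 2 * ((J + k : ℕ) : ℝ) ^ 2 := by
      intro k
      have h1 := hjk k
      have h2 : (k : ℝ) ≤ ((J + k : ℕ) : ℝ) := by
        push_cast
        have : (0 : ℝ) ≤ J := Nat.cast_nonneg J
        linarith
      nlinarith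
    have b0 : (β 0) E0 = 0 := hb0.zero
    have b1 : (β 0) E1 ≤ ENNReal.ofReal (32 * Real.exp (-m)) := by
      refine (LTA_far hb0 L hLn m (by nlinarith)).trans (ENNReal.ofReal_le_ofReal ?_)
      refine mul_le_mul_of_nonneg_left (Real.exp_le_exp.mpr ?_) (by norm_num)
      rw [neg_div, neg_le_neg_iff, le_div_iff₀ (by linarith)]
      have h1 : 256 * (L : ℝ) ≤ m := by nlinarith
      nlinarith
    have b3 : (β 0) (⋃ k, E3 k) ≤ ENNReal.ofReal (2 * 32 * Real.exp (-m)) := by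
      refine (measure_iUnion_le _).trans (le_trans (ENNReal.tsum_le_tsum fun k => ?_) (LTA_sum 32 m (by norm_num)))
      have hj := hjk k
      set j : ℝ := ((J + k : ℕ) : ℝ) with hjd
      have hj0 : 40000 ≤ j := by linarith
      refine (LTA_far hb0 (J + k + 1) (by omega) (j ^ 2 / 8) (by positivity)).trans (ENNReal.ofReal_le_ofReal ?_)
      refine mul_le_mul_of_nonneg_left (Real.exp_le_exp.mpr ?_) (by norm_num)
      have hc : ((J + k + 1 : ℕ) : ℝ) = j + 1 := by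
        rw [hjd]
        push_cast
        ring
      rw [hc, neg_div, neg_le_neg_iff, le_div_iff₀ (by positivity)]
      have h1 := hj2 k
      have h2 : 2 * j ^ 2 * (64 * (j + 1)) ≤ (j ^ 2 / 8 / 2) ^ 2 := by
        have h3 : 32768 * (j + 1) ≤ j ^ 2 := by nlinarith
        have h4 : (j ^ 2 / 8 / 2) ^ 2 = j ^ 2 * j ^ 2 / 256 := by ring
        rw [h4]
        have h5 : 0 ≤ j ^ 2 := sq_nonneg j
        nlinarith
      refine le_trans (mul_le_mul_of_nonneg_right h1 (by positivity)) h2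
    have g1 : (ν 1) (⋃ k, G1 k) ≤ ENNReal.ofReal (2 * C₁ * Real.exp (-m)) := by
      refine (measure_iUnion_le _).trans (le_trans (ENNReal.tsum_le_tsum fun k => ?_) (LTA_sum C₁ m (by linarith)))
      refine (hcell 1 (by norm_num) (by norm_num) ((J + k : ℕ) : ℚ) 0 (((J + k : ℕ) : ℝ) ^ 2 / 4) (by positivity)).trans
        (ENNReal.ofReal_le_ofReal ?_)
      refine mul_le_mul_of_nonneg_left (Real.exp_le_exp.mpr ?_) (by linarith)
      have h1 := hj2 k
      linarith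
    have g2 : (ν 1) (⋃ k, G2 k) ≤ ENNReal.ofReal (2 * C₁ * Real.exp (-m)) := by
      refine (measure_iUnion_le _).trans (le_trans (ENNReal.tsum_le_tsum fun k => ?_) (LTA_sum C₁ m (by linarith)))
      refine (hcell 1 (by norm_num) (by norm_num) (-((J + k + 1 : ℕ) : ℚ)) 0 (((J + k : ℕ) : ℝ) ^ 2 / 4)
        (by positivity)).trans (ENNReal.ofReal_le_ofReal ?_)
      refine mul_le_mul_of_nonneg_left (Real.exp_le_exp.mpr ?_) (by linarith)
      have h1 := hj2 k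
      linarith
    set A : Set Kern := {S | ∀ x : ℚ, |(x : ℝ)| ≤ 2 * w + (4 * C₁ + 200 + Real.exp (M ^ 2)) → S x 0 < -3 * m} with hA
    have hsub : (Set.univ : Set Ini) ×ˢ A ⊆ {p | (⨆ x : ℚ, (p.1 x + 2 * |(x : ℝ)| + p.2 x 0)) ≤ -m} ∪
        ((E0 ∪ (E1 ∪ ⋃ k, E3 k)) ×ˢ (Set.univ : Set Kern) ∪
          (Set.univ : Set Ini) ×ˢ ((⋃ k, G1 k) ∪ ⋃ k, G2 k)) := by
      rintro ⟨f, S⟩ ⟨-, hS⟩
      by_cases c1 : f ∈ E0 ∪ (E1 ∪ ⋃ k, E3 k)
      · exact Or.inr (Or.inl ⟨c1, trivial⟩)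
      by_cases c2 : S ∈ (⋃ k, G1 k) ∪ ⋃ k, G2 k
      · exact Or.inr (Or.inr ⟨trivial, c2⟩)
      left
      have hf0 : f 0 = 0 := by
        by_contra hne
        exact c1 (Or.inl hne)
      have hf1 : ∀ x : ℚ, |(x : ℝ)| ≤ L → |f x| ≤ m := by
        intro x hx
        by_contra hne
        rw [not_le] at hne
        refine c1 (Or.inr (Or.inl ⟨x, hx, ?_⟩))
        rwa [hf0, sub_zero]
      have hf3 : ∀ (k : ℕ) (x : ℚ), |(x : ℝ)| ≤ ((J + k + 1 : ℕ) : ℝ) → |f x| ≤ ((J + k : ℕ) : ℝ) ^ 2 / 8 := by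
        intro k x hx
        by_contra hne
        rw [not_le] at hne
        refine c1 (Or.inr (Or.inr (Set.mem_iUnion.mpr ⟨k, x, hx, ?_⟩)))
        rwa [hf0, sub_zero]
      have hS1 : ∀ (k : ℕ) (x : ℚ), ((J + k : ℕ) : ℚ) ≤ x → x ≤ ((J + k : ℕ) : ℚ) + 1 →
          S x 0 ≤ -(((J + k : ℕ) : ℝ) ^ 2) + C₁ * ((J + k : ℕ) : ℝ) + C₁ + ((J + k : ℕ) : ℝ) ^ 2 / 4 := by
        intro k x h1 h2
        by_contra hne
        rw [not_le] at hne
        refine c2 (Or.inl (Set.mem_iUnion.mpr ⟨k, x, 0, h1, h2, le_rfl, by norm_num, ?_⟩))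
        refine lt_of_le_of_lt (le_of_eq ?_) hne
        have h3 : (0 : ℝ) ≤ ((J + k : ℕ) : ℝ) := Nat.cast_nonneg _
        rw [Rat.cast_zero, Rat.cast_natCast, zero_sub, abs_neg, abs_of_nonneg h3]
        ring
      have hS2 : ∀ (k : ℕ) (x : ℚ), -((J + k + 1 : ℕ) : ℚ) ≤ x → x ≤ -((J + k + 1 : ℕ) : ℚ) + 1 →
          S x 0 ≤ -(((J + k + 1 : ℕ) : ℝ) ^ 2) + C₁ * ((J + k + 1 : ℕ) : ℝ) + C₁ + ((J + k : ℕ) : ℝ) ^ 2 / 4 := by
        intro k x h1 h2
        by_contra hne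
        rw [not_le] at hne
        refine c2 (Or.inr (Set.mem_iUnion.mpr ⟨k, x, 0, h1, h2, le_rfl, by norm_num, ?_⟩))
        refine lt_of_le_of_lt (le_of_eq ?_) hne
        have h3 : (0 : ℝ) ≤ ((J + k + 1 : ℕ) : ℝ) := Nat.cast_nonneg _
        rw [Rat.cast_zero, Rat.cast_neg, Rat.cast_natCast, zero_sub, neg_neg, abs_of_nonneg h3]
        ring
      change (⨆ x : ℚ, (f x + 2 * |(x : ℝ)| + S x 0)) ≤ -m
      refine ciSup_le fun x => ?_
      change f x + 2 * |(x : ℝ)| + S x 0 ≤ -m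
      by_cases hx : |(x : ℝ)| ≤ 2 * w
      · have h1 := (abs_le.mp (hf1 x (hx.trans hL1))).2
        have h2 : S x 0 < -3 * m := hS x (by linarith)
        nlinarith
      · rw [not_le] at hx
        obtain ⟨k, hk⟩ : ∃ k : ℕ, ⌊|x|⌋₊ = J + k := by
          refine ⟨⌊|x|⌋₊ - J, ?_⟩
          have h1 : J ≤ ⌊|x|⌋₊ := by
            refine Nat.le_floor ?_
            have h2 : (J : ℝ) ≤ |(x : ℝ)| := by linarith
            exact_mod_cast h2
          omega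
        have hk1 : ((J + k : ℕ) : ℚ) ≤ |x| := by
          rw [← hk]
          exact Nat.floor_le (abs_nonneg x)
        have hk2 : |x| < ((J + k : ℕ) : ℚ) + 1 := by
          rw [← hk]
          exact Nat.lt_floor_add_one _
        have hk2r : |(x : ℝ)| < ((J + k : ℕ) : ℝ) + 1 := by exact_mod_cast hk2
        have hf4 := (abs_le.mp (hf3 k x (by push_cast at hk2r ⊢; linarith))).2
        have hj := hjk k
        have hj' := hjw k
        have hc1 : ((J + k + 1 : ℕ) : ℝ) = ((J + k : ℕ) : ℝ) + 1 := by push_cast; ring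
        have hSb : S x 0 ≤ -(((J + k : ℕ) : ℝ) ^ 2) + C₁ * (((J + k : ℕ) : ℝ) + 1) + C₁ +
            ((J + k : ℕ) : ℝ) ^ 2 / 4 := by
          rcases le_total 0 x with h0 | h0
          · rw [abs_of_nonneg h0] at hk1 hk2
            have h1 := hS1 k x hk1 hk2.le
            linarith
          · rw [abs_of_nonpos h0] at hk1 hk2
            have h1 := hS2 k x (by push_cast at hk1 hk2 ⊢; linarith) (by push_cast at hk1 hk2 ⊢; linarith)
            rw [hc1] at h1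
            nlinarith
        set j : ℝ := ((J + k : ℕ) : ℝ) with hjd
        have h3 : (C₁ + 2) * (j + 1) + C₁ ≤ j ^ 2 / 8 := by
          have h4 : 32 * (C₁ + 2) ≤ j := by linarith
          nlinarith
        have h5 : m ≤ j ^ 2 / 2 := by nlinarith
        nlinarith
    have key : (ν 1) A ≤ ENNReal.ofReal (Real.exp (-m)) + ((0 + (ENNReal.ofReal (32 * Real.exp (-m)) +
        ENNReal.ofReal (2 * 32 * Real.exp (-m)))) + (ENNReal.ofReal (2 * C₁ * Real.exp (-m)) +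
          ENNReal.ofReal (2 * C₁ * Real.exp (-m)))) := by
      have h1 : ((β 0).prod (ν 1)) ((Set.univ : Set Ini) ×ˢ A) = (ν 1) A := by
        rw [Measure.prod_prod, measure_univ, one_mul]
      rw [← h1]
      refine (measure_mono hsub).trans ((measure_union_le _ _).trans ?_)
      refine add_le_add (LTA_markov h m hm) ((measure_union_le _ _).trans ?_)
      rw [Measure.prod_prod, Measure.prod_prod, measure_univ, measure_univ, one_mul, mul_one]
      refine add_le_add ((measure_union_le _ _).trans (add_le_add b0.le ((measure_union_le _ _).trans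
        (add_le_add b1 b3)))) ((measure_union_le _ _).trans (add_le_add g1 g2))
    refine key.trans ?_
    have hx : 0 < Real.exp (-m) := Real.exp_pos _
    rw [zero_add, ← ENNReal.ofReal_add (by positivity) (by positivity), ← ENNReal.ofReal_add (by positivity)
      (by positivity), ← ENNReal.ofReal_add (by positivity) (by positivity), ← ENNReal.ofReal_add (by positivity)
      (by positivity)]
    refine ENNReal.ofReal_le_ofReal ?_
    have h6 : 0 < Real.exp (M ^ 2) * Real.exp (-m) := by positivity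
    nlinarith

end Pool.Agent.DLM
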