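import Pool.Agent.DLM.PRL

/-!
# DLM/MIX: replacing a block; measurability (80-120 lines)

`mix_law`: `Measure.eq_infinitePi` for the map `(S, S') ↦ mixS b k S S'` on `piM ⊗ piM` (a box with sides `t l`, `l ∈ s`, pulls back to the product of two boxes: `l ∈ s` outside the block for `S`, in the block for `S'`; product of the measures), then the product with `β`.
`pre_mix`, `sfx_mix`, `blkS_mix`: `pre f S s` depends on `S l`, `l < s`; `sfx S K s` on `S l`, `l ≥ s`; `good_congr`: `Good` depends on `U j`, `j < k`.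
`osc_meas`: `Near` and `SOsc` only depend on `z 0, .., z K`, so the set is the union over `z' : Fin (K+1) → ℚ` (countable) of measurable sets (`z l = z' l` for `l ≤ K`, else `0`; `pre_meas`).
-/

set_option autoImplicit false

open MeasureTheory ProbabilityTheory Filter Topology

namespace Pool.Agent.DLM

variable {ν : ℝ → Measure Kern} {tw : Measure ℝ} {β : ℝ → Measure Ini}

theorem mix_meas (b k : ℕ) :
    Measurable fun q : (Ini × (ℕ → Kern)) × (ℕ → Kern) => (q.1.1, mixS b k q.1.2 q.2) := by
  refine measurable_fst.fst.prodMk (measurable_pi_iff.2 fun l => ?_)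
  unfold mixS
  by_cases h : b ≤ l ∧ l < b + k
  · simp only [h, and_self, if_true]
    exact (measurable_pi_apply l).comp measurable_snd
  · simp only [h, if_false]
    exact (measurable_pi_apply l).comp measurable_fst.snd

private lemma mixx_meas (b k : ℕ) :
    Measurable fun q : (ℕ → Kern) × (ℕ → Kern) => mixS b k q.1 q.2 := by
  refine measurable_pi_iff.2 fun l => ?_
  unfold mixS
  by_cases h : b ≤ l ∧ l < b + k
  · simp only [h, and_self, if_true]
    exact (measurable_pi_apply l).comp measurable_snd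
  · simp only [h, if_false]
    exact (measurable_pi_apply l).comp measurable_fst

private lemma mixx_law (h : Base ν tw β) {dur : ℕ → ℝ} (hd : ∀ l, 0 < dur l) (bb k : ℕ) :
    ((piM ν dur).prod (piM ν dur)).map (fun q => mixS bb k q.1 q.2) = piM ν dur := by
  classical
  have hp : ∀ l, IsProbabilityMeasure (ν (dur l)) := fun l => h.prob _ (hd l)
  unfold piM
  apply Measure.eq_infinitePi
  intro s t ht
  rw [Measure.map_apply (mixx_meas bb k) (MeasurableSet.pi s.countable_toSet fun l _ => ht l)]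
  have e : (fun q : (ℕ → Kern) × (ℕ → Kern) => mixS bb k q.1 q.2) ⁻¹' (Set.pi (s : Set ℕ) t) =
      (Set.pi ((s.filter fun l => ¬ (bb ≤ l ∧ l < bb + k) : Finset ℕ) : Set ℕ) t) ×ˢ
        (Set.pi ((s.filter fun l => (bb ≤ l ∧ l < bb + k) : Finset ℕ) : Set ℕ) t) := by
    ext q
    rw [Set.mem_preimage, Set.mem_prod, Set.mem_pi, Set.mem_pi, Set.mem_pi]
    constructor
    · intro hq
      constructor
      · intro l hl
        have hl' := Finset.mem_filter.1 (Finset.mem_coe.1 hl)
        have := hq l (Finset.mem_coe.2 hl'.1)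
        unfold mixS at this
        rw [if_neg hl'.2] at this
        exact this
      · intro l hl
        have hl' := Finset.mem_filter.1 (Finset.mem_coe.1 hl)
        have := hq l (Finset.mem_coe.2 hl'.1)
        unfold mixS at this
        rw [if_pos hl'.2] at this
        exact this
    · rintro ⟨h1, h2⟩ l hl
      unfold mixS
      by_cases hb : bb ≤ l ∧ l < bb + k
      · rw [if_pos hb]
        exact h2 l (Finset.mem_coe.2 (Finset.mem_filter.2 ⟨Finset.mem_coe.1 hl, hb⟩))
      · rw [if_neg hb]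
        exact h1 l (Finset.mem_coe.2 (Finset.mem_filter.2 ⟨Finset.mem_coe.1 hl, hb⟩))
  rw [e, Measure.prod_prod, Measure.infinitePi_pi _ (fun l _ => ht l), Measure.infinitePi_pi _ (fun l _ => ht l),
    mul_comm]
  exact Finset.prod_filter_mul_prod_filter_not s _ _

theorem mix_law (h : Base ν tw β) {dur : ℕ → ℝ} (hd : ∀ l, 0 < dur l) (b : ℝ) (bb k : ℕ) :
    ((envM ν β dur b).prod (piM ν dur)).map (fun q => (q.1.1, mixS bb k q.1.2 q.2)) = envM ν β dur b := by
  have h1 := piM_prob h hd
  have h2 := (h.bm b).prob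
  unfold envM
  have e : (fun q : (Ini × (ℕ → Kern)) × (ℕ → Kern) => (q.1.1, mixS bb k q.1.2 q.2)) =
      (Prod.map (fun f : Ini => f) (fun q : (ℕ → Kern) × (ℕ → Kern) => mixS bb k q.1 q.2)) ∘
        MeasurableEquiv.prodAssoc := by
    funext q
    rfl
  have hid : Measurable (fun f : Ini => f) := measurable_id
  rw [e, ← Measure.map_map (hid.prodMap (mixx_meas bb k)) MeasurableEquiv.prodAssoc.measurable,
    Measure.prodAssoc_prod, ← Measure.map_prod_map _ _ hid (mixx_meas bb k), mixx_law h hd,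
    Measure.map_id']

theorem pre_mix (f : Ini) (S S' : ℕ → Kern) (b k s : ℕ) (hs : s ≤ b) : pre f (mixS b k S S') s = pre f S s := by
  induction s with
  | zero => rfl
  | succ s ih =>
    have h1 : mixS b k S S' s = S s := by
      unfold mixS
      rw [if_neg (by omega)]
    show act (pre f (mixS b k S S') s) (mixS b k S S' s) = act (pre f S s) (S s)
    rw [ih (by omega), h1]

theorem sfx_mix (S S' : ℕ → Kern) (b k K s : ℕ) (hs : b + k ≤ s) : sfx (mixS b k S S') K s = sfx S K s := by
  have h1 : shf (mixS b k S S') s = shf S s := by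
    funext l
    unfold shf mixS
    rw [if_neg (by omega)]
  unfold sfx
  rw [h1]

private lemma mix_wt_congr {k : ℕ} {U U' : ℕ → Kern} (h : ∀ j < k, U j = U' j) (z : ℕ → ℚ) :
    wt U z 0 k = wt U' z 0 k := by
  unfold wt
  refine Finset.sum_congr rfl fun l hl => ?_
  rw [h l (Finset.mem_Ico.1 hl).2]

theorem good_congr {k : ℕ} {v : ℚ} {a Λ A C₂ : ℝ} {U U' : ℕ → Kern} (h : ∀ j < k, U j = U' j)
    (hg : Good k v a Λ A C₂ U) : Good k v a Λ A C₂ U' := by
  obtain ⟨h1, h2, h3⟩ := hg
  refine ⟨fun l hl => ?_, fun z hz hz' => ?_, fun z hz => ?_⟩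
  · rw [← h l hl]
    exact h1 l hl
  · rw [← mix_wt_congr h z]
    exact h2 z hz hz'
  · rw [← mix_wt_congr h z]
    exact h3 z hz

theorem blkS_mix (S S' : ℕ → Kern) (w b k j : ℕ) (x₀ : ℚ) (hj : j < k) :
    blkS w b x₀ (mixS b k S S') j = blkS w b x₀ S' j := by
  have h1 : mixS b k S S' (b + j) = S' (b + j) := by
    unfold mixS
    rw [if_pos (by omega)]
  unfold blkS
  rw [h1]

theorem osc_meas (K b k : ℕ) (Λ ε : ℝ) (hb : b + k ≤ K) :
    MeasurableSet {p : Ini × (ℕ → Kern) | ∃ z, Near p.1 p.2 K ε z ∧ SOsc b k Λ z} := by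
  let ext : (Fin (K + 1) → ℚ) → ℕ → ℚ := fun z l => if hl : l < K + 1 then z ⟨l, hl⟩ else 0
  have e : {p : Ini × (ℕ → Kern) | ∃ z, Near p.1 p.2 K ε z ∧ SOsc b k Λ z} =
      ⋃ z : Fin (K + 1) → ℚ, {p | Near p.1 p.2 K ε (ext z) ∧ SOsc b k Λ (ext z)} := by
    ext p
    rw [Set.mem_iUnion]
    constructor
    · rintro ⟨z, hz, hz'⟩
      refine ⟨fun i => z i, ?_⟩
      have hzz : ∀ l ≤ K, ext (fun i : Fin (K + 1) => z i) l = z l := by
        intro l hl
        show (if hl : l < K + 1 then z l else 0) = z l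
        rw [dif_pos (Nat.lt_succ_of_le hl)]
      refine ⟨⟨by rw [hzz K le_rfl]; exact hz.1, ?_⟩, ?_⟩
      · have hw : wt p.2 (ext fun i : Fin (K + 1) => z i) 0 K = wt p.2 z 0 K := by
          unfold wt
          refine Finset.sum_congr rfl fun l hl => ?_
          have := (Finset.mem_Ico.1 hl).2
          rw [hzz l this.le, hzz (l + 1) this]
        rw [hw, hzz 0 (Nat.zero_le _)]
        exact hz.2
      · intro l l' h1 h2 h3 h4
        rw [hzz l (h2.trans hb), hzz l' (h4.trans hb)]
        exact hz' l l' h1 h2 h3 h4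
    · rintro ⟨z, hz⟩
      exact ⟨ext z, hz⟩
  rw [e]
  refine MeasurableSet.iUnion fun z => ?_
  have hpre : Measurable fun p : Ini × (ℕ → Kern) => pre p.1 p.2 K 0 :=
    (measurable_pi_apply (0 : ℚ)).comp (pre_meas K)
  have hf : Measurable fun p : Ini × (ℕ → Kern) => p.1 (ext z 0) :=
    (measurable_pi_apply _).comp measurable_fst
  have hwt : Measurable fun p : Ini × (ℕ → Kern) => wt p.2 (ext z) 0 K := by
    unfold wt
    refine Finset.measurable_sum _ fun l _ => ?_
    exact (measurable_pi_apply _).comp ((measurable_pi_apply _).comp ((measurable_pi_apply l).comp measurable_snd))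
  have e2 : {p : Ini × (ℕ → Kern) | Near p.1 p.2 K ε (ext z) ∧ SOsc b k Λ (ext z)} =
      ({_p : Ini × (ℕ → Kern) | ext z K = 0} ∩
        {p | pre p.1 p.2 K 0 ≤ p.1 (ext z 0) + wt p.2 (ext z) 0 K + ε}) ∩
        {_p : Ini × (ℕ → Kern) | SOsc b k Λ (ext z)} := by
    ext p
    rfl
  rw [e2]
  exact ((MeasurableSet.const _).inter (measurableSet_le hpre ((hf.add hwt).add_const ε))).inter
    (MeasurableSet.const _)

end Pool.Agent.DLM
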