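import Pool.Agent.DLM.TNT

/-!
# DLM/NTD: near ties, the deterministic part (80-120 lines)

`ntd_diam`: let `φ = tA D l`.  At `θ₁`: `y₁ ∈ I_l` maximises `T + θ₁ φ`, `y'₁ ∈ [(l+2) D, (l+5) D)` with `T y₁ + θ₁ φ y₁ ≤ T y'₁ + θ₁ φ y'₁ + ε`; at `θ₂` the point `y₂ ∈ I_l` maximises `T + θ₂ φ`.  Then
`T y₂ + θ₂ φ y₂ ≥ T y'₁ + θ₂ φ y'₁ ≥ T y₁ + θ₁ φ y₁ - ε + (θ₂ - θ₁) φ y'₁ ≥ T y₂ + θ₁ φ y₂ - ε + (θ₂ - θ₁) φ y'₁`, so `(θ₂ - θ₁)(φ y'₁ - φ y₂) ≤ ε` and `φ y'₁ - φ y₂ ≥ 1`.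
`ntd_vol`: a set of real numbers of diameter `≤ ε` has (outer) measure `≤ ε`: it is contained in `[inf, inf + ε]`.
`ntd_loc`: if `x ∈ F` maximises `T + 2 √D ψ` (`ψ = tB D l`) and `x` is not in `((l-1) D, (l+2) D)` then `ψ x = 0` and `T x ≥ T y + 2 √D`, but `T x ≤ T y + θ φ y - θ φ x ≤ T y + θ ≤ T y + √D`.
`ntd_count`: `F` nonempty has a maximiser `x`; `QT l` implies `x/D - 2 < l < x/D + 1`: at most `3` integers.
-/

set_option autoImplicit false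

open MeasureTheory ProbabilityTheory Filter Topology

namespace Pool.Agent.DLM

theorem ntd_diam (F : Finset ℚ) (D : ℚ) (hD : 0 < D) (l : ℤ) (ε : ℝ) (T : ℚ → ℝ) (θ₁ θ₂ : ℝ)
    (h1 : EvT F D l ε (fun x => T x + θ₁ * tA D l x)) (h2 : EvT F D l ε (fun x => T x + θ₂ * tA D l x))
    (h : θ₁ ≤ θ₂) : θ₂ - θ₁ ≤ ε := by
  have hDR : (0 : ℝ) < D := by exact_mod_cast hD
  obtain ⟨y₁, hy₁, ha₁, hb₁, hm₁, z, hz, hz1, hz2, hz3⟩ := h1
  obtain ⟨y₂, hy₂, ha₂, hb₂, hm₂, -⟩ := h2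
  have e1 := hm₂ z hz
  have e2 := hm₁ y₂ hy₂
  simp only at e1 e2 hz3
  have hz1R : (y₁ : ℝ) + 2 * D ≤ z := by exact_mod_cast hz1
  have hz2R : (z : ℝ) < y₁ + 4 * D := by exact_mod_cast hz2
  have f1 : 2 ≤ tA D l z := tA_ge D hD l z (by linarith) (by linarith)
  have f2 : tA D l y₂ ≤ 1 := tA_le D hD l y₂ hb₂
  have f3 : (θ₂ - θ₁) * (tA D l z - tA D l y₂) ≤ ε := by linarith
  have f4 : (θ₂ - θ₁) * 1 ≤ (θ₂ - θ₁) * (tA D l z - tA D l y₂) :=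
    mul_le_mul_of_nonneg_left (by linarith) (by linarith)
  linarith

theorem ntd_vol (F : Finset ℚ) (D : ℚ) (hD : 0 < D) (l : ℤ) (ε : ℝ) (T : ℚ → ℝ) :
    volume {θ : ℝ | EvT F D l ε (fun x => T x + θ * tA D l x)} ≤ ENNReal.ofReal ε := by
  rcases Set.eq_empty_or_nonempty {θ : ℝ | EvT F D l ε (fun x => T x + θ * tA D l x)} with h0 | ⟨θ₀, h0⟩
  · rw [h0, measure_empty]
    exact zero_le
  · have hε : 0 ≤ ε := by
      have := ntd_diam F D hD l ε T θ₀ θ₀ h0 h0 le_rfl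
      simpa using this
    have key : ∀ θ θ' : ℝ, EvT F D l ε (fun x => T x + θ * tA D l x) → EvT F D l ε (fun x => T x + θ' * tA D l x) →
        θ - ε ≤ θ' := by
      intro θ θ' hθ hθ'
      rcases le_total θ' θ with h | h
      · have := ntd_diam F D hD l ε T θ' θ hθ' hθ h
        linarith
      · linarith
    have hbdd : BddBelow {θ : ℝ | EvT F D l ε (fun x => T x + θ * tA D l x)} :=
      ⟨θ₀ - ε, fun θ hθ => key θ₀ θ h0 hθ⟩
    have hsub : {θ : ℝ | EvT F D l ε (fun x => T x + θ * tA D l x)} ⊆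
        Set.Icc (sInf {θ : ℝ | EvT F D l ε (fun x => T x + θ * tA D l x)})
          (sInf {θ : ℝ | EvT F D l ε (fun x => T x + θ * tA D l x)} + ε) := by
      intro θ hθ
      refine ⟨csInf_le hbdd hθ, ?_⟩
      have h1 : θ - ε ≤ sInf {θ : ℝ | EvT F D l ε (fun x => T x + θ * tA D l x)} :=
        le_csInf ⟨θ₀, h0⟩ fun θ' hθ' => key θ θ' hθ hθ'
      linarith
    refine (measure_mono hsub).trans ?_
    rw [Real.volume_Icc]
    exact le_of_eq (by congr 1; ring)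

theorem ntd_loc (F : Finset ℚ) (D : ℚ) (hD : 0 < D) (l : ℤ) (ε : ℝ) (T : ℚ → ℝ) (θ : ℝ) (h0 : 0 ≤ θ) (h1 : θ ^ 2 ≤ D)
    (h : EvT F D l ε (fun x => T x + θ * tA D l x)) : QT F D l (fun x => T x + 2 * √(D : ℝ) * tB D l x) := by
  have hDR : (0 : ℝ) < D := by exact_mod_cast hD
  obtain ⟨y, hy, ha, hb, hm, -⟩ := h
  intro x hx hmax
  simp only at hm hmax
  by_contra hcon
  have hx0 : tB D l x = 0 := by
    refine tB_zero D hD l x ?_
    by_contra hc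
    push Not at hc
    exact hcon hc
  have e1 := hmax y hy
  rw [hx0, tB_one D hD l y ha hb] at e1
  have e2 := hm x hx
  have e3 : 0 ≤ θ * tA D l x := mul_nonneg h0 (tA_nonneg D l x)
  have e4 : θ * tA D l y ≤ θ * 1 := mul_le_mul_of_nonneg_left (tA_le D hD l y hb) h0
  have e5 : θ ≤ √(D : ℝ) := Real.le_sqrt_of_sq_le h1
  have e6 : 0 < √(D : ℝ) := Real.sqrt_pos.mpr hDR
  linarith

theorem ntd_count (F : Finset ℚ) (hF : F.Nonempty) (D : ℚ) (hD : 0 < D) (T : ℚ → ℝ) (Λ : Finset ℤ)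
    (hΛ : ∀ l ∈ Λ, QT F D l T) : Λ.card ≤ 3 := by
  have hDR : (0 : ℝ) < D := by exact_mod_cast hD
  obtain ⟨x, hx, hm⟩ := Finset.exists_max_image F T hF
  have hsub : Λ ⊆ Finset.Icc (⌊(x : ℝ) / D⌋ - 1) (⌊(x : ℝ) / D⌋ + 1) := by
    intro l hl
    obtain ⟨h1, h2⟩ := hΛ l hl x hx hm
    rw [Finset.mem_Icc]
    have h3 : ((l : ℝ) - 1) < (x : ℝ) / D := by rwa [lt_div_iff₀ hDR]
    have h4 : (x : ℝ) / D < l + 2 := by rwa [div_lt_iff₀ hDR]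
    constructor
    · have h5 : ⌊(x : ℝ) / D⌋ < l + 2 := by
        rw [Int.floor_lt]
        push_cast
        exact h4
      omega
    · have h5 : l - 1 ≤ ⌊(x : ℝ) / D⌋ := by
        rw [Int.le_floor]
        push_cast
        exact h3.le
      omega
  refine (Finset.card_le_card hsub).trans ?_
  rw [Int.card_Icc]
  omega

end Pool.Agent.DLM
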