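import Pool.Agent.DLM.Defs

/-!
# DLM/NTDefs: definitions for the near tie lemma

`Energy h e`: the Dirichlet energy of `h` on the rationals is at most `e`.  `tA`, `tB`: tents.  `EvT`: the maximum of `T` over `F` is
attained at some `y` in `[l D, (l+1) D)` and some `y'` in `[y + 2 D, y + 4 D)` is almost a maximiser.  `QT`: all maximisers are in `((l-1) D, (l+2) D)`.
-/

set_option autoImplicit false

open MeasureTheory ProbabilityTheory Filter Topology

namespace Pool.Agent.DLM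

/-- the Dirichlet energy of `h` is at most `e` -/
def Energy (h : ℚ → ℝ) (e : ℝ) : Prop :=
  ∀ t : ℕ → ℚ, StrictMono t → ∀ n : ℕ,
    ∑ i ∈ Finset.range n, (h (t (i + 1)) - h (t i)) ^ 2 / ((t (i + 1) : ℝ) - t i) ≤ e

/-- tent with slopes `1/D`, support `[l D, (l + 10) D]` -/
noncomputable def tA (D : ℚ) (l : ℤ) (x : ℚ) : ℝ := max 0 (min ((x : ℝ) / D - l) (l + 10 - (x : ℝ) / D))

/-- tent equal to one on `[l D, (l + 1) D]`, with support `[(l - 1) D, (l + 2) D]` -/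
noncomputable def tB (D : ℚ) (l : ℤ) (x : ℚ) : ℝ :=
  max 0 (min 1 (min ((x : ℝ) / D - (l - 1)) (l + 2 - (x : ℝ) / D)))

/-- near tie between a maximiser in the `l`-th interval and a point to the right of it -/
def EvT (F : Finset ℚ) (D : ℚ) (l : ℤ) (ε : ℝ) (T : ℚ → ℝ) : Prop :=
  ∃ y ∈ F, (l : ℝ) * D ≤ y ∧ (y : ℝ) < (l + 1) * D ∧ (∀ x ∈ F, T x ≤ T y) ∧
    ∃ y' ∈ F, y + 2 * D ≤ y' ∧ y' < y + 4 * D ∧ T y ≤ T y' + ε

/-- all maximisers are close to the `l`-th interval -/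
def QT (F : Finset ℚ) (D : ℚ) (l : ℤ) (T : ℚ → ℝ) : Prop :=
  ∀ x ∈ F, (∀ x' ∈ F, T x' ≤ T x) → ((l : ℝ) - 1) * D < x ∧ (x : ℝ) < (l + 2) * D

end Pool.Agent.DLM
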