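import Pool.Agent.DLM.NTD
import Pool.Agent.DLM.CMB

/-!
# DLM/NTE: near ties, one interval (100-150 lines)

Let `a θ = β {f | EvT F D l ε (f + g + θ tA)}` for `0 ≤ θ ≤ √D`.  By `cmb'` (`A = {f | EvT F D l ε (f + g)}`: measurable (finite Boolean combination of inequalities between coordinates; `Finset` unions), depends on `F`, invariant under constants;
`h = θ tA`, `e = 10`): `β A ≤ exp(5 (p-1)/2) (a θ)^(1 - 1/p)`, i.e. `(β A/C)^(1/(1-1/p)) ≤ a θ`.  Integrate over `θ ∈ [0, √D]`: `√D (β A/C)^(1/(1-1/p)) ≤ ∫ a θ dθ = ∫ volume {θ ∈ [0,√D] | EvT ..} dβ(f) ≤ ε β(N)` (Tonelli `lintegral_prod_symm`,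
joint measurability; `ntd_vol`), `N = {f | ∃ θ ∈ [0, √D], EvT F D l ε (f + g + θ tA)} ⊆ N' = {f | QT F D l (f + g + 2 √D tB)}` (`ntd_loc`); use `N'` (measurable) from the beginning.  So `β A ≤ C (ε β(N')/√D)^(1 - 1/p)`.
By `cmb'` for `{f | QT F D l (f + g + 2 √D tB)}` and the shift `h = -2 √D tB` (energy `12`, `Energy` of `-h`): `β(N') ≤ exp(3 (p-1)) (β {f | QT F D l (f + g)})^(1 - 1/p)`.  Total constant: `exp(5(p-1)/2) exp(3 (p-1))^(1-1/p) ≤ exp(6 p)`.
-/

set_option autoImplicit false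

open MeasureTheory ProbabilityTheory Filter Topology

namespace Pool.Agent.DLM

private theorem NTE_evt_congr {F : Finset ℚ} {D : ℚ} {l : ℤ} {ε : ℝ} {T T' : ℚ → ℝ} (c : ℝ)
    (h : ∀ x ∈ F, T x = T' x + c) : EvT F D l ε T ↔ EvT F D l ε T' := by
  constructor
  · rintro ⟨y, hy, h1, h2, h3, y', hy', h4, h5, h6⟩
    refine ⟨y, hy, h1, h2, fun x hx => ?_, y', hy', h4, h5, ?_⟩
    · have := h3 x hx
      rw [h x hx, h y hy] at this
      linarith
    · rw [h y hy, h y' hy'] at h6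
      linarith
  · rintro ⟨y, hy, h1, h2, h3, y', hy', h4, h5, h6⟩
    refine ⟨y, hy, h1, h2, fun x hx => ?_, y', hy', h4, h5, ?_⟩
    · have := h3 x hx
      rw [h x hx, h y hy]
      linarith
    · rw [h y hy, h y' hy']
      linarith

private theorem NTE_qt_congr {F : Finset ℚ} {D : ℚ} {l : ℤ} {T T' : ℚ → ℝ} (c : ℝ)
    (h : ∀ x ∈ F, T x = T' x + c) : QT F D l T ↔ QT F D l T' := by
  constructor
  · intro h1 x hx h2
    refine h1 x hx fun x' hx' => ?_
    rw [h x hx, h x' hx']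
    have := h2 x' hx'
    linarith
  · intro h1 x hx h2
    refine h1 x hx fun x' hx' => ?_
    have := h2 x' hx'
    rw [h x hx, h x' hx'] at this
    linarith

private theorem NTE_le_meas {X : Type*} [MeasurableSpace X] {f g : X → ℝ} (hf : Measurable f) (hg : Measurable g) :
    Measurable fun z => f z ≤ g z := measurableSet_setOfPred.1 (measurableSet_le hf hg)

private theorem NTE_evt_meas {X : Type*} [MeasurableSpace X] (F : Finset ℚ) (D : ℚ) (l : ℤ) (ε : ℝ) (T : X → ℚ → ℝ)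
    (hT : ∀ x, Measurable fun z => T z x) : MeasurableSet {z | EvT F D l ε (T z)} := by
  rw [measurableSet_setOfPred]
  unfold EvT
  refine Measurable.exists fun y => measurable_const.and (measurable_const.and (measurable_const.and
    (Measurable.and ?_ ?_)))
  · exact Measurable.forall fun x => measurable_const.imp (NTE_le_meas (hT x) (hT y))
  · refine Measurable.exists fun y' => measurable_const.and (measurable_const.and (measurable_const.and ?_))
    exact NTE_le_meas (hT y) ((hT y').add_const ε)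

private theorem NTE_qt_meas {X : Type*} [MeasurableSpace X] (F : Finset ℚ) (D : ℚ) (l : ℤ) (T : X → ℚ → ℝ)
    (hT : ∀ x, Measurable fun z => T z x) : MeasurableSet {z | QT F D l (T z)} := by
  rw [measurableSet_setOfPred]
  unfold QT
  refine Measurable.forall fun x => measurable_const.imp (Measurable.imp ?_ measurable_const)
  exact Measurable.forall fun x' => measurable_const.imp (NTE_le_meas (hT x') (hT x))

private theorem NTE_energy_neg {h : ℚ → ℝ} {e : ℝ} (he : Energy h e) : Energy (fun x => -h x) e := by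
  intro t ht n
  refine le_trans (le_of_eq (Finset.sum_congr rfl fun i _ => ?_)) (he t ht n)
  congr 1
  ring

private theorem NTE_int {β : Measure Ini} [IsProbabilityMeasure β] (g : ℚ → ℝ) (F : Finset ℚ) (D : ℚ) (hD : 0 < D)
    (l : ℤ) (ε : ℝ) :
    ∫⁻ θ in Set.Icc (0 : ℝ) √(D : ℝ), β {f | EvT F D l ε (fun x => f x + g x + θ * tA D l x)} ≤
      ENNReal.ofReal ε * β {f | QT F D l (fun x => f x + g x + 2 * √(D : ℝ) * tB D l x)} := by
  have hS : MeasurableSet {z : ℝ × Ini | EvT F D l ε (fun x => z.2 x + g x + z.1 * tA D l x)} := by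
    refine NTE_evt_meas F D l ε _ fun x => ?_
    fun_prop
  have hN : MeasurableSet {f : Ini | QT F D l (fun x => f x + g x + 2 * √(D : ℝ) * tB D l x)} := by
    refine NTE_qt_meas F D l _ fun x => ?_
    fun_prop
  have h1 := Measure.prod_apply (μ := volume.restrict (Set.Icc (0 : ℝ) √(D : ℝ))) (ν := β) hS
  have h2 := Measure.prod_apply_symm (μ := volume.restrict (Set.Icc (0 : ℝ) √(D : ℝ))) (ν := β) hS
  rw [h1] at h2
  refine le_trans (le_of_eq h2) ?_
  rw [← lintegral_indicator_const hN]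
  refine lintegral_mono fun f => ?_
  by_cases hf : f ∈ {f : Ini | QT F D l (fun x => f x + g x + 2 * √(D : ℝ) * tB D l x)}
  · rw [Set.indicator_of_mem hf]
    exact le_trans (Measure.restrict_apply_le _ _) (ntd_vol F D hD l ε (fun x => f x + g x))
  · rw [Set.indicator_of_notMem hf, Measure.restrict_apply' measurableSet_Icc]
    refine le_of_eq ?_
    have h3 : (fun x => (x, f)) ⁻¹' {z : ℝ × Ini | EvT F D l ε (fun x => z.2 x + g x + z.1 * tA D l x)} ∩
        Set.Icc (0 : ℝ) √(D : ℝ) = ∅ := by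
      ext θ
      constructor
      · rintro ⟨h4, h5, h6⟩
        refine (hf ?_).elim
        refine ntd_loc F D hD l ε (fun x => f x + g x) θ h5 ?_ h4
        have h7 : (0 : ℝ) ≤ D := by exact_mod_cast hD.le
        have h8 := Real.sq_sqrt h7
        nlinarith
      · intro h4
        exact h4.elim
    rw [h3, measure_empty]

theorem nte {β : Measure Ini} {b : ℝ} (hβ : IsBML β 2 b) (g : ℚ → ℝ) (F : Finset ℚ) (D : ℚ) (hD : 0 < D) (l : ℤ)
    (ε : ℝ) (hε : 0 < ε) (p : ℝ) (hp : 2 ≤ p) :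
    β {f | EvT F D l ε (fun x => f x + g x)} ≤
      ENNReal.ofReal (Real.exp (6 * p) * (ε / √(D : ℝ)) ^ (1 - 1 / p)) *
        (β {f | QT F D l (fun x => f x + g x)}) ^ ((1 - 1 / p) ^ 2) := by
  have hp1 : (1 : ℝ) < p := by linarith
  have hDr : (0 : ℝ) < D := by exact_mod_cast hD
  have hsD : 0 < √(D : ℝ) := Real.sqrt_pos.mpr hDr
  have := hβ.prob
  set α : ℝ := 1 - 1 / p with hα
  have hpp : 1 / p ≤ 1 / 2 := one_div_le_one_div_of_le (by norm_num) hp
  have hpp0 : 0 < 1 / p := by positivity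
  have hα0 : 0 < α := by rw [hα]; linarith
  have hα1 : α ≤ 1 := by rw [hα]; linarith
  set A : Set Ini := {f | EvT F D l ε (fun x => f x + g x)} with hA
  set N : Set Ini := {f | QT F D l (fun x => f x + g x + 2 * √(D : ℝ) * tB D l x)} with hN
  set Q : Set Ini := {f | QT F D l (fun x => f x + g x)} with hQ
  have hAm : MeasurableSet A := by
    refine NTE_evt_meas F D l ε _ fun x => ?_
    fun_prop
  have hNm : MeasurableSet N := by
    refine NTE_qt_meas F D l _ fun x => ?_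
    fun_prop
  -- first comparison
  have c1 : ∀ θ ∈ Set.Icc (0 : ℝ) √(D : ℝ), β A ≤ ENNReal.ofReal (Real.exp ((p - 1) * (10 / 4))) *
      (β {f | EvT F D l ε (fun x => f x + g x + θ * tA D l x)}) ^ α := by
    intro θ hθ
    have hθ2 : θ ^ 2 ≤ D := by
      have h8 := Real.sq_sqrt hDr.le
      have h9 := hθ.1
      have h10 := hθ.2
      nlinarith
    have h1 := cmb' hβ (fun x => θ * tA D l x) 10 (tA_energy D hD l θ hθ.1 hθ2) p hp1 F A hAm
      (fun f f' hff => NTE_evt_congr 0 fun x hx => by rw [hff x hx, add_zero])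
      (fun f c => NTE_evt_congr (-c) fun x hx => by ring)
    have h2 : {f : Ini | (fun x => f x + θ * tA D l x) ∈ A} =
        {f | EvT F D l ε (fun x => f x + g x + θ * tA D l x)} := by
      ext f
      exact NTE_evt_congr 0 fun x hx => by ring
    rw [h2] at h1
    exact h1
  -- second comparison
  have c2 : β N ≤ ENNReal.ofReal (Real.exp ((p - 1) * (12 / 4))) * (β Q) ^ α := by
    have h1 := cmb' hβ (fun x => -(2 * √(D : ℝ) * tB D l x)) 12 (NTE_energy_neg (tB_energy D hD l)) p hp1 F N hNm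
      (fun f f' hff => NTE_qt_congr 0 fun x hx => by rw [hff x hx, add_zero])
      (fun f c => NTE_qt_congr (-c) fun x hx => by ring)
    have h2 : {f : Ini | (fun x => f x + -(2 * √(D : ℝ) * tB D l x)) ∈ N} = Q := by
      ext f
      exact NTE_qt_congr 0 fun x hx => by ring
    rw [h2] at h1
    exact h1
  -- integration
  set C : ENNReal := ENNReal.ofReal (Real.exp ((p - 1) * (10 / 4))) with hC
  have hαi : α * (1 / α) = 1 := by field_simp
  have c3 : ∀ θ ∈ Set.Icc (0 : ℝ) √(D : ℝ), (β A) ^ (1 / α) ≤ C ^ (1 / α) *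
      β {f | EvT F D l ε (fun x => f x + g x + θ * tA D l x)} := by
    intro θ hθ
    have h1 := ENNReal.rpow_le_rpow (c1 θ hθ) (by positivity : 0 ≤ 1 / α)
    rwa [ENNReal.mul_rpow_of_nonneg _ _ (by positivity : 0 ≤ 1 / α), ← ENNReal.rpow_mul, hαi, ENNReal.rpow_one] at h1
  have c4 : (β A) ^ (1 / α) * ENNReal.ofReal √(D : ℝ) ≤ C ^ (1 / α) * (ENNReal.ofReal ε * β N) := by
    have h1 : ∫⁻ _ in Set.Icc (0 : ℝ) √(D : ℝ), (β A) ^ (1 / α) = (β A) ^ (1 / α) * ENNReal.ofReal √(D : ℝ) := by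
      rw [setLIntegral_const, Real.volume_Icc, sub_zero]
    rw [← h1]
    calc ∫⁻ _ in Set.Icc (0 : ℝ) √(D : ℝ), (β A) ^ (1 / α) ≤
        ∫⁻ θ in Set.Icc (0 : ℝ) √(D : ℝ), C ^ (1 / α) * β {f | EvT F D l ε (fun x => f x + g x + θ * tA D l x)} :=
          setLIntegral_mono' measurableSet_Icc c3
      _ = C ^ (1 / α) * ∫⁻ θ in Set.Icc (0 : ℝ) √(D : ℝ), β {f | EvT F D l ε (fun x => f x + g x + θ * tA D l x)} := by
          rw [lintegral_const_mul' _ _ (ENNReal.rpow_ne_top_of_nonneg (by positivity) ENNReal.ofReal_ne_top)]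
      _ ≤ C ^ (1 / α) * (ENNReal.ofReal ε * β N) := by
          gcongr
          exact NTE_int g F D hD l ε
  have c5 : (β A) ^ (1 / α) ≤ C ^ (1 / α) * (ENNReal.ofReal (ε / √(D : ℝ)) * β N) := by
    have h1 : ENNReal.ofReal √(D : ℝ) * ENNReal.ofReal (1 / √(D : ℝ)) = 1 := by
      rw [← ENNReal.ofReal_mul hsD.le, mul_one_div_cancel hsD.ne', ENNReal.ofReal_one]
    have h2 : ENNReal.ofReal ε * ENNReal.ofReal (1 / √(D : ℝ)) = ENNReal.ofReal (ε / √(D : ℝ)) := by
      rw [← ENNReal.ofReal_mul hε.le, mul_one_div]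
    calc (β A) ^ (1 / α) = (β A) ^ (1 / α) * ENNReal.ofReal √(D : ℝ) * ENNReal.ofReal (1 / √(D : ℝ)) := by
          rw [mul_assoc, h1, mul_one]
      _ ≤ C ^ (1 / α) * (ENNReal.ofReal ε * β N) * ENNReal.ofReal (1 / √(D : ℝ)) := by gcongr
      _ = C ^ (1 / α) * (ENNReal.ofReal ε * ENNReal.ofReal (1 / √(D : ℝ)) * β N) := by ring
      _ = C ^ (1 / α) * (ENNReal.ofReal (ε / √(D : ℝ)) * β N) := by rw [h2]
  have c6 : β A ≤ C * ((ENNReal.ofReal (ε / √(D : ℝ))) ^ α * (β N) ^ α) := by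
    have h1 := ENNReal.rpow_le_rpow c5 hα0.le
    have h2 : (1 / α) * α = 1 := by rw [mul_comm]; exact hαi
    rwa [← ENNReal.rpow_mul, h2, ENNReal.rpow_one, ENNReal.mul_rpow_of_nonneg _ _ hα0.le, ← ENNReal.rpow_mul, h2,
      ENNReal.rpow_one, ENNReal.mul_rpow_of_nonneg _ _ hα0.le] at h1
  have c7 : (β N) ^ α ≤ (ENNReal.ofReal (Real.exp ((p - 1) * (12 / 4)))) ^ α * (β Q) ^ (α ^ 2) := by
    have h1 := ENNReal.rpow_le_rpow c2 hα0.le
    rwa [ENNReal.mul_rpow_of_nonneg _ _ hα0.le, ← ENNReal.rpow_mul, ← sq] at h1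
  have c8 : ENNReal.ofReal (Real.exp ((p - 1) * (10 / 4))) * (ENNReal.ofReal (Real.exp ((p - 1) * (12 / 4)))) ^ α ≤
      ENNReal.ofReal (Real.exp (6 * p)) := by
    rw [ENNReal.ofReal_rpow_of_pos (Real.exp_pos _), ← ENNReal.ofReal_mul (Real.exp_pos _).le, ← Real.exp_mul,
      ← Real.exp_add]
    refine ENNReal.ofReal_le_ofReal (Real.exp_le_exp.mpr ?_)
    have h1 : (p - 1) * α ≤ p - 1 := by nlinarith
    nlinarith
  calc β A ≤ C * ((ENNReal.ofReal (ε / √(D : ℝ))) ^ α * (β N) ^ α) := c6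
    _ ≤ C * ((ENNReal.ofReal (ε / √(D : ℝ))) ^ α *
        ((ENNReal.ofReal (Real.exp ((p - 1) * (12 / 4)))) ^ α * (β Q) ^ (α ^ 2))) := by gcongr
    _ = (C * (ENNReal.ofReal (Real.exp ((p - 1) * (12 / 4)))) ^ α) * (ENNReal.ofReal (ε / √(D : ℝ))) ^ α *
        (β Q) ^ (α ^ 2) := by ring
    _ ≤ ENNReal.ofReal (Real.exp (6 * p)) * (ENNReal.ofReal (ε / √(D : ℝ))) ^ α * (β Q) ^ (α ^ 2) := by gcongr
    _ = ENNReal.ofReal (Real.exp (6 * p) * (ε / √(D : ℝ)) ^ α) * (β Q) ^ (α ^ 2) := by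
        rw [ENNReal.ofReal_rpow_of_pos (by positivity), ← ENNReal.ofReal_mul (Real.exp_pos _).le]

end Pool.Agent.DLM
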