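import Pool.Agent.DLM.NTE

/-!
# DLM/NTS: near ties, one scale (80-120 lines)

The event is contained in the union of `{EvT F D l ε (f + g)}` over the integers `l` with `l D ≤ y < (l+1) D` for some `|y| ≤ M`: `-M/D - 1 < l ≤ M/D`, a finite set `Λ` with at most `2 M/D + 2 ≤ 4 M/D` elements (`D ≤ M`).  With `s = (1-1/p)^2`, `π_l = β(QT l)`:
`∑_{l ∈ Λ} π_l^s ≤ |Λ|^(1-s) (∑ π_l)^s` (Hoelder / concavity: `ENNReal.inner_le_Lp_mul_Lq` or `rpow_arith_mean_le_arith_mean_rpow`), `∑_{l ∈ Λ} π_l = ∫ #{l ∈ Λ | QT l} dβ ≤ 3` (`ntd_count`, `F` nonempty since the event needs `y ∈ F`; if `F = ∅` the event is empty).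
`1 - s ≤ 2/p`, `4 M/D ≥ 1`: `|Λ|^(1-s) ≤ (4 M/D)^(2/p) ≤ 4 (M/D)^(2/p)`, `3^s ≤ 3`.
-/

set_option autoImplicit false

open MeasureTheory ProbabilityTheory Filter Topology

namespace Pool.Agent.DLM

private theorem NTS_qt_meas (g : ℚ → ℝ) (F : Finset ℚ) (D : ℚ) (l : ℤ) :
    MeasurableSet {f : Ini | QT F D l (fun x => f x + g x)} := by
  rw [measurableSet_setOfPred]
  unfold QT
  refine Measurable.forall fun x => measurable_const.imp (Measurable.imp ?_ measurable_const)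
  refine Measurable.forall fun x' => measurable_const.imp (measurableSet_setOfPred.1 (measurableSet_le ?_ ?_))
  · exact (measurable_pi_apply x').add_const _
  · exact (measurable_pi_apply x).add_const _

private theorem NTS_sum {β : Measure Ini} [IsProbabilityMeasure β] (g : ℚ → ℝ) (F : Finset ℚ) (hF : F.Nonempty)
    (D : ℚ) (hD : 0 < D) (Λ : Finset ℤ) :
    ∑ l ∈ Λ, β {f | QT F D l (fun x => f x + g x)} ≤ 3 := by
  classical
  have h1 : ∑ l ∈ Λ, β {f | QT F D l (fun x => f x + g x)} =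
      ∫⁻ f, ∑ l ∈ Λ, {f : Ini | QT F D l (fun x => f x + g x)}.indicator (fun _ => (1 : ENNReal)) f ∂β := by
    rw [lintegral_finset_sum _ fun l _ => measurable_const.indicator (NTS_qt_meas g F D l)]
    refine Finset.sum_congr rfl fun l _ => ?_
    rw [lintegral_indicator_const (NTS_qt_meas g F D l), one_mul]
  rw [h1]
  have h2 : ∀ f : Ini, ∑ l ∈ Λ, {f : Ini | QT F D l (fun x => f x + g x)}.indicator (fun _ => (1 : ENNReal)) f ≤ 3 := by
    intro f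
    have h3 : ∑ l ∈ Λ, {f : Ini | QT F D l (fun x => f x + g x)}.indicator (fun _ => (1 : ENNReal)) f =
        ((Λ.filter fun l => QT F D l (fun x => f x + g x)).card : ENNReal) := by
      rw [Finset.card_filter, Nat.cast_sum]
      refine Finset.sum_congr rfl fun l _ => ?_
      by_cases h : QT F D l (fun x => f x + g x)
      · rw [if_pos h, Set.indicator_of_mem (show f ∈ {f : Ini | QT F D l (fun x => f x + g x)} from h), Nat.cast_one]
      · rw [if_neg h, Set.indicator_of_notMem (show f ∉ {f : Ini | QT F D l (fun x => f x + g x)} from h), Nat.cast_zero]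
    rw [h3]
    have h4 := ntd_count F hF D hD (fun x => f x + g x) (Λ.filter fun l => QT F D l (fun x => f x + g x))
      (fun l hl => (Finset.mem_filter.1 hl).2)
    exact_mod_cast h4
  refine (lintegral_mono h2).trans ?_
  rw [lintegral_const, measure_univ, mul_one]

private theorem NTS_holder (Λ : Finset ℤ) (π : ℤ → ENNReal) (s : ℝ) (h0 : 0 < s) (h1 : s ≤ 1) :
    ∑ l ∈ Λ, π l ^ s ≤ (Λ.card : ENNReal) ^ (1 - s) * (∑ l ∈ Λ, π l) ^ s := by
  have e : s * (1 / s) = 1 := by field_simp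
  have h2 := ENNReal.rpow_sum_le_const_mul_sum_rpow Λ (fun l => π l ^ s) (p := 1 / s)
    (by rw [le_div_iff₀ h0]; linarith)
  have h3 : ∑ l ∈ Λ, (π l ^ s) ^ (1 / s) = ∑ l ∈ Λ, π l := by
    refine Finset.sum_congr rfl fun l _ => ?_
    rw [← ENNReal.rpow_mul, e, ENNReal.rpow_one]
  rw [h3] at h2
  have h4 := ENNReal.rpow_le_rpow h2 h0.le
  rw [← ENNReal.rpow_mul, mul_comm (1 / s) s, e, ENNReal.rpow_one, ENNReal.mul_rpow_of_nonneg _ _ h0.le,
    ← ENNReal.rpow_mul] at h4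
  have e2 : (1 / s - 1) * s = 1 - s := by field_simp
  rwa [e2] at h4

theorem nts {β : Measure Ini} {b : ℝ} (hβ : IsBML β 2 b) (g : ℚ → ℝ) (F : Finset ℚ) (M : ℚ) (hF : ∀ x ∈ F, |x| ≤ M)
    (D : ℚ) (hD : 0 < D) (hDM : D ≤ M) (ε : ℝ) (hε : 0 < ε) (p : ℝ) (hp : 2 ≤ p) :
    β {f | ∃ y ∈ F, ∃ y' ∈ F, (∀ x ∈ F, f x + g x ≤ f y + g y) ∧ y + 2 * D ≤ y' ∧ y' < y + 4 * D ∧
        f y + g y ≤ f y' + g y' + ε} ≤
      ENNReal.ofReal (12 * Real.exp (6 * p) * (ε / √(D : ℝ)) ^ (1 - 1 / p) * ((M : ℝ) / D) ^ (2 / p)) := by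
  have hpr := hβ.prob
  have hDR : (0 : ℝ) < D := by exact_mod_cast hD
  have hMDR : (D : ℝ) ≤ M := by exact_mod_cast hDM
  rcases F.eq_empty_or_nonempty with hFe | hFne
  · subst hFe
    simp
  set α : ℝ := 1 - 1 / p with hα
  have hpp : 1 / p ≤ 1 / 2 := one_div_le_one_div_of_le (by norm_num) hp
  have hpp0 : 0 < 1 / p := by positivity
  have hα0 : 0 < α := by rw [hα]; linarith
  have hα1 : α ≤ 1 := by rw [hα]; linarith
  set s : ℝ := α ^ 2 with hs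
  have hs0 : 0 < s := by positivity
  have hs1 : s ≤ 1 := by rw [hs]; nlinarith
  set Λ : Finset ℤ := Finset.Icc ⌊-((M : ℝ) / D)⌋ ⌊(M : ℝ) / D⌋ with hΛ
  have hq1 : (1 : ℝ) ≤ (M : ℝ) / D := by rwa [le_div_iff₀ hDR, one_mul]
  have hcard : (Λ.card : ℝ) ≤ 4 * ((M : ℝ) / D) := by
    have h1 := Int.floor_le ((M : ℝ) / D)
    have h2 := Int.lt_floor_add_one (-((M : ℝ) / D))
    have h3 : (Λ.card : ℝ) = ((⌊(M : ℝ) / D⌋ + 1 - ⌊-((M : ℝ) / D)⌋).toNat : ℝ) := by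
      rw [hΛ, Int.card_Icc]
    have h4 : (0 : ℤ) ≤ ⌊(M : ℝ) / D⌋ + 1 - ⌊-((M : ℝ) / D)⌋ := by
      have h5 : ⌊-((M : ℝ) / D)⌋ ≤ ⌊(M : ℝ) / D⌋ := Int.floor_le_floor (by linarith)
      omega
    have h5 : (((⌊(M : ℝ) / D⌋ + 1 - ⌊-((M : ℝ) / D)⌋).toNat : ℤ) : ℝ) =
        ((⌊(M : ℝ) / D⌋ + 1 - ⌊-((M : ℝ) / D)⌋ : ℤ) : ℝ) := by
      rw [Int.toNat_of_nonneg h4]
    rw [h3]
    push_cast at h5
    rw [h5]
    linarith
  have hcov : {f : Ini | ∃ y ∈ F, ∃ y' ∈ F, (∀ x ∈ F, f x + g x ≤ f y + g y) ∧ y + 2 * D ≤ y' ∧ y' < y + 4 * D ∧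
        f y + g y ≤ f y' + g y' + ε} ⊆ ⋃ l ∈ Λ, {f | EvT F D l ε (fun x => f x + g x)} := by
    rintro f ⟨y, hy, y', hy', h1, h2, h3, h4⟩
    have hyM := hF y hy
    rw [abs_le] at hyM
    have hy1 : (-(M : ℝ)) ≤ y := by exact_mod_cast hyM.1
    have hy2 : (y : ℝ) ≤ M := by exact_mod_cast hyM.2
    refine Set.mem_iUnion₂.2 ⟨⌊(y : ℝ) / D⌋, ?_, y, hy, ?_, ?_, h1, y', hy', h2, h3, h4⟩
    · rw [hΛ, Finset.mem_Icc]
      refine ⟨Int.floor_le_floor ?_, Int.floor_le_floor ?_⟩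
      · rw [← neg_div]
        exact div_le_div_of_nonneg_right hy1 hDR.le
      · exact div_le_div_of_nonneg_right hy2 hDR.le
    · have h5 := Int.floor_le ((y : ℝ) / D)
      rwa [le_div_iff₀ hDR] at h5
    · have h5 := Int.lt_floor_add_one ((y : ℝ) / D)
      rwa [div_lt_iff₀ hDR] at h5
  set C : ENNReal := ENNReal.ofReal (Real.exp (6 * p) * (ε / √(D : ℝ)) ^ α) with hC
  have hX : (0 : ℝ) ≤ Real.exp (6 * p) * (ε / √(D : ℝ)) ^ α := by positivity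
  have h10 : (Λ.card : ENNReal) ^ (1 - s) * (3 : ENNReal) ^ s ≤
      ENNReal.ofReal (12 * ((M : ℝ) / D) ^ (2 / p)) := by
    have e1 : (Λ.card : ENNReal) ≤ ENNReal.ofReal (4 * ((M : ℝ) / D)) := by
      rw [← ENNReal.ofReal_natCast]
      exact ENNReal.ofReal_le_ofReal hcard
    have h4q : (0 : ℝ) < 4 * ((M : ℝ) / D) := by linarith
    have e2 : (Λ.card : ENNReal) ^ (1 - s) ≤ ENNReal.ofReal ((4 * ((M : ℝ) / D)) ^ (1 - s)) := by
      rw [← ENNReal.ofReal_rpow_of_pos h4q]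
      exact ENNReal.rpow_le_rpow e1 (by linarith)
    have e3 : (3 : ENNReal) ^ s ≤ ENNReal.ofReal 3 := by
      have h3 : (3 : ENNReal) = ENNReal.ofReal 3 := by norm_num
      rw [h3, ENNReal.ofReal_rpow_of_pos (by norm_num)]
      refine ENNReal.ofReal_le_ofReal ?_
      calc (3 : ℝ) ^ s ≤ 3 ^ (1 : ℝ) := Real.rpow_le_rpow_of_exponent_le (by norm_num) hs1
        _ = 3 := Real.rpow_one 3
    refine (mul_le_mul' e2 e3).trans ?_
    rw [← ENNReal.ofReal_mul (by positivity)]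
    refine ENNReal.ofReal_le_ofReal ?_
    have e4 : 1 - s ≤ 2 / p := by
      have h5 : s = 1 - 2 / p + (1 / p) ^ 2 := by rw [hs, hα]; ring
      rw [h5]
      have h6 : (0 : ℝ) ≤ (1 / p) ^ 2 := by positivity
      linarith
    have e5 : (4 * ((M : ℝ) / D)) ^ (1 - s) ≤ (4 * ((M : ℝ) / D)) ^ (2 / p) :=
      Real.rpow_le_rpow_of_exponent_le (by linarith) e4
    have e6 : (4 * ((M : ℝ) / D)) ^ (2 / p) = 4 ^ (2 / p) * ((M : ℝ) / D) ^ (2 / p) :=
      Real.mul_rpow (by norm_num) (by linarith)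
    have e7 : (4 : ℝ) ^ (2 / p) ≤ 4 := by
      calc (4 : ℝ) ^ (2 / p) ≤ 4 ^ (1 : ℝ) := Real.rpow_le_rpow_of_exponent_le (by norm_num)
              (by rw [div_le_one (by linarith)]; exact hp)
        _ = 4 := Real.rpow_one 4
    have e8 : (0 : ℝ) ≤ ((M : ℝ) / D) ^ (2 / p) := by positivity
    calc (4 * ((M : ℝ) / D)) ^ (1 - s) * 3 ≤ (4 ^ (2 / p) * ((M : ℝ) / D) ^ (2 / p)) * 3 := by
            rw [← e6]; linarith
      _ ≤ (4 * ((M : ℝ) / D) ^ (2 / p)) * 3 := by nlinarith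
      _ = 12 * ((M : ℝ) / D) ^ (2 / p) := by ring
  calc β {f : Ini | ∃ y ∈ F, ∃ y' ∈ F, (∀ x ∈ F, f x + g x ≤ f y + g y) ∧ y + 2 * D ≤ y' ∧ y' < y + 4 * D ∧
        f y + g y ≤ f y' + g y' + ε} ≤ β (⋃ l ∈ Λ, {f | EvT F D l ε (fun x => f x + g x)}) := measure_mono hcov
    _ ≤ ∑ l ∈ Λ, β {f | EvT F D l ε (fun x => f x + g x)} := measure_biUnion_finset_le _ _
    _ ≤ ∑ l ∈ Λ, C * (β {f | QT F D l (fun x => f x + g x)}) ^ s :=
        Finset.sum_le_sum fun l _ => nte hβ g F D hD l ε hε p hp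
    _ = C * ∑ l ∈ Λ, (β {f | QT F D l (fun x => f x + g x)}) ^ s := by rw [Finset.mul_sum]
    _ ≤ C * ((Λ.card : ENNReal) ^ (1 - s) * (∑ l ∈ Λ, β {f | QT F D l (fun x => f x + g x)}) ^ s) :=
        mul_le_mul' le_rfl (NTS_holder Λ _ s hs0 hs1)
    _ ≤ C * ((Λ.card : ENNReal) ^ (1 - s) * (3 : ENNReal) ^ s) := by
        refine mul_le_mul' le_rfl (mul_le_mul' le_rfl (ENNReal.rpow_le_rpow ?_ hs0.le))
        exact NTS_sum g F hFne D hD Λ
    _ ≤ C * ENNReal.ofReal (12 * ((M : ℝ) / D) ^ (2 / p)) := mul_le_mul' le_rfl h10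
    _ = ENNReal.ofReal (12 * Real.exp (6 * p) * (ε / √(D : ℝ)) ^ α * ((M : ℝ) / D) ^ (2 / p)) := by
        rw [hC, ← ENNReal.ofReal_mul hX]
        congr 1
        ring

end Pool.Agent.DLM
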