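import Pool.Agent.DLM.HNC

/-!
# DLM/SMG: exponential moments (100-140 lines)

FATOU: if `Z_n → Z` in probability then `E exp Z ≤ liminf E exp Z_n` (a subsequence converges a.s.; `lintegral_liminf_le`).
`s_mgf`: `α = c/2`, `a = α`, `c' = -α`: `Hn α (-α) 0 ≥ Sn 0 0` (`hn_isLUB` at `x = 0`, `W 0 = 0`), so `E exp(c Sn 0 0) ≤ E exp(2α Hn α (-α) 0) → exp(2 α^3/3) = exp(c^3/12)`; `Sn 0 0 → S 0 0` in probability.
`s_neg`: `E exp(-2 Hs (-1) 1 0) ≤ liminf E exp(-2 Hn (-1) 1 0) = exp(-2/3) ≤ 1`.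
`s_up`: UNIFORM INTEGRABILITY: `exp(401 Hn 200 (-200) 0) ≤ exp(401 Hn 201 (-200) 0) + exp(401 Hn 200 (-201) 0)`: the supremum over `x ≥ 0` is at most `Hn 201 (-200) 0` (same drift on the right), over `x < 0` at most `Hn 200 (-201) 0`.  `201 + 200 = 401`, so `E exp(401 Hn 200 (-200) 0)` is bounded in `n` (`hn_moment`); hence
`exp(400 Hn)` is uniformly integrable and `E exp(400 Hn) → E exp(400 Hs)`: for `L > 0`: `E exp(400 Hn) ≤ E min(exp(400 Hn), L) + L^(-1/400) E exp(401 Hn)`, and `E min(exp(400 Hn), L) → E min(exp(400 Hs), L) ≤ E exp(400 Hs)`.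
-/

set_option autoImplicit false

open MeasureTheory ProbabilityTheory Filter Topology

namespace Pool.Agent.DLM

private theorem tim_of {Ω : Type*} [MeasurableSpace Ω] {P : Measure Ω} {X : ℕ → Ω → ℝ} {Y : Ω → ℝ}
    (h : ∀ ε : ℝ, 0 < ε → Tendsto (fun n : ℕ => P {ω | ε < |X n ω - Y ω|}) atTop (𝓝 0)) :
    ∃ ns : ℕ → ℕ, StrictMono ns ∧ ∀ᵐ ω ∂P, Tendsto (fun i => X (ns i) ω) atTop (𝓝 (Y ω)) := by
  have h1 : TendstoInMeasure P X atTop Y := by
    rw [tendstoInMeasure_iff_dist]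
    intro ε hε
    refine tendsto_of_tendsto_of_tendsto_of_le_of_le tendsto_const_nhds (h (ε / 2) (by positivity))
      (fun _ => zero_le) fun n => measure_mono fun ω hω => ?_
    rw [Set.mem_ofPred_eq] at hω ⊢
    rw [Real.dist_eq] at hω
    linarith
  exact h1.exists_seq_tendsto_ae

variable {Ω : Type*} [MeasurableSpace Ω] {P : Measure Ω} [IsProbabilityMeasure P] {S : ℝ → ℝ → Ω → ℝ}
  {B : ℕ → ℕ → ℝ → Ω → ℝ} {W : ℝ → Ω → ℝ}

theorem s_mgf (h : Cpl P S B W) (c : ℝ) (hc : 0 < c) :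
    ∫⁻ ω, ENNReal.ofReal (Real.exp (c * S 0 0 ω)) ∂P ≤ ENNReal.ofReal (Real.exp (c ^ 3 / 12)) := by
  have hB : ∀ n i t, Measurable (B n i t) := fun n i t => (h.bm n i).meas t
  have hW : ∀ t, Measurable (W t) := fun t => h.wbm.meas t
  obtain ⟨ns, hns, hlim⟩ := tim_of (P := P) (X := fun n ω => Sn (fun i t => B n i t ω) n 0 0) (Y := S 0 0)
    (fun ε hε => by
      refine tendsto_of_tendsto_of_tendsto_of_le_of_le tendsto_const_nhds (h.lim 0 ε hε)
        (fun _ => zero_le) fun n => measure_mono fun ω hω => ?_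
      rw [Set.mem_ofPred_eq] at hω ⊢
      exact ⟨0, 0, by simp, by simp, hω⟩)
  have hmom := (hn_moment h (c / 2) (-(c / 2)) 0).comp hns.tendsto_atTop
  have hlub := hns.tendsto_atTop.eventually (hn_isLUB h (c / 2) (-(c / 2)))
  have hlub' : ∀ᵐ ω ∂P, ∀ᶠ i in atTop, Sn (fun i' t => B (ns i) i' t ω) (ns i) 0 0 ≤
      Hn (c / 2) (-(c / 2)) (fun n i t => B n i t ω) (fun t => W t ω) (ns i) 0 := by
    rw [eventually_atTop] at hlub
    obtain ⟨N, hN⟩ := hlub
    have h1 : ∀ᵐ ω ∂P, ∀ i : ℕ, N ≤ i → Sn (fun i' t => B (ns i) i' t ω) (ns i) 0 0 ≤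
        Hn (c / 2) (-(c / 2)) (fun n i t => B n i t ω) (fun t => W t ω) (ns i) 0 := by
      rw [ae_all_iff]
      intro i
      by_cases hi : N ≤ i
      · filter_upwards [hN i hi, h.wbm.zero] with ω h1 h0 _
        refine (h1 0).1 ⟨0, by simp, ?_⟩
        simp [dft, h0]
      · exact Eventually.of_forall fun ω h' => absurd h' hi
    filter_upwards [h1] with ω h1
    exact eventually_atTop.mpr ⟨N, h1⟩
  have hF : ∫⁻ ω, ENNReal.ofReal (Real.exp (c * S 0 0 ω)) ∂P ≤
      ∫⁻ ω, liminf (fun i => ENNReal.ofReal (Real.exp ((c / 2 - -(c / 2)) *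
        Hn (c / 2) (-(c / 2)) (fun n i t => B n i t ω) (fun t => W t ω) (ns i) 0))) atTop ∂P := by
    refine lintegral_mono_ae ?_
    filter_upwards [hlim, hlub'] with ω h1 h2
    have h3 : Tendsto (fun i => ENNReal.ofReal (Real.exp (c * Sn (fun i' t => B (ns i) i' t ω) (ns i) 0 0))) atTop
        (𝓝 (ENNReal.ofReal (Real.exp (c * S 0 0 ω)))) :=
      ENNReal.tendsto_ofReal ((Real.continuous_exp.tendsto _).comp (h1.const_mul c))
    rw [← h3.liminf_eq]
    refine liminf_le_liminf ?_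
    filter_upwards [h2] with i hi
    refine ENNReal.ofReal_le_ofReal (Real.exp_le_exp.mpr ?_)
    have : c / 2 - -(c / 2) = c := by ring
    rw [this]
    exact mul_le_mul_of_nonneg_left hi hc.le
  refine hF.trans ((lintegral_liminf_le fun i => ?_).trans (le_of_eq ?_))
  · have := hlo_hn_meas hB hW (c / 2) (-(c / 2)) (ns i) 0
    fun_prop
  · have h4 : ((c / 2) ^ 3 - (-(c / 2)) ^ 3) / 3 + 0 * ((c / 2) ^ 2 - (-(c / 2)) ^ 2) = c ^ 3 / 12 := by ring
    rw [h4] at hmom
    exact hmom.liminf_eq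

theorem s_neg (h : Cpl P S B W) :
    ∫⁻ ω, ENNReal.ofReal (Real.exp (-2 * Hs (-1) 1 (fun x y => S x y ω) (fun t => W t ω) 0)) ∂P ≤ 1 := by
  have hB : ∀ n i t, Measurable (B n i t) := fun n i t => (h.bm n i).meas t
  have hW : ∀ t, Measurable (W t) := fun t => h.wbm.meas t
  obtain ⟨ns, hns, hlim⟩ := tim_of (P := P)
    (X := fun n ω => Hn (-1) 1 (fun n i t => B n i t ω) (fun t => W t ω) n 0)
    (Y := fun ω => Hs (-1) 1 (fun x y => S x y ω) (fun t => W t ω) 0) (fun ε hε => hn_tendsto h (-1) 1 0 ε hε)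
  have hmom := (hn_moment h (-1) 1 0).comp hns.tendsto_atTop
  have hF : ∫⁻ ω, ENNReal.ofReal (Real.exp (-2 * Hs (-1) 1 (fun x y => S x y ω) (fun t => W t ω) 0)) ∂P =
      ∫⁻ ω, liminf (fun i => ENNReal.ofReal (Real.exp ((-1 - 1) *
        Hn (-1) 1 (fun n i t => B n i t ω) (fun t => W t ω) (ns i) 0))) atTop ∂P := by
    refine lintegral_congr_ae ?_
    filter_upwards [hlim] with ω h1
    have h3 : Tendsto (fun i => ENNReal.ofReal (Real.exp ((-1 - 1) *
        Hn (-1) 1 (fun n i t => B n i t ω) (fun t => W t ω) (ns i) 0))) atTop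
        (𝓝 (ENNReal.ofReal (Real.exp ((-1 - 1) * Hs (-1) 1 (fun x y => S x y ω) (fun t => W t ω) 0)))) :=
      ENNReal.tendsto_ofReal ((Real.continuous_exp.tendsto _).comp (h1.const_mul _))
    rw [h3.liminf_eq]
    congr 2
    ring
  rw [hF]
  refine (lintegral_liminf_le fun i => ?_).trans ?_
  · have := hlo_hn_meas hB hW (-1) 1 (ns i) 0
    fun_prop
  · refine (le_of_eq hmom.liminf_eq).trans ?_
    rw [ENNReal.ofReal_le_one, Real.exp_le_one_iff]
    norm_num

private theorem hs_meas (hS : ∀ x y, Measurable (S x y)) (hW : ∀ t, Measurable (W t)) (a c y : ℝ) :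
    Measurable fun ω => Hs a c (fun x y => S x y ω) (fun t => W t ω) y := by
  unfold Hs dft
  exact Measurable.iSup fun q : ℚ => ((hW _).add_const _).add (hS _ _)

private theorem exp_split (X l : ℝ) : ENNReal.ofReal (Real.exp (400 * X)) ≤
    ENNReal.ofReal (min (Real.exp (400 * X)) (Real.exp (400 * l))) +
      ENNReal.ofReal (Real.exp (-l)) * ENNReal.ofReal (Real.exp (401 * X)) := by
  rw [← ENNReal.ofReal_mul (Real.exp_pos _).le, ← Real.exp_add,
    ← ENNReal.ofReal_add (by positivity) (by positivity)]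
  refine ENNReal.ofReal_le_ofReal ?_
  rcases le_or_gt X l with hX | hX
  · rw [min_eq_left (Real.exp_le_exp.mpr (by linarith))]
    have := Real.exp_pos (-l + 401 * X)
    linarith
  · have h1 : Real.exp (400 * X) ≤ Real.exp (-l + 401 * X) := Real.exp_le_exp.mpr (by linarith)
    have h2 : 0 ≤ min (Real.exp (400 * X)) (Real.exp (400 * l)) := by positivity
    linarith

theorem s_up (h : Cpl P S B W) :
    ENNReal.ofReal (Real.exp (2 / 3 * 200 ^ 3)) ≤
      ∫⁻ ω, ENNReal.ofReal (Real.exp (400 * Hs 200 (-200) (fun x y => S x y ω) (fun t => W t ω) 0)) ∂P := by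
  have hB : ∀ n i t, Measurable (B n i t) := fun n i t => (h.bm n i).meas t
  have hW : ∀ t, Measurable (W t) := fun t => h.wbm.meas t
  obtain ⟨ns, hns, hlim⟩ := tim_of (P := P)
    (X := fun n ω => Hn 200 (-200) (fun n i t => B n i t ω) (fun t => W t ω) n 0)
    (Y := fun ω => Hs 200 (-200) (fun x y => S x y ω) (fun t => W t ω) 0)
    (fun ε hε => hn_tendsto h 200 (-200) 0 ε hε)
  set X : ℕ → Ω → ℝ := fun i ω => Hn 200 (-200) (fun n i t => B n i t ω) (fun t => W t ω) (ns i) 0 with hX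
  set Y : Ω → ℝ := fun ω => Hs 200 (-200) (fun x y => S x y ω) (fun t => W t ω) 0 with hY
  have hXm : ∀ i, Measurable (X i) := fun i => hlo_hn_meas hB hW 200 (-200) (ns i) 0
  -- the moments of order `400`
  have hmom : Tendsto (fun i => ∫⁻ ω, ENNReal.ofReal (Real.exp (400 * X i ω)) ∂P) atTop
      (𝓝 (ENNReal.ofReal (Real.exp (2 / 3 * 200 ^ 3)))) := by
    have h1 := (hn_moment h 200 (-200) 0).comp hns.tendsto_atTop
    have h2 : ((200 : ℝ) ^ 3 - (-200) ^ 3) / 3 + 0 * ((200 : ℝ) ^ 2 - (-200) ^ 2) = 2 / 3 * 200 ^ 3 := by norm_num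
    rw [h2] at h1
    refine h1.congr fun i => ?_
    simp only [Function.comp, hX]
    refine lintegral_congr fun ω => ?_
    congr 3
    norm_num
  -- the moments of order `401` are bounded
  set M : ENNReal := ENNReal.ofReal (Real.exp ((201 ^ 3 - (-200) ^ 3) / 3 + 0 * (201 ^ 2 - (-200) ^ 2))) + 1 +
    (ENNReal.ofReal (Real.exp ((200 ^ 3 - (-201) ^ 3) / 3 + 0 * (200 ^ 2 - (-201) ^ 2))) + 1) with hM
  have hMf : M ≠ ⊤ := by
    rw [hM]
    finiteness
  have hbd : ∀ᶠ i in atTop, ∫⁻ ω, ENNReal.ofReal (Real.exp (401 * X i ω)) ∂P ≤ M := by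
    have h1 := (hn_moment h 201 (-200) 0).eventually_lt_const
      (u := ENNReal.ofReal (Real.exp ((201 ^ 3 - (-200) ^ 3) / 3 + 0 * (201 ^ 2 - (-200) ^ 2))) + 1)
      (ENNReal.lt_add_right ENNReal.ofReal_ne_top one_ne_zero)
    have h2 := (hn_moment h 200 (-201) 0).eventually_lt_const
      (u := ENNReal.ofReal (Real.exp ((200 ^ 3 - (-201) ^ 3) / 3 + 0 * (200 ^ 2 - (-201) ^ 2))) + 1)
      (ENNReal.lt_add_right ENNReal.ofReal_ne_top one_ne_zero)
    refine hns.tendsto_atTop.eventually (p := fun n => ∫⁻ ω, ENNReal.ofReal (Real.exp (401 *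
      Hn 200 (-200) (fun n i t => B n i t ω) (fun t => W t ω) n 0)) ∂P ≤ M) ?_
    filter_upwards [h1, h2, hn_isLUB h 200 (-200), hn_isLUB h 201 (-200), hn_isLUB h 200 (-201)]
      with n h1 h2 l l₁ l₂
    have hle : ∀ᵐ ω ∂P, ENNReal.ofReal (Real.exp (401 *
        Hn 200 (-200) (fun n i t => B n i t ω) (fun t => W t ω) n 0)) ≤
        ENNReal.ofReal (Real.exp ((201 - -200) *
          Hn 201 (-200) (fun n i t => B n i t ω) (fun t => W t ω) n 0)) +
        ENNReal.ofReal (Real.exp ((200 - -201) *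
          Hn 200 (-201) (fun n i t => B n i t ω) (fun t => W t ω) n 0)) := by
      filter_upwards [l, l₁, l₂] with ω l l₁ l₂
      have h3 : Hn 200 (-200) (fun n i t => B n i t ω) (fun t => W t ω) n 0 ≤
          max (Hn 201 (-200) (fun n i t => B n i t ω) (fun t => W t ω) n 0)
            (Hn 200 (-201) (fun n i t => B n i t ω) (fun t => W t ω) n 0) := by
        refine (l 0).2 ?_
        rintro w ⟨x, hadm, rfl⟩
        rcases le_or_gt 0 x with h0 | h0
        · refine le_trans ?_ (le_max_left _ _)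
          refine (l₁ 0).1 ⟨x, hadm, ?_⟩
          unfold dft
          rw [if_neg (not_lt.mpr h0), if_neg (not_lt.mpr h0)]
        · refine le_trans ?_ (le_max_right _ _)
          refine (l₂ 0).1 ⟨x, hadm, ?_⟩
          unfold dft
          rw [if_pos h0, if_pos h0]
      rcases le_max_iff.mp h3 with h4 | h4
      · refine le_trans (ENNReal.ofReal_le_ofReal (Real.exp_le_exp.mpr ?_)) le_self_add
        norm_num
        linarith
      · refine le_trans (ENNReal.ofReal_le_ofReal (Real.exp_le_exp.mpr ?_)) le_add_self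
        norm_num
        linarith
    refine (lintegral_mono_ae hle).trans ?_
    rw [lintegral_add_left]
    · exact add_le_add h1.le h2.le
    · have := hlo_hn_meas hB hW 201 (-200) n 0
      fun_prop
  -- truncation
  have hkey : ∀ l : ℝ, ENNReal.ofReal (Real.exp (2 / 3 * 200 ^ 3)) ≤
      ∫⁻ ω, ENNReal.ofReal (Real.exp (400 * Y ω)) ∂P + ENNReal.ofReal (Real.exp (-l)) * M := by
    intro l
    have h1 : Tendsto (fun i => ∫⁻ ω, ENNReal.ofReal (min (Real.exp (400 * X i ω)) (Real.exp (400 * l))) ∂P) atTop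
        (𝓝 (∫⁻ ω, ENNReal.ofReal (min (Real.exp (400 * Y ω)) (Real.exp (400 * l))) ∂P)) := by
      refine tendsto_lintegral_of_dominated_convergence (fun _ => ENNReal.ofReal (Real.exp (400 * l))) ?_ ?_ ?_ ?_
      · intro i
        have := hXm i
        fun_prop
      · intro i
        exact Eventually.of_forall fun ω => ENNReal.ofReal_le_ofReal (min_le_right _ _)
      · simp
      · filter_upwards [hlim] with ω h2
        refine ENNReal.tendsto_ofReal ?_
        exact ((Real.continuous_exp.tendsto _).comp (h2.const_mul 400)).min tendsto_const_nhds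
    have h2 : Tendsto (fun i => ∫⁻ ω, ENNReal.ofReal (min (Real.exp (400 * X i ω)) (Real.exp (400 * l))) ∂P +
        ENNReal.ofReal (Real.exp (-l)) * M) atTop
        (𝓝 (∫⁻ ω, ENNReal.ofReal (min (Real.exp (400 * Y ω)) (Real.exp (400 * l))) ∂P +
        ENNReal.ofReal (Real.exp (-l)) * M)) := h1.add_const _
    have h3 : ENNReal.ofReal (Real.exp (2 / 3 * 200 ^ 3)) ≤
        ∫⁻ ω, ENNReal.ofReal (min (Real.exp (400 * Y ω)) (Real.exp (400 * l))) ∂P +
        ENNReal.ofReal (Real.exp (-l)) * M := by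
      refine le_of_tendsto_of_tendsto hmom h2 ?_
      filter_upwards [hbd] with i hi
      calc ∫⁻ ω, ENNReal.ofReal (Real.exp (400 * X i ω)) ∂P
          ≤ ∫⁻ ω, (ENNReal.ofReal (min (Real.exp (400 * X i ω)) (Real.exp (400 * l))) +
            ENNReal.ofReal (Real.exp (-l)) * ENNReal.ofReal (Real.exp (401 * X i ω))) ∂P :=
            lintegral_mono fun ω => exp_split _ _
        _ = ∫⁻ ω, ENNReal.ofReal (min (Real.exp (400 * X i ω)) (Real.exp (400 * l))) ∂P +
            ENNReal.ofReal (Real.exp (-l)) * ∫⁻ ω, ENNReal.ofReal (Real.exp (401 * X i ω)) ∂P := by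
            have := hXm i
            rw [lintegral_add_left (by fun_prop), lintegral_const_mul _ (by fun_prop)]
        _ ≤ _ := by gcongr
    refine h3.trans ?_
    gcongr
    exact min_le_left _ _
  have hlast : Tendsto (fun l : ℝ => ∫⁻ ω, ENNReal.ofReal (Real.exp (400 * Y ω)) ∂P +
      ENNReal.ofReal (Real.exp (-l)) * M) atTop
      (𝓝 (∫⁻ ω, ENNReal.ofReal (Real.exp (400 * Y ω)) ∂P + 0 * M)) := by
    refine Tendsto.const_add _ ?_
    refine ENNReal.Tendsto.mul_const ?_ (Or.inr hMf)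
    rw [← ENNReal.ofReal_zero]
    exact ENNReal.tendsto_ofReal (Real.tendsto_exp_neg_atTop_nhds_zero)
  rw [zero_mul, add_zero] at hlast
  exact ge_of_tendsto' hlast hkey

end Pool.Agent.DLM
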