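import Pool.Agent.DLM.LPL
import Pool.Agent.DLM.BMT

/-!
# DLM/SON: one point laws and shift invariance of the Airy sheet (120-160 lines)

CONVERGENCE: for fixed `(x, y)` `Sn x y → S x y` in probability (`IsAirySheet.lim`), hence in distribution (also for finite vectors; `TendstoInMeasure.tendstoInDistribution`), limits are unique (`tendstoInDistribution_unique`).
`s_shift`: `Sn (x+a) (y+a)` uses `lpp (2x n^(-1/3) + d) (1 + 2y n^(-1/3) + d)`, `d = 2 a n^(-1/3)`, the affine term is the same.  By `lpp_shift` (`r = c = 1`), `bm_scale`, `lines_scale`, `lpp_law`: the vectors `(Sn (x i + a) (y i + a))_i` and `(Sn (x i) (y i))_i` have the same law for `n` large (endpoints in order).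
`s_one`: let `T = 1 + 2 (y - x) n^(-1/3)`, start `s = 2 x n^(-1/3)`, so the end is `s + T`.  `lpp_shift` with `c = T`, `d = s`, `r = T^(-1/2)`: `lpp B n s (s+T) = √T lpp B' n 0 1` with `B'` again standard lines: `lpp B n s (s + T) = √T · lpp B n 0 1` in law.  So `Sn x y` has the law of
`√T Sn 0 0 + 2 n^(2/3) (√T - 1 - (y - x) n^(-1/3))`, and the constant tends to `-(x-y)^2` (`√(1+z) = 1 + z/2 - z^2/8 + O(z^3)`, `z = 2 (y-x) n^(-1/3)`), `T → 1`.  Limits: Slutsky (Mathlib), or directly.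
-/

set_option autoImplicit false

open MeasureTheory ProbabilityTheory Filter Topology

namespace Pool.Agent.DLM

variable {Ω : Type*} [MeasurableSpace Ω] {P : Measure Ω} [IsProbabilityMeasure P]

private theorem SON_unique {E : Type*} [MetricSpace E] [MeasurableSpace E] [BorelSpace E] {X Y : ℕ → Ω → E}
    {Z W : Ω → E} (hX : ∀ n, AEMeasurable (X n) P)
    (h1 : TendstoInMeasure P X atTop Z) (h2 : TendstoInDistribution Y atTop W (fun _ => P) P)
    (h : ∀ n, P.map (X n) = P.map (Y n)) : P.map Z = P.map W := by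
  have d1 := h1.tendstoInDistribution hX
  refine tendstoInDistribution_unique X d1 ⟨hX, h2.aemeasurable_limit, ?_⟩
  have h3 := h2.tendsto
  have e : (fun n => (⟨P.map (X n), Measure.isProbabilityMeasure_map (hX n)⟩ : ProbabilityMeasure E)) =
      fun n => ⟨P.map (Y n), Measure.isProbabilityMeasure_map (h2.forall_aemeasurable n)⟩ :=
    funext fun n => Subtype.ext (h n)
  rw [e]
  exact h3

private theorem SON_tim {S : ℝ → ℝ → Ω → ℝ} {B : ℕ → ℕ → ℝ → Ω → ℝ}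
    (hl : ∀ K ε : ℝ, 0 < ε → Tendsto (fun n : ℕ => P {ω | ∃ x y : ℝ, |x| ≤ K ∧ |y| ≤ K ∧
      ε < |Sn (fun i t => B n i t ω) n x y - S x y ω|}) atTop (𝓝 0)) (k : ℕ) (x y : Fin k → ℝ) :
    TendstoInMeasure P (fun n ω i => Sn (fun j t => B n j t ω) n (x i) (y i)) atTop (fun ω i => S (x i) (y i) ω) := by
  rw [tendstoInMeasure_iff_dist]
  intro ε hε
  refine tendsto_of_tendsto_of_tendsto_of_le_of_le tendsto_const_nhds
    (hl (∑ i, (|x i| + |y i|)) (ε / 2) (by positivity)) (fun _ => zero_le) (fun n => measure_mono ?_)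
  intro ω hω
  by_contra hcon
  have hcon' : ∀ i, |Sn (fun j t => B n j t ω) n (x i) (y i) - S (x i) (y i) ω| ≤ ε / 2 := by
    intro i
    by_contra hi
    rw [not_le] at hi
    have hi' : |x i| + |y i| ≤ ∑ i, (|x i| + |y i|) :=
      Finset.single_le_sum (f := fun i => |x i| + |y i|) (fun j _ => by positivity) (Finset.mem_univ i)
    refine hcon ⟨x i, y i, ?_, ?_, hi⟩
    · have := abs_nonneg (y i)
      linarith
    · have := abs_nonneg (x i)
      linarith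
  have h2 : dist (fun i => Sn (fun j t => B n j t ω) n (x i) (y i)) (fun i => S (x i) (y i) ω) ≤ ε / 2 := by
    rw [dist_pi_le_iff (by positivity)]
    intro i
    rw [Real.dist_eq]
    exact hcon' i
  have h3 : ε ≤ dist (fun i => Sn (fun j t => B n j t ω) n (x i) (y i)) (fun i => S (x i) (y i) ω) := hω
  linarith

private theorem SON_tim1 {S : ℝ → ℝ → Ω → ℝ} {B : ℕ → ℕ → ℝ → Ω → ℝ}
    (hl : ∀ K ε : ℝ, 0 < ε → Tendsto (fun n : ℕ => P {ω | ∃ x y : ℝ, |x| ≤ K ∧ |y| ≤ K ∧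
      ε < |Sn (fun i t => B n i t ω) n x y - S x y ω|}) atTop (𝓝 0)) (x y : ℝ) :
    TendstoInMeasure P (fun n ω => Sn (fun j t => B n j t ω) n x y) atTop (fun ω => S x y ω) := by
  rw [tendstoInMeasure_iff_dist]
  intro ε hε
  refine tendsto_of_tendsto_of_tendsto_of_le_of_le tendsto_const_nhds
    (hl (|x| + |y|) (ε / 2) (by positivity)) (fun _ => zero_le) (fun n => measure_mono ?_)
  intro ω hω
  have h3 : ε ≤ dist (Sn (fun j t => B n j t ω) n x y) (S x y ω) := hω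
  rw [Real.dist_eq] at h3
  refine ⟨x, y, ?_, ?_, by linarith⟩
  · have := abs_nonneg y
    linarith
  · have := abs_nonneg x
    linarith

private theorem SON_w (x y : ℝ) : ∀ᶠ n : ℕ in atTop, 1 ≤ n ∧ 0 < 1 + 2 * (y - x) * (n : ℝ) ^ (-(1 / 3) : ℝ) := by
  have h1 : Tendsto (fun n : ℕ => (n : ℝ) ^ (-(1 / 3) : ℝ)) atTop (𝓝 0) :=
    (tendsto_rpow_neg_atTop (by norm_num : (0 : ℝ) < 1 / 3)).comp tendsto_natCast_atTop_atTop
  have h2 : Tendsto (fun n : ℕ => 1 + 2 * (y - x) * (n : ℝ) ^ (-(1 / 3) : ℝ)) atTop (𝓝 (1 + 2 * (y - x) * 0)) :=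
    (h1.const_mul _).const_add _
  rw [mul_zero, add_zero] at h2
  filter_upwards [eventually_ge_atTop 1, h2.eventually (lt_mem_nhds one_pos)] with n hn h3
  exact ⟨hn, h3⟩

private theorem SON_le {x y w : ℝ} (h : 0 < 1 + 2 * (y - x) * w) : 2 * x * w ≤ 1 + 2 * y * w := by
  nlinarith

private theorem SON_meas {B : ℕ → ℝ → Ω → ℝ} (hB : ∀ i, IsBM P (B i) 1 0) (n : ℕ) (hn : 1 ≤ n) {x y : ℝ}
    (h : 0 < 1 + 2 * (y - x) * (n : ℝ) ^ (-(1 / 3) : ℝ)) :
    AEMeasurable (fun ω => Sn (fun i t => B i t ω) n x y) P := by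
  have h1 := lpp_aemeas hB n hn (SON_le h)
  unfold Sn
  exact ((h1.sub_const _).sub_const _).const_mul _

private theorem SON_comp {E F : Type*} [MeasurableSpace E] [MeasurableSpace F] {U V : Ω → E} (hU : AEMeasurable U P)
    (hV : AEMeasurable V P) (h : P.map U = P.map V) {g : E → F} (hg : Measurable g) :
    P.map (fun ω => g (U ω)) = P.map (fun ω => g (V ω)) := by
  have h1 := AEMeasurable.map_map_of_aemeasurable (hg.aemeasurable (μ := P.map U)) hU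
  have h2 := AEMeasurable.map_map_of_aemeasurable (hg.aemeasurable (μ := P.map V)) hV
  rw [h] at h1
  rw [h2] at h1
  exact h1.symm

private theorem SON_lines {B : ℕ → ℝ → Ω → ℝ} (hB : ∀ i, IsBM P (B i) 1 0) (r c d : ℝ) (hc : 0 < c)
    (hrc : r ^ 2 * c = 1) : ∀ i, IsBM P (fun t ω => r * (B i (c * t + d) ω - B i d ω)) 1 0 := by
  intro i
  have h := bm_scale (hB i) r c d hc
  rw [mul_one, hrc, mul_zero, zero_mul] at h
  exact h

private theorem SON_cont {B : ℕ → ℝ → Ω → ℝ} (hB : ∀ i, IsBM P (B i) 1 0) :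
    ∀ᵐ ω ∂P, ∀ i, Continuous fun t => B i t ω := ae_all_iff.mpr fun i => (hB i).cont

private theorem SON_shift_law {B : ℕ → ℝ → Ω → ℝ} (hB : ∀ i, IsBM P (B i) 1 0)
    (hi : iIndepFun (fun (i : ℕ) (ω : Ω) (t : ℝ) => B i t ω) P) (n : ℕ) (hn : 1 ≤ n) (k : ℕ) (x y : Fin k → ℝ) (a : ℝ)
    (h : ∀ i, 0 < 1 + 2 * (y i - x i) * (n : ℝ) ^ (-(1 / 3) : ℝ)) :
    P.map (fun ω i => Sn (fun j t => B j t ω) n (x i + a) (y i + a)) =
      P.map (fun ω i => Sn (fun j t => B j t ω) n (x i) (y i)) := by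
  set w : ℝ := (n : ℝ) ^ (-(1 / 3) : ℝ) with hw
  set B' : ℕ → ℝ → Ω → ℝ := fun i t ω => 1 * (B i (1 * t + 2 * a * w) ω - B i (2 * a * w) ω) with hB'd
  have hB' : ∀ i, IsBM P (B' i) 1 0 := SON_lines hB 1 1 (2 * a * w) one_pos (by norm_num)
  have hi' : iIndepFun (fun (i : ℕ) (ω : Ω) (t : ℝ) => B' i t ω) P := lines_scale hi 1 1 (2 * a * w)
  have h0 : ∀ i, 2 * x i * w ≤ 1 + 2 * y i * w := fun i => SON_le (h i)
  have hlaw := lpp_law hB' hi' hB hi n hn k (fun i => 2 * x i * w) (fun i => 1 + 2 * y i * w) h0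
  have m1 : AEMeasurable (fun ω i => lpp (fun j t => B' j t ω) n (2 * x i * w) (1 + 2 * y i * w)) P :=
    aemeasurable_pi_lambda _ fun i => lpp_aemeas hB' n hn (h0 i)
  have m2 : AEMeasurable (fun ω i => lpp (fun j t => B j t ω) n (2 * x i * w) (1 + 2 * y i * w)) P :=
    aemeasurable_pi_lambda _ fun i => lpp_aemeas hB n hn (h0 i)
  have hg : Measurable fun (z : Fin k → ℝ) (i : Fin k) =>
      (n : ℝ) ^ (1 / 6 : ℝ) * (z i - 2 * √(n : ℝ) - 2 * (y i - x i) * (n : ℝ) ^ (1 / 6 : ℝ)) := by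
    fun_prop
  have h2 := SON_comp m1 m2 hlaw hg
  refine Eq.trans (Measure.map_congr ?_) h2
  filter_upwards [SON_cont hB] with ω hω
  funext i
  unfold Sn
  have h3 := lpp_shift (B := fun j t => B j t ω) (B' := fun j t => B' j t ω) hω 1 1 (2 * a * w) one_pos one_pos
    (fun j t => rfl) n hn (h0 i)
  rw [h3]
  have e1 : 2 * (x i + a) * (n : ℝ) ^ (-(1 / 3) : ℝ) = 1 * (2 * x i * w) + 2 * a * w := by rw [← hw]; ring
  have e2 : 1 + 2 * (y i + a) * (n : ℝ) ^ (-(1 / 3) : ℝ) = 1 * (1 + 2 * y i * w) + 2 * a * w := by rw [← hw]; ring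
  rw [e1, e2]
  ring

private theorem SON_one_law {B : ℕ → ℝ → Ω → ℝ} (hB : ∀ i, IsBM P (B i) 1 0)
    (hi : iIndepFun (fun (i : ℕ) (ω : Ω) (t : ℝ) => B i t ω) P) (n : ℕ) (hn : 1 ≤ n) (x y : ℝ)
    (h : 0 < 1 + 2 * (y - x) * (n : ℝ) ^ (-(1 / 3) : ℝ)) :
    P.map (fun ω => Sn (fun j t => B j t ω) n x y) =
      P.map (fun ω => √(1 + 2 * (y - x) * (n : ℝ) ^ (-(1 / 3) : ℝ)) * Sn (fun j t => B j t ω) n 0 0 +
        -(4 * (y - x) ^ 2) / (√(1 + 2 * (y - x) * (n : ℝ) ^ (-(1 / 3) : ℝ)) + 1) ^ 2) := by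
  set w : ℝ := (n : ℝ) ^ (-(1 / 3) : ℝ) with hw
  set T : ℝ := 1 + 2 * (y - x) * w with hT
  have hsT : 0 < √T := Real.sqrt_pos.mpr h
  have hsT2 : √T ^ 2 = T := Real.sq_sqrt h.le
  set B' : ℕ → ℝ → Ω → ℝ := fun i t ω => 1 / √T * (B i (T * t + 2 * x * w) ω - B i (2 * x * w) ω) with hB'd
  have hB' : ∀ i, IsBM P (B' i) 1 0 := by
    refine SON_lines hB (1 / √T) T (2 * x * w) h ?_
    rw [div_pow, hsT2, one_pow]
    field_simp
  have hi' : iIndepFun (fun (i : ℕ) (ω : Ω) (t : ℝ) => B' i t ω) P := lines_scale hi (1 / √T) T (2 * x * w)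
  have hlaw := lpp_law hB' hi' hB hi n hn 1 (fun _ => 0) (fun _ => 1) (fun _ => zero_le_one)
  have m1 : AEMeasurable (fun ω (_ : Fin 1) => lpp (fun j t => B' j t ω) n 0 1) P :=
    aemeasurable_pi_lambda _ fun i => lpp_aemeas hB' n hn zero_le_one
  have m2 : AEMeasurable (fun ω (_ : Fin 1) => lpp (fun j t => B j t ω) n 0 1) P :=
    aemeasurable_pi_lambda _ fun i => lpp_aemeas hB n hn zero_le_one
  have hg : Measurable fun (z : Fin 1 → ℝ) =>
      √T * ((n : ℝ) ^ (1 / 6 : ℝ) * (z 0 - 2 * √(n : ℝ))) + -(4 * (y - x) ^ 2) / (√T + 1) ^ 2 := by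
    fun_prop
  have h2 := SON_comp m1 m2 hlaw hg
  have hn0 : (0 : ℝ) < n := by exact_mod_cast hn
  have hu : (n : ℝ) ^ (1 / 6 : ℝ) * √(n : ℝ) = (n : ℝ) ^ (2 / 3 : ℝ) := by
    rw [Real.sqrt_eq_rpow, ← Real.rpow_add hn0]
    norm_num
  have hv : (n : ℝ) ^ (1 / 6 : ℝ) * (n : ℝ) ^ (1 / 6 : ℝ) = (n : ℝ) ^ (2 / 3 : ℝ) * w := by
    rw [hw, ← Real.rpow_add hn0, ← Real.rpow_add hn0]
    norm_num
  have hww : (n : ℝ) ^ (2 / 3 : ℝ) * (w * w) = 1 := by
    rw [hw, ← Real.rpow_add hn0, ← Real.rpow_add hn0]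
    norm_num
  refine Eq.trans (Measure.map_congr ?_) (h2.trans (Measure.map_congr ?_))
  · filter_upwards [SON_cont hB] with ω hω
    unfold Sn
    have h3 := lpp_shift (B := fun j t => B j t ω) (B' := fun j t => B' j t ω) hω (1 / √T) T (2 * x * w)
      (by positivity) h (fun j t => rfl) n hn zero_le_one
    have e1 : T * 0 + 2 * x * w = 2 * x * w := by ring
    have e2 : T * 1 + 2 * x * w = 1 + 2 * y * w := by rw [hT]; ring
    rw [e1, e2] at h3
    have h4 : lpp (fun j t => B j t ω) n (2 * x * w) (1 + 2 * y * w) = √T * lpp (fun j t => B' j t ω) n 0 1 := by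
      rw [h3]
      field_simp
    rw [← hw, h4]
    have h5 : √T - 1 - (y - x) * w = -(4 * (y - x) ^ 2) / (√T + 1) ^ 2 * (w * w) / 2 := by
      have h6 : (√T - 1) * (√T + 1) = 2 * (y - x) * w := by
        have : (√T - 1) * (√T + 1) = √T ^ 2 - 1 := by ring
        rw [this, hsT2, hT]
        ring
      have h7 : √T - 1 = 2 * (y - x) * w / (√T + 1) := by
        rw [eq_div_iff (by positivity)]
        exact h6
      have h8 : √T - 1 - (y - x) * w = -(√T - 1) ^ 2 / 2 := by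
        have : -(√T - 1) ^ 2 / 2 = -(√T ^ 2) / 2 + √T - 1 / 2 := by ring
        rw [this, hsT2, hT]
        ring
      rw [h8, h7, div_pow]
      ring
    have h9 : (n : ℝ) ^ (1 / 6 : ℝ) * (√T * lpp (fun j t => B' j t ω) n 0 1 - 2 * √(n : ℝ) -
        2 * (y - x) * (n : ℝ) ^ (1 / 6 : ℝ)) =
        √T * ((n : ℝ) ^ (1 / 6 : ℝ) * (lpp (fun j t => B' j t ω) n 0 1 - 2 * √(n : ℝ))) +
          2 * (√T * ((n : ℝ) ^ (1 / 6 : ℝ) * √(n : ℝ)) - (n : ℝ) ^ (1 / 6 : ℝ) * √(n : ℝ) -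
            (y - x) * ((n : ℝ) ^ (1 / 6 : ℝ) * (n : ℝ) ^ (1 / 6 : ℝ))) := by ring
    rw [h9, hu, hv]
    congr 1
    have h10 : 2 * (√T * (n : ℝ) ^ (2 / 3 : ℝ) - (n : ℝ) ^ (2 / 3 : ℝ) - (y - x) * ((n : ℝ) ^ (2 / 3 : ℝ) * w)) =
        2 * (n : ℝ) ^ (2 / 3 : ℝ) * (√T - 1 - (y - x) * w) := by ring
    rw [h10, h5]
    have h11 : 2 * (n : ℝ) ^ (2 / 3 : ℝ) * (-(4 * (y - x) ^ 2) / (√T + 1) ^ 2 * (w * w) / 2) =
        -(4 * (y - x) ^ 2) / (√T + 1) ^ 2 * ((n : ℝ) ^ (2 / 3 : ℝ) * (w * w)) := by ring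
    rw [h11, hww, mul_one]
  · refine Filter.Eventually.of_forall fun ω => ?_
    unfold Sn
    simp only [mul_zero, zero_mul, add_zero, sub_zero]

theorem s_shift {S : ℝ → ℝ → Ω → ℝ} (hS : IsAirySheet P S) (k : ℕ) (x y : Fin k → ℝ) (a : ℝ) :
    P.map (fun ω i => S (x i + a) (y i + a) ω) = P.map (fun ω i => S (x i) (y i) ω) := by
  obtain ⟨B, hB, hi, hl⟩ := hS.lim
  have hev : ∀ᶠ n : ℕ in atTop, 1 ≤ n ∧ ∀ i, 0 < 1 + 2 * (y i - x i) * (n : ℝ) ^ (-(1 / 3) : ℝ) := by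
    have h1 : ∀ᶠ n : ℕ in atTop, ∀ i, 1 ≤ n ∧ 0 < 1 + 2 * (y i - x i) * (n : ℝ) ^ (-(1 / 3) : ℝ) :=
      Filter.eventually_all.mpr fun i => SON_w (x i) (y i)
    filter_upwards [h1, eventually_ge_atTop 1] with n h2 h3
    exact ⟨h3, fun i => (h2 i).2⟩
  obtain ⟨n0, hn0⟩ := Filter.eventually_atTop.mp hev
  have hs : Tendsto (fun n : ℕ => n + n0) atTop atTop := tendsto_add_atTop_nat n0
  have t1 := (SON_tim hl k (fun i => x i + a) (fun i => y i + a)).comp hs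
  have t2 := (SON_tim hl k x y).comp hs
  have a1 : ∀ n : ℕ, AEMeasurable (fun ω (i : Fin k) => Sn (fun j t => B (n + n0) j t ω) (n + n0) (x i + a) (y i + a)) P := by
    intro n
    refine aemeasurable_pi_lambda _ fun i => SON_meas (hB (n + n0)) (n + n0) (hn0 (n + n0) (by omega)).1 ?_
    have := (hn0 (n + n0) (by omega)).2 i
    rwa [add_sub_add_right_eq_sub]
  have a2 : ∀ n : ℕ, AEMeasurable (fun ω (i : Fin k) => Sn (fun j t => B (n + n0) j t ω) (n + n0) (x i) (y i)) P := by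
    intro n
    exact aemeasurable_pi_lambda _ fun i => SON_meas (hB (n + n0)) (n + n0) (hn0 (n + n0) (by omega)).1
      ((hn0 (n + n0) (by omega)).2 i)
  exact SON_unique a1 t1 (t2.tendstoInDistribution a2) fun n =>
    SON_shift_law (hB (n + n0)) (hi (n + n0)) (n + n0) (hn0 (n + n0) (by omega)).1 k x y a (hn0 (n + n0) (by omega)).2

theorem s_one {S : ℝ → ℝ → Ω → ℝ} (hS : IsAirySheet P S) (x y : ℝ) :
    P.map (fun ω => S x y ω) = P.map (fun ω => S 0 0 ω - (x - y) ^ 2) := by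
  obtain ⟨B, hB, hi, hl⟩ := hS.lim
  obtain ⟨n0, hn0⟩ := Filter.eventually_atTop.mp (SON_w x y)
  have t1 := SON_tim1 hl x y
  have t2 := SON_tim1 hl 0 0
  obtain ⟨ns, hns, hae⟩ := t2.exists_seq_tendsto_ae
  have hge : ∀ k : ℕ, n0 ≤ ns (k + n0) := fun k => by
    have h := hns.le_apply (x := k + n0)
    omega
  have hN : Tendsto (fun k : ℕ => ns (k + n0)) atTop atTop := hns.tendsto_atTop.comp (tendsto_add_atTop_nat n0)
  have t3 := t1.comp hN
  have h1 : Tendsto (fun n : ℕ => (n : ℝ) ^ (-(1 / 3) : ℝ)) atTop (𝓝 0) :=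
    (tendsto_rpow_neg_atTop (by norm_num : (0 : ℝ) < 1 / 3)).comp tendsto_natCast_atTop_atTop
  have h2 : Tendsto (fun n : ℕ => √(1 + 2 * (y - x) * (n : ℝ) ^ (-(1 / 3) : ℝ))) atTop (𝓝 1) := by
    have h3 : Tendsto (fun n : ℕ => 1 + 2 * (y - x) * (n : ℝ) ^ (-(1 / 3) : ℝ)) atTop (𝓝 (1 + 2 * (y - x) * 0)) :=
      (h1.const_mul _).const_add _
    have h4 := h3.sqrt
    rwa [mul_zero, add_zero, Real.sqrt_one] at h4
  have h3 : Tendsto (fun n : ℕ => -(4 * (y - x) ^ 2) / (√(1 + 2 * (y - x) * (n : ℝ) ^ (-(1 / 3) : ℝ)) + 1) ^ 2) atTop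
      (𝓝 (-(4 * (y - x) ^ 2) / (1 + 1) ^ 2)) :=
    tendsto_const_nhds.div ((h2.add_const 1).pow 2) (by norm_num)
  have hm0 : ∀ k : ℕ, AEMeasurable (fun ω => Sn (fun j t => B (ns (k + n0)) j t ω) (ns (k + n0)) 0 0) P := by
    intro k
    refine SON_meas (hB _) _ (hn0 _ (hge k)).1 ?_
    rw [sub_self, mul_zero, zero_mul, add_zero]
    exact one_pos
  have hS0 : Measurable (S 0 0) := hS.meas 0 0
  refine SON_unique (X := fun k ω => Sn (fun j t => B (ns (k + n0)) j t ω) (ns (k + n0)) x y)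
    (Y := fun k ω => √(1 + 2 * (y - x) * ((ns (k + n0) : ℕ) : ℝ) ^ (-(1 / 3) : ℝ)) *
      Sn (fun j t => B (ns (k + n0)) j t ω) (ns (k + n0)) 0 0 +
        -(4 * (y - x) ^ 2) / (√(1 + 2 * (y - x) * ((ns (k + n0) : ℕ) : ℝ) ^ (-(1 / 3) : ℝ)) + 1) ^ 2) ?_ t3 ?_ ?_
  · intro k
    exact SON_meas (hB _) _ (hn0 _ (hge k)).1 (hn0 _ (hge k)).2
  · refine tendstoInDistribution_of_ae_tendsto ?_ ?_ ?_
    · intro k
      exact ((hm0 k).const_mul _).add_const _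
    · exact (hS0.sub_const _).aemeasurable
    · filter_upwards [hae] with ω hω
      have h4 : Tendsto (fun k : ℕ => Sn (fun j t => B (ns (k + n0)) j t ω) (ns (k + n0)) 0 0) atTop (𝓝 (S 0 0 ω)) :=
        hω.comp (tendsto_add_atTop_nat n0)
      have h5 := ((h2.comp hN).mul h4).add (h3.comp hN)
      have h6 : 1 * S 0 0 ω + -(4 * (y - x) ^ 2) / (1 + 1) ^ 2 = S 0 0 ω - (x - y) ^ 2 := by ring
      rw [h6] at h5
      exact h5
  · intro k
    exact SON_one_law (hB _) (hi _) _ (hn0 _ (hge k)).1 x y (hn0 _ (hge k)).2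

end Pool.Agent.DLM
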