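import Pool.Agent.DLM.LPM

/-!
# DLM/SQD: quadrangle inequality for the Airy sheet (50-80 lines)

For fixed `x ≤ x'`, `y ≤ y'` and `n` large (`2 x' n^(-1/3) ≤ 1 + 2 y n^(-1/3)`) `lpp_quad` gives `Sn x y' + Sn x' y ≤ Sn x y + Sn x' y'` a.s. (the affine terms cancel).  In the limit (convergence in probability; a subsequence converges a.s., or: for `ε > 0` the event `S x y' + S x' y > S x y + S x' y' + ε` has probability at most
`P(some |Sn - S| > ε/4) → 0`) the same for `S`; all rational points simultaneously, then all real points by continuity.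
-/

set_option autoImplicit false

open MeasureTheory ProbabilityTheory Filter Topology

namespace Pool.Agent.DLM

private theorem sqd_sn (B : ℕ → ℝ → ℝ) (hB : ∀ i, Continuous (B i)) (n : ℕ) (hn : 1 ≤ n) {x x' y y' : ℝ}
    (hx : x ≤ x') (hy : y ≤ y')
    (h : 2 * x' * (n : ℝ) ^ (-(1 / 3) : ℝ) ≤ 1 + 2 * y * (n : ℝ) ^ (-(1 / 3) : ℝ)) :
    Sn B n x y' + Sn B n x' y ≤ Sn B n x y + Sn B n x' y' := by
  have hn0 : (0 : ℝ) < n := by exact_mod_cast hn
  have hp : (0 : ℝ) < (n : ℝ) ^ (-(1 / 3) : ℝ) := Real.rpow_pos_of_pos hn0 _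
  have hp6 : (0 : ℝ) < (n : ℝ) ^ (1 / 6 : ℝ) := Real.rpow_pos_of_pos hn0 _
  have key := lpp_quad hB n hn
    (x := 2 * x * (n : ℝ) ^ (-(1 / 3) : ℝ)) (x' := 2 * x' * (n : ℝ) ^ (-(1 / 3) : ℝ))
    (y := 1 + 2 * y * (n : ℝ) ^ (-(1 / 3) : ℝ)) (y' := 1 + 2 * y' * (n : ℝ) ^ (-(1 / 3) : ℝ))
    (by nlinarith) (by nlinarith) h
  have k2 := mul_le_mul_of_nonneg_left key hp6.le
  unfold Sn
  nlinarith [k2]

private theorem sqd_tend : Tendsto (fun n : ℕ => (n : ℝ) ^ (-(1 / 3) : ℝ)) atTop (𝓝 0) :=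
  (tendsto_rpow_neg_atTop (by norm_num : (0 : ℝ) < 1 / 3)).comp tendsto_natCast_atTop_atTop

private theorem sqd_fix {Ω : Type*} [MeasurableSpace Ω] {P : Measure Ω} [IsProbabilityMeasure P]
    {S : ℝ → ℝ → Ω → ℝ} (hS : IsAirySheet P S) (x x' y y' : ℝ) (hx : x ≤ x') (hy : y ≤ y') :
    ∀ᵐ ω ∂P, S x y' ω + S x' y ω ≤ S x y ω + S x' y' ω := by
  obtain ⟨B, hB, -, hl⟩ := hS.lim
  set K : ℝ := |x| + |x'| + |y| + |y'| with hK
  have hc : ∀ᵐ ω ∂P, ∀ n i, Continuous fun t => B n i t ω := by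
    rw [ae_all_iff]; intro n
    rw [ae_all_iff]; intro i
    exact (hB n i).cont
  have hev : ∀ᶠ n : ℕ in atTop, 1 ≤ n ∧
      2 * x' * (n : ℝ) ^ (-(1 / 3) : ℝ) ≤ 1 + 2 * y * (n : ℝ) ^ (-(1 / 3) : ℝ) := by
    refine (eventually_ge_atTop 1).and ?_
    have h1 : Tendsto (fun n : ℕ => (2 * x' - 2 * y) * (n : ℝ) ^ (-(1 / 3) : ℝ)) atTop (𝓝 0) := by
      simpa using sqd_tend.const_mul (2 * x' - 2 * y)
    filter_upwards [h1.eventually (gt_mem_nhds (by norm_num : (0 : ℝ) < 1))] with n hn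
    linarith
  have hε : ∀ k : ℕ, P {ω | ¬ (S x y' ω + S x' y ω ≤ S x y ω + S x' y' ω + 4 * (1 / ((k : ℝ) + 1)))} = 0 := by
    intro k
    have hk : (0 : ℝ) < 1 / ((k : ℝ) + 1) := by positivity
    set ε : ℝ := 1 / ((k : ℝ) + 1) with hεd
    refine le_antisymm ?_ (zero_le)
    refine ge_of_tendsto (hl K ε hk) ?_
    filter_upwards [hev] with n hn
    refine measure_mono_ae ?_
    filter_upwards [hc] with ω hω
    intro hbad
    change ¬ (S x y' ω + S x' y ω ≤ S x y ω + S x' y' ω + 4 * ε) at hbad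
    change ∃ x y : ℝ, |x| ≤ K ∧ |y| ≤ K ∧ ε < |Sn (fun i t => B n i t ω) n x y - S x y ω|
    by_contra hno
    push Not at hno
    have q := sqd_sn (fun i t => B n i t ω) (hω n) n hn.1 hx hy hn.2
    have ax := abs_nonneg x
    have ax' := abs_nonneg x'
    have ay := abs_nonneg y
    have ay' := abs_nonneg y'
    have b1 := abs_le.mp (hno x y (by linarith) (by linarith))
    have b2 := abs_le.mp (hno x y' (by linarith) (by linarith))
    have b3 := abs_le.mp (hno x' y (by linarith) (by linarith))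
    have b4 := abs_le.mp (hno x' y' (by linarith) (by linarith))
    apply hbad
    linarith [b1.1, b1.2, b2.1, b2.2, b3.1, b3.2, b4.1, b4.2]
  have hall : ∀ᵐ ω ∂P, ∀ k : ℕ, S x y' ω + S x' y ω ≤ S x y ω + S x' y' ω + 4 * (1 / ((k : ℝ) + 1)) := by
    rw [ae_all_iff]; intro k
    exact hε k
  filter_upwards [hall] with ω hω
  have ht : Tendsto (fun k : ℕ => S x y ω + S x' y' ω + 4 * (1 / ((k : ℝ) + 1))) atTop
      (𝓝 (S x y ω + S x' y' ω + 4 * 0)) :=
    tendsto_const_nhds.add ((tendsto_one_div_add_atTop_nhds_zero_nat).const_mul 4)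
  rw [mul_zero, add_zero] at ht
  exact ge_of_tendsto' ht hω

theorem s_quad {Ω : Type*} [MeasurableSpace Ω] {P : Measure Ω} [IsProbabilityMeasure P] {S : ℝ → ℝ → Ω → ℝ}
    (hS : IsAirySheet P S) :
    ∀ᵐ ω ∂P, ∀ x x' y y' : ℝ, x ≤ x' → y ≤ y' → S x y' ω + S x' y ω ≤ S x y ω + S x' y' ω := by
  have hq : ∀ᵐ ω ∂P, ∀ x x' y y' : ℚ, (x : ℝ) ≤ x' → (y : ℝ) ≤ y' →
      S x y' ω + S x' y ω ≤ S x y ω + S x' y' ω := by
    rw [ae_all_iff]; intro x
    rw [ae_all_iff]; intro x'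
    rw [ae_all_iff]; intro y
    rw [ae_all_iff]; intro y'
    by_cases hx : (x : ℝ) ≤ x'
    · by_cases hy : (y : ℝ) ≤ y'
      · filter_upwards [sqd_fix hS x x' y y' hx hy] with ω hω _ _ using hω
      · exact Eventually.of_forall fun ω _ h => absurd h hy
    · exact Eventually.of_forall fun ω h => absurd h hx
  filter_upwards [hq, hS.cont] with ω hω hcont
  intro x x' y y' hx hy
  obtain ⟨u, -, hu1, hu2⟩ := Real.exists_seq_rat_strictMono_tendsto x
  obtain ⟨u', -, hu1', hu2'⟩ := Real.exists_seq_rat_strictAnti_tendsto x'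
  obtain ⟨v, -, hv1, hv2⟩ := Real.exists_seq_rat_strictMono_tendsto y
  obtain ⟨v', -, hv1', hv2'⟩ := Real.exists_seq_rat_strictAnti_tendsto y'
  have T : ∀ {a b : ℝ} {p q : ℕ → ℚ}, Tendsto (fun n => (p n : ℝ)) atTop (𝓝 a) →
      Tendsto (fun n => (q n : ℝ)) atTop (𝓝 b) →
      Tendsto (fun n => S (p n) (q n) ω) atTop (𝓝 (S a b ω)) := by
    intro a b p q hp hq
    exact (hcont.tendsto (a, b)).comp (hp.prodMk_nhds hq)
  refine le_of_tendsto_of_tendsto' ((T hu2 hv2').add (T hu2' hv2)) ((T hu2 hv2).add (T hu2' hv2')) ?_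
  intro k
  refine hω _ _ _ _ ?_ ?_
  · have := hu1 k; have := hu1' k; linarith
  · have := hv1 k; have := hv1' k; linarith

end Pool.Agent.DLM
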