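import Pool.Agent.DLM.KUN
import Pool.Agent.DLM.SON
import Pool.Agent.DLM.SQD
import Pool.Agent.DLM.SMG
import Pool.Agent.DLM.CPL

/-!
# DLM/NUA: the sheets of all durations, elementary properties (80-120 lines)

`nuS θ` = law of `θ^(1/3) S₀(x/θ^(2/3), y/θ^(2/3))` on rational points.  `nuS_shift`: `s_shift` with `a/θ^(2/3)`, `kern_law_ext`.  `nuS_scal`: `Measure.map_map`; `r θ^(1/3) = (r^3 θ)^(1/3)`, `r^2 θ^(2/3) = (r^3 θ)^(2/3)` (equality of functions).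
`nuS_quad`: `s_quad` (`ae_map_iff`, the set `{S | Quad S}` is a countable intersection of measurable sets).  `nuS_one`: `s_one`: `θ^(1/3)(S₀ 0 0 - (x-y)^2/θ^(4/3))`.  `tw_mgf`: `s_mgf` for the coupling `cpl_exists` (first marginal of `P₀ ⊗ P₀` is `P₀`).
-/

set_option autoImplicit false

open MeasureTheory ProbabilityTheory Filter Topology

namespace Pool.Agent.DLM

variable {Ω₀ : Type*} [MeasurableSpace Ω₀] {P₀ : Measure Ω₀} [IsProbabilityMeasure P₀] {S₀ : ℝ → ℝ → Ω₀ → ℝ}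

/-- law of the sheet with time `θ` on rational points -/
noncomputable def nuS (P₀ : Measure Ω₀) (S₀ : ℝ → ℝ → Ω₀ → ℝ) (θ : ℝ) : Measure Kern :=
  P₀.map fun ω (x y : ℚ) => θ ^ (1 / 3 : ℝ) * S₀ ((x : ℝ) / θ ^ (2 / 3 : ℝ)) ((y : ℝ) / θ ^ (2 / 3 : ℝ)) ω

omit [IsProbabilityMeasure P₀] in
private lemma NUA_meas (hS : IsAirySheet P₀ S₀) (θ : ℝ) : Measurable (fun ω (x y : ℚ) =>
    θ ^ (1 / 3 : ℝ) * S₀ ((x : ℝ) / θ ^ (2 / 3 : ℝ)) ((y : ℝ) / θ ^ (2 / 3 : ℝ)) ω : Ω₀ → Kern) :=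
  measurable_pi_lambda _ fun _ => measurable_pi_lambda _ fun _ => (hS.meas _ _).const_mul _

theorem nuS_prob (hS : IsAirySheet P₀ S₀) (θ : ℝ) : IsProbabilityMeasure (nuS P₀ S₀ θ) := by
  exact Measure.isProbabilityMeasure_map (NUA_meas hS θ).aemeasurable

theorem nuS_shift (hS : IsAirySheet P₀ S₀) (θ : ℝ) (a : ℚ) (hθ : 0 < θ) :
    (nuS P₀ S₀ θ).map (fun S x y => S (x + a) (y + a)) = nuS P₀ S₀ θ := by
  have hm : Measurable (fun (S : Kern) => (fun x y => S (x + a) (y + a) : Kern)) :=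
    measurable_pi_lambda _ fun x => measurable_pi_lambda _ fun y => (measurable_pi_apply _).comp (measurable_pi_apply _)
  unfold nuS
  rw [Measure.map_map hm (NUA_meas hS θ)]
  refine kern_law_ext (X := fun x y ω => θ ^ (1 / 3 : ℝ) *
      S₀ (((x + a : ℚ) : ℝ) / θ ^ (2 / 3 : ℝ)) (((y + a : ℚ) : ℝ) / θ ^ (2 / 3 : ℝ)) ω)
    (Y := fun x y ω => θ ^ (1 / 3 : ℝ) * S₀ ((x : ℝ) / θ ^ (2 / 3 : ℝ)) ((y : ℝ) / θ ^ (2 / 3 : ℝ)) ω)
    (fun x y => (hS.meas _ _).const_mul _) (fun x y => (hS.meas _ _).const_mul _) fun k x y => ?_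
  have h1 := s_shift hS k (fun i => (x i : ℝ) / θ ^ (2 / 3 : ℝ)) (fun i => (y i : ℝ) / θ ^ (2 / 3 : ℝ))
    ((a : ℝ) / θ ^ (2 / 3 : ℝ))
  have hg : Measurable (fun (v : Fin k → ℝ) i => θ ^ (1 / 3 : ℝ) * v i) :=
    measurable_pi_lambda _ fun i => (measurable_pi_apply i).const_mul _
  have h2 := congrArg (fun μ : Measure (Fin k → ℝ) => μ.map (fun (v : Fin k → ℝ) i => θ ^ (1 / 3 : ℝ) * v i)) h1
  beta_reduce at h2
  rw [Measure.map_map hg (measurable_pi_lambda _ fun i => hS.meas _ _),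
    Measure.map_map hg (measurable_pi_lambda _ fun i => hS.meas _ _)] at h2
  have e1 : (fun ω (i : Fin k) => θ ^ (1 / 3 : ℝ) *
      S₀ (((x i + a : ℚ) : ℝ) / θ ^ (2 / 3 : ℝ)) (((y i + a : ℚ) : ℝ) / θ ^ (2 / 3 : ℝ)) ω) =
      ((fun (v : Fin k → ℝ) i => θ ^ (1 / 3 : ℝ) * v i) ∘ fun ω i =>
        S₀ ((x i : ℝ) / θ ^ (2 / 3 : ℝ) + (a : ℝ) / θ ^ (2 / 3 : ℝ))
          ((y i : ℝ) / θ ^ (2 / 3 : ℝ) + (a : ℝ) / θ ^ (2 / 3 : ℝ)) ω) := by
    funext ω i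
    simp only [Function.comp, Rat.cast_add, add_div]
  rw [e1, h2]
  rfl

theorem nuS_scal (hS : IsAirySheet P₀ S₀) (θ : ℝ) (r : ℚ) (hθ : 0 < θ) (hr : 0 < r) :
    (nuS P₀ S₀ θ).map (fun S x y => (r : ℝ) * S (x / r ^ 2) (y / r ^ 2)) = nuS P₀ S₀ ((r : ℝ) ^ 3 * θ) := by
  have hev : ∀ a b : ℚ, Measurable fun S : Kern => S a b := fun a b =>
    (measurable_pi_apply _).comp (measurable_pi_apply _)
  have hm : Measurable (fun (S : Kern) => (fun x y => (r : ℝ) * S (x / r ^ 2) (y / r ^ 2) : Kern)) :=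
    measurable_pi_lambda _ fun x => measurable_pi_lambda _ fun y => (hev _ _).const_mul _
  unfold nuS
  rw [Measure.map_map hm (NUA_meas hS θ)]
  have hr' : (0 : ℝ) < (r : ℝ) := by exact_mod_cast hr
  have e1 : ((r : ℝ) ^ 3 * θ) ^ (1 / 3 : ℝ) = (r : ℝ) * θ ^ (1 / 3 : ℝ) := by
    rw [Real.mul_rpow (by positivity) hθ.le, ← Real.rpow_natCast, ← Real.rpow_mul hr'.le]
    norm_num
  have e2 : ((r : ℝ) ^ 3 * θ) ^ (2 / 3 : ℝ) = (r : ℝ) ^ 2 * θ ^ (2 / 3 : ℝ) := by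
    rw [Real.mul_rpow (by positivity) hθ.le, ← Real.rpow_natCast, ← Real.rpow_mul hr'.le]
    norm_num
  rw [e1, e2]
  refine congrArg (fun f => Measure.map f P₀) ?_
  funext ω x y
  simp only [Function.comp, Rat.cast_div, Rat.cast_pow, div_div, mul_assoc]

theorem nuS_quad (hS : IsAirySheet P₀ S₀) (θ : ℝ) (hθ : 0 < θ) : ∀ᵐ S ∂(nuS P₀ S₀ θ), Quad S := by
  unfold nuS Quad
  rw [ae_all_iff]; intro x
  rw [ae_all_iff]; intro x'
  rw [ae_all_iff]; intro y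
  rw [ae_all_iff]; intro y'
  rw [ae_all_iff]; intro hx
  rw [ae_all_iff]; intro hy
  have hev : ∀ a b : ℚ, Measurable fun S : Kern => S a b := fun a b =>
    (measurable_pi_apply _).comp (measurable_pi_apply _)
  have hset : MeasurableSet {S : Kern | S x y' + S x' y ≤ S x y + S x' y'} :=
    measurableSet_le ((hev x y').add (hev x' y)) ((hev x y).add (hev x' y'))
  refine (ae_map_iff (NUA_meas hS θ).aemeasurable hset).mpr ?_
  filter_upwards [s_quad hS] with ω hω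
  have hp : (0 : ℝ) < θ ^ (2 / 3 : ℝ) := Real.rpow_pos_of_pos hθ _
  have hx' : (x : ℝ) ≤ x' := by exact_mod_cast hx
  have hy' : (y : ℝ) ≤ y' := by exact_mod_cast hy
  have h1 := hω (x / θ ^ (2 / 3 : ℝ)) (x' / θ ^ (2 / 3 : ℝ)) (y / θ ^ (2 / 3 : ℝ)) (y' / θ ^ (2 / 3 : ℝ))
    (div_le_div_of_nonneg_right hx' hp.le) (div_le_div_of_nonneg_right hy' hp.le)
  have h2 := mul_le_mul_of_nonneg_left h1 (Real.rpow_nonneg hθ.le (1 / 3 : ℝ))
  rw [mul_add, mul_add] at h2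
  exact h2

theorem nuS_one (hS : IsAirySheet P₀ S₀) (θ : ℝ) (x y : ℚ) (hθ : 0 < θ) : (nuS P₀ S₀ θ).map (fun S => S x y) =
    (P₀.map (S₀ 0 0)).map (fun t => θ ^ (1 / 3 : ℝ) * t - ((x : ℝ) - y) ^ 2 / θ) := by
  have hev : Measurable fun S : Kern => S x y := (measurable_pi_apply _).comp (measurable_pi_apply _)
  unfold nuS
  rw [Measure.map_map hev (NUA_meas hS θ),
    Measure.map_map (by fun_prop) (hS.meas 0 0)]
  have h1 := s_one hS (x / θ ^ (2 / 3 : ℝ)) (y / θ ^ (2 / 3 : ℝ))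
  have hg : Measurable (fun t : ℝ => θ ^ (1 / 3 : ℝ) * t) := by fun_prop
  have h2 := congrArg (fun μ : Measure ℝ => μ.map (fun t : ℝ => θ ^ (1 / 3 : ℝ) * t)) h1
  beta_reduce at h2
  rw [Measure.map_map hg (hS.meas _ _), Measure.map_map hg ((hS.meas 0 0).sub_const _)] at h2
  refine h2.trans (congrArg (fun f => Measure.map f P₀) ?_)
  funext ω
  have e : θ ^ (1 / 3 : ℝ) = θ ^ (2 / 3 : ℝ) * θ ^ (2 / 3 : ℝ) / θ := by
    rw [← Real.rpow_add hθ, eq_div_iff hθ.ne']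
    nth_rewrite 2 [← Real.rpow_one θ]
    rw [← Real.rpow_add hθ]
    norm_num
  have hp : (0 : ℝ) < θ ^ (2 / 3 : ℝ) := Real.rpow_pos_of_pos hθ _
  simp only [Function.comp]
  rw [mul_sub]
  congr 1
  rw [← sub_div, div_pow, e]
  field_simp

theorem tw_mgf (hS : IsAirySheet P₀ S₀) (c : ℝ) (hc : 0 < c) :
    ∫⁻ t, ENNReal.ofReal (Real.exp (c * t)) ∂(P₀.map (S₀ 0 0)) ≤ ENNReal.ofReal (Real.exp (c ^ 3 / 12)) := by
  obtain ⟨B, W₀, -, h⟩ := cpl_exists hS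
  have h1 := s_mgf h c hc
  rw [lintegral_map (by fun_prop) (hS.meas 0 0)]
  have h2 := (measurePreserving_fst (μ := P₀) (ν := P₀)).lintegral_comp
    (f := fun ω => ENNReal.ofReal (Real.exp (c * S₀ 0 0 ω))) (((hS.meas 0 0).const_mul c).exp.ennreal_ofReal)
  rw [← h2]
  exact h1

end Pool.Agent.DLM
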