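import Pool.Agent.DLM.NUA
import Pool.Agent.DLM.HBM
import Pool.Agent.DLM.BMU

/-!
# DLM/NUH: stationarity of Brownian motion under the sheets (100-150 lines)

`Ω₀ × Ω₀`, `S` depends on `ω.1`, `W` on `ω.2` (module CPL).  Put `κ = θ^(1/3)`, `γ = b κ/2`, `f x = κ (W (x/κ^2) + 2 γ x/κ^2) = κ W (x/κ^2) + b x`: on rational points its law is `betS b` (`bm_scale` with `r = κ`, `c = 1/κ^2`, `d = 0`; `bm_addd`; `bml_law`, `bml_unique`), `S_θ x y = κ S (x/κ^2) (y/κ^2)` has the law `nuS θ` and the pair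
`(f, S_θ)` has the law `betS b ⊗ nuS θ` (functions of `ω.2`, `ω.1`; swap the factors; `Measure.map_prod_map`-like).  `act f S_θ y = κ sup_{x ∈ ℚ} (dft (2γ) (2γ) W (x/κ^2) + S (x/κ^2) (y/κ^2)) = κ Hs γ γ (y/κ^2)`: by `hs_isLUB` (module HLO; all rational `y` simultaneously) `Hs` is the supremum over all reals, and by continuity
of `x ↦ dft .. x + S x y'` this is also the supremum over the dense set `ℚ/κ^2`; `dft (2γ)(2γ) W x = W x + 2 γ x`.  By `hs_pre` and `pre_scale` (`r = κ`, `c = 1/κ^2`) the normalised process `κ (Hs (y/κ^2) - Hs 0)` is `IsPre 2 b` (`κ · 2γ/κ^2 = b`), so its law on rational points is `IsBML 2 b` (`bml_law`), which is `betS b` (`bml_unique`).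
`nuS_stat_bdd`: `hs_bdd`.
-/

set_option autoImplicit false

open MeasureTheory ProbabilityTheory Filter Topology

namespace Pool.Agent.DLM

variable {Ω₀ : Type*} [MeasurableSpace Ω₀] {P₀ : Measure Ω₀} [IsProbabilityMeasure P₀] {S₀ : ℝ → ℝ → Ω₀ → ℝ}
  {W₀ : ℝ → Ω₀ → ℝ} {B : ℕ → ℕ → ℝ → Ω₀ × Ω₀ → ℝ}

/-- law of `W + b x` on rational points -/
noncomputable def betS (P₀ : Measure Ω₀) (W₀ : ℝ → Ω₀ → ℝ) (b : ℝ) : Measure Ini :=
  P₀.map fun ω (x : ℚ) => W₀ x ω + b * (x : ℝ)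

theorem betS_bml (hW : IsBM P₀ W₀ 2 0) (b : ℝ) : IsBML (betS P₀ W₀ b) 2 b := by
  have h1 := bml_law (bm_addd hW b).pre
  rw [zero_add] at h1
  exact h1

omit [IsProbabilityMeasure P₀] in
private theorem nuh_ms (hS : IsAirySheet P₀ S₀) (κ k : ℝ) :
    Measurable fun ω (x y : ℚ) => κ * S₀ ((x : ℝ) / k) ((y : ℝ) / k) ω :=
  measurable_pi_lambda _ fun _ => measurable_pi_lambda _ fun _ => (hS.meas _ _).const_mul _

omit [IsProbabilityMeasure P₀] in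
private theorem nuh_mf (hW : IsBM P₀ W₀ 2 0) (b κ k : ℝ) :
    Measurable fun ω (x : ℚ) => κ * (W₀ (k⁻¹ * (x : ℝ)) ω + b * κ * (k⁻¹ * (x : ℝ))) :=
  measurable_pi_lambda _ fun _ => ((hW.meas _).add_const _).const_mul _

private theorem nuh_law (hW : IsBM P₀ W₀ 2 0) (b : ℝ) {κ k : ℝ} (hκ : 0 < κ) (hk : k = κ ^ 2) :
    P₀.map (fun ω (x : ℚ) => κ * (W₀ (k⁻¹ * (x : ℝ)) ω + b * κ * (k⁻¹ * (x : ℝ)))) = betS P₀ W₀ b := by
  have hk0 : 0 < k := by rw [hk]; positivity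
  have h1 := bml_law (pre_scale (bm_addd hW (b * κ)).pre κ k⁻¹ (inv_pos.2 hk0))
  have e1 : κ ^ 2 * 2 * k⁻¹ = 2 := by
    rw [← hk]
    field_simp
  have e2 : κ * (0 + b * κ) * k⁻¹ = b := by
    have : κ * (0 + b * κ) = b * k := by rw [hk]; ring
    rw [this, mul_assoc, mul_inv_cancel₀ hk0.ne', mul_one]
  rw [e1, e2] at h1
  exact bml_unique h1 (betS_bml hW b)

private theorem nuh_joint (hS : IsAirySheet P₀ S₀) (hW : IsBM P₀ W₀ 2 0) (b θ : ℝ) {κ k : ℝ} (hκ : 0 < κ)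
    (hk : k = κ ^ 2) (e1 : θ ^ (1 / 3 : ℝ) = κ) (e2 : θ ^ (2 / 3 : ℝ) = k) :
    (betS P₀ W₀ b).prod (nuS P₀ S₀ θ) = (P₀.prod P₀).map (fun ω : Ω₀ × Ω₀ =>
      ((fun x : ℚ => κ * (W₀ (k⁻¹ * (x : ℝ)) ω.2 + b * κ * (k⁻¹ * (x : ℝ))) : Ini),
        (fun x y : ℚ => κ * S₀ ((x : ℝ) / k) ((y : ℝ) / k) ω.1 : Kern))) := by
  rw [← nuh_law hW b hκ hk]
  unfold nuS
  rw [e1, e2, Measure.map_prod_map _ _ (nuh_mf hW b κ k) (nuh_ms hS κ k)]
  conv_lhs => rw [← Measure.prod_swap]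
  rw [Measure.map_map ((nuh_mf hW b κ k).prodMap (nuh_ms hS κ k)) measurable_swap]
  rfl

private theorem nuh_sup {φ : ℝ → ℝ} (hφ : Continuous φ) {s : ℝ} (hs : IsLUB (Set.range φ) s) {κ c : ℝ}
    (hκ : 0 < κ) (hc : 0 < c) : ⨆ x : ℚ, κ * φ (c * (x : ℝ)) = κ * s := by
  refine IsLUB.ciSup_eq ⟨?_, ?_⟩
  · rintro _ ⟨x, rfl⟩
    exact mul_le_mul_of_nonneg_left (hs.1 ⟨_, rfl⟩) hκ.le
  · intro b hb
    have h1 : ∀ x : ℝ, κ * φ (c * x) ≤ b := by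
      have hcl : IsClosed {x : ℝ | κ * φ (c * x) ≤ b} :=
        isClosed_le (continuous_const.mul (hφ.comp (continuous_const.mul continuous_id))) continuous_const
      have hsub : Set.range ((↑) : ℚ → ℝ) ⊆ {x : ℝ | κ * φ (c * x) ≤ b} := by
        rintro _ ⟨q, rfl⟩
        exact hb ⟨q, rfl⟩
      have := hcl.closure_subset_iff.mpr hsub
      rw [Rat.denseRange_cast.closure_eq] at this
      exact fun x => this (Set.mem_univ x)
    have h2 : s ≤ b / κ := hs.2 (by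
      rintro _ ⟨u, rfl⟩
      have h3 := h1 (u / c)
      rw [mul_div_cancel₀ _ hc.ne'] at h3
      rw [le_div_iff₀ hκ, mul_comm]
      exact h3)
    rw [le_div_iff₀ hκ, mul_comm] at h2
    exact h2

private theorem nuh_dft (a : ℝ) (W : ℝ → ℝ) (x : ℝ) : dft a a W x = W x + a * x := by
  unfold dft
  rw [ite_self]

private theorem nuh_cont {a : ℝ} {W : ℝ → ℝ} (hW : Continuous W) : Continuous (dft a a W) := by
  have : dft a a W = fun x => W x + a * x := funext fun x => nuh_dft a W x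
  rw [this]
  exact hW.add (continuous_const.mul continuous_id)

private theorem nuh_ev (x y : ℚ) : Measurable fun S : Kern => S x y :=
  (measurable_pi_apply y).comp (measurable_pi_apply x)

private theorem nuh_ev1 (x : ℚ) : Measurable fun f : Ini => f x := measurable_pi_apply x

private theorem nuh_act : Measurable fun (p : Ini × Kern) (y : ℚ) => act p.1 p.2 y - act p.1 p.2 0 := by
  have h1 : ∀ y : ℚ, Measurable fun p : Ini × Kern => act p.1 p.2 y := by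
    intro y
    show Measurable fun p : Ini × Kern => ⨆ x : ℚ, (p.1 x + p.2 x y)
    refine Measurable.iSup fun x => ?_
    exact ((nuh_ev1 x).comp measurable_fst).add ((nuh_ev x y).comp measurable_snd)
  exact measurable_pi_lambda _ fun y => (h1 y).sub (h1 0)

theorem nuS_stat_bdd (hS : IsAirySheet P₀ S₀) (hW : IsBM P₀ W₀ 2 0)
    (hc : Cpl (P₀.prod P₀) (fun x y ω => S₀ x y ω.1) B (fun t ω => W₀ t ω.2)) (b θ : ℝ) (hθ : 0 < θ) :
    ∀ᵐ p ∂((betS P₀ W₀ b).prod (nuS P₀ S₀ θ)), ABdd p.1 p.2 := by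
  set κ : ℝ := θ ^ (1 / 3 : ℝ) with hκd
  set k : ℝ := θ ^ (2 / 3 : ℝ) with hkd
  have hκ : 0 < κ := Real.rpow_pos_of_pos hθ _
  have hk0 : 0 < k := Real.rpow_pos_of_pos hθ _
  have hk : k = κ ^ 2 := by
    rw [hκd, hkd, ← Real.rpow_natCast, ← Real.rpow_mul hθ.le]
    norm_num
  rw [nuh_joint hS hW b θ hκ hk hκd.symm hkd.symm]
  have hmF : Measurable (fun ω : Ω₀ × Ω₀ =>
      ((fun x : ℚ => κ * (W₀ (k⁻¹ * (x : ℝ)) ω.2 + b * κ * (k⁻¹ * (x : ℝ))) : Ini),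
        (fun x y : ℚ => κ * S₀ ((x : ℝ) / k) ((y : ℝ) / k) ω.1 : Kern))) :=
    ((nuh_mf hW b κ k).comp measurable_snd).prodMk ((nuh_ms hS κ k).comp measurable_fst)
  have hms : MeasurableSet {p : Ini × Kern | ABdd p.1 p.2} := by
    have : {p : Ini × Kern | ABdd p.1 p.2} = ⋂ y : ℚ, {p : Ini × Kern | BddAbove (Set.range fun x : ℚ => p.1 x + p.2 x y)} := by
      ext p
      simp only [Set.mem_iInter]
      rfl
    rw [this]
    refine MeasurableSet.iInter fun y => measurableSet_bddAbove_range fun x => ?_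
    exact ((nuh_ev1 x).comp measurable_fst).add ((nuh_ev x y).comp measurable_snd)
  rw [ae_map_iff hmF.aemeasurable hms]
  have hall : ∀ y : ℚ, ∀ᵐ ω ∂(P₀.prod P₀), BddAbove (Set.range fun x : ℝ =>
      dft (2 * (b * κ / 2)) (2 * (b * κ / 2)) (fun t => W₀ t ω.2) x + S₀ x ((y : ℝ) / k) ω.1) :=
    fun y => hs_bdd hc _ _ _
  filter_upwards [ae_all_iff.2 hall] with ω hω
  intro y
  obtain ⟨M, hM⟩ := hω y
  refine ⟨κ * M, ?_⟩
  rintro _ ⟨x, rfl⟩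
  have h1 := hM ⟨(x : ℝ) / k, rfl⟩
  simp only [nuh_dft] at h1
  show κ * (W₀ (k⁻¹ * (x : ℝ)) ω.2 + b * κ * (k⁻¹ * (x : ℝ))) + κ * S₀ ((x : ℝ) / k) ((y : ℝ) / k) ω.1 ≤ κ * M
  rw [← mul_add]
  refine mul_le_mul_of_nonneg_left ?_ hκ.le
  rw [← div_eq_inv_mul]
  have e : 2 * (b * κ / 2) = b * κ := by ring
  rw [e] at h1
  exact h1

theorem nuS_stat (hS : IsAirySheet P₀ S₀) (hW : IsBM P₀ W₀ 2 0)
    (hc : Cpl (P₀.prod P₀) (fun x y ω => S₀ x y ω.1) B (fun t ω => W₀ t ω.2)) (b θ : ℝ) (hθ : 0 < θ) :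
    ((betS P₀ W₀ b).prod (nuS P₀ S₀ θ)).map (fun p y => act p.1 p.2 y - act p.1 p.2 0) = betS P₀ W₀ b := by
  set κ : ℝ := θ ^ (1 / 3 : ℝ) with hκd
  set k : ℝ := θ ^ (2 / 3 : ℝ) with hkd
  have hκ : 0 < κ := Real.rpow_pos_of_pos hθ _
  have hk0 : 0 < k := Real.rpow_pos_of_pos hθ _
  have hk : k = κ ^ 2 := by
    rw [hκd, hkd, ← Real.rpow_natCast, ← Real.rpow_mul hθ.le]
    norm_num
  rw [nuh_joint hS hW b θ hκ hk hκd.symm hkd.symm]
  have hmF : Measurable (fun ω : Ω₀ × Ω₀ =>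
      ((fun x : ℚ => κ * (W₀ (k⁻¹ * (x : ℝ)) ω.2 + b * κ * (k⁻¹ * (x : ℝ))) : Ini),
        (fun x y : ℚ => κ * S₀ ((x : ℝ) / k) ((y : ℝ) / k) ω.1 : Kern))) :=
    ((nuh_mf hW b κ k).comp measurable_snd).prodMk ((nuh_ms hS κ k).comp measurable_fst)
  rw [Measure.map_map nuh_act hmF]
  have h1 := bml_law (pre_scale (hs_pre hc (b * κ / 2)) κ k⁻¹ (inv_pos.2 hk0))
  have e1 : κ ^ 2 * 2 * k⁻¹ = 2 := by
    rw [← hk]
    field_simp
  have e2 : κ * (2 * (b * κ / 2)) * k⁻¹ = b := by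
    have : κ * (2 * (b * κ / 2)) = b * k := by rw [hk]; ring
    rw [this, mul_assoc, mul_inv_cancel₀ hk0.ne', mul_one]
  rw [e1, e2] at h1
  have h2 := bml_unique h1 (betS_bml hW b)
  rw [← h2]
  refine Measure.map_congr ?_
  have hall : ∀ y : ℚ, ∀ᵐ ω ∂(P₀.prod P₀), IsLUB (Set.range fun x : ℝ =>
      dft (2 * (b * κ / 2)) (2 * (b * κ / 2)) (fun t => W₀ t ω.2) x + S₀ x (k⁻¹ * (y : ℝ)) ω.1)
      (Hs (b * κ / 2) (b * κ / 2) (fun x y => S₀ x y ω.1) (fun t => W₀ t ω.2) (k⁻¹ * (y : ℝ))) :=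
    fun y => hs_isLUB hc _ _ _
  filter_upwards [ae_all_iff.2 hall, hc.cont, hc.wbm.cont] with ω hω hSc hWc
  have key : ∀ y : ℚ, act (fun x : ℚ => κ * (W₀ (k⁻¹ * (x : ℝ)) ω.2 + b * κ * (k⁻¹ * (x : ℝ))))
      (fun x y : ℚ => κ * S₀ ((x : ℝ) / k) ((y : ℝ) / k) ω.1) y =
      κ * Hs (b * κ / 2) (b * κ / 2) (fun x y => S₀ x y ω.1) (fun t => W₀ t ω.2) (k⁻¹ * (y : ℝ)) := by
    intro y
    have hcont : Continuous fun x : ℝ => dft (2 * (b * κ / 2)) (2 * (b * κ / 2)) (fun t => W₀ t ω.2) x +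
        S₀ x (k⁻¹ * (y : ℝ)) ω.1 := by
      refine (nuh_cont hWc).add ?_
      exact hSc.comp (f := fun x : ℝ => (x, k⁻¹ * (y : ℝ))) (by fun_prop)
    rw [← nuh_sup hcont (hω y) hκ (inv_pos.2 hk0)]
    show ⨆ x : ℚ, (κ * (W₀ (k⁻¹ * (x : ℝ)) ω.2 + b * κ * (k⁻¹ * (x : ℝ))) +
      κ * S₀ ((x : ℝ) / k) ((y : ℝ) / k) ω.1) = _
    congr 1
    funext x
    rw [nuh_dft, div_eq_inv_mul, div_eq_inv_mul, ← mul_add]
    have e : 2 * (b * κ / 2) = b * κ := by ring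
    rw [e]
  funext y
  show act _ _ y - act _ _ 0 = _
  rw [key y, key 0]
  show _ = κ * (Hs (b * κ / 2) (b * κ / 2) (fun x y => S₀ x y ω.1) (fun t => W₀ t ω.2) (k⁻¹ * (y : ℝ)) -
    Hs (b * κ / 2) (b * κ / 2) (fun x y => S₀ x y ω.1) (fun t => W₀ t ω.2) 0)
  rw [Rat.cast_zero, mul_zero]
  ring

end Pool.Agent.DLM
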