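import Pool.Agent.DLM.NUH
import Pool.Agent.DLM.BKS

/-!
# DLM/NUN: negative exponential moment and BK inequality on rational points (60-100 lines)

`nuS 1` is the law of `S₀ x y` (`1^(1/3) = 1`, `x/1 = x`), `betS 0` the law of `W₀ x`; the pair `(W₀ ω.2, S₀ ω.1)` has the law `betS 0 ⊗ nuS 1`.  `dft (-2) 2 W x = W x + 2|x|`, so `⨆ x : ℚ, (f x + 2|x| + S x 0) = Hs (-1) 1 S W 0` (same supremum over `ℚ`).  `nuS_neg`: `s_neg`; `nuS_neg_bdd`: `hs_bdd` (`a = -1`, `c = 1`, `y = 0`).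
`nuS_bk`: `bk_sheet` with the image of `F` in `ℝ × ℝ`.
-/

set_option autoImplicit false

open MeasureTheory ProbabilityTheory Filter Topology

namespace Pool.Agent.DLM

variable {Ω₀ : Type*} [MeasurableSpace Ω₀] {P₀ : Measure Ω₀} [IsProbabilityMeasure P₀] {S₀ : ℝ → ℝ → Ω₀ → ℝ}
  {W₀ : ℝ → Ω₀ → ℝ} {B : ℕ → ℕ → ℝ → Ω₀ × Ω₀ → ℝ}

private theorem nun_one : nuS P₀ S₀ 1 = P₀.map fun ω (x y : ℚ) => S₀ (x : ℝ) (y : ℝ) ω := by
  unfold nuS
  simp only [Real.one_rpow, one_mul, div_one]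

private theorem nun_zero : betS P₀ W₀ 0 = P₀.map fun ω (x : ℚ) => W₀ (x : ℝ) ω := by
  unfold betS
  simp only [zero_mul, add_zero]

private theorem nun_ms (hS : IsAirySheet P₀ S₀) : Measurable fun ω (x y : ℚ) => S₀ (x : ℝ) (y : ℝ) ω :=
  measurable_pi_lambda _ fun x => measurable_pi_lambda _ fun y => hS.meas x y

private theorem nun_mw (hW : IsBM P₀ W₀ 2 0) : Measurable fun ω (x : ℚ) => W₀ (x : ℝ) ω :=
  measurable_pi_lambda _ fun x => hW.meas x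

private theorem nun_pair (hS : IsAirySheet P₀ S₀) (hW : IsBM P₀ W₀ 2 0) :
    (betS P₀ W₀ 0).prod (nuS P₀ S₀ 1) = (P₀.prod P₀).map fun ω : Ω₀ × Ω₀ =>
      ((fun x : ℚ => W₀ (x : ℝ) ω.2 : Ini), (fun x y : ℚ => S₀ (x : ℝ) (y : ℝ) ω.1 : Kern)) := by
  rw [nun_one, nun_zero, Measure.map_prod_map _ _ (nun_mw hW) (nun_ms hS)]
  conv_lhs => rw [← Measure.prod_swap (μ := P₀) (ν := P₀)]
  rw [Measure.map_map ((nun_mw hW).prodMap (nun_ms hS)) measurable_swap]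
  rfl

private theorem nun_meas : Measurable fun ω : Ini × Kern => fun x : ℚ => ω.1 x + 2 * |(x : ℝ)| + ω.2 x 0 := by
  refine measurable_pi_lambda _ fun x => ?_
  exact (((measurable_pi_apply x).comp measurable_fst).add_const _).add
    ((measurable_pi_apply (0 : ℚ)).comp ((measurable_pi_apply x).comp measurable_snd))

private theorem nun_measF (hS : IsAirySheet P₀ S₀) (hW : IsBM P₀ W₀ 2 0) : Measurable fun ω : Ω₀ × Ω₀ =>
      ((fun x : ℚ => W₀ (x : ℝ) ω.2 : Ini), (fun x y : ℚ => S₀ (x : ℝ) (y : ℝ) ω.1 : Kern)) :=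
  ((nun_mw hW).comp measurable_snd).prodMk ((nun_ms hS).comp measurable_fst)

private theorem nun_dft (W : ℝ → ℝ) (x : ℝ) : dft (2 * (-1)) (2 * 1) W x = W x + 2 * |x| := by
  unfold dft
  rcases lt_or_ge x 0 with h | h
  · rw [if_pos h, abs_of_neg h]; ring
  · rw [if_neg (not_lt.mpr h), abs_of_nonneg h]; ring

theorem nuS_neg_bdd (hS : IsAirySheet P₀ S₀) (hW : IsBM P₀ W₀ 2 0)
    (hc : Cpl (P₀.prod P₀) (fun x y ω => S₀ x y ω.1) B (fun t ω => W₀ t ω.2)) :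
    ∀ᵐ p ∂((betS P₀ W₀ 0).prod (nuS P₀ S₀ 1)),
      BddAbove (Set.range fun x : ℚ => p.1 x + 2 * |(x : ℝ)| + p.2 x 0) := by
  rw [nun_pair hS hW, ae_map_iff (nun_measF hS hW).aemeasurable]
  · filter_upwards [hs_bdd hc (-1) 1 0] with ω hω
    refine hω.mono ?_
    rintro _ ⟨x, rfl⟩
    refine ⟨(x : ℝ), ?_⟩
    simp only [nun_dft, Rat.cast_zero]
  · exact measurableSet_bddAbove_range fun x => (measurable_pi_apply x).comp nun_meas

theorem nuS_neg (hS : IsAirySheet P₀ S₀) (hW : IsBM P₀ W₀ 2 0)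
    (hc : Cpl (P₀.prod P₀) (fun x y ω => S₀ x y ω.1) B (fun t ω => W₀ t ω.2)) :
    ∫⁻ p, ENNReal.ofReal (Real.exp (-2 * ⨆ x : ℚ, (p.1 x + 2 * |(x : ℝ)| + p.2 x 0)))
      ∂((betS P₀ W₀ 0).prod (nuS P₀ S₀ 1)) ≤ 1 := by
  rw [nun_pair hS hW, lintegral_map _ (nun_measF hS hW)]
  · refine le_of_eq_of_le ?_ (s_neg hc)
    refine lintegral_congr fun ω => ?_
    unfold Hs
    simp only [nun_dft, Rat.cast_zero]
  · exact ENNReal.measurable_ofReal.comp (Real.measurable_exp.comp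
      ((Measurable.iSup fun x => (measurable_pi_apply x).comp nun_meas).const_mul (-2)))

private theorem nun_ev (v : ℚ) (F : Finset (ℚ × ℚ)) (f : ℚ × ℚ → Kern → ℝ) (hf : ∀ q, Measurable (f q)) (c : ℝ) :
    MeasurableSet {S : Kern | ∃ q ∈ F, c ≤ f q S} := by
  have h : {S : Kern | ∃ q ∈ F, c ≤ f q S} = ⋃ q ∈ F, {S | c ≤ f q S} := by
    ext S; simp
  rw [h]
  exact Finset.measurableSet_biUnion F fun q _ => measurableSet_le measurable_const (hf q)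

private theorem nun_app (x y : ℚ) : Measurable fun S : Kern => S x y :=
  (measurable_pi_apply y).comp (measurable_pi_apply x)

theorem nuS_bk (hS : IsAirySheet P₀ S₀) (v : ℚ) (F : Finset (ℚ × ℚ)) (a c : ℝ) :
    nuS P₀ S₀ 1 {S | a ≤ S 0 v ∧ ∃ q ∈ F, c ≤ S q.1 q.2} ≤
      nuS P₀ S₀ 1 {S | a ≤ S 0 v} * nuS P₀ S₀ 1 {S | ∃ q ∈ F, c ≤ S q.1 q.2} +
      nuS P₀ S₀ 1 {S | ∃ q ∈ F, a + c ≤ S 0 q.2 + S q.1 v} := by
  have m1 : MeasurableSet {S : Kern | a ≤ S 0 v} := measurableSet_le measurable_const (nun_app 0 v)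
  have m2 : MeasurableSet {S : Kern | ∃ q ∈ F, c ≤ S q.1 q.2} :=
    nun_ev v F (fun q S => S q.1 q.2) (fun q => nun_app q.1 q.2) c
  have m3 : MeasurableSet {S : Kern | ∃ q ∈ F, a + c ≤ S 0 q.2 + S q.1 v} :=
    nun_ev v F (fun q S => S 0 q.2 + S q.1 v) (fun q => (nun_app 0 q.2).add (nun_app q.1 v)) (a + c)
  have m4 : MeasurableSet {S : Kern | a ≤ S 0 v ∧ ∃ q ∈ F, c ≤ S q.1 q.2} := m1.inter m2
  rw [nun_one, Measure.map_apply (nun_ms hS) m1, Measure.map_apply (nun_ms hS) m2,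
    Measure.map_apply (nun_ms hS) m3, Measure.map_apply (nun_ms hS) m4]
  classical
  have key := bk_sheet hS (v : ℝ) (F.image fun q : ℚ × ℚ => ((q.1 : ℝ), (q.2 : ℝ))) a c
  simp only [Finset.exists_mem_image] at key
  simp only [Set.preimage_ofPred_eq, Rat.cast_zero]
  exact key

end Pool.Agent.DLM
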