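import Pool.Agent.DLM.PIW

/-!
# DLM/PIC: the Pitman transform is a Brownian motion, its past is independent of the queue (80-120 lines)

`meas`: countable supremum of measurable real functions.  `cont`: `pit_bdd`, `rmx_cont`.  `zero`: by definition.  `gauss`: `pit_law` with `r = 1` (sequence `s, t, t, ..`), first marginal.  `indep`: `iIndepFun` of a sequence follows from independence of every initial segment (`Fin r`),
whose law is a product measure (`pit_law`, `iIndepFun_iff_map_fun_eq_pi_map`, `Measure.map_fst_prod`).  `pit_q`: second marginal.  `pit_past`: the σ-algebra of `past` is generated by the values at finitely many times `s ≤ T`, which are functions of increments of `pit` over a monotone sequence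
ending at `T`, independent of `rmx X T - X T` by `pit_law` (π-system argument, as in `bm_seg`).
-/

set_option autoImplicit false

open MeasureTheory ProbabilityTheory Filter Topology

namespace Pool.Agent.DLM

private theorem pic_rmx {Ω : Type*} [MeasurableSpace Ω] {X : ℝ → Ω → ℝ} (hm : ∀ t, Measurable (X t)) (t : ℝ) :
    Measurable fun ω => rmx (fun s => X s ω) t :=
  Measurable.iSup fun q => hm _

private theorem pic_pit {Ω : Type*} [MeasurableSpace Ω] {X : ℝ → Ω → ℝ} (hm : ∀ t, Measurable (X t)) (t : ℝ) :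
    Measurable fun ω => pit (fun s => X s ω) t :=
  (((pic_rmx hm t).sub (pic_rmx hm 0)).const_mul 2).sub ((hm t).sub (hm 0))

private theorem pic_enum (C : Finset ℝ) (hC : C.Nonempty) :
    ∃ τ : ℕ → ℝ, Monotone τ ∧ ∀ c ∈ C, ∃ k, τ k = c := by
  have hcard : 0 < C.card := Finset.card_pos.2 hC
  refine ⟨fun k => C.orderEmbOfFin rfl ⟨min k (C.card - 1), by omega⟩, ?_, ?_⟩
  · intro a b hab
    apply (C.orderEmbOfFin rfl).monotone
    show min a (C.card - 1) ≤ min b (C.card - 1)
    omega
  · intro c hc
    have h1 : c ∈ Set.range (C.orderEmbOfFin rfl) := by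
      rw [Finset.range_orderEmbOfFin]
      exact hc
    obtain ⟨i, hi⟩ := h1
    refine ⟨i, ?_⟩
    rw [← hi]
    show C.orderEmbOfFin rfl ⟨min (i : ℕ) (C.card - 1), by omega⟩ = C.orderEmbOfFin rfl i
    congr 1
    apply Fin.ext
    show min (i : ℕ) (C.card - 1) = i
    have := i.2
    omega

private theorem pic_sum (x : ℕ → ℝ) (a m : ℕ) (h : a ≤ m) :
    ∑ k : Fin m, (if a ≤ (k : ℕ) then x ((k : ℕ) + 1) - x k else 0) = x m - x a := by
  rw [Fin.sum_univ_eq_sum_range (fun k => if a ≤ k then x (k + 1) - x k else 0)]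
  induction m, h using Nat.le_induction with
  | base =>
    rw [sub_self]
    refine Finset.sum_eq_zero fun k hk => ?_
    rw [Finset.mem_range] at hk
    rw [if_neg (by omega)]
  | succ m hm ih =>
    rw [Finset.sum_range_succ, ih, if_pos hm]
    ring

private theorem pic_iindep {Ω : Type*} [MeasurableSpace Ω] {P : Measure Ω} {f : ℕ → Ω → ℝ}
    (h : ∀ r : ℕ, iIndepFun (fun (i : Fin r) (ω : Ω) => f i ω) P) : iIndepFun f P := by
  rw [iIndepFun_iff_finset]
  intro s
  obtain ⟨n, hn⟩ : ∃ n, ∀ i ∈ s, i < n := ⟨s.sup id + 1, fun i hi =>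
    Nat.lt_succ_of_le (Finset.le_sup (f := id) hi)⟩
  have hg : Function.Injective (fun i : s => (⟨i, hn i i.2⟩ : Fin n)) := by
    intro i j hij
    have := congrArg Fin.val hij
    exact Subtype.ext this
  have h1 := (h n).precomp (g := fun i : s => (⟨i, hn i i.2⟩ : Fin n)) hg
  exact h1

theorem pit_bm {Ω : Type*} [MeasurableSpace Ω] {P : Measure Ω} [IsProbabilityMeasure P] {X : ℝ → Ω → ℝ} {κ : ℝ}
    (hκ : 0 < κ) (hX : IsBM P X 2 (2 * κ)) : IsBM P (fun t ω => pit (fun s => X s ω) t) 2 (2 * κ) := by
  have hE : IsProbabilityMeasure (expMeasure (2 * κ)) := isProbabilityMeasure_expMeasure (by linarith)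
  have hm := pic_pit hX.meas
  refine ⟨hm, ?_, ?_, ?_, ?_⟩
  · filter_upwards [hX.cont, pit_bdd hκ hX] with ω h1 h2
    exact (((rmx_cont h1 h2).sub continuous_const).const_smul (2 : ℝ)).sub (h1.sub continuous_const)
  · refine Filter.Eventually.of_forall fun ω => ?_
    simp [pit]
  · intro s t hst
    let τ : ℕ → ℝ := fun i => if i = 0 then s else t
    have hτ : Monotone τ := by
      refine monotone_nat_of_le_succ fun n => ?_
      show (if n = 0 then s else t) ≤ (if n + 1 = 0 then s else t)
      rw [if_neg (Nat.succ_ne_zero n)]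
      split_ifs
      · exact hst
      · exact le_rfl
    have h1 := pit_law hκ hX τ hτ 1
    have mp : Measurable fun p : (Fin 1 → ℝ) × ℝ => p.1 0 := (measurable_pi_apply 0).comp measurable_fst
    have mz : Measurable fun ω => ((fun i : Fin 1 => pit (fun s => X s ω) (τ (i + 1)) - pit (fun s => X s ω) (τ i),
        rmx (fun s => X s ω) (τ 1) - X (τ 1) ω) : (Fin 1 → ℝ) × ℝ) :=
      (measurable_pi_lambda _ fun i => (hm _).sub (hm _)).prodMk ((pic_rmx hX.meas _).sub (hX.meas _))
    have h2 := congrArg (fun μ => μ.map fun p : (Fin 1 → ℝ) × ℝ => p.1 0) h1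
    try simp only at h2
    rw [Measure.map_map mp mz] at h2
    have e1 : (fun p : (Fin 1 → ℝ) × ℝ => p.1 0) = (fun x : Fin 1 → ℝ => x 0) ∘ Prod.fst := rfl
    rw [e1, ← Measure.map_map (measurable_pi_apply 0) measurable_fst, Measure.map_fst_prod, measure_univ,
      one_smul] at h2
    rw [(measurePreserving_eval (fun i : Fin 1 =>
      gaussianReal (2 * κ * (τ (i + 1) - τ i)) (Real.toNNReal (2 * (τ (i + 1) - τ i)))) 0).map_eq] at h2
    exact h2
  · intro t ht
    refine pic_iindep (f := fun i ω => pit (fun s => X s ω) (t (i + 1)) - pit (fun s => X s ω) (t i)) fun r => ?_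
    refine (iIndepFun_iff_map_fun_eq_pi_map (f := fun (i : Fin r) ω =>
      pit (fun s => X s ω) (t (i + 1)) - pit (fun s => X s ω) (t i)) (fun i => ((hm _).sub (hm _)).aemeasurable)).2 ?_
    have h1 := pit_law hκ hX t ht r
    have mz : Measurable fun ω => ((fun i : Fin r => pit (fun s => X s ω) (t (i + 1)) - pit (fun s => X s ω) (t i),
        rmx (fun s => X s ω) (t r) - X (t r) ω) : (Fin r → ℝ) × ℝ) :=
      (measurable_pi_lambda _ fun i => (hm _).sub (hm _)).prodMk ((pic_rmx hX.meas _).sub (hX.meas _))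
    have h2 := congrArg (fun μ => μ.map Prod.fst) h1
    try simp only at h2
    rw [Measure.map_map measurable_fst mz, Measure.map_fst_prod, measure_univ, one_smul] at h2
    have e1 : (Prod.fst ∘ fun ω => ((fun i : Fin r => pit (fun s => X s ω) (t (i + 1)) - pit (fun s => X s ω) (t i),
        rmx (fun s => X s ω) (t r) - X (t r) ω) : (Fin r → ℝ) × ℝ)) =
        fun ω (i : Fin r) => pit (fun s => X s ω) (t (i + 1)) - pit (fun s => X s ω) (t i) := rfl
    rw [e1] at h2
    rw [h2]
    congr 1
    funext i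
    have h3 := congrArg (fun μ => μ.map fun x : Fin r → ℝ => x i) h2
    try simp only at h3
    have mA : Measurable fun ω (i : Fin r) => pit (fun s => X s ω) (t (i + 1)) - pit (fun s => X s ω) (t i) :=
      measurable_pi_lambda _ fun i => (hm _).sub (hm _)
    rw [Measure.map_map (measurable_pi_apply i) mA,
      (measurePreserving_eval (fun i : Fin r =>
      gaussianReal (2 * κ * (t (i + 1) - t i)) (Real.toNNReal (2 * (t (i + 1) - t i)))) i).map_eq] at h3
    exact h3.symm

theorem pit_q {Ω : Type*} [MeasurableSpace Ω] {P : Measure Ω} [IsProbabilityMeasure P] {X : ℝ → Ω → ℝ} {κ : ℝ}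
    (hκ : 0 < κ) (hX : IsBM P X 2 (2 * κ)) (T : ℝ) :
    P.map (fun ω => rmx (fun s => X s ω) T - X T ω) = expMeasure (2 * κ) := by
  have hE : IsProbabilityMeasure (expMeasure (2 * κ)) := isProbabilityMeasure_expMeasure (by linarith)
  have hm := pic_pit hX.meas
  have h1 := pit_law hκ hX (fun _ => T) (fun _ _ _ => le_rfl) 0
  have mz : Measurable fun ω => ((fun i : Fin 0 => pit (fun s => X s ω) T - pit (fun s => X s ω) T,
      rmx (fun s => X s ω) T - X T ω) : (Fin 0 → ℝ) × ℝ) :=
    (measurable_pi_lambda _ fun i => (hm _).sub (hm _)).prodMk ((pic_rmx hX.meas _).sub (hX.meas _))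
  have h2 := congrArg (fun μ => μ.map Prod.snd) h1
  try simp only at h2
  rw [Measure.map_map measurable_snd mz, Measure.map_snd_prod, measure_univ, one_smul] at h2
  exact h2

theorem pit_past {Ω : Type*} [MeasurableSpace Ω] {P : Measure Ω} [IsProbabilityMeasure P] {X : ℝ → Ω → ℝ} {κ : ℝ}
    (hκ : 0 < κ) (hX : IsBM P X 2 (2 * κ)) (T : ℝ) :
    IndepFun (fun ω => past (pit fun s => X s ω) T) (fun ω => rmx (fun s => X s ω) T - X T ω) P := by
  have hE : IsProbabilityMeasure (expMeasure (2 * κ)) := isProbabilityMeasure_expMeasure (by linarith)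
  have hm := pic_pit hX.meas
  refine IndepFun.process_indepFun (X := fun s ω => past (pit fun s => X s ω) T s)
    (fun s => (hm _).sub (hm _)) ((pic_rmx hX.meas _).sub (hX.meas _)) fun I => ?_
  obtain ⟨τ, hτ, hτ'⟩ := pic_enum (insert T I) (Finset.insert_nonempty _ _)
  obtain ⟨m, hm'⟩ := hτ' T (Finset.mem_insert_self _ _)
  have hI : ∀ i : I, ∃ k, τ k = i := fun i => hτ' i (by simp)
  choose a ha using hI
  have h1 := pit_law hκ hX τ hτ m
  have mA : Measurable fun ω => (fun i : Fin m => pit (fun s => X s ω) (τ (i + 1)) - pit (fun s => X s ω) (τ i)) :=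
    measurable_pi_lambda _ fun i => (hm _).sub (hm _)
  have mB : Measurable fun ω => rmx (fun s => X s ω) (τ m) - X (τ m) ω :=
    (pic_rmx hX.meas _).sub (hX.meas _)
  have hi : IndepFun (fun ω => (fun i : Fin m => pit (fun s => X s ω) (τ (i + 1)) - pit (fun s => X s ω) (τ i)))
      (fun ω => rmx (fun s => X s ω) (τ m) - X (τ m) ω) P := by
    rw [indepFun_iff_map_prod_eq_prod_map_map mA.aemeasurable mB.aemeasurable]
    have h2 := congrArg (fun μ => μ.map Prod.fst) h1
    try simp only at h2
    rw [Measure.map_map measurable_fst (mA.prodMk mB), Measure.map_fst_prod, measure_univ, one_smul] at h2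
    have h3 := congrArg (fun μ => μ.map Prod.snd) h1
    try simp only at h3
    rw [Measure.map_map measurable_snd (mA.prodMk mB), Measure.map_snd_prod, measure_univ, one_smul] at h3
    have e2 : P.map (fun ω => (fun i : Fin m => pit (fun s => X s ω) (τ (i + 1)) - pit (fun s => X s ω) (τ i))) = _ := h2
    have e3 : P.map (fun ω => rmx (fun s => X s ω) (τ m) - X (τ m) ω) = _ := h3
    rw [e2, e3]
    exact h1
  have mf : Measurable fun (d : Fin m → ℝ) (i : I) => -∑ k : Fin m, (if min (a i) m ≤ (k : ℕ) then d k else 0) := by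
    refine measurable_pi_lambda _ fun i => ?_
    refine (Finset.measurable_sum _ fun k _ => ?_).neg
    split_ifs
    · exact measurable_pi_apply k
    · exact measurable_const
  have h4 := hi.comp mf measurable_id
  rw [hm', Function.id_comp] at h4
  convert h4 using 1
  funext ω i
  show pit (fun s => X s ω) (min (i : ℝ) T) - pit (fun s => X s ω) T = -∑ k : Fin m,
    (if min (a i) m ≤ (k : ℕ) then pit (fun s => X s ω) (τ ((k : ℕ) + 1)) - pit (fun s => X s ω) (τ k) else 0)
  rw [pic_sum (fun k => pit (fun s => X s ω) (τ k)) _ m (min_le_right _ _), hτ.map_min, ha, hm']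
  ring

end Pool.Agent.DLM
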