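import Pool.Agent.DLM.PIT
import Pool.Agent.DLM.SEG

/-!
# DLM/PII: the Pitman transform over several intervals (100-140 lines)

`Jn 0 = J`, `Jn (i+1) = max (Jn i) (m i) - (X (t (i+1)) - X (t i))`, `m i = sup over [t i, t (i+1)] of X - X (t i)`, `xn i = 2 (max (Jn i) (m i) - Jn i) - (X (t (i+1)) - X (t i))`.
INDUCTION on `r` for: (a) `Jn r` and `(xn i)_{i<r}` are measurable functions of `(J, increments of X on [t 0, t r])`, so `((xn i)_{i < r}, Jn r) ⟂ fut X (t r)` (`bm_fut`); (b) the law of `((xn i)_{i<r}, Jn r)` is `⊗ N(2κΔ_i, 2Δ_i) ⊗ expMeasure (2κ)`.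
Step: given (a), (b) for `r`: by (b) `Jn r ~ expMeasure (2κ)`, independent of `(xn i)_{i<r}`, and by (a) `(xn i)_{i<r}, Jn r, fut X (t r)` are independent.  So `(xn i)_{i<r} ⟂ (Jn r, fut X (t r))`, and `(xn r, Jn (r+1))` is a function of the latter, with law `N ⊗ Exp` by `pit_interval`.
-/

set_option autoImplicit false

open MeasureTheory ProbabilityTheory Filter Topology

namespace Pool.Agent.DLM

/-- the queue lengths at the times `t i` and the increments of the Pitman transform -/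
noncomputable def Jn (X : ℝ → ℝ) (t : ℕ → ℝ) (J : ℝ) : ℕ → ℝ
  | 0 => J
  | i + 1 => max (Jn X t J i) (⨆ q : ℚ, (X (max (t i) (min (q : ℝ) (t (i + 1)))) - X (t i))) - (X (t (i + 1)) - X (t i))

noncomputable def xn (X : ℝ → ℝ) (t : ℕ → ℝ) (J : ℝ) (i : ℕ) : ℝ :=
  2 * (max (Jn X t J i) (⨆ q : ℚ, (X (max (t i) (min (q : ℝ) (t (i + 1)))) - X (t i))) - Jn X t J i) -
    (X (t (i + 1)) - X (t i))

/-- the vector of the increments and the last queue length -/
private noncomputable def PIIZ {Ω : Type*} (X : ℝ → Ω → ℝ) (t : ℕ → ℝ) (J : Ω → ℝ) (r : ℕ) (ω : Ω) :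
    (Fin r → ℝ) × ℝ :=
  (fun i : Fin r => xn (fun s => X s ω) t (J ω) i, Jn (fun s => X s ω) t (J ω) r)

/-- the increments of `X` on `[t r, t (r + 1)]` -/
private noncomputable def PIIU {Ω : Type*} (X : ℝ → Ω → ℝ) (t : ℕ → ℝ) (r : ℕ) (ω : Ω) : ℝ → ℝ :=
  fun s => X (max (t r) (min s (t (r + 1)))) ω - X (t r) ω

/-- one step -/
private noncomputable def PIIf (a : ℝ) (p : ℝ × (ℝ → ℝ)) : ℝ × ℝ :=
  (2 * (max p.1 (⨆ q : ℚ, p.2 (q : ℝ)) - p.1) - p.2 a, max p.1 (⨆ q : ℚ, p.2 (q : ℝ)) - p.2 a)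

private theorem PII_fm (a : ℝ) : Measurable (PIIf a) := by
  have h1 : Measurable fun p : ℝ × (ℝ → ℝ) => ⨆ q : ℚ, p.2 (q : ℝ) :=
    Measurable.iSup fun q => (measurable_pi_apply _).comp measurable_snd
  have h2 : Measurable fun p : ℝ × (ℝ → ℝ) => p.2 a := (measurable_pi_apply _).comp measurable_snd
  have h3 : Measurable fun p : ℝ × (ℝ → ℝ) => max p.1 (⨆ q : ℚ, p.2 (q : ℝ)) :=
    measurable_fst.max h1
  exact (((h3.sub measurable_fst).const_mul 2).sub h2).prodMk (h3.sub h2)

/-- insertion of the new increment -/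
private def PIIg (r : ℕ) (p : (Fin r → ℝ) × (ℝ × ℝ)) : (Fin (r + 1) → ℝ) × ℝ :=
  ((MeasurableEquiv.piFinSuccAbove (fun _ => ℝ) (Fin.last r)).symm (p.2.1, p.1), p.2.2)

private theorem PII_gm (r : ℕ) : Measurable (PIIg r) :=
  ((MeasurableEquiv.measurable _).comp ((measurable_fst.comp measurable_snd).prodMk
    measurable_fst)).prodMk (measurable_snd.comp measurable_snd)

private theorem PII_g1 (r : ℕ) (x : Fin r → ℝ) (p : ℝ × ℝ) : (PIIg r (x, p)).1 (Fin.last r) = p.1 :=
  Fin.insertNth_apply_same (α := fun _ => ℝ) (Fin.last r) p.1 x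

private theorem PII_g2 (r : ℕ) (x : Fin r → ℝ) (p : ℝ × ℝ) (j : Fin r) :
    (PIIg r (x, p)).1 (Fin.castSucc j) = x j := by
  have e : (PIIg r (x, p)).1 ((Fin.last r).succAbove j) = x j :=
    Fin.insertNth_apply_succAbove (α := fun _ => ℝ) (Fin.last r) p.1 x j
  rwa [Fin.succAbove_last] at e

/-- one step, all data -/
private noncomputable def PIIh (r : ℕ) (a : ℝ) (p : ((Fin r → ℝ) × ℝ) × (ℝ → ℝ)) :
    (Fin (r + 1) → ℝ) × ℝ := PIIg r (p.1.1, PIIf a (p.1.2, p.2))

private theorem PII_hm (r : ℕ) (a : ℝ) : Measurable (PIIh r a) :=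
  (PII_gm r).comp ((measurable_fst.comp measurable_fst).prodMk
    ((PII_fm _).comp ((measurable_snd.comp measurable_fst).prodMk measurable_snd)))

private theorem PII_step {Ω : Type*} (X : ℝ → Ω → ℝ) (t : ℕ → ℝ) (ht : Monotone t) (J : Ω → ℝ) (r : ℕ)
    (ω : Ω) : PIIZ X t J (r + 1) ω =
      PIIg r ((PIIZ X t J r ω).1, PIIf (t (r + 1)) ((PIIZ X t J r ω).2, PIIU X t r ω)) := by
  have h1 : PIIU X t r ω (t (r + 1)) = X (t (r + 1)) ω - X (t r) ω := by
    show X (max (t r) (min (t (r + 1)) (t (r + 1)))) ω - X (t r) ω = _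
    rw [min_self, max_eq_right (ht (Nat.le_succ r))]
  refine Prod.ext ?_ ?_
  · funext i
    refine Fin.lastCases ?_ (fun j => ?_) i
    · rw [PII_g1]
      show xn (fun s => X s ω) t (J ω) r = 2 * (max (Jn (fun s => X s ω) t (J ω) r)
        (⨆ q : ℚ, PIIU X t r ω (q : ℝ)) - Jn (fun s => X s ω) t (J ω) r) - PIIU X t r ω (t (r + 1))
      rw [h1]
      rfl
    · rw [PII_g2]
      rfl
  · show Jn (fun s => X s ω) t (J ω) (r + 1) = max (Jn (fun s => X s ω) t (J ω) r)
        (⨆ q : ℚ, PIIU X t r ω (q : ℝ)) - PIIU X t r ω (t (r + 1))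
    rw [h1]
    rfl

private theorem PII_map (r : ℕ) (μ : ℕ → Measure ℝ) (hμ : ∀ i, IsProbabilityMeasure (μ i))
    (E : Measure ℝ) [IsProbabilityMeasure E] :
    ((Measure.pi fun i : Fin r => μ i).prod ((μ r).prod E)).map (PIIg r) =
      (Measure.pi fun i : Fin (r + 1) => μ i).prod E := by
  have h1 : ((Measure.pi fun i : Fin r => μ i).prod ((μ r).prod E)) =
      (((Measure.pi fun i : Fin r => μ i).prod (μ r)).prod E).map MeasurableEquiv.prodAssoc := by
    rw [Measure.prodAssoc_prod]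
  have h2 : (Measure.pi fun i : Fin r => μ i).prod (μ r) =
      ((μ r).prod (Measure.pi fun i : Fin r => μ i)).map Prod.swap := by
    rw [Measure.prod_swap]
  have h3 := (measurePreserving_piFinSuccAbove (fun i : Fin (r + 1) => μ i) (Fin.last r)).symm.map_eq
  have h4 : ((μ r).prod (Measure.pi fun i : Fin r => μ i)).map
      (MeasurableEquiv.piFinSuccAbove (fun _ => ℝ) (Fin.last r)).symm =
      Measure.pi fun i : Fin (r + 1) => μ i := by
    rw [← h3]
    simp only [Fin.succAbove_last, Fin.val_last, Fin.val_castSucc]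
  rw [← h4]
  have h5 : (((μ r).prod (Measure.pi fun i : Fin r => μ i)).map
      (MeasurableEquiv.piFinSuccAbove (fun _ => ℝ) (Fin.last r)).symm).prod E =
      (((μ r).prod (Measure.pi fun i : Fin r => μ i)).prod E).map
        (Prod.map (MeasurableEquiv.piFinSuccAbove (fun _ => ℝ) (Fin.last r)).symm id) := by
    rw [← Measure.map_prod_map _ _ (MeasurableEquiv.measurable _) measurable_id, Measure.map_id]
  have h6 : (((μ r).prod (Measure.pi fun i : Fin r => μ i)).map Prod.swap).prod E =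
      (((μ r).prod (Measure.pi fun i : Fin r => μ i)).prod E).map (Prod.map Prod.swap id) := by
    rw [← Measure.map_prod_map _ _ measurable_swap measurable_id, Measure.map_id]
  rw [h5, h1, h2, h6, Measure.map_map (MeasurableEquiv.measurable _)
    (measurable_swap.prodMap measurable_id), Measure.map_map (PII_gm r)
    ((MeasurableEquiv.measurable _).comp (measurable_swap.prodMap measurable_id))]
  rfl

private theorem PII_main {Ω : Type*} [MeasurableSpace Ω] {P : Measure Ω} [IsProbabilityMeasure P] {X : ℝ → Ω → ℝ} {κ : ℝ}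
    (hκ : 0 < κ) (hX : IsBM P X 2 (2 * κ)) (t : ℕ → ℝ) (ht : Monotone t) (J : Ω → ℝ) (hJ : Measurable J)
    (hJl : P.map J = expMeasure (2 * κ)) (hi : IndepFun J (fun ω => fut (fun s => X s ω) (t 0)) P) (r : ℕ) :
    Measurable (PIIZ X t J r) ∧ IndepFun (PIIZ X t J r) (fun ω => fut (fun s => X s ω) (t r)) P ∧
    P.map (PIIZ X t J r) =
    (Measure.pi fun i : Fin r =>
      gaussianReal (2 * κ * (t (i + 1) - t i)) (Real.toNNReal (2 * (t (i + 1) - t i)))).prod (expMeasure (2 * κ)) := by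
  have hE : IsProbabilityMeasure (expMeasure (2 * κ)) := isProbabilityMeasure_expMeasure (by linarith)
  induction r with
  | zero =>
    have hz : PIIZ X t J 0 = (fun j : ℝ => ((fun i : Fin 0 => (0 : ℝ)), j)) ∘ J := by
      funext ω
      refine Prod.ext (funext fun i => i.elim0) rfl
    have hm : Measurable (fun j : ℝ => ((fun i : Fin 0 => (0 : ℝ)), j)) := measurable_prodMk_left
    refine ⟨by rw [hz]; exact hm.comp hJ, by rw [hz]; exact hi.comp hm measurable_id, ?_⟩
    rw [hz, ← Measure.map_map hm hJ, hJl, Measure.pi_of_empty _ (fun _ => (0 : ℝ)),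
      Measure.dirac_prod]
  | succ r ih =>
    obtain ⟨zm, zi, zl⟩ := ih
    have mU : Measurable (PIIU X t r) :=
      measurable_pi_lambda _ fun s => (hX.meas _).sub (hX.meas _)
    have mF : Measurable fun ω => fut (fun s => X s ω) (t r) :=
      measurable_pi_lambda _ fun s => (hX.meas _).sub (hX.meas _)
    have hle : t r ≤ t (r + 1) := ht (Nat.le_succ r)
    have hs : PIIZ X t J (r + 1) = fun ω =>
        PIIg r ((PIIZ X t J r ω).1, PIIf (t (r + 1)) ((PIIZ X t J r ω).2, PIIU X t r ω)) :=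
      funext fun ω => PII_step X t ht J r ω
    have hs' : PIIZ X t J (r + 1) = PIIh r (t (r + 1)) ∘ fun ω => (PIIZ X t J r ω, PIIU X t r ω) :=
      funext fun ω => PII_step X t ht J r ω
    -- measurability
    have m1 : Measurable (PIIZ X t J (r + 1)) := by
      rw [hs']
      exact (PII_hm _ _).comp (zm.prodMk mU)
    -- independence of the future
    have i1 := bm_fut hX zm (t r) (t (r + 1)) hle zi
    have i2 : IndepFun (PIIZ X t J (r + 1)) (fun ω => fut (fun s => X s ω) (t (r + 1))) P := by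
      rw [hs']
      exact i1.comp (PII_hm _ _) (measurable_id (α := ℝ → ℝ))
    refine ⟨m1, i2, ?_⟩
    -- the law
    have mA : Measurable fun ω => (PIIZ X t J r ω).1 := measurable_fst.comp zm
    have mB : Measurable fun ω => (PIIZ X t J r ω).2 := measurable_snd.comp zm
    have hpr : ∀ i : ℕ, IsProbabilityMeasure
      (gaussianReal (2 * κ * (t (i + 1) - t i)) (Real.toNNReal (2 * (t (i + 1) - t i)))) :=
      fun i => inferInstance
    have lA : P.map (fun ω => (PIIZ X t J r ω).1) = Measure.pi fun i : Fin r =>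
        gaussianReal (2 * κ * (t (i + 1) - t i)) (Real.toNNReal (2 * (t (i + 1) - t i))) := by
      have : (fun ω => (PIIZ X t J r ω).1) = Prod.fst ∘ PIIZ X t J r := rfl
      rw [this, ← Measure.map_map measurable_fst zm, zl, Measure.map_fst_prod]
      simp
    have lB : P.map (fun ω => (PIIZ X t J r ω).2) = expMeasure (2 * κ) := by
      have : (fun ω => (PIIZ X t J r ω).2) = Prod.snd ∘ PIIZ X t J r := rfl
      rw [this, ← Measure.map_map measurable_snd zm, zl, Measure.map_snd_prod]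
      simp
    have iAB : IndepFun (fun ω => (PIIZ X t J r ω).1) (fun ω => (PIIZ X t J r ω).2) P := by
      rw [indepFun_iff_map_prod_eq_prod_map_map mA.aemeasurable mB.aemeasurable, lA, lB]
      exact zl
    have iBF : IndepFun (fun ω => (PIIZ X t J r ω).2) (fun ω => fut (fun s => X s ω) (t r)) P :=
      zi.comp measurable_snd measurable_id
    have iFBA : IndepFun (fun ω => fut (fun s => X s ω) (t r))
        (fun ω => ((PIIZ X t J r ω).2, (PIIZ X t J r ω).1)) P :=
      zi.symm.comp measurable_id measurable_swap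
    have i3 := indep_three mF mB mA iFBA iAB.symm
    -- the new pair as a function of the future and of the queue length
    have m2 : Measurable fun p : (ℝ → ℝ) × ℝ =>
        PIIf (t (r + 1)) (p.2, (fun s => p.1 (min s (t (r + 1))) : ℝ → ℝ)) :=
      (PII_fm _).comp (measurable_snd.prodMk (measurable_pi_lambda _ fun s =>
        (measurable_pi_apply _).comp measurable_fst))
    have i4 := i3.comp m2 (measurable_id (α := Fin r → ℝ))
    have e4 : (fun p : (ℝ → ℝ) × ℝ =>
        PIIf (t (r + 1)) (p.2, (fun s => p.1 (min s (t (r + 1))) : ℝ → ℝ))) ∘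
        (fun ω => (fut (fun s => X s ω) (t r), (PIIZ X t J r ω).2)) =
        fun ω => PIIf (t (r + 1)) ((PIIZ X t J r ω).2, PIIU X t r ω) := by
      funext ω
      have : (fun s => fut (fun s => X s ω) (t r) (min s (t (r + 1)))) = PIIU X t r ω := by
        funext s
        show X (max (min s (t (r + 1))) (t r)) ω - X (t r) ω =
          X (max (t r) (min s (t (r + 1)))) ω - X (t r) ω
        rw [max_comm]
      show PIIf (t (r + 1)) ((PIIZ X t J r ω).2, fun s => fut (fun s => X s ω) (t r) (min s (t (r + 1)))) = _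
      rw [this]
    rw [e4, Function.id_comp] at i4
    have mN : Measurable fun ω => PIIf (t (r + 1)) ((PIIZ X t J r ω).2, PIIU X t r ω) :=
      (PII_fm _).comp (mB.prodMk mU)
    have lN : P.map (fun ω => PIIf (t (r + 1)) ((PIIZ X t J r ω).2, PIIU X t r ω)) =
        (gaussianReal (2 * κ * (t (r + 1) - t r)) (Real.toNNReal (2 * (t (r + 1) - t r)))).prod
          (expMeasure (2 * κ)) := by
      rw [← pit_interval hκ hX (t r) (t (r + 1)) hle (fun ω => (PIIZ X t J r ω).2) mB lB iBF]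
      congr 1
      funext ω
      have h1 : PIIU X t r ω (t (r + 1)) = X (t (r + 1)) ω - X (t r) ω := by
        show X (max (t r) (min (t (r + 1)) (t (r + 1)))) ω - X (t r) ω = _
        rw [min_self, max_eq_right hle]
      show (2 * (max (PIIZ X t J r ω).2 (⨆ q : ℚ, PIIU X t r ω (q : ℝ)) - (PIIZ X t J r ω).2) -
        PIIU X t r ω (t (r + 1)), max (PIIZ X t J r ω).2 (⨆ q : ℚ, PIIU X t r ω (q : ℝ)) -
        PIIU X t r ω (t (r + 1))) = _
      rw [h1]
      rfl
    have i5 := i4.symm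
    rw [indepFun_iff_map_prod_eq_prod_map_map mA.aemeasurable mN.aemeasurable] at i5
    have i6 : P.map (fun ω => ((PIIZ X t J r ω).1,
        PIIf (t (r + 1)) ((PIIZ X t J r ω).2, PIIU X t r ω))) = _ := i5
    rw [lN, lA] at i6
    rw [hs]
    have e5 : (fun ω => PIIg r ((PIIZ X t J r ω).1,
        PIIf (t (r + 1)) ((PIIZ X t J r ω).2, PIIU X t r ω))) = PIIg r ∘ (fun ω =>
        ((PIIZ X t J r ω).1, PIIf (t (r + 1)) ((PIIZ X t J r ω).2, PIIU X t r ω))) := rfl
    rw [e5, ← Measure.map_map (PII_gm r) (mA.prodMk mN), i6]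
    exact PII_map r (fun i => gaussianReal (2 * κ * (t (i + 1) - t i))
      (Real.toNNReal (2 * (t (i + 1) - t i)))) hpr (expMeasure (2 * κ))

theorem pit_iter {Ω : Type*} [MeasurableSpace Ω] {P : Measure Ω} [IsProbabilityMeasure P] {X : ℝ → Ω → ℝ} {κ : ℝ}
    (hκ : 0 < κ) (hX : IsBM P X 2 (2 * κ)) (t : ℕ → ℝ) (ht : Monotone t) (J : Ω → ℝ) (hJ : Measurable J)
    (hJl : P.map J = expMeasure (2 * κ)) (hi : IndepFun J (fun ω => fut (fun s => X s ω) (t 0)) P) (r : ℕ) :
    P.map (fun ω => (fun i : Fin r => xn (fun s => X s ω) t (J ω) i, Jn (fun s => X s ω) t (J ω) r)) =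
    (Measure.pi fun i : Fin r =>
      gaussianReal (2 * κ * (t (i + 1) - t i)) (Real.toNNReal (2 * (t (i + 1) - t i)))).prod (expMeasure (2 * κ)) :=
  (PII_main hκ hX t ht J hJ hJl hi r).2.2

end Pool.Agent.DLM
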