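import Pool.Agent.DLM.GEO

/-!
# DLM/WCF: weak limits of the walk and of the geometric law (120-160 lines)

`sumM_tendsto`: characteristic functions: `charFun (sumM κ s n) t = (cos (t s) + i κ s sin (t s))^n` (product measure: `charFun` of the image of `Measure.pi` under the sum; e.g. by `iIndepFun` and `charFun_map_fun_finsetSum_eq_prod`, or induction on `n`), and
`cos (t s) + i κ s sin (t s) = 1 + s^2 (- t^2/2 + i κ t) + O(s^3)`, `n s^2 → 2τ`, so the power tends to `exp(2τ(-t^2/2 + i κ t)) = charFun (gaussianReal (2κτ) (2τ)) t` (`tendsto_one_add_pow_exp_of_tendsto`-type lemma for complex numbers, or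
`tendsto_pow_exp_of_isLittleO_sub_add_div` as in `Mathlib.Probability.CentralLimitTheorem`).  Conclude by `ProbabilityMeasure.tendsto_iff_tendsto_charFun`.  (If `n_j` does not tend to infinity, i.e. `τ = 0`: included, `(1 + a_j)^{n_j}` with `n_j a_j → 0`; assume here `0 < τ`, then `n_j → ∞`.)
`geoM_tendsto`: `charFun (geoM κ s) t = (1-ρ)/(1 - ρ exp(i t s)) → 2κ/(2κ - i t)` (`1 - ρ = 2 κ s/(1 + κ s)`, `(1 - ρ exp(its))/s → 2κ - i t`), which is `charFun (expMeasure (2κ)) t` (Mathlib; or compute it as an integral).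
-/

set_option autoImplicit false

open MeasureTheory ProbabilityTheory Filter Topology

namespace Pool.Agent.DLM

private theorem WCF_pow {a : ℕ → ℂ} {n : ℕ → ℕ} {w : ℂ} (ha : Tendsto a atTop (𝓝 0))
    (h : Tendsto (fun j => (n j : ℂ) * a j) atTop (𝓝 w)) :
    Tendsto (fun j => (1 + a j) ^ (n j)) atTop (𝓝 (Complex.exp w)) := by
  have h1 : Tendsto (fun j => (n j : ℂ) * (Complex.log (1 + a j) - a j)) atTop (𝓝 0) := by
    have h2 : (fun j => (n j : ℂ) * (Complex.log (1 + a j) - a j)) =O[atTop] fun j => (n j : ℂ) * (a j) ^ 2 :=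
      (Asymptotics.isBigO_refl _ _).mul (Complex.log_sub_self_isBigO.comp_tendsto ha)
    refine h2.trans_tendsto ?_
    have h3 := h.mul ha
    rw [mul_zero] at h3
    refine h3.congr fun j => ?_
    ring
  have h4 : Tendsto (fun j => (n j : ℂ) * Complex.log (1 + a j)) atTop (𝓝 w) := by
    have h5 := h1.add h
    rw [zero_add] at h5
    refine h5.congr fun j => ?_
    ring
  have h6 := (Complex.continuous_exp.tendsto w).comp h4
  refine h6.congr' ?_
  filter_upwards [ha.eventually_ne (show (0 : ℂ) ≠ -1 by simp)] with j hj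
  have h7 : (1 : ℂ) + a j ≠ 0 := by
    intro h8
    exact hj (by linear_combination h8)
  simp only [Function.comp]
  rw [Complex.exp_nat_mul, Complex.exp_log h7]

private theorem WCF_step {κ s : ℝ} (hs : 0 < s) (hκ : 0 < κ) (h : κ * s < 1) (t : ℝ) :
    charFun (stepM κ s) t = 1 + ((Real.cos (t * s) - 1 : ℝ) + (κ * s * Real.sin (t * s) : ℝ) * Complex.I) := by
  have h1 : 0 ≤ (1 + κ * s) / 2 := by positivity
  have h2 : 0 ≤ (1 - κ * s) / 2 := by linarith
  rw [charFun_apply_real, stepM, integral_add_measure, integral_smul_measure, integral_smul_measure,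
    integral_dirac, integral_dirac, ENNReal.toReal_ofReal h1, ENNReal.toReal_ofReal h2]
  · have e1 : Complex.exp (↑t * ↑s * Complex.I) = Complex.cos (t * s) + Complex.sin (t * s) * Complex.I := by
      rw [Complex.exp_mul_I]
    have e2 : Complex.exp (↑t * ↑(-s) * Complex.I) = Complex.cos (t * s) - Complex.sin (t * s) * Complex.I := by
      rw [Complex.exp_mul_I]
      push_cast
      rw [mul_neg, Complex.cos_neg, Complex.sin_neg]
      ring
    rw [e1, e2, Complex.real_smul, Complex.real_smul]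
    push_cast
    ring
  · exact (integrable_dirac (by simp)).smul_measure ENNReal.ofReal_ne_top
  · exact (integrable_dirac (by simp)).smul_measure ENNReal.ofReal_ne_top

private theorem WCF_sum {κ s : ℝ} (hs : 0 < s) (hκ : 0 < κ) (h : κ * s < 1) (n : ℕ) (t : ℝ) :
    charFun (sumM κ s n) t = (charFun (stepM κ s) t) ^ n := by
  have := stepM_prob hκ hs h
  rw [sumM, charFun_map_sum_pi_eq_prod, Finset.prod_apply, Finset.prod_const, Finset.card_univ, Fintype.card_fin]

private theorem WCF_sin {s : ℕ → ℝ} (hs : ∀ j, 0 < s j) (h0 : Tendsto s atTop (𝓝 0)) (t : ℝ) :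
    Tendsto (fun j => Real.sin (t * s j) / s j) atTop (𝓝 t) := by
  have h1 : HasDerivAt (fun x : ℝ => Real.sin (t * x)) t 0 := by
    have h2 := ((hasDerivAt_id (0 : ℝ)).const_mul t).sin
    simpa using h2
  have h3 := h1.tendsto_slope_zero
  have h4 : Tendsto s atTop (𝓝[≠] 0) := by
    refine tendsto_nhdsWithin_iff.2 ⟨h0, Eventually.of_forall fun j => (hs j).ne'⟩
  refine (h3.comp h4).congr fun j => ?_
  simp only [Function.comp, zero_add, mul_zero, Real.sin_zero, sub_zero, smul_eq_mul]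
  rw [div_eq_inv_mul]

private theorem WCF_cos {s : ℕ → ℝ} (hs : ∀ j, 0 < s j) (h0 : Tendsto s atTop (𝓝 0)) (t : ℝ) :
    Tendsto (fun j => (Real.cos (t * s j) - 1) / s j ^ 2) atTop (𝓝 (-(t ^ 2 / 2))) := by
  have h1 := (WCF_sin hs h0 (t / 2)).pow 2
  have h2 := h1.const_mul (-2)
  have e : (-2 : ℝ) * (t / 2) ^ 2 = -(t ^ 2 / 2) := by ring
  rw [e] at h2
  refine h2.congr fun j => ?_
  have h3 : Real.cos (t * s j) = 1 - 2 * Real.sin (t / 2 * s j) ^ 2 := by
    have h4 := Real.cos_two_mul (t / 2 * s j)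
    have h5 := Real.sin_sq_add_cos_sq (t / 2 * s j)
    have e2 : 2 * (t / 2 * s j) = t * s j := by ring
    rw [e2] at h4
    rw [h4]
    linarith
  rw [h3, div_pow]
  ring

theorem sumM_tendsto {κ τ : ℝ} (hκ : 0 < κ) (hτ : 0 < τ) (s : ℕ → ℝ) (n : ℕ → ℕ) (hs : ∀ j, 0 < s j)
    (h : ∀ j, κ * s j < 1) (h0 : Tendsto s atTop (𝓝 0)) (hn : Tendsto (fun j => (n j : ℝ) * s j ^ 2) atTop (𝓝 (2 * τ)))
    (μ : ℕ → ProbabilityMeasure ℝ) (hμ : ∀ j, (μ j : Measure ℝ) = sumM κ (s j) (n j))
    (μ₀ : ProbabilityMeasure ℝ) (hμ₀ : (μ₀ : Measure ℝ) = gaussianReal (2 * κ * τ) (Real.toNNReal (2 * τ))) :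
    Tendsto μ atTop (𝓝 μ₀) := by
  refine ProbabilityMeasure.tendsto_iff_tendsto_charFun.2 fun t => ?_
  rw [hμ₀, charFun_gaussianReal]
  have hc := WCF_cos hs h0 t
  have hsn := WCF_sin hs h0 t
  set a : ℕ → ℂ := fun j => ((Real.cos (t * s j) - 1 : ℝ) : ℂ) + ((κ * s j * Real.sin (t * s j) : ℝ) : ℂ) * Complex.I
    with ha
  have hna : Tendsto (fun j => (n j : ℂ) * a j) atTop
      (𝓝 (t * ((2 * κ * τ : ℝ) : ℂ) * Complex.I - ((Real.toNNReal (2 * τ) : NNReal) : ℝ) * t ^ 2 / 2)) := by
    have r1 := hn.mul hc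
    have r2 := (hn.mul hsn).const_mul κ
    have c1 := (Complex.continuous_ofReal.tendsto _).comp r1
    have c2 := ((Complex.continuous_ofReal.tendsto _).comp r2).mul_const Complex.I
    have c3 := c1.add c2
    have e : ((2 * τ * -(t ^ 2 / 2) : ℝ) : ℂ) + ((κ * (2 * τ * t) : ℝ) : ℂ) * Complex.I =
        t * ((2 * κ * τ : ℝ) : ℂ) * Complex.I - ((Real.toNNReal (2 * τ) : NNReal) : ℝ) * t ^ 2 / 2 := by
      rw [Real.coe_toNNReal _ (by positivity)]
      push_cast
      ring
    rw [e] at c3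
    refine c3.congr fun j => ?_
    have hsj : (s j : ℂ) ≠ 0 := by exact_mod_cast (hs j).ne'
    simp only [Function.comp, ha]
    push_cast
    field_simp
  have ha0 : Tendsto a atTop (𝓝 0) := by
    have r1 : Tendsto (fun j => Real.cos (t * s j) - 1) atTop (𝓝 0) := by
      have := ((Real.continuous_cos.tendsto (t * 0)).comp (h0.const_mul t)).sub_const 1
      simpa using this
    have r2 : Tendsto (fun j => κ * s j * Real.sin (t * s j)) atTop (𝓝 0) := by
      have := (h0.const_mul κ).mul ((Real.continuous_sin.tendsto (t * 0)).comp (h0.const_mul t))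
      simpa using this
    have c3 := ((Complex.continuous_ofReal.tendsto _).comp r1).add
      (((Complex.continuous_ofReal.tendsto _).comp r2).mul_const Complex.I)
    rw [show (0 : ℂ) = ((0 : ℝ) : ℂ) + ((0 : ℝ) : ℂ) * Complex.I by simp]
    exact c3
  refine (WCF_pow ha0 hna).congr fun j => ?_
  rw [hμ j, WCF_sum (hs j) hκ (h j), WCF_step (hs j) hκ (h j)]

private theorem WCF_geo {κ s : ℝ} (hs : 0 < s) (hκ : 0 < κ) (h : κ * s < 1) (t : ℝ) :
    charFun (geoM κ s) t = 2 * κ / ((1 - Complex.exp (t * s * Complex.I)) / s +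
      κ * (1 + Complex.exp (t * s * Complex.I))) := by
  have := geoM_prob hκ hs h
  set z : ℂ := Complex.exp (t * s * Complex.I) with hz
  have hz1 : ‖z‖ = 1 := by
    rw [hz, show (t : ℂ) * s * Complex.I = ((t * s : ℝ) : ℂ) * Complex.I by push_cast; ring]
    exact Complex.norm_exp_ofReal_mul_I _
  set ρ : ℝ := (1 - κ * s) / (1 + κ * s) with hρ
  have hks : 0 < κ * s := mul_pos hκ hs
  have hρ0 : 0 ≤ ρ := div_nonneg (by linarith) (by linarith)
  have hρ1 : ρ < 1 := by
    rw [hρ, div_lt_one (by linarith)]; linarith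
  have hint : Integrable (fun x : ℝ => Complex.exp (t * x * Complex.I)) (geoM κ s) := by
    refine (integrable_const (1 : ℝ)).mono' ?_ ?_
    · exact (by fun_prop : Continuous fun x : ℝ => Complex.exp (t * x * Complex.I)).aestronglyMeasurable
    · refine Eventually.of_forall fun x => ?_
      rw [show (t : ℂ) * x * Complex.I = ((t * x : ℝ) : ℂ) * Complex.I by push_cast; ring,
        Complex.norm_exp_ofReal_mul_I]
  have h1 := hasSum_integral_measure (μ := fun n : ℕ =>
    ENNReal.ofReal ((1 - (1 - κ * s) / (1 + κ * s)) * ((1 - κ * s) / (1 + κ * s)) ^ n) • Measure.dirac ((n : ℝ) * s)) hint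
  have h2 : ∀ n : ℕ, (∫ x : ℝ, Complex.exp (t * x * Complex.I)
      ∂(ENNReal.ofReal ((1 - (1 - κ * s) / (1 + κ * s)) * ((1 - κ * s) / (1 + κ * s)) ^ n) •
        Measure.dirac ((n : ℝ) * s))) = (1 - ρ) * (ρ * z) ^ n := by
    intro n
    rw [integral_smul_measure, integral_dirac, ← hρ, ENNReal.toReal_ofReal
      (mul_nonneg (by linarith) (pow_nonneg hρ0 n)), Complex.real_smul, mul_pow, hz, ← Complex.exp_nat_mul]
    push_cast
    rw [show (t : ℂ) * (n * s) * Complex.I = n * (t * s * Complex.I) by ring]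
    ring
  simp only [h2] at h1
  have h3 : HasSum (fun n : ℕ => (1 - ρ : ℂ) * (ρ * z) ^ n) ((1 - ρ) * (1 - ρ * z)⁻¹) := by
    refine (hasSum_geometric_of_norm_lt_one ?_).mul_left _
    rw [norm_mul, hz1, mul_one, Complex.norm_real, Real.norm_of_nonneg hρ0]
    exact hρ1
  have h4 : charFun (geoM κ s) t = (1 - ρ) * (1 - ρ * z)⁻¹ := by
    rw [charFun_apply_real]
    exact h1.unique h3
  have hne : (1 : ℂ) - ρ * z ≠ 0 := by
    intro h5
    have h6 : (ρ : ℂ) * z = 1 := by linear_combination -h5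
    have h7 : ‖(ρ : ℂ) * z‖ = 1 := by rw [h6]; simp
    rw [norm_mul, hz1, mul_one, Complex.norm_real, Real.norm_of_nonneg hρ0] at h7
    linarith
  have hsC : (s : ℂ) ≠ 0 := by exact_mod_cast hs.ne'
  have hkC : (1 : ℂ) + κ * s ≠ 0 := by
    have : (1 : ℝ) + κ * s ≠ 0 := by positivity
    exact_mod_cast this
  have e1 : (1 : ℂ) - ρ = 2 * κ * s / (1 + κ * s) := by
    rw [hρ]; push_cast; field_simp; ring
  have e2 : (1 : ℂ) - ρ * z = ((1 - z) / s + κ * (1 + z)) * s / (1 + κ * s) := by
    rw [hρ]; push_cast; field_simp; ring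
  have e3 : (1 - z) / s + κ * (1 + z) ≠ 0 := by
    intro h5
    rw [e2, h5] at hne
    simp at hne
  rw [h4, e1, e2]
  field_simp

private theorem WCF_exp {r : ℝ} (hr : 0 < r) (t : ℝ) :
    charFun (expMeasure r) t = r / (r - t * Complex.I) := by
  have := isProbabilityMeasure_expMeasure hr
  rw [charFun_apply_real, expMeasure, gammaMeasure]
  rw [integral_withDensity_eq_integral_toReal_smul]
  · have h1 : ∀ x : ℝ, (gammaPDF 1 r x).toReal • Complex.exp (t * x * Complex.I) =
        Set.indicator (Set.Ici 0) (fun x : ℝ => (r : ℂ) * Complex.exp ((-r + t * Complex.I) * x)) x := by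
      intro x
      have h2 : gammaPDF 1 r x = exponentialPDF r x := rfl
      by_cases hx : 0 ≤ x
      · rw [Set.indicator_of_mem (show x ∈ Set.Ici (0 : ℝ) from hx), h2, exponentialPDF_of_nonneg hx,
          ENNReal.toReal_ofReal (by positivity), Complex.real_smul]
        push_cast
        rw [mul_assoc, ← Complex.exp_add]
        congr 2
        ring
      · rw [Set.indicator_of_notMem (show x ∉ Set.Ici (0 : ℝ) from hx), h2,
          exponentialPDF_of_neg (not_le.1 hx)]
        simp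
    simp only [h1]
    rw [integral_indicator measurableSet_Ici, integral_Ici_eq_integral_Ioi, integral_const_mul,
      integral_exp_mul_complex_Ioi (by simp [hr])]
    have h3 : (r : ℂ) - t * Complex.I ≠ 0 := by
      intro h4
      have h5 := congrArg Complex.re h4
      simp at h5
      exact hr.ne' h5
    have h6 : (-(r : ℂ) + t * Complex.I) ≠ 0 := by
      intro h4
      apply h3
      linear_combination -h4
    simp only [Complex.ofReal_zero, mul_zero, Complex.exp_zero]
    rw [show (-(r : ℂ) + t * Complex.I) = -(r - t * Complex.I) by ring]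
    rw [neg_div_neg_eq]
    ring
  · exact (measurable_gammaPDFReal 1 r).ennreal_ofReal
  · exact Eventually.of_forall fun x => ENNReal.ofReal_lt_top

theorem geoM_tendsto {κ : ℝ} (hκ : 0 < κ) (s : ℕ → ℝ) (hs : ∀ j, 0 < s j) (h : ∀ j, κ * s j < 1)
    (h0 : Tendsto s atTop (𝓝 0)) (μ : ℕ → ProbabilityMeasure ℝ) (hμ : ∀ j, (μ j : Measure ℝ) = geoM κ (s j))
    (μ₀ : ProbabilityMeasure ℝ) (hμ₀ : (μ₀ : Measure ℝ) = expMeasure (2 * κ)) :
    Tendsto μ atTop (𝓝 μ₀) := by
  refine ProbabilityMeasure.tendsto_iff_tendsto_charFun.2 fun t => ?_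
  rw [hμ₀, WCF_exp (by positivity)]
  have hz : Tendsto (fun j => Complex.exp (t * s j * Complex.I)) atTop (𝓝 1) := by
    have h1 : Continuous fun x : ℝ => Complex.exp (t * x * Complex.I) := by fun_prop
    have h2 := (h1.tendsto 0).comp h0
    simpa [Function.comp_def] using h2
  have hd : Tendsto (fun j => (1 - Complex.exp (t * s j * Complex.I)) / s j) atTop (𝓝 (-(t * Complex.I))) := by
    have h1 : HasDerivAt (fun x : ℝ => Complex.exp (t * x * Complex.I)) (t * Complex.I) 0 := by
      have h2 : HasDerivAt (fun x : ℝ => (t : ℂ) * x * Complex.I) (t * Complex.I) 0 := by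
        have h3 := ((Complex.ofRealCLM.hasDerivAt (x := (0 : ℝ))).const_mul (t : ℂ)).mul_const Complex.I
        simpa using h3
      have h4 := h2.cexp
      simpa using h4
    have h3 := h1.tendsto_slope_zero
    have h4 : Tendsto s atTop (𝓝[≠] 0) := by
      refine tendsto_nhdsWithin_iff.2 ⟨h0, Eventually.of_forall fun j => (hs j).ne'⟩
    refine ((h3.comp h4).neg).congr fun j => ?_
    simp only [Function.comp, zero_add]
    rw [Complex.real_smul]
    have hsC : (s j : ℂ) ≠ 0 := by exact_mod_cast (hs j).ne'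
    push_cast
    simp only [mul_zero, zero_mul, Complex.exp_zero]
    field_simp
    ring
  have hlim := (hd.add ((hz.const_add 1).const_mul (κ : ℂ)))
  have hne : -((t : ℂ) * Complex.I) + κ * (1 + 1) ≠ 0 := by
    intro h4
    have h5 := congrArg Complex.re h4
    simp at h5
    linarith
  have hfin := (tendsto_const_nhds (x := (2 * κ : ℂ)) (f := atTop (α := ℕ))).div hlim hne
  have e : (2 * κ : ℂ) / (-((t : ℂ) * Complex.I) + κ * (1 + 1)) = ((2 * κ : ℝ) : ℂ) / (((2 * κ : ℝ) : ℂ) - t * Complex.I) := by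
    push_cast
    congr 1
    ring
  rw [e] at hfin
  refine hfin.congr fun j => ?_
  rw [hμ j, WCF_geo (hs j) hκ (h j)]
  rfl

end Pool.Agent.DLM
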