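import Pool.Agent.DLM.ADefs
import Pool.Agent.DLM.OTV

/-!
# DLM/WOS: oscillation of the walk (60-100 lines)

`E exp(c ξ) = cosh (c s) + κ s sinh (c s) ≤ exp(c^2 s^2/2 + κ |c| s^2)` (`Real.cosh_le_exp_half_sq`; `|sinh x| ≤ |x| cosh x`, `1 + y ≤ exp y`).  So `E exp(c ∑_{i ∈ A} ξ i) ≤ exp(τ (c^2/2 + κ |c|))` if `|A| s^2 ≤ τ`, and with `c = ± y/(2τ)`:
`P(|∑_{i ∈ A} ξ i| > y) ≤ 2 exp(-y^2/(2τ) + y^2/(8τ) + κ y/2) = 2 exp(-3y^2/(8τ) + κ y/2)`.  `ottaviani` with `x = y`.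
-/

set_option autoImplicit false

open MeasureTheory ProbabilityTheory Filter Topology

namespace Pool.Agent.DLM

theorem wos_int (κ s c : ℝ) : Integrable (fun x : ℝ => Real.exp (c * x)) (stepM κ s) := by
  unfold stepM
  refine Integrable.add_measure ?_ ?_
  · exact (integrable_dirac (by simp)).smul_measure ENNReal.ofReal_ne_top
  · exact (integrable_dirac (by simp)).smul_measure ENNReal.ofReal_ne_top

theorem wos_mgf1 {κ s : ℝ} (hκ : 0 < κ) (hs : 0 < s) (h : κ * s < 1) (c : ℝ) :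
    ∫ x : ℝ, Real.exp (c * x) ∂(stepM κ s) = Real.cosh (c * s) + κ * s * Real.sinh (c * s) := by
  have h1 : 0 < κ * s := mul_pos hκ hs
  have hi := wos_int κ s c
  unfold stepM at hi ⊢
  rw [integral_add_measure (hi.left_of_add_measure) (hi.right_of_add_measure), integral_smul_measure,
    integral_smul_measure, integral_dirac, integral_dirac, ENNReal.toReal_ofReal (by linarith),
    ENNReal.toReal_ofReal (by linarith), Real.cosh_eq, Real.sinh_eq]
  simp only [smul_eq_mul]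
  rw [show c * -s = -(c * s) by ring]
  ring

theorem wos_sinh (x : ℝ) : |Real.sinh x| ≤ |x| * Real.cosh x := by
  have hmono : Monotone (fun x : ℝ => x * Real.cosh x - Real.sinh x) := by
    apply monotone_of_deriv_nonneg
    · fun_prop
    · intro y
      have hd : HasDerivAt (fun x : ℝ => x * Real.cosh x - Real.sinh x) (1 * Real.cosh y + y * Real.sinh y - Real.cosh y) y :=
        ((hasDerivAt_id y).mul (Real.hasDerivAt_cosh y)).sub (Real.hasDerivAt_sinh y)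
      rw [hd.deriv]
      have : 0 ≤ y * Real.sinh y := by
        rcases le_total 0 y with h | h
        · exact mul_nonneg h (Real.sinh_nonneg_iff.mpr h)
        · exact mul_nonneg_of_nonpos_of_nonpos h (Real.sinh_nonpos_iff.mpr h)
      linarith
  have key : ∀ z : ℝ, 0 ≤ z → |Real.sinh z| ≤ |z| * Real.cosh z := by
    intro z hz
    rw [abs_of_nonneg (Real.sinh_nonneg_iff.mpr hz), abs_of_nonneg hz]
    have := hmono hz
    simp at this
    linarith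
  rcases le_total 0 x with h | h
  · exact key x h
  · have := key (-x) (by linarith)
    rwa [Real.sinh_neg, abs_neg, abs_neg, Real.cosh_neg] at this

theorem wos_bd {κ s : ℝ} (hκ : 0 < κ) (hs : 0 < s) (c : ℝ) :
    Real.cosh (c * s) + κ * s * Real.sinh (c * s) ≤ Real.exp (s ^ 2 * (c ^ 2 / 2 + κ * |c|)) := by
  have h1 : 0 < κ * s := mul_pos hκ hs
  have h2 : Real.sinh (c * s) ≤ |c * s| * Real.cosh (c * s) := (le_abs_self _).trans (wos_sinh _)
  have h3 : κ * s * Real.sinh (c * s) ≤ κ * s * (|c * s| * Real.cosh (c * s)) :=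
    mul_le_mul_of_nonneg_left h2 h1.le
  have h4 : Real.cosh (c * s) + κ * s * Real.sinh (c * s) ≤
      (κ * s ^ 2 * |c| + 1) * Real.cosh (c * s) := by
    rw [abs_mul, abs_of_pos hs] at h3
    nlinarith [h3]
  refine h4.trans ?_
  have h5 : κ * s ^ 2 * |c| + 1 ≤ Real.exp (κ * s ^ 2 * |c|) := Real.add_one_le_exp _
  have h6 := Real.cosh_le_exp_half_sq (c * s)
  calc (κ * s ^ 2 * |c| + 1) * Real.cosh (c * s)
      ≤ Real.exp (κ * s ^ 2 * |c|) * Real.exp ((c * s) ^ 2 / 2) :=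
        mul_le_mul h5 h6 (Real.cosh_pos _).le (Real.exp_pos _).le
    _ = Real.exp (s ^ 2 * (c ^ 2 / 2 + κ * |c|)) := by rw [← Real.exp_add]; congr 1; ring

theorem wos_mgf {Ω : Type*} [MeasurableSpace Ω] {P : Measure Ω} [IsProbabilityMeasure P] {κ s : ℝ} (hκ : 0 < κ)
    (hs : 0 < s) (h : κ * s < 1) (ξ : ℕ → Ω → ℝ) (hm : ∀ i, Measurable (ξ i))
    (hl : ∀ i, P.map (ξ i) = stepM κ s) (hi : iIndepFun ξ P) (A : Finset ℕ) (τ c : ℝ)
    (hn : A.card * s ^ 2 ≤ τ) :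
    mgf (∑ i ∈ A, ξ i) P c ≤ Real.exp (τ * (c ^ 2 / 2 + κ * |c|)) := by
  rw [hi.mgf_sum hm]
  have h1 : ∀ i ∈ A, mgf (ξ i) P c ≤ Real.exp (s ^ 2 * (c ^ 2 / 2 + κ * |c|)) := by
    intro i _
    refine le_of_eq_of_le ?_ (wos_bd hκ hs c)
    rw [← wos_mgf1 hκ hs h c, ← hl i, integral_map (hm i).aemeasurable (by fun_prop)]
    rfl
  calc ∏ i ∈ A, mgf (ξ i) P c ≤ ∏ i ∈ A, Real.exp (s ^ 2 * (c ^ 2 / 2 + κ * |c|)) :=
        Finset.prod_le_prod (fun i _ => mgf_nonneg) h1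
    _ = Real.exp (A.card * s ^ 2 * (c ^ 2 / 2 + κ * |c|)) := by
        rw [Finset.prod_const, ← Real.exp_nat_mul]; congr 1; ring
    _ ≤ _ := by
        apply Real.exp_le_exp.mpr
        exact mul_le_mul_of_nonneg_right hn (by positivity)

theorem wos_expint {Ω : Type*} [MeasurableSpace Ω] {P : Measure Ω} [IsProbabilityMeasure P] {κ s : ℝ}
    (ξ : ℕ → Ω → ℝ) (hm : ∀ i, Measurable (ξ i))
    (hl : ∀ i, P.map (ξ i) = stepM κ s) (hi : iIndepFun ξ P) (A : Finset ℕ) (c : ℝ) :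
    Integrable (fun ω => Real.exp (c * (∑ i ∈ A, ξ i) ω)) P := by
  refine hi.integrable_exp_mul_sum hm fun i _ => ?_
  have h := wos_int κ s c
  rw [← hl i] at h
  exact h.comp_measurable (hm i)

theorem wos_tail {Ω : Type*} [MeasurableSpace Ω] {P : Measure Ω} [IsProbabilityMeasure P] {κ s : ℝ} (hκ : 0 < κ)
    (hs : 0 < s) (h : κ * s < 1) (ξ : ℕ → Ω → ℝ) (hm : ∀ i, Measurable (ξ i))
    (hl : ∀ i, P.map (ξ i) = stepM κ s) (hi : iIndepFun ξ P) (A : Finset ℕ) (τ y : ℝ) (hτ : 0 < τ)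
    (hn : A.card * s ^ 2 ≤ τ) (hy : 0 < y) :
    P {ω | y < |∑ i ∈ A, ξ i ω|} ≤ ENNReal.ofReal (2 * Real.exp (-(3 * y ^ 2) / (8 * τ) + κ * y / 2)) := by
  set c : ℝ := y / (2 * τ) with hc
  have hc0 : 0 < c := by positivity
  have e1 : Real.exp (-c * y) * Real.exp (τ * (c ^ 2 / 2 + κ * |c|)) =
      Real.exp (-(3 * y ^ 2) / (8 * τ) + κ * y / 2) := by
    rw [← Real.exp_add, abs_of_pos hc0, hc]
    congr 1
    field_simp
    ring
  have u1 : P.real {ω | y ≤ (∑ i ∈ A, ξ i) ω} ≤ Real.exp (-(3 * y ^ 2) / (8 * τ) + κ * y / 2) := by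
    refine (measure_ge_le_exp_mul_mgf y hc0.le (wos_expint ξ hm hl hi A c)).trans ?_
    rw [← e1]
    exact mul_le_mul_of_nonneg_left (wos_mgf hκ hs h ξ hm hl hi A τ c hn) (Real.exp_pos _).le
  have u2 : P.real {ω | (∑ i ∈ A, ξ i) ω ≤ -y} ≤ Real.exp (-(3 * y ^ 2) / (8 * τ) + κ * y / 2) := by
    refine (measure_le_le_exp_mul_mgf (-y) (t := -c) (by linarith) (wos_expint ξ hm hl hi A (-c))).trans ?_
    rw [← e1]
    have := wos_mgf hκ hs h ξ hm hl hi A τ (-c) hn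
    rw [abs_neg, neg_sq] at this
    rw [show - -c * -y = -c * y by ring]
    exact mul_le_mul_of_nonneg_left this (Real.exp_pos _).le
  have v1 : P {ω | y ≤ (∑ i ∈ A, ξ i) ω} ≤ ENNReal.ofReal (Real.exp (-(3 * y ^ 2) / (8 * τ) + κ * y / 2)) := by
    rw [← ofReal_measureReal]
    exact ENNReal.ofReal_le_ofReal u1
  have v2 : P {ω | (∑ i ∈ A, ξ i) ω ≤ -y} ≤ ENNReal.ofReal (Real.exp (-(3 * y ^ 2) / (8 * τ) + κ * y / 2)) := by
    rw [← ofReal_measureReal]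
    exact ENNReal.ofReal_le_ofReal u2
  have v3 : {ω | y < |∑ i ∈ A, ξ i ω|} ⊆ {ω | y ≤ (∑ i ∈ A, ξ i) ω} ∪ {ω | (∑ i ∈ A, ξ i) ω ≤ -y} := by
    intro ω hω
    simp only [Set.mem_ofPred_eq, Set.mem_union, Finset.sum_apply] at hω ⊢
    rcases lt_abs.mp hω with h1 | h1
    · left; exact h1.le
    · right; linarith
  calc P {ω | y < |∑ i ∈ A, ξ i ω|}
      ≤ P {ω | y ≤ (∑ i ∈ A, ξ i) ω} + P {ω | (∑ i ∈ A, ξ i) ω ≤ -y} :=
        (measure_mono v3).trans (measure_union_le _ _)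
    _ ≤ ENNReal.ofReal (Real.exp (-(3 * y ^ 2) / (8 * τ) + κ * y / 2)) +
          ENNReal.ofReal (Real.exp (-(3 * y ^ 2) / (8 * τ) + κ * y / 2)) := add_le_add v1 v2
    _ = _ := by
        rw [← ENNReal.ofReal_add (Real.exp_pos _).le (Real.exp_pos _).le]; congr 1; ring

theorem walk_osc {Ω : Type*} [MeasurableSpace Ω] {P : Measure Ω} [IsProbabilityMeasure P] {κ s : ℝ} (hκ : 0 < κ)
    (hs : 0 < s) (h : κ * s < 1) (ξ : ℕ → Ω → ℝ) (hm : ∀ i, Measurable (ξ i))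
    (hl : ∀ i, P.map (ξ i) = stepM κ s) (hi : iIndepFun ξ P) (n : ℕ) (τ y : ℝ) (hτ : 0 < τ) (hn : n * s ^ 2 ≤ τ)
    (hy : 0 < y) (hsm : 2 * Real.exp (-(3 * y ^ 2) / (8 * τ) + κ * y / 2) ≤ 1 / 2) :
    P {ω | ∃ k ≤ n, 2 * y < |∑ i ∈ Finset.range k, ξ i ω|} ≤
      ENNReal.ofReal (4 * Real.exp (-(3 * y ^ 2) / (8 * τ) + κ * y / 2)) := by
  have h1 : ∀ k ≤ n, P {ω | y < |∑ i ∈ Finset.Ico k n, ξ i ω|} ≤ 1 / 2 := by
    intro k hk
    refine (wos_tail hκ hs h ξ hm hl hi (Finset.Ico k n) τ y hτ ?_ hy).trans ?_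
    · rw [Nat.card_Ico]
      refine le_trans ?_ hn
      refine mul_le_mul_of_nonneg_right ?_ (by positivity)
      exact_mod_cast Nat.sub_le n k
    · refine (ENNReal.ofReal_le_ofReal hsm).trans ?_
      rw [ENNReal.ofReal_div_of_pos (by norm_num)]
      simp
  have h2 := ottaviani P ξ hm hi n y y h1
  rw [← two_mul] at h2
  refine h2.trans ?_
  have h3 := wos_tail hκ hs h ξ hm hl hi (Finset.range n) τ y hτ (by rw [Finset.card_range]; exact hn) hy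
  calc 2 * P {ω | y < |∑ i ∈ Finset.range n, ξ i ω|}
      ≤ ENNReal.ofReal 2 * ENNReal.ofReal (2 * Real.exp (-(3 * y ^ 2) / (8 * τ) + κ * y / 2)) := by
        rw [show ENNReal.ofReal 2 = 2 by simp]
        gcongr
    _ = _ := by
        rw [← ENNReal.ofReal_mul (by norm_num)]; congr 1; ring

end Pool.Agent.DLM
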