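import Pool.Agent.DLM.GEN
import Pool.Agent.DLM.WOS
import Pool.Agent.DLM.WCF

/-!
# DLM/PIT: the Pitman transform over one interval (180-250 lines; may be split)

If `t₀ = t₁` the claim is trivial (`J ≥ 0` a.s.).  Let `T = t₁ - t₀ > 0`, `x(u) = X (t₀ + u) - X t₀`, `0 ≤ u ≤ T`, `F(J, x) = (2 (max J m - J) - x T, max J m - x T)`, `m = sup_{[0,T]} x` (`= Mm` by continuity).  Both sides are probability measures on `ℝ × ℝ`; it suffices to show `∫ g` equal
for bounded Lipschitz `g` (`tendsto_iff_forall_lipschitz_integral_tendsto` for a constant sequence and uniqueness of limits; or any form of: bounded Lipschitz functions determine a measure).  Let `|g| ≤ 1`, `g` 1-Lipschitz.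
GRID.  For `M ≥ 1` and `y ∈ ℝ^M` (increments) let `F_M(j, y) = (2 (max j m - j) - s, max j m - s)`, `m = max_{k ≤ M} ∑_{i<k} y i` (so `m ≥ 0`, it includes `k = 0`), `s = ∑ y i`: a continuous function on `ℝ × (Fin M → ℝ)`.
(1) `F_M(J, increments of x over the grid u_k = k T/M) → F(J, x)` a.s. as `M → ∞` (uniform continuity of `x`), so `E g(F_M(J, Δx)) → E g(F(J, x))` (dominated convergence).  The law of `(J, Δx)` is `expMeasure (2κ) ⊗ N(2κT/M, 2T/M)^M` (`IsBM.gauss`, `IsBM.indep`, `hi`).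
(2) WALK.  For `n ≥ 1` let `N = M n`, `s_n = √(2T/N)` (n large so that `κ s_n < 1`).  On the product space `ℝ × (ℕ → ℝ)` with `geoM κ s_n ⊗ infinitePi (stepM κ s_n)` let `S k` be the walk and `y_i = S ((i+1) n) - S (i n)`.  The law of `(J, y)` is `geoM ⊗ (sumM κ s_n n)^M`,
which tends weakly to `expMeasure (2κ) ⊗ N(2κT/M, 2T/M)^M` (`sumM_tendsto` with `τ = T/M`: `n s_n^2 = 2T/M`; `geoM_tendsto`; `ProbabilityMeasure.continuous_pi`, `continuous_prod`).  So `E g(F_M(J, y)) → E g(F_M(J, Δx))` as `n → ∞` (g ∘ F_M bounded continuous).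
(3) `|F(walk) - F_M(J, y)| ≤ 2 max_i osc_i`, `F(walk) = (2 (max J (rmax S N) - J) - S N, ..)`, `osc_i = max_{k ≤ n} |S (i n + k) - S (i n)|`: so for `ε > 0`: `|E g(F(walk)) - E g(F_M(J,y))| ≤ 4 ε + 2 M P(osc_0 > 2 ε)` and by `walk_osc` with `τ = 2T/M`, `y = ε`:
`P(osc_0 > 2ε) ≤ 4 exp(-3 ε^2 M/(16 T) + κ ε/2)` for `M` large; `M` times this tends to `0` as `M → ∞`, uniformly in `n`.
(4) `E g(F(walk)) = ∫ g d(sumM κ s_n N ⊗ geoM κ s_n) → ∫ g d(N(2κT, 2T) ⊗ expMeasure (2κ))` as `n → ∞` (`geo_walk`, `sumM_tendsto` with `τ = T`: `N s_n^2 = 2T`).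
Combine: `|E g(F(J,x)) - ∫ g dRHS| ≤ limsup_M (4 ε + o(1)) = 4 ε`.
-/

set_option autoImplicit false

open MeasureTheory ProbabilityTheory Filter Topology

namespace Pool.Agent.DLM

private theorem pt_le_rmax {S : ℕ → ℝ} {k N : ℕ} (h : k ≤ N) : S k ≤ rmax S N := by
  induction N with
  | zero =>
    obtain rfl : k = 0 := by omega
    exact le_rfl
  | succ N ih =>
    rcases Nat.lt_or_ge N k with hk | hk
    · obtain rfl : k = N + 1 := by omega
      exact le_max_right _ _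
    · exact (ih hk).trans (le_max_left _ _)

private theorem pt_rmax_le {S : ℕ → ℝ} {N : ℕ} {c : ℝ} (h : ∀ k ≤ N, S k ≤ c) : rmax S N ≤ c := by
  induction N with
  | zero => exact h 0 le_rfl
  | succ N ih => exact max_le (ih fun k hk => h k (by omega)) (h (N + 1) le_rfl)

private theorem pt_rmax_congr {S S' : ℕ → ℝ} {N : ℕ} (h : ∀ k ≤ N, S k = S' k) : rmax S N = rmax S' N := by
  apply le_antisymm
  · exact pt_rmax_le fun k hk => (h k hk) ▸ pt_le_rmax hk
  · exact pt_rmax_le fun k hk => (h k hk).symm ▸ pt_le_rmax hk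

private theorem pt_rmax_cont {α : Type*} [TopologicalSpace α] {S : α → ℕ → ℝ} (h : ∀ k, Continuous fun a => S a k)
    (N : ℕ) : Continuous fun a => rmax (S a) N := by
  induction N with
  | zero => exact h 0
  | succ N ih => exact ih.max (h (N + 1))

/-- the map `F` -/
private noncomputable def FF (j m s : ℝ) : ℝ × ℝ := (2 * (max j m - j) - s, max j m - s)

private theorem pt_FF_dist (j m m' s : ℝ) : dist (FF j m s) (FF j m' s) ≤ 2 * |m - m'| := by
  have h : |max j m - max j m'| ≤ |m - m'| := by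
    rw [max_comm j m, max_comm j m']
    exact abs_max_sub_max_le_abs m m' j
  rw [Prod.dist_eq, Real.dist_eq, Real.dist_eq]
  unfold FF
  refine max_le ?_ ?_
  · have e : 2 * (max j m - j) - s - (2 * (max j m' - j) - s) = 2 * (max j m - max j m') := by ring
    simp only [e, abs_mul, abs_two]
    linarith
  · have e : max j m - s - (max j m' - s) = max j m - max j m' := by ring
    simp only [e]
    have := abs_nonneg (m - m')
    linarith

private theorem pt_FF_cont : Continuous fun p : ℝ × ℝ × ℝ => FF p.1 p.2.1 p.2.2 := by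
  unfold FF
  fun_prop

private noncomputable def ex (M : ℕ) (y : Fin M → ℝ) (l : ℕ) : ℝ := if h : l < M then y ⟨l, h⟩ else 0

private noncomputable def FM (M : ℕ) (p : ℝ × (Fin M → ℝ)) : ℝ × ℝ :=
  FF p.1 (rmax (fun k => ∑ l ∈ Finset.range k, ex M p.2 l) M) (∑ l ∈ Finset.range M, ex M p.2 l)

private theorem pt_ex_cont (M l : ℕ) : Continuous fun p : ℝ × (Fin M → ℝ) => ex M p.2 l := by
  unfold ex
  by_cases h : l < M
  · simp only [h, dif_pos]
    fun_prop
  · simp only [h, dif_neg, not_false_eq_true]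
    fun_prop

private theorem pt_FM_cont (M : ℕ) : Continuous (FM M) := by
  have h1 : ∀ k, Continuous fun p : ℝ × (Fin M → ℝ) => ∑ l ∈ Finset.range k, ex M p.2 l :=
    fun k => continuous_finsetSum _ fun l _ => pt_ex_cont M l
  have h2 := pt_rmax_cont (S := fun (p : ℝ × (Fin M → ℝ)) k => ∑ l ∈ Finset.range k, ex M p.2 l) h1 M
  exact pt_FF_cont.comp (continuous_fst.prodMk (h2.prodMk (h1 M)))

private theorem pt_FM_eq {M : ℕ} {j : ℝ} {y : Fin M → ℝ} {R : ℕ → ℝ} (h0 : R 0 = 0)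
    (h : ∀ i : Fin M, R (i + 1) = R i + y i) : FM M (j, y) = FF j (rmax R M) (R M) := by
  have h1 : ∀ k ≤ M, ∑ l ∈ Finset.range k, ex M y l = R k := by
    intro k
    induction k with
    | zero => intro _; simp [h0]
    | succ k ih =>
      intro hk
      rw [Finset.sum_range_succ, ih (by omega)]
      have h2 : k < M := hk
      have h3 := h ⟨k, h2⟩
      simp only at h3
      rw [h3]
      simp [ex, h2]
  unfold FM
  simp only
  rw [h1 M le_rfl, pt_rmax_congr h1]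

/-- block decomposition of a walk -/
private theorem pt_block {x : ℕ → ℝ} (n i k : ℕ) :
    ∑ l ∈ Finset.range (i * n + k), x l =
      ∑ l ∈ Finset.range (i * n), x l + ∑ l ∈ Finset.range k, x (i * n + l) := by
  rw [Finset.sum_range_add]

private theorem pt_FM_walk {M n : ℕ} {j : ℝ} {x : ℕ → ℝ} :
    FM M (j, fun i : Fin M => ∑ k ∈ Finset.range n, x (i * n + k)) =
      FF j (rmax (fun k => ∑ l ∈ Finset.range (k * n), x l) M) (∑ l ∈ Finset.range (M * n), x l) := by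
  refine pt_FM_eq (R := fun k => ∑ l ∈ Finset.range (k * n), x l) (by simp) ?_
  intro i
  rw [show ((i : ℕ) + 1) * n = (i : ℕ) * n + n by ring, pt_block]

private theorem pt_osc {M n : ℕ} (hn : 1 ≤ n) {x : ℕ → ℝ} {e : ℝ} (he : 0 ≤ e)
    (h : ∀ i < M, ∀ k ≤ n, |∑ l ∈ Finset.range k, x (i * n + l)| ≤ e) :
    |rmax (fun k => ∑ l ∈ Finset.range k, x l) (M * n) - rmax (fun k => ∑ l ∈ Finset.range (k * n), x l) M| ≤ e := by
  have h1 : rmax (fun k => ∑ l ∈ Finset.range (k * n), x l) M ≤ rmax (fun k => ∑ l ∈ Finset.range k, x l) (M * n) := by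
    refine pt_rmax_le fun k hk => ?_
    exact pt_le_rmax (S := fun k => ∑ l ∈ Finset.range k, x l) (Nat.mul_le_mul_right n hk)
  have h2 : rmax (fun k => ∑ l ∈ Finset.range k, x l) (M * n) ≤
      rmax (fun k => ∑ l ∈ Finset.range (k * n), x l) M + e := by
    refine pt_rmax_le fun m hm => ?_
    have hq : m / n ≤ M := by
      rw [Nat.div_le_iff_le_mul_add_pred (by omega)]
      nlinarith [Nat.zero_le n]
    rcases Nat.lt_or_ge (m / n) M with hlt | hge
    · have e1 : m = (m / n) * n + m % n := (Nat.div_add_mod' m n).symm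
      have h3 := h (m / n) hlt (m % n) (Nat.mod_lt m (by omega)).le
      have h4 : ∑ l ∈ Finset.range m, x l = ∑ l ∈ Finset.range ((m / n) * n), x l +
          ∑ l ∈ Finset.range (m % n), x ((m / n) * n + l) := by
        conv_lhs => rw [e1]
        rw [pt_block]
      have h5 := pt_le_rmax (S := fun k => ∑ l ∈ Finset.range (k * n), x l) hq
      rw [h4]
      linarith [(abs_le.mp h3).2]
    · have e1 : m / n = M := le_antisymm hq hge
      have e2 : m = M * n := by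
        have h3 := Nat.div_add_mod' m n
        rw [e1] at h3
        omega
      rw [e2]
      have h5 := pt_le_rmax (S := fun k => ∑ l ∈ Finset.range (k * n), x l) (le_refl M)
      linarith
  rw [abs_le]
  constructor <;> linarith

private theorem pt_sup {f : ℝ → ℝ} (hf : Continuous f) {t₀ t₁ : ℝ} (ht : t₀ ≤ t₁) :
    ∃ u ∈ Set.Icc t₀ t₁, (∀ v ∈ Set.Icc t₀ t₁, f v ≤ f u) ∧ (⨆ q : ℚ, f (max t₀ (min (q : ℝ) t₁))) = f u := by
  obtain ⟨u, hu, hm⟩ := (isCompact_Icc (a := t₀) (b := t₁)).exists_isMaxOn ⟨t₀, Set.left_mem_Icc.mpr ht⟩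
    hf.continuousOn
  have hm' : ∀ v ∈ Set.Icc t₀ t₁, f v ≤ f u := fun v hv => hm hv
  have hcl : ∀ r : ℝ, max t₀ (min r t₁) ∈ Set.Icc t₀ t₁ := fun r =>
    ⟨le_max_left _ _, max_le ht (min_le_right _ _)⟩
  have hb : BddAbove (Set.range fun q : ℚ => f (max t₀ (min (q : ℝ) t₁))) := by
    refine ⟨f u, ?_⟩
    rintro _ ⟨q, rfl⟩
    exact hm' _ (hcl _)
  refine ⟨u, hu, hm', le_antisymm (ciSup_le fun q => hm' _ (hcl _)) ?_⟩
  have h1 : ∀ r : ℝ, f (max t₀ (min r t₁)) ≤ ⨆ q : ℚ, f (max t₀ (min (q : ℝ) t₁)) := by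
    intro r
    refine DenseRange.induction_on (Rat.denseRange_cast (𝕜 := ℝ)) (p := fun r => f (max t₀ (min r t₁)) ≤
      ⨆ q : ℚ, f (max t₀ (min (q : ℝ) t₁))) r ?_ ?_
    · exact isClosed_le (by fun_prop) continuous_const
    · intro q
      exact le_ciSup hb q
  have h2 := h1 u
  rwa [min_eq_left hu.2, max_eq_right hu.1] at h2

private theorem pt_grid {f : ℝ → ℝ} (hf : Continuous f) {t₀ t₁ : ℝ} (ht : t₀ < t₁) :
    Tendsto (fun M : ℕ => rmax (fun k => f (t₀ + k * ((t₁ - t₀) / M))) M) atTop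
      (𝓝 (⨆ q : ℚ, f (max t₀ (min (q : ℝ) t₁)))) := by
  obtain ⟨u, hu, hm, he⟩ := pt_sup hf ht.le
  rw [he]
  have hT : 0 < t₁ - t₀ := by linarith
  set a := (u - t₀) / (t₁ - t₀) with ha
  have ha0 : 0 ≤ a := div_nonneg (by linarith [hu.1]) hT.le
  have ha1 : a ≤ 1 := by
    rw [ha, div_le_one hT]
    linarith [hu.2]
  have hfl : Tendsto (fun M : ℕ => (⌊a * (M : ℝ)⌋₊ : ℝ) / (M : ℝ)) atTop (𝓝 a) :=
    (tendsto_nat_floor_mul_div_atTop ha0).comp tendsto_natCast_atTop_atTop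
  have hlow : Tendsto (fun M : ℕ => f (t₀ + (⌊a * (M : ℝ)⌋₊ : ℕ) * ((t₁ - t₀) / M))) atTop (𝓝 (f u)) := by
    have h1 : Tendsto (fun M : ℕ => t₀ + (⌊a * (M : ℝ)⌋₊ : ℝ) / (M : ℝ) * (t₁ - t₀)) atTop
        (𝓝 (t₀ + a * (t₁ - t₀))) := (hfl.mul_const _).const_add _
    have h2 : t₀ + a * (t₁ - t₀) = u := by
      rw [ha]
      field_simp
      ring
    rw [h2] at h1
    refine ((hf.tendsto u).comp h1).congr fun M => ?_
    simp only [Function.comp_apply]
    congr 2
    ring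
  refine tendsto_of_tendsto_of_tendsto_of_le_of_le hlow tendsto_const_nhds ?_ ?_
  · intro M
    refine pt_le_rmax (S := fun k : ℕ => f (t₀ + k * ((t₁ - t₀) / M))) ?_
    have h3 : a * (M : ℝ) ≤ M := by
      have : (0 : ℝ) ≤ M := Nat.cast_nonneg M
      nlinarith
    exact Nat.floor_le_of_le h3
  · intro M
    refine pt_rmax_le fun k hk => hm _ ?_
    have h4 : (k : ℝ) ≤ M := by exact_mod_cast hk
    rcases Nat.eq_zero_or_pos M with h0 | h0
    · subst h0
      simp [ht.le]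
    · have h5 : (0 : ℝ) < M := by exact_mod_cast h0
      have h6 : (0 : ℝ) ≤ k := Nat.cast_nonneg k
      have h7 : (k : ℝ) * ((t₁ - t₀) / M) = k / M * (t₁ - t₀) := by ring
      have h8 : (k : ℝ) / M ≤ 1 := by rwa [div_le_one h5]
      have h9 : (0 : ℝ) ≤ k / M := by positivity
      constructor
      · rw [h7]
        nlinarith
      · rw [h7]
        nlinarith


private theorem pt_space {κ s : ℝ} (hκ : 0 < κ) (hs : 0 < s) (h : κ * s < 1) (M n : ℕ) (hn : 1 ≤ n) :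
    ∃ (Ω' : Type) (_ : MeasurableSpace Ω') (P' : Measure Ω') (ξ : ℕ → Ω' → ℝ) (J : Ω' → ℝ),
      IsProbabilityMeasure P' ∧ (∀ i, Measurable (ξ i)) ∧ Measurable J ∧ (∀ i, P'.map (ξ i) = stepM κ s) ∧
      P'.map J = geoM κ s ∧ iIndepFun ξ P' ∧ IndepFun J (fun ω i => ξ i ω) P' ∧
      P'.map (fun ω => (J ω, fun i : Fin M => ∑ k ∈ Finset.range n, ξ (i * n + k) ω)) =
        (geoM κ s).prod (Measure.pi fun _ : Fin M => sumM κ s n) := by
  have := stepM_prob hκ hs h
  have := geoM_prob hκ hs h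
  have hsum : IsProbabilityMeasure (sumM κ s n) := by
    unfold sumM
    exact Measure.isProbabilityMeasure_map (Measurable.aemeasurable (by fun_prop))
  let P2 : Measure (ℕ → ℕ → ℝ) := Measure.infinitePi (fun _ : ℕ => Measure.infinitePi (fun _ : ℕ => stepM κ s))
  have : IsProbabilityMeasure P2 := by infer_instance
  let η : ℕ → (ℕ → ℕ → ℝ) → ℝ := fun m ω => ω (m / n) (m % n)
  have hηm : ∀ m, Measurable (η m) := fun m => by
    show Measurable fun ω : ℕ → ℕ → ℝ => ω (m / n) (m % n)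
    fun_prop
  have hun : iIndepFun (fun (p : ℕ × ℕ) (ω : ℕ → ℕ → ℝ) => ω p.1 p.2) P2 :=
    iIndepFun_uncurry_infinitePi' (fun _ _ => stepM κ s) (X := fun _ _ x => x) (fun _ _ => measurable_id)
  have hlaw : ∀ i k : ℕ, P2.map (fun ω => ω i k) = stepM κ s := by
    intro i k
    have e : (fun ω : ℕ → ℕ → ℝ => ω i k) = (fun u : ℕ → ℝ => u k) ∘ (fun ω : ℕ → ℕ → ℝ => ω i) := rfl
    rw [e, ← Measure.map_map (by fun_prop) (by fun_prop)]
    have h1 : P2.map (fun ω : ℕ → ℕ → ℝ => ω i) = Measure.infinitePi (fun _ : ℕ => stepM κ s) :=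
      Measure.infinitePi_map_eval (μ := fun _ : ℕ => Measure.infinitePi (fun _ : ℕ => stepM κ s)) i
    rw [h1]
    exact Measure.infinitePi_map_eval (μ := fun _ : ℕ => stepM κ s) k
  have hinj : Function.Injective fun m : ℕ => (m / n, m % n) := by
    intro a b hab
    simp only [Prod.mk.injEq] at hab
    rw [← Nat.div_add_mod' a n, ← Nat.div_add_mod' b n, hab.1, hab.2]
  have hηi : iIndepFun η P2 := hun.precomp hinj
  have hsnd : (Measure.prod (geoM κ s) P2).map Prod.snd = P2 := by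
    simp
  have hfst : (Measure.prod (geoM κ s) P2).map Prod.fst = geoM κ s := by
    simp
  refine ⟨ℝ × (ℕ → ℕ → ℝ), Prod.instMeasurableSpace, (geoM κ s).prod P2, fun m ω => η m ω.2, fun ω => ω.1,
    inferInstance, fun m => (hηm m).comp measurable_snd, measurable_fst, ?_, hfst, ?_, ?_, ?_⟩
  · intro i
    show Measure.map (η i ∘ Prod.snd) ((geoM κ s).prod P2) = stepM κ s
    rw [← Measure.map_map (hηm i) measurable_snd, hsnd]
    exact hlaw _ _
  · have hm2 : ∀ m, Measurable fun ω : ℝ × (ℕ → ℕ → ℝ) => η m ω.2 := fun m => (hηm m).comp measurable_snd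
    refine (iIndepFun_iff_map_fun_eq_infinitePi_map hm2).mpr ?_
    have e : (fun (ω : ℝ × (ℕ → ℕ → ℝ)) m => η m ω.2) = (fun ω m => η m ω) ∘ Prod.snd := rfl
    have e' : ∀ i, (geoM κ s |>.prod P2).map (fun ω : ℝ × (ℕ → ℕ → ℝ) => η i ω.2) = P2.map (η i) := by
      intro i
      have e : (fun ω : ℝ × (ℕ → ℕ → ℝ) => η i ω.2) = η i ∘ Prod.snd := rfl
      rw [e, ← Measure.map_map (hηm i) measurable_snd, hsnd]
    simp_rw [e']
    rw [e, ← Measure.map_map (measurable_pi_lambda _ hηm) measurable_snd, hsnd]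
    exact (iIndepFun_iff_map_fun_eq_infinitePi_map hηm).mp hηi
  · exact indepFun_prod (X := fun x : ℝ => x) (Y := fun ω i => η i ω) measurable_id (measurable_pi_lambda _ hηm)
  · have hb : ∀ (ω : ℕ → ℕ → ℝ) (i : Fin M), ∑ k ∈ Finset.range n, η (i * n + k) ω =
        ∑ k ∈ Finset.range n, ω i k := by
      intro ω i
      refine Finset.sum_congr rfl fun k hk => ?_
      rw [Finset.mem_range] at hk
      show ω ((i * n + k) / n) ((i * n + k) % n) = ω i k
      have h1 : ((i : ℕ) * n + k) / n = i := by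
        rw [mul_comm, Nat.mul_add_div (by omega), Nat.div_eq_of_lt hk, add_zero]
      have h2 : ((i : ℕ) * n + k) % n = k := by
        rw [mul_comm, Nat.mul_add_mod, Nat.mod_eq_of_lt hk]
      rw [h1, h2]
    have hG : Measurable fun ω : ℕ → ℕ → ℝ => fun i : Fin M => ∑ k ∈ Finset.range n, ω i k := by
      fun_prop
    have e : (fun ω : ℝ × (ℕ → ℕ → ℝ) => (ω.1, fun i : Fin M => ∑ k ∈ Finset.range n, η (i * n + k) ω.2)) =
        Prod.map id (fun ω : ℕ → ℕ → ℝ => fun i : Fin M => ∑ k ∈ Finset.range n, ω i k) := by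
      funext ω
      simp only [Prod.map, id]
      congr 1
      funext i
      exact hb ω.2 i
    rw [e, ← Measure.map_prod_map _ _ measurable_id hG, Measure.map_id]
    congr 1
    have hI : iIndepFun (fun (i : ℕ) (ω : ℕ → ℕ → ℝ) => ∑ k ∈ Finset.range n, ω i k) P2 :=
      iIndepFun_infinitePi (P := fun _ : ℕ => Measure.infinitePi (fun _ : ℕ => stepM κ s))
        (X := fun _ (u : ℕ → ℝ) => ∑ k ∈ Finset.range n, u k) (fun _ => by fun_prop)
    have hI' : iIndepFun (fun (i : Fin M) (ω : ℕ → ℕ → ℝ) => ∑ k ∈ Finset.range n, ω i k) P2 :=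
      hI.precomp (g := fun i : Fin M => (i : ℕ)) Fin.val_injective
    have hM' : ∀ i : Fin M, AEMeasurable (fun ω : ℕ → ℕ → ℝ => ∑ k ∈ Finset.range n, ω i k) P2 :=
      fun i => Measurable.aemeasurable (by fun_prop)
    rw [(iIndepFun_iff_map_fun_eq_pi_map hM').mp hI']
    congr 1
    funext i
    refine sumM_law (P := P2) (fun (k : ℕ) (ω : ℕ → ℕ → ℝ) => ω i k) (fun k => by fun_prop)
      (fun k => hlaw i k) ?_ n
    exact hun.precomp (g := fun k : ℕ => ((i : ℕ), k)) (fun a b hab => by simpa using hab)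

private theorem pt_rmax_meas {Ω' : Type*} [MeasurableSpace Ω'] {S : ℕ → Ω' → ℝ} (h : ∀ k, Measurable (S k)) (N : ℕ) :
    Measurable fun ω => rmax (fun k => S k ω) N := by
  induction N with
  | zero => exact h 0
  | succ N ih => exact ih.max (h (N + 1))

private theorem pt_FF_meas : Measurable fun p : ℝ × ℝ × ℝ => FF p.1 p.2.1 p.2.2 := by
  unfold FF
  fun_prop

private theorem pt_bad {Ω' : Type*} [MeasurableSpace Ω'] {P' : Measure Ω'} [IsProbabilityMeasure P'] {κ s : ℝ}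
    (hκ : 0 < κ) (hs : 0 < s) (h : κ * s < 1) {ξ : ℕ → Ω' → ℝ} (hm : ∀ i, Measurable (ξ i))
    (hl : ∀ i, P'.map (ξ i) = stepM κ s) (hi : iIndepFun ξ P') (M n : ℕ) (τ ε : ℝ) (hτ : 0 < τ)
    (hn : n * s ^ 2 ≤ τ) (hε : 0 < ε) (hsm : 2 * Real.exp (-(3 * ε ^ 2) / (8 * τ) + κ * ε / 2) ≤ 1 / 2) :
    P' (⋃ i ∈ Finset.range M, {ω | ∃ k ≤ n, 2 * ε < |∑ l ∈ Finset.range k, ξ (i * n + l) ω|}) ≤
      ENNReal.ofReal (M * (4 * Real.exp (-(3 * ε ^ 2) / (8 * τ) + κ * ε / 2))) := by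
  refine (measure_biUnion_finset_le _ _).trans ?_
  have h1 : ∀ i ∈ Finset.range M, P' {ω | ∃ k ≤ n, 2 * ε < |∑ l ∈ Finset.range k, ξ (i * n + l) ω|} ≤
      ENNReal.ofReal (4 * Real.exp (-(3 * ε ^ 2) / (8 * τ) + κ * ε / 2)) := by
    intro i _
    exact walk_osc hκ hs h (fun l => ξ (i * n + l)) (fun l => hm _) (fun l => hl _)
      (hi.precomp (g := fun l => i * n + l) (fun a b hab => by simpa using hab)) n τ ε hτ hn hε hsm
  refine (Finset.sum_le_sum h1).trans ?_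
  rw [Finset.sum_const, Finset.card_range, ENNReal.ofReal_mul (Nat.cast_nonneg M), ENNReal.ofReal_natCast,
    nsmul_eq_mul]

private theorem pt_compare {κ s : ℝ} (hκ : 0 < κ) (hs : 0 < s) (h : κ * s < 1) {M n : ℕ} (hn : 1 ≤ n) (hM : 1 ≤ M)
    {T : ℝ} (hT : 0 < T) (hns : (M : ℝ) * n * s ^ 2 = 2 * T) {g : ℝ × ℝ → ℝ} (hg : Continuous g) {B C L : ℝ}
    (hgB : ∀ p, |g p| ≤ B)
    (hgC : ∀ p q, |g p - g q| ≤ C) (hgL : ∀ p q, |g p - g q| ≤ L * dist p q) (hL : 0 ≤ L) {ε : ℝ} (hε : 0 < ε)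
    (hsm : 2 * Real.exp (-(3 * ε ^ 2) / (8 * (2 * T / M)) + κ * ε / 2) ≤ 1 / 2) :
    |∫ p, g p ∂((sumM κ s (M * n)).prod (geoM κ s)) -
      ∫ p, g (FM M p) ∂((geoM κ s).prod (Measure.pi fun _ : Fin M => sumM κ s n))| ≤
    4 * L * ε + C * (M * (4 * Real.exp (-(3 * ε ^ 2) / (8 * (2 * T / M)) + κ * ε / 2))) := by
  obtain ⟨Ω', mΩ', P', ξ, J, hP, hm, hJ, hl, hJl, hi, hJi, hlaw⟩ := pt_space hκ hs h M n hn
  have hM0 : (0 : ℝ) < M := by exact_mod_cast hM
  have hC : 0 ≤ C := (abs_nonneg _).trans (hgC 0 0)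
  have hSm : ∀ k, Measurable fun ω => ∑ l ∈ Finset.range k, ξ l ω := fun k =>
    Finset.measurable_fun_sum _ fun l _ => hm l
  -- first integral
  have m1 : Measurable fun ω => FF (J ω) (rmax (fun k => ∑ l ∈ Finset.range k, ξ l ω) (M * n))
      (∑ l ∈ Finset.range (M * n), ξ l ω) :=
    pt_FF_meas.comp (hJ.prodMk ((pt_rmax_meas hSm (M * n)).prodMk (hSm (M * n))))
  have m2 : Measurable fun ω => FF (J ω) (rmax (fun k => ∑ l ∈ Finset.range (k * n), ξ l ω) M)
      (∑ l ∈ Finset.range (M * n), ξ l ω) :=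
    pt_FF_meas.comp (hJ.prodMk ((pt_rmax_meas (fun k => hSm (k * n)) M).prodMk (hSm (M * n))))
  have e1 : ∫ p, g p ∂((sumM κ s (M * n)).prod (geoM κ s)) =
      ∫ ω, g (FF (J ω) (rmax (fun k => ∑ l ∈ Finset.range k, ξ l ω) (M * n))
        (∑ l ∈ Finset.range (M * n), ξ l ω)) ∂P' := by
    rw [← geo_walk hκ hs h ξ J hm hJ hl hJl hi hJi (M * n)]
    exact integral_map m1.aemeasurable hg.aestronglyMeasurable
  have e2 : ∫ p, g (FM M p) ∂((geoM κ s).prod (Measure.pi fun _ : Fin M => sumM κ s n)) =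
      ∫ ω, g (FF (J ω) (rmax (fun k => ∑ l ∈ Finset.range (k * n), ξ l ω) M)
        (∑ l ∈ Finset.range (M * n), ξ l ω)) ∂P' := by
    rw [← hlaw, integral_map]
    · refine integral_congr_ae (Filter.Eventually.of_forall fun ω => ?_)
      simp only
      rw [pt_FM_walk (x := fun l => ξ l ω)]
    · refine (hJ.prodMk (measurable_pi_lambda _ fun i => ?_)).aemeasurable
      exact Finset.measurable_fun_sum _ fun k _ => hm _
    · exact (hg.comp (pt_FM_cont M)).aestronglyMeasurable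
  rw [e1, e2]
  set bad : Set Ω' := ⋃ i ∈ Finset.range M, {ω | ∃ k ≤ n, 2 * ε < |∑ l ∈ Finset.range k, ξ (i * n + l) ω|}
    with hbad
  have hbm : MeasurableSet bad := by
    refine MeasurableSet.biUnion (Finset.countable_toSet _) fun i _ => ?_
    have : {ω | ∃ k ≤ n, 2 * ε < |∑ l ∈ Finset.range k, ξ (i * n + l) ω|} =
        ⋃ k ∈ Finset.range (n + 1), {ω | 2 * ε < |∑ l ∈ Finset.range k, ξ (i * n + l) ω|} := by
      ext ω
      simp
    rw [this]
    refine MeasurableSet.biUnion (Finset.countable_toSet _) fun k _ => ?_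
    exact measurableSet_lt measurable_const (Finset.measurable_fun_sum _ fun l _ => hm _).abs
  have hbP : P' bad ≤ ENNReal.ofReal (M * (4 * Real.exp (-(3 * ε ^ 2) / (8 * (2 * T / M)) + κ * ε / 2))) := by
    refine pt_bad hκ hs h hm hl hi M n (2 * T / M) ε (by positivity) ?_ hε hsm
    rw [le_div_iff₀ hM0, ← hns]
    exact le_of_eq (by ring)
  have i1 : Integrable (fun ω => g (FF (J ω) (rmax (fun k => ∑ l ∈ Finset.range k, ξ l ω) (M * n))
        (∑ l ∈ Finset.range (M * n), ξ l ω))) P' := by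
    refine Integrable.of_bound (hg.measurable.comp m1).aestronglyMeasurable B ?_
    exact Filter.Eventually.of_forall fun ω => hgB _
  have i2 : Integrable (fun ω => g (FF (J ω) (rmax (fun k => ∑ l ∈ Finset.range (k * n), ξ l ω) M)
        (∑ l ∈ Finset.range (M * n), ξ l ω))) P' := by
    refine Integrable.of_bound (hg.measurable.comp m2).aestronglyMeasurable B ?_
    exact Filter.Eventually.of_forall fun ω => hgB _
  rw [← integral_sub i1 i2]
  have hpt : ∀ ω, ‖g (FF (J ω) (rmax (fun k => ∑ l ∈ Finset.range k, ξ l ω) (M * n))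
        (∑ l ∈ Finset.range (M * n), ξ l ω)) - g (FF (J ω) (rmax (fun k => ∑ l ∈ Finset.range (k * n), ξ l ω) M)
        (∑ l ∈ Finset.range (M * n), ξ l ω))‖ ≤ 4 * L * ε + bad.indicator (fun _ => C) ω := by
    intro ω
    rw [Real.norm_eq_abs]
    by_cases hω : ω ∈ bad
    · rw [Set.indicator_of_mem hω]
      have := hgC (FF (J ω) (rmax (fun k => ∑ l ∈ Finset.range k, ξ l ω) (M * n))
        (∑ l ∈ Finset.range (M * n), ξ l ω)) (FF (J ω) (rmax (fun k => ∑ l ∈ Finset.range (k * n), ξ l ω) M)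
        (∑ l ∈ Finset.range (M * n), ξ l ω))
      have h4 : 0 ≤ 4 * L * ε := by positivity
      linarith
    · rw [Set.indicator_of_notMem hω, add_zero]
      refine (hgL _ _).trans ?_
      have h5 : ∀ i < M, ∀ k ≤ n, |∑ l ∈ Finset.range k, ξ (i * n + l) ω| ≤ 2 * ε := by
        intro i hi k hk
        by_contra hcon
        push Not at hcon
        apply hω
        rw [hbad]
        simp only [Set.mem_iUnion, Finset.mem_range, exists_prop]
        exact ⟨i, hi, k, hk, hcon⟩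
      have h6 := pt_osc (M := M) hn (x := fun l => ξ l ω) (e := 2 * ε) (by positivity) h5
      have h7 := pt_FF_dist (J ω) (rmax (fun k => ∑ l ∈ Finset.range k, ξ l ω) (M * n))
        (rmax (fun k => ∑ l ∈ Finset.range (k * n), ξ l ω) M) (∑ l ∈ Finset.range (M * n), ξ l ω)
      have h8 : dist (FF (J ω) (rmax (fun k => ∑ l ∈ Finset.range k, ξ l ω) (M * n))
        (∑ l ∈ Finset.range (M * n), ξ l ω)) (FF (J ω) (rmax (fun k => ∑ l ∈ Finset.range (k * n), ξ l ω) M)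
        (∑ l ∈ Finset.range (M * n), ξ l ω)) ≤ 4 * ε := by linarith
      have h9 := mul_le_mul_of_nonneg_left h8 hL
      linarith
  have hint : Integrable (fun ω => 4 * L * ε + bad.indicator (fun _ => C) ω) P' :=
    (integrable_const _).add ((integrable_const C).indicator hbm)
  have hI : ∫ ω, (4 * L * ε + bad.indicator (fun _ => C) ω) ∂P' = 4 * L * ε + C * P'.real bad := by
    rw [integral_add (integrable_const _) ((integrable_const C).indicator hbm), integral_const,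
      integral_indicator_const _ hbm]
    simp [mul_comm]
  rw [← Real.norm_eq_abs]
  refine (norm_integral_le_of_norm_le hint (Filter.Eventually.of_forall hpt)).trans ?_
  rw [hI]
  have hr : P'.real bad ≤ M * (4 * Real.exp (-(3 * ε ^ 2) / (8 * (2 * T / M)) + κ * ε / 2)) := by
    rw [measureReal_def]
    exact ENNReal.toReal_le_of_le_ofReal (by positivity) hbP
  have := mul_le_mul_of_nonneg_left hr hC
  linarith
private theorem sumM_prob {κ s : ℝ} (hκ : 0 < κ) (hs : 0 < s) (h : κ * s < 1) (n : ℕ) :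
    IsProbabilityMeasure (sumM κ s n) := by
  have := stepM_prob hκ hs h
  unfold sumM
  exact Measure.isProbabilityMeasure_map (Measurable.aemeasurable (by fun_prop))

private theorem pt_limit {κ T : ℝ} (hκ : 0 < κ) (hT : 0 < T) {M : ℕ} (hM : 1 ≤ M) {g : ℝ × ℝ → ℝ}
    (hg : Continuous g) {B C L : ℝ} (hgB : ∀ p, |g p| ≤ B)
    (hgC : ∀ p q, |g p - g q| ≤ C) (hgL : ∀ p q, |g p - g q| ≤ L * dist p q) (hL : 0 ≤ L) {ε : ℝ} (hε : 0 < ε)
    (hsm : 2 * Real.exp (-(3 * ε ^ 2) / (8 * (2 * T / M)) + κ * ε / 2) ≤ 1 / 2) :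
    |∫ p, g p ∂((gaussianReal (2 * κ * T) (Real.toNNReal (2 * T))).prod (expMeasure (2 * κ))) -
      ∫ p, g (FM M p) ∂((expMeasure (2 * κ)).prod (Measure.pi fun _ : Fin M =>
        gaussianReal (2 * κ * (T / M)) (Real.toNNReal (2 * (T / M)))))| ≤
    4 * L * ε + C * (M * (4 * Real.exp (-(3 * ε ^ 2) / (8 * (2 * T / M)) + κ * ε / 2))) := by
  have hM0 : (0 : ℝ) < M := by exact_mod_cast hM
  have hM1 : (1 : ℝ) ≤ M := by exact_mod_cast hM
  obtain ⟨c0, hc0⟩ : ∃ c0 : ℕ, 2 * T * κ ^ 2 < c0 := exists_nat_gt _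
  have hc0' : (0 : ℝ) < c0 := lt_of_le_of_lt (by positivity) hc0
  have hc1 : 1 ≤ c0 := by
    have : 0 < c0 := by exact_mod_cast hc0'
    omega
  set n : ℕ → ℕ := fun j => c0 + j with hn
  set s : ℕ → ℝ := fun j => √(2 * T / (M * (n j : ℝ))) with hs
  have hnj : ∀ j, (c0 : ℝ) ≤ n j := fun j => by
    rw [hn]
    push_cast
    have : (0 : ℝ) ≤ j := Nat.cast_nonneg j
    linarith
  have hn1 : ∀ j, 1 ≤ n j := fun j => by
    simp only [hn]
    omega
  have hn0 : ∀ j, (0 : ℝ) < n j := fun j => lt_of_lt_of_le hc0' (hnj j)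
  have hs0 : ∀ j, 0 < s j := fun j => by
    have := hn0 j
    exact Real.sqrt_pos.mpr (by positivity)
  have hs2 : ∀ j, s j ^ 2 = 2 * T / (M * (n j : ℝ)) := fun j => by
    have := hn0 j
    exact Real.sq_sqrt (by positivity)
  have hκs : ∀ j, κ * s j < 1 := fun j => by
    have h0 := hn0 j
    have h1 : (κ * s j) ^ 2 < 1 := by
      rw [mul_pow, hs2]
      rw [← mul_div_assoc, div_lt_one (by positivity)]
      have h2 := hnj j
      nlinarith
    have h2 : 0 < κ * s j := mul_pos hκ (hs0 j)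
    nlinarith
  have hnt : Tendsto (fun j => (n j : ℝ)) atTop atTop := by
    have h1 : Tendsto n atTop atTop := by
      simp only [hn]
      exact tendsto_atTop_mono (fun j => Nat.le_add_left j c0) tendsto_id
    exact tendsto_natCast_atTop_atTop.comp h1
  have hst : Tendsto s atTop (𝓝 0) := by
    have h1 : Tendsto (fun j => 2 * T / (M * (n j : ℝ))) atTop (𝓝 0) :=
      Tendsto.div_atTop tendsto_const_nhds (hnt.const_mul_atTop hM0)
    have h2 := (Real.continuous_sqrt.tendsto 0).comp h1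
    rw [Real.sqrt_zero] at h2
    exact h2
  have hexp : IsProbabilityMeasure (expMeasure (2 * κ)) := isProbabilityMeasure_expMeasure (by positivity)
  let μg : ℕ → ProbabilityMeasure ℝ := fun j => ⟨geoM κ (s j), geoM_prob hκ (hs0 j) (hκs j)⟩
  let μe : ProbabilityMeasure ℝ := ⟨expMeasure (2 * κ), hexp⟩
  let μ1 : ℕ → ProbabilityMeasure ℝ := fun j => ⟨sumM κ (s j) (n j), sumM_prob hκ (hs0 j) (hκs j) _⟩
  let ν1 : ProbabilityMeasure ℝ := ⟨gaussianReal (2 * κ * (T / M)) (Real.toNNReal (2 * (T / M))), inferInstance⟩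
  let μ2 : ℕ → ProbabilityMeasure ℝ := fun j => ⟨sumM κ (s j) (M * n j), sumM_prob hκ (hs0 j) (hκs j) _⟩
  let ν2 : ProbabilityMeasure ℝ := ⟨gaussianReal (2 * κ * T) (Real.toNNReal (2 * T)), inferInstance⟩
  have tg : Tendsto μg atTop (𝓝 μe) := geoM_tendsto hκ s hs0 hκs hst μg (fun _ => rfl) μe rfl
  have t1 : Tendsto μ1 atTop (𝓝 ν1) := by
    refine sumM_tendsto hκ (show 0 < T / M by positivity) s n hs0 hκs hst ?_ μ1 (fun _ => rfl) ν1 rfl
    refine tendsto_const_nhds.congr fun j => ?_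
    have := hn0 j
    rw [hs2]
    field_simp
  have t2 : Tendsto μ2 atTop (𝓝 ν2) := by
    refine sumM_tendsto hκ hT s (fun j => M * n j) hs0 hκs hst ?_ μ2 (fun _ => rfl) ν2 rfl
    refine tendsto_const_nhds.congr fun j => ?_
    have := hn0 j
    rw [hs2]
    push_cast
    field_simp
  have tA : Tendsto (fun j => (μ2 j).prod (μg j)) atTop (𝓝 (ν2.prod μe)) :=
    (ProbabilityMeasure.continuous_prod.tendsto (ν2, μe)).comp (t2.prodMk_nhds tg)
  have tP : Tendsto (fun j => ProbabilityMeasure.pi (fun _ : Fin M => μ1 j)) atTop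
      (𝓝 (ProbabilityMeasure.pi (fun _ : Fin M => ν1))) :=
    (ProbabilityMeasure.continuous_pi.tendsto (fun _ : Fin M => ν1)).comp (tendsto_pi_nhds.mpr fun _ => t1)
  have tB : Tendsto (fun j => (μg j).prod (ProbabilityMeasure.pi (fun _ : Fin M => μ1 j))) atTop
      (𝓝 (μe.prod (ProbabilityMeasure.pi (fun _ : Fin M => ν1)))) :=
    (ProbabilityMeasure.continuous_prod.tendsto (μe, ProbabilityMeasure.pi (fun _ : Fin M => ν1))).comp
      (tg.prodMk_nhds tP)
  let gA : BoundedContinuousFunction (ℝ × ℝ) ℝ := BoundedContinuousFunction.ofNormedAddCommGroup g hg B hgB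
  let gB : BoundedContinuousFunction (ℝ × (Fin M → ℝ)) ℝ :=
    BoundedContinuousFunction.ofNormedAddCommGroup (fun p => g (FM M p)) (hg.comp (pt_FM_cont M)) B
      (fun p => hgB _)
  have iA := (ProbabilityMeasure.tendsto_iff_forall_integral_tendsto.mp tA) gA
  have iB := (ProbabilityMeasure.tendsto_iff_forall_integral_tendsto.mp tB) gB
  refine le_of_tendsto (iA.sub iB).abs (Filter.Eventually.of_forall fun j => ?_)
  refine pt_compare hκ (hs0 j) (hκs j) (hn1 j) hM hT ?_ hg hgB hgC hgL hL hε hsm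
  have := hn0 j
  rw [hs2]
  field_simp
/-- grid point -/
private noncomputable def gp (t₀ t₁ : ℝ) (M k : ℕ) : ℝ := t₀ + k * ((t₁ - t₀) / M)

private theorem pt_bmlaw {Ω : Type*} [MeasurableSpace Ω] {P : Measure Ω} [IsProbabilityMeasure P] {X : ℝ → Ω → ℝ}
    {κ : ℝ} (hX : IsBM P X 2 (2 * κ)) {t₀ t₁ : ℝ} (ht : t₀ < t₁) {J : Ω → ℝ} (hJ : Measurable J)
    (hJl : P.map J = expMeasure (2 * κ)) (hi : IndepFun J (fun ω => fut (fun s => X s ω) t₀) P) (M : ℕ) :
    P.map (fun ω => (J ω, fun i : Fin M => X (gp t₀ t₁ M (i + 1)) ω - X (gp t₀ t₁ M i) ω)) =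
      (expMeasure (2 * κ)).prod (Measure.pi fun _ : Fin M =>
        gaussianReal (2 * κ * ((t₁ - t₀) / M)) (Real.toNNReal (2 * ((t₁ - t₀) / M)))) := by
  have hT : 0 < t₁ - t₀ := by linarith
  have hδ : 0 ≤ (t₁ - t₀) / (M : ℝ) := div_nonneg hT.le (Nat.cast_nonneg M)
  have hmono : Monotone (gp t₀ t₁ M) := by
    intro a b hab
    have h1 : (a : ℝ) ≤ b := by exact_mod_cast hab
    unfold gp
    nlinarith
  have hge : ∀ k, t₀ ≤ gp t₀ t₁ M k := fun k => by
    unfold gp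
    have : 0 ≤ (k : ℝ) * ((t₁ - t₀) / M) := mul_nonneg (Nat.cast_nonneg k) hδ
    linarith
  have hstep : ∀ k : ℕ, gp t₀ t₁ M (k + 1) - gp t₀ t₁ M k = (t₁ - t₀) / M := fun k => by
    unfold gp
    push_cast
    ring
  have hmeas : ∀ i : ℕ, Measurable fun ω => X (gp t₀ t₁ M (i + 1)) ω - X (gp t₀ t₁ M i) ω := fun i =>
    (hX.meas _).sub (hX.meas _)
  have hG : Measurable fun (φ : ℝ → ℝ) (i : Fin M) => φ (gp t₀ t₁ M (i + 1)) - φ (gp t₀ t₁ M i) := by
    fun_prop
  have hcomp := hi.comp measurable_id hG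
  have e1 : ((fun (φ : ℝ → ℝ) (i : Fin M) => φ (gp t₀ t₁ M (i + 1)) - φ (gp t₀ t₁ M i)) ∘
      fun ω => fut (fun s => X s ω) t₀) =
      fun ω (i : Fin M) => X (gp t₀ t₁ M (i + 1)) ω - X (gp t₀ t₁ M i) ω := by
    funext ω i
    simp only [Function.comp_apply, fut]
    rw [max_eq_left (hge _), max_eq_left (hge _)]
    ring
  rw [e1, Function.id_comp] at hcomp
  have hm2 : Measurable fun ω (i : Fin M) => X (gp t₀ t₁ M (i + 1)) ω - X (gp t₀ t₁ M i) ω :=
    measurable_pi_lambda _ fun i => hmeas i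
  rw [(indepFun_iff_map_prod_eq_prod_map_map hJ.aemeasurable hm2.aemeasurable).mp hcomp, hJl]
  congr 1
  have hI : iIndepFun (fun (i : Fin M) ω => X (gp t₀ t₁ M (i + 1)) ω - X (gp t₀ t₁ M i) ω) P :=
    (hX.indep (gp t₀ t₁ M) hmono).precomp (g := fun i : Fin M => (i : ℕ)) Fin.val_injective
  have hm3 : ∀ i : Fin M, AEMeasurable (fun ω => X (gp t₀ t₁ M (i + 1)) ω - X (gp t₀ t₁ M i) ω) P :=
    fun i => (hmeas i).aemeasurable
  rw [(iIndepFun_iff_map_fun_eq_pi_map hm3).mp hI]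
  congr 1
  funext i
  have h4 := hX.gauss (gp t₀ t₁ M i) (gp t₀ t₁ M (i + 1)) (hmono (Nat.le_succ (i : ℕ)))
  rw [hstep] at h4
  exact h4

private theorem pt_conv {Ω : Type*} [MeasurableSpace Ω] {P : Measure Ω} [IsProbabilityMeasure P] {X : ℝ → Ω → ℝ}
    {κ : ℝ} (hX : IsBM P X 2 (2 * κ)) {t₀ t₁ : ℝ} (ht : t₀ < t₁) {J : Ω → ℝ} (hJ : Measurable J)
    {g : ℝ × ℝ → ℝ} (hg : Continuous g) {B : ℝ} (hgB : ∀ p, |g p| ≤ B) :
    Tendsto (fun M : ℕ => ∫ ω, g (FM M (J ω, fun i : Fin M => X (gp t₀ t₁ M (i + 1)) ω - X (gp t₀ t₁ M i) ω)) ∂P)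
      atTop (𝓝 (∫ ω, g (FF (J ω) (⨆ q : ℚ, (X (max t₀ (min (q : ℝ) t₁)) ω - X t₀ ω)) (X t₁ ω - X t₀ ω)) ∂P)) := by
  refine tendsto_integral_of_dominated_convergence (fun _ => B) ?_ (integrable_const _) ?_ ?_
  · intro M
    have h1 : Measurable fun ω => (J ω, fun i : Fin M => X (gp t₀ t₁ M (i + 1)) ω - X (gp t₀ t₁ M i) ω) :=
      hJ.prodMk (measurable_pi_lambda _ fun i => (hX.meas _).sub (hX.meas _))
    exact ((hg.comp (pt_FM_cont M)).measurable.comp h1).aestronglyMeasurable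
  · intro M
    exact Filter.Eventually.of_forall fun ω => hgB _
  · filter_upwards [hX.cont] with ω hω
    have h1 : ∀ M : ℕ, FM M (J ω, fun i : Fin M => X (gp t₀ t₁ M (i + 1)) ω - X (gp t₀ t₁ M i) ω) =
        FF (J ω) (rmax (fun k => X (gp t₀ t₁ M k) ω - X t₀ ω) M) (X (gp t₀ t₁ M M) ω - X t₀ ω) := by
      intro M
      refine pt_FM_eq (R := fun k => X (gp t₀ t₁ M k) ω - X t₀ ω) ?_ ?_
      · simp [gp]
      · intro i
        ring
    have h2 : Tendsto (fun M : ℕ => rmax (fun k => X (gp t₀ t₁ M k) ω - X t₀ ω) M) atTop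
        (𝓝 (⨆ q : ℚ, (X (max t₀ (min (q : ℝ) t₁)) ω - X t₀ ω))) :=
      pt_grid (f := fun t => X t ω - X t₀ ω) (hω.sub continuous_const) ht
    have h3 : Tendsto (fun M : ℕ => X (gp t₀ t₁ M M) ω - X t₀ ω) atTop (𝓝 (X t₁ ω - X t₀ ω)) := by
      refine tendsto_const_nhds.congr' ?_
      filter_upwards [eventually_ge_atTop 1] with M hM
      have hM0 : (0 : ℝ) < M := by exact_mod_cast hM
      have e : gp t₀ t₁ M M = t₁ := by
        unfold gp
        field_simp
        ring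
      rw [e]
    simp_rw [h1]
    exact (hg.tendsto _).comp ((pt_FF_cont.tendsto (J ω, _, _)).comp
      (tendsto_const_nhds.prodMk_nhds (h2.prodMk_nhds h3)))

private theorem pt_tail {κ T C ε : ℝ} (hT : 0 < T) (hε : 0 < ε) :
    Tendsto (fun M : ℕ => C * (M * (4 * Real.exp (-(3 * ε ^ 2) / (8 * (2 * T / M)) + κ * ε / 2)))) atTop (𝓝 0) ∧
    ∀ᶠ M : ℕ in atTop, 2 * Real.exp (-(3 * ε ^ 2) / (8 * (2 * T / M)) + κ * ε / 2) ≤ 1 / 2 := by
  set b : ℝ := 3 * ε ^ 2 / (16 * T) with hb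
  have hb0 : 0 < b := by positivity
  have e : ∀ M : ℕ, 1 ≤ M → Real.exp (-(3 * ε ^ 2) / (8 * (2 * T / M)) + κ * ε / 2) =
      Real.exp (κ * ε / 2) * Real.exp (-(b * M)) := by
    intro M hM
    have hM0 : (0 : ℝ) < M := by exact_mod_cast hM
    rw [← Real.exp_add]
    congr 1
    rw [hb]
    field_simp
    ring
  have hbM : Tendsto (fun M : ℕ => b * (M : ℝ)) atTop atTop :=
    tendsto_natCast_atTop_atTop.const_mul_atTop hb0
  constructor
  · have h1 := (Real.tendsto_pow_mul_exp_neg_atTop_nhds_zero 1).comp hbM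
    have h2 := h1.const_mul (C * 4 * Real.exp (κ * ε / 2) / b)
    rw [mul_zero] at h2
    refine h2.congr' ?_
    filter_upwards [eventually_ge_atTop 1] with M hM
    rw [e M hM]
    simp only [Function.comp_apply, pow_one]
    field_simp
  · have h1 := Real.tendsto_exp_neg_atTop_nhds_zero.comp hbM
    have h2 := h1.const_mul (2 * Real.exp (κ * ε / 2))
    rw [mul_zero] at h2
    have h3 := h2.eventually_le_const (show (0 : ℝ) < 1 / 2 by norm_num)
    filter_upwards [h3, eventually_ge_atTop 1] with M hM1 hM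
    rw [e M hM]
    simp only [Function.comp_apply] at hM1
    linarith

private theorem pt_main {Ω : Type*} [MeasurableSpace Ω] {P : Measure Ω} [IsProbabilityMeasure P] {X : ℝ → Ω → ℝ}
    {κ : ℝ} (hκ : 0 < κ) (hX : IsBM P X 2 (2 * κ)) {t₀ t₁ : ℝ} (ht : t₀ < t₁) {J : Ω → ℝ} (hJ : Measurable J)
    (hJl : P.map J = expMeasure (2 * κ)) (hi : IndepFun J (fun ω => fut (fun s => X s ω) t₀) P)
    {g : ℝ × ℝ → ℝ} (hg : Continuous g) {B C L : ℝ} (hgB : ∀ p, |g p| ≤ B)
    (hgC : ∀ p q, |g p - g q| ≤ C) (hgL : ∀ p q, |g p - g q| ≤ L * dist p q) (hL : 0 ≤ L) :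
    ∫ ω, g (FF (J ω) (⨆ q : ℚ, (X (max t₀ (min (q : ℝ) t₁)) ω - X t₀ ω)) (X t₁ ω - X t₀ ω)) ∂P =
      ∫ p, g p ∂((gaussianReal (2 * κ * (t₁ - t₀)) (Real.toNNReal (2 * (t₁ - t₀)))).prod (expMeasure (2 * κ))) := by
  have hT : 0 < t₁ - t₀ := by linarith
  have hconv := pt_conv (κ := κ) hX ht hJ hg hgB
  set a := ∫ ω, g (FF (J ω) (⨆ q : ℚ, (X (max t₀ (min (q : ℝ) t₁)) ω - X t₀ ω)) (X t₁ ω - X t₀ ω)) ∂P with ha
  set c := ∫ p, g p ∂((gaussianReal (2 * κ * (t₁ - t₀)) (Real.toNNReal (2 * (t₁ - t₀)))).prod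
    (expMeasure (2 * κ))) with hc
  have key : ∀ ε : ℝ, 0 < ε → |c - a| ≤ 4 * L * ε := by
    intro ε hε
    obtain ⟨t1, t2⟩ := pt_tail (κ := κ) (C := C) hT hε
    have h1 := (hconv.const_sub c).abs
    have h2 := t1.const_add (4 * L * ε)
    rw [add_zero] at h2
    refine le_of_tendsto_of_tendsto h1 h2 ?_
    filter_upwards [t2, eventually_ge_atTop 1] with M hM1 hM
    have h3 := pt_limit hκ hT hM hg hgB hgC hgL hL hε hM1
    rw [← pt_bmlaw hX ht hJ hJl hi M] at h3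
    rw [integral_map] at h3
    · exact h3
    · exact (hJ.prodMk (measurable_pi_lambda _ fun i => (hX.meas _).sub (hX.meas _))).aemeasurable
    · exact (hg.comp (pt_FM_cont M)).aestronglyMeasurable
  have h0 : |c - a| ≤ 0 := by
    refine le_of_forall_pos_le_add fun δ hδ => ?_
    have h1 := key (δ / (4 * L + 1)) (by positivity)
    have h2 : 4 * L * (δ / (4 * L + 1)) ≤ δ := by
      rw [← mul_div_assoc, div_le_iff₀ (by positivity)]
      nlinarith
    linarith
  have h1 : c - a = 0 := abs_eq_zero.mp (le_antisymm h0 (abs_nonneg _))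
  linarith

theorem pit_interval {Ω : Type*} [MeasurableSpace Ω] {P : Measure Ω} [IsProbabilityMeasure P] {X : ℝ → Ω → ℝ} {κ : ℝ}
    (hκ : 0 < κ) (hX : IsBM P X 2 (2 * κ)) (t₀ t₁ : ℝ) (ht : t₀ ≤ t₁) (J : Ω → ℝ) (hJ : Measurable J)
    (hJl : P.map J = expMeasure (2 * κ)) (hi : IndepFun J (fun ω => fut (fun s => X s ω) t₀) P) :
    P.map (fun ω =>
      (2 * (max (J ω) (⨆ q : ℚ, (X (max t₀ (min (q : ℝ) t₁)) ω - X t₀ ω)) - J ω) - (X t₁ ω - X t₀ ω),
        max (J ω) (⨆ q : ℚ, (X (max t₀ (min (q : ℝ) t₁)) ω - X t₀ ω)) - (X t₁ ω - X t₀ ω))) =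
    (gaussianReal (2 * κ * (t₁ - t₀)) (Real.toNNReal (2 * (t₁ - t₀)))).prod (expMeasure (2 * κ)) := by
  rcases ht.eq_or_lt with heq | hlt
  · subst heq
    have hJ0 : ∀ᵐ ω ∂P, 0 ≤ J ω := by
      have h1 : P.map J (Set.Iio 0) = 0 := by
        rw [hJl]
        show (volume.withDensity (gammaPDF 1 (2 * κ))) (Set.Iio 0) = 0
        rw [withDensity_apply _ measurableSet_Iio]
        exact lintegral_gammaPDF_of_nonpos le_rfl
      rw [Measure.map_apply hJ measurableSet_Iio] at h1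
      rw [ae_iff]
      refine measure_mono_null ?_ h1
      intro ω hω
      simpa using hω
    have e : (fun ω => (2 * (max (J ω) (⨆ q : ℚ, (X (max t₀ (min (q : ℝ) t₀)) ω - X t₀ ω)) - J ω) -
        (X t₀ ω - X t₀ ω), max (J ω) (⨆ q : ℚ, (X (max t₀ (min (q : ℝ) t₀)) ω - X t₀ ω)) -
        (X t₀ ω - X t₀ ω))) =ᵐ[P] (Prod.mk (0 : ℝ)) ∘ J := by
      filter_upwards [hJ0] with ω hω
      have h2 : ∀ q : ℚ, max t₀ (min (q : ℝ) t₀) = t₀ := fun q => max_eq_left (min_le_right _ _)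
      simp only [h2, sub_self, ciSup_const, max_eq_left hω, mul_zero, sub_zero, Function.comp_apply]
    rw [Measure.map_congr e, ← Measure.map_map measurable_prodMk_left hJ, hJl]
    have hexp : IsProbabilityMeasure (expMeasure (2 * κ)) := isProbabilityMeasure_expMeasure (by positivity)
    simp [Measure.dirac_prod]
  · have hexp : IsProbabilityMeasure (expMeasure (2 * κ)) := isProbabilityMeasure_expMeasure (by positivity)
    have hmeas : Measurable fun ω =>
        FF (J ω) (⨆ q : ℚ, (X (max t₀ (min (q : ℝ) t₁)) ω - X t₀ ω)) (X t₁ ω - X t₀ ω) :=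
      pt_FF_meas.comp (hJ.prodMk ((Measurable.iSup fun q : ℚ => (hX.meas _).sub (hX.meas _)).prodMk
        ((hX.meas _).sub (hX.meas _))))
    show P.map (fun ω => FF (J ω) (⨆ q : ℚ, (X (max t₀ (min (q : ℝ) t₁)) ω - X t₀ ω)) (X t₁ ω - X t₀ ω)) = _
    have hpm : IsProbabilityMeasure (P.map (fun ω => FF (J ω) (⨆ q : ℚ, (X (max t₀ (min (q : ℝ) t₁)) ω - X t₀ ω))
        (X t₁ ω - X t₀ ω))) := Measure.isProbabilityMeasure_map hmeas.aemeasurable
    let μ : ProbabilityMeasure (ℝ × ℝ) := ⟨P.map (fun ω => FF (J ω)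
      (⨆ q : ℚ, (X (max t₀ (min (q : ℝ) t₁)) ω - X t₀ ω)) (X t₁ ω - X t₀ ω)), hpm⟩
    let ν : ProbabilityMeasure (ℝ × ℝ) := ⟨(gaussianReal (2 * κ * (t₁ - t₀)) (Real.toNNReal (2 * (t₁ - t₀)))).prod
      (expMeasure (2 * κ)), inferInstance⟩
    have hlim : Tendsto (fun _ : ℕ => μ) atTop (𝓝 ν) := by
      rw [tendsto_iff_forall_lipschitz_integral_tendsto]
      rintro g ⟨C, hC⟩ ⟨L, hL⟩
      have hg : Continuous g := hL.continuous
      have hgB : ∀ p, |g p| ≤ |g 0| + C := by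
        intro p
        have h1 := hC p 0
        rw [Real.dist_eq] at h1
        have h2 := abs_sub_abs_le_abs_sub (g p) (g 0)
        linarith
      have h1 : ∫ p, g p ∂(μ : Measure (ℝ × ℝ)) = ∫ p, g p ∂(ν : Measure (ℝ × ℝ)) := by
        show ∫ p, g p ∂(P.map (fun ω => FF (J ω) (⨆ q : ℚ, (X (max t₀ (min (q : ℝ) t₁)) ω - X t₀ ω))
          (X t₁ ω - X t₀ ω))) = _
        rw [integral_map hmeas.aemeasurable hg.aestronglyMeasurable]
        exact pt_main hκ hX hlt hJ hJl hi hg hgB (fun p q => by rw [← Real.dist_eq]; exact hC p q)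
          (fun p q => by rw [← Real.dist_eq]; exact hL.dist_le_mul p q) L.2
      rw [h1]
      exact tendsto_const_nhds
    have h2 : μ = ν := tendsto_nhds_unique tendsto_const_nhds hlim
    exact congrArg Subtype.val h2

end Pool.Agent.DLM
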