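import Pool.Agent.DLM.PII
import Pool.Agent.DLM.RMC

/-!
# DLM/PIW: the Pitman transform on the whole line

The law of the queue started at time `-n` from an exponential variable `J` is known (`pit_iter`); on an event whose
probability tends to one it agrees with the queue started at minus infinity.
-/

set_option autoImplicit false

open MeasureTheory ProbabilityTheory Filter Topology

namespace Pool.Agent.DLM

private lemma lift_bm {Ω : Type*} [MeasurableSpace Ω] {P : Measure Ω} [IsProbabilityMeasure P] {X : ℝ → Ω → ℝ}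
    {v b : ℝ} (hX : IsBM P X v b) (ν : Measure ℝ) [IsProbabilityMeasure ν] :
    IsBM (P.prod ν) (fun t (ω : Ω × ℝ) => X t ω.1) v b := by
  have hp : MeasurePreserving (Prod.fst : Ω × ℝ → Ω) (P.prod ν) P := measurePreserving_fst
  have hmap : ∀ {g : Ω → ℝ}, Measurable g → (P.prod ν).map (fun ω => g ω.1) = P.map g := by
    intro g hg
    rw [← hp.map_eq, Measure.map_map hg measurable_fst]
    simp [Function.comp_def]
  refine ⟨fun t => (hX.meas t).comp measurable_fst, hp.quasiMeasurePreserving.ae hX.cont,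
    hp.quasiMeasurePreserving.ae hX.zero, fun s t hst => ?_, fun t ht => ?_⟩
  · rw [← hX.gauss s t hst]
    exact hmap (g := fun ω => X t ω - X s ω) ((hX.meas t).sub (hX.meas s))
  · have h := hX.indep t ht
    rw [iIndepFun_iff_measure_inter_preimage_eq_mul] at h ⊢
    intro S sets hS
    have h1 := h S hS
    have hm : ∀ i ∈ S, MeasurableSet ((fun ω => X (t (i + 1)) ω - X (t i) ω) ⁻¹' sets i) := fun i hi =>
      ((hX.meas _).sub (hX.meas _)) (hS i hi)
    have e1 : (⋂ i ∈ S, (fun ω : Ω × ℝ => X (t (i + 1)) ω.1 - X (t i) ω.1) ⁻¹' sets i) =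
        Prod.fst ⁻¹' (⋂ i ∈ S, (fun ω => X (t (i + 1)) ω - X (t i) ω) ⁻¹' sets i) := by
      ext ω; simp
    rw [e1, hp.measure_preimage (Finset.measurableSet_biInter S hm).nullMeasurableSet, h1]
    refine Finset.prod_congr rfl fun i hi => ?_
    rw [← hp.measure_preimage (hm i hi).nullMeasurableSet]
    rfl

private lemma lift_indep {Ω : Type*} [MeasurableSpace Ω] {P : Measure Ω} [IsProbabilityMeasure P] {X : ℝ → Ω → ℝ}
    {v b : ℝ} (hX : IsBM P X v b) (ν : Measure ℝ) [IsProbabilityMeasure ν] (t : ℝ) :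
    IndepFun (fun ω : Ω × ℝ => ω.2) (fun ω => fut (fun s => X s ω.1) t) (P.prod ν) := by
  have hm : Measurable (fun ω => fut (fun s => X s ω) t) := by
    refine measurable_pi_lambda _ fun s => ?_
    exact (hX.meas _).sub (hX.meas _)
  exact (indepFun_prod (X := fun ω => fut (fun s => X s ω) t) (Y := fun x : ℝ => x) hm measurable_id).symm

private lemma pexp {κ : ℝ} (hκ : 0 < κ) : IsProbabilityMeasure (expMeasure (2 * κ)) :=
  isProbabilityMeasure_expMeasure (by linarith)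

private lemma exp_tail {κ : ℝ} (hκ : 0 < κ) (y : ℝ) (hy : 0 ≤ y) :
    expMeasure (2 * κ) (Set.Ioi y) = ENNReal.ofReal (Real.exp (-(2 * κ * y))) := by
  have := pexp hκ
  have h1 := cdf_expMeasure_eq (r := 2 * κ) (by linarith) y
  rw [if_pos hy, cdf_eq_real] at h1
  rw [← Set.compl_Iic, prob_compl_eq_one_sub measurableSet_Iic, ← ENNReal.ofReal_one,
    ← ENNReal.ofReal_toReal (measure_ne_top (expMeasure (2 * κ)) (Set.Iic y)), ← ENNReal.ofReal_sub _ ENNReal.toReal_nonneg]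
  congr 1
  change (expMeasure (2 * κ)).real (Set.Iic y) = _ at h1
  rw [Measure.real] at h1
  linarith

private lemma bdd_seg {x : ℝ → ℝ} (hx : Continuous x) {a b : ℝ} (hab : a ≤ b) :
    BddAbove (Set.range fun q : ℚ => x (max a (min (q : ℝ) b))) := by
  have h1 : BddAbove (x '' Set.Icc a b) := (isCompact_Icc.image hx).bddAbove
  refine h1.mono ?_
  rintro _ ⟨q, rfl⟩
  exact ⟨_, ⟨le_max_left _ _, max_le hab (min_le_right _ _)⟩, rfl⟩

private lemma Jn_meas {Ω : Type*} [MeasurableSpace Ω] {X : ℝ → Ω → ℝ} (hX : ∀ t, Measurable (X t)) (t : ℕ → ℝ)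
    {J : Ω → ℝ} (hJ : Measurable J) : ∀ i, Measurable fun ω => Jn (fun s => X s ω) t (J ω) i
  | 0 => hJ
  | i + 1 => by
    have ih := Jn_meas hX t hJ i
    have h1 : Measurable fun ω => ⨆ q : ℚ, (X (max (t i) (min (q : ℝ) (t (i + 1)))) ω - X (t i) ω) :=
      Measurable.iSup fun q => (hX _).sub (hX _)
    exact (ih.max h1).sub ((hX _).sub (hX _))

private lemma xn_meas {Ω : Type*} [MeasurableSpace Ω] {X : ℝ → Ω → ℝ} (hX : ∀ t, Measurable (X t)) (t : ℕ → ℝ)
    {J : Ω → ℝ} (hJ : Measurable J) (i : ℕ) : Measurable fun ω => xn (fun s => X s ω) t (J ω) i := by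
  have ih := Jn_meas hX t hJ i
  have h1 : Measurable fun ω => ⨆ q : ℚ, (X (max (t i) (min (q : ℝ) (t (i + 1)))) ω - X (t i) ω) :=
    Measurable.iSup fun q => (hX _).sub (hX _)
  exact (((ih.max h1).sub ih).const_mul 2).sub ((hX _).sub (hX _))

private lemma rmx_meas {Ω : Type*} [MeasurableSpace Ω] {X : ℝ → Ω → ℝ} (hX : ∀ t, Measurable (X t)) (t : ℝ) :
    Measurable fun ω => rmx (fun s => X s ω) t :=
  Measurable.iSup fun _ => hX _

private lemma a_seg {Ω : Type*} [MeasurableSpace Ω] {P : Measure Ω} [IsProbabilityMeasure P] {X : ℝ → Ω → ℝ} {κ : ℝ}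
    (hκ : 0 < κ) (hX : IsBM P X 2 (2 * κ)) (u y : ℝ) (hy : 0 ≤ y) (n : ℕ) (hn : -(n : ℝ) ≤ u) :
    P {ω | ∃ q : ℚ, -(n : ℝ) ≤ q ∧ (q : ℝ) ≤ u ∧ y < X q ω - X u ω} ≤ ENNReal.ofReal (Real.exp (-(2 * κ * y))) := by
  have := pexp hκ
  set ν := expMeasure (2 * κ) with hν
  let t : ℕ → ℝ := fun i => if i = 0 then -(n : ℝ) else u
  have ht : Monotone t := by
    refine monotone_nat_of_le_succ fun i => ?_
    rcases i with _ | i
    · simpa [t] using hn
    · simp [t]
  have hX' := lift_bm hX ν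
  have h1 := pit_iter hκ hX' t ht (fun ω : Ω × ℝ => ω.2) measurable_snd
    (by rw [show (fun ω : Ω × ℝ => ω.2) = Prod.snd from rfl, Measure.map_snd_prod]; simp [hν]) (lift_indep hX ν (t 0)) 1
  have hxm := Jn_meas hX'.meas t measurable_snd 1
  have h2 : (P.prod ν).map (fun ω : Ω × ℝ => Jn (fun s => X s ω.1) t ω.2 1) = ν := by
    have h3 := congrArg (Measure.map Prod.snd) h1
    rw [Measure.map_map measurable_snd (by
      refine Measurable.prodMk (measurable_pi_lambda _ fun i => xn_meas hX'.meas t measurable_snd _) hxm)] at h3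
    have h4 : ∀ i : Fin 1, IsProbabilityMeasure
        (gaussianReal (2 * κ * (t (i + 1) - t i)) (Real.toNNReal (2 * (t (i + 1) - t i)))) := fun i => inferInstance
    rw [Measure.map_snd_prod, measure_univ, one_smul] at h3
    exact h3
  have h3 : (P.prod ν) {ω | y < Jn (fun s => X s ω.1) t ω.2 1} = ENNReal.ofReal (Real.exp (-(2 * κ * y))) := by
    rw [← exp_tail hκ y hy, ← hν, ← h2, Measure.map_apply hxm measurableSet_Ioi]
    simp only [h2]
    rfl
  rw [← h3]
  have hp : MeasurePreserving (Prod.fst : Ω × ℝ → Ω) (P.prod ν) P := measurePreserving_fst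
  have hms : MeasurableSet {ω | ∃ q : ℚ, -(n : ℝ) ≤ q ∧ (q : ℝ) ≤ u ∧ y < X q ω - X u ω} := by
    have : {ω | ∃ q : ℚ, -(n : ℝ) ≤ q ∧ (q : ℝ) ≤ u ∧ y < X q ω - X u ω} =
        ⋃ q : ℚ, {ω | -(n : ℝ) ≤ q ∧ (q : ℝ) ≤ u ∧ y < X q ω - X u ω} := by ext ω; simp
    rw [this]
    refine MeasurableSet.iUnion fun q => ?_
    refine MeasurableSet.inter (MeasurableSet.const _) (MeasurableSet.inter (MeasurableSet.const _) ?_)
    exact measurableSet_lt measurable_const ((hX.meas _).sub (hX.meas _))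
  rw [← hp.measure_preimage hms.nullMeasurableSet]
  refine measure_mono_ae ?_
  filter_upwards [hX'.cont] with ω hc hω
  obtain ⟨q, h5, h6, h7⟩ := hω
  change y < Jn (fun s => X s ω.1) t ω.2 1
  have e0 : t 0 = -(n : ℝ) := by simp [t]
  have e1 : t 1 = u := by simp [t]
  simp only [Jn, zero_add, e0, e1]
  have hb := bdd_seg (x := fun s => X s ω.1 - X (-(n : ℝ)) ω.1) (hc.sub continuous_const) hn
  have h8 := le_ciSup hb q
  rw [min_eq_left h6, max_eq_right h5] at h8
  have h9 := le_max_right ω.2 (⨆ q : ℚ, (X (max (-(n : ℝ)) (min (q : ℝ) u)) ω.1 - X (-(n : ℝ)) ω.1))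
  linarith

private lemma a_all {Ω : Type*} [MeasurableSpace Ω] {P : Measure Ω} [IsProbabilityMeasure P] {X : ℝ → Ω → ℝ} {κ : ℝ}
    (hκ : 0 < κ) (hX : IsBM P X 2 (2 * κ)) (u y : ℝ) (hy : 0 ≤ y) :
    P {ω | ∃ q : ℚ, (q : ℝ) ≤ u ∧ y < X q ω - X u ω} ≤ ENNReal.ofReal (Real.exp (-(2 * κ * y))) := by
  have h1 : {ω | ∃ q : ℚ, (q : ℝ) ≤ u ∧ y < X q ω - X u ω} =
      ⋃ n : ℕ, {ω | ∃ q : ℚ, -(n : ℝ) ≤ q ∧ (q : ℝ) ≤ u ∧ y < X q ω - X u ω} := by
    ext ω
    simp only [Set.mem_ofPred_eq, Set.mem_iUnion]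
    constructor
    · rintro ⟨q, h1, h2⟩
      obtain ⟨n, hn⟩ := exists_nat_ge (-(q : ℝ))
      exact ⟨n, q, by linarith, h1, h2⟩
    · rintro ⟨n, q, -, h1, h2⟩
      exact ⟨q, h1, h2⟩
  have hmono : Monotone fun n : ℕ => {ω | ∃ q : ℚ, -(n : ℝ) ≤ q ∧ (q : ℝ) ≤ u ∧ y < X q ω - X u ω} := by
    intro m n hmn ω
    rintro ⟨q, h1, h2, h3⟩
    have : (m : ℝ) ≤ n := by exact_mod_cast hmn
    exact ⟨q, by linarith, h2, h3⟩
  rw [h1, hmono.measure_iUnion]
  refine iSup_le fun n => ?_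
  by_cases hn : -(n : ℝ) ≤ u
  · exact a_seg hκ hX u y hy n hn
  · have : {ω | ∃ q : ℚ, -(n : ℝ) ≤ q ∧ (q : ℝ) ≤ u ∧ y < X q ω - X u ω} = ∅ := by
      ext ω
      simp only [Set.mem_ofPred_eq, Set.mem_empty_iff_false, iff_false, not_exists, not_and]
      intro q h1 h2
      exact absurd (h1.trans h2) hn
    rw [this]; simp

theorem pit_bdd {Ω : Type*} [MeasurableSpace Ω] {P : Measure Ω} [IsProbabilityMeasure P] {X : ℝ → Ω → ℝ} {κ : ℝ}
    (hκ : 0 < κ) (hX : IsBM P X 2 (2 * κ)) :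
    ∀ᵐ ω ∂P, ∀ t : ℝ, BddAbove (Set.range fun q : ℚ => X (min (q : ℝ) t) ω) := by
  have h1 : ∀ n : ℕ, ∀ᵐ ω ∂P, ∃ m : ℕ, ∀ q : ℚ, (q : ℝ) ≤ n → X q ω - X n ω ≤ m := by
    intro n
    rw [ae_iff]
    have h2 : ∀ m : ℕ, P {ω | ¬ ∃ m : ℕ, ∀ q : ℚ, (q : ℝ) ≤ n → X q ω - X n ω ≤ m} ≤
        ENNReal.ofReal (Real.exp (-(2 * κ * m))) := by
      intro m
      refine le_trans (measure_mono ?_) (a_all hκ hX n m (Nat.cast_nonneg m))
      intro ω hω
      simp only [Set.mem_ofPred_eq, not_exists, not_forall, not_le] at hω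
      obtain ⟨q, h3, h4⟩ := hω m
      exact ⟨q, h3, h4⟩
    have h3 : Tendsto (fun m : ℕ => ENNReal.ofReal (Real.exp (-(2 * κ * m)))) atTop (𝓝 0) := by
      rw [← ENNReal.ofReal_zero]
      refine ENNReal.tendsto_ofReal (Real.tendsto_exp_atBot.comp ?_)
      refine tendsto_neg_atTop_atBot.comp ?_
      exact (tendsto_natCast_atTop_atTop).const_mul_atTop (by linarith : 0 < 2 * κ)
    exact le_antisymm (ge_of_tendsto' h3 h2) bot_le
  filter_upwards [ae_all_iff.2 h1, hX.cont] with ω hω hc t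
  obtain ⟨n, hn⟩ := exists_nat_ge t
  obtain ⟨m, hm⟩ := hω n
  refine ⟨X n ω + m, ?_⟩
  rintro _ ⟨q, rfl⟩
  have hle : min (q : ℝ) t ≤ n := (min_le_right _ _).trans hn
  have key : ∀ s : ℝ, s ≤ n → X s ω ≤ X n ω + m := by
    intro s hs
    rcases eq_or_lt_of_le hs with h | h
    · rw [h]; have : (0:ℝ) ≤ m := Nat.cast_nonneg m
      linarith
    · have h2 : s ∈ closure (Set.Iio (n : ℝ) ∩ Set.range ((↑) : ℚ → ℝ)) := by
        exact (Rat.denseRange_cast (𝕜 := ℝ)).open_subset_closure_inter isOpen_Iio h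
      have h3 : IsClosed {s | X s ω ≤ X n ω + m} := isClosed_le hc continuous_const
      refine closure_minimal ?_ h3 h2
      rintro _ ⟨h4, q, rfl⟩
      have := hm q h4.le
      simp only [Set.mem_ofPred_eq]
      linarith
  exact key _ hle

/-- on the good event the queue started at `-n` agrees with the queue started at minus infinity -/
private lemma jn_eq {x : ℝ → ℝ} (hx : Continuous x) (hb : ∀ t : ℝ, BddAbove (Set.range fun q : ℚ => x (min (q : ℝ) t)))
    (t : ℕ → ℝ) (ht : Monotone t) (a : ℝ) (ha : a ≤ t 0) (j : ℝ) (h1 : j + x a ≤ x (t 0)) (h2 : ∀ s ≤ a, x s ≤ x (t 0))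
    (t' : ℕ → ℝ) (h0 : t' 0 = a) (hs : ∀ i, t' (i + 1) = t i) :
    ∀ i, Jn x t' j (i + 1) = rmx x (t i) - x (t i)
  | 0 => by
    have hr : rmx x a ≤ x (t 0) := by
      refine (rmx_isLUB hx (hb a)).2 ?_
      rintro _ ⟨s, hs, rfl⟩
      exact h2 s hs
    have hsp := rmx_split hx hb a (t 0) ha
    have hM := bdd_seg hx ha
    have hM1 : x (t 0) ≤ ⨆ q : ℚ, x (max a (min (q : ℝ) (t 0))) := by
      obtain ⟨q, hq⟩ := exists_rat_gt (t 0)
      have h := le_ciSup hM q
      rwa [min_eq_right hq.le, max_eq_right ha] at h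
    rw [max_eq_right (hr.trans hM1)] at hsp
    simp only [Jn, h0, hs]
    rw [← ciSup_sub hM, hsp]
    rw [max_eq_right (by linarith)]
    ring
  | i + 1 => by
    have ih := jn_eq hx hb t ht a ha j h1 h2 t' h0 hs i
    have hsp := rmx_split hx hb (t i) (t (i + 1)) (ht (Nat.le_succ i))
    have hM := bdd_seg hx (ht (Nat.le_succ i))
    rw [Jn, ih, hs, hs, ← ciSup_sub hM, max_sub_sub_right, ← hsp]
    ring

private lemma xn_eq {x : ℝ → ℝ} (hx : Continuous x) (hb : ∀ t : ℝ, BddAbove (Set.range fun q : ℚ => x (min (q : ℝ) t)))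
    (t : ℕ → ℝ) (ht : Monotone t) (a : ℝ) (ha : a ≤ t 0) (j : ℝ) (h1 : j + x a ≤ x (t 0)) (h2 : ∀ s ≤ a, x s ≤ x (t 0))
    (t' : ℕ → ℝ) (h0 : t' 0 = a) (hs : ∀ i, t' (i + 1) = t i) (i : ℕ) :
    xn x t' j (i + 1) = pit x (t (i + 1)) - pit x (t i) := by
  have ih := jn_eq hx hb t ht a ha j h1 h2 t' h0 hs i
  have hsp := rmx_split hx hb (t i) (t (i + 1)) (ht (Nat.le_succ i))
  have hM := bdd_seg hx (ht (Nat.le_succ i))
  rw [xn, ih, hs, hs, ← ciSup_sub hM, max_sub_sub_right, ← hsp, pit, pit]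
  ring

private lemma tail_zero {Ω : Type*} [MeasurableSpace Ω] {P : Measure Ω} [IsProbabilityMeasure P] {f : Ω → ℝ}
    (hf : Measurable f) {c : ℝ} (hc : 0 < c) : Tendsto (fun n : ℕ => P {ω | c * n < f ω}) atTop (𝓝 0) := by
  have h1 : (⋂ n : ℕ, {ω | c * n < f ω}) = ∅ := by
    ext ω
    simp only [Set.mem_iInter, Set.mem_ofPred_eq, Set.mem_empty_iff_false, iff_false, not_forall, not_lt]
    obtain ⟨n, hn⟩ := exists_nat_ge (f ω / c)
    exact ⟨n, by rw [div_le_iff₀ hc] at hn; linarith⟩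
  have h2 : Antitone fun n : ℕ => {ω | c * n < f ω} := by
    intro m n hmn ω (h : c * n < f ω)
    have : (m : ℝ) ≤ n := by exact_mod_cast hmn
    change c * m < f ω
    nlinarith
  have h3 := tendsto_measure_iInter_atTop (μ := P) (s := fun n : ℕ => {ω | c * n < f ω})
    (fun n => (measurableSet_lt measurable_const hf).nullMeasurableSet) h2 ⟨0, measure_ne_top _ _⟩
  rwa [h1, measure_empty] at h3

private lemma drift_zero {Ω : Type*} [MeasurableSpace Ω] {P : Measure Ω} [IsProbabilityMeasure P] {X : ℝ → Ω → ℝ} {κ : ℝ}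
    (hκ : 0 < κ) (hX : IsBM P X 2 (2 * κ)) : Tendsto (fun n : ℕ => P {ω | -(κ * n) < X (-(n : ℝ)) ω}) atTop (𝓝 0) := by
  have h1 : Tendsto (fun n : ℕ => ENNReal.ofReal (2 / κ ^ 2 / n)) atTop (𝓝 0) := by
    rw [← ENNReal.ofReal_zero]
    exact ENNReal.tendsto_ofReal (tendsto_const_div_atTop_nhds_zero_nat _)
  refine tendsto_of_tendsto_of_tendsto_of_le_of_le' tendsto_const_nhds h1 (Eventually.of_forall fun _ => bot_le) ?_
  filter_upwards [eventually_gt_atTop 0] with n hn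
  have hn' : (0 : ℝ) < n := by exact_mod_cast hn
  have hg := hX.gauss (-(n : ℝ)) 0 (by linarith)
  have hY : HasLaw (fun ω => X 0 ω - X (-(n : ℝ)) ω)
      (gaussianReal (2 * κ * (0 - -(n : ℝ))) (Real.toNNReal (2 * (0 - -(n : ℝ))))) P :=
    ⟨((hX.meas _).sub (hX.meas _)).aemeasurable, hg⟩
  have hmem := hY.hasGaussianLaw.memLp_two
  have hE : P[fun ω => X 0 ω - X (-(n : ℝ)) ω] = 2 * κ * n := by
    rw [hY.integral_eq, integral_id_gaussianReal]; ring
  have hV : Var[fun ω => X 0 ω - X (-(n : ℝ)) ω; P] = 2 * n := by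
    rw [hY.variance_eq, variance_id_gaussianReal, Real.coe_toNNReal _ (by linarith)]; ring
  have hch := meas_ge_le_variance_div_sq hmem (mul_pos hκ hn')
  rw [hE, hV] at hch
  have e1 : 2 * (n : ℝ) / (κ * n) ^ 2 = 2 / κ ^ 2 / n := by field_simp
  rw [e1] at hch
  refine le_trans (measure_mono_ae ?_) hch
  filter_upwards [hX.zero] with ω h0 (hω : -(κ * n) < X (-(n : ℝ)) ω)
  change κ * n ≤ |X 0 ω - X (-(n : ℝ)) ω - 2 * κ * n|
  rw [h0, abs_of_nonpos (by nlinarith)]
  nlinarith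

private lemma pi_succ {r : ℕ} (γ : Fin (r + 1) → Measure ℝ) [∀ i, IsProbabilityMeasure (γ i)] :
    (Measure.pi γ).map (fun (x : Fin (r + 1) → ℝ) (i : Fin r) => x i.succ) = Measure.pi fun i : Fin r => γ i.succ := by
  symm
  refine Measure.pi_eq fun s hs => ?_
  rw [Measure.map_apply (by fun_prop) (MeasurableSet.univ_pi hs)]
  have h1 : (fun (x : Fin (r + 1) → ℝ) (i : Fin r) => x i.succ) ⁻¹' Set.univ.pi s =
      Set.univ.pi (Fin.cons Set.univ s : Fin (r + 1) → Set ℝ) := by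
    ext x
    simp only [Set.mem_preimage, Set.mem_univ_pi]
    constructor
    · intro h i
      refine Fin.cases ?_ (fun i => ?_) i
      · simp
      · simpa using h i
    · intro h i
      simpa using h i.succ
  rw [h1, Measure.pi_pi, Fin.prod_univ_succ]
  simp

theorem pit_law {Ω : Type*} [MeasurableSpace Ω] {P : Measure Ω} [IsProbabilityMeasure P] {X : ℝ → Ω → ℝ} {κ : ℝ}
    (hκ : 0 < κ) (hX : IsBM P X 2 (2 * κ)) (t : ℕ → ℝ) (ht : Monotone t) (r : ℕ) :
    P.map (fun ω => (fun i : Fin r => pit (fun s => X s ω) (t (i + 1)) - pit (fun s => X s ω) (t i),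
      rmx (fun s => X s ω) (t r) - X (t r) ω)) =
    (Measure.pi fun i : Fin r =>
      gaussianReal (2 * κ * (t (i + 1) - t i)) (Real.toNNReal (2 * (t (i + 1) - t i)))).prod (expMeasure (2 * κ)) := by
  have := pexp hκ
  set ν := expMeasure (2 * κ) with hν
  have hX' := lift_bm hX ν
  have hp : MeasurePreserving (Prod.fst : Ω × ℝ → Ω) (P.prod ν) P := measurePreserving_fst
  have hpm : ∀ s, Measurable fun ω => pit (fun u => X u ω) s := fun s =>
    (((rmx_meas hX.meas s).sub (rmx_meas hX.meas 0)).const_mul 2).sub ((hX.meas s).sub (hX.meas 0))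
  have hF : Measurable (fun ω => (fun i : Fin r => pit (fun s => X s ω) (t (i + 1)) - pit (fun s => X s ω) (t i),
      rmx (fun s => X s ω) (t r) - X (t r) ω)) :=
    Measurable.prodMk (measurable_pi_lambda _ fun i => (hpm _).sub (hpm _)) ((rmx_meas hX.meas _).sub (hX.meas _))
  set F := (fun ω => (fun i : Fin r => pit (fun s => X s ω) (t (i + 1)) - pit (fun s => X s ω) (t i),
      rmx (fun s => X s ω) (t r) - X (t r) ω)) with hFdef
  set μ := (Measure.pi fun i : Fin r =>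
      gaussianReal (2 * κ * (t (i + 1) - t i)) (Real.toNNReal (2 * (t (i + 1) - t i)))).prod ν with hμ
  -- the times
  let t' : ℕ → ℕ → ℝ := fun n i => match i with
    | 0 => -(n : ℝ)
    | i + 1 => t i
  let G : ℕ → Ω × ℝ → (Fin r → ℝ) × ℝ := fun n ω =>
    (fun i : Fin r => xn (fun s => X s ω.1) (t' n) ω.2 (i + 1), Jn (fun s => X s ω.1) (t' n) ω.2 (r + 1))
  have hGm : ∀ n, Measurable (G n) := fun n =>
    Measurable.prodMk (measurable_pi_lambda _ fun i => xn_meas hX'.meas (t' n) measurable_snd _)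
      (Jn_meas hX'.meas (t' n) measurable_snd _)
  have hG : ∀ n : ℕ, -(n : ℝ) ≤ t 0 → (P.prod ν).map (G n) = μ := by
    intro n hn
    have ht' : Monotone (t' n) := by
      refine monotone_nat_of_le_succ fun i => ?_
      rcases i with _ | i
      · exact hn
      · exact ht (Nat.le_succ i)
    have h1 := pit_iter hκ hX' (t' n) ht' (fun ω : Ω × ℝ => ω.2) measurable_snd
      (by rw [show (fun ω : Ω × ℝ => ω.2) = Prod.snd from rfl, Measure.map_snd_prod]; simp [hν])
      (lift_indep hX ν (t' n 0)) (r + 1)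
    have h2 := congrArg (Measure.map (Prod.map (fun (x : Fin (r + 1) → ℝ) (i : Fin r) => x i.succ) id)) h1
    have hm1 : Measurable (fun (x : Fin (r + 1) → ℝ) (i : Fin r) => x i.succ) := by fun_prop
    rw [← Measure.map_prod_map _ _ hm1 measurable_id, Measure.map_id, Measure.map_map (hm1.prodMap measurable_id)
      (Measurable.prodMk (measurable_pi_lambda _ fun i => xn_meas hX'.meas (t' n) measurable_snd _)
      (Jn_meas hX'.meas (t' n) measurable_snd _)), pi_succ] at h2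
    have e1 : Prod.map (fun (x : Fin (r + 1) → ℝ) (i : Fin r) => x i.succ) id ∘
        (fun ω : Ω × ℝ => (fun i : Fin (r + 1) => xn (fun s => X s ω.1) (t' n) ω.2 i,
          Jn (fun s => X s ω.1) (t' n) ω.2 (r + 1))) = G n := by
      funext ω
      simp [G, Prod.map, Fin.val_succ]
    rw [e1] at h2
    rw [h2, hμ]
    simp [t', Fin.val_succ, hν]
  -- the bad events
  let B : ℕ → Set (Ω × ℝ) := fun n => {ω | F ω.1 ≠ G n ω}
  have hB : Tendsto (fun n : ℕ => (P.prod ν) (B n)) atTop (𝓝 0) := by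
    have t1 := drift_zero hκ hX'
    have t2 : Tendsto (fun n : ℕ => (P.prod ν) {ω : Ω × ℝ | ∃ q : ℚ, (q : ℝ) ≤ -(n : ℝ) ∧
        κ / 4 * n < X q ω.1 - X (-(n : ℝ)) ω.1}) atTop (𝓝 0) := by
      have h3 : Tendsto (fun m : ℕ => ENNReal.ofReal (Real.exp (-(2 * κ * (κ / 4 * m))))) atTop (𝓝 0) := by
        rw [← ENNReal.ofReal_zero]
        refine ENNReal.tendsto_ofReal (Real.tendsto_exp_atBot.comp ?_)
        refine tendsto_neg_atTop_atBot.comp ?_
        refine Tendsto.const_mul_atTop (by linarith : 0 < 2 * κ) ?_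
        exact Tendsto.const_mul_atTop (by linarith : 0 < κ / 4) tendsto_natCast_atTop_atTop
      refine tendsto_of_tendsto_of_tendsto_of_le_of_le tendsto_const_nhds h3 (fun _ => bot_le) fun n => ?_
      exact a_all hκ hX' (-(n : ℝ)) (κ / 4 * n) (by positivity)
    have t3 := tail_zero (P := P.prod ν) (measurable_snd (α := Ω) (β := ℝ)) (by linarith : 0 < κ / 4)
    have t4 := tail_zero (P := P.prod ν) (f := fun ω : Ω × ℝ => -X (t 0) ω.1) ((hX'.meas (t 0)).neg)
      (by linarith : 0 < κ / 2)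
    have t5 := ((t1.add t2).add t3).add t4
    simp only [add_zero] at t5
    refine tendsto_of_tendsto_of_tendsto_of_le_of_le' tendsto_const_nhds t5 (Eventually.of_forall fun _ => bot_le) ?_
    obtain ⟨N, hN⟩ := exists_nat_ge (-(t 0))
    filter_upwards [eventually_ge_atTop N] with n hn
    have hn' : (N : ℝ) ≤ n := by exact_mod_cast hn
    refine le_trans ?_ ((measure_union_le _ _).trans (add_le_add ((measure_union_le _ _).trans
      (add_le_add (measure_union_le _ _) le_rfl)) le_rfl))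
    refine measure_mono_ae ?_
    filter_upwards [hX'.cont, hp.quasiMeasurePreserving.ae (pit_bdd hκ hX)] with ω hc hb hω
    by_contra hcon
    change ¬ (ω ∈ (_ : Set (Ω × ℝ))) at hcon
    simp only [Set.mem_union, not_or, Set.mem_ofPred_eq, not_lt, not_exists, not_and] at hcon
    obtain ⟨⟨⟨c1, c2⟩, c3⟩, c4⟩ := hcon
    have hkn : 0 ≤ κ * (n : ℝ) := by positivity
    have h1 : ω.2 + X (-(n : ℝ)) ω.1 ≤ X (t 0) ω.1 := by linarith
    have h2 : ∀ s ≤ -(n : ℝ), X s ω.1 ≤ X (t 0) ω.1 := by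
      have hr := rmx_isLUB hc (hb (-(n : ℝ)))
      have h3 : rmx (fun s => X s ω.1) (-(n : ℝ)) ≤ X (t 0) ω.1 := by
        refine ciSup_le fun q => ?_
        have key : ∀ s : ℝ, s < -(n : ℝ) → X s ω.1 ≤ X (t 0) ω.1 := by
          intro s h
          have h2 : s ∈ closure (Set.Iio (-(n : ℝ)) ∩ Set.range ((↑) : ℚ → ℝ)) :=
            (Rat.denseRange_cast (𝕜 := ℝ)).open_subset_closure_inter isOpen_Iio h
          have h3 : IsClosed {s | X s ω.1 ≤ X (t 0) ω.1} := isClosed_le hc continuous_const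
          refine closure_minimal ?_ h3 h2
          rintro _ ⟨h4, q, rfl⟩
          have := c2 q (le_of_lt h4)
          simp only [Set.mem_ofPred_eq]
          linarith
        have hn0 : (0 : ℝ) ≤ n := Nat.cast_nonneg n
        rcases lt_or_ge (q : ℝ) (-(n : ℝ)) with h | h
        · rw [min_eq_left h.le]; exact key _ h
        · rw [min_eq_right h]
          nlinarith
      intro s hs
      exact (hr.1 ⟨s, hs, rfl⟩).trans h3
    apply hω
    have ha : -(n : ℝ) ≤ t 0 := by linarith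
    have hJ := jn_eq hc hb t ht (-(n : ℝ)) ha ω.2 h1 h2 (t' n) rfl (fun _ => rfl)
    have hx := xn_eq hc hb t ht (-(n : ℝ)) ha ω.2 h1 h2 (t' n) rfl (fun _ => rfl)
    simp only [F, G, hJ, hx]
  -- conclusion
  have hmapF : P.map F = (P.prod ν).map (fun ω => F ω.1) := by
    rw [← hp.map_eq, Measure.map_map hF measurable_fst, hp.map_eq]
    rfl
  rw [hmapF]
  obtain ⟨N, hN⟩ := exists_nat_ge (-(t 0))
  ext S hS
  have hFm' : Measurable (fun ω : Ω × ℝ => F ω.1) := hF.comp measurable_fst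
  rw [Measure.map_apply hFm' hS]
  have hGS : ∀ n ≥ N, (P.prod ν) (G n ⁻¹' S) = μ S := by
    intro n hn
    have hn' : (N : ℝ) ≤ n := by exact_mod_cast hn
    rw [← hG n (by linarith), Measure.map_apply (hGm n) hS]
  refine le_antisymm ?_ ?_
  · have h1 : Tendsto (fun n : ℕ => μ S + (P.prod ν) (B n)) atTop (𝓝 (μ S + 0)) := tendsto_const_nhds.add hB
    rw [add_zero] at h1
    refine ge_of_tendsto h1 ?_
    filter_upwards [eventually_ge_atTop N] with n hn
    rw [← hGS n hn]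
    refine le_trans (measure_mono ?_) (measure_union_le _ _)
    intro ω hω
    by_cases h : F ω.1 = G n ω
    · left
      change G n ω ∈ S
      rw [← h]; exact hω
    · right; exact h
  · have h1 : Tendsto (fun n : ℕ => (P.prod ν) ((fun ω => F ω.1) ⁻¹' S) + (P.prod ν) (B n)) atTop
        (𝓝 ((P.prod ν) ((fun ω => F ω.1) ⁻¹' S) + 0)) := tendsto_const_nhds.add hB
    rw [add_zero] at h1
    refine ge_of_tendsto h1 ?_
    filter_upwards [eventually_ge_atTop N] with n hn
    rw [← hGS n hn]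
    refine le_trans (measure_mono ?_) (measure_union_le _ _)
    intro ω hω
    by_cases h : F ω.1 = G n ω
    · left
      change F ω.1 ∈ S
      rw [h]; exact hω
    · right; exact h

end Pool.Agent.DLM
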