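import Pool.Agent.DLM.ADefs

/-!
# DLM/ROT: rotation of independent Brownian motions

A two-sided Brownian motion is a Gaussian process with covariance `v (|s| + |t| - |s - t|) / 2`; two independent ones are
jointly Gaussian, and everything follows from the computation of covariances.
-/

set_option autoImplicit false

open MeasureTheory ProbabilityTheory Filter Topology

namespace Pool.Agent.DLM

variable {Ω : Type*} [MeasurableSpace Ω] {P : Measure Ω} [IsProbabilityMeasure P]

omit [IsProbabilityMeasure P] in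
private lemma bm_gp {X : ℝ → Ω → ℝ} {v b : ℝ} (h : IsBM P X v b) : IsGaussianProcess X P where
  hasGaussianLaw I := by
    classical
    obtain ⟨a, ha⟩ := (insert (0:ℝ) I).bddBelow
    have ha0 : a ≤ 0 := ha (by simp)
    have haI : ∀ t ∈ I, a ≤ t := fun t ht => ha (by simp [ht])
    let Z : NNReal → Ω → ℝ := fun s ω => X (a + s) ω - X a ω
    have hZ : IsGaussianProcess Z P := by
      refine HasIndepIncrements.isGaussianProcess (fun s => ?_) ?_ ?_
      · have h1 : HasLaw (Z s) (gaussianReal (b * ((a + s) - a)) (Real.toNNReal (v * ((a + s) - a)))) P :=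
          ⟨((h.meas _).sub (h.meas _)).aemeasurable, h.gauss a (a + s) (by simp)⟩
        exact h1.hasGaussianLaw
      · refine Eventually.of_forall fun ω => ?_
        simp [Z]
      · refine HasIndepIncrements.of_nat fun t ht _ => ?_
        have h2 := h.indep (fun i => a + t i) (fun i j hij => by
          have := ht hij
          simpa using this)
        refine h2.congr' fun i => Eventually.of_forall fun ω => ?_
        simp [Z]
    have hY : IsGaussianProcess (fun (t : ℝ) ω => Z (Real.toNNReal (t - a)) ω - Z (Real.toNNReal (0 - a)) ω) P := by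
      refine hZ.of_isGaussianProcess fun t => ⟨{Real.toNNReal (t - a), Real.toNNReal (0 - a)},
        ContinuousLinearMap.proj (R := ℝ) (φ := fun _ => ℝ) ⟨Real.toNNReal (t - a), by simp⟩ -
          ContinuousLinearMap.proj (R := ℝ) (φ := fun _ => ℝ) ⟨Real.toNNReal (0 - a), by simp⟩, fun ω => ?_⟩
      simp
    refine (hY.hasGaussianLaw I).congr ?_
    filter_upwards [h.zero] with ω hω
    funext t
    have h1 : a ≤ (t : ℝ) := haI t t.2
    simp only [Finset.restrict, Z]
    rw [Real.coe_toNNReal _ (by linarith), Real.coe_toNNReal _ (by linarith)]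
    simp [hω]

omit [IsProbabilityMeasure P] in
private lemma bm_mean {X : ℝ → Ω → ℝ} {v b : ℝ} (h : IsBM P X v b) (s t : ℝ) :
    P[fun ω => X t ω - X s ω] = b * (t - s) := by
  rcases le_total s t with hst | hst
  · have h1 : HasLaw (fun ω => X t ω - X s ω) _ P :=
      ⟨((h.meas _).sub (h.meas _)).aemeasurable, h.gauss s t hst⟩
    rw [h1.integral_eq, integral_id_gaussianReal]
  · have h1 : HasLaw (fun ω => X s ω - X t ω) _ P :=
      ⟨((h.meas _).sub (h.meas _)).aemeasurable, h.gauss t s hst⟩
    have h2 := h1.integral_eq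
    rw [integral_id_gaussianReal] at h2
    have h3 : (fun ω => X t ω - X s ω) = fun ω => -(X s ω - X t ω) := by funext ω; ring
    rw [h3, integral_neg, h2]; ring

omit [IsProbabilityMeasure P] in
private lemma bm_var {X : ℝ → Ω → ℝ} {v b : ℝ} (hv : 0 ≤ v) (h : IsBM P X v b) (s t : ℝ) :
    Var[fun ω => X t ω - X s ω; P] = v * |t - s| := by
  rcases le_total s t with hst | hst
  · have h1 : HasLaw (fun ω => X t ω - X s ω) _ P :=
      ⟨((h.meas _).sub (h.meas _)).aemeasurable, h.gauss s t hst⟩
    rw [h1.variance_eq, variance_id_gaussianReal, Real.coe_toNNReal _ (mul_nonneg hv (by linarith)),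
      abs_of_nonneg (by linarith)]
  · have h1 : HasLaw (fun ω => X s ω - X t ω) _ P :=
      ⟨((h.meas _).sub (h.meas _)).aemeasurable, h.gauss t s hst⟩
    have h2 := h1.variance_eq
    rw [variance_id_gaussianReal, Real.coe_toNNReal _ (mul_nonneg hv (by linarith))] at h2
    have h3 : (fun ω => X t ω - X s ω) = fun ω => -(X s ω - X t ω) := by funext ω; ring
    rw [h3, variance_fun_neg, h2, abs_of_nonpos (by linarith)]; ring

private lemma bm_cov {X : ℝ → Ω → ℝ} {v b : ℝ} (hv : 0 ≤ v) (h : IsBM P X v b) (s t : ℝ) :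
    cov[X s, X t; P] = v * (|s| + |t| - |s - t|) / 2 := by
  have hg := bm_gp h
  have hm : ∀ t, MemLp (X t) 2 P := fun t => (hg.hasGaussianLaw_eval t).memLp_two
  have h0 : ∀ t, Var[X t; P] = v * |t| := by
    intro t
    have h1 := bm_var hv h 0 t
    rw [sub_zero] at h1
    rw [← h1]
    refine variance_congr ?_
    filter_upwards [h.zero] with ω hω
    rw [hω, sub_zero]
  have h1 := bm_var hv h t s
  rw [variance_fun_sub (hm s) (hm t), h0, h0] at h1
  linarith

private lemma bm_joint {X Y : ℝ → Ω → ℝ} {v b w c : ℝ} (hX : IsBM P X v b) (hY : IsBM P Y w c)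
    (h : IndepFun (fun ω t => X t ω) (fun ω t => Y t ω) P) : IsGaussianProcess (Sum.elim X Y) P where
  hasGaussianLaw I := by
    classical
    have h1 := (bm_gp hX).hasGaussianLaw I.toLeft
    have h2 := (bm_gp hY).hasGaussianLaw I.toRight
    have h3 : IndepFun (fun ω => I.toLeft.restrict (X · ω)) (fun ω => I.toRight.restrict (Y · ω)) P :=
      h.comp (φ := fun x : ℝ → ℝ => I.toLeft.restrict x) (ψ := fun x : ℝ → ℝ => I.toRight.restrict x)
        (Finset.measurable_restrict _) (Finset.measurable_restrict _)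
    have h4 := h3.hasGaussianLaw h1 h2
    let L : ((I.toLeft → ℝ) × (I.toRight → ℝ)) →L[ℝ] (I → ℝ) := ContinuousLinearMap.pi fun i =>
      match i with
      | ⟨.inl s, hs⟩ => (ContinuousLinearMap.proj (R := ℝ) (φ := fun _ => ℝ)
          (⟨s, by simpa using hs⟩ : I.toLeft)).comp (ContinuousLinearMap.fst ℝ _ _)
      | ⟨.inr s, hs⟩ => (ContinuousLinearMap.proj (R := ℝ) (φ := fun _ => ℝ)
          (⟨s, by simpa using hs⟩ : I.toRight)).comp (ContinuousLinearMap.snd ℝ _ _)
    have h5 := h4.map L
    have h6 : (fun ω => I.restrict (Sum.elim X Y · ω)) =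
        L ∘ (fun ω => (I.toLeft.restrict (X · ω), I.toRight.restrict (Y · ω))) := by
      funext ω i
      rcases i with ⟨i | i, hi⟩
      · simp [L]
      · simp [L]
    rw [h6]
    exact h5

private lemma isBM_of_gauss {X : ℝ → Ω → ℝ} {v b : ℝ} (hg : IsGaussianProcess X P) (hm : ∀ t, Measurable (X t))
    (hc : ∀ᵐ ω ∂P, Continuous fun t => X t ω) (h0 : ∀ᵐ ω ∂P, X 0 ω = 0)
    (hmean : ∀ s t, P[fun ω => X t ω - X s ω] = b * (t - s))
    (hcov : ∀ s t, cov[X s, X t; P] = v * (|s| + |t| - |s - t|) / 2) : IsBM P X v b := by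
  have hL : ∀ t, MemLp (X t) 2 P := fun t => (hg.hasGaussianLaw_eval t).memLp_two
  refine ⟨hm, hc, h0, fun s t hst => ?_, ?_⟩
  · have h1 : HasGaussianLaw (fun ω => X t ω - X s ω) P := hg.hasGaussianLaw_fun_sub
    rw [h1.map_eq_gaussianReal, hmean, variance_fun_sub (hL t) (hL s), ← covariance_self (hL t).aemeasurable,
      ← covariance_self (hL s).aemeasurable, hcov, hcov, hcov]
    congr 2
    simp only [sub_self, abs_zero]
    rw [abs_of_nonneg (by linarith : (0:ℝ) ≤ t - s)]
    ring
  · have hI : HasIndepIncrements X P := by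
      refine fun n t ht => hg.hasGaussianLaw_increments.iIndepFun_of_covariance_eq_zero fun i j hij => ?_
      have key : ∀ i j : Fin n, i < j → cov[fun ω => X (t i.succ) ω - X (t i.castSucc) ω,
          fun ω => X (t j.succ) ω - X (t j.castSucc) ω; P] = 0 := by
        intro i j h
        rw [covariance_fun_sub_fun_sub (hL _) (hL _) (hL _) (hL _), hcov, hcov, hcov, hcov]
        have h1 : i.succ ≤ j.succ := Fin.strictMono_succ h |>.le
        have h2 : i.castSucc ≤ j.succ := Fin.le_of_lt h1
        have h3 : i.castSucc ≤ j.castSucc := Fin.le_castSucc_iff.mpr h1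
        have e1 := ht h1
        have e2 := ht h2
        have e3 := ht h3
        have e4 : t i.succ ≤ t j.castSucc := ht h
        rw [abs_of_nonpos (by linarith : t i.succ - t j.succ ≤ 0), abs_of_nonpos (by linarith : t i.castSucc - t j.succ ≤ 0),
          abs_of_nonpos (by linarith : t i.castSucc - t j.castSucc ≤ 0),
          abs_of_nonpos (by linarith : t i.succ - t j.castSucc ≤ 0)]
        ring
      rcases lt_or_gt_of_ne hij with h | h
      · exact key i j h
      · rw [covariance_comm]; exact key j i h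
    intro t ht
    exact hI.nat ht

private lemma rot_gen {X Y : ℝ → Ω → ℝ} {v b w c : ℝ} (hv : 0 ≤ v) (hw : 0 ≤ w) (hX : IsBM P X v b)
    (hY : IsBM P Y w c) (h : IndepFun (fun ω t => X t ω) (fun ω t => Y t ω) P) (α β : ℝ) :
    IsBM P (fun t ω => α * X t ω + β * Y t ω) (α ^ 2 * v + β ^ 2 * w) (α * b + β * c) := by
  have hJ := bm_joint hX hY h
  have hXL : ∀ t, MemLp (X t) 2 P := fun t => ((bm_gp hX).hasGaussianLaw_eval t).memLp_two
  have hYL : ∀ t, MemLp (Y t) 2 P := fun t => ((bm_gp hY).hasGaussianLaw_eval t).memLp_two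
  have hXY : ∀ s t, cov[X s, Y t; P] = 0 := by
    intro s t
    have h1 : IndepFun (X s) (Y t) P := h.comp (φ := fun x : ℝ → ℝ => x s) (ψ := fun x : ℝ → ℝ => x t)
      (measurable_pi_apply s) (measurable_pi_apply t)
    exact h1.covariance_eq_zero (hXL s) (hYL t)
  refine isBM_of_gauss ?_ (fun t => ((hX.meas t).const_mul α).add ((hY.meas t).const_mul β)) ?_ ?_ (fun s t => ?_)
    (fun s t => ?_)
  · classical
    refine hJ.of_isGaussianProcess fun t => ⟨{.inl t, .inr t},
        α • ContinuousLinearMap.proj (R := ℝ) (φ := fun _ => ℝ) ⟨.inl t, by simp⟩ +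
          β • ContinuousLinearMap.proj (R := ℝ) (φ := fun _ => ℝ) ⟨.inr t, by simp⟩, fun ω => ?_⟩
    simp
  · filter_upwards [hX.cont, hY.cont] with ω h1 h2
    exact (h1.const_mul α).add (h2.const_mul β)
  · filter_upwards [hX.zero, hY.zero] with ω h1 h2
    simp [h1, h2]
  · have h1 : (fun ω => α * X t ω + β * Y t ω - (α * X s ω + β * Y s ω)) =
        fun ω => α * (X t ω - X s ω) + β * (Y t ω - Y s ω) := by funext ω; ring
    have i1 : Integrable (fun ω => X t ω - X s ω) P :=
      ((hXL t).integrable (by norm_num)).sub ((hXL s).integrable (by norm_num))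
    have i2 : Integrable (fun ω => Y t ω - Y s ω) P :=
      ((hYL t).integrable (by norm_num)).sub ((hYL s).integrable (by norm_num))
    rw [h1, integral_add (i1.const_mul α) (i2.const_mul β), integral_const_mul, integral_const_mul, bm_mean hX,
      bm_mean hY]
    ring
  · have e1 : ∀ t, (fun ω => α * X t ω + β * Y t ω) = α • X t + β • Y t := by intro t; rfl
    rw [e1, e1, covariance_add_left ((hXL s).const_smul α) ((hYL s).const_smul β)
      (((hXL t).const_smul α).add ((hYL t).const_smul β)),
      covariance_add_right ((hXL s).const_smul α) ((hXL t).const_smul α) ((hYL t).const_smul β),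
      covariance_add_right ((hYL s).const_smul β) ((hXL t).const_smul α) ((hYL t).const_smul β)]
    simp only [covariance_smul_left, covariance_smul_right]
    rw [bm_cov hv hX, bm_cov hw hY, hXY, covariance_comm, hXY]
    ring

theorem rot_sub {f B : ℝ → Ω → ℝ} {μ : ℝ} (hf : IsBM P f 1 μ) (hB : IsBM P B 1 0)
    (h : IndepFun (fun ω t => f t ω) (fun ω t => B t ω) P) : IsBM P (fun t ω => f t ω - B t ω) 2 μ := by
  have h1 := rot_gen zero_le_one zero_le_one hf hB h 1 (-1)
  convert h1 using 3
  · ring
  · norm_num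
  · ring

theorem rot_add {f B : ℝ → Ω → ℝ} {μ : ℝ} (hf : IsBM P f 1 μ) (hB : IsBM P B 1 0)
    (h : IndepFun (fun ω t => f t ω) (fun ω t => B t ω) P) : IsBM P (fun t ω => f t ω + B t ω) 2 μ := by
  have h1 := rot_gen zero_le_one zero_le_one hf hB h 1 1
  convert h1 using 3
  · ring
  · norm_num
  · ring

theorem rot_indep {f B : ℝ → Ω → ℝ} {μ : ℝ} (hf : IsBM P f 1 μ) (hB : IsBM P B 1 0)
    (h : IndepFun (fun ω t => f t ω) (fun ω t => B t ω) P) :
    IndepFun (fun ω t => f t ω - B t ω) (fun ω t => f t ω + B t ω) P := by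
  have hJ := bm_joint hf hB h
  have hXL : ∀ t, MemLp (f t) 2 P := fun t => ((bm_gp hf).hasGaussianLaw_eval t).memLp_two
  have hYL : ∀ t, MemLp (B t) 2 P := fun t => ((bm_gp hB).hasGaussianLaw_eval t).memLp_two
  have hXY : ∀ s t, cov[f s, B t; P] = 0 := by
    intro s t
    have h1 : IndepFun (f s) (B t) P := h.comp (φ := fun x : ℝ → ℝ => x s) (ψ := fun x : ℝ → ℝ => x t)
      (measurable_pi_apply s) (measurable_pi_apply t)
    exact h1.covariance_eq_zero (hXL s) (hYL t)
  have hG : IsGaussianProcess (Sum.elim (fun t ω => f t ω - B t ω) (fun t ω => f t ω + B t ω)) P := by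
    classical
    refine hJ.of_isGaussianProcess fun t => ?_
    rcases t with t | t
    · refine ⟨{.inl t, .inr t},
        ContinuousLinearMap.proj (R := ℝ) (φ := fun _ => ℝ) ⟨.inl t, by simp⟩ -
          ContinuousLinearMap.proj (R := ℝ) (φ := fun _ => ℝ) ⟨.inr t, by simp⟩, fun ω => ?_⟩
      simp
    · refine ⟨{.inl t, .inr t},
        ContinuousLinearMap.proj (R := ℝ) (φ := fun _ => ℝ) ⟨.inl t, by simp⟩ +
          ContinuousLinearMap.proj (R := ℝ) (φ := fun _ => ℝ) ⟨.inr t, by simp⟩, fun ω => ?_⟩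
      simp
  refine hG.indepFun_of_covariance_eq_zero (fun s => ((hf.meas s).sub (hB.meas s)).aemeasurable)
    (fun s => ((hf.meas s).add (hB.meas s)).aemeasurable) fun s t => ?_
  have e1 : (fun ω => f s ω - B s ω) = f s - B s := rfl
  have e2 : (fun ω => f t ω + B t ω) = f t + B t := rfl
  rw [e1, e2, covariance_sub_left (hXL s) (hYL s) ((hXL t).add (hYL t)), covariance_add_right (hXL s) (hXL t) (hYL t),
    covariance_add_right (hYL s) (hXL t) (hYL t), bm_cov zero_le_one hf, bm_cov zero_le_one hB, hXY,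
    covariance_comm, hXY]
  ring

theorem rot_half {X Y : ℝ → Ω → ℝ} {μ : ℝ} (hX : IsBM P X 2 μ) (hY : IsBM P Y 2 μ)
    (h : IndepFun (fun ω t => X t ω) (fun ω t => Y t ω) P) : IsBM P (fun t ω => (Y t ω + X t ω) / 2) 1 μ := by
  have h1 := rot_gen (by norm_num) (by norm_num) hX hY h (1/2) (1/2)
  convert h1 using 3
  · ring
  · norm_num
  · ring

end Pool.Agent.DLM
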