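import Pool.Agent.DLM.PIC
import Pool.Agent.DLM.ROT

/-!
# DLM/QUE: the Brownian Burke theorem (80-120 lines)

`X = f - B`, `Y = f + B`: independent, variance `2`, drift `μ` (`rot_*`).  `que f B t = B t + rmx X t`, and `que f B t - que f B 0 = (Y t - Y 0 + pit X t)/2 + ..` precisely: `que f B t - que f B 0 = (B t - B 0) + (rmx X t - rmx X 0) = ((Y t - Y 0) + pit X t)/2`.
`pit X` (a function of `X`) is a Brownian motion (`pit_bm` with `κ = μ/2`) independent of `Y`: `rot_half` gives `que_bm` (`Y 0 = 0` a.s.: replace `Y` by `Y - Y 0`, congruence of `IsBM` under a.s. equality at each time and a.s. continuity).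
`q = que f B T - f T = rmx X T - X T`: law `pit_q`; `past (que f B) T = (past Y T + past (pit X) T)/2`; `past (pit X) T ⟂ q` (`pit_past`) and `Y ⟂ X`: so `(past Y T, past (pit X) T) ⟂ q`.
-/

set_option autoImplicit false

open MeasureTheory ProbabilityTheory Filter Topology

namespace Pool.Agent.DLM

variable {Ω : Type*} [MeasurableSpace Ω] {P : Measure Ω} [IsProbabilityMeasure P]

private lemma que_meas_rmx (t : ℝ) : Measurable fun x : ℝ → ℝ => rmx x t := by
  unfold rmx
  exact Measurable.iSup fun q => measurable_pi_apply _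

private lemma que_meas_pit : Measurable fun x : ℝ → ℝ => fun t => pit x t := by
  refine measurable_pi_iff.2 fun t => ?_
  unfold pit
  exact (((que_meas_rmx t).sub (que_meas_rmx 0)).const_mul 2).sub
    ((measurable_pi_apply t).sub (measurable_pi_apply 0))

private lemma que_meas_proc {X : ℝ → Ω → ℝ} {v b : ℝ} (hX : IsBM P X v b) :
    Measurable fun ω => fun t => X t ω :=
  measurable_pi_iff.2 fun t => hX.meas t

private lemma que_sub_zero {Y : ℝ → Ω → ℝ} {v b : ℝ} (hY : IsBM P Y v b) :
    IsBM P (fun t ω => Y t ω - Y 0 ω) v b where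
  meas t := (hY.meas t).sub (hY.meas 0)
  cont := by
    filter_upwards [hY.cont] with ω hω
    exact hω.sub continuous_const
  zero := by
    filter_upwards with ω
    simp
  gauss s t hst := by
    have := hY.gauss s t hst
    rw [← this]
    congr 1
    funext ω
    ring
  indep t ht := by
    have := hY.indep t ht
    have e : (fun (i : ℕ) (ω : Ω) => (Y (t (i + 1)) ω - Y 0 ω) - (Y (t i) ω - Y 0 ω)) =
        fun (i : ℕ) (ω : Ω) => Y (t (i + 1)) ω - Y (t i) ω := by
      funext i ω
      ring
    rw [e]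
    exact this

private lemma que_eq (f B : ℝ → ℝ) (t : ℝ) :
    que f B t - que f B 0 = (((f t + B t) - (f 0 + B 0)) + pit (fun s => f s - B s) t) / 2 := by
  unfold que pit
  ring

theorem que_bdd {f B : ℝ → Ω → ℝ} {μ : ℝ} (hμ : 0 < μ) (hf : IsBM P f 1 μ) (hB : IsBM P B 1 0)
    (h : IndepFun (fun ω t => f t ω) (fun ω t => B t ω) P) :
    ∀ᵐ ω ∂P, ∀ t : ℝ, BddAbove (Set.range fun q : ℚ => f (min (q : ℝ) t) ω - B (min (q : ℝ) t) ω) := by
  have hX := rot_sub hf hB h
  have h2 : (2 * (μ / 2)) = μ := by ring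
  exact pit_bdd (κ := μ / 2) (half_pos hμ) (by rw [h2]; exact hX)

theorem que_bm {f B : ℝ → Ω → ℝ} {μ : ℝ} (hμ : 0 < μ) (hf : IsBM P f 1 μ) (hB : IsBM P B 1 0)
    (h : IndepFun (fun ω t => f t ω) (fun ω t => B t ω) P) :
    IsBM P (fun t ω => que (fun s => f s ω) (fun s => B s ω) t - que (fun s => f s ω) (fun s => B s ω) 0) 1 μ := by
  have hX := rot_sub hf hB h
  have hY := rot_add hf hB h
  have hXY := rot_indep hf hB h
  have h2 : (2 * (μ / 2)) = μ := by ring
  have hpit := pit_bm (κ := μ / 2) (half_pos hμ) (by rw [h2]; exact hX)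
  rw [h2] at hpit
  have hY' := que_sub_zero hY
  have hsub : Measurable fun y : ℝ → ℝ => fun t => y t - y 0 :=
    measurable_pi_iff.2 fun t => (measurable_pi_apply t).sub (measurable_pi_apply 0)
  have hind := hXY.comp que_meas_pit hsub
  have hfin := rot_half hpit hY' hind
  have heq : (fun t ω => que (fun s => f s ω) (fun s => B s ω) t - que (fun s => f s ω) (fun s => B s ω) 0) =
      fun t ω => (((f t ω + B t ω) - (f 0 ω + B 0 ω)) + pit (fun s => f s ω - B s ω) t) / 2 := by
    funext t ω
    exact que_eq _ _ t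
  rw [heq]
  exact hfin

theorem que_q {f B : ℝ → Ω → ℝ} {μ : ℝ} (hμ : 0 < μ) (hf : IsBM P f 1 μ) (hB : IsBM P B 1 0)
    (h : IndepFun (fun ω t => f t ω) (fun ω t => B t ω) P) (T : ℝ) :
    P.map (fun ω => que (fun s => f s ω) (fun s => B s ω) T - f T ω) = expMeasure μ := by
  have hX := rot_sub hf hB h
  have h2 : (2 * (μ / 2)) = μ := by ring
  have hq := pit_q (κ := μ / 2) (half_pos hμ) (by rw [h2]; exact hX) T
  rw [h2] at hq
  rw [← hq]
  congr 1
  funext ω
  unfold que
  ring

theorem que_past {f B : ℝ → Ω → ℝ} {μ : ℝ} (hμ : 0 < μ) (hf : IsBM P f 1 μ) (hB : IsBM P B 1 0)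
    (h : IndepFun (fun ω t => f t ω) (fun ω t => B t ω) P) (T : ℝ) :
    IndepFun (fun ω => past (que (fun s => f s ω) (fun s => B s ω)) T)
      (fun ω => que (fun s => f s ω) (fun s => B s ω) T - f T ω) P := by
  have hX := rot_sub hf hB h
  have hY := rot_add hf hB h
  have hXY := rot_indep hf hB h
  have h2 : (2 * (μ / 2)) = μ := by ring
  have hpast := pit_past (κ := μ / 2) (half_pos hμ) (by rw [h2]; exact hX) T
  have hmX := que_meas_proc hX
  have hmY := que_meas_proc hY
  have hU : Measurable fun x : ℝ → ℝ => past (pit x) T := by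
    refine measurable_pi_iff.2 fun s => ?_
    unfold past
    have h3 : ∀ u : ℝ, Measurable fun x : ℝ → ℝ => pit x u := fun u =>
      (measurable_pi_apply u).comp que_meas_pit
    exact (h3 _).sub (h3 _)
  have hV : Measurable fun x : ℝ → ℝ => rmx x T - x T :=
    (que_meas_rmx T).sub (measurable_pi_apply T)
  have hJUV := hXY.symm.comp (measurable_id) (hU.prodMk hV)
  have h3 := indep_three (J := fun ω => fun t => f t ω + B t ω)
    (U := fun ω => past (pit fun s => f s ω - B s ω) T)
    (V := fun ω => rmx (fun s => f s ω - B s ω) T - (f T ω - B T ω))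
    hmY (hU.comp hmX) (hV.comp hmX) hJUV hpast
  have hφ : Measurable fun p : (ℝ → ℝ) × (ℝ → ℝ) => fun s => ((p.1 (min s T) - p.1 T) + p.2 s) / 2 := by
    refine measurable_pi_iff.2 fun s => ?_
    have m1 : ∀ u : ℝ, Measurable fun p : (ℝ → ℝ) × (ℝ → ℝ) => p.1 u := fun u =>
      (measurable_pi_apply u).comp measurable_fst
    have m2 : ∀ u : ℝ, Measurable fun p : (ℝ → ℝ) × (ℝ → ℝ) => p.2 u := fun u =>
      (measurable_pi_apply u).comp measurable_snd
    exact (((m1 _).sub (m1 _)).add (m2 _)).div_const (2 : ℝ)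
  have h4 := h3.comp hφ measurable_id
  have e1 : (fun ω => past (que (fun s => f s ω) (fun s => B s ω)) T) =
      (fun p : (ℝ → ℝ) × (ℝ → ℝ) => fun s => ((p.1 (min s T) - p.1 T) + p.2 s) / 2) ∘
        fun ω => ((fun t => f t ω + B t ω), past (pit fun s => f s ω - B s ω) T) := by
    funext ω s
    have h5 := que_eq (fun s => f s ω) (fun s => B s ω) (min s T)
    have h6 := que_eq (fun s => f s ω) (fun s => B s ω) T
    simp only [past, Function.comp]
    linarith
  have e2 : (fun ω => que (fun s => f s ω) (fun s => B s ω) T - f T ω) =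
      id ∘ fun ω => rmx (fun s => f s ω - B s ω) T - (f T ω - B T ω) := by
    funext ω
    simp only [Function.comp, id, que]
    ring
  rw [e1, e2]
  exact h4

end Pool.Agent.DLM
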