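import Pool.Agent.DLM.EDefs

/-!
# DLM/SPL: splitting the sequence of sheets (60-100 lines)

`piM_shf`: `Measure.map_infinitePi_infinitePi_of_inj` (`f l = s + l`).  `piM_cons`: the map `(T, S') ↦ fun l => if l = 0 then T else S' (l - 1)` is inverse to `S ↦ (S 0, shf S 1)`; by `Measure.eq_infinitePi` the image of the product measure is the infinite product (boxes: split the finite set into `{0}` and the rest).
Or: `iIndepFun` of the coordinates (`iIndepFun_infinitePi`) and independence of `S 0` and `(S (1+l))_l` (`iIndepFun.indepFun_finset` is only for finite sets; the box criterion is easier).  `piM_eval`: `infinitePi_map_eval`.  `piM_indep`.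
-/

set_option autoImplicit false

open MeasureTheory ProbabilityTheory Filter Topology

namespace Pool.Agent.DLM

variable {ν : ℝ → Measure Kern} {tw : Measure ℝ} {β : ℝ → Measure Ini}

theorem piM_prob (h : Base ν tw β) {dur : ℕ → ℝ} (hd : ∀ l, 0 < dur l) : IsProbabilityMeasure (piM ν dur) := by
  have hp : ∀ l, IsProbabilityMeasure (ν (dur l)) := fun l => h.prob _ (hd l)
  unfold piM
  infer_instance

theorem envM_prob (h : Base ν tw β) {dur : ℕ → ℝ} (hd : ∀ l, 0 < dur l) (b : ℝ) :
    IsProbabilityMeasure (envM ν β dur b) := by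
  have h1 := piM_prob h hd
  have h2 : IsProbabilityMeasure (β b) := (h.bm b).prob
  unfold envM
  infer_instance

theorem shf_meas (s : ℕ) : Measurable fun S : ℕ → Kern => shf S s :=
  measurable_pi_lambda _ fun l => measurable_pi_apply (s + l)

theorem piM_eval (h : Base ν tw β) {dur : ℕ → ℝ} (hd : ∀ l, 0 < dur l) (l : ℕ) :
    (piM ν dur).map (fun S => S l) = ν (dur l) := by
  have hp : ∀ l, IsProbabilityMeasure (ν (dur l)) := fun l => h.prob _ (hd l)
  exact Measure.infinitePi_map_eval (fun l => ν (dur l)) l

theorem piM_indep (h : Base ν tw β) {dur : ℕ → ℝ} (hd : ∀ l, 0 < dur l) :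
    iIndepFun (fun (l : ℕ) (S : ℕ → Kern) => S l) (piM ν dur) := by
  have hp : ∀ l, IsProbabilityMeasure (ν (dur l)) := fun l => h.prob _ (hd l)
  exact iIndepFun_infinitePi (P := fun l => ν (dur l)) (X := fun _ T => T) fun _ => measurable_id

theorem piM_shf (h : Base ν tw β) {dur : ℕ → ℝ} (hd : ∀ l, 0 < dur l) (s : ℕ) :
    (piM ν dur).map (fun S => shf S s) = piM ν (fun l => dur (s + l)) := by
  have hp : ∀ l, IsProbabilityMeasure (ν (dur l)) := fun l => h.prob _ (hd l)
  exact Measure.map_infinitePi_infinitePi_of_inj (P := fun l => ν (dur l)) (f := fun l => s + l)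
    fun a b hab => Nat.add_left_cancel hab

/-- the sequence with first term `T` -/
private def scons (p : Kern × (ℕ → Kern)) : ℕ → Kern
  | 0 => p.1
  | l + 1 => p.2 l

private theorem scons_meas : Measurable scons := by
  refine measurable_pi_lambda _ fun l => ?_
  cases l with
  | zero => exact measurable_fst
  | succ l => exact (measurable_pi_apply l).comp measurable_snd

private theorem scons_inv (p : Kern × (ℕ → Kern)) : ((scons p) 0, shf (scons p) 1) = p := by
  refine Prod.ext rfl ?_
  funext l
  show scons p (1 + l) = p.2 l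
  rw [Nat.add_comm]
  rfl

private theorem scons_law (h : Base ν tw β) {dur : ℕ → ℝ} (hd : ∀ l, 0 < dur l) :
    ((ν (dur 0)).prod (piM ν (fun l => dur (1 + l)))).map scons = piM ν dur := by
  have hp : ∀ l, IsProbabilityMeasure (ν (dur l)) := fun l => h.prob _ (hd l)
  have hp1 : ∀ l, IsProbabilityMeasure (ν (dur (1 + l))) := fun l => h.prob _ (hd _)
  have hp2 : IsProbabilityMeasure (piM ν fun l => dur (1 + l)) := piM_prob h fun l => hd (1 + l)
  refine Measure.eq_infinitePi (fun l => ν (dur l)) fun s t ht => ?_
  classical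
  obtain ⟨N, hN⟩ : ∃ N, s ⊆ Finset.range (N + 1) := by
    refine ⟨s.sup id, fun i hi => ?_⟩
    rw [Finset.mem_range, Nat.lt_succ_iff]
    exact Finset.le_sup (f := id) hi
  set t' : ℕ → Set Kern := fun l => if l ∈ s then t l else Set.univ with ht'
  have hm' : ∀ l, MeasurableSet (t' l) := by
    intro l
    simp only [ht']
    split_ifs
    · exact ht l
    · exact MeasurableSet.univ
  have e1 : Set.pi (s : Set ℕ) t = Set.pi ((Finset.range (N + 1) : Finset ℕ) : Set ℕ) t' := by
    ext x
    simp only [Set.mem_pi, Finset.mem_coe, ht']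
    constructor
    · intro hx i _
      split_ifs with hi
      · exact hx i hi
      · exact Set.mem_univ _
    · intro hx i hi
      have := hx i (hN hi)
      rwa [if_pos hi] at this
  have e2 : ∏ i ∈ s, ν (dur i) (t i) = ∏ i ∈ Finset.range (N + 1), ν (dur i) (t' i) := by
    rw [← Finset.prod_subset hN (f := fun i => ν (dur i) (t' i))]
    · refine Finset.prod_congr rfl fun i hi => ?_
      simp only [ht', if_pos hi]
    · intro i _ hi
      simp only [ht', if_neg hi]
      exact measure_univ
  have e3 : scons ⁻¹' (Set.pi ((Finset.range (N + 1) : Finset ℕ) : Set ℕ) t') =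
      (t' 0) ×ˢ (Set.pi ((Finset.range N : Finset ℕ) : Set ℕ) fun l => t' (l + 1)) := by
    ext p
    simp only [Set.mem_preimage, Set.mem_pi, Finset.mem_coe, Finset.mem_range, Set.mem_prod]
    constructor
    · intro hx
      exact ⟨hx 0 (Nat.succ_pos _), fun i hi => hx (i + 1) (Nat.succ_lt_succ hi)⟩
    · rintro ⟨h0, h1⟩ i hi
      cases i with
      | zero => exact h0
      | succ i => exact h1 i (Nat.lt_of_succ_lt_succ hi)
  have hb : MeasurableSet (Set.pi ((Finset.range (N + 1) : Finset ℕ) : Set ℕ) t') :=
    MeasurableSet.pi (Finset.countable_toSet _) fun i _ => hm' i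
  have e4 : (piM ν fun l => dur (1 + l)) (Set.pi ((Finset.range N : Finset ℕ) : Set ℕ) fun l => t' (l + 1)) =
      ∏ i ∈ Finset.range N, ν (dur (i + 1)) (t' (i + 1)) := by
    have h4 := Measure.infinitePi_pi (fun l => ν (dur (1 + l))) (s := Finset.range N)
      (t := fun l => t' (l + 1)) fun i _ => hm' (i + 1)
    refine Eq.trans h4 (Finset.prod_congr rfl fun i _ => ?_)
    rw [Nat.add_comm 1 i]
  rw [e1, e2, Measure.map_apply scons_meas hb, e3, Measure.prod_prod, e4, Finset.prod_range_succ', mul_comm]

theorem piM_cons (h : Base ν tw β) {dur : ℕ → ℝ} (hd : ∀ l, 0 < dur l) :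
    (piM ν dur).map (fun S => (S 0, shf S 1)) = (ν (dur 0)).prod (piM ν (fun l => dur (1 + l))) := by
  have hm : Measurable fun S : ℕ → Kern => (S 0, shf S 1) := (measurable_pi_apply 0).prodMk (shf_meas 1)
  rw [← scons_law h hd, Measure.map_map hm scons_meas]
  have e : (fun S : ℕ → Kern => (S 0, shf S 1)) ∘ scons = id := by
    funext p
    exact scons_inv p
  rw [e, Measure.map_id]

end Pool.Agent.DLM
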