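import Pool.Agent.DLM.FDefs
import Pool.Agent.DLM.DUR

/-!
# DLM/TIM: times (50-80 lines, arithmetic)

`tauW_succ`: `sgW (l+1) = sgW l + durW l`.  `tauW_zero_ge`: the total is `≤ 4` (`durW_total`), `4/w^900 ≤ 1/2`.  `tauW_blk`: for `b ≤ l ≤ l' ≤ b + k`: `tauW l' - tauW l = ∑ durW/w^900 = (l' - l) (1/w^300)/w^900` (`durW_blk`).  `tauW_close`: `|1 - tauW l| ≤ 4/w^900` for `l ≤ KW`.
-/

set_option autoImplicit false

open MeasureTheory ProbabilityTheory Filter Topology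

namespace Pool.Agent.DLM

private theorem TIM_sg_succ (w k l : ℕ) : sgW w k (l + 1) = sgW w k l + durW w k l := by
  unfold sgW
  rw [Finset.sum_range_succ]

private theorem TIM_sg_mono (w k : ℕ) (hw : 1 ≤ w) : StrictMono (sgW w k) := by
  refine strictMono_nat_of_lt_succ fun l => ?_
  rw [TIM_sg_succ]
  have := durW_pos w k l hw
  linarith

private theorem TIM_sub (w k l l' : ℕ) : tauW w k l' - tauW w k l = (sgW w k l' - sgW w k l) / (w : ℝ) ^ 900 := by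
  unfold tauW
  ring

private theorem TIM_sg_blk (w k i l : ℕ) (hi : i < w ^ 2) (hl : l ≤ k) :
    sgW w k (bW k i + l) = sgW w k (bW k i) + l * (1 / (w : ℝ) ^ 300) := by
  induction l with
  | zero => simp
  | succ l ih =>
    rw [← Nat.add_assoc, TIM_sg_succ, ih (by omega), durW_blk w k i l hi (by omega)]
    push_cast
    ring

private theorem TIM_close (w k : ℕ) (hw : 1 ≤ w) (hk : k ≤ w) : 1 - tauW w k 0 ≤ 4 / (w : ℝ) ^ 900 := by
  have hw0 : (0 : ℝ) < w := by exact_mod_cast hw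
  have hw1 : (1 : ℝ) ≤ w := by exact_mod_cast hw
  have h0 : sgW w k 0 = 0 := by simp [sgW]
  have h1 : sgW w k (KW w k) = 3 + (w : ℝ) ^ 2 * (k / (w : ℝ) ^ 300) := durW_total w k hw
  have h2 : (w : ℝ) ^ 2 * (k / (w : ℝ) ^ 300) ≤ 1 := by
    have hk' : (k : ℝ) ≤ w := by exact_mod_cast hk
    rw [← mul_div_assoc, div_le_one (by positivity)]
    calc (w : ℝ) ^ 2 * k ≤ (w : ℝ) ^ 2 * w := by gcongr
      _ = (w : ℝ) ^ 3 := by ring
      _ ≤ (w : ℝ) ^ 300 := pow_le_pow_right₀ hw1 (by norm_num)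
  have h3 : 1 - tauW w k 0 = (3 + (w : ℝ) ^ 2 * (k / (w : ℝ) ^ 300)) / (w : ℝ) ^ 900 := by
    unfold tauW
    rw [h0, h1]
    ring
  rw [h3]
  gcongr
  linarith

theorem tauW_last (w k : ℕ) : tauW w k (KW w k) = 1 := by
  unfold tauW
  simp

theorem tauW_succ (w k l : ℕ) (hw : 1 ≤ w) : tauW w k (l + 1) - tauW w k l = durW w k l / (w : ℝ) ^ 900 := by
  rw [TIM_sub, TIM_sg_succ]
  ring

theorem tauW_mono (w k : ℕ) (hw : 1 ≤ w) : StrictMono (tauW w k) := by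
  intro l l' h
  have h1 := TIM_sg_mono w k hw h
  have h2 := TIM_sub w k l l'
  have hw0 : (0 : ℝ) < w := by exact_mod_cast hw
  have h3 : 0 < (sgW w k l' - sgW w k l) / (w : ℝ) ^ 900 := div_pos (by linarith) (by positivity)
  linarith

theorem tauW_zero_ge (w k : ℕ) (hw : 2 ≤ w) (hk : k ≤ w) : 1 / 2 ≤ tauW w k 0 := by
  have h1 := TIM_close w k (by omega) hk
  have hw2 : (2 : ℝ) ≤ w := by exact_mod_cast hw
  have h2 : (8 : ℝ) ≤ (w : ℝ) ^ 900 := by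
    calc (8 : ℝ) = 2 ^ 3 := by norm_num
      _ ≤ (w : ℝ) ^ 3 := by gcongr
      _ ≤ (w : ℝ) ^ 900 := pow_le_pow_right₀ (by linarith) (by norm_num)
  have h3 : 4 / (w : ℝ) ^ 900 ≤ 1 / 2 := by
    rw [div_le_div_iff₀ (by linarith) (by norm_num)]
    linarith
  linarith

theorem tauW_le_one (w k l : ℕ) (hw : 1 ≤ w) (hl : l ≤ KW w k) : tauW w k l ≤ 1 := by
  have h := (tauW_mono w k hw).monotone hl
  rw [tauW_last] at h
  exact h

theorem tauW_close (w k : ℕ) (hw : 1 ≤ w) (hk : k ≤ w) : 1 - tauW w k 0 ≤ 4 / (w : ℝ) ^ 900 :=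
  TIM_close w k hw hk

theorem tauW_blk (w k i l l' : ℕ) (hw : 1 ≤ w) (hi : i < w ^ 2) (h1 : bW k i ≤ l) (h2 : l ≤ bW k i + k) (h3 : bW k i ≤ l')
    (h4 : l' ≤ bW k i + k) : |tauW w k l' - tauW w k l| ≤ k / (w : ℝ) ^ 1200 := by
  have hw0 : (0 : ℝ) < w := by exact_mod_cast hw
  obtain ⟨a, rfl⟩ : ∃ a, l = bW k i + a := ⟨l - bW k i, by omega⟩
  obtain ⟨b, rfl⟩ : ∃ b, l' = bW k i + b := ⟨l' - bW k i, by omega⟩
  have ha : a ≤ k := by omega
  have hb : b ≤ k := by omega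
  rw [TIM_sub, TIM_sg_blk w k i a hi ha, TIM_sg_blk w k i b hi hb]
  have h5 : (sgW w k (bW k i) + (b : ℝ) * (1 / (w : ℝ) ^ 300) - (sgW w k (bW k i) + a * (1 / (w : ℝ) ^ 300))) /
      (w : ℝ) ^ 900 = ((b : ℝ) - a) / (w : ℝ) ^ 1200 := by
    have h6 : (w : ℝ) ^ 1200 = (w : ℝ) ^ 300 * (w : ℝ) ^ 900 := by rw [← pow_add]
    rw [h6]
    field_simp
    ring
  rw [h5, abs_div, abs_of_pos (show (0 : ℝ) < (w : ℝ) ^ 1200 by positivity)]
  gcongr
  have ha' : (a : ℝ) ≤ k := by exact_mod_cast ha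
  have hb' : (b : ℝ) ≤ k := by exact_mod_cast hb
  have ha0 : (0 : ℝ) ≤ a := by positivity
  have hb0 : (0 : ℝ) ≤ b := by positivity
  rw [abs_le]
  constructor <;> linarith

end Pool.Agent.DLM
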