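import Pool.Agent.DLM.NTDefs

/-!
# DLM/TNT: tents and their energy (80-120 lines)

`energy_of_lip`: if `|h y - h x| ≤ s (y - x)` for `x ≤ y` and `h = 0` outside `[a, c]` then for `x < y`: `|h y - h x| ≤ s o`, `o = max 0 (min y c - max x a)` (cases: both outside on the same side: `0`; otherwise replace `x` by
`max x a` and `y` by `min y c`: `h x = h (max x a)` as `h a = 0` if `x < a` (note that `h` vanishes at points `< a` close to `a`, and by the Lipschitz bound `h a = 0`; here `a, c` rational)).  So `(h y - h x)^2/(y - x) ≤ s^2 o^2/(y-x) ≤ s^2 o`,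
and `∑ o_i ≤ c - a` (telescoping: `o_i = clamp (t (i+1)) - clamp (t i)` with `clamp z = max a (min z c)`).
`tA_energy`: `θ tA`, `0 ≤ θ`, `θ^2 ≤ D`: `s = θ/D`, `[l D, (l+10) D]`: `θ^2/D^2 · 10 D ≤ 10`.  `tB_energy`: `2 √D tB`: `s = 2 √D/D`, length `3 D`: `4/D · 3 D = 12`.  Values of the tents: `tA_le`, `tA_ge`, `tB_one`, `tB_zero`: elementary.
-/

set_option autoImplicit false

open MeasureTheory ProbabilityTheory Filter Topology

namespace Pool.Agent.DLM

private theorem tnt_zero_left (h : ℚ → ℝ) (s : ℝ) (hs : 0 ≤ s) (a : ℚ)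
    (hl : ∀ x y : ℚ, x ≤ y → |h y - h x| ≤ s * ((y : ℝ) - x)) (ha : ∀ x, x < a → h x = 0) : h a = 0 := by
  by_contra hne
  have hpos : 0 < |h a| := abs_pos.mpr hne
  have hs1 : 0 < s + 1 := by linarith
  obtain ⟨ε, hε0, hε1⟩ := exists_rat_btwn (show (0 : ℝ) < |h a| / (s + 1) from div_pos hpos hs1)
  have hε0' : (0 : ℚ) < ε := by exact_mod_cast hε0
  have h1 := hl (a - ε) a (by linarith)
  rw [ha (a - ε) (by linarith), sub_zero] at h1
  push_cast at h1
  rw [lt_div_iff₀ hs1] at hε1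
  nlinarith

private theorem tnt_zero_right (h : ℚ → ℝ) (s : ℝ) (hs : 0 ≤ s) (c : ℚ)
    (hl : ∀ x y : ℚ, x ≤ y → |h y - h x| ≤ s * ((y : ℝ) - x)) (hc : ∀ x, c < x → h x = 0) : h c = 0 := by
  by_contra hne
  have hpos : 0 < |h c| := abs_pos.mpr hne
  have hs1 : 0 < s + 1 := by linarith
  obtain ⟨ε, hε0, hε1⟩ := exists_rat_btwn (show (0 : ℝ) < |h c| / (s + 1) from div_pos hpos hs1)
  have hε0' : (0 : ℚ) < ε := by exact_mod_cast hε0
  have h1 := hl c (c + ε) (by linarith)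
  rw [hc (c + ε) (by linarith), zero_sub, abs_neg] at h1
  push_cast at h1
  rw [lt_div_iff₀ hs1] at hε1
  nlinarith

private theorem tnt_clamp (h : ℚ → ℝ) (s : ℝ) (hs : 0 ≤ s) (a c : ℚ) (hac : a ≤ c)
    (hl : ∀ x y : ℚ, x ≤ y → |h y - h x| ≤ s * ((y : ℝ) - x)) (ha : ∀ x, x < a → h x = 0) (hc : ∀ x, c < x → h x = 0)
    (x : ℚ) : h x = h (max a (min x c)) := by
  rcases lt_or_ge x a with h1 | h1
  · rw [min_eq_left (by linarith), max_eq_left h1.le, ha x h1, tnt_zero_left h s hs a hl ha]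
  · rcases lt_or_ge c x with h2 | h2
    · rw [min_eq_right h2.le, max_eq_right hac, hc x h2, tnt_zero_right h s hs c hl hc]
    · rw [min_eq_left h2, max_eq_right h1]

theorem energy_of_lip (h : ℚ → ℝ) (s : ℝ) (hs : 0 ≤ s) (a c : ℚ) (hac : a ≤ c)
    (hl : ∀ x y : ℚ, x ≤ y → |h y - h x| ≤ s * ((y : ℝ) - x)) (ha : ∀ x, x < a → h x = 0) (hc : ∀ x, c < x → h x = 0) :
    Energy h (s ^ 2 * ((c : ℝ) - a)) := by
  intro t ht n
  have hterm : ∀ i ∈ Finset.range n, (h (t (i + 1)) - h (t i)) ^ 2 / ((t (i + 1) : ℝ) - t i) ≤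
      s ^ 2 * (((max a (min (t (i + 1)) c) : ℚ) : ℝ) - ((max a (min (t i) c) : ℚ) : ℝ)) := by
    intro i _
    have hlt : t i < t (i + 1) := ht (Nat.lt_succ_self i)
    have hltR : (t i : ℝ) < (t (i + 1) : ℝ) := by exact_mod_cast hlt
    have hm : max a (min (t i) c) ≤ max a (min (t (i + 1)) c) := max_le_max le_rfl (min_le_min hlt.le le_rfl)
    have h1 := hl _ _ hm
    rw [← tnt_clamp h s hs a c hac hl ha hc, ← tnt_clamp h s hs a c hac hl ha hc] at h1
    have hmR : ((max a (min (t i) c) : ℚ) : ℝ) ≤ ((max a (min (t (i + 1)) c) : ℚ) : ℝ) := by exact_mod_cast hm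
    have hoQ : max a (min (t (i + 1)) c) - max a (min (t i) c) ≤ t (i + 1) - t i := by
      rcases max_cases a (min (t (i + 1)) c) with ⟨e1, e1'⟩ | ⟨e1, e1'⟩ <;>
      rcases max_cases a (min (t i) c) with ⟨e2, e2'⟩ | ⟨e2, e2'⟩ <;>
      rcases min_cases (t (i + 1)) c with ⟨e3, e3'⟩ | ⟨e3, e3'⟩ <;>
      rcases min_cases (t i) c with ⟨e4, e4'⟩ | ⟨e4, e4'⟩ <;>
      linarith
    have ho : ((max a (min (t (i + 1)) c) : ℚ) : ℝ) - ((max a (min (t i) c) : ℚ) : ℝ) ≤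
        (t (i + 1) : ℝ) - t i := by exact_mod_cast hoQ
    set o : ℝ := ((max a (min (t (i + 1)) c) : ℚ) : ℝ) - ((max a (min (t i) c) : ℚ) : ℝ) with hodef
    have ho0 : 0 ≤ o := by rw [hodef]; linarith
    have hd : 0 < (t (i + 1) : ℝ) - t i := by linarith
    rw [div_le_iff₀ hd]
    have h2 : (h (t (i + 1)) - h (t i)) ^ 2 ≤ (s * o) ^ 2 := by
      rw [← sq_abs (h (t (i + 1)) - h (t i))]
      exact pow_le_pow_left₀ (abs_nonneg _) h1 2
    calc (h (t (i + 1)) - h (t i)) ^ 2 ≤ (s * o) ^ 2 := h2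
      _ = s ^ 2 * o * o := by ring
      _ ≤ s ^ 2 * o * ((t (i + 1) : ℝ) - t i) := mul_le_mul_of_nonneg_left ho (by positivity)
  refine (Finset.sum_le_sum hterm).trans ?_
  rw [← Finset.mul_sum, Finset.sum_range_sub (fun i => ((max a (min (t i) c) : ℚ) : ℝ)) n]
  refine mul_le_mul_of_nonneg_left ?_ (sq_nonneg s)
  have h1 : max a (min (t n) c) ≤ c := max_le hac (min_le_right _ _)
  have h2 : a ≤ max a (min (t 0) c) := le_max_left _ _
  have h1' : ((max a (min (t n) c) : ℚ) : ℝ) ≤ (c : ℝ) := by exact_mod_cast h1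
  have h2' : (a : ℝ) ≤ ((max a (min (t 0) c) : ℚ) : ℝ) := by exact_mod_cast h2
  linarith

private theorem tnt_mono {h : ℚ → ℝ} {e e' : ℝ} (he : Energy h e) (hee : e ≤ e') : Energy h e' :=
  fun t ht n => (he t ht n).trans hee

private theorem tnt_lipA (L u z : ℝ) (huz : u ≤ z) :
    |max 0 (min (z - L) (L + 10 - z)) - max 0 (min (u - L) (L + 10 - u))| ≤ z - u := by
  rw [abs_le]
  constructor <;>
  rcases max_cases 0 (min (z - L) (L + 10 - z)) with ⟨e1, e1'⟩ | ⟨e1, e1'⟩ <;>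
  rcases max_cases 0 (min (u - L) (L + 10 - u)) with ⟨e2, e2'⟩ | ⟨e2, e2'⟩ <;>
  rcases min_cases (z - L) (L + 10 - z) with ⟨e3, e3'⟩ | ⟨e3, e3'⟩ <;>
  rcases min_cases (u - L) (L + 10 - u) with ⟨e4, e4'⟩ | ⟨e4, e4'⟩ <;>
  linarith

private theorem tnt_lip_min (b a c : ℝ) (d : ℝ) (a' c' : ℝ) (h1 : |a - a'| ≤ d) (h2 : |c - c'| ≤ d) (hd : 0 ≤ d) :
    |max 0 (min b (min a c)) - max 0 (min b (min a' c'))| ≤ d := by
  refine (abs_max_sub_max_le_max _ _ _ _).trans (max_le (by simpa using hd) ?_)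
  refine (abs_min_sub_min_le_max _ _ _ _).trans (max_le (by simpa using hd) ?_)
  exact (abs_min_sub_min_le_max _ _ _ _).trans (max_le h1 h2)

private theorem tnt_lipB (L u z : ℝ) (huz : u ≤ z) :
    |max 0 (min 1 (min (z - (L - 1)) (L + 2 - z))) - max 0 (min 1 (min (u - (L - 1)) (L + 2 - u)))| ≤ z - u := by
  refine tnt_lip_min 1 _ _ (z - u) _ _ ?_ ?_ (by linarith)
  · rw [show z - (L - 1) - (u - (L - 1)) = z - u by ring, abs_of_nonneg (by linarith)]
  · rw [show L + 2 - z - (L + 2 - u) = -(z - u) by ring, abs_neg, abs_of_nonneg (by linarith)]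

theorem tA_energy (D : ℚ) (hD : 0 < D) (l : ℤ) (θ : ℝ) (h0 : 0 ≤ θ) (h1 : θ ^ 2 ≤ D) :
    Energy (fun x => θ * tA D l x) 10 := by
  have hDR : (0 : ℝ) < D := by exact_mod_cast hD
  refine tnt_mono (energy_of_lip (fun x => θ * tA D l x) (θ / D) (by positivity) (l * D) ((l + 10) * D) ?_ ?_ ?_ ?_) ?_
  · nlinarith
  · intro x y hxy
    have hxyR : (x : ℝ) ≤ y := by exact_mod_cast hxy
    have hdiv : (x : ℝ) / D ≤ (y : ℝ) / D := div_le_div_of_nonneg_right hxyR hDR.le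
    have h2 := tnt_lipA (l : ℝ) ((x : ℝ) / D) ((y : ℝ) / D) hdiv
    have e1 : θ * tA D l y - θ * tA D l x = θ * (tA D l y - tA D l x) := by ring
    rw [e1, abs_mul, abs_of_nonneg h0]
    have e2 : θ / D * ((y : ℝ) - x) = θ * ((y : ℝ) / D - (x : ℝ) / D) := by field_simp
    rw [e2]
    exact mul_le_mul_of_nonneg_left h2 h0
  · intro x hx
    have hxR : (x : ℝ) < l * D := by
      have : ((x : ℚ) : ℝ) < ((l * D : ℚ) : ℝ) := by exact_mod_cast hx
      simpa using this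
    have h2 : (x : ℝ) / D < l := by rwa [div_lt_iff₀ hDR]
    have h3 : tA D l x = 0 := by
      unfold tA
      exact max_eq_left ((min_le_left _ _).trans (by linarith))
    rw [h3, mul_zero]
  · intro x hx
    have hxR : ((l : ℝ) + 10) * D < x := by
      have : (((l + 10) * D : ℚ) : ℝ) < ((x : ℚ) : ℝ) := by exact_mod_cast hx
      simpa using this
    have h2 : (l : ℝ) + 10 < (x : ℝ) / D := by rwa [lt_div_iff₀ hDR]
    have h3 : tA D l x = 0 := by
      unfold tA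
      exact max_eq_left ((min_le_right _ _).trans (by linarith))
    rw [h3, mul_zero]
  · push_cast
    have e : (θ / D) ^ 2 * (((l : ℝ) + 10) * D - l * D) = 10 * (θ ^ 2 / D) := by
      field_simp
      ring
    rw [e]
    have : θ ^ 2 / D ≤ 1 := by rw [div_le_one hDR]; exact h1
    linarith

theorem tB_energy (D : ℚ) (hD : 0 < D) (l : ℤ) : Energy (fun x => 2 * √(D : ℝ) * tB D l x) 12 := by
  have hDR : (0 : ℝ) < D := by exact_mod_cast hD
  refine tnt_mono (energy_of_lip (fun x => 2 * √(D : ℝ) * tB D l x) (2 * √(D : ℝ) / D) (by positivity)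
    ((l - 1) * D) ((l + 2) * D) ?_ ?_ ?_ ?_) ?_
  · nlinarith
  · intro x y hxy
    have hxyR : (x : ℝ) ≤ y := by exact_mod_cast hxy
    have hdiv : (x : ℝ) / D ≤ (y : ℝ) / D := div_le_div_of_nonneg_right hxyR hDR.le
    have h2 := tnt_lipB (l : ℝ) ((x : ℝ) / D) ((y : ℝ) / D) hdiv
    have e1 : 2 * √(D : ℝ) * tB D l y - 2 * √(D : ℝ) * tB D l x = 2 * √(D : ℝ) * (tB D l y - tB D l x) := by ring
    have h0 : 0 ≤ 2 * √(D : ℝ) := by positivity
    rw [e1, abs_mul, abs_of_nonneg h0]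
    have e2 : 2 * √(D : ℝ) / D * ((y : ℝ) - x) = 2 * √(D : ℝ) * ((y : ℝ) / D - (x : ℝ) / D) := by field_simp
    rw [e2]
    exact mul_le_mul_of_nonneg_left h2 h0
  · intro x hx
    have hxR : (x : ℝ) < (l - 1) * D := by
      have : ((x : ℚ) : ℝ) < (((l - 1) * D : ℚ) : ℝ) := by exact_mod_cast hx
      simpa using this
    have h2 : (x : ℝ) / D < l - 1 := by rwa [div_lt_iff₀ hDR]
    have h3 : tB D l x = 0 := by
      unfold tB
      exact max_eq_left ((min_le_right _ _).trans ((min_le_left _ _).trans (by linarith)))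
    rw [h3, mul_zero]
  · intro x hx
    have hxR : ((l : ℝ) + 2) * D < x := by
      have : (((l + 2) * D : ℚ) : ℝ) < ((x : ℚ) : ℝ) := by exact_mod_cast hx
      simpa using this
    have h2 : (l : ℝ) + 2 < (x : ℝ) / D := by rwa [lt_div_iff₀ hDR]
    have h3 : tB D l x = 0 := by
      unfold tB
      exact max_eq_left ((min_le_right _ _).trans ((min_le_right _ _).trans (by linarith)))
    rw [h3, mul_zero]
  · push_cast
    have hsq : √(D : ℝ) ^ 2 = D := Real.sq_sqrt hDR.le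
    have e : (2 * √(D : ℝ) / D) ^ 2 * (((l : ℝ) + 2) * D - (l - 1) * D) = 12 := by
      rw [div_pow, mul_pow, hsq]
      field_simp
      ring
    rw [e]

theorem tA_nonneg (D : ℚ) (l : ℤ) (x : ℚ) : 0 ≤ tA D l x := le_max_left _ _

/-- `tA ≤ 1` on `[l D, (l+1) D)` -/
theorem tA_le (D : ℚ) (hD : 0 < D) (l : ℤ) (x : ℚ) (h : (x : ℝ) < (l + 1) * D) : tA D l x ≤ 1 := by
  have hDR : (0 : ℝ) < D := by exact_mod_cast hD
  have h2 : (x : ℝ) / D < l + 1 := by rwa [div_lt_iff₀ hDR]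
  unfold tA
  exact max_le (by norm_num) ((min_le_left _ _).trans (by linarith))

/-- `2 ≤ tA` on `[(l+2) D, (l+5) D)` -/
theorem tA_ge (D : ℚ) (hD : 0 < D) (l : ℤ) (x : ℚ) (h : ((l : ℝ) + 2) * D ≤ x) (h' : (x : ℝ) < (l + 5) * D) :
    2 ≤ tA D l x := by
  have hDR : (0 : ℝ) < D := by exact_mod_cast hD
  have h2 : (l : ℝ) + 2 ≤ (x : ℝ) / D := by rwa [le_div_iff₀ hDR]
  have h3 : (x : ℝ) / D < l + 5 := by rwa [div_lt_iff₀ hDR]
  unfold tA
  exact (le_min (by linarith) (by linarith)).trans (le_max_right _ _)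

theorem tB_nonneg (D : ℚ) (l : ℤ) (x : ℚ) : 0 ≤ tB D l x := le_max_left _ _

theorem tB_one (D : ℚ) (hD : 0 < D) (l : ℤ) (x : ℚ) (h : (l : ℝ) * D ≤ x) (h' : (x : ℝ) < (l + 1) * D) :
    tB D l x = 1 := by
  have hDR : (0 : ℝ) < D := by exact_mod_cast hD
  have h2 : (l : ℝ) ≤ (x : ℝ) / D := by rwa [le_div_iff₀ hDR]
  have h3 : (x : ℝ) / D < l + 1 := by rwa [div_lt_iff₀ hDR]
  unfold tB
  rw [min_eq_left (le_min (by linarith) (by linarith)), max_eq_right (by norm_num)]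

theorem tB_zero (D : ℚ) (hD : 0 < D) (l : ℤ) (x : ℚ) (h : (x : ℝ) ≤ (l - 1) * D ∨ ((l : ℝ) + 2) * D ≤ x) :
    tB D l x = 0 := by
  have hDR : (0 : ℝ) < D := by exact_mod_cast hD
  unfold tB
  rcases h with h | h
  · have h2 : (x : ℝ) / D ≤ l - 1 := by rwa [div_le_iff₀ hDR]
    exact max_eq_left ((min_le_right _ _).trans ((min_le_left _ _).trans (by linarith)))
  · have h2 : (l : ℝ) + 2 ≤ (x : ℝ) / D := by rwa [le_div_iff₀ hDR]
    exact max_eq_left ((min_le_right _ _).trans ((min_le_right _ _).trans (by linarith)))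

end Pool.Agent.DLM
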