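import Pool.Agent.DLM.PRA

/-!
# DLM/TRA: from the true profile to the Brownian profile

A path which is nearly optimal for the profile `F`, which lies between `f'` and `f` in the order of increments, is nearly
optimal for `f`.
-/

set_option autoImplicit false

open MeasureTheory ProbabilityTheory Filter Topology

namespace Pool.Agent.DLM

theorem transfer {w K : ℕ} {f f' F : Ini} {S : ℕ → Kern} (hw : 2 ≤ w) (hK : 1 ≤ K) (h : EBdd f S)
    (hs : ∀ x y : ℚ, |(x : ℝ)| ≤ (w : ℝ) ^ 600 → |(y : ℝ)| ≤ (w : ℝ) ^ 600 → x ≤ y →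
      f' y - f' x ≤ F y - F x ∧ F y - F x ≤ f y - f x)
    (hc : Conf w f (sfx S K 0)) (hc' : Conf w f' (sfx S K 0))
    (hd : f w - f' w - (f (-w) - f' (-w)) ≤ 1 / (2 * (w : ℝ) ^ 100)) {z : ℕ → ℚ} (hzK : z K = 0)
    (hz0 : |(z 0 : ℝ)| ≤ (w : ℝ) ^ 600)
    (hz : ∀ x, F x + sfx S K 0 x ≤ F (z 0) + wt S z 0 K + 1 / (4 * (w : ℝ) ^ 100)) :
    Near f S K (1 / (w : ℝ) ^ 100) z := by
  have hw1 : (1 : ℝ) ≤ w := by exact_mod_cast (by omega : 1 ≤ w)
  have hm1 : (1 : ℝ) ≤ (w : ℝ) ^ 100 := one_le_pow₀ hw1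
  have hww : (w : ℝ) ≤ (w : ℝ) ^ 600 := by
    calc (w : ℝ) = (w : ℝ) ^ 1 := (pow_one _).symm
      _ ≤ (w : ℝ) ^ 600 := pow_le_pow_right₀ hw1 (by norm_num)
  set δ : ℝ := 1 / (4 * (w : ℝ) ^ 100) with hδ
  have hδ0 : 0 < δ := by positivity
  have hδ1 : δ ≤ 1 := by
    rw [hδ, div_le_one (by positivity)]; linarith
  have e2 : 1 / (2 * (w : ℝ) ^ 100) = 2 * δ := by rw [hδ]; field_simp; norm_num
  have e1 : 1 / (w : ℝ) ^ 100 = 4 * δ := by rw [hδ]; field_simp
  rw [e2] at hd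
  have key : ∀ z' : ℕ → ℚ, z' K = 0 → wt S z' 0 K ≤ sfx S K 0 (z' 0) := by
    intro z' h0
    have h1 := kc_ge h z' 0 (K - 1)
    have e : 0 + (K - 1) + 1 = K := by omega
    rw [e, h0] at h1
    exact h1
  have hk := key z hzK
  have h00 : |((0 : ℚ) : ℝ)| ≤ (w : ℝ) ^ 600 := by
    rw [Rat.cast_zero, abs_zero]; positivity
  have hz00 : |(z 0 : ℝ)| ≤ w := by
    by_contra hcon
    rw [not_le] at hcon
    have g1 := hc (z 0) hcon
    have g2 := hc' (z 0) hcon
    have g3 := hz 0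
    rcases le_total (0 : ℚ) (z 0) with h3 | h3
    · have := (hs 0 (z 0) h00 hz0 h3).2
      linarith
    · have := (hs (z 0) 0 hz0 h00 h3).1
      linarith
  have hin : ∀ x : ℚ, |(x : ℝ)| ≤ w → f x + sfx S K 0 x ≤ f (z 0) + wt S z 0 K + 3 * δ := by
    intro x hx
    have hx6 := hx.trans hww
    have g := hz x
    have g2 : f x - f (z 0) ≤ F x - F (z 0) + 2 * δ := by
      rcases le_total x (z 0) with h3 | h3
      · have := (hs x (z 0) hx6 hz0 h3).2
        linarith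
      · have h4 := (hs (z 0) x hz0 hx6 h3).1
        have hw0 : |((w : ℚ) : ℝ)| ≤ (w : ℝ) ^ 600 := by
          rw [Rat.cast_natCast, abs_of_nonneg (by positivity)]; exact hww
        have hw0' : |((-(w : ℚ) : ℚ) : ℝ)| ≤ (w : ℝ) ^ 600 := by
          rw [Rat.cast_neg, abs_neg]; exact hw0
        have hxw : x ≤ (w : ℚ) := by
          have := (abs_le.1 hx).2
          exact_mod_cast this
        have hzw : -(w : ℚ) ≤ z 0 := by
          have := (abs_le.1 hz00).1
          exact_mod_cast this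
        have h5 := hs x w hx6 hw0 hxw
        have h6 := hs (-w) (z 0) hw0' hz0 hzw
        linarith [h5.1, h5.2, h6.1, h6.2]
    linarith
  have hall : ∀ x : ℚ, f x + sfx S K 0 x ≤ f (z 0) + wt S z 0 K + 3 * δ := by
    intro x
    rcases le_or_gt |(x : ℝ)| w with hx | hx
    · exact hin x hx
    · have g1 := hc x hx
      have g2 := hin 0 (by rw [Rat.cast_zero, abs_zero]; positivity)
      linarith
  obtain ⟨z', h1, h2⟩ := near_exists h K δ hδ0
  refine ⟨hzK, ?_⟩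
  have g1 := key z' h1
  have g2 := hall (z' 0)
  rw [e1]
  linarith

end Pool.Agent.DLM
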