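import Pool.Agent.DLM.Defs

/-!
# DLM/TWF: one point tails (60-100 lines)

`tw_up`: Markov for `exp(c t)` (`Base.mgf`).  `tw_low`: `tw (Iio (-m)) → 0` (`tw` is a probability measure on `ℝ`; continuity from above).  `one_up`, `one_low`: `Base.one` for the point `(x, y)`: `S x y > u` iff `t > θ^(-1/3)(u + (x-y)^2/θ)`.
`comp_ge`: for a.e. `(S, T)`: `S x z + T z y ≤ kcomp S T x y` (`le_ciSup`).
-/

set_option autoImplicit false

open MeasureTheory ProbabilityTheory Filter Topology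

namespace Pool.Agent.DLM

variable {ν : ℝ → Measure Kern} {tw : Measure ℝ} {β : ℝ → Measure Ini}

theorem tw_up (h : Base ν tw β) (c s : ℝ) (hc : 0 < c) :
    tw (Set.Ici s) ≤ ENNReal.ofReal (Real.exp (c ^ 3 / 12 - c * s)) := by
  have h1 := mul_meas_ge_le_lintegral (μ := tw) (f := fun t => ENNReal.ofReal (Real.exp (c * t))) (by fun_prop)
    (ENNReal.ofReal (Real.exp (c * s)))
  have h2 : tw (Set.Ici s) ≤ tw {x | ENNReal.ofReal (Real.exp (c * s)) ≤ ENNReal.ofReal (Real.exp (c * x))} := by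
    refine measure_mono fun t ht => ?_
    have ht' : s ≤ t := ht
    exact ENNReal.ofReal_le_ofReal (Real.exp_le_exp.2 (mul_le_mul_of_nonneg_left ht' hc.le))
  have h3 : ENNReal.ofReal (Real.exp (c * s)) * tw (Set.Ici s) ≤ ENNReal.ofReal (Real.exp (c ^ 3 / 12)) :=
    (mul_le_mul' le_rfl h2).trans (h1.trans (h.mgf c hc))
  calc tw (Set.Ici s) = ENNReal.ofReal (Real.exp (-(c * s))) * (ENNReal.ofReal (Real.exp (c * s)) * tw (Set.Ici s)) := by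
        rw [← mul_assoc, ← ENNReal.ofReal_mul (Real.exp_pos _).le, ← Real.exp_add, neg_add_cancel, Real.exp_zero,
          ENNReal.ofReal_one, one_mul]
    _ ≤ ENNReal.ofReal (Real.exp (-(c * s))) * ENNReal.ofReal (Real.exp (c ^ 3 / 12)) := mul_le_mul' le_rfl h3
    _ = ENNReal.ofReal (Real.exp (c ^ 3 / 12 - c * s)) := by
        rw [← ENNReal.ofReal_mul (Real.exp_pos _).le, ← Real.exp_add]
        congr 2
        ring

theorem tw_low (h : Base ν tw β) (ε : ENNReal) (hε : 0 < ε) : ∃ m : ℝ, 0 ≤ m ∧ tw (Set.Iio (-m)) ≤ ε := by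
  have := h.twprob
  have h1 := ProbabilityTheory.tendsto_cdf_atBot tw
  have h2 : Tendsto (fun x => ENNReal.ofReal (cdf tw x)) atBot (𝓝 0) := by
    have h3 := (ENNReal.continuous_ofReal.tendsto 0).comp h1
    rwa [ENNReal.ofReal_zero] at h3
  have h4 := (h2.eventually (Iio_mem_nhds hε)).and (eventually_le_atBot (0 : ℝ))
  obtain ⟨x, hx, hx0⟩ := h4.exists
  refine ⟨-x, by linarith, ?_⟩
  rw [neg_neg]
  have hx' : ENNReal.ofReal (cdf tw x) < ε := hx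
  rw [ProbabilityTheory.ofReal_cdf] at hx'
  exact (measure_mono Set.Iio_subset_Iic_self).trans hx'.le

theorem one_up (h : Base ν tw β) (θ : ℝ) (hθ : 0 < θ) (x y : ℚ) (u : ℝ) :
    ν θ {S | u ≤ S x y + ((x : ℝ) - y) ^ 2 / θ} = tw (Set.Ici (u / θ ^ (1 / 3 : ℝ))) := by
  have hm : Measurable fun S : Kern => S x y := by fun_prop
  have hm2 : Measurable fun t : ℝ => θ ^ (1 / 3 : ℝ) * t - ((x : ℝ) - y) ^ 2 / θ := by fun_prop
  have h3 : 0 < θ ^ (1 / 3 : ℝ) := Real.rpow_pos_of_pos hθ _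
  have e1 : {S : Kern | u ≤ S x y + ((x : ℝ) - y) ^ 2 / θ} =
      (fun S : Kern => S x y) ⁻¹' Set.Ici (u - ((x : ℝ) - y) ^ 2 / θ) := by
    ext S
    show u ≤ S x y + ((x:ℝ)-y)^2/θ ↔ u - ((x:ℝ)-y)^2/θ ≤ S x y
    constructor <;> intro h9 <;> linarith
  have e2 : (fun t : ℝ => θ ^ (1 / 3 : ℝ) * t - ((x : ℝ) - y) ^ 2 / θ) ⁻¹' Set.Ici (u - ((x : ℝ) - y) ^ 2 / θ) =
      Set.Ici (u / θ ^ (1 / 3 : ℝ)) := by
    ext t
    show u - ((x : ℝ) - y) ^ 2 / θ ≤ θ ^ (1 / 3 : ℝ) * t - ((x : ℝ) - y) ^ 2 / θ ↔ u / θ ^ (1 / 3 : ℝ) ≤ t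
    rw [sub_le_sub_iff_right, div_le_iff₀ h3, mul_comm]
  rw [e1, ← Measure.map_apply hm measurableSet_Ici, h.one θ x y hθ, Measure.map_apply hm2 measurableSet_Ici, e2]

theorem one_low (h : Base ν tw β) (θ : ℝ) (hθ : 0 < θ) (x y : ℚ) (u : ℝ) :
    ν θ {S | S x y + ((x : ℝ) - y) ^ 2 / θ < u} = tw (Set.Iio (u / θ ^ (1 / 3 : ℝ))) := by
  have hm : Measurable fun S : Kern => S x y := by fun_prop
  have hm2 : Measurable fun t : ℝ => θ ^ (1 / 3 : ℝ) * t - ((x : ℝ) - y) ^ 2 / θ := by fun_prop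
  have h3 : 0 < θ ^ (1 / 3 : ℝ) := Real.rpow_pos_of_pos hθ _
  have e1 : {S : Kern | S x y + ((x : ℝ) - y) ^ 2 / θ < u} =
      (fun S : Kern => S x y) ⁻¹' Set.Iio (u - ((x : ℝ) - y) ^ 2 / θ) := by
    ext S
    show S x y + ((x:ℝ)-y)^2/θ < u ↔ S x y < u - ((x:ℝ)-y)^2/θ
    constructor <;> intro h9 <;> linarith
  have e2 : (fun t : ℝ => θ ^ (1 / 3 : ℝ) * t - ((x : ℝ) - y) ^ 2 / θ) ⁻¹' Set.Iio (u - ((x : ℝ) - y) ^ 2 / θ) =
      Set.Iio (u / θ ^ (1 / 3 : ℝ)) := by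
    ext t
    show θ ^ (1 / 3 : ℝ) * t - ((x : ℝ) - y) ^ 2 / θ < u - ((x : ℝ) - y) ^ 2 / θ ↔ t < u / θ ^ (1 / 3 : ℝ)
    rw [sub_lt_sub_iff_right, lt_div_iff₀ h3, mul_comm]
  rw [e1, ← Measure.map_apply hm measurableSet_Iio, h.one θ x y hθ, Measure.map_apply hm2 measurableSet_Iio, e2]

theorem comp_ge (h : Base ν tw β) (θ θ' : ℝ) (hθ : 0 < θ) (hθ' : 0 < θ') :
    ∀ᵐ p ∂((ν θ).prod (ν θ')), ∀ x z y, p.1 x z + p.2 z y ≤ kcomp p.1 p.2 x y := by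
  filter_upwards [h.comp_bdd θ θ' hθ hθ'] with p hp x z y
  exact le_ciSup (hp x y) z

/-- lower bounds for events of the composed sheet -/
theorem comp_meas (h : Base ν tw β) (θ θ' : ℝ) (hθ : 0 < θ) (hθ' : 0 < θ') (A : Set Kern) (hA : MeasurableSet A) :
    ν (θ + θ') A = ((ν θ).prod (ν θ')) {p | kcomp p.1 p.2 ∈ A} := by
  have hm : Measurable fun p : Kern × Kern => kcomp p.1 p.2 := by
    refine measurable_pi_lambda _ fun x => measurable_pi_lambda _ fun y => ?_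
    exact Measurable.iSup fun z => by fun_prop
  rw [← h.comp θ θ' hθ hθ', Measure.map_apply hm hA]
  rfl

end Pool.Agent.DLM
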