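import Pool.Agent.DLM.BDefs
import Pool.Agent.DLM.BMT
import Pool.Agent.DLM.IDN

/-!
# DLM/VNB: the scaled Brownian motion and the lines (60-100 lines)

`vn_bm`: `bm_scale` with `r = n^(-1/6)`, `c = n^(1/3)/2`, `d = 0` (`W 0 = 0` a.s.; variance `n^(-1/3) · 2 · n^(1/3)/2 = 1`).  `vn_lines`: `Lines P (Vn W n) (B n)` (a measurable function of `W`).
`hn_bdd`: for large `n` (`0 < mun a n`) `DBdd` holds a.s. (`idn_bdd`).  `mun_pos`: `mun a n > 0` eventually.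
`hn_moment_n`: `idn` with `T = 1 + 2 y n^(-1/3)`: multiply `dq` by `(mun a n - mun c n) = (a - c) n^(1/6)`:
`E exp((a-c) Hn) = (mun a n/mun c n)^n exp((mun a n^2 - mun c n^2) T/2 - (a-c)(2 n^(2/3) + 2 y n^(1/3)))`.
-/

set_option autoImplicit false

open MeasureTheory ProbabilityTheory Filter Topology

namespace Pool.Agent.DLM

variable {Ω : Type*} [MeasurableSpace Ω] {P : Measure Ω} [IsProbabilityMeasure P] {S : ℝ → ℝ → Ω → ℝ}
  {B : ℕ → ℕ → ℝ → Ω → ℝ} {W : ℝ → Ω → ℝ}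

omit [IsProbabilityMeasure P] in
private theorem bm_congr' {X Y : ℝ → Ω → ℝ} {v b : ℝ} (h : IsBM P X v b) (hY : ∀ t, Measurable (Y t))
    (he : ∀ᵐ ω ∂P, ∀ t, X t ω = Y t ω) : IsBM P Y v b := by
  refine ⟨hY, ?_, ?_, ?_, ?_⟩
  · filter_upwards [h.cont, he] with ω h1 h2
    have : (fun t => Y t ω) = fun t => X t ω := funext fun t => (h2 t).symm
    rw [this]
    exact h1
  · filter_upwards [h.zero, he] with ω h1 h2
    rw [← h2 0]
    exact h1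
  · intro s t hst
    rw [← h.gauss s t hst]
    refine Measure.map_congr ?_
    filter_upwards [he] with ω h2
    rw [h2, h2]
  · intro t ht
    refine (h.indep t ht).congr fun i => ?_
    filter_upwards [he] with ω h2
    rw [h2, h2]

private theorem rp {n : ℕ} (hn : 1 ≤ n) (a b : ℝ) : (n : ℝ) ^ a * (n : ℝ) ^ b = (n : ℝ) ^ (a + b) :=
  (Real.rpow_add (by exact_mod_cast hn) a b).symm

theorem vn_bm (h : Cpl P S B W) (n : ℕ) (hn : 1 ≤ n) : IsBM P (fun s ω => Vn (fun t => W t ω) n s) 1 0 := by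
  have hn0 : (0 : ℝ) < n := by exact_mod_cast hn
  have hc : (0 : ℝ) < (n : ℝ) ^ (1 / 3 : ℝ) / 2 := by positivity
  have h1 := bm_scale h.wbm ((n : ℝ) ^ (-(1 / 6) : ℝ)) ((n : ℝ) ^ (1 / 3 : ℝ) / 2) 0 hc
  have e1 : ((n : ℝ) ^ (-(1 / 6) : ℝ)) ^ 2 * 2 * ((n : ℝ) ^ (1 / 3 : ℝ) / 2) = 1 := by
    have : ((n : ℝ) ^ (-(1 / 6) : ℝ)) ^ 2 * 2 * ((n : ℝ) ^ (1 / 3 : ℝ) / 2) =
        (n : ℝ) ^ (-(1 / 6) : ℝ) * (n : ℝ) ^ (-(1 / 6) : ℝ) * (n : ℝ) ^ (1 / 3 : ℝ) := by ring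
    rw [this, rp hn, rp hn]
    norm_num
  have e2 : (n : ℝ) ^ (-(1 / 6) : ℝ) * 0 * ((n : ℝ) ^ (1 / 3 : ℝ) / 2) = 0 := by ring
  rw [e1, e2] at h1
  refine bm_congr' h1 (fun t => ?_) ?_
  · exact (h.wbm.meas _).const_mul _
  · filter_upwards [h.wbm.zero] with ω h0 t
    unfold Vn
    have e3 : (n : ℝ) ^ (1 / 3 : ℝ) / 2 * t + 0 = t * (n : ℝ) ^ (1 / 3 : ℝ) / 2 := by ring
    rw [e3, h0, sub_zero]

theorem vn_lines (h : Cpl P S B W) (n : ℕ) : Lines P (fun s ω => Vn (fun t => W t ω) n s) (B n) := by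
  refine ⟨h.bm n, h.lines n, ?_⟩
  have m1 : Measurable fun w : ℝ → ℝ => fun s => Vn w n s := by
    refine measurable_pi_lambda _ fun s => ?_
    exact (measurable_pi_apply _).const_mul _
  have m2 : Measurable fun p : (ℝ → ℝ → ℝ) × (ℕ → ℕ → ℝ → ℝ) => p.2 n :=
    (measurable_pi_apply n).comp measurable_snd
  exact h.indep.comp m1 m2

private theorem sqrt_rp (n : ℕ) : √(n : ℝ) = (n : ℝ) ^ (1 / 2 : ℝ) := Real.sqrt_eq_rpow _

theorem mun_pos (a : ℝ) : ∀ᶠ n : ℕ in atTop, 0 < mun a n := by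
  have h1 : Tendsto (fun n : ℕ => (n : ℝ) ^ (1 / 3 : ℝ)) atTop atTop :=
    (tendsto_rpow_atTop (by norm_num)).comp tendsto_natCast_atTop_atTop
  filter_upwards [h1.eventually_gt_atTop (-a), eventually_ge_atTop 1] with n h2 hn
  have hn0 : (0 : ℝ) < n := by exact_mod_cast hn
  have e1 : mun a n = (n : ℝ) ^ (1 / 6 : ℝ) * ((n : ℝ) ^ (1 / 3 : ℝ) + a) := by
    unfold mun
    rw [sqrt_rp, mul_add, rp hn]
    norm_num
    ring
  rw [e1]
  have : 0 < (n : ℝ) ^ (1 / 3 : ℝ) + a := by linarith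
  positivity

theorem hn_bdd (h : Cpl P S B W) (a c : ℝ) : ∀ᶠ n : ℕ in atTop,
    ∀ᵐ ω ∂P, DBdd (fun i t => B n i t ω) n (dft (mun a n) (mun c n) (Vn (fun t => W t ω) n)) := by
  filter_upwards [mun_pos a, eventually_ge_atTop 1] with n ha hn
  exact idn_bdd (vn_bm h n hn) (vn_lines h n) (mun a n) (mun c n) ha n

theorem hn_moment_n (h : Cpl P S B W) (a c y : ℝ) : ∀ᶠ n : ℕ in atTop,
    ∫⁻ ω, ENNReal.ofReal (Real.exp ((a - c) * Hn a c (fun n i t => B n i t ω) (fun t => W t ω) n y)) ∂P =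
      ENNReal.ofReal ((mun a n / mun c n) ^ n * Real.exp ((mun a n ^ 2 - mun c n ^ 2) *
        (1 + 2 * y * (n : ℝ) ^ (-(1 / 3) : ℝ)) / 2 -
        (a - c) * (2 * (n : ℝ) ^ (2 / 3 : ℝ) + 2 * y * (n : ℝ) ^ (1 / 3 : ℝ)))) := by
  have h1 : Tendsto (fun n : ℕ => 1 + 2 * y * (n : ℝ) ^ (-(1 / 3) : ℝ)) atTop (𝓝 (1 + 2 * y * 0)) := by
    refine Tendsto.const_add _ (Tendsto.const_mul _ ?_)
    exact (tendsto_rpow_neg_atTop (by norm_num)).comp tendsto_natCast_atTop_atTop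
  have h2 : ∀ᶠ n : ℕ in atTop, 0 < 1 + 2 * y * (n : ℝ) ^ (-(1 / 3) : ℝ) :=
    h1.eventually_const_lt (by norm_num)
  filter_upwards [mun_pos a, mun_pos c, eventually_ge_atTop 1, h2] with n ha hc hn hT
  have e0 := idn (vn_bm h n hn) (vn_lines h n) (mun a n) (mun c n) ha hc n
    (1 + 2 * y * (n : ℝ) ^ (-(1 / 3) : ℝ)) hT.le
  have hpow : (0 : ℝ) ≤ (mun a n / mun c n) ^ n := by positivity
  have e1 : ∀ ω, ENNReal.ofReal (Real.exp ((a - c) * Hn a c (fun n i t => B n i t ω) (fun t => W t ω) n y)) =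
      ENNReal.ofReal (Real.exp (-((a - c) * (2 * (n : ℝ) ^ (2 / 3 : ℝ) + 2 * y * (n : ℝ) ^ (1 / 3 : ℝ))))) *
      ENNReal.ofReal (Real.exp ((mun a n - mun c n) * dq (fun i t => B n i t ω) n
        (dft (mun a n) (mun c n) fun u => Vn (fun t => W t ω) n u)
          (1 + 2 * y * (n : ℝ) ^ (-(1 / 3) : ℝ)))) := by
    intro ω
    rw [← ENNReal.ofReal_mul (Real.exp_nonneg _), ← Real.exp_add]
    congr 2
    have r1 : (n : ℝ) ^ (2 / 3 : ℝ) = (n : ℝ) ^ (1 / 6 : ℝ) * √(n : ℝ) := by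
      rw [sqrt_rp, rp hn]
      norm_num
    have r2 : (n : ℝ) ^ (1 / 3 : ℝ) = (n : ℝ) ^ (1 / 6 : ℝ) * (n : ℝ) ^ (1 / 6 : ℝ) := by
      rw [rp hn]
      norm_num
    have r3 : mun a n - mun c n = (a - c) * (n : ℝ) ^ (1 / 6 : ℝ) := by
      unfold mun
      ring
    rw [r1, r2, r3]
    unfold Hn
    ring
  rw [lintegral_congr e1, lintegral_const_mul' _ _ ENNReal.ofReal_ne_top, e0,
    ← ENNReal.ofReal_mul (Real.exp_nonneg _)]
  congr 1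
  rw [mul_left_comm, ← Real.exp_add]
  congr 2
  ring

end Pool.Agent.DLM
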